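import Pool.Agent.Helper15.NF.DDefs

open Set MeasureTheory intervalIntegral Filter Topology

namespace Pool.Agent.Helper15.NF

namespace B0

/-! ### the bump -/

/-- smooth bump supported in `[1/10, 9/10]` -/
noncomputable def bump : ContDiffBump (1 / 2 : ℝ) := ⟨1 / 5, 2 / 5, by norm_num, by norm_num⟩

noncomputable def be (u : ℝ) : ℝ := bump u

theorem be_contDiff : ContDiff ℝ 2 be := bump.contDiff

theorem be_nonneg (u : ℝ) : 0 ≤ be u := bump.nonneg

theorem be_le_one (u : ℝ) : be u ≤ 1 := bump.le_one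

theorem be_zero {u : ℝ} (h : 9 / 10 ≤ u ∨ u ≤ 1 / 10) : be u = 0 := by
  apply bump.zero_of_le_dist
  show (2 / 5 : ℝ) ≤ dist u (1 / 2)
  rw [Real.dist_eq, le_abs]
  rcases h with h | h
  · left; linarith
  · right; linarith

theorem be_half : be (1 / 2) = 1 := by
  apply bump.one_of_mem_closedBall
  show (1 / 2 : ℝ) ∈ Metric.closedBall (1 / 2 : ℝ) (1 / 5)
  simp

theorem be_cont : Continuous be := be_contDiff.continuous

theorem be'_contDiff : ContDiff ℝ 1 (deriv be) := by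
  have h := be_contDiff
  have h2 : ContDiff ℝ (1 + 1) be := by
    convert h using 1
    norm_num
  exact (contDiff_succ_iff_deriv.1 h2).2.2

theorem be'_cont : Continuous (deriv be) := be'_contDiff.continuous

theorem be''_cont : Continuous (deriv (deriv be)) :=
  be'_contDiff.continuous_deriv le_rfl

theorem be_hasDeriv (u : ℝ) : HasDerivAt be (deriv be u) u :=
  (be_contDiff.differentiable (by norm_num)).differentiableAt.hasDerivAt

theorem be'_hasDeriv (u : ℝ) : HasDerivAt (deriv be) (deriv (deriv be) u) u :=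
  (be'_contDiff.differentiable (by norm_num)).differentiableAt.hasDerivAt

theorem be'_zero {u : ℝ} (h : 9 / 10 < u ∨ u < 1 / 10) : deriv be u = 0 := by
  have : be =ᶠ[𝓝 u] fun _ => (0:ℝ) := by
    rcases h with h | h
    · filter_upwards [lt_mem_nhds h] with v hv
      exact be_zero (Or.inl hv.le)
    · filter_upwards [gt_mem_nhds h] with v hv
      exact be_zero (Or.inr hv.le)
  rw [this.deriv_eq]
  simp

theorem be'_bdd : ∃ M, ∀ u, |deriv be u| ≤ M := by
  obtain ⟨M, hM⟩ := (isCompact_Icc (a := (0:ℝ)) (b := 1)).exists_bound_of_continuousOn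
    (f := deriv be) be'_cont.continuousOn
  refine ⟨max M 0, fun u => ?_⟩
  by_cases hu : u ∈ Icc (0:ℝ) 1
  · exact (hM u hu).trans (le_max_left _ _)
  · have : deriv be u = 0 := by
      apply be'_zero
      rw [mem_Icc, not_and_or, not_le, not_le] at hu
      rcases hu with hu | hu
      · right; linarith
      · left; linarith
    rw [this, abs_zero]
    exact le_max_right _ _

/-! ### the ray in rescaled arclength -/

noncomputable def xx (xi ε u : ℝ) : ℝ := xi + ∫ v in (0:ℝ)..u, Real.cos (ε * be v)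
noncomputable def yy (ε u : ℝ) : ℝ := ∫ v in (0:ℝ)..u, Real.sin (ε * be v)

theorem cb_cont (ε : ℝ) : Continuous fun v => Real.cos (ε * be v) :=
  Real.continuous_cos.comp (continuous_const.mul be_cont)
theorem sb_cont (ε : ℝ) : Continuous fun v => Real.sin (ε * be v) :=
  Real.continuous_sin.comp (continuous_const.mul be_cont)

theorem xx_hasDeriv (xi ε u : ℝ) : HasDerivAt (xx xi ε) (Real.cos (ε * be u)) u := by
  have := intervalIntegral.integral_hasDerivAt_right
    ((cb_cont ε).intervalIntegrable 0 u)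
    ((cb_cont ε).stronglyMeasurableAtFilter _ _) (cb_cont ε).continuousAt
  exact this.const_add xi

theorem yy_hasDeriv (ε u : ℝ) : HasDerivAt (yy ε) (Real.sin (ε * be u)) u :=
  intervalIntegral.integral_hasDerivAt_right
    ((sb_cont ε).intervalIntegrable 0 u)
    ((sb_cont ε).stronglyMeasurableAtFilter _ _) (sb_cont ε).continuousAt

/-- cosine integral over the bump -/
noncomputable def c0 (ε : ℝ) : ℝ := ∫ v in (0:ℝ)..1, Real.cos (ε * be v)

theorem c0_le (ε : ℝ) : c0 ε ≤ 1 := by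
  have : c0 ε ≤ ∫ v in (0:ℝ)..1, (1:ℝ) := by
    apply intervalIntegral.integral_mono_on zero_le_one ((cb_cont ε).intervalIntegrable _ _)
      (continuous_const.intervalIntegrable _ _)
    intro x _
    exact Real.cos_le_one _
  simpa using this

theorem ang_mem {ε : ℝ} (hε : ε ∈ Ioc (0:ℝ) 1) (u : ℝ) : 0 ≤ ε * be u ∧ ε * be u ≤ ε := by
  have h0 := be_nonneg u
  have h1 := be_le_one u
  exact ⟨mul_nonneg hε.1.le h0, by nlinarith [hε.1]⟩

theorem cos_ge {ε : ℝ} (hε : ε ∈ Ioc (0:ℝ) 1) (u : ℝ) : 1 / 2 ≤ Real.cos (ε * be u) := by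
  obtain ⟨h0, h1⟩ := ang_mem hε u
  have h2 := Real.one_sub_sq_div_two_le_cos (x := ε * be u)
  have h3 : ε * be u ≤ 1 := h1.trans hε.2
  nlinarith

theorem c0_nonneg {ε : ℝ} (hε : ε ∈ Ioc (0:ℝ) 1) : 0 ≤ c0 ε := by
  apply intervalIntegral.integral_nonneg zero_le_one
  intro u _
  linarith [cos_ge hε u]

theorem xx_ge_one {xi ε u : ℝ} (hu : 1 ≤ u) : xx xi ε u = xi + c0 ε + (u - 1) := by
  unfold xx c0
  have h1 : ∫ v in (0:ℝ)..u, Real.cos (ε * be v) =
      (∫ v in (0:ℝ)..1, Real.cos (ε * be v)) + ∫ v in (1:ℝ)..u, Real.cos (ε * be v) :=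
    (intervalIntegral.integral_add_adjacent_intervals ((cb_cont ε).intervalIntegrable _ _)
      ((cb_cont ε).intervalIntegrable _ _)).symm
  have h2 : ∫ v in (1:ℝ)..u, Real.cos (ε * be v) = ∫ v in (1:ℝ)..u, (1:ℝ) := by
    apply intervalIntegral.integral_congr
    intro v hv
    rw [uIcc_of_le hu] at hv
    simp only
    rw [be_zero (Or.inl (by linarith [hv.1]))]
    simp
  rw [h1, h2]
  simp
  ring

theorem yy_ge_one {ε u : ℝ} (hu : 1 ≤ u) : yy ε u = yy ε 1 := by
  unfold yy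
  have h1 : ∫ v in (0:ℝ)..u, Real.sin (ε * be v) =
      (∫ v in (0:ℝ)..1, Real.sin (ε * be v)) + ∫ v in (1:ℝ)..u, Real.sin (ε * be v) :=
    (intervalIntegral.integral_add_adjacent_intervals ((sb_cont ε).intervalIntegrable _ _)
      ((sb_cont ε).intervalIntegrable _ _)).symm
  have h2 : ∫ v in (1:ℝ)..u, Real.sin (ε * be v) = ∫ v in (1:ℝ)..u, (0:ℝ) := by
    apply intervalIntegral.integral_congr
    intro v hv
    rw [uIcc_of_le hu] at hv
    simp only
    rw [be_zero (Or.inl (by linarith [hv.1]))]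
    simp
  rw [h1, h2]
  simp

theorem sin_mem {ε : ℝ} (hε : ε ∈ Ioc (0:ℝ) 1) (u : ℝ) :
    0 ≤ Real.sin (ε * be u) ∧ Real.sin (ε * be u) ≤ ε := by
  obtain ⟨h0, h1⟩ := ang_mem hε u
  have h3 : ε * be u ≤ 1 := h1.trans hε.2
  constructor
  · exact Real.sin_nonneg_of_nonneg_of_le_pi h0 (by linarith [Real.pi_gt_three])
  · exact (Real.sin_le h0).trans h1

theorem yy_mem_of_le {ε u : ℝ} (hε : ε ∈ Ioc (0:ℝ) 1) (hu0 : 0 ≤ u) (hu : u ≤ 1) :
    0 ≤ yy ε u ∧ yy ε u ≤ ε := by
  constructor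
  · apply intervalIntegral.integral_nonneg hu0
    intro v _
    exact (sin_mem hε v).1
  · have : yy ε u ≤ ∫ v in (0:ℝ)..u, ε := by
      apply intervalIntegral.integral_mono_on hu0 ((sb_cont ε).intervalIntegrable _ _)
        (continuous_const.intervalIntegrable _ _)
      intro v _
      exact (sin_mem hε v).2
    simp at this
    nlinarith [hε.1]

theorem yy_mem {ε u : ℝ} (hε : ε ∈ Ioc (0:ℝ) 1) (hu0 : 0 ≤ u) : 0 ≤ yy ε u ∧ yy ε u ≤ ε := by
  by_cases hu : u ≤ 1
  · exact yy_mem_of_le hε hu0 hu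
  · rw [yy_ge_one (not_le.1 hu).le]
    exact yy_mem_of_le hε zero_le_one le_rfl

theorem xx_lower {xi ε u : ℝ} (hε : ε ∈ Ioc (0:ℝ) 1) (hu0 : 0 ≤ u) : xi ≤ xx xi ε u := by
  unfold xx
  have : 0 ≤ ∫ v in (0:ℝ)..u, Real.cos (ε * be v) := by
    apply intervalIntegral.integral_nonneg hu0
    intro v _
    linarith [cos_ge hε v]
  linarith

theorem xx_upper {xi ε u : ℝ} (hu0 : 0 ≤ u) : xx xi ε u ≤ xi + u := by
  unfold xx
  have : ∫ v in (0:ℝ)..u, Real.cos (ε * be v) ≤ ∫ v in (0:ℝ)..u, (1:ℝ) := by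
    apply intervalIntegral.integral_mono_on hu0 ((cb_cont ε).intervalIntegrable _ _)
      (continuous_const.intervalIntegrable _ _)
    intro x _
    exact Real.cos_le_one _
  simp at this
  linarith

theorem xx_cont (xi ε : ℝ) : Continuous (xx xi ε) :=
  continuous_iff_continuousAt.2 fun u => (xx_hasDeriv xi ε u).continuousAt
theorem yy_cont (ε : ℝ) : Continuous (yy ε) :=
  continuous_iff_continuousAt.2 fun u => (yy_hasDeriv ε u).continuousAt

/-- rescaled length of the ray -/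
noncomputable def LL (xi ε r0 : ℝ) : ℝ := 1 / r0 - xi - c0 ε + 1

/-! ### the star -/

section star
variable (st : Star)

theorem ls_pos : 0 < st.ls := by linarith [st.ls_lo]

theorem sg_maps : MapsTo st.sg (Icc 0 1) (Icc 0 1.5) := by
  intro σ hσ
  have h1 := st.ls_lo
  have h2 := st.ls_hi
  unfold Star.sg
  constructor
  · exact mul_nonneg (by linarith) (by linarith [hσ.2])
  · nlinarith [hσ.1, hσ.2]

theorem sg_mem_ls {σ : ℝ} (hσ : σ ∈ Icc (0:ℝ) 1) : st.sg σ ∈ Icc 0 st.ls := by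
  have h1 := st.ls_lo
  unfold Star.sg
  constructor
  · exact mul_nonneg (by linarith) (by linarith [hσ.2])
  · nlinarith [hσ.1, hσ.2]

theorem mem_of_ls {s : ℝ} (hs : s ∈ Icc 0 st.ls) : s ∈ Icc (0:ℝ) 1.5 :=
  ⟨hs.1, by linarith [hs.2, st.ls_hi]⟩

theorem sg_deriv (σ : ℝ) : HasDerivWithinAt st.sg (-st.ls) (Icc 0 1) σ := by
  have h : HasDerivAt (fun σ : ℝ => st.ls * (1 - σ)) (st.ls * (0 - 1)) σ :=
    ((hasDerivAt_const σ (1:ℝ)).sub (hasDerivAt_id σ)).const_mul st.ls
  have h2 : HasDerivAt st.sg (-st.ls) σ := by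
    have : st.ls * (0 - 1) = -st.ls := by ring
    rw [this] at h
    exact h
  exact h2.hasDerivWithinAt

theorem a_s {s : ℝ} (hs : s ∈ Icc (0:ℝ) 1.5) : HasDerivWithinAt st.a (st.h s) (Icc 0 1.5) s := by
  have := st.arc.a_s s hs
  simpa [Star.h] using this

theorem h_s {s : ℝ} (hs : s ∈ Icc (0:ℝ) 1.5) :
    HasDerivWithinAt st.h (st.h s * st.p s) (Icc 0 1.5) s := by
  have hx := st.arc.x_s s hs
  have hy := st.arc.y_s s hs
  have ha := a_s st hs
  have h1 := (hx.mul ha.sin).add (hy.mul ha.cos)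
  have : HasDerivWithinAt st.h (Real.cos (st.a s) * Real.sin (st.a s) +
      st.x s * (Real.cos (st.a s) * st.h s) + (-Real.sin (st.a s) * Real.cos (st.a s) +
      st.y s * (-Real.sin (st.a s) * st.h s))) (Icc 0 1.5) s := h1
  convert this using 1
  unfold Star.p
  ring

theorem comp_sg {f : ℝ → ℝ} {f' σ : ℝ} (_hσ : σ ∈ Icc (0:ℝ) 1)
    (h : HasDerivWithinAt f f' (Icc 0 1.5) (st.sg σ)) :
    HasDerivWithinAt (fun σ => f (st.sg σ)) (f' * -st.ls) (Icc 0 1) σ :=
  HasDerivWithinAt.comp σ h (sg_deriv st σ) (sg_maps st)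

theorem sg_cont : Continuous st.sg := by
  unfold Star.sg
  exact continuous_const.mul (continuous_const.sub continuous_id)

theorem a_contOn : ContinuousOn st.a (Icc 0 1.5) := fun s hs => (a_s st hs).continuousWithinAt
theorem x_contOn : ContinuousOn st.x (Icc 0 1.5) :=
  fun s hs => (st.arc.x_s s hs).continuousWithinAt
theorem y_contOn : ContinuousOn st.y (Icc 0 1.5) :=
  fun s hs => (st.arc.y_s s hs).continuousWithinAt
theorem h_contOn : ContinuousOn st.h (Icc 0 1.5) := fun s hs => (h_s st hs).continuousWithinAt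
theorem p_contOn : ContinuousOn st.p (Icc 0 1.5) := by
  unfold Star.p
  exact ((x_contOn st).mul (Real.continuous_cos.comp_continuousOn (a_contOn st))).sub
    ((y_contOn st).mul (Real.continuous_sin.comp_continuousOn (a_contOn st)))

theorem comp_cont {f : ℝ → ℝ} (h : ContinuousOn f (Icc 0 1.5)) :
    ContinuousOn (fun σ => f (st.sg σ)) (Icc 0 1) :=
  h.comp (sg_cont st).continuousOn (sg_maps st)

theorem a_mono : StrictMonoOn st.a (Icc 0 st.ls) := by
  have hsub : Icc 0 st.ls ⊆ Icc (0:ℝ) 1.5 := fun s hs => mem_of_ls st hs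
  apply strictMonoOn_of_deriv_pos (convex_Icc 0 st.ls) ((a_contOn st).mono hsub)
  intro s hs
  rw [interior_Icc] at hs
  have hs' : s ∈ Icc 0 st.ls := ⟨hs.1.le, hs.2.le⟩
  have h1 : HasDerivAt st.a (st.h s) s :=
    (a_s st (hsub hs')).hasDerivAt (Icc_mem_nhds hs.1 (by linarith [hs.2, st.ls_hi]))
  rw [h1.deriv]
  have := st.h_lo s hs'
  unfold Star.h
  linarith

theorem a_mem {s : ℝ} (hs : s ∈ Icc 0 st.ls) : 0 ≤ st.a s ∧ st.a s ≤ Real.pi / 3 := by
  have hm := (a_mono st).monotoneOn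
  have h0 : (0:ℝ) ∈ Icc 0 st.ls := ⟨le_rfl, (ls_pos st).le⟩
  have h1 : st.ls ∈ Icc 0 st.ls := ⟨(ls_pos st).le, le_rfl⟩
  constructor
  · have := hm h0 hs hs.1
    rw [st.arc.a_0] at this
    exact this
  · have := hm hs h1 hs.2
    rw [st.a_ls] at this
    exact this

theorem cos_pos {s : ℝ} (hs : s ∈ Icc 0 st.ls) : 0 < Real.cos (st.a s) := by
  obtain ⟨h0, h1⟩ := a_mem st hs
  apply Real.cos_pos_of_mem_Ioo
  constructor
  · linarith [Real.pi_pos]
  · linarith [Real.pi_pos]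

theorem x_mono : StrictMonoOn st.x (Icc 0 st.ls) := by
  have hsub : Icc 0 st.ls ⊆ Icc (0:ℝ) 1.5 := fun s hs => mem_of_ls st hs
  apply strictMonoOn_of_deriv_pos (convex_Icc 0 st.ls) ((x_contOn st).mono hsub)
  intro s hs
  rw [interior_Icc] at hs
  have hs' : s ∈ Icc 0 st.ls := ⟨hs.1.le, hs.2.le⟩
  have h1 : HasDerivAt st.x (Real.cos (st.a s)) s :=
    (st.arc.x_s s (hsub hs')).hasDerivAt (Icc_mem_nhds hs.1 (by linarith [hs.2, st.ls_hi]))
  rw [h1.deriv]
  exact cos_pos st hs'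

theorem sg_zero : st.sg 0 = st.ls := by unfold Star.sg; ring
theorem sg_one : st.sg 1 = 0 := by unfold Star.sg; ring

/-- area of the exact lens -/
theorem star_area :
    st.ls * ∫ σ in (0:ℝ)..1, st.y (st.sg σ) * Real.cos (st.a (st.sg σ)) = Real.pi / 6 := by
  have hder : ∀ s ∈ Icc (0:ℝ) 1.5, HasDerivWithinAt (fun s => st.a s + st.x s * st.y s)
      (2 * (st.y s * Real.cos (st.a s))) (Icc 0 1.5) s := by
    intro s hs
    have hx := st.arc.x_s s hs
    have hy := st.arc.y_s s hs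
    have ha := a_s st hs
    have h1 := ha.add (hx.mul hy)
    have h2 : 2 * (st.y s * Real.cos (st.a s)) =
        st.h s + (Real.cos (st.a s) * st.y s + st.x s * -Real.sin (st.a s)) := by
      unfold Star.h
      ring
    rw [h2]
    exact h1
  have hG : ∀ σ ∈ Icc (0:ℝ) 1,
      HasDerivWithinAt (fun σ => st.a (st.sg σ) + st.x (st.sg σ) * st.y (st.sg σ))
      (2 * (st.y (st.sg σ) * Real.cos (st.a (st.sg σ))) * -st.ls) (Icc 0 1) σ :=
    fun σ hσ => comp_sg st hσ (hder _ (sg_maps st hσ))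
  have hcont : ContinuousOn (fun σ => 2 * (st.y (st.sg σ) * Real.cos (st.a (st.sg σ))) * -st.ls)
      (Icc 0 1) :=
    (continuousOn_const.mul ((comp_cont st (y_contOn st)).mul
      (Real.continuous_cos.comp_continuousOn (comp_cont st (a_contOn st))))).mul continuousOn_const
  have hI := intervalIntegral.integral_eq_sub_of_hasDerivAt_of_le (zero_le_one (α := ℝ))
    (fun σ hσ => (hG σ hσ).continuousWithinAt)
    (fun σ hσ => (hG σ ⟨hσ.1.le, hσ.2.le⟩).hasDerivAt (Icc_mem_nhds hσ.1 hσ.2))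
    (hcont.intervalIntegrable_of_Icc zero_le_one)
  rw [sg_one, sg_zero, st.arc.a_0, st.arc.x_0, st.a_ls, st.y_ls] at hI
  have h2 : (∫ σ in (0:ℝ)..1, 2 * (st.y (st.sg σ) * Real.cos (st.a (st.sg σ))) * -st.ls) =
      (-2 * st.ls) * ∫ σ in (0:ℝ)..1, st.y (st.sg σ) * Real.cos (st.a (st.sg σ)) := by
    rw [← intervalIntegral.integral_const_mul]
    apply intervalIntegral.integral_congr
    intro σ _
    simp only
    ring
  rw [h2] at hI
  linarith

end star

/-! ### the initial data -/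

theorem off0 : off 0 = 2 * Real.pi / 3 := rfl
theorem off1 : off 1 = -(2 * Real.pi / 3) := rfl
theorem off2 : off 2 = 0 := rfl

theorem cos_a0 (x : ℝ) : Real.cos (Real.pi / 3 - x + off 0) = -Real.cos x := by
  rw [off0, show Real.pi / 3 - x + 2 * Real.pi / 3 = Real.pi - x by ring, Real.cos_pi_sub]
theorem sin_a0 (x : ℝ) : Real.sin (Real.pi / 3 - x + off 0) = Real.sin x := by
  rw [off0, show Real.pi / 3 - x + 2 * Real.pi / 3 = Real.pi - x by ring, Real.sin_pi_sub]
theorem cos_a1 (x : ℝ) : Real.cos (x - Real.pi / 3 + off 1) = -Real.cos x := by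
  rw [off1, show x - Real.pi / 3 + -(2 * Real.pi / 3) = x - Real.pi by ring, Real.cos_sub_pi]
theorem sin_a1 (x : ℝ) : Real.sin (x - Real.pi / 3 + off 1) = -Real.sin x := by
  rw [off1, show x - Real.pi / 3 + -(2 * Real.pi / 3) = x - Real.pi by ring, Real.sin_sub_pi]

theorem lin_deriv (L σ : ℝ) : HasDerivAt (fun σ : ℝ => L * σ) L σ := by
  simpa using (hasDerivAt_id σ).const_mul L

/-- the initial data -/
noncomputable def Ini (st : Star) (ε r0 : ℝ) (hr : 0 < r0) (hL : 1 ≤ LL st.xi ε r0) : Init 1 where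
  ell := ![r0 * st.ls, r0 * st.ls, r0 * LL st.xi ε r0]
  th := ![fun σ => Real.pi / 3 - st.a (st.sg σ), fun σ => st.a (st.sg σ) - Real.pi / 3,
    fun σ => ε * be (LL st.xi ε r0 * σ)]
  k := ![fun σ => st.h (st.sg σ) / r0, fun σ => -(st.h (st.sg σ) / r0),
    fun σ => ε * deriv be (LL st.xi ε r0 * σ) / r0]
  ks := ![fun σ => -(st.h (st.sg σ) * st.p (st.sg σ) / r0 ^ 2),
    fun σ => st.h (st.sg σ) * st.p (st.sg σ) / r0 ^ 2,
    fun σ => ε * deriv (deriv be) (LL st.xi ε r0 * σ) / r0 ^ 2]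
  X := ![fun σ => r0 * st.x (st.sg σ), fun σ => r0 * st.x (st.sg σ),
    fun σ => r0 * xx st.xi ε (LL st.xi ε r0 * σ)]
  Y := ![fun σ => r0 * st.y (st.sg σ), fun σ => -(r0 * st.y (st.sg σ)),
    fun σ => r0 * yy ε (LL st.xi ε r0 * σ)]
  ell_pos := by
    intro i
    fin_cases i
    · exact mul_pos hr (ls_pos st)
    · exact mul_pos hr (ls_pos st)
    · exact mul_pos hr (by linarith)
  ks_cont := by
    intro i
    fin_cases i
    · exact (((comp_cont st (h_contOn st)).mul (comp_cont st (p_contOn st))).div_const _).neg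
    · exact ((comp_cont st (h_contOn st)).mul (comp_cont st (p_contOn st))).div_const _
    · exact ((continuous_const.mul (be''_cont.comp (continuous_const.mul
        continuous_id))).div_const _).continuousOn
  th_s := by
    intro i σ hσ
    fin_cases i
    · have h := (comp_sg st hσ (a_s st (sg_maps st hσ))).const_sub (Real.pi / 3)
      have e : r0 * st.ls * (st.h (st.sg σ) / r0) = -(st.h (st.sg σ) * -st.ls) := by
        field_simp
      show HasDerivWithinAt (fun σ => Real.pi / 3 - st.a (st.sg σ))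
        (r0 * st.ls * (st.h (st.sg σ) / r0)) (Icc 0 1) σ
      rw [e]
      exact h
    · have h := (comp_sg st hσ (a_s st (sg_maps st hσ))).sub_const (Real.pi / 3)
      have e : r0 * st.ls * -(st.h (st.sg σ) / r0) = (st.h (st.sg σ) * -st.ls) := by
        field_simp
      show HasDerivWithinAt (fun σ => st.a (st.sg σ) - Real.pi / 3)
        (r0 * st.ls * -(st.h (st.sg σ) / r0)) (Icc 0 1) σ
      rw [e]
      exact h
    · have h := ((be_hasDeriv (LL st.xi ε r0 * σ)).comp σ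
        (lin_deriv (LL st.xi ε r0) σ)).const_mul ε
      have e : r0 * LL st.xi ε r0 * (ε * deriv be (LL st.xi ε r0 * σ) / r0) =
        ε * (deriv be (LL st.xi ε r0 * σ) * LL st.xi ε r0) := by
        field_simp
      show HasDerivWithinAt (fun σ => ε * be (LL st.xi ε r0 * σ))
        (r0 * LL st.xi ε r0 * (ε * deriv be (LL st.xi ε r0 * σ) / r0)) (Icc 0 1) σ
      rw [e]
      exact h.hasDerivWithinAt
  k_s := by
    intro i σ hσ
    fin_cases i
    · have h := (comp_sg st hσ (h_s st (sg_maps st hσ))).div_const r0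
      have e : r0 * st.ls * -(st.h (st.sg σ) * st.p (st.sg σ) / r0 ^ 2) =
        st.h (st.sg σ) * st.p (st.sg σ) * -st.ls / r0 := by
        field_simp
      show HasDerivWithinAt (fun σ => st.h (st.sg σ) / r0)
        (r0 * st.ls * -(st.h (st.sg σ) * st.p (st.sg σ) / r0 ^ 2)) (Icc 0 1) σ
      rw [e]
      exact h
    · have h := ((comp_sg st hσ (h_s st (sg_maps st hσ))).div_const r0).neg
      have e : r0 * st.ls * (st.h (st.sg σ) * st.p (st.sg σ) / r0 ^ 2) =
        -(st.h (st.sg σ) * st.p (st.sg σ) * -st.ls / r0) := by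
        field_simp
      show HasDerivWithinAt (fun σ => -(st.h (st.sg σ) / r0))
        (r0 * st.ls * (st.h (st.sg σ) * st.p (st.sg σ) / r0 ^ 2)) (Icc 0 1) σ
      rw [e]
      exact h
    · have h := (((be'_hasDeriv (LL st.xi ε r0 * σ)).comp σ
        (lin_deriv (LL st.xi ε r0) σ)).const_mul ε).div_const r0
      have e : r0 * LL st.xi ε r0 * (ε * deriv (deriv be) (LL st.xi ε r0 * σ) / r0 ^ 2) =
        ε * (deriv (deriv be) (LL st.xi ε r0 * σ) * LL st.xi ε r0) / r0 := by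
        field_simp
      show HasDerivWithinAt (fun σ => ε * deriv be (LL st.xi ε r0 * σ) / r0)
        (r0 * LL st.xi ε r0 * (ε * deriv (deriv be) (LL st.xi ε r0 * σ) / r0 ^ 2)) (Icc 0 1) σ
      rw [e]
      exact h.hasDerivWithinAt
  X_s := by
    intro i σ hσ
    fin_cases i
    · have h := (comp_sg st hσ (st.arc.x_s _ (sg_maps st hσ))).const_mul r0
      have e : r0 * st.ls * Real.cos (Real.pi / 3 - st.a (st.sg σ) + off 0) =
        r0 * (Real.cos (st.a (st.sg σ)) * -st.ls) := by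
        rw [cos_a0]; ring
      show HasDerivWithinAt (fun σ => r0 * st.x (st.sg σ))
        (r0 * st.ls * Real.cos (Real.pi / 3 - st.a (st.sg σ) + off 0)) (Icc 0 1) σ
      rw [e]
      exact h
    · have h := (comp_sg st hσ (st.arc.x_s _ (sg_maps st hσ))).const_mul r0
      have e : r0 * st.ls * Real.cos (st.a (st.sg σ) - Real.pi / 3 + off 1) =
        r0 * (Real.cos (st.a (st.sg σ)) * -st.ls) := by
        rw [cos_a1]; ring
      show HasDerivWithinAt (fun σ => r0 * st.x (st.sg σ))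
        (r0 * st.ls * Real.cos (st.a (st.sg σ) - Real.pi / 3 + off 1)) (Icc 0 1) σ
      rw [e]
      exact h
    · have h := ((xx_hasDeriv st.xi ε (LL st.xi ε r0 * σ)).comp σ
        (lin_deriv (LL st.xi ε r0) σ)).const_mul r0
      have e : r0 * LL st.xi ε r0 * Real.cos (ε * be (LL st.xi ε r0 * σ) + off 2) =
        r0 * (Real.cos (ε * be (LL st.xi ε r0 * σ)) * LL st.xi ε r0) := by
        rw [off2, add_zero]; ring
      show HasDerivWithinAt (fun σ => r0 * xx st.xi ε (LL st.xi ε r0 * σ))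
        (r0 * LL st.xi ε r0 * Real.cos (ε * be (LL st.xi ε r0 * σ) + off 2)) (Icc 0 1) σ
      rw [e]
      exact h.hasDerivWithinAt
  Y_s := by
    intro i σ hσ
    fin_cases i
    · have h := (comp_sg st hσ (st.arc.y_s _ (sg_maps st hσ))).const_mul r0
      have e : r0 * st.ls * Real.sin (Real.pi / 3 - st.a (st.sg σ) + off 0) =
        r0 * (-Real.sin (st.a (st.sg σ)) * -st.ls) := by
        rw [sin_a0]; ring
      show HasDerivWithinAt (fun σ => r0 * st.y (st.sg σ))
        (r0 * st.ls * Real.sin (Real.pi / 3 - st.a (st.sg σ) + off 0)) (Icc 0 1) σ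
      rw [e]
      exact h
    · have h := ((comp_sg st hσ (st.arc.y_s _ (sg_maps st hσ))).const_mul r0).neg
      have e : r0 * st.ls * Real.sin (st.a (st.sg σ) - Real.pi / 3 + off 1) =
        -(r0 * (-Real.sin (st.a (st.sg σ)) * -st.ls)) := by
        rw [sin_a1]; ring
      show HasDerivWithinAt (fun σ => -(r0 * st.y (st.sg σ)))
        (r0 * st.ls * Real.sin (st.a (st.sg σ) - Real.pi / 3 + off 1)) (Icc 0 1) σ
      rw [e]
      exact h
    · have h := ((yy_hasDeriv ε (LL st.xi ε r0 * σ)).comp σ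
        (lin_deriv (LL st.xi ε r0) σ)).const_mul r0
      have e : r0 * LL st.xi ε r0 * Real.sin (ε * be (LL st.xi ε r0 * σ) + off 2) =
        r0 * (Real.sin (ε * be (LL st.xi ε r0 * σ)) * LL st.xi ε r0) := by
        rw [off2, add_zero]; ring
      show HasDerivWithinAt (fun σ => r0 * yy ε (LL st.xi ε r0 * σ))
        (r0 * LL st.xi ε r0 * Real.sin (ε * be (LL st.xi ε r0 * σ) + off 2)) (Icc 0 1) σ
      rw [e]
      exact h.hasDerivWithinAt
  th_J := by
    intro i
    have hb : be (LL st.xi ε r0 * 0) = 0 := be_zero (Or.inr (by norm_num))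
    fin_cases i
    · show Real.pi / 3 - st.a (st.sg 0) = ε * be (LL st.xi ε r0 * 0)
      rw [hb, sg_zero, st.a_ls]; ring
    · show st.a (st.sg 0) - Real.pi / 3 = ε * be (LL st.xi ε r0 * 0)
      rw [hb, sg_zero, st.a_ls]; ring
    · rfl
  X_J := by
    intro i
    have hb : xx st.xi ε (LL st.xi ε r0 * 0) = st.xi := by
      simp [xx]
    fin_cases i
    · show r0 * st.x (st.sg 0) = r0 * xx st.xi ε (LL st.xi ε r0 * 0)
      rw [hb, sg_zero]; rfl
    · show r0 * st.x (st.sg 0) = r0 * xx st.xi ε (LL st.xi ε r0 * 0)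
      rw [hb, sg_zero]; rfl
    · rfl
  Y_J := by
    intro i
    have hb : yy ε (LL st.xi ε r0 * 0) = 0 := by
      simp [yy]
    fin_cases i
    · show r0 * st.y (st.sg 0) = r0 * yy ε (LL st.xi ε r0 * 0)
      rw [hb, sg_zero, st.y_ls]
    · show -(r0 * st.y (st.sg 0)) = r0 * yy ε (LL st.xi ε r0 * 0)
      rw [hb, sg_zero, st.y_ls]; ring
    · rfl
  k_J := by
    rw [Fin.sum_univ_three]
    show st.h (st.sg 0) / r0 + -(st.h (st.sg 0) / r0) +
      ε * deriv be (LL st.xi ε r0 * 0) / r0 = 0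
    rw [be'_zero (Or.inr (by norm_num))]
    ring
  th_axis0 := by
    show Real.pi / 3 - st.a (st.sg 1) = Real.pi / 3
    rw [sg_one, st.arc.a_0]; ring
  th_axis1 := by
    show st.a (st.sg 1) - Real.pi / 3 = -(Real.pi / 3)
    rw [sg_one, st.arc.a_0]; ring
  X_axis0 := by
    show r0 * st.x (st.sg 1) = 0
    rw [sg_one, st.arc.x_0]; ring
  X_axis1 := by
    show r0 * st.x (st.sg 1) = 0
    rw [sg_one, st.arc.x_0]; ring
  X_far := by
    show r0 * xx st.xi ε (LL st.xi ε r0 * 1) = 1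
    rw [mul_one, xx_ge_one hL]
    unfold LL
    field_simp
    ring
  k_far := by
    show ε * deriv be (LL st.xi ε r0 * 1) / r0 = 0
    rw [be'_zero (Or.inl (by linarith))]
    ring

/-! ### positivity of the test function on the ray -/

theorem p1_pos : 0 < p1 1.18 := by
  unfold p1 a1 slope1 w1
  norm_num

theorem zeta1_eq {y : ℝ} (h : 1.18 < y) : zeta1 y =
    max (p1 1.18 * Real.exp ((1.18 ^ 2 - y ^ 2) / 2) * (w1 y / w1 1.18)) 0 := by
  unfold zeta1 Z1
  rw [if_neg (not_le.2 h)]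

theorem zeta1_nonneg (y : ℝ) : 0 ≤ zeta1 y := le_max_right _ _

theorem zeta1_pos {y : ℝ} (h : 1.18 < y) (h2 : y ≤ 2) : 0 < zeta1 y := by
  rw [zeta1_eq h]
  apply lt_max_of_lt_left
  have h3 : 0 < w1 y := by unfold w1; nlinarith
  have h4 : 0 < w1 1.18 := by unfold w1; norm_num
  exact mul_pos (mul_pos p1_pos (Real.exp_pos _)) (div_pos h3 h4)

theorem S_arc0 (st : Star) {ε r0 : ℝ} (hr : 0 < r0) (hL : 1 ≤ LL st.xi ε r0) (σ : ℝ) :
    ((Ini st ε r0 hr hL).raw r0 0).S 0 σ = 0 := by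
  show r0 * (st.h (st.sg σ) / r0) +
    (-(r0 * st.x (st.sg σ) / r0 * Real.sin (Real.pi / 3 - st.a (st.sg σ) + off 0)) +
      (r0 * st.y (st.sg σ) - 0) / r0 * Real.cos (Real.pi / 3 - st.a (st.sg σ) + off 0)) = 0
  rw [cos_a0, sin_a0, sub_zero, mul_div_cancel_left₀ _ hr.ne', mul_div_cancel_left₀ _ hr.ne',
    mul_div_cancel₀ _ hr.ne']
  unfold Star.h
  ring

theorem S_arc1 (st : Star) {ε r0 : ℝ} (hr : 0 < r0) (hL : 1 ≤ LL st.xi ε r0) (σ : ℝ) :
    ((Ini st ε r0 hr hL).raw r0 0).S 1 σ = 0 := by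
  show r0 * -(st.h (st.sg σ) / r0) +
    (-(r0 * st.x (st.sg σ) / r0 * Real.sin (st.a (st.sg σ) - Real.pi / 3 + off 1)) +
      (-(r0 * st.y (st.sg σ)) - 0) / r0 * Real.cos (st.a (st.sg σ) - Real.pi / 3 + off 1)) = 0
  rw [cos_a1, sin_a1, sub_zero, neg_div, mul_div_cancel_left₀ _ hr.ne',
    mul_div_cancel_left₀ _ hr.ne', mul_neg, mul_div_cancel₀ _ hr.ne']
  unfold Star.h
  ring

/-- `S` along the ray, in terms of the rescaled arclength -/
noncomputable def SR (xi ε u : ℝ) : ℝ :=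
  ε * deriv be u + (-(xx xi ε u * Real.sin (ε * be u)) + yy ε u * Real.cos (ε * be u))

theorem S_ray (st : Star) {ε r0 : ℝ} (hr : 0 < r0) (hL : 1 ≤ LL st.xi ε r0) (σ : ℝ) :
    ((Ini st ε r0 hr hL).raw r0 0).S 2 σ = SR st.xi ε (LL st.xi ε r0 * σ) := by
  show r0 * (ε * deriv be (LL st.xi ε r0 * σ) / r0) +
    (-(r0 * xx st.xi ε (LL st.xi ε r0 * σ) / r0 * Real.sin (ε * be (LL st.xi ε r0 * σ) + off 2)) +
      (r0 * yy ε (LL st.xi ε r0 * σ) - 0) / r0 *
        Real.cos (ε * be (LL st.xi ε r0 * σ) + off 2)) = _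
  rw [off2, add_zero, sub_zero, mul_div_cancel_left₀ _ hr.ne', mul_div_cancel_left₀ _ hr.ne',
    mul_div_cancel₀ _ hr.ne']
  rfl

theorem SR_cont (xi ε : ℝ) : Continuous (SR xi ε) := by
  unfold SR
  exact (continuous_const.mul be'_cont).add (((xx_cont xi ε).mul (sb_cont ε)).neg.add
    ((yy_cont ε).mul (cb_cont ε)))

theorem SR_bound {xi ε u M : ℝ} (hε : ε ∈ Ioc (0:ℝ) 1) (hM : ∀ u, |deriv be u| ≤ M)
    (hxi1 : 0 ≤ xi) (hxi2 : xi ≤ 1.197) (hu : 0 ≤ u) : SR xi ε u ^ 2 ≤ (M + 3.2) ^ 2 * ε ^ 2 := by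
  have hM0 : 0 ≤ M := (abs_nonneg _).trans (hM 0)
  have h1 : |ε * deriv be u| ≤ M * ε := by
    rw [abs_mul, abs_of_pos hε.1, mul_comm]
    exact mul_le_mul_of_nonneg_right (hM u) hε.1.le
  have h2 : |xx xi ε u * Real.sin (ε * be u)| ≤ 2.2 * ε := by
    by_cases hu1 : u ≤ 1
    · have hx1 := xx_upper (xi := xi) (ε := ε) hu
      have hx0 := xx_lower (xi := xi) hε hu
      obtain ⟨hs0, hs1⟩ := sin_mem hε u
      rw [abs_of_nonneg (mul_nonneg (by linarith) hs0)]
      exact mul_le_mul (by linarith) hs1 hs0 (by norm_num)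
    · rw [be_zero (Or.inl (by linarith [not_le.1 hu1])), mul_zero, Real.sin_zero, mul_zero,
        abs_zero]
      linarith [hε.1]
  have h3 : |yy ε u * Real.cos (ε * be u)| ≤ ε := by
    obtain ⟨hy0, hy1⟩ := yy_mem hε hu
    rw [abs_mul, abs_of_nonneg hy0]
    have := Real.abs_cos_le_one (ε * be u)
    calc yy ε u * |Real.cos (ε * be u)| ≤ yy ε u * 1 := by
          exact mul_le_mul_of_nonneg_left this hy0
      _ ≤ ε := by linarith
  have h4 : |SR xi ε u| ≤ (M + 3.2) * ε := by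
    unfold SR
    calc _ ≤ |ε * deriv be u| + (|xx xi ε u * Real.sin (ε * be u)| +
          |yy ε u * Real.cos (ε * be u)|) := by
          refine (abs_add_le _ _).trans (add_le_add le_rfl ((abs_add_le _ _).trans ?_))
          rw [abs_neg]
      _ ≤ M * ε + (2.2 * ε + ε) := add_le_add h1 (add_le_add h2 h3)
      _ = (M + 3.2) * ε := by ring
  rw [← sq_abs, ← mul_pow]
  exact pow_le_pow_left₀ (abs_nonneg _) h4 2

theorem cut_cont : Continuous cut := by
  unfold cut chi
  exact (Real.smoothTransition.continuous.comp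
    (continuous_const.sub (continuous_const.mul continuous_id))).pow 2

theorem cut_le_one (z : ℝ) : cut z ≤ 1 := by
  unfold cut chi
  exact pow_le_one₀ (Real.smoothTransition.nonneg _) (Real.smoothTransition.le_one _)

theorem cut_nonneg (z : ℝ) : 0 ≤ cut z := by
  unfold cut
  positivity

theorem w_ray (st : Star) {ε r0 : ℝ} (hr : 0 < r0) (hL : 1 ≤ LL st.xi ε r0) (R σ : ℝ) :
    ((Ini st ε r0 hr hL).raw r0 0).w R 2 σ =
      Real.exp (-((xx st.xi ε (LL st.xi ε r0 * σ) ^ 2 + yy ε (LL st.xi ε r0 * σ) ^ 2) / 2)) *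
        cut (xx st.xi ε (LL st.xi ε r0 * σ) / R) := by
  show Real.exp (-(((r0 * xx st.xi ε (LL st.xi ε r0 * σ) / r0) ^ 2 +
      ((r0 * yy ε (LL st.xi ε r0 * σ) - 0) / r0) ^ 2) / 2)) *
        cut ((r0 * xx st.xi ε (LL st.xi ε r0 * σ) / r0) / R) = _
  rw [sub_zero, mul_div_cancel_left₀ _ hr.ne', mul_div_cancel_left₀ _ hr.ne']

theorem D_bound (st : Star) {ε r0 M : ℝ} (hε : ε ∈ Ioc (0:ℝ) 1) (hr : 0 < r0)
    (hL : 1 ≤ LL st.xi ε r0) (hM : ∀ u, |deriv be u| ≤ M) :
    ((Ini st ε r0 hr hL).raw r0 0).D (1 / r0) ≤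
      2 * Real.exp (1 / 2) * (M + 3.2) ^ 2 * ε ^ 2 := by
  have hxi1 : 1.187 ≤ st.xi := st.xi_lo
  have hxi2 : st.xi ≤ 1.197 := st.xi_hi
  unfold Raw.D
  rw [Fin.sum_univ_three]
  have e0 : ((Ini st ε r0 hr hL).raw r0 0).I 0 (fun σ =>
      ((Ini st ε r0 hr hL).raw r0 0).S 0 σ ^ 2 *
        ((Ini st ε r0 hr hL).raw r0 0).w (1 / r0) 0 σ) = 0 := by
    unfold Raw.I
    simp only [S_arc0]
    simp
  have e1 : ((Ini st ε r0 hr hL).raw r0 0).I 1 (fun σ =>
      ((Ini st ε r0 hr hL).raw r0 0).S 1 σ ^ 2 *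
        ((Ini st ε r0 hr hL).raw r0 0).w (1 / r0) 1 σ) = 0 := by
    unfold Raw.I
    simp only [S_arc1]
    simp
  rw [e0, e1, zero_add, zero_add]
  unfold Raw.I
  simp only [S_ray, w_ray]
  have eL : ((Ini st ε r0 hr hL).raw r0 0).L 2 = LL st.xi ε r0 := by
    show r0 * LL st.xi ε r0 / r0 = _
    rw [mul_div_cancel_left₀ _ hr.ne']
  rw [eL]
  set L := LL st.xi ε r0 with hLdef
  set A : ℝ := 2 * Real.exp (1 / 2) * (M + 3.2) ^ 2 * ε ^ 2 with hA
  have hA0 : 0 ≤ A := by positivity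
  have hcL : Continuous fun σ : ℝ => L * σ := continuous_const.mul continuous_id
  have hbd : ∀ σ ∈ Icc (0:ℝ) 1,
      SR st.xi ε (L * σ) ^ 2 * (Real.exp (-((xx st.xi ε (L * σ) ^ 2 + yy ε (L * σ) ^ 2) / 2)) *
        cut (xx st.xi ε (L * σ) / (1 / r0))) ≤
      A * (Real.exp (-xx st.xi ε (L * σ)) * Real.cos (ε * be (L * σ))) := by
    intro σ hσ
    have hu : 0 ≤ L * σ := mul_nonneg (by linarith) hσ.1
    have h1 := SR_bound (xi := st.xi) hε hM (by linarith) hxi2 hu
    have h2 : Real.exp (-((xx st.xi ε (L * σ) ^ 2 + yy ε (L * σ) ^ 2) / 2)) ≤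
        Real.exp (1 / 2) * Real.exp (-xx st.xi ε (L * σ)) := by
      rw [← Real.exp_add]
      apply Real.exp_le_exp.2
      nlinarith [sq_nonneg (xx st.xi ε (L * σ) - 1), sq_nonneg (yy ε (L * σ))]
    have h3 := cut_le_one (xx st.xi ε (L * σ) / (1 / r0))
    have h3' := cut_nonneg (xx st.xi ε (L * σ) / (1 / r0))
    have h4 := cos_ge hε (L * σ)
    have h5 : 0 < Real.exp (-xx st.xi ε (L * σ)) := Real.exp_pos _
    have h6 : Real.exp (-((xx st.xi ε (L * σ) ^ 2 + yy ε (L * σ) ^ 2) / 2)) *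
        cut (xx st.xi ε (L * σ) / (1 / r0)) ≤
        Real.exp (1 / 2) * Real.exp (-xx st.xi ε (L * σ)) := by
      calc _ ≤ Real.exp (-((xx st.xi ε (L * σ) ^ 2 + yy ε (L * σ) ^ 2) / 2)) * 1 :=
            mul_le_mul_of_nonneg_left h3 (Real.exp_pos _).le
        _ ≤ _ := by rw [mul_one]; exact h2
    calc _ ≤ ((M + 3.2) ^ 2 * ε ^ 2) * (Real.exp (1 / 2) * Real.exp (-xx st.xi ε (L * σ))) :=
          mul_le_mul h1 h6 (mul_nonneg (Real.exp_pos _).le h3') (by positivity)
      _ = A * (Real.exp (-xx st.xi ε (L * σ)) * (1 / 2)) := by rw [hA]; ring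
      _ ≤ _ := mul_le_mul_of_nonneg_left (mul_le_mul_of_nonneg_left h4 h5.le) hA0
  have hint : (∫ σ in (0:ℝ)..1, L * (Real.exp (-xx st.xi ε (L * σ)) * Real.cos (ε * be (L * σ))))
      ≤ 1 := by
    have hd : ∀ σ ∈ uIcc (0:ℝ) 1, HasDerivAt (fun σ => -Real.exp (-xx st.xi ε (L * σ)))
        (L * (Real.exp (-xx st.xi ε (L * σ)) * Real.cos (ε * be (L * σ)))) σ := by
      intro σ _
      have h := (((xx_hasDeriv st.xi ε (L * σ)).comp σ (lin_deriv L σ)).neg.exp).neg
      have e : L * (Real.exp (-xx st.xi ε (L * σ)) * Real.cos (ε * be (L * σ))) =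
        -(Real.exp (-xx st.xi ε (L * σ)) * -(Real.cos (ε * be (L * σ)) * L)) := by ring
      rw [e]
      exact h
    rw [intervalIntegral.integral_eq_sub_of_hasDerivAt hd]
    · have e1 := Real.exp_pos (-xx st.xi ε (L * 1))
      have e2 : Real.exp (-xx st.xi ε (L * 0)) ≤ 1 := by
        rw [Real.exp_le_one_iff]
        have := xx_lower (xi := st.xi) hε (u := L * 0) (by simp)
        linarith
      linarith
    · apply Continuous.intervalIntegrable
      exact continuous_const.mul ((Real.continuous_exp.comp ((xx_cont _ _).comp hcL).neg).mul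
        ((cb_cont ε).comp hcL))
  have hmono : (∫ σ in (0:ℝ)..1,
      SR st.xi ε (L * σ) ^ 2 * (Real.exp (-((xx st.xi ε (L * σ) ^ 2 + yy ε (L * σ) ^ 2) / 2)) *
        cut (xx st.xi ε (L * σ) / (1 / r0)))) ≤
      ∫ σ in (0:ℝ)..1, A * (Real.exp (-xx st.xi ε (L * σ)) * Real.cos (ε * be (L * σ))) := by
    apply intervalIntegral.integral_mono_on zero_le_one
    · apply Continuous.intervalIntegrable
      exact (((SR_cont _ _).comp hcL).pow 2).mul ((Real.continuous_exp.comp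
        (((((xx_cont _ _).comp hcL).pow 2).add (((yy_cont _).comp hcL).pow 2)).div_const
          2).neg).mul (cut_cont.comp (((xx_cont _ _).comp hcL).div_const _)))
    · apply Continuous.intervalIntegrable
      exact continuous_const.mul ((Real.continuous_exp.comp ((xx_cont _ _).comp hcL).neg).mul
        ((cb_cont ε).comp hcL))
    · exact hbd
  calc _ ≤ L * ∫ σ in (0:ℝ)..1, A * (Real.exp (-xx st.xi ε (L * σ)) *
        Real.cos (ε * be (L * σ))) := mul_le_mul_of_nonneg_left hmono (by linarith)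
    _ = A * ∫ σ in (0:ℝ)..1, L * (Real.exp (-xx st.xi ε (L * σ)) *
        Real.cos (ε * be (L * σ))) := by
        rw [intervalIntegral.integral_const_mul, intervalIntegral.integral_const_mul]
        ring
    _ ≤ A * 1 := mul_le_mul_of_nonneg_left hint hA0
    _ = A := mul_one _

theorem J_pos (st : Star) {ε r0 : ℝ} (hε : ε ∈ Ioc (0:ℝ) 1) (hr : 0 < r0)
    (hL : 1 ≤ LL st.xi ε r0) : 0 < (Ini st ε r0 hr hL).J (fun x => zeta1 (x / r0)) := by
  have hxi1 : 1.187 ≤ st.xi := st.xi_lo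
  have hxi2 : st.xi ≤ 1.197 := st.xi_hi
  show 0 < -(r0 * st.ls * ∫ σ in (0:ℝ)..1, zeta1 (r0 * st.x (st.sg σ) / r0) *
      Real.sin (Real.pi / 3 - st.a (st.sg σ) + off 0)) -
    r0 * st.ls * (∫ σ in (0:ℝ)..1, zeta1 (r0 * st.x (st.sg σ) / r0) *
      Real.sin (st.a (st.sg σ) - Real.pi / 3 + off 1)) +
    2 * (r0 * LL st.xi ε r0 * ∫ σ in (0:ℝ)..1, zeta1 (r0 * xx st.xi ε (LL st.xi ε r0 * σ) / r0) *
      Real.sin (ε * be (LL st.xi ε r0 * σ) + off 2))
  simp only [sin_a0, sin_a1, mul_neg, intervalIntegral.integral_neg, off2, add_zero,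
    mul_div_cancel_left₀ _ hr.ne']
  set L := LL st.xi ε r0 with hLdef
  have hcL : Continuous fun σ : ℝ => L * σ := continuous_const.mul continuous_id
  have hpos : 0 < ∫ σ in (0:ℝ)..1, zeta1 (xx st.xi ε (L * σ)) * Real.sin (ε * be (L * σ)) := by
    apply intervalIntegral.integral_pos zero_lt_one
    · have hc : ContinuousOn (fun σ => max (p1 1.18 *
          Real.exp ((1.18 ^ 2 - xx st.xi ε (L * σ) ^ 2) / 2) *
          (w1 (xx st.xi ε (L * σ)) / w1 1.18)) 0 * Real.sin (ε * be (L * σ))) (Icc 0 1) := by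
        apply Continuous.continuousOn
        have hx : Continuous fun σ => xx st.xi ε (L * σ) := (xx_cont _ _).comp hcL
        have hw : Continuous fun σ => w1 (xx st.xi ε (L * σ)) := by
          unfold w1
          exact (continuous_const.add (continuous_const.mul hx)).sub
            (continuous_const.mul (hx.pow 2))
        exact (((continuous_const.mul (Real.continuous_exp.comp
          ((continuous_const.sub (hx.pow 2)).div_const 2))).mul (hw.div_const _)).max
            continuous_const).mul ((sb_cont ε).comp hcL)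
      apply hc.congr
      intro σ hσ
      have hu : 0 ≤ L * σ := mul_nonneg (by linarith) hσ.1
      have := xx_lower (xi := st.xi) hε hu
      simp only
      rw [zeta1_eq (by linarith)]
    · intro σ hσ
      exact mul_nonneg (zeta1_nonneg _) (sin_mem hε _).1
    · refine ⟨1 / (2 * L), ⟨by positivity, ?_⟩, ?_⟩
      · rw [div_le_one (by linarith)]
        linarith
      · have e : L * (1 / (2 * L)) = 1 / 2 := by
          field_simp
        rw [e, be_half, mul_one]
        have h1 := xx_lower (xi := st.xi) hε (u := 1 / 2) (by norm_num)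
        have h2 := xx_upper (xi := st.xi) (ε := ε) (u := 1 / 2) (by norm_num)
        apply mul_pos (zeta1_pos (by linarith) (by linarith))
        exact Real.sin_pos_of_pos_of_lt_pi hε.1 (by linarith [hε.2, Real.pi_gt_three])
  have h2 : 0 < 2 * (r0 * L * ∫ σ in (0:ℝ)..1,
      zeta1 (xx st.xi ε (L * σ)) * Real.sin (ε * be (L * σ))) := by
    have : 0 < L := by linarith
    positivity
  linarith

end B0

open B0 in
/-- B0 : the initial network (lens at scale `r0`, ray with a small bump of size `ε`) -/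
theorem exists_init (st : Star) : ∃ C > 0, ∀ ε ∈ Ioc (0:ℝ) 1, ∃ R0 > 0, ∀ r0 > 0, R0 ≤ 1 / r0 →
    ∃ I : Init 1,
      I.area = Real.pi / 3 * r0 ^ 2 ∧
      Near st 0 (I.raw r0 0) ∧
      (I.raw r0 0).D (1 / r0) ≤ C * ε ^ 2 ∧
      (∀ σ ∈ Icc (0:ℝ) 1, 0 ≤ I.th 2 σ ∧ I.th 2 σ ≤ ε) ∧
      I.IsGraph ∧ I.Pos ∧ I.X 2 0 = r0 * st.xi ∧
      0 < I.J (fun x => zeta1 (x / r0)) ∧
      (∀ σ ∈ Icc (0:ℝ) 1, 1 / 16 ≤ I.X 2 σ → I.k 2 σ = 0) := by
  obtain ⟨M, hM⟩ := be'_bdd
  have hM0 : 0 ≤ M := (abs_nonneg _).trans (hM 0)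
  refine ⟨2 * Real.exp (1 / 2) * (M + 3.2) ^ 2, by positivity, fun ε hε =>
    ⟨100, by norm_num, fun r0 hr hR => ?_⟩⟩
  have hc0 := c0_nonneg hε
  have hc1 := c0_le ε
  have hxi1 : 1.187 ≤ st.xi := st.xi_lo
  have hxi2 : st.xi ≤ 1.197 := st.xi_hi
  have hL : 1 ≤ LL st.xi ε r0 := by
    unfold LL
    linarith
  have hr1 : r0 ≤ 1 / 100 := by
    rw [le_div_iff₀ hr] at hR
    linarith
  refine ⟨Ini st ε r0 hr hL, ?_, ?_, ?_, ?_, ?_, ?_, ?_, ?_, ?_⟩
  · -- area
    show -(r0 * st.ls * ∫ σ in (0:ℝ)..1, r0 * st.y (st.sg σ) *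
        Real.cos (Real.pi / 3 - st.a (st.sg σ) + off 0)) +
      r0 * st.ls * (∫ σ in (0:ℝ)..1, -(r0 * st.y (st.sg σ)) *
        Real.cos (st.a (st.sg σ) - Real.pi / 3 + off 1)) = Real.pi / 3 * r0 ^ 2
    have h0 : (∫ σ in (0:ℝ)..1, r0 * st.y (st.sg σ) *
        Real.cos (Real.pi / 3 - st.a (st.sg σ) + off 0)) =
        (-r0) * ∫ σ in (0:ℝ)..1, st.y (st.sg σ) * Real.cos (st.a (st.sg σ)) := by
      rw [← intervalIntegral.integral_const_mul]
      apply intervalIntegral.integral_congr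
      intro σ _
      simp only [cos_a0]
      ring
    have h1 : (∫ σ in (0:ℝ)..1, -(r0 * st.y (st.sg σ)) *
        Real.cos (st.a (st.sg σ) - Real.pi / 3 + off 1)) =
        r0 * ∫ σ in (0:ℝ)..1, st.y (st.sg σ) * Real.cos (st.a (st.sg σ)) := by
      rw [← intervalIntegral.integral_const_mul]
      apply intervalIntegral.integral_congr
      intro σ _
      simp only [cos_a1]
      ring
    rw [h0, h1]
    have := star_area st
    linear_combination (2 * r0 ^ 2) * this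
  · -- near
    refine ⟨?_, ?_, fun σ _ => ?_, fun σ _ => ?_, fun σ _ => ?_, fun σ _ => ?_, fun σ _ => ?_,
      fun σ _ => ?_⟩
    · show |r0 * st.ls / r0 - st.ls| ≤ 0
      rw [mul_div_cancel_left₀ _ hr.ne', sub_self, abs_zero]
    · show |r0 * st.ls / r0 - st.ls| ≤ 0
      rw [mul_div_cancel_left₀ _ hr.ne', sub_self, abs_zero]
    · show |r0 * st.x (st.sg σ) / r0 - st.x (st.sg σ)| ≤ 0
      rw [mul_div_cancel_left₀ _ hr.ne', sub_self, abs_zero]
    · show |r0 * st.x (st.sg σ) / r0 - st.x (st.sg σ)| ≤ 0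
      rw [mul_div_cancel_left₀ _ hr.ne', sub_self, abs_zero]
    · show |(r0 * st.y (st.sg σ) - 0) / r0 - st.y (st.sg σ)| ≤ 0
      rw [sub_zero, mul_div_cancel_left₀ _ hr.ne', sub_self, abs_zero]
    · show |(-(r0 * st.y (st.sg σ)) - 0) / r0 + st.y (st.sg σ)| ≤ 0
      rw [sub_zero, neg_div, mul_div_cancel_left₀ _ hr.ne', neg_add_cancel, abs_zero]
    · show |Real.pi / 3 - st.a (st.sg σ) - (Real.pi / 3 - st.a (st.sg σ))| ≤ 0
      rw [sub_self, abs_zero]
    · show |st.a (st.sg σ) - Real.pi / 3 - (st.a (st.sg σ) - Real.pi / 3)| ≤ 0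
      rw [sub_self, abs_zero]
  · -- D
    exact D_bound st hε hr hL hM
  · intro σ _
    show 0 ≤ ε * be (LL st.xi ε r0 * σ) ∧ ε * be (LL st.xi ε r0 * σ) ≤ ε
    exact ang_mem hε _
  · intro σ hσ
    refine ⟨?_, ?_, ?_⟩
    · show Real.cos (Real.pi / 3 - st.a (st.sg σ) + off 0) < 0
      rw [cos_a0]
      linarith [cos_pos st (sg_mem_ls st hσ)]
    · show Real.cos (st.a (st.sg σ) - Real.pi / 3 + off 1) < 0
      rw [cos_a1]
      linarith [cos_pos st (sg_mem_ls st hσ)]
    · show 0 < Real.cos (ε * be (LL st.xi ε r0 * σ) + off 2)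
      rw [off2, add_zero]
      linarith [cos_ge hε (LL st.xi ε r0 * σ)]
  · refine ⟨?_, ?_⟩
    · intro σ hσ σ' hσ' h
      change r0 * st.x (st.sg σ) = r0 * st.x (st.sg σ') at h
      show 0 ≤ (Real.pi / 3 - st.a (st.sg σ)) + (st.a (st.sg σ') - Real.pi / 3)
      have h2 := mul_left_cancel₀ hr.ne' h
      have h3 := (x_mono st).injOn (sg_mem_ls st hσ) (sg_mem_ls st hσ') h2
      rw [h3]
      linarith
    · intro σ _
      exact (ang_mem hε _).1
  · show r0 * xx st.xi ε (LL st.xi ε r0 * 0) = r0 * st.xi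
    simp [xx]
  · exact J_pos st hε hr hL
  · intro σ hσ h
    change 1 / 16 ≤ r0 * xx st.xi ε (LL st.xi ε r0 * σ) at h
    show ε * deriv be (LL st.xi ε r0 * σ) / r0 = 0
    have h2 := xx_upper (xi := st.xi) (ε := ε) (u := LL st.xi ε r0 * σ)
      (mul_nonneg (by linarith) hσ.1)
    rw [be'_zero (Or.inl ?_)]
    · simp
    · nlinarith

end Pool.Agent.Helper15.NF
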