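import Pool.Agent.Helper15.NF.T3b

open Set MeasureTheory intervalIntegral Filter Topology

namespace Pool.Agent.Helper15.NF

private lemma B1_exp1 (u : ℝ) : |u| * Real.exp (-(u ^ 2 / 2)) ≤ 1 := by
  have h : |u| ≤ Real.exp (u ^ 2 / 2) := by
    have h1 := Real.add_one_le_exp (u ^ 2 / 2)
    have h2 : |u| ≤ u ^ 2 / 2 + 1 := by
      rw [← sq_abs]; nlinarith [sq_nonneg (|u| - 1)]
    linarith
  rw [Real.exp_neg]
  rw [← div_eq_mul_inv, div_le_one (Real.exp_pos _)]
  exact h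

private lemma B1_exp2 (u : ℝ) : u ^ 2 * Real.exp (-(u ^ 2 / 2)) ≤ 1 := by
  have h : u ^ 2 ≤ Real.exp (u ^ 2 / 2) := by
    have h1 := Real.quadratic_le_exp_of_nonneg (x := u ^ 2 / 2) (by positivity)
    nlinarith [sq_nonneg (u ^ 2 / 2 - 1)]
  rw [Real.exp_neg, ← div_eq_mul_inv, div_le_one (Real.exp_pos _)]
  exact h

private lemma B1_bd {A B : ℝ} (hB : |B| ≤ 1) (u : ℝ) :
    |(A + B * u) * Real.exp (-(u ^ 2 / 2))| ≤ |A| + 1 := by
  have he : 0 < Real.exp (-(u ^ 2 / 2)) := Real.exp_pos _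
  have he1 : Real.exp (-(u ^ 2 / 2)) ≤ 1 := Real.exp_le_one_iff.mpr (by nlinarith [sq_nonneg u])
  rw [add_mul]
  calc |A * Real.exp (-(u ^ 2 / 2)) + B * u * Real.exp (-(u ^ 2 / 2))|
      ≤ |A * Real.exp (-(u ^ 2 / 2))| + |B * u * Real.exp (-(u ^ 2 / 2))| := abs_add_le _ _
    _ = |A| * Real.exp (-(u ^ 2 / 2)) + |B| * (|u| * Real.exp (-(u ^ 2 / 2))) := by
        rw [abs_mul, abs_mul, abs_mul, abs_of_pos he]; ring
    _ ≤ |A| * 1 + 1 * 1 := by
        have := B1_exp1 u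
        gcongr
    _ = |A| + 1 := by ring

private lemma B1_lip {A B : ℝ} (hB : |B| ≤ 1) (u v : ℝ) :
    |(A + B * u) * Real.exp (-(u ^ 2 / 2)) - (A + B * v) * Real.exp (-(v ^ 2 / 2))|
      ≤ (|A| + 2) * |u - v| := by
  have hd : ∀ x ∈ (univ : Set ℝ), HasDerivWithinAt
      (fun u : ℝ => (A + B * u) * Real.exp (-(u ^ 2 / 2)))
      (B * Real.exp (-(x ^ 2 / 2)) + (A + B * x) * (Real.exp (-(x ^ 2 / 2)) * (-x))) univ x := by
    intro x _
    have h1 : HasDerivAt (fun u : ℝ => A + B * u) B x := by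
      simpa using ((hasDerivAt_id x).const_mul B).const_add A
    have h2 : HasDerivAt (fun u : ℝ => -(u ^ 2 / 2)) (-x) x := by
      refine (((hasDerivAt_pow 2 x).div_const 2).neg).congr_deriv ?_
      norm_num
    exact (h1.mul h2.exp).hasDerivWithinAt
  have hb : ∀ x ∈ (univ : Set ℝ), ‖B * Real.exp (-(x ^ 2 / 2)) +
      (A + B * x) * (Real.exp (-(x ^ 2 / 2)) * (-x))‖ ≤ |A| + 2 := by
    intro x _
    have he : 0 < Real.exp (-(x ^ 2 / 2)) := Real.exp_pos _
    have he1 : Real.exp (-(x ^ 2 / 2)) ≤ 1 := Real.exp_le_one_iff.mpr (by nlinarith [sq_nonneg x])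
    rw [Real.norm_eq_abs]
    have e : B * Real.exp (-(x ^ 2 / 2)) + (A + B * x) * (Real.exp (-(x ^ 2 / 2)) * (-x)) =
      B * Real.exp (-(x ^ 2 / 2)) + -(A * (x * Real.exp (-(x ^ 2 / 2)))) +
      -(B * (x ^ 2 * Real.exp (-(x ^ 2 / 2)))) := by ring
    rw [e]
    calc _ ≤ |B * Real.exp (-(x ^ 2 / 2))| + |-(A * (x * Real.exp (-(x ^ 2 / 2))))| +
        |-(B * (x ^ 2 * Real.exp (-(x ^ 2 / 2))))| := abs_add_three _ _ _
      _ = |B| * Real.exp (-(x ^ 2 / 2)) + |A| * (|x| * Real.exp (-(x ^ 2 / 2))) +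
        |B| * (x ^ 2 * Real.exp (-(x ^ 2 / 2))) := by
          rw [abs_neg, abs_neg, abs_mul, abs_mul, abs_mul, abs_mul, abs_mul, abs_of_pos he,
            abs_of_nonneg (sq_nonneg x)]
      _ ≤ 1 * 1 + |A| * 1 + 1 * 1 := by
          have h1 := B1_exp1 x
          have h2 := B1_exp2 x
          gcongr
      _ = |A| + 2 := by ring
  have := convex_univ.norm_image_sub_le_of_norm_hasDerivWithin_le hd hb (mem_univ v) (mem_univ u)
  simpa [Real.norm_eq_abs] using this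

private lemma B1_cont {t1 t2 : ℝ} {G : ℝ → ℝ → ℝ}
    (hG : ContinuousOn (fun p : ℝ × ℝ => G p.1 p.2) (Icc t1 t2 ×ˢ Icc (0:ℝ) 1)) :
    ContinuousOn (fun t => ∫ σ in (0:ℝ)..1, G t σ) (Icc t1 t2) := by
  obtain ⟨C, hC⟩ := (isCompact_Icc.prod isCompact_Icc).exists_bound_of_continuousOn hG
  intro t0 ht0
  have hsl : ∀ t ∈ Icc t1 t2, ContinuousOn (G t) (Icc 0 1) := by
    intro t ht
    exact hG.comp (f := fun σ => (t, σ)) (by fun_prop) (fun σ hσ => ⟨ht, hσ⟩)
  apply intervalIntegral.continuousWithinAt_of_dominated_interval (bound := fun _ => C)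
  · filter_upwards [self_mem_nhdsWithin] with t ht
    rw [uIoc_of_le zero_le_one]
    exact ((hsl t ht).mono Ioc_subset_Icc_self).aestronglyMeasurable measurableSet_Ioc
  · filter_upwards [self_mem_nhdsWithin] with t ht
    refine Eventually.of_forall fun σ hσ => ?_
    rw [uIoc_of_le zero_le_one] at hσ
    exact hC (t, σ) ⟨ht, Ioc_subset_Icc_self hσ⟩
  · exact intervalIntegrable_const
  · refine Eventually.of_forall fun σ hσ => ?_
    rw [uIoc_of_le zero_le_one] at hσ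
    have h := hG (t0, σ) ⟨ht0, Ioc_subset_Icc_self hσ⟩
    exact ContinuousWithinAt.comp (f := fun t => (t, σ)) (t := Icc t1 t2 ×ˢ Icc (0:ℝ) 1) h
      (by fun_prop) (fun t ht => ⟨ht, Ioc_subset_Icc_self hσ⟩)

private lemma B1_cut (z : ℝ) : 0 ≤ cut z ∧ cut z ≤ 1 := by
  unfold cut chi
  have h0 := Real.smoothTransition.nonneg (3 - 4 * z)
  have h1 := Real.smoothTransition.le_one (3 - 4 * z)
  constructor
  · positivity
  · nlinarith

private lemma B1_cut_cont : Continuous cut := by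
  unfold cut chi
  have := Real.smoothTransition.continuous
  fun_prop

/-- the integrand of the feedback -/
private noncomputable def B1G {a b : ℝ} (F : Flow a b 1) (T : ℝ) (i : Fin 3) (y t σ : ℝ) : ℝ :=
  (F.raw (rr T t) y t).S i σ * Real.cos ((F.raw (rr T t) y t).ang i σ) *
    (F.raw (rr T t) y t).w (1 / rr T t) i σ

private noncomputable def B1A {a b : ℝ} (F : Flow a b 1) (T : ℝ) (i : Fin 3) (t σ : ℝ) : ℝ :=
  rr T t * F.k i t σ - F.X i t σ / rr T t * Real.sin (F.th i t σ + off i)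

private noncomputable def B1C {a b : ℝ} (F : Flow a b 1) (T : ℝ) (i : Fin 3) (t σ : ℝ) : ℝ :=
  Real.cos (F.th i t σ + off i) * (Real.exp (-((F.X i t σ / rr T t) ^ 2 / 2)) *
    cut (F.X i t σ / rr T t / (1 / rr T t)))

private lemma B1G_eq {a b : ℝ} (F : Flow a b 1) (T : ℝ) (i : Fin 3) (y t σ : ℝ) :
    B1G F T i y t σ = ((B1A F T i t σ + Real.cos (F.th i t σ + off i) *
      ((F.Y i t σ - y) / rr T t)) * Real.exp (-(((F.Y i t σ - y) / rr T t) ^ 2 / 2))) *
      B1C F T i t σ := by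
  unfold B1G B1A B1C Raw.S Raw.w Raw.h Raw.ang Raw.rho Flow.raw
  simp only
  have e : Real.exp (-(((F.X i t σ / rr T t) ^ 2 + ((F.Y i t σ - y) / rr T t) ^ 2) / 2)) =
      Real.exp (-((F.X i t σ / rr T t) ^ 2 / 2)) *
      Real.exp (-(((F.Y i t σ - y) / rr T t) ^ 2 / 2)) := by
    rw [← Real.exp_add]; congr 1; ring
  rw [e]
  ring

private lemma B1C_le {a b : ℝ} (F : Flow a b 1) (T : ℝ) (i : Fin 3) (t σ : ℝ) :
    |B1C F T i t σ| ≤ 1 := by
  unfold B1C
  have h0 := B1_cut (F.X i t σ / rr T t / (1 / rr T t))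
  have he : 0 < Real.exp (-((F.X i t σ / rr T t) ^ 2 / 2)) := Real.exp_pos _
  have he1 : Real.exp (-((F.X i t σ / rr T t) ^ 2 / 2)) ≤ 1 :=
    Real.exp_le_one_iff.mpr (by nlinarith [sq_nonneg (F.X i t σ / rr T t)])
  rw [abs_mul, abs_mul, abs_of_pos he, abs_of_nonneg h0.1]
  exact mul_le_one₀ (Real.abs_cos_le_one _) (mul_nonneg he.le h0.1)
    (mul_le_one₀ he1 h0.1 h0.2)

/-- B1 : moving centre with feedback -/
theorem exists_center {a b : ℝ} (F : Flow a b 1) {T K t1 t2 y1 : ℝ} (hT : b ≤ T) (h1 : a < t1)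
    (h12 : t1 < t2) (h2 : t2 < b) :
    ∃ y0 : ℝ → ℝ, y0 t1 = y1 ∧ ContinuousOn y0 (Icc t1 t2) ∧ ∀ t ∈ Ioo t1 t2,
      HasDerivAt y0 (K * (F.raw (rr T t) (y0 t) t).m (1 / rr T t) / rr T t) t := by
  have hT2 : t2 < T := h2.trans_le hT
  have hsub : Icc t1 t2 ⊆ Ioo a b := fun t ht => ⟨h1.trans_le ht.1, ht.2.trans_lt h2⟩
  have hsubp : Icc t1 t2 ×ˢ Icc (0:ℝ) 1 ⊆ Ioo a b ×ˢ Icc (0:ℝ) 1 := prod_mono hsub le_rfl
  set r0 : ℝ := rr T t2 with hr0
  have hr0pos : 0 < r0 := by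
    rw [hr0]; unfold rr
    exact Real.sqrt_pos.mpr (by linarith)
  have hr : ∀ t ∈ Icc t1 t2, r0 ≤ rr T t := by
    intro t ht
    rw [hr0]; unfold rr
    exact Real.sqrt_le_sqrt (by linarith [ht.2])
  have hrp : ∀ t ∈ Icc t1 t2, 0 < rr T t := fun t ht => hr0pos.trans_le (hr t ht)
  have hrc : ContinuousOn (fun p : ℝ × ℝ => rr T p.1) (Icc t1 t2 ×ˢ Icc (0:ℝ) 1) := by
    unfold rr; fun_prop
  have hne : ∀ p ∈ Icc t1 t2 ×ˢ Icc (0:ℝ) 1, rr T (p : ℝ × ℝ).1 ≠ 0 := fun p hp => (hrp _ hp.1).ne'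
  have hkc := fun i => (F.k_cont i).mono hsubp
  have hXc := fun i => (F.X_cont i).mono hsubp
  have hYc := fun i => (F.Y_cont i).mono hsubp
  have hthc := fun i => (F.th_cont i).mono hsubp
  have hcosc : ∀ i, ContinuousOn (fun p : ℝ × ℝ => Real.cos (F.th i p.1 p.2 + off i))
      (Icc t1 t2 ×ˢ Icc (0:ℝ) 1) := fun i =>
    Real.continuous_cos.comp_continuousOn ((hthc i).add continuousOn_const)
  have hsinc : ∀ i, ContinuousOn (fun p : ℝ × ℝ => Real.sin (F.th i p.1 p.2 + off i))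
      (Icc t1 t2 ×ˢ Icc (0:ℝ) 1) := fun i =>
    Real.continuous_sin.comp_continuousOn ((hthc i).add continuousOn_const)
  have hAc : ∀ i, ContinuousOn (fun p : ℝ × ℝ => B1A F T i p.1 p.2)
      (Icc t1 t2 ×ˢ Icc (0:ℝ) 1) := fun i =>
    (hrc.mul (hkc i)).sub (((hXc i).div hrc hne).mul (hsinc i))
  have hCc : ∀ i, ContinuousOn (fun p : ℝ × ℝ => B1C F T i p.1 p.2)
      (Icc t1 t2 ×ˢ Icc (0:ℝ) 1) := by
    intro i
    have hq := (hXc i).div hrc hne
    refine (hcosc i).mul (ContinuousOn.mul ?_ ?_)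
    · exact Real.continuous_exp.comp_continuousOn (((hq.pow 2).div_const 2).neg)
    · refine B1_cut_cont.comp_continuousOn (hq.div (continuousOn_const.div hrc hne) ?_)
      intro p hp
      exact one_div_ne_zero (hne p hp)
  have hGc : ∀ i y, ContinuousOn (fun p : ℝ × ℝ => B1G F T i y p.1 p.2)
      (Icc t1 t2 ×ˢ Icc (0:ℝ) 1) := by
    intro i y
    have hu := ((hYc i).sub (continuousOn_const (c := y))).div hrc hne
    have h3 := (((hAc i).add ((hcosc i).mul hu)).mul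
      (Real.continuous_exp.comp_continuousOn (((hu.pow 2).div_const 2).neg))).mul (hCc i)
    refine h3.congr ?_
    intro p _
    exact B1G_eq F T i y p.1 p.2
  -- bounds
  obtain ⟨M, hM0, hMA, hML⟩ : ∃ M : ℝ, 0 ≤ M ∧ (∀ i, ∀ t ∈ Icc t1 t2, ∀ σ ∈ Icc (0:ℝ) 1,
      |B1A F T i t σ| ≤ M) ∧ (∀ i, ∀ t ∈ Icc t1 t2, |F.ell i t / rr T t| ≤ M) := by
    have hA' : ∀ i, ∃ C, ∀ p ∈ Icc t1 t2 ×ˢ Icc (0:ℝ) 1, ‖B1A F T i (p : ℝ × ℝ).1 p.2‖ ≤ C := fun i =>
      (isCompact_Icc.prod isCompact_Icc).exists_bound_of_continuousOn (hAc i)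
    have hL' : ∀ i, ∃ C, ∀ t ∈ Icc t1 t2, ‖F.ell i t / rr T t‖ ≤ C := by
      intro i
      apply isCompact_Icc.exists_bound_of_continuousOn
      apply ContinuousOn.div
      · intro t ht
        exact (F.ell_t i t (hsub ht)).continuousAt.continuousWithinAt
      · unfold rr; fun_prop
      · intro t ht; exact (hrp t ht).ne'
    choose CA hCA using hA'
    choose CL hCL using hL'
    refine ⟨∑ i, (|CA i| + |CL i|), by positivity, ?_, ?_⟩
    · intro i t ht σ hσ
      calc |B1A F T i t σ| ≤ CA i := hCA i (t, σ) ⟨ht, hσ⟩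
        _ ≤ |CA i| + |CL i| := by linarith [le_abs_self (CA i), abs_nonneg (CL i)]
        _ ≤ _ := Finset.single_le_sum (f := fun i => |CA i| + |CL i|)
            (fun j _ => by positivity) (Finset.mem_univ i)
    · intro i t ht
      calc |F.ell i t / rr T t| ≤ CL i := hCL i t ht
        _ ≤ |CA i| + |CL i| := by linarith [le_abs_self (CL i), abs_nonneg (CA i)]
        _ ≤ _ := Finset.single_le_sum (f := fun i => |CA i| + |CL i|)
            (fun j _ => by positivity) (Finset.mem_univ i)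
  have hGb : ∀ i y, ∀ t ∈ Icc t1 t2, ∀ σ ∈ Icc (0:ℝ) 1, |B1G F T i y t σ| ≤ M + 1 := by
    intro i y t ht σ hσ
    rw [B1G_eq, abs_mul]
    calc _ ≤ (|B1A F T i t σ| + 1) * 1 := by
          gcongr
          · exact B1_bd (Real.abs_cos_le_one _) _
          · exact B1C_le F T i t σ
      _ ≤ M + 1 := by linarith [hMA i t ht σ hσ]
  have hGl : ∀ i y y', ∀ t ∈ Icc t1 t2, ∀ σ ∈ Icc (0:ℝ) 1,
      |B1G F T i y t σ - B1G F T i y' t σ| ≤ (M + 2) / r0 * |y - y'| := by
    intro i y y' t ht σ hσ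
    rw [B1G_eq, B1G_eq, ← sub_mul, abs_mul]
    calc _ ≤ ((|B1A F T i t σ| + 2) * |(F.Y i t σ - y) / rr T t - (F.Y i t σ - y') / rr T t|) * 1 := by
          gcongr
          · exact B1_lip (Real.abs_cos_le_one _) _ _
          · exact B1C_le F T i t σ
      _ = (|B1A F T i t σ| + 2) * (|y - y'| / rr T t) := by
          rw [mul_one]
          congr 1
          rw [← sub_div, abs_div, abs_of_pos (hrp t ht)]
          congr 1
          rw [show F.Y i t σ - y - (F.Y i t σ - y') = -(y - y') by ring, abs_neg]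
      _ ≤ (M + 2) * (|y - y'| / r0) := by
          have := hMA i t ht σ hσ
          have := hr t ht
          have := hrp t ht
          gcongr
      _ = (M + 2) / r0 * |y - y'| := by ring
  -- the vector field
  set V : ℝ → ℝ → ℝ := fun t y => K * (F.raw (rr T t) y t).m (1 / rr T t) / rr T t with hV
  have hm : ∀ t y, (F.raw (rr T t) y t).m (1 / rr T t) =
      ∑ i, F.ell i t / rr T t * ∫ σ in (0:ℝ)..1, B1G F T i y t σ := by
    intro t y
    rfl
  have hInt : ∀ i y, ∀ t ∈ Icc t1 t2, IntervalIntegrable (fun σ => B1G F T i y t σ) volume 0 1 := by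
    intro i y t ht
    apply ContinuousOn.intervalIntegrable
    rw [uIcc_of_le zero_le_one]
    exact (hGc i y).comp (f := fun σ => (t, σ)) (by fun_prop) (fun σ hσ => ⟨ht, hσ⟩)
  have hmb : ∀ t ∈ Icc t1 t2, ∀ y, |(F.raw (rr T t) y t).m (1 / rr T t)| ≤ 3 * (M * (M + 1)) := by
    intro t ht y
    rw [hm]
    have hsum : (3:ℝ) * (M * (M + 1)) = ∑ _i : Fin 3, M * (M + 1) := by
      rw [Finset.sum_const, Finset.card_univ, Fintype.card_fin, nsmul_eq_mul]; norm_num
    rw [hsum]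
    refine (Finset.abs_sum_le_sum_abs _ _).trans (Finset.sum_le_sum fun i _ => ?_)
    rw [abs_mul]
    refine mul_le_mul (hML i t ht) ?_ (abs_nonneg _) hM0
    have := intervalIntegral.norm_integral_le_of_norm_le_const (a := (0:ℝ)) (b := 1)
      (f := fun σ => B1G F T i y t σ) (C := M + 1) (fun σ hσ => by
        rw [uIoc_of_le zero_le_one] at hσ
        exact hGb i y t ht σ (Ioc_subset_Icc_self hσ))
    simpa [Real.norm_eq_abs] using this
  have hml : ∀ t ∈ Icc t1 t2, ∀ y y', |(F.raw (rr T t) y t).m (1 / rr T t) -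
      (F.raw (rr T t) y' t).m (1 / rr T t)| ≤ 3 * (M * ((M + 2) / r0)) * |y - y'| := by
    intro t ht y y'
    rw [hm, hm, ← Finset.sum_sub_distrib]
    have hsum : (3:ℝ) * (M * ((M + 2) / r0)) * |y - y'| =
        ∑ _i : Fin 3, M * ((M + 2) / r0 * |y - y'|) := by
      rw [Finset.sum_const, Finset.card_univ, Fintype.card_fin, nsmul_eq_mul]; push_cast; ring
    rw [hsum]
    refine (Finset.abs_sum_le_sum_abs _ _).trans (Finset.sum_le_sum fun i _ => ?_)
    rw [← mul_sub, abs_mul, ← intervalIntegral.integral_sub (hInt i y t ht) (hInt i y' t ht)]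
    refine mul_le_mul (hML i t ht) ?_ (abs_nonneg _) hM0
    have := intervalIntegral.norm_integral_le_of_norm_le_const (a := (0:ℝ)) (b := 1)
      (f := fun σ => B1G F T i y t σ - B1G F T i y' t σ) (C := (M + 2) / r0 * |y - y'|)
      (fun σ hσ => by
        rw [uIoc_of_le zero_le_one] at hσ
        exact hGl i y y' t ht σ (Ioc_subset_Icc_self hσ))
    simpa [Real.norm_eq_abs] using this
  set L : ℝ := |K| * (3 * (M * (M + 1))) / r0 with hL
  set Kl : ℝ := |K| * (3 * (M * ((M + 2) / r0))) / r0 with hKl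
  have hL0 : 0 ≤ L := by positivity
  have hKl0 : 0 ≤ Kl := by positivity
  have hVb : ∀ t ∈ Icc t1 t2, ∀ y, |V t y| ≤ L := by
    intro t ht y
    rw [hV, hL]
    simp only
    rw [abs_div, abs_mul, abs_of_pos (hrp t ht)]
    have := hr t ht
    have := hmb t ht y
    gcongr
  have hVl : ∀ t ∈ Icc t1 t2, ∀ y y', |V t y - V t y'| ≤ Kl * |y - y'| := by
    intro t ht y y'
    rw [hV, hKl]
    simp only
    rw [← sub_div, ← mul_sub, abs_div, abs_mul, abs_of_pos (hrp t ht)]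
    have h3 := hr t ht
    have h4 := hml t ht y y'
    calc _ ≤ |K| * (3 * (M * ((M + 2) / r0)) * |y - y'|) / r0 := by gcongr
      _ = _ := by ring
  have hVc : ∀ y, ContinuousOn (fun t => V t y) (Icc t1 t2) := by
    intro y
    have hrc' : ContinuousOn (fun t => rr T t) (Icc t1 t2) := by unfold rr; fun_prop
    have hne' : ∀ t ∈ Icc t1 t2, rr T t ≠ 0 := fun t ht => (hrp t ht).ne'
    refine ContinuousOn.div (ContinuousOn.mul continuousOn_const ?_) hrc' hne'
    have : (fun t => (F.raw (rr T t) y t).m (1 / rr T t)) =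
        fun t => ∑ i, F.ell i t / rr T t * ∫ σ in (0:ℝ)..1, B1G F T i y t σ := by
      funext t; exact hm t y
    rw [this]
    refine continuousOn_finsetSum _ fun i _ => ContinuousOn.mul (ContinuousOn.div ?_ hrc' hne') ?_
    · intro t ht
      exact (F.ell_t i t (hsub ht)).continuousAt.continuousWithinAt
    · exact B1_cont (hGc i y)
  have hPL : IsPicardLindelof V (⟨t1, le_rfl, h12.le⟩ : Icc t1 t2) y1
      ⟨L * (t2 - t1), mul_nonneg hL0 (by linarith)⟩ 0 ⟨L, hL0⟩ ⟨Kl, hKl0⟩ := by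
    refine ⟨?_, ?_, ?_, ?_⟩
    · intro t ht
      apply LipschitzOnWith.of_dist_le_mul
      intro y _ y' _
      rw [Real.dist_eq, Real.dist_eq]
      exact hVl t ht y y'
    · intro y _
      exact hVc y
    · intro t ht y _
      exact hVb t ht y
    · show L * max (t2 - t1) (t1 - t1) ≤ L * (t2 - t1) - 0
      rw [sub_self, sub_zero, max_eq_left (by linarith)]
  obtain ⟨α, hα0, hα⟩ := hPL.exists_eq_forall_mem_Icc_hasDerivWithinAt₀
  refine ⟨α, hα0, fun t ht => (hα t ht).continuousWithinAt, ?_⟩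
  intro t ht
  exact (hα t (Ioo_subset_Icc_self ht)).hasDerivAt (Icc_mem_nhds ht.1 ht.2)

end Pool.Agent.Helper15.NF
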