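import Pool.Agent.Helper15.NF.SDefs

/-!
Definitions for the dynamic part: graph condition, positivity, the functional `∫ ψ dP`,
the two test functions.
-/

open Set MeasureTheory intervalIntegral Filter Topology

namespace Pool.Agent.Helper15.NF

variable {a b Lx : ℝ}

/-- restriction of a flow to a smaller time interval -/
def Flow.restrict (F : Flow a b Lx) {a' b' : ℝ} (h : a ≤ a') (h' : b' ≤ b) : Flow a' b' Lx :=
  have hs : Ioo a' b' ⊆ Ioo a b := Ioo_subset_Ioo h h'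
  have hp : Ioo a' b' ×ˢ Icc (0:ℝ) 1 ⊆ Ioo a b ×ˢ Icc (0:ℝ) 1 := prod_mono hs le_rfl
  { ell := F.ell, dell := F.dell, th := F.th, k := F.k, ks := F.ks, kss := F.kss, mu := F.mu
    X := F.X, Y := F.Y, Ly := F.Ly
    ell_pos := fun i t ht => F.ell_pos i t (hs ht)
    ell_t := fun i t ht => F.ell_t i t (hs ht)
    dell_cont := fun i => (F.dell_cont i).mono hs
    th_cont := fun i => (F.th_cont i).mono hp
    k_cont := fun i => (F.k_cont i).mono hp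
    ks_cont := fun i => (F.ks_cont i).mono hp
    kss_cont := fun i => (F.kss_cont i).mono hp
    mu_cont := fun i => (F.mu_cont i).mono hp
    X_cont := fun i => (F.X_cont i).mono hp
    Y_cont := fun i => (F.Y_cont i).mono hp
    th_s := fun i t ht => F.th_s i t (hs ht)
    k_s := fun i t ht => F.k_s i t (hs ht)
    ks_s := fun i t ht => F.ks_s i t (hs ht)
    X_s := fun i t ht => F.X_s i t (hs ht)
    Y_s := fun i t ht => F.Y_s i t (hs ht)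
    mu_s := fun i t ht => F.mu_s i t (hs ht)
    th_t := fun i t ht => F.th_t i t (hs ht)
    k_t := fun i t ht => F.k_t i t (hs ht)
    X_t := fun i t ht => F.X_t i t (hs ht)
    Y_t := fun i t ht => F.Y_t i t (hs ht)
    th_J := fun i t ht => F.th_J i t (hs ht)
    X_J := fun i t ht => F.X_J i t (hs ht)
    Y_J := fun i t ht => F.Y_J i t (hs ht)
    th_axis0 := fun t ht => F.th_axis0 t (hs ht)
    th_axis1 := fun t ht => F.th_axis1 t (hs ht)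
    X_axis0 := fun t ht => F.X_axis0 t (hs ht)
    X_axis1 := fun t ht => F.X_axis1 t (hs ht)
    mu_end := fun i t ht => F.mu_end i t (hs ht)
    X_far := fun t ht => F.X_far t (hs ht)
    Y_far := fun t ht => F.Y_far t (hs ht)
    k_far := fun t ht => F.k_far t (hs ht) }

/-- area of the half lens -/
noncomputable def Flow.area (F : Flow a b Lx) (t : ℝ) : ℝ :=
  -(F.ell 0 t * ∫ σ in (0:ℝ)..1, F.Y 0 t σ * Real.cos (F.th 0 t σ + off 0))
  + F.ell 1 t * ∫ σ in (0:ℝ)..1, F.Y 1 t σ * Real.cos (F.th 1 t σ + off 1)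

/-- area of the half lens of initial data -/
noncomputable def Init.area (I : Init Lx) : ℝ :=
  -(I.ell 0 * ∫ σ in (0:ℝ)..1, I.Y 0 σ * Real.cos (I.th 0 σ + off 0))
  + I.ell 1 * ∫ σ in (0:ℝ)..1, I.Y 1 σ * Real.cos (I.th 1 σ + off 1)

/-- the edges are graphs over the first coordinate -/
def Flow.IsGraph (F : Flow a b Lx) (t : ℝ) : Prop :=
  ∀ σ ∈ Icc (0:ℝ) 1, Real.cos (F.th 0 t σ + off 0) < 0 ∧ Real.cos (F.th 1 t σ + off 1) < 0 ∧
    0 < Real.cos (F.th 2 t σ + off 2)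

/-- `P_x ≥ 0`, in terms of angles -/
def Flow.Pos (F : Flow a b Lx) (t : ℝ) : Prop :=
  (∀ σ ∈ Icc (0:ℝ) 1, ∀ σ' ∈ Icc (0:ℝ) 1, F.X 0 t σ = F.X 1 t σ' → 0 ≤ F.th 0 t σ + F.th 1 t σ') ∧
  (∀ σ ∈ Icc (0:ℝ) 1, 0 ≤ F.th 2 t σ)

/-- static data of initial data -/
noncomputable def Init.raw {Lx : ℝ} (I : Init Lx) (r y0 : ℝ) : Raw where
  L i := I.ell i / r
  x i σ := I.X i σ / r
  y i σ := (I.Y i σ - y0) / r
  th i σ := I.th i σ
  kap i σ := r * I.k i σ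
  Ss i σ := r ^ 2 * I.ks i σ - r * I.k i σ *
    (I.X i σ / r * Real.cos (I.th i σ + off i) + (I.Y i σ - y0) / r * Real.sin (I.th i σ + off i))

def Init.IsGraph (I : Init Lx) : Prop :=
  ∀ σ ∈ Icc (0:ℝ) 1, Real.cos (I.th 0 σ + off 0) < 0 ∧ Real.cos (I.th 1 σ + off 1) < 0 ∧
    0 < Real.cos (I.th 2 σ + off 2)

def Init.Pos (I : Init Lx) : Prop :=
  (∀ σ ∈ Icc (0:ℝ) 1, ∀ σ' ∈ Icc (0:ℝ) 1, I.X 0 σ = I.X 1 σ' → 0 ≤ I.th 0 σ + I.th 1 σ') ∧
  (∀ σ ∈ Icc (0:ℝ) 1, 0 ≤ I.th 2 σ)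

/-- the functional `∫ ψ dP` -/
noncomputable def Flow.J (F : Flow a b Lx) (ψ : ℝ → ℝ) (t : ℝ) : ℝ :=
  -(F.ell 0 t * ∫ σ in (0:ℝ)..1, ψ (F.X 0 t σ) * Real.sin (F.th 0 t σ + off 0))
  - F.ell 1 t * (∫ σ in (0:ℝ)..1, ψ (F.X 1 t σ) * Real.sin (F.th 1 t σ + off 1))
  + 2 * (F.ell 2 t * ∫ σ in (0:ℝ)..1, ψ (F.X 2 t σ) * Real.sin (F.th 2 t σ + off 2))

/-- the same functional for initial data -/
noncomputable def Init.J (I : Init Lx) (ψ : ℝ → ℝ) : ℝ :=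
  -(I.ell 0 * ∫ σ in (0:ℝ)..1, ψ (I.X 0 σ) * Real.sin (I.th 0 σ + off 0))
  - I.ell 1 * (∫ σ in (0:ℝ)..1, ψ (I.X 1 σ) * Real.sin (I.th 1 σ + off 1))
  + 2 * (I.ell 2 * ∫ σ in (0:ℝ)..1, ψ (I.X 2 σ) * Real.sin (I.th 2 σ + off 2))

/-- closeness to the exact lens, in the form used by the dual functionals -/
structure CB (F : Flow a b Lx) (T t xi : ℝ) : Prop where
  graph : F.IsGraph t
  prof0 : ∀ σ ∈ Icc (0:ℝ) 1,
    |Real.cos (F.th 0 t σ + off 0) ^ 2 - cpol (F.X 0 t σ / rr T t)| ≤ 0.017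
  prof1 : ∀ σ ∈ Icc (0:ℝ) 1,
    |Real.cos (F.th 1 t σ + off 1) ^ 2 - cpol (F.X 1 t σ / rr T t)| ≤ 0.017
  sgn0 : ∀ σ ∈ Icc (0:ℝ) 1, F.th 0 t σ ≤ Real.pi / 3 + 0.001
  sgn1 : ∀ σ ∈ Icc (0:ℝ) 1, -(Real.pi / 3) - 0.001 ≤ F.th 1 t σ
  jx : |F.X 2 t 0 / rr T t - xi| ≤ 0.001
  small : ∀ σ ∈ Icc (0:ℝ) 1, |F.th 2 t σ| ≤ 0.01

/-- outer part of the lower test function, without the Gaussian -/
noncomputable def w1 (y : ℝ) : ℝ := 1 + 3 * y - 0.6 * y ^ 2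

/-- logarithmic slope of the outer part at 1.18 -/
noncomputable def slope1 : ℝ := -1.18 + (3 - 1.2 * 1.18) / w1 1.18

/-- the coefficient making the lower test function C^1 at 1.18 -/
noncomputable def a1 : ℝ :=
  (slope1 * 1.18 * (1 + 0.049 * 1.18 ^ 4) - 1 - 5 * 0.049 * 1.18 ^ 4) /
    (1.18 ^ 2 * (slope1 * 1.18 - 3))

noncomputable def p1 (y : ℝ) : ℝ := y - a1 * y ^ 3 + 0.049 * y ^ 5

/-- lower test function (exponent 1.95) -/
noncomputable def Z1 (y : ℝ) : ℝ :=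
  if y ≤ 1.18 then p1 y
  else p1 1.18 * Real.exp ((1.18 ^ 2 - y ^ 2) / 2) * (w1 y / w1 1.18)

noncomputable def zeta1 (y : ℝ) : ℝ := max (Z1 y) 0

noncomputable def p2 (y : ℝ) : ℝ := y - 0.515 * y ^ 3 + 0.071 * y ^ 5 - 0.003 * y ^ 7

/-- upper test function (exponent 2) -/
noncomputable def zeta2 (xi y : ℝ) : ℝ :=
  p2 y * (1 - Real.smoothTransition ((y - xi - 0.003) / 0.01))

end Pool.Agent.Helper15.NF
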