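import Pool.Agent.Helper15.NF.U0
import Pool.Agent.Helper15.NF.DDefs

open Set MeasureTheory intervalIntegral Filter Topology

namespace Pool.Agent.Helper15.NF

variable {a b Lx : ℝ}

/-- continuity of a parametric integral on a compact interval of parameters -/
theorem B1b_param {g : ℝ → ℝ → ℝ} {t1 t2 : ℝ}
    (hg : ContinuousOn (fun p : ℝ × ℝ => g p.1 p.2) (Icc t1 t2 ×ˢ Icc (0:ℝ) 1)) :
    ContinuousOn (fun t => ∫ σ in (0:ℝ)..1, g t σ) (Icc t1 t2) := by
  rcases lt_or_ge t2 t1 with h | h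
  · rw [Icc_eq_empty (not_le.2 h)]
    exact continuousOn_empty _
  set q1 : ℝ → ℝ := fun t => max t1 (min t t2) with hq1
  set q2 : ℝ → ℝ := fun σ => max 0 (min σ 1) with hq2
  have c1 : Continuous q1 := continuous_const.max (continuous_id.min continuous_const)
  have c2 : Continuous q2 := continuous_const.max (continuous_id.min continuous_const)
  have m1 : ∀ t, q1 t ∈ Icc t1 t2 := fun t =>
    ⟨le_max_left _ _, max_le h (min_le_right _ _)⟩
  have m2 : ∀ σ, q2 σ ∈ Icc (0:ℝ) 1 := fun σ =>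
    ⟨le_max_left _ _, max_le zero_le_one (min_le_right _ _)⟩
  have e1 : ∀ t ∈ Icc t1 t2, q1 t = t := fun t ht => by
    simp only [hq1]
    rw [min_eq_left ht.2, max_eq_right ht.1]
  have e2 : ∀ σ ∈ Icc (0:ℝ) 1, q2 σ = σ := fun σ hσ => by
    simp only [hq2]
    rw [min_eq_left hσ.2, max_eq_right hσ.1]
  have cG : Continuous (Function.uncurry fun t σ => g (q1 t) (q2 σ)) := by
    have h1 : Continuous (fun p : ℝ × ℝ => (q1 p.1, q2 p.2)) :=
      (c1.comp continuous_fst).prodMk (c2.comp continuous_snd)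
    exact hg.comp_continuous h1 (fun p => ⟨m1 p.1, m2 p.2⟩)
  have hc := intervalIntegral.continuous_parametric_intervalIntegral_of_continuous' cG 0 1 (μ := volume)
  refine hc.continuousOn.congr fun t ht => ?_
  apply intervalIntegral.integral_congr
  intro σ hσ
  rw [uIcc_of_le zero_le_one] at hσ
  show g t σ = g (q1 t) (q2 σ)
  rw [e1 t ht, e2 σ hσ]

/-- B1b : continuity in time of the quantities used in the continuity argument -/
theorem D_cont (hLx : 0 < Lx) (F : Flow a b Lx) {T t1 t2 : ℝ} (hT : b ≤ T) (h1 : a < t1)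
    (h2 : t2 < b) {y0 : ℝ → ℝ} (hy : ContinuousOn y0 (Icc t1 t2)) :
    ContinuousOn (fun t => (F.raw (rr T t) (y0 t) t).D (Lx / rr T t)) (Icc t1 t2) := by
  have hsub : Icc t1 t2 ⊆ Ioo a b := fun t ht => ⟨lt_of_lt_of_le h1 ht.1, lt_of_le_of_lt ht.2 h2⟩
  have hsub2 : Icc t1 t2 ×ˢ Icc (0:ℝ) 1 ⊆ Ioo a b ×ˢ Icc (0:ℝ) 1 := prod_mono hsub le_rfl
  have hr : ∀ t ∈ Icc t1 t2, 0 < rr T t := fun t ht => by
    unfold rr
    apply Real.sqrt_pos.2
    have := (hsub ht).2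
    linarith
  have crr : Continuous (rr T) := by
    unfold rr
    exact Real.continuous_sqrt.comp (continuous_const.mul (continuous_const.sub continuous_id))
  have hfst : ContinuousOn (fun p : ℝ × ℝ => p.1) (Icc t1 t2 ×ˢ Icc (0:ℝ) 1) :=
    continuous_fst.continuousOn
  have crp : ContinuousOn (fun p : ℝ × ℝ => rr T p.1) (Icc t1 t2 ×ˢ Icc (0:ℝ) 1) :=
    (crr.comp continuous_fst).continuousOn
  have hrp : ∀ p ∈ Icc t1 t2 ×ˢ Icc (0:ℝ) 1, rr T p.1 ≠ 0 := fun p hp => (hr p.1 hp.1).ne'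
  have cyp : ContinuousOn (fun p : ℝ × ℝ => y0 p.1) (Icc t1 t2 ×ˢ Icc (0:ℝ) 1) :=
    hy.comp hfst (fun p hp => hp.1)
  have cell : ∀ i, ContinuousOn (F.ell i) (Icc t1 t2) := fun i t ht =>
    (F.ell_t i t (hsub ht)).continuousAt.continuousWithinAt
  unfold Raw.D Raw.I
  apply continuousOn_finsetSum
  intro i _
  apply ContinuousOn.mul
  · exact (cell i).div crr.continuousOn (fun t ht => (hr t ht).ne')
  apply B1b_param (g := fun t σ => (F.raw (rr T t) (y0 t) t).S i σ ^ 2 *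
    (F.raw (rr T t) (y0 t) t).w (Lx / rr T t) i σ)
  have cX : ContinuousOn (fun p : ℝ × ℝ => F.X i p.1 p.2 / rr T p.1)
      (Icc t1 t2 ×ˢ Icc (0:ℝ) 1) := ((F.X_cont i).mono hsub2).div crp hrp
  have cY : ContinuousOn (fun p : ℝ × ℝ => (F.Y i p.1 p.2 - y0 p.1) / rr T p.1)
      (Icc t1 t2 ×ˢ Icc (0:ℝ) 1) := (((F.Y_cont i).mono hsub2).sub cyp).div crp hrp
  have cth : ContinuousOn (fun p : ℝ × ℝ => F.th i p.1 p.2 + off i)
      (Icc t1 t2 ×ˢ Icc (0:ℝ) 1) := ((F.th_cont i).mono hsub2).add continuousOn_const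
  have csin := Real.continuous_sin.comp_continuousOn cth
  have ccos := Real.continuous_cos.comp_continuousOn cth
  have ck : ContinuousOn (fun p : ℝ × ℝ => rr T p.1 * F.k i p.1 p.2)
      (Icc t1 t2 ×ˢ Icc (0:ℝ) 1) := crp.mul ((F.k_cont i).mono hsub2)
  have cS : ContinuousOn (fun p : ℝ × ℝ => (F.raw (rr T p.1) (y0 p.1) p.1).S i p.2)
      (Icc t1 t2 ×ˢ Icc (0:ℝ) 1) := ck.add ((cX.mul csin).neg.add (cY.mul ccos))
  have crho : ContinuousOn (fun p : ℝ × ℝ => (F.raw (rr T p.1) (y0 p.1) p.1).rho i p.2)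
      (Icc t1 t2 ×ˢ Icc (0:ℝ) 1) :=
    Real.continuous_exp.comp_continuousOn ((((cX.pow 2).add (cY.pow 2)).div_const 2).neg)
  have cR : ContinuousOn (fun p : ℝ × ℝ => F.X i p.1 p.2 / rr T p.1 / (Lx / rr T p.1))
      (Icc t1 t2 ×ˢ Icc (0:ℝ) 1) :=
    cX.div (continuousOn_const.div crp hrp) (fun p hp => (div_pos hLx (hr p.1 hp.1)).ne')
  have ccut : ContinuousOn (fun p : ℝ × ℝ => cut (F.X i p.1 p.2 / rr T p.1 / (Lx / rr T p.1)))
      (Icc t1 t2 ×ˢ Icc (0:ℝ) 1) := cut_contDiff.continuous.comp_continuousOn cR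
  exact (cS.pow 2).mul (crho.mul ccut)

end Pool.Agent.Helper15.NF
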