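import Pool.Agent.Helper15.NF.U1
import Pool.Agent.Helper15.NF.DDefs

open Set MeasureTheory intervalIntegral Filter Topology

namespace Pool.Agent.Helper15.NF

private theorem B2a_exp_bound {e x : ℝ} (he : 0 < e) (he1 : e ≤ 1) :
    (1 + x ^ 2) ≤ 1 / e * Real.exp (e * x ^ 2) := by
  have h1 : e * x ^ 2 + 1 ≤ Real.exp (e * x ^ 2) := Real.add_one_le_exp _
  have h2 : 1 + x ^ 2 ≤ 1 / e * (e * x ^ 2 + 1) := by
    have : 1 / e * (e * x ^ 2 + 1) = x ^ 2 + 1 / e := by field_simp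
    rw [this]
    have : 1 ≤ 1 / e := by rw [le_div_iff₀ he]; linarith
    linarith
  exact h2.trans (mul_le_mul_of_nonneg_left h1 (by positivity))

/-- B2a : the far part is tiny -/
theorem Fr_bound : ∃ C > 0, ∃ R1 > 0, ∀ (R : ℝ) (cfg : Raw), R1 ≤ R → IsCfg R cfg →
    (∀ σ ∈ Icc (0:ℝ) 1, |cfg.th 2 σ| ≤ 0.1) → cfg.x 2 0 ∈ Icc (0:ℝ) 3 → |cfg.y 2 0| ≤ 3 →
    cfg.Fr R ≤ C * Real.exp (-(R ^ 2 / 40)) *
      (1 + cfg.I 2 (fun σ => cfg.kap 2 σ ^ 2 * chf (cfg.x 2 σ / R) ^ 2)) := by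
  refine ⟨240000, by norm_num, 1, by norm_num, ?_⟩
  intro R c hR hc hth hx0 hy0
  have hR0 : 0 < R := by linarith
  -- length of the ray
  have hL : c.L 2 ≤ R / 0.99 := by
    have := (hc.ray_x (ε := 0.1) le_rfl hth (σ := 0) (τ := 1) le_rfl zero_le_one le_rfl).1
    rw [hc.x_far] at this
    rw [le_div_iff₀ (by norm_num)]
    have h0 := hx0.1
    nlinarith
  have hLpos := hc.L_pos 2
  set E := Real.exp (-(R ^ 2 / 40)) with hE
  have hEpos : 0 < E := Real.exp_pos _
  -- pointwise bound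
  have hpt : ∀ σ ∈ Icc (0:ℝ) 1,
      (c.S 2 σ ^ 2 + c.kap 2 σ ^ 2) * c.rho 2 σ * chf (c.x 2 σ / R) ^ 2 ≤
        3 * E * (c.kap 2 σ ^ 2 * chf (c.x 2 σ / R) ^ 2) + 230400 / R * E := by
    intro σ hσ
    obtain ⟨hr1, hr2, hr3⟩ := hc.ray_x (ε := 0.1) le_rfl hth (σ := 0) (τ := σ) le_rfl hσ.1 hσ.2
    have hxge : 0 ≤ c.x 2 σ := by
      have : 0 ≤ 0.99 * (c.L 2 * (σ - 0)) := by
        have := hσ.1
        positivity
      have := hx0.1
      linarith
    have hyb : |c.y 2 σ| ≤ 3 + 0.102 * c.x 2 σ := by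
      have h1 : |c.y 2 σ| ≤ |c.y 2 0| + |c.y 2 σ - c.y 2 0| := by
        have := abs_add_le (c.y 2 0) (c.y 2 σ - c.y 2 0)
        simpa using this
      have h2 : (1.02 : ℝ) * 0.1 * (c.x 2 σ - c.x 2 0) ≤ 0.102 * c.x 2 σ := by
        have := hx0.1
        nlinarith
      linarith
    have hchf0 := chf_nonneg (c.x 2 σ / R)
    have hchf1 := chf_le_one (c.x 2 σ / R)
    by_cases hx : c.x 2 σ / R ≤ 1 / 4
    · rw [chf_zero hx]
      have : 0 ≤ 230400 / R * E := by positivity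
      simpa using this
    · have hxR : R / 4 ≤ c.x 2 σ := by
        rw [not_le, lt_div_iff₀ hR0] at hx
        linarith
      set x := c.x 2 σ with hxdef
      set y := c.y 2 σ with hydef
      have hh : c.h 2 σ ^ 2 ≤ 18 * (1 + x ^ 2) := by
        have hs := Real.abs_sin_le_one (c.ang 2 σ)
        have hcs := Real.abs_cos_le_one (c.ang 2 σ)
        have h1 : |c.h 2 σ| ≤ x + (3 + 0.102 * x) := by
          unfold Raw.h
          refine (abs_add_le _ _).trans (add_le_add ?_ ?_)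
          · rw [abs_neg, abs_mul, abs_of_nonneg hxge]
            exact mul_le_of_le_one_right hxge hs
          · rw [abs_mul]
            exact (mul_le_of_le_one_right (abs_nonneg _) hcs).trans hyb
        have h2 : c.h 2 σ ^ 2 ≤ (x + (3 + 0.102 * x)) ^ 2 := by
          rw [← sq_abs (c.h 2 σ)]
          exact pow_le_pow_left₀ (abs_nonneg _) h1 2
        nlinarith [sq_nonneg (x - 3), sq_nonneg (1.102 * x - 3)]
      have hrho0 : 0 < c.rho 2 σ := Real.exp_pos _
      have hrho1 : c.rho 2 σ ≤ Real.exp (-(x ^ 2 / 2)) := by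
        unfold Raw.rho
        apply Real.exp_le_exp.2
        have := sq_nonneg (c.y 2 σ)
        linarith
      have hx2 : R ^ 2 / 16 ≤ x ^ 2 := by nlinarith
      have hrhoE : c.rho 2 σ ≤ E := by
        refine hrho1.trans ?_
        rw [hE]
        apply Real.exp_le_exp.2
        nlinarith
      have hhr : c.h 2 σ ^ 2 * c.rho 2 σ ≤ 115200 / R * E := by
        have h1 : c.h 2 σ ^ 2 * c.rho 2 σ ≤ 18 * (1 + x ^ 2) * Real.exp (-(x ^ 2 / 2)) :=
          mul_le_mul hh hrho1 hrho0.le (by positivity)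
        have h2 : (1 + x ^ 2) ≤ 20 * Real.exp (0.05 * x ^ 2) := by
          have := B2a_exp_bound (e := 0.05) (x := x) (by norm_num) (by norm_num)
          norm_num at this ⊢
          exact this
        have h3 : 18 * (1 + x ^ 2) * Real.exp (-(x ^ 2 / 2)) ≤ 360 * Real.exp (-(0.45 * x ^ 2)) := by
          have e1 : Real.exp (-(0.45 * x ^ 2)) = Real.exp (0.05 * x ^ 2) * Real.exp (-(x ^ 2 / 2)) := by
            rw [← Real.exp_add]; congr 1; ring
          rw [e1]
          have := Real.exp_pos (-(x ^ 2 / 2))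
          nlinarith
        have h4 : Real.exp (-(0.45 * x ^ 2)) ≤ E * Real.exp (-(0.003125 * R ^ 2)) := by
          rw [hE, ← Real.exp_add]
          apply Real.exp_le_exp.2
          nlinarith
        have h5 : Real.exp (-(0.003125 * R ^ 2)) ≤ 320 / R := by
          have := B2a_exp_bound (e := 0.003125) (x := R) (by norm_num) (by norm_num)
          have h6 : R ≤ 320 * Real.exp (0.003125 * R ^ 2) := by
            have h7 : R ≤ 1 + R ^ 2 := by nlinarith
            have h8 : (1 : ℝ) / 0.003125 = 320 := by norm_num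
            rw [h8] at this
            linarith
          rw [Real.exp_neg, inv_eq_one_div, div_le_div_iff₀ (Real.exp_pos _) hR0]
          linarith
        calc c.h 2 σ ^ 2 * c.rho 2 σ ≤ 360 * Real.exp (-(0.45 * x ^ 2)) := h1.trans h3
          _ ≤ 360 * (E * Real.exp (-(0.003125 * R ^ 2))) := by linarith
          _ ≤ 360 * (E * (320 / R)) := by
              have := mul_le_mul_of_nonneg_left h5 hEpos.le
              linarith
          _ = 115200 / R * E := by ring
      have hS : c.S 2 σ ^ 2 ≤ 2 * c.kap 2 σ ^ 2 + 2 * c.h 2 σ ^ 2 := by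
        unfold Raw.S
        nlinarith [sq_nonneg (c.kap 2 σ - c.h 2 σ)]
      set q := chf (x / R) ^ 2 with hq
      have hq0 : 0 ≤ q := by positivity
      have hq1 : q ≤ 1 := by
        rw [hq]; exact pow_le_one₀ hchf0 hchf1
      have hk0 := sq_nonneg (c.kap 2 σ)
      have hA : (c.S 2 σ ^ 2 + c.kap 2 σ ^ 2) * c.rho 2 σ ≤
          3 * c.kap 2 σ ^ 2 * E + 230400 / R * E := by
        have i1 : (c.S 2 σ ^ 2 + c.kap 2 σ ^ 2) * c.rho 2 σ ≤
            (3 * c.kap 2 σ ^ 2 + 2 * c.h 2 σ ^ 2) * c.rho 2 σ :=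
          mul_le_mul_of_nonneg_right (by linarith) hrho0.le
        have i2 : 3 * c.kap 2 σ ^ 2 * c.rho 2 σ ≤ 3 * c.kap 2 σ ^ 2 * E :=
          mul_le_mul_of_nonneg_left hrhoE (by positivity)
        have i3 : (3 * c.kap 2 σ ^ 2 + 2 * c.h 2 σ ^ 2) * c.rho 2 σ =
            3 * c.kap 2 σ ^ 2 * c.rho 2 σ + 2 * (c.h 2 σ ^ 2 * c.rho 2 σ) := by ring
        have i4 : 2 * (115200 / R * E) = 230400 / R * E := by ring
        linarith
      have hB : 0 ≤ 230400 / R * E := by positivity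
      calc (c.S 2 σ ^ 2 + c.kap 2 σ ^ 2) * c.rho 2 σ * q
          ≤ (3 * c.kap 2 σ ^ 2 * E + 230400 / R * E) * q := mul_le_mul_of_nonneg_right hA hq0
        _ = 3 * E * (c.kap 2 σ ^ 2 * q) + 230400 / R * E * q := by ring
        _ ≤ 3 * E * (c.kap 2 σ ^ 2 * q) + 230400 / R * E := by
            have := mul_le_of_le_one_right hB hq1
            linarith
  have hu : uIcc (0:ℝ) 1 = Icc 0 1 := uIcc_of_le zero_le_one
  have hkc := hc.kap_cont 2
  have hcc := hc.chf_cont 2
  have hint1 : IntervalIntegrable (fun σ => (c.S 2 σ ^ 2 + c.kap 2 σ ^ 2) * c.rho 2 σ *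
      chf (c.x 2 σ / R) ^ 2) volume 0 1 := by
    apply ContinuousOn.intervalIntegrable
    rw [hu]
    exact ((((hc.S_cont 2).pow 2).add (hkc.pow 2)).mul (hc.rho_cont 2)).mul (hcc.pow 2)
  have hint2 : IntervalIntegrable (fun σ => c.kap 2 σ ^ 2 * chf (c.x 2 σ / R) ^ 2) volume 0 1 := by
    apply ContinuousOn.intervalIntegrable
    rw [hu]
    exact (hkc.pow 2).mul (hcc.pow 2)
  have hmono := intervalIntegral.integral_mono_on zero_le_one hint1
    ((hint2.const_mul (3 * E)).add (intervalIntegrable_const (c := 230400 / R * E))) hpt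
  have hJ0 : 0 ≤ ∫ σ in (0:ℝ)..1, c.kap 2 σ ^ 2 * chf (c.x 2 σ / R) ^ 2 :=
    intervalIntegral.integral_nonneg zero_le_one (fun σ _ => by positivity)
  rw [intervalIntegral.integral_add (hint2.const_mul (3 * E)) intervalIntegrable_const,
    intervalIntegral.integral_const_mul, intervalIntegral.integral_const] at hmono
  unfold Raw.Fr Raw.I
  set J := ∫ σ in (0:ℝ)..1, c.kap 2 σ ^ 2 * chf (c.x 2 σ / R) ^ 2 with hJ
  have h1 : c.L 2 * (∫ σ in (0:ℝ)..1, (c.S 2 σ ^ 2 + c.kap 2 σ ^ 2) * c.rho 2 σ *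
      chf (c.x 2 σ / R) ^ 2) ≤ c.L 2 * (3 * E * J + 230400 / R * E) := by
    apply mul_le_mul_of_nonneg_left _ hLpos.le
    simpa using hmono
  refine h1.trans ?_
  have h2 : c.L 2 * (230400 / R * E) ≤ 240000 * E := by
    have : c.L 2 * (230400 / R) ≤ R / 0.99 * (230400 / R) :=
      mul_le_mul_of_nonneg_right hL (by positivity)
    have e : R / 0.99 * (230400 / R) = 230400 / 0.99 := by field_simp
    have e2 : (230400 : ℝ) / 0.99 ≤ 240000 := by norm_num
    have : c.L 2 * (230400 / R) ≤ 240000 := by linarith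
    calc c.L 2 * (230400 / R * E) = (c.L 2 * (230400 / R)) * E := by ring
      _ ≤ 240000 * E := mul_le_mul_of_nonneg_right this hEpos.le
  have h3 : 0 ≤ c.L 2 * J * E := by positivity
  nlinarith

end Pool.Agent.Helper15.NF
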