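import Pool.Agent.Helper15.NF.U1

open Set MeasureTheory intervalIntegral Filter Topology

namespace Pool.Agent.Helper15.NF

namespace CL5aux

/-- weighted Cauchy-Schwarz inequality on an interval -/
lemma cs {a b : ℝ} (hab : a ≤ b) {f g w : ℝ → ℝ} (hf : ContinuousOn f (Icc a b))
    (hg : ContinuousOn g (Icc a b)) (hw : ContinuousOn w (Icc a b))
    (hw0 : ∀ x ∈ Icc a b, 0 ≤ w x) :
    (∫ x in a..b, f x * g x * w x) ^ 2 ≤
      (∫ x in a..b, f x ^ 2 * w x) * ∫ x in a..b, g x ^ 2 * w x := by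
  have hu : uIcc a b = Icc a b := uIcc_of_le hab
  have i1 : IntervalIntegrable (fun x => f x ^ 2 * w x) volume a b :=
    ContinuousOn.intervalIntegrable (by rw [hu]; exact (hf.pow 2).mul hw)
  have i2 : IntervalIntegrable (fun x => f x * g x * w x) volume a b :=
    ContinuousOn.intervalIntegrable (by rw [hu]; exact (hf.mul hg).mul hw)
  have i3 : IntervalIntegrable (fun x => g x ^ 2 * w x) volume a b :=
    ContinuousOn.intervalIntegrable (by rw [hu]; exact (hg.pow 2).mul hw)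
  have key : ∀ t : ℝ, 0 ≤ (∫ x in a..b, g x ^ 2 * w x) * (t * t) +
      (-2 * ∫ x in a..b, f x * g x * w x) * t + ∫ x in a..b, f x ^ 2 * w x := by
    intro t
    have h1 : 0 ≤ ∫ x in a..b, (f x - t * g x) ^ 2 * w x :=
      intervalIntegral.integral_nonneg hab fun x hx => mul_nonneg (sq_nonneg _) (hw0 x hx)
    have h2 : ∫ x in a..b, (f x - t * g x) ^ 2 * w x =
        (∫ x in a..b, f x ^ 2 * w x) - 2 * t * (∫ x in a..b, f x * g x * w x) +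
          t ^ 2 * ∫ x in a..b, g x ^ 2 * w x := by
      rw [← intervalIntegral.integral_const_mul, ← intervalIntegral.integral_const_mul,
        ← intervalIntegral.integral_sub i1 (i2.const_mul _),
        ← intervalIntegral.integral_add (i1.sub (i2.const_mul _)) (i3.const_mul _)]
      refine intervalIntegral.integral_congr fun x _ => ?_
      ring
    rw [h2] at h1
    nlinarith [h1]
  have := discrim_le_zero key
  rw [discrim] at this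
  nlinarith [this]

lemma w_nonneg (c : Raw) (R : ℝ) (i : Fin 3) (σ : ℝ) : 0 ≤ c.w R i σ :=
  mul_nonneg (Real.exp_pos _).le (cut_nonneg _)

/-- each edge contributes at most `D` -/
lemma I_le_D {R : ℝ} {c : Raw} (hc : IsCfg R c) (i : Fin 3) :
    c.I i (fun σ => c.S i σ ^ 2 * c.w R i σ) ≤ c.D R := by
  refine Finset.single_le_sum (f := fun i => c.I i (fun σ => c.S i σ ^ 2 * c.w R i σ))
    (fun j _ => ?_) (Finset.mem_univ i)
  exact mul_nonneg (hc.L_pos j).le (intervalIntegral.integral_nonneg zero_le_one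
    fun σ _ => mul_nonneg (sq_nonneg _) (w_nonneg c R j σ))

lemma D_nonneg {R : ℝ} {c : Raw} (hc : IsCfg R c) : 0 ≤ c.D R :=
  Finset.sum_nonneg fun j _ => mul_nonneg (hc.L_pos j).le
    (intervalIntegral.integral_nonneg zero_le_one
      fun σ _ => mul_nonneg (sq_nonneg _) (w_nonneg c R j σ))

end CL5aux

open CL5aux in
/-- CL5 : the ray points away from the centre -/
theorem ray_h : ∃ C > 0, ∃ R1 > 0, ∀ (R : ℝ) (cfg : Raw), R1 ≤ R → IsCfg R cfg →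
    (∀ σ ∈ Icc (0:ℝ) 1, |cfg.th 2 σ| ≤ 0.1) → cfg.x 2 0 ∈ Icc (0:ℝ) 3 → |cfg.y 2 0| ≤ 3 →
    |cfg.h 2 0| ≤ C * (Real.sqrt (cfg.D R) + Real.exp (-(R ^ 2 / 16))) := by
  refine ⟨Real.exp 9 * 14, by positivity, 12, by norm_num, ?_⟩
  intro R c hR hc hth hx hy
  have hR0 : 0 < R := by linarith
  -- the point with first coordinate `R / 2`
  obtain ⟨τ, hτ, hxτ⟩ : ∃ τ ∈ Icc (0:ℝ) 1, c.x 2 τ = R / 2 := by
    have h1 : R / 2 ∈ Icc (c.x 2 0) (c.x 2 1) := by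
      rw [hc.x_far]
      exact ⟨by linarith [hx.2], by linarith⟩
    exact intermediate_value_Icc zero_le_one (hc.x_cont 2) h1
  have hLp := hc.L_pos 2
  have hτ0 : (0:ℝ) ≤ τ := hτ.1
  have hsub : Icc (0:ℝ) τ ⊆ Icc 0 1 := Icc_subset_Icc le_rfl hτ.2
  have hxmono : ∀ σ ∈ Icc (0:ℝ) τ, c.x 2 σ ≤ R / 2 := by
    intro σ hσ
    have := (hc.ray_x le_rfl hth hσ.1 hσ.2 hτ.2).1
    have h2 : 0 ≤ 0.99 * (c.L 2 * (τ - σ)) := by
      have : 0 ≤ τ - σ := by linarith [hσ.2]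
      positivity
    linarith
  have hx0 : ∀ σ ∈ Icc (0:ℝ) 1, c.x 2 0 ≤ c.x 2 σ := by
    intro σ hσ
    have := (hc.ray_x le_rfl hth le_rfl hσ.1 hσ.2).1
    have h2 : 0 ≤ 0.99 * (c.L 2 * (σ - 0)) := by
      have : 0 ≤ σ - 0 := by linarith [hσ.1]
      positivity
    linarith
  have hyb : ∀ σ ∈ Icc (0:ℝ) 1, |c.y 2 σ| ≤ 3 + 0.102 * c.x 2 σ := by
    intro σ hσ
    have h1 := (hc.ray_x le_rfl hth le_rfl hσ.1 hσ.2).2.2
    have h2 : |c.y 2 σ| ≤ |c.y 2 σ - c.y 2 0| + |c.y 2 0| := by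
      have := abs_add_le (c.y 2 σ - c.y 2 0) (c.y 2 0)
      rwa [sub_add_cancel] at this
    have h3 := hx.1
    nlinarith
  -- derivative of `h ρ`
  have hder : ∀ σ ∈ Icc (0:ℝ) 1, HasDerivWithinAt (fun σ => c.h 2 σ * c.rho 2 σ)
      (-(c.L 2 * (c.S 2 σ * c.p 2 σ * c.rho 2 σ))) (Icc 0 1) σ := by
    intro σ hσ
    have h1 := (hc.h_s 2 hσ).mul (hc.rho_s 2 hσ)
    refine h1.congr_deriv ?_
    have hS : c.S 2 σ = c.kap 2 σ + c.h 2 σ := rfl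
    rw [hS]
    ring
  have hcont : ContinuousOn (fun σ => -(c.L 2 * (c.S 2 σ * c.p 2 σ * c.rho 2 σ))) (Icc 0 1) :=
    (continuousOn_const.mul (((hc.S_cont 2).mul (hc.p_cont 2)).mul (hc.rho_cont 2))).neg
  have hftc : ∫ σ in (0:ℝ)..τ, -(c.L 2 * (c.S 2 σ * c.p 2 σ * c.rho 2 σ)) =
      c.h 2 τ * c.rho 2 τ - c.h 2 0 * c.rho 2 0 := by
    refine intervalIntegral.integral_eq_sub_of_hasDerivAt_of_le hτ0
      (fun σ hσ => ((hder σ (hsub hσ)).continuousWithinAt).mono hsub) ?_ ?_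
    · intro σ hσ
      have hσ1 : σ ∈ Icc (0:ℝ) 1 := hsub ⟨hσ.1.le, hσ.2.le⟩
      exact (hder σ hσ1).hasDerivAt (Icc_mem_nhds hσ.1 (lt_of_lt_of_le hσ.2 hτ.2))
    · exact ContinuousOn.intervalIntegrable (by rw [uIcc_of_le hτ0]; exact hcont.mono hsub)
  set Q : ℝ := ∫ σ in (0:ℝ)..τ, c.S 2 σ * c.p 2 σ * c.rho 2 σ with hQ
  have hftc2 : -(c.L 2 * Q) = c.h 2 τ * c.rho 2 τ - c.h 2 0 * c.rho 2 0 := by
    rw [← hftc, intervalIntegral.integral_neg, intervalIntegral.integral_const_mul]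
  -- Cauchy-Schwarz
  have hrho0 : ∀ σ, 0 < c.rho 2 σ := fun σ => Real.exp_pos _
  have hcs : Q ^ 2 ≤ (∫ σ in (0:ℝ)..τ, c.S 2 σ ^ 2 * c.rho 2 σ) *
      ∫ σ in (0:ℝ)..τ, c.p 2 σ ^ 2 * c.rho 2 σ :=
    cs hτ0 ((hc.S_cont 2).mono hsub) ((hc.p_cont 2).mono hsub) ((hc.rho_cont 2).mono hsub)
      fun σ _ => (hrho0 σ).le
  have hD0 := D_nonneg hc
  have hA : c.L 2 * (∫ σ in (0:ℝ)..τ, c.S 2 σ ^ 2 * c.rho 2 σ) ≤ c.D R := by
    refine le_trans ?_ (I_le_D hc 2)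
    refine mul_le_mul_of_nonneg_left ?_ hLp.le
    have e1 : ∫ σ in (0:ℝ)..τ, c.S 2 σ ^ 2 * c.rho 2 σ =
        ∫ σ in (0:ℝ)..τ, c.S 2 σ ^ 2 * c.w R 2 σ := by
      refine intervalIntegral.integral_congr fun σ hσ => ?_
      rw [uIcc_of_le hτ0] at hσ
      have h1 : c.w R 2 σ = c.rho 2 σ := by
        have h2 : cut (c.x 2 σ / R) = 1 := by
          refine cut_one ?_
          rw [div_le_iff₀ hR0]
          linarith [hxmono σ hσ]
        change c.rho 2 σ * cut (c.x 2 σ / R) = c.rho 2 σ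
        rw [h2, mul_one]
      simp only [h1]
    rw [e1]
    have ci : ContinuousOn (fun σ => c.S 2 σ ^ 2 * c.w R 2 σ) (Icc 0 1) :=
      ((hc.S_cont 2).pow 2).mul (hc.w_cont 2)
    have i1 : IntervalIntegrable (fun σ => c.S 2 σ ^ 2 * c.w R 2 σ) volume 0 1 :=
      ContinuousOn.intervalIntegrable (by rw [uIcc_of_le zero_le_one]; exact ci)
    exact intervalIntegral.integral_mono_interval le_rfl hτ0 hτ.2
      (ae_of_all _ fun σ => mul_nonneg (sq_nonneg _) (w_nonneg c R 2 σ)) i1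
  have hB : c.L 2 * (∫ σ in (0:ℝ)..τ, c.p 2 σ ^ 2 * c.rho 2 σ) ≤ 180 := by
    have hg := hc.ray_gauss hth hx.1
    have ci : ContinuousOn (fun σ => c.p 2 σ ^ 2 * c.rho 2 σ) (Icc 0 1) :=
      ((hc.p_cont 2).pow 2).mul (hc.rho_cont 2)
    have i1 : IntervalIntegrable (fun σ => c.p 2 σ ^ 2 * c.rho 2 σ) volume 0 1 :=
      ContinuousOn.intervalIntegrable (by rw [uIcc_of_le zero_le_one]; exact ci)
    have ci2 : ContinuousOn (fun σ => (1 + c.x 2 σ ^ 2) ^ 2 * c.rho 2 σ) (Icc 0 1) :=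
      ((continuousOn_const.add ((hc.x_cont 2).pow 2)).pow 2).mul (hc.rho_cont 2)
    have i2 : IntervalIntegrable (fun σ => (1 + c.x 2 σ ^ 2) ^ 2 * c.rho 2 σ) volume 0 1 :=
      ContinuousOn.intervalIntegrable (by rw [uIcc_of_le zero_le_one]; exact ci2)
    have h1 : ∫ σ in (0:ℝ)..τ, c.p 2 σ ^ 2 * c.rho 2 σ ≤
        ∫ σ in (0:ℝ)..1, c.p 2 σ ^ 2 * c.rho 2 σ :=
      intervalIntegral.integral_mono_interval le_rfl hτ0 hτ.2
        (ae_of_all _ fun σ => mul_nonneg (sq_nonneg _) (hrho0 σ).le) i1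
    have h2 : ∫ σ in (0:ℝ)..1, c.p 2 σ ^ 2 * c.rho 2 σ ≤
        ∫ σ in (0:ℝ)..1, 18 * ((1 + c.x 2 σ ^ 2) ^ 2 * c.rho 2 σ) := by
      refine intervalIntegral.integral_mono_on zero_le_one i1 (i2.const_mul _) fun σ hσ => ?_
      have hp : c.p 2 σ ^ 2 ≤ c.x 2 σ ^ 2 + c.y 2 σ ^ 2 := by
        change (c.x 2 σ * Real.cos (c.ang 2 σ) + c.y 2 σ * Real.sin (c.ang 2 σ)) ^ 2 ≤ _
        nlinarith [sq_nonneg (c.x 2 σ * Real.sin (c.ang 2 σ) - c.y 2 σ * Real.cos (c.ang 2 σ)),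
          Real.sin_sq_add_cos_sq (c.ang 2 σ)]
      have hy2 : c.y 2 σ ^ 2 ≤ (3 + 0.102 * c.x 2 σ) ^ 2 := by
        rw [← sq_abs (c.y 2 σ)]
        exact pow_le_pow_left₀ (abs_nonneg _) (hyb σ hσ) 2
      have h3 : c.p 2 σ ^ 2 ≤ 18 * (1 + c.x 2 σ ^ 2) ^ 2 := by
        nlinarith [sq_nonneg (c.x 2 σ), sq_nonneg (c.x 2 σ - 1), sq_nonneg (c.x 2 σ ^ 2)]
      calc c.p 2 σ ^ 2 * c.rho 2 σ ≤ 18 * (1 + c.x 2 σ ^ 2) ^ 2 * c.rho 2 σ :=
            mul_le_mul_of_nonneg_right h3 (hrho0 σ).le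
        _ = _ := by ring
    rw [intervalIntegral.integral_const_mul] at h2
    have h3 : c.L 2 * ∫ σ in (0:ℝ)..1, (1 + c.x 2 σ ^ 2) ^ 2 * c.rho 2 σ ≤ 10 := hg
    calc c.L 2 * (∫ σ in (0:ℝ)..τ, c.p 2 σ ^ 2 * c.rho 2 σ)
        ≤ c.L 2 * (18 * ∫ σ in (0:ℝ)..1, (1 + c.x 2 σ ^ 2) ^ 2 * c.rho 2 σ) :=
          mul_le_mul_of_nonneg_left (h1.trans h2) hLp.le
      _ = 18 * (c.L 2 * ∫ σ in (0:ℝ)..1, (1 + c.x 2 σ ^ 2) ^ 2 * c.rho 2 σ) := by ring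
      _ ≤ 180 := by linarith
  have hA0 : 0 ≤ ∫ σ in (0:ℝ)..τ, c.S 2 σ ^ 2 * c.rho 2 σ :=
    intervalIntegral.integral_nonneg hτ0 fun σ _ => mul_nonneg (sq_nonneg _) (hrho0 σ).le
  have hB0 : 0 ≤ ∫ σ in (0:ℝ)..τ, c.p 2 σ ^ 2 * c.rho 2 σ :=
    intervalIntegral.integral_nonneg hτ0 fun σ _ => mul_nonneg (sq_nonneg _) (hrho0 σ).le
  have hLQ : |c.L 2 * Q| ≤ 14 * Real.sqrt (c.D R) := by
    refine abs_le_of_sq_le_sq ?_ (by positivity)
    have h1 : (c.L 2 * Q) ^ 2 ≤ c.D R * 180 := by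
      calc (c.L 2 * Q) ^ 2 = c.L 2 ^ 2 * Q ^ 2 := by ring
        _ ≤ c.L 2 ^ 2 * ((∫ σ in (0:ℝ)..τ, c.S 2 σ ^ 2 * c.rho 2 σ) *
            ∫ σ in (0:ℝ)..τ, c.p 2 σ ^ 2 * c.rho 2 σ) :=
            mul_le_mul_of_nonneg_left hcs (sq_nonneg _)
        _ = (c.L 2 * ∫ σ in (0:ℝ)..τ, c.S 2 σ ^ 2 * c.rho 2 σ) *
            (c.L 2 * ∫ σ in (0:ℝ)..τ, c.p 2 σ ^ 2 * c.rho 2 σ) := by ring
        _ ≤ c.D R * 180 := mul_le_mul hA hB (mul_nonneg hLp.le hB0) hD0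
    have h2 : (14 * Real.sqrt (c.D R)) ^ 2 = 196 * c.D R := by
      rw [mul_pow, Real.sq_sqrt hD0]; norm_num
    rw [h2]
    linarith
  -- the value at `τ`
  have hend : |c.h 2 τ * c.rho 2 τ| ≤ 8 * Real.exp (-(R ^ 2 / 16)) := by
    have h1 : |c.h 2 τ| ≤ R + 3 := by
      have h2 : |c.h 2 τ| ≤ |c.x 2 τ| + |c.y 2 τ| := by
        change |-(c.x 2 τ * Real.sin (c.ang 2 τ)) + c.y 2 τ * Real.cos (c.ang 2 τ)| ≤ _
        refine (abs_add_le _ _).trans ?_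
        rw [abs_neg, abs_mul, abs_mul]
        exact add_le_add (mul_le_of_le_one_right (abs_nonneg _) (Real.abs_sin_le_one _))
          (mul_le_of_le_one_right (abs_nonneg _) (Real.abs_cos_le_one _))
      have h3 := hyb τ hτ
      rw [hxτ] at h2 h3
      rw [abs_of_pos (by linarith : (0:ℝ) < R / 2)] at h2
      linarith
    have h2 : c.rho 2 τ ≤ Real.exp (-(R ^ 2 / 16)) * Real.exp (-(R ^ 2 / 16)) := by
      rw [← Real.exp_add]
      refine Real.exp_le_exp.mpr ?_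
      rw [hxτ]
      nlinarith [sq_nonneg (c.y 2 τ)]
    have h3 : (R + 3) * Real.exp (-(R ^ 2 / 16)) ≤ 8 := by
      have h4 : R / 2 ≤ Real.exp (R ^ 2 / 16) := by
        have := Real.add_one_le_exp (R ^ 2 / 16)
        nlinarith [sq_nonneg (R / 4 - 1)]
      have h5 : Real.exp (-(R ^ 2 / 16)) ≤ 2 / R := by
        rw [Real.exp_neg, inv_le_comm₀ (Real.exp_pos _) (by positivity)]
        rw [inv_div]
        exact h4
      calc (R + 3) * Real.exp (-(R ^ 2 / 16)) ≤ (R + 3) * (2 / R) :=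
            mul_le_mul_of_nonneg_left h5 (by linarith)
        _ ≤ 8 := by
          rw [mul_div_assoc', div_le_iff₀ hR0]
          linarith
    have hpos := Real.exp_pos (-(R ^ 2 / 16))
    rw [abs_mul, abs_of_pos (hrho0 τ)]
    calc |c.h 2 τ| * c.rho 2 τ ≤ (R + 3) *
          (Real.exp (-(R ^ 2 / 16)) * Real.exp (-(R ^ 2 / 16))) :=
          mul_le_mul h1 h2 (hrho0 τ).le (by linarith)
      _ = ((R + 3) * Real.exp (-(R ^ 2 / 16))) * Real.exp (-(R ^ 2 / 16)) := by ring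
      _ ≤ 8 * Real.exp (-(R ^ 2 / 16)) := mul_le_mul_of_nonneg_right h3 hpos.le
  have hrJ : Real.exp (-9) ≤ c.rho 2 0 := by
    refine Real.exp_le_exp.mpr ?_
    have h1 := hx.1
    have h2 := hx.2
    have h3 : c.y 2 0 ^ 2 ≤ 9 := by
      rw [← sq_abs]
      nlinarith [abs_nonneg (c.y 2 0)]
    nlinarith
  have hfin : |c.h 2 0| * c.rho 2 0 ≤ 14 * Real.sqrt (c.D R) + 8 * Real.exp (-(R ^ 2 / 16)) := by
    have h1 : c.h 2 0 * c.rho 2 0 = c.h 2 τ * c.rho 2 τ + c.L 2 * Q := by linarith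
    rw [← abs_of_pos (hrho0 0), ← abs_mul, h1]
    exact (abs_add_le _ _).trans (by linarith)
  have h9 : Real.exp 9 * Real.exp (-9) = 1 := by
    rw [← Real.exp_add]; norm_num
  have hse := Real.sqrt_nonneg (c.D R)
  have hee := (Real.exp_pos (-(R ^ 2 / 16))).le
  calc |c.h 2 0| = Real.exp 9 * (|c.h 2 0| * Real.exp (-9)) := by
        rw [mul_comm (|c.h 2 0|), ← mul_assoc, h9, one_mul]
    _ ≤ Real.exp 9 * (|c.h 2 0| * c.rho 2 0) := by
        refine mul_le_mul_of_nonneg_left ?_ (Real.exp_pos _).le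
        exact mul_le_mul_of_nonneg_left hrJ (abs_nonneg _)
    _ ≤ Real.exp 9 * (14 * (Real.sqrt (c.D R) + Real.exp (-(R ^ 2 / 16)))) := by
        refine mul_le_mul_of_nonneg_left (hfin.trans ?_) (Real.exp_pos _).le
        linarith
    _ = Real.exp 9 * 14 * (Real.sqrt (c.D R) + Real.exp (-(R ^ 2 / 16))) := by ring

end Pool.Agent.Helper15.NF
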