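import Pool.Agent.Helper15.NF.CL4
import Pool.Agent.Helper15.NF.CL5

open Set MeasureTheory intervalIntegral Filter Topology

namespace Pool.Agent.Helper15.NF

namespace CL6aux

lemma abs_comb_le (x y t : ℝ) : |x * Real.sin t + y * Real.cos t| ≤ |x| + |y| := by
  refine (abs_add_le _ _).trans ?_
  rw [abs_mul, abs_mul]
  exact add_le_add (mul_le_of_le_one_right (abs_nonneg _) (Real.abs_sin_le_one _))
    (mul_le_of_le_one_right (abs_nonneg _) (Real.abs_cos_le_one _))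

lemma arc_x_lip {l : ℝ} {x y a S : ℝ → ℝ} (h : IsArc l x y a S) {s s' : ℝ}
    (hs : s ∈ Icc (0:ℝ) l) (hs' : s' ∈ Icc (0:ℝ) l) : |x s - x s'| ≤ |s - s'| := by
  have := Convex.norm_image_sub_le_of_norm_hasDerivWithin_le (C := 1) h.x_s
    (fun u _ => by rw [Real.norm_eq_abs]; exact Real.abs_cos_le_one _) (convex_Icc 0 l) hs' hs
  simpa [Real.norm_eq_abs] using this

lemma arc_y_lip {l : ℝ} {x y a S : ℝ → ℝ} (h : IsArc l x y a S) {s s' : ℝ}
    (hs : s ∈ Icc (0:ℝ) l) (hs' : s' ∈ Icc (0:ℝ) l) : |y s - y s'| ≤ |s - s'| := by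
  have := Convex.norm_image_sub_le_of_norm_hasDerivWithin_le (C := 1) h.y_s
    (fun u _ => by rw [Real.norm_eq_abs, abs_neg]; exact Real.abs_sin_le_one _)
    (convex_Icc 0 l) hs' hs
  simpa [Real.norm_eq_abs] using this

lemma arc_x_le {l : ℝ} {x y a S : ℝ → ℝ} (h : IsArc l x y a S) {s : ℝ}
    (hs : s ∈ Icc (0:ℝ) l) : |x s| ≤ s := by
  have h1 := arc_x_lip h hs ⟨le_rfl, hs.1.trans hs.2⟩
  rw [h.x_0, sub_zero, sub_zero, abs_of_nonneg hs.1] at h1
  exact h1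

lemma arc_y_le {l : ℝ} {x y a S : ℝ → ℝ} (h : IsArc l x y a S) {s : ℝ}
    (hs : s ∈ Icc (0:ℝ) l) : |y s| ≤ |y 0| + s := by
  have h1 := arc_y_lip h hs ⟨le_rfl, hs.1.trans hs.2⟩
  rw [sub_zero, abs_of_nonneg hs.1] at h1
  have h2 := abs_add_le (y s - y 0) (y 0)
  rw [sub_add_cancel] at h2
  linarith

lemma arc_a_lip {x y a : ℝ → ℝ} (h : IsArc 1.5 x y a (fun _ => 0)) (hy : |y 0| ≤ 1)
    {s s' : ℝ} (hs : s ∈ Icc (0:ℝ) 1.5) (hs' : s' ∈ Icc (0:ℝ) 1.5) :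
    |a s - a s'| ≤ 4 * |s - s'| := by
  have := Convex.norm_image_sub_le_of_norm_hasDerivWithin_le (C := 4) h.a_s
    (fun u hu => by
      rw [Real.norm_eq_abs, add_zero]
      refine (abs_comb_le _ _ _).trans ?_
      have h1 := arc_x_le h hu
      have h2 := arc_y_le h hu
      have h3 : u ≤ 1.5 := hu.2
      linarith) (convex_Icc (0:ℝ) 1.5) hs' hs
  simpa [Real.norm_eq_abs] using this

lemma IsArc_mono {l l' : ℝ} {x y a S : ℝ → ℝ} (h : IsArc l x y a S) (hl : l' ≤ l) :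
    IsArc l' x y a S where
  x_s s hs := (h.x_s s ⟨hs.1, hs.2.trans hl⟩).mono (Icc_subset_Icc le_rfl hl)
  y_s s hs := (h.y_s s ⟨hs.1, hs.2.trans hl⟩).mono (Icc_subset_Icc le_rfl hl)
  a_s s hs := (h.a_s s ⟨hs.1, hs.2.trans hl⟩).mono (Icc_subset_Icc le_rfl hl)
  x_0 := h.x_0
  a_0 := h.a_0

/-- the end point of an arc lies in the right half plane -/
lemma arc_pos {l : ℝ} {x y a S : ℝ → ℝ} (h : IsArc l x y a S) (hl : l ∈ Icc (1.3:ℝ) 1.46)
    (hS : ContinuousOn S (Icc 0 l)) (hy : |y 0| ≤ 0.67)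
    (hB : ∫ u in (0:ℝ)..l, |S u| ≤ 0.1) : 0 ≤ x l := by
  have hl0 : (0:ℝ) ≤ l := by linarith [hl.1]
  have h1l : (1:ℝ) ≤ l := by linarith [hl.1]
  have hxc := CL4aux.arc_x_cont h
  have hyc := CL4aux.arc_y_cont h
  have hac := CL4aux.arc_a_cont h
  -- bound of the angle
  have ha : ∀ u ∈ Icc (0:ℝ) 1, |a u| ≤ 0.1 + 0.67 * u + u ^ 2 := by
    intro u hu
    have hul : Icc (0:ℝ) u ⊆ Icc 0 l := Icc_subset_Icc le_rfl (hu.2.trans h1l)
    have cg : ContinuousOn (fun s => x s * Real.sin (a s) + y s * Real.cos (a s) + S s)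
        (Icc 0 u) := by
      exact (((hxc.mono hul).mul (Real.continuous_sin.comp_continuousOn (hac.mono hul))).add
        ((hyc.mono hul).mul (Real.continuous_cos.comp_continuousOn (hac.mono hul)))).add
        (hS.mono hul)
    have hi : IntervalIntegrable (fun s => x s * Real.sin (a s) + y s * Real.cos (a s) + S s)
        volume 0 u := ContinuousOn.intervalIntegrable (by rw [uIcc_of_le hu.1]; exact cg)
    have hf : ∫ s in (0:ℝ)..u, (x s * Real.sin (a s) + y s * Real.cos (a s) + S s) =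
        a u - a 0 := by
      refine intervalIntegral.integral_eq_sub_of_hasDerivAt_of_le hu.1 (hac.mono hul) ?_ hi
      intro s hs
      exact (h.a_s s (hul ⟨hs.1.le, hs.2.le⟩)).hasDerivAt
        (Icc_mem_nhds hs.1 (lt_of_lt_of_le hs.2 (hu.2.trans h1l)))
    rw [h.a_0, sub_zero] at hf
    rw [← hf]
    have cS : ContinuousOn (fun s => |S s|) (Icc 0 l) := hS.abs
    have iS : IntervalIntegrable (fun s => |S s|) volume 0 l :=
      ContinuousOn.intervalIntegrable (by rw [uIcc_of_le hl0]; exact cS)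
    have iSu : IntervalIntegrable (fun s => |S s|) volume 0 u :=
      ContinuousOn.intervalIntegrable (by rw [uIcc_of_le hu.1]; exact cS.mono hul)
    have ip : IntervalIntegrable (fun s : ℝ => 0.67 + 2 * s) volume 0 u :=
      Continuous.intervalIntegrable (by fun_prop) _ _
    calc |∫ s in (0:ℝ)..u, (x s * Real.sin (a s) + y s * Real.cos (a s) + S s)|
        ≤ ∫ s in (0:ℝ)..u, |x s * Real.sin (a s) + y s * Real.cos (a s) + S s| :=
          intervalIntegral.abs_integral_le_integral_abs hu.1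
      _ ≤ ∫ s in (0:ℝ)..u, ((0.67 + 2 * s) + |S s|) := by
          refine intervalIntegral.integral_mono_on hu.1 hi.abs (ip.add iSu) fun s hs => ?_
          refine (abs_add_le _ _).trans ?_
          have h1 := abs_comb_le (x s) (y s) (a s)
          have h2 := arc_x_le h (hul hs)
          have h3 := arc_y_le h (hul hs)
          linarith
      _ = (0.67 * u + u ^ 2) + ∫ s in (0:ℝ)..u, |S s| := by
          rw [intervalIntegral.integral_add ip iSu]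
          congr 1
          rw [intervalIntegral.integral_add (Continuous.intervalIntegrable (by fun_prop) _ _)
            (Continuous.intervalIntegrable (by fun_prop) _ _),
            intervalIntegral.integral_const_mul, integral_id]
          simp
          ring
      _ ≤ (0.67 * u + u ^ 2) + ∫ s in (0:ℝ)..l, |S s| := by
          have := intervalIntegral.integral_mono_interval (le_refl (0:ℝ)) hu.1
            (hu.2.trans h1l) (ae_of_all _ fun s => abs_nonneg (S s)) iS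
          linarith
      _ ≤ _ := by linarith
  -- the value at 1
  have h01 : Icc (0:ℝ) 1 ⊆ Icc 0 l := Icc_subset_Icc le_rfl h1l
  have cc : ContinuousOn (fun s => Real.cos (a s)) (Icc 0 1) :=
    Real.continuous_cos.comp_continuousOn (hac.mono h01)
  have ic : IntervalIntegrable (fun s => Real.cos (a s)) volume 0 1 :=
    ContinuousOn.intervalIntegrable (by rw [uIcc_of_le zero_le_one]; exact cc)
  have hx1 : ∫ s in (0:ℝ)..1, Real.cos (a s) = x 1 - x 0 := by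
    refine intervalIntegral.integral_eq_sub_of_hasDerivAt_of_le zero_le_one (hxc.mono h01) ?_ ic
    intro s hs
    exact (h.x_s s (h01 ⟨hs.1.le, hs.2.le⟩)).hasDerivAt
      (Icc_mem_nhds hs.1 (lt_of_lt_of_le hs.2 h1l))
  rw [h.x_0, sub_zero] at hx1
  have ip : IntervalIntegrable (fun u : ℝ => 1 - (0.1 + 0.67 * u + u ^ 2) ^ 2 / 2) volume 0 1 :=
    Continuous.intervalIntegrable (by fun_prop) _ _
  have hlow : ∫ u in (0:ℝ)..1, (1 - (0.1 + 0.67 * u + u ^ 2) ^ 2 / 2) ≤ x 1 := by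
    rw [← hx1]
    refine intervalIntegral.integral_mono_on zero_le_one ip ic fun u hu => ?_
    have h1 := Real.one_sub_sq_div_two_le_cos (x := a u)
    have h2 : a u ^ 2 ≤ (0.1 + 0.67 * u + u ^ 2) ^ 2 := by
      rw [← sq_abs (a u)]
      exact pow_le_pow_left₀ (abs_nonneg _) (ha u hu) 2
    linarith
  have hval : (0.5:ℝ) ≤ ∫ u in (0:ℝ)..1, (1 - (0.1 + 0.67 * u + u ^ 2) ^ 2 / 2) := by
    have e : ∫ u in (0:ℝ)..1, (1 - (0.1 + 0.67 * u + u ^ 2) ^ 2 / 2) =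
        (fun u : ℝ => u - (0.01 * u + 0.067 * u ^ 2 + 0.6489 / 3 * u ^ 3 + 1.34 / 4 * u ^ 4 +
          u ^ 5 / 5) / 2) 1 - (fun u : ℝ => u - (0.01 * u + 0.067 * u ^ 2 +
          0.6489 / 3 * u ^ 3 + 1.34 / 4 * u ^ 4 + u ^ 5 / 5) / 2) 0 := by
      refine intervalIntegral.integral_eq_sub_of_hasDerivAt (f := fun u : ℝ => u - (0.01 * u +
        0.067 * u ^ 2 + 0.6489 / 3 * u ^ 3 + 1.34 / 4 * u ^ 4 + u ^ 5 / 5) / 2) (fun u _ => ?_) ip
      have h1 : HasDerivAt (fun u : ℝ => u - (0.01 * u + 0.067 * u ^ 2 + 0.6489 / 3 * u ^ 3 +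
          1.34 / 4 * u ^ 4 + u ^ 5 / 5) / 2)
          (1 - (0.01 * 1 + 0.067 * (2 * u ^ 1 * 1) + 0.6489 / 3 * (3 * u ^ 2 * 1) +
            1.34 / 4 * (4 * u ^ 3 * 1) + (5 * u ^ 4 * 1) / 5) / 2) u := by
        have hid := hasDerivAt_id u
        have p2 := hid.pow 2
        have p3 := hid.pow 3
        have p4 := hid.pow 4
        have p5 := hid.pow 5
        exact hid.sub ((((((hid.const_mul 0.01).add (p2.const_mul 0.067)).add
          (p3.const_mul (0.6489 / 3))).add (p4.const_mul (1.34 / 4))).add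
          (p5.div_const 5)).div_const 2)
      refine h1.congr_deriv ?_
      ring
    rw [e]
    norm_num
  have h2 := arc_x_lip h (s := l) (s' := 1) ⟨hl0, le_rfl⟩ ⟨zero_le_one, h1l⟩
  rw [abs_of_nonneg (by linarith : (0:ℝ) ≤ l - 1)] at h2
  have h3 := (abs_le.mp h2).1
  have h4 := hl.2
  linarith

/-- arc 0 read from the axis -/
lemma rev0 {R : ℝ} {c : Raw} (hc : IsCfg R c) :
    IsArc (c.L 0) (fun s => c.x 0 (1 - s / c.L 0)) (fun s => c.y 0 (1 - s / c.L 0))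
      (fun s => Real.pi / 3 - c.th 0 (1 - s / c.L 0)) (fun s => c.S 0 (1 - s / c.L 0)) := by
  have hL := hc.L_pos 0
  have hm : MapsTo (fun s : ℝ => 1 - s / c.L 0) (Icc 0 (c.L 0)) (Icc 0 1) := by
    intro s hs
    have h1 : s / c.L 0 ≤ 1 := (div_le_one hL).mpr hs.2
    have h2 : 0 ≤ s / c.L 0 := div_nonneg hs.1 hL.le
    exact ⟨by simp only; linarith, by simp only; linarith⟩
  have hd : ∀ s ∈ Icc (0:ℝ) (c.L 0), HasDerivWithinAt (fun s : ℝ => 1 - s / c.L 0)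
      (-(1 / c.L 0)) (Icc 0 (c.L 0)) s := by
    intro s _
    have := ((hasDerivAt_id s).div_const (c.L 0)).const_sub 1
    exact this.hasDerivWithinAt
  have hang : ∀ σ, c.ang 0 σ = Real.pi - (Real.pi / 3 - c.th 0 σ) := by
    intro σ
    change c.th 0 σ + off 0 = _
    have : off 0 = 2 * Real.pi / 3 := rfl
    rw [this]; ring
  have hk : ∀ σ, c.kap 0 σ = c.x 0 σ * Real.sin (Real.pi / 3 - c.th 0 σ) +
      c.y 0 σ * Real.cos (Real.pi / 3 - c.th 0 σ) + c.S 0 σ := by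
    intro σ
    have h1 : c.S 0 σ = c.kap 0 σ + (-(c.x 0 σ * Real.sin (c.ang 0 σ)) +
      c.y 0 σ * Real.cos (c.ang 0 σ)) := rfl
    rw [h1, hang, Real.sin_pi_sub, Real.cos_pi_sub]
    ring
  refine ⟨fun s hs => ?_, fun s hs => ?_, fun s hs => ?_, ?_, ?_⟩
  · have h1 := (hc.x_s 0 _ (hm hs)).comp s (hd s hs) hm
    refine h1.congr_deriv ?_
    rw [hang, Real.cos_pi_sub]
    field_simp
  · have h1 := (hc.y_s 0 _ (hm hs)).comp s (hd s hs) hm
    refine h1.congr_deriv ?_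
    rw [hang, Real.sin_pi_sub]
    field_simp
  · have h1 := ((hc.th_s 0 _ (hm hs)).comp s (hd s hs) hm).const_sub (Real.pi / 3)
    refine h1.congr_deriv ?_
    rw [← hk]
    field_simp
  · simp [hc.x_axis0]
  · simp [hc.th_axis0]

/-- arc 1 read from the axis, reflected -/
lemma rev1 {R : ℝ} {c : Raw} (hc : IsCfg R c) :
    IsArc (c.L 1) (fun s => c.x 1 (1 - s / c.L 1)) (fun s => -c.y 1 (1 - s / c.L 1))
      (fun s => c.th 1 (1 - s / c.L 1) + Real.pi / 3) (fun s => -c.S 1 (1 - s / c.L 1)) := by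
  have hL := hc.L_pos 1
  have hm : MapsTo (fun s : ℝ => 1 - s / c.L 1) (Icc 0 (c.L 1)) (Icc 0 1) := by
    intro s hs
    have h1 : s / c.L 1 ≤ 1 := (div_le_one hL).mpr hs.2
    have h2 : 0 ≤ s / c.L 1 := div_nonneg hs.1 hL.le
    exact ⟨by simp only; linarith, by simp only; linarith⟩
  have hd : ∀ s ∈ Icc (0:ℝ) (c.L 1), HasDerivWithinAt (fun s : ℝ => 1 - s / c.L 1)
      (-(1 / c.L 1)) (Icc 0 (c.L 1)) s := by
    intro s _
    have := ((hasDerivAt_id s).div_const (c.L 1)).const_sub 1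
    exact this.hasDerivWithinAt
  have hang : ∀ σ, c.ang 1 σ = (c.th 1 σ + Real.pi / 3) - Real.pi := by
    intro σ
    change c.th 1 σ + off 1 = _
    have : off 1 = -(2 * Real.pi / 3) := rfl
    rw [this]; ring
  have hk : ∀ σ, -c.kap 1 σ = c.x 1 σ * Real.sin (c.th 1 σ + Real.pi / 3) +
      (-c.y 1 σ) * Real.cos (c.th 1 σ + Real.pi / 3) + -c.S 1 σ := by
    intro σ
    have h1 : c.S 1 σ = c.kap 1 σ + (-(c.x 1 σ * Real.sin (c.ang 1 σ)) +
      c.y 1 σ * Real.cos (c.ang 1 σ)) := rfl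
    rw [h1, hang, Real.sin_sub_pi, Real.cos_sub_pi]
    ring
  refine ⟨fun s hs => ?_, fun s hs => ?_, fun s hs => ?_, ?_, ?_⟩
  · have h1 := (hc.x_s 1 _ (hm hs)).comp s (hd s hs) hm
    refine h1.congr_deriv ?_
    rw [hang, Real.cos_sub_pi]
    field_simp
  · have h1 := ((hc.y_s 1 _ (hm hs)).comp s (hd s hs) hm).neg
    refine h1.congr_deriv ?_
    rw [hang, Real.sin_sub_pi]
    field_simp
  · have h1 := ((hc.th_s 1 _ (hm hs)).comp s (hd s hs) hm).add_const (Real.pi / 3)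
    refine h1.congr_deriv ?_
    rw [← hk]
    field_simp
  · simp [hc.x_axis1]
  · simp [hc.th_axis1]

/-- the `L¹` norm of the source is controlled by `D` -/
lemma src {R : ℝ} {c : Raw} (hc : IsCfg R c) (hR : 3 ≤ R) (i : Fin 3) (hL : c.L i ≤ 1.46)
    (hx : ∀ σ ∈ Icc (0:ℝ) 1, |c.x i σ| ≤ 1.46) (hy : ∀ σ ∈ Icc (0:ℝ) 1, |c.y i σ| ≤ 2.13) :
    c.L i * (∫ σ in (0:ℝ)..1, |c.S i σ|) ≤ 2 * Real.exp 2 * Real.sqrt (c.D R) := by
  have hLp := hc.L_pos i
  have hD0 := CL5aux.D_nonneg hc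
  have hSc := hc.S_cont i
  have h1 := CL5aux.cs (a := 0) (b := 1) zero_le_one (f := fun σ => |c.S i σ|)
    (g := fun _ => 1) (w := fun _ => 1) hSc.abs continuousOn_const continuousOn_const
    (fun _ _ => zero_le_one)
  simp only [mul_one, sq_abs, one_pow, intervalIntegral.integral_const, sub_zero, smul_eq_mul] at h1
  have h2 : c.L i * (∫ σ in (0:ℝ)..1, c.S i σ ^ 2) ≤ Real.exp 4 * c.D R := by
    have h3 : (∫ σ in (0:ℝ)..1, c.S i σ ^ 2) ≤
        ∫ σ in (0:ℝ)..1, Real.exp 4 * (c.S i σ ^ 2 * c.w R i σ) := by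
      refine intervalIntegral.integral_mono_on zero_le_one
        (ContinuousOn.intervalIntegrable (by rw [uIcc_of_le zero_le_one]; exact hSc.pow 2))
        (ContinuousOn.intervalIntegrable (by
          rw [uIcc_of_le zero_le_one]
          exact continuousOn_const.mul ((hSc.pow 2).mul (hc.w_cont i)))) fun σ hσ => ?_
      have hw : Real.exp (-4) ≤ c.w R i σ := by
        have hcut : cut (c.x i σ / R) = 1 := by
          refine cut_one ?_
          rw [div_le_iff₀ (by linarith)]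
          have := (abs_le.mp (hx σ hσ)).2
          linarith
        change _ ≤ c.rho i σ * cut (c.x i σ / R)
        rw [hcut, mul_one]
        refine Real.exp_le_exp.mpr ?_
        have hx2 : c.x i σ ^ 2 ≤ 1.46 ^ 2 := by
          rw [← sq_abs (c.x i σ)]
          exact pow_le_pow_left₀ (abs_nonneg _) (hx σ hσ) 2
        have hy2 : c.y i σ ^ 2 ≤ 2.13 ^ 2 := by
          rw [← sq_abs (c.y i σ)]
          exact pow_le_pow_left₀ (abs_nonneg _) (hy σ hσ) 2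
        norm_num at hx2 hy2 ⊢
        linarith
      have he : Real.exp 4 * Real.exp (-4) = 1 := by rw [← Real.exp_add]; norm_num
      have hw2 : 1 ≤ Real.exp 4 * c.w R i σ := by
        rw [← he]
        exact mul_le_mul_of_nonneg_left hw (Real.exp_pos _).le
      calc c.S i σ ^ 2 = c.S i σ ^ 2 * 1 := (mul_one _).symm
        _ ≤ c.S i σ ^ 2 * (Real.exp 4 * c.w R i σ) :=
          mul_le_mul_of_nonneg_left hw2 (sq_nonneg _)
        _ = _ := by ring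
    rw [intervalIntegral.integral_const_mul] at h3
    have h4 : c.L i * (∫ σ in (0:ℝ)..1, c.S i σ ^ 2 * c.w R i σ) ≤ c.D R := CL5aux.I_le_D hc i
    calc c.L i * (∫ σ in (0:ℝ)..1, c.S i σ ^ 2)
        ≤ c.L i * (Real.exp 4 * ∫ σ in (0:ℝ)..1, c.S i σ ^ 2 * c.w R i σ) :=
          mul_le_mul_of_nonneg_left h3 hLp.le
      _ = Real.exp 4 * (c.L i * ∫ σ in (0:ℝ)..1, c.S i σ ^ 2 * c.w R i σ) := by ring
      _ ≤ Real.exp 4 * c.D R := mul_le_mul_of_nonneg_left h4 (Real.exp_pos _).le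
  have hS0 : 0 ≤ ∫ σ in (0:ℝ)..1, |c.S i σ| :=
    intervalIntegral.integral_nonneg zero_le_one fun σ _ => abs_nonneg _
  have hfin : (c.L i * (∫ σ in (0:ℝ)..1, |c.S i σ|)) ^ 2 ≤
      (2 * Real.exp 2 * Real.sqrt (c.D R)) ^ 2 := by
    have e1 : (2 * Real.exp 2 * Real.sqrt (c.D R)) ^ 2 = 4 * (Real.exp 4 * c.D R) := by
      rw [mul_pow, mul_pow, Real.sq_sqrt hD0, ← Real.exp_nat_mul]
      norm_num
      ring
    have hI0 : 0 ≤ ∫ σ in (0:ℝ)..1, c.S i σ ^ 2 :=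
      intervalIntegral.integral_nonneg zero_le_one fun σ _ => sq_nonneg _
    rw [e1]
    calc (c.L i * (∫ σ in (0:ℝ)..1, |c.S i σ|)) ^ 2
        = c.L i ^ 2 * (∫ σ in (0:ℝ)..1, |c.S i σ|) ^ 2 := by ring
      _ ≤ c.L i ^ 2 * (∫ σ in (0:ℝ)..1, c.S i σ ^ 2) :=
        mul_le_mul_of_nonneg_left h1 (sq_nonneg _)
      _ = c.L i * (c.L i * ∫ σ in (0:ℝ)..1, c.S i σ ^ 2) := by ring
      _ ≤ 1.46 * (Real.exp 4 * c.D R) :=
        mul_le_mul hL h2 (mul_nonneg hLp.le hI0) (by norm_num)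
      _ ≤ 4 * (Real.exp 4 * c.D R) := by
        have : 0 ≤ Real.exp 4 * c.D R := by positivity
        linarith
  exact (le_abs_self _).trans (abs_le_of_sq_le_sq hfin (by positivity))

/-- the arc is close to the exact lens -/
lemma arc_near (st : Star) {C : ℝ} (hC : 0 < C)
    (hg : ∀ (l : ℝ) (x y a S x' y' a' S' : ℝ → ℝ), l ∈ Icc (0:ℝ) 1.5 →
      IsArc l x y a S → IsArc l x' y' a' S' →
      ContinuousOn S (Icc 0 l) → ContinuousOn S' (Icc 0 l) → |y 0| ≤ 1 → |y' 0| ≤ 1 →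
      ∀ s ∈ Icc (0:ℝ) l, |x s - x' s| ≤ C * (|y 0 - y' 0| + ∫ u in (0:ℝ)..l, |S u - S' u|) ∧
        |y s - y' s| ≤ C * (|y 0 - y' 0| + ∫ u in (0:ℝ)..l, |S u - S' u|) ∧
        |a s - a' s| ≤ C * (|y 0 - y' 0| + ∫ u in (0:ℝ)..l, |S u - S' u|))
    {L : ℝ} {x y a S X Y A : ℝ → ℝ} (hL : L ∈ Icc (0:ℝ) 1.5) (h : IsArc L x y a S)
    (hS : ContinuousOn S (Icc 0 L)) (hX : IsArc 1.5 X Y A (fun _ => 0)) (hY0 : Y 0 = y 0)
    (hy : |y 0| ≤ 1) {B ε : ℝ} (hB : ∫ u in (0:ℝ)..L, |S u| ≤ B) :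
    (∀ s ∈ Icc (0:ℝ) L, |x s - X s| ≤ C * B ∧ |y s - Y s| ≤ C * B ∧ |a s - A s| ≤ C * B) ∧
    (|L - st.ls| ≤ ε → |y 0 - st.y 0| ≤ ε → ∀ σ ∈ Icc (0:ℝ) 1,
      |x (L * (1 - σ)) - st.x (st.sg σ)| ≤ C * B + (4 + C) * ε ∧
      |y (L * (1 - σ)) - st.y (st.sg σ)| ≤ C * B + (4 + C) * ε ∧
      |a (L * (1 - σ)) - st.a (st.sg σ)| ≤ C * B + (4 + C) * ε) := by
  have hst1 : |st.y 0| ≤ 1 := by
    rw [abs_le]; constructor <;> linarith [st.ys_lo, st.ys_hi]
  have part1 : ∀ s ∈ Icc (0:ℝ) L, |x s - X s| ≤ C * B ∧ |y s - Y s| ≤ C * B ∧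
      |a s - A s| ≤ C * B := by
    intro s hs
    have h1 := hg L x y a S X Y A (fun _ => 0) hL h (IsArc_mono hX hL.2) hS continuousOn_const hy
      (by rw [hY0]; exact hy) s hs
    rw [hY0, sub_self, abs_zero, zero_add] at h1
    simp only [sub_zero] at h1
    have h2 : C * (∫ u in (0:ℝ)..L, |S u|) ≤ C * B := mul_le_mul_of_nonneg_left hB hC.le
    exact ⟨h1.1.trans h2, h1.2.1.trans h2, h1.2.2.trans h2⟩
  refine ⟨part1, fun hls hyy σ hσ => ?_⟩
  have hε : 0 ≤ ε := (abs_nonneg _).trans hls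
  have h1σ : 0 ≤ 1 - σ := by linarith [hσ.2]
  have h1σ' : 1 - σ ≤ 1 := by linarith [hσ.1]
  have hs1 : L * (1 - σ) ∈ Icc (0:ℝ) L := ⟨mul_nonneg hL.1 h1σ, mul_le_of_le_one_right hL.1 h1σ'⟩
  have hs1' : L * (1 - σ) ∈ Icc (0:ℝ) 1.5 := ⟨hs1.1, hs1.2.trans hL.2⟩
  have hls0 : 0 ≤ st.ls := by linarith [st.ls_lo]
  have hs2 : st.sg σ ∈ Icc (0:ℝ) 1.5 := by
    change st.ls * (1 - σ) ∈ Icc (0:ℝ) 1.5
    refine ⟨mul_nonneg hls0 h1σ, (mul_le_of_le_one_right hls0 h1σ').trans ?_⟩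
    linarith [st.ls_hi]
  have p1 := part1 _ hs1
  have hdiff : |L * (1 - σ) - st.sg σ| ≤ ε := by
    change |L * (1 - σ) - st.ls * (1 - σ)| ≤ ε
    rw [← sub_mul, abs_mul, abs_of_nonneg h1σ]
    exact (mul_le_of_le_one_right (abs_nonneg _) h1σ').trans hls
  have l1 := arc_x_lip hX hs1' hs2
  have l2 := arc_y_lip hX hs1' hs2
  have l3 := arc_a_lip hX (by rw [hY0]; exact hy) hs1' hs2
  have g1 := hg 1.5 X Y A (fun _ => 0) st.x st.y st.a (fun _ => 0) ⟨by norm_num, le_rfl⟩ hX st.arc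
    continuousOn_const continuousOn_const (by rw [hY0]; exact hy) hst1 _ hs2
  rw [hY0] at g1
  simp only [sub_self, abs_zero, intervalIntegral.integral_zero, add_zero] at g1
  have hCe : C * |y 0 - st.y 0| ≤ C * ε := mul_le_mul_of_nonneg_left hyy hC.le
  have tri : ∀ p q r t : ℝ, |p - t| ≤ |p - q| + |q - r| + |r - t| := by
    intro p q r t
    have e : p - t = (p - q) + (q - r) + (r - t) := by ring
    rw [e]
    exact (abs_add_le _ _).trans (add_le_add (abs_add_le _ _) le_rfl)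
  refine ⟨?_, ?_, ?_⟩
  · have := tri (x (L * (1 - σ))) (X (L * (1 - σ))) (X (st.sg σ)) (st.x (st.sg σ))
    nlinarith [p1.1, g1.1]
  · have := tri (y (L * (1 - σ))) (Y (L * (1 - σ))) (Y (st.sg σ)) (st.y (st.sg σ))
    nlinarith [p1.2.1, g1.2.1]
  · have := tri (a (L * (1 - σ))) (A (L * (1 - σ))) (A (st.sg σ)) (st.a (st.sg σ))
    nlinarith [p1.2.2, g1.2.2]

lemma exp_small {t R : ℝ} (ht : 0 < t) (hR1 : 1 ≤ R) (hR : 16 / t ≤ R) :
    Real.exp (-(R ^ 2 / 16)) ≤ t := by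
  have hR0 : 0 < R := by linarith
  have h1 : 1 / t ≤ R ^ 2 / 16 := by
    have h2 : 16 / t ≤ R ^ 2 := hR.trans (by nlinarith)
    rw [div_le_iff₀ ht] at h2 ⊢
    linarith
  have h3 : 1 / t ≤ Real.exp (R ^ 2 / 16) := by
    have := Real.add_one_le_exp (R ^ 2 / 16)
    linarith
  rw [Real.exp_neg, inv_le_comm₀ (Real.exp_pos _) ht]
  rw [one_div] at h3
  exact h3

end CL6aux

open CL6aux in
/-- CL6 : small `D` implies closeness to the exact lens -/
theorem closeness (st : Star) : ∀ η > 0, ∃ δ > 0, ∃ R0 > 0,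
    ∀ (R : ℝ) (cfg : Raw), R0 ≤ R → IsCfg R cfg → Win st cfg →
      (∀ σ ∈ Icc (0:ℝ) 1, |cfg.th 2 σ| ≤ 0.1) → cfg.D R ≤ δ → Near st η cfg := by
  intro η hη
  obtain ⟨C, hC, hg⟩ := arc_gronwall
  obtain ⟨C5, hC5, R1, hR1, h5⟩ := ray_h
  have hε : 0 < η / (2 * (4 + C)) := by positivity
  set ε := η / (2 * (4 + C)) with hεd
  have hεη : (4 + C) * ε = η / 2 := by rw [hεd]; field_simp
  have hε1 : ε ≤ η := by nlinarith
  obtain ⟨δ4, hδ4, h4⟩ := arc_stable st ε hε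
  set K := 2 * Real.exp 2 with hK
  have hK0 : 0 < K := by positivity
  obtain ⟨t, ht, t1, t2, t3, t4⟩ : ∃ t > 0, K * t ≤ 0.1 ∧ C * (K * t) ≤ η / 2 ∧
      C * (K * t) ≤ δ4 / 12 ∧ C5 * t ≤ δ4 / 4 := by
    refine ⟨min (0.1 / K) (min (η / (2 * C * K)) (min (δ4 / (12 * C * K)) (δ4 / (4 * C5)))),
      by positivity, ?_, ?_, ?_, ?_⟩
    · calc K * _ ≤ K * (0.1 / K) := mul_le_mul_of_nonneg_left (min_le_left _ _) hK0.le
        _ = 0.1 := by field_simp
    · calc C * (K * _) ≤ C * (K * (η / (2 * C * K))) := by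
            gcongr
            exact (min_le_right _ _).trans (min_le_left _ _)
        _ = η / 2 := by field_simp
    · calc C * (K * _) ≤ C * (K * (δ4 / (12 * C * K))) := by
            gcongr
            exact (min_le_right _ _).trans ((min_le_right _ _).trans (min_le_left _ _))
        _ = δ4 / 12 := by field_simp
    · calc C5 * _ ≤ C5 * (δ4 / (4 * C5)) := by
            gcongr
            exact (min_le_right _ _).trans ((min_le_right _ _).trans (min_le_right _ _))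
        _ = δ4 / 4 := by field_simp
  refine ⟨t ^ 2, by positivity, max R1 (max 3 (16 / t)),
    lt_of_lt_of_le hR1 (le_max_left _ _), ?_⟩
  intro R c hR hc hw hth hD
  have hRR1 : R1 ≤ R := (le_max_left _ _).trans hR
  have hR3 : 3 ≤ R := ((le_max_left _ _).trans (le_max_right _ _)).trans hR
  have hR16 : 16 / t ≤ R := ((le_max_right _ _).trans (le_max_right _ _)).trans hR
  have hsq : Real.sqrt (c.D R) ≤ t := by
    rw [Real.sqrt_le_left ht.le]
    exact hD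
  have hex := exp_small ht (by linarith) hR16
  -- window
  have w1 := abs_le.mp hw.y0
  have w2 := abs_le.mp hw.y1
  have w3 := abs_le.mp hw.L0
  have w4 := abs_le.mp hw.L1
  have s1 := st.ys_lo
  have s2 := st.ys_hi
  have s3 := st.ls_lo
  have s4 := st.ls_hi
  have hL0 : c.L 0 ∈ Icc (1.3:ℝ) 1.46 := ⟨by linarith, by linarith⟩
  have hL1 : c.L 1 ∈ Icc (1.3:ℝ) 1.46 := ⟨by linarith, by linarith⟩
  have hy0 : c.y 0 1 ∈ Icc (0.55:ℝ) 0.67 := ⟨by linarith, by linarith⟩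
  have hy1 : -c.y 1 1 ∈ Icc (0.55:ℝ) 0.67 := ⟨by linarith, by linarith⟩
  have hL0' : c.L 0 ∈ Icc (0:ℝ) 1.5 := ⟨by linarith [hL0.1], by linarith [hL0.2]⟩
  have hL1' : c.L 1 ∈ Icc (0:ℝ) 1.5 := ⟨by linarith [hL1.1], by linarith [hL1.2]⟩
  have hp0 := hc.L_pos 0
  have hp1 := hc.L_pos 1
  have ha0 : |c.y 0 1| ≤ 0.67 := by rw [abs_le]; constructor <;> linarith [hy0.1, hy0.2]
  have ha1 : |-c.y 1 1| ≤ 0.67 := by rw [abs_le]; constructor <;> linarith [hy1.1, hy1.2]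
  have r0 := rev0 hc
  have r1 := rev1 hc
  have back : ∀ L : ℝ, 0 < L → ∀ σ : ℝ, 1 - L * (1 - σ) / L = σ := by
    intro L hL σ
    field_simp
    ring
  have in0 : ∀ L : ℝ, 0 < L → ∀ σ ∈ Icc (0:ℝ) 1, L * (1 - σ) ∈ Icc (0:ℝ) L := by
    intro L hL σ hσ
    exact ⟨mul_nonneg hL.le (by linarith [hσ.2]),
      mul_le_of_le_one_right hL.le (by linarith [hσ.1])⟩
  have z0 : (1:ℝ) - 0 / c.L 0 = 1 := by simp
  have z1 : (1:ℝ) - 0 / c.L 1 = 1 := by simp
  have e0 : (1:ℝ) - c.L 0 / c.L 0 = 0 := by rw [div_self hp0.ne', sub_self]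
  have e1 : (1:ℝ) - c.L 1 / c.L 1 = 0 := by rw [div_self hp1.ne', sub_self]
  -- crude bounds
  have bx0 : ∀ σ ∈ Icc (0:ℝ) 1, |c.x 0 σ| ≤ 1.46 := by
    intro σ hσ
    have := arc_x_le r0 (in0 _ hp0 σ hσ)
    simp only [back _ hp0] at this
    linarith [(in0 _ hp0 σ hσ).2, hL0.2]
  have by0 : ∀ σ ∈ Icc (0:ℝ) 1, |c.y 0 σ| ≤ 2.13 := by
    intro σ hσ
    have := arc_y_le r0 (in0 _ hp0 σ hσ)
    simp only [back _ hp0, z0] at this
    linarith [(in0 _ hp0 σ hσ).2, hL0.2]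
  have bx1 : ∀ σ ∈ Icc (0:ℝ) 1, |c.x 1 σ| ≤ 1.46 := by
    intro σ hσ
    have := arc_x_le r1 (in0 _ hp1 σ hσ)
    simp only [back _ hp1] at this
    linarith [(in0 _ hp1 σ hσ).2, hL1.2]
  have by1 : ∀ σ ∈ Icc (0:ℝ) 1, |c.y 1 σ| ≤ 2.13 := by
    intro σ hσ
    have := arc_y_le r1 (in0 _ hp1 σ hσ)
    simp only [back _ hp1, z1] at this
    rw [abs_neg] at this
    linarith [(in0 _ hp1 σ hσ).2, hL1.2]
  -- sources
  have src0 := src hc hR3 0 hL0.2 bx0 by0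
  have src1 := src hc hR3 1 hL1.2 bx1 by1
  have hB0 : c.L 0 * (∫ σ in (0:ℝ)..1, |c.S 0 σ|) ≤ K * t :=
    src0.trans (mul_le_mul_of_nonneg_left hsq hK0.le)
  have hB1 : c.L 1 * (∫ σ in (0:ℝ)..1, |c.S 1 σ|) ≤ K * t :=
    src1.trans (mul_le_mul_of_nonneg_left hsq hK0.le)
  have hI0 : ∫ u in (0:ℝ)..c.L 0, |c.S 0 (1 - u / c.L 0)| ≤ K * t := by
    have := intervalIntegral.integral_comp_sub_div (a := 0) (b := c.L 0)
      (fun σ => |c.S 0 σ|) hp0.ne' 1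
    rw [this, e0, z0, smul_eq_mul]
    exact hB0
  have hI1 : ∫ u in (0:ℝ)..c.L 1, |-c.S 1 (1 - u / c.L 1)| ≤ K * t := by
    simp only [abs_neg]
    have := intervalIntegral.integral_comp_sub_div (a := 0) (b := c.L 1)
      (fun σ => |c.S 1 σ|) hp1.ne' 1
    rw [this, e1, z1, smul_eq_mul]
    exact hB1
  have hcS : ∀ i : Fin 3, ContinuousOn (fun s => c.S i (1 - s / c.L i)) (Icc 0 (c.L i)) := by
    intro i
    have hL := hc.L_pos i
    refine (hc.S_cont i).comp (Continuous.continuousOn (by fun_prop)) fun s hs => ?_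
    have h1 : s / c.L i ≤ 1 := (div_le_one hL).mpr hs.2
    have h2 : 0 ≤ s / c.L i := div_nonneg hs.1 hL.le
    exact ⟨by linarith, by linarith⟩
  -- exact arcs
  obtain ⟨X1, Y1, A1, hX1, hY1⟩ := exists_arc (c.y 0 1) (ha0.trans (by norm_num))
  obtain ⟨X2, Y2, A2, hX2, hY2⟩ := exists_arc (-c.y 1 1) (ha1.trans (by norm_num))
  have n0 := arc_near st hC hg hL0' r0 (hcS 0) hX1 (by rw [hY1, z0])
    (by rw [z0]; exact ha0.trans (by norm_num)) (ε := ε) hI0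
  have n1 := arc_near st hC hg hL1' r1 (hcS 1).neg hX2 (by rw [hY2, z1])
    (by rw [z1]; exact ha1.trans (by norm_num)) (ε := ε) hI1
  -- the junction
  have j0 := n0.1 (c.L 0) ⟨hp0.le, le_rfl⟩
  have j1 := n1.1 (c.L 1) ⟨hp1.le, le_rfl⟩
  simp only [e0, hc.x_J 0, hc.y_J 0, hc.th_J 0] at j0
  simp only [e1, hc.x_J 1, hc.y_J 1, hc.th_J 1] at j1
  have hxJ0 : 0 ≤ c.x 2 0 := by
    have := arc_pos r0 hL0 (hcS 0) (by rw [z0]; exact ha0) (hI0.trans t1)
    simp only [e0, hc.x_J 0] at this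
    exact this
  have hxJ : |c.x 2 0| ≤ 1.46 := by
    have := bx0 0 ⟨le_rfl, zero_le_one⟩
    rwa [hc.x_J 0] at this
  have hyJ : |c.y 2 0| ≤ 2.13 := by
    have := by0 0 ⟨le_rfl, zero_le_one⟩
    rwa [hc.y_J 0] at this
  have hh := h5 R c hRR1 hc hth ⟨hxJ0, by linarith [(abs_le.mp hxJ).2]⟩ (by linarith)
  have hh2 : |c.h 2 0| ≤ δ4 / 2 := by
    refine hh.trans ?_
    calc C5 * (Real.sqrt (c.D R) + Real.exp (-(R ^ 2 / 16))) ≤ C5 * (t + t) :=
          mul_le_mul_of_nonneg_left (add_le_add hsq hex) hC5.le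
      _ ≤ δ4 / 2 := by linarith
  have hhd : c.h 2 0 = -(c.x 2 0 * Real.sin (c.th 2 0)) + c.y 2 0 * Real.cos (c.th 2 0) := by
    change -(c.x 2 0 * Real.sin (c.ang 2 0)) + c.y 2 0 * Real.cos (c.ang 2 0) = _
    rw [IsCfg.ang_ray]
  set b := C * (K * t) with hb
  have hb0 : 0 ≤ b := by positivity
  have k1 : |X1 (c.L 0) - X2 (c.L 1)| ≤ δ4 := by
    have e : X1 (c.L 0) - X2 (c.L 1) = -(c.x 2 0 - X1 (c.L 0)) + (c.x 2 0 - X2 (c.L 1)) := by ring
    rw [e]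
    refine (abs_add_le _ _).trans ?_
    rw [abs_neg]
    linarith [j0.1, j1.1]
  have k2 : |Y1 (c.L 0) + Y2 (c.L 1)| ≤ δ4 := by
    have e : Y1 (c.L 0) + Y2 (c.L 1) = -(c.y 2 0 - Y1 (c.L 0)) + -(-c.y 2 0 - Y2 (c.L 1)) := by
      ring
    rw [e]
    refine (abs_add_le _ _).trans ?_
    rw [abs_neg, abs_neg]
    linarith [j0.2.1, j1.2.1]
  have k3 : |A1 (c.L 0) + A2 (c.L 1) - 2 * Real.pi / 3| ≤ δ4 := by
    have e : A1 (c.L 0) + A2 (c.L 1) - 2 * Real.pi / 3 =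
        -(Real.pi / 3 - c.th 2 0 - A1 (c.L 0)) + -(c.th 2 0 + Real.pi / 3 - A2 (c.L 1)) := by
      ring
    rw [e]
    refine (abs_add_le _ _).trans ?_
    rw [abs_neg, abs_neg]
    linarith [j0.2.2, j1.2.2]
  set ψ := (A2 (c.L 1) - A1 (c.L 0)) / 2 with hψ
  have hψφ : |ψ - c.th 2 0| ≤ b := by
    have e : ψ - c.th 2 0 = ((Real.pi / 3 - c.th 2 0 - A1 (c.L 0)) +
        -(c.th 2 0 + Real.pi / 3 - A2 (c.L 1))) / 2 := by rw [hψ]; ring
    rw [e, abs_div, abs_of_pos (by norm_num : (0:ℝ) < 2)]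
    have := abs_add_le (Real.pi / 3 - c.th 2 0 - A1 (c.L 0))
      (-(c.th 2 0 + Real.pi / 3 - A2 (c.L 1)))
    rw [abs_neg] at this
    linarith [j0.2.2, j1.2.2]
  have hsin : |Real.sin ψ - Real.sin (c.th 2 0)| ≤ b := by
    have := Real.lipschitzWith_sin.dist_le_mul ψ (c.th 2 0)
    rw [Real.dist_eq, Real.dist_eq, NNReal.coe_one, one_mul] at this
    exact this.trans hψφ
  have hcos : |Real.cos ψ - Real.cos (c.th 2 0)| ≤ b := by
    have := Real.lipschitzWith_cos.dist_le_mul ψ (c.th 2 0)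
    rw [Real.dist_eq, Real.dist_eq, NNReal.coe_one, one_mul] at this
    exact this.trans hψφ
  have k4 : |-(X1 (c.L 0) * Real.sin ψ) + Y1 (c.L 0) * Real.cos ψ| ≤ δ4 := by
    have e : -(X1 (c.L 0) * Real.sin ψ) + Y1 (c.L 0) * Real.cos ψ =
        (c.h 2 0 + ((c.x 2 0 - X1 (c.L 0)) * Real.sin ψ + -(c.y 2 0 - Y1 (c.L 0)) * Real.cos ψ)) +
        (-(c.x 2 0 * (Real.sin ψ - Real.sin (c.th 2 0))) +
          c.y 2 0 * (Real.cos ψ - Real.cos (c.th 2 0))) := by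
      rw [hhd]; ring
    rw [e]
    have a1 := abs_add_le (c.h 2 0 + ((c.x 2 0 - X1 (c.L 0)) * Real.sin ψ +
      -(c.y 2 0 - Y1 (c.L 0)) * Real.cos ψ)) (-(c.x 2 0 * (Real.sin ψ - Real.sin (c.th 2 0))) +
          c.y 2 0 * (Real.cos ψ - Real.cos (c.th 2 0)))
    have a2 := abs_add_le (c.h 2 0) ((c.x 2 0 - X1 (c.L 0)) * Real.sin ψ +
      -(c.y 2 0 - Y1 (c.L 0)) * Real.cos ψ)
    have a3 := abs_comb_le (c.x 2 0 - X1 (c.L 0)) (-(c.y 2 0 - Y1 (c.L 0))) ψ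
    rw [abs_neg] at a3
    have a4 := abs_add_le (-(c.x 2 0 * (Real.sin ψ - Real.sin (c.th 2 0))))
      (c.y 2 0 * (Real.cos ψ - Real.cos (c.th 2 0)))
    rw [abs_neg, abs_mul, abs_mul] at a4
    have a5 : |c.x 2 0| * |Real.sin ψ - Real.sin (c.th 2 0)| ≤ 1.46 * b :=
      mul_le_mul hxJ hsin (abs_nonneg _) (by norm_num)
    have a6 : |c.y 2 0| * |Real.cos ψ - Real.cos (c.th 2 0)| ≤ 2.13 * b :=
      mul_le_mul hyJ hcos (abs_nonneg _) (by norm_num)
    have j01 := j0.1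
    have j02 := j0.2.1
    linarith
  obtain ⟨g1, g2, g3, g4⟩ := h4 X1 Y1 A1 X2 Y2 A2 hX1 hX2 (by rw [hY1]; exact hy0)
    (by rw [hY2]; exact hy1) (c.L 0) hL0 (c.L 1) hL1 k1 k2 k3 k4
  rw [hY1] at g1
  rw [hY2] at g2
  have f0 := n0.2 g3 (by rw [z0]; exact g1)
  have f1 := n1.2 g4 (by rw [z1]; exact g2)
  simp only [back _ hp0] at f0
  simp only [back _ hp1] at f1
  have htot : b + (4 + C) * ε ≤ η := by linarith
  refine ⟨g3.trans hε1, g4.trans hε1, fun σ hσ => (f0 σ hσ).1.trans htot,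
    fun σ hσ => (f1 σ hσ).1.trans htot, fun σ hσ => (f0 σ hσ).2.1.trans htot,
    fun σ hσ => ?_, fun σ hσ => ?_, fun σ hσ => ?_⟩
  · have := (f1 σ hσ).2.1.trans htot
    rw [← abs_neg] at this
    rw [show c.y 1 σ + st.y (st.sg σ) = -(-c.y 1 σ - st.y (st.sg σ)) by ring]
    exact this
  · have := (f0 σ hσ).2.2.trans htot
    rw [← abs_neg] at this
    rw [show c.th 0 σ - (Real.pi / 3 - st.a (st.sg σ)) =
      -(Real.pi / 3 - c.th 0 σ - st.a (st.sg σ)) by ring]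
    exact this
  · have := (f1 σ hσ).2.2.trans htot
    rw [show c.th 1 σ - (st.a (st.sg σ) - Real.pi / 3) =
      c.th 1 σ + Real.pi / 3 - st.a (st.sg σ) by ring]
    exact this

end Pool.Agent.Helper15.NF
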