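import Pool.Agent.Helper15.NF.Defs

open Set MeasureTheory intervalIntegral Filter Topology

namespace Pool.Agent.Helper15.NF

variable {a b Lx : ℝ}

namespace T2a

/-- fundamental theorem of calculus on `[0,1]` -/
theorem ftc01 {G G' : ℝ → ℝ} (h : ∀ σ ∈ Icc (0:ℝ) 1, HasDerivWithinAt G (G' σ) (Icc 0 1) σ)
    (hc : ContinuousOn G' (Icc 0 1)) : ∫ σ in (0:ℝ)..1, G' σ = G 1 - G 0 := by
  refine intervalIntegral.integral_eq_sub_of_hasDerivAt_of_le zero_le_one
    (fun σ hσ => (h σ hσ).continuousWithinAt) (fun σ hσ => ?_)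
    (hc.intervalIntegrable_of_Icc zero_le_one)
  exact (h σ (Ioo_subset_Icc_self hσ)).hasDerivAt (Icc_mem_nhds hσ.1 hσ.2)

/-- slices of continuous functions of two variables -/
theorem slice {f : ℝ → ℝ → ℝ}
    (hf : ContinuousOn (fun p : ℝ × ℝ => f p.1 p.2) (Ioo a b ×ˢ Icc 0 1)) {t : ℝ}
    (ht : t ∈ Ioo a b) : ContinuousOn (f t) (Icc 0 1) := by
  have h : ContinuousOn (fun σ : ℝ => ((t, σ) : ℝ × ℝ)) (Icc 0 1) := by fun_prop
  exact hf.comp h (fun σ hσ => ⟨ht, hσ⟩)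

/-- derivative of a parametric integral -/
theorem deriv_int {f ft : ℝ → ℝ → ℝ}
    (hf : ContinuousOn (fun p : ℝ × ℝ => f p.1 p.2) (Ioo a b ×ˢ Icc 0 1))
    (hft : ContinuousOn (fun p : ℝ × ℝ => ft p.1 p.2) (Ioo a b ×ˢ Icc 0 1))
    (ht : ∀ t ∈ Ioo a b, ∀ σ ∈ Icc (0:ℝ) 1, HasDerivAt (fun τ => f τ σ) (ft t σ) t)
    {t : ℝ} (htt : t ∈ Ioo a b) :
    HasDerivAt (fun τ => ∫ σ in (0:ℝ)..1, f τ σ) (∫ σ in (0:ℝ)..1, ft t σ) t := by
  obtain ⟨ε, hε, hsub⟩ := Metric.isOpen_iff.mp (isOpen_Ioo (a := a) (b := b)) t htt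
  have hsub2 : Icc (t - ε / 2) (t + ε / 2) ⊆ Ioo a b := by
    intro x hx
    apply hsub
    rw [Metric.mem_ball, Real.dist_eq, abs_lt]
    constructor <;> linarith [hx.1, hx.2]
  have hcomp : IsCompact (Icc (t - ε / 2) (t + ε / 2) ×ˢ Icc (0:ℝ) 1) :=
    isCompact_Icc.prod isCompact_Icc
  obtain ⟨C, hC⟩ := hcomp.exists_bound_of_continuousOn
    (hft.mono (prod_mono hsub2 (le_refl (Icc (0:ℝ) 1))))
  have hball : Metric.ball t (ε / 2) ⊆ Icc (t - ε / 2) (t + ε / 2) := by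
    intro x hx
    rw [Metric.mem_ball, Real.dist_eq, abs_lt] at hx
    constructor <;> linarith [hx.1, hx.2]
  have h01 : Set.uIoc (0:ℝ) 1 = Ioc 0 1 := Set.uIoc_of_le zero_le_one
  have key := intervalIntegral.hasDerivAt_integral_of_dominated_loc_of_deriv_le
    (μ := volume) (F := f) (F' := ft) (a := 0) (b := 1) (x₀ := t) (bound := fun _ => C)
    (s := Metric.ball t (ε / 2)) (Metric.ball_mem_nhds t (by positivity)) ?_ ?_ ?_ ?_ ?_ ?_
  · exact key.2
  · filter_upwards [Metric.ball_mem_nhds t (half_pos hε)] with x hx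
    have := slice hf (hsub2 (hball hx))
    exact ((this.intervalIntegrable_of_Icc zero_le_one).1).aestronglyMeasurable.mono_measure
      (by rw [h01])
  · exact (slice hf htt).intervalIntegrable_of_Icc zero_le_one
  · have := slice hft htt
    exact ((this.intervalIntegrable_of_Icc zero_le_one).1).aestronglyMeasurable.mono_measure
      (by rw [h01])
  · refine Eventually.of_forall fun σ hσ x hx => ?_
    rw [h01] at hσ
    exact hC (x, σ) ⟨hball hx, hσ.1.le, hσ.2⟩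
  · exact intervalIntegrable_const
  · refine Eventually.of_forall fun σ hσ x hx => ?_
    rw [h01] at hσ
    exact ht x (hsub2 (hball hx)) σ ⟨hσ.1.le, hσ.2⟩

end T2a

open T2a

/-- T2a : transport lemma -/
theorem transport (F : Flow a b Lx) (i : Fin 3) {f ft fs : ℝ → ℝ → ℝ}
    (hf : ContinuousOn (fun p : ℝ × ℝ => f p.1 p.2) (Ioo a b ×ˢ Icc 0 1))
    (hft : ContinuousOn (fun p : ℝ × ℝ => ft p.1 p.2) (Ioo a b ×ˢ Icc 0 1))
    (hfs : ContinuousOn (fun p : ℝ × ℝ => fs p.1 p.2) (Ioo a b ×ˢ Icc 0 1))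
    (ht : ∀ t ∈ Ioo a b, ∀ σ ∈ Icc (0:ℝ) 1, HasDerivAt (fun τ => f τ σ) (ft t σ) t)
    (hs : ∀ t ∈ Ioo a b, ∀ σ ∈ Icc (0:ℝ) 1, HasDerivWithinAt (f t) (fs t σ) (Icc 0 1) σ)
    {t : ℝ} (htt : t ∈ Ioo a b) :
    HasDerivAt (fun τ => F.ell i τ * ∫ σ in (0:ℝ)..1, f τ σ)
      (F.ell i t * (∫ σ in (0:ℝ)..1,
          (ft t σ - F.mu i t σ / F.ell i t * fs t σ - F.k i t σ ^ 2 * f t σ))
        - F.mu i t 0 * f t 0) t := by
  have h1 := (F.ell_t i t htt).mul (deriv_int hf hft ht htt)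
  have cf := slice hf htt
  have cft := slice hft htt
  have cfs := slice hfs htt
  have cmu := slice (F.mu_cont i) htt
  have ck := slice (F.k_cont i) htt
  have hl := F.ell_pos i t htt
  -- integration by parts
  have h2 : ∫ σ in (0:ℝ)..1, ((F.dell i t + F.ell i t * F.k i t σ ^ 2) * f t σ +
      F.mu i t σ * fs t σ) = F.mu i t 1 * f t 1 - F.mu i t 0 * f t 0 := by
    refine ftc01 (G := fun σ => F.mu i t σ * f t σ) (fun σ hσ => ?_) ?_
    · exact (F.mu_s i t htt σ hσ).mul (hs t htt σ hσ)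
    · fun_prop
  rw [F.mu_end i t htt, zero_mul, zero_sub] at h2
  have i1 : IntervalIntegrable (fun σ => ft t σ - F.mu i t σ / F.ell i t * fs t σ -
      F.k i t σ ^ 2 * f t σ) volume 0 1 :=
    ContinuousOn.intervalIntegrable_of_Icc zero_le_one (by fun_prop)
  have i2 : IntervalIntegrable (fun σ => (F.dell i t + F.ell i t * F.k i t σ ^ 2) * f t σ +
      F.mu i t σ * fs t σ) volume 0 1 :=
    ContinuousOn.intervalIntegrable_of_Icc zero_le_one (by fun_prop)
  have h3 : F.ell i t * (∫ σ in (0:ℝ)..1,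
      (ft t σ - F.mu i t σ / F.ell i t * fs t σ - F.k i t σ ^ 2 * f t σ)) +
      ∫ σ in (0:ℝ)..1, ((F.dell i t + F.ell i t * F.k i t σ ^ 2) * f t σ +
        F.mu i t σ * fs t σ) =
      F.ell i t * (∫ σ in (0:ℝ)..1, ft t σ) + F.dell i t * ∫ σ in (0:ℝ)..1, f t σ := by
    rw [← intervalIntegral.integral_const_mul, ← intervalIntegral.integral_const_mul,
      ← intervalIntegral.integral_const_mul, ← intervalIntegral.integral_add
        (i1.const_mul _) i2, ← intervalIntegral.integral_add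
        ((cft.intervalIntegrable_of_Icc zero_le_one).const_mul _)
        ((cf.intervalIntegrable_of_Icc zero_le_one).const_mul _)]
    apply intervalIntegral.integral_congr
    intro σ _
    simp only
    field_simp
    ring
  rw [h2] at h3
  refine h1.congr_deriv ?_
  linarith

end Pool.Agent.Helper15.NF
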