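import Pool.Agent.Helper15.NF.Static

/-!
U0 : elementary properties of the cut-off functions
-/

open Set MeasureTheory intervalIntegral Filter Topology

namespace Pool.Agent.Helper15.NF

private theorem U0_two : ((2 : ℕ∞) : WithTop ℕ∞) = 2 := rfl

theorem chi_contDiff : ContDiff ℝ 2 chi := by
  unfold chi
  exact (Real.smoothTransition.contDiff (n := 2)).comp
    (contDiff_const.sub (contDiff_const.mul contDiff_id))
theorem chi_nonneg (z : ℝ) : 0 ≤ chi z := Real.smoothTransition.nonneg _
theorem chi_le_one (z : ℝ) : chi z ≤ 1 := Real.smoothTransition.le_one _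
theorem chi_one {z : ℝ} (h : z ≤ 1 / 2) : chi z = 1 :=
  Real.smoothTransition.one_of_one_le (by linarith)
theorem chi_zero {z : ℝ} (h : 3 / 4 ≤ z) : chi z = 0 :=
  Real.smoothTransition.zero_of_nonpos (by linarith)
theorem cut_contDiff : ContDiff ℝ 2 cut := by
  unfold cut
  exact chi_contDiff.pow 2
theorem cut_nonneg (z : ℝ) : 0 ≤ cut z := sq_nonneg _
theorem cut_le_one (z : ℝ) : cut z ≤ 1 := by
  unfold cut
  exact pow_le_one₀ (chi_nonneg z) (chi_le_one z)
theorem cut_one {z : ℝ} (h : z ≤ 1 / 2) : cut z = 1 := by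
  unfold cut; rw [chi_one h]; norm_num
theorem cut_zero {z : ℝ} (h : 3 / 4 ≤ z) : cut z = 0 := by
  unfold cut; rw [chi_zero h]; norm_num
theorem cut_hasDerivAt (z : ℝ) : HasDerivAt cut (deriv cut z) z :=
  ((cut_contDiff.differentiable (by norm_num)) z).hasDerivAt
theorem cut_deriv_cont : Continuous (deriv cut) :=
  cut_contDiff.continuous_deriv (by norm_num)

private theorem U0_chi_anti : Antitone chi := by
  intro x y hxy
  exact Real.smoothTransition.monotone (by linarith)

private theorem U0_cut_anti : Antitone cut := by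
  intro x y hxy
  exact pow_le_pow_left₀ (chi_nonneg y) (U0_chi_anti hxy) 2

theorem cut_deriv_nonpos (z : ℝ) : deriv cut z ≤ 0 := U0_cut_anti.deriv_nonpos

private theorem U0_deriv_zero_of_le {f : ℝ → ℝ} (hf : Continuous (deriv f)) {s c : ℝ}
    (h : ∀ z ≤ s, f z = c) {z : ℝ} (hz : z ≤ s) : deriv f z = 0 := by
  have h1 : ∀ z < s, deriv f z = 0 := by
    intro z hz
    have : f =ᶠ[𝓝 z] fun _ => c := by
      filter_upwards [Iio_mem_nhds hz] with w hw
      exact h w (le_of_lt hw)
    rw [this.deriv_eq, deriv_const]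
  rcases lt_or_eq_of_le hz with h2 | h2
  · exact h1 z h2
  · have hcl : IsClosed {z | deriv f z = 0} := isClosed_eq hf continuous_const
    have : z ∈ closure (Iio s) := by
      rw [closure_Iio]; exact hz
    exact (hcl.closure_subset_iff.mpr (fun w hw => h1 w hw)) this

private theorem U0_deriv_zero_of_ge {f : ℝ → ℝ} (hf : Continuous (deriv f)) {s c : ℝ}
    (h : ∀ z, s ≤ z → f z = c) {z : ℝ} (hz : s ≤ z) : deriv f z = 0 := by
  have h1 : ∀ z, s < z → deriv f z = 0 := by
    intro z hz
    have : f =ᶠ[𝓝 z] fun _ => c := by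
      filter_upwards [Ioi_mem_nhds hz] with w hw
      exact h w (le_of_lt hw)
    rw [this.deriv_eq, deriv_const]
  have hcl : IsClosed {z | deriv f z = 0} := isClosed_eq hf continuous_const
  have : z ∈ closure (Ioi s) := by
    rw [closure_Ioi]; exact hz
  exact (hcl.closure_subset_iff.mpr (fun w hw => h1 w hw)) this

theorem cut_deriv_zero {z : ℝ} (h : z ≤ 1 / 2 ∨ 3 / 4 ≤ z) : deriv cut z = 0 := by
  rcases h with h | h
  · exact U0_deriv_zero_of_le cut_deriv_cont (fun w hw => cut_one hw) h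
  · exact U0_deriv_zero_of_ge cut_deriv_cont (fun w hw => cut_zero hw) h

private theorem U0_chi_deriv_cont : Continuous (deriv chi) :=
  chi_contDiff.continuous_deriv (by norm_num)

private theorem U0_chi_bound : ∃ C > 0, ∀ z, |deriv chi z| ≤ C := by
  obtain ⟨C, hC⟩ := (isCompact_Icc (a := (1 / 2 : ℝ)) (b := 3 / 4)).exists_bound_of_continuousOn
    U0_chi_deriv_cont.continuousOn
  refine ⟨max C 1, lt_of_lt_of_le one_pos (le_max_right _ _), fun z => ?_⟩
  by_cases h1 : z ≤ 1 / 2
  · rw [U0_deriv_zero_of_le U0_chi_deriv_cont (fun w hw => chi_one hw) h1, abs_zero]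
    exact le_trans zero_le_one (le_max_right _ _)
  by_cases h2 : 3 / 4 ≤ z
  · rw [U0_deriv_zero_of_ge U0_chi_deriv_cont (fun w hw => chi_zero hw) h2, abs_zero]
    exact le_trans zero_le_one (le_max_right _ _)
  · refine le_trans ?_ (le_max_left _ _)
    have := hC z ⟨by linarith, by linarith⟩
    rwa [Real.norm_eq_abs] at this

theorem cut_deriv_bound : ∃ C > 0, ∀ z, |deriv cut z| ≤ C * chi z := by
  obtain ⟨C, hC0, hC⟩ := U0_chi_bound
  refine ⟨2 * C, by linarith, fun z => ?_⟩
  have hd : HasDerivAt chi (deriv chi z) z :=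
    ((chi_contDiff.differentiable (by norm_num)) z).hasDerivAt
  have h2 : HasDerivAt cut (2 * chi z * deriv chi z) z := by
    have := hd.pow 2
    have h3 : HasDerivAt cut ((2 : ℕ) * chi z ^ (2 - 1) * deriv chi z) z := this
    simpa using h3
  rw [h2.deriv, abs_mul, abs_mul, abs_of_nonneg (chi_nonneg z), abs_of_pos (by norm_num : (0:ℝ) < 2)]
  have := hC z
  have h4 := chi_nonneg z
  nlinarith

theorem chf_contDiff : ContDiff ℝ 2 chf := by
  unfold chf
  exact (Real.smoothTransition.contDiff (n := 2)).comp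
    ((contDiff_const.mul contDiff_id).sub contDiff_const)
theorem chf_nonneg (z : ℝ) : 0 ≤ chf z := Real.smoothTransition.nonneg _
theorem chf_le_one (z : ℝ) : chf z ≤ 1 := Real.smoothTransition.le_one _
theorem chf_one {z : ℝ} (h : 1 / 2 ≤ z) : chf z = 1 :=
  Real.smoothTransition.one_of_one_le (by linarith)
theorem chf_zero {z : ℝ} (h : z ≤ 1 / 4) : chf z = 0 :=
  Real.smoothTransition.zero_of_nonpos (by linarith)
theorem chf_hasDerivAt (z : ℝ) : HasDerivAt chf (deriv chf z) z :=
  ((chf_contDiff.differentiable (by norm_num)) z).hasDerivAt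
theorem chf_deriv_cont : Continuous (deriv chf) :=
  chf_contDiff.continuous_deriv (by norm_num)
theorem chf_deriv_zero {z : ℝ} (h : z ≤ 1 / 4 ∨ 1 / 2 ≤ z) : deriv chf z = 0 := by
  rcases h with h | h
  · exact U0_deriv_zero_of_le chf_deriv_cont (fun w hw => chf_zero hw) h
  · exact U0_deriv_zero_of_ge chf_deriv_cont (fun w hw => chf_one hw) h
theorem chf_deriv_bound : ∃ C > 0, ∀ z, |deriv chf z| ≤ C := by
  obtain ⟨C, hC⟩ := (isCompact_Icc (a := (1 / 4 : ℝ)) (b := 1 / 2)).exists_bound_of_continuousOn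
    chf_deriv_cont.continuousOn
  refine ⟨max C 1, lt_of_lt_of_le one_pos (le_max_right _ _), fun z => ?_⟩
  by_cases h1 : z ≤ 1 / 4
  · rw [chf_deriv_zero (Or.inl h1), abs_zero]
    exact le_trans zero_le_one (le_max_right _ _)
  by_cases h2 : 1 / 2 ≤ z
  · rw [chf_deriv_zero (Or.inr h2), abs_zero]
    exact le_trans zero_le_one (le_max_right _ _)
  · refine le_trans ?_ (le_max_left _ _)
    have := hC z ⟨by linarith, by linarith⟩
    rwa [Real.norm_eq_abs] at this

end Pool.Agent.Helper15.NF
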