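import Pool.Agent.Helper15.NF.T1
import Pool.Agent.Helper15.NF.T2a
import Pool.Agent.Helper15.NF.U0
import Pool.Agent.Helper15.NF.DDefs

open Set MeasureTheory intervalIntegral Filter Topology

namespace Pool.Agent.Helper15.NF

variable {a b Lx : ℝ}

noncomputable section

namespace T2

/-- product rule for the integrand -/
theorem prod_deriv {s : Set ℝ} {u : ℝ} {S E C r : ℝ → ℝ} {S' E' C' r' : ℝ}
    (hS : HasDerivWithinAt S S' s u) (hE : HasDerivWithinAt E E' s u)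
    (hC : HasDerivWithinAt C C' s u) (hr : HasDerivWithinAt r r' s u) (h0 : r u ≠ 0) :
    HasDerivWithinAt (fun v => S v ^ 2 * (Real.exp (E v) * C v) / r v)
      ((2 * S u * S' * (Real.exp (E u) * C u) +
        S u ^ 2 * (Real.exp (E u) * (E' * C u + C'))) / r u -
        S u ^ 2 * (Real.exp (E u) * C u) * r' / r u ^ 2) s u := by
  have h1 := ((hS.pow 2).mul (hE.exp.mul hC)).div hr h0
  refine h1.congr_deriv ?_
  simp only [Pi.mul_apply, Pi.pow_apply]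
  field_simp
  ring

/-- derivative of `S` -/
theorem S_deriv {s : Set ℝ} {u : ℝ} {r k X Y y θ : ℝ → ℝ} {r' k' X' Y' y' θ' : ℝ}
    (hr : HasDerivWithinAt r r' s u) (hk : HasDerivWithinAt k k' s u)
    (hX : HasDerivWithinAt X X' s u) (hY : HasDerivWithinAt Y Y' s u)
    (hy : HasDerivWithinAt y y' s u) (hθ : HasDerivWithinAt θ θ' s u) (h0 : r u ≠ 0) :
    HasDerivWithinAt (fun v => r v * k v + (-(X v * Real.sin (θ v)) +
        (Y v - y v) * Real.cos (θ v)) / r v)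
      (r' * k u + r u * k' + (-(X' * Real.sin (θ u) + X u * Real.cos (θ u) * θ') +
        (Y' - y') * Real.cos (θ u) - (Y u - y u) * Real.sin (θ u) * θ') / r u -
        (-(X u * Real.sin (θ u)) + (Y u - y u) * Real.cos (θ u)) * r' / r u ^ 2) s u := by
  have h1 := (hr.mul hk).add (((hX.mul hθ.sin).neg.add ((hY.sub hy).mul hθ.cos)).div hr h0)
  refine h1.congr_deriv ?_
  simp only [Pi.mul_apply, Pi.neg_apply, Pi.add_apply, Pi.sub_apply]
  field_simp
  ring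

/-- derivative of the exponent -/
theorem E_deriv {s : Set ℝ} {u : ℝ} {r X Y y : ℝ → ℝ} {r' X' Y' y' : ℝ}
    (hr : HasDerivWithinAt r r' s u)
    (hX : HasDerivWithinAt X X' s u) (hY : HasDerivWithinAt Y Y' s u)
    (hy : HasDerivWithinAt y y' s u) (h0 : r u ≠ 0) :
    HasDerivWithinAt (fun v => -(((X v / r v) ^ 2 + ((Y v - y v) / r v) ^ 2) / 2))
      (-(X u * X' + (Y u - y u) * (Y' - y')) / r u ^ 2 +
        (X u ^ 2 + (Y u - y u) ^ 2) * r' / r u ^ 3) s u := by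
  have h1 := (((hX.div hr h0).pow 2).add (((hY.sub hy).div hr h0).pow 2)).div_const 2 |>.neg
  refine h1.congr_deriv ?_
  simp only [Pi.sub_apply, Pi.div_apply, Nat.add_one_sub_one, pow_one, Nat.cast_ofNat]
  field_simp
  ring

/-- derivative of the cut-off -/
theorem C_deriv {s : Set ℝ} {u : ℝ} {X : ℝ → ℝ} {X' : ℝ}
    (hX : HasDerivWithinAt X X' s u) :
    HasDerivWithinAt (fun v => cut (X v / Lx)) (deriv cut (X u / Lx) * (X' / Lx)) s u := by
  have h1 : HasDerivWithinAt (fun v => X v / Lx) (X' / Lx) s u := hX.div_const Lx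
  have h2 : HasDerivAt cut (deriv cut (X u / Lx)) ((fun v => X v / Lx) u) :=
    cut_hasDerivAt (X u / Lx)
  exact h2.comp_hasDerivWithinAt u h1

theorem rr_pos {T t : ℝ} (h : t < T) : 0 < rr T t := Real.sqrt_pos.2 (by linarith)

theorem rr_deriv {T t : ℝ} (h : t < T) : HasDerivAt (rr T) (-1 / rr T t) t := by
  have h1 : HasDerivAt (fun s : ℝ => 2 * (T - s)) (-2) t := by
    have := ((hasDerivAt_id t).const_sub T).const_mul 2
    simpa using this
  have h2 := h1.sqrt (by linarith : 2 * (T - t) ≠ 0)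
  refine h2.congr_deriv ?_
  unfold rr
  field_simp

/-- algebraic expressions -/
def eS (r k X Y y θ : ℝ) : ℝ :=
  r * k + (-(X * Real.sin θ) + (Y - y) * Real.cos θ) / r

def eE (r X Y y : ℝ) : ℝ := -(((X / r) ^ 2 + ((Y - y) / r) ^ 2) / 2)

def eS' (r k X Y y θ r' k' X' Y' y' θ' : ℝ) : ℝ :=
  r' * k + r * k' + (-(X' * Real.sin θ + X * Real.cos θ * θ') +
        (Y' - y') * Real.cos θ - (Y - y) * Real.sin θ * θ') / r -
        (-(X * Real.sin θ) + (Y - y) * Real.cos θ) * r' / r ^ 2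

def eE' (r X Y y r' X' Y' y' : ℝ) : ℝ :=
  -(X * X' + (Y - y) * (Y' - y')) / r ^ 2 + (X ^ 2 + (Y - y) ^ 2) * r' / r ^ 3

/-- the integrand -/
def gf (Lx r k X Y y θ : ℝ) : ℝ := eS r k X Y y θ ^ 2 * (Real.exp (eE r X Y y) * cut (X / Lx)) / r

/-- its derivative -/
def gf' (Lx r k X Y y θ r' k' X' Y' y' θ' : ℝ) : ℝ :=
  (2 * eS r k X Y y θ * eS' r k X Y y θ r' k' X' Y' y' θ' *
      (Real.exp (eE r X Y y) * cut (X / Lx)) +
    eS r k X Y y θ ^ 2 * (Real.exp (eE r X Y y) * (eE' r X Y y r' X' Y' y' * cut (X / Lx) +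
      deriv cut (X / Lx) * (X' / Lx)))) / r -
    eS r k X Y y θ ^ 2 * (Real.exp (eE r X Y y) * cut (X / Lx)) * r' / r ^ 2

theorem gf_deriv {s : Set ℝ} {u : ℝ} {r k X Y y θ : ℝ → ℝ} {r' k' X' Y' y' θ' : ℝ}
    (hr : HasDerivWithinAt r r' s u) (hk : HasDerivWithinAt k k' s u)
    (hX : HasDerivWithinAt X X' s u) (hY : HasDerivWithinAt Y Y' s u)
    (hy : HasDerivWithinAt y y' s u) (hθ : HasDerivWithinAt θ θ' s u) (h0 : r u ≠ 0) :
    HasDerivWithinAt (fun v => gf Lx (r v) (k v) (X v) (Y v) (y v) (θ v))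
      (gf' Lx (r u) (k u) (X u) (Y u) (y u) (θ u) r' k' X' Y' y' θ') s u :=
  prod_deriv (S_deriv hr hk hX hY hy hθ h0) (E_deriv hr hX hY hy h0) (C_deriv hX) hr h0

theorem gf_cont {α : Type*} [TopologicalSpace α] {A : Set α} {r k X Y y θ : α → ℝ} (hr : ContinuousOn r A)
    (hk : ContinuousOn k A) (hX : ContinuousOn X A) (hY : ContinuousOn Y A)
    (hy : ContinuousOn y A) (hθ : ContinuousOn θ A) (h0 : ∀ p ∈ A, r p ≠ 0) :
    ContinuousOn (fun p => gf Lx (r p) (k p) (X p) (Y p) (y p) (θ p)) A := by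
  have hc : Continuous cut := cut_contDiff.continuous
  unfold gf eS eE
  fun_prop (disch := assumption)

theorem gf'_cont {α : Type*} [TopologicalSpace α] {A : Set α}
    {r k X Y y θ r' k' X' Y' y' θ' : α → ℝ}
    (hr : ContinuousOn r A)
    (hk : ContinuousOn k A) (hX : ContinuousOn X A) (hY : ContinuousOn Y A)
    (hy : ContinuousOn y A) (hθ : ContinuousOn θ A) (hr' : ContinuousOn r' A)
    (hk' : ContinuousOn k' A) (hX' : ContinuousOn X' A) (hY' : ContinuousOn Y' A)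
    (hy' : ContinuousOn y' A) (hθ' : ContinuousOn θ' A) (h0 : ∀ p ∈ A, r p ≠ 0) :
    ContinuousOn (fun p => gf' Lx (r p) (k p) (X p) (Y p) (y p) (θ p) (r' p) (k' p) (X' p)
      (Y' p) (y' p) (θ' p)) A := by
  have hc : Continuous cut := cut_contDiff.continuous
  have hc' : Continuous (deriv cut) := cut_deriv_cont
  have h2 : ∀ p ∈ A, r p ^ 2 ≠ 0 := fun p hp => pow_ne_zero 2 (h0 p hp)
  have h3 : ∀ p ∈ A, r p ^ 3 ≠ 0 := fun p hp => pow_ne_zero 3 (h0 p hp)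
  unfold gf' eS eE eS' eE'
  fun_prop (disch := assumption)

/-- algebra: normal derivative of `S` -/
theorem alg_S {r k ks kss X Y y θ ell mu cy : ℝ} (hr : r ≠ 0) (hl : ell ≠ 0) :
    eS' r k X Y y θ (-1 / r) (kss + k ^ 3 + mu * ks) (-(k * Real.sin θ) + mu * Real.cos θ)
      (k * Real.cos θ + mu * Real.sin θ) cy (ks + mu * k) -
    mu / ell * eS' r k X Y y θ 0 (ell * ks) (ell * Real.cos θ) (ell * Real.sin θ) 0 (ell * k) =
    1 / r ^ 2 * ((r ^ 3 * kss - r ^ 2 * ks * ((X * Real.cos θ + (Y - y) * Real.sin θ) / r) -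
      r * k - (r * k) ^ 2 * ((-(X * Real.sin θ) + (Y - y) * Real.cos θ) / r)) +
      ((r * k) ^ 2 + 1) * eS r k X Y y θ - r * cy * Real.cos θ) := by
  have hsc := Real.sin_sq_add_cos_sq θ
  unfold eS' eS
  have e1 : mu / ell * (0 * k + r * (ell * ks) +
      (-(ell * Real.cos θ * Real.sin θ + X * Real.cos θ * (ell * k)) +
        (ell * Real.sin θ - 0) * Real.cos θ - (Y - y) * Real.sin θ * (ell * k)) / r -
        (-(X * Real.sin θ) + (Y - y) * Real.cos θ) * 0 / r ^ 2) =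
      mu * (r * ks - k * (X * Real.cos θ + (Y - y) * Real.sin θ) / r) := by
    field_simp
    ring
  rw [e1]
  field_simp
  linear_combination (r ^ 2 * k) * hsc

/-- algebra: normal derivative of the exponent -/
theorem alg_E {r k X Y y θ ell mu cy : ℝ} (hr : r ≠ 0) (hl : ell ≠ 0) :
    eE' r X Y y (-1 / r) (-(k * Real.sin θ) + mu * Real.cos θ)
      (k * Real.cos θ + mu * Real.sin θ) cy -
    mu / ell * eE' r X Y y 0 (ell * Real.cos θ) (ell * Real.sin θ) 0 =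
    -(1 / r ^ 2) * (eS r k X Y y θ * ((-(X * Real.sin θ) + (Y - y) * Real.cos θ) / r) +
      ((X * Real.cos θ + (Y - y) * Real.sin θ) / r) ^ 2) + cy * (Y - y) / r ^ 2 := by
  have hsc := Real.sin_sq_add_cos_sq θ
  unfold eE' eS
  have e1 : mu / ell * (-(X * (ell * Real.cos θ) + (Y - y) * (ell * Real.sin θ - 0)) / r ^ 2 +
      (X ^ 2 + (Y - y) ^ 2) * 0 / r ^ 3) =
      -(mu * (X * Real.cos θ + (Y - y) * Real.sin θ)) / r ^ 2 := by
    field_simp
    ring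
  rw [e1]
  field_simp
  linear_combination (X ^ 2 + (Y - y) ^ 2) * hsc

/-- tangential component -/
def eP (r X Y y θ : ℝ) : ℝ := (X * Real.cos θ + (Y - y) * Real.sin θ) / r

/-- normal component -/
def eH (r X Y y θ : ℝ) : ℝ := (-(X * Real.sin θ) + (Y - y) * Real.cos θ) / r

/-- arclength derivative of `S` -/
def eSs (r k ks X Y y θ : ℝ) : ℝ := r ^ 2 * ks - r * k * eP r X Y y θ

/-- boundary expression -/
def eB (Lx r k ks X Y y θ : ℝ) : ℝ :=
  (2 * eS r k X Y y θ * eSs r k ks X Y y θ + eS r k X Y y θ ^ 2 * eP r X Y y θ) *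
    (Real.exp (eE r X Y y) * cut (X / Lx))

/-- its derivative, divided by `ell / r` -/
def eB' (Lx r k ks kss X Y y θ : ℝ) : ℝ :=
  (2 * eSs r k ks X Y y θ ^ 2 + 2 * eS r k X Y y θ *
      (r ^ 3 * kss - r ^ 2 * ks * eP r X Y y θ - r * k - (r * k) ^ 2 * eH r X Y y θ) +
      eS r k X Y y θ ^ 2 * (1 + r * k * eH r X Y y θ) -
      eS r k X Y y θ ^ 2 * eP r X Y y θ ^ 2) * (Real.exp (eE r X Y y) * cut (X / Lx)) +
    (2 * eS r k X Y y θ * eSs r k ks X Y y θ + eS r k X Y y θ ^ 2 * eP r X Y y θ) *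
      Real.exp (eE r X Y y) * (deriv cut (X / Lx) * (r / Lx)) * Real.cos θ

/-- the bulk integrand -/
def bulk (Lx r k ks X Y y θ cy : ℝ) : ℝ :=
  -2 * ((eSs r k ks X Y y θ ^ 2 - ((r * k) ^ 2 + 1) * eS r k X Y y θ ^ 2) *
      (Real.exp (eE r X Y y) * cut (X / Lx))) -
    eS r k X Y y θ ^ 4 * (Real.exp (eE r X Y y) * cut (X / Lx)) -
    2 * (r * cy) * (eS r k X Y y θ * Real.cos θ * (Real.exp (eE r X Y y) * cut (X / Lx))) +
    (r * cy) * (eS r k X Y y θ ^ 2 * ((Y - y) / r) * (Real.exp (eE r X Y y) * cut (X / Lx))) +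
    (-(2 * eS r k X Y y θ * eSs r k ks X Y y θ * Real.cos θ) -
      eS r k X Y y θ ^ 2 * eP r X Y y θ * Real.cos θ -
      eS r k X Y y θ ^ 2 * (r * k) * Real.sin θ) * Real.exp (eE r X Y y) *
      (deriv cut (X / Lx) * (r / Lx))

theorem gf'_lin (Lx r k X Y y θ r' k' X' Y' y' θ' r2 k2 X2 Y2 y2 θ2 c : ℝ) :
    gf' Lx r k X Y y θ r' k' X' Y' y' θ' - c * gf' Lx r k X Y y θ r2 k2 X2 Y2 y2 θ2 =
    (2 * eS r k X Y y θ * (eS' r k X Y y θ r' k' X' Y' y' θ' -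
        c * eS' r k X Y y θ r2 k2 X2 Y2 y2 θ2) * (Real.exp (eE r X Y y) * cut (X / Lx)) +
      eS r k X Y y θ ^ 2 * (Real.exp (eE r X Y y) * ((eE' r X Y y r' X' Y' y' -
        c * eE' r X Y y r2 X2 Y2 y2) * cut (X / Lx) +
        deriv cut (X / Lx) * ((X' - c * X2) / Lx)))) / r -
    eS r k X Y y θ ^ 2 * (Real.exp (eE r X Y y) * cut (X / Lx)) * (r' - c * r2) / r ^ 2 := by
  unfold gf'
  ring

/-- the pointwise identity -/
theorem pointwise {Lx r k ks kss X Y y θ ell mu cy : ℝ} (hr : r ≠ 0) (hl : ell ≠ 0) :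
    ell * (gf' Lx r k X Y y θ (-1 / r) (kss + k ^ 3 + mu * ks)
      (-(k * Real.sin θ) + mu * Real.cos θ) (k * Real.cos θ + mu * Real.sin θ) cy (ks + mu * k) -
    mu / ell * gf' Lx r k X Y y θ 0 (ell * ks) (ell * Real.cos θ) (ell * Real.sin θ) 0 (ell * k) -
    k ^ 2 * gf Lx r k X Y y θ) =
    1 / r ^ 2 * (ell / r * bulk Lx r k ks X Y y θ cy + ell / r * eB' Lx r k ks kss X Y y θ) := by
  have e1 : -(k * Real.sin θ) + mu * Real.cos θ - mu / ell * (ell * Real.cos θ) =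
      -(k * Real.sin θ) := by
    field_simp
    ring
  rw [gf'_lin, alg_S hr hl, alg_E (k := k) hr hl, e1]
  have hS : eS r k X Y y θ = r * k + eH r X Y y θ := rfl
  have hH : (-(X * Real.sin θ) + (Y - y) * Real.cos θ) / r = eH r X Y y θ := rfl
  have hP : (X * Real.cos θ + (Y - y) * Real.sin θ) / r = eP r X Y y θ := rfl
  have hV : cy * (Y - y) / r ^ 2 = cy * ((Y - y) / r) / r := by
    field_simp
  rw [hH, hP, hV]
  unfold bulk eB' gf
  rw [hS]
  generalize Real.exp (eE r X Y y) = ρ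
  generalize cut (X / Lx) = C
  generalize deriv cut (X / Lx) = C'
  generalize Real.sin θ = sn
  generalize Real.cos θ = cs
  generalize eSs r k ks X Y y θ = q
  generalize eP r X Y y θ = p
  generalize eH r X Y y θ = h
  generalize (Y - y) / r = v
  have hL : Lx⁻¹ * 1 = Lx⁻¹ := mul_one _
  simp only [div_eq_mul_inv] at *
  generalize Lx⁻¹ = L
  field_simp
  ring

theorem eB_deriv {s : Set ℝ} {u : ℝ} {r y ell : ℝ} {k ks X Y θ : ℝ → ℝ} {kss : ℝ}
    (hk : HasDerivWithinAt k (ell * ks u) s u) (hks : HasDerivWithinAt ks (ell * kss) s u)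
    (hX : HasDerivWithinAt X (ell * Real.cos (θ u)) s u)
    (hY : HasDerivWithinAt Y (ell * Real.sin (θ u)) s u)
    (hθ : HasDerivWithinAt θ (ell * k u) s u) (h0 : r ≠ 0) :
    HasDerivWithinAt (fun v => eB Lx r (k v) (ks v) (X v) (Y v) y (θ v))
      (ell / r * eB' Lx r (k u) (ks u) kss (X u) (Y u) y (θ u)) s u := by
  have hsc := Real.sin_sq_add_cos_sq (θ u)
  have hrc : HasDerivWithinAt (fun _ : ℝ => r) 0 s u := hasDerivWithinAt_const _ _ _
  have hyc : HasDerivWithinAt (fun _ : ℝ => y) 0 s u := hasDerivWithinAt_const _ _ _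
  have hS : HasDerivWithinAt (fun v => eS r (k v) (X v) (Y v) y (θ v))
      (ell / r * eSs r (k u) (ks u) (X u) (Y u) y (θ u)) s u := by
    refine (S_deriv hrc hk hX hY hyc hθ h0).congr_deriv ?_
    unfold eSs eP
    field_simp
    ring
  have hP : HasDerivWithinAt (fun v => eP r (X v) (Y v) y (θ v))
      (ell / r * (1 + r * k u * eH r (X u) (Y u) y (θ u))) s u := by
    have h1 := ((hX.mul hθ.cos).add ((hY.sub hyc).mul hθ.sin)).div_const r
    refine h1.congr_deriv ?_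
    simp only [Pi.sub_apply]
    unfold eH
    field_simp
    linear_combination ell * hsc
  have hSs : HasDerivWithinAt (fun v => eSs r (k v) (ks v) (X v) (Y v) y (θ v))
      (ell / r * (r ^ 3 * kss - r ^ 2 * ks u * eP r (X u) (Y u) y (θ u) - r * k u -
        (r * k u) ^ 2 * eH r (X u) (Y u) y (θ u))) s u := by
    have h1 := (hks.const_mul (r ^ 2)).sub ((hk.const_mul r).mul hP)
    refine h1.congr_deriv ?_
    field_simp
    ring
  have hE : HasDerivWithinAt (fun v => eE r (X v) (Y v) y)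
      (-(ell / r) * eP r (X u) (Y u) y (θ u)) s u := by
    refine (E_deriv hrc hX hY hyc h0).congr_deriv ?_
    unfold eP
    field_simp
    ring
  have hC : HasDerivWithinAt (fun v => cut (X v / Lx))
      (deriv cut (X u / Lx) * ((ell * Real.cos (θ u)) / Lx)) s u := C_deriv hX
  have h1 := (((hS.const_mul 2).mul hSs).add ((hS.pow 2).mul hP)).mul (hE.exp.mul hC)
  refine h1.congr_deriv ?_
  simp only [Pi.mul_apply, Pi.pow_apply, Pi.add_apply]
  unfold eB'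
  generalize Real.exp (eE r (X u) (Y u) y) = ρ
  generalize cut (X u / Lx) = C
  generalize deriv cut (X u / Lx) = C'
  generalize eS r (k u) (X u) (Y u) y (θ u) = S
  generalize eSs r (k u) (ks u) (X u) (Y u) y (θ u) = q
  generalize eP r (X u) (Y u) y (θ u) = p
  generalize eH r (X u) (Y u) y (θ u) = h
  simp only [div_eq_mul_inv]
  generalize Lx⁻¹ = L
  field_simp
  ring

theorem eB_cont {α : Type*} [TopologicalSpace α] {A : Set α} {r k ks X Y y θ : α → ℝ}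
    (hr : ContinuousOn r A)
    (hk : ContinuousOn k A) (hks : ContinuousOn ks A) (hX : ContinuousOn X A)
    (hY : ContinuousOn Y A)
    (hy : ContinuousOn y A) (hθ : ContinuousOn θ A) (h0 : ∀ p ∈ A, r p ≠ 0) :
    ContinuousOn (fun p => eB Lx (r p) (k p) (ks p) (X p) (Y p) (y p) (θ p)) A := by
  have hc : Continuous cut := cut_contDiff.continuous
  unfold eB eS eE eSs eP
  fun_prop (disch := assumption)

theorem eB'_cont {α : Type*} [TopologicalSpace α] {A : Set α} {r k ks kss X Y y θ : α → ℝ}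
    (hr : ContinuousOn r A)
    (hk : ContinuousOn k A) (hks : ContinuousOn ks A) (hkss : ContinuousOn kss A)
    (hX : ContinuousOn X A) (hY : ContinuousOn Y A)
    (hy : ContinuousOn y A) (hθ : ContinuousOn θ A) (h0 : ∀ p ∈ A, r p ≠ 0) :
    ContinuousOn (fun p => eB' Lx (r p) (k p) (ks p) (kss p) (X p) (Y p) (y p) (θ p)) A := by
  have hc : Continuous cut := cut_contDiff.continuous
  have hc' : Continuous (deriv cut) := cut_deriv_cont
  unfold eB' eS eE eSs eP eH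
  fun_prop (disch := assumption)

theorem bulk_cont {α : Type*} [TopologicalSpace α] {A : Set α} {r k ks X Y y θ cy : α → ℝ}
    (hr : ContinuousOn r A)
    (hk : ContinuousOn k A) (hks : ContinuousOn ks A)
    (hX : ContinuousOn X A) (hY : ContinuousOn Y A)
    (hy : ContinuousOn y A) (hθ : ContinuousOn θ A) (hcy : ContinuousOn cy A)
    (h0 : ∀ p ∈ A, r p ≠ 0) :
    ContinuousOn (fun p => bulk Lx (r p) (k p) (ks p) (X p) (Y p) (y p) (θ p) (cy p)) A := by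
  have hc : Continuous cut := cut_contDiff.continuous
  have hc' : Continuous (deriv cut) := cut_deriv_cont
  unfold bulk eS eE eSs eP
  fun_prop (disch := assumption)

/-- derivative of one term -/
theorem edge_deriv (F : Flow a b Lx) (i : Fin 3) {T c y00 : ℝ} (hT : b ≤ T) {t : ℝ}
    (htt : t ∈ Ioo a b) :
    HasDerivAt (fun τ => F.ell i τ * ∫ σ in (0:ℝ)..1,
        gf Lx (rr T τ) (F.k i τ σ) (F.X i τ σ) (F.Y i τ σ) (y00 + c * (τ - t)) (F.th i τ σ + off i))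
      (1 / rr T t ^ 2 * (F.ell i t / rr T t * (∫ σ in (0:ℝ)..1,
          bulk Lx (rr T t) (F.k i t σ) (F.ks i t σ) (F.X i t σ) (F.Y i t σ) y00
            (F.th i t σ + off i) c) +
        (eB Lx (rr T t) (F.k i t 1) (F.ks i t 1) (F.X i t 1) (F.Y i t 1) y00
            (F.th i t 1 + off i) -
          eB Lx (rr T t) (F.k i t 0) (F.ks i t 0) (F.X i t 0) (F.Y i t 0) y00
            (F.th i t 0 + off i))) -
        F.mu i t 0 * gf Lx (rr T t) (F.k i t 0) (F.X i t 0) (F.Y i t 0) y00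
            (F.th i t 0 + off i)) t := by
  have hlt : ∀ τ ∈ Ioo a b, τ < T := fun τ hτ => lt_of_lt_of_le hτ.2 hT
  have hrne : ∀ τ ∈ Ioo a b, rr T τ ≠ 0 := fun τ hτ => (rr_pos (hlt τ hτ)).ne'
  have hr1 : ContinuousOn (rr T) (Ioo a b) := fun τ hτ =>
    (rr_deriv (hlt τ hτ)).continuousAt.continuousWithinAt
  have hfst : ContinuousOn (fun p : ℝ × ℝ => p.1) (Ioo a b ×ˢ Icc (0:ℝ) 1) :=
    continuous_fst.continuousOn
  have hmaps : MapsTo (fun p : ℝ × ℝ => p.1) (Ioo a b ×ˢ Icc (0:ℝ) 1) (Ioo a b) :=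
    fun p hp => hp.1
  have hr2 : ContinuousOn (fun p : ℝ × ℝ => rr T p.1) (Ioo a b ×ˢ Icc (0:ℝ) 1) :=
    hr1.comp hfst hmaps
  have hrne2 : ∀ p ∈ Ioo a b ×ˢ Icc (0:ℝ) 1, rr T p.1 ≠ 0 := fun p hp => hrne _ hp.1
  have hell : ContinuousOn (fun p : ℝ × ℝ => F.ell i p.1) (Ioo a b ×ˢ Icc (0:ℝ) 1) := by
    have : ContinuousOn (F.ell i) (Ioo a b) := fun τ hτ =>
      (F.ell_t i τ hτ).continuousAt.continuousWithinAt
    exact this.comp hfst hmaps
  have hk := F.k_cont i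
  have hks := F.ks_cont i
  have hkss := F.kss_cont i
  have hmu := F.mu_cont i
  have hX := F.X_cont i
  have hY := F.Y_cont i
  have hth : ContinuousOn (fun p : ℝ × ℝ => F.th i p.1 p.2 + off i) (Ioo a b ×ˢ Icc (0:ℝ) 1) :=
    (F.th_cont i).add continuousOn_const
  have hsn : ContinuousOn (fun p : ℝ × ℝ => Real.sin (F.th i p.1 p.2 + off i))
      (Ioo a b ×ˢ Icc (0:ℝ) 1) := Real.continuous_sin.comp_continuousOn hth
  have hcs : ContinuousOn (fun p : ℝ × ℝ => Real.cos (F.th i p.1 p.2 + off i))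
      (Ioo a b ×ˢ Icc (0:ℝ) 1) := Real.continuous_cos.comp_continuousOn hth
  have hyc : ContinuousOn (fun p : ℝ × ℝ => y00 + c * (p.1 - t)) (Ioo a b ×ˢ Icc (0:ℝ) 1) := by
    fun_prop
  have key := transport F i
    (f := fun τ σ => gf Lx (rr T τ) (F.k i τ σ) (F.X i τ σ) (F.Y i τ σ) (y00 + c * (τ - t))
      (F.th i τ σ + off i))
    (ft := fun τ σ => gf' Lx (rr T τ) (F.k i τ σ) (F.X i τ σ) (F.Y i τ σ) (y00 + c * (τ - t))
      (F.th i τ σ + off i) (-1 / rr T τ) (F.kss i τ σ + F.k i τ σ ^ 3 + F.mu i τ σ * F.ks i τ σ)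
      (-(F.k i τ σ * Real.sin (F.th i τ σ + off i)) +
        F.mu i τ σ * Real.cos (F.th i τ σ + off i))
      (F.k i τ σ * Real.cos (F.th i τ σ + off i) + F.mu i τ σ * Real.sin (F.th i τ σ + off i))
      c (F.ks i τ σ + F.mu i τ σ * F.k i τ σ))
    (fs := fun τ σ => gf' Lx (rr T τ) (F.k i τ σ) (F.X i τ σ) (F.Y i τ σ) (y00 + c * (τ - t))
      (F.th i τ σ + off i) 0 (F.ell i τ * F.ks i τ σ)
      (F.ell i τ * Real.cos (F.th i τ σ + off i)) (F.ell i τ * Real.sin (F.th i τ σ + off i))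
      0 (F.ell i τ * F.k i τ σ))
    (gf_cont hr2 hk hX hY hyc hth hrne2)
    (gf'_cont hr2 hk hX hY hyc hth (continuousOn_const.div hr2 hrne2)
      ((hkss.add (hk.pow 3)).add (hmu.mul hks))
      ((hk.mul hsn).neg.add (hmu.mul hcs))
      ((hk.mul hcs).add (hmu.mul hsn)) continuousOn_const
      (hks.add (hmu.mul hk)) hrne2)
    (gf'_cont hr2 hk hX hY hyc hth continuousOn_const (hell.mul hks) (hell.mul hcs)
      (hell.mul hsn) continuousOn_const (hell.mul hk) hrne2)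
    (by
      intro τ hτ σ hσ
      have h1 : HasDerivAt (fun v : ℝ => y00 + c * (v - t)) c τ := by
        have := (((hasDerivAt_id τ).sub_const t).const_mul c).const_add y00
        simpa using this
      have h2 := gf_deriv (Lx := Lx) (s := univ) (rr_deriv (hlt τ hτ)).hasDerivWithinAt
        (F.k_t i τ hτ σ hσ).hasDerivWithinAt (F.X_t i τ hτ σ hσ).hasDerivWithinAt
        (F.Y_t i τ hτ σ hσ).hasDerivWithinAt h1.hasDerivWithinAt
        ((F.th_t i τ hτ σ hσ).add_const (off i)).hasDerivWithinAt (hrne τ hτ)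
      exact hasDerivWithinAt_univ.1 h2)
    (by
      intro τ hτ σ hσ
      exact gf_deriv (Lx := Lx) (hasDerivWithinAt_const σ (Icc 0 1) (rr T τ))
        (F.k_s i τ hτ σ hσ) (F.X_s i τ hτ σ hσ)
        (F.Y_s i τ hτ σ hσ) (hasDerivWithinAt_const σ (Icc 0 1) (y00 + c * (τ - t)))
        ((F.th_s i τ hτ σ hσ).add_const (off i)) (hrne τ hτ))
    htt
  refine key.congr_deriv ?_
  simp only [sub_self, mul_zero, add_zero]
  congr 1
  -- slices
  have hsl : ∀ {g : ℝ × ℝ → ℝ}, ContinuousOn g (Ioo a b ×ˢ Icc (0:ℝ) 1) →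
      ContinuousOn (fun σ => g (t, σ)) (Icc (0:ℝ) 1) := by
    intro g hg
    exact hg.comp (by fun_prop) (fun σ hσ => ⟨htt, hσ⟩)
  have hk1 := hsl hk
  have hks1 := hsl hks
  have hkss1 := hsl hkss
  have hX1 := hsl hX
  have hY1 := hsl hY
  have hth1 := hsl hth
  have hrt : ContinuousOn (fun _ : ℝ => rr T t) (Icc (0:ℝ) 1) := continuousOn_const
  have hyt : ContinuousOn (fun _ : ℝ => y00) (Icc (0:ℝ) 1) := continuousOn_const
  have hct : ContinuousOn (fun _ : ℝ => c) (Icc (0:ℝ) 1) := continuousOn_const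
  have hrne1 : ∀ σ ∈ Icc (0:ℝ) 1, rr T t ≠ 0 := fun _ _ => hrne t htt
  have hBc := eB_cont (Lx := Lx) hrt hk1 hks1 hX1 hY1 hyt hth1 hrne1
  have hB'c := eB'_cont (Lx := Lx) hrt hk1 hks1 hkss1 hX1 hY1 hyt hth1 hrne1
  have hbc := bulk_cont (Lx := Lx) hrt hk1 hks1 hX1 hY1 hyt hth1 hct hrne1
  have huIcc : uIcc (0:ℝ) 1 = Icc 0 1 := uIcc_of_le zero_le_one
  have hB'i : IntervalIntegrable (fun σ => F.ell i t / rr T t * eB' Lx (rr T t) (F.k i t σ)
      (F.ks i t σ) (F.kss i t σ) (F.X i t σ) (F.Y i t σ) y00 (F.th i t σ + off i)) volume 0 1 := by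
    refine ContinuousOn.intervalIntegrable ?_
    rw [huIcc]
    exact continuousOn_const.mul hB'c
  have hbi : IntervalIntegrable (fun σ => F.ell i t / rr T t * bulk Lx (rr T t) (F.k i t σ)
      (F.ks i t σ) (F.X i t σ) (F.Y i t σ) y00 (F.th i t σ + off i) c) volume 0 1 := by
    refine ContinuousOn.intervalIntegrable ?_
    rw [huIcc]
    exact continuousOn_const.mul hbc
  have hFTC : ∫ σ in (0:ℝ)..1, F.ell i t / rr T t * eB' Lx (rr T t) (F.k i t σ)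
      (F.ks i t σ) (F.kss i t σ) (F.X i t σ) (F.Y i t σ) y00 (F.th i t σ + off i) =
      eB Lx (rr T t) (F.k i t 1) (F.ks i t 1) (F.X i t 1) (F.Y i t 1) y00
            (F.th i t 1 + off i) -
          eB Lx (rr T t) (F.k i t 0) (F.ks i t 0) (F.X i t 0) (F.Y i t 0) y00
            (F.th i t 0 + off i) := by
    refine integral_eq_sub_of_hasDerivAt_of_le zero_le_one hBc ?_ hB'i
    intro σ hσ
    have hσ' : σ ∈ Icc (0:ℝ) 1 := Ioo_subset_Icc_self hσ
    have hd := eB_deriv (Lx := Lx) (s := Icc 0 1) (u := σ) (r := rr T t) (y := y00)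
      (ell := F.ell i t) (k := F.k i t) (ks := F.ks i t) (X := F.X i t) (Y := F.Y i t)
      (θ := fun v => F.th i t v + off i) (kss := F.kss i t σ)
      (F.k_s i t htt σ hσ') (F.ks_s i t htt σ hσ') (F.X_s i t htt σ hσ')
      (F.Y_s i t htt σ hσ') ((F.th_s i t htt σ hσ').add_const (off i)) (hrne t htt)
    exact hd.hasDerivAt (Icc_mem_nhds hσ.1 hσ.2)
  rw [← hFTC, ← intervalIntegral.integral_const_mul, ← intervalIntegral.integral_const_mul,
    ← intervalIntegral.integral_add hbi hB'i, ← intervalIntegral.integral_const_mul]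
  refine integral_congr fun σ hσ => ?_
  have hpw := pointwise (Lx := Lx) (r := rr T t) (k := F.k i t σ) (ks := F.ks i t σ)
    (kss := F.kss i t σ) (X := F.X i t σ) (Y := F.Y i t σ) (y := y00) (θ := F.th i t σ + off i)
    (ell := F.ell i t) (mu := F.mu i t σ) (cy := c) (hrne t htt) (F.ell_pos i t htt).ne'
  exact hpw

theorem raw_S (F : Flow a b Lx) (r y t : ℝ) (i : Fin 3) (σ : ℝ) :
    (F.raw r y t).S i σ = eS r (F.k i t σ) (F.X i t σ) (F.Y i t σ) y (F.th i t σ + off i) := by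
  simp only [Raw.S, Raw.h, Raw.ang, Flow.raw, eS]
  ring

theorem raw_Ss (F : Flow a b Lx) (r y t : ℝ) (i : Fin 3) (σ : ℝ) :
    (F.raw r y t).Ss i σ =
      eSs r (F.k i t σ) (F.ks i t σ) (F.X i t σ) (F.Y i t σ) y (F.th i t σ + off i) := by
  simp only [Flow.raw, eSs, eP]
  ring

theorem raw_p (F : Flow a b Lx) (r y t : ℝ) (i : Fin 3) (σ : ℝ) :
    (F.raw r y t).p i σ = eP r (F.X i t σ) (F.Y i t σ) y (F.th i t σ + off i) := by
  simp only [Raw.p, Raw.ang, Flow.raw, eP]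
  ring

theorem raw_w (F : Flow a b Lx) {r : ℝ} (hr : r ≠ 0) (y t : ℝ) (i : Fin 3) (σ : ℝ) :
    (F.raw r y t).w (Lx / r) i σ =
      Real.exp (eE r (F.X i t σ) (F.Y i t σ) y) * cut (F.X i t σ / Lx) := by
  have h1 : F.X i t σ / r / (Lx / r) = F.X i t σ / Lx := div_div_div_cancel_right₀ hr _ _
  simp only [Raw.w, Raw.rho, Flow.raw, eE, h1]

theorem raw_D (F : Flow a b Lx) {r : ℝ} (hr : r ≠ 0) (y t : ℝ) :
    (F.raw r y t).D (Lx / r) = ∑ i, F.ell i t * ∫ σ in (0:ℝ)..1,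
      gf Lx r (F.k i t σ) (F.X i t σ) (F.Y i t σ) y (F.th i t σ + off i) := by
  unfold Raw.D Raw.I
  refine Finset.sum_congr rfl fun i _ => ?_
  have h1 : ∀ σ : ℝ, gf Lx r (F.k i t σ) (F.X i t σ) (F.Y i t σ) y (F.th i t σ + off i) =
      (1 / r) * ((F.raw r y t).S i σ ^ 2 * (F.raw r y t).w (Lx / r) i σ) := by
    intro σ
    rw [raw_S, raw_w F hr]
    unfold gf
    ring
  simp only [h1]
  rw [intervalIntegral.integral_const_mul, ← mul_assoc]
  congr 1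
  simp only [Flow.raw]
  ring

/-- linearity with five terms -/
theorem int5 {A B C D E : ℝ → ℝ} (hA : ContinuousOn A (Icc 0 1)) (hB : ContinuousOn B (Icc 0 1))
    (hC : ContinuousOn C (Icc 0 1)) (hD : ContinuousOn D (Icc 0 1))
    (hE : ContinuousOn E (Icc 0 1)) (u v : ℝ) :
    ∫ σ in (0:ℝ)..1, (-2 * A σ - B σ - u * C σ + v * D σ + E σ) =
      -2 * (∫ σ in (0:ℝ)..1, A σ) - (∫ σ in (0:ℝ)..1, B σ) - u * (∫ σ in (0:ℝ)..1, C σ) +
        v * (∫ σ in (0:ℝ)..1, D σ) + ∫ σ in (0:ℝ)..1, E σ := by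
  have hI : ∀ {g : ℝ → ℝ}, ContinuousOn g (Icc 0 1) → IntervalIntegrable g volume 0 1 := by
    intro g hg
    refine ContinuousOn.intervalIntegrable ?_
    rwa [uIcc_of_le zero_le_one]
  have hA' := (hI hA).const_mul (-2)
  have hC' := (hI hC).const_mul u
  have hD' := (hI hD).const_mul v
  rw [intervalIntegral.integral_add (((hA'.sub (hI hB)).sub hC').add hD') (hI hE),
    intervalIntegral.integral_add ((hA'.sub (hI hB)).sub hC') hD',
    intervalIntegral.integral_sub (hA'.sub (hI hB)) hC',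
    intervalIntegral.integral_sub hA' (hI hB), intervalIntegral.integral_const_mul,
    intervalIntegral.integral_const_mul, intervalIntegral.integral_const_mul]

theorem bulk_int (F : Flow a b Lx) {r : ℝ} (hr : r ≠ 0) (y c : ℝ) {t : ℝ} (ht : t ∈ Ioo a b)
    (i : Fin 3) :
    F.ell i t / r * (∫ σ in (0:ℝ)..1, bulk Lx r (F.k i t σ) (F.ks i t σ) (F.X i t σ)
        (F.Y i t σ) y (F.th i t σ + off i) c) =
      -2 * (F.raw r y t).I i (fun σ => ((F.raw r y t).Ss i σ ^ 2 -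
        ((F.raw r y t).kap i σ ^ 2 + 1) * (F.raw r y t).S i σ ^ 2) *
        (F.raw r y t).w (Lx / r) i σ) -
      (F.raw r y t).I i (fun σ => (F.raw r y t).S i σ ^ 4 * (F.raw r y t).w (Lx / r) i σ) -
      2 * (r * c) * (F.raw r y t).I i (fun σ => (F.raw r y t).S i σ *
        Real.cos ((F.raw r y t).ang i σ) * (F.raw r y t).w (Lx / r) i σ) +
      (r * c) * (F.raw r y t).I i (fun σ => (F.raw r y t).S i σ ^ 2 * (F.raw r y t).y i σ *
        (F.raw r y t).w (Lx / r) i σ) +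
      (F.raw r y t).I i (fun σ =>
      (-(2 * (F.raw r y t).S i σ * (F.raw r y t).Ss i σ * Real.cos ((F.raw r y t).ang i σ))
      - (F.raw r y t).S i σ ^ 2 * (F.raw r y t).p i σ * Real.cos ((F.raw r y t).ang i σ)
      - (F.raw r y t).S i σ ^ 2 * (F.raw r y t).kap i σ * Real.sin ((F.raw r y t).ang i σ)) *
        (F.raw r y t).rho i σ *
        (deriv cut ((F.raw r y t).x i σ / (Lx / r)) / (Lx / r))) := by
  have h1 : ∀ σ, (F.raw r y t).x i σ / (Lx / r) = F.X i t σ / Lx := fun σ =>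
    div_div_div_cancel_right₀ hr _ _
  have hang : ∀ σ, (F.raw r y t).ang i σ = F.th i t σ + off i := fun σ => rfl
  have hkap : ∀ σ, (F.raw r y t).kap i σ = r * F.k i t σ := fun σ => rfl
  have hyy : ∀ σ, (F.raw r y t).y i σ = (F.Y i t σ - y) / r := fun σ => rfl
  have hrho : ∀ σ, (F.raw r y t).rho i σ = Real.exp (eE r (F.X i t σ) (F.Y i t σ) y) :=
    fun σ => rfl
  have hL : (F.raw r y t).L i = F.ell i t / r := rfl
  have hRL : ∀ z : ℝ, z / (Lx / r) = z * (r / Lx) := fun z => by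
    rw [div_div_eq_mul_div, mul_div_assoc]
  have hsl : ∀ {g : ℝ × ℝ → ℝ}, ContinuousOn g (Ioo a b ×ˢ Icc (0:ℝ) 1) →
      ContinuousOn (fun σ => g (t, σ)) (Icc (0:ℝ) 1) := by
    intro g hg
    exact hg.comp (by fun_prop) (fun σ hσ => ⟨ht, hσ⟩)
  have hk1 : ContinuousOn (fun σ => F.k i t σ) (Icc (0:ℝ) 1) := hsl (F.k_cont i)
  have hks1 : ContinuousOn (fun σ => F.ks i t σ) (Icc (0:ℝ) 1) := hsl (F.ks_cont i)
  have hX1 : ContinuousOn (fun σ => F.X i t σ) (Icc (0:ℝ) 1) := hsl (F.X_cont i)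
  have hY1 : ContinuousOn (fun σ => F.Y i t σ) (Icc (0:ℝ) 1) := hsl (F.Y_cont i)
  have hth1 : ContinuousOn (fun σ => F.th i t σ) (Icc (0:ℝ) 1) := hsl (F.th_cont i)
  have hc : Continuous cut := cut_contDiff.continuous
  have hc' : Continuous (deriv cut) := cut_deriv_cont
  have hne : ∀ σ ∈ Icc (0:ℝ) 1, r ≠ 0 := fun _ _ => hr
  simp only [Raw.I, hL, h1, hang, hkap, hyy, raw_S, raw_Ss, raw_p, raw_w F hr, hrho, hRL]
  have key := int5
    (A := fun σ => (eSs r (F.k i t σ) (F.ks i t σ) (F.X i t σ) (F.Y i t σ) y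
      (F.th i t σ + off i) ^ 2 - ((r * F.k i t σ) ^ 2 + 1) * eS r (F.k i t σ) (F.X i t σ)
      (F.Y i t σ) y (F.th i t σ + off i) ^ 2) *
      (Real.exp (eE r (F.X i t σ) (F.Y i t σ) y) * cut (F.X i t σ / Lx)))
    (B := fun σ => eS r (F.k i t σ) (F.X i t σ) (F.Y i t σ) y (F.th i t σ + off i) ^ 4 *
      (Real.exp (eE r (F.X i t σ) (F.Y i t σ) y) * cut (F.X i t σ / Lx)))
    (C := fun σ => eS r (F.k i t σ) (F.X i t σ) (F.Y i t σ) y (F.th i t σ + off i) *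
      Real.cos (F.th i t σ + off i) *
      (Real.exp (eE r (F.X i t σ) (F.Y i t σ) y) * cut (F.X i t σ / Lx)))
    (D := fun σ => eS r (F.k i t σ) (F.X i t σ) (F.Y i t σ) y (F.th i t σ + off i) ^ 2 *
      ((F.Y i t σ - y) / r) *
      (Real.exp (eE r (F.X i t σ) (F.Y i t σ) y) * cut (F.X i t σ / Lx)))
    (E := fun σ => (-(2 * eS r (F.k i t σ) (F.X i t σ) (F.Y i t σ) y (F.th i t σ + off i) *
        eSs r (F.k i t σ) (F.ks i t σ) (F.X i t σ) (F.Y i t σ) y (F.th i t σ + off i) *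
        Real.cos (F.th i t σ + off i)) -
      eS r (F.k i t σ) (F.X i t σ) (F.Y i t σ) y (F.th i t σ + off i) ^ 2 *
        eP r (F.X i t σ) (F.Y i t σ) y (F.th i t σ + off i) * Real.cos (F.th i t σ + off i) -
      eS r (F.k i t σ) (F.X i t σ) (F.Y i t σ) y (F.th i t σ + off i) ^ 2 * (r * F.k i t σ) *
        Real.sin (F.th i t σ + off i)) * Real.exp (eE r (F.X i t σ) (F.Y i t σ) y) *
      (deriv cut (F.X i t σ / Lx) * (r / Lx)))
    (by unfold eSs eS eP eE; fun_prop) (by unfold eS eE; fun_prop)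
    (by unfold eS eE; fun_prop) (by unfold eS eE; fun_prop)
    (by unfold eSs eS eP eE; fun_prop) (2 * (r * c)) (r * c)
  have hb : (∫ σ in (0:ℝ)..1, bulk Lx r (F.k i t σ) (F.ks i t σ) (F.X i t σ)
        (F.Y i t σ) y (F.th i t σ + off i) c) = _ := key
  rw [hb]
  ring

theorem cos_off0 (ψ : ℝ) : Real.cos (ψ + off 0) = -(Real.cos ψ) / 2 -
    Real.sqrt 3 / 2 * Real.sin ψ ∧ Real.sin (ψ + off 0) = -(Real.sin ψ) / 2 +
    Real.sqrt 3 / 2 * Real.cos ψ := by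
  have h : off 0 = Real.pi - Real.pi / 3 := by
    simp only [off, Matrix.cons_val_zero]
    ring
  rw [Real.cos_add, Real.sin_add, h, Real.cos_pi_sub, Real.sin_pi_sub, Real.cos_pi_div_three,
    Real.sin_pi_div_three]
  constructor <;> ring

theorem cos_off1 (ψ : ℝ) : Real.cos (ψ + off 1) = -(Real.cos ψ) / 2 +
    Real.sqrt 3 / 2 * Real.sin ψ ∧ Real.sin (ψ + off 1) = -(Real.sin ψ) / 2 -
    Real.sqrt 3 / 2 * Real.cos ψ := by
  have h : off 1 = -(Real.pi - Real.pi / 3) := by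
    simp only [off, Matrix.cons_val_one, Matrix.cons_val_zero]
    ring
  rw [Real.cos_add, Real.sin_add, h, Real.cos_neg, Real.sin_neg, Real.cos_pi_sub,
    Real.sin_pi_sub, Real.cos_pi_div_three, Real.sin_pi_div_three]
  constructor <;> ring

theorem off2 : off 2 = 0 := by simp [off]

/-- algebra at the junction -/
theorem jun_alg {r q s3 p0 p1 p2 h0 h1 h2 k0 k1 k2 : ℝ} (hs : s3 ≠ 0)
    (e0 : h1 - h2 = -(s3 * p0)) (e1 : h2 - h0 = -(s3 * p1)) (e2 : h0 - h1 = -(s3 * p2))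
    (hk : k0 + k1 + k2 = 0) (hh : h0 + h1 + h2 = 0) (ρ : ℝ) :
    -((2 * (r * k0 + h0) * (r ^ 2 * (q - -(k1 - k2) / s3 * k0) - r * k0 * p0) +
          (r * k0 + h0) ^ 2 * p0) * ρ) - r ^ 2 * (-(k1 - k2) / s3 * ((r * k0 + h0) ^ 2 * ρ / r)) +
      (-((2 * (r * k1 + h1) * (r ^ 2 * (q - -(k2 - k0) / s3 * k1) - r * k1 * p1) +
          (r * k1 + h1) ^ 2 * p1) * ρ) -
        r ^ 2 * (-(k2 - k0) / s3 * ((r * k1 + h1) ^ 2 * ρ / r))) +
      (-((2 * (r * k2 + h2) * (r ^ 2 * (q - -(k0 - k1) / s3 * k2) - r * k2 * p2) +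
          (r * k2 + h2) ^ 2 * p2) * ρ) -
        r ^ 2 * (-(k0 - k1) / s3 * ((r * k2 + h2) ^ 2 * ρ / r))) =
    ρ * (-((r * k1 + h1) - (r * k2 + h2)) / s3 * (2 * (r * k0) * (r * k0 + h0) -
        (r * k0 + h0) ^ 2) +
      -((r * k2 + h2) - (r * k0 + h0)) / s3 * (2 * (r * k1) * (r * k1 + h1) -
        (r * k1 + h1) ^ 2) +
      -((r * k0 + h0) - (r * k1 + h1)) / s3 * (2 * (r * k2) * (r * k2 + h2) -
        (r * k2 + h2) ^ 2)) := by
  have f0 : p0 = -(h1 - h2) / s3 := by field_simp; linarith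
  have f1 : p1 = -(h2 - h0) / s3 := by field_simp; linarith
  have f2 : p2 = -(h0 - h1) / s3 := by field_simp; linarith
  have hk2 : k2 = -k0 - k1 := by linarith
  have hh2 : h2 = -h0 - h1 := by linarith
  subst f0 f1 f2 hk2 hh2
  by_cases hr : r = 0
  · subst hr
    field_simp
    ring
  · field_simp
    ring

theorem deriv_zero_of_bound {g v : ℝ → ℝ} {t M : ℝ} (hv : HasDerivAt v 0 t) (hv0 : v t = 0)
    (hg : ∀ᶠ τ in 𝓝 t, |g τ| ≤ M * |v τ|) : HasDerivAt g 0 t := by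
  have hg0 : g t = 0 := by
    have h := hg.self_of_nhds
    rw [hv0, abs_zero, mul_zero] at h
    exact abs_eq_zero.1 (le_antisymm h (abs_nonneg _))
  rw [hasDerivAt_iff_isLittleO] at hv ⊢
  simp only [hv0, hg0, sub_zero, smul_zero] at hv ⊢
  exact (Asymptotics.IsBigO.of_bound M hg).trans_isLittleO hv

/-- Lipschitz dependence on the centre -/
theorem lip (F : Flow a b Lx) (i : Fin 3) {T : ℝ} (hT : b ≤ T) {t : ℝ} (ht : t ∈ Ioo a b)
    (y00 : ℝ) : ∃ M, ∀ᶠ τ in 𝓝 t, ∀ y ∈ Icc (y00 - 1) (y00 + 1), ∀ y' ∈ Icc (y00 - 1) (y00 + 1),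
      |F.ell i τ * (∫ σ in (0:ℝ)..1,
        gf Lx (rr T τ) (F.k i τ σ) (F.X i τ σ) (F.Y i τ σ) y (F.th i τ σ + off i)) -
       F.ell i τ * ∫ σ in (0:ℝ)..1,
        gf Lx (rr T τ) (F.k i τ σ) (F.X i τ σ) (F.Y i τ σ) y' (F.th i τ σ + off i)| ≤
      M * |y - y'| := by
  have hlt : ∀ τ ∈ Ioo a b, τ < T := fun τ hτ => lt_of_lt_of_le hτ.2 hT
  have hrne : ∀ τ ∈ Ioo a b, rr T τ ≠ 0 := fun τ hτ => (rr_pos (hlt τ hτ)).ne'
  have hr1 : ContinuousOn (rr T) (Ioo a b) := fun τ hτ =>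
    (rr_deriv (hlt τ hτ)).continuousAt.continuousWithinAt
  obtain ⟨δ, hδ, hsub⟩ : ∃ δ > 0, Icc (t - δ) (t + δ) ⊆ Ioo a b := by
    refine ⟨min ((t - a) / 2) ((b - t) / 2), lt_min (by linarith [ht.1]) (by linarith [ht.2]), ?_⟩
    intro τ hτ
    have h1 := min_le_left ((t - a) / 2) ((b - t) / 2)
    have h2 := min_le_right ((t - a) / 2) ((b - t) / 2)
    exact ⟨by linarith [hτ.1, ht.1], by linarith [hτ.2, ht.2]⟩
  have hcK : IsCompact (Icc (t - δ) (t + δ) ×ˢ (Icc (0:ℝ) 1 ×ˢ Icc (y00 - 1) (y00 + 1))) :=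
    isCompact_Icc.prod (isCompact_Icc.prod isCompact_Icc)
  have hm2 : MapsTo (fun p : ℝ × ℝ × ℝ => (p.1, p.2.1))
      (Icc (t - δ) (t + δ) ×ˢ (Icc (0:ℝ) 1 ×ˢ Icc (y00 - 1) (y00 + 1)))
      (Ioo a b ×ˢ Icc (0:ℝ) 1) := fun p hp => ⟨hsub hp.1, hp.2.1⟩
  have hpull : ∀ {g : ℝ × ℝ → ℝ}, ContinuousOn g (Ioo a b ×ˢ Icc (0:ℝ) 1) →
      ContinuousOn (fun p : ℝ × ℝ × ℝ => g (p.1, p.2.1))
        (Icc (t - δ) (t + δ) ×ˢ (Icc (0:ℝ) 1 ×ˢ Icc (y00 - 1) (y00 + 1))) := by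
    intro g hg
    exact hg.comp (by fun_prop) hm2
  have hrK : ContinuousOn (fun p : ℝ × ℝ × ℝ => rr T p.1)
      (Icc (t - δ) (t + δ) ×ˢ (Icc (0:ℝ) 1 ×ˢ Icc (y00 - 1) (y00 + 1))) :=
    hr1.comp (by fun_prop) (fun p hp => hsub hp.1)
  have hyK : ContinuousOn (fun p : ℝ × ℝ × ℝ => p.2.2)
      (Icc (t - δ) (t + δ) ×ˢ (Icc (0:ℝ) 1 ×ˢ Icc (y00 - 1) (y00 + 1))) := by fun_prop
  have hkK := hpull (F.k_cont i)
  have hXK := hpull (F.X_cont i)
  have hYK := hpull (F.Y_cont i)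
  have hthK := (hpull (F.th_cont i)).add (continuousOn_const (c := off i))
  have hneK : ∀ p ∈ (Icc (t - δ) (t + δ) ×ˢ (Icc (0:ℝ) 1 ×ˢ Icc (y00 - 1) (y00 + 1)) :
      Set (ℝ × ℝ × ℝ)), rr T p.1 ≠ 0 := fun p hp => hrne _ (hsub hp.1)
  have hcont := gf'_cont (Lx := Lx) hrK hkK hXK hYK hyK hthK
    (continuousOn_const (c := (0:ℝ))) (continuousOn_const (c := (0:ℝ)))
    (continuousOn_const (c := (0:ℝ))) (continuousOn_const (c := (0:ℝ)))
    (continuousOn_const (c := (1:ℝ))) (continuousOn_const (c := (0:ℝ))) hneK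
  obtain ⟨M0, hM0⟩ := hcK.exists_bound_of_continuousOn hcont
  obtain ⟨M1, hM1⟩ := (isCompact_Icc (a := t - δ) (b := t + δ)).exists_bound_of_continuousOn
    (f := F.ell i) (fun τ hτ => (F.ell_t i τ (hsub hτ)).continuousAt.continuousWithinAt)
  refine ⟨M1 * M0, ?_⟩
  have hnb : Icc (t - δ) (t + δ) ∈ 𝓝 t := Icc_mem_nhds (by linarith) (by linarith)
  filter_upwards [hnb] with τ hτ y hy y' hy'
  have hτab := hsub hτ
  have hI : ∀ y1 : ℝ, IntervalIntegrable (fun σ =>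
      gf Lx (rr T τ) (F.k i τ σ) (F.X i τ σ) (F.Y i τ σ) y1 (F.th i τ σ + off i))
      volume 0 1 := by
    intro y1
    have hsl : ∀ {g : ℝ × ℝ → ℝ}, ContinuousOn g (Ioo a b ×ˢ Icc (0:ℝ) 1) →
        ContinuousOn (fun σ => g (τ, σ)) (Icc (0:ℝ) 1) := by
      intro g hg
      exact hg.comp (by fun_prop) (fun σ hσ => ⟨hτab, hσ⟩)
    refine ContinuousOn.intervalIntegrable ?_
    rw [uIcc_of_le zero_le_one]
    exact gf_cont (continuousOn_const (c := rr T τ)) (hsl (F.k_cont i)) (hsl (F.X_cont i))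
      (hsl (F.Y_cont i)) (continuousOn_const (c := y1))
      ((hsl (F.th_cont i)).add (continuousOn_const (c := off i))) (fun _ _ => hrne τ hτab)
  rw [← mul_sub, ← intervalIntegral.integral_sub (hI y) (hI y'), abs_mul, mul_assoc]
  refine mul_le_mul (hM1 τ hτ) ?_ (abs_nonneg _) ((abs_nonneg _).trans (hM1 τ hτ))
  have hb := intervalIntegral.norm_integral_le_of_norm_le_const (a := 0) (b := 1)
    (C := M0 * |y - y'|) (f := fun σ =>
      gf Lx (rr T τ) (F.k i τ σ) (F.X i τ σ) (F.Y i τ σ) y (F.th i τ σ + off i) -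
      gf Lx (rr T τ) (F.k i τ σ) (F.X i τ σ) (F.Y i τ σ) y' (F.th i τ σ + off i)) (by
    intro σ hσ
    have hσ' : σ ∈ Icc (0:ℝ) 1 := by
      rw [uIoc_of_le zero_le_one] at hσ
      exact Ioc_subset_Icc_self hσ
    exact Convex.norm_image_sub_le_of_norm_hasDerivWithin_le
      (f := fun y1 => gf Lx (rr T τ) (F.k i τ σ) (F.X i τ σ) (F.Y i τ σ) y1 (F.th i τ σ + off i))
      (f' := fun y1 => gf' Lx (rr T τ) (F.k i τ σ) (F.X i τ σ) (F.Y i τ σ) y1
        (F.th i τ σ + off i) 0 0 0 0 1 0) (s := Icc (y00 - 1) (y00 + 1))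
      (fun y1 _ => gf_deriv (hasDerivWithinAt_const _ _ _) (hasDerivWithinAt_const _ _ _)
        (hasDerivWithinAt_const _ _ _) (hasDerivWithinAt_const _ _ _)
        (hasDerivWithinAt_id _ _) (hasDerivWithinAt_const _ _ _) (hrne τ hτab))
      (fun y1 hy1 => hM0 (τ, σ, y1) ⟨hτ, hσ', hy1⟩) (convex_Icc _ _) hy' hy)
  simpa using hb

/-- boundary terms at the junction -/
theorem jun_eq (hLx : 0 < Lx) (F : Flow a b Lx) {r : ℝ} (y : ℝ) {t : ℝ}
    (ht : t ∈ Ioo a b) (hXJ : F.X 2 t 0 ≤ Lx / 2) :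
    ∑ i, (-(eB Lx r (F.k i t 0) (F.ks i t 0) (F.X i t 0) (F.Y i t 0) y (F.th i t 0 + off i)) -
      r ^ 2 * (F.mu i t 0 * gf Lx r (F.k i t 0) (F.X i t 0) (F.Y i t 0) y
        (F.th i t 0 + off i))) = (F.raw r y t).jun := by
  obtain ⟨hk, hmu, hks, -, -⟩ := junction_rel F ht
  have hs3 : Real.sqrt 3 ≠ 0 := (Real.sqrt_pos.2 (by norm_num)).ne'
  have hs3' : Real.sqrt 3 ^ 2 = 3 := Real.sq_sqrt (by norm_num)
  have hmu0 : F.mu 0 t 0 = -(F.k 1 t 0 - F.k 2 t 0) / Real.sqrt 3 := hmu 0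
  have hmu1 : F.mu 1 t 0 = -(F.k 2 t 0 - F.k 0 t 0) / Real.sqrt 3 := hmu 1
  have hmu2 : F.mu 2 t 0 = -(F.k 0 t 0 - F.k 1 t 0) / Real.sqrt 3 := hmu 2
  have hks0 : F.ks 0 t 0 = (F.ks 2 t 0 + F.mu 2 t 0 * F.k 2 t 0) -
      -(F.k 1 t 0 - F.k 2 t 0) / Real.sqrt 3 * F.k 0 t 0 := by
    rw [← hmu0]; linarith [hks 0]
  have hks1 : F.ks 1 t 0 = (F.ks 2 t 0 + F.mu 2 t 0 * F.k 2 t 0) -
      -(F.k 2 t 0 - F.k 0 t 0) / Real.sqrt 3 * F.k 1 t 0 := by
    rw [← hmu1]; linarith [hks 1]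
  have hks2 : F.ks 2 t 0 = (F.ks 2 t 0 + F.mu 2 t 0 * F.k 2 t 0) -
      -(F.k 0 t 0 - F.k 1 t 0) / Real.sqrt 3 * F.k 2 t 0 := by
    rw [← hmu2]; ring
  have hX0 := F.X_J 0 t ht
  have hX1 := F.X_J 1 t ht
  have hY0 := F.Y_J 0 t ht
  have hY1 := F.Y_J 1 t ht
  have ht0 := F.th_J 0 t ht
  have ht1 := F.th_J 1 t ht
  have hcut : cut (F.X 2 t 0 / Lx) = 1 := by
    apply cut_one
    rw [div_le_iff₀ hLx]
    linarith
  rw [Fin.sum_univ_three] at hk
  generalize hq : F.ks 2 t 0 + F.mu 2 t 0 * F.k 2 t 0 = q at *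
  have hc0 := cos_off0 (F.th 2 t 0)
  have hc1 := cos_off1 (F.th 2 t 0)
  have e0 : eH r (F.X 2 t 0) (F.Y 2 t 0) y (F.th 2 t 0 + off 1) -
      eH r (F.X 2 t 0) (F.Y 2 t 0) y (F.th 2 t 0 + off 2) =
      -(Real.sqrt 3 * eP r (F.X 2 t 0) (F.Y 2 t 0) y (F.th 2 t 0 + off 0)) := by
    unfold eH eP
    rw [hc0.1, hc0.2, hc1.1, hc1.2, off2, add_zero]
    linear_combination (-((F.X 2 t 0) * Real.sin (F.th 2 t 0)) / 2 / r +
      (F.Y 2 t 0 - y) * Real.cos (F.th 2 t 0) / 2 / r) * hs3'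
  have e1 : eH r (F.X 2 t 0) (F.Y 2 t 0) y (F.th 2 t 0 + off 2) -
      eH r (F.X 2 t 0) (F.Y 2 t 0) y (F.th 2 t 0 + off 0) =
      -(Real.sqrt 3 * eP r (F.X 2 t 0) (F.Y 2 t 0) y (F.th 2 t 0 + off 1)) := by
    unfold eH eP
    rw [hc0.1, hc0.2, hc1.1, hc1.2, off2, add_zero]
    linear_combination (((F.X 2 t 0) * Real.sin (F.th 2 t 0)) / 2 / r -
      (F.Y 2 t 0 - y) * Real.cos (F.th 2 t 0) / 2 / r) * hs3'
  have e2 : eH r (F.X 2 t 0) (F.Y 2 t 0) y (F.th 2 t 0 + off 0) -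
      eH r (F.X 2 t 0) (F.Y 2 t 0) y (F.th 2 t 0 + off 1) =
      -(Real.sqrt 3 * eP r (F.X 2 t 0) (F.Y 2 t 0) y (F.th 2 t 0 + off 2)) := by
    unfold eH eP
    rw [hc0.1, hc0.2, hc1.1, hc1.2, off2, add_zero]
    ring
  have hh : eH r (F.X 2 t 0) (F.Y 2 t 0) y (F.th 2 t 0 + off 0) +
      eH r (F.X 2 t 0) (F.Y 2 t 0) y (F.th 2 t 0 + off 1) +
      eH r (F.X 2 t 0) (F.Y 2 t 0) y (F.th 2 t 0 + off 2) = 0 := by
    unfold eH
    rw [hc0.1, hc0.2, hc1.1, hc1.2, off2, add_zero]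
    ring
  have key := jun_alg (r := r) (q := q) hs3 e0 e1 e2 hk hh
    (Real.exp (eE r (F.X 2 t 0) (F.Y 2 t 0) y))
  have hS0 : (F.raw r y t).S 0 0 = r * F.k 0 t 0 +
      eH r (F.X 2 t 0) (F.Y 2 t 0) y (F.th 2 t 0 + off 0) := by
    rw [raw_S, hX0, hY0, ht0]; rfl
  have hS1 : (F.raw r y t).S 1 0 = r * F.k 1 t 0 +
      eH r (F.X 2 t 0) (F.Y 2 t 0) y (F.th 2 t 0 + off 1) := by
    rw [raw_S, hX1, hY1, ht1]; rfl
  have hS2 : (F.raw r y t).S 2 0 = r * F.k 2 t 0 +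
      eH r (F.X 2 t 0) (F.Y 2 t 0) y (F.th 2 t 0 + off 2) := by
    rw [raw_S]; rfl
  have hT0 : (F.raw r y t).T 0 = -((F.raw r y t).S 1 0 - (F.raw r y t).S 2 0) / Real.sqrt 3 := rfl
  have hT1 : (F.raw r y t).T 1 = -((F.raw r y t).S 2 0 - (F.raw r y t).S 0 0) / Real.sqrt 3 := rfl
  have hT2 : (F.raw r y t).T 2 = -((F.raw r y t).S 0 0 - (F.raw r y t).S 1 0) / Real.sqrt 3 := rfl
  have hj : (F.raw r y t).jun = Real.exp (eE r (F.X 2 t 0) (F.Y 2 t 0) y) *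
      ((F.raw r y t).T 0 * (2 * (r * F.k 0 t 0) * (F.raw r y t).S 0 0 - (F.raw r y t).S 0 0 ^ 2) +
       (F.raw r y t).T 1 * (2 * (r * F.k 1 t 0) * (F.raw r y t).S 1 0 - (F.raw r y t).S 1 0 ^ 2) +
       (F.raw r y t).T 2 * (2 * (r * F.k 2 t 0) * (F.raw r y t).S 2 0 - (F.raw r y t).S 2 0 ^ 2)) := by
    unfold Raw.jun
    rw [Fin.sum_univ_three]
    rfl
  rw [hj, hT0, hT1, hT2, hS0, hS1, hS2, ← key, Fin.sum_univ_three, hX0, hX1, hY0, hY1, ht0, ht1]
  unfold eB gf eSs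
  rw [hcut, mul_one, hks0, hks1]
  conv_lhs => rw [hks2]
  rw [hmu0, hmu1, hmu2]
  rfl

theorem eB_end (hLx : 0 < Lx) (F : Flow a b Lx) {r : ℝ} (y : ℝ) {t : ℝ}
    (ht : t ∈ Ioo a b) (i : Fin 3) :
    eB Lx r (F.k i t 1) (F.ks i t 1) (F.X i t 1) (F.Y i t 1) y (F.th i t 1 + off i) = 0 := by
  obtain ⟨-, -, -, hk0, hk1⟩ := junction_rel F ht
  have hz : ∀ k Y θ : ℝ, Real.sin θ = 0 → eB Lx r k 0 0 Y y θ = 0 := by
    intro k Y θ h
    unfold eB eSs eP
    rw [h]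
    ring
  fin_cases i
  · show eB Lx r (F.k 0 t 1) (F.ks 0 t 1) (F.X 0 t 1) (F.Y 0 t 1) y (F.th 0 t 1 + off 0) = 0
    rw [hk0, F.X_axis0 t ht, F.th_axis0 t ht]
    apply hz
    have h : Real.pi / 3 + off 0 = Real.pi := by
      simp only [off, Matrix.cons_val_zero]
      ring
    rw [h, Real.sin_pi]
  · show eB Lx r (F.k 1 t 1) (F.ks 1 t 1) (F.X 1 t 1) (F.Y 1 t 1) y (F.th 1 t 1 + off 1) = 0
    rw [hk1, F.X_axis1 t ht, F.th_axis1 t ht]
    apply hz
    have h : -(Real.pi / 3) + off 1 = -Real.pi := by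
      simp only [off, Matrix.cons_val_one, Matrix.cons_val_zero]
      ring
    rw [h, Real.sin_neg, Real.sin_pi, neg_zero]
  · show eB Lx r (F.k 2 t 1) (F.ks 2 t 1) (F.X 2 t 1) (F.Y 2 t 1) y (F.th 2 t 1 + off 2) = 0
    unfold eB
    rw [F.X_far t ht, div_self hLx.ne', cut_zero (by norm_num)]
    ring

/-- the derivative with a linearly moving centre -/
theorem main_lin (hLx : 0 < Lx) (F : Flow a b Lx) {T K y00 c : ℝ} (hT : b ≤ T) {t : ℝ}
    (ht : t ∈ Ioo a b) (hXJ : F.X 2 t 0 ≤ Lx / 2)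
    (hc : c = K * (F.raw (rr T t) y00 t).m (Lx / rr T t) / rr T t) :
    HasDerivAt (fun τ => ∑ i, F.ell i τ * ∫ σ in (0:ℝ)..1,
        gf Lx (rr T τ) (F.k i τ σ) (F.X i τ σ) (F.Y i τ σ) (y00 + c * (τ - t)) (F.th i τ σ + off i))
      ((F.raw (rr T t) y00 t).rhs (Lx / rr T t) K / rr T t ^ 2) t := by
  have hlt : t < T := lt_of_lt_of_le ht.2 hT
  have hr : rr T t ≠ 0 := (rr_pos hlt).ne'
  have h1 := HasDerivAt.fun_sum (u := Finset.univ) (fun i _ => edge_deriv F i (c := c) (y00 := y00)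
    hT ht)
  refine h1.congr_deriv ?_
  have hj := jun_eq hLx F (r := rr T t) y00 ht hXJ
  simp only [eB_end hLx F y00 ht, bulk_int F hr y00 c ht, zero_sub]
  generalize rr T t = r at *
  have hrc : r * c = K * (F.raw r y00 t).m (Lx / r) := by
    rw [hc]; field_simp
  have e : ∀ u v w z : ℝ, 1 / r ^ 2 * (u + -v) - w * z = 1 / r ^ 2 * (u + (-v - r ^ 2 * (w * z))) := by
    intro u v w z
    field_simp
    ring
  simp only [e]
  rw [← Finset.mul_sum, Finset.sum_add_distrib, hj, hrc, Finset.sum_add_distrib,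
    Finset.sum_add_distrib, Finset.sum_sub_distrib, Finset.sum_sub_distrib, ← Finset.mul_sum,
    ← Finset.mul_sum, ← Finset.mul_sum]
  unfold Raw.rhs Raw.far
  have hm : (F.raw r y00 t).m (Lx / r) = ∑ i, (F.raw r y00 t).I i (fun σ =>
    (F.raw r y00 t).S i σ * Real.cos ((F.raw r y00 t).ang i σ) *
      (F.raw r y00 t).w (Lx / r) i σ) := rfl
  rw [← hm]
  ring

end T2

/-- T2 : evolution of the weighted L² norm of `S` -/
theorem D_deriv (hLx : 0 < Lx) (F : Flow a b Lx) {T K : ℝ} (hT : b ≤ T) {y0 : ℝ → ℝ} {t : ℝ}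
    (ht : t ∈ Ioo a b) (hXJ : F.X 2 t 0 ≤ Lx / 2)
    (hy : HasDerivAt y0 (K * (F.raw (rr T t) (y0 t) t).m (Lx / rr T t) / rr T t) t) :
    HasDerivAt (fun τ => (F.raw (rr T τ) (y0 τ) τ).D (Lx / rr T τ))
      ((F.raw (rr T t) (y0 t) t).rhs (Lx / rr T t) K / rr T t ^ 2) t := by
  obtain ⟨c, hc⟩ : ∃ c, c = K * (F.raw (rr T t) (y0 t) t).m (Lx / rr T t) / rr T t := ⟨_, rfl⟩
  have h1 := T2.main_lin hLx F hT ht hXJ hc
  rw [← hc] at hy
  have hlt : ∀ τ ∈ Ioo a b, τ < T := fun τ hτ => lt_of_lt_of_le hτ.2 hT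
  have hnb : Ioo a b ∈ 𝓝 t := Ioo_mem_nhds ht.1 ht.2
  -- the difference
  have hv : HasDerivAt (fun τ => y0 τ - (y0 t + c * (τ - t))) 0 t := by
    have h2 : HasDerivAt (fun v : ℝ => y0 t + c * (v - t)) c t := by
      have := (((hasDerivAt_id t).sub_const t).const_mul c).const_add (y0 t)
      simpa using this
    have h3 := hy.sub h2
    rw [sub_self] at h3
    exact h3
  choose M hM using fun i => T2.lip F i hT ht (y0 t)
  have hdiff : HasDerivAt (fun τ => (∑ i, F.ell i τ * ∫ σ in (0:ℝ)..1,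
        T2.gf Lx (rr T τ) (F.k i τ σ) (F.X i τ σ) (F.Y i τ σ) (y0 τ) (F.th i τ σ + off i)) -
      ∑ i, F.ell i τ * ∫ σ in (0:ℝ)..1,
        T2.gf Lx (rr T τ) (F.k i τ σ) (F.X i τ σ) (F.Y i τ σ) (y0 t + c * (τ - t))
          (F.th i τ σ + off i)) 0 t := by
    refine T2.deriv_zero_of_bound (M := ∑ i, M i) hv (by simp) ?_
    have hy0 : ∀ᶠ τ in 𝓝 t, y0 τ ∈ Icc (y0 t - 1) (y0 t + 1) :=
      hy.continuousAt.eventually (Icc_mem_nhds (by linarith) (by linarith))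
    have hy1 : ∀ᶠ τ in 𝓝 t, y0 t + c * (τ - t) ∈ Icc (y0 t - 1) (y0 t + 1) := by
      have hcn : ContinuousAt (fun τ : ℝ => y0 t + c * (τ - t)) t := by fun_prop
      refine hcn.eventually ?_
      simp only [sub_self, mul_zero, add_zero]
      exact Icc_mem_nhds (by linarith) (by linarith)
    filter_upwards [hy0, hy1, eventually_all.2 hM] with τ h3 h4 h5
    rw [← Finset.sum_sub_distrib, Finset.sum_mul]
    exact (Finset.abs_sum_le_sum_abs _ _).trans (Finset.sum_le_sum fun i _ => h5 i _ h3 _ h4)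
  have h6 := hdiff.add h1
  rw [zero_add] at h6
  refine h6.congr_of_eventuallyEq ?_
  filter_upwards [hnb] with τ hτ
  rw [T2.raw_D F (T2.rr_pos (hlt τ hτ)).ne']
  simp

end

end Pool.Agent.Helper15.NF
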