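import Pool.Agent.Helper15.NF.T1
import Pool.Agent.Helper15.NF.DDefs

open Set MeasureTheory intervalIntegral Filter Topology

namespace Pool.Agent.Helper15.NF

variable {a b Lx : ℝ}

private theorem T3b_slice {f : ℝ → ℝ → ℝ}
    (hf : ContinuousOn (fun p : ℝ × ℝ => f p.1 p.2) (Ioo a b ×ˢ Icc 0 1)) {t : ℝ}
    (ht : t ∈ Ioo a b) : ContinuousOn (f t) (Icc 0 1) := by
  have h1 : ContinuousOn (fun σ : ℝ => ((t, σ) : ℝ × ℝ)) (Icc 0 1) := by fun_prop
  exact hf.comp h1 (fun σ hσ => ⟨ht, hσ⟩)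

/-- fundamental theorem of calculus on [0,1] -/
theorem T3b_ftc {f f' : ℝ → ℝ}
    (hf : ∀ σ ∈ Icc (0:ℝ) 1, HasDerivWithinAt f (f' σ) (Icc 0 1) σ)
    (hf' : ContinuousOn f' (Icc 0 1)) : ∫ σ in (0:ℝ)..1, f' σ = f 1 - f 0 := by
  apply intervalIntegral.integral_eq_sub_of_hasDerivAt_of_le zero_le_one
  · exact fun σ hσ => (hf σ hσ).continuousWithinAt
  · intro σ hσ
    exact (hf σ (Ioo_subset_Icc_self hσ)).hasDerivAt (Icc_mem_nhds hσ.1 hσ.2)
  · apply ContinuousOn.intervalIntegrable
    rwa [uIcc_of_le zero_le_one]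

/-- integral of `S` over an edge -/
theorem T3b_int (F : Flow a b Lx) {r : ℝ} (hr : 0 < r) {t : ℝ} (ht : t ∈ Ioo a b) (y0 : ℝ)
    (i : Fin 3) : (F.raw r y0 t).I i ((F.raw r y0 t).S i) =
      (F.th i t 1 - F.th i t 0) - (F.X i t 1 * (F.Y i t 1 - y0) - F.X i t 0 * (F.Y i t 0 - y0)) / r ^ 2
      - 2 * y0 * (F.X i t 1 - F.X i t 0) / r ^ 2
      + 2 * (F.ell i t * ∫ σ in (0:ℝ)..1, F.Y i t σ * Real.cos (F.th i t σ + off i)) / r ^ 2 := by
  have hl := (F.ell_pos i t ht).ne'
  have hr' := hr.ne'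
  have hk := T3b_slice (F.k_cont i) ht
  have hX := T3b_slice (F.X_cont i) ht
  have hY := T3b_slice (F.Y_cont i) ht
  have hth := T3b_slice (F.th_cont i) ht
  have hc : ContinuousOn (fun σ => Real.cos (F.th i t σ + off i)) (Icc 0 1) :=
    Real.continuous_cos.comp_continuousOn (hth.add continuousOn_const)
  have hs : ContinuousOn (fun σ => Real.sin (F.th i t σ + off i)) (Icc 0 1) :=
    Real.continuous_sin.comp_continuousOn (hth.add continuousOn_const)
  have hI : IntervalIntegrable (fun σ => F.Y i t σ * Real.cos (F.th i t σ + off i))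
      volume 0 1 := by
    apply ContinuousOn.intervalIntegrable
    rw [uIcc_of_le zero_le_one]
    exact hY.mul hc
  have hcont : ContinuousOn (fun σ => F.ell i t * F.k i t σ -
      ((F.ell i t * Real.cos (F.th i t σ + off i)) * (F.Y i t σ - y0) +
        F.X i t σ * (F.ell i t * Real.sin (F.th i t σ + off i))) / r ^ 2
      - 2 * y0 * (F.ell i t * Real.cos (F.th i t σ + off i)) / r ^ 2) (Icc 0 1) := by
    fun_prop (disch := assumption)
  have key := T3b_ftc (f := fun σ => F.th i t σ - (F.X i t σ * (F.Y i t σ - y0)) / r ^ 2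
      - 2 * y0 * F.X i t σ / r ^ 2)
    (f' := fun σ => F.ell i t * F.k i t σ -
      ((F.ell i t * Real.cos (F.th i t σ + off i)) * (F.Y i t σ - y0) +
        F.X i t σ * (F.ell i t * Real.sin (F.th i t σ + off i))) / r ^ 2
      - 2 * y0 * (F.ell i t * Real.cos (F.th i t σ + off i)) / r ^ 2)
    (by
      intro σ hσ
      exact (((F.th_s i t ht σ hσ).sub (((F.X_s i t ht σ hσ).mul
        ((F.Y_s i t ht σ hσ).sub_const y0)).div_const (r ^ 2)))).sub
          (((F.X_s i t ht σ hσ).const_mul (2 * y0)).div_const (r ^ 2)))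
    hcont
  have hI2 : IntervalIntegrable (fun σ => F.ell i t * F.k i t σ -
      ((F.ell i t * Real.cos (F.th i t σ + off i)) * (F.Y i t σ - y0) +
        F.X i t σ * (F.ell i t * Real.sin (F.th i t σ + off i))) / r ^ 2
      - 2 * y0 * (F.ell i t * Real.cos (F.th i t σ + off i)) / r ^ 2) volume 0 1 := by
    apply ContinuousOn.intervalIntegrable
    rwa [uIcc_of_le zero_le_one]
  have hmain : (F.raw r y0 t).I i ((F.raw r y0 t).S i) =
      (∫ σ in (0:ℝ)..1, (F.ell i t * F.k i t σ -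
      ((F.ell i t * Real.cos (F.th i t σ + off i)) * (F.Y i t σ - y0) +
        F.X i t σ * (F.ell i t * Real.sin (F.th i t σ + off i))) / r ^ 2
      - 2 * y0 * (F.ell i t * Real.cos (F.th i t σ + off i)) / r ^ 2)) +
      2 * F.ell i t / r ^ 2 * ∫ σ in (0:ℝ)..1, F.Y i t σ * Real.cos (F.th i t σ + off i) := by
    rw [← intervalIntegral.integral_const_mul, ← intervalIntegral.integral_add hI2
      (hI.const_mul _)]
    unfold Raw.I
    rw [← intervalIntegral.integral_const_mul]
    congr 1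
    ext σ
    simp only [Raw.S, Raw.h, Raw.ang, Flow.raw]
    field_simp
    ring
  rw [hmain, key]
  field_simp
  ring

/-- T3b : a flow with the right area gives admissible static configurations -/
theorem raw_isCfg (F : Flow a b Lx) {T : ℝ} (hT : b ≤ T) {t : ℝ} (ht : t ∈ Ioo a b)
    (hA : F.area t = 2 * Real.pi / 3 * (T - t)) (y0 : ℝ) :
    IsCfg (Lx / rr T t) (F.raw (rr T t) y0 t) := by
  have hTt : 0 < T - t := by linarith [ht.2]
  have hr : 0 < rr T t := Real.sqrt_pos.2 (by linarith)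
  have hr2 : rr T t ^ 2 = 2 * (T - t) := Real.sq_sqrt (by linarith)
  set r := rr T t with hrdef
  have hr' := hr.ne'
  refine ⟨?_, ?_, ?_, ?_, ?_, ?_, ?_, ?_, ?_, ?_, ?_, ?_, ?_, ?_, ?_, ?_, ?_, ?_⟩
  · intro i
    exact div_pos (F.ell_pos i t ht) hr
  · intro i σ hσ
    have h1 := (F.X_s i t ht σ hσ).div_const r
    refine h1.congr_deriv ?_
    simp only [Raw.ang, Flow.raw]
    ring
  · intro i σ hσ
    have h1 := ((F.Y_s i t ht σ hσ).sub_const y0).div_const r
    refine h1.congr_deriv ?_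
    simp only [Raw.ang, Flow.raw]
    ring
  · intro i σ hσ
    refine (F.th_s i t ht σ hσ).congr_deriv ?_
    simp only [Flow.raw]
    field_simp
  · intro i σ hσ
    have hx := (F.X_s i t ht σ hσ).div_const r
    have hy := ((F.Y_s i t ht σ hσ).sub_const y0).div_const r
    have ha := (F.th_s i t ht σ hσ).add_const (off i)
    have hk := (F.k_s i t ht σ hσ).const_mul r
    have h1 := hk.add ((hx.mul ha.sin).neg.add (hy.mul ha.cos))
    refine (HasDerivWithinAt.congr_deriv (f := (F.raw r y0 t).S i) h1 ?_)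
    simp only [Flow.raw]
    field_simp
    ring
  · intro i
    exact (T3b_slice (F.k_cont i) ht).const_smul r
  · intro i
    have hk := T3b_slice (F.k_cont i) ht
    have hks := T3b_slice (F.ks_cont i) ht
    have hX := T3b_slice (F.X_cont i) ht
    have hY := T3b_slice (F.Y_cont i) ht
    have hth := T3b_slice (F.th_cont i) ht
    have hc : ContinuousOn (fun σ => Real.cos (F.th i t σ + off i)) (Icc 0 1) :=
      Real.continuous_cos.comp_continuousOn (hth.add continuousOn_const)
    have hs : ContinuousOn (fun σ => Real.sin (F.th i t σ + off i)) (Icc 0 1) :=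
      Real.continuous_sin.comp_continuousOn (hth.add continuousOn_const)
    change ContinuousOn (fun σ => r ^ 2 * F.ks i t σ - r * F.k i t σ *
      (F.X i t σ / r * Real.cos (F.th i t σ + off i) +
        (F.Y i t σ - y0) / r * Real.sin (F.th i t σ + off i))) (Icc 0 1)
    fun_prop (disch := assumption)
  · intro i
    exact F.th_J i t ht
  · intro i
    simp only [Flow.raw]
    rw [F.X_J i t ht]
  · intro i
    simp only [Flow.raw]
    rw [F.Y_J i t ht]
  · simp only [Flow.raw]
    rw [← Finset.mul_sum, (junction_rel F ht).1, mul_zero]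
  · exact F.th_axis0 t ht
  · exact F.th_axis1 t ht
  · simp only [Flow.raw]
    rw [F.X_axis0 t ht, zero_div]
  · simp only [Flow.raw]
    rw [F.X_axis1 t ht, zero_div]
  · simp only [Flow.raw]
    rw [F.X_far t ht]
  · simp only [Flow.raw]
    rw [F.k_far t ht, mul_zero]
  · rw [T3b_int F hr ht y0 0, T3b_int F hr ht y0 1, F.X_axis0 t ht, F.X_axis1 t ht,
      F.X_J 0 t ht, F.X_J 1 t ht, F.Y_J 0 t ht, F.Y_J 1 t ht, F.th_J 0 t ht, F.th_J 1 t ht,
      F.th_axis0 t ht, F.th_axis1 t ht, hr2]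
    unfold Flow.area at hA
    have hne : (2 * (T - t)) ≠ 0 := by linarith
    have hA' : (F.ell 0 t * ∫ σ in (0:ℝ)..1, F.Y 0 t σ * Real.cos (F.th 0 t σ + off 0)) =
      (F.ell 1 t * ∫ σ in (0:ℝ)..1, F.Y 1 t σ * Real.cos (F.th 1 t σ + off 1)) -
      2 * Real.pi / 3 * (T - t) := by linarith
    rw [hA']
    field_simp
    ring

end Pool.Agent.Helper15.NF
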