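import Pool.Agent.Helper15.NF.T1
import Pool.Agent.Helper15.NF.T2a
import Pool.Agent.Helper15.NF.U0
import Pool.Agent.Helper15.NF.DDefs

open Set MeasureTheory intervalIntegral Filter Topology

namespace Pool.Agent.Helper15.NF

variable {a b Lx : ℝ}

namespace T5

/-- auxiliary cut-off: 0 on (-∞,1/8], 1 on [1/4,∞) -/
noncomputable def psi (z : ℝ) : ℝ := Real.smoothTransition (8 * z - 1)

theorem psi_contDiff : ContDiff ℝ 2 psi := by
  have h : ContDiff ℝ 2 Real.smoothTransition := Real.smoothTransition.contDiff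
  exact h.comp (by fun_prop)

theorem psi_zero {z : ℝ} (h : z ≤ 1 / 8) : psi z = 0 :=
  Real.smoothTransition.zero_of_nonpos (by linarith)

theorem psi_one {z : ℝ} (h : 1 / 4 ≤ z) : psi z = 1 :=
  Real.smoothTransition.one_of_one_le (by linarith)

theorem psi_hasDerivAt (z : ℝ) : HasDerivAt psi (deriv psi z) z :=
  (psi_contDiff.differentiable (by norm_num) z).hasDerivAt

theorem psi_deriv_cont : Continuous (deriv psi) := psi_contDiff.continuous_deriv (by norm_num)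

theorem psi_deriv_bound : ∃ C > 0, ∀ z, |deriv psi z| ≤ C := by
  obtain ⟨C, hC⟩ := (isCompact_Icc (a := (0:ℝ)) (b := 1)).exists_bound_of_continuousOn
    psi_deriv_cont.continuousOn
  refine ⟨max C 1, by positivity, fun z => ?_⟩
  by_cases h : z ∈ Icc (0:ℝ) 1
  · exact (hC z h).trans (le_max_left _ _)
  · have h0 : deriv psi z = 0 := by
      rcases not_and_or.mp h with h1 | h1
      · have h2 : psi =ᶠ[𝓝 z] fun _ => 0 := by
          filter_upwards [eventually_lt_nhds (not_le.mp h1)] with y hy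
          exact psi_zero (by linarith)
        rw [h2.deriv_eq, deriv_const]
      · have h2 : psi =ᶠ[𝓝 z] fun _ => 1 := by
          filter_upwards [eventually_gt_nhds (not_le.mp h1)] with y hy
          exact psi_one (by linarith)
        rw [h2.deriv_eq, deriv_const]
    rw [h0, abs_zero]
    positivity

theorem psi_nonneg (z : ℝ) : 0 ≤ psi z := Real.smoothTransition.nonneg _

theorem psi_le_one (z : ℝ) : psi z ≤ 1 := Real.smoothTransition.le_one _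

/-- pointwise inequality for the curvature -/
theorem pt1 {k ks p p' θ s c : ℝ} (hθ : |θ| ≤ 0.1) (hs : |s| ≤ 0.1) (hc : |c| ≤ 1) :
    (-2 * ks ^ 2 * p ^ 2 - 4 * k * ks * p * p' * c + k ^ 4 * p ^ 2 - 2 * k ^ 3 * p * p' * s)
      - 2 * (k ^ 4 * p ^ 2 + 3 * θ * k ^ 2 * ks * p ^ 2 + 2 * θ * k ^ 3 * p * p' * c) ≤
      5 * (k ^ 2 * p' ^ 2) := by
  have e1 : -4 * k * ks * p * p' * c ≤ (ks * p) ^ 2 + 4 * (k * p') ^ 2 := by
    have h1 : -4 * k * ks * p * p' * c = -(4 * ((ks * p) * (k * p')) * c) := by ring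
    have h2 : |4 * ((ks * p) * (k * p')) * c| ≤ 4 * |(ks * p) * (k * p')| := by
      rw [abs_mul, abs_mul, abs_of_pos (by norm_num : (0:ℝ) < 4)]
      have := mul_le_mul_of_nonneg_left hc (by positivity : 0 ≤ 4 * |(ks * p) * (k * p')|)
      linarith
    have h3 : 4 * |(ks * p) * (k * p')| ≤ (ks * p) ^ 2 + 4 * (k * p') ^ 2 := by
      rw [abs_mul]
      have := sq_nonneg (|ks * p| - 2 * |k * p'|)
      have h4 := sq_abs (ks * p)
      have h5 := sq_abs (k * p')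
      nlinarith
    have := neg_abs_le (4 * ((ks * p) * (k * p')) * c)
    linarith
  have e2 : -2 * k ^ 3 * p * p' * s ≤ 0.1 * ((k ^ 2 * p) ^ 2 + (k * p') ^ 2) := by
    have h1 : -2 * k ^ 3 * p * p' * s = -(2 * ((k ^ 2 * p) * (k * p')) * s) := by ring
    have h2 : |2 * ((k ^ 2 * p) * (k * p')) * s| ≤ 2 * |(k ^ 2 * p) * (k * p')| * 0.1 := by
      rw [abs_mul, abs_mul, abs_of_pos (by norm_num : (0:ℝ) < 2)]
      exact mul_le_mul_of_nonneg_left hs (by positivity)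
    have h3 : 2 * |(k ^ 2 * p) * (k * p')| ≤ (k ^ 2 * p) ^ 2 + (k * p') ^ 2 := by
      rw [abs_mul]
      have := sq_nonneg (|k ^ 2 * p| - |k * p'|)
      have h4 := sq_abs (k ^ 2 * p)
      have h5 := sq_abs (k * p')
      nlinarith
    have := neg_abs_le (2 * ((k ^ 2 * p) * (k * p')) * s)
    linarith
  have e3 : -(6 * θ * k ^ 2 * ks * p ^ 2) ≤ 0.3 * ((k ^ 2 * p) ^ 2 + (ks * p) ^ 2) := by
    have h1 : 6 * θ * k ^ 2 * ks * p ^ 2 = 6 * ((k ^ 2 * p) * (ks * p)) * θ := by ring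
    have h2 : |6 * ((k ^ 2 * p) * (ks * p)) * θ| ≤ 6 * |(k ^ 2 * p) * (ks * p)| * 0.1 := by
      rw [abs_mul, abs_mul, abs_of_pos (by norm_num : (0:ℝ) < 6)]
      exact mul_le_mul_of_nonneg_left hθ (by positivity)
    have h3 : 2 * |(k ^ 2 * p) * (ks * p)| ≤ (k ^ 2 * p) ^ 2 + (ks * p) ^ 2 := by
      rw [abs_mul]
      have := sq_nonneg (|k ^ 2 * p| - |ks * p|)
      have h4 := sq_abs (k ^ 2 * p)
      have h5 := sq_abs (ks * p)
      nlinarith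
    have := neg_abs_le (6 * ((k ^ 2 * p) * (ks * p)) * θ)
    rw [h1]
    linarith
  have e4 : -(4 * θ * k ^ 3 * p * p' * c) ≤ 0.2 * ((k ^ 2 * p) ^ 2 + (k * p') ^ 2) := by
    have h1 : 4 * θ * k ^ 3 * p * p' * c = 4 * ((k ^ 2 * p) * (k * p')) * (θ * c) := by ring
    have hθc : |θ * c| ≤ 0.1 := by
      rw [abs_mul]
      calc |θ| * |c| ≤ 0.1 * 1 := mul_le_mul hθ hc (abs_nonneg _) (by norm_num)
        _ = 0.1 := by norm_num
    have h2 : |4 * ((k ^ 2 * p) * (k * p')) * (θ * c)| ≤ 4 * |(k ^ 2 * p) * (k * p')| * 0.1 := by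
      rw [abs_mul, abs_mul, abs_of_pos (by norm_num : (0:ℝ) < 4)]
      exact mul_le_mul_of_nonneg_left hθc (by positivity)
    have h3 : 2 * |(k ^ 2 * p) * (k * p')| ≤ (k ^ 2 * p) ^ 2 + (k * p') ^ 2 := by
      rw [abs_mul]
      have := sq_nonneg (|k ^ 2 * p| - |k * p'|)
      have h4 := sq_abs (k ^ 2 * p)
      have h5 := sq_abs (k * p')
      nlinarith
    have := neg_abs_le (4 * ((k ^ 2 * p) * (k * p')) * (θ * c))
    rw [h1]
    linarith
  have f1 : 0 ≤ (k ^ 2 * p) ^ 2 := sq_nonneg _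
  have f2 : 0 ≤ (ks * p) ^ 2 := sq_nonneg _
  have f3 : 0 ≤ (k * p') ^ 2 := sq_nonneg _
  have g1 : (k ^ 2 * p) ^ 2 = k ^ 4 * p ^ 2 := by ring
  have g2 : (ks * p) ^ 2 = ks ^ 2 * p ^ 2 := by ring
  have g3 : (k * p') ^ 2 = k ^ 2 * p' ^ 2 := by ring
  rw [g1] at e2 e3 e4 f1
  rw [g2] at e1 e3 f2
  rw [g3] at e1 e2 e4 f3
  nlinarith

/-- pointwise inequality for the angle -/
theorem pt2 {k p p' θ s c : ℝ} (hθ : |θ| ≤ 0.1) (hs : |s| ≤ 0.1) (hc : |c| ≤ 1) :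
    -2 * k ^ 2 * p ^ 2 - 4 * θ * k * p * p' * c - 2 * θ ^ 2 * p * p' * k * s
      - k ^ 2 * θ ^ 2 * p ^ 2 ≤ -(k ^ 2 * p ^ 2) + p' ^ 2 := by
  have e1 : -(4 * θ * k * p * p' * c) ≤ 0.2 * ((k * p) ^ 2 + p' ^ 2) := by
    have h1 : 4 * θ * k * p * p' * c = 4 * ((k * p) * p') * (θ * c) := by ring
    have hθc : |θ * c| ≤ 0.1 := by
      rw [abs_mul]
      calc |θ| * |c| ≤ 0.1 * 1 := mul_le_mul hθ hc (abs_nonneg _) (by norm_num)
        _ = 0.1 := by norm_num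
    have h2 : |4 * ((k * p) * p') * (θ * c)| ≤ 4 * |(k * p) * p'| * 0.1 := by
      rw [abs_mul, abs_mul, abs_of_pos (by norm_num : (0:ℝ) < 4)]
      exact mul_le_mul_of_nonneg_left hθc (by positivity)
    have h3 : 2 * |(k * p) * p'| ≤ (k * p) ^ 2 + p' ^ 2 := by
      rw [abs_mul]
      have := sq_nonneg (|k * p| - |p'|)
      have h4 := sq_abs (k * p)
      have h5 := sq_abs p'
      nlinarith
    have := neg_abs_le (4 * ((k * p) * p') * (θ * c))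
    rw [h1]
    linarith
  have e2 : -(2 * θ ^ 2 * p * p' * k * s) ≤ 0.1 * ((k * p) ^ 2 + p' ^ 2) := by
    have h1 : 2 * θ ^ 2 * p * p' * k * s = 2 * ((k * p) * p') * (θ ^ 2 * s) := by ring
    have hθs : |θ ^ 2 * s| ≤ 0.1 := by
      rw [abs_mul, abs_pow]
      have h1 : |θ| ^ 2 ≤ 1 := by nlinarith [abs_nonneg θ]
      calc |θ| ^ 2 * |s| ≤ 1 * 0.1 := mul_le_mul h1 hs (abs_nonneg _) (by norm_num)
        _ = 0.1 := by norm_num
    have h2 : |2 * ((k * p) * p') * (θ ^ 2 * s)| ≤ 2 * |(k * p) * p'| * 0.1 := by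
      rw [abs_mul, abs_mul, abs_of_pos (by norm_num : (0:ℝ) < 2)]
      exact mul_le_mul_of_nonneg_left hθs (by positivity)
    have h3 : 2 * |(k * p) * p'| ≤ (k * p) ^ 2 + p' ^ 2 := by
      rw [abs_mul]
      have := sq_nonneg (|k * p| - |p'|)
      have h4 := sq_abs (k * p)
      have h5 := sq_abs p'
      nlinarith
    have := neg_abs_le (2 * ((k * p) * p') * (θ ^ 2 * s))
    rw [h1]
    linarith
  have f1 : 0 ≤ (k * p) ^ 2 := sq_nonneg _
  have f2 : 0 ≤ k ^ 2 * θ ^ 2 * p ^ 2 := by positivity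
  have f3 : 0 ≤ p' ^ 2 := sq_nonneg _
  have g1 : (k * p) ^ 2 = k ^ 2 * p ^ 2 := by ring
  rw [g1] at e1 e2 f1
  nlinarith

section

variable (F : Flow a b Lx) {q q' : ℝ → ℝ} (hq : ∀ x, HasDerivAt q (q' x) x) (hq' : Continuous q')

include hq in
theorem q_cont : Continuous q := continuous_iff_continuousAt.mpr fun x => (hq x).continuousAt

include hq hq'

theorem derivA {t : ℝ} (htt : t ∈ Ioo a b) (hJ : q (F.X 2 t 0) = 0) :
    HasDerivAt (fun τ => F.ell 2 τ * ∫ σ in (0:ℝ)..1, F.k 2 τ σ ^ 2 * q (F.X 2 τ σ) ^ 2)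
      (F.ell 2 t * ∫ σ in (0:ℝ)..1, (-2 * F.ks 2 t σ ^ 2 * q (F.X 2 t σ) ^ 2
        - 4 * F.k 2 t σ * F.ks 2 t σ * q (F.X 2 t σ) * q' (F.X 2 t σ) * Real.cos (F.th 2 t σ)
        + F.k 2 t σ ^ 4 * q (F.X 2 t σ) ^ 2
        - 2 * F.k 2 t σ ^ 3 * q (F.X 2 t σ) * q' (F.X 2 t σ) * Real.sin (F.th 2 t σ))) t := by
  have qc := q_cont hq
  have cX := F.X_cont 2
  have cq : ContinuousOn (fun p : ℝ × ℝ => q (F.X 2 p.1 p.2)) (Ioo a b ×ˢ Icc 0 1) :=
    qc.comp_continuousOn cX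
  have cq' : ContinuousOn (fun p : ℝ × ℝ => q' (F.X 2 p.1 p.2)) (Ioo a b ×ˢ Icc 0 1) :=
    hq'.comp_continuousOn cX
  have cth := F.th_cont 2
  have ck := F.k_cont 2
  have cks := F.ks_cont 2
  have ckss := F.kss_cont 2
  have cmu := F.mu_cont 2
  have csin : ContinuousOn (fun p : ℝ × ℝ => Real.sin (F.th 2 p.1 p.2))
      (Ioo a b ×ˢ Icc 0 1) := Real.continuous_sin.comp_continuousOn cth
  have ccos : ContinuousOn (fun p : ℝ × ℝ => Real.cos (F.th 2 p.1 p.2))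
      (Ioo a b ×ˢ Icc 0 1) := Real.continuous_cos.comp_continuousOn cth
  have cell : ContinuousOn (fun p : ℝ × ℝ => F.ell 2 p.1) (Ioo a b ×ˢ Icc 0 1) := by
    have h1 : ContinuousOn (F.ell 2) (Ioo a b) := fun τ hτ =>
      (F.ell_t 2 τ hτ).continuousAt.continuousWithinAt
    exact h1.comp continuousOn_fst (fun p hp => hp.1)
  have hmain := transport F 2
    (f := fun τ σ => F.k 2 τ σ ^ 2 * q (F.X 2 τ σ) ^ 2)
    (ft := fun τ σ => (2 * F.k 2 τ σ * (F.kss 2 τ σ + F.k 2 τ σ ^ 3 + F.mu 2 τ σ * F.ks 2 τ σ)) *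
      q (F.X 2 τ σ) ^ 2 + F.k 2 τ σ ^ 2 * (2 * q (F.X 2 τ σ) * (q' (F.X 2 τ σ) *
        (-(F.k 2 τ σ * Real.sin (F.th 2 τ σ)) + F.mu 2 τ σ * Real.cos (F.th 2 τ σ)))))
    (fs := fun τ σ => (2 * F.k 2 τ σ * (F.ell 2 τ * F.ks 2 τ σ)) *
      q (F.X 2 τ σ) ^ 2 + F.k 2 τ σ ^ 2 * (2 * q (F.X 2 τ σ) * (q' (F.X 2 τ σ) *
        (F.ell 2 τ * Real.cos (F.th 2 τ σ)))))
    (by fun_prop) (by fun_prop) (by fun_prop)
    (fun τ hτ σ hσ => by
      have h1 := F.X_t 2 τ hτ σ hσ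
      rw [T1.sin_off2, T1.cos_off2] at h1
      have h2 := ((hq (F.X 2 τ σ)).comp τ h1).pow 2
      have h3 := (F.k_t 2 τ hτ σ hσ).pow 2
      refine (h3.mul h2).congr_deriv ?_
      simp only [Nat.cast_ofNat, Nat.add_one_sub_one, pow_one, Function.comp_apply,
        Pi.pow_apply, Pi.mul_apply])
    (fun τ hτ σ hσ => by
      have h1 := F.X_s 2 τ hτ σ hσ
      rw [T1.cos_off2] at h1
      have h2 := ((hq (F.X 2 τ σ)).comp_hasDerivWithinAt σ h1).pow 2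
      have h3 := (F.k_s 2 τ hτ σ hσ).pow 2
      refine (h3.mul h2).congr_deriv ?_
      simp only [Nat.cast_ofNat, Nat.add_one_sub_one, pow_one, Function.comp_apply,
        Pi.pow_apply, Pi.mul_apply])
    htt
  refine hmain.congr_deriv ?_
  have hl := F.ell_pos 2 t htt
  have s0 : ContinuousOn (fun σ => q (F.X 2 t σ)) (Icc 0 1) :=
    T2a.slice (f := fun τ σ => q (F.X 2 τ σ)) cq htt
  have s1 : ContinuousOn (fun σ => q' (F.X 2 t σ)) (Icc 0 1) :=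
    T2a.slice (f := fun τ σ => q' (F.X 2 τ σ)) cq' htt
  have sk := T2a.slice ck htt
  have sks := T2a.slice cks htt
  have skss := T2a.slice ckss htt
  have smu := T2a.slice cmu htt
  have sth := T2a.slice cth htt
  have ssin : ContinuousOn (fun σ => Real.sin (F.th 2 t σ)) (Icc 0 1) :=
    T2a.slice (f := fun τ σ => Real.sin (F.th 2 τ σ)) csin htt
  have scos : ContinuousOn (fun σ => Real.cos (F.th 2 t σ)) (Icc 0 1) :=
    T2a.slice (f := fun τ σ => Real.cos (F.th 2 τ σ)) ccos htt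
  have sX := T2a.slice cX htt
  clear hmain cell ccos csin cmu cks ck cth cq' cq cX
  -- the boundary terms
  have hb := T2a.ftc01 (G := fun σ => F.k 2 t σ * F.ks 2 t σ * q (F.X 2 t σ) ^ 2)
    (G' := fun σ => ((F.ell 2 t * F.ks 2 t σ) * F.ks 2 t σ +
      F.k 2 t σ * (F.ell 2 t * F.kss 2 t σ)) * q (F.X 2 t σ) ^ 2 +
      F.k 2 t σ * F.ks 2 t σ * (2 * q (F.X 2 t σ) * (q' (F.X 2 t σ) *
        (F.ell 2 t * Real.cos (F.th 2 t σ)))))
    (fun σ hσ => by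
      have h1 := F.X_s 2 t htt σ hσ
      rw [T1.cos_off2] at h1
      have h2 := ((hq (F.X 2 t σ)).comp_hasDerivWithinAt σ h1).pow 2
      refine (((F.k_s 2 t htt σ hσ).mul (F.ks_s 2 t htt σ hσ)).mul h2).congr_deriv ?_
      simp only [Nat.cast_ofNat, Nat.add_one_sub_one, pow_one, Function.comp_apply,
        Pi.pow_apply, Pi.mul_apply])
    (by fun_prop)
  rw [F.k_far t htt, hJ] at hb
  rw [hJ, ← intervalIntegral.integral_const_mul, ← intervalIntegral.integral_const_mul]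
  have i1 : IntervalIntegrable (fun σ => ((F.ell 2 t * F.ks 2 t σ) * F.ks 2 t σ +
      F.k 2 t σ * (F.ell 2 t * F.kss 2 t σ)) * q (F.X 2 t σ) ^ 2 +
      F.k 2 t σ * F.ks 2 t σ * (2 * q (F.X 2 t σ) * (q' (F.X 2 t σ) *
        (F.ell 2 t * Real.cos (F.th 2 t σ))))) volume 0 1 :=
    ContinuousOn.intervalIntegrable_of_Icc zero_le_one (by fun_prop)
  have i2 : IntervalIntegrable (fun σ => F.ell 2 t * (-2 * F.ks 2 t σ ^ 2 * q (F.X 2 t σ) ^ 2
        - 4 * F.k 2 t σ * F.ks 2 t σ * q (F.X 2 t σ) * q' (F.X 2 t σ) * Real.cos (F.th 2 t σ)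
        + F.k 2 t σ ^ 4 * q (F.X 2 t σ) ^ 2
        - 2 * F.k 2 t σ ^ 3 * q (F.X 2 t σ) * q' (F.X 2 t σ) * Real.sin (F.th 2 t σ)))
      volume 0 1 :=
    ContinuousOn.intervalIntegrable_of_Icc zero_le_one (by fun_prop)
  have h3 : (∫ σ in (0:ℝ)..1, F.ell 2 t * (2 * F.k 2 t σ * (F.kss 2 t σ + F.k 2 t σ ^ 3 +
      F.mu 2 t σ * F.ks 2 t σ) *
      q (F.X 2 t σ) ^ 2 + F.k 2 t σ ^ 2 * (2 * q (F.X 2 t σ) * (q' (F.X 2 t σ) *
        (-(F.k 2 t σ * Real.sin (F.th 2 t σ)) + F.mu 2 t σ * Real.cos (F.th 2 t σ)))) -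
      F.mu 2 t σ / F.ell 2 t * (2 * F.k 2 t σ * (F.ell 2 t * F.ks 2 t σ) *
      q (F.X 2 t σ) ^ 2 + F.k 2 t σ ^ 2 * (2 * q (F.X 2 t σ) * (q' (F.X 2 t σ) *
        (F.ell 2 t * Real.cos (F.th 2 t σ))))) -
      F.k 2 t σ ^ 2 * (F.k 2 t σ ^ 2 * q (F.X 2 t σ) ^ 2))) =
      (∫ σ in (0:ℝ)..1, F.ell 2 t * (-2 * F.ks 2 t σ ^ 2 * q (F.X 2 t σ) ^ 2
        - 4 * F.k 2 t σ * F.ks 2 t σ * q (F.X 2 t σ) * q' (F.X 2 t σ) * Real.cos (F.th 2 t σ)
        + F.k 2 t σ ^ 4 * q (F.X 2 t σ) ^ 2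
        - 2 * F.k 2 t σ ^ 3 * q (F.X 2 t σ) * q' (F.X 2 t σ) * Real.sin (F.th 2 t σ))) +
      2 * ∫ σ in (0:ℝ)..1, (((F.ell 2 t * F.ks 2 t σ) * F.ks 2 t σ +
      F.k 2 t σ * (F.ell 2 t * F.kss 2 t σ)) * q (F.X 2 t σ) ^ 2 +
      F.k 2 t σ * F.ks 2 t σ * (2 * q (F.X 2 t σ) * (q' (F.X 2 t σ) *
        (F.ell 2 t * Real.cos (F.th 2 t σ))))) := by
    rw [← intervalIntegral.integral_const_mul 2, ← intervalIntegral.integral_add i2
      (i1.const_mul 2)]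
    apply intervalIntegral.integral_congr
    intro σ _
    simp only
    have e1 : F.mu 2 t σ / F.ell 2 t * (2 * F.k 2 t σ * (F.ell 2 t * F.ks 2 t σ) *
      q (F.X 2 t σ) ^ 2 + F.k 2 t σ ^ 2 * (2 * q (F.X 2 t σ) * (q' (F.X 2 t σ) *
        (F.ell 2 t * Real.cos (F.th 2 t σ))))) =
      F.mu 2 t σ * (2 * F.k 2 t σ * (F.ks 2 t σ) *
      q (F.X 2 t σ) ^ 2 + F.k 2 t σ ^ 2 * (2 * q (F.X 2 t σ) * (q' (F.X 2 t σ) *
        (Real.cos (F.th 2 t σ))))) := by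
      field_simp
    rw [e1]
    ring
  rw [h3, hb]
  ring

theorem zeroA {t : ℝ} (htt : t ∈ Ioo a b) (hJ : q (F.X 2 t 0) = 0) :
    F.ell 2 t * ∫ σ in (0:ℝ)..1, (F.k 2 t σ ^ 4 * q (F.X 2 t σ) ^ 2
      + 3 * F.th 2 t σ * F.k 2 t σ ^ 2 * F.ks 2 t σ * q (F.X 2 t σ) ^ 2
      + 2 * F.th 2 t σ * F.k 2 t σ ^ 3 * q (F.X 2 t σ) * q' (F.X 2 t σ) *
        Real.cos (F.th 2 t σ)) = 0 := by
  have qc := q_cont hq
  have sX := T2a.slice (F.X_cont 2) htt
  have s0 : ContinuousOn (fun σ => q (F.X 2 t σ)) (Icc 0 1) := qc.comp_continuousOn sX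
  have s1 : ContinuousOn (fun σ => q' (F.X 2 t σ)) (Icc 0 1) := hq'.comp_continuousOn sX
  have sk := T2a.slice (F.k_cont 2) htt
  have sks := T2a.slice (F.ks_cont 2) htt
  have sth := T2a.slice (F.th_cont 2) htt
  have scos : ContinuousOn (fun σ => Real.cos (F.th 2 t σ)) (Icc 0 1) :=
    Real.continuous_cos.comp_continuousOn sth
  have hb := T2a.ftc01 (G := fun σ => F.th 2 t σ * F.k 2 t σ ^ 3 * q (F.X 2 t σ) ^ 2)
    (G' := fun σ => F.ell 2 t * (F.k 2 t σ ^ 4 * q (F.X 2 t σ) ^ 2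
      + 3 * F.th 2 t σ * F.k 2 t σ ^ 2 * F.ks 2 t σ * q (F.X 2 t σ) ^ 2
      + 2 * F.th 2 t σ * F.k 2 t σ ^ 3 * q (F.X 2 t σ) * q' (F.X 2 t σ) *
        Real.cos (F.th 2 t σ)))
    (fun σ hσ => by
      have h1 := F.X_s 2 t htt σ hσ
      rw [T1.cos_off2] at h1
      have h2 := ((hq (F.X 2 t σ)).comp_hasDerivWithinAt σ h1).pow 2
      refine (((F.th_s 2 t htt σ hσ).mul ((F.k_s 2 t htt σ hσ).pow 3)).mul h2).congr_deriv ?_
      simp only [Nat.cast_ofNat, Nat.add_one_sub_one, pow_one, Function.comp_apply,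
        Pi.pow_apply, Pi.mul_apply]
      ring)
    (by fun_prop)
  rw [F.k_far t htt, hJ] at hb
  rw [← intervalIntegral.integral_const_mul, hb]
  ring

theorem derivB {t : ℝ} (htt : t ∈ Ioo a b) (hJ : q (F.X 2 t 0) = 0) :
    HasDerivAt (fun τ => F.ell 2 τ * ∫ σ in (0:ℝ)..1, F.th 2 τ σ ^ 2 * q (F.X 2 τ σ) ^ 2)
      (F.ell 2 t * ∫ σ in (0:ℝ)..1, (-2 * F.k 2 t σ ^ 2 * q (F.X 2 t σ) ^ 2
        - 4 * F.th 2 t σ * F.k 2 t σ * q (F.X 2 t σ) * q' (F.X 2 t σ) * Real.cos (F.th 2 t σ)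
        - 2 * F.th 2 t σ ^ 2 * q (F.X 2 t σ) * q' (F.X 2 t σ) * F.k 2 t σ *
          Real.sin (F.th 2 t σ)
        - F.k 2 t σ ^ 2 * F.th 2 t σ ^ 2 * q (F.X 2 t σ) ^ 2)) t := by
  have qc := q_cont hq
  have cX := F.X_cont 2
  have cq : ContinuousOn (fun p : ℝ × ℝ => q (F.X 2 p.1 p.2)) (Ioo a b ×ˢ Icc 0 1) :=
    qc.comp_continuousOn cX
  have cq' : ContinuousOn (fun p : ℝ × ℝ => q' (F.X 2 p.1 p.2)) (Ioo a b ×ˢ Icc 0 1) :=
    hq'.comp_continuousOn cX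
  have cth := F.th_cont 2
  have ck := F.k_cont 2
  have cks := F.ks_cont 2
  have cmu := F.mu_cont 2
  have csin : ContinuousOn (fun p : ℝ × ℝ => Real.sin (F.th 2 p.1 p.2))
      (Ioo a b ×ˢ Icc 0 1) := Real.continuous_sin.comp_continuousOn cth
  have ccos : ContinuousOn (fun p : ℝ × ℝ => Real.cos (F.th 2 p.1 p.2))
      (Ioo a b ×ˢ Icc 0 1) := Real.continuous_cos.comp_continuousOn cth
  have cell : ContinuousOn (fun p : ℝ × ℝ => F.ell 2 p.1) (Ioo a b ×ˢ Icc 0 1) := by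
    have h1 : ContinuousOn (F.ell 2) (Ioo a b) := fun τ hτ =>
      (F.ell_t 2 τ hτ).continuousAt.continuousWithinAt
    exact h1.comp continuousOn_fst (fun p hp => hp.1)
  have hmain := transport F 2
    (f := fun τ σ => F.th 2 τ σ ^ 2 * q (F.X 2 τ σ) ^ 2)
    (ft := fun τ σ => (2 * F.th 2 τ σ * (F.ks 2 τ σ + F.mu 2 τ σ * F.k 2 τ σ)) *
      q (F.X 2 τ σ) ^ 2 + F.th 2 τ σ ^ 2 * (2 * q (F.X 2 τ σ) * (q' (F.X 2 τ σ) *
        (-(F.k 2 τ σ * Real.sin (F.th 2 τ σ)) + F.mu 2 τ σ * Real.cos (F.th 2 τ σ)))))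
    (fs := fun τ σ => (2 * F.th 2 τ σ * (F.ell 2 τ * F.k 2 τ σ)) *
      q (F.X 2 τ σ) ^ 2 + F.th 2 τ σ ^ 2 * (2 * q (F.X 2 τ σ) * (q' (F.X 2 τ σ) *
        (F.ell 2 τ * Real.cos (F.th 2 τ σ)))))
    (by fun_prop) (by fun_prop) (by fun_prop)
    (fun τ hτ σ hσ => by
      have h1 := F.X_t 2 τ hτ σ hσ
      rw [T1.sin_off2, T1.cos_off2] at h1
      have h2 := ((hq (F.X 2 τ σ)).comp τ h1).pow 2
      have h3 := (F.th_t 2 τ hτ σ hσ).pow 2
      refine (h3.mul h2).congr_deriv ?_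
      simp only [Nat.cast_ofNat, Nat.add_one_sub_one, pow_one, Function.comp_apply,
        Pi.pow_apply, Pi.mul_apply])
    (fun τ hτ σ hσ => by
      have h1 := F.X_s 2 τ hτ σ hσ
      rw [T1.cos_off2] at h1
      have h2 := ((hq (F.X 2 τ σ)).comp_hasDerivWithinAt σ h1).pow 2
      have h3 := (F.th_s 2 τ hτ σ hσ).pow 2
      refine (h3.mul h2).congr_deriv ?_
      simp only [Nat.cast_ofNat, Nat.add_one_sub_one, pow_one, Function.comp_apply,
        Pi.pow_apply, Pi.mul_apply])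
    htt
  refine hmain.congr_deriv ?_
  have hl := F.ell_pos 2 t htt
  have s0 : ContinuousOn (fun σ => q (F.X 2 t σ)) (Icc 0 1) :=
    T2a.slice (f := fun τ σ => q (F.X 2 τ σ)) cq htt
  have s1 : ContinuousOn (fun σ => q' (F.X 2 t σ)) (Icc 0 1) :=
    T2a.slice (f := fun τ σ => q' (F.X 2 τ σ)) cq' htt
  have sk := T2a.slice ck htt
  have sks := T2a.slice cks htt
  have smu := T2a.slice cmu htt
  have sth := T2a.slice cth htt
  have ssin : ContinuousOn (fun σ => Real.sin (F.th 2 t σ)) (Icc 0 1) :=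
    T2a.slice (f := fun τ σ => Real.sin (F.th 2 τ σ)) csin htt
  have scos : ContinuousOn (fun σ => Real.cos (F.th 2 t σ)) (Icc 0 1) :=
    T2a.slice (f := fun τ σ => Real.cos (F.th 2 τ σ)) ccos htt
  have sX := T2a.slice cX htt
  clear hmain cell ccos csin cmu cks ck cth cq' cq cX
  have hb := T2a.ftc01 (G := fun σ => F.th 2 t σ * F.k 2 t σ * q (F.X 2 t σ) ^ 2)
    (G' := fun σ => ((F.ell 2 t * F.k 2 t σ) * F.k 2 t σ +
      F.th 2 t σ * (F.ell 2 t * F.ks 2 t σ)) * q (F.X 2 t σ) ^ 2 +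
      F.th 2 t σ * F.k 2 t σ * (2 * q (F.X 2 t σ) * (q' (F.X 2 t σ) *
        (F.ell 2 t * Real.cos (F.th 2 t σ)))))
    (fun σ hσ => by
      have h1 := F.X_s 2 t htt σ hσ
      rw [T1.cos_off2] at h1
      have h2 := ((hq (F.X 2 t σ)).comp_hasDerivWithinAt σ h1).pow 2
      refine (((F.th_s 2 t htt σ hσ).mul (F.k_s 2 t htt σ hσ)).mul h2).congr_deriv ?_
      simp only [Nat.cast_ofNat, Nat.add_one_sub_one, pow_one, Function.comp_apply,
        Pi.pow_apply, Pi.mul_apply])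
    (by fun_prop)
  rw [F.k_far t htt, hJ] at hb
  rw [hJ, ← intervalIntegral.integral_const_mul, ← intervalIntegral.integral_const_mul]
  have i1 : IntervalIntegrable (fun σ => ((F.ell 2 t * F.k 2 t σ) * F.k 2 t σ +
      F.th 2 t σ * (F.ell 2 t * F.ks 2 t σ)) * q (F.X 2 t σ) ^ 2 +
      F.th 2 t σ * F.k 2 t σ * (2 * q (F.X 2 t σ) * (q' (F.X 2 t σ) *
        (F.ell 2 t * Real.cos (F.th 2 t σ))))) volume 0 1 :=
    ContinuousOn.intervalIntegrable_of_Icc zero_le_one (by fun_prop)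
  have i2 : IntervalIntegrable (fun σ => F.ell 2 t * (-2 * F.k 2 t σ ^ 2 * q (F.X 2 t σ) ^ 2
        - 4 * F.th 2 t σ * F.k 2 t σ * q (F.X 2 t σ) * q' (F.X 2 t σ) * Real.cos (F.th 2 t σ)
        - 2 * F.th 2 t σ ^ 2 * q (F.X 2 t σ) * q' (F.X 2 t σ) * F.k 2 t σ *
          Real.sin (F.th 2 t σ)
        - F.k 2 t σ ^ 2 * F.th 2 t σ ^ 2 * q (F.X 2 t σ) ^ 2)) volume 0 1 :=
    ContinuousOn.intervalIntegrable_of_Icc zero_le_one (by fun_prop)
  have h3 : (∫ σ in (0:ℝ)..1, F.ell 2 t * (2 * F.th 2 t σ * (F.ks 2 t σ +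
      F.mu 2 t σ * F.k 2 t σ) *
      q (F.X 2 t σ) ^ 2 + F.th 2 t σ ^ 2 * (2 * q (F.X 2 t σ) * (q' (F.X 2 t σ) *
        (-(F.k 2 t σ * Real.sin (F.th 2 t σ)) + F.mu 2 t σ * Real.cos (F.th 2 t σ)))) -
      F.mu 2 t σ / F.ell 2 t * (2 * F.th 2 t σ * (F.ell 2 t * F.k 2 t σ) *
      q (F.X 2 t σ) ^ 2 + F.th 2 t σ ^ 2 * (2 * q (F.X 2 t σ) * (q' (F.X 2 t σ) *
        (F.ell 2 t * Real.cos (F.th 2 t σ))))) -
      F.k 2 t σ ^ 2 * (F.th 2 t σ ^ 2 * q (F.X 2 t σ) ^ 2))) =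
      (∫ σ in (0:ℝ)..1, F.ell 2 t * (-2 * F.k 2 t σ ^ 2 * q (F.X 2 t σ) ^ 2
        - 4 * F.th 2 t σ * F.k 2 t σ * q (F.X 2 t σ) * q' (F.X 2 t σ) * Real.cos (F.th 2 t σ)
        - 2 * F.th 2 t σ ^ 2 * q (F.X 2 t σ) * q' (F.X 2 t σ) * F.k 2 t σ *
          Real.sin (F.th 2 t σ)
        - F.k 2 t σ ^ 2 * F.th 2 t σ ^ 2 * q (F.X 2 t σ) ^ 2)) +
      2 * ∫ σ in (0:ℝ)..1, (((F.ell 2 t * F.k 2 t σ) * F.k 2 t σ +
      F.th 2 t σ * (F.ell 2 t * F.ks 2 t σ)) * q (F.X 2 t σ) ^ 2 +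
      F.th 2 t σ * F.k 2 t σ * (2 * q (F.X 2 t σ) * (q' (F.X 2 t σ) *
        (F.ell 2 t * Real.cos (F.th 2 t σ))))) := by
    rw [← intervalIntegral.integral_const_mul 2, ← intervalIntegral.integral_add i2
      (i1.const_mul 2)]
    apply intervalIntegral.integral_congr
    intro σ _
    simp only
    have e1 : F.mu 2 t σ / F.ell 2 t * (2 * F.th 2 t σ * (F.ell 2 t * F.k 2 t σ) *
      q (F.X 2 t σ) ^ 2 + F.th 2 t σ ^ 2 * (2 * q (F.X 2 t σ) * (q' (F.X 2 t σ) *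
        (F.ell 2 t * Real.cos (F.th 2 t σ))))) =
      F.mu 2 t σ * (2 * F.th 2 t σ * (F.k 2 t σ) *
      q (F.X 2 t σ) ^ 2 + F.th 2 t σ ^ 2 * (2 * q (F.X 2 t σ) * (q' (F.X 2 t σ) *
        (Real.cos (F.th 2 t σ))))) := by
      field_simp
    rw [e1]
    ring
  rw [h3, hb]
  ring

end

end T5

open T5

/-- T5 : energy estimate on the far part of the ray (`Lx = 1`) -/
theorem far_energy : ∃ C > 0, ∀ (a b : ℝ) (F : Flow a b 1), ∀ t1 ∈ Ioo a b, ∀ t2 ∈ Ico t1 b,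
    t2 - t1 ≤ 1 →
    (∀ t ∈ Icc t1 t2, ∀ σ ∈ Icc (0:ℝ) 1, |F.th 2 t σ| ≤ 0.1) →
    (∀ t ∈ Icc t1 t2, F.X 2 t 0 ∈ Icc (0:ℝ) (1/16)) →
      F.ell 2 t2 * (∫ σ in (0:ℝ)..1, F.k 2 t2 σ ^ 2 * chf (F.X 2 t2 σ) ^ 2) ≤
      F.ell 2 t1 * (∫ σ in (0:ℝ)..1, F.k 2 t1 σ ^ 2 * chf (F.X 2 t1 σ) ^ 2) + C := by
  obtain ⟨Cφ, hCφ, hφ⟩ := chf_deriv_bound
  obtain ⟨Cψ, hCψ, hψ⟩ := psi_deriv_bound
  refine ⟨5 * Cφ ^ 2 * 1 + 5 * Cφ ^ 2 * (1.02 * Cψ ^ 2) , by positivity, ?_⟩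
  intro a b F t1 ht1 t2 ht2 h21 hθ hX
  have hsub : Icc t1 t2 ⊆ Ioo a b := fun t ht => ⟨ht1.1.trans_le ht.1, ht.2.trans_lt ht2.2⟩
  set C1 : ℝ := 5 * Cφ ^ 2 with hC1
  have hC1p : 0 ≤ C1 := by positivity
  -- length bound
  have hell : ∀ t ∈ Icc t1 t2, F.ell 2 t ≤ 1.02 := by
    intro t ht
    have htt := hsub ht
    have hl := F.ell_pos 2 t htt
    have h1 := T2a.ftc01 (G := F.X 2 t) (G' := fun σ => F.ell 2 t * Real.cos (F.th 2 t σ))
      (fun σ hσ => by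
        have h1 := F.X_s 2 t htt σ hσ
        rwa [T1.cos_off2] at h1)
      (continuousOn_const.mul (Real.continuous_cos.comp_continuousOn
        (T2a.slice (F.th_cont 2) htt)))
    rw [F.X_far t htt] at h1
    have h2 : ∫ σ in (0:ℝ)..1, F.ell 2 t * 0.99 ≤
        ∫ σ in (0:ℝ)..1, F.ell 2 t * Real.cos (F.th 2 t σ) := by
      apply intervalIntegral.integral_mono_on zero_le_one (by simp)
      · exact ContinuousOn.intervalIntegrable_of_Icc zero_le_one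
          (continuousOn_const.mul (Real.continuous_cos.comp_continuousOn
          (T2a.slice (F.th_cont 2) htt)))
      · intro σ hσ
        apply mul_le_mul_of_nonneg_left _ hl.le
        have h3 := Real.one_sub_sq_div_two_le_cos (x := F.th 2 t σ)
        have h4 := hθ t ht σ hσ
        have h5 : F.th 2 t σ ^ 2 ≤ 0.01 := by
          rw [← sq_abs]
          nlinarith [abs_nonneg (F.th 2 t σ)]
        linarith
    rw [h1] at h2
    simp only [intervalIntegral.integral_const, sub_zero, one_smul] at h2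
    have h3 := (hX t ht).1
    linarith
  have hJφ : ∀ t ∈ Icc t1 t2, chf (F.X 2 t 0) = 0 := fun t ht =>
    chf_zero ((hX t ht).2.trans (by norm_num))
  have hJψ : ∀ t ∈ Icc t1 t2, psi (F.X 2 t 0) = 0 := fun t ht =>
    psi_zero ((hX t ht).2.trans (by norm_num))
  -- derivatives
  set A : ℝ → ℝ := fun τ => F.ell 2 τ * ∫ σ in (0:ℝ)..1, F.k 2 τ σ ^ 2 * chf (F.X 2 τ σ) ^ 2
    with hA
  set B : ℝ → ℝ := fun τ => F.ell 2 τ * ∫ σ in (0:ℝ)..1, F.th 2 τ σ ^ 2 * psi (F.X 2 τ σ) ^ 2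
    with hB
  have dA : ∀ t ∈ Icc t1 t2, ∃ A', HasDerivAt A A' t ∧ A' ≤ C1 * (F.ell 2 t *
      ∫ σ in (0:ℝ)..1, F.k 2 t σ ^ 2 * psi (F.X 2 t σ) ^ 2) := by
    intro t ht
    have htt := hsub ht
    have hl := F.ell_pos 2 t htt
    refine ⟨_, derivA F chf_hasDerivAt chf_deriv_cont htt (hJφ t ht), ?_⟩
    have hz := zeroA F chf_hasDerivAt chf_deriv_cont htt (hJφ t ht)
    have qc := q_cont chf_hasDerivAt
    have qc' := chf_deriv_cont
    have pc := q_cont psi_hasDerivAt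
    have sX := T2a.slice (F.X_cont 2) htt
    have sk := T2a.slice (F.k_cont 2) htt
    have sks := T2a.slice (F.ks_cont 2) htt
    have sth := T2a.slice (F.th_cont 2) htt
    have ssin : ContinuousOn (fun σ => Real.sin (F.th 2 t σ)) (Icc 0 1) :=
      Real.continuous_sin.comp_continuousOn sth
    have scos : ContinuousOn (fun σ => Real.cos (F.th 2 t σ)) (Icc 0 1) :=
      Real.continuous_cos.comp_continuousOn sth
    have s0 : ContinuousOn (fun σ => chf (F.X 2 t σ)) (Icc 0 1) := qc.comp_continuousOn sX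
    have s1 : ContinuousOn (fun σ => deriv chf (F.X 2 t σ)) (Icc 0 1) := qc'.comp_continuousOn sX
    have s2 : ContinuousOn (fun σ => psi (F.X 2 t σ)) (Icc 0 1) := pc.comp_continuousOn sX
    have i1 : IntervalIntegrable (fun σ => (-2 * F.ks 2 t σ ^ 2 * chf (F.X 2 t σ) ^ 2
        - 4 * F.k 2 t σ * F.ks 2 t σ * chf (F.X 2 t σ) * deriv chf (F.X 2 t σ) *
          Real.cos (F.th 2 t σ)
        + F.k 2 t σ ^ 4 * chf (F.X 2 t σ) ^ 2
        - 2 * F.k 2 t σ ^ 3 * chf (F.X 2 t σ) * deriv chf (F.X 2 t σ) *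
          Real.sin (F.th 2 t σ))) volume 0 1 :=
      ContinuousOn.intervalIntegrable_of_Icc zero_le_one (by fun_prop)
    have i2 : IntervalIntegrable (fun σ => (F.k 2 t σ ^ 4 * chf (F.X 2 t σ) ^ 2
        + 3 * F.th 2 t σ * F.k 2 t σ ^ 2 * F.ks 2 t σ * chf (F.X 2 t σ) ^ 2
        + 2 * F.th 2 t σ * F.k 2 t σ ^ 3 * chf (F.X 2 t σ) * deriv chf (F.X 2 t σ) *
          Real.cos (F.th 2 t σ))) volume 0 1 :=
      ContinuousOn.intervalIntegrable_of_Icc zero_le_one (by fun_prop)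
    have i3 : IntervalIntegrable (fun σ => C1 * (F.k 2 t σ ^ 2 * psi (F.X 2 t σ) ^ 2))
      volume 0 1 := ContinuousOn.intervalIntegrable_of_Icc zero_le_one (by fun_prop)
    have h1 := intervalIntegral.integral_mono_on (μ := volume) zero_le_one
      (i1.sub (i2.const_mul 2)) i3 (fun σ hσ => by
        have hth := hθ t ht σ hσ
        have hsin : |Real.sin (F.th 2 t σ)| ≤ 0.1 := (Real.abs_sin_le_abs).trans hth
        have h2 := pt1 (k := F.k 2 t σ) (ks := F.ks 2 t σ) (p := chf (F.X 2 t σ))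
          (p' := deriv chf (F.X 2 t σ)) hth hsin (Real.abs_cos_le_one (F.th 2 t σ))
        refine h2.trans ?_
        have h3 : deriv chf (F.X 2 t σ) ^ 2 ≤ Cφ ^ 2 * psi (F.X 2 t σ) ^ 2 := by
          by_cases hx : F.X 2 t σ ≤ 1 / 4
          · rw [chf_deriv_zero (Or.inl hx), zero_pow two_ne_zero]
            positivity
          · rw [psi_one (not_le.mp hx).le, one_pow, mul_one, ← sq_abs]
            exact pow_le_pow_left₀ (abs_nonneg _) (hφ _) 2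
        have h4 := mul_le_mul_of_nonneg_left h3 (sq_nonneg (F.k 2 t σ))
        rw [hC1]
        linarith)
    rw [intervalIntegral.integral_sub i1 (i2.const_mul 2), intervalIntegral.integral_const_mul,
      intervalIntegral.integral_const_mul] at h1
    have h5 := mul_le_mul_of_nonneg_left h1 hl.le
    rw [mul_sub] at h5
    have h6 : ∀ x y z : ℝ, x * (y * z) = y * (x * z) := fun x y z => by ring
    rw [h6 (F.ell 2 t) 2, hz, mul_zero, sub_zero, h6 (F.ell 2 t) C1] at h5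
    exact h5
  have dB : ∀ t ∈ Icc t1 t2, ∃ B', HasDerivAt B B' t ∧ B' ≤ -(F.ell 2 t *
      ∫ σ in (0:ℝ)..1, F.k 2 t σ ^ 2 * psi (F.X 2 t σ) ^ 2) + 1.02 * Cψ ^ 2 := by
    intro t ht
    have htt := hsub ht
    have hl := F.ell_pos 2 t htt
    refine ⟨_, derivB F psi_hasDerivAt psi_deriv_cont htt (hJψ t ht), ?_⟩
    have qc := q_cont psi_hasDerivAt
    have qc' := psi_deriv_cont
    have sX := T2a.slice (F.X_cont 2) htt
    have sk := T2a.slice (F.k_cont 2) htt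
    have sth := T2a.slice (F.th_cont 2) htt
    have ssin : ContinuousOn (fun σ => Real.sin (F.th 2 t σ)) (Icc 0 1) :=
      Real.continuous_sin.comp_continuousOn sth
    have scos : ContinuousOn (fun σ => Real.cos (F.th 2 t σ)) (Icc 0 1) :=
      Real.continuous_cos.comp_continuousOn sth
    have s0 : ContinuousOn (fun σ => psi (F.X 2 t σ)) (Icc 0 1) := qc.comp_continuousOn sX
    have s1 : ContinuousOn (fun σ => deriv psi (F.X 2 t σ)) (Icc 0 1) := qc'.comp_continuousOn sX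
    have i1 : IntervalIntegrable (fun σ => (-2 * F.k 2 t σ ^ 2 * psi (F.X 2 t σ) ^ 2
        - 4 * F.th 2 t σ * F.k 2 t σ * psi (F.X 2 t σ) * deriv psi (F.X 2 t σ) *
          Real.cos (F.th 2 t σ)
        - 2 * F.th 2 t σ ^ 2 * psi (F.X 2 t σ) * deriv psi (F.X 2 t σ) * F.k 2 t σ *
          Real.sin (F.th 2 t σ)
        - F.k 2 t σ ^ 2 * F.th 2 t σ ^ 2 * psi (F.X 2 t σ) ^ 2)) volume 0 1 :=
      ContinuousOn.intervalIntegrable_of_Icc zero_le_one (by fun_prop)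
    have i2 : IntervalIntegrable (fun σ => F.k 2 t σ ^ 2 * psi (F.X 2 t σ) ^ 2)
      volume 0 1 := ContinuousOn.intervalIntegrable_of_Icc zero_le_one (by fun_prop)
    have i3 : IntervalIntegrable (fun _ : ℝ => Cψ ^ 2) volume 0 1 := intervalIntegrable_const
    have h1 := intervalIntegral.integral_mono_on (μ := volume) zero_le_one
      i1 (i2.neg.add i3) (fun σ hσ => by
        have hth := hθ t ht σ hσ
        have hsin : |Real.sin (F.th 2 t σ)| ≤ 0.1 := (Real.abs_sin_le_abs).trans hth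
        have h2 := pt2 (k := F.k 2 t σ) (p := psi (F.X 2 t σ))
          (p' := deriv psi (F.X 2 t σ)) hth hsin (Real.abs_cos_le_one (F.th 2 t σ))
        refine h2.trans ?_
        have h3 : deriv psi (F.X 2 t σ) ^ 2 ≤ Cψ ^ 2 := by
          rw [← sq_abs]
          exact pow_le_pow_left₀ (abs_nonneg _) (hψ _) 2
        exact add_le_add le_rfl h3)
    rw [intervalIntegral.integral_add i2.neg i3] at h1
    simp only [Pi.neg_apply, intervalIntegral.integral_neg, intervalIntegral.integral_const,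
      sub_zero, one_smul] at h1
    have h5 := mul_le_mul_of_nonneg_left h1 hl.le
    have h6 : F.ell 2 t * Cψ ^ 2 ≤ 1.02 * Cψ ^ 2 :=
      mul_le_mul_of_nonneg_right (hell t ht) (sq_nonneg _)
    refine h5.trans ?_
    rw [mul_add, mul_neg]
    linarith
  -- the mean value inequality
  have hG : ∀ t ∈ Icc t1 t2, ∃ G', HasDerivAt (fun τ => A τ + C1 * B τ) G' t ∧
      G' ≤ C1 * (1.02 * Cψ ^ 2) := by
    intro t ht
    obtain ⟨A', hA', hA2⟩ := dA t ht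
    obtain ⟨B', hB', hB2⟩ := dB t ht
    refine ⟨A' + C1 * B', hA'.add (hB'.const_mul C1), ?_⟩
    have := mul_le_mul_of_nonneg_left hB2 hC1p
    linarith
  have hmv := (convex_Icc t1 t2).image_sub_le_mul_sub_of_deriv_le
    (f := fun τ => A τ + C1 * B τ) (C := C1 * (1.02 * Cψ ^ 2))
    (fun t ht => by
      obtain ⟨G', h1, -⟩ := hG t ht
      exact h1.continuousAt.continuousWithinAt)
    (fun t ht => by
      obtain ⟨G', h1, -⟩ := hG t (interior_subset ht)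
      exact h1.differentiableAt.differentiableWithinAt)
    (fun t ht => by
      obtain ⟨G', h1, h2⟩ := hG t (interior_subset ht)
      rw [h1.deriv]
      exact h2)
    t1 ⟨le_rfl, ht2.1⟩ t2 ⟨ht2.1, le_rfl⟩ ht2.1
  have hBpos : 0 ≤ B t2 := by
    have hl := F.ell_pos 2 t2 (hsub ⟨ht2.1, le_rfl⟩)
    apply mul_nonneg hl.le
    exact intervalIntegral.integral_nonneg zero_le_one fun σ _ => by positivity
  have hBle : B t1 ≤ 1 := by
    have h1mem : t1 ∈ Icc t1 t2 := ⟨le_rfl, ht2.1⟩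
    have htt := hsub h1mem
    have hl := F.ell_pos 2 t1 htt
    have hl2 := hell t1 h1mem
    have h1 : ∫ σ in (0:ℝ)..1, F.th 2 t1 σ ^ 2 * psi (F.X 2 t1 σ) ^ 2 ≤
        ∫ σ in (0:ℝ)..1, (0.01 : ℝ) := by
      have sX := T2a.slice (F.X_cont 2) htt
      have sth := T2a.slice (F.th_cont 2) htt
      have pc := q_cont psi_hasDerivAt
      have s0 : ContinuousOn (fun σ => psi (F.X 2 t1 σ)) (Icc 0 1) := pc.comp_continuousOn sX
      apply intervalIntegral.integral_mono_on zero_le_one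
        (ContinuousOn.intervalIntegrable_of_Icc zero_le_one (by fun_prop))
        intervalIntegrable_const
      intro σ hσ
      have h4 := hθ t1 h1mem σ hσ
      have h5 : F.th 2 t1 σ ^ 2 ≤ 0.01 := by
        rw [← sq_abs]
        nlinarith [abs_nonneg (F.th 2 t1 σ)]
      have h6 : psi (F.X 2 t1 σ) ^ 2 ≤ 1 := pow_le_one₀ (psi_nonneg _) (psi_le_one _)
      calc F.th 2 t1 σ ^ 2 * psi (F.X 2 t1 σ) ^ 2 ≤ 0.01 * 1 :=
            mul_le_mul h5 h6 (sq_nonneg _) (by norm_num)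
        _ = 0.01 := by norm_num
    simp only [intervalIntegral.integral_const, sub_zero, one_smul] at h1
    have h2 : B t1 ≤ F.ell 2 t1 * 0.01 := mul_le_mul_of_nonneg_left h1 hl.le
    linarith
  have e1 : C1 * (1.02 * Cψ ^ 2) * (t2 - t1) ≤ C1 * (1.02 * Cψ ^ 2) * 1 :=
    mul_le_mul_of_nonneg_left h21 (by positivity)
  have e2 : C1 * B t1 ≤ C1 * 1 := mul_le_mul_of_nonneg_left hBle hC1p
  have e3 : 0 ≤ C1 * B t2 := mul_nonneg hC1p hBpos
  change A t2 ≤ A t1 + _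
  linarith

end Pool.Agent.Helper15.NF
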