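import Pool.Agent.Helper15.NF.T1

open Set MeasureTheory intervalIntegral Filter Topology

namespace Pool.Agent.Helper15.NF

variable {a b Lx : ℝ}

/-- one-sided first order condition at a maximum -/
theorem T6_left {f : ℝ → ℝ} {D x c : ℝ} (hcx : c < x) (hf : HasDerivAt f D x)
    (hmax : ∀ y ∈ Icc c x, f y ≤ f x) : 0 ≤ D := by
  have h1 : Tendsto (slope f x) (𝓝[<] x) (𝓝 D) :=
    (hasDerivWithinAt_iff_tendsto_slope' (by simp)).1 hf.hasDerivWithinAt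
  refine ge_of_tendsto h1 ?_
  filter_upwards [Ioo_mem_nhdsLT hcx] with y hy
  have h2 := hmax y ⟨hy.1.le, hy.2.le⟩
  rw [slope_def_field]
  exact div_nonneg_of_nonpos (by linarith) (by linarith [hy.2])

/-- second order condition from the left at a maximum -/
theorem T6_second {u k : ℝ → ℝ} {l q x : ℝ} (hl : 0 < l) (hx0 : 0 < x) (hx1 : x ≤ 1)
    (hu : ∀ σ ∈ Icc (0:ℝ) 1, HasDerivWithinAt u (l * k σ) (Icc 0 1) σ)
    (hk : HasDerivWithinAt k (l * q) (Icc 0 1) x) (hk0 : k x = 0)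
    (hmax : ∀ y ∈ Icc (0:ℝ) 1, u y ≤ u x) : q ≤ 0 := by
  by_contra hq
  push Not at hq
  have hpos : 0 < l * q := mul_pos hl hq
  have hsub : Ioo (0:ℝ) x ⊆ Icc 0 1 := fun y hy => ⟨hy.1.le, hy.2.le.trans hx1⟩
  have h1 : Tendsto (slope k x) (𝓝[Ioo 0 x] x) (𝓝 (l * q)) :=
    (hasDerivWithinAt_iff_tendsto_slope' (by simp)).1 (hk.mono hsub)
  have h2 : ∀ᶠ y in 𝓝[Ioo 0 x] x, 0 < slope k x y := h1.eventually (lt_mem_nhds hpos)
  rw [nhdsWithin_Ioo_eq_nhdsLT hx0] at h2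
  have h3 : ∀ᶠ y in 𝓝[<] x, k y < 0 := by
    filter_upwards [h2, self_mem_nhdsWithin] with y hy hyx
    have hyx' : y < x := hyx
    rw [slope_def_field, hk0, sub_zero] at hy
    by_contra hc
    push Not at hc
    have : k y / (y - x) ≤ 0 := div_nonpos_of_nonneg_of_nonpos hc (by linarith)
    linarith
  obtain ⟨c, hc, hc2⟩ := (mem_nhdsLT_iff_exists_Ioo_subset' hx0).1 h3
  have hcx : c < x := hc
  set d := max c 0 with hd
  have hdx : d < x := max_lt hcx hx0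
  have hd0 : 0 ≤ d := le_max_right _ _
  have hanti : StrictAntiOn u (Icc d x) := by
    apply strictAntiOn_of_deriv_neg (convex_Icc d x)
    · intro y hy
      have hy' : y ∈ Icc (0:ℝ) 1 := ⟨hd0.trans hy.1, hy.2.trans hx1⟩
      exact (hu y hy').continuousWithinAt.mono (Icc_subset_Icc hd0 hx1)
    · intro y hy
      rw [interior_Icc] at hy
      have hy' : y ∈ Icc (0:ℝ) 1 := ⟨hd0.trans hy.1.le, hy.2.le.trans hx1⟩
      have hnb : Icc (0:ℝ) 1 ∈ 𝓝 y :=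
        Icc_mem_nhds (lt_of_le_of_lt hd0 hy.1) (lt_of_lt_of_le hy.2 hx1)
      have h4 := (hu y hy').hasDerivAt hnb
      rw [h4.deriv]
      have h5 : k y < 0 := hc2 ⟨lt_of_le_of_lt (le_max_left _ _) hy.1, hy.2⟩
      exact mul_neg_of_pos_of_neg hl h5
  have h6 := hanti (left_mem_Icc.2 hdx.le) (right_mem_Icc.2 hdx.le) hdx
  have h7 := hmax d ⟨hd0, hdx.le.trans hx1⟩
  linarith

/-- parabolic maximum principle, Dirichlet bound at `0`, Neumann condition at `1` -/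
theorem T6_max {u k ks mu : ℝ → ℝ → ℝ} {l : ℝ → ℝ} {t1 t2 ε : ℝ}
    (hl : ∀ t ∈ Icc t1 t2, 0 < l t)
    (hc : ContinuousOn (fun p : ℝ × ℝ => u p.1 p.2) (Icc t1 t2 ×ˢ Icc 0 1))
    (hu : ∀ t ∈ Icc t1 t2, ∀ σ ∈ Icc (0:ℝ) 1,
      HasDerivWithinAt (u t) (l t * k t σ) (Icc 0 1) σ)
    (hk : ∀ t ∈ Icc t1 t2, ∀ σ ∈ Icc (0:ℝ) 1,
      HasDerivWithinAt (k t) (l t * ks t σ) (Icc 0 1) σ)
    (ht : ∀ t ∈ Icc t1 t2, ∀ σ ∈ Icc (0:ℝ) 1,
      HasDerivAt (fun τ => u τ σ) (ks t σ + mu t σ * k t σ) t)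
    (hk1 : ∀ t ∈ Icc t1 t2, k t 1 = 0)
    (h0 : ∀ σ ∈ Icc (0:ℝ) 1, u t1 σ ≤ ε)
    (hJ : ∀ t ∈ Icc t1 t2, u t 0 ≤ ε) :
    ∀ t ∈ Icc t1 t2, ∀ σ ∈ Icc (0:ℝ) 1, u t σ ≤ ε := by
  intro ts hts σs hσs
  by_contra hcon
  push Not at hcon
  -- choose delta
  set δ := (u ts σs - ε) / (2 * (ts - t1 + 1)) with hδ
  have hden : 0 < 2 * (ts - t1 + 1) := by linarith [hts.1]
  have hδpos : 0 < δ := div_pos (by linarith) hden
  have hδs : δ * (ts - t1) < u ts σs - ε := by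
    have e1 : δ * (2 * (ts - t1 + 1)) = u ts σs - ε := by
      rw [hδ, div_mul_cancel₀ _ hden.ne']
    nlinarith [hts.1]
  have hcW : ContinuousOn (fun p : ℝ × ℝ => u p.1 p.2 - δ * (p.1 - t1))
      (Icc t1 t2 ×ˢ Icc 0 1) := by
    apply hc.sub
    fun_prop
  obtain ⟨⟨t0, σ0⟩, hmem, hmax⟩ := (isCompact_Icc.prod isCompact_Icc).exists_isMaxOn
    (⟨(ts, σs), ⟨hts, hσs⟩⟩ : (Icc t1 t2 ×ˢ Icc (0:ℝ) 1).Nonempty) hcW
  have ht0 : t0 ∈ Icc t1 t2 := hmem.1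
  have hσ0 : σ0 ∈ Icc (0:ℝ) 1 := hmem.2
  have hM : ∀ t ∈ Icc t1 t2, ∀ σ ∈ Icc (0:ℝ) 1,
      u t σ - δ * (t - t1) ≤ u t0 σ0 - δ * (t0 - t1) := by
    intro t ht' σ hσ
    exact hmax (show (t, σ) ∈ Icc t1 t2 ×ˢ Icc (0:ℝ) 1 from ⟨ht', hσ⟩)
  have hbig : ε < u t0 σ0 - δ * (t0 - t1) := by
    have := hM ts hts σs hσs
    linarith
  have ht01 : t1 < t0 := by
    rcases lt_or_eq_of_le ht0.1 with h | h
    · exact h
    · exfalso
      have := h0 σ0 hσ0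
      rw [h] at this
      rw [← h] at hbig
      rw [← h] at this
      simp at hbig
      linarith
  have hσpos : 0 < σ0 := by
    rcases lt_or_eq_of_le hσ0.1 with h | h
    · exact h
    · exfalso
      have h1 := hJ t0 ht0
      rw [← h] at hbig
      have : 0 ≤ δ * (t0 - t1) := mul_nonneg hδpos.le (by linarith)
      linarith
  -- spatial maximum
  have hsp : ∀ y ∈ Icc (0:ℝ) 1, u t0 y ≤ u t0 σ0 := by
    intro y hy
    have := hM t0 ht0 y hy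
    linarith
  have hk0 : k t0 σ0 = 0 := by
    rcases lt_or_eq_of_le hσ0.2 with h | h
    · have hnb : Icc (0:ℝ) 1 ∈ 𝓝 σ0 := Icc_mem_nhds hσpos h
      have h1 := (hu t0 ht0 σ0 hσ0).hasDerivAt hnb
      have h2 : IsLocalMax (u t0) σ0 := by
        filter_upwards [hnb] with y hy
        exact hsp y hy
      have h3 := h2.hasDerivAt_eq_zero h1
      rcases mul_eq_zero.1 h3 with h4 | h4
      · exact absurd h4 (hl t0 ht0).ne'
      · exact h4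
    · rw [h]; exact hk1 t0 ht0
  have hks : ks t0 σ0 ≤ 0 :=
    T6_second (hl t0 ht0) hσpos hσ0.2 (hu t0 ht0) (hk t0 ht0 σ0 hσ0) hk0 hsp
  -- temporal condition
  have hD : HasDerivAt (fun τ => u τ σ0 - δ * (τ - t1))
      (ks t0 σ0 + mu t0 σ0 * k t0 σ0 - δ) t0 := by
    have h1 := ht t0 ht0 σ0 hσ0
    have h2 : HasDerivAt (fun τ : ℝ => δ * (τ - t1)) δ t0 := by
      simpa using ((hasDerivAt_id t0).sub_const t1).const_mul δ
    exact h1.sub h2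
  have h8 := T6_left ht01 hD (by
    intro y hy
    exact hM y ⟨hy.1, hy.2.trans ht0.2⟩ σ0 hσ0)
  rw [hk0, mul_zero] at h8
  linarith

/-- T6 : maximum principle for the angle on the ray -/
theorem ray_max (F : Flow a b Lx) {t1 ε : ℝ} (ht1 : t1 ∈ Ioo a b)
    (h0 : ∀ σ ∈ Icc (0:ℝ) 1, |F.th 2 t1 σ| ≤ ε) {t2 : ℝ} (ht2 : t2 ∈ Ico t1 b)
    (hJ : ∀ t ∈ Icc t1 t2, |F.th 2 t 0| ≤ ε) :
    ∀ t ∈ Icc t1 t2, ∀ σ ∈ Icc (0:ℝ) 1, |F.th 2 t σ| ≤ ε := by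
  have hin : ∀ t ∈ Icc t1 t2, t ∈ Ioo a b := fun t ht =>
    ⟨lt_of_lt_of_le ht1.1 ht.1, lt_of_le_of_lt ht.2 ht2.2⟩
  have hcont : ContinuousOn (fun p : ℝ × ℝ => F.th 2 p.1 p.2) (Icc t1 t2 ×ˢ Icc 0 1) :=
    (F.th_cont 2).mono (prod_mono hin (subset_refl _))
  intro t ht σ hσ
  rw [abs_le]
  constructor
  · have h := T6_max (u := fun t σ => -(F.th 2 t σ)) (k := fun t σ => -(F.k 2 t σ))
      (ks := fun t σ => -(F.ks 2 t σ)) (mu := F.mu 2) (l := F.ell 2) (t1 := t1) (t2 := t2)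
      (ε := ε) (fun t ht => F.ell_pos 2 t (hin t ht)) hcont.neg
      (fun t ht σ hσ => by
        have := (F.th_s 2 t (hin t ht) σ hσ).neg
        rw [mul_neg]; exact this)
      (fun t ht σ hσ => by
        have := (F.k_s 2 t (hin t ht) σ hσ).neg
        rw [mul_neg]; exact this)
      (fun t ht σ hσ => by
        have := (F.th_t 2 t (hin t ht) σ hσ).neg
        have e : -(F.ks 2 t σ) + F.mu 2 t σ * -(F.k 2 t σ)
          = -(F.ks 2 t σ + F.mu 2 t σ * F.k 2 t σ) := by ring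
        rw [e]; exact this)
      (fun t ht => by simp [F.k_far t (hin t ht)])
      (fun σ hσ => by linarith [(abs_le.1 (h0 σ hσ)).1])
      (fun t ht => by linarith [(abs_le.1 (hJ t ht)).1]) t ht σ hσ
    linarith
  · exact T6_max (u := F.th 2) (k := F.k 2) (ks := F.ks 2) (mu := F.mu 2) (l := F.ell 2)
      (t1 := t1) (t2 := t2) (ε := ε) (fun t ht => F.ell_pos 2 t (hin t ht)) hcont
      (fun t ht σ hσ => F.th_s 2 t (hin t ht) σ hσ)
      (fun t ht σ hσ => F.k_s 2 t (hin t ht) σ hσ)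
      (fun t ht σ hσ => F.th_t 2 t (hin t ht) σ hσ)
      (fun t ht => F.k_far t (hin t ht))
      (fun σ hσ => (abs_le.1 (h0 σ hσ)).2)
      (fun t ht => (abs_le.1 (hJ t ht)).2) t ht σ hσ

end Pool.Agent.Helper15.NF
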