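import Pool.Agent.Helper15.NF.ST10
import Pool.Agent.Helper15.NF.CL6
import Pool.Agent.Helper15.NF.T2
import Pool.Agent.Helper15.NF.T3b
import Pool.Agent.Helper15.NF.T5
import Pool.Agent.Helper15.NF.T6
import Pool.Agent.Helper15.NF.B1
import Pool.Agent.Helper15.NF.B1b
import Pool.Agent.Helper15.NF.B2a

open Set MeasureTheory intervalIntegral Filter Topology

namespace Pool.Agent.Helper15.NF

/-- continuity argument -/
private theorem B2_bootstrap {t1 t2 : ℝ} (φ : ℝ → ℝ) (hc : ContinuousOn φ (Icc t1 t2))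
    (h0 : φ t1 < 1)
    (hstep : ∀ t ∈ Icc t1 t2, (∀ s ∈ Icc t1 t, φ s ≤ 1) → φ t < 1) :
    ∀ t ∈ Icc t1 t2, φ t < 1 := by
  by_contra hcon
  push Not at hcon
  obtain ⟨t, ht, htφ⟩ := hcon
  set B : Set ℝ := Icc t1 t2 ∩ φ ⁻¹' Ici 1 with hB
  have hBc : IsClosed B := hc.preimage_isClosed_of_isClosed isClosed_Icc isClosed_Ici
  have hBk : IsCompact B := isCompact_Icc.of_isClosed_subset hBc inter_subset_left
  obtain ⟨τ, hτ⟩ := hBk.exists_isLeast ⟨t, ht, htφ⟩
  have hτ1 : τ ∈ Icc t1 t2 := hτ.1.1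
  have hτ2 : 1 ≤ φ τ := hτ.1.2
  have hlt : ∀ s ∈ Icc t1 τ, s ≠ τ → φ s < 1 := by
    intro s hs hne
    by_contra h
    push Not at h
    have := hτ.2 (⟨⟨hs.1, hs.2.trans hτ1.2⟩, h⟩ : s ∈ B)
    exact hne (le_antisymm hs.2 this)
  have hτle : φ τ ≤ 1 := by
    by_contra h
    push Not at h
    have hcont : ContinuousOn φ (Icc t1 τ) := hc.mono (Icc_subset_Icc_right hτ1.2)
    have := intermediate_value_Icc hτ1.1 hcont (⟨h0.le, h.le⟩ : (1:ℝ) ∈ Icc (φ t1) (φ τ))
    obtain ⟨s, hs, hs1⟩ := this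
    have hne : s ≠ τ := by rintro rfl; linarith
    have := hlt s hs hne
    linarith
  have := hstep τ hτ1 (fun s hs => by
    by_cases h : s = τ
    · rw [h]; exact hτle
    · exact (hlt s hs h).le)
  linarith

private theorem B2_w_nonneg (c : Raw) (R : ℝ) (i : Fin 3) (σ : ℝ) : 0 ≤ c.w R i σ :=
  mul_nonneg (Real.exp_pos _).le (cut_nonneg _)

private theorem B2_w_le_rho (c : Raw) (R : ℝ) (i : Fin 3) (σ : ℝ) : c.w R i σ ≤ c.rho i σ := by
  unfold Raw.w
  have h1 : 0 ≤ c.rho i σ := (Real.exp_pos _).le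
  have h2 := cut_le_one (c.x i σ / R)
  nlinarith

private theorem B2_rho_le_one (c : Raw) (i : Fin 3) (σ : ℝ) : c.rho i σ ≤ 1 := by
  unfold Raw.rho
  apply Real.exp_le_one_iff.2
  have := sq_nonneg (c.x i σ)
  have := sq_nonneg (c.y i σ)
  linarith

private theorem B2_D_nonneg {R : ℝ} {c : Raw} (hc : IsCfg R c) : 0 ≤ c.D R := by
  unfold Raw.D Raw.I
  apply Finset.sum_nonneg
  intro i _
  apply mul_nonneg (hc.L_pos i).le
  apply intervalIntegral.integral_nonneg (by norm_num)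
  intro σ _
  exact mul_nonneg (sq_nonneg _) (B2_w_nonneg c R i σ)

/-- `|m| ≤ 4 η` if `D ≤ η²` -/
private theorem B2_m_bound (st : Star) {R : ℝ} {c : Raw} (hc : IsCfg R c)
    (hN : Near st 0.04 c) (hth : ∀ σ ∈ Icc (0:ℝ) 1, |c.th 2 σ| ≤ 0.1) (hx : 0 ≤ c.x 2 0)
    {η : ℝ} (hη : 0 < η) (hD : c.D R ≤ η ^ 2) : |c.m R| ≤ 4 * η := by
  have hwc : ∀ i, ContinuousOn (c.w R i) (Icc 0 1) := fun i => hc.w_cont i
  have hcos : ∀ i, ContinuousOn (fun σ => Real.cos (c.ang i σ)) (Icc 0 1) :=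
    fun i => Real.continuous_cos.comp_continuousOn (hc.ang_cont i)
  have hIi : ∀ {f : ℝ → ℝ}, ContinuousOn f (Icc 0 1) → IntervalIntegrable f volume 0 1 := by
    intro f hf
    apply ContinuousOn.intervalIntegrable
    rwa [uIcc_of_le (by norm_num)]
  have hS2 : ∀ i, ContinuousOn (fun σ => c.S i σ ^ 2 * c.w R i σ) (Icc 0 1) :=
    fun i => ((hc.S_cont i).pow 2).mul (hwc i)
  have hterm : ∀ i, |c.I i (fun σ => c.S i σ * Real.cos (c.ang i σ) * c.w R i σ)| ≤
      2 / η * c.I i (fun σ => c.S i σ ^ 2 * c.w R i σ) + η / 8 * c.I i (c.w R i) := by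
    intro i
    have h1 : ‖∫ σ in (0:ℝ)..1, c.S i σ * Real.cos (c.ang i σ) * c.w R i σ‖ ≤
        ∫ σ in (0:ℝ)..1, (2 / η * (c.S i σ ^ 2 * c.w R i σ) + η / 8 * c.w R i σ) := by
      apply intervalIntegral.norm_integral_le_of_norm_le (by norm_num)
      · refine Filter.Eventually.of_forall fun σ _ => ?_
        have hw := B2_w_nonneg c R i σ
        have hco := Real.abs_cos_le_one (c.ang i σ)
        rw [Real.norm_eq_abs, abs_mul, abs_mul, abs_of_nonneg hw]
        have h2 : |c.S i σ| * |Real.cos (c.ang i σ)| ≤ |c.S i σ| := by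
          have := abs_nonneg (c.S i σ)
          nlinarith
        have h3 : |c.S i σ| ≤ 2 / η * c.S i σ ^ 2 + η / 8 := by
          have h4 : 0 ≤ 2 / η * (|c.S i σ| - η / 4) ^ 2 := by positivity
          have h5 : 2 / η * (|c.S i σ| - η / 4) ^ 2 =
              2 / η * |c.S i σ| ^ 2 - |c.S i σ| + η / 8 := by
            field_simp
            ring
          rw [h5, sq_abs] at h4
          linarith
        calc |c.S i σ| * |Real.cos (c.ang i σ)| * c.w R i σ
            ≤ (2 / η * c.S i σ ^ 2 + η / 8) * c.w R i σ :=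
              mul_le_mul_of_nonneg_right (h2.trans h3) hw
          _ = _ := by ring
      · apply hIi
        exact (continuousOn_const.mul (hS2 i)).add (continuousOn_const.mul (hwc i))
    have hadd : (∫ σ in (0:ℝ)..1, (2 / η * (c.S i σ ^ 2 * c.w R i σ) + η / 8 * c.w R i σ)) =
        2 / η * (∫ σ in (0:ℝ)..1, c.S i σ ^ 2 * c.w R i σ) +
          η / 8 * ∫ σ in (0:ℝ)..1, c.w R i σ := by
      rw [intervalIntegral.integral_add ((hIi (hS2 i)).const_mul _) ((hIi (hwc i)).const_mul _),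
        intervalIntegral.integral_const_mul, intervalIntegral.integral_const_mul]
    rw [hadd, Real.norm_eq_abs] at h1
    unfold Raw.I
    rw [abs_mul, abs_of_pos (hc.L_pos i)]
    have h2 := mul_le_mul_of_nonneg_left h1 (hc.L_pos i).le
    calc _ ≤ _ := h2
      _ = _ := by ring
  have hw1 : ∀ i, (∫ σ in (0:ℝ)..1, c.w R i σ) ≤ 1 := by
    intro i
    have h1 : (∫ σ in (0:ℝ)..1, c.w R i σ) ≤ ∫ σ in (0:ℝ)..1, (1:ℝ) := by
      apply intervalIntegral.integral_mono_on (by norm_num) (hIi (hwc i))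
        intervalIntegrable_const
      intro σ _
      exact (B2_w_le_rho c R i σ).trans (B2_rho_le_one c i σ)
    simpa using h1
  have hls := st.ls_hi
  have hB0 : c.I 0 (c.w R 0) ≤ 1.45 := by
    unfold Raw.I
    have h1 := (abs_le.1 hN.L0).2
    have h2 := hw1 0
    have h3 := hc.L_pos 0
    nlinarith
  have hB1 : c.I 1 (c.w R 1) ≤ 1.45 := by
    unfold Raw.I
    have h1 := (abs_le.1 hN.L1).2
    have h2 := hw1 1
    have h3 := hc.L_pos 1
    nlinarith
  have hB2 : c.I 2 (c.w R 2) ≤ 10 := by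
    refine le_trans ?_ (hc.ray_gauss hth hx)
    unfold Raw.I
    apply mul_le_mul_of_nonneg_left _ (hc.L_pos 2).le
    apply intervalIntegral.integral_mono_on (by norm_num) (hIi (hwc 2))
    · apply hIi
      exact ((continuousOn_const.add ((hc.x_cont 2).pow 2)).pow 2).mul (hc.rho_cont 2)
    · intro σ _
      refine (B2_w_le_rho c R 2 σ).trans ?_
      have h1 : 0 ≤ c.rho 2 σ := (Real.exp_pos _).le
      have h2 : 1 ≤ (1 + c.x 2 σ ^ 2) ^ 2 := by
        have := sq_nonneg (c.x 2 σ)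
        nlinarith
      nlinarith
  have hsum : |c.m R| ≤ 2 / η * c.D R + η / 8 * (c.I 0 (c.w R 0) + c.I 1 (c.w R 1) +
      c.I 2 (c.w R 2)) := by
    have h0 := hterm 0
    have h1 := hterm 1
    have h2 := hterm 2
    unfold Raw.m Raw.D
    rw [Fin.sum_univ_three, Fin.sum_univ_three]
    refine (abs_add_three _ _ _).trans ?_
    linarith
  have h1 : 2 / η * c.D R ≤ 2 * η := by
    rw [div_mul_eq_mul_div, div_le_iff₀ hη]
    nlinarith
  have h2 : η / 8 * (c.I 0 (c.w R 0) + c.I 1 (c.w R 1) + c.I 2 (c.w R 2)) ≤ η / 8 * 16 := by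
    apply mul_le_mul_of_nonneg_left _ (by positivity)
    linarith
  linarith

private theorem B2_rr_pos {T t : ℝ} (h : t < T) : 0 < rr T t :=
  Real.sqrt_pos.2 (by linarith)

private theorem B2_rr_sq {T t : ℝ} (h : t < T) : rr T t ^ 2 = 2 * (T - t) :=
  Real.sq_sqrt (by linarith)

private theorem B2_rr_anti {T s t : ℝ} (h : s ≤ t) : rr T t ≤ rr T s :=
  Real.sqrt_le_sqrt (by linarith)

private theorem B2_rr_deriv {T t : ℝ} (h : t < T) : HasDerivAt (rr T) (-(1 / rr T t)) t := by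
  unfold rr
  have h1 : HasDerivAt (fun t => 2 * (T - t)) (2 * (-1)) t :=
    ((hasDerivAt_id t).const_sub T).const_mul 2
  have h2 := h1.sqrt (by linarith : 2 * (T - t) ≠ 0)
  convert h2 using 1
  have : Real.sqrt (2 * (T - t)) ≠ 0 := (Real.sqrt_pos.2 (by linarith)).ne'
  field_simp

private theorem B2_near_mono {st : Star} {η η' : ℝ} {c : Raw} (h : Near st η c) (hη : η ≤ η') :
    Near st η' c where
  L0 := h.L0.trans hη
  L1 := h.L1.trans hη
  x0 := fun σ hσ => (h.x0 σ hσ).trans hη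
  x1 := fun σ hσ => (h.x1 σ hσ).trans hη
  y0 := fun σ hσ => (h.y0 σ hσ).trans hη
  y1 := fun σ hσ => (h.y1 σ hσ).trans hη
  th0 := fun σ hσ => (h.th0 σ hσ).trans hη
  th1 := fun σ hσ => (h.th1 σ hσ).trans hη

private theorem B2_exp_bound (z : ℝ) : z * Real.exp (-(z / 40)) ≤ 40 := by
  have h1 : z / 40 + 1 ≤ Real.exp (z / 40) := Real.add_one_le_exp _
  have h2 : 0 < Real.exp (z / 40) := Real.exp_pos _
  rw [Real.exp_neg, ← div_eq_mul_inv, div_le_iff₀ h2]
  linarith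

private theorem B2_kap_int {a b : ℝ} (F : Flow a b 1) {r y0 t : ℝ} (hr : 0 < r) :
    (F.raw r y0 t).I 2 (fun σ => (F.raw r y0 t).kap 2 σ ^ 2 *
      chf ((F.raw r y0 t).x 2 σ / (1 / r)) ^ 2) =
      r * (F.ell 2 t * (∫ σ in (0:ℝ)..1, F.k 2 t σ ^ 2 * chf (F.X 2 t σ) ^ 2)) := by
  unfold Raw.I Flow.raw
  simp only
  have h1 : ∀ σ, (r * F.k 2 t σ) ^ 2 * chf (F.X 2 t σ / r / (1 / r)) ^ 2 =
      r ^ 2 * (F.k 2 t σ ^ 2 * chf (F.X 2 t σ) ^ 2) := by
    intro σ
    have : F.X 2 t σ / r / (1 / r) = F.X 2 t σ := by field_simp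
    rw [this]
    ring
  simp_rw [h1]
  rw [intervalIntegral.integral_const_mul]
  field_simp

/-- B2 : persistence of closeness on compact subintervals -/
theorem persistence (st : Star) : ∃ K > 0, ∃ C > 0, ∀ η > 0, ∃ δ > 0, ∃ r1 > 0,
    ∀ (a b : ℝ) (F : Flow a b 1) (T : ℝ), b ≤ T → a < b → rr T a ≤ r1 →
      (∀ t ∈ Ioo a b, F.area t = 2 * Real.pi / 3 * (T - t)) →
      ∀ t1 ∈ Ioo a b, Near st δ (F.raw (rr T t1) 0 t1) →
        (F.raw (rr T t1) 0 t1).D (1 / rr T t1) ≤ δ →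
        (∀ σ ∈ Icc (0:ℝ) 1, |F.th 2 t1 σ| ≤ δ) →
        F.ell 2 t1 * (∫ σ in (0:ℝ)..1, F.k 2 t1 σ ^ 2 * chf (F.X 2 t1 σ) ^ 2) ≤ 1 →
        ∀ t2 ∈ Ioo t1 b, ∃ y0 : ℝ → ℝ, y0 t1 = 0 ∧
          (∀ s ∈ Icc t1 t2, ∀ t ∈ Icc s t2, |y0 t - y0 s| ≤ C * η * rr T s) ∧
          ∀ t ∈ Icc t1 t2, Near st η (F.raw (rr T t) (y0 t) t) ∧
            (F.raw (rr T t) (y0 t) t).D (1 / rr T t) ≤ η ^ 2 ∧
            (∀ σ ∈ Icc (0:ℝ) 1, |F.th 2 t σ| ≤ η) := by
  obtain ⟨c, hc, K, hK, C1, hC1, ε0, hε0, δ0, hδ0, R0, hR0, hstat⟩ := static_ineq st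
  obtain ⟨CF, hCF, R1, hR1, hFr⟩ := Fr_bound
  obtain ⟨CE, hCE, hE⟩ := far_energy
  refine ⟨1, one_pos, 4 * K, by positivity, ?_⟩
  intro η hη
  set η2 : ℝ := min (min η ε0) 0.02 with hη2def
  have hη2 : 0 < η2 := by
    rw [hη2def]
    exact lt_min (lt_min hη hε0) (by norm_num)
  have hη2η : η2 ≤ η := (min_le_left _ _).trans (min_le_left _ _)
  have hη2ε : η2 ≤ ε0 := (min_le_left _ _).trans (min_le_right _ _)
  have hη202 : η2 ≤ 0.02 := min_le_right _ _
  obtain ⟨δc, hδc, Rc, hRc, hclose⟩ := closeness st η2 hη2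
  set d0 : ℝ := min (min δc δ0) (η ^ 2) with hd0def
  have hd0 : 0 < d0 := lt_min (lt_min hδc hδ0) (by positivity)
  have hd0c : d0 ≤ δc := (min_le_left _ _).trans (min_le_left _ _)
  have hd00 : d0 ≤ δ0 := (min_le_left _ _).trans (min_le_right _ _)
  have hd0η : d0 ≤ η ^ 2 := min_le_right _ _
  set M : ℝ := 40 * (C1 * (CF * (2 + CE))) with hM
  have hMpos : 0 < M := by positivity
  set δ : ℝ := min (d0 / 4) η2 with hδdef
  have hδ : 0 < δ := lt_min (by positivity) hη2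
  have hδd : δ ≤ d0 / 4 := min_le_left _ _
  have hδη : δ ≤ η2 := min_le_right _ _
  set r1 : ℝ := min (1 / 32) (min (1 / R0) (min (1 / R1) (min (1 / Rc) (d0 / (2 * M)))))
    with hr1def
  have hr1 : 0 < r1 := by
    rw [hr1def]
    refine lt_min (by norm_num) (lt_min (by positivity) (lt_min (by positivity)
      (lt_min (by positivity) (by positivity))))
  have hr1a : r1 ≤ 1 / 32 := min_le_left _ _
  have hr1b : r1 ≤ 1 / R0 := (min_le_right _ _).trans (min_le_left _ _)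
  have hr1c : r1 ≤ 1 / R1 := (min_le_right _ _).trans ((min_le_right _ _).trans (min_le_left _ _))
  have hr1d : r1 ≤ 1 / Rc := (min_le_right _ _).trans ((min_le_right _ _).trans
    ((min_le_right _ _).trans (min_le_left _ _)))
  have hr1e : r1 ≤ d0 / (2 * M) := (min_le_right _ _).trans ((min_le_right _ _).trans
    ((min_le_right _ _).trans (min_le_right _ _)))
  refine ⟨δ, hδ, r1, hr1, ?_⟩
  intro a b F T hbT hab hra hA t1 ht1 hN1 hD1 hth1 hfar1 t2 ht2
  have h12 : t1 < t2 := ht2.1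
  have hIoo : ∀ t ∈ Icc t1 t2, t ∈ Ioo a b := fun t ht =>
    ⟨lt_of_lt_of_le ht1.1 ht.1, lt_of_le_of_lt ht.2 ht2.2⟩
  have hltT : ∀ t ∈ Icc t1 t2, t < T := fun t ht => lt_of_lt_of_le (hIoo t ht).2 hbT
  have hrpos : ∀ t ∈ Icc t1 t2, 0 < rr T t := fun t ht => B2_rr_pos (hltT t ht)
  have hrle : ∀ t ∈ Icc t1 t2, rr T t ≤ r1 := fun t ht =>
    (B2_rr_anti (hIoo t ht).1.le).trans hra
  have hRge : ∀ t ∈ Icc t1 t2, ∀ {R' : ℝ}, 0 < R' → r1 ≤ 1 / R' → R' ≤ 1 / rr T t := by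
    intro t ht R' hR' h
    rw [le_div_iff₀ (hrpos t ht)]
    have h1 := (hrle t ht).trans h
    rw [le_div_iff₀ hR'] at h1
    linarith
  obtain ⟨y0, hy01, hy0c, hy0d⟩ := exists_center F (K := K) (y1 := 0) hbT ht1.1 h12 ht2.2
  have hcfg : ∀ t ∈ Icc t1 t2, IsCfg (1 / rr T t) (F.raw (rr T t) (y0 t) t) := fun t ht =>
    raw_isCfg F hbT (hIoo t ht) (hA t (hIoo t ht)) (y0 t)
  have hlen : ∀ t ∈ Icc t1 t2, t - t1 ≤ r1 ^ 2 / 2 := by
    intro t ht
    have h1 := B2_rr_sq (lt_of_lt_of_le hab hbT : a < T)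
    have h2 : rr T a ^ 2 ≤ r1 ^ 2 := by
      have : 0 ≤ rr T a := Real.sqrt_nonneg _
      gcongr
    have h3 := hltT t ht
    have h4 := ht1.1
    linarith
  have hr1sq : r1 ^ 2 ≤ r1 := by nlinarith
  have hlen1 : ∀ t ∈ Icc t1 t2, t - t1 ≤ 1 := by
    intro t ht
    have := hlen t ht
    nlinarith
  -- the good quantities
  set D : ℝ → ℝ := fun t => (F.raw (rr T t) (y0 t) t).D (1 / rr T t) with hDdef
  set φ : ℝ → ℝ := fun t =>
    max (|(F.Y 0 t 1 - y0 t) / rr T t - st.y 0| / 0.04)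
      (max (|(F.Y 1 t 1 - y0 t) / rr T t + st.y 0| / 0.04)
        (max (|F.ell 0 t / rr T t - st.ls| / 0.04)
          (max (|F.ell 1 t / rr T t - st.ls| / 0.04)
            (max (D t / d0) (|F.th 2 t 0| / 0.1))))) with hφ
  have hDc : ContinuousOn D (Icc t1 t2) := D_cont one_pos F hbT ht1.1 ht2.2 hy0c
  have hrc : ContinuousOn (rr T) (Icc t1 t2) := fun t ht =>
    (B2_rr_deriv (hltT t ht)).continuousAt.continuousWithinAt
  have h01 : (0:ℝ) ∈ Icc (0:ℝ) 1 := ⟨le_rfl, zero_le_one⟩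
  have h11 : (1:ℝ) ∈ Icc (0:ℝ) 1 := ⟨zero_le_one, le_rfl⟩
  have hYc : ∀ i, ContinuousOn (fun t => F.Y i t 1) (Icc t1 t2) := fun i t ht =>
    (F.Y_t i t (hIoo t ht) 1 h11).continuousAt.continuousWithinAt
  have hLc : ∀ i, ContinuousOn (fun t => F.ell i t) (Icc t1 t2) := fun i t ht =>
    (F.ell_t i t (hIoo t ht)).continuousAt.continuousWithinAt
  have hthc : ContinuousOn (fun t => F.th 2 t 0) (Icc t1 t2) := fun t ht =>
    (F.th_t 2 t (hIoo t ht) 0 h01).continuousAt.continuousWithinAt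
  have hrne : ∀ t ∈ Icc t1 t2, rr T t ≠ 0 := fun t ht => (hrpos t ht).ne'
  have hφc : ContinuousOn φ (Icc t1 t2) := by
    have c1 : ContinuousOn (fun t => |(F.Y 0 t 1 - y0 t) / rr T t - st.y 0| / 0.04)
        (Icc t1 t2) :=
      ((((hYc 0).sub hy0c).div hrc hrne).sub continuousOn_const).abs.div_const _
    have c2 : ContinuousOn (fun t => |(F.Y 1 t 1 - y0 t) / rr T t + st.y 0| / 0.04)
        (Icc t1 t2) :=
      ((((hYc 1).sub hy0c).div hrc hrne).add continuousOn_const).abs.div_const _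
    have c3 : ContinuousOn (fun t => |F.ell 0 t / rr T t - st.ls| / 0.04) (Icc t1 t2) :=
      (((hLc 0).div hrc hrne).sub continuousOn_const).abs.div_const _
    have c4 : ContinuousOn (fun t => |F.ell 1 t / rr T t - st.ls| / 0.04) (Icc t1 t2) :=
      (((hLc 1).div hrc hrne).sub continuousOn_const).abs.div_const _
    have c5 : ContinuousOn (fun t => D t / d0) (Icc t1 t2) := hDc.div_const _
    have c6 : ContinuousOn (fun t => |F.th 2 t 0| / 0.1) (Icc t1 t2) := hthc.abs.div_const _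
    exact c1.sup (c2.sup (c3.sup (c4.sup (c5.sup c6))))
  -- from Near to the window
  have hwinN : ∀ t ∈ Icc t1 t2, Near st η2 (F.raw (rr T t) (y0 t) t) →
      |(F.Y 0 t 1 - y0 t) / rr T t - st.y 0| ≤ 0.02 ∧
      |(F.Y 1 t 1 - y0 t) / rr T t + st.y 0| ≤ 0.02 ∧
      |F.ell 0 t / rr T t - st.ls| ≤ 0.02 ∧ |F.ell 1 t / rr T t - st.ls| ≤ 0.02 ∧
      |F.th 2 t 0| ≤ η2 := by
    intro t ht hN
    have h1 := hN.y0 1 h11
    have h2 := hN.y1 1 h11
    have h3 := hN.L0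
    have h4 := hN.L1
    have h5 := hN.th0 0 h01
    have hsg1 : st.sg 1 = 0 := by unfold Star.sg; ring
    have hsg0 : st.sg 0 = st.ls := by unfold Star.sg; ring
    rw [hsg1] at h1 h2
    rw [hsg0, st.a_ls] at h5
    refine ⟨h1.trans hη202, h2.trans hη202, h3.trans hη202, h4.trans hη202, ?_⟩
    have h6 : (F.raw (rr T t) (y0 t) t).th 0 0 = F.th 2 t 0 := F.th_J 0 t (hIoo t ht)
    rw [h6] at h5
    simpa using h5
  have hφlt : ∀ t, |(F.Y 0 t 1 - y0 t) / rr T t - st.y 0| ≤ 0.02 →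
      |(F.Y 1 t 1 - y0 t) / rr T t + st.y 0| ≤ 0.02 →
      |F.ell 0 t / rr T t - st.ls| ≤ 0.02 → |F.ell 1 t / rr T t - st.ls| ≤ 0.02 →
      |F.th 2 t 0| ≤ η2 → D t ≤ d0 / 2 → φ t < 1 := by
    intro t g1 g2 g3 g4 g5 g6
    have k1 : |(F.Y 0 t 1 - y0 t) / rr T t - st.y 0| / 0.04 < 1 := by
      rw [div_lt_one (by norm_num)]; linarith
    have k2 : |(F.Y 1 t 1 - y0 t) / rr T t + st.y 0| / 0.04 < 1 := by
      rw [div_lt_one (by norm_num)]; linarith
    have k3 : |F.ell 0 t / rr T t - st.ls| / 0.04 < 1 := by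
      rw [div_lt_one (by norm_num)]; linarith
    have k4 : |F.ell 1 t / rr T t - st.ls| / 0.04 < 1 := by
      rw [div_lt_one (by norm_num)]; linarith
    have k5 : D t / d0 < 1 := by
      rw [div_lt_one hd0]; linarith
    have k6 : |F.th 2 t 0| / 0.1 < 1 := by
      rw [div_lt_one (by norm_num)]; linarith
    exact max_lt k1 (max_lt k2 (max_lt k3 (max_lt k4 (max_lt k5 k6))))
  have hφ1 : φ t1 < 1 := by
    have ht1' : t1 ∈ Icc t1 t2 := ⟨le_rfl, h12.le⟩
    have hN1' : Near st η2 (F.raw (rr T t1) (y0 t1) t1) := by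
      rw [hy01]; exact B2_near_mono hN1 hδη
    obtain ⟨g1, g2, g3, g4, g5⟩ := hwinN t1 ht1' hN1'
    refine hφlt t1 g1 g2 g3 g4 g5 ?_
    simp only [hDdef, hy01]
    linarith
  -- consequences of `φ ≤ 1` on `[t1,t]`
  have hcons : ∀ t ∈ Icc t1 t2, (∀ s ∈ Icc t1 t, φ s ≤ 1) → ∀ s ∈ Icc t1 t,
      Near st η2 (F.raw (rr T s) (y0 s) s) ∧ D s ≤ d0 ∧
        (∀ σ ∈ Icc (0:ℝ) 1, |F.th 2 s σ| ≤ η2) := by
    intro t ht hs
    have htb : t ∈ Ico t1 b := ⟨ht.1, lt_of_le_of_lt ht.2 ht2.2⟩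
    have hmem : ∀ s ∈ Icc t1 t, s ∈ Icc t1 t2 := fun s hs => ⟨hs.1, hs.2.trans ht.2⟩
    have hparts : ∀ s ∈ Icc t1 t, |(F.Y 0 s 1 - y0 s) / rr T s - st.y 0| ≤ 0.04 ∧
        |(F.Y 1 s 1 - y0 s) / rr T s + st.y 0| ≤ 0.04 ∧
        |F.ell 0 s / rr T s - st.ls| ≤ 0.04 ∧ |F.ell 1 s / rr T s - st.ls| ≤ 0.04 ∧
        D s ≤ d0 ∧ |F.th 2 s 0| ≤ 0.1 := by
      intro s hs'
      have h := hs s hs'
      simp only [hφ, max_le_iff] at h
      obtain ⟨k1, k2, k3, k4, k5, k6⟩ := h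
      rw [div_le_one (by norm_num)] at k1 k2 k3 k4 k6
      rw [div_le_one hd0] at k5
      exact ⟨k1, k2, k3, k4, k5, k6⟩
    have hray : ∀ s ∈ Icc t1 t, ∀ σ ∈ Icc (0:ℝ) 1, |F.th 2 s σ| ≤ 0.1 := by
      apply ray_max F ht1 (fun σ hσ => ?_) htb (fun s hs' => (hparts s hs').2.2.2.2.2)
      have := hth1 σ hσ
      linarith
    have hnear : ∀ s ∈ Icc t1 t, Near st η2 (F.raw (rr T s) (y0 s) s) := by
      intro s hs'
      obtain ⟨k1, k2, k3, k4, k5, k6⟩ := hparts s hs'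
      refine hclose (1 / rr T s) _ (hRge s (hmem s hs') hRc hr1d) (hcfg s (hmem s hs'))
        ⟨k1, k2, k3, k4⟩ (hray s hs') (k5.trans hd0c)
    have hray2 : ∀ s ∈ Icc t1 t, ∀ σ ∈ Icc (0:ℝ) 1, |F.th 2 s σ| ≤ η2 := by
      apply ray_max F ht1 (fun σ hσ => ?_) htb
        (fun s hs' => (hwinN s (hmem s hs') (hnear s hs')).2.2.2.2)
      exact (hth1 σ hσ).trans hδη
    intro s hs'
    exact ⟨hnear s hs', (hparts s hs').2.2.2.2.1, hray2 s hs'⟩
  -- position of the junction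
  have hJx : ∀ s ∈ Icc t1 t2, Near st η2 (F.raw (rr T s) (y0 s) s) →
      0 ≤ F.X 2 s 0 ∧ F.X 2 s 0 ≤ 1 / 16 ∧ (F.raw (rr T s) (y0 s) s).x 2 0 ∈ Icc (0:ℝ) 3 ∧
        |(F.raw (rr T s) (y0 s) s).y 2 0| ≤ 3 := by
    intro s hs hN
    have hr := hrpos s hs
    have hrl := (hrle s hs).trans hr1a
    have h1 := hN.x0 0 h01
    have h2 := hN.y0 0 h01
    have hsg0 : st.sg 0 = st.ls := by unfold Star.sg; ring
    rw [hsg0] at h1 h2
    rw [(hcfg s hs).x_J 0] at h1
    rw [(hcfg s hs).y_J 0, st.y_ls] at h2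
    have hx := abs_le.1 h1
    have hlo := st.xi_lo
    have hhi := st.xi_hi
    have hxr : (F.raw (rr T s) (y0 s) s).x 2 0 = F.X 2 s 0 / rr T s := rfl
    have hx0 : 0 ≤ (F.raw (rr T s) (y0 s) s).x 2 0 := by linarith
    have hx3 : (F.raw (rr T s) (y0 s) s).x 2 0 ≤ 1.3 := by linarith
    have hX : F.X 2 s 0 = (F.raw (rr T s) (y0 s) s).x 2 0 * rr T s := by
      rw [hxr]; field_simp
    refine ⟨?_, ?_, ⟨hx0, by linarith⟩, ?_⟩
    · rw [hX]; positivity
    · rw [hX]; nlinarith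
    · rw [sub_zero] at h2
      linarith
  -- the bootstrap
  have hboot : ∀ t ∈ Icc t1 t2, φ t < 1 := by
    apply B2_bootstrap φ hφc hφ1
    intro t ht hs
    have hC := hcons t ht hs
    have htt : t ∈ Icc t1 t := ⟨ht.1, le_rfl⟩
    have hmem : ∀ s ∈ Icc t1 t, s ∈ Icc t1 t2 := fun s hs => ⟨hs.1, hs.2.trans ht.2⟩
    obtain ⟨hNt, hDt, htht⟩ := hC t htt
    obtain ⟨g1, g2, g3, g4, g5⟩ := hwinN t ht hNt
    refine hφlt t g1 g2 g3 g4 g5 ?_
    -- the estimate for D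
    have hderiv : ∀ s ∈ Ioo t1 t, HasDerivAt D
        ((F.raw (rr T s) (y0 s) s).rhs (1 / rr T s) K / rr T s ^ 2) s := by
      intro s hs'
      have hsI : s ∈ Icc t1 t := Ioo_subset_Icc_self hs'
      have hs2 := hmem s hsI
      obtain ⟨_, hX1, _, _⟩ := hJx s hs2 (hC s hsI).1
      refine D_deriv one_pos F hbT (hIoo s hs2) (by linarith) ?_
      exact hy0d s ⟨hs'.1, lt_of_lt_of_le hs'.2 ht.2⟩
    have hbound : ∀ s ∈ Ioo t1 t,
        (F.raw (rr T s) (y0 s) s).rhs (1 / rr T s) K / rr T s ^ 2 ≤ M := by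
      intro s hs'
      have hsI : s ∈ Icc t1 t := Ioo_subset_Icc_self hs'
      have hs2 := hmem s hsI
      obtain ⟨hNs, hDs, hths⟩ := hC s hsI
      obtain ⟨hX0, hX1, hx2, hy2⟩ := hJx s hs2 hNs
      have hr := hrpos s hs2
      have hrl := (hrle s hs2).trans hr1a
      have hth01 : ∀ σ ∈ Icc (0:ℝ) 1, |F.th 2 s σ| ≤ 0.1 := fun σ hσ => by
        have := hths σ hσ
        linarith
      have e1 := hstat (1 / rr T s) _ (hRge s hs2 hR0 hr1b) (hcfg s hs2)
        (B2_near_mono hNs hη2ε) (fun σ hσ => (hths σ hσ).trans hη2ε) (hDs.trans hd00)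
      have e2 := hFr (1 / rr T s) _ (hRge s hs2 hR1 hr1c) (hcfg s hs2) hth01 hx2 hy2
      rw [B2_kap_int F hr] at e2
      have e3 := hE a b F t1 ht1 s ⟨hs'.1.le, (hIoo s hs2).2⟩ (hlen1 s hs2)
        (fun u hu σ hσ => by
          have := (hC u ⟨hu.1, hu.2.trans hsI.2⟩).2.2 σ hσ
          linarith)
        (fun u hu => by
          have hu' : u ∈ Icc t1 t := ⟨hu.1, hu.2.trans hsI.2⟩
          obtain ⟨q1, q2, _, _⟩ := hJx u (hmem u hu') (hC u hu').1
          exact ⟨q1, q2⟩)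
      set En := F.ell 2 s * (∫ σ in (0:ℝ)..1, F.k 2 s σ ^ 2 * chf (F.X 2 s σ) ^ 2) with hEn
      have hEn1 : En ≤ 1 + CE := by linarith
      have e4 : (F.raw (rr T s) (y0 s) s).Fr (1 / rr T s) ≤
          CF * Real.exp (-((1 / rr T s) ^ 2 / 40)) * (2 + CE) := by
        refine e2.trans ?_
        apply mul_le_mul_of_nonneg_left _ (by positivity)
        have : rr T s * En ≤ 1 * (1 + CE) := by
          calc rr T s * En ≤ rr T s * (1 + CE) := mul_le_mul_of_nonneg_left hEn1 hr.le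
            _ ≤ 1 * (1 + CE) := by
              apply mul_le_mul_of_nonneg_right _ (by positivity)
              linarith
        linarith
      have hDnn := B2_D_nonneg (hcfg s hs2)
      have e5 : (F.raw (rr T s) (y0 s) s).rhs (1 / rr T s) K ≤
          C1 * (CF * Real.exp (-((1 / rr T s) ^ 2 / 40)) * (2 + CE)) := by
        refine e1.trans ?_
        have h1 := mul_le_mul_of_nonneg_left e4 hC1.le
        have h2 : 0 ≤ c * (F.raw (rr T s) (y0 s) s).D (1 / rr T s) := by positivity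
        linarith
      have e6 := B2_exp_bound ((1 / rr T s) ^ 2)
      rw [div_le_iff₀ (by positivity)]
      refine e5.trans ?_
      have e7 : Real.exp (-((1 / rr T s) ^ 2 / 40)) ≤ 40 * rr T s ^ 2 := by
        have h1 : (1 / rr T s) ^ 2 = 1 / rr T s ^ 2 := by ring
        rw [h1] at e6 ⊢
        rw [div_mul_eq_mul_div, one_mul, div_le_iff₀ (by positivity)] at e6
        exact e6
      calc C1 * (CF * Real.exp (-((1 / rr T s) ^ 2 / 40)) * (2 + CE))
          ≤ C1 * (CF * (40 * rr T s ^ 2) * (2 + CE)) := by gcongr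
        _ = M * rr T s ^ 2 := by rw [hM]; ring
    have hD : D t - D t1 ≤ M * (t - t1) := by
      apply Convex.image_sub_le_mul_sub_of_deriv_le (convex_Icc t1 t)
        (hDc.mono (Icc_subset_Icc_right ht.2)) _ _ t1 ⟨le_rfl, ht.1⟩ t htt ht.1
      · rw [interior_Icc]
        intro s hs'
        exact (hderiv s hs').differentiableAt.differentiableWithinAt
      · rw [interior_Icc]
        intro s hs'
        rw [(hderiv s hs').deriv]
        exact hbound s hs'
    have hD1' : D t1 ≤ δ := by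
      simp only [hDdef, hy01]
      exact hD1
    have hMt : M * (t - t1) ≤ d0 / 4 := by
      have h1 := hlen t ht
      have h2 : r1 * (2 * M) ≤ d0 := by
        rwa [le_div_iff₀ (by positivity)] at hr1e
      have h3 : M * (t - t1) ≤ M * (r1 / 2) := by
        apply mul_le_mul_of_nonneg_left _ hMpos.le
        linarith
      linarith
    linarith
  have hall : ∀ t ∈ Icc t1 t2, Near st η2 (F.raw (rr T t) (y0 t) t) ∧ D t ≤ d0 ∧
        (∀ σ ∈ Icc (0:ℝ) 1, |F.th 2 t σ| ≤ η2) := by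
    intro t ht
    exact hcons t ht (fun s hs => (hboot s ⟨hs.1, hs.2.trans ht.2⟩).le) t ⟨ht.1, le_rfl⟩
  refine ⟨y0, hy01, ?_, ?_⟩
  · -- drift of the centre
    intro s hs t ht
    have hst : ∀ u ∈ Icc s t, u ∈ Icc t1 t2 := fun u hu => ⟨hs.1.trans hu.1, hu.2.trans ht.2⟩
    have hm : ∀ u ∈ Icc t1 t2, |(F.raw (rr T u) (y0 u) u).m (1 / rr T u)| ≤ 4 * η := by
      intro u hu
      obtain ⟨hNu, hDu, hthu⟩ := hall u hu
      obtain ⟨_, _, hx2, _⟩ := hJx u hu hNu
      apply B2_m_bound st (hcfg u hu) (B2_near_mono hNu (by linarith)) _ hx2.1 hη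
        (hDu.trans hd0η)
      intro σ hσ
      have := hthu σ hσ
      change |F.th 2 u σ| ≤ 0.1
      linarith
    have hcont : ContinuousOn y0 (Icc s t) := hy0c.mono (fun u hu => hst u hu)
    have hrcont : ContinuousOn (rr T) (Icc s t) := hrc.mono (fun u hu => hst u hu)
    have hdy : ∀ u ∈ Ioo s t, HasDerivAt y0
        (K * (F.raw (rr T u) (y0 u) u).m (1 / rr T u) / rr T u) u := fun u hu =>
      hy0d u ⟨lt_of_le_of_lt hs.1 hu.1, lt_of_lt_of_le hu.2 ht.2⟩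
    have hsgn : ∀ ε : ℝ, |ε| ≤ 1 → ε * y0 t + 4 * K * η * rr T t ≤
        ε * y0 s + 4 * K * η * rr T s := by
      intro ε hε
      have hanti : AntitoneOn (fun u => ε * y0 u + 4 * K * η * rr T u) (Icc s t) := by
        apply antitoneOn_of_deriv_nonpos (convex_Icc s t)
        · exact (continuousOn_const.mul hcont).add (continuousOn_const.mul hrcont)
        · rw [interior_Icc]
          intro u hu
          have h1 := ((hdy u hu).const_mul ε).add
            ((B2_rr_deriv (hltT u (hst u (Ioo_subset_Icc_self hu)))).const_mul (4 * K * η))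
          exact h1.differentiableAt.differentiableWithinAt
        · rw [interior_Icc]
          intro u hu
          have huI := hst u (Ioo_subset_Icc_self hu)
          have h1 := ((hdy u hu).const_mul ε).add
            ((B2_rr_deriv (hltT u huI)).const_mul (4 * K * η))
          have h2 : deriv (fun u => ε * y0 u + 4 * K * η * rr T u) u = _ := h1.deriv
          rw [h2]
          have hr := hrpos u huI
          have hmu := hm u huI
          have h3 : ε * (K * (F.raw (rr T u) (y0 u) u).m (1 / rr T u) / rr T u) +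
              4 * K * η * -(1 / rr T u) =
              K * (ε * (F.raw (rr T u) (y0 u) u).m (1 / rr T u) - 4 * η) / rr T u := by
            field_simp
            ring
          rw [h3]
          apply div_nonpos_of_nonpos_of_nonneg _ hr.le
          apply mul_nonpos_of_nonneg_of_nonpos hK.le
          have h4 : ε * (F.raw (rr T u) (y0 u) u).m (1 / rr T u) ≤
              |ε| * |(F.raw (rr T u) (y0 u) u).m (1 / rr T u)| := by
            rw [← abs_mul]
            exact le_abs_self _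
          have h5 : |ε| * |(F.raw (rr T u) (y0 u) u).m (1 / rr T u)| ≤ 1 * (4 * η) :=
            mul_le_mul hε hmu (abs_nonneg _) zero_le_one
          linarith
      exact hanti ⟨le_rfl, ht.1⟩ ⟨ht.1, le_rfl⟩ ht.1
    have hrt : 0 ≤ 4 * K * η * rr T t := by
      have := (hrpos t ⟨hs.1.trans ht.1, ht.2⟩).le
      positivity
    have p1 := hsgn 1 (by simp)
    have p2 := hsgn (-1) (by simp)
    rw [abs_le]
    constructor <;> linarith
  · intro t ht
    obtain ⟨hNt, hDt, htht⟩ := hall t ht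
    exact ⟨B2_near_mono hNt hη2η, hDt.trans hd0η, fun σ hσ => (htht σ hσ).trans hη2η⟩

end Pool.Agent.Helper15.NF
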