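import Pool.Agent.Helper15.NF.SDefs
import Pool.Agent.Helper15.NF.U0

/-!
U1 : elementary facts on admissible configurations
-/

open Set MeasureTheory intervalIntegral Filter Topology

namespace Pool.Agent.Helper15.NF

/-- comparison of increments -/
private theorem U1_incr {f f' : ℝ → ℝ} {A : ℝ}
    (hf : ∀ σ ∈ Icc (0:ℝ) 1, HasDerivWithinAt f (f' σ) (Icc 0 1) σ)
    (hA : ∀ σ ∈ Icc (0:ℝ) 1, f' σ ≤ A) {σ τ : ℝ} (hσ : 0 ≤ σ) (hστ : σ ≤ τ) (hτ : τ ≤ 1) :
    f τ - f σ ≤ A * (τ - σ) := by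
  have h1 : MonotoneOn (fun s => A * s - f s) (Icc (0:ℝ) 1) := by
    apply monotoneOn_of_hasDerivWithinAt_nonneg (convex_Icc 0 1) (f' := fun s => A - f' s)
    · exact (continuousOn_const.mul continuousOn_id).sub
        (fun s hs => (hf s hs).continuousWithinAt)
    · intro s hs
      have hs' := interior_subset hs
      have h2 := ((hasDerivWithinAt_id s (Icc (0:ℝ) 1)).const_mul A).sub (hf s hs')
      rw [mul_one] at h2
      exact h2.mono interior_subset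
    · intro s hs
      have := hA s (interior_subset hs)
      linarith
  have h3 := h1 ⟨hσ, hστ.trans hτ⟩ ⟨hσ.trans hστ, hτ⟩ hστ
  simp only at h3
  linarith

namespace IsCfg
variable {R : ℝ} {c : Raw}

theorem th_cont (hc : IsCfg R c) (i : Fin 3) : ContinuousOn (c.th i) (Icc 0 1) :=
  fun σ hσ => (hc.th_s i σ hσ).continuousWithinAt
theorem x_cont (hc : IsCfg R c) (i : Fin 3) : ContinuousOn (c.x i) (Icc 0 1) :=
  fun σ hσ => (hc.x_s i σ hσ).continuousWithinAt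
theorem y_cont (hc : IsCfg R c) (i : Fin 3) : ContinuousOn (c.y i) (Icc 0 1) :=
  fun σ hσ => (hc.y_s i σ hσ).continuousWithinAt
theorem S_cont (hc : IsCfg R c) (i : Fin 3) : ContinuousOn (c.S i) (Icc 0 1) :=
  fun σ hσ => (hc.S_s i σ hσ).continuousWithinAt
theorem ang_cont (hc : IsCfg R c) (i : Fin 3) : ContinuousOn (c.ang i) (Icc 0 1) :=
  (hc.th_cont i).add continuousOn_const
theorem h_cont (hc : IsCfg R c) (i : Fin 3) : ContinuousOn (c.h i) (Icc 0 1) :=
  ((hc.x_cont i).mul (Real.continuous_sin.comp_continuousOn (hc.ang_cont i))).neg.add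
    ((hc.y_cont i).mul (Real.continuous_cos.comp_continuousOn (hc.ang_cont i)))
theorem p_cont (hc : IsCfg R c) (i : Fin 3) : ContinuousOn (c.p i) (Icc 0 1) :=
  ((hc.x_cont i).mul (Real.continuous_cos.comp_continuousOn (hc.ang_cont i))).add
    ((hc.y_cont i).mul (Real.continuous_sin.comp_continuousOn (hc.ang_cont i)))
theorem rho_cont (hc : IsCfg R c) (i : Fin 3) : ContinuousOn (c.rho i) (Icc 0 1) :=
  Real.continuous_exp.comp_continuousOn
    (((((hc.x_cont i).pow 2).add ((hc.y_cont i).pow 2)).div_const 2).neg)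
theorem w_cont (hc : IsCfg R c) (i : Fin 3) : ContinuousOn (c.w R i) (Icc 0 1) :=
  (hc.rho_cont i).mul (cut_contDiff.continuous.comp_continuousOn ((hc.x_cont i).div_const R))
theorem dcut_cont (hc : IsCfg R c) (i : Fin 3) :
    ContinuousOn (fun σ => deriv cut (c.x i σ / R)) (Icc 0 1) :=
  cut_deriv_cont.comp_continuousOn ((hc.x_cont i).div_const R)
theorem chf_cont (hc : IsCfg R c) (i : Fin 3) :
    ContinuousOn (fun σ => chf (c.x i σ / R)) (Icc 0 1) :=
  chf_contDiff.continuous.comp_continuousOn ((hc.x_cont i).div_const R)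

theorem ang_s (hc : IsCfg R c) (i : Fin 3) {σ : ℝ} (hσ : σ ∈ Icc (0:ℝ) 1) :
    HasDerivWithinAt (c.ang i) (c.L i * c.kap i σ) (Icc 0 1) σ :=
  (hc.th_s i σ hσ).add_const _
theorem h_s (hc : IsCfg R c) (i : Fin 3) {σ : ℝ} (hσ : σ ∈ Icc (0:ℝ) 1) :
    HasDerivWithinAt (c.h i) (-(c.L i * (c.kap i σ * c.p i σ))) (Icc 0 1) σ := by
  have h1 := (((hc.x_s i σ hσ).mul (hc.ang_s i hσ).sin).neg).add
    ((hc.y_s i σ hσ).mul (hc.ang_s i hσ).cos)
  refine h1.congr_deriv ?_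
  unfold Raw.p
  ring
theorem p_s (hc : IsCfg R c) (i : Fin 3) {σ : ℝ} (hσ : σ ∈ Icc (0:ℝ) 1) :
    HasDerivWithinAt (c.p i) (c.L i * (1 + c.kap i σ * c.h i σ)) (Icc 0 1) σ := by
  have h1 := ((hc.x_s i σ hσ).mul (hc.ang_s i hσ).cos).add
    ((hc.y_s i σ hσ).mul (hc.ang_s i hσ).sin)
  refine h1.congr_deriv ?_
  unfold Raw.h
  linear_combination (c.L i) * Real.sin_sq_add_cos_sq (c.ang i σ)
theorem rho_s (hc : IsCfg R c) (i : Fin 3) {σ : ℝ} (hσ : σ ∈ Icc (0:ℝ) 1) :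
    HasDerivWithinAt (c.rho i) (-(c.L i * (c.p i σ * c.rho i σ))) (Icc 0 1) σ := by
  have h1 := (((((hc.x_s i σ hσ).pow 2).add ((hc.y_s i σ hσ).pow 2)).div_const 2).neg).exp
  refine h1.congr_deriv ?_
  unfold Raw.p Raw.rho
  simp only [Pi.add_apply, Pi.neg_apply, Pi.pow_apply]
  push_cast
  ring
theorem w_s (hR : 0 < R) (hc : IsCfg R c) (i : Fin 3) {σ : ℝ} (hσ : σ ∈ Icc (0:ℝ) 1) :
    HasDerivWithinAt (c.w R i)
      (c.L i * (-(c.p i σ * c.w R i σ) +
        c.rho i σ * (deriv cut (c.x i σ / R) / R * Real.cos (c.ang i σ)))) (Icc 0 1) σ := by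
  have h1 := (hc.rho_s i hσ).mul
    ((cut_hasDerivAt (c.x i σ / R)).comp_hasDerivWithinAt σ ((hc.x_s i σ hσ).div_const R))
  refine h1.congr_deriv ?_
  unfold Raw.w
  simp only [Function.comp]
  field_simp
/-- the curvature is `S - h`, its derivative is `Ss + kap p` -/
theorem kap_s (hc : IsCfg R c) (i : Fin 3) {σ : ℝ} (hσ : σ ∈ Icc (0:ℝ) 1) :
    HasDerivWithinAt (c.kap i) (c.L i * (c.Ss i σ + c.kap i σ * c.p i σ)) (Icc 0 1) σ := by
  have h1 := (hc.S_s i σ hσ).sub (hc.h_s i hσ)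
  have h2 : c.kap i = c.S i - c.h i := by
    funext s
    simp [Raw.S]
  rw [h2]
  refine h1.congr_deriv ?_
  rw [← h2]
  ring

private theorem U1_sin (θ : ℝ) : Real.sin (θ + 2 * Real.pi / 3) +
    Real.sin (θ + -(2 * Real.pi / 3)) + Real.sin θ = 0 := by
  have h1 : Real.cos (2 * Real.pi / 3) = -(1 / 2) := by
    have : 2 * Real.pi / 3 = Real.pi - Real.pi / 3 := by ring
    rw [this, Real.cos_pi_sub, Real.cos_pi_div_three]
  rw [Real.sin_add, Real.sin_add, Real.cos_neg, Real.sin_neg, h1]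
  ring
private theorem U1_cos (θ : ℝ) : Real.cos (θ + 2 * Real.pi / 3) +
    Real.cos (θ + -(2 * Real.pi / 3)) + Real.cos θ = 0 := by
  have h1 : Real.cos (2 * Real.pi / 3) = -(1 / 2) := by
    have : 2 * Real.pi / 3 = Real.pi - Real.pi / 3 := by ring
    rw [this, Real.cos_pi_sub, Real.cos_pi_div_three]
  rw [Real.cos_add, Real.cos_add, Real.cos_neg, Real.sin_neg, h1]
  ring

theorem h_J (hc : IsCfg R c) : ∑ i, c.h i 0 = 0 := by
  rw [Fin.sum_univ_three]
  unfold Raw.h Raw.ang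
  rw [hc.x_J 0, hc.x_J 1, hc.y_J 0, hc.y_J 1, hc.th_J 0, hc.th_J 1]
  simp only [off, Matrix.cons_val_zero, Matrix.cons_val_one, Matrix.cons_val_two,
    Matrix.head_cons, Matrix.tail_cons, add_zero]
  linear_combination (-(c.x 2 0)) * U1_sin (c.th 2 0) + (c.y 2 0) * U1_cos (c.th 2 0)
theorem S_J (hc : IsCfg R c) : ∑ i, c.S i 0 = 0 := by
  unfold Raw.S
  rw [Finset.sum_add_distrib, hc.kap_J, hc.h_J, add_zero]
theorem rho_J (hc : IsCfg R c) (i : Fin 3) : c.rho i 0 = c.rho 2 0 := by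
  unfold Raw.rho
  rw [hc.x_J i, hc.y_J i]
theorem ang_ray (σ : ℝ) : c.ang 2 σ = c.th 2 σ := by
  simp [Raw.ang, off]
theorem C1_S (hc : IsCfg R c) (i : Fin 3) : C1 (c.S i) (c.dS i) :=
  ⟨hc.S_s i, continuousOn_const.mul (hc.Ss_cont i)⟩

private theorem U1_cos_ge {θ ε : ℝ} (hε : ε ≤ 0.1) (h : |θ| ≤ ε) : 0.995 ≤ Real.cos θ := by
  have h1 := Real.one_sub_sq_div_two_le_cos (x := θ)
  have h2 : θ ^ 2 ≤ 0.01 := by
    rw [← sq_abs]
    have := abs_nonneg θ
    nlinarith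
  linarith

/-- along the ray the first coordinate grows at almost unit speed -/
theorem ray_x (hc : IsCfg R c) {ε : ℝ} (hε : ε ≤ 0.1)
    (hth : ∀ σ ∈ Icc (0:ℝ) 1, |c.th 2 σ| ≤ ε)
    {σ τ : ℝ} (hσ : 0 ≤ σ) (hστ : σ ≤ τ) (hτ : τ ≤ 1) :
    0.99 * (c.L 2 * (τ - σ)) ≤ c.x 2 τ - c.x 2 σ ∧ c.x 2 τ - c.x 2 σ ≤ c.L 2 * (τ - σ) ∧
      |c.y 2 τ - c.y 2 σ| ≤ 1.02 * ε * (c.x 2 τ - c.x 2 σ) := by
  have hL := hc.L_pos 2
  have hε0 : 0 ≤ ε := (abs_nonneg _).trans (hth 0 ⟨le_rfl, zero_le_one⟩)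
  have hsub : 0 ≤ τ - σ := by linarith
  have h1 : c.x 2 τ - c.x 2 σ ≤ c.L 2 * (τ - σ) := by
    apply U1_incr (hc.x_s 2) _ hσ hστ hτ
    intro s _
    have := Real.cos_le_one (c.ang 2 s)
    nlinarith
  have h2 : 0.99 * (c.L 2 * (τ - σ)) ≤ c.x 2 τ - c.x 2 σ := by
    have h3 := U1_incr (f := fun s => -(c.x 2 s)) (f' := fun s => -(c.L 2 * Real.cos (c.ang 2 s)))
      (A := -(0.99 * c.L 2)) (fun s hs => (hc.x_s 2 s hs).neg) (by
        intro s hs
        have h4 := U1_cos_ge hε (hth s hs)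
        rw [ang_ray]
        nlinarith) hσ hστ hτ
    linarith
  have hsin : ∀ s ∈ Icc (0:ℝ) 1, |Real.sin (c.ang 2 s)| ≤ ε := by
    intro s hs
    rw [ang_ray]
    exact (Real.abs_sin_le_abs).trans (hth s hs)
  have h5 : |c.y 2 τ - c.y 2 σ| ≤ (c.L 2 * ε) * (τ - σ) := by
    rw [abs_le]
    constructor
    · have h3 := U1_incr (f := fun s => -(c.y 2 s))
        (f' := fun s => -(c.L 2 * Real.sin (c.ang 2 s)))
        (A := c.L 2 * ε) (fun s hs => (hc.y_s 2 s hs).neg) (by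
          intro s hs
          have h4 := abs_le.1 (hsin s hs)
          nlinarith) hσ hστ hτ
      linarith
    · apply U1_incr (hc.y_s 2) _ hσ hστ hτ
      intro s hs
      have h4 := abs_le.1 (hsin s hs)
      nlinarith
  refine ⟨h2, h1, h5.trans ?_⟩
  have h6 : 0 ≤ c.L 2 * (τ - σ) := by positivity
  nlinarith [mul_nonneg hε0 h6]

/-- primitive of `(1 + u²)² exp (-u²/2)` -/
private noncomputable def U1G (X : ℝ) : ℝ :=
  -((X ^ 3 + 5 * X) * Real.exp (-(X ^ 2 / 2))) + 6 * ∫ u in (0:ℝ)..X, Real.exp (-(u ^ 2 / 2))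

private theorem U1G_deriv (X : ℝ) :
    HasDerivAt U1G ((1 + X ^ 2) ^ 2 * Real.exp (-(X ^ 2 / 2))) X := by
  have hcont : Continuous fun u : ℝ => Real.exp (-(u ^ 2 / 2)) := by fun_prop
  have h1 : HasDerivAt (fun X : ℝ => ∫ u in (0:ℝ)..X, Real.exp (-(u ^ 2 / 2)))
      (Real.exp (-(X ^ 2 / 2))) X :=
    intervalIntegral.integral_hasDerivAt_right (hcont.intervalIntegrable _ _)
      (hcont.stronglyMeasurableAtFilter _ _) hcont.continuousAt
  have h2 : HasDerivAt (fun X : ℝ => Real.exp (-(X ^ 2 / 2)))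
      (Real.exp (-(X ^ 2 / 2)) * (-(2 * X / 2))) X := by
    have := (((hasDerivAt_pow 2 X).div_const 2).neg).exp
    refine this.congr_deriv ?_
    simp
  have h3 : HasDerivAt (fun X : ℝ => X ^ 3 + 5 * X) (3 * X ^ 2 + 5) X := by
    have := (hasDerivAt_pow 3 X).add ((hasDerivAt_id X).const_mul 5)
    refine this.congr_deriv ?_
    simp
  have h4 := ((h3.mul h2).neg).add (h1.const_mul 6)
  refine h4.congr_deriv ?_
  ring

private theorem U1G_le {X : ℝ} (hX : 0 ≤ X) : U1G X ≤ 7.56 := by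
  unfold U1G
  have h0 : 0 ≤ (X ^ 3 + 5 * X) * Real.exp (-(X ^ 2 / 2)) := by positivity
  have h1 : ∫ u in (0:ℝ)..X, Real.exp (-(u ^ 2 / 2)) ≤ Real.sqrt (Real.pi / (1 / 2)) / 2 := by
    rw [← integral_gaussian_Ioi (1 / 2), intervalIntegral.integral_of_le hX]
    have h2 : ∀ u : ℝ, Real.exp (-(u ^ 2 / 2)) = Real.exp (-(1 / 2) * u ^ 2) := by
      intro u; congr 1; ring
    simp_rw [h2]
    apply setIntegral_mono_set
    · exact (integrable_exp_neg_mul_sq (by norm_num)).integrableOn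
    · exact Filter.Eventually.of_forall fun u => (Real.exp_pos _).le
    · exact (Ioc_subset_Ioi_self).eventuallyLE
  have h3 : Real.sqrt (Real.pi / (1 / 2)) ≤ 2.52 := by
    rw [Real.sqrt_le_left (by norm_num)]
    have := Real.pi_lt_d2
    norm_num
    linarith
  linarith

private theorem U1G_nonneg {X : ℝ} (hX : 0 ≤ X) : 0 ≤ U1G X := by
  have h1 : Monotone U1G := by
    apply monotone_of_hasDerivAt_nonneg U1G_deriv
    intro u
    show 0 ≤ (1 + u ^ 2) ^ 2 * Real.exp (-(u ^ 2 / 2))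
    positivity
  have h2 := h1 hX
  have h3 : U1G 0 = 0 := by simp [U1G]
  rwa [h3] at h2

/-- Gaussian integral along the ray -/
theorem ray_gauss (hc : IsCfg R c) (hth : ∀ σ ∈ Icc (0:ℝ) 1, |c.th 2 σ| ≤ 0.1)
    (hx : 0 ≤ c.x 2 0) :
    c.I 2 (fun σ => (1 + c.x 2 σ ^ 2) ^ 2 * c.rho 2 σ) ≤ 10 := by
  have hL := hc.L_pos 2
  unfold Raw.I
  have hx1 : 0 ≤ c.x 2 1 := by
    have := (hc.ray_x le_rfl hth le_rfl zero_le_one le_rfl).1
    nlinarith
  set g : ℝ → ℝ := fun σ => (1 + c.x 2 σ ^ 2) ^ 2 * Real.exp (-(c.x 2 σ ^ 2 / 2)) with hg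
  have hgc : ContinuousOn g (Icc 0 1) := by
    have h1 := hc.x_cont 2
    exact ((continuousOn_const.add (h1.pow 2)).pow 2).mul
      (Real.continuous_exp.comp_continuousOn ((h1.pow 2).div_const 2).neg)
  have hcc : ContinuousOn (fun σ => c.L 2 * Real.cos (c.ang 2 σ)) (Icc 0 1) :=
    continuousOn_const.mul (Real.continuous_cos.comp_continuousOn (hc.ang_cont 2))
  have hFTC : ∫ σ in (0:ℝ)..1, g σ * (c.L 2 * Real.cos (c.ang 2 σ)) =
      U1G (c.x 2 1) - U1G (c.x 2 0) := by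
    apply intervalIntegral.integral_eq_sub_of_hasDerivAt_of_le (f := fun σ => U1G (c.x 2 σ))
      zero_le_one
    · intro s hs
      exact (U1G_deriv (c.x 2 s)).continuousAt.comp_continuousWithinAt (hc.x_cont 2 s hs)
    · intro s hs
      have h1 := (U1G_deriv (c.x 2 s)).comp_hasDerivWithinAt s (hc.x_s 2 s ⟨hs.1.le, hs.2.le⟩)
      exact h1.hasDerivAt (Icc_mem_nhds hs.1 hs.2)
    · apply ContinuousOn.intervalIntegrable
      rw [uIcc_of_le zero_le_one]
      exact hgc.mul hcc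
  have hle : ∫ σ in (0:ℝ)..1, c.L 2 * ((1 + c.x 2 σ ^ 2) ^ 2 * c.rho 2 σ) ≤
      ∫ σ in (0:ℝ)..1, (1 / 0.995) * (g σ * (c.L 2 * Real.cos (c.ang 2 σ))) := by
    apply intervalIntegral.integral_mono_on zero_le_one
    · apply ContinuousOn.intervalIntegrable
      rw [uIcc_of_le zero_le_one]
      exact continuousOn_const.mul (((continuousOn_const.add ((hc.x_cont 2).pow 2)).pow 2).mul
        (hc.rho_cont 2))
    · apply ContinuousOn.intervalIntegrable
      rw [uIcc_of_le zero_le_one]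
      exact continuousOn_const.mul (hgc.mul hcc)
    · intro s hs
      have h1 := U1_cos_ge le_rfl (hth s hs)
      rw [ang_ray]
      have h2 : c.rho 2 s ≤ Real.exp (-(c.x 2 s ^ 2 / 2)) := by
        unfold Raw.rho
        apply Real.exp_le_exp.2
        have := sq_nonneg (c.y 2 s)
        linarith
      have h3 : (1 + c.x 2 s ^ 2) ^ 2 * c.rho 2 s ≤ g s :=
        mul_le_mul_of_nonneg_left h2 (by positivity)
      have h4 : 0 ≤ g s := by
        simp only [hg]; positivity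
      calc c.L 2 * ((1 + c.x 2 s ^ 2) ^ 2 * c.rho 2 s) ≤ c.L 2 * g s :=
            mul_le_mul_of_nonneg_left h3 hL.le
        _ = (1 / 0.995) * (g s * (c.L 2 * 0.995)) := by ring
        _ ≤ (1 / 0.995) * (g s * (c.L 2 * Real.cos (c.th 2 s))) := by
            apply mul_le_mul_of_nonneg_left _ (by norm_num)
            apply mul_le_mul_of_nonneg_left _ h4
            exact mul_le_mul_of_nonneg_left h1 hL.le
  rw [intervalIntegral.integral_const_mul, intervalIntegral.integral_const_mul, hFTC] at hle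
  refine hle.trans ?_
  have h5 := U1G_le hx1
  have h6 := U1G_nonneg hx
  have h7 : (1 / 0.995 : ℝ) * (U1G (c.x 2 1) - U1G (c.x 2 0)) ≤ (1 / 0.995) * 7.56 :=
    mul_le_mul_of_nonneg_left (by linarith) (by norm_num)
  refine h7.trans (by norm_num)

end IsCfg

end Pool.Agent.Helper15.NF
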