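import Pool.Agent.Helper15.NF.T3b
import Pool.Agent.Helper15.NF.U1

open Set MeasureTheory intervalIntegral Filter Topology

namespace Pool.Agent.Helper15.NF

private theorem B3_star_x (st : Star) {s : ℝ} (hs : s ∈ Icc (0:ℝ) 1.5) : |st.x s| ≤ s := by
  have h := Convex.norm_image_sub_le_of_norm_hasDerivWithin_le (f := st.x)
    (f' := fun s => Real.cos (st.a s)) (C := 1) (s := Icc (0:ℝ) 1.5) (x := 0) (y := s)
    (fun z hz => st.arc.x_s z hz)
    (fun z _ => by simpa using Real.abs_cos_le_one (st.a z)) (convex_Icc 0 1.5)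
    ⟨le_rfl, by norm_num⟩ hs
  rw [st.arc.x_0] at h
  simpa [abs_of_nonneg hs.1] using h

private theorem B3_star_y (st : Star) {s : ℝ} (hs : s ∈ Icc (0:ℝ) 1.5) :
    |st.y s - st.y 0| ≤ s := by
  have h := Convex.norm_image_sub_le_of_norm_hasDerivWithin_le (f := st.y)
    (f' := fun s => -Real.sin (st.a s)) (C := 1) (s := Icc (0:ℝ) 1.5) (x := 0) (y := s)
    (fun z hz => st.arc.y_s z hz)
    (fun z _ => by simpa using Real.abs_sin_le_one (st.a z)) (convex_Icc 0 1.5)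
    ⟨le_rfl, by norm_num⟩ hs
  simpa [abs_of_nonneg hs.1] using h

private theorem B3_sg (st : Star) {σ : ℝ} (hσ : σ ∈ Icc (0:ℝ) 1) :
    st.sg σ ∈ Icc (0:ℝ) 1.41 := by
  have h1 := st.ls_lo
  have h2 := st.ls_hi
  unfold Star.sg
  constructor
  · have := hσ.2
    nlinarith
  · have := hσ.1
    nlinarith [hσ.2]

/-- bounds on a near arc -/
private theorem B3_arc (st : Star) {c : Raw} (hN : Near st 0.01 c) {σ : ℝ}
    (hσ : σ ∈ Icc (0:ℝ) 1) :
    (|c.x 0 σ| ≤ 2 ∧ |c.y 0 σ| ≤ 3) ∧ (|c.x 1 σ| ≤ 2 ∧ |c.y 1 σ| ≤ 3) := by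
  have hs := B3_sg st hσ
  have hs' : st.sg σ ∈ Icc (0:ℝ) 1.5 := ⟨hs.1, by linarith [hs.2]⟩
  have hx := abs_le.1 (B3_star_x st hs')
  have hy := abs_le.1 (B3_star_y st hs')
  have y1 := st.ys_lo
  have y2 := st.ys_hi
  have a0 := abs_le.1 (hN.x0 σ hσ)
  have a1 := abs_le.1 (hN.x1 σ hσ)
  have b0 := abs_le.1 (hN.y0 σ hσ)
  have b1 := abs_le.1 (hN.y1 σ hσ)
  have h2 := hs.2
  refine ⟨⟨?_, ?_⟩, ⟨?_, ?_⟩⟩ <;> rw [abs_le] <;> constructor <;> linarith [hx.1, hx.2, hy.1, hy.2,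
    a0.1, a0.2, a1.1, a1.2, b0.1, b0.2, b1.1, b1.2]

private theorem B3_ii {f : ℝ → ℝ} (hf : ContinuousOn f (Icc 0 1)) :
    IntervalIntegrable f volume 0 1 := by
  apply ContinuousOn.intervalIntegrable
  rwa [uIcc_of_le zero_le_one]

/-- the curvature integral on an edge -/
private theorem B3_key {R : ℝ} {c : Raw} (hc : IsCfg R c) (hR : 0 < R) (i : Fin 3)
    (hx : ∀ σ ∈ Icc (0:ℝ) 1, |c.x i σ| ≤ R) (hy : ∀ σ ∈ Icc (0:ℝ) 1, |c.y i σ| ≤ R)
    (hD : c.D R ≤ 1) :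
    c.I i (fun σ => c.kap i σ ^ 2) ≤
      c.I i (fun σ => c.kap i σ ^ 2 * chf (c.x i σ / R) ^ 2) + 2 * Real.exp (R ^ 2)
        + 8 * R ^ 2 * c.L i := by
  have hSw : c.I i (fun σ => c.S i σ ^ 2 * c.w R i σ) ≤ 1 := by
    refine le_trans ?_ hD
    unfold Raw.D
    have hnn : ∀ j ∈ (Finset.univ : Finset (Fin 3)),
        0 ≤ c.I j (fun σ => c.S j σ ^ 2 * c.w R j σ) := by
      intro j _
      unfold Raw.I
      refine mul_nonneg (hc.L_pos j).le ?_
      apply intervalIntegral.integral_nonneg zero_le_one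
      intro σ _
      exact mul_nonneg (sq_nonneg _) (mul_nonneg (Real.exp_pos _).le (cut_nonneg _))
    exact Finset.single_le_sum hnn (Finset.mem_univ i)
  have hpt : ∀ σ ∈ Icc (0:ℝ) 1, c.kap i σ ^ 2 ≤
      c.kap i σ ^ 2 * chf (c.x i σ / R) ^ 2
        + (2 * Real.exp (R ^ 2)) * (c.S i σ ^ 2 * c.w R i σ) + 8 * R ^ 2 := by
    intro σ hσ
    have hw0 : 0 ≤ c.w R i σ := mul_nonneg (Real.exp_pos _).le (cut_nonneg _)
    rcases le_total (c.x i σ / R) (1 / 2) with hz | hz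
    · have hw : c.w R i σ = c.rho i σ := by
        unfold Raw.w
        rw [cut_one hz, mul_one]
      have hrho : Real.exp (-(R ^ 2)) ≤ c.rho i σ := by
        unfold Raw.rho
        apply Real.exp_le_exp.2
        have h1 := sq_le_sq' (abs_le.1 (hx σ hσ)).1 (abs_le.1 (hx σ hσ)).2
        have h2 := sq_le_sq' (abs_le.1 (hy σ hσ)).1 (abs_le.1 (hy σ hσ)).2
        linarith
      have h1 : 1 ≤ Real.exp (R ^ 2) * c.rho i σ := by
        calc (1:ℝ) = Real.exp (R ^ 2) * Real.exp (-(R ^ 2)) := by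
              rw [← Real.exp_add]; simp
          _ ≤ _ := mul_le_mul_of_nonneg_left hrho (Real.exp_pos _).le
      have hh : |c.h i σ| ≤ 2 * R := by
        unfold Raw.h
        calc |-(c.x i σ * Real.sin (c.ang i σ)) + c.y i σ * Real.cos (c.ang i σ)|
            ≤ |-(c.x i σ * Real.sin (c.ang i σ))| + |c.y i σ * Real.cos (c.ang i σ)| :=
              abs_add_le _ _
          _ ≤ R + R := by
              rw [abs_neg, abs_mul, abs_mul]
              have e1 := Real.abs_sin_le_one (c.ang i σ)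
              have e2 := Real.abs_cos_le_one (c.ang i σ)
              have := mul_le_mul (hx σ hσ) e1 (abs_nonneg _) hR.le
              have := mul_le_mul (hy σ hσ) e2 (abs_nonneg _) hR.le
              linarith
          _ = 2 * R := by ring
      have hh2 : c.h i σ ^ 2 ≤ 4 * R ^ 2 := by
        have := sq_le_sq' (abs_le.1 hh).1 (abs_le.1 hh).2
        linarith
      have hk : c.kap i σ = c.S i σ - c.h i σ := by unfold Raw.S; ring
      have hk2 : c.kap i σ ^ 2 ≤ 2 * c.S i σ ^ 2 + 2 * c.h i σ ^ 2 := by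
        rw [hk]; nlinarith [sq_nonneg (c.S i σ + c.h i σ)]
      have hS : c.S i σ ^ 2 ≤ Real.exp (R ^ 2) * (c.S i σ ^ 2 * c.w R i σ) := by
        rw [hw]
        have := mul_le_mul_of_nonneg_left h1 (sq_nonneg (c.S i σ))
        nlinarith
      have hnn : 0 ≤ c.kap i σ ^ 2 * chf (c.x i σ / R) ^ 2 := by positivity
      nlinarith
    · have h1 : chf (c.x i σ / R) = 1 := chf_one hz
      rw [h1]
      have h2 : 0 ≤ (2 * Real.exp (R ^ 2)) * (c.S i σ ^ 2 * c.w R i σ) := by positivity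
      have h3 : 0 ≤ 8 * R ^ 2 := by positivity
      linarith
  have ck : ContinuousOn (fun σ => c.kap i σ ^ 2) (Icc 0 1) := (hc.kap_cont i).pow 2
  have cch : ContinuousOn (fun σ => c.kap i σ ^ 2 * chf (c.x i σ / R) ^ 2) (Icc 0 1) :=
    ck.mul ((hc.chf_cont i).pow 2)
  have cSw : ContinuousOn (fun σ => c.S i σ ^ 2 * c.w R i σ) (Icc 0 1) :=
    ((hc.S_cont i).pow 2).mul (hc.w_cont i)
  have i1 : IntervalIntegrable (fun σ => c.kap i σ ^ 2 * chf (c.x i σ / R) ^ 2) volume 0 1 :=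
    B3_ii cch
  have i2 : IntervalIntegrable
      (fun σ => (2 * Real.exp (R ^ 2)) * (c.S i σ ^ 2 * c.w R i σ)) volume 0 1 :=
    B3_ii (continuousOn_const.mul cSw)
  have i3 : IntervalIntegrable (fun _ : ℝ => 8 * R ^ 2) volume 0 1 :=
    intervalIntegrable_const
  have i12 : IntervalIntegrable (fun σ => c.kap i σ ^ 2 * chf (c.x i σ / R) ^ 2
      + (2 * Real.exp (R ^ 2)) * (c.S i σ ^ 2 * c.w R i σ)) volume 0 1 := i1.add i2
  have hint : ∫ σ in (0:ℝ)..1, c.kap i σ ^ 2 ≤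
      ∫ σ in (0:ℝ)..1, (c.kap i σ ^ 2 * chf (c.x i σ / R) ^ 2
        + (2 * Real.exp (R ^ 2)) * (c.S i σ ^ 2 * c.w R i σ) + 8 * R ^ 2) :=
    intervalIntegral.integral_mono_on zero_le_one (B3_ii ck) (i12.add i3) hpt
  rw [intervalIntegral.integral_add i12 i3, intervalIntegral.integral_add i1 i2,
    intervalIntegral.integral_const_mul, intervalIntegral.integral_const] at hint
  have hL := hc.L_pos i
  have h4 := mul_le_mul_of_nonneg_left hint hL.le
  unfold Raw.I at hSw ⊢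
  have h5 := mul_le_mul_of_nonneg_left hSw (by positivity : (0:ℝ) ≤ 2 * Real.exp (R ^ 2))
  simp only [sub_zero, one_smul] at h4
  nlinarith

/-- size of one edge in terms of the rescaled data -/
private theorem B3_edge {a b : ℝ} (F : Flow a b 1) (T t y0 : ℝ) (hr : 0 < rr T t) (i : Fin 3) :
    F.ell i t * (∫ σ in (0:ℝ)..1, F.k i t σ ^ 2) =
      (F.raw (rr T t) y0 t).I i (fun σ => (F.raw (rr T t) y0 t).kap i σ ^ 2) / rr T t := by
  unfold Raw.I Flow.raw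
  simp only
  have : (fun σ => (rr T t * F.k i t σ) ^ 2) = fun σ => (rr T t) ^ 2 * F.k i t σ ^ 2 := by
    ext σ; ring
  rw [this, intervalIntegral.integral_const_mul]
  field_simp

private theorem B3_tail {a b : ℝ} (F : Flow a b 1) (T t y0 : ℝ) (hr : 0 < rr T t) (i : Fin 3) :
    F.ell i t * (∫ σ in (0:ℝ)..1, F.k i t σ ^ 2 * chf (F.X i t σ) ^ 2) =
      (F.raw (rr T t) y0 t).I i (fun σ => (F.raw (rr T t) y0 t).kap i σ ^ 2 *
        chf ((F.raw (rr T t) y0 t).x i σ / (1 / rr T t)) ^ 2) / rr T t := by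
  unfold Raw.I Flow.raw
  simp only
  have : (fun σ => (rr T t * F.k i t σ) ^ 2 * chf (F.X i t σ / rr T t / (1 / rr T t)) ^ 2) =
      fun σ => (rr T t) ^ 2 * (F.k i t σ ^ 2 * chf (F.X i t σ) ^ 2) := by
    ext σ
    have : F.X i t σ / rr T t / (1 / rr T t) = F.X i t σ := by field_simp
    rw [this]; ring
  rw [this, intervalIntegral.integral_const_mul]
  field_simp

/-- all the bounds at a fixed time -/
private theorem B3_time (st : Star) {a b : ℝ} (F : Flow a b 1) (T t y0 M q : ℝ)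
    (hq : 0 < q) (hqr : q ≤ rr T t) (hr1 : rr T t ≤ 1 / 10)
    (hc : IsCfg (1 / rr T t) (F.raw (rr T t) y0 t))
    (hN : Near st 0.01 (F.raw (rr T t) y0 t))
    (hD : (F.raw (rr T t) y0 t).D (1 / rr T t) ≤ 1)
    (hth : ∀ σ ∈ Icc (0:ℝ) 1, |F.th 2 t σ| ≤ 0.1)
    (hM : F.ell 2 t * (∫ σ in (0:ℝ)..1, F.k 2 t σ ^ 2 * chf (F.X 2 t σ) ^ 2) ≤ M) (i : Fin 3) :
    F.ell i t * (∫ σ in (0:ℝ)..1, F.k i t σ ^ 2) + F.ell i t + (F.ell i t)⁻¹ ≤
      |M| + (2 * Real.exp ((1 / q) ^ 2) + 16 * (1 / q) ^ 3) / q + 2 + (2 + 1 / q) := by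
  set r := rr T t with hrdef
  have hr : 0 < r := lt_of_lt_of_le hq hqr
  set c := F.raw r y0 t with hcdef
  set R := 1 / r with hRdef
  have hR : 0 < R := by positivity
  have hRr : R * r = 1 := by rw [hRdef]; field_simp
  have hR10 : 10 ≤ R := by
    rw [hRdef, le_div_iff₀ hr]; linarith
  have hRq : R ≤ 1 / q := one_div_le_one_div_of_le hq hqr
  have hell : ∀ i, F.ell i t = c.L i * r := by
    intro i
    rw [hcdef]; unfold Flow.raw; simp only; field_simp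
  -- junction and ray
  have h0 : (0:ℝ) ∈ Icc (0:ℝ) 1 := ⟨le_rfl, zero_le_one⟩
  have hsg0 : st.sg 0 = st.ls := by unfold Star.sg; ring
  have hxJ : |c.x 2 0 - st.x st.ls| ≤ 0.01 := by
    have := hN.x0 0 h0
    rw [hc.x_J 0, hsg0] at this
    exact this
  have hyJ : |c.y 2 0| ≤ 0.01 := by
    have := hN.y0 0 h0
    rw [hc.y_J 0, hsg0, st.y_ls, sub_zero] at this
    exact this
  have xl := st.xi_lo
  have xh := st.xi_hi
  have hxJ' := abs_le.1 hxJ
  have hray : ∀ σ ∈ Icc (0:ℝ) 1, 0 ≤ c.x 2 σ ∧ c.x 2 σ ≤ R ∧ |c.y 2 σ| ≤ R := by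
    intro σ hσ
    have hA := hc.ray_x (ε := 0.1) le_rfl hth (σ := 0) (τ := σ) le_rfl hσ.1 hσ.2
    have hB := hc.ray_x (ε := 0.1) le_rfl hth (σ := σ) (τ := 1) hσ.1 hσ.2 le_rfl
    rw [hc.x_far] at hB
    have hL := hc.L_pos 2
    have p1 : 0 ≤ c.L 2 * (σ - 0) := mul_nonneg hL.le (by linarith [hσ.1])
    have p2 : 0 ≤ c.L 2 * (1 - σ) := mul_nonneg hL.le (by linarith [hσ.2])
    have q1 : 0 ≤ c.x 2 σ := by linarith [hA.1]
    have q2 : c.x 2 σ ≤ R := by linarith [hB.1]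
    refine ⟨q1, q2, ?_⟩
    have h3 := abs_le.1 hA.2.2
    have h4 := abs_le.1 hyJ
    rw [abs_le]; constructor <;> linarith [h3.1, h3.2, h4.1, h4.2]
  have hL2 : 0.99 * c.L 2 ≤ R - c.x 2 0 ∧ R - c.x 2 0 ≤ c.L 2 := by
    have hA := hc.ray_x (ε := 0.1) le_rfl hth (σ := 0) (τ := 1) le_rfl zero_le_one le_rfl
    rw [hc.x_far] at hA
    constructor <;> linarith [hA.1, hA.2.1]
  have lsl := st.ls_lo
  have lsh := st.ls_hi
  have hL0 := abs_le.1 hN.L0
  have hL1 := abs_le.1 hN.L1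
  have hLle : c.L i ≤ 1.1 * R := by
    fin_cases i
    · show c.L 0 ≤ _
      linarith [hL0.1, hL0.2]
    · show c.L 1 ≤ _
      linarith [hL1.1, hL1.2]
    · show c.L 2 ≤ _
      linarith [hL2.1]
  have hLge : 1 ≤ c.L i := by
    fin_cases i
    · show _ ≤ c.L 0
      linarith [hL0.1, hL0.2]
    · show _ ≤ c.L 1
      linarith [hL1.1, hL1.2]
    · show _ ≤ c.L 2
      linarith [hL2.2]
  have hxi : ∀ σ ∈ Icc (0:ℝ) 1, |c.x i σ| ≤ R := by
    intro σ hσ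
    have h := B3_arc st hN hσ
    fin_cases i
    · show |c.x 0 σ| ≤ R
      linarith [h.1.1]
    · show |c.x 1 σ| ≤ R
      linarith [h.2.1]
    · show |c.x 2 σ| ≤ R
      have := hray σ hσ
      rw [abs_of_nonneg this.1]; exact this.2.1
  have hyi : ∀ σ ∈ Icc (0:ℝ) 1, |c.y i σ| ≤ R := by
    intro σ hσ
    have h := B3_arc st hN hσ
    fin_cases i
    · show |c.y 0 σ| ≤ R
      linarith [h.1.2]
    · show |c.y 1 σ| ≤ R
      linarith [h.2.2]
    · show |c.y 2 σ| ≤ R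
      exact (hray σ hσ).2.2
  have hkey := B3_key hc hR i hxi hyi hD
  have htail : c.I i (fun σ => c.kap i σ ^ 2 * chf (c.x i σ / R) ^ 2) / r ≤ |M| := by
    have harc : ∀ j : Fin 3, (∀ σ ∈ Icc (0:ℝ) 1, |c.x j σ| ≤ 2) →
        c.I j (fun σ => c.kap j σ ^ 2 * chf (c.x j σ / R) ^ 2) = 0 := by
      intro j hj
      unfold Raw.I
      have : ∫ σ in (0:ℝ)..1, c.kap j σ ^ 2 * chf (c.x j σ / R) ^ 2 = ∫ σ in (0:ℝ)..1, (0:ℝ) := by
        apply intervalIntegral.integral_congr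
        intro σ hσ
        rw [uIcc_of_le zero_le_one] at hσ
        have hz : c.x j σ / R ≤ 1 / 4 := by
          rw [div_le_iff₀ hR]
          linarith [(abs_le.1 (hj σ hσ)).2]
        simp [chf_zero hz]
      rw [this]; simp
    fin_cases i
    · show c.I 0 (fun σ => c.kap 0 σ ^ 2 * chf (c.x 0 σ / R) ^ 2) / r ≤ |M|
      rw [harc 0 (fun σ hσ => (B3_arc st hN hσ).1.1)]
      simp
    · show c.I 1 (fun σ => c.kap 1 σ ^ 2 * chf (c.x 1 σ / R) ^ 2) / r ≤ |M|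
      rw [harc 1 (fun σ hσ => (B3_arc st hN hσ).2.1)]
      simp
    · show c.I 2 (fun σ => c.kap 2 σ ^ 2 * chf (c.x 2 σ / R) ^ 2) / r ≤ |M|
      have h := B3_tail F T t y0 hr 2
      rw [h] at hM
      exact hM.trans (le_abs_self M)
  have hq' : 0 < 1 / q := by positivity
  have hRq2 : R ^ 2 ≤ (1 / q) ^ 2 := pow_le_pow_left₀ hR.le hRq 2
  have hRq3 : R ^ 3 ≤ (1 / q) ^ 3 := pow_le_pow_left₀ hR.le hRq 3
  have hexp : Real.exp (R ^ 2) ≤ Real.exp ((1 / q) ^ 2) := Real.exp_le_exp.2 hRq2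
  have hLR : 8 * R ^ 2 * c.L i ≤ 16 * (1 / q) ^ 3 := by
    have : 8 * R ^ 2 * c.L i ≤ 8 * R ^ 2 * (1.1 * R) :=
      mul_le_mul_of_nonneg_left hLle (by positivity)
    nlinarith [pow_pos hR 3]
  have e1 : F.ell i t * (∫ σ in (0:ℝ)..1, F.k i t σ ^ 2) ≤
      |M| + (2 * Real.exp ((1 / q) ^ 2) + 16 * (1 / q) ^ 3) / q := by
    rw [B3_edge F T t y0 hr i]
    have h1 : c.I i (fun σ => c.kap i σ ^ 2) / r ≤
        (c.I i (fun σ => c.kap i σ ^ 2 * chf (c.x i σ / R) ^ 2)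
          + (2 * Real.exp (R ^ 2) + 8 * R ^ 2 * c.L i)) / r := by
      apply div_le_div_of_nonneg_right _ hr.le
      linarith
    rw [add_div] at h1
    have h2 : (2 * Real.exp (R ^ 2) + 8 * R ^ 2 * c.L i) / r ≤
        (2 * Real.exp ((1 / q) ^ 2) + 16 * (1 / q) ^ 3) / q := by
      apply div_le_div₀ (by positivity) (by linarith) hq hqr
    linarith
  have e2 : F.ell i t ≤ 2 := by
    rw [hell i]
    have := mul_le_mul_of_nonneg_right hLle hr.le
    nlinarith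
  have e3 : (F.ell i t)⁻¹ ≤ 2 + 1 / q := by
    have h1 : q ≤ F.ell i t := by
      rw [hell i]
      nlinarith
    have h2 : (F.ell i t)⁻¹ ≤ 1 / q := by
      rw [one_div]
      exact inv_anti₀ hq h1
    linarith
  linarith

/-- B3 : the size stays bounded as long as the lens is close to the shrinker and `t < T` -/
theorem size_bdd (st : Star) : ∃ η1 > 0, ∃ r1 > 0, ∀ (a b : ℝ) (F : Flow a b 1) (T : ℝ), b < T → a < b →
    rr T a ≤ r1 →
    (∀ t ∈ Ioo a b, F.area t = 2 * Real.pi / 3 * (T - t)) →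
    ∀ t1 ∈ Ioo a b,
    (∀ t ∈ Ico t1 b, ∃ y0 : ℝ, |y0| ≤ 1 ∧ Near st η1 (F.raw (rr T t) y0 t) ∧
      (F.raw (rr T t) y0 t).D (1 / rr T t) ≤ 1 ∧ (∀ σ ∈ Icc (0:ℝ) 1, |F.th 2 t σ| ≤ 0.1)) →
    (∃ M, ∀ t ∈ Ico t1 b,
      F.ell 2 t * (∫ σ in (0:ℝ)..1, F.k 2 t σ ^ 2 * chf (F.X 2 t σ) ^ 2) ≤ M) →
    ∃ M, ∀ t ∈ Ico t1 b, F.size t ≤ M := by
  refine ⟨0.01, by norm_num, 1 / 10, by norm_num, ?_⟩
  intro a b F T hbT hab hra harea t1 ht1 hclose hM
  obtain ⟨M, hM⟩ := hM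
  have hq : 0 < rr T b := by
    unfold rr
    exact Real.sqrt_pos.2 (by linarith)
  refine ⟨3 * (|M| + (2 * Real.exp ((1 / rr T b) ^ 2) + 16 * (1 / rr T b) ^ 3) / rr T b + 2 +
    (2 + 1 / rr T b)), ?_⟩
  intro t ht
  obtain ⟨y0, -, hN, hD, hth⟩ := hclose t ht
  have htI : t ∈ Ioo a b := ⟨lt_of_lt_of_le ht1.1 ht.1, ht.2⟩
  have hqr : rr T b ≤ rr T t := by
    unfold rr
    exact Real.sqrt_le_sqrt (by linarith [ht.2])
  have hr1 : rr T t ≤ 1 / 10 := by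
    refine le_trans ?_ hra
    unfold rr
    exact Real.sqrt_le_sqrt (by linarith [htI.1])
  have hc := raw_isCfg F hbT.le htI (harea t htI) y0
  have h := B3_time st F T t y0 M (rr T b) hq hqr hr1 hc hN hD hth (hM t ht)
  unfold Flow.size
  rw [Fin.sum_univ_three]
  linarith [h 0, h 1, h 2]

end Pool.Agent.Helper15.NF
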