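import Pool.Agent.Helper15.NF.DDefs

open Set MeasureTheory intervalIntegral Filter Topology

namespace Pool.Agent.Helper15.NF

private lemma B4_cos_lip (u v : ℝ) : |Real.cos u - Real.cos v| ≤ |u - v| := by
  rw [Real.cos_sub_cos, abs_mul, abs_mul]
  have h1 : |Real.sin ((u + v) / 2)| ≤ 1 := Real.abs_sin_le_one _
  have h2 : |Real.sin ((u - v) / 2)| ≤ |(u - v) / 2| := Real.abs_sin_le_abs
  have h3 : |(-2 : ℝ)| = 2 := by norm_num
  rw [h3]
  have h4 : |(u - v) / 2| = |u - v| / 2 := by rw [abs_div]; norm_num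
  rw [h4] at h2
  calc 2 * |Real.sin ((u + v) / 2)| * |Real.sin ((u - v) / 2)|
      ≤ 2 * 1 * (|u - v| / 2) := by gcongr
    _ = |u - v| := by ring

private lemma B4_cos_sq (u v : ℝ) : |Real.cos u ^ 2 - Real.cos v ^ 2| ≤ 2 * |u - v| := by
  have h : Real.cos u ^ 2 - Real.cos v ^ 2 = (Real.cos u + Real.cos v) * (Real.cos u - Real.cos v) := by
    ring
  rw [h, abs_mul]
  have h1 : |Real.cos u + Real.cos v| ≤ 2 := by
    calc _ ≤ |Real.cos u| + |Real.cos v| := abs_add_le _ _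
      _ ≤ 1 + 1 := add_le_add (Real.abs_cos_le_one _) (Real.abs_cos_le_one _)
      _ = 2 := by norm_num
  exact mul_le_mul h1 (B4_cos_lip u v) (abs_nonneg _) (by norm_num)

private lemma B4_cpol {u v : ℝ} (hu : |u| ≤ 1.2) (hv : |v| ≤ 1.2) :
    |cpol u - cpol v| ≤ 1.8 * |u - v| := by
  have h : cpol u - cpol v = -((0.378 * (u + v) + 0.0627 * ((u + v) * (u ^ 2 + v ^ 2)) +
      0.0297 * ((u + v) * (u ^ 4 + u ^ 2 * v ^ 2 + v ^ 4))) * (u - v)) := by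
    unfold cpol; ring
  rw [h, abs_neg, abs_mul]
  refine mul_le_mul_of_nonneg_right ?_ (abs_nonneg _)
  have hs : |u + v| ≤ 2.4 := by
    calc _ ≤ |u| + |v| := abs_add_le _ _
      _ ≤ 1.2 + 1.2 := add_le_add hu hv
      _ = 2.4 := by norm_num
  have hu2 : u ^ 2 ≤ 1.44 := by
    rw [← sq_abs]; nlinarith [abs_nonneg u]
  have hv2 : v ^ 2 ≤ 1.44 := by
    rw [← sq_abs]; nlinarith [abs_nonneg v]
  have hu0 : 0 ≤ u ^ 2 := sq_nonneg u
  have hv0 : 0 ≤ v ^ 2 := sq_nonneg v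
  have h2 : |u ^ 2 + v ^ 2| ≤ 2.88 := by
    rw [abs_of_nonneg (by positivity)]; linarith
  have h4 : |u ^ 4 + u ^ 2 * v ^ 2 + v ^ 4| ≤ 6.2208 := by
    rw [abs_of_nonneg (by positivity)]
    have e1 : u ^ 4 ≤ 2.0736 := by
      have : u ^ 4 = u ^ 2 * u ^ 2 := by ring
      nlinarith
    have e2 : v ^ 4 ≤ 2.0736 := by
      have : v ^ 4 = v ^ 2 * v ^ 2 := by ring
      nlinarith
    have e3 : u ^ 2 * v ^ 2 ≤ 2.0736 := by nlinarith
    linarith
  calc |0.378 * (u + v) + 0.0627 * ((u + v) * (u ^ 2 + v ^ 2)) +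
      0.0297 * ((u + v) * (u ^ 4 + u ^ 2 * v ^ 2 + v ^ 4))|
      ≤ |0.378 * (u + v)| + |0.0627 * ((u + v) * (u ^ 2 + v ^ 2))| +
      |0.0297 * ((u + v) * (u ^ 4 + u ^ 2 * v ^ 2 + v ^ 4))| := abs_add_three _ _ _
    _ = 0.378 * |u + v| + 0.0627 * (|u + v| * |u ^ 2 + v ^ 2|) +
      0.0297 * (|u + v| * |u ^ 4 + u ^ 2 * v ^ 2 + v ^ 4|) := by
        simp only [abs_mul]
        norm_num
    _ ≤ 0.378 * 2.4 + 0.0627 * (2.4 * 2.88) + 0.0297 * (2.4 * 6.2208) := by gcongr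
    _ ≤ 1.8 := by norm_num

private lemma B4_a (st : Star) : MonotoneOn st.a (Icc 0 st.ls) := by
  have hls := st.ls_hi
  apply monotoneOn_of_deriv_nonneg (convex_Icc 0 st.ls)
  · intro s hs
    exact ((st.arc.a_s s ⟨hs.1, by linarith [hs.2]⟩).continuousWithinAt).mono
      (Icc_subset_Icc_right (by linarith))
  · intro s hs
    rw [interior_Icc] at hs
    exact ((st.arc.a_s s ⟨hs.1.le, by linarith [hs.2]⟩).hasDerivAt
      (Icc_mem_nhds hs.1 (by linarith [hs.2]))).differentiableAt.differentiableWithinAt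
  · intro s hs
    rw [interior_Icc] at hs
    rw [((st.arc.a_s s ⟨hs.1.le, by linarith [hs.2]⟩).hasDerivAt
      (Icc_mem_nhds hs.1 (by linarith [hs.2]))).deriv]
    have := st.h_lo s ⟨hs.1.le, hs.2.le⟩
    simp only [add_zero]
    linarith

private lemma B4_a_mem (st : Star) {s : ℝ} (hs : s ∈ Icc 0 st.ls) :
    0 ≤ st.a s ∧ st.a s ≤ Real.pi / 3 := by
  have h0 : (0:ℝ) ≤ st.ls := hs.1.trans hs.2
  constructor
  · have := B4_a st ⟨le_rfl, h0⟩ hs hs.1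
    rwa [st.arc.a_0] at this
  · have := B4_a st hs ⟨h0, le_rfl⟩ hs.2
    rwa [st.a_ls] at this

private lemma B4_x (st : Star) : MonotoneOn st.x (Icc 0 st.ls) := by
  have hls := st.ls_hi
  have hpi := Real.pi_pos
  apply monotoneOn_of_deriv_nonneg (convex_Icc 0 st.ls)
  · intro s hs
    exact ((st.arc.x_s s ⟨hs.1, by linarith [hs.2]⟩).continuousWithinAt).mono
      (Icc_subset_Icc_right (by linarith))
  · intro s hs
    rw [interior_Icc] at hs
    exact ((st.arc.x_s s ⟨hs.1.le, by linarith [hs.2]⟩).hasDerivAt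
      (Icc_mem_nhds hs.1 (by linarith [hs.2]))).differentiableAt.differentiableWithinAt
  · intro s hs
    rw [interior_Icc] at hs
    rw [((st.arc.x_s s ⟨hs.1.le, by linarith [hs.2]⟩).hasDerivAt
      (Icc_mem_nhds hs.1 (by linarith [hs.2]))).deriv]
    have := B4_a_mem st ⟨hs.1.le, hs.2.le⟩
    exact Real.cos_nonneg_of_mem_Icc ⟨by linarith, by linarith⟩

private lemma B4_x_mem (st : Star) {s : ℝ} (hs : s ∈ Icc 0 st.ls) :
    0 ≤ st.x s ∧ st.x s ≤ 1.197 := by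
  have h0 : (0:ℝ) ≤ st.ls := hs.1.trans hs.2
  constructor
  · have := B4_x st ⟨le_rfl, h0⟩ hs hs.1
    rwa [st.arc.x_0] at this
  · have := B4_x st hs ⟨h0, le_rfl⟩ hs.2
    linarith [st.xi_hi]

/-- common part for both arcs -/
private lemma B4_arc (st : Star) {s A X : ℝ} (hs : s ∈ Icc 0 st.ls)
    (hA : |A - st.a s| ≤ 0.0005) (hX : |X - st.x s| ≤ 0.0005) :
    0 < Real.cos A ∧ |Real.cos A ^ 2 - cpol X| ≤ 0.017 := by
  have hpi := Real.pi_gt_three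
  obtain ⟨ha0, ha1⟩ := B4_a_mem st hs
  obtain ⟨hx0, hx1⟩ := B4_x_mem st hs
  obtain ⟨hA1, hA2⟩ := abs_le.mp hA
  obtain ⟨hX1, hX2⟩ := abs_le.mp hX
  constructor
  · exact Real.cos_pos_of_mem_Ioo ⟨by linarith, by linarith⟩
  · have h1 := B4_cos_sq A (st.a s)
    have h2 := st.prof s hs
    have h3 := B4_cpol (u := st.x s) (v := X) (abs_le.mpr ⟨by linarith, by linarith⟩)
      (abs_le.mpr ⟨by linarith, by linarith⟩)
    rw [abs_sub_comm (st.x s) X] at h3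
    have h4 : Real.cos A ^ 2 - cpol X = (Real.cos A ^ 2 - Real.cos (st.a s) ^ 2) +
        (Real.cos (st.a s) ^ 2 - cpol (st.x s)) + (cpol (st.x s) - cpol X) := by ring
    rw [h4]
    calc _ ≤ |Real.cos A ^ 2 - Real.cos (st.a s) ^ 2| +
        |Real.cos (st.a s) ^ 2 - cpol (st.x s)| + |cpol (st.x s) - cpol X| := abs_add_three _ _ _
      _ ≤ 0.017 := by linarith

/-- B4 : from `Near` to `CB` -/
theorem near_CB (st : Star) {a b Lx : ℝ} (F : Flow a b Lx) {T t y0 : ℝ} (hT : b ≤ T)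
    (ht : t ∈ Ioo a b) (hN : Near st 0.0005 (F.raw (rr T t) y0 t))
    (hth : ∀ σ ∈ Icc (0:ℝ) 1, |F.th 2 t σ| ≤ 0.01) : CB F T t st.xi := by
  have hpi := Real.pi_gt_three
  have ho0 : off 0 = 2 * Real.pi / 3 := rfl
  have ho1 : off 1 = -(2 * Real.pi / 3) := rfl
  have ho2 : off 2 = 0 := rfl
  have hls : 0 < st.ls := by linarith [st.ls_lo]
  have hsg : ∀ σ ∈ Icc (0:ℝ) 1, st.sg σ ∈ Icc 0 st.ls := by
    intro σ hσ
    unfold Star.sg
    constructor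
    · exact mul_nonneg hls.le (by linarith [hσ.2])
    · nlinarith [hσ.1]
  have hcos0 : ∀ s, Real.cos (F.th 0 t s + off 0) = -Real.cos (Real.pi / 3 - F.th 0 t s) := by
    intro s
    rw [ho0, ← Real.cos_pi_sub]
    congr 1; ring
  have hcos1 : ∀ s, Real.cos (F.th 1 t s + off 1) = -Real.cos (Real.pi / 3 + F.th 1 t s) := by
    intro s
    rw [ho1, ← Real.cos_sub_pi]
    congr 1; ring
  have h0 : ∀ σ ∈ Icc (0:ℝ) 1, 0 < Real.cos (Real.pi / 3 - F.th 0 t σ) ∧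
      |Real.cos (Real.pi / 3 - F.th 0 t σ) ^ 2 - cpol (F.X 0 t σ / rr T t)| ≤ 0.017 := by
    intro σ hσ
    apply B4_arc st (hsg σ hσ) _ (hN.x0 σ hσ)
    have h := hN.th0 σ hσ
    rw [abs_sub_comm] at h
    have e : Real.pi / 3 - F.th 0 t σ - st.a (st.sg σ) =
        Real.pi / 3 - st.a (st.sg σ) - F.th 0 t σ := by ring
    rw [e]
    exact h
  have h1 : ∀ σ ∈ Icc (0:ℝ) 1, 0 < Real.cos (Real.pi / 3 + F.th 1 t σ) ∧
      |Real.cos (Real.pi / 3 + F.th 1 t σ) ^ 2 - cpol (F.X 1 t σ / rr T t)| ≤ 0.017 := by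
    intro σ hσ
    apply B4_arc st (hsg σ hσ) _ (hN.x1 σ hσ)
    have h := hN.th1 σ hσ
    have e : Real.pi / 3 + F.th 1 t σ - st.a (st.sg σ) =
        F.th 1 t σ - (st.a (st.sg σ) - Real.pi / 3) := by ring
    rw [e]
    exact h
  refine ⟨?_, ?_, ?_, ?_, ?_, ?_, hth⟩
  · intro σ hσ
    refine ⟨?_, ?_, ?_⟩
    · rw [hcos0]; linarith [(h0 σ hσ).1]
    · rw [hcos1]; linarith [(h1 σ hσ).1]
    · rw [ho2, add_zero]
      obtain ⟨e1, e2⟩ := abs_le.mp (hth σ hσ)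
      exact Real.cos_pos_of_mem_Ioo ⟨by linarith, by linarith⟩
  · intro σ hσ
    rw [hcos0, neg_sq]
    exact (h0 σ hσ).2
  · intro σ hσ
    rw [hcos1, neg_sq]
    exact (h1 σ hσ).2
  · intro σ hσ
    have h := hN.th0 σ hσ
    have h' : |F.th 0 t σ - (Real.pi / 3 - st.a (st.sg σ))| ≤ 0.0005 := h
    obtain ⟨e1, e2⟩ := abs_le.mp h'
    linarith [(B4_a_mem st (hsg σ hσ)).1]
  · intro σ hσ
    have h := hN.th1 σ hσ
    have h' : |F.th 1 t σ - (st.a (st.sg σ) - Real.pi / 3)| ≤ 0.0005 := h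
    obtain ⟨e1, e2⟩ := abs_le.mp h'
    linarith [(B4_a_mem st (hsg σ hσ)).1]
  · have h := hN.x0 0 ⟨le_rfl, zero_le_one⟩
    have h' : |F.X 0 t 0 / rr T t - st.x (st.sg 0)| ≤ 0.0005 := h
    have e : st.sg 0 = st.ls := by unfold Star.sg; ring
    rw [e, F.X_J 0 t ht] at h'
    unfold Star.xi
    linarith

end Pool.Agent.Helper15.NF
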