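import Pool.Agent.Helper15.NF.DDefs

open Set MeasureTheory intervalIntegral Filter Topology

namespace Pool.Agent.Helper15.NF

/-- pointwise limit from a uniform one -/
theorem B5_pt {a : ℝ} {f : ℝ → ℝ → ℝ} {g : ℝ → ℝ}
    (h : ∀ ε > 0, ∀ᶠ t in 𝓝[>] a, ∀ σ ∈ Icc (0:ℝ) 1, |f t σ - g σ| < ε) {σ : ℝ}
    (hσ : σ ∈ Icc (0:ℝ) 1) : Tendsto (fun t => f t σ) (𝓝[>] a) (𝓝 (g σ)) := by
  rw [Metric.tendsto_nhds]
  intro ε hε
  filter_upwards [h ε hε] with t ht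
  rw [Real.dist_eq]
  exact ht σ hσ

/-- uniform bound from a uniform limit -/
theorem B5_bd {a : ℝ} {f : ℝ → ℝ → ℝ} {g : ℝ → ℝ}
    (h : ∀ ε > 0, ∀ᶠ t in 𝓝[>] a, ∀ σ ∈ Icc (0:ℝ) 1, |f t σ - g σ| < ε)
    (hg : ContinuousOn g (Icc 0 1)) :
    ∃ C : ℝ, 0 ≤ C ∧ ∀ᶠ t in 𝓝[>] a, ∀ σ ∈ Icc (0:ℝ) 1, |f t σ| ≤ C := by
  obtain ⟨C, hC⟩ := isCompact_Icc.exists_bound_of_continuousOn hg
  have hC0 : 0 ≤ C := le_trans (norm_nonneg _) (hC 0 (by simp))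
  refine ⟨C + 1, by linarith, ?_⟩
  filter_upwards [h 1 one_pos] with t ht σ hσ
  have h1 := ht σ hσ
  have h2 := hC σ hσ
  rw [Real.norm_eq_abs] at h2
  have h3 : |f t σ| ≤ |f t σ - g σ| + |g σ| := by
    have := abs_add_le (f t σ - g σ) (g σ)
    simpa using this
  linarith

/-- dominated convergence on `[0,1]` as `t ↓ a` -/
theorem B5_dct {a : ℝ} {f : ℝ → ℝ → ℝ} {g : ℝ → ℝ} (C : ℝ)
    (hm : ∀ᶠ t in 𝓝[>] a, ContinuousOn (f t) (Icc 0 1))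
    (hb : ∀ᶠ t in 𝓝[>] a, ∀ σ ∈ Icc (0:ℝ) 1, |f t σ| ≤ C)
    (hl : ∀ σ ∈ Icc (0:ℝ) 1, Tendsto (fun t => f t σ) (𝓝[>] a) (𝓝 (g σ))) :
    Tendsto (fun t => ∫ σ in (0:ℝ)..1, f t σ) (𝓝[>] a) (𝓝 (∫ σ in (0:ℝ)..1, g σ)) := by
  have hu : uIoc (0:ℝ) 1 = Ioc 0 1 := uIoc_of_le zero_le_one
  refine tendsto_integral_filter_of_dominated_convergence (fun _ => C) ?_ ?_ ?_ ?_
  · filter_upwards [hm] with t ht
    rw [hu]
    exact (ht.mono Ioc_subset_Icc_self).aestronglyMeasurable measurableSet_Ioc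
  · filter_upwards [hb] with t ht
    refine ae_of_all _ fun σ hσ => ?_
    rw [hu] at hσ
    rw [Real.norm_eq_abs]
    exact ht σ (Ioc_subset_Icc_self hσ)
  · exact intervalIntegrable_const
  · refine ae_of_all _ fun σ hσ => ?_
    rw [hu] at hσ
    exact hl σ (Ioc_subset_Icc_self hσ)

/-- continuity of the angle at a fixed time -/
theorem B5_thc {a b Lx : ℝ} (F : Flow a b Lx) (i : Fin 3) {t : ℝ} (ht : t ∈ Ioo a b) :
    ContinuousOn (F.th i t) (Icc 0 1) := fun σ hσ => (F.th_s i t ht σ hσ).continuousWithinAt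

theorem B5_Xc {a b Lx : ℝ} (F : Flow a b Lx) (i : Fin 3) {t : ℝ} (ht : t ∈ Ioo a b) :
    ContinuousOn (F.X i t) (Icc 0 1) := fun σ hσ => (F.X_s i t ht σ hσ).continuousWithinAt

theorem B5_Yc {a b Lx : ℝ} (F : Flow a b Lx) (i : Fin 3) {t : ℝ} (ht : t ∈ Ioo a b) :
    ContinuousOn (F.Y i t) (Icc 0 1) := fun σ hσ => (F.Y_s i t ht σ hσ).continuousWithinAt

/-- B5 : the area is continuous at the initial time -/
theorem area_limit {Lx T0 : ℝ} (hT0 : 0 < T0) (F : Flow 0 T0 Lx) (I : Init Lx) (hS : StartsAt F I) :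
    Tendsto F.area (𝓝[>] 0) (𝓝 I.area) := by
  have key : ∀ i, Tendsto (fun t => ∫ σ in (0:ℝ)..1, F.Y i t σ * Real.cos (F.th i t σ + off i))
      (𝓝[>] 0) (𝓝 (∫ σ in (0:ℝ)..1, I.Y i σ * Real.cos (I.th i σ + off i))) := by
    intro i
    obtain ⟨C, hC0, hC⟩ := B5_bd (hS.Y i) (fun σ hσ => (I.Y_s i σ hσ).continuousWithinAt)
    refine B5_dct C ?_ ?_ ?_
    · filter_upwards [Ioo_mem_nhdsGT hT0] with t ht
      exact (B5_Yc F i ht).mul
        (Real.continuous_cos.comp_continuousOn ((B5_thc F i ht).add continuousOn_const))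
    · filter_upwards [hC] with t ht σ hσ
      rw [abs_mul]
      calc |F.Y i t σ| * |Real.cos (F.th i t σ + off i)| ≤ C * 1 :=
            mul_le_mul (ht σ hσ) (Real.abs_cos_le_one _) (abs_nonneg _) hC0
        _ = C := mul_one C
    · intro σ hσ
      exact (B5_pt (hS.Y i) hσ).mul
        ((Real.continuous_cos.tendsto _).comp ((B5_pt (hS.th i) hσ).add tendsto_const_nhds))
  have h0 := (hS.ell 0).mul (key 0)
  have h1 := (hS.ell 1).mul (key 1)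
  exact h0.neg.add h1

end Pool.Agent.Helper15.NF
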