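import Pool.Agent.Helper15.NF.U0
import Pool.Agent.Helper15.NF.DDefs

open Set MeasureTheory intervalIntegral Filter Topology

namespace Pool.Agent.Helper15.NF

/-- convergence as `t → 0+`, locally uniformly in `σ ∈ [0,1]` -/
private def B6LU (f : ℝ → ℝ → ℝ) (g : ℝ → ℝ) : Prop :=
  ∀ σ ∈ Icc (0:ℝ) 1, Tendsto (fun p : ℝ × ℝ => f p.1 p.2) (𝓝[>] (0:ℝ) ×ˢ 𝓝[Icc (0:ℝ) 1] σ)
    (𝓝 (g σ))

private theorem B6_unif {f : ℝ → ℝ → ℝ} {g : ℝ → ℝ} (hg : ContinuousOn g (Icc 0 1))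
    (h : B6LU f g) : ∀ ε > 0, ∀ᶠ t in 𝓝[>] (0:ℝ), ∀ σ ∈ Icc (0:ℝ) 1, |f t σ - g σ| < ε := by
  have h1 : TendstoLocallyUniformlyOn f g (𝓝[>] (0:ℝ)) (Icc (0:ℝ) 1) := by
    rw [tendstoLocallyUniformlyOn_iff_forall_tendsto]
    intro x hx
    have e1 : Tendsto (fun y : ℝ × ℝ => g y.2) (𝓝[>] (0:ℝ) ×ˢ 𝓝[Icc (0:ℝ) 1] x) (𝓝 (g x)) :=
      (hg x hx).tendsto.comp tendsto_snd
    have e2 := e1.prodMk (h x hx)
    rw [← nhds_prod_eq] at e2
    exact e2.mono_right (nhds_le_uniformity (g x))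
  rw [tendstoLocallyUniformlyOn_iff_tendstoUniformlyOn_of_compact isCompact_Icc] at h1
  rw [Metric.tendstoUniformlyOn_iff] at h1
  intro ε hε
  filter_upwards [h1 ε hε] with t ht σ hσ
  have := ht σ hσ
  rwa [dist_comm, Real.dist_eq] at this

private theorem B6_lu {f : ℝ → ℝ → ℝ} {g : ℝ → ℝ} (hg : ContinuousOn g (Icc 0 1))
    (h : ∀ ε > 0, ∀ᶠ t in 𝓝[>] (0:ℝ), ∀ σ ∈ Icc (0:ℝ) 1, |f t σ - g σ| < ε) : B6LU f g := by
  intro σ hσ
  rw [Metric.tendsto_nhds]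
  intro ε hε
  have h1 := h (ε / 2) (half_pos hε)
  have h2 : ∀ᶠ σ' in 𝓝[Icc (0:ℝ) 1] σ, dist (g σ') (g σ) < ε / 2 :=
    Metric.tendsto_nhds.1 (hg σ hσ).tendsto _ (half_pos hε)
  have h3 : ∀ᶠ σ' in 𝓝[Icc (0:ℝ) 1] σ, σ' ∈ Icc (0:ℝ) 1 := self_mem_nhdsWithin
  filter_upwards [h1.prod_mk (h2.and h3)] with p hp
  have e1 := hp.1 p.2 hp.2.2
  have e2 := hp.2.1
  rw [Real.dist_eq] at e2 ⊢
  have e3 : f p.1 p.2 - g σ = (f p.1 p.2 - g p.2) + (g p.2 - g σ) := by ring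
  rw [e3]
  exact (abs_add_le _ _).trans_lt (by linarith)

private theorem B6_ii {f : ℝ → ℝ} (hf : ContinuousOn f (Icc 0 1)) :
    IntervalIntegrable f volume 0 1 := by
  apply ContinuousOn.intervalIntegrable
  rwa [uIcc_of_le zero_le_one]

private theorem B6_int {f : ℝ → ℝ → ℝ} {g : ℝ → ℝ}
    (hf : ∀ᶠ t in 𝓝[>] (0:ℝ), ContinuousOn (f t) (Icc 0 1)) (hg : ContinuousOn g (Icc 0 1))
    (h : B6LU f g) :
    Tendsto (fun t => ∫ σ in (0:ℝ)..1, f t σ) (𝓝[>] (0:ℝ)) (𝓝 (∫ σ in (0:ℝ)..1, g σ)) := by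
  rw [Metric.tendsto_nhds]
  intro ε hε
  filter_upwards [hf, B6_unif hg h (ε / 2) (half_pos hε)] with t ht hu
  rw [Real.dist_eq, ← intervalIntegral.integral_sub (B6_ii ht) (B6_ii hg)]
  have := intervalIntegral.norm_integral_le_of_norm_le_const (a := (0:ℝ)) (b := 1)
    (f := fun σ => f t σ - g σ) (C := ε / 2) (by
      intro σ hσ
      rw [uIoc_of_le zero_le_one] at hσ
      exact (hu σ ⟨hσ.1.le, hσ.2⟩).le)
  rw [Real.norm_eq_abs] at this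
  calc _ ≤ _ := this
    _ < ε := by simp; linarith

section
variable {T0 T : ℝ} (F : Flow 0 T0 1) (I : Init 1)

private theorem B6_Ith (i : Fin 3) : ContinuousOn (I.th i) (Icc 0 1) :=
  fun σ hσ => (I.th_s i σ hσ).continuousWithinAt
private theorem B6_Ik (i : Fin 3) : ContinuousOn (I.k i) (Icc 0 1) :=
  fun σ hσ => (I.k_s i σ hσ).continuousWithinAt
private theorem B6_IX (i : Fin 3) : ContinuousOn (I.X i) (Icc 0 1) :=
  fun σ hσ => (I.X_s i σ hσ).continuousWithinAt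
private theorem B6_IY (i : Fin 3) : ContinuousOn (I.Y i) (Icc 0 1) :=
  fun σ hσ => (I.Y_s i σ hσ).continuousWithinAt
private theorem B6_Fth (i : Fin 3) {t : ℝ} (ht : t ∈ Ioo 0 T0) :
    ContinuousOn (F.th i t) (Icc 0 1) :=
  fun σ hσ => (F.th_s i t ht σ hσ).continuousWithinAt
private theorem B6_Fk (i : Fin 3) {t : ℝ} (ht : t ∈ Ioo 0 T0) :
    ContinuousOn (F.k i t) (Icc 0 1) :=
  fun σ hσ => (F.k_s i t ht σ hσ).continuousWithinAt
private theorem B6_FX (i : Fin 3) {t : ℝ} (ht : t ∈ Ioo 0 T0) :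
    ContinuousOn (F.X i t) (Icc 0 1) :=
  fun σ hσ => (F.X_s i t ht σ hσ).continuousWithinAt
private theorem B6_FY (i : Fin 3) {t : ℝ} (ht : t ∈ Ioo 0 T0) :
    ContinuousOn (F.Y i t) (Icc 0 1) :=
  fun σ hσ => (F.Y_s i t ht σ hσ).continuousWithinAt

private theorem B6_rr (hT0 : 0 < T0) (hT : T0 ≤ T) : 0 < rr T 0 := by
  unfold rr; exact Real.sqrt_pos.2 (by linarith)

private theorem B6_rr_lim : Tendsto (fun t => rr T t) (𝓝[>] (0:ℝ)) (𝓝 (rr T 0)) := by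
  have : Continuous (fun t => rr T t) := by
    unfold rr; fun_prop
  exact (this.tendsto 0).mono_left nhdsWithin_le_nhds

private theorem B6_rr_lim' (σ : ℝ) : Tendsto (fun p : ℝ × ℝ => rr T p.1)
    (𝓝[>] (0:ℝ) ×ˢ 𝓝[Icc (0:ℝ) 1] σ) (𝓝 (rr T 0)) :=
  (B6_rr_lim (T := T)).comp tendsto_fst

private theorem B6_x (hT0 : 0 < T0) (hT : T0 ≤ T) (hS : StartsAt F I) (i : Fin 3) :
    B6LU (fun t σ => (F.raw (rr T t) 0 t).x i σ) ((I.raw (rr T 0) 0).x i) := by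
  intro σ hσ
  have h := B6_lu (B6_IX I i) (hS.X i) σ hσ
  exact h.div (B6_rr_lim' σ) (B6_rr hT0 hT).ne'

private theorem B6_y (hT0 : 0 < T0) (hT : T0 ≤ T) (hS : StartsAt F I) (i : Fin 3) :
    B6LU (fun t σ => (F.raw (rr T t) 0 t).y i σ) ((I.raw (rr T 0) 0).y i) := by
  intro σ hσ
  have h := B6_lu (B6_IY I i) (hS.Y i) σ hσ
  exact (h.sub_const 0).div (B6_rr_lim' σ) (B6_rr hT0 hT).ne'

private theorem B6_ang (hS : StartsAt F I) (i : Fin 3) :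
    B6LU (fun t σ => (F.raw (rr T t) 0 t).ang i σ) ((I.raw (rr T 0) 0).ang i) := by
  intro σ hσ
  have h := B6_lu (B6_Ith I i) (hS.th i) σ hσ
  exact h.add_const (off i)

private theorem B6_h (hT0 : 0 < T0) (hT : T0 ≤ T) (hS : StartsAt F I) (i : Fin 3) :
    B6LU (fun t σ => (F.raw (rr T t) 0 t).h i σ) ((I.raw (rr T 0) 0).h i) := by
  intro σ hσ
  have hx := B6_x F I hT0 hT hS i σ hσ
  have hy := B6_y F I hT0 hT hS i σ hσ
  have ha := B6_ang (T := T) F I hS i σ hσ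
  have hs := (Real.continuous_sin.tendsto _).comp ha
  have hc := (Real.continuous_cos.tendsto _).comp ha
  exact (hx.mul hs).neg.add (hy.mul hc)

private theorem B6_w (hT0 : 0 < T0) (hT : T0 ≤ T) (hS : StartsAt F I) (i : Fin 3) :
    B6LU (fun t σ => (F.raw (rr T t) 0 t).w (1 / rr T t) i σ)
      ((I.raw (rr T 0) 0).w (1 / rr T 0) i) := by
  intro σ hσ
  have hx := B6_x F I hT0 hT hS i σ hσ
  have hy := B6_y F I hT0 hT hS i σ hσ
  have hr := B6_rr_lim' (T := T) σ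
  have hr0 := B6_rr hT0 hT
  have h1 := (Real.continuous_exp.tendsto _).comp (((hx.pow 2).add (hy.pow 2)).div_const 2).neg
  have h2 := (tendsto_const_nhds (x := (1:ℝ))).div hr hr0.ne'
  have h3 := (cut_contDiff.continuous.tendsto _).comp (hx.div h2 (by positivity))
  exact h1.mul h3

private theorem B6_Ix (r : ℝ) (i : Fin 3) : ContinuousOn ((I.raw r 0).x i) (Icc 0 1) :=
  (B6_IX I i).div_const r
private theorem B6_Iy (r : ℝ) (i : Fin 3) : ContinuousOn ((I.raw r 0).y i) (Icc 0 1) :=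
  ((B6_IY I i).sub continuousOn_const).div_const r
private theorem B6_Iang (r : ℝ) (i : Fin 3) : ContinuousOn ((I.raw r 0).ang i) (Icc 0 1) :=
  (B6_Ith I i).add continuousOn_const
private theorem B6_Ih (r : ℝ) (i : Fin 3) : ContinuousOn ((I.raw r 0).h i) (Icc 0 1) :=
  ((B6_Ix I r i).mul (Real.continuous_sin.comp_continuousOn (B6_Iang I r i))).neg.add
    ((B6_Iy I r i).mul (Real.continuous_cos.comp_continuousOn (B6_Iang I r i)))
private theorem B6_IS (r : ℝ) (i : Fin 3) : ContinuousOn ((I.raw r 0).S i) (Icc 0 1) :=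
  (continuousOn_const.mul (B6_Ik I i)).add (B6_Ih I r i)
private theorem B6_Iw (r R : ℝ) (i : Fin 3) : ContinuousOn ((I.raw r 0).w R i) (Icc 0 1) :=
  (Real.continuous_exp.comp_continuousOn
    ((((B6_Ix I r i).pow 2).add ((B6_Iy I r i).pow 2)).div_const 2).neg).mul
    (cut_contDiff.continuous.comp_continuousOn ((B6_Ix I r i).div_const R))

private theorem B6_Fx (r : ℝ) (i : Fin 3) {t : ℝ} (ht : t ∈ Ioo 0 T0) :
    ContinuousOn ((F.raw r 0 t).x i) (Icc 0 1) :=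
  (B6_FX F i ht).div_const r
private theorem B6_Fy (r : ℝ) (i : Fin 3) {t : ℝ} (ht : t ∈ Ioo 0 T0) :
    ContinuousOn ((F.raw r 0 t).y i) (Icc 0 1) :=
  ((B6_FY F i ht).sub continuousOn_const).div_const r
private theorem B6_Fang (r : ℝ) (i : Fin 3) {t : ℝ} (ht : t ∈ Ioo 0 T0) :
    ContinuousOn ((F.raw r 0 t).ang i) (Icc 0 1) :=
  (B6_Fth F i ht).add continuousOn_const
private theorem B6_Fh (r : ℝ) (i : Fin 3) {t : ℝ} (ht : t ∈ Ioo 0 T0) :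
    ContinuousOn ((F.raw r 0 t).h i) (Icc 0 1) :=
  ((B6_Fx F r i ht).mul (Real.continuous_sin.comp_continuousOn (B6_Fang F r i ht))).neg.add
    ((B6_Fy F r i ht).mul (Real.continuous_cos.comp_continuousOn (B6_Fang F r i ht)))
private theorem B6_FS (r : ℝ) (i : Fin 3) {t : ℝ} (ht : t ∈ Ioo 0 T0) :
    ContinuousOn ((F.raw r 0 t).S i) (Icc 0 1) :=
  (continuousOn_const.mul (B6_Fk F i ht)).add (B6_Fh F r i ht)
private theorem B6_Fw (r R : ℝ) (i : Fin 3) {t : ℝ} (ht : t ∈ Ioo 0 T0) :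
    ContinuousOn ((F.raw r 0 t).w R i) (Icc 0 1) :=
  (Real.continuous_exp.comp_continuousOn
    ((((B6_Fx F r i ht).pow 2).add ((B6_Fy F r i ht).pow 2)).div_const 2).neg).mul
    (cut_contDiff.continuous.comp_continuousOn ((B6_Fx F r i ht).div_const R))

private theorem B6_w_nonneg (c : Raw) (R : ℝ) (i : Fin 3) (σ : ℝ) : 0 ≤ c.w R i σ :=
  mul_nonneg (Real.exp_pos _).le (cut_nonneg _)

private theorem B6_w_le (c : Raw) (R : ℝ) (i : Fin 3) (σ : ℝ) : c.w R i σ ≤ 1 := by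
  have h1 : c.rho i σ ≤ 1 := by
    unfold Raw.rho
    rw [Real.exp_le_one_iff]
    nlinarith [sq_nonneg (c.x i σ), sq_nonneg (c.y i σ)]
  exact mul_le_one₀ h1 (cut_nonneg _) (cut_le_one _)

private theorem B6_mem (hT0 : 0 < T0) : ∀ᶠ t in 𝓝[>] (0:ℝ), t ∈ Ioo 0 T0 :=
  Ioo_mem_nhdsGT hT0

/-- the upper bound for the weighted integral of `S²` on one edge -/
private theorem B6_edge (i : Fin 3) {t : ℝ} (ht : t ∈ Ioo 0 T0) :
    ∫ σ in (0:ℝ)..1, (F.raw (rr T t) 0 t).S i σ ^ 2 * (F.raw (rr T t) 0 t).w (1 / rr T t) i σ ≤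
      1.5 * (∫ σ in (0:ℝ)..1, (I.raw (rr T 0) 0).S i σ ^ 2 *
          (F.raw (rr T t) 0 t).w (1 / rr T t) i σ) +
      (9 * rr T t ^ 2 * (∫ σ in (0:ℝ)..1, (F.k i t σ - I.k i σ) ^ 2) +
        9 * (rr T t - rr T 0) ^ 2 * (∫ σ in (0:ℝ)..1, I.k i σ ^ 2) +
        9 * ∫ σ in (0:ℝ)..1, ((F.raw (rr T t) 0 t).h i σ - (I.raw (rr T 0) 0).h i σ) ^ 2) := by
  set r := rr T t
  set q := rr T 0
  set c := F.raw r 0 t with hc
  set d := I.raw q 0 with hd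
  have c1 : ContinuousOn (fun σ => d.S i σ ^ 2 * c.w (1 / r) i σ) (Icc 0 1) :=
    ((B6_IS I q i).pow 2).mul (B6_Fw F r (1 / r) i ht)
  have c2 : ContinuousOn (fun σ => (F.k i t σ - I.k i σ) ^ 2) (Icc 0 1) :=
    ((B6_Fk F i ht).sub (B6_Ik I i)).pow 2
  have c3 : ContinuousOn (fun σ => I.k i σ ^ 2) (Icc 0 1) := (B6_Ik I i).pow 2
  have c4 : ContinuousOn (fun σ => (c.h i σ - d.h i σ) ^ 2) (Icc 0 1) :=
    ((B6_Fh F r i ht).sub (B6_Ih I q i)).pow 2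
  have c0 : ContinuousOn (fun σ => c.S i σ ^ 2 * c.w (1 / r) i σ) (Icc 0 1) :=
    ((B6_FS F r i ht).pow 2).mul (B6_Fw F r (1 / r) i ht)
  have i1 : IntervalIntegrable (fun σ => 1.5 * (d.S i σ ^ 2 * c.w (1 / r) i σ)) volume 0 1 :=
    B6_ii (continuousOn_const.mul c1)
  have i2 : IntervalIntegrable (fun σ => 9 * r ^ 2 * (F.k i t σ - I.k i σ) ^ 2) volume 0 1 :=
    B6_ii (continuousOn_const.mul c2)
  have i3 : IntervalIntegrable (fun σ => 9 * (r - q) ^ 2 * I.k i σ ^ 2) volume 0 1 :=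
    B6_ii (continuousOn_const.mul c3)
  have i4 : IntervalIntegrable (fun σ => 9 * (c.h i σ - d.h i σ) ^ 2) volume 0 1 :=
    B6_ii (continuousOn_const.mul c4)
  have hpt : ∀ σ ∈ Icc (0:ℝ) 1, c.S i σ ^ 2 * c.w (1 / r) i σ ≤
      1.5 * (d.S i σ ^ 2 * c.w (1 / r) i σ) + (9 * r ^ 2 * (F.k i t σ - I.k i σ) ^ 2 +
        9 * (r - q) ^ 2 * I.k i σ ^ 2 + 9 * (c.h i σ - d.h i σ) ^ 2) := by
    intro σ _
    have w0 := B6_w_nonneg c (1 / r) i σ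
    have w1 := B6_w_le c (1 / r) i σ
    have hSc : c.S i σ = r * F.k i t σ + c.h i σ := rfl
    have hSd : d.S i σ = q * I.k i σ + d.h i σ := rfl
    set A := r * (F.k i t σ - I.k i σ) with hA
    set B := (r - q) * I.k i σ with hB
    set C := c.h i σ - d.h i σ with hC
    have hdiff : c.S i σ = d.S i σ + (A + B + C) := by
      rw [hSc, hSd, hA, hB, hC]; ring
    have h1 : c.S i σ ^ 2 ≤ 1.5 * d.S i σ ^ 2 + 3 * (A + B + C) ^ 2 := by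
      rw [hdiff]; nlinarith [sq_nonneg (d.S i σ - 2 * (A + B + C))]
    have h2 : (A + B + C) ^ 2 ≤ 3 * (A ^ 2 + B ^ 2 + C ^ 2) := by
      nlinarith [sq_nonneg (A - B), sq_nonneg (B - C), sq_nonneg (A - C)]
    have h3 : c.S i σ ^ 2 * c.w (1 / r) i σ ≤
        (1.5 * d.S i σ ^ 2 + 3 * (A + B + C) ^ 2) * c.w (1 / r) i σ :=
      mul_le_mul_of_nonneg_right h1 w0
    have h4 : 3 * (A + B + C) ^ 2 * c.w (1 / r) i σ ≤ 3 * (A + B + C) ^ 2 * 1 :=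
      mul_le_mul_of_nonneg_left w1 (by positivity)
    have e1 : 9 * r ^ 2 * (F.k i t σ - I.k i σ) ^ 2 = 9 * A ^ 2 := by rw [hA]; ring
    have e2 : 9 * (r - q) ^ 2 * I.k i σ ^ 2 = 9 * B ^ 2 := by rw [hB]; ring
    rw [e1, e2]
    nlinarith
  have i23 : IntervalIntegrable (fun σ => 9 * r ^ 2 * (F.k i t σ - I.k i σ) ^ 2 +
      9 * (r - q) ^ 2 * I.k i σ ^ 2) volume 0 1 := i2.add i3
  have i234 : IntervalIntegrable (fun σ => 9 * r ^ 2 * (F.k i t σ - I.k i σ) ^ 2 +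
      9 * (r - q) ^ 2 * I.k i σ ^ 2 + 9 * (c.h i σ - d.h i σ) ^ 2) volume 0 1 := i23.add i4
  have hint := intervalIntegral.integral_mono_on zero_le_one (B6_ii c0) (i1.add i234) hpt
  rw [intervalIntegral.integral_add i1 i234, intervalIntegral.integral_add i23 i4,
    intervalIntegral.integral_add i2 i3, intervalIntegral.integral_const_mul,
    intervalIntegral.integral_const_mul, intervalIntegral.integral_const_mul,
    intervalIntegral.integral_const_mul] at hint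
  exact hint

private theorem B6_D (hT0 : 0 < T0) (hT : T0 ≤ T) (hS : StartsAt F I) {δ : ℝ} (hδ : 0 < δ)
    (hD : (I.raw (rr T 0) 0).D (1 / rr T 0) ≤ δ / 2) :
    ∀ᶠ t in 𝓝[>] (0:ℝ), (F.raw (rr T t) 0 t).D (1 / rr T t) ≤ δ := by
  have hr0 := B6_rr hT0 hT
  have hr := B6_rr_lim (T := T)
  -- limits of the pieces
  have g1 : ∀ i, Tendsto (fun t => ∫ σ in (0:ℝ)..1, (I.raw (rr T 0) 0).S i σ ^ 2 *
          (F.raw (rr T t) 0 t).w (1 / rr T t) i σ) (𝓝[>] (0:ℝ))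
      (𝓝 (∫ σ in (0:ℝ)..1, (I.raw (rr T 0) 0).S i σ ^ 2 *
          (I.raw (rr T 0) 0).w (1 / rr T 0) i σ)) := by
    intro i
    apply B6_int
    · filter_upwards [B6_mem hT0] with t ht
      exact ((B6_IS I _ i).pow 2).mul (B6_Fw F _ _ i ht)
    · exact ((B6_IS I _ i).pow 2).mul (B6_Iw I _ _ i)
    · intro σ hσ
      have e1 : Tendsto (fun p : ℝ × ℝ => (I.raw (rr T 0) 0).S i p.2 ^ 2)
          (𝓝[>] (0:ℝ) ×ˢ 𝓝[Icc (0:ℝ) 1] σ) (𝓝 ((I.raw (rr T 0) 0).S i σ ^ 2)) :=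
        ((((B6_IS I _ i).pow 2) σ hσ).tendsto).comp tendsto_snd
      exact e1.mul (B6_w F I hT0 hT hS i σ hσ)
  have g2 : ∀ i, Tendsto (fun t => ∫ σ in (0:ℝ)..1,
      ((F.raw (rr T t) 0 t).h i σ - (I.raw (rr T 0) 0).h i σ) ^ 2) (𝓝[>] (0:ℝ)) (𝓝 0) := by
    intro i
    have := B6_int (f := fun t σ => ((F.raw (rr T t) 0 t).h i σ - (I.raw (rr T 0) 0).h i σ) ^ 2)
      (g := fun _ => 0) (by
        filter_upwards [B6_mem hT0] with t ht
        exact ((B6_Fh F _ i ht).sub (B6_Ih I _ i)).pow 2) continuousOn_const (by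
        intro σ hσ
        have e1 : Tendsto (fun p : ℝ × ℝ => (I.raw (rr T 0) 0).h i p.2)
            (𝓝[>] (0:ℝ) ×ˢ 𝓝[Icc (0:ℝ) 1] σ) (𝓝 ((I.raw (rr T 0) 0).h i σ)) :=
          ((B6_Ih I _ i) σ hσ).tendsto.comp tendsto_snd
        have e2 := ((B6_h F I hT0 hT hS i σ hσ).sub e1).pow 2
        simpa using e2)
    simpa using this
  have g3 : ∀ i, Tendsto (fun t => (F.ell i t / rr T t) * (1.5 * (∫ σ in (0:ℝ)..1,
          (I.raw (rr T 0) 0).S i σ ^ 2 * (F.raw (rr T t) 0 t).w (1 / rr T t) i σ) +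
      (9 * rr T t ^ 2 * (∫ σ in (0:ℝ)..1, (F.k i t σ - I.k i σ) ^ 2) +
        9 * (rr T t - rr T 0) ^ 2 * (∫ σ in (0:ℝ)..1, I.k i σ ^ 2) +
        9 * ∫ σ in (0:ℝ)..1, ((F.raw (rr T t) 0 t).h i σ - (I.raw (rr T 0) 0).h i σ) ^ 2)))
      (𝓝[>] (0:ℝ)) (𝓝 (1.5 * (I.raw (rr T 0) 0).I i
        (fun σ => (I.raw (rr T 0) 0).S i σ ^ 2 * (I.raw (rr T 0) 0).w (1 / rr T 0) i σ))) := by
    intro i
    have h1 := (hS.ell i).div hr hr0.ne'
    have h2 := (g1 i).const_mul (1.5 : ℝ)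
    have h3 := ((hr.pow 2).const_mul 9).mul (hS.k i)
    have h4 := (((hr.sub_const (rr T 0)).pow 2).const_mul 9).mul_const
      (∫ σ in (0:ℝ)..1, I.k i σ ^ 2)
    have h5 := (g2 i).const_mul 9
    have h6 := h1.mul (h2.add ((h3.add h4).add h5))
    have e : 1.5 * (I.raw (rr T 0) 0).I i
        (fun σ => (I.raw (rr T 0) 0).S i σ ^ 2 * (I.raw (rr T 0) 0).w (1 / rr T 0) i σ) =
        I.ell i / rr T 0 * ((1.5 * ∫ σ in (0:ℝ)..1, (I.raw (rr T 0) 0).S i σ ^ 2 *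
          (I.raw (rr T 0) 0).w (1 / rr T 0) i σ) +
          ((9 * rr T 0 ^ 2 * 0 + 9 * (rr T 0 - rr T 0) ^ 2 * ∫ σ in (0:ℝ)..1, I.k i σ ^ 2) +
            9 * 0)) := by
      unfold Raw.I Init.raw
      simp only
      ring
    rw [e]
    exact h6
  have g4 := tendsto_finsetSum Finset.univ (fun i _ => g3 i)
  rw [← Finset.mul_sum] at g4
  have hlim : 1.5 * (∑ i, (I.raw (rr T 0) 0).I i
      (fun σ => (I.raw (rr T 0) 0).S i σ ^ 2 * (I.raw (rr T 0) 0).w (1 / rr T 0) i σ)) < δ := by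
    have : (I.raw (rr T 0) 0).D (1 / rr T 0) = ∑ i, (I.raw (rr T 0) 0).I i
      (fun σ => (I.raw (rr T 0) 0).S i σ ^ 2 * (I.raw (rr T 0) 0).w (1 / rr T 0) i σ) := rfl
    rw [← this]
    linarith
  have hrpos : ∀ᶠ t in 𝓝[>] (0:ℝ), 0 < rr T t := hr.eventually (lt_mem_nhds hr0)
  filter_upwards [g4.eventually_lt_const hlim, B6_mem hT0, hrpos] with t h1 ht hrt
  refine le_trans ?_ h1.le
  unfold Raw.D
  apply Finset.sum_le_sum
  intro i _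
  exact mul_le_mul_of_nonneg_left (B6_edge (T := T) F I i ht)
    (div_nonneg (F.ell_pos i t ht).le hrt.le)

end

/-- B6 : closeness at small positive times -/
theorem start_close {T0 T : ℝ} (st : Star) (hT0 : 0 < T0) (hT : T0 ≤ T) (F : Flow 0 T0 1)
    (I : Init 1) (hS : StartsAt F I) {δ : ℝ} (hδ : 0 < δ)
    (hN : Near st 0 (I.raw (rr T 0) 0)) (hD : (I.raw (rr T 0) 0).D (1 / rr T 0) ≤ δ / 2)
    (hth : ∀ σ ∈ Icc (0:ℝ) 1, |I.th 2 σ| ≤ δ / 2)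
    (hk : ∀ σ ∈ Icc (0:ℝ) 1, 1 / 16 ≤ I.X 2 σ → I.k 2 σ = 0) :
    ∀ᶠ t in 𝓝[>] (0:ℝ), Near st δ (F.raw (rr T t) 0 t) ∧
        (F.raw (rr T t) 0 t).D (1 / rr T t) ≤ δ ∧
        (∀ σ ∈ Icc (0:ℝ) 1, |F.th 2 t σ| ≤ δ) ∧
        F.ell 2 t * (∫ σ in (0:ℝ)..1, F.k 2 t σ ^ 2 * chf (F.X 2 t σ) ^ 2) ≤ 1 := by
  have hr0 := B6_rr hT0 hT
  have hr := B6_rr_lim (T := T)
  have hell : ∀ i, ∀ᶠ t in 𝓝[>] (0:ℝ), |F.ell i t / rr T t - I.ell i / rr T 0| < δ := by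
    intro i
    have h1 := (hS.ell i).div hr hr0.ne'
    have := Metric.tendsto_nhds.1 h1 δ hδ
    filter_upwards [this] with t ht
    rwa [Real.dist_eq] at ht
  have hx : ∀ i, ∀ᶠ t in 𝓝[>] (0:ℝ), ∀ σ ∈ Icc (0:ℝ) 1,
      |(F.raw (rr T t) 0 t).x i σ - (I.raw (rr T 0) 0).x i σ| < δ := fun i =>
    B6_unif (B6_Ix I _ i) (B6_x F I hT0 hT hS i) δ hδ
  have hy : ∀ i, ∀ᶠ t in 𝓝[>] (0:ℝ), ∀ σ ∈ Icc (0:ℝ) 1,
      |(F.raw (rr T t) 0 t).y i σ - (I.raw (rr T 0) 0).y i σ| < δ := fun i =>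
    B6_unif (B6_Iy I _ i) (B6_y F I hT0 hT hS i) δ hδ
  have hz : ∀ {u v w : ℝ}, |u - v| ≤ 0 → |w - u| < δ → |w - v| ≤ δ := by
    intro u v w h1 h2
    have : u - v = 0 := abs_eq_zero.1 (le_antisymm h1 (abs_nonneg _))
    have e : w - v = w - u := by linarith
    rw [e]; exact h2.le
  have hz' : ∀ {u v w : ℝ}, |u + v| ≤ 0 → |w - u| < δ → |w + v| ≤ δ := by
    intro u v w h1 h2
    have : u + v = 0 := abs_eq_zero.1 (le_antisymm h1 (abs_nonneg _))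
    have e : w + v = w - u := by linarith
    rw [e]; exact h2.le
  -- tail
  have htail : ∀ᶠ t in 𝓝[>] (0:ℝ),
      F.ell 2 t * (∫ σ in (0:ℝ)..1, F.k 2 t σ ^ 2 * chf (F.X 2 t σ) ^ 2) ≤ 1 := by
    have h1 := (hS.ell 2).mul ((hS.k 2).const_mul 2)
    have h2 := h1.eventually_lt_const (u := 1) (by simp)
    filter_upwards [h2, hS.X 2 (1 / 8) (by norm_num), B6_mem hT0] with t h2 hX ht
    refine le_trans ?_ h2.le
    apply mul_le_mul_of_nonneg_left _ (F.ell_pos 2 t ht).le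
    rw [← intervalIntegral.integral_const_mul]
    apply intervalIntegral.integral_mono_on zero_le_one
    · exact B6_ii (((B6_Fk F 2 ht).pow 2).mul
        ((chf_contDiff.continuous.comp_continuousOn (B6_FX F 2 ht)).pow 2))
    · exact B6_ii (continuousOn_const.mul (((B6_Fk F 2 ht).sub (B6_Ik I 2)).pow 2))
    · intro σ hσ
      rcases le_total (1 / 16) (I.X 2 σ) with hI | hI
      · rw [hk σ hσ hI, sub_zero]
        have c0 := chf_nonneg (F.X 2 t σ)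
        have c1 := chf_le_one (F.X 2 t σ)
        have c2 : chf (F.X 2 t σ) ^ 2 ≤ 1 := pow_le_one₀ c0 c1
        nlinarith [sq_nonneg (F.k 2 t σ), mul_le_mul_of_nonneg_left c2 (sq_nonneg (F.k 2 t σ))]
      · have h3 := abs_lt.1 (hX σ hσ)
        have h4 : F.X 2 t σ ≤ 1 / 4 := by linarith [h3.2]
        rw [chf_zero h4]
        have := sq_nonneg (F.k 2 t σ - I.k 2 σ)
        nlinarith
  filter_upwards [hell 0, hell 1, hx 0, hx 1, hy 0, hy 1, hS.th 0 δ hδ, hS.th 1 δ hδ,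
    hS.th 2 (δ / 2) (half_pos hδ), B6_D F I hT0 hT hS hδ hD, htail] with t l0 l1 x0 x1 y0 y1 a0 a1
    a2 hDt htl
  refine ⟨⟨hz hN.L0 l0, hz hN.L1 l1, fun σ hσ => hz (hN.x0 σ hσ) (x0 σ hσ),
    fun σ hσ => hz (hN.x1 σ hσ) (x1 σ hσ), fun σ hσ => hz (hN.y0 σ hσ) (y0 σ hσ),
    fun σ hσ => hz' (hN.y1 σ hσ) (y1 σ hσ), fun σ hσ => hz (hN.th0 σ hσ) (a0 σ hσ),
    fun σ hσ => hz (hN.th1 σ hσ) (a1 σ hσ)⟩, hDt, ?_, htl⟩
  intro σ hσ
  have h1 := abs_lt.1 (a2 σ hσ)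
  have h2 := abs_le.1 (hth σ hσ)
  rw [abs_le]; constructor <;> linarith [h1.1, h1.2, h2.1, h2.2]

end Pool.Agent.Helper15.NF
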