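import Pool.Agent.Helper15.NF.DDefs
import Pool.Agent.Helper15.NF.B5

open Set MeasureTheory intervalIntegral Filter Topology

namespace Pool.Agent.Helper15.NF

theorem B7_w1_pos : 0 < w1 1.18 := by
  unfold w1; norm_num

theorem B7_Z1_cont : Continuous Z1 := by
  unfold Z1
  refine Continuous.if_le ?_ ?_ continuous_id continuous_const ?_
  · unfold p1; fun_prop
  · unfold w1; fun_prop
  · intro x hx
    have hx' : x = 1.18 := hx
    subst hx'
    have h := B7_w1_pos.ne'
    rw [sub_self, zero_div, Real.exp_zero, div_self h]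
    ring

theorem B7_zeta1_cont : Continuous zeta1 := B7_Z1_cont.max continuous_const

/-- B7 : the lower functional is continuous at the initial time -/
theorem J_limit {T0 T : ℝ} (hT0 : 0 < T0) (hT : T0 ≤ T) (F : Flow 0 T0 1)
    (I : Init 1) (hS : StartsAt F I) :
    Tendsto (fun t => F.J (fun x => zeta1 (x / rr T t)) t) (𝓝[>] 0)
      (𝓝 (I.J (fun x => zeta1 (x / rr T 0)))) := by
  have hr0 : 0 < rr T 0 := by
    unfold rr
    exact Real.sqrt_pos.2 (by linarith)
  have hrl : Tendsto (fun t => rr T t) (𝓝[>] 0) (𝓝 (rr T 0)) := by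
    have hc : Continuous (fun t => rr T t) := by
      unfold rr
      exact Real.continuous_sqrt.comp (by fun_prop)
    exact (hc.tendsto 0).mono_left nhdsWithin_le_nhds
  have key : ∀ i, Tendsto (fun t => ∫ σ in (0:ℝ)..1,
      zeta1 (F.X i t σ / rr T t) * Real.sin (F.th i t σ + off i))
      (𝓝[>] 0) (𝓝 (∫ σ in (0:ℝ)..1, zeta1 (I.X i σ / rr T 0) * Real.sin (I.th i σ + off i))) := by
    intro i
    obtain ⟨C, hC0, hC⟩ := B5_bd (hS.X i) (fun σ hσ => (I.X_s i σ hσ).continuousWithinAt)
    obtain ⟨D, hD⟩ := (isCompact_Icc (a := -(C / (rr T 0 / 2))) (b := C / (rr T 0 / 2))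
      ).exists_bound_of_continuousOn B7_zeta1_cont.continuousOn
    have hD0 : 0 ≤ D := by
      refine le_trans (norm_nonneg _) (hD 0 ?_)
      have : 0 ≤ C / (rr T 0 / 2) := by positivity
      constructor <;> linarith
    refine B5_dct D ?_ ?_ ?_
    · filter_upwards [Ioo_mem_nhdsGT hT0] with t ht
      exact (B7_zeta1_cont.comp_continuousOn ((B5_Xc F i ht).div_const _)).mul
        (Real.continuous_sin.comp_continuousOn ((B5_thc F i ht).add continuousOn_const))
    · filter_upwards [hC, hrl.eventually (lt_mem_nhds (half_lt_self hr0))] with t ht hr σ hσ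
      have hrt : 0 < rr T t := by linarith
      have hb : |F.X i t σ / rr T t| ≤ C / (rr T 0 / 2) := by
        rw [abs_div, abs_of_pos hrt]
        exact div_le_div₀ hC0 (ht σ hσ) (by linarith) hr.le
      have h1 := hD (F.X i t σ / rr T t) (abs_le.1 hb)
      rw [Real.norm_eq_abs] at h1
      rw [abs_mul]
      calc |zeta1 (F.X i t σ / rr T t)| * |Real.sin (F.th i t σ + off i)| ≤ D * 1 :=
            mul_le_mul h1 (Real.abs_sin_le_one _) (abs_nonneg _) hD0
        _ = D := mul_one D
    · intro σ hσ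
      exact ((B7_zeta1_cont.tendsto _).comp ((B5_pt (hS.X i) hσ).div hrl hr0.ne')).mul
        ((Real.continuous_sin.tendsto _).comp ((B5_pt (hS.th i) hσ).add tendsto_const_nhds))
  have h0 := (hS.ell 0).mul (key 0)
  have h1 := (hS.ell 1).mul (key 1)
  have h2 := (hS.ell 2).mul (key 2)
  exact (h0.neg.sub h1).add (h2.const_mul 2)

end Pool.Agent.Helper15.NF
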