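import Pool.Agent.Helper15.NF.SDefs

open Set MeasureTheory intervalIntegral Filter Topology

namespace Pool.Agent.Helper15.NF

private lemma CL1_bounds {l : ℝ} {x y a S : ℝ → ℝ} (hl : l ≤ 1.5)
    (h : IsArc l x y a S) (h0 : |y 0| ≤ 1) {s : ℝ} (hs : s ∈ Icc (0:ℝ) l) :
    |x s| ≤ 1.5 ∧ |y s| ≤ 2.5 := by
  have hl0 : (0:ℝ) ∈ Icc (0:ℝ) l := ⟨le_rfl, hs.1.trans hs.2⟩
  have hx : ‖x s - x 0‖ ≤ 1 * ‖s - 0‖ := by
    apply Convex.norm_image_sub_le_of_norm_hasDerivWithin_le (f' := fun s => Real.cos (a s))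
      (s := Icc 0 l) (fun u hu => h.x_s u hu) _ (convex_Icc 0 l) hl0 hs
    intro u _
    rw [Real.norm_eq_abs]; exact Real.abs_cos_le_one _
  have hy : ‖y s - y 0‖ ≤ 1 * ‖s - 0‖ := by
    apply Convex.norm_image_sub_le_of_norm_hasDerivWithin_le (f' := fun s => -Real.sin (a s))
      (s := Icc 0 l) (fun u hu => h.y_s u hu) _ (convex_Icc 0 l) hl0 hs
    intro u _
    rw [norm_neg, Real.norm_eq_abs]; exact Real.abs_sin_le_one _
  rw [h.x_0, sub_zero, sub_zero, one_mul, Real.norm_eq_abs, Real.norm_eq_abs,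
    abs_of_nonneg hs.1] at hx
  rw [sub_zero, one_mul, Real.norm_eq_abs, Real.norm_eq_abs, abs_of_nonneg hs.1] at hy
  constructor
  · linarith [hs.2]
  · have := abs_sub_abs_le_abs_sub (y s) (y 0)
    linarith [hs.2]

/-- CL1 : Gronwall comparison of two arcs -/
theorem arc_gronwall : ∃ C > 0, ∀ (l : ℝ) (x y a S x' y' a' S' : ℝ → ℝ), l ∈ Icc (0:ℝ) 1.5 →
    IsArc l x y a S → IsArc l x' y' a' S' →
    ContinuousOn S (Icc 0 l) → ContinuousOn S' (Icc 0 l) → |y 0| ≤ 1 → |y' 0| ≤ 1 →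
    ∀ s ∈ Icc (0:ℝ) l, |x s - x' s| ≤ C * (|y 0 - y' 0| + ∫ u in (0:ℝ)..l, |S u - S' u|) ∧
      |y s - y' s| ≤ C * (|y 0 - y' 0| + ∫ u in (0:ℝ)..l, |S u - S' u|) ∧
      |a s - a' s| ≤ C * (|y 0 - y' 0| + ∫ u in (0:ℝ)..l, |S u - S' u|) := by
  refine ⟨Real.exp 9 + 1, by positivity, ?_⟩
  intro l x y a S x' y' a' S' hl h h' hS hS' hy0 hy0' s hs
  have hl0 : (0:ℝ) ∈ Icc (0:ℝ) l := ⟨le_rfl, hl.1⟩
  have hDc : ContinuousOn (fun u => S u - S' u) (Icc 0 l) := hS.sub hS'
  set Wt := ∫ u in (0:ℝ)..l, |S u - S' u| with hWt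
  have hint : ∀ t ∈ Icc (0:ℝ) l, IntervalIntegrable (fun u => S u - S' u) volume 0 t := by
    intro t ht
    apply ContinuousOn.intervalIntegrable
    rw [uIcc_of_le ht.1]
    exact hDc.mono (Icc_subset_Icc_right ht.2)
  have hinta : ∀ t ∈ Icc (0:ℝ) l, IntervalIntegrable (fun u => |S u - S' u|) volume 0 t := by
    intro t ht
    exact (hint t ht).abs
  have hWt0 : 0 ≤ Wt := intervalIntegral.integral_nonneg hl.1 (fun u _ => abs_nonneg _)
  -- the primitive of the difference of the sources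
  set W : ℝ → ℝ := fun t => ∫ u in (0:ℝ)..t, (S u - S' u) with hW
  have hWb : ∀ t ∈ Icc (0:ℝ) l, |W t| ≤ Wt := by
    intro t ht
    calc |W t| ≤ ∫ u in (0:ℝ)..t, |S u - S' u| :=
          intervalIntegral.abs_integral_le_integral_abs ht.1
      _ ≤ Wt := by
          apply intervalIntegral.integral_mono_interval le_rfl ht.1 ht.2
          · exact Filter.Eventually.of_forall (fun u => abs_nonneg _)
          · exact hinta l ⟨hl.1, le_rfl⟩
  have hWd : ∀ t ∈ Icc (0:ℝ) l, HasDerivWithinAt W (S t - S' t) (Icc 0 l) t := by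
    intro t ht
    have : Fact (t ∈ Icc (0:ℝ) l) := ⟨ht⟩
    apply intervalIntegral.integral_hasDerivWithinAt_right (hint t ht) (t := Icc 0 l)
    · refine ContinuousOn.stronglyMeasurableAtFilter_nhdsWithin ?_ measurableSet_Icc t
      exact hDc
    · exact hDc t ht
  -- bounds
  have B := fun t (ht : t ∈ Icc (0:ℝ) l) => CL1_bounds hl.2 h hy0 ht
  have B' := fun t (ht : t ∈ Icc (0:ℝ) l) => CL1_bounds hl.2 h' hy0' ht
  -- the curve to which Gronwall is applied
  set f : ℝ → ℝ × ℝ × ℝ := fun t => (x t - x' t, y t - y' t, a t - a' t - W t) with hf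
  set f' : ℝ → ℝ × ℝ × ℝ := fun t => (Real.cos (a t) - Real.cos (a' t),
    -Real.sin (a t) - (-Real.sin (a' t)),
    (x t * Real.sin (a t) + y t * Real.cos (a t) + S t)
      - (x' t * Real.sin (a' t) + y' t * Real.cos (a' t) + S' t) - (S t - S' t)) with hf'
  have hder : ∀ t ∈ Icc (0:ℝ) l, HasDerivWithinAt f (f' t) (Icc 0 l) t := by
    intro t ht
    exact ((h.x_s t ht).sub (h'.x_s t ht)).prodMk (((h.y_s t ht).sub (h'.y_s t ht)).prodMk
      (((h.a_s t ht).sub (h'.a_s t ht)).sub (hWd t ht)))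
  have hfc : ContinuousOn f (Icc 0 l) := fun t ht => (hder t ht).continuousWithinAt
  have hright : ∀ t ∈ Ico (0:ℝ) l, HasDerivWithinAt f (f' t) (Ici t) t := by
    intro t ht
    have h1 := hder t ⟨ht.1, ht.2.le⟩
    exact h1.mono_of_mem_nhdsWithin (Icc_mem_nhdsGE_of_mem ⟨ht.1, ht.2⟩)
  have hbound : ∀ t ∈ Ico (0:ℝ) l, ‖f' t‖ ≤ 6 * ‖f t‖ + 6 * Wt := by
    intro t ht
    have ht' : t ∈ Icc (0:ℝ) l := ⟨ht.1, ht.2.le⟩
    set N := ‖f t‖ with hN
    have n1 : |x t - x' t| ≤ N := by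
      have := norm_fst_le (f t)
      rwa [Real.norm_eq_abs] at this
    have n2 : |y t - y' t| ≤ N := by
      have := (norm_fst_le (f t).2).trans (norm_snd_le (f t))
      rwa [Real.norm_eq_abs] at this
    have n3 : |a t - a' t| ≤ N + Wt := by
      have := (norm_snd_le (f t).2).trans (norm_snd_le (f t))
      rw [Real.norm_eq_abs] at this
      have h4 : |a t - a' t| ≤ |a t - a' t - W t| + |W t| := by
        have := abs_add_le (a t - a' t - W t) (W t)
        simpa using this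
      have h5 := hWb t ht'
      have h6 : |a t - a' t - W t| ≤ N := this
      linarith
    have hN0 : 0 ≤ N := norm_nonneg _
    have hs1 : |Real.sin (a t) - Real.sin (a' t)| ≤ |a t - a' t| := by
      have := Real.lipschitzWith_sin.dist_le_mul (a t) (a' t)
      simpa [Real.dist_eq] using this
    have hc1 : |Real.cos (a t) - Real.cos (a' t)| ≤ |a t - a' t| := by
      have := Real.lipschitzWith_cos.dist_le_mul (a t) (a' t)
      simpa [Real.dist_eq] using this
    have c1 : |Real.cos (a t) - Real.cos (a' t)| ≤ 6 * N + 6 * Wt := by linarith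
    have c2 : |(-Real.sin (a t)) - (-Real.sin (a' t))| ≤ 6 * N + 6 * Wt := by
      have e : (-Real.sin (a t)) - (-Real.sin (a' t)) = -(Real.sin (a t) - Real.sin (a' t)) := by
        ring
      rw [e, abs_neg]; linarith
    have c3 : |(x t * Real.sin (a t) + y t * Real.cos (a t) + S t)
      - (x' t * Real.sin (a' t) + y' t * Real.cos (a' t) + S' t) - (S t - S' t)|
        ≤ 6 * N + 6 * Wt := by
      have e : (x t * Real.sin (a t) + y t * Real.cos (a t) + S t)
          - (x' t * Real.sin (a' t) + y' t * Real.cos (a' t) + S' t) - (S t - S' t)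
          = (x t - x' t) * Real.sin (a t) + x' t * (Real.sin (a t) - Real.sin (a' t))
            + ((y t - y' t) * Real.cos (a t) + y' t * (Real.cos (a t) - Real.cos (a' t))) := by
        ring
      rw [e]
      have t1 : |(x t - x' t) * Real.sin (a t)| ≤ N := by
        rw [abs_mul]
        calc _ ≤ N * 1 := mul_le_mul n1 (Real.abs_sin_le_one _) (abs_nonneg _) hN0
          _ = N := mul_one _
      have t2 : |x' t * (Real.sin (a t) - Real.sin (a' t))| ≤ 1.5 * (N + Wt) := by
        rw [abs_mul]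
        exact mul_le_mul (B' t ht').1 (hs1.trans n3) (abs_nonneg _) (by norm_num)
      have t3 : |(y t - y' t) * Real.cos (a t)| ≤ N := by
        rw [abs_mul]
        calc _ ≤ N * 1 := mul_le_mul n2 (Real.abs_cos_le_one _) (abs_nonneg _) hN0
          _ = N := mul_one _
      have t4 : |y' t * (Real.cos (a t) - Real.cos (a' t))| ≤ 2.5 * (N + Wt) := by
        rw [abs_mul]
        exact mul_le_mul (B' t ht').2 (hc1.trans n3) (abs_nonneg _) (by norm_num)
      have a1 := abs_add_le ((x t - x' t) * Real.sin (a t) + x' t * (Real.sin (a t) - Real.sin (a' t)))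
        ((y t - y' t) * Real.cos (a t) + y' t * (Real.cos (a t) - Real.cos (a' t)))
      have a2 := abs_add_le ((x t - x' t) * Real.sin (a t)) (x' t * (Real.sin (a t) - Real.sin (a' t)))
      have a3 := abs_add_le ((y t - y' t) * Real.cos (a t)) (y' t * (Real.cos (a t) - Real.cos (a' t)))
      linarith
    rw [hf']
    refine max_le ?_ (max_le ?_ ?_)
    · rw [Real.norm_eq_abs]; exact c1
    · rw [Real.norm_eq_abs]; exact c2
    · rw [Real.norm_eq_abs]; exact c3
  have hf0 : ‖f 0‖ ≤ |y 0 - y' 0| := by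
    have e1 : f 0 = (0, y 0 - y' 0, 0) := by
      simp [hf, h.x_0, h'.x_0, h.a_0, h'.a_0, hW]
    rw [e1]
    refine max_le ?_ (max_le ?_ ?_)
    · simp
    · rw [Real.norm_eq_abs]
    · simp
  have hg := norm_le_gronwallBound_of_norm_deriv_right_le hfc hright hf0 hbound s hs
  rw [gronwallBound_of_K_ne_0 (by norm_num : (6:ℝ) ≠ 0)] at hg
  have hexp : Real.exp (6 * (s - 0)) ≤ Real.exp 9 := by
    apply Real.exp_le_exp.mpr
    have := hs.2; have := hl.2; linarith
  have hδ : 0 ≤ |y 0 - y' 0| := abs_nonneg _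
  have hfs : ‖f s‖ ≤ Real.exp 9 * (|y 0 - y' 0| + Wt) := by
    have e : |y 0 - y' 0| * Real.exp (6 * (s - 0)) + 6 * Wt / 6 * (Real.exp (6 * (s - 0)) - 1)
        ≤ Real.exp 9 * (|y 0 - y' 0| + Wt) := by
      have h1 : |y 0 - y' 0| * Real.exp (6 * (s - 0)) ≤ |y 0 - y' 0| * Real.exp 9 :=
        mul_le_mul_of_nonneg_left hexp hδ
      have h2 : 6 * Wt / 6 * (Real.exp (6 * (s - 0)) - 1) ≤ Wt * Real.exp 9 := by
        have : 6 * Wt / 6 = Wt := by ring
        rw [this]
        apply mul_le_mul_of_nonneg_left _ hWt0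
        linarith
      linarith
    exact hg.trans e
  have hsum : 0 ≤ |y 0 - y' 0| + Wt := by linarith
  have hle : Real.exp 9 * (|y 0 - y' 0| + Wt) ≤ (Real.exp 9 + 1) * (|y 0 - y' 0| + Wt) := by
    nlinarith
  refine ⟨?_, ?_, ?_⟩
  · have := norm_fst_le (f s)
    rw [Real.norm_eq_abs] at this
    exact (this.trans hfs).trans hle
  · have := (norm_fst_le (f s).2).trans (norm_snd_le (f s))
    rw [Real.norm_eq_abs] at this
    exact (this.trans hfs).trans hle
  · have := (norm_snd_le (f s).2).trans (norm_snd_le (f s))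
    rw [Real.norm_eq_abs] at this
    have h4 : |a s - a' s| ≤ |a s - a' s - W s| + |W s| := by
      have := abs_add_le (a s - a' s - W s) (W s)
      simpa using this
    have h5 := hWb s hs
    have h6 : |a s - a' s - W s| ≤ ‖f s‖ := this
    have h7 : Wt ≤ |y 0 - y' 0| + Wt := by linarith
    linarith

end Pool.Agent.Helper15.NF
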