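import Pool.Agent.Helper15.NF.SDefs

open Set MeasureTheory intervalIntegral Filter Topology

namespace Pool.Agent.Helper15.NF

/-- projection to [-3,3] -/
private noncomputable def CL2_pr (u : ℝ) : ℝ := max (-3) (min u 3)

private lemma CL2_pr_abs (u : ℝ) : |CL2_pr u| ≤ 3 := by
  unfold CL2_pr
  rw [abs_le]
  exact ⟨le_max_left _ _, max_le (by norm_num) (min_le_right _ _)⟩

private lemma CL2_pr_eq {u : ℝ} (h : |u| ≤ 3) : CL2_pr u = u := by
  unfold CL2_pr
  rw [abs_le] at h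
  rw [min_eq_left h.2, max_eq_right h.1]

private lemma CL2_pr_lip (u v : ℝ) : |CL2_pr u - CL2_pr v| ≤ |u - v| := by
  unfold CL2_pr
  calc |max (-3) (min u 3) - max (-3) (min v 3)| ≤ max |(-3:ℝ) - (-3)| |min u 3 - min v 3| :=
        abs_max_sub_max_le_max _ _ _ _
    _ ≤ max |(-3:ℝ) - (-3)| (max |u - v| |(3:ℝ) - 3|) := by
        apply max_le_max le_rfl
        exact abs_min_sub_min_le_max _ _ _ _
    _ ≤ |u - v| := by simp

/-- the cut-off vector field -/
private noncomputable def CL2_V (z : ℝ × ℝ × ℝ) : ℝ × ℝ × ℝ :=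
  (Real.cos z.2.2, -Real.sin z.2.2,
    CL2_pr z.1 * Real.sin z.2.2 + CL2_pr z.2.1 * Real.cos z.2.2)

private lemma CL2_V_norm (z : ℝ × ℝ × ℝ) : ‖CL2_V z‖ ≤ 6 := by
  unfold CL2_V
  refine max_le ?_ (max_le ?_ ?_)
  · rw [Real.norm_eq_abs]; exact (Real.abs_cos_le_one _).trans (by norm_num)
  · rw [norm_neg, Real.norm_eq_abs]; exact (Real.abs_sin_le_one _).trans (by norm_num)
  · rw [Real.norm_eq_abs]
    have t1 : |CL2_pr z.1 * Real.sin z.2.2| ≤ 3 := by
      rw [abs_mul]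
      calc _ ≤ 3 * 1 := mul_le_mul (CL2_pr_abs _) (Real.abs_sin_le_one _) (abs_nonneg _) (by norm_num)
        _ = 3 := by norm_num
    have t2 : |CL2_pr z.2.1 * Real.cos z.2.2| ≤ 3 := by
      rw [abs_mul]
      calc _ ≤ 3 * 1 := mul_le_mul (CL2_pr_abs _) (Real.abs_cos_le_one _) (abs_nonneg _) (by norm_num)
        _ = 3 := by norm_num
    have := abs_add_le (CL2_pr z.1 * Real.sin z.2.2) (CL2_pr z.2.1 * Real.cos z.2.2)
    simp only at *
    linarith

private lemma CL2_V_lip : LipschitzWith 8 CL2_V := by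
  apply LipschitzWith.of_dist_le_mul
  intro z w
  have n1 : |z.1 - w.1| ≤ dist z w := by
    rw [← Real.dist_eq]; exact le_max_left _ _
  have n2 : |z.2.1 - w.2.1| ≤ dist z w := by
    rw [← Real.dist_eq]; exact (le_max_left _ _).trans (le_max_right _ _)
  have n3 : |z.2.2 - w.2.2| ≤ dist z w := by
    rw [← Real.dist_eq]; exact (le_max_right _ _).trans (le_max_right _ _)
  set N := dist z w with hN
  have hN0 : 0 ≤ N := dist_nonneg
  have hs1 : |Real.sin z.2.2 - Real.sin w.2.2| ≤ N := by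
    have := Real.lipschitzWith_sin.dist_le_mul z.2.2 w.2.2
    have h2 : |Real.sin z.2.2 - Real.sin w.2.2| ≤ |z.2.2 - w.2.2| := by
      simpa [Real.dist_eq] using this
    exact h2.trans n3
  have hc1 : |Real.cos z.2.2 - Real.cos w.2.2| ≤ N := by
    have := Real.lipschitzWith_cos.dist_le_mul z.2.2 w.2.2
    have h2 : |Real.cos z.2.2 - Real.cos w.2.2| ≤ |z.2.2 - w.2.2| := by
      simpa [Real.dist_eq] using this
    exact h2.trans n3
  have hx := (CL2_pr_lip z.1 w.1).trans n1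
  have hy := (CL2_pr_lip z.2.1 w.2.1).trans n2
  have e8 : ((8 : NNReal) : ℝ) = 8 := rfl
  rw [e8]
  unfold CL2_V
  refine max_le ?_ (max_le ?_ ?_)
  · rw [Real.dist_eq]; simp only; linarith
  · rw [Real.dist_eq]; simp only
    have e : (-Real.sin z.2.2) - (-Real.sin w.2.2) = -(Real.sin z.2.2 - Real.sin w.2.2) := by ring
    rw [e, abs_neg]; linarith
  · rw [Real.dist_eq]; simp only
    have e : CL2_pr z.1 * Real.sin z.2.2 + CL2_pr z.2.1 * Real.cos z.2.2
        - (CL2_pr w.1 * Real.sin w.2.2 + CL2_pr w.2.1 * Real.cos w.2.2)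
        = (CL2_pr z.1 - CL2_pr w.1) * Real.sin z.2.2
          + CL2_pr w.1 * (Real.sin z.2.2 - Real.sin w.2.2)
          + ((CL2_pr z.2.1 - CL2_pr w.2.1) * Real.cos z.2.2
          + CL2_pr w.2.1 * (Real.cos z.2.2 - Real.cos w.2.2)) := by ring
    rw [e]
    have t1 : |(CL2_pr z.1 - CL2_pr w.1) * Real.sin z.2.2| ≤ N * 1 := by
      rw [abs_mul]
      exact mul_le_mul hx (Real.abs_sin_le_one _) (abs_nonneg _) hN0
    have t2 : |CL2_pr w.1 * (Real.sin z.2.2 - Real.sin w.2.2)| ≤ 3 * N := by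
      rw [abs_mul]
      exact mul_le_mul (CL2_pr_abs _) hs1 (abs_nonneg _) (by norm_num)
    have t3 : |(CL2_pr z.2.1 - CL2_pr w.2.1) * Real.cos z.2.2| ≤ N * 1 := by
      rw [abs_mul]
      exact mul_le_mul hy (Real.abs_cos_le_one _) (abs_nonneg _) hN0
    have t4 : |CL2_pr w.2.1 * (Real.cos z.2.2 - Real.cos w.2.2)| ≤ 3 * N := by
      rw [abs_mul]
      exact mul_le_mul (CL2_pr_abs _) hc1 (abs_nonneg _) (by norm_num)
    have a1 := abs_add_le ((CL2_pr z.1 - CL2_pr w.1) * Real.sin z.2.2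
          + CL2_pr w.1 * (Real.sin z.2.2 - Real.sin w.2.2))
          ((CL2_pr z.2.1 - CL2_pr w.2.1) * Real.cos z.2.2
          + CL2_pr w.2.1 * (Real.cos z.2.2 - Real.cos w.2.2))
    have a2 := abs_add_le ((CL2_pr z.1 - CL2_pr w.1) * Real.sin z.2.2)
          (CL2_pr w.1 * (Real.sin z.2.2 - Real.sin w.2.2))
    have a3 := abs_add_le ((CL2_pr z.2.1 - CL2_pr w.2.1) * Real.cos z.2.2)
          (CL2_pr w.2.1 * (Real.cos z.2.2 - Real.cos w.2.2))
    linarith

/-- CL2 : existence of exact arcs -/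
theorem exists_arc (y0 : ℝ) (h : |y0| ≤ 1) :
    ∃ x y a : ℝ → ℝ, IsArc 1.5 x y a (fun _ => 0) ∧ y 0 = y0 := by
  have h15 : (0:ℝ) ∈ Icc (0:ℝ) 1.5 := ⟨le_rfl, by norm_num⟩
  have hPL : IsPicardLindelof (fun _ => CL2_V) (⟨0, h15⟩ : Icc (0:ℝ) 1.5)
      ((0, y0, 0) : ℝ × ℝ × ℝ) 9 0 6 8 := by
    apply IsPicardLindelof.of_time_independent
    · intro z _
      exact CL2_V_norm z
    · exact CL2_V_lip.lipschitzOnWith
    · have e6 : ((6 : NNReal) : ℝ) = 6 := rfl
      have e9 : ((9 : NNReal) : ℝ) = 9 := rfl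
      have e0 : ((0 : NNReal) : ℝ) = 0 := rfl
      rw [e6, e9, e0]
      simp only [sub_zero]
      rw [max_eq_left (by norm_num)]
      norm_num
  obtain ⟨α, hα0, hα⟩ := hPL.exists_eq_forall_mem_Icc_hasDerivWithinAt₀
  have hx : ∀ s ∈ Icc (0:ℝ) 1.5, HasDerivWithinAt (fun s => (α s).1) (Real.cos (α s).2.2)
      (Icc 0 1.5) s := fun s hs => by
    have h1 := (hα s hs).hasFDerivWithinAt.fst.hasDerivWithinAt
    simpa [CL2_V] using h1
  have hy : ∀ s ∈ Icc (0:ℝ) 1.5, HasDerivWithinAt (fun s => (α s).2.1) (-Real.sin (α s).2.2)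
      (Icc 0 1.5) s := fun s hs => by
    have h1 := (hα s hs).hasFDerivWithinAt.snd.fst.hasDerivWithinAt
    simpa [CL2_V] using h1
  have ha : ∀ s ∈ Icc (0:ℝ) 1.5, HasDerivWithinAt (fun s => (α s).2.2)
      (CL2_pr (α s).1 * Real.sin (α s).2.2 + CL2_pr (α s).2.1 * Real.cos (α s).2.2)
      (Icc 0 1.5) s := fun s hs => by
    have h1 := (hα s hs).hasFDerivWithinAt.snd.snd.hasDerivWithinAt
    simpa [CL2_V] using h1
  have i0 : α 0 = (0, y0, 0) := hα0
  have bx : ∀ s ∈ Icc (0:ℝ) 1.5, |(α s).1| ≤ 3 := by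
    intro s hs
    have hb : ‖(α s).1 - (α 0).1‖ ≤ 1 * ‖s - 0‖ := by
      apply Convex.norm_image_sub_le_of_norm_hasDerivWithin_le
        (f := fun s => (α s).1) (s := Icc (0:ℝ) 1.5) (fun u hu => hx u hu) _
        (convex_Icc 0 1.5) h15 hs
      intro u _
      rw [Real.norm_eq_abs]; exact Real.abs_cos_le_one _
    rw [i0, Real.norm_eq_abs, Real.norm_eq_abs, sub_zero, sub_zero, abs_of_nonneg hs.1] at hb
    have := hs.2
    norm_num at this hb ⊢
    linarith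
  have by' : ∀ s ∈ Icc (0:ℝ) 1.5, |(α s).2.1| ≤ 3 := by
    intro s hs
    have hb : ‖(α s).2.1 - (α 0).2.1‖ ≤ 1 * ‖s - 0‖ := by
      apply Convex.norm_image_sub_le_of_norm_hasDerivWithin_le
        (f := fun s => (α s).2.1) (s := Icc (0:ℝ) 1.5) (fun u hu => hy u hu) _
        (convex_Icc 0 1.5) h15 hs
      intro u _
      rw [norm_neg, Real.norm_eq_abs]; exact Real.abs_sin_le_one _
    rw [i0, Real.norm_eq_abs, Real.norm_eq_abs, sub_zero, abs_of_nonneg hs.1] at hb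
    have h2 := abs_sub_abs_le_abs_sub (α s).2.1 y0
    have := hs.2
    norm_num at this hb h2 ⊢
    linarith
  refine ⟨fun s => (α s).1, fun s => (α s).2.1, fun s => (α s).2.2, ⟨hx, hy, ?_, ?_, ?_⟩, ?_⟩
  · intro s hs
    have h1 := ha s hs
    rw [CL2_pr_eq (bx s hs), CL2_pr_eq (by' s hs)] at h1
    simpa using h1
  · simp [i0]
  · simp [i0]
  · simp [i0]

end Pool.Agent.Helper15.NF
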