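import Pool.Agent.Helper15.NF.CL1

open Set MeasureTheory intervalIntegral Filter Topology

namespace Pool.Agent.Helper15.NF

private lemma cl3_mono {f f' : ℝ → ℝ} {a b : ℝ} (hab : a ≤ b) (hc : ContinuousOn f (Icc a b))
    (hd : ∀ x ∈ Ioo a b, HasDerivAt f (f' x) x) (hn : ∀ x ∈ Ioo a b, 0 ≤ f' x) : f a ≤ f b := by
  have hm : MonotoneOn f (Icc a b) := by
    apply monotoneOn_of_deriv_nonneg (convex_Icc a b) hc
    · intro x hx
      rw [interior_Icc] at hx
      exact (hd x hx).differentiableAt.differentiableWithinAt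
    · intro x hx
      rw [interior_Icc] at hx
      rw [(hd x hx).deriv]
      exact hn x hx
  exact hm (left_mem_Icc.2 hab) (right_mem_Icc.2 hab) hab

private lemma cl3_anti {f f' : ℝ → ℝ} {a b : ℝ} (hab : a ≤ b) (hc : ContinuousOn f (Icc a b))
    (hd : ∀ x ∈ Ioo a b, HasDerivAt f (f' x) x) (hn : ∀ x ∈ Ioo a b, f' x ≤ 0) : f b ≤ f a := by
  have := cl3_mono (f := fun x => - f x) (f' := fun x => - f' x) hab hc.neg
    (fun x hx => (hd x hx).neg) (fun x hx => by have := hn x hx; linarith)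
  linarith

/-- Sturm type nonexistence -/
private lemma cl3_sturm {D V q : ℝ → ℝ} {L : ℝ} (hL0 : 0 < L) (hL : L ≤ 1.0475)
    (hDc : ContinuousOn D (Icc 0 L)) (hVc : ContinuousOn V (Icc 0 L))
    (hD : ∀ x ∈ Ioo 0 L, HasDerivAt D (V x) x)
    (hV : ∀ x ∈ Ioo 0 L, HasDerivAt V (-(q x * D x)) x)
    (hq0 : ∀ x ∈ Icc 0 L, 0 ≤ q x) (hq1 : ∀ x ∈ Icc 0 L, q x ≤ 4.6)
    (hd : 0 < D 0) (hV0 : V 0 = 0) (hend : V L = D L / √3) : False := by
  have h3 : (1.7:ℝ) < √3 := by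
    apply Real.lt_sqrt_of_sq_lt; norm_num
  have h3' : √3 < (1.74:ℝ) := by
    rw [Real.sqrt_lt' (by norm_num)]; norm_num
  -- estimates while D is nonnegative
  have key1 : ∀ b ∈ Icc 0 L, (∀ x ∈ Ioo 0 b, 0 ≤ D x) →
      V b ≤ 0 ∧ D 0 * (1 - 4.6 * b ^ 2 / 2) ≤ D b := by
    intro b hb hpos
    have sub : ∀ c ∈ Icc 0 b, Icc 0 c ⊆ Icc 0 L := fun c hc =>
      Icc_subset_Icc_right (hc.2.trans hb.2)
    have subo : ∀ c ∈ Icc 0 b, Ioo 0 c ⊆ Ioo 0 L := fun c hc =>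
      Ioo_subset_Ioo_right (hc.2.trans hb.2)
    have hVneg : ∀ c ∈ Icc 0 b, V c ≤ 0 := by
      intro c hc
      have := cl3_anti (f := V) (f' := fun x => -(q x * D x)) hc.1 (hVc.mono (sub c hc))
        (fun x hx => hV x (subo c hc hx)) (fun x hx => by
          have h1 := hpos x ⟨hx.1, lt_of_lt_of_le hx.2 hc.2⟩
          have h2 := hq0 x (sub c hc (Ioo_subset_Icc_self hx))
          have := mul_nonneg h2 h1
          linarith)
      rw [hV0] at this; exact this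
    have hDle : ∀ c ∈ Icc 0 b, D c ≤ D 0 := by
      intro c hc
      exact cl3_anti (f := D) (f' := V) hc.1 (hDc.mono (sub c hc))
        (fun x hx => hD x (subo c hc hx)) (fun x hx => hVneg x ⟨hx.1.le, hx.2.le.trans hc.2⟩)
    have hVlo : ∀ c ∈ Icc 0 b, -(4.6 * D 0 * c) ≤ V c := by
      intro c hc
      have := cl3_mono (f := fun x => V x + 4.6 * D 0 * x)
        (f' := fun x => -(q x * D x) + 4.6 * D 0 * 1) hc.1
        ((hVc.mono (sub c hc)).add (by fun_prop))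
        (fun x hx => (hV x (subo c hc hx)).add ((hasDerivAt_id x).const_mul _)) (fun x hx => by
          have hx' : x ∈ Icc 0 b := ⟨hx.1.le, hx.2.le.trans hc.2⟩
          have h1 := hpos x ⟨hx.1, lt_of_lt_of_le hx.2 hc.2⟩
          have h2 := hq1 x (sub c hc (Ioo_subset_Icc_self hx))
          have h4 := hDle x hx'
          have : q x * D x ≤ 4.6 * D 0 := mul_le_mul h2 h4 h1 (by norm_num)
          linarith)
      simp only [mul_zero, add_zero, hV0] at this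
      linarith
    refine ⟨hVneg b ⟨hb.1, le_rfl⟩, ?_⟩
    have := cl3_mono (f := fun x => D x + 4.6 * D 0 * x ^ 2 / 2)
        (f' := fun x => V x + 4.6 * D 0 * (2 * x) / 2) hb.1
        ((hDc.mono (sub b ⟨hb.1, le_rfl⟩)).add (by fun_prop))
        (fun x hx => (hD x (subo b ⟨hb.1, le_rfl⟩ hx)).add (by
          have := ((hasDerivAt_pow 2 x).const_mul (4.6 * D 0)).div_const 2
          simpa using this)) (fun x hx => by
          have := hVlo x ⟨hx.1.le, hx.2.le⟩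
          linarith)
    nlinarith [this]
  by_cases hall : ∀ x ∈ Icc 0 L, 0 < D x
  · have h1 := key1 L ⟨hL0.le, le_rfl⟩ (fun x hx => (hall x (Ioo_subset_Icc_self hx)).le)
    have h2 := hall L ⟨hL0.le, le_rfl⟩
    rw [hend] at h1
    have : 0 < D L / √3 := by positivity
    linarith [h1.1]
  · push Not at hall
    -- first zero
    set Z : Set ℝ := {x | x ∈ Icc 0 L ∧ D x ≤ 0} with hZ
    have hZne : Z.Nonempty := by
      obtain ⟨x, hx, hx2⟩ := hall
      exact ⟨x, hx, hx2⟩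
    have hZcl : IsClosed Z := by
      have : Z = Icc 0 L ∩ D ⁻¹' (Iic 0) := by ext x; simp [hZ]
      rw [this]
      exact hDc.preimage_isClosed_of_isClosed isClosed_Icc isClosed_Iic
    have hZcp : IsCompact Z := by
      refine IsCompact.of_isClosed_subset isCompact_Icc hZcl (fun x hx => hx.1)
    obtain ⟨z, hzZ, hzmin⟩ := hZcp.exists_isLeast hZne
    have hz0 : 0 ≤ z := hzZ.1.1
    have hzpos : 0 < z := by
      rcases hz0.lt_or_eq with h | h
      · exact h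
      · rw [← h] at hzZ; exact absurd hzZ.2 (not_le.2 hd)
    have hbefore : ∀ x ∈ Ico 0 z, 0 < D x := by
      intro x hx
      by_contra hc
      push Not at hc
      have : z ≤ x := hzmin ⟨⟨hx.1, hx.2.le.trans hzZ.1.2⟩, hc⟩
      linarith [hx.2]
    have hk := key1 z hzZ.1 (fun x hx => (hbefore x ⟨hx.1.le, hx.2⟩).le)
    have hz2 : 1 ≤ 4.6 * z ^ 2 / 2 := by
      by_contra hc
      push Not at hc
      have : 0 < D 0 * (1 - 4.6 * z ^ 2 / 2) := mul_pos hd (by linarith)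
      linarith [hk.2, hzZ.2]
    have hz3 : (0.659:ℝ) ≤ z := by
      by_contra hc
      push Not at hc
      nlinarith
    -- D z = 0
    have hDz : D z = 0 := by
      apply le_antisymm hzZ.2
      have hcw : ContinuousWithinAt D (Ico 0 z) z :=
        (hDc z hzZ.1).mono (fun x hx => ⟨hx.1, hx.2.le.trans hzZ.1.2⟩)
      have hmem : z ∈ closure (Ico 0 z) := by
        rw [closure_Ico hzpos.ne]; exact ⟨hz0, le_rfl⟩
      have : D z ∈ closure (D '' (Ico 0 z)) := hcw.mem_closure_image hmem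
      have h2 : D '' (Ico 0 z) ⊆ Ici 0 := by
        rintro _ ⟨x, hx, rfl⟩; exact (hbefore x hx).le
      exact (closure_minimal h2 isClosed_Ici) this
    -- V z < 0
    have hVz : V z < 0 := by
      rcases hk.1.lt_or_eq with h | h
      · exact h
      · exfalso
        -- V is antitone on [0,z], hence zero, hence D constant
        have hVz0 : ∀ c ∈ Icc 0 z, 0 ≤ V c := by
          intro c hc
          have := cl3_anti (f := V) (f' := fun x => -(q x * D x)) hc.2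
            (hVc.mono (Icc_subset_Icc hc.1 hzZ.1.2))
            (fun x hx => hV x ⟨lt_of_le_of_lt hc.1 hx.1, lt_of_lt_of_le hx.2 hzZ.1.2⟩)
            (fun x hx => by
              have h1 := hbefore x ⟨hc.1.trans hx.1.le, hx.2⟩
              have h2 := hq0 x ⟨hc.1.trans hx.1.le, hx.2.le.trans hzZ.1.2⟩
              have := mul_nonneg h2 h1.le
              linarith)
          linarith
        have := cl3_mono (f := D) (f' := V) hz0 (hDc.mono (Icc_subset_Icc_right hzZ.1.2))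
          (fun x hx => hD x ⟨hx.1, lt_of_lt_of_le hx.2 hzZ.1.2⟩)
          (fun x hx => hVz0 x ⟨hx.1.le, hx.2.le⟩)
        linarith
    -- estimates after z while V is nonpositive
    have key2 : ∀ b ∈ Icc z L, (∀ x ∈ Ioo z b, V x ≤ 0) →
        V b ≤ V z * (1 - 4.6 * (b - z) ^ 2 / 2) ∧ V z * (b - z) ≤ D b := by
      intro b hb hneg
      have sub : ∀ c ∈ Icc z b, Icc z c ⊆ Icc 0 L := fun c hc =>
        Icc_subset_Icc hz0 (hc.2.trans hb.2)
      have subo : ∀ c ∈ Icc z b, Ioo z c ⊆ Ioo 0 L := fun c hc =>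
        Ioo_subset_Ioo hz0 (hc.2.trans hb.2)
      have hDneg : ∀ c ∈ Icc z b, D c ≤ 0 := by
        intro c hc
        have := cl3_anti (f := D) (f' := V) hc.1 (hDc.mono (sub c hc))
          (fun x hx => hD x (subo c hc hx)) (fun x hx => hneg x ⟨hx.1, lt_of_lt_of_le hx.2 hc.2⟩)
        linarith
      have hVge : ∀ c ∈ Icc z b, V z ≤ V c := by
        intro c hc
        exact cl3_mono (f := V) (f' := fun x => -(q x * D x)) hc.1 (hVc.mono (sub c hc))
          (fun x hx => hV x (subo c hc hx)) (fun x hx => by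
            have h1 := hDneg x ⟨hx.1.le, hx.2.le.trans hc.2⟩
            have h2 := hq0 x (sub c hc (Ioo_subset_Icc_self hx))
            have := mul_nonneg h2 (neg_nonneg.2 h1)
            linarith)
      have hDge : ∀ c ∈ Icc z b, V z * (c - z) ≤ D c := by
        intro c hc
        have := cl3_mono (f := fun x => D x - V z * (x - z))
          (f' := fun x => V x - V z * (1 - 0)) hc.1
          ((hDc.mono (sub c hc)).sub (by fun_prop))
          (fun x hx => (hD x (subo c hc hx)).sub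
            (((hasDerivAt_id x).sub (hasDerivAt_const x z)).const_mul _)) (fun x hx => by
            have := hVge x ⟨hx.1.le, hx.2.le.trans hc.2⟩
            linarith)
        simp only [sub_self, mul_zero, sub_zero] at this
        rw [hDz] at this
        linarith
      refine ⟨?_, hDge b ⟨hb.1, le_rfl⟩⟩
      have := cl3_anti (f := fun x => V x + 4.6 * V z * (x - z) ^ 2 / 2)
          (f' := fun x => -(q x * D x) + 4.6 * V z * (2 * (x - z)) / 2) hb.1
          ((hVc.mono (sub b ⟨hb.1, le_rfl⟩)).add (by fun_prop))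
          (fun x hx => (hV x (subo b ⟨hb.1, le_rfl⟩ hx)).add (by
            have h1 := ((hasDerivAt_id x).sub (hasDerivAt_const x z)).pow 2
            have := (h1.const_mul (4.6 * V z)).div_const 2
            simpa using this)) (fun x hx => by
            have h1 := hDge x ⟨hx.1.le, hx.2.le⟩
            have h2 := hDneg x ⟨hx.1.le, hx.2.le⟩
            have h3 := hq1 x (sub b ⟨hb.1, le_rfl⟩ (Ioo_subset_Icc_self hx))
            have h4 : q x * (- D x) ≤ 4.6 * (-(V z * (x - z))) :=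
              mul_le_mul h3 (by linarith) (by linarith) (by norm_num)
            linarith)
      simp only [sub_self, ne_eq, OfNat.ofNat_ne_zero, not_false_eq_true, zero_pow, mul_zero,
        zero_div, add_zero] at this
      nlinarith [this]
    have hLz : L - z ≤ 0.3885 := by linarith
    have hLz0 : 0 ≤ L - z := by linarith [hzZ.1.2]
    -- V < 0 on [z, L]
    have hVneg : ∀ x ∈ Icc z L, V x < 0 := by
      by_contra hc
      push Not at hc
      obtain ⟨w, hw, hw2⟩ := hc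
      set Y : Set ℝ := {x | x ∈ Icc z L ∧ 0 ≤ V x} with hY
      have hVc' : ContinuousOn V (Icc z L) := hVc.mono (Icc_subset_Icc_left hz0)
      have hYcl : IsClosed Y := by
        have : Y = Icc z L ∩ V ⁻¹' (Ici 0) := by ext x; simp [hY]
        rw [this]
        exact hVc'.preimage_isClosed_of_isClosed isClosed_Icc isClosed_Ici
      have hYcp : IsCompact Y :=
        IsCompact.of_isClosed_subset isCompact_Icc hYcl (fun x hx => hx.1)
      obtain ⟨v, hvY, hvmin⟩ := hYcp.exists_isLeast ⟨w, hw, hw2⟩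
      have hk2 := key2 v hvY.1 (fun x hx => by
        by_contra hc
        push Not at hc
        have : v ≤ x := hvmin ⟨⟨hx.1.le, hx.2.le.trans hvY.1.2⟩, hc.le⟩
        linarith [hx.2])
      have hvz0 : 0 ≤ v - z := by linarith [hvY.1.1]
      have hvz : v - z ≤ 0.3885 := by linarith [hvY.1.2]
      have : (v - z) ^ 2 ≤ 0.3885 ^ 2 := by
        apply pow_le_pow_left₀ hvz0 hvz
      have h5 : 0 < 1 - 4.6 * (v - z) ^ 2 / 2 := by nlinarith
      have := mul_neg_of_neg_of_pos hVz h5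
      linarith [hk2.1, hvY.2]
    have hk3 := key2 L ⟨hzZ.1.2, le_rfl⟩ (fun x hx => (hVneg x (Ioo_subset_Icc_self hx)).le)
    rw [hend] at hk3
    have hsq : (L - z) ^ 2 ≤ 0.3885 ^ 2 := pow_le_pow_left₀ hLz0 hLz 2
    -- D L ≥ V z * 0.3885
    have h6 : V z * 0.3885 ≤ D L := by
      have : V z * 0.3885 ≤ V z * (L - z) := mul_le_mul_of_nonpos_left hLz hVz.le
      linarith [hk3.2]
    have h7 : D L / √3 ≤ V z * 0.65 := by
      have : V z * (1 - 4.6 * (L - z) ^ 2 / 2) ≤ V z * 0.65 :=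
        mul_le_mul_of_nonpos_left (by nlinarith) hVz.le
      linarith [hk3.1]
    have h8 : D L ≤ V z * 0.65 * √3 := by
      rw [div_le_iff₀ (by positivity)] at h7
      exact h7
    nlinarith

/-! ### elementary facts on exact arcs -/

section arcs
variable {x y a : ℝ → ℝ}

private noncomputable def cl3h (x y a : ℝ → ℝ) (s : ℝ) : ℝ := x s * Real.sin (a s) + y s * Real.cos (a s)
private noncomputable def cl3p (x y a : ℝ → ℝ) (s : ℝ) : ℝ := x s * Real.cos (a s) - y s * Real.sin (a s)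

private lemma cl3_xc (H : IsArc 1.5 x y a (fun _ => 0)) : ContinuousOn x (Icc 0 1.5) :=
  fun s hs => (H.x_s s hs).continuousWithinAt
private lemma cl3_yc (H : IsArc 1.5 x y a (fun _ => 0)) : ContinuousOn y (Icc 0 1.5) :=
  fun s hs => (H.y_s s hs).continuousWithinAt
private lemma cl3_ac (H : IsArc 1.5 x y a (fun _ => 0)) : ContinuousOn a (Icc 0 1.5) :=
  fun s hs => (H.a_s s hs).continuousWithinAt
private lemma cl3_hc (H : IsArc 1.5 x y a (fun _ => 0)) : ContinuousOn (cl3h x y a) (Icc 0 1.5) := by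
  unfold cl3h
  exact ((cl3_xc H).mul (Real.continuous_sin.comp_continuousOn (cl3_ac H))).add
    ((cl3_yc H).mul (Real.continuous_cos.comp_continuousOn (cl3_ac H)))
private lemma cl3_pc (H : IsArc 1.5 x y a (fun _ => 0)) : ContinuousOn (cl3p x y a) (Icc 0 1.5) := by
  unfold cl3p
  exact ((cl3_xc H).mul (Real.continuous_cos.comp_continuousOn (cl3_ac H))).sub
    ((cl3_yc H).mul (Real.continuous_sin.comp_continuousOn (cl3_ac H)))

private lemma cl3_xd (H : IsArc 1.5 x y a (fun _ => 0)) {s : ℝ} (hs : s ∈ Ioo (0:ℝ) 1.5) :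
    HasDerivAt x (Real.cos (a s)) s :=
  (H.x_s s (Ioo_subset_Icc_self hs)).hasDerivAt (Icc_mem_nhds hs.1 hs.2)
private lemma cl3_yd (H : IsArc 1.5 x y a (fun _ => 0)) {s : ℝ} (hs : s ∈ Ioo (0:ℝ) 1.5) :
    HasDerivAt y (-Real.sin (a s)) s :=
  (H.y_s s (Ioo_subset_Icc_self hs)).hasDerivAt (Icc_mem_nhds hs.1 hs.2)
private lemma cl3_ad (H : IsArc 1.5 x y a (fun _ => 0)) {s : ℝ} (hs : s ∈ Ioo (0:ℝ) 1.5) :
    HasDerivAt a (cl3h x y a s) s := by
  have := (H.a_s s (Ioo_subset_Icc_self hs)).hasDerivAt (Icc_mem_nhds hs.1 hs.2)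
  simpa [cl3h] using this

private lemma cl3_hd (H : IsArc 1.5 x y a (fun _ => 0)) {s : ℝ} (hs : s ∈ Ioo (0:ℝ) 1.5) :
    HasDerivAt (cl3h x y a) (cl3h x y a s * cl3p x y a s) s := by
  have h1 := ((cl3_xd H hs).mul (cl3_ad H hs).sin).add ((cl3_yd H hs).mul (cl3_ad H hs).cos)
  refine h1.congr_deriv ?_
  unfold cl3h cl3p
  ring

private lemma cl3_pd (H : IsArc 1.5 x y a (fun _ => 0)) {s : ℝ} (hs : s ∈ Ioo (0:ℝ) 1.5) :
    HasDerivAt (cl3p x y a) (1 - cl3h x y a s ^ 2) s := by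
  have h1 := ((cl3_xd H hs).mul (cl3_ad H hs).cos).sub ((cl3_yd H hs).mul (cl3_ad H hs).sin)
  refine h1.congr_deriv ?_
  have := Real.sin_sq_add_cos_sq (a s)
  unfold cl3h
  linear_combination this

/-- first integral -/
private lemma cl3_first (H : IsArc 1.5 x y a (fun _ => 0)) {s : ℝ} (hs : s ∈ Icc (0:ℝ) 1.5) :
    cl3h x y a s * Real.exp (-((x s ^ 2 + y s ^ 2) / 2)) = y 0 * Real.exp (-(y 0 ^ 2 / 2)) := by
  have hc : ContinuousOn (fun s => cl3h x y a s * Real.exp (-((x s ^ 2 + y s ^ 2) / 2)))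
      (Icc 0 s) := by
    have hsub : Icc 0 s ⊆ Icc (0:ℝ) 1.5 := Icc_subset_Icc_right hs.2
    exact ((cl3_hc H).mono hsub).mul (Real.continuous_exp.comp_continuousOn
      (((((cl3_xc H).mono hsub).pow 2).add (((cl3_yc H).mono hsub).pow 2)).div_const 2).neg)
  have hd : ∀ u ∈ Ioo 0 s, HasDerivAt
      (fun s => cl3h x y a s * Real.exp (-((x s ^ 2 + y s ^ 2) / 2))) 0 u := by
    intro u hu
    have hu' : u ∈ Ioo (0:ℝ) 1.5 := ⟨hu.1, lt_of_lt_of_le hu.2 hs.2⟩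
    have h1 := (cl3_hd H hu').mul
      ((((((cl3_xd H hu').pow 2).add ((cl3_yd H hu').pow 2)).div_const 2).neg).exp)
    refine h1.congr_deriv ?_
    simp only [Pi.add_apply, Pi.pow_apply]
    unfold cl3h cl3p
    push_cast
    ring
  have e1 := cl3_mono (f' := fun _ => 0) hs.1 hc hd (fun _ _ => le_rfl)
  have e2 := cl3_anti (f' := fun _ => 0) hs.1 hc hd (fun _ _ => le_rfl)
  have e3 := le_antisymm e2 e1
  rw [e3]
  simp [cl3h, H.x_0, H.a_0]

private lemma cl3_hpos (H : IsArc 1.5 x y a (fun _ => 0)) (hy : y 0 ∈ Icc (0.55:ℝ) 0.67)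
    {s : ℝ} (hs : s ∈ Icc (0:ℝ) 1.5) : (0.466:ℝ) ≤ cl3h x y a s := by
  have h1 := cl3_first H hs
  have h2 : Real.exp (-((x s ^ 2 + y s ^ 2) / 2)) ≤ 1 := by
    apply Real.exp_le_one_iff.2
    have := sq_nonneg (x s); have := sq_nonneg (y s); linarith
  have h3 : (0.466:ℝ) ≤ y 0 * Real.exp (-(y 0 ^ 2 / 2)) := by
    have h4 : 1 - y 0 ^ 2 / 2 ≤ Real.exp (-(y 0 ^ 2 / 2)) := by
      have := Real.add_one_le_exp (-(y 0 ^ 2 / 2)); linarith
    obtain ⟨h5, h6⟩ := hy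
    have h7 : y 0 * (1 - y 0 ^ 2 / 2) ≤ y 0 * Real.exp (-(y 0 ^ 2 / 2)) :=
      mul_le_mul_of_nonneg_left h4 (by linarith)
    have h8 : (0.466:ℝ) ≤ y 0 * (1 - y 0 ^ 2 / 2) := by
      nlinarith [mul_nonneg (sub_nonneg.2 h5) (sub_nonneg.2 h6), mul_nonneg (mul_nonneg (sub_nonneg.2 h5) (sub_nonneg.2 h6)) (by linarith : (0:ℝ) ≤ y 0)]
    linarith
  have h9 : 0 < cl3h x y a s := by
    by_contra hc
    push Not at hc
    have : cl3h x y a s * Real.exp (-((x s ^ 2 + y s ^ 2) / 2)) ≤ 0 :=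
      mul_nonpos_of_nonpos_of_nonneg hc (Real.exp_pos _).le
    linarith
  have : cl3h x y a s * Real.exp (-((x s ^ 2 + y s ^ 2) / 2)) ≤ cl3h x y a s * 1 :=
    mul_le_mul_of_nonneg_left h2 h9.le
  linarith

/-- the angle is strictly increasing -/
private lemma cl3_amono (H : IsArc 1.5 x y a (fun _ => 0)) (hy : y 0 ∈ Icc (0.55:ℝ) 0.67)
    {s t : ℝ} (hs : 0 ≤ s) (hst : s ≤ t) (ht : t ≤ 1.5) : 0.466 * (t - s) ≤ a t - a s := by
  have := cl3_mono (f := fun u => a u - 0.466 * u) (f' := fun u => cl3h x y a u - 0.466 * 1) hst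
    (((cl3_ac H).mono (Icc_subset_Icc hs ht)).sub (by fun_prop))
    (fun u hu => (cl3_ad H ⟨lt_of_le_of_lt hs hu.1, lt_of_lt_of_le hu.2 ht⟩).sub
      ((hasDerivAt_id u).const_mul _))
    (fun u hu => by
      have := cl3_hpos H hy (s := u) ⟨hs.trans hu.1.le, hu.2.le.trans ht⟩
      linarith)
  linarith

private lemma cl3_anonneg (H : IsArc 1.5 x y a (fun _ => 0)) (hy : y 0 ∈ Icc (0.55:ℝ) 0.67)
    {s : ℝ} (hs : 0 ≤ s) (hs2 : s ≤ 1.5) : 0 ≤ a s := by
  have := cl3_amono H hy le_rfl hs hs2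
  rw [H.a_0] at this
  linarith

private lemma cl3_ple (H : IsArc 1.5 x y a (fun _ => 0)) {s : ℝ} (hs : 0 ≤ s) (hs2 : s ≤ 1.5) :
    cl3p x y a s ≤ s := by
  have := cl3_anti (f := fun u => cl3p x y a u - u) (f' := fun u => (1 - cl3h x y a u ^ 2) - 1) hs
    (((cl3_pc H).mono (Icc_subset_Icc_right hs2)).sub continuousOn_id)
    (fun u hu => (cl3_pd H ⟨hu.1, lt_of_lt_of_le hu.2 hs2⟩).sub (hasDerivAt_id u))
    (fun u hu => by
      have := sq_nonneg (cl3h x y a u)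
      linarith)
  simp only [cl3p, H.x_0, H.a_0] at this
  simp at this
  unfold cl3p
  linarith

/-- comparison polynomial -/
private noncomputable def cl3P (s : ℝ) : ℝ :=
  1 + s ^ 2 / 2 + s ^ 4 / 8 + s ^ 6 / 48 + 0.057 * s ^ 8 / 16

private lemma cl3_hle (H : IsArc 1.5 x y a (fun _ => 0)) (hy : y 0 ∈ Icc (0.55:ℝ) 0.67)
    {s : ℝ} (hs : 0 ≤ s) (hs2 : s ≤ 1.46) : cl3h x y a s ≤ 0.67 * cl3P s := by
  have hPpos : ∀ u : ℝ, 0 < cl3P u := by
    intro u; unfold cl3P; positivity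
  have hPd : ∀ u : ℝ, HasDerivAt cl3P (u + u ^ 3 / 2 + u ^ 5 / 8 + 0.057 * u ^ 7 / 2) u := by
    intro u
    have := ((((hasDerivAt_const u (1:ℝ)).add ((hasDerivAt_pow 2 u).div_const 2)).add
      ((hasDerivAt_pow 4 u).div_const 8)).add ((hasDerivAt_pow 6 u).div_const 48)).add
      (((hasDerivAt_pow 8 u).const_mul (0.057:ℝ)).div_const 16)
    refine this.congr_deriv ?_
    push_cast
    ring
  have := cl3_anti (f := fun u => cl3h x y a u / cl3P u)
    (f' := fun u => (cl3h x y a u * cl3p x y a u * cl3P u -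
      cl3h x y a u * (u + u ^ 3 / 2 + u ^ 5 / 8 + 0.057 * u ^ 7 / 2)) / cl3P u ^ 2) hs
    (((cl3_hc H).mono (Icc_subset_Icc_right (by linarith))).div
      (fun u _ => (hPd u).continuousAt.continuousWithinAt) (fun u _ => (hPpos u).ne'))
    (fun u hu => (cl3_hd H ⟨hu.1, by linarith [hu.2]⟩).div (hPd u) (hPpos u).ne')
    (fun u hu => by
      have h1 := cl3_ple H hu.1.le (by linarith [hu.2])
      have h2 := cl3_hpos H hy (s := u) ⟨hu.1.le, by linarith [hu.2]⟩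
      have h3 : cl3p x y a u * cl3P u ≤ u * cl3P u := mul_le_mul_of_nonneg_right h1 (hPpos u).le
      have h4 : u * cl3P u ≤ u + u ^ 3 / 2 + u ^ 5 / 8 + 0.057 * u ^ 7 / 2 := by
        have hu7 : 0 ≤ u ^ 7 := by have := hu.1.le; positivity
        have hu2 : u ^ 2 ≤ 1.46 ^ 2 := pow_le_pow_left₀ hu.1.le (by linarith [hu.2]) 2
        have h5 : u ^ 7 * u ^ 2 ≤ u ^ 7 * 1.46 ^ 2 := mul_le_mul_of_nonneg_left hu2 hu7
        unfold cl3P
        nlinarith [h5, hu7]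
      have h6 : cl3h x y a u * (cl3p x y a u * cl3P u) ≤
          cl3h x y a u * (u + u ^ 3 / 2 + u ^ 5 / 8 + 0.057 * u ^ 7 / 2) :=
        mul_le_mul_of_nonneg_left (h3.trans h4) (by linarith)
      apply div_nonpos_of_nonpos_of_nonneg
      · nlinarith [h6]
      · positivity)
  have e0 : cl3h x y a 0 = y 0 := by simp [cl3h, H.x_0, H.a_0]
  have e1 : cl3P 0 = 1 := by simp [cl3P]
  simp only [e0, e1, div_one] at this
  rw [div_le_iff₀ (hPpos s)] at this
  have h7 : y 0 * cl3P s ≤ 0.67 * cl3P s := mul_le_mul_of_nonneg_right hy.2 (hPpos s).le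
  linarith

private lemma cl3_alt (H : IsArc 1.5 x y a (fun _ => 0)) (hy : y 0 ∈ Icc (0.55:ℝ) 0.67)
    {s : ℝ} (hs : 0 ≤ s) (hs2 : s ≤ 1.46) : a s < Real.pi / 2 := by
  have h0 := cl3_anti (f := fun u => a u -
      0.67 * (u + u ^ 3 / 6 + u ^ 5 / 40 + u ^ 7 / 336 + 0.057 * u ^ 9 / 144))
    (f' := fun u => cl3h x y a u - 0.67 * (1 + 3 * u ^ 2 / 6 + 5 * u ^ 4 / 40 + 7 * u ^ 6 / 336 +
      0.057 * (9 * u ^ 8) / 144)) hs
    (((cl3_ac H).mono (Icc_subset_Icc_right (by linarith))).sub (by fun_prop))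
    (fun u hu => (cl3_ad H ⟨hu.1, by linarith [hu.2]⟩).sub (by
      have := (((((hasDerivAt_id u).add ((hasDerivAt_pow 3 u).div_const 6)).add
        ((hasDerivAt_pow 5 u).div_const 40)).add ((hasDerivAt_pow 7 u).div_const 336)).add
        (((hasDerivAt_pow 9 u).const_mul (0.057:ℝ)).div_const 144)).const_mul (0.67:ℝ)
      refine this.congr_deriv ?_
      push_cast
      ring))
    (fun u hu => by
      have h1 := cl3_hle H hy hu.1.le (by linarith [hu.2])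
      unfold cl3P at h1
      nlinarith [h1])
  simp only [H.a_0] at h0
  have h1 : s + s ^ 3 / 6 + s ^ 5 / 40 + s ^ 7 / 336 + 0.057 * s ^ 9 / 144 ≤
      1.46 + 1.46 ^ 3 / 6 + 1.46 ^ 5 / 40 + 1.46 ^ 7 / 336 + 0.057 * 1.46 ^ 9 / 144 := by
    gcongr
  have h2 : (0.67:ℝ) * (1.46 + 1.46 ^ 3 / 6 + 1.46 ^ 5 / 40 + 1.46 ^ 7 / 336 +
      0.057 * 1.46 ^ 9 / 144) < 1.57 := by norm_num
  have h3 := Real.pi_gt_d2
  norm_num at h0 h1 h2 h3 ⊢
  linarith

private lemma cl3_xmono (H : IsArc 1.5 x y a (fun _ => 0)) (hy : y 0 ∈ Icc (0.55:ℝ) 0.67) :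
    StrictMonoOn x (Icc 0 1.46) := by
  apply strictMonoOn_of_deriv_pos (convex_Icc _ _)
    ((cl3_xc H).mono (Icc_subset_Icc_right (by norm_num)))
  intro s hs
  rw [interior_Icc] at hs
  rw [(cl3_xd H ⟨hs.1, by linarith [hs.2]⟩).deriv]
  apply Real.cos_pos_of_mem_Ioo
  have h1 := cl3_anonneg H hy hs.1.le (by linarith [hs.2])
  have h2 := cl3_alt H hy hs.1.le hs.2.le
  have := Real.pi_pos
  constructor <;> linarith

/-- inverse of the angle function -/
private lemma cl3_inv (H : IsArc 1.5 x y a (fun _ => 0)) (hy : y 0 ∈ Icc (0.55:ℝ) 0.67)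
    {s1 : ℝ} (hs1 : s1 ∈ Icc (1.3:ℝ) 1.46) (ha : a s1 = Real.pi / 3) :
    ∃ t : ℝ → ℝ, ContinuousOn t (Icc 0 (Real.pi / 3)) ∧
      (∀ u ∈ Icc 0 (Real.pi / 3), t u ∈ Icc 0 s1) ∧ t 0 = 0 ∧ t (Real.pi / 3) = s1 ∧
      ∀ u ∈ Ioo 0 (Real.pi / 3), t u ∈ Ioo 0 s1 ∧ HasDerivAt t (cl3h x y a (t u))⁻¹ u := by
  have hpi := Real.pi_pos
  have hs10 : (0:ℝ) ≤ s1 := by linarith [hs1.1]
  have hs15 : s1 ≤ 1.5 := by linarith [hs1.2]
  have hac : ContinuousOn a (Icc 0 s1) := (cl3_ac H).mono (Icc_subset_Icc_right hs15)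
  have hsurj : ∀ u ∈ Icc 0 (Real.pi / 3), ∃ s ∈ Icc 0 s1, a s = u := by
    intro u hu
    have := intermediate_value_Icc hs10 hac
    rw [H.a_0, ha] at this
    exact this hu
  choose! t ht hat using hsurj
  have hstr : ∀ {s s' : ℝ}, s ∈ Icc 0 s1 → s' ∈ Icc 0 s1 → a s < a s' → s < s' := by
    intro s s' hs hs' hlt
    by_contra hc
    push Not at hc
    have := cl3_amono H hy hs'.1 hc (hs.2.trans hs15)
    nlinarith
  have hinj : ∀ {s s' : ℝ}, s ∈ Icc 0 s1 → s' ∈ Icc 0 s1 → a s = a s' → s = s' := by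
    intro s s' hs hs' he
    rcases lt_trichotomy s s' with h | h | h
    · have := cl3_amono H hy hs.1 h.le (hs'.2.trans hs15); nlinarith
    · exact h
    · have := cl3_amono H hy hs'.1 h.le (hs.2.trans hs15); nlinarith
  have hlip : ∀ u ∈ Icc 0 (Real.pi / 3), ∀ v ∈ Icc 0 (Real.pi / 3), u ≤ v →
      |t v - t u| ≤ (1 / 0.466) * |v - u| := by
    intro u hu v hv huv
    have h1 : t u ≤ t v := by
      rcases huv.lt_or_eq with h | h
      · exact (hstr (ht u hu) (ht v hv) (by rw [hat u hu, hat v hv]; exact h)).le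
      · rw [h]
    have h2 := cl3_amono H hy (ht u hu).1 h1 ((ht v hv).2.trans hs15)
    rw [hat u hu, hat v hv] at h2
    rw [abs_of_nonneg (by linarith), abs_of_nonneg (by linarith)]
    rw [div_mul_eq_mul_div, le_div_iff₀ (by norm_num)]
    linarith
  have htc : ContinuousOn t (Icc 0 (Real.pi / 3)) := by
    have : LipschitzOnWith (Real.toNNReal (1 / 0.466)) t (Icc 0 (Real.pi / 3)) := by
      apply LipschitzOnWith.of_dist_le_mul
      intro u hu v hv
      rw [Real.dist_eq, Real.dist_eq, Real.coe_toNNReal _ (by norm_num)]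
      rcases le_total u v with h | h
      · rw [abs_sub_comm, abs_sub_comm u v]; exact hlip u hu v hv h
      · exact hlip v hv u hu h
    exact this.continuousOn
  have h0mem : (0:ℝ) ∈ Icc 0 (Real.pi / 3) := ⟨le_rfl, by positivity⟩
  have h1mem : (Real.pi / 3) ∈ Icc 0 (Real.pi / 3) := ⟨by positivity, le_rfl⟩
  have ht0 : t 0 = 0 := by
    apply hinj (ht 0 h0mem) ⟨le_rfl, hs10⟩
    rw [hat 0 h0mem, H.a_0]
  have ht1 : t (Real.pi / 3) = s1 := by
    apply hinj (ht _ h1mem) ⟨hs10, le_rfl⟩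
    rw [hat _ h1mem, ha]
  refine ⟨t, htc, ht, ht0, ht1, ?_⟩
  intro u hu
  have hu' := Ioo_subset_Icc_self hu
  have hmem : t u ∈ Ioo 0 s1 := by
    constructor
    · have := hstr (s := t 0) (s' := t u) (ht 0 h0mem) (ht u hu')
        (by rw [hat 0 h0mem, hat u hu']; exact hu.1)
      rwa [ht0] at this
    · have := hstr (s := t u) (s' := t (Real.pi / 3)) (ht u hu') (ht _ h1mem)
        (by rw [hat _ h1mem, hat u hu']; exact hu.2)
      rwa [ht1] at this
  refine ⟨hmem, ?_⟩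
  have hmem' : t u ∈ Ioo (0:ℝ) 1.5 := ⟨hmem.1, lt_of_lt_of_le hmem.2 hs15⟩
  apply HasDerivAt.of_local_left_inverse (htc.continuousAt (Icc_mem_nhds hu.1 hu.2))
    (cl3_ad H hmem')
  · have := cl3_hpos H hy (s := t u) (Ioo_subset_Icc_self hmem')
    linarith
  · filter_upwards [Icc_mem_nhds hu.1 hu.2] with v hv
    exact hat v hv

end arcs

/-- two arcs which both end at angle π/3 and height 0 -/
private lemma cl3_end {x1 y1 a1 x2 y2 a2 : ℝ → ℝ}
    (h1 : IsArc 1.5 x1 y1 a1 (fun _ => 0)) (h2 : IsArc 1.5 x2 y2 a2 (fun _ => 0))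
    (hy1 : y1 0 ∈ Icc (0.55:ℝ) 0.67) (hy2 : y2 0 ∈ Icc (0.55:ℝ) 0.67)
    {s1 s2 : ℝ} (hs1 : s1 ∈ Icc (1.3:ℝ) 1.46) (hs2 : s2 ∈ Icc (1.3:ℝ) 1.46)
    (ha1 : a1 s1 = Real.pi / 3) (ha2 : a2 s2 = Real.pi / 3) (hz1 : y1 s1 = 0) (hz2 : y2 s2 = 0)
    (hlo : ∀ s ∈ Icc (0:ℝ) s2, 0.6 ≤ cl3h x2 y2 a2 s)
    (sg : ℝ) (hlt : 0 < sg * (y1 0 - y2 0)) : False := by
  obtain ⟨t1, t1c, t1m, t10, t1e, t1d⟩ := cl3_inv h1 hy1 hs1 ha1
  obtain ⟨t2, t2c, t2m, t20, t2e, t2d⟩ := cl3_inv h2 hy2 hs2 ha2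
  have hs15 : s1 ≤ 1.5 := by linarith [hs1.2]
  have hs25 : s2 ≤ 1.5 := by linarith [hs2.2]
  have hpi := Real.pi_pos
  have hpi3 := Real.pi_lt_d6
  have m1 : ∀ u ∈ Icc 0 (Real.pi / 3), t1 u ∈ Icc (0:ℝ) 1.5 := fun u hu =>
    ⟨(t1m u hu).1, (t1m u hu).2.trans hs15⟩
  have m2 : ∀ u ∈ Icc 0 (Real.pi / 3), t2 u ∈ Icc (0:ℝ) 1.5 := fun u hu =>
    ⟨(t2m u hu).1, (t2m u hu).2.trans hs25⟩
  have k1 : ∀ u ∈ Icc 0 (Real.pi / 3), (0.466:ℝ) ≤ cl3h x1 y1 a1 (t1 u) :=
    fun u hu => cl3_hpos h1 hy1 (m1 u hu)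
  have k2 : ∀ u ∈ Icc 0 (Real.pi / 3), (0.6:ℝ) ≤ cl3h x2 y2 a2 (t2 u) :=
    fun u hu => hlo _ (t2m u hu)
  have D1 : ∀ u ∈ Ioo 0 (Real.pi / 3), HasDerivAt (fun u => cl3h x1 y1 a1 (t1 u))
      (cl3p x1 y1 a1 (t1 u)) u := by
    intro u hu
    have hk := k1 u (Ioo_subset_Icc_self hu)
    have hne : cl3h x1 y1 a1 (t1 u) ≠ 0 := by linarith
    have := (cl3_hd h1 (s := t1 u) ⟨(t1d u hu).1.1, lt_of_lt_of_le (t1d u hu).1.2 hs15⟩).comp u
      (t1d u hu).2
    refine this.congr_deriv ?_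
    field_simp
  have D2 : ∀ u ∈ Ioo 0 (Real.pi / 3), HasDerivAt (fun u => cl3h x2 y2 a2 (t2 u))
      (cl3p x2 y2 a2 (t2 u)) u := by
    intro u hu
    have hk := k2 u (Ioo_subset_Icc_self hu)
    have hne : cl3h x2 y2 a2 (t2 u) ≠ 0 := by linarith
    have := (cl3_hd h2 (s := t2 u) ⟨(t2d u hu).1.1, lt_of_lt_of_le (t2d u hu).1.2 hs25⟩).comp u
      (t2d u hu).2
    refine this.congr_deriv ?_
    field_simp
  have V1 : ∀ u ∈ Ioo 0 (Real.pi / 3), HasDerivAt (fun u => cl3p x1 y1 a1 (t1 u))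
      ((1 - cl3h x1 y1 a1 (t1 u) ^ 2) * (cl3h x1 y1 a1 (t1 u))⁻¹) u := by
    intro u hu
    exact (cl3_pd h1 (s := t1 u) ⟨(t1d u hu).1.1, lt_of_lt_of_le (t1d u hu).1.2 hs15⟩).comp u
      (t1d u hu).2
  have V2 : ∀ u ∈ Ioo 0 (Real.pi / 3), HasDerivAt (fun u => cl3p x2 y2 a2 (t2 u))
      ((1 - cl3h x2 y2 a2 (t2 u) ^ 2) * (cl3h x2 y2 a2 (t2 u))⁻¹) u := by
    intro u hu
    exact (cl3_pd h2 (s := t2 u) ⟨(t2d u hu).1.1, lt_of_lt_of_le (t2d u hu).1.2 hs25⟩).comp u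
      (t2d u hu).2
  have c1 : ContinuousOn (fun u => cl3h x1 y1 a1 (t1 u)) (Icc 0 (Real.pi / 3)) :=
    (cl3_hc h1).comp t1c m1
  have c2 : ContinuousOn (fun u => cl3h x2 y2 a2 (t2 u)) (Icc 0 (Real.pi / 3)) :=
    (cl3_hc h2).comp t2c m2
  have d1 : ContinuousOn (fun u => cl3p x1 y1 a1 (t1 u)) (Icc 0 (Real.pi / 3)) :=
    (cl3_pc h1).comp t1c m1
  have d2 : ContinuousOn (fun u => cl3p x2 y2 a2 (t2 u)) (Icc 0 (Real.pi / 3)) :=
    (cl3_pc h2).comp t2c m2
  refine cl3_sturm (L := Real.pi / 3)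
    (D := fun u => sg * (cl3h x1 y1 a1 (t1 u) - cl3h x2 y2 a2 (t2 u)))
    (V := fun u => sg * (cl3p x1 y1 a1 (t1 u) - cl3p x2 y2 a2 (t2 u)))
    (q := fun u => 1 + 1 / (cl3h x1 y1 a1 (t1 u) * cl3h x2 y2 a2 (t2 u)))
    (by positivity) (by norm_num at hpi3 ⊢; linarith)
    (continuousOn_const.mul (c1.sub c2)) (continuousOn_const.mul (d1.sub d2))
    (fun u hu => ((D1 u hu).sub (D2 u hu)).const_mul sg) ?_ ?_ ?_ ?_ ?_ ?_
  · intro u hu
    have hk1 := k1 u (Ioo_subset_Icc_self hu)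
    have hk2 := k2 u (Ioo_subset_Icc_self hu)
    have hne1 : cl3h x1 y1 a1 (t1 u) ≠ 0 := by linarith
    have hne2 : cl3h x2 y2 a2 (t2 u) ≠ 0 := by linarith
    refine (((V1 u hu).sub (V2 u hu)).const_mul sg).congr_deriv ?_
    field_simp
    ring
  · intro u hu
    have hk1 := k1 u hu
    have hk2 := k2 u hu
    have : 0 < cl3h x1 y1 a1 (t1 u) * cl3h x2 y2 a2 (t2 u) :=
      mul_pos (by linarith) (by linarith)
    positivity
  · intro u hu
    have hk1 := k1 u hu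
    have hk2 := k2 u hu
    have h5 : (0.466:ℝ) * 0.6 ≤ cl3h x1 y1 a1 (t1 u) * cl3h x2 y2 a2 (t2 u) :=
      mul_le_mul hk1 hk2 (by norm_num) (by linarith)
    have h6 : 1 / (cl3h x1 y1 a1 (t1 u) * cl3h x2 y2 a2 (t2 u)) ≤ 1 / ((0.466:ℝ) * 0.6) :=
      one_div_le_one_div_of_le (by norm_num) h5
    have h7 : 1 / ((0.466:ℝ) * 0.6) ≤ 3.6 := by norm_num
    linarith
  · simp only [t10, t20]
    simpa [cl3h, h1.x_0, h1.a_0, h2.x_0, h2.a_0] using hlt
  · simp only [t10, t20]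
    simp [cl3p, h1.x_0, h1.a_0, h2.x_0, h2.a_0]
  · simp only [t1e, t2e]
    have h3 : √3 ^ 2 = 3 := Real.sq_sqrt (by norm_num)
    have h3' : √3 ≠ 0 := by positivity
    unfold cl3h cl3p
    rw [ha1, ha2, hz1, hz2, Real.cos_pi_div_three, Real.sin_pi_div_three]
    field_simp
    ring

/-- CL3 : the exact lens is the only one in the window -/
theorem arc_unique (st : Star) {x1 y1 a1 x2 y2 a2 : ℝ → ℝ}
    (h1 : IsArc 1.5 x1 y1 a1 (fun _ => 0)) (h2 : IsArc 1.5 x2 y2 a2 (fun _ => 0))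
    (hy1 : y1 0 ∈ Icc (0.55:ℝ) 0.67) (hy2 : y2 0 ∈ Icc (0.55:ℝ) 0.67)
    {s1 s2 : ℝ} (hs1 : s1 ∈ Icc (1.3:ℝ) 1.46) (hs2 : s2 ∈ Icc (1.3:ℝ) 1.46)
    (e1 : x1 s1 = x2 s2) (e2 : y1 s1 + y2 s2 = 0) (e3 : a1 s1 + a2 s2 = 2 * Real.pi / 3)
    (e4 : -(x1 s1 * Real.sin ((a2 s2 - a1 s1) / 2)) + y1 s1 * Real.cos ((a2 s2 - a1 s1) / 2) = 0) :
    y1 0 = st.y 0 ∧ y2 0 = st.y 0 ∧ s1 = st.ls ∧ s2 = st.ls := by
  have hs10 : (0:ℝ) ≤ s1 := by linarith [hs1.1]
  have hs20 : (0:ℝ) ≤ s2 := by linarith [hs2.1]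
  have hs15 : s1 ≤ 1.5 := by linarith [hs1.2]
  have hs25 : s2 ≤ 1.5 := by linarith [hs2.2]
  -- step B: equal heights on the axis
  set φ := (a2 s2 - a1 s1) / 2 with hφ
  have ea1 : a1 s1 = Real.pi / 3 - φ := by rw [hφ]; linarith
  have ea2 : a2 s2 = Real.pi / 3 + φ := by rw [hφ]; linarith
  have hh : cl3h x1 y1 a1 s1 = cl3h x2 y2 a2 s2 := by
    unfold cl3h
    have hy : y2 s2 = - y1 s1 := by linarith
    rw [ea1, ea2, ← e1, hy, Real.sin_sub, Real.sin_add, Real.cos_sub, Real.cos_add,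
      Real.cos_pi_div_three, Real.sin_pi_div_three]
    linear_combination e4
  have hy12 : y1 0 = y2 0 := by
    have f1 := cl3_first h1 (s := s1) ⟨hs10, hs15⟩
    have f2 := cl3_first h2 (s := s2) ⟨hs20, hs25⟩
    have hy : y2 s2 = - y1 s1 := by linarith
    rw [hh, e1] at f1
    rw [hy, neg_sq] at f2
    have f3 : y1 0 * Real.exp (-(y1 0 ^ 2 / 2)) = y2 0 * Real.exp (-(y2 0 ^ 2 / 2)) := by
      rw [← f1, ← f2]
    -- strictly increasing
    have key : ∀ u v : ℝ, u ∈ Icc (0.55:ℝ) 0.67 → v ∈ Icc (0.55:ℝ) 0.67 → u < v →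
        u * Real.exp (-(u ^ 2 / 2)) ≠ v * Real.exp (-(v ^ 2 / 2)) := by
      intro u v hu hv huv he
      have e5 : Real.exp (-(v ^ 2 / 2)) = Real.exp (-(u ^ 2 / 2)) * Real.exp (-((v ^ 2 - u ^ 2) / 2)) := by
        rw [← Real.exp_add]; congr 1; ring
      rw [e5] at he
      have hpos := Real.exp_pos (-(u ^ 2 / 2))
      have he2 : u = v * Real.exp (-((v ^ 2 - u ^ 2) / 2)) := by
        have : Real.exp (-(u ^ 2 / 2)) * u =
            Real.exp (-(u ^ 2 / 2)) * (v * Real.exp (-((v ^ 2 - u ^ 2) / 2))) := by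
          linear_combination he
        exact mul_left_cancel₀ hpos.ne' this
      have h6 : 1 - (v ^ 2 - u ^ 2) / 2 ≤ Real.exp (-((v ^ 2 - u ^ 2) / 2)) := by
        have := Real.add_one_le_exp (-((v ^ 2 - u ^ 2) / 2)); linarith
      have h7 : v * (1 - (v ^ 2 - u ^ 2) / 2) ≤ u := by
        calc v * (1 - (v ^ 2 - u ^ 2) / 2) ≤ v * Real.exp (-((v ^ 2 - u ^ 2) / 2)) :=
              mul_le_mul_of_nonneg_left h6 (by linarith [hv.1])
          _ = u := he2.symm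
      have h8 : (v - u) * (1 - v * (v + u) / 2) ≤ 0 := by nlinarith
      have h9 : 0 < 1 - v * (v + u) / 2 := by
        have : v * (v + u) ≤ 0.67 * (0.67 + 0.67) :=
          mul_le_mul hv.2 (by linarith [hv.2, hu.2]) (by linarith [hv.1, hu.1]) (by norm_num)
        linarith
      have := mul_pos (sub_pos.2 huv) h9
      linarith
    rcases lt_trichotomy (y1 0) (y2 0) with h | h | h
    · exact absurd f3 (key _ _ hy1 hy2 h)
    · exact h
    · exact absurd f3.symm (key _ _ hy2 hy1 h)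
  -- the two arcs are equal
  obtain ⟨C, hC, hG⟩ := arc_gronwall
  have uniq : ∀ {x y a x' y' a' : ℝ → ℝ}, IsArc 1.5 x y a (fun _ => 0) →
      IsArc 1.5 x' y' a' (fun _ => 0) → y 0 ∈ Icc (0.55:ℝ) 0.67 → y 0 = y' 0 →
      ∀ s ∈ Icc (0:ℝ) 1.5, x s = x' s ∧ y s = y' s ∧ a s = a' s := by
    intro x y a x' y' a' H H' hy he s hs
    have hab : |y 0| ≤ 1 := by rw [abs_le]; constructor <;> linarith [hy.1, hy.2]
    have := hG 1.5 x y a (fun _ => 0) x' y' a' (fun _ => 0) ⟨by norm_num, le_rfl⟩ H H'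
      continuousOn_const continuousOn_const hab (by rw [← he]; exact hab) s hs
    rw [he] at this
    simp at this
    obtain ⟨g1, g2, g3⟩ := this
    exact ⟨by linarith, by linarith, by linarith⟩
  have hu := uniq h1 h2 hy1 hy12
  have hx12 : x2 s1 = x2 s2 := by rw [← (hu s1 ⟨hs10, hs15⟩).1]; exact e1
  have hs12 : s1 = s2 :=
    (cl3_xmono h2 hy2).injOn ⟨hs10, hs1.2⟩ ⟨hs20, hs2.2⟩ hx12
  have hya : y1 s1 = 0 := by
    have := (hu s1 ⟨hs10, hs15⟩).2.1
    rw [← hs12, ← this] at e2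
    linarith
  have haa : a1 s1 = Real.pi / 3 := by
    have := (hu s1 ⟨hs10, hs15⟩).2.2
    rw [← hs12, ← this] at e3
    linarith
  -- compare with the exact lens
  have hst : st.y 0 ∈ Icc (0.55:ℝ) 0.67 := ⟨by linarith [st.ys_lo], by linarith [st.ys_hi]⟩
  have hls : st.ls ∈ Icc (1.3:ℝ) 1.46 := ⟨by linarith [st.ls_lo], by linarith [st.ls_hi]⟩
  have hend : ∀ sg : ℝ, ¬ 0 < sg * (y1 0 - st.y 0) := fun sg hlt =>
    cl3_end h1 st.arc hy1 hst hs1 hls haa st.a_ls hya st.y_ls st.h_lo sg hlt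
  have hyeq : y1 0 = st.y 0 := by
    have g1 := hend 1
    have g2 := hend (-1)
    push Not at g1 g2
    linarith
  have hu2 := uniq h1 st.arc hy1 hyeq
  have hs1eq : s1 = st.ls := by
    have e6 : a1 st.ls = Real.pi / 3 := by
      rw [(hu2 st.ls ⟨by linarith [hls.1], by linarith [hls.2]⟩).2.2]
      exact st.a_ls
    rcases le_total s1 st.ls with h | h
    · have := cl3_amono h1 hy1 hs10 h (by linarith [hls.2])
      rw [haa, e6] at this
      linarith
    · have := cl3_amono h1 hy1 (by linarith [hls.1]) h hs15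
      rw [haa, e6] at this
      linarith
  exact ⟨hyeq, by rw [← hy12]; exact hyeq, hs1eq, by rw [← hs12]; exact hs1eq⟩

end Pool.Agent.Helper15.NF
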