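import Pool.Agent.Helper15.NF.CL1
import Pool.Agent.Helper15.NF.CL2
import Pool.Agent.Helper15.NF.CL3

open Set MeasureTheory intervalIntegral Filter Topology

namespace Pool.Agent.Helper15.NF

namespace CL4aux

lemma arc_x_cont {l : ℝ} {x y a S : ℝ → ℝ} (h : IsArc l x y a S) : ContinuousOn x (Icc 0 l) :=
  fun s hs => (h.x_s s hs).continuousWithinAt

lemma arc_y_cont {l : ℝ} {x y a S : ℝ → ℝ} (h : IsArc l x y a S) : ContinuousOn y (Icc 0 l) :=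
  fun s hs => (h.y_s s hs).continuousWithinAt

lemma arc_a_cont {l : ℝ} {x y a S : ℝ → ℝ} (h : IsArc l x y a S) : ContinuousOn a (Icc 0 l) :=
  fun s hs => (h.a_s s hs).continuousWithinAt

lemma cont2 {G : ℝ → ℝ → ℝ} {C : ℝ} (hC : 0 ≤ C) {I J : Set ℝ}
    (h1 : ∀ y ∈ I, ∀ y' ∈ I, ∀ s ∈ J, |G y s - G y' s| ≤ C * |y - y'|)
    (h2 : ∀ y ∈ I, ContinuousOn (G y) J) :
    ContinuousOn (fun p : ℝ × ℝ => G p.1 p.2) (I ×ˢ J) := by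
  refine continuousOn_prod_of_continuousOn_lipschitzOnWith
    (fun p : ℝ × ℝ => G p.1 p.2) (Real.toNNReal C) (fun y hy => h2 y hy) fun s hs => ?_
  refine LipschitzOnWith.of_dist_le_mul fun y hy y' hy' => ?_
  rw [Real.dist_eq, Real.dist_eq, Real.coe_toNNReal C hC]
  exact h1 y hy y' hy' s hs

end CL4aux

open CL4aux in
/-- CL4 : quantitative version (by compactness from CL1-CL3) -/
theorem arc_stable (st : Star) : ∀ η > 0, ∃ δ > 0,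
    ∀ x1 y1 a1 x2 y2 a2 : ℝ → ℝ,
    IsArc 1.5 x1 y1 a1 (fun _ => 0) → IsArc 1.5 x2 y2 a2 (fun _ => 0) →
    y1 0 ∈ Icc (0.55:ℝ) 0.67 → y2 0 ∈ Icc (0.55:ℝ) 0.67 →
    ∀ s1 ∈ Icc (1.3:ℝ) 1.46, ∀ s2 ∈ Icc (1.3:ℝ) 1.46,
    |x1 s1 - x2 s2| ≤ δ → |y1 s1 + y2 s2| ≤ δ → |a1 s1 + a2 s2 - 2 * Real.pi / 3| ≤ δ →
    |-(x1 s1 * Real.sin ((a2 s2 - a1 s1) / 2)) + y1 s1 * Real.cos ((a2 s2 - a1 s1) / 2)| ≤ δ →
    |y1 0 - st.y 0| ≤ η ∧ |y2 0 - st.y 0| ≤ η ∧ |s1 - st.ls| ≤ η ∧ |s2 - st.ls| ≤ η := by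
  intro η hη
  obtain ⟨C, hC, hg⟩ := arc_gronwall
  have hex : ∀ y0 : ℝ, ∃ x y a : ℝ → ℝ, |y0| ≤ 1 → IsArc 1.5 x y a (fun _ => 0) ∧ y 0 = y0 := by
    intro y0
    by_cases h : |y0| ≤ 1
    · obtain ⟨x, y, a, h1, h2⟩ := exists_arc y0 h
      exact ⟨x, y, a, fun _ => ⟨h1, h2⟩⟩
    · exact ⟨0, 0, 0, fun h' => absurd h' h⟩
  choose X Y A hA using hex
  set I : Set ℝ := Icc 0.55 0.67 with hI
  set J : Set ℝ := Icc 1.3 1.46 with hJ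
  have hI1 : ∀ y ∈ I, |y| ≤ 1 := fun y hy => by
    rw [hI, mem_Icc] at hy
    rw [abs_le]; constructor <;> linarith [hy.1, hy.2]
  have hJ1 : J ⊆ Icc (0:ℝ) 1.5 := fun s hs => by
    rw [hJ, mem_Icc] at hs
    exact ⟨by linarith [hs.1], by linarith [hs.2]⟩
  -- comparison of exact arcs
  have hcmp : ∀ x y a x' y' a' : ℝ → ℝ, IsArc 1.5 x y a (fun _ => 0) →
      IsArc 1.5 x' y' a' (fun _ => 0) → |y 0| ≤ 1 → |y' 0| ≤ 1 → ∀ s ∈ Icc (0:ℝ) 1.5,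
      |x s - x' s| ≤ C * |y 0 - y' 0| ∧ |y s - y' s| ≤ C * |y 0 - y' 0| ∧
      |a s - a' s| ≤ C * |y 0 - y' 0| := by
    intro x y a x' y' a' h h' hy hy' s hs
    have := hg 1.5 x y a (fun _ => 0) x' y' a' (fun _ => 0) (by constructor <;> norm_num) h h'
      continuousOn_const continuousOn_const hy hy' s hs
    simpa using this
  have hlip : ∀ y ∈ I, ∀ y' ∈ I, ∀ s ∈ J, |X y s - X y' s| ≤ C * |y - y'| ∧
      |Y y s - Y y' s| ≤ C * |y - y'| ∧ |A y s - A y' s| ≤ C * |y - y'| := by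
    intro y hy y' hy' s hs
    have h1 := hA y (hI1 y hy)
    have h2 := hA y' (hI1 y' hy')
    have := hcmp _ _ _ _ _ _ h1.1 h2.1 (by rw [h1.2]; exact hI1 y hy)
      (by rw [h2.2]; exact hI1 y' hy') s (hJ1 hs)
    rwa [h1.2, h2.2] at this
  have cX : ContinuousOn (fun p : ℝ × ℝ => X p.1 p.2) (I ×ˢ J) :=
    cont2 hC.le (fun y hy y' hy' s hs => (hlip y hy y' hy' s hs).1)
      fun y hy => (arc_x_cont (hA y (hI1 y hy)).1).mono hJ1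
  have cY : ContinuousOn (fun p : ℝ × ℝ => Y p.1 p.2) (I ×ˢ J) :=
    cont2 hC.le (fun y hy y' hy' s hs => (hlip y hy y' hy' s hs).2.1)
      fun y hy => (arc_y_cont (hA y (hI1 y hy)).1).mono hJ1
  have cA : ContinuousOn (fun p : ℝ × ℝ => A p.1 p.2) (I ×ˢ J) :=
    cont2 hC.le (fun y hy y' hy' s hs => (hlip y hy y' hy' s hs).2.2)
      fun y hy => (arc_a_cont (hA y (hI1 y hy)).1).mono hJ1
  set K : Set ((ℝ × ℝ) × (ℝ × ℝ)) := (I ×ˢ J) ×ˢ (I ×ˢ J) with hK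
  have m1 : MapsTo (fun q : (ℝ × ℝ) × (ℝ × ℝ) => q.1) K (I ×ˢ J) := fun q hq => hq.1
  have m2 : MapsTo (fun q : (ℝ × ℝ) × (ℝ × ℝ) => q.2) K (I ×ˢ J) := fun q hq => hq.2
  have cX1 : ContinuousOn (fun q : (ℝ × ℝ) × (ℝ × ℝ) => X q.1.1 q.1.2) K :=
    cX.comp continuousOn_fst m1
  have cY1 : ContinuousOn (fun q : (ℝ × ℝ) × (ℝ × ℝ) => Y q.1.1 q.1.2) K :=
    cY.comp continuousOn_fst m1
  have cA1 : ContinuousOn (fun q : (ℝ × ℝ) × (ℝ × ℝ) => A q.1.1 q.1.2) K :=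
    cA.comp continuousOn_fst m1
  have cX2 : ContinuousOn (fun q : (ℝ × ℝ) × (ℝ × ℝ) => X q.2.1 q.2.2) K :=
    cX.comp continuousOn_snd m2
  have cY2 : ContinuousOn (fun q : (ℝ × ℝ) × (ℝ × ℝ) => Y q.2.1 q.2.2) K :=
    cY.comp continuousOn_snd m2
  have cA2 : ContinuousOn (fun q : (ℝ × ℝ) × (ℝ × ℝ) => A q.2.1 q.2.2) K :=
    cA.comp continuousOn_snd m2
  let F : (ℝ × ℝ) × (ℝ × ℝ) → ℝ := fun q =>
    |X q.1.1 q.1.2 - X q.2.1 q.2.2| + |Y q.1.1 q.1.2 + Y q.2.1 q.2.2| +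
    |A q.1.1 q.1.2 + A q.2.1 q.2.2 - 2 * Real.pi / 3| +
    |-(X q.1.1 q.1.2 * Real.sin ((A q.2.1 q.2.2 - A q.1.1 q.1.2) / 2)) +
      Y q.1.1 q.1.2 * Real.cos ((A q.2.1 q.2.2 - A q.1.1 q.1.2) / 2)|
  have cF : ContinuousOn F K := by
    have c3 : ContinuousOn (fun q : (ℝ × ℝ) × (ℝ × ℝ) =>
        (A q.2.1 q.2.2 - A q.1.1 q.1.2) / 2) K := (cA2.sub cA1).div_const 2
    exact (((cX1.sub cX2).abs.add (cY1.add cY2).abs).add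
      ((cA1.add cA2).sub continuousOn_const).abs).add
      (((cX1.mul (Real.continuous_sin.comp_continuousOn c3)).neg.add
        (cY1.mul (Real.continuous_cos.comp_continuousOn c3))).abs)
  have cK : IsCompact K := (isCompact_Icc.prod isCompact_Icc).prod (isCompact_Icc.prod isCompact_Icc)
  let B : Set ((ℝ × ℝ) × (ℝ × ℝ)) := {q | η ≤ |q.1.1 - st.y 0| ∨ η ≤ |q.2.1 - st.y 0| ∨
    η ≤ |q.1.2 - st.ls| ∨ η ≤ |q.2.2 - st.ls|}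
  have cB : IsClosed B := by
    have e : B = {q | η ≤ |q.1.1 - st.y 0|} ∪ ({q | η ≤ |q.2.1 - st.y 0|} ∪
      ({q | η ≤ |q.1.2 - st.ls|} ∪ {q | η ≤ |q.2.2 - st.ls|})) := rfl
    rw [e]
    refine IsClosed.union ?_ (IsClosed.union ?_ (IsClosed.union ?_ ?_))
    · exact isClosed_le continuous_const (by fun_prop)
    · exact isClosed_le continuous_const (by fun_prop)
    · exact isClosed_le continuous_const (by fun_prop)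
    · exact isClosed_le continuous_const (by fun_prop)
  have cKB : IsCompact (K ∩ B) := cK.inter_right cB
  obtain ⟨m, hm, hmF⟩ : ∃ m > 0, ∀ q ∈ K ∩ B, m ≤ F q := by
    rcases (K ∩ B).eq_empty_or_nonempty with h0 | hne
    · exact ⟨1, one_pos, fun q hq => by rw [h0] at hq; exact absurd hq (notMem_empty q)⟩
    · obtain ⟨q0, hq0, hmin⟩ := cKB.exists_isMinOn hne (cF.mono inter_subset_left)
      refine ⟨F q0, ?_, fun q hq => hmin hq⟩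
      by_contra hneg
      have n1 := abs_nonneg (X q0.1.1 q0.1.2 - X q0.2.1 q0.2.2)
      have n2 := abs_nonneg (Y q0.1.1 q0.1.2 + Y q0.2.1 q0.2.2)
      have n3 := abs_nonneg (A q0.1.1 q0.1.2 + A q0.2.1 q0.2.2 - 2 * Real.pi / 3)
      have n4 := abs_nonneg (-(X q0.1.1 q0.1.2 * Real.sin ((A q0.2.1 q0.2.2 - A q0.1.1 q0.1.2) / 2)) +
        Y q0.1.1 q0.1.2 * Real.cos ((A q0.2.1 q0.2.2 - A q0.1.1 q0.1.2) / 2))
      have hs : |X q0.1.1 q0.1.2 - X q0.2.1 q0.2.2| + |Y q0.1.1 q0.1.2 + Y q0.2.1 q0.2.2| +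
        |A q0.1.1 q0.1.2 + A q0.2.1 q0.2.2 - 2 * Real.pi / 3| +
        |-(X q0.1.1 q0.1.2 * Real.sin ((A q0.2.1 q0.2.2 - A q0.1.1 q0.1.2) / 2)) +
        Y q0.1.1 q0.1.2 * Real.cos ((A q0.2.1 q0.2.2 - A q0.1.1 q0.1.2) / 2)| ≤ 0 := not_lt.mp hneg
      have z1 : |X q0.1.1 q0.1.2 - X q0.2.1 q0.2.2| = 0 := by linarith
      have z2 : |Y q0.1.1 q0.1.2 + Y q0.2.1 q0.2.2| = 0 := by linarith
      have z3 : |A q0.1.1 q0.1.2 + A q0.2.1 q0.2.2 - 2 * Real.pi / 3| = 0 := by linarith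
      have z4 : |-(X q0.1.1 q0.1.2 * Real.sin ((A q0.2.1 q0.2.2 - A q0.1.1 q0.1.2) / 2)) +
        Y q0.1.1 q0.1.2 * Real.cos ((A q0.2.1 q0.2.2 - A q0.1.1 q0.1.2) / 2)| = 0 := by linarith
      rw [abs_eq_zero] at z1 z2 z3 z4
      have hq1 := (hq0.1.1.1 : q0.1.1 ∈ I)
      have hq2 := (hq0.1.2.1 : q0.2.1 ∈ I)
      have a1 := hA q0.1.1 (hI1 _ hq1)
      have a2 := hA q0.2.1 (hI1 _ hq2)
      obtain ⟨u1, u2, u3, u4⟩ := arc_unique st a1.1 a2.1 (by rw [a1.2]; exact hq1)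
        (by rw [a2.2]; exact hq2) hq0.1.1.2 hq0.1.2.2 (sub_eq_zero.mp z1) z2
        (sub_eq_zero.mp z3) z4
      rw [a1.2] at u1
      rw [a2.2] at u2
      have hb : η ≤ |q0.1.1 - st.y 0| ∨ η ≤ |q0.2.1 - st.y 0| ∨
        η ≤ |q0.1.2 - st.ls| ∨ η ≤ |q0.2.2 - st.ls| := hq0.2
      rw [u1, u2, u3, u4, sub_self, sub_self, abs_zero] at hb
      rcases hb with h | h | h | h <;> linarith
  refine ⟨m / 5, by positivity, ?_⟩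
  intro x1 y1 a1 x2 y2 a2 h1 h2 hy1 hy2 s1 hs1 s2 hs2 e1 e2 e3 e4
  have b1 := hA (y1 0) (hI1 _ hy1)
  have b2 := hA (y2 0) (hI1 _ hy2)
  have c1 := hcmp _ _ _ _ _ _ h1 b1.1 (hI1 _ hy1) (by rw [b1.2]; exact hI1 _ hy1) s1 (hJ1 hs1)
  have c2 := hcmp _ _ _ _ _ _ h2 b2.1 (hI1 _ hy2) (by rw [b2.2]; exact hI1 _ hy2) s2 (hJ1 hs2)
  rw [b1.2, sub_self, abs_zero, mul_zero] at c1
  rw [b2.2, sub_self, abs_zero, mul_zero] at c2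
  have ex1 : x1 s1 = X (y1 0) s1 := sub_eq_zero.mp (abs_eq_zero.mp (le_antisymm c1.1 (abs_nonneg _)))
  have ey1 : y1 s1 = Y (y1 0) s1 :=
    sub_eq_zero.mp (abs_eq_zero.mp (le_antisymm c1.2.1 (abs_nonneg _)))
  have ea1 : a1 s1 = A (y1 0) s1 :=
    sub_eq_zero.mp (abs_eq_zero.mp (le_antisymm c1.2.2 (abs_nonneg _)))
  have ex2 : x2 s2 = X (y2 0) s2 := sub_eq_zero.mp (abs_eq_zero.mp (le_antisymm c2.1 (abs_nonneg _)))
  have ey2 : y2 s2 = Y (y2 0) s2 :=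
    sub_eq_zero.mp (abs_eq_zero.mp (le_antisymm c2.2.1 (abs_nonneg _)))
  have ea2 : a2 s2 = A (y2 0) s2 :=
    sub_eq_zero.mp (abs_eq_zero.mp (le_antisymm c2.2.2 (abs_nonneg _)))
  rw [ex1, ex2] at e1
  rw [ey1, ey2] at e2
  rw [ea1, ea2] at e3
  rw [ex1, ey1, ea1, ea2] at e4
  by_contra hcon
  have hB : ((y1 0, s1), (y2 0, s2)) ∈ B := by
    by_contra hnB
    apply hcon
    have hnB' : ¬ (η ≤ |y1 0 - st.y 0| ∨ η ≤ |y2 0 - st.y 0| ∨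
      η ≤ |s1 - st.ls| ∨ η ≤ |s2 - st.ls|) := hnB
    push Not at hnB'
    exact ⟨hnB'.1.le, hnB'.2.1.le, hnB'.2.2.1.le, hnB'.2.2.2.le⟩
  have := hmF ((y1 0, s1), (y2 0, s2)) ⟨⟨⟨hy1, hs1⟩, ⟨hy2, hs2⟩⟩, hB⟩
  have hF : F ((y1 0, s1), (y2 0, s2)) ≤ 4 * (m / 5) := by
    change |X (y1 0) s1 - X (y2 0) s2| + |Y (y1 0) s1 + Y (y2 0) s2| +
      |A (y1 0) s1 + A (y2 0) s2 - 2 * Real.pi / 3| +
      |-(X (y1 0) s1 * Real.sin ((A (y2 0) s2 - A (y1 0) s1) / 2)) +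
        Y (y1 0) s1 * Real.cos ((A (y2 0) s2 - A (y1 0) s1) / 2)| ≤ _
    linarith
  linarith

end Pool.Agent.Helper15.NF
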