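import Mathlib

/-!
MP_c8f971_gt: lens collapse in the network flow.
Analytic description of one half (x >= 0) of a network symmetric under x -> -x:
edge 0 = upper arc a, edge 1 = lower arc b, edge 2 = curve g; every edge is parametrised by
`σ ∈ [0,1]` with constant speed, starting at the junction (σ = 0); arcs 0, 1 end on the axis x = 0,
edge 2 ends at a fixed point with first coordinate `Lx`.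
-/

open Set MeasureTheory intervalIntegral Filter Topology

namespace Pool.Agent.Helper15.NF

/-- direction offsets of the three outward tangents at the junction -/
noncomputable def off : Fin 3 → ℝ := ![2 * Real.pi / 3, -(2 * Real.pi / 3), 0]

/-- a smooth flow of half networks on the open time interval `(a,b)` -/
structure Flow (a b Lx : ℝ) where
  ell : Fin 3 → ℝ → ℝ
  dell : Fin 3 → ℝ → ℝ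
  th : Fin 3 → ℝ → ℝ → ℝ
  k : Fin 3 → ℝ → ℝ → ℝ
  ks : Fin 3 → ℝ → ℝ → ℝ
  kss : Fin 3 → ℝ → ℝ → ℝ
  mu : Fin 3 → ℝ → ℝ → ℝ
  X : Fin 3 → ℝ → ℝ → ℝ
  Y : Fin 3 → ℝ → ℝ → ℝ
  Ly : ℝ
  ell_pos : ∀ i, ∀ t ∈ Ioo a b, 0 < ell i t
  ell_t : ∀ i, ∀ t ∈ Ioo a b, HasDerivAt (ell i) (dell i t) t
  dell_cont : ∀ i, ContinuousOn (dell i) (Ioo a b)
  th_cont : ∀ i, ContinuousOn (fun p : ℝ × ℝ => th i p.1 p.2) (Ioo a b ×ˢ Icc 0 1)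
  k_cont : ∀ i, ContinuousOn (fun p : ℝ × ℝ => k i p.1 p.2) (Ioo a b ×ˢ Icc 0 1)
  ks_cont : ∀ i, ContinuousOn (fun p : ℝ × ℝ => ks i p.1 p.2) (Ioo a b ×ˢ Icc 0 1)
  kss_cont : ∀ i, ContinuousOn (fun p : ℝ × ℝ => kss i p.1 p.2) (Ioo a b ×ˢ Icc 0 1)
  mu_cont : ∀ i, ContinuousOn (fun p : ℝ × ℝ => mu i p.1 p.2) (Ioo a b ×ˢ Icc 0 1)
  X_cont : ∀ i, ContinuousOn (fun p : ℝ × ℝ => X i p.1 p.2) (Ioo a b ×ˢ Icc 0 1)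
  Y_cont : ∀ i, ContinuousOn (fun p : ℝ × ℝ => Y i p.1 p.2) (Ioo a b ×ˢ Icc 0 1)
  th_s : ∀ i, ∀ t ∈ Ioo a b, ∀ σ ∈ Icc (0:ℝ) 1,
    HasDerivWithinAt (th i t) (ell i t * k i t σ) (Icc 0 1) σ
  k_s : ∀ i, ∀ t ∈ Ioo a b, ∀ σ ∈ Icc (0:ℝ) 1,
    HasDerivWithinAt (k i t) (ell i t * ks i t σ) (Icc 0 1) σ
  ks_s : ∀ i, ∀ t ∈ Ioo a b, ∀ σ ∈ Icc (0:ℝ) 1,
    HasDerivWithinAt (ks i t) (ell i t * kss i t σ) (Icc 0 1) σ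
  X_s : ∀ i, ∀ t ∈ Ioo a b, ∀ σ ∈ Icc (0:ℝ) 1,
    HasDerivWithinAt (X i t) (ell i t * Real.cos (th i t σ + off i)) (Icc 0 1) σ
  Y_s : ∀ i, ∀ t ∈ Ioo a b, ∀ σ ∈ Icc (0:ℝ) 1,
    HasDerivWithinAt (Y i t) (ell i t * Real.sin (th i t σ + off i)) (Icc 0 1) σ
  mu_s : ∀ i, ∀ t ∈ Ioo a b, ∀ σ ∈ Icc (0:ℝ) 1,
    HasDerivWithinAt (mu i t) (dell i t + ell i t * k i t σ ^ 2) (Icc 0 1) σ
  th_t : ∀ i, ∀ t ∈ Ioo a b, ∀ σ ∈ Icc (0:ℝ) 1,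
    HasDerivAt (fun τ => th i τ σ) (ks i t σ + mu i t σ * k i t σ) t
  k_t : ∀ i, ∀ t ∈ Ioo a b, ∀ σ ∈ Icc (0:ℝ) 1,
    HasDerivAt (fun τ => k i τ σ) (kss i t σ + k i t σ ^ 3 + mu i t σ * ks i t σ) t
  X_t : ∀ i, ∀ t ∈ Ioo a b, ∀ σ ∈ Icc (0:ℝ) 1,
    HasDerivAt (fun τ => X i τ σ)
      (-(k i t σ * Real.sin (th i t σ + off i)) + mu i t σ * Real.cos (th i t σ + off i)) t
  Y_t : ∀ i, ∀ t ∈ Ioo a b, ∀ σ ∈ Icc (0:ℝ) 1,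
    HasDerivAt (fun τ => Y i τ σ)
      (k i t σ * Real.cos (th i t σ + off i) + mu i t σ * Real.sin (th i t σ + off i)) t
  th_J : ∀ i, ∀ t ∈ Ioo a b, th i t 0 = th 2 t 0
  X_J : ∀ i, ∀ t ∈ Ioo a b, X i t 0 = X 2 t 0
  Y_J : ∀ i, ∀ t ∈ Ioo a b, Y i t 0 = Y 2 t 0
  th_axis0 : ∀ t ∈ Ioo a b, th 0 t 1 = Real.pi / 3
  th_axis1 : ∀ t ∈ Ioo a b, th 1 t 1 = -(Real.pi / 3)
  X_axis0 : ∀ t ∈ Ioo a b, X 0 t 1 = 0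
  X_axis1 : ∀ t ∈ Ioo a b, X 1 t 1 = 0
  mu_end : ∀ i, ∀ t ∈ Ioo a b, mu i t 1 = 0
  X_far : ∀ t ∈ Ioo a b, X 2 t 1 = Lx
  Y_far : ∀ t ∈ Ioo a b, Y 2 t 1 = Ly
  k_far : ∀ t ∈ Ioo a b, k 2 t 1 = 0

/-- initial data -/
structure Init (Lx : ℝ) where
  ell : Fin 3 → ℝ
  th : Fin 3 → ℝ → ℝ
  k : Fin 3 → ℝ → ℝ
  ks : Fin 3 → ℝ → ℝ
  X : Fin 3 → ℝ → ℝ
  Y : Fin 3 → ℝ → ℝ
  ell_pos : ∀ i, 0 < ell i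
  ks_cont : ∀ i, ContinuousOn (ks i) (Icc 0 1)
  th_s : ∀ i, ∀ σ ∈ Icc (0:ℝ) 1, HasDerivWithinAt (th i) (ell i * k i σ) (Icc 0 1) σ
  k_s : ∀ i, ∀ σ ∈ Icc (0:ℝ) 1, HasDerivWithinAt (k i) (ell i * ks i σ) (Icc 0 1) σ
  X_s : ∀ i, ∀ σ ∈ Icc (0:ℝ) 1,
    HasDerivWithinAt (X i) (ell i * Real.cos (th i σ + off i)) (Icc 0 1) σ
  Y_s : ∀ i, ∀ σ ∈ Icc (0:ℝ) 1,
    HasDerivWithinAt (Y i) (ell i * Real.sin (th i σ + off i)) (Icc 0 1) σ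
  th_J : ∀ i, th i 0 = th 2 0
  X_J : ∀ i, X i 0 = X 2 0
  Y_J : ∀ i, Y i 0 = Y 2 0
  k_J : ∑ i, k i 0 = 0
  th_axis0 : th 0 1 = Real.pi / 3
  th_axis1 : th 1 1 = -(Real.pi / 3)
  X_axis0 : X 0 1 = 0
  X_axis1 : X 1 1 = 0
  X_far : X 2 1 = Lx
  k_far : k 2 1 = 0

/-- the flow `F` on `(a,b)` starts from `I` at time `a` -/
structure StartsAt {a b Lx : ℝ} (F : Flow a b Lx) (I : Init Lx) : Prop where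
  ell : ∀ i, Tendsto (F.ell i) (𝓝[>] a) (𝓝 (I.ell i))
  th : ∀ i, ∀ ε > 0, ∀ᶠ t in 𝓝[>] a, ∀ σ ∈ Icc (0:ℝ) 1, |F.th i t σ - I.th i σ| < ε
  X : ∀ i, ∀ ε > 0, ∀ᶠ t in 𝓝[>] a, ∀ σ ∈ Icc (0:ℝ) 1, |F.X i t σ - I.X i σ| < ε
  Y : ∀ i, ∀ ε > 0, ∀ᶠ t in 𝓝[>] a, ∀ σ ∈ Icc (0:ℝ) 1, |F.Y i t σ - I.Y i σ| < ε
  k : ∀ i, Tendsto (fun t => ∫ σ in (0:ℝ)..1, (F.k i t σ - I.k i σ) ^ 2) (𝓝[>] a) (𝓝 0)

/-- size of the flow at time `t` : what the continuation criterion looks at -/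
noncomputable def Flow.size {a b Lx : ℝ} (F : Flow a b Lx) (t : ℝ) : ℝ :=
  ∑ i, (F.ell i t * (∫ σ in (0:ℝ)..1, F.k i t σ ^ 2) + F.ell i t + (F.ell i t)⁻¹)

end Pool.Agent.Helper15.NF
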