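import Pool.Agent.Helper15.NF.EG2

open Set MeasureTheory intervalIntegral Filter Topology

namespace Pool.Agent.Helper15.NF

/-- vertical translation of a flow -/
noncomputable def E0_vshift {a b Lx : ℝ} (F : Flow a b Lx) (c : ℝ) : Flow a b Lx :=
  { F with
    Y := fun i t σ => F.Y i t σ + c
    Ly := F.Ly + c
    Y_cont := fun i => (F.Y_cont i).add continuousOn_const
    Y_s := fun i t ht σ hσ => (F.Y_s i t ht σ hσ).add_const c
    Y_t := fun i t ht σ hσ => (F.Y_t i t ht σ hσ).add_const c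
    Y_J := fun i t ht => by rw [F.Y_J i t ht]
    Y_far := fun t ht => by rw [F.Y_far t ht] }

/-- all fields of two flows coincide at time `t` -/
private def E0_Eq {a b a' b' Lx : ℝ} (F : Flow a b Lx) (G : Flow a' b' Lx) (t : ℝ) : Prop :=
  ∀ i, F.ell i t = G.ell i t ∧ F.dell i t = G.dell i t ∧ ∀ σ ∈ Icc (0:ℝ) 1,
    F.th i t σ = G.th i t σ ∧ F.k i t σ = G.k i t σ ∧ F.ks i t σ = G.ks i t σ ∧
    F.kss i t σ = G.kss i t σ ∧ F.mu i t σ = G.mu i t σ ∧ F.X i t σ = G.X i t σ ∧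
    F.Y i t σ = G.Y i t σ

/-- union of a family of flows -/
private theorem E0_union {Lx T0 : ℝ} (b : ℕ → ℝ) (F : ∀ n, Flow 0 (b n) Lx) (n : ℝ → ℕ)
    (hn : ∀ t ∈ Ioo 0 T0, t < b (n t)) (Ly : ℝ) (hLy : ∀ m, (F m).Ly = Ly)
    (h : ∀ m m', ∀ t, 0 < t → t < b m → t < b m' → E0_Eq (F m) (F m') t) :
    ∃ H : Flow 0 T0 Lx, H.Ly = Ly ∧ ∀ m, ∀ t ∈ Ioo 0 T0, t < b m → E0_Eq H (F m) t := by
  have hmem : ∀ t ∈ Ioo 0 T0, t ∈ Ioo 0 (b (n t)) := fun t ht => ⟨ht.1, hn t ht⟩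
  -- local equality
  have hloc : ∀ t0 ∈ Ioo 0 T0, ∀ᶠ t in 𝓝 t0, t ∈ Ioo 0 T0 ∧ t ∈ Ioo 0 (b (n t0)) := by
    intro t0 ht0
    filter_upwards [Ioo_mem_nhds ht0.1 ht0.2, Ioo_mem_nhds ht0.1 (hn t0 ht0)] with t h1 h2
    exact ⟨h1, h2⟩
  have heq : ∀ t0 ∈ Ioo 0 T0, ∀ᶠ t in 𝓝 t0, E0_Eq (F (n t)) (F (n t0)) t := by
    intro t0 ht0
    filter_upwards [hloc t0 ht0] with t ht
    exact h _ _ t ht.1.1 (hn t ht.1) ht.2.2
  -- continuity of one variable functions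
  have hc1 : ∀ (f : ∀ m, ℝ → ℝ), (∀ m, ContinuousOn (f m) (Ioo 0 (b m))) →
      (∀ t0 ∈ Ioo 0 T0, ∀ᶠ t in 𝓝 t0, f (n t) t = f (n t0) t) →
      ContinuousOn (fun t => f (n t) t) (Ioo 0 T0) := by
    intro f hf he t0 ht0
    have h1 : ContinuousAt (f (n t0)) t0 :=
      (hf (n t0)).continuousAt (Ioo_mem_nhds ht0.1 (hn t0 ht0))
    have h2 : ContinuousAt (fun t => f (n t) t) t0 := h1.congr (by
      filter_upwards [he t0 ht0] with t ht
      exact ht.symm)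
    exact h2.continuousWithinAt
  -- continuity of two variable functions
  have hc2 : ∀ (f : ∀ m, ℝ → ℝ → ℝ),
      (∀ m, ContinuousOn (fun p : ℝ × ℝ => f m p.1 p.2) (Ioo 0 (b m) ×ˢ Icc 0 1)) →
      (∀ t0 ∈ Ioo 0 T0, ∀ᶠ t in 𝓝 t0, ∀ σ ∈ Icc (0:ℝ) 1, f (n t) t σ = f (n t0) t σ) →
      ContinuousOn (fun p : ℝ × ℝ => f (n p.1) p.1 p.2) (Ioo 0 T0 ×ˢ Icc 0 1) := by
    intro f hf he p0 hp0
    have ht0 : p0.1 ∈ Ioo 0 T0 := hp0.1
    have h1 := hf (n p0.1) p0 ⟨hmem _ ht0, hp0.2⟩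
    have hev : ∀ᶠ p in 𝓝[Ioo 0 T0 ×ˢ Icc 0 1] p0, p.1 ∈ Ioo 0 (b (n p0.1)) ∧
        (∀ σ ∈ Icc (0:ℝ) 1, f (n p.1) p.1 σ = f (n p0.1) p.1 σ) ∧ p.2 ∈ Icc (0:ℝ) 1 := by
      have e1 : ∀ᶠ p in 𝓝 p0, p.1 ∈ Ioo 0 (b (n p0.1)) :=
        continuous_fst.continuousAt.eventually (Ioo_mem_nhds ht0.1 (hn _ ht0))
      have e2 : ∀ᶠ p in 𝓝 p0, ∀ σ ∈ Icc (0:ℝ) 1, f (n p.1) p.1 σ = f (n p0.1) p.1 σ :=
        continuous_fst.continuousAt.eventually (he _ ht0)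
      filter_upwards [nhdsWithin_le_nhds e1, nhdsWithin_le_nhds e2, self_mem_nhdsWithin]
        with p q1 q2 q3
      exact ⟨q1, q2, q3.2⟩
    have h2 : ContinuousWithinAt (fun p : ℝ × ℝ => f (n p0.1) p.1 p.2)
        (Ioo 0 T0 ×ˢ Icc 0 1) p0 := by
      apply h1.mono_of_mem_nhdsWithin
      filter_upwards [hev] with p hp
      exact ⟨hp.1, hp.2.2⟩
    refine h2.congr_of_eventuallyEq ?_ rfl
    filter_upwards [hev] with p hp
    exact hp.2.1 _ hp.2.2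
  -- derivatives in time
  have hd : ∀ (f : ∀ m, ℝ → ℝ) (f' : ℝ) (t0 : ℝ), HasDerivAt (f (n t0)) f' t0 →
      (∀ᶠ t in 𝓝 t0, f (n t) t = f (n t0) t) → HasDerivAt (fun t => f (n t) t) f' t0 := by
    intro f f' t0 h1 h2
    exact h1.congr_of_eventuallyEq h2
  have eell : ∀ i, ∀ t0 ∈ Ioo 0 T0, ∀ᶠ t in 𝓝 t0, (F (n t)).ell i t = (F (n t0)).ell i t := by
    intro i t0 ht0
    filter_upwards [heq t0 ht0] with t ht
    exact (ht i).1
  have edell : ∀ i, ∀ t0 ∈ Ioo 0 T0, ∀ᶠ t in 𝓝 t0,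
      (F (n t)).dell i t = (F (n t0)).dell i t := by
    intro i t0 ht0
    filter_upwards [heq t0 ht0] with t ht
    exact (ht i).2.1
  have eth : ∀ i, ∀ t0 ∈ Ioo 0 T0, ∀ᶠ t in 𝓝 t0, ∀ σ ∈ Icc (0:ℝ) 1,
      (F (n t)).th i t σ = (F (n t0)).th i t σ := by
    intro i t0 ht0
    filter_upwards [heq t0 ht0] with t ht
    exact fun σ hσ => ((ht i).2.2 σ hσ).1
  have ek : ∀ i, ∀ t0 ∈ Ioo 0 T0, ∀ᶠ t in 𝓝 t0, ∀ σ ∈ Icc (0:ℝ) 1,
      (F (n t)).k i t σ = (F (n t0)).k i t σ := by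
    intro i t0 ht0
    filter_upwards [heq t0 ht0] with t ht
    exact fun σ hσ => ((ht i).2.2 σ hσ).2.1
  have eks : ∀ i, ∀ t0 ∈ Ioo 0 T0, ∀ᶠ t in 𝓝 t0, ∀ σ ∈ Icc (0:ℝ) 1,
      (F (n t)).ks i t σ = (F (n t0)).ks i t σ := by
    intro i t0 ht0
    filter_upwards [heq t0 ht0] with t ht
    exact fun σ hσ => ((ht i).2.2 σ hσ).2.2.1
  have ekss : ∀ i, ∀ t0 ∈ Ioo 0 T0, ∀ᶠ t in 𝓝 t0, ∀ σ ∈ Icc (0:ℝ) 1,
      (F (n t)).kss i t σ = (F (n t0)).kss i t σ := by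
    intro i t0 ht0
    filter_upwards [heq t0 ht0] with t ht
    exact fun σ hσ => ((ht i).2.2 σ hσ).2.2.2.1
  have emu : ∀ i, ∀ t0 ∈ Ioo 0 T0, ∀ᶠ t in 𝓝 t0, ∀ σ ∈ Icc (0:ℝ) 1,
      (F (n t)).mu i t σ = (F (n t0)).mu i t σ := by
    intro i t0 ht0
    filter_upwards [heq t0 ht0] with t ht
    exact fun σ hσ => ((ht i).2.2 σ hσ).2.2.2.2.1
  have eX : ∀ i, ∀ t0 ∈ Ioo 0 T0, ∀ᶠ t in 𝓝 t0, ∀ σ ∈ Icc (0:ℝ) 1,
      (F (n t)).X i t σ = (F (n t0)).X i t σ := by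
    intro i t0 ht0
    filter_upwards [heq t0 ht0] with t ht
    exact fun σ hσ => ((ht i).2.2 σ hσ).2.2.2.2.2.1
  have eY : ∀ i, ∀ t0 ∈ Ioo 0 T0, ∀ᶠ t in 𝓝 t0, ∀ σ ∈ Icc (0:ℝ) 1,
      (F (n t)).Y i t σ = (F (n t0)).Y i t σ := by
    intro i t0 ht0
    filter_upwards [heq t0 ht0] with t ht
    exact fun σ hσ => ((ht i).2.2 σ hσ).2.2.2.2.2.2
  refine ⟨{
    ell := fun i t => (F (n t)).ell i t
    dell := fun i t => (F (n t)).dell i t
    th := fun i t => (F (n t)).th i t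
    k := fun i t => (F (n t)).k i t
    ks := fun i t => (F (n t)).ks i t
    kss := fun i t => (F (n t)).kss i t
    mu := fun i t => (F (n t)).mu i t
    X := fun i t => (F (n t)).X i t
    Y := fun i t => (F (n t)).Y i t
    Ly := Ly
    ell_pos := fun i t ht => (F (n t)).ell_pos i t (hmem t ht)
    ell_t := fun i t ht => hd (fun m => (F m).ell i) _ t ((F (n t)).ell_t i t (hmem t ht))
      (eell i t ht)
    dell_cont := fun i => hc1 (fun m => (F m).dell i) (fun m => (F m).dell_cont i) (edell i)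
    th_cont := fun i => hc2 (fun m => (F m).th i) (fun m => (F m).th_cont i) (eth i)
    k_cont := fun i => hc2 (fun m => (F m).k i) (fun m => (F m).k_cont i) (ek i)
    ks_cont := fun i => hc2 (fun m => (F m).ks i) (fun m => (F m).ks_cont i) (eks i)
    kss_cont := fun i => hc2 (fun m => (F m).kss i) (fun m => (F m).kss_cont i) (ekss i)
    mu_cont := fun i => hc2 (fun m => (F m).mu i) (fun m => (F m).mu_cont i) (emu i)
    X_cont := fun i => hc2 (fun m => (F m).X i) (fun m => (F m).X_cont i) (eX i)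
    Y_cont := fun i => hc2 (fun m => (F m).Y i) (fun m => (F m).Y_cont i) (eY i)
    th_s := fun i t ht => (F (n t)).th_s i t (hmem t ht)
    k_s := fun i t ht => (F (n t)).k_s i t (hmem t ht)
    ks_s := fun i t ht => (F (n t)).ks_s i t (hmem t ht)
    X_s := fun i t ht => (F (n t)).X_s i t (hmem t ht)
    Y_s := fun i t ht => (F (n t)).Y_s i t (hmem t ht)
    mu_s := fun i t ht => (F (n t)).mu_s i t (hmem t ht)
    th_t := fun i t ht σ hσ => hd (fun m t => (F m).th i t σ) _ t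
      ((F (n t)).th_t i t (hmem t ht) σ hσ) ((eth i t ht).mono fun s hs => hs σ hσ)
    k_t := fun i t ht σ hσ => hd (fun m t => (F m).k i t σ) _ t
      ((F (n t)).k_t i t (hmem t ht) σ hσ) ((ek i t ht).mono fun s hs => hs σ hσ)
    X_t := fun i t ht σ hσ => hd (fun m t => (F m).X i t σ) _ t
      ((F (n t)).X_t i t (hmem t ht) σ hσ) ((eX i t ht).mono fun s hs => hs σ hσ)
    Y_t := fun i t ht σ hσ => hd (fun m t => (F m).Y i t σ) _ t
      ((F (n t)).Y_t i t (hmem t ht) σ hσ) ((eY i t ht).mono fun s hs => hs σ hσ)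
    th_J := fun i t ht => (F (n t)).th_J i t (hmem t ht)
    X_J := fun i t ht => (F (n t)).X_J i t (hmem t ht)
    Y_J := fun i t ht => (F (n t)).Y_J i t (hmem t ht)
    th_axis0 := fun t ht => (F (n t)).th_axis0 t (hmem t ht)
    th_axis1 := fun t ht => (F (n t)).th_axis1 t (hmem t ht)
    X_axis0 := fun t ht => (F (n t)).X_axis0 t (hmem t ht)
    X_axis1 := fun t ht => (F (n t)).X_axis1 t (hmem t ht)
    mu_end := fun i t ht => (F (n t)).mu_end i t (hmem t ht)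
    X_far := fun t ht => (F (n t)).X_far t (hmem t ht)
    Y_far := fun t ht => by rw [(F (n t)).Y_far t (hmem t ht), hLy]
    k_far := fun t ht => (F (n t)).k_far t (hmem t ht) }, rfl, ?_⟩
  intro m t ht htm
  exact h (n t) m t ht.1 (hn t ht) htm

private theorem E0_eq_of_agree {a b a' b' Lx : ℝ} (F : Flow a b Lx) (G : Flow a' b' Lx)
    (hLy : F.Ly = G.Ly) {c d : ℝ}
    (h1 : a ≤ c) (h2 : a' ≤ c) (h3 : d ≤ b) (h4 : d ≤ b')
    (h : ∀ t ∈ Ioo c d, F.Agree G t) : ∀ t ∈ Ioo c d, E0_Eq F G t := by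
  intro t ht i
  obtain ⟨q1, q2⟩ := agree_derived F G hLy h1 h2 h3 h4 h t ht i
  refine ⟨(h t ht i).1, q1, fun σ hσ => ?_⟩
  obtain ⟨p1, p2, p3, p4, p5, p6⟩ := q2 σ hσ
  exact ⟨(h t ht i).2 σ hσ, p1, p2, p3, p4, p5, p6⟩

private theorem E0_agree_symm {a b a' b' Lx : ℝ} {F : Flow a b Lx} {G : Flow a' b' Lx} {t : ℝ}
    (h : F.Agree G t) : G.Agree F t := fun i => ⟨(h i).1.symm, fun σ hσ => ((h i).2 σ hσ).symm⟩

private theorem E0_agree_trans {a b a' b' a'' b'' Lx : ℝ} {F : Flow a b Lx} {G : Flow a' b' Lx}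
    {H : Flow a'' b'' Lx} {t : ℝ} (h : F.Agree G t) (h' : G.Agree H t) : F.Agree H t :=
  fun i => ⟨(h i).1.trans (h' i).1, fun σ hσ => ((h i).2 σ hσ).trans ((h' i).2 σ hσ)⟩

/-- two flows on `(0,b)`, `(0,b')` that agree at arbitrarily small times agree -/
private theorem E0_agree {b b' Lx : ℝ} (F : Flow 0 b Lx) (G : Flow 0 b' Lx)
    (h : ∀ ε > 0, ∃ t1 ∈ Ioo 0 ε, F.Agree G t1) : ∀ t, 0 < t → t < b → t < b' → F.Agree G t := by
  intro t ht htb htb'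
  obtain ⟨t1, ht1, hA⟩ := h t ht
  have hm : t < min b b' := lt_min htb htb'
  exact agree_forward (F.restrict le_rfl (min_le_left b b')) (G.restrict le_rfl (min_le_right b b'))
    (t1 := t1) ⟨ht1.1, ht1.2.trans hm⟩ hA t ⟨ht1.2.le, hm⟩

/-- E : existence of the flow, with continuation criterion -/
theorem exists_flow {Lx : ℝ} (I : Init Lx) {T : ℝ} (hT : 0 < T) :
    ∃ T0 ∈ Ioc 0 T, ∃ F : Flow 0 T0 Lx, StartsAt F I ∧
      (T0 = T ∨ ∀ M : ℝ, ∃ t ∈ Ioo (T0 / 2) T0, M < F.size t) := by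
  obtain ⟨τ, hτ, hloc⟩ := exists_local Lx I.size
  obtain ⟨G0, hG0, _⟩ := hloc I le_rfl
  set S : Set ℝ := {b | 0 < b ∧ b ≤ T ∧ ∃ F : Flow 0 b Lx, F.Ly = G0.Ly ∧
    ∀ t ∈ Ioo 0 (min τ b), F.Agree G0 t} with hS
  have hne : S.Nonempty := by
    refine ⟨min τ T, lt_min hτ hT, min_le_right _ _, G0.restrict le_rfl (min_le_left _ _), rfl, ?_⟩
    intro t _ i
    exact ⟨rfl, fun σ _ => rfl⟩
  have hbdd : BddAbove S := ⟨T, fun b hb => hb.2.1⟩
  obtain ⟨u, _, hu2, hu3⟩ := exists_seq_tendsto_sSup hne hbdd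
  set T0 := sSup S with hT0
  have hle : ∀ b ∈ S, b ≤ T0 := fun b hb => le_csSup hbdd hb
  have hT0pos : 0 < T0 := lt_of_lt_of_le (hu3 0).1 (hle _ (hu3 0))
  have hT0T : T0 ≤ T := csSup_le hne fun b hb => hb.2.1
  choose hu0 huT Fl hFly hFlA using hu3
  have hex : ∀ t, ∃ m, t ∈ Ioo 0 T0 → t < u m := by
    intro t
    by_cases ht : t ∈ Ioo 0 T0
    · obtain ⟨m, hm⟩ := (hu2.eventually (lt_mem_nhds ht.2)).exists
      exact ⟨m, fun _ => hm⟩
    · exact ⟨0, fun h => absurd h ht⟩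
  choose n hn using hex
  -- a flow agreeing with G0 near 0
  have hpair : ∀ m m', ∀ t, 0 < t → t < u m → t < u m' → (Fl m).Agree (Fl m') t := by
    intro m m'
    apply E0_agree
    intro ε hε
    set s := min (min ε τ) (min (u m) (u m')) / 2 with hs
    have hpos : 0 < min (min ε τ) (min (u m) (u m')) :=
      lt_min (lt_min hε hτ) (lt_min (hu0 m) (hu0 m'))
    have hs0 : 0 < s := by positivity
    have hs1 : s < min (min ε τ) (min (u m) (u m')) := by rw [hs]; linarith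
    obtain ⟨hs2, hs3⟩ := lt_min_iff.1 hs1
    obtain ⟨hs4, hs5⟩ := lt_min_iff.1 hs2
    obtain ⟨hs6, hs7⟩ := lt_min_iff.1 hs3
    exact ⟨s, ⟨hs0, hs4⟩, E0_agree_trans (hFlA m s ⟨hs0, lt_min hs5 hs6⟩)
      (E0_agree_symm (hFlA m' s ⟨hs0, lt_min hs5 hs7⟩))⟩
  have hpairE : ∀ m m', ∀ t, 0 < t → t < u m → t < u m' → E0_Eq (Fl m) (Fl m') t := by
    intro m m' t ht h1 h2
    exact E0_eq_of_agree (Fl m) (Fl m') ((hFly m).trans (hFly m').symm) (c := 0)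
      (d := min (u m) (u m')) le_rfl le_rfl (min_le_left _ _) (min_le_right _ _)
      (fun s hs => hpair m m' s hs.1 (lt_min_iff.1 hs.2).1 (lt_min_iff.1 hs.2).2) t
      ⟨ht, lt_min h1 h2⟩
  obtain ⟨H, hHLy, hH⟩ := E0_union u Fl n hn G0.Ly hFly hpairE
  have hHA : ∀ t ∈ Ioo 0 (min τ T0), H.Agree G0 t := by
    intro t ht
    obtain ⟨h1, h2⟩ := lt_min_iff.1 ht.2
    have h3 := hH (n t) t ⟨ht.1, h2⟩ (hn t ⟨ht.1, h2⟩)
    have h4 : H.Agree (Fl (n t)) t := fun i => ⟨(h3 i).1, fun σ hσ => ((h3 i).2.2 σ hσ).1⟩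
    exact E0_agree_trans h4 (hFlA (n t) t ⟨ht.1, lt_min h1 (hn t ⟨ht.1, h2⟩)⟩)
  have hHE : ∀ t ∈ Ioo 0 (min τ T0), E0_Eq H G0 t :=
    E0_eq_of_agree H G0 hHLy le_rfl le_rfl (min_le_right _ _) (min_le_left _ _) hHA
  have hmpos : 0 < min τ T0 := lt_min hτ hT0pos
  have hev : ∀ᶠ t in 𝓝[>] (0:ℝ), E0_Eq H G0 t := by
    filter_upwards [Ioo_mem_nhdsGT hmpos] with t ht
    exact hHE t ht
  have hstart : StartsAt H I := by
    constructor
    · intro i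
      refine (hG0.ell i).congr' ?_
      filter_upwards [hev] with t ht
      exact ((ht i).1).symm
    · intro i ε hε
      filter_upwards [hev, hG0.th i ε hε] with t ht h2 σ hσ
      rw [((ht i).2.2 σ hσ).1]
      exact h2 σ hσ
    · intro i ε hε
      filter_upwards [hev, hG0.X i ε hε] with t ht h2 σ hσ
      rw [((ht i).2.2 σ hσ).2.2.2.2.2.1]
      exact h2 σ hσ
    · intro i ε hε
      filter_upwards [hev, hG0.Y i ε hε] with t ht h2 σ hσ
      rw [((ht i).2.2 σ hσ).2.2.2.2.2.2]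
      exact h2 σ hσ
    · intro i
      refine (hG0.k i).congr' ?_
      filter_upwards [hev] with t ht
      apply intervalIntegral.integral_congr
      intro σ hσ
      rw [uIcc_of_le zero_le_one] at hσ
      simp only
      rw [((ht i).2.2 σ hσ).2.1]
  refine ⟨T0, ⟨hT0pos, hT0T⟩, H, hstart, ?_⟩
  by_contra hcon
  push Not at hcon
  obtain ⟨hne', M, hM⟩ := hcon
  have hlt : T0 < T := lt_of_le_of_ne hT0T hne'
  obtain ⟨b', hb', G, hG⟩ := extend H hT0pos (M := M) (by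
    intro t ht
    exact hM t ⟨by have := ht.1; linarith, ht.2⟩)
  -- the restriction of the continued flow is in `S`
  have hmem : min b' T ∈ S := by
    refine ⟨lt_min (hT0pos.trans hb') hT, min_le_right _ _,
      (E0_vshift G (G0.Ly - G.Ly)).restrict le_rfl (min_le_left _ _), ?_, ?_⟩
    · change G.Ly + (G0.Ly - G.Ly) = G0.Ly
      ring
    · intro t ht
      obtain ⟨h1, h2⟩ := lt_min_iff.1 ht.2
      have hA : G.Agree G0 t := by
        apply E0_agree G G0 _ t ht.1 (h2.trans_le (min_le_left _ _)) h1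
        intro ε hε
        set s := min ε (min τ T0) / 2 with hs
        have hpos : 0 < min ε (min τ T0) := lt_min hε hmpos
        have hs0 : 0 < s := by positivity
        have hs1 : s < min ε (min τ T0) := by rw [hs]; linarith
        obtain ⟨hs2, hs3⟩ := lt_min_iff.1 hs1
        exact ⟨s, ⟨hs0, hs2⟩, E0_agree_trans (hG s ⟨hs0, hs3.trans_le (min_le_right _ _)⟩)
          (hHA s ⟨hs0, hs3⟩)⟩
      exact hA
  have h1 := hle _ hmem
  have h2 : T0 < min b' T := lt_min hb' hlt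
  linarith

end Pool.Agent.Helper15.NF
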