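import Mathlib

/-!
E-part, abstract level: functions of time `t ∈ [0,1]` with values in Banach spaces.
-/

open MeasureTheory Set
open scoped unitInterval

namespace Pool.Agent.Helper15.NF

noncomputable section

/-- square integrable functions on the unit interval -/
abbrev LI (E : Type*) [NormedAddCommGroup E] := Lp E 2 (volume : Measure unitInterval)
/-- continuous functions on the unit interval -/
abbrev CI (E : Type*) [TopologicalSpace E] := C(unitInterval, E)

variable {E F G : Type*} [NormedAddCommGroup E] [NormedSpace ℝ E] [NormedAddCommGroup F]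
  [NormedSpace ℝ F] [NormedAddCommGroup G] [NormedSpace ℝ G]

/-- inclusion of continuous functions in `L²` -/
def toL (E : Type*) [NormedAddCommGroup E] [NormedSpace ℝ E] : CI E →L[ℝ] LI E :=
  ContinuousMap.toLp 2 volume ℝ

theorem toL_coe (u : CI E) : (toL E u : unitInterval → E) =ᵐ[volume] u :=
  ContinuousMap.coeFn_toLp _ _

theorem toL_norm_le (u : CI E) : ‖toL E u‖ ≤ ‖u‖ := by
  have h1 : ‖toL E‖ ≤ 1 := by
    have h := ContinuousMap.toLp_norm_le (E := E) (p := 2) (𝕜 := ℝ) (volume : Measure unitInterval)
    have h3 : measureUnivNNReal (volume : Measure unitInterval) = 1 := by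
      simp [measureUnivNNReal]
    rw [h3] at h
    unfold toL
    simpa using h
  calc ‖toL E u‖ ≤ ‖toL E‖ * ‖u‖ := (toL E).le_opNorm u
    _ ≤ 1 * ‖u‖ := mul_le_mul_of_nonneg_right h1 (norm_nonneg u)
    _ = ‖u‖ := one_mul _

theorem ea0_openPos : (volume : Measure unitInterval).IsOpenPosMeasure := by
  refine ⟨fun U hU hne => ?_⟩
  obtain ⟨x, hx⟩ := hne
  have hn : U ∈ nhds x := hU.mem_nhds hx
  rcases lt_or_eq_of_le x.2.2 with h | h
  · obtain ⟨l, hl, hs⟩ := exists_Ico_subset_of_mem_nhds hn ⟨1, (show x < 1 from h)⟩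
    have hpos : 0 < volume (Ico x l) := by
      rw [unitInterval.volume_Ico]
      exact ENNReal.ofReal_pos.2 (sub_pos.2 (show (x : ℝ) < l from hl))
    exact (lt_of_lt_of_le hpos (measure_mono hs)).ne'
  · have hx0 : (0 : unitInterval) < x := by
      show (0 : ℝ) < x
      rw [h]
      exact one_pos
    obtain ⟨l, hl, hs⟩ := exists_Ioc_subset_of_mem_nhds hn ⟨0, hx0⟩
    have hpos : 0 < volume (Ioc l x) := by
      rw [unitInterval.volume_Ioc]
      exact ENNReal.ofReal_pos.2 (sub_pos.2 (show (l : ℝ) < x from hl))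
    exact (lt_of_lt_of_le hpos (measure_mono hs)).ne'

theorem toL_injective : Function.Injective (toL E) := by
  have := ea0_openPos
  exact ContinuousMap.toLp_injective (volume : Measure unitInterval)

/-- constant functions -/
def cst (E : Type*) [NormedAddCommGroup E] [NormedSpace ℝ E] : E →L[ℝ] CI E :=
  LinearMap.mkContinuous
    { toFun := fun e => ContinuousMap.const _ e, map_add' := fun _ _ => rfl,
      map_smul' := fun _ _ => rfl } 1 (by
        intro e
        rw [one_mul]
        exact (ContinuousMap.norm_le _ (norm_nonneg e)).2 (fun _ => le_rfl))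

@[simp] theorem cst_apply (e : E) (t : unitInterval) : cst E e t = e := rfl

omit [NormedSpace ℝ E] in
theorem ea0_integrable (u : LI E) : Integrable (u : unitInterval → E) volume :=
  (Lp.memLp u).integrable (by norm_num)

omit [NormedSpace ℝ E] in
theorem ea0_integral_norm_le (u : LI E) : ∫ s, ‖u s‖ ≤ ‖u‖ := by
  have h1 : eLpNorm (u : unitInterval → E) 1 volume ≤ eLpNorm (u : unitInterval → E) 2 volume :=
    eLpNorm_le_eLpNorm_of_exponent_le (by norm_num) (Lp.memLp u).1
  have h2 : ∫ s, ‖u s‖ = (eLpNorm (u : unitInterval → E) 1 volume).toReal := by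
    rw [eLpNorm_one_eq_lintegral_enorm]
    exact integral_norm_eq_lintegral_enorm (Lp.memLp u).1
  rw [h2, Lp.norm_def]
  exact ENNReal.toReal_mono (Lp.memLp u).2.ne h1

theorem ea0_prim_cont (u : LI E) : Continuous fun t : unitInterval => ∫ s in Set.Iic t, u s := by
  have h0 : (fun t : unitInterval => ∫ s in Set.Iic t, u s) =
      fun t => ∫ s, (Set.Iic t).indicator (u : unitInterval → E) s := by
    funext t
    rw [integral_indicator measurableSet_Iic]
  rw [h0, continuous_iff_continuousAt]
  intro t0
  apply continuousAt_of_dominated (bound := fun s => ‖u s‖)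
  · exact Filter.Eventually.of_forall fun t =>
      ((Lp.memLp u).1).indicator measurableSet_Iic
  · exact Filter.Eventually.of_forall fun t => Filter.Eventually.of_forall fun s =>
      norm_indicator_le_norm_self _ _
  · exact (ea0_integrable u).norm
  · have hne : ∀ᵐ s : unitInterval, s ≠ t0 := by
      have := measure_singleton (μ := (volume : Measure unitInterval)) t0
      rw [ae_iff]
      simp
    filter_upwards [hne] with s hs
    rcases lt_or_gt_of_ne hs with h | h
    · have : (fun t : unitInterval => (Set.Iic t).indicator (u : unitInterval → E) s) =ᶠ[nhds t0]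
          fun _ => u s := by
        filter_upwards [lt_mem_nhds h] with t ht
        exact Set.indicator_of_mem (Set.mem_Iic.2 ht.le) _
      exact continuousAt_const.congr this.symm
    · have : (fun t : unitInterval => (Set.Iic t).indicator (u : unitInterval → E) s) =ᶠ[nhds t0]
          fun _ => 0 := by
        filter_upwards [gt_mem_nhds h] with t ht
        exact Set.indicator_of_notMem (fun hh => absurd (Set.mem_Iic.1 hh) (not_le.2 ht)) _
      exact continuousAt_const.congr this.symm

theorem ea0_prim_norm (u : LI E) (t : unitInterval) : ‖∫ s in Set.Iic t, u s‖ ≤ ‖u‖ := by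
  calc ‖∫ s in Set.Iic t, u s‖ ≤ ∫ s in Set.Iic t, ‖u s‖ := norm_integral_le_integral_norm _
    _ ≤ ∫ s, ‖u s‖ := setIntegral_le_integral (ea0_integrable u).norm
        (Filter.Eventually.of_forall fun _ => norm_nonneg _)
    _ ≤ ‖u‖ := ea0_integral_norm_le u

/-- time integration -/
theorem exists_intC (E : Type*) [NormedAddCommGroup E] [NormedSpace ℝ E] [CompleteSpace E] :
    ∃ J : LI E →L[ℝ] CI E, (∀ u t, J u t = ∫ s in Set.Iic t, u s) ∧ ∀ u, ‖J u‖ ≤ ‖u‖ := by
  have hb : ∀ u : LI E, ‖(⟨fun t : unitInterval => ∫ s in Set.Iic t, u s, ea0_prim_cont u⟩ :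
      CI E)‖ ≤ 1 * ‖u‖ := by
    intro u
    rw [one_mul]
    exact (ContinuousMap.norm_le _ (norm_nonneg u)).2 (fun t => ea0_prim_norm u t)
  refine ⟨LinearMap.mkContinuous
    { toFun := fun u => ⟨fun t : unitInterval => ∫ s in Set.Iic t, u s, ea0_prim_cont u⟩
      map_add' := ?_
      map_smul' := ?_ } 1 hb, fun u t => rfl, ?_⟩
  · intro u v
    ext t
    show ∫ s in Set.Iic t, (u + v : LI E) s = (∫ s in Set.Iic t, u s) + ∫ s in Set.Iic t, v s
    rw [← integral_add (ea0_integrable u).integrableOn (ea0_integrable v).integrableOn]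
    apply integral_congr_ae
    exact ae_restrict_of_ae (Lp.coeFn_add u v)
  · intro c u
    ext t
    show ∫ s in Set.Iic t, (c • u : LI E) s = c • ∫ s in Set.Iic t, u s
    rw [← integral_smul]
    apply integral_congr_ae
    exact ae_restrict_of_ae (Lp.coeFn_smul c u)
  · intro u
    have := hb u
    rw [one_mul] at this
    exact this

def intC (E : Type*) [NormedAddCommGroup E] [NormedSpace ℝ E] [CompleteSpace E] :
    LI E →L[ℝ] CI E := (exists_intC E).choose

theorem intC_apply [CompleteSpace E] (u : LI E) (t : unitInterval) :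
    intC E u t = ∫ s in Set.Iic t, u s := (exists_intC E).choose_spec.1 u t

theorem intC_norm_le [CompleteSpace E] (u : LI E) : ‖intC E u‖ ≤ ‖u‖ :=
  (exists_intC E).choose_spec.2 u

def intL (E : Type*) [NormedAddCommGroup E] [NormedSpace ℝ E] [CompleteSpace E] :
    LI E →L[ℝ] LI E := (toL E).comp (intC E)

/-- pointwise application of a bounded operator -/
def mapL (A : E →L[ℝ] F) : LI E →L[ℝ] LI F := A.compLpL 2 volume

theorem mapL_coe (A : E →L[ℝ] F) (u : LI E) :
    (mapL A u : unitInterval → F) =ᵐ[volume] fun t => A (u t) := A.coeFn_compLpL u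

theorem mapL_norm_le (A : E →L[ℝ] F) (u : LI E) : ‖mapL A u‖ ≤ ‖A‖ * ‖u‖ :=
  A.norm_compLp_le u

theorem exists_mapC (A : E →L[ℝ] F) : ∃ B : CI E →L[ℝ] CI F, (∀ u t, B u t = A (u t)) ∧
    ∀ u, ‖B u‖ ≤ ‖A‖ * ‖u‖ := by
  have hb : ∀ u : CI E, ‖(⟨fun t => A (u t), A.continuous.comp u.continuous⟩ : CI F)‖ ≤
      ‖A‖ * ‖u‖ := by
    intro u
    refine (ContinuousMap.norm_le _ (by positivity)).2 (fun t => ?_)
    exact (A.le_opNorm (u t)).trans
      (mul_le_mul_of_nonneg_left (u.norm_coe_le_norm t) (norm_nonneg A))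
  refine ⟨LinearMap.mkContinuous
    { toFun := fun u => ⟨fun t => A (u t), A.continuous.comp u.continuous⟩
      map_add' := ?_
      map_smul' := ?_ } ‖A‖ hb, fun u t => rfl, hb⟩
  · intro u v
    ext t
    exact A.map_add _ _
  · intro c u
    ext t
    exact A.map_smul _ _

def mapC (A : E →L[ℝ] F) : CI E →L[ℝ] CI F := (exists_mapC A).choose

@[simp] theorem mapC_apply (A : E →L[ℝ] F) (u : CI E) (t : unitInterval) : mapC A u t = A (u t) :=
  (exists_mapC A).choose_spec.1 u t

theorem mapC_norm_le (A : E →L[ℝ] F) (u : CI E) : ‖mapC A u‖ ≤ ‖A‖ * ‖u‖ :=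
  (exists_mapC A).choose_spec.2 u

theorem mapL_toL (A : E →L[ℝ] F) (u : CI E) : mapL A (toL E u) = toL F (mapC A u) := by
  apply Lp.ext
  filter_upwards [mapL_coe A (toL E u), toL_coe u, toL_coe (mapC A u)] with t h1 h2 h3
  rw [h1, h2, h3, mapC_apply]

theorem mapC_intC [CompleteSpace E] [CompleteSpace F] (A : E →L[ℝ] F) (u : LI E) :
    mapC A (intC E u) = intC F (mapL A u) := by
  ext t
  rw [mapC_apply, intC_apply, intC_apply, ← A.integral_comp_comm (ea0_integrable u).integrableOn]
  apply integral_congr_ae
  exact ae_restrict_of_ae ((mapL_coe A u).symm)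

/-- extensionality: equal integrals imply equality -/
theorem LI_ext_int [CompleteSpace E] {u v : LI E} (h : intC E u = intC E v) : u = v := by
  have hiic : ∀ t : unitInterval, ∫ s in Set.Iic t, u s = ∫ s in Set.Iic t, v s := by
    intro t
    rw [← intC_apply, ← intC_apply, h]
  have huniv : ∫ s, u s = ∫ s, v s := by
    have h1 := hiic 1
    have h2 : Set.Iic (1 : unitInterval) = Set.univ := by
      ext x
      simp [unitInterval.le_one']
    rwa [h2, setIntegral_univ, setIntegral_univ] at h1
  have hu := ea0_integrable u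
  have hv := ea0_integrable v
  have key : ∀ A : Set unitInterval, MeasurableSet A → ∫ s in A, u s = ∫ s in A, v s := by
    intro A hA
    have hgen : (inferInstance : MeasurableSpace unitInterval) =
        MeasurableSpace.generateFrom (Set.range Set.Iic) := by
      rw [← borel_eq_generateFrom_Iic]
      exact BorelSpace.measurable_eq
    induction A, hA using MeasurableSpace.induction_on_inter hgen isPiSystem_Iic with
    | empty => simp
    | basic A hA =>
      obtain ⟨t, rfl⟩ := hA
      exact hiic t
    | compl A hA ih =>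
      have h1 := integral_add_compl hA hu
      have h2 := integral_add_compl hA hv
      have h3 : (∫ s in A, u s) + ∫ s in Aᶜ, u s = (∫ s in A, v s) + ∫ s in Aᶜ, v s := by
        rw [h1, h2, huniv]
      rw [ih] at h3
      exact add_left_cancel h3
    | iUnion f hd hf ih =>
      rw [integral_iUnion hf hd hu.integrableOn, integral_iUnion hf hd hv.integrableOn]
      exact tsum_congr ih
  apply Lp.ext
  exact Integrable.ae_eq_of_forall_setIntegral_eq _ _ hu hv (fun s hs _ => key s hs)

end

end Pool.Agent.Helper15.NF
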