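import Pool.Agent.Helper15.NF.EA0

open MeasureTheory Set
open scoped unitInterval

namespace Pool.Agent.Helper15.NF

noncomputable section

variable {E F G : Type*} [NormedAddCommGroup E] [NormedSpace ℝ E] [NormedAddCommGroup F]
  [NormedSpace ℝ F] [NormedAddCommGroup G] [NormedSpace ℝ G]

/-- bilinear lifts -/
theorem exists_bilC (B : E →L[ℝ] F →L[ℝ] G) : ∃ BC : CI E →L[ℝ] CI F →L[ℝ] CI G,
    (∀ u v t, BC u v t = B (u t) (v t)) ∧ ∀ u v, ‖BC u v‖ ≤ ‖B‖ * ‖u‖ * ‖v‖ := by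
  let f : CI E →ₗ[ℝ] CI F →ₗ[ℝ] CI G := LinearMap.mk₂ ℝ
    (fun u v => (⟨fun t => B (u t) (v t), by fun_prop⟩ : CI G))
    (fun u u' v => by ext t; simp)
    (fun c u v => by ext t; simp)
    (fun u v v' => by ext t; simp)
    (fun c u v => by ext t; simp)
  have hf : ∀ u v, ‖f u v‖ ≤ ‖B‖ * ‖u‖ * ‖v‖ := by
    intro u v
    refine (ContinuousMap.norm_le _ (by positivity)).2 (fun t => ?_)
    change ‖B (u t) (v t)‖ ≤ _
    refine (B.le_opNorm₂ (u t) (v t)).trans ?_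
    gcongr
    · exact u.norm_coe_le_norm t
    · exact v.norm_coe_le_norm t
  exact ⟨f.mkContinuous₂ ‖B‖ hf, fun u v t => rfl, hf⟩

theorem exists_bilL (B : E →L[ℝ] F →L[ℝ] G) : ∃ BL : CI E →L[ℝ] LI F →L[ℝ] LI G,
    (∀ u v, (BL u v : unitInterval → G) =ᵐ[volume] fun t => B (u t) (v t)) ∧
    ∀ u v, ‖BL u v‖ ≤ ‖B‖ * ‖u‖ * ‖v‖ := by
  have hae : ∀ (u : CI E) (v : LI F), AEStronglyMeasurable (fun t => B (u t) (v t))
      (volume : Measure unitInterval) := fun u v =>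
    B.aestronglyMeasurable_comp₂ u.continuous.aestronglyMeasurable (Lp.aestronglyMeasurable v)
  have hbd : ∀ (u : CI E) (v : LI F) (t : unitInterval),
      ‖B (u t) (v t)‖ ≤ (‖B‖ * ‖u‖) * ‖v t‖ := by
    intro u v t
    refine (B.le_opNorm₂ (u t) (v t)).trans ?_
    gcongr
    exact u.norm_coe_le_norm t
  have hm : ∀ (u : CI E) (v : LI F), MemLp (fun t => B (u t) (v t)) 2
      (volume : Measure unitInterval) := fun u v =>
    MemLp.of_le_mul (Lp.memLp v) (hae u v) (Filter.Eventually.of_forall (hbd u v))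
  let f : CI E →ₗ[ℝ] LI F →ₗ[ℝ] LI G := LinearMap.mk₂ ℝ
    (fun u v => (hm u v).toLp _)
    (fun u u' v => by
      refine Lp.ext ?_
      filter_upwards [(hm (u + u') v).coeFn_toLp, (hm u v).coeFn_toLp, (hm u' v).coeFn_toLp,
        Lp.coeFn_add ((hm u v).toLp _) ((hm u' v).toLp _)] with t h1 h2 h3 h4
      rw [h1, h4, Pi.add_apply, h2, h3]
      simp)
    (fun c u v => by
      refine Lp.ext ?_
      filter_upwards [(hm (c • u) v).coeFn_toLp, (hm u v).coeFn_toLp,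
        Lp.coeFn_smul c ((hm u v).toLp _)] with t h1 h2 h4
      rw [h1, h4, Pi.smul_apply, h2]
      simp)
    (fun u v v' => by
      refine Lp.ext ?_
      filter_upwards [(hm u (v + v')).coeFn_toLp, (hm u v).coeFn_toLp, (hm u v').coeFn_toLp,
        Lp.coeFn_add ((hm u v).toLp _) ((hm u v').toLp _), Lp.coeFn_add v v'] with t h1 h2 h3 h4 h5
      rw [h1, h4, Pi.add_apply, h2, h3, h5]
      simp)
    (fun c u v => by
      refine Lp.ext ?_
      filter_upwards [(hm u (c • v)).coeFn_toLp, (hm u v).coeFn_toLp,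
        Lp.coeFn_smul c ((hm u v).toLp _), Lp.coeFn_smul c v] with t h1 h2 h4 h5
      rw [h1, h4, Pi.smul_apply, h2, h5]
      simp)
  have hf : ∀ u v, ‖f u v‖ ≤ ‖B‖ * ‖u‖ * ‖v‖ := by
    intro u v
    refine Lp.norm_le_mul_norm_of_ae_le_mul ?_
    filter_upwards [(hm u v).coeFn_toLp] with t h1
    have : (f u v : unitInterval → G) t = B (u t) (v t) := h1
    rw [this]
    exact hbd u v t
  exact ⟨f.mkContinuous₂ ‖B‖ hf, fun u v => (hm u v).coeFn_toLp, hf⟩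

theorem exists_bilR (B : E →L[ℝ] F →L[ℝ] G) : ∃ BR : LI E →L[ℝ] CI F →L[ℝ] LI G,
    (∀ u v, (BR u v : unitInterval → G) =ᵐ[volume] fun t => B (u t) (v t)) ∧
    ∀ u v, ‖BR u v‖ ≤ ‖B‖ * ‖u‖ * ‖v‖ := by
  obtain ⟨BL, h1, h2⟩ := exists_bilL B.flip
  refine ⟨BL.flip, fun u v => ?_, fun u v => ?_⟩
  · filter_upwards [h1 v u] with t ht
    rw [ContinuousLinearMap.flip_apply, ht, ContinuousLinearMap.flip_apply]
  · rw [ContinuousLinearMap.flip_apply]
    refine (h2 v u).trans (le_of_eq ?_)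
    rw [ContinuousLinearMap.opNorm_flip]
    ring

def bilC (B : E →L[ℝ] F →L[ℝ] G) := (exists_bilC B).choose
def bilL (B : E →L[ℝ] F →L[ℝ] G) := (exists_bilL B).choose
def bilR (B : E →L[ℝ] F →L[ℝ] G) := (exists_bilR B).choose

@[simp] theorem bilC_apply (B : E →L[ℝ] F →L[ℝ] G) (u : CI E) (v : CI F) (t : unitInterval) :
    bilC B u v t = B (u t) (v t) := (exists_bilC B).choose_spec.1 u v t
theorem bilC_norm_le (B : E →L[ℝ] F →L[ℝ] G) (u : CI E) (v : CI F) :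
    ‖bilC B u v‖ ≤ ‖B‖ * ‖u‖ * ‖v‖ := (exists_bilC B).choose_spec.2 u v
theorem bilL_coe (B : E →L[ℝ] F →L[ℝ] G) (u : CI E) (v : LI F) :
    (bilL B u v : unitInterval → G) =ᵐ[volume] fun t => B (u t) (v t) :=
  (exists_bilL B).choose_spec.1 u v
theorem bilL_norm_le (B : E →L[ℝ] F →L[ℝ] G) (u : CI E) (v : LI F) :
    ‖bilL B u v‖ ≤ ‖B‖ * ‖u‖ * ‖v‖ := (exists_bilL B).choose_spec.2 u v
theorem bilR_coe (B : E →L[ℝ] F →L[ℝ] G) (u : LI E) (v : CI F) :
    (bilR B u v : unitInterval → G) =ᵐ[volume] fun t => B (u t) (v t) :=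
  (exists_bilR B).choose_spec.1 u v
theorem bilR_norm_le (B : E →L[ℝ] F →L[ℝ] G) (u : LI E) (v : CI F) :
    ‖bilR B u v‖ ≤ ‖B‖ * ‖u‖ * ‖v‖ := (exists_bilR B).choose_spec.2 u v

end

end Pool.Agent.Helper15.NF
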