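import Pool.Agent.Helper15.NF.EA0b

open MeasureTheory Set
open scoped unitInterval ENNReal Pointwise

namespace Pool.Agent.Helper15.NF

noncomputable section

variable {E F G : Type*} [NormedAddCommGroup E] [NormedSpace ℝ E] [NormedAddCommGroup F]
  [NormedSpace ℝ F] [NormedAddCommGroup G] [NormedSpace ℝ G]

/-- the scaling map -/
def sclMap (s : unitInterval) (t : unitInterval) : unitInterval := s * t

theorem measurable_sclMap (s : unitInterval) : Measurable (sclMap s) :=
  Continuous.measurable (by unfold sclMap; fun_prop)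

theorem map_sclMap (s : unitInterval) (hs : 0 < s) :
    (volume : Measure unitInterval).map (sclMap s) =
      ENNReal.ofReal ((s : ℝ)⁻¹) • (volume : Measure unitInterval).restrict (Iic s) := by
  have hs' : (0:ℝ) < s := hs
  ext A hA
  rw [Measure.map_apply (measurable_sclMap s) hA, Measure.smul_apply,
    Measure.restrict_apply hA, smul_eq_mul]
  have hcoe : ∀ B : Set unitInterval, MeasurableSet B →
      (volume : Measure unitInterval) B = (volume : Measure ℝ) (Subtype.val '' B) := by
    intro B hB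
    rw [Measure.Subtype.volume_def]
    exact comap_subtype_coe_apply measurableSet_Icc volume B
  rw [hcoe _ (measurable_sclMap s hA), hcoe _ (hA.inter measurableSet_Iic)]
  have himg : (s : ℝ) • (Subtype.val '' (sclMap s ⁻¹' A)) =
      (Subtype.val '' (A ∩ Iic s) : Set ℝ) := by
    ext x
    constructor
    · rintro ⟨y, ⟨t, ht, rfl⟩, rfl⟩
      refine ⟨sclMap s t, ⟨ht, ?_⟩, rfl⟩
      show s * t ≤ s
      exact unitInterval.mul_le_left
    · rintro ⟨y, ⟨hyA, hys⟩, rfl⟩
      have hys' : (y : ℝ) ≤ s := hys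
      have hmem : (y : ℝ) / s ∈ Icc (0:ℝ) 1 :=
        ⟨div_nonneg y.2.1 hs'.le, (div_le_one hs').2 hys'⟩
      have hval : (s : ℝ) * ((y : ℝ) / s) = y := by field_simp
      refine ⟨(y : ℝ) / s, ⟨⟨(y : ℝ) / s, hmem⟩, ?_, rfl⟩, ?_⟩
      · show sclMap s ⟨(y : ℝ) / s, hmem⟩ ∈ A
        have : sclMap s ⟨(y : ℝ) / s, hmem⟩ = y := by
          apply Subtype.ext
          show (s : ℝ) * ((y : ℝ) / s) = y
          exact hval
        rw [this]
        exact hyA
      · show (s : ℝ) * ((y : ℝ) / s) = y
        exact hval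
  have hvol := Measure.addHaar_smul (volume : Measure ℝ) (s : ℝ)
    (Subtype.val '' (sclMap s ⁻¹' A))
  rw [himg] at hvol
  rw [hvol, Module.finrank_self, pow_one, abs_of_pos hs', ← mul_assoc,
    ← ENNReal.ofReal_mul (inv_nonneg.2 hs'.le), inv_mul_cancel₀ hs'.ne', ENNReal.ofReal_one,
    one_mul]

theorem qmp_sclMap (s : unitInterval) (hs : 0 < s) :
    Measure.QuasiMeasurePreserving (sclMap s) volume volume := by
  refine ⟨measurable_sclMap s, ?_⟩
  rw [map_sclMap s hs]
  exact (Measure.absolutelyContinuous_of_le (Measure.restrict_le_self)).smul_left _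

theorem map_le (s : unitInterval) (hs : 0 < s) :
    (volume : Measure unitInterval).map (sclMap s) ≤
      ENNReal.ofReal ((s : ℝ)⁻¹) • (volume : Measure unitInterval) := by
  rw [map_sclMap s hs]
  gcongr
  exact Measure.restrict_le_self

theorem memLp_scl (s : unitInterval) (hs : 0 < s) {u : unitInterval → E}
    (hu : MemLp u 2 (volume : Measure unitInterval)) :
    MemLp (fun t => u (sclMap s t)) 2 (volume : Measure unitInterval) := by
  have h1 : MemLp u 2 ((volume : Measure unitInterval).map (sclMap s)) :=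
    hu.of_measure_le_smul ENNReal.ofReal_ne_top (map_le s hs)
  exact h1.comp_of_map (measurable_sclMap s).aemeasurable

theorem eLpNorm_scl (s : unitInterval) (hs : 0 < s) {u : unitInterval → E}
    (hu : MemLp u 2 (volume : Measure unitInterval)) :
    eLpNorm (fun t => u (sclMap s t)) 2 (volume : Measure unitInterval) ≤
      ENNReal.ofReal ((s : ℝ)⁻¹) ^ (1 / (2 : ℝ≥0∞)).toReal *
        eLpNorm u 2 (volume : Measure unitInterval) := by
  have h1 : MemLp u 2 ((volume : Measure unitInterval).map (sclMap s)) :=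
    hu.of_measure_le_smul ENNReal.ofReal_ne_top (map_le s hs)
  have h2 := eLpNorm_map_measure (p := 2) h1.1 (measurable_sclMap s).aemeasurable
  have h3 : eLpNorm (fun t => u (sclMap s t)) 2 (volume : Measure unitInterval) =
      eLpNorm u 2 ((volume : Measure unitInterval).map (sclMap s)) := h2.symm
  rw [h3]
  refine (eLpNorm_mono_measure u (map_le s hs)).trans ?_
  rw [eLpNorm_smul_measure_of_ne_top (by norm_num), smul_eq_mul]

/-- time scaling `u ↦ u (s ·)`, `0 < s ≤ 1` -/
theorem exists_sclL (E : Type*) [NormedAddCommGroup E] [NormedSpace ℝ E] (s : unitInterval)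
    (hs : 0 < s) : ∃ S : LI E →L[ℝ] LI E,
      ∀ u, (S u : unitInterval → E) =ᵐ[volume] fun t => u (s * t) := by
  have hq := qmp_sclMap s hs
  let S0 : LI E →ₗ[ℝ] LI E :=
    { toFun := fun u => (memLp_scl s hs (Lp.memLp u)).toLp _
      map_add' := by
        intro u v
        apply Lp.ext
        have h1 := (memLp_scl s hs (Lp.memLp (u + v))).coeFn_toLp
        have h2 := (memLp_scl s hs (Lp.memLp u)).coeFn_toLp
        have h3 := (memLp_scl s hs (Lp.memLp v)).coeFn_toLp
        have h4 := hq.ae (Lp.coeFn_add u v)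
        have h5 := Lp.coeFn_add ((memLp_scl s hs (Lp.memLp u)).toLp _)
          ((memLp_scl s hs (Lp.memLp v)).toLp _)
        filter_upwards [h1, h2, h3, h4, h5] with t g1 g2 g3 g4 g5
        rw [g1, g5, Pi.add_apply, g2, g3, g4, Pi.add_apply]
      map_smul' := by
        intro c u
        apply Lp.ext
        have h1 := (memLp_scl s hs (Lp.memLp (c • u))).coeFn_toLp
        have h2 := (memLp_scl s hs (Lp.memLp u)).coeFn_toLp
        have h4 := hq.ae (Lp.coeFn_smul c u)
        have h5 := Lp.coeFn_smul c ((memLp_scl s hs (Lp.memLp u)).toLp _)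
        filter_upwards [h1, h2, h4, h5] with t g1 g2 g4 g5
        rw [g1, RingHom.id_apply, g5, Pi.smul_apply, g2, g4, Pi.smul_apply] }
  have hC : ENNReal.ofReal ((s : ℝ)⁻¹) ^ (1 / (2 : ℝ≥0∞)).toReal ≠ ∞ :=
    ENNReal.rpow_ne_top_of_nonneg (by positivity) ENNReal.ofReal_ne_top
  refine ⟨S0.mkContinuous (ENNReal.ofReal ((s : ℝ)⁻¹) ^ (1 / (2 : ℝ≥0∞)).toReal).toReal ?_, ?_⟩
  · intro u
    have h := eLpNorm_scl s hs (Lp.memLp u)
    show ‖(memLp_scl s hs (Lp.memLp u)).toLp _‖ ≤ _
    rw [Lp.norm_toLp, Lp.norm_def, ← ENNReal.toReal_mul]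
    exact ENNReal.toReal_mono (ENNReal.mul_ne_top hC (Lp.eLpNorm_ne_top u)) h
  · intro u
    exact (memLp_scl s hs (Lp.memLp u)).coeFn_toLp

def sclL (E : Type*) [NormedAddCommGroup E] [NormedSpace ℝ E] (s : unitInterval) (hs : 0 < s) :
    LI E →L[ℝ] LI E := (exists_sclL E s hs).choose
theorem sclL_coe (s : unitInterval) (hs : 0 < s) (u : LI E) :
    (sclL E s hs u : unitInterval → E) =ᵐ[volume] fun t => u (s * t) :=
  (exists_sclL E s hs).choose_spec u

/-- time scaling of continuous functions -/
def sclC (s : unitInterval) (u : CI E) : CI E := ⟨fun t => u (s * t), by fun_prop⟩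

@[simp] theorem sclC_apply (s t : unitInterval) (u : CI E) : sclC s u t = u (s * t) := rfl

theorem sclL_toL (s : unitInterval) (hs : 0 < s) (u : CI E) :
    sclL E s hs (toL E u) = toL E (sclC s u) := by
  apply Lp.ext
  have h1 := sclL_coe s hs (toL E u)
  have h2 := (qmp_sclMap s hs).ae (toL_coe u)
  have h3 := toL_coe (sclC s u)
  filter_upwards [h1, h2, h3] with t g1 g2 g3
  rw [g1, g3]
  exact g2
theorem sclL_mapL (s : unitInterval) (hs : 0 < s) (A : E →L[ℝ] F) (u : LI E) :
    sclL F s hs (mapL A u) = mapL A (sclL E s hs u) := by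
  apply Lp.ext
  have h1 := sclL_coe s hs (mapL A u)
  have h2 := (qmp_sclMap s hs).ae (mapL_coe A u)
  have h3 := mapL_coe A (sclL E s hs u)
  have h4 := sclL_coe s hs u
  filter_upwards [h1, h2, h3, h4] with t g1 g2 g3 g4
  rw [g1, g3, g4]
  exact g2
theorem sclL_bilL (s : unitInterval) (hs : 0 < s) (B : E →L[ℝ] F →L[ℝ] G) (u : CI E) (v : LI F) :
    sclL G s hs (bilL B u v) = bilL B (sclC s u) (sclL F s hs v) := by
  apply Lp.ext
  have h1 := sclL_coe s hs (bilL B u v)
  have h2 := (qmp_sclMap s hs).ae (bilL_coe B u v)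
  have h3 := bilL_coe B (sclC s u) (sclL F s hs v)
  have h4 := sclL_coe s hs v
  filter_upwards [h1, h2, h3, h4] with t g1 g2 g3 g4
  rw [g1, g3, g4, sclC_apply]
  exact g2
theorem sclL_bilR (s : unitInterval) (hs : 0 < s) (B : E →L[ℝ] F →L[ℝ] G) (u : LI E) (v : CI F) :
    sclL G s hs (bilR B u v) = bilR B (sclL E s hs u) (sclC s v) := by
  apply Lp.ext
  have h1 := sclL_coe s hs (bilR B u v)
  have h2 := (qmp_sclMap s hs).ae (bilR_coe B u v)
  have h3 := bilR_coe B (sclL E s hs u) (sclC s v)
  have h4 := sclL_coe s hs u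
  filter_upwards [h1, h2, h3, h4] with t g1 g2 g3 g4
  rw [g1, g3, g4, sclC_apply]
  exact g2
theorem intC_sclL [CompleteSpace E] (s : unitInterval) (hs : 0 < s) (u : LI E)
    (t : unitInterval) : intC E (sclL E s hs u) t = (s : ℝ)⁻¹ • intC E u (s * t) := by
  have hs' : (0:ℝ) < s := hs
  rw [intC_apply, intC_apply]
  have h1 : ∫ r in Iic t, (sclL E s hs u : unitInterval → E) r =
      ∫ r in Iic t, (u : unitInterval → E) (sclMap s r) :=
    integral_congr_ae (ae_restrict_of_ae (sclL_coe s hs u))
  have hpre : sclMap s ⁻¹' (Iic (s * t)) = Iic t := by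
    ext r
    constructor
    · intro h
      have h' : (s : ℝ) * r ≤ s * t := h
      exact le_of_mul_le_mul_left h' hs'
    · intro h
      show (s : ℝ) * r ≤ s * t
      exact mul_le_mul_of_nonneg_left h hs'.le
  have hae : AEStronglyMeasurable (u : unitInterval → E)
      ((volume : Measure unitInterval).map (sclMap s)) :=
    (Lp.aestronglyMeasurable u).mono_ac (qmp_sclMap s hs).absolutelyContinuous
  have h2 := setIntegral_map (μ := (volume : Measure unitInterval)) (g := sclMap s)
    (f := (u : unitInterval → E)) (s := Iic (s * t)) measurableSet_Iic hae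
    (measurable_sclMap s).aemeasurable
  rw [hpre] at h2
  rw [h1, ← h2, map_sclMap s hs, Measure.restrict_smul, integral_smul_measure,
    ENNReal.toReal_ofReal (inv_nonneg.2 hs'.le), Measure.restrict_restrict measurableSet_Iic]
  congr 3
  ext r
  constructor
  · exact fun h => h.1
  · intro h
    exact ⟨h, le_trans h unitInterval.mul_le_left⟩
end

end Pool.Agent.Helper15.NF
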