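import Pool.Agent.Helper15.NF.EA0

/-!
E-part, abstract linear theory: maximal regularity for `T g + λ ∫ g = λ ∫ f`, `T = D† D`.
(With `w = T g` this is `w' + λ g = λ f`, `w(0) = 0`, i.e. `w_t = λ (w_xx + f)`.)
-/

open MeasureTheory Set
open scoped unitInterval

namespace Pool.Agent.Helper15.NF

noncomputable section

variable {H Z : Type*} [NormedAddCommGroup H] [InnerProductSpace ℝ H] [CompleteSpace H]
  [NormedAddCommGroup Z] [InnerProductSpace ℝ Z] [CompleteSpace Z]

/-- `T = D† D` -/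
def TT (D : H →L[ℝ] Z) : H →L[ℝ] H := (ContinuousLinearMap.adjoint D).comp D

/-- restriction to an initial interval -/
def EA1R (E : Type*) [NormedAddCommGroup E] [NormedSpace ℝ E] (t : unitInterval) :
    LI E →L[ℝ] Lp E 2 ((volume : Measure unitInterval).restrict (Iic t)) :=
  LpToLpRestrictCLM unitInterval E ℝ volume 2 (Iic t)

theorem EA1R_coe {E : Type*} [NormedAddCommGroup E] [NormedSpace ℝ E] (t : unitInterval)
    (u : LI E) : (EA1R E t u : unitInterval → E) =ᵐ[volume.restrict (Iic t)] u :=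
  LpToLpRestrictCLM_coeFn ℝ (Iic t) u

theorem EA1R_norm_le {E : Type*} [NormedAddCommGroup E] [NormedSpace ℝ E] (t : unitInterval)
    (u : LI E) : ‖EA1R E t u‖ ≤ ‖u‖ := by
  exact norm_Lp_toLp_restrict_le (Iic t) u

theorem EA1R_inner {E : Type*} [NormedAddCommGroup E] [InnerProductSpace ℝ E] (t : unitInterval)
    (u v : LI E) : inner ℝ (EA1R E t u) (EA1R E t v) = ∫ s in Iic t, inner ℝ (u s) (v s) := by
  rw [L2.inner_def]
  apply integral_congr_ae
  filter_upwards [EA1R_coe t u, EA1R_coe t v] with s h1 h2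
  rw [h1, h2]

theorem EA1_Iic_one : (Iic (1 : unitInterval)) = univ := by
  ext x
  simp [unitInterval.le_one']

theorem EA1_inner_one {E : Type*} [NormedAddCommGroup E] [InnerProductSpace ℝ E]
    (u v : LI E) : inner ℝ (EA1R E 1 u) (EA1R E 1 v) = inner ℝ u v := by
  rw [EA1R_inner, L2.inner_def, EA1_Iic_one, Measure.restrict_univ]

/-- moving `D` across -/
theorem EA1R_adj (D : H →L[ℝ] Z) (t : unitInterval) (u v : LI H) :
    inner ℝ (EA1R H t (mapL (TT D) u)) (EA1R H t v) =
      inner ℝ (EA1R Z t (mapL D u)) (EA1R Z t (mapL D v)) := by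
  rw [EA1R_inner, EA1R_inner]
  apply integral_congr_ae
  have h1 := ae_restrict_of_ae (s := Iic t) (mapL_coe (TT D) u)
  have h2 := ae_restrict_of_ae (s := Iic t) (mapL_coe D u)
  have h3 := ae_restrict_of_ae (s := Iic t) (mapL_coe D v)
  filter_upwards [h1, h2, h3] with s h1 h2 h3
  rw [h1, h2, h3]
  simp only [TT, ContinuousLinearMap.comp_apply]
  rw [ContinuousLinearMap.adjoint_inner_left]

/-- change of variables from the unit interval to the real line -/
theorem EA1_integral_Iic {E : Type*} [NormedAddCommGroup E] [NormedSpace ℝ E] (f : ℝ → E)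
    (t : unitInterval) : ∫ s in Iic t, f (s : ℝ) = ∫ y in (0:ℝ)..t, f y := by
  rw [intervalIntegral.integral_of_le t.2.1]
  have h1 : (∫ s in Iic t, f (s : ℝ)) =
      ∫ y in ((↑) : unitInterval → ℝ) '' (Iic t), f y := by
    have := unitInterval.measurableEmbedding_coe.setIntegral_map (μ := (volume : Measure unitInterval))
      f (((↑) : unitInterval → ℝ) '' (Iic t))
    rw [unitInterval.measurePreserving_coe.map_eq] at this
    rw [preimage_image_eq _ Subtype.val_injective] at this
    rw [← this, Measure.restrict_restrict_of_subset]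
    rintro _ ⟨s, -, rfl⟩
    exact s.2
  rw [h1]
  have h2 : ((↑) : unitInterval → ℝ) '' (Iic t) = Icc 0 (t : ℝ) := by
    ext y
    constructor
    · rintro ⟨s, hs, rfl⟩
      exact ⟨s.2.1, hs⟩
    · intro hy
      exact ⟨⟨y, hy.1, hy.2.trans t.2.2⟩, hy.2, rfl⟩
  rw [h2, integral_Icc_eq_integral_Ioc]

/-- energy identity for continuous functions -/
theorem EA1_energy_cont (c : CI Z) (t : unitInterval) :
    ‖intC Z (toL Z c) t‖ ^ 2 =
      2 * inner ℝ (EA1R Z t (toL Z c)) (EA1R Z t (toL Z (intC Z (toL Z c)))) := by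
  set c' : ℝ → Z := fun y => c (projIcc 0 1 zero_le_one y) with hc'
  have hcc : Continuous c' := c.continuous.comp continuous_projIcc
  set G : ℝ → Z := fun x => ∫ y in (0:ℝ)..x, c' y with hG
  have hproj : ∀ s : unitInterval, projIcc (0:ℝ) 1 zero_le_one (s : ℝ) = s := fun s =>
    projIcc_val zero_le_one s
  have hval : ∀ s : unitInterval, intC Z (toL Z c) s = G s := by
    intro s
    rw [intC_apply, hG]
    simp only
    rw [← EA1_integral_Iic]
    apply integral_congr_ae
    filter_upwards [ae_restrict_of_ae (s := Iic s) (toL_coe c)] with r hr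
    rw [hr, hc']
    simp only
    rw [hproj r]
  have hGd : ∀ x, HasDerivAt G (c' x) x := fun x =>
    intervalIntegral.integral_hasDerivAt_right (hcc.intervalIntegrable _ _)
      (hcc.stronglyMeasurableAtFilter _ _) hcc.continuousAt
  have hGc : Continuous G := continuous_iff_continuousAt.2 fun x => (hGd x).continuousAt
  have hd : ∀ x, HasDerivAt (fun x => ‖G x‖ ^ 2) (2 * inner ℝ (G x) (c' x)) x := fun x =>
    (hGd x).norm_sq
  have hint : (∫ y in (0:ℝ)..t, 2 * inner ℝ (G y) (c' y)) = ‖G t‖ ^ 2 - ‖G 0‖ ^ 2 := by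
    apply intervalIntegral.integral_eq_sub_of_hasDerivAt (fun x _ => hd x)
    apply Continuous.intervalIntegrable
    exact continuous_const.mul (hGc.inner hcc)
  have hG0 : G 0 = 0 := by rw [hG]; simp
  rw [hG0, norm_zero, zero_pow two_ne_zero, sub_zero] at hint
  rw [hval t, ← hint, EA1R_inner, intervalIntegral.integral_const_mul, ← EA1_integral_Iic]
  congr 1
  apply integral_congr_ae
  filter_upwards [ae_restrict_of_ae (s := Iic t) (toL_coe c),
    ae_restrict_of_ae (s := Iic t) (toL_coe (intC Z (toL Z c)))] with s h1 h2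
  rw [h1, h2, hval s, real_inner_comm, hc']
  simp only
  rw [hproj s]

theorem EA1_dense (E : Type*) [NormedAddCommGroup E] [NormedSpace ℝ E] :
    DenseRange (toL E) :=
  ContinuousMap.toLp_denseRange E volume ℝ (by norm_num)

/-- energy identity -/
theorem EA1_energy (w : LI Z) (t : unitInterval) :
    ‖intC Z w t‖ ^ 2 = 2 * inner ℝ (EA1R Z t w) (EA1R Z t (toL Z (intC Z w))) := by
  have hev : Continuous (fun w : LI Z => intC Z w t) :=
    (continuous_eval_const t).comp (intC Z).continuous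
  refine (EA1_dense Z).induction_on (p := fun w => ‖intC Z w t‖ ^ 2 =
    2 * inner ℝ (EA1R Z t w) (EA1R Z t (toL Z (intC Z w)))) w ?_ ?_
  · apply isClosed_eq
    · exact hev.norm.pow 2
    · apply continuous_const.mul
      exact ((EA1R Z t).continuous).inner
        ((EA1R Z t).continuous.comp ((toL Z).continuous.comp (intC Z).continuous))
  · intro c
    exact EA1_energy_cont c t

/-- the main operator -/
def EA1S (D : H →L[ℝ] Z) (lam : ℝ) : LI H →L[ℝ] LI H := mapL (TT D) + lam • intL H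

theorem EA1S_apply (D : H →L[ℝ] Z) (lam : ℝ) (u : LI H) :
    EA1S D lam u = mapL (TT D) u + lam • toL H (intC H u) := rfl

theorem EA1_bound_D (D : H →L[ℝ] Z) {lam : ℝ} (hl : 0 < lam) (u : LI H) (t : unitInterval) :
    ‖D (intC H u t)‖ ^ 2 ≤ (2 * lam)⁻¹ * ‖EA1S D lam u‖ ^ 2 := by
  set U := intC H u with hU
  set f := EA1S D lam u with hf
  have e1 : D (U t) = intC Z (mapL D u) t := by
    rw [← mapC_intC, mapC_apply]
  have e2 := EA1_energy (mapL D u) t
  have e3 : toL Z (intC Z (mapL D u)) = mapL D (toL H U) := by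
    rw [← mapC_intC, mapL_toL]
  rw [e3, ← EA1R_adj] at e2
  have e4 : mapL (TT D) u = f - lam • toL H U := by
    rw [hf, EA1S_apply]; abel
  rw [e4, map_sub, map_smul, inner_sub_left, real_inner_smul_left, real_inner_self_eq_norm_sq] at e2
  rw [e1, e2]
  have cs := real_inner_le_norm (EA1R H t f) (EA1R H t (toL H U))
  have nf := EA1R_norm_le t f
  set A := ‖EA1R H t f‖ with hA
  set B := ‖EA1R H t (toL H U)‖ with hB
  have hA0 : 0 ≤ A := norm_nonneg _
  have h1 : 2 * (inner ℝ (EA1R H t f) (EA1R H t (toL H U)) - lam * B ^ 2) ≤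
      2 * (A * B - lam * B ^ 2) := by linarith
  have h2 : 2 * (A * B - lam * B ^ 2) ≤ (2 * lam)⁻¹ * A ^ 2 := by
    have h3 : (2 * lam)⁻¹ * A ^ 2 - 2 * (A * B - lam * B ^ 2) =
        (2 * lam)⁻¹ * (A - 2 * lam * B) ^ 2 := by
      field_simp
      ring
    have h4 : 0 ≤ (2 * lam)⁻¹ * (A - 2 * lam * B) ^ 2 := by positivity
    linarith
  have h5 : (2 * lam)⁻¹ * A ^ 2 ≤ (2 * lam)⁻¹ * ‖f‖ ^ 2 := by
    apply mul_le_mul_of_nonneg_left _ (by positivity)
    exact pow_le_pow_left₀ hA0 nf 2
  linarith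

theorem EA1_half (D : H →L[ℝ] Z) (u : LI H) :
    0 ≤ inner ℝ (mapL (TT D) u) (toL H (intC H u)) := by
  have e2 := EA1_energy (mapL D u) 1
  have e3 : toL Z (intC Z (mapL D u)) = mapL D (toL H (intC H u)) := by
    rw [← mapC_intC, mapL_toL]
  rw [e3, ← EA1R_adj, EA1_inner_one] at e2
  have : 0 ≤ ‖intC Z (mapL D u) 1‖ ^ 2 := by positivity
  linarith

theorem EA1_bound_G (D : H →L[ℝ] Z) {lam : ℝ} (hl : 0 < lam) (u : LI H) :
    ‖lam • toL H (intC H u)‖ ≤ ‖EA1S D lam u‖ := by
  have h1 := EA1_half D u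
  have h2 : ‖EA1S D lam u‖ ^ 2 = ‖mapL (TT D) u‖ ^ 2 +
      2 * (lam * inner ℝ (mapL (TT D) u) (toL H (intC H u))) + ‖lam • toL H (intC H u)‖ ^ 2 := by
    rw [EA1S_apply, norm_add_sq_real, real_inner_smul_right]
  have h3 : ‖lam • toL H (intC H u)‖ ^ 2 ≤ ‖EA1S D lam u‖ ^ 2 := by
    have : 0 ≤ ‖mapL (TT D) u‖ ^ 2 := by positivity
    have : 0 ≤ lam * inner ℝ (mapL (TT D) u) (toL H (intC H u)) := mul_nonneg hl.le h1
    linarith
  exact le_of_sq_le_sq h3 (norm_nonneg _)

theorem EA1S_injective (D : H →L[ℝ] Z) {lam : ℝ} (hl : 0 < lam) {u : LI H}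
    (h : EA1S D lam u = 0) : u = 0 := by
  have h1 := EA1_bound_G D hl u
  rw [h, norm_zero] at h1
  have h2 : lam • toL H (intC H u) = 0 := norm_le_zero_iff.1 h1
  have h3 : toL H (intC H u) = 0 := by
    rcases smul_eq_zero.1 h2 with h | h
    · exact absurd h hl.ne'
    · exact h
  have h4 : intC H u = 0 := toL_injective (by rw [h3, map_zero])
  exact LI_ext_int (by rw [h4, map_zero])

theorem EA1S_dense {D : H →L[ℝ] Z} (hD : Function.Injective D) {lam : ℝ} (hl : 0 < lam) :
    DenseRange (EA1S D lam) := by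
  have hbot : (LinearMap.range (EA1S D lam).toLinearMap)ᗮ = ⊥ := by
    rw [Submodule.eq_bot_iff]
    intro v hv
    rw [Submodule.mem_orthogonal] at hv
    have h1 := hv (EA1S D lam v) ⟨v, rfl⟩
    rw [EA1S_apply, inner_add_left, real_inner_smul_left] at h1
    have h2 : inner ℝ (mapL (TT D) v) v = ‖mapL D v‖ ^ 2 := by
      rw [← EA1_inner_one, EA1R_adj, EA1_inner_one, real_inner_self_eq_norm_sq]
    have h3 : inner ℝ (toL H (intC H v)) v = 2⁻¹ * ‖intC H v 1‖ ^ 2 := by
      have := EA1_energy (Z := H) v 1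
      rw [EA1_inner_one] at this
      rw [this, real_inner_comm]
      ring
    rw [h2, h3] at h1
    have h4 : ‖mapL D v‖ ^ 2 = 0 := by
      have a1 : 0 ≤ ‖mapL D v‖ ^ 2 := by positivity
      have a2 : 0 ≤ lam * (2⁻¹ * ‖intC H v 1‖ ^ 2) := by positivity
      linarith
    have h5 : mapL D v = 0 := by
      rw [pow_eq_zero_iff two_ne_zero, norm_eq_zero] at h4
      exact h4
    have h6 : (v : unitInterval → H) =ᵐ[volume] 0 := by
      have h7 : (mapL D v : unitInterval → Z) =ᵐ[volume] 0 := by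
        rw [h5]; exact Lp.coeFn_zero _ _ _
      filter_upwards [mapL_coe D v, h7] with s h8 h9
      rw [h9] at h8
      have : D (v s) = D 0 := by rw [← h8]; simp
      exact hD this
    exact (Lp.eq_zero_iff_ae_eq_zero).2 h6
  have htop : (LinearMap.range (EA1S D lam).toLinearMap).topologicalClosure = ⊤ :=
    (Submodule.topologicalClosure_eq_top_iff).2 hbot
  have := Submodule.dense_iff_topologicalClosure_eq_top.2 htop
  rw [LinearMap.coe_range] at this
  exact this

theorem lin_unique {D : H →L[ℝ] Z} (hD : Function.Injective D) {lam : ℝ} (hl : 0 < lam) {g : LI H}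
    (h : mapL (TT D) g + lam • intL H g = 0) : g = 0 :=
  EA1S_injective D hl h

theorem EA1_intC_zero {E : Type*} [NormedAddCommGroup E] [NormedSpace ℝ E] [CompleteSpace E]
    (u : LI E) : intC E u 0 = 0 := by
  rw [intC_apply]
  have h : (Iic (0 : unitInterval)) = {0} := by
    ext x
    simp only [mem_Iic, mem_singleton_iff]
    exact ⟨fun h => le_antisymm h x.2.1, fun h => h.le⟩
  rw [h]
  simp

theorem lin_exists {D : H →L[ℝ] Z} (hD : Function.Injective D) {lam : ℝ} (hl : 0 < lam) :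
    ∃ S : (LI H →L[ℝ] LI H) × (LI H →L[ℝ] CI Z),
      (∀ f, mapL (TT D) (S.1 f) + lam • intL H (S.1 f) = lam • intL H f) ∧
      (∀ f, toL Z (S.2 f) = mapL D (S.1 f)) ∧ (∀ f, ‖S.1 f‖ ≤ ‖f‖) ∧
      (∀ f, ‖S.2 f‖ ≤ Real.sqrt lam * ‖f‖) ∧ ∀ f, S.2 f 0 = 0 := by
  have hdense : DenseRange (EA1S D lam).toLinearMap := EA1S_dense hD hl
  set g0 : LI H →L[ℝ] LI H := lam • (toL H).comp (intC H) with hg0
  set w0 : LI H →L[ℝ] CI Z := lam • (mapC D).comp (intC H) with hw0
  have hg0a : ∀ u, g0 u = lam • toL H (intC H u) := fun u => rfl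
  have hw0a : ∀ u, w0 u = lam • mapC D (intC H u) := fun u => rfl
  have bg : ∀ u, ‖g0.toLinearMap u‖ ≤ 1 * ‖(EA1S D lam).toLinearMap u‖ := by
    intro u
    rw [one_mul]
    exact EA1_bound_G D hl u
  have bw : ∀ u, ‖w0.toLinearMap u‖ ≤ Real.sqrt lam * ‖(EA1S D lam).toLinearMap u‖ := by
    intro u
    change ‖w0 u‖ ≤ Real.sqrt lam * ‖EA1S D lam u‖
    rw [hw0a, ContinuousMap.norm_le _ (by positivity)]
    intro t
    rw [ContinuousMap.smul_apply, mapC_apply, norm_smul, Real.norm_of_nonneg hl.le]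
    apply le_of_sq_le_sq _ (by positivity)
    have h1 := EA1_bound_D D hl u t
    rw [mul_pow, mul_pow, Real.sq_sqrt hl.le]
    have h2 : lam ^ 2 * ‖D (intC H u t)‖ ^ 2 ≤ lam ^ 2 * ((2 * lam)⁻¹ * ‖EA1S D lam u‖ ^ 2) :=
      mul_le_mul_of_nonneg_left h1 (by positivity)
    have h3 : lam ^ 2 * ((2 * lam)⁻¹ * ‖EA1S D lam u‖ ^ 2) = lam / 2 * ‖EA1S D lam u‖ ^ 2 := by
      field_simp
    rw [h3] at h2
    have h4 : lam / 2 * ‖EA1S D lam u‖ ^ 2 ≤ lam * ‖EA1S D lam u‖ ^ 2 := by
      apply mul_le_mul_of_nonneg_right _ (by positivity)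
      linarith
    linarith
  set Gx : LI H →L[ℝ] LI H := g0.toLinearMap.extendOfNorm (EA1S D lam).toLinearMap with hGx
  set Wx : LI H →L[ℝ] CI Z := w0.toLinearMap.extendOfNorm (EA1S D lam).toLinearMap with hWx
  have eG : ∀ u, Gx (EA1S D lam u) = lam • toL H (intC H u) := fun u =>
    LinearMap.extendOfNorm_eq hdense ⟨1, bg⟩ u
  have eW : ∀ u, Wx (EA1S D lam u) = lam • mapC D (intC H u) := fun u =>
    LinearMap.extendOfNorm_eq hdense ⟨Real.sqrt lam, bw⟩ u
  refine ⟨(Gx, Wx), ?_, ?_, ?_, ?_, ?_⟩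
  · intro f
    refine (EA1S_dense hD hl).induction_on (p := fun f => mapL (TT D) (Gx f) + lam • intL H (Gx f)
      = lam • intL H f) f ?_ ?_
    · apply isClosed_eq
      · exact ((mapL (TT D)).continuous.comp Gx.continuous).add
          (((intL H).continuous.comp Gx.continuous).const_smul lam)
      · exact (intL H).continuous.const_smul lam
    · intro u
      rw [eG, map_smul, map_smul, EA1S_apply, map_add, map_smul, mapL_toL, mapC_intC, smul_add]
      rfl
  · intro f
    refine (EA1S_dense hD hl).induction_on (p := fun f => toL Z (Wx f) = mapL D (Gx f)) f ?_ ?_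
    · apply isClosed_eq
      · exact (toL Z).continuous.comp Wx.continuous
      · exact (mapL D).continuous.comp Gx.continuous
    · intro u
      rw [eG, eW, map_smul, map_smul, mapL_toL]
  · intro f
    have := LinearMap.norm_extendOfNorm_apply_le hdense 1 bg f
    rw [one_mul] at this
    exact this
  · intro f
    exact LinearMap.norm_extendOfNorm_apply_le hdense (Real.sqrt lam) bw f
  · intro f
    refine (EA1S_dense hD hl).induction_on (p := fun f => Wx f 0 = 0) f ?_ ?_
    · apply isClosed_eq _ continuous_const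
      exact (continuous_eval_const (0 : unitInterval)).comp Wx.continuous
    · intro u
      rw [eW, ContinuousMap.smul_apply, mapC_apply, EA1_intC_zero, map_zero, smul_zero]

/-- solution operators -/
def solGW {D : H →L[ℝ] Z} (hD : Function.Injective D) (lam : ℝ) :
    (LI H →L[ℝ] LI H) × (LI H →L[ℝ] CI Z) :=
  if hl : 0 < lam then (lin_exists hD hl).choose else (0, 0)

def solG {D : H →L[ℝ] Z} (hD : Function.Injective D) (lam : ℝ) : LI H →L[ℝ] LI H :=
  (solGW hD lam).1
def solW {D : H →L[ℝ] Z} (hD : Function.Injective D) (lam : ℝ) : LI H →L[ℝ] CI Z :=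
  (solGW hD lam).2

theorem solGW_spec {D : H →L[ℝ] Z} (hD : Function.Injective D) {lam : ℝ} (hl : 0 < lam) :
      (∀ f, mapL (TT D) (solG hD lam f) + lam • intL H (solG hD lam f) = lam • intL H f) ∧
      (∀ f, toL Z (solW hD lam f) = mapL D (solG hD lam f)) ∧ (∀ f, ‖solG hD lam f‖ ≤ ‖f‖) ∧
      (∀ f, ‖solW hD lam f‖ ≤ Real.sqrt lam * ‖f‖) ∧ ∀ f, solW hD lam f 0 = 0 := by
  have h := (lin_exists hD hl).choose_spec
  unfold solG solW solGW
  rw [dif_pos hl]
  exact h

/-- characterisation of the solution -/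
theorem solG_eq {D : H →L[ℝ] Z} (hD : Function.Injective D) {lam : ℝ} (hl : 0 < lam) {f g : LI H}
    (h : mapL (TT D) g + lam • intL H g = lam • intL H f) : g = solG hD lam f := by
  have h1 := (solGW_spec hD hl).1 f
  have h2 : g - solG hD lam f = 0 := by
    apply lin_unique hD hl
    rw [map_sub, map_sub, smul_sub]
    have : mapL (TT D) g - mapL (TT D) (solG hD lam f) +
        (lam • intL H g - lam • intL H (solG hD lam f)) =
        (mapL (TT D) g + lam • intL H g) -
          (mapL (TT D) (solG hD lam f) + lam • intL H (solG hD lam f)) := by abel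
    rw [this, h, h1, sub_self]
  exact sub_eq_zero.1 h2

end

end Pool.Agent.Helper15.NF
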