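import Pool.Agent.Helper15.NF.EA1

open MeasureTheory Set
open scoped unitInterval

namespace Pool.Agent.Helper15.NF

noncomputable section

variable {H Z : Type*} [NormedAddCommGroup H] [InnerProductSpace ℝ H] [CompleteSpace H]
  [NormedAddCommGroup Z] [InnerProductSpace ℝ Z] [CompleteSpace Z]

namespace EA1b

/-- integral over the unit interval type and interval integrals -/
theorem int_Iic {E : Type*} [NormedAddCommGroup E] [NormedSpace ℝ E]
    (f : unitInterval → E) (t : unitInterval) :
    ∫ s in Set.Iic t, f s = ∫ s in (0 : ℝ)..t, f (projIcc 0 1 zero_le_one s) := by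
  rw [← integral_indicator measurableSet_Iic]
  have h1 : ∀ s : unitInterval, (Set.Iic t).indicator f s =
      (fun s : ℝ => (Set.Iic (t : ℝ)).indicator
        (fun s => f (projIcc 0 1 zero_le_one s)) s) (s : ℝ) := by
    intro s
    by_cases hs : s ≤ t
    · rw [indicator_of_mem (show s ∈ Set.Iic t from hs)]
      simp only
      rw [indicator_of_mem (show (s : ℝ) ∈ Set.Iic (t : ℝ) from hs), projIcc_val]
    · rw [indicator_of_notMem (show s ∉ Set.Iic t from hs)]
      simp only
      rw [indicator_of_notMem (show (s : ℝ) ∉ Set.Iic (t : ℝ) from hs)]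
  rw [integral_congr_ae (Filter.Eventually.of_forall h1)]
  rw [integral_subtype (s := unitInterval) measurableSet_Icc
    (fun s : ℝ => (Set.Iic (t : ℝ)).indicator
        (fun s => f (projIcc 0 1 zero_le_one s)) s)]
  rw [setIntegral_indicator measurableSet_Iic]
  rw [intervalIntegral.integral_of_le t.2.1, ← integral_Icc_eq_integral_Ioc]
  congr 2
  ext x
  simp only [mem_inter_iff, mem_Icc, mem_Iic]
  constructor
  · rintro ⟨⟨h0, _⟩, h2⟩; exact ⟨h0, h2⟩
  · rintro ⟨h0, h2⟩; exact ⟨⟨h0, h2.trans t.2.2⟩, h2⟩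

theorem int_all {E : Type*} [NormedAddCommGroup E] [NormedSpace ℝ E]
    (f : unitInterval → E) :
    ∫ s, f s = ∫ s in (0 : ℝ)..1, f (projIcc 0 1 zero_le_one s) := by
  have h := int_Iic f 1
  have h1 : (Set.Iic (1 : unitInterval)) = Set.univ := by
    ext x; simp [unitInterval.le_one']
  rw [h1, Measure.restrict_univ] at h
  exact h

theorem intC_toL (u : CI H) (t : unitInterval) :
    intC H (toL H u) t = ∫ s in (0 : ℝ)..t, u (projIcc 0 1 zero_le_one s) := by
  rw [intC_apply, ← int_Iic]
  exact integral_congr_ae (ae_restrict_of_ae (toL_coe u))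

omit [CompleteSpace H] in
theorem norm_toL_sq (u : CI H) :
    ‖toL H u‖ ^ 2 = ∫ s in (0 : ℝ)..1, ‖u (projIcc 0 1 zero_le_one s)‖ ^ 2 := by
  rw [← real_inner_self_eq_norm_sq, L2.inner_def, ← int_all (fun s => ‖u s‖ ^ 2)]
  refine integral_congr_ae ?_
  filter_upwards [toL_coe u] with s hs
  simp only [hs, real_inner_self_eq_norm_sq]

theorem energy (D : H →L[ℝ] Z) {lam : ℝ} (hl : 0 < lam) (g0 : H) (u : CI H) (t : unitInterval) :
    ‖D ((cst H g0 - lam • intC H (toL H u)) t)‖ ^ 2 +
      lam * ∫ s in (0 : ℝ)..t, ‖(cst H g0 - lam • intC H (toL H u))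
        (projIcc 0 1 zero_le_one s)‖ ^ 2 ≤
    ‖D g0‖ ^ 2 + lam * ‖toL H (mapC (TT D) u + lam • intC H (toL H u) - cst H g0)‖ ^ 2 := by
  set U : CI H := intC H (toL H u) with hU
  set r : CI H := mapC (TT D) u + lam • U - cst H g0 with hr
  set pr : ℝ → unitInterval := projIcc 0 1 zero_le_one with hpr
  have hprc : Continuous pr := continuous_projIcc
  set F : ℝ → H := fun s => ∫ x in (0 : ℝ)..s, u (pr x) with hF
  have huc : Continuous fun x => u (pr x) := u.continuous.comp hprc
  have hFd : ∀ s, HasDerivAt F (u (pr s)) s := fun s =>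
    (Continuous.integral_hasStrictDerivAt huc 0 s).hasDerivAt
  have hFc : Continuous F := continuous_iff_continuousAt.2 fun s => (hFd s).continuousAt
  have hUF : ∀ s ∈ Icc (0 : ℝ) 1, U (pr s) = F s := by
    intro s hs
    rw [hU, intC_toL]
    have : ((pr s : unitInterval) : ℝ) = s := by
      rw [hpr, projIcc_of_mem _ hs]
    rw [this]
  have hUF' : U t = F t := by
    have := hUF t t.2
    rwa [hpr, projIcc_val] at this
  set w : ℝ → H := fun s => g0 - lam • F s with hw
  have hwd : ∀ s, HasDerivAt w (-(lam • u (pr s))) s := fun s =>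
    ((hFd s).const_smul lam).const_sub g0
  have hwc : Continuous w := continuous_iff_continuousAt.2 fun s => (hwd s).continuousAt
  have hDw : ∀ s, HasDerivAt (fun s => D (w s)) (D (-(lam • u (pr s)))) s := fun s =>
    (D.hasFDerivAt (x := w s)).comp_hasDerivAt s (hwd s)
  have hsq : ∀ s, HasDerivAt (fun s => ‖D (w s)‖ ^ 2)
      (2 * inner ℝ (D (w s)) (D (-(lam • u (pr s))))) s := fun s => (hDw s).norm_sq
  have hcont : Continuous fun s => 2 * inner ℝ (D (w s)) (D (-(lam • u (pr s)))) := by
    have h1 : Continuous fun s => D (w s) := D.continuous.comp hwc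
    have h2 : Continuous fun s => D (-(lam • u (pr s))) :=
      D.continuous.comp ((huc.const_smul lam).neg)
    exact continuous_const.mul (h1.inner h2)
  have hftc := intervalIntegral.integral_eq_sub_of_hasDerivAt
    (a := (0 : ℝ)) (b := (t : ℝ)) (fun s _ => hsq s) (hcont.intervalIntegrable _ _)
  have hF0 : F 0 = 0 := by simp [hF]
  have hw0 : w 0 = g0 := by simp [hw, hF0]
  rw [hw0] at hftc
  have hrc : Continuous fun s => r (pr s) := r.continuous.comp hprc
  have hmono : ∫ s in (0 : ℝ)..t, 2 * inner ℝ (D (w s)) (D (-(lam • u (pr s)))) ≤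
      ∫ s in (0 : ℝ)..t, (lam * ‖r (pr s)‖ ^ 2 - lam * ‖w s‖ ^ 2) := by
    apply intervalIntegral.integral_mono_on t.2.1 (hcont.intervalIntegrable _ _)
    · apply Continuous.intervalIntegrable
      exact (continuous_const.mul (hrc.norm.pow 2)).sub (continuous_const.mul (hwc.norm.pow 2))
    · intro s hs
      have hs1 : s ∈ Icc (0 : ℝ) 1 := ⟨hs.1, hs.2.trans t.2.2⟩
      have hTu : (TT D) (u (pr s)) = r (pr s) + w s := by
        simp only [hr, hw, ContinuousMap.sub_apply, ContinuousMap.add_apply,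
          ContinuousMap.smul_apply, mapC_apply, cst_apply, hUF s hs1]
        abel
      have h1 : inner ℝ (D (w s)) (D (-(lam • u (pr s)))) = -lam * inner ℝ (w s) (r (pr s) + w s) := by
        rw [← hTu, TT, ContinuousLinearMap.comp_apply, ContinuousLinearMap.adjoint_inner_right,
          map_neg, map_smul, inner_neg_right, inner_smul_right]
        ring
      rw [h1]
      have h2 := norm_add_sq_real (w s) (r (pr s))
      have h3 : 0 ≤ ‖w s + r (pr s)‖ ^ 2 := by positivity
      rw [inner_add_right, real_inner_self_eq_norm_sq]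
      have h4 : 0 ≤ lam * (‖w s‖ ^ 2 + 2 * inner ℝ (w s) (r (pr s)) + ‖r (pr s)‖ ^ 2) := by
        rw [← h2]; positivity
      nlinarith [h4]
  have hwt : (cst H g0 - lam • U) t = w t := by
    simp only [hw, ContinuousMap.sub_apply, ContinuousMap.smul_apply, cst_apply, hUF']
  have hwI : ∫ s in (0 : ℝ)..t, ‖(cst H g0 - lam • U) (pr s)‖ ^ 2 =
      ∫ s in (0 : ℝ)..t, ‖w s‖ ^ 2 := by
    apply intervalIntegral.integral_congr
    intro s hs
    rw [uIcc_of_le t.2.1] at hs
    simp only [hw, ContinuousMap.sub_apply, ContinuousMap.smul_apply, cst_apply,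
      hUF s ⟨hs.1, hs.2.trans t.2.2⟩]
  rw [hwt, hwI]
  have hi1 : IntervalIntegrable (fun s => lam * ‖r (pr s)‖ ^ 2) volume 0 t :=
    (continuous_const.mul (hrc.norm.pow 2)).intervalIntegrable _ _
  have hi2 : IntervalIntegrable (fun s => lam * ‖w s‖ ^ 2) volume 0 t :=
    (continuous_const.mul (hwc.norm.pow 2)).intervalIntegrable _ _
  rw [hftc, intervalIntegral.integral_sub hi1 hi2,
    intervalIntegral.integral_const_mul, intervalIntegral.integral_const_mul] at hmono
  have hr1 : ∫ s in (0 : ℝ)..t, ‖r (pr s)‖ ^ 2 ≤ ‖toL H r‖ ^ 2 := by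
    rw [norm_toL_sq]
    apply intervalIntegral.integral_mono_interval le_rfl t.2.1 t.2.2
    · exact Filter.Eventually.of_forall fun s => by positivity
    · exact (hrc.norm.pow 2).intervalIntegrable _ _
  have hr2 := mul_le_mul_of_nonneg_left hr1 hl.le
  linarith

/-- the operator `T + λ∫` -/
def SS (D : H →L[ℝ] Z) (lam : ℝ) : LI H →L[ℝ] LI H := mapL (TT D) + lam • intL H

theorem SS_toL (D : H →L[ℝ] Z) (lam : ℝ) (u : CI H) :
    SS D lam (toL H u) = toL H (mapC (TT D) u + lam • intC H (toL H u)) := by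
  simp only [SS, _root_.add_apply, _root_.smul_apply, map_add, map_smul,
    mapL_toL]
  rfl

theorem solG_SS {D : H →L[ℝ] Z} (hD : Function.Injective D) {lam : ℝ} (hl : 0 < lam) (v : LI H) :
    solG hD lam (SS D lam v) = lam • intL H v := by
  symm
  apply solG_eq hD hl
  have h1 : mapL (TT D) (intL H v) = intL H (mapL (TT D) v) := by
    simp only [intL, ContinuousLinearMap.comp_apply, mapL_toL, mapC_intC]
  simp only [SS, _root_.add_apply, _root_.smul_apply, map_add, map_smul,
    h1, smul_add]

theorem solW_SS {D : H →L[ℝ] Z} (hD : Function.Injective D) {lam : ℝ} (hl : 0 < lam) (v : LI H) :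
    solW hD lam (SS D lam v) = lam • mapC D (intC H v) := by
  apply toL_injective
  rw [(solGW_spec hD hl).2.1, solG_SS hD hl, map_smul, map_smul, intL,
    ContinuousLinearMap.comp_apply, mapL_toL]

theorem inner_intL_nonneg (v : LI H) : 0 ≤ inner ℝ (intL H v) v := by
  have hd : DenseRange (toL H) := ContinuousMap.toLp_denseRange H volume ℝ (by norm_num)
  refine hd.induction_on (p := fun v => 0 ≤ inner ℝ (intL H v) v) v ?_ ?_
  · exact isClosed_le continuous_const ((intL H).continuous.inner continuous_id)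
  · intro u
    set pr : ℝ → unitInterval := projIcc 0 1 zero_le_one with hpr
    have hprc : Continuous pr := continuous_projIcc
    set F : ℝ → H := fun s => ∫ x in (0 : ℝ)..s, u (pr x) with hF
    have huc : Continuous fun x => u (pr x) := u.continuous.comp hprc
    have hFd : ∀ s, HasDerivAt F (u (pr s)) s := fun s =>
      (Continuous.integral_hasStrictDerivAt huc 0 s).hasDerivAt
    have hFc : Continuous F := continuous_iff_continuousAt.2 fun s => (hFd s).continuousAt
    have hUF : ∀ s ∈ Icc (0 : ℝ) 1, intC H (toL H u) (pr s) = F s := by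
      intro s hs
      rw [intC_toL]
      have : ((pr s : unitInterval) : ℝ) = s := by
        rw [hpr, projIcc_of_mem _ hs]
      rw [this]
    have h1 : inner ℝ (intL H (toL H u)) (toL H u) =
        ∫ s : unitInterval, inner ℝ (intC H (toL H u) s) (u s) := by
      rw [L2.inner_def]
      refine integral_congr_ae ?_
      filter_upwards [toL_coe u, toL_coe (intC H (toL H u))] with s hs hs2
      rw [hs, intL, ContinuousLinearMap.comp_apply, hs2]
    rw [h1, int_all (fun s => inner ℝ (intC H (toL H u) s) (u s))]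
    have h2 : ∫ s in (0 : ℝ)..1, inner ℝ (intC H (toL H u) (pr s)) (u (pr s)) =
        ∫ s in (0 : ℝ)..1, inner ℝ (F s) (u (pr s)) := by
      apply intervalIntegral.integral_congr
      intro s hs
      rw [uIcc_of_le zero_le_one] at hs
      simp only [hUF s hs]
    rw [h2]
    have hsq : ∀ s, HasDerivAt (fun s => ‖F s‖ ^ 2) (2 * inner ℝ (F s) (u (pr s))) s :=
      fun s => (hFd s).norm_sq
    have hc : Continuous fun s => inner ℝ (F s) (u (pr s)) := hFc.inner huc
    have hftc := intervalIntegral.integral_eq_sub_of_hasDerivAt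
      (a := (0 : ℝ)) (b := 1) (fun s _ => hsq s)
      ((continuous_const.mul hc).intervalIntegrable _ _)
    rw [intervalIntegral.integral_const_mul] at hftc
    have hF0 : F 0 = 0 := by simp [hF]
    rw [hF0] at hftc
    have : 0 ≤ ‖F 1‖ ^ 2 := by positivity
    simp at hftc
    linarith

theorem inner_mapL (D : H →L[ℝ] Z) (v : LI H) :
    inner ℝ (mapL (TT D) v) v = ‖mapL D v‖ ^ 2 := by
  rw [← real_inner_self_eq_norm_sq, L2.inner_def, L2.inner_def]
  refine integral_congr_ae ?_
  filter_upwards [mapL_coe (TT D) v, mapL_coe D v] with s hs hs2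
  rw [hs, hs2, TT, ContinuousLinearMap.comp_apply, ContinuousLinearMap.adjoint_inner_left]

omit [CompleteSpace H] [CompleteSpace Z] in
theorem mapL_inj {D : H →L[ℝ] Z} (hD : Function.Injective D) {v : LI H} (h : mapL D v = 0) :
    v = 0 := by
  rw [Lp.eq_zero_iff_ae_eq_zero]
  have h1 := mapL_coe D v
  rw [h] at h1
  filter_upwards [h1, Lp.coeFn_zero Z 2 (volume : Measure unitInterval)] with s hs hs2
  rw [hs2] at hs
  apply hD
  simpa using hs.symm

theorem SS_dense {D : H →L[ℝ] Z} (hD : Function.Injective D) {lam : ℝ} (hl : 0 < lam) :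
    DenseRange (SS D lam) := by
  have h1 : (LinearMap.range (SS D lam : LI H →ₗ[ℝ] LI H))ᗮ = ⊥ := by
    rw [Submodule.eq_bot_iff]
    intro v hv
    rw [Submodule.mem_orthogonal] at hv
    have h2 := hv (SS D lam v) ⟨v, rfl⟩
    have h3 : inner ℝ (SS D lam v) v = ‖mapL D v‖ ^ 2 + lam * inner ℝ (intL H v) v := by
      simp only [SS, _root_.add_apply, _root_.smul_apply, inner_add_left,
        inner_smul_left, inner_mapL]
      simp
    rw [h3] at h2
    have h4 := mul_nonneg hl.le (inner_intL_nonneg v)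
    have h5 : ‖mapL D v‖ ^ 2 = 0 := le_antisymm (by linarith) (by positivity)
    apply mapL_inj hD
    simpa using h5
  have h2 := (Submodule.topologicalClosure_eq_top_iff
    (K := LinearMap.range (SS D lam : LI H →ₗ[ℝ] LI H))).2 h1
  have h3 := Submodule.dense_iff_topologicalClosure_eq_top.2 h2
  have h4 : ((LinearMap.range (SS D lam : LI H →ₗ[ℝ] LI H) : Submodule ℝ (LI H)) : Set (LI H)) =
      Set.range (SS D lam) := by
    ext x
    simp
  rw [h4] at h3
  exact h3

theorem bounds {D : H →L[ℝ] Z} (hD : Function.Injective D) {lam : ℝ} (hl : 0 < lam) (g0 : H)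
    (f : LI H) :
    lam * ‖toL H (cst H g0) - solG hD lam f‖ ^ 2 ≤
      ‖D g0‖ ^ 2 + lam * ‖f - toL H (cst H g0)‖ ^ 2 ∧
    ‖cst Z (D g0) - solW hD lam f‖ ^ 2 ≤ ‖D g0‖ ^ 2 + lam * ‖f - toL H (cst H g0)‖ ^ 2 := by
  have hd : DenseRange (SS D lam ∘ toL H) :=
    (SS_dense hD hl).comp (ContinuousMap.toLp_denseRange H volume ℝ (by norm_num))
      (SS D lam).continuous
  have hG : Continuous fun f => solG hD lam f := (solG hD lam).continuous
  have hW : Continuous fun f => solW hD lam f := (solW hD lam).continuous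
  refine hd.induction_on (p := fun f => lam * ‖toL H (cst H g0) - solG hD lam f‖ ^ 2 ≤
      ‖D g0‖ ^ 2 + lam * ‖f - toL H (cst H g0)‖ ^ 2 ∧
    ‖cst Z (D g0) - solW hD lam f‖ ^ 2 ≤ ‖D g0‖ ^ 2 + lam * ‖f - toL H (cst H g0)‖ ^ 2) f ?_ ?_
  · have k1 : Continuous fun f : LI H => lam * ‖toL H (cst H g0) - solG hD lam f‖ ^ 2 :=
      continuous_const.mul ((continuous_const.sub hG).norm.pow 2)
    have k2 : Continuous fun f : LI H => ‖D g0‖ ^ 2 + lam * ‖f - toL H (cst H g0)‖ ^ 2 :=
      continuous_const.add (continuous_const.mul ((continuous_id.sub continuous_const).norm.pow 2))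
    have k3 : Continuous fun f : LI H => ‖cst Z (D g0) - solW hD lam f‖ ^ 2 :=
      (continuous_const.sub hW).norm.pow 2
    exact (isClosed_le k1 k2).inter (isClosed_le k3 k2)
  · intro u
    have e1 : (SS D lam ∘ toL H) u - toL H (cst H g0) =
        toL H (mapC (TT D) u + lam • intC H (toL H u) - cst H g0) := by
      rw [Function.comp_apply, SS_toL, map_sub]
    have e2 : toL H (cst H g0) - solG hD lam ((SS D lam ∘ toL H) u) =
        toL H (cst H g0 - lam • intC H (toL H u)) := by
      rw [Function.comp_apply, solG_SS hD hl, map_sub, map_smul, intL,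
        ContinuousLinearMap.comp_apply]
    have e3 : cst Z (D g0) - solW hD lam ((SS D lam ∘ toL H) u) =
        mapC D (cst H g0 - lam • intC H (toL H u)) := by
      rw [Function.comp_apply, solW_SS hD hl, map_sub, map_smul]
      congr 1
      ext t
      simp
    rw [e1, e2, e3]
    constructor
    · have h := energy D hl g0 u 1
      rw [norm_toL_sq]
      have h0 : 0 ≤ ‖D ((cst H g0 - lam • intC H (toL H u)) 1)‖ ^ 2 := by positivity
      have h1 : ((1 : unitInterval) : ℝ) = 1 := rfl
      rw [h1] at h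
      linarith
    · have hb : 0 ≤ ‖D g0‖ ^ 2 + lam *
          ‖toL H (mapC (TT D) u + lam • intC H (toL H u) - cst H g0)‖ ^ 2 := by positivity
      rw [← Real.sqrt_le_sqrt_iff hb, Real.sqrt_sq (norm_nonneg _)]
      rw [ContinuousMap.norm_le _ (Real.sqrt_nonneg _)]
      intro t
      rw [mapC_apply]
      apply Real.le_sqrt_of_sq_le
      have h := energy D hl g0 u t
      have h0 : 0 ≤ ∫ s in (0 : ℝ)..t, ‖(cst H g0 - lam • intC H (toL H u))
        (projIcc 0 1 zero_le_one s)‖ ^ 2 :=
        intervalIntegral.integral_nonneg t.2.1 fun s _ => by positivity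
      have h1 := mul_nonneg hl.le h0
      linarith

end EA1b

/-- the free part: solution with initial value `T g0` -/
theorem free_bound {D : H →L[ℝ] Z} (hD : Function.Injective D) {lam : ℝ} (hl : 0 < lam) (g0 : H) :
    Real.sqrt lam * ‖toL H (cst H g0) - solG hD lam (toL H (cst H g0))‖ ≤ ‖D g0‖ ∧
    ‖cst Z (D g0) - solW hD lam (toL H (cst H g0))‖ ≤ ‖D g0‖ := by
  obtain ⟨h1, h2⟩ := EA1b.bounds hD hl g0 (toL H (cst H g0))
  rw [sub_self, norm_zero] at h1 h2
  have h3 : ‖D g0‖ ^ 2 + lam * (0 : ℝ) ^ 2 = ‖D g0‖ ^ 2 := by ring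
  rw [h3] at h1 h2
  constructor
  · apply le_of_sq_le_sq _ (norm_nonneg _)
    rw [mul_pow, Real.sq_sqrt hl.le]
    exact h1
  · exact le_of_sq_le_sq h2 (norm_nonneg _)

end

end Pool.Agent.Helper15.NF
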