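import Pool.Agent.Helper15.NF.EA1

open MeasureTheory Set
open scoped unitInterval

namespace Pool.Agent.Helper15.NF

noncomputable section

theorem EA1c_abs {E : Type*} [NormedAddCommGroup E] [NormedSpace ℝ E] [CompleteSpace E]
    (S : ℝ → E →L[ℝ] E) (hn : ∀ mu, 0 < mu → ‖S mu‖ ≤ 1)
    (hres : ∀ lam mu, 0 < lam → 0 < mu → ∀ f,
      S lam f = S mu ((lam / mu) • f + (1 - lam / mu) • S lam f)) (n : ℕ) {mu : ℝ} (hm : 0 < mu) :
    ContDiffAt ℝ n S mu := by
  let G0 : E →L[ℝ] E := S mu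
  have hn : ‖G0‖ ≤ 1 := hn mu hm
  let a : ℝ → (E →L[ℝ] E) := fun lam => 1 - (1 - lam / mu) • G0
  have ha1 : a mu = 1 := by
    simp [a, hm.ne']
  have hev : S =ᶠ[nhds mu] fun lam => Ring.inverse (a lam) * ((lam / mu) • G0) := by
    have hnhds : ∀ᶠ lam in nhds mu, 0 < lam ∧ |1 - lam / mu| < 1 := by
      have h1 : ∀ᶠ lam in nhds mu, 0 < lam := lt_mem_nhds hm
      have h2 : ContinuousAt (fun lam : ℝ => |1 - lam / mu|) mu := by
        fun_prop
      have h3 : ∀ᶠ lam in nhds mu, |1 - lam / mu| < 1 := by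
        apply h2.eventually (gt_mem_nhds _)
        simp [hm.ne']
      exact h1.and h3
    filter_upwards [hnhds] with lam hlam
    have hlt : ‖(1 - lam / mu) • G0‖ < 1 := by
      have h4 : ‖(1 - lam / mu) • G0‖ ≤ |1 - lam / mu| * ‖G0‖ := by
        rw [norm_smul, Real.norm_eq_abs]
      have h5 : |1 - lam / mu| * ‖G0‖ ≤ |1 - lam / mu| * 1 := by gcongr
      linarith [hlam.2]
    have hu : IsUnit (a lam) := (Units.oneSub _ hlt).isUnit
    have hmul : a lam * S lam = (lam / mu) • G0 := by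
      ext1 f
      have h := hres lam mu hlam.1 hm f
      rw [map_add, map_smul, map_smul] at h
      simp only [a, ContinuousLinearMap.mul_apply, ContinuousLinearMap.sub_apply,
        ContinuousLinearMap.one_apply, ContinuousLinearMap.smul_apply]
      exact sub_eq_iff_eq_add.mpr h
    rw [← hmul, ← mul_assoc, Ring.inverse_mul_cancel _ hu, one_mul]
  refine ContDiffAt.congr_of_eventuallyEq ?_ hev
  have hac : ContDiffAt ℝ n a mu := by
    show ContDiffAt ℝ n (fun lam => (1 : E →L[ℝ] E) - (1 - lam / mu) • G0) mu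
    fun_prop
  have hinv : ContDiffAt ℝ n (Ring.inverse : (E →L[ℝ] E) → (E →L[ℝ] E)) (a mu) := by
    rw [ha1]
    exact contDiffAt_ringInverse ℝ (1 : (E →L[ℝ] E)ˣ)
  have h1 : ContDiffAt ℝ n (fun lam => Ring.inverse (a lam)) mu := hinv.comp mu hac
  have h2 : ContDiffAt ℝ n (fun lam : ℝ => (lam / mu) • G0) mu := by
    fun_prop
  exact h1.mul h2

theorem EA1c_abs2 {E F : Type*} [NormedAddCommGroup E] [NormedSpace ℝ E]
    [NormedAddCommGroup F] [NormedSpace ℝ F]
    (S : ℝ → E →L[ℝ] E) (W : ℝ → E →L[ℝ] F) (n : ℕ)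
    (hS : ∀ mu, 0 < mu → ContDiffAt ℝ n S mu)
    (hres : ∀ lam mu, 0 < lam → 0 < mu → ∀ f,
      W lam f = W mu ((lam / mu) • f + (1 - lam / mu) • S lam f)) {mu : ℝ} (hm : 0 < mu) :
    ContDiffAt ℝ n W mu := by
  let W0 : E →L[ℝ] F := W mu
  have hev : W =ᶠ[nhds mu] fun lam => W0.comp ((lam / mu) • ContinuousLinearMap.id ℝ E +
      (1 - lam / mu) • S lam) := by
    filter_upwards [lt_mem_nhds hm] with lam hlam
    ext1 f
    exact hres lam mu hlam hm f
  refine ContDiffAt.congr_of_eventuallyEq ?_ hev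
  have hSm := hS mu hm
  have hA : ContDiffAt ℝ n (fun lam => (lam / mu) • ContinuousLinearMap.id ℝ E +
      (1 - lam / mu) • S lam) mu := by
    fun_prop
  exact contDiffAt_const.clm_comp hA

variable {H Z : Type*} [NormedAddCommGroup H] [InnerProductSpace ℝ H] [CompleteSpace H]
  [NormedAddCommGroup Z] [InnerProductSpace ℝ Z] [CompleteSpace Z]

/-- resolvent identity -/
theorem EA1c_resolvent {D : H →L[ℝ] Z} (hD : Function.Injective D) {lam mu : ℝ} (hl : 0 < lam)
    (hm : 0 < mu) (f : LI H) :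
    solG hD lam f = solG hD mu ((lam / mu) • f + (1 - lam / mu) • solG hD lam f) := by
  apply solG_eq hD hm
  have h := (solGW_spec hD hl).1 f
  set g := solG hD lam f
  have h1 : mapL (TT D) g = lam • intL H f - lam • intL H g := by
    rw [← h]; abel
  rw [h1, map_add, map_smul, map_smul, smul_add, smul_smul, smul_smul]
  have h2 : mu * (lam / mu) = lam := by field_simp
  have h3 : mu * (1 - lam / mu) = mu - lam := by field_simp
  rw [h2, h3, sub_smul]
  abel

/-- smooth dependence on `λ` -/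
theorem EA1c_solG_at {D : H →L[ℝ] Z} (hD : Function.Injective D) (n : ℕ) {mu : ℝ} (hm : 0 < mu) :
    ContDiffAt ℝ n (fun lam => solG hD lam) mu := by
  refine EA1c_abs (fun lam => solG hD lam) (fun mu hm => ?_)
    (fun lam mu hl hm f => EA1c_resolvent hD hl hm f) n hm
  apply ContinuousLinearMap.opNorm_le_bound _ zero_le_one
  intro f
  rw [one_mul]
  exact (solGW_spec hD hm).2.2.1 f

/-- smooth dependence on `λ` -/
theorem solG_smooth {D : H →L[ℝ] Z} (hD : Function.Injective D) (n : ℕ) :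
    ContDiffOn ℝ n (fun lam => solG hD lam) (Ioi 0) :=
  fun _ hmu => (EA1c_solG_at hD n hmu).contDiffWithinAt

theorem solW_smooth {D : H →L[ℝ] Z} (hD : Function.Injective D) (n : ℕ) :
    ContDiffOn ℝ n (fun lam => solW hD lam) (Ioi 0) := by
  intro mu hm
  apply ContDiffAt.contDiffWithinAt
  refine EA1c_abs2 (fun lam => solG hD lam) (fun lam => solW hD lam) n
    (fun mu hm => EA1c_solG_at hD n hm) (fun lam mu hl hm f => ?_) hm
  apply toL_injective
  rw [(solGW_spec hD hl).2.1 f, (solGW_spec hD hm).2.1, ← EA1c_resolvent hD hl hm f]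

end

end Pool.Agent.Helper15.NF
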