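import Pool.Agent.Helper15.NF.EA1
import Pool.Agent.Helper15.NF.EA0c

open MeasureTheory Set
open scoped unitInterval

namespace Pool.Agent.Helper15.NF

noncomputable section

variable {H Z : Type*} [NormedAddCommGroup H] [InnerProductSpace ℝ H] [CompleteSpace H]
  [NormedAddCommGroup Z] [InnerProductSpace ℝ Z] [CompleteSpace Z]

theorem sclL_intL {E : Type*} [NormedAddCommGroup E] [NormedSpace ℝ E] [CompleteSpace E]
    (s : unitInterval) (hs : 0 < s) (u : LI E) :
    sclL E s hs (intL E u) = (s : ℝ) • intL E (sclL E s hs u) := by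
  have hs0 : (s : ℝ) ≠ 0 := by
    have : (0 : ℝ) < s := hs
    exact this.ne'
  have h1 : intC E (sclL E s hs u) = (s : ℝ)⁻¹ • sclC s (intC E u) := by
    ext t
    rw [intC_sclL s hs u t]
    rfl
  unfold intL
  rw [ContinuousLinearMap.comp_apply, ContinuousLinearMap.comp_apply, sclL_toL, h1,
    map_smul, smul_smul, mul_inv_cancel₀ hs0, one_smul]

/-- time scaling -/
theorem solG_scale {D : H →L[ℝ] Z} (hD : Function.Injective D) {lam : ℝ} (hl : 0 < lam)
    (s : unitInterval) (hs : 0 < s) (f : LI H) :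
    solG hD (s * lam) (sclL H s hs f) = sclL H s hs (solG hD lam f) ∧
    solW hD (s * lam) (sclL H s hs f) = sclC s (solW hD lam f) := by
  have hsp : (0 : ℝ) < s := hs
  have hsl : 0 < (s : ℝ) * lam := mul_pos hsp hl
  obtain ⟨h1, h2, -, -, -⟩ := solGW_spec hD hl
  obtain ⟨h1', h2', -, -, -⟩ := solGW_spec hD hsl
  have hG : solG hD (s * lam) (sclL H s hs f) = sclL H s hs (solG hD lam f) := by
    symm
    apply solG_eq hD hsl
    have h3 := congrArg (sclL H s hs) (h1 f)
    rw [map_add, map_smul, map_smul, sclL_mapL, sclL_intL, sclL_intL, smul_smul, smul_smul,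
      mul_comm lam] at h3
    exact h3
  refine ⟨hG, ?_⟩
  apply toL_injective
  rw [h2', hG, ← sclL_mapL, ← h2, sclL_toL]

end

end Pool.Agent.Helper15.NF
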