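import Pool.Agent.Helper15.NF.EPre

/-!
E-part: the frozen gauge. `L i` = frozen lengths, `x ∈ [0,1]` frozen variable, current arclength from
the junction is `s = L i * (x + e i t * chz x)`, so the current length is `L i * (1 + e i t)`.
-/

open Set MeasureTheory intervalIntegral Filter Topology

namespace Pool.Agent.Helper15.NF

/-- gauge function: 0 on [0,1/3], 1 on [2/3,1] -/
noncomputable def chz (x : ℝ) : ℝ := Real.smoothTransition (3 * x - 1)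

/-- classical solution in the frozen gauge on the time interval `(0,τ)`;
`z = Θ_x / L`, `z1 = z_x / L`, `z2 = z1_x / L`; `q` are the curvatures at the junction -/
structure Frozen (L : Fin 3 → ℝ) (τ : ℝ) where
  e : Fin 3 → ℝ → ℝ
  de : Fin 3 → ℝ → ℝ
  Th : Fin 3 → ℝ → ℝ → ℝ
  z : Fin 3 → ℝ → ℝ → ℝ
  z1 : Fin 3 → ℝ → ℝ → ℝ
  z2 : Fin 3 → ℝ → ℝ → ℝ
  L_pos : ∀ i, 0 < L i
  /-- the gauge stays admissible -/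
  adm : ∀ i, ∀ t ∈ Ioo 0 τ, ∀ x, 1 / 2 ≤ 1 + e i t * deriv chz x
  adm1 : ∀ i, ∀ t ∈ Ioo 0 τ, |e i t| ≤ 1 / 2
  e_t : ∀ i, ∀ t ∈ Ioo 0 τ, HasDerivAt (e i) (de i t) t
  de_cont : ∀ i, ContinuousOn (de i) (Ioo 0 τ)
  Th_cont : ∀ i, ContinuousOn (fun p : ℝ × ℝ => Th i p.1 p.2) (Ioo 0 τ ×ˢ Icc 0 1)
  z_cont : ∀ i, ContinuousOn (fun p : ℝ × ℝ => z i p.1 p.2) (Ioo 0 τ ×ˢ Icc 0 1)
  z1_cont : ∀ i, ContinuousOn (fun p : ℝ × ℝ => z1 i p.1 p.2) (Ioo 0 τ ×ˢ Icc 0 1)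
  z2_cont : ∀ i, ContinuousOn (fun p : ℝ × ℝ => z2 i p.1 p.2) (Ioo 0 τ ×ˢ Icc 0 1)
  Th_x : ∀ i, ∀ t ∈ Ioo 0 τ, ∀ x ∈ Icc (0:ℝ) 1,
    HasDerivWithinAt (Th i t) (L i * z i t x) (Icc 0 1) x
  z_x : ∀ i, ∀ t ∈ Ioo 0 τ, ∀ x ∈ Icc (0:ℝ) 1,
    HasDerivWithinAt (z i t) (L i * z1 i t x) (Icc 0 1) x
  z1_x : ∀ i, ∀ t ∈ Ioo 0 τ, ∀ x ∈ Icc (0:ℝ) 1,
    HasDerivWithinAt (z1 i t) (L i * z2 i t x) (Icc 0 1) x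
  /-- the equation; `Ψ = 1 / (1 + e χ')` -/
  Th_t : ∀ i, ∀ t ∈ Ioo 0 τ, ∀ x ∈ Icc (0:ℝ) 1,
    HasDerivAt (fun s => Th i s x)
      ((1 + e i t * deriv chz x)⁻¹ ^ 2 * z1 i t x
        - (1 + e i t * deriv chz x)⁻¹ ^ 3 * (e i t / L i) * deriv (deriv chz) x * z i t x
        + (-(z (i + 1) t 0 - z (i + 2) t 0) / Real.sqrt 3 + L i * de i t * chz x
            + L i * ∫ y in (0:ℝ)..x, (1 + e i t * deriv chz y)⁻¹ * z i t y ^ 2)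
          * ((1 + e i t * deriv chz x)⁻¹ * z i t x)) t
  e_eq : ∀ i, ∀ t ∈ Ioo 0 τ,
    -(z (i + 1) t 0 - z (i + 2) t 0) / Real.sqrt 3 + L i * de i t
      + L i * (∫ y in (0:ℝ)..1, (1 + e i t * deriv chz y)⁻¹ * z i t y ^ 2) = 0
  Th_J : ∀ i, ∀ t ∈ Ioo 0 τ, Th i t 0 = Th 2 t 0
  z_J : ∀ t ∈ Ioo 0 τ, ∑ i, z i t 0 = 0
  Th_axis0 : ∀ t ∈ Ioo 0 τ, Th 0 t 1 = Real.pi / 3
  Th_axis1 : ∀ t ∈ Ioo 0 τ, Th 1 t 1 = -(Real.pi / 3)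
  z_far : ∀ t ∈ Ioo 0 τ, z 2 t 1 = 0

/-- starting condition in the frozen gauge -/
structure FStarts {Lx : ℝ} {L : Fin 3 → ℝ} {τ : ℝ} (Z : Frozen L τ) (I : Init Lx) : Prop where
  L_eq : ∀ i, L i = I.ell i
  e : ∀ i, Tendsto (Z.e i) (𝓝[>] 0) (𝓝 0)
  Th : ∀ i, ∀ ε > 0, ∀ᶠ t in 𝓝[>] (0:ℝ), ∀ x ∈ Icc (0:ℝ) 1, |Z.Th i t x - I.th i x| < ε
  z : ∀ i, Tendsto (fun t => ∫ x in (0:ℝ)..1, (Z.z i t x - I.k i x) ^ 2) (𝓝[>] 0) (𝓝 0)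

end Pool.Agent.Helper15.NF
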