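import Pool.Agent.Helper15.NF.EA1
import Pool.Agent.Helper15.NF.EA0b
import Pool.Agent.Helper15.NF.EFr

/-!
E-part: functions on the star graph. A point of the graph is `(i,x)`, `i` = edge, `x ∈ [0,1]`.
In `HG` the functions are multiplied by `√L_i` (so that no weight is needed in the scalar product).
-/

open MeasureTheory Set
open scoped unitInterval

namespace Pool.Agent.Helper15.NF

noncomputable section

/-- continuous functions on the three edges -/
abbrev CG := C(Fin 3 × unitInterval, ℝ)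
/-- the measure on the three edges -/
def mu3 : Measure (Fin 3 × unitInterval) := (Measure.count : Measure (Fin 3)).prod volume

instance : IsFiniteMeasure mu3 := by unfold mu3; infer_instance

abbrev HG := Lp ℝ 2 mu3
/-- three real numbers, one for every edge -/
abbrev R3 := Fin 3 → ℝ

def ofC : CG →L[ℝ] HG := ContinuousMap.toLp 2 mu3 ℝ

instance volume_unit_pos : (volume : Measure unitInterval).IsOpenPosMeasure := by
  refine ⟨fun U hU hne => ?_⟩
  obtain ⟨x, hx⟩ := hne
  rw [Metric.isOpen_iff] at hU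
  obtain ⟨ε, hε, hball⟩ := hU x hx
  have h1 : ∃ a b : ℝ, a < b ∧ Ioo a b ⊆ Subtype.val '' U := by
    by_cases hx1 : (x : ℝ) < 1
    · refine ⟨x, min 1 (x + ε), lt_min hx1 (by linarith), ?_⟩
      intro y hy
      have hy1 : y < 1 := lt_of_lt_of_le hy.2 (min_le_left _ _)
      have hy2 : y < x + ε := lt_of_lt_of_le hy.2 (min_le_right _ _)
      have hy0 : 0 ≤ y := x.2.1.trans hy.1.le
      refine ⟨⟨y, hy0, hy1.le⟩, hball ?_, rfl⟩
      rw [Metric.mem_ball, Subtype.dist_eq, Real.dist_eq, abs_lt]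
      constructor <;> linarith [hy.1]
    · have hx1' : (x : ℝ) = 1 := le_antisymm x.2.2 (not_lt.1 hx1)
      refine ⟨max 0 (1 - ε), 1, max_lt one_pos (by linarith), ?_⟩
      intro y hy
      have hy1 : 0 < y := lt_of_le_of_lt (le_max_left _ _) hy.1
      have hy2 : 1 - ε < y := lt_of_le_of_lt (le_max_right _ _) hy.1
      refine ⟨⟨y, hy1.le, hy.2.le⟩, hball ?_, rfl⟩
      rw [Metric.mem_ball, Subtype.dist_eq, Real.dist_eq, hx1', abs_lt]
      constructor <;> linarith [hy.2]
  obtain ⟨a, b, hab, hsub⟩ := h1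
  rw [unitInterval.volume_apply]
  intro h0
  have h2 := measure_mono_null hsub h0
  rw [Real.volume_Ioo, ENNReal.ofReal_eq_zero] at h2
  linarith

instance count_pos : (Measure.count : Measure (Fin 3)).IsOpenPosMeasure := by
  refine ⟨fun U _ hne h0 => ?_⟩
  rw [Measure.count_eq_zero_iff] at h0
  exact hne.ne_empty h0

instance : mu3.IsOpenPosMeasure := by unfold mu3; infer_instance

theorem ofC_injective : Function.Injective ofC :=
  ContinuousMap.toLp_injective (p := 2) (𝕜 := ℝ) mu3

theorem ae_mu3 {P : Fin 3 × unitInterval → Prop} (h : ∀ᵐ p ∂mu3, P p) (i : Fin 3) :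
    ∀ᵐ y : unitInterval, P (i, y) :=
  (Measure.ae_count_iff.1 (Measure.ae_ae_of_ae_prod h)) i

theorem integrable_mul (g h : HG) : Integrable (fun p => g p * h p) mu3 := by
  have h1 := L2.integrable_inner (𝕜 := ℝ) h g
  refine h1.congr (Filter.Eventually.of_forall fun p => ?_)
  simp

theorem integrable_fiber {f : Fin 3 × unitInterval → ℝ} (hf : Integrable f mu3) (i : Fin 3) :
    Integrable (fun y : unitInterval => f (i, y)) :=
  (Measure.ae_count_iff.1 hf.prod_right_ae) i

theorem integral_mu3 {f : Fin 3 × unitInterval → ℝ} (hf : Integrable f mu3) :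
    ∫ p, f p ∂mu3 = ∑ i, ∫ y : unitInterval, f (i, y) := by
  unfold mu3 at hf ⊢
  rw [integral_prod f hf, integral_fintype]
  · simp [Measure.real]
  · exact Integrable.of_finite

theorem inner_HG (g h : HG) :
    inner ℝ g h = ∑ i, ∫ x : unitInterval, g (i, x) * h (i, x) := by
  rw [← integral_mu3 (integrable_mul g h), L2.inner_def]
  refine integral_congr_ae (Filter.Eventually.of_forall fun p => ?_)
  simp [mul_comm]

/-- primitives are continuous -/
theorem continuous_prim {f : unitInterval → ℝ} (hf : Integrable f) :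
    Continuous fun x : unitInterval => ∫ y in Set.Iic x, f y := by
  rw [continuous_iff_continuousAt]
  intro x0
  have h0 : (fun x : unitInterval => ∫ y in Set.Iic x, f y) =
      fun x => ∫ y, (Set.Iic x).indicator f y := by
    funext x
    rw [integral_indicator measurableSet_Iic]
  rw [h0]
  refine continuousAt_of_dominated (bound := fun y => ‖f y‖) ?_ ?_ hf.norm ?_
  · exact Filter.Eventually.of_forall fun x => hf.aestronglyMeasurable.indicator measurableSet_Iic
  · exact Filter.Eventually.of_forall fun x =>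
      Filter.Eventually.of_forall fun y => norm_indicator_le_norm_self _ _
  · have h1 : ∀ᵐ y : unitInterval, y ≠ x0 := by
      rw [ae_iff]
      simp
    filter_upwards [h1] with y hy
    rcases lt_or_gt_of_ne hy with h | h
    · have h2 : ∀ᶠ x in nhds x0, (Set.Iic x).indicator f y = f y := by
        filter_upwards [lt_mem_nhds h] with x hx
        have h3 : y ∈ Set.Iic x := le_of_lt hx
        exact Set.indicator_of_mem h3 f
      exact continuousAt_const.congr (h2.mono fun x hx => hx.symm)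
    · have h2 : ∀ᶠ x in nhds x0, (Set.Iic x).indicator f y = (0 : ℝ) := by
        filter_upwards [gt_mem_nhds h] with x hx
        have h3 : y ∉ Set.Iic x := fun h4 => absurd h4 (not_le.2 hx)
        exact Set.indicator_of_notMem h3 f
      exact continuousAt_const.congr (h2.mono fun x hx => hx.symm)

theorem norm_prim_le (g h : HG) (i : Fin 3) (x : unitInterval) :
    ‖∫ y in Set.Iic x, g (i, y) * h (i, y)‖ ≤ ‖g‖ * ‖h‖ := by
  have h1 : Integrable (fun p => |g p| * |h p|) mu3 := by
    refine (integrable_mul g h).norm.congr (Filter.Eventually.of_forall fun p => ?_)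
    simp
  have h2 : ∫ p, |g p| * |h p| ∂mu3 ≤ ‖g‖ * ‖h‖ := by
    have h3 := real_inner_le_norm (|g| : HG) (|h| : HG)
    rw [norm_abs_eq_norm, norm_abs_eq_norm, L2.inner_def] at h3
    refine le_trans (le_of_eq ?_) h3
    refine integral_congr_ae ?_
    filter_upwards [Lp.coeFn_abs g, Lp.coeFn_abs h] with p hg hh
    rw [hg, hh]
    simp [mul_comm]
  calc ‖∫ y in Set.Iic x, g (i, y) * h (i, y)‖
      ≤ ∫ y in Set.Iic x, ‖g (i, y) * h (i, y)‖ := norm_integral_le_integral_norm _
    _ ≤ ∫ y : unitInterval, ‖g (i, y) * h (i, y)‖ := by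
        refine setIntegral_le_integral ?_ (Filter.Eventually.of_forall fun y => norm_nonneg _)
        exact (integrable_fiber (integrable_mul g h) i).norm
    _ = ∫ y : unitInterval, |g (i, y)| * |h (i, y)| := by simp
    _ ≤ ∑ j, ∫ y : unitInterval, |g (j, y)| * |h (j, y)| := by
        refine Finset.single_le_sum (f := fun j => ∫ y : unitInterval, |g (j, y)| * |h (j, y)|)
          (fun j _ => integral_nonneg fun y => by positivity) (Finset.mem_univ i)
    _ = ∫ p, |g p| * |h p| ∂mu3 := (integral_mu3 h1).symm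
    _ ≤ ‖g‖ * ‖h‖ := h2

/-- `V2 g h (i,x) = ∫_0^x g h` -/
theorem exists_V2 : ∃ B : HG →L[ℝ] HG →L[ℝ] CG,
    (∀ g h i x, B g h (i, x) = ∫ y in Set.Iic x, g (i, y) * h (i, y)) ∧
    ∀ g h, ‖B g h‖ ≤ ‖g‖ * ‖h‖ := by
  let b : HG → HG → CG := fun g h =>
    ⟨fun p => ∫ y in Set.Iic p.2, g (p.1, y) * h (p.1, y),
      continuous_prod_of_discrete_left.2 fun i =>
        continuous_prim (integrable_fiber (integrable_mul g h) i)⟩
  have hb : ∀ g h i x, b g h (i, x) = ∫ y in Set.Iic x, g (i, y) * h (i, y) :=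
    fun _ _ _ _ => rfl
  have hint : ∀ (g h : HG) (i : Fin 3) (x : unitInterval),
      Integrable (fun y => g (i, y) * h (i, y)) (volume.restrict (Set.Iic x)) :=
    fun g h i x => (integrable_fiber (integrable_mul g h) i).restrict
  let B : HG →ₗ[ℝ] HG →ₗ[ℝ] CG := LinearMap.mk₂ ℝ b
    (by
      intro g g' h
      ext ⟨i, x⟩
      rw [ContinuousMap.add_apply, hb, hb, hb, ← integral_add (hint g h i x) (hint g' h i x)]
      refine integral_congr_ae (ae_restrict_of_ae ?_)
      filter_upwards [ae_mu3 (Lp.coeFn_add g g') i] with y hy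
      rw [hy, Pi.add_apply, add_mul])
    (by
      intro c g h
      ext ⟨i, x⟩
      rw [ContinuousMap.smul_apply, hb, hb, smul_eq_mul, ← integral_const_mul]
      refine integral_congr_ae (ae_restrict_of_ae ?_)
      filter_upwards [ae_mu3 (Lp.coeFn_smul c g) i] with y hy
      rw [hy, Pi.smul_apply, smul_eq_mul, mul_assoc])
    (by
      intro g h h'
      ext ⟨i, x⟩
      rw [ContinuousMap.add_apply, hb, hb, hb, ← integral_add (hint g h i x) (hint g h' i x)]
      refine integral_congr_ae (ae_restrict_of_ae ?_)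
      filter_upwards [ae_mu3 (Lp.coeFn_add h h') i] with y hy
      rw [hy, Pi.add_apply, mul_add])
    (by
      intro c g h
      ext ⟨i, x⟩
      rw [ContinuousMap.smul_apply, hb, hb, smul_eq_mul, ← integral_const_mul]
      refine integral_congr_ae (ae_restrict_of_ae ?_)
      filter_upwards [ae_mu3 (Lp.coeFn_smul c h) i] with y hy
      rw [hy, Pi.smul_apply, smul_eq_mul]
      ring)
  have hB : ∀ g h, ‖B g h‖ ≤ ‖g‖ * ‖h‖ := by
    intro g h
    rw [ContinuousMap.norm_le _ (by positivity)]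
    rintro ⟨i, x⟩
    exact norm_prim_le g h i x
  refine ⟨B.mkContinuous₂ 1 (fun g h => by simpa using hB g h), fun g h i x => rfl, fun g h => hB g h⟩
def V2 : HG →L[ℝ] HG →L[ℝ] CG := exists_V2.choose
theorem V2_apply (g h : HG) (i : Fin 3) (x : unitInterval) :
    V2 g h (i, x) = ∫ y in Set.Iic x, g (i, y) * h (i, y) := exists_V2.choose_spec.1 g h i x
theorem V2_norm_le (g h : HG) : ‖V2 g h‖ ≤ ‖g‖ * ‖h‖ := exists_V2.choose_spec.2 g h

/-- multiplication of an `L²` function by a continuous one -/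
theorem exists_mulG : ∃ B : CG →L[ℝ] HG →L[ℝ] HG,
    (∀ a g, (B a g : Fin 3 × unitInterval → ℝ) =ᵐ[mu3] fun p => a p * g p) ∧
    (∀ a g, ‖B a g‖ ≤ ‖a‖ * ‖g‖) ∧ (∀ a b, B a (ofC b) = ofC (a * b)) ∧
    (∀ a b g, B a (B b g) = B (a * b) g) ∧ (∀ g, B 1 g = g) := by
  have hmem : ∀ (a : CG) (g : HG), MemLp (fun p => a p * g p) 2 mu3 := by
    intro a g
    refine MemLp.of_le_mul (c := ‖a‖) (Lp.memLp g)
      (a.continuous.aestronglyMeasurable.mul (Lp.aestronglyMeasurable g)) ?_
    refine Filter.Eventually.of_forall fun p => ?_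
    rw [norm_mul]
    exact mul_le_mul_of_nonneg_right (a.norm_coe_le_norm p) (norm_nonneg _)
  let b : CG → HG → HG := fun a g => (hmem a g).toLp _
  have hb : ∀ a g, (b a g : Fin 3 × unitInterval → ℝ) =ᵐ[mu3] fun p => a p * g p :=
    fun a g => (hmem a g).coeFn_toLp
  let B : CG →ₗ[ℝ] HG →ₗ[ℝ] HG := LinearMap.mk₂ ℝ b
    (by
      intro a a' g
      apply Lp.ext
      filter_upwards [hb (a + a') g, hb a g, hb a' g, Lp.coeFn_add (b a g) (b a' g)] with
        p h1 h2 h3 h4
      rw [h1, h4, Pi.add_apply, h2, h3, ContinuousMap.add_apply, add_mul])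
    (by
      intro c a g
      apply Lp.ext
      filter_upwards [hb (c • a) g, hb a g, Lp.coeFn_smul c (b a g)] with p h1 h2 h3
      rw [h1, h3, Pi.smul_apply, h2, ContinuousMap.smul_apply, smul_eq_mul, smul_eq_mul,
        mul_assoc])
    (by
      intro a g g'
      apply Lp.ext
      filter_upwards [hb a (g + g'), hb a g, hb a g', Lp.coeFn_add (b a g) (b a g'),
        Lp.coeFn_add g g'] with p h1 h2 h3 h4 h5
      rw [h1, h4, Pi.add_apply, h2, h3, h5, Pi.add_apply, mul_add])
    (by
      intro c a g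
      apply Lp.ext
      filter_upwards [hb a (c • g), hb a g, Lp.coeFn_smul c (b a g), Lp.coeFn_smul c g] with
        p h1 h2 h3 h4
      rw [h1, h3, Pi.smul_apply, h2, h4, Pi.smul_apply, smul_eq_mul, smul_eq_mul]
      ring)
  have hB : ∀ a g, ‖B a g‖ ≤ ‖a‖ * ‖g‖ := by
    intro a g
    refine Lp.norm_le_mul_norm_of_ae_le_mul ?_
    filter_upwards [hb a g] with p hp
    show ‖(b a g) p‖ ≤ _
    rw [hp, norm_mul]
    exact mul_le_mul_of_nonneg_right (a.norm_coe_le_norm p) (norm_nonneg _)
  have hBc : ∀ a g, (B a g : Fin 3 × unitInterval → ℝ) =ᵐ[mu3] fun p => a p * g p := hb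
  refine ⟨B.mkContinuous₂ 1 (fun a g => by simpa using hB a g), fun a g => hb a g,
    fun a g => hB a g, fun a c => ?_, fun a c g => ?_, fun g => ?_⟩
  · apply Lp.ext
    filter_upwards [hb a (ofC c), ContinuousMap.coeFn_toLp (p := 2) (𝕜 := ℝ) mu3 c,
      ContinuousMap.coeFn_toLp (p := 2) (𝕜 := ℝ) mu3 (a * c)] with p h1 h2 h3
    have h1' : (B a (ofC c)) p = a p * (ofC c) p := h1
    have h2' : (ofC c) p = c p := h2
    have h3' : (ofC (a * c)) p = (a * c) p := h3
    show (B a (ofC c)) p = _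
    rw [h1', h2', h3', ContinuousMap.mul_apply]
  · apply Lp.ext
    filter_upwards [hBc a (B c g), hBc c g, hBc (a * c) g] with p h1 h2 h3
    show (B a (B c g)) p = (B (a * c) g) p
    rw [h1, h2, h3, ContinuousMap.mul_apply, mul_assoc]
  · apply Lp.ext
    filter_upwards [hBc 1 g] with p h1
    show (B 1 g) p = _
    rw [h1, ContinuousMap.one_apply, one_mul]
def mulG : CG →L[ℝ] HG →L[ℝ] HG := exists_mulG.choose
theorem mulG_coe (a : CG) (g : HG) :
    (mulG a g : Fin 3 × unitInterval → ℝ) =ᵐ[mu3] fun p => a p * g p := exists_mulG.choose_spec.1 a g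
theorem mulG_norm_le (a : CG) (g : HG) : ‖mulG a g‖ ≤ ‖a‖ * ‖g‖ := exists_mulG.choose_spec.2.1 a g
theorem mulG_ofC (a b : CG) : mulG a (ofC b) = ofC (a * b) := exists_mulG.choose_spec.2.2.1 a b
theorem mulG_mulG (a b : CG) (g : HG) : mulG a (mulG b g) = mulG (a * b) g :=
  exists_mulG.choose_spec.2.2.2.1 a b g
theorem mulG_one (g : HG) : mulG 1 g = g := exists_mulG.choose_spec.2.2.2.2 g

/-- `Vg g (i,x) = ∫_0^x g` -/
def Vg : HG →L[ℝ] CG := (V2.flip) (ofC 1)

theorem Vg_apply (g : HG) (i : Fin 3) (x : unitInterval) :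
    Vg g (i, x) = ∫ y in Set.Iic x, g (i, y) := by
  show V2 g (ofC 1) (i, x) = _
  rw [V2_apply]
  refine integral_congr_ae (ae_restrict_of_ae ?_)
  filter_upwards [ae_mu3 (ContinuousMap.coeFn_toLp (p := 2) (𝕜 := ℝ) mu3 (1 : CG)) i] with y hy
  have h1 : (ofC 1) (i, y) = (1 : CG) (i, y) := hy
  rw [h1, ContinuousMap.one_apply, mul_one]

/-- evaluation at a point -/
theorem exists_evG (p : Fin 3 × unitInterval) : ∃ A : CG →L[ℝ] ℝ, ∀ a, A a = a p :=
  ⟨ContinuousMap.evalCLM ℝ p, fun _ => rfl⟩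
def evG (p : Fin 3 × unitInterval) : CG →L[ℝ] ℝ := (exists_evG p).choose
@[simp] theorem evG_apply (p : Fin 3 × unitInterval) (a : CG) : evG p a = a p :=
  (exists_evG p).choose_spec a

/-- values at the outer ends -/
def ev1 : CG →L[ℝ] R3 := ContinuousLinearMap.pi (fun i => evG (i, 1))

/-- `kap a c (i,x) = c i * a (i,x)` -/
theorem exists_kap (a : CG) : ∃ A : R3 →L[ℝ] CG, ∀ c i x, A c (i, x) = c i * a (i, x) := by
  let A : R3 →ₗ[ℝ] CG :=
    { toFun := fun c => ⟨fun p => c p.1 * a p, by
        refine continuous_prod_of_discrete_left.2 fun i => ?_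
        have h1 : Continuous fun x : unitInterval => ((i, x) : Fin 3 × unitInterval) := by
          fun_prop
        exact (continuous_const (y := c i)).mul (a.continuous.comp h1)⟩
      map_add' := fun c c' => by ext p; simp [add_mul]
      map_smul' := fun r c => by ext p; simp [mul_assoc] }
  exact ⟨LinearMap.toContinuousLinearMap A, fun c i x => rfl⟩
def kapG (a : CG) : R3 →L[ℝ] CG := (exists_kap a).choose
@[simp] theorem kapG_apply (a : CG) (c : R3) (i : Fin 3) (x : unitInterval) :
    kapG a c (i, x) = c i * a (i, x) := (exists_kap a).choose_spec c i x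

/-! ### the operators depending on the lengths -/

variable (L : R3)

/-- `∫_0^1 (1-x) g_i dx` -/
def mm (i : Fin 3) : HG →L[ℝ] ℝ := (evG (i, 1)).comp (Vg.comp (ofC.comp Vg))
def vv (i : Fin 3) : HG →L[ℝ] ℝ := (evG (i, 1)).comp Vg

/-- value of the solution of `-u'' = g` at the junction -/
def uJ : HG →L[ℝ] ℝ :=
  ((L 0)⁻¹ + (L 1)⁻¹)⁻¹ • (Real.sqrt (L 0) • mm 0 + Real.sqrt (L 1) • mm 1
    + Real.sqrt (L 2) • vv 2)

/-- slopes of the solution at the junction -/
def trG : HG →L[ℝ] R3 := ContinuousLinearMap.pi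
  ![Real.sqrt (L 0) • mm 0 - (L 0)⁻¹ • uJ L, Real.sqrt (L 1) • mm 1 - (L 1)⁻¹ • uJ L,
    Real.sqrt (L 2) • vv 2]

/-- derivative of the solution of `-u'' = g` (times `√L_i`) -/
def DC : HG →L[ℝ] CG :=
  (kapG 1).comp ((ContinuousLinearMap.pi (fun i => Real.sqrt (L i) • ContinuousLinearMap.proj i)).comp
    (trG L)) - (ContinuousLinearMap.mul ℝ CG (kapG 1 L)).comp Vg

theorem DC_apply (g : HG) (i : Fin 3) (x : unitInterval) :
    DC L g (i, x) = Real.sqrt (L i) * trG L g i - L i * Vg g (i, x) := by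
  simp [DC]

def DG : HG →L[ℝ] HG := ofC.comp (DC L)

/-- primitive of `z`, vanishing at the end of edge 0 (times `√L_i`) -/
def EE : HG →L[ℝ] CG :=
  (ContinuousLinearMap.mul ℝ CG (kapG 1 L)).comp Vg -
    (kapG 1).comp ((ContinuousLinearMap.pi (fun i => (Real.sqrt (L i) * Real.sqrt (L 0)) •
      (vv 0))))

theorem EE_apply (z : HG) (i : Fin 3) (x : unitInterval) :
    EE L z (i, x) = L i * Vg z (i, x) - Real.sqrt (L i) * Real.sqrt (L 0) * Vg z (0, 1) := by
  simp [EE, vv]

end

end Pool.Agent.Helper15.NF
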