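import Pool.Agent.Helper15.NF.EB0

open MeasureTheory Set
open scoped unitInterval

namespace Pool.Agent.Helper15.NF

noncomputable section

variable {L : R3}

/-! ### one dimensional auxiliary facts -/

theorem EB1_slice_ae {p : Fin 3 × unitInterval → Prop} (h : ∀ᵐ z ∂mu3, p z) (i : Fin 3) :
    ∀ᵐ y : unitInterval, p (i, y) := by
  have h2 := Measure.ae_ae_of_ae_prod h
  exact Measure.ae_count_iff.1 h2 i

theorem EB1_slice_int (g : HG) (i : Fin 3) :
    Integrable (fun y : unitInterval => g (i, y)) := by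
  have h1 : Integrable (g : Fin 3 × unitInterval → ℝ) mu3 :=
    (Lp.memLp g).integrable (by norm_num)
  have h2 := Integrable.prod_right_ae h1
  exact Measure.ae_count_iff.1 h2 i

theorem EB1_ofC_slice (a : CG) (i : Fin 3) :
    (fun y : unitInterval => ofC a (i, y)) =ᵐ[volume] fun y => a (i, y) :=
  EB1_slice_ae (ContinuousMap.coeFn_toLp (p := 2) (𝕜 := ℝ) mu3 a) i

theorem EB1_Vg_ofC (a : CG) (i : Fin 3) (x : unitInterval) :
    Vg (ofC a) (i, x) = ∫ y in Set.Iic x, a (i, y) := by
  rw [Vg_apply]
  exact integral_congr_ae (ae_restrict_of_ae (EB1_ofC_slice a i))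

theorem EB1_Iic0 (f : unitInterval → ℝ) : ∫ y in Set.Iic (0 : unitInterval), f y = 0 := by
  have h : Set.Iic (0 : unitInterval) = {0} := by
    ext y
    simp only [Set.mem_Iic, Set.mem_singleton_iff]
    exact ⟨fun h => le_antisymm h bot_le, fun h => h.le⟩
  have h2 : (volume : Measure unitInterval).restrict {0} = 0 :=
    Measure.restrict_eq_zero.2 (measure_singleton (μ := (volume : Measure unitInterval)) 0)
  rw [h, h2, integral_zero_measure]

theorem EB1_Iic1 (f : unitInterval → ℝ) : ∫ y in Set.Iic (1 : unitInterval), f y = ∫ y, f y := by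
  have h : Set.Iic (1 : unitInterval) = Set.univ := by
    ext y
    simp only [Set.mem_Iic, Set.mem_univ, iff_true]
    exact le_top
  rw [h, Measure.restrict_univ]

theorem EB1_Vg0 (g : HG) (i : Fin 3) : Vg g (i, 0) = 0 := by
  rw [Vg_apply, EB1_Iic0]

theorem EB1_Vg1 (g : HG) (i : Fin 3) : Vg g (i, 1) = ∫ y, g (i, y) := by
  rw [Vg_apply, EB1_Iic1]

/-- Fubini on the triangle -/
theorem EB1_fubini {f g : unitInterval → ℝ} (hf : Integrable f) (hg : Integrable g) :
    (∫ x, (∫ y in Set.Iic x, f y) * g x) + ∫ x, f x * (∫ y in Set.Iic x, g y)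
      = (∫ x, f x) * ∫ x, g x := by
  have hG : Integrable (fun p : unitInterval × unitInterval => g p.1 * f p.2)
      (volume.prod volume) := hg.mul_prod hf
  have hH : Integrable (fun p : unitInterval × unitInterval => f p.1 * g p.2)
      (volume.prod volume) := hf.mul_prod hg
  have m1 : MeasurableSet {p : unitInterval × unitInterval | p.2 ≤ p.1} :=
    measurableSet_le measurable_snd measurable_fst
  have m2 : MeasurableSet {p : unitInterval × unitInterval | p.1 ≤ p.2} :=
    measurableSet_le measurable_fst measurable_snd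
  have i1 := hG.indicator m1
  have i2 := hG.indicator m2
  have i3 := hH.indicator m1
  have e1 : ∀ x, (∫ y in Set.Iic x, f y) * g x
      = ∫ y, Set.indicator {p : unitInterval × unitInterval | p.2 ≤ p.1}
          (fun p => g p.1 * f p.2) (x, y) := by
    intro x
    have h1 : (fun y => Set.indicator {p : unitInterval × unitInterval | p.2 ≤ p.1}
          (fun p => g p.1 * f p.2) (x, y)) = Set.indicator (Set.Iic x) (fun y => g x * f y) := by
      funext y
      by_cases hy : y ≤ x
      · rw [Set.indicator_of_mem (by exact hy), Set.indicator_of_mem (by exact hy)]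
      · rw [Set.indicator_of_notMem (by exact hy), Set.indicator_of_notMem (by exact hy)]
    rw [h1, integral_indicator measurableSet_Iic, integral_const_mul, mul_comm]
  have e2 : ∀ x, f x * (∫ y in Set.Iic x, g y)
      = ∫ y, Set.indicator {p : unitInterval × unitInterval | p.2 ≤ p.1}
          (fun p => f p.1 * g p.2) (x, y) := by
    intro x
    have h1 : (fun y => Set.indicator {p : unitInterval × unitInterval | p.2 ≤ p.1}
          (fun p => f p.1 * g p.2) (x, y)) = Set.indicator (Set.Iic x) (fun y => f x * g y) := by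
      funext y
      by_cases hy : y ≤ x
      · rw [Set.indicator_of_mem (by exact hy), Set.indicator_of_mem (by exact hy)]
      · rw [Set.indicator_of_notMem (by exact hy), Set.indicator_of_notMem (by exact hy)]
    rw [h1, integral_indicator measurableSet_Iic, integral_const_mul]
  have e3 : ∀ x, ∫ y, Set.indicator {p : unitInterval × unitInterval | p.2 ≤ p.1}
          (fun p => f p.1 * g p.2) (y, x)
      = ∫ y in Set.Ici x, g x * f y := by
    intro x
    have h1 : (fun y => Set.indicator {p : unitInterval × unitInterval | p.2 ≤ p.1}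
          (fun p => f p.1 * g p.2) (y, x)) = Set.indicator (Set.Ici x) (fun y => g x * f y) := by
      funext y
      by_cases hy : x ≤ y
      · rw [Set.indicator_of_mem (by exact hy), Set.indicator_of_mem (by exact hy), mul_comm]
      · rw [Set.indicator_of_notMem (by exact hy), Set.indicator_of_notMem (by exact hy)]
    rw [h1, integral_indicator measurableSet_Ici]
  have e4 : ∀ x, ∫ y, Set.indicator {p : unitInterval × unitInterval | p.2 ≤ p.1}
          (fun p => g p.1 * f p.2) (x, y) = ∫ y in Set.Iic x, g x * f y := by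
    intro x
    rw [← e1, integral_const_mul, mul_comm]
  have j1 : Integrable (fun x => ∫ y in Set.Iic x, g x * f y) := by
    have := i1.integral_prod_left
    refine this.congr (Filter.Eventually.of_forall fun x => ?_)
    exact e4 x
  have j2 : Integrable (fun x => ∫ y in Set.Ici x, g x * f y) := by
    have := i3.integral_prod_right
    refine this.congr (Filter.Eventually.of_forall fun x => ?_)
    exact e3 x
  have s2 : ∫ x, f x * (∫ y in Set.Iic x, g y) = ∫ x, ∫ y in Set.Ici x, g x * f y := by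
    rw [integral_congr_ae (Filter.Eventually.of_forall e2)]
    rw [integral_integral_swap (f := fun x y => Set.indicator
      {p : unitInterval × unitInterval | p.2 ≤ p.1} (fun p => f p.1 * g p.2) (x, y)) i3]
    exact integral_congr_ae (Filter.Eventually.of_forall e3)
  have s1 : ∫ x, (∫ y in Set.Iic x, f y) * g x = ∫ x, ∫ y in Set.Iic x, g x * f y := by
    rw [integral_congr_ae (Filter.Eventually.of_forall e1)]
    exact integral_congr_ae (Filter.Eventually.of_forall e4)
  rw [s1, s2, ← integral_add j1 j2]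
  have e5 : ∀ x, (∫ y in Set.Iic x, g x * f y) + (∫ y in Set.Ici x, g x * f y)
      = g x * ∫ y, f y := by
    intro x
    rw [integral_Ici_eq_integral_Ioi, ← Set.compl_Iic,
      integral_add_compl measurableSet_Iic (hf.const_mul _), integral_const_mul]
  rw [integral_congr_ae (Filter.Eventually.of_forall e5), integral_mul_const, mul_comm]

theorem EB1_zero {f : unitInterval → ℝ} (hf : Integrable f)
    (h : ∀ x, ∫ y in Set.Iic x, f y = 0) : f =ᵐ[volume] 0 := by
  refine hf.ae_eq_zero_of_forall_setIntegral_eq_zero ?_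
  intro s hs _
  refine MeasurableSpace.induction_on_inter (m := inferInstance)
    (C := fun s _ => ∫ y in s, f y = 0)
    ((BorelSpace.measurable_eq (α := unitInterval)).trans (borel_eq_generateFrom_Iic unitInterval))
    isPiSystem_Iic ?_ ?_ ?_ ?_ s hs
  · simp
  · rintro t ⟨u, rfl⟩
    exact h u
  · intro t ht hC
    have h1 := integral_add_compl ht hf
    have h2 : ∫ y, f y = 0 := by rw [← EB1_Iic1]; exact h 1
    rw [hC, h2, zero_add] at h1
    exact h1
  · intro F hd hm hC
    rw [integral_iUnion hm hd hf.integrableOn]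
    simp [hC]

theorem EB1_mm (g : HG) (i : Fin 3) : mm i g = ∫ y, Vg g (i, y) := by
  have h : mm i g = Vg (ofC (Vg g)) (i, 1) := by
    simp [mm]
  rw [h, EB1_Vg_ofC, EB1_Iic1]

theorem EB1_vv (g : HG) (i : Fin 3) : vv i g = Vg g (i, 1) := by
  simp [vv]

theorem EB1_tr0 (g : HG) :
    trG L g 0 = Real.sqrt (L 0) * mm 0 g - (L 0)⁻¹ * uJ L g := by
  simp [trG]

theorem EB1_tr1 (g : HG) :
    trG L g 1 = Real.sqrt (L 1) * mm 1 g - (L 1)⁻¹ * uJ L g := by
  simp [trG]

theorem EB1_tr2 (g : HG) : trG L g 2 = Real.sqrt (L 2) * vv 2 g := by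
  simp [trG]

theorem EB1_uJ (g : HG) : uJ L g = ((L 0)⁻¹ + (L 1)⁻¹)⁻¹ *
    (Real.sqrt (L 0) * mm 0 g + Real.sqrt (L 1) * mm 1 g + Real.sqrt (L 2) * vv 2 g) := by
  simp [uJ]
  ring

theorem EB1_DG_slice (g : HG) (i : Fin 3) :
    (fun y : unitInterval => DG L g (i, y)) =ᵐ[volume] fun y => DC L g (i, y) :=
  EB1_ofC_slice (DC L g) i

theorem EB1_cont_slice (a : CG) (i : Fin 3) : Integrable (fun y : unitInterval => a (i, y)) := by
  have h : Continuous (fun y : unitInterval => a (i, y)) :=
    a.continuous.comp (by fun_prop)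
  exact h.integrable_of_hasCompactSupport (HasCompactSupport.of_compactSpace _)

theorem EB1_VDG (g : HG) (i : Fin 3) :
    Vg (DG L g) (i, 1) = Real.sqrt (L i) * trG L g i - L i * mm i g := by
  have h : Vg (DG L g) (i, 1) = Vg (ofC (DC L g)) (i, 1) := rfl
  rw [h, EB1_Vg_ofC, EB1_Iic1]
  have h2 : ∀ y : unitInterval, DC L g (i, y) = Real.sqrt (L i) * trG L g i - L i * Vg g (i, y) :=
    fun y => DC_apply L g i y
  rw [integral_congr_ae (Filter.Eventually.of_forall h2), integral_sub (integrable_const _)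
    ((EB1_cont_slice (Vg g) i).const_mul _), EB1_mm, ← integral_const_mul (L i)]
  simp

theorem trG_sum (hL : ∀ i, 0 < L i) (g : HG) : ∑ i, trG L g i = 0 := by
  have h0 := hL 0
  have h1 := hL 1
  have hne : (L 0)⁻¹ + (L 1)⁻¹ ≠ 0 := by positivity
  have hu : ((L 0)⁻¹ + (L 1)⁻¹) * uJ L g = Real.sqrt (L 0) * mm 0 g + Real.sqrt (L 1) * mm 1 g
      + Real.sqrt (L 2) * vv 2 g := by
    rw [EB1_uJ, mul_inv_cancel_left₀ hne]
  rw [Fin.sum_univ_three, EB1_tr0, EB1_tr1, EB1_tr2]
  linarith

theorem DC_far (hL : ∀ i, 0 < L i) (g : HG) : DC L g (2, 1) = 0 := by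
  rw [DC_apply, EB1_tr2, EB1_vv, ← mul_assoc, Real.mul_self_sqrt (hL 2).le, sub_self]

theorem DC_J (g : HG) (i : Fin 3) : DC L g (i, 0) = Real.sqrt (L i) * trG L g i := by
  rw [DC_apply, EB1_Vg0, mul_zero, sub_zero]

theorem EE_end0 (hL : ∀ i, 0 < L i) (z : HG) : EE L z (0, 1) = 0 := by
  rw [EE_apply, Real.mul_self_sqrt (hL 0).le, sub_self]

theorem EE_J (z : HG) (i : Fin 3) :
    EE L z (i, 0) = -(Real.sqrt (L i) * Real.sqrt (L 0) * Vg z (0, 1)) := by
  rw [EE_apply, EB1_Vg0, mul_zero, zero_sub]

theorem EB1_W0 (hL : ∀ i, 0 < L i) (g : HG) :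
    Real.sqrt (L 0) * Vg (DG L g) (0, 1) = - uJ L g := by
  have h := hL 0
  have hs := Real.mul_self_sqrt h.le
  rw [EB1_VDG, EB1_tr0]
  have : Real.sqrt (L 0) * (Real.sqrt (L 0) * (Real.sqrt (L 0) * mm 0 g - (L 0)⁻¹ * uJ L g)
      - L 0 * mm 0 g) = (Real.sqrt (L 0) * Real.sqrt (L 0)) * (Real.sqrt (L 0) * mm 0 g
        - (L 0)⁻¹ * uJ L g) - Real.sqrt (L 0) * L 0 * mm 0 g := by ring
  rw [this, hs]
  field_simp
  ring

theorem EB1_W1 (hL : ∀ i, 0 < L i) (g : HG) :
    Real.sqrt (L 1) * Vg (DG L g) (1, 1) = - uJ L g := by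
  have h := hL 1
  have hs := Real.mul_self_sqrt h.le
  rw [EB1_VDG, EB1_tr1]
  have : Real.sqrt (L 1) * (Real.sqrt (L 1) * (Real.sqrt (L 1) * mm 1 g - (L 1)⁻¹ * uJ L g)
      - L 1 * mm 1 g) = (Real.sqrt (L 1) * Real.sqrt (L 1)) * (Real.sqrt (L 1) * mm 1 g
        - (L 1)⁻¹ * uJ L g) - Real.sqrt (L 1) * L 1 * mm 1 g := by ring
  rw [this, hs]
  field_simp
  ring

theorem EE_end1 (hL : ∀ i, 0 < L i) (g : HG) : EE L (DG L g) (1, 1) = 0 := by
  have hs := Real.mul_self_sqrt (hL 1).le
  have h0 := EB1_W0 hL g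
  have h1 := EB1_W1 hL g
  rw [EE_apply, mul_assoc, h0, ← h1, ← mul_assoc, hs, sub_self]

theorem DG_injective (hL : ∀ i, 0 < L i) : Function.Injective (DG L) := by
  rw [injective_iff_map_eq_zero]
  intro g hg
  have hC : DC L g = 0 := by
    apply ofC_injective
    rw [map_zero]
    exact hg
  have ht : ∀ i, Real.sqrt (L i) * trG L g i = 0 := by
    intro i
    rw [← DC_J, hC]
    rfl
  have hV : ∀ i x, Vg g (i, x) = 0 := by
    intro i x
    have h1 := DC_apply L g i x
    rw [hC, ht i, zero_sub] at h1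
    have h2 : L i * Vg g (i, x) = 0 := by
      have h3 : (0 : CG) (i, x) = 0 := rfl
      rw [h3] at h1
      linarith
    rcases mul_eq_zero.1 h2 with h3 | h3
    · exact absurd h3 (hL i).ne'
    · exact h3
  have hz : ∀ i, (fun y : unitInterval => g (i, y)) =ᵐ[volume] 0 := by
    intro i
    apply EB1_zero (EB1_slice_int g i)
    intro x
    rw [← Vg_apply]
    exact hV i x
  have h4 : inner ℝ g g = (0 : ℝ) := by
    rw [inner_HG]
    apply Finset.sum_eq_zero
    intro i _
    apply integral_eq_zero_of_ae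
    filter_upwards [hz i] with y hy
    have hy' : g (i, y) = 0 := hy
    simp [hy']
  exact inner_self_eq_zero.1 h4

/-- integration by parts: `T = D† D` is the solution operator of `-u'' = g` -/
theorem TT_DG (hL : ∀ i, 0 < L i) (g : HG) : TT (DG L) g = ofC (EE L (DG L g)) := by
  refine ext_inner_right ℝ fun h => ?_
  have e1 : inner ℝ (TT (DG L) g) h = inner ℝ (DG L g) (DG L h) := by
    unfold TT
    rw [ContinuousLinearMap.comp_apply, ContinuousLinearMap.adjoint_inner_left]
  rw [e1, inner_HG, inner_HG]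
  set v := DG L g with hv
  have key : ∀ i, (∫ x : unitInterval, ofC (EE L v) (i, x) * h (i, x))
      - ∫ x : unitInterval, v (i, x) * DG L h (i, x)
      = L i * (Vg v (i, 1) * Vg h (i, 1))
        - Real.sqrt (L i) * Real.sqrt (L 0) * Vg v (0, 1) * Vg h (i, 1)
        - Real.sqrt (L i) * trG L h i * Vg v (i, 1) := by
    intro i
    have iv := EB1_slice_int v i
    have ih := EB1_slice_int h i
    have hF := EB1_fubini iv ih
    simp only [← Vg_apply] at hF
    have ivh : Integrable (fun x : unitInterval => Vg v (i, x) * h (i, x)) :=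
      ih.bdd_mul (c := ‖Vg v‖) (EB1_cont_slice (Vg v) i).aestronglyMeasurable
        (Filter.Eventually.of_forall fun x => (Vg v).norm_coe_le_norm (i, x))
    have ihv : Integrable (fun x : unitInterval => v (i, x) * Vg h (i, x)) :=
      iv.mul_bdd (c := ‖Vg h‖) (EB1_cont_slice (Vg h) i).aestronglyMeasurable
        (Filter.Eventually.of_forall fun x => (Vg h).norm_coe_le_norm (i, x))
    have a1 : ∫ x : unitInterval, ofC (EE L v) (i, x) * h (i, x)
        = L i * (∫ x : unitInterval, Vg v (i, x) * h (i, x))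
          - Real.sqrt (L i) * Real.sqrt (L 0) * Vg v (0, 1) * ∫ x : unitInterval, h (i, x) := by
      rw [← integral_const_mul, ← integral_const_mul, ← integral_sub (ivh.const_mul _)
        (ih.const_mul _)]
      apply integral_congr_ae
      filter_upwards [EB1_ofC_slice (EE L v) i] with x hx
      rw [hx, EE_apply]
      ring
    have a2 : ∫ x : unitInterval, v (i, x) * DG L h (i, x)
        = Real.sqrt (L i) * trG L h i * (∫ x : unitInterval, v (i, x))
          - L i * ∫ x : unitInterval, v (i, x) * Vg h (i, x) := by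
      rw [← integral_const_mul, ← integral_const_mul, ← integral_sub (iv.const_mul _)
        (ihv.const_mul _)]
      apply integral_congr_ae
      filter_upwards [EB1_DG_slice (L := L) h i] with x hx
      rw [hx, DC_apply]
      ring
    rw [a1, a2, EB1_Vg1 v i, EB1_Vg1 h i, ← hF]
    ring
  have hsum : (∑ i, ∫ x : unitInterval, ofC (EE L v) (i, x) * h (i, x))
      - ∑ i, ∫ x : unitInterval, v (i, x) * DG L h (i, x) = 0 := by
    rw [← Finset.sum_sub_distrib, Finset.sum_congr rfl fun i _ => key i, Fin.sum_univ_three]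
    have w0 := EB1_W0 hL g
    have w1 := EB1_W1 hL g
    have s0 := Real.mul_self_sqrt (hL 0).le
    have s1 := Real.mul_self_sqrt (hL 1).le
    have s2 := Real.mul_self_sqrt (hL 2).le
    have ts := trG_sum hL h
    have t2 := EB1_tr2 (L := L) h
    rw [Fin.sum_univ_three] at ts
    rw [EB1_vv] at t2
    rw [← hv] at w0 w1
    linear_combination (-(Vg v (0, 1) * Vg h (0, 1))) * s0 + (-(Vg v (1, 1) * Vg h (1, 1))) * s1
      + (-(Vg v (2, 1) * Vg h (2, 1))) * s2 - trG L h 0 * w0
      + Real.sqrt (L 1) * Vg h (1, 1) * (w1 - w0) - trG L h 1 * w1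
      - Real.sqrt (L 2) * Vg v (2, 1) * t2 - Real.sqrt (L 2) * Vg h (2, 1) * w0
      + uJ L g * ts - uJ L g * t2
  linarith

end

end Pool.Agent.Helper15.NF
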