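import Pool.Agent.Helper15.NF.EB0

open MeasureTheory Set
open scoped unitInterval

namespace Pool.Agent.Helper15.NF

noncomputable section

lemma eb1b_slice {P : Fin 3 × unitInterval → Prop} (h : ∀ᵐ p ∂mu3, P p) (i : Fin 3) :
    ∀ᵐ y : unitInterval, P (i, y) := by
  have h1 := Measure.ae_ae_of_ae_prod h
  rw [Measure.ae_count_iff] at h1
  exact h1 i

/-- Cauchy-Schwarz -/
lemma eb1b_Vg (g : HG) (i : Fin 3) (x : unitInterval) :
    |Vg g (i, x)| ≤ Real.sqrt x * ‖g‖ := by
  have hs : MeasurableSet (({i} : Set (Fin 3)) ×ˢ (Iic x : Set unitInterval)) :=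
    (measurableSet_singleton i).prod measurableSet_Iic
  have hmu : mu3 (({i} : Set (Fin 3)) ×ˢ (Iic x : Set unitInterval)) = ENNReal.ofReal x := by
    rw [mu3, Measure.prod_prod, Measure.count_singleton, one_mul, unitInterval.volume_Iic]
  have hfin : mu3 (({i} : Set (Fin 3)) ×ˢ (Iic x : Set unitInterval)) ≠ ⊤ := by
    rw [hmu]; exact ENNReal.ofReal_ne_top
  set h : HG := indicatorConstLp 2 hs hfin (1 : ℝ) with hh
  have hn : ‖h‖ = Real.sqrt x := by
    rw [hh, norm_indicatorConstLp (by norm_num) (by norm_num), Measure.real, hmu,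
      ENNReal.toReal_ofReal x.2.1]
    simp [Real.sqrt_eq_rpow]
  have hae : ∀ᵐ p ∂mu3, h p = (({i} : Set (Fin 3)) ×ˢ (Iic x : Set unitInterval)).indicator
      (fun _ => (1 : ℝ)) p := indicatorConstLp_coeFn
  have hin : inner ℝ h g = Vg g (i, x) := by
    rw [inner_HG, Vg_apply, Finset.sum_eq_single i]
    · rw [← integral_indicator measurableSet_Iic]
      apply integral_congr_ae
      filter_upwards [eb1b_slice hae i] with y hy
      rw [hy]
      by_cases hyx : y ≤ x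
      · rw [indicator_of_mem (by exact ⟨rfl, hyx⟩), indicator_of_mem (by exact hyx), one_mul]
      · rw [indicator_of_notMem (by exact fun hc => hyx hc.2),
          indicator_of_notMem (by exact fun hc => hyx hc), zero_mul]
    · intro j _ hj
      apply integral_eq_zero_of_ae
      filter_upwards [eb1b_slice hae j] with y hy
      rw [hy, indicator_of_notMem (by exact fun hc => hj hc.1), zero_mul]
      rfl
    · intro hi; exact absurd (Finset.mem_univ i) hi
  rw [← hin, ← hn]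
  exact abs_real_inner_le_norm h g

/-- the elementary inequality -/
lemma eb1b_elem {c A B l : ℝ} (hA : 0 ≤ A) (hB : 0 ≤ B) (hl : 0 ≤ l)
    (h : ∀ r : ℝ, 0 ≤ r → r ≤ 1 → r * |c| ≤ A + l * r ^ 2 * B) :
    c ^ 2 ≤ (1 + l) ^ 2 * (A ^ 2 + A * B) := by
  rcases le_or_gt B A with hBA | hBA
  · have h1 := h 1 zero_le_one le_rfl
    have h2 : |c| ≤ (1 + l) * A := by nlinarith
    have h3 : c ^ 2 ≤ ((1 + l) * A) ^ 2 := by
      rw [← sq_abs c]
      exact pow_le_pow_left₀ (abs_nonneg c) h2 2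
    have h4 : 0 ≤ (1 + l) ^ 2 * (A * B) := by positivity
    nlinarith
  · have hB' : 0 < B := lt_of_le_of_lt hA hBA
    rcases hA.eq_or_lt with hA0 | hA0
    · -- `A = 0`
      subst hA0
      have h1 : ∀ r : ℝ, 0 < r → r ≤ 1 → |c| ≤ l * r * B := by
        intro r hr hr1
        have := h r hr.le hr1
        have h2 : r * |c| ≤ r * (l * r * B) := by nlinarith
        exact le_of_mul_le_mul_left h2 hr
      have hc : |c| ≤ 0 := by
        by_contra hcon
        push Not at hcon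
        have hlB : 0 ≤ l * B := by positivity
        have hr : 0 < |c| / (|c| + 2 * (l * B)) := by positivity
        have h2 := h1 _ hr (by rw [div_le_one (by positivity)]; linarith)
        have h3 : l * (|c| / (|c| + 2 * (l * B))) * B < |c| := by
          have : l * (|c| / (|c| + 2 * (l * B))) * B = |c| * ((l * B) / (|c| + 2 * (l * B))) := by
            ring
          rw [this]
          have h4 : (l * B) / (|c| + 2 * (l * B)) < 1 := by
            rw [div_lt_one (by positivity)]; linarith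
          nlinarith
        linarith
      have : c = 0 := abs_eq_zero.1 (le_antisymm hc (abs_nonneg c))
      rw [this]; simp
    · have hq : 0 < A / B := by positivity
      have hq1 : A / B ≤ 1 := by rw [div_le_one hB']; exact hBA.le
      have h1 := h (Real.sqrt (A / B)) (Real.sqrt_nonneg _)
        (Real.sqrt_le_one.2 hq1)
      rw [Real.sq_sqrt hq.le] at h1
      have h2 : Real.sqrt (A / B) * |c| ≤ (1 + l) * A := by
        have : l * (A / B) * B = l * A := by field_simp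
        linarith
      have h3 : (Real.sqrt (A / B) * |c|) ^ 2 ≤ ((1 + l) * A) ^ 2 :=
        pow_le_pow_left₀ (by positivity) h2 2
      rw [mul_pow, Real.sq_sqrt hq.le, sq_abs] at h3
      have h4 : c ^ 2 ≤ (1 + l) ^ 2 * (A * B) := by
        have h5 : A * c ^ 2 ≤ A * ((1 + l) ^ 2 * (A * B)) := by
          have := mul_le_mul_of_nonneg_left h3 hB
          have h6 : B * (A / B * c ^ 2) = A * c ^ 2 := by field_simp
          rw [h6] at this
          nlinarith
        exact le_of_mul_le_mul_left h5 hA0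
      have h5 : 0 ≤ (1 + l) ^ 2 * A ^ 2 := by positivity
      nlinarith

lemma eb1b_key (L : R3) (g : HG) (i : Fin 3) (hL : 0 ≤ L i) (r : ℝ) (hr : 0 ≤ r) (hr1 : r ≤ 1) :
    r * |Real.sqrt (L i) * trG L g i| ≤ ‖DG L g‖ + L i * r ^ 2 * ‖g‖ := by
  rcases hr.eq_or_lt with h0 | h0
  · rw [← h0]; simp
  obtain ⟨c, hc⟩ : ∃ c, c = Real.sqrt (L i) * trG L g i := ⟨_, rfl⟩
  rw [← hc]
  obtain ⟨δ, hδ⟩ : ∃ δ : unitInterval, (δ : ℝ) = r ^ 2 :=
    ⟨⟨r ^ 2, by positivity, by nlinarith⟩, rfl⟩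
  have hvol : volume.real (Iic δ : Set unitInterval) = r ^ 2 := by
    rw [Measure.real, unitInterval.volume_Iic, ENNReal.toReal_ofReal δ.2.1, hδ]
  have hZ := eb1b_Vg (DG L g) i δ
  rw [Vg_apply, hδ, Real.sqrt_sq hr] at hZ
  have hcoe : ∀ᵐ p ∂mu3, DG L g p = DC L g p := ContinuousMap.coeFn_toLp _ _
  have h1 : ∫ y in Iic δ, DG L g (i, y) = ∫ y in Iic δ, (c - L i * Vg g (i, y)) := by
    apply integral_congr_ae
    filter_upwards [ae_restrict_of_ae (eb1b_slice hcoe i)] with y hy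
    rw [hy, DC_apply, hc]
  have hcont : Continuous (fun y : unitInterval => Vg g (i, y)) := by fun_prop
  have hint : IntegrableOn (fun y : unitInterval => L i * Vg g (i, y)) (Iic δ) :=
    ((continuous_const.mul hcont).integrable_of_hasCompactSupport
      (HasCompactSupport.of_compactSpace _)).integrableOn
  rw [h1, integral_sub (integrable_const c) hint, setIntegral_const, hvol, smul_eq_mul] at hZ
  have h2 : |∫ y in Iic δ, L i * Vg g (i, y)| ≤ (L i * (r * ‖g‖)) * r ^ 2 := by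
    rw [← hvol]
    have := norm_setIntegral_le_of_norm_le_const (μ := (volume : Measure unitInterval))
      (s := Iic δ) (f := fun y => L i * Vg g (i, y)) (C := L i * (r * ‖g‖))
      (by exact measure_lt_top _ _) (by
        intro y hy
        rw [Real.norm_eq_abs, abs_mul, abs_of_nonneg hL]
        apply mul_le_mul_of_nonneg_left _ hL
        refine (eb1b_Vg g i y).trans (mul_le_mul_of_nonneg_right ?_ (norm_nonneg g))
        rw [Real.sqrt_le_left hr, ← hδ]
        exact hy)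
    exact this
  have h3 : r ^ 2 * |c| ≤ r * ‖DG L g‖ + (L i * (r * ‖g‖)) * r ^ 2 := by
    have h4 : |r ^ 2 * c| ≤ |r ^ 2 * c - ∫ y in Iic δ, L i * Vg g (i, y)|
        + |∫ y in Iic δ, L i * Vg g (i, y)| := by
      have := abs_add_le (r ^ 2 * c - ∫ y in Iic δ, L i * Vg g (i, y))
        (∫ y in Iic δ, L i * Vg g (i, y))
      simpa using this
    rw [abs_mul, abs_of_nonneg (by positivity : (0 : ℝ) ≤ r ^ 2)] at h4
    linarith
  have h5 : r * (r * |c|) ≤ r * (‖DG L g‖ + L i * r ^ 2 * ‖g‖) := by nlinarith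
  exact le_of_mul_le_mul_left h5 h0

/-- the trace inequality, uniformly for lengths in a compact range -/
theorem trace_ineq (m M : ℝ) (hm : 0 < m) : ∃ C > 0, ∀ L : R3, (∀ i, m ≤ L i ∧ L i ≤ M) →
    ∀ g : HG, ‖trG L g‖ ^ 2 ≤ C * (‖DG L g‖ ^ 2 + ‖DG L g‖ * ‖g‖) := by
  refine ⟨(1 + |M|) ^ 2 / m, by positivity, ?_⟩
  intro L hL g
  have hK : 0 ≤ (1 + |M|) ^ 2 / m * (‖DG L g‖ ^ 2 + ‖DG L g‖ * ‖g‖) := by positivity
  have h1 : ‖trG L g‖ ≤ Real.sqrt ((1 + |M|) ^ 2 / m * (‖DG L g‖ ^ 2 + ‖DG L g‖ * ‖g‖)) := by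
    rw [pi_norm_le_iff_of_nonneg (Real.sqrt_nonneg _)]
    intro i
    have hLi : 0 < L i := hm.trans_le (hL i).1
    have h2 := eb1b_elem (norm_nonneg (DG L g)) (norm_nonneg g) hLi.le
      (eb1b_key L g i hLi.le)
    rw [mul_pow, Real.sq_sqrt hLi.le] at h2
    rw [Real.norm_eq_abs]
    apply Real.abs_le_sqrt
    have h3 : (1 + L i) ^ 2 * (‖DG L g‖ ^ 2 + ‖DG L g‖ * ‖g‖) ≤
        (1 + |M|) ^ 2 * (‖DG L g‖ ^ 2 + ‖DG L g‖ * ‖g‖) := by
      apply mul_le_mul_of_nonneg_right _ (by positivity)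
      apply pow_le_pow_left₀ (by positivity)
      have := (hL i).2.trans (le_abs_self M)
      linarith
    have h4 : m * (trG L g i) ^ 2 ≤ L i * (trG L g i) ^ 2 :=
      mul_le_mul_of_nonneg_right (hL i).1 (by positivity)
    rw [div_mul_eq_mul_div, le_div_iff₀ hm]
    linarith
  calc ‖trG L g‖ ^ 2 ≤ (Real.sqrt ((1 + |M|) ^ 2 / m * (‖DG L g‖ ^ 2 + ‖DG L g‖ * ‖g‖))) ^ 2 :=
        pow_le_pow_left₀ (norm_nonneg _) h1 2
    _ = _ := Real.sq_sqrt hK

lemma eb1b_norm_sq {E : Type*} [NormedAddCommGroup E] (f : LI E) :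
    ‖f‖ ^ 2 = ∫ t, ‖f t‖ ^ 2 := by
  have h := (Lp.memLp f).eLpNorm_eq_integral_rpow_norm two_ne_zero ENNReal.ofNat_ne_top
  have h0 : 0 ≤ ∫ t, ‖f t‖ ^ 2 := integral_nonneg fun t => by positivity
  rw [Lp.norm_def, h]
  simp only [ENNReal.toReal_ofNat, Real.rpow_two]
  rw [ENNReal.toReal_ofReal (by positivity), ← Real.rpow_natCast, ← Real.rpow_mul h0]
  norm_num

lemma eb1b_int_sq {E : Type*} [NormedAddCommGroup E] (f : LI E) :
    Integrable (fun t => ‖f t‖ ^ 2) :=
  (Lp.memLp f).integrable_norm_pow two_ne_zero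

lemma eb1b_int_norm {E : Type*} [NormedAddCommGroup E] (f : LI E) :
    ∫ t, ‖f t‖ ≤ ‖f‖ := by
  have hint : Integrable (fun t => ‖f t‖) :=
    ((Lp.memLp f).integrable one_le_two).norm
  have h1 : ∫ t, 2 * ‖f‖ * ‖f t‖ ≤ ∫ t, (‖f t‖ ^ 2 + ‖f‖ ^ 2) := by
    apply integral_mono (hint.const_mul _) ((eb1b_int_sq f).add (integrable_const _))
    intro t
    show 2 * ‖f‖ * ‖f t‖ ≤ ‖f t‖ ^ 2 + ‖f‖ ^ 2
    nlinarith [sq_nonneg (‖f t‖ - ‖f‖)]
  rw [integral_const_mul, integral_add (eb1b_int_sq f) (integrable_const _), ← eb1b_norm_sq,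
    integral_const] at h1
  simp only [probReal_univ, smul_eq_mul, one_mul] at h1
  rcases (norm_nonneg f).eq_or_lt with h0 | h0
  · have h2 : f = 0 := norm_eq_zero.1 h0.symm
    rw [← h0]
    apply le_of_eq
    apply integral_eq_zero_of_ae
    have := Lp.coeFn_zero E 2 (volume : Measure unitInterval)
    rw [h2]
    filter_upwards [this] with t ht
    rw [ht]; simp
  · have : ‖f‖ * ∫ t, ‖f t‖ ≤ ‖f‖ * ‖f‖ := by nlinarith
    exact le_of_mul_le_mul_left this h0

/-- time dependent version (integrated) -/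
theorem trace_time (m M : ℝ) (hm : 0 < m) : ∃ C > 0, ∀ L : R3, (∀ i, m ≤ L i ∧ L i ≤ M) →
    ∀ (g : LI HG) (z : CI HG) (lam : ℝ), 0 < lam → lam ≤ 1 →
      toL HG z = (Real.sqrt lam)⁻¹ • mapL (DG L) g →
      ‖mapL (trG L) g‖ ^ 2 ≤ C * Real.sqrt lam * (‖z‖ ^ 2 + ‖z‖ * ‖g‖) := by
  obtain ⟨C, hC, h⟩ := trace_ineq m M hm
  refine ⟨C, hC, ?_⟩
  intro L hL g z lam hlam hlam1 hz
  have hs : 0 < Real.sqrt lam := Real.sqrt_pos.2 hlam
  have hs1 : Real.sqrt lam ≤ 1 := Real.sqrt_le_one.2 hlam1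
  have hz' : mapL (DG L) g = Real.sqrt lam • toL HG z := by
    rw [hz, smul_smul, mul_inv_cancel₀ hs.ne', one_smul]
  have hD : ∀ᵐ t : unitInterval, DG L (g t) = Real.sqrt lam • z t := by
    filter_upwards [mapL_coe (DG L) g, toL_coe z, Lp.coeFn_smul (Real.sqrt lam) (toL HG z)]
      with t h1 h2 h3
    rw [← h1, hz', h3, Pi.smul_apply, h2]
  rw [eb1b_norm_sq]
  have hI2 : Integrable (fun t : unitInterval => C * (lam * ‖z‖ ^ 2 +
      Real.sqrt lam * ‖z‖ * ‖g t‖)) := by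
    apply Integrable.const_mul
    apply (integrable_const _).add
    exact ((Lp.memLp g).integrable one_le_two).norm.const_mul _
  have h1 : ∫ t, ‖mapL (trG L) g t‖ ^ 2 ≤ ∫ t, C * (lam * ‖z‖ ^ 2 +
      Real.sqrt lam * ‖z‖ * ‖g t‖) := by
    apply integral_mono_ae (eb1b_int_sq _) hI2
    filter_upwards [mapL_coe (trG L) g, hD] with t h2 h3
    rw [h2]
    refine (h L hL (g t)).trans ?_
    apply mul_le_mul_of_nonneg_left _ hC.le
    rw [h3, norm_smul, Real.norm_of_nonneg hs.le, mul_pow, Real.sq_sqrt hlam.le]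
    have h4 : ‖z t‖ ≤ ‖z‖ := ContinuousMap.norm_coe_le_norm z t
    gcongr
  refine h1.trans ?_
  rw [integral_const_mul, integral_add (integrable_const _)
    (((Lp.memLp g).integrable one_le_two).norm.const_mul _), integral_const, integral_const_mul]
  simp only [probReal_univ, smul_eq_mul, one_mul]
  rw [mul_assoc C]
  apply mul_le_mul_of_nonneg_left _ hC.le
  have h5 := eb1b_int_norm g
  have h6 : lam ≤ Real.sqrt lam := by
    nlinarith [Real.sq_sqrt hlam.le]
  have h7 : Real.sqrt lam * ‖z‖ * ∫ t, ‖g t‖ ≤ Real.sqrt lam * ‖z‖ * ‖g‖ :=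
    mul_le_mul_of_nonneg_left h5 (by positivity)
  have h8 : lam * ‖z‖ ^ 2 ≤ Real.sqrt lam * ‖z‖ ^ 2 :=
    mul_le_mul_of_nonneg_right h6 (by positivity)
  nlinarith

end

end Pool.Agent.Helper15.NF
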