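import Pool.Agent.Helper15.NF.EB1

/-!
E-part: the nonlinear problem. Unknown `y = (f, r)`, `f ∈ L²(I;H)` right hand side of the heat equation,
`r ∈ L²(I;ℝ³)` rate of change of the relative lengths (both times `√λ`); `λ` = time horizon.
-/

open MeasureTheory Set
open scoped unitInterval

namespace Pool.Agent.Helper15.NF

noncomputable section

/-- a real function on [0,1] as a function on the graph -/
def liftG (f : ℝ → ℝ) (hf : Continuous f) : CG :=
  ⟨fun p => f p.2, hf.comp (continuous_subtype_val.comp continuous_snd)⟩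

theorem chz_contDiff (n : ℕ) : ContDiff ℝ n chz := by
  unfold chz
  exact (Real.smoothTransition.contDiff (n := n)).comp (by fun_prop)

theorem chz_cont : Continuous chz := (chz_contDiff 0).continuous
theorem chz1_cont : Continuous (deriv chz) := (chz_contDiff 1).continuous_deriv le_rfl
theorem chz1_contDiff (n : ℕ) : ContDiff ℝ n (deriv chz) := by
  have h := chz_contDiff (n + 1)
  exact ((contDiff_succ_iff_deriv (n := n)).1 (by exact_mod_cast h)).2.2
theorem chz2_cont : Continuous (deriv (deriv chz)) := (chz1_contDiff 1).continuous_deriv le_rfl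

def chG0 : CG := liftG chz chz_cont
def chG1 : CG := liftG (deriv chz) chz1_cont
def chG2 : CG := liftG (deriv (deriv chz)) chz2_cont

/-- the outer angles -/
def bb : R3 := ![Real.pi / 3, -(Real.pi / 3), 0]

variable (L : R3)

/-- reference `z` (times `√L_i`) and its derivative -/
def zref : CG := kapG chG1 (fun i => bb i / Real.sqrt (L i))
def z1ref : CG := kapG chG2 (fun i => bb i / (L i * Real.sqrt (L i)))

/-- tangential speeds at the junction from the curvatures -/
def LAM : R3 →L[ℝ] R3 := ContinuousLinearMap.pi fun i =>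
  (-(Real.sqrt 3)⁻¹) • (ContinuousLinearMap.proj (R := ℝ) (φ := fun _ : Fin 3 => ℝ) (i + 1)
    - ContinuousLinearMap.proj (R := ℝ) (φ := fun _ : Fin 3 => ℝ) (i + 2))

/-- division by the lengths -/
def divL : R3 →L[ℝ] R3 := ContinuousLinearMap.pi fun i => (L i)⁻¹ •
  ContinuousLinearMap.proj (R := ℝ) (φ := fun _ : Fin 3 => ℝ) i

variable {L} (hL : ∀ i, 0 < L i) (g0 : HG) (lam : ℝ)

/-- the unknown -/
abbrev YY := LI HG × LI R3

/-- `√λ g`, `g = -u_xx` -/
def gh (y : YY) : LI HG :=
  Real.sqrt lam • (toL HG (cst HG g0) - solG (DG_injective hL) lam (toL HG (cst HG g0)))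
    + solG (DG_injective hL) lam y.1

/-- `z = Θ_x` -/
def zz (y : YY) : CI HG :=
  cst HG (DG L g0) - solW (DG_injective hL) lam (toL HG (cst HG g0))
    + (Real.sqrt lam)⁻¹ • solW (DG_injective hL) lam y.1 + cst HG (ofC (zref L))

/-- `√λ` times the curvatures at the junction -/
def qh (y : YY) : LI R3 := mapL (trG L) (gh hL g0 lam y)

/-- relative change of the lengths -/
def ee (y : YY) : CI R3 := Real.sqrt lam • intC R3 y.2

/-- `Ψ = 1/(1 + e χ')` -/
def psi (y : YY) : CI CG := Ring.inverse (1 + mapC (kapG chG1) (ee lam y))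

/-- `Q = ∫_0^x Ψ z²` -/
def QQ (y : YY) : CI CG := bilC V2 (bilC mulG (psi lam y) (zz hL g0 lam y)) (zz hL g0 lam y)

/-- the nonlinear right hand side -/
def NN (y : YY) : LI HG :=
  - bilL mulG (psi lam y * psi lam y - 1) (gh hL g0 lam y)
  + Real.sqrt lam • toL HG (bilC mulG (psi lam y * psi lam y) (cst HG (ofC (z1ref L))))
  - Real.sqrt lam • toL HG (bilC mulG (psi lam y * psi lam y * psi lam y *
      mapC ((kapG chG2).comp (divL L)) (ee lam y)) (zz hL g0 lam y))
  + bilR mulG (mapL ((kapG (1 - chG0)).comp LAM) (qh hL g0 lam y))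
      (bilC mulG (psi lam y) (zz hL g0 lam y))
  + Real.sqrt lam • toL HG (bilC mulG ((QQ hL g0 lam y - mapC ((kapG chG0).comp ev1) (QQ hL g0 lam y))
      * psi lam y) (zz hL g0 lam y))

/-- the second component -/
def RR (y : YY) : LI R3 :=
  - mapL (divL L) (mapL LAM (qh hL g0 lam y)
      + Real.sqrt lam • toL R3 (mapC ev1 (QQ hL g0 lam y)))

/-- the fixed point map -/
def Gam (y : YY) : YY := (NN hL g0 lam y, RR hL g0 lam y)

end

end Pool.Agent.Helper15.NF
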