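import Pool.Agent.Helper15.NF.EC0
import Pool.Agent.Helper15.NF.EA1b
import Pool.Agent.Helper15.NF.EB1b

open MeasureTheory Set
open scoped unitInterval

namespace Pool.Agent.Helper15.NF

theorem ec1_mapC_cst {E F : Type*} [NormedAddCommGroup E] [NormedSpace ℝ E]
    [NormedAddCommGroup F] [NormedSpace ℝ F] (A : E →L[ℝ] F) (e : E) :
    mapC A (cst E e) = cst F (A e) := by
  ext t
  simp

theorem ec1_toL_zz {L : R3} (hL : ∀ i, 0 < L i) (g0 : HG) {lam : ℝ} (hl : 0 < lam) (y : YY) :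
    toL HG (zz hL g0 lam y - cst HG (ofC (zref L)))
      = (Real.sqrt lam)⁻¹ • mapL (DG L) (gh hL g0 lam y) := by
  have hs : Real.sqrt lam ≠ 0 := (Real.sqrt_pos.2 hl).ne'
  obtain ⟨-, hW, -, -, -⟩ := solGW_spec (DG_injective hL) hl
  unfold gh zz
  rw [add_sub_cancel_right]
  simp only [map_add, map_sub, map_smul, hW, smul_add, smul_smul, inv_mul_cancel₀ hs, one_smul]
  rw [mapL_toL, ec1_mapC_cst]

theorem ec1_cst_norm_le {E : Type*} [NormedAddCommGroup E] [NormedSpace ℝ E] (e : E) :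
    ‖cst E e‖ ≤ ‖e‖ := by
  exact (ContinuousMap.norm_le _ (norm_nonneg e)).2 (fun _ => le_rfl)

theorem ec1_bb (i : Fin 3) : |bb i| ≤ Real.pi / 3 := by
  have hp := Real.pi_pos
  have hp3 : |Real.pi / 3| ≤ Real.pi / 3 := (abs_of_pos (by positivity)).le
  fin_cases i
  · simpa [bb] using hp3
  · simpa [bb] using hp3
  · simp [bb]; positivity

theorem ec1_zref {m : ℝ} (hm : 0 < m) {L : R3} (hmL : ∀ i, m ≤ L i) :
    ‖ofC (zref L)‖ ≤ ‖ofC‖ * (‖kapG chG1‖ * (Real.pi / 3 / Real.sqrt m)) := by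
  refine (ofC.le_opNorm _).trans ?_
  refine mul_le_mul_of_nonneg_left ?_ (norm_nonneg _)
  unfold zref
  refine ((kapG chG1).le_opNorm _).trans ?_
  refine mul_le_mul_of_nonneg_left ?_ (norm_nonneg _)
  have hsm : 0 < Real.sqrt m := Real.sqrt_pos.2 hm
  refine (pi_norm_le_iff_of_nonneg (by positivity)).2 (fun i => ?_)
  rw [Real.norm_eq_abs, abs_div, abs_of_nonneg (Real.sqrt_nonneg _)]
  have h1 : Real.sqrt m ≤ Real.sqrt (L i) := Real.sqrt_le_sqrt (hmL i)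
  exact div_le_div₀ (by positivity) (ec1_bb i) hsm h1

theorem ec1_bilC_bd {E F G : Type*} [NormedAddCommGroup E] [NormedSpace ℝ E]
    [NormedAddCommGroup F] [NormedSpace ℝ F] [NormedAddCommGroup G] [NormedSpace ℝ G]
    (B : E →L[ℝ] F →L[ℝ] G) : ∃ c : ℝ, 0 ≤ c ∧ ∀ u v, ‖bilC B u v‖ ≤ c * ‖u‖ * ‖v‖ :=
  ⟨‖B‖, norm_nonneg B, bilC_norm_le B⟩

theorem ec1_ring {R : Type*} [NormedCommRing R] [CompleteSpace R] (h1 : ‖(1 : R)‖ ≤ 1) (a : R)
    (h : ‖a‖ ≤ 1 / 2) : Ring.inverse (1 + a) * (1 + a) = 1 ∧ ‖Ring.inverse (1 + a)‖ ≤ 2 ∧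
      ‖Ring.inverse (1 + a) * Ring.inverse (1 + a) - 1‖ ≤ 6 * ‖a‖ := by
  have hunit : IsUnit (1 + a) := by
    have h1 : ‖-a‖ < 1 := by rw [norm_neg]; linarith
    have h2 := (Units.oneSub (-a) h1).isUnit
    simpa using h2
  set p := Ring.inverse (1 + a) with hp
  have hpsi : p * (1 + a) = 1 := Ring.inverse_mul_cancel _ hunit
  have hpsi1 : p = 1 - p * a := by
    have h1 : p + p * a = 1 := by rw [← hpsi]; ring
    rw [← h1]
    ring
  have hpsin : ‖p‖ ≤ 2 := by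
    have h1 : ‖p‖ ≤ 1 + ‖p‖ * (1 / 2) := by
      calc ‖p‖ = ‖1 - p * a‖ := by rw [← hpsi1]
        _ ≤ ‖(1 : R)‖ + ‖p * a‖ := norm_sub_le _ _
        _ ≤ 1 + ‖p‖ * ‖a‖ := add_le_add h1 (norm_mul_le _ _)
        _ ≤ 1 + ‖p‖ * (1 / 2) := by gcongr
    linarith
  refine ⟨hpsi, hpsin, ?_⟩
  have h3 : p * p - 1 = -(p * a * (p + 1)) := by
    have h2 : p * a = 1 - p := by
      rw [eq_sub_iff_add_eq, ← hpsi]; ring
    rw [h2]
    ring
  rw [h3, norm_neg]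
  calc ‖p * a * (p + 1)‖ ≤ ‖p * a‖ * ‖p + 1‖ := norm_mul_le _ _
    _ ≤ (‖p‖ * ‖a‖) * (‖p‖ + ‖(1 : R)‖) := by
      gcongr
      · exact norm_mul_le _ _
      · exact norm_add_le _ _
    _ ≤ (2 * ‖a‖) * (2 + 1) := by gcongr
    _ = 6 * ‖a‖ := by ring

theorem ec1_one : ‖(1 : CI CG)‖ ≤ 1 := by
  refine (ContinuousMap.norm_le _ zero_le_one).2 (fun t => ?_)
  refine (ContinuousMap.norm_le _ zero_le_one).2 (fun x => ?_)
  simp

/-- EC1a : bounds for the ingredients -/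
theorem ingr_bound (m M K : ℝ) (hm : 0 < m) : ∃ C > 0, ∃ l1 ∈ Ioc (0:ℝ) 1,
    ∀ (L : R3) (hL : ∀ i, 0 < L i), (∀ i, m ≤ L i ∧ L i ≤ M) → ∀ g0 : HG, ‖DG L g0‖ ≤ K →
    ∀ lam ∈ Ioc 0 l1, ∀ y : YY, ‖y‖ ≤ 2 →
      ‖gh hL g0 lam y‖ ≤ C ∧ ‖zz hL g0 lam y‖ ≤ C ∧
      ‖qh hL g0 lam y‖ ≤ C * Real.sqrt (Real.sqrt lam) ∧ ‖ee lam y‖ ≤ C * Real.sqrt lam ∧
      ‖ee lam y‖ ≤ 1 / 2 ∧ ‖mapC (kapG chG1) (ee lam y)‖ ≤ 1 / 2 ∧
      (∀ t x, 1 / 2 ≤ (1 + mapC (kapG chG1) (ee lam y)) t x) ∧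
      psi lam y * (1 + mapC (kapG chG1) (ee lam y)) = 1 ∧
      ‖psi lam y‖ ≤ 2 ∧ ‖psi lam y * psi lam y - 1‖ ≤ C * Real.sqrt lam ∧
      ‖QQ hL g0 lam y‖ ≤ C := by
  obtain ⟨C0, hC0, htr⟩ := trace_time m M hm
  obtain ⟨cV, hcV0, hcV⟩ := ec1_bilC_bd V2
  obtain ⟨cM, hcM0, hcM⟩ := ec1_bilC_bd mulG
  -- constants
  set κ : ℝ := ‖kapG chG1‖ with hκ
  have hκ0 : 0 ≤ κ := norm_nonneg (kapG chG1)
  set B : ℝ := |K| + 2 with hB
  have hB2 : 2 ≤ B := by rw [hB]; linarith [abs_nonneg K]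
  set Z : ℝ := ‖ofC‖ * (κ * (Real.pi / 3 / Real.sqrt m)) with hZ
  have hZ0 : 0 ≤ Z := by
    have h1 : 0 ≤ ‖ofC‖ := norm_nonneg ofC
    positivity
  set A : ℝ := B + Z with hA
  have hA0 : 0 ≤ A := by linarith
  set V : ℝ := cV * (cM * 2 * A) * A with hV
  have hV0 : 0 ≤ V := by positivity
  set q : ℝ := Real.sqrt (2 * C0) * B with hq
  have hq0 : 0 ≤ q := by positivity
  set C : ℝ := A + V + q + 12 * κ + 2 with hC
  have hCpos : 0 < C := by linarith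
  set r : ℝ := 1 / (4 * (κ + 1)) with hr
  have hr0 : 0 < r := by positivity
  have hr1 : r ≤ 1 / 4 := by
    rw [hr]
    apply one_div_le_one_div_of_le (by norm_num)
    linarith
  have hrκ : κ * (2 * r) ≤ 1 / 2 := by
    rw [hr]
    have : κ / (κ + 1) ≤ 1 := by rw [div_le_one (by positivity)]; linarith
    calc κ * (2 * (1 / (4 * (κ + 1)))) = (κ / (κ + 1)) * (1 / 2) := by field_simp; ring
      _ ≤ 1 * (1 / 2) := by gcongr
      _ = 1 / 2 := by norm_num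
  refine ⟨C, hCpos, r ^ 2, ⟨by positivity, ?_⟩, ?_⟩
  · calc r ^ 2 ≤ (1 / 4) ^ 2 := by gcongr
      _ ≤ 1 := by norm_num
  intro L hL hmL g0 hg0 lam hlam y hy
  have hl : 0 < lam := hlam.1
  have hs0 : 0 < Real.sqrt lam := Real.sqrt_pos.2 hl
  have hsr : Real.sqrt lam ≤ r := by
    calc Real.sqrt lam ≤ Real.sqrt (r ^ 2) := Real.sqrt_le_sqrt hlam.2
      _ = r := Real.sqrt_sq hr0.le
  have hl1 : lam ≤ 1 := by
    refine hlam.2.trans ?_
    calc r ^ 2 ≤ (1 / 4) ^ 2 := by gcongr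
      _ ≤ 1 := by norm_num
  have hy1 : ‖y.1‖ ≤ 2 := (norm_fst_le y).trans hy
  have hy2 : ‖y.2‖ ≤ 2 := (norm_snd_le y).trans hy
  have hKB : ‖DG L g0‖ ≤ |K| := hg0.trans (le_abs_self K)
  obtain ⟨hf1, hf2⟩ := free_bound (DG_injective hL) hl g0
  obtain ⟨-, -, hSn, hWn, -⟩ := solGW_spec (DG_injective hL) hl
  -- gh
  have hgh : ‖gh hL g0 lam y‖ ≤ B := by
    unfold gh
    refine (norm_add_le _ _).trans ?_
    rw [norm_smul, Real.norm_eq_abs, abs_of_pos hs0]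
    have h2 := hSn y.1
    rw [hB]
    linarith
  -- zz minus const
  have hz' : ‖zz hL g0 lam y - cst HG (ofC (zref L))‖ ≤ B := by
    unfold zz
    rw [add_sub_cancel_right]
    refine (norm_add_le _ _).trans ?_
    rw [norm_smul, norm_inv, Real.norm_eq_abs, abs_of_pos hs0]
    have h2 : (Real.sqrt lam)⁻¹ * ‖solW (DG_injective hL) lam y.1‖ ≤ 2 := by
      rw [inv_mul_le_iff₀ hs0]
      refine (hWn y.1).trans ?_
      gcongr
    rw [hB]
    linarith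
  have hzz : ‖zz hL g0 lam y‖ ≤ A := by
    have h1 : zz hL g0 lam y = (zz hL g0 lam y - cst HG (ofC (zref L))) + cst HG (ofC (zref L)) := by
      abel
    rw [h1]
    refine (norm_add_le _ _).trans ?_
    have h2 := (ec1_cst_norm_le (ofC (zref L))).trans (ec1_zref hm (fun i => (hmL i).1))
    rw [hA]
    linarith
  -- qh
  have hqh : ‖qh hL g0 lam y‖ ≤ q * Real.sqrt (Real.sqrt lam) := by
    have h1 := htr L hmL (gh hL g0 lam y) (zz hL g0 lam y - cst HG (ofC (zref L))) lam hl hl1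
      (ec1_toL_zz hL g0 hl y)
    have h2 : ‖qh hL g0 lam y‖ ^ 2 ≤ (q * Real.sqrt (Real.sqrt lam)) ^ 2 := by
      have h3 : (q * Real.sqrt (Real.sqrt lam)) ^ 2 = C0 * Real.sqrt lam * (B ^ 2 + B * B) := by
        rw [hq, mul_pow, mul_pow, Real.sq_sqrt (by positivity), Real.sq_sqrt hs0.le]
        ring
      rw [h3]
      refine h1.trans ?_
      gcongr
    exact (pow_le_pow_iff_left₀ (norm_nonneg _) (by positivity) (by norm_num)).1 h2
  -- ee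
  have hee : ‖ee lam y‖ ≤ 2 * Real.sqrt lam := by
    unfold ee
    rw [norm_smul, Real.norm_eq_abs, abs_of_pos hs0]
    have h2 := (intC_norm_le (E := R3) y.2).trans hy2
    nlinarith
  have hκe : ‖mapC (kapG chG1) (ee lam y)‖ ≤ κ * (2 * Real.sqrt lam) := by
    refine (mapC_norm_le _ _).trans ?_
    gcongr
  have hκe' : ‖mapC (kapG chG1) (ee lam y)‖ ≤ 1 / 2 := by
    refine hκe.trans (le_trans ?_ hrκ)
    gcongr
  set a : CI CG := mapC (kapG chG1) (ee lam y) with ha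
  obtain ⟨hpsi, hpsin, hpsi2⟩ : psi lam y * (1 + a) = 1 ∧ ‖psi lam y‖ ≤ 2 ∧
      ‖psi lam y * psi lam y - 1‖ ≤ 6 * ‖a‖ := ec1_ring ec1_one a hκe'
  refine ⟨by linarith, by linarith, ?_, ?_, ?_, hκe', ?_, hpsi, hpsin, ?_, ?_⟩
  · refine hqh.trans ?_
    have h1 : q ≤ C := by linarith
    gcongr
  · refine hee.trans ?_
    have h1 : 2 ≤ C := by linarith
    gcongr
  · refine hee.trans ?_
    linarith
  · intro t x
    have h1 : ‖(a t) x‖ ≤ 1 / 2 := ((a t).norm_coe_le_norm x).trans ((a.norm_coe_le_norm t).trans hκe')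
    rw [Real.norm_eq_abs, abs_le] at h1
    have h2 : (1 + a) t x = 1 + a t x := rfl
    rw [h2]
    linarith [h1.1]
  · calc ‖psi lam y * psi lam y - 1‖ ≤ 6 * ‖a‖ := hpsi2
      _ ≤ 6 * (κ * (2 * Real.sqrt lam)) := by gcongr
      _ = 12 * κ * Real.sqrt lam := by ring
      _ ≤ C * Real.sqrt lam := by
        have h1 : 12 * κ ≤ C := by linarith
        gcongr
  · have h1 : ‖QQ hL g0 lam y‖ ≤ V := by
      unfold QQ
      refine (hcV _ _).trans ?_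
      rw [hV]
      gcongr
      refine (hcM _ _).trans ?_
      gcongr
    linarith

end Pool.Agent.Helper15.NF
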