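import Pool.Agent.Helper15.NF.EC1

open MeasureTheory Set
open scoped unitInterval

namespace Pool.Agent.Helper15.NF

theorem ingr_lip_gh {L : R3} (hL : ∀ i, 0 < L i) (g0 : HG) {lam : ℝ} (_ : 0 < lam) (y y' : YY) :
    gh hL g0 lam y - gh hL g0 lam y' = solG (DG_injective hL) lam (y.1 - y'.1) := by
  unfold gh
  rw [map_sub]
  abel

theorem ingr_lip_zz {L : R3} (hL : ∀ i, 0 < L i) (g0 : HG) {lam : ℝ} (_ : 0 < lam) (y y' : YY) :
    zz hL g0 lam y - zz hL g0 lam y' =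
      (Real.sqrt lam)⁻¹ • solW (DG_injective hL) lam (y.1 - y'.1) := by
  unfold zz
  rw [map_sub, smul_sub]
  abel

theorem ingr_lip_bil {E F G : Type*} [NormedAddCommGroup E] [NormedSpace ℝ E]
    [NormedAddCommGroup F] [NormedSpace ℝ F] [NormedAddCommGroup G] [NormedSpace ℝ G]
    (B : E →L[ℝ] F →L[ℝ] G) : ∃ c : ℝ, 0 ≤ c ∧ ∀ u v, ‖bilC B u v‖ ≤ c * ‖u‖ * ‖v‖ :=
  ⟨‖B‖, norm_nonneg B, fun u v => bilC_norm_le B u v⟩

theorem ingr_lip_map {E F : Type*} [NormedAddCommGroup E] [NormedSpace ℝ E]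
    [NormedAddCommGroup F] [NormedSpace ℝ F]
    (B : E →L[ℝ] F) : ∃ c : ℝ, 0 ≤ c ∧ ∀ u, ‖mapC B u‖ ≤ c * ‖u‖ :=
  ⟨‖B‖, norm_nonneg B, fun u => mapC_norm_le B u⟩

theorem ingr_lip_fst (y y' : YY) : ‖y.1 - y'.1‖ ≤ ‖y - y'‖ := by
  rw [← Prod.fst_sub]; exact norm_fst_le _

theorem ingr_lip_snd (y y' : YY) : ‖y.2 - y'.2‖ ≤ ‖y - y'‖ := by
  rw [← Prod.snd_sub]; exact norm_snd_le _

/-- EC1b : Lipschitz bounds for the ingredients -/
theorem ingr_lip (m M K : ℝ) (hm : 0 < m) : ∃ C > 0, ∃ l1 ∈ Ioc (0:ℝ) 1,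
    ∀ (L : R3) (hL : ∀ i, 0 < L i), (∀ i, m ≤ L i ∧ L i ≤ M) → ∀ g0 : HG, ‖DG L g0‖ ≤ K →
    ∀ lam ∈ Ioc 0 l1, ∀ y y' : YY, ‖y‖ ≤ 2 → ‖y'‖ ≤ 2 →
      ‖gh hL g0 lam y - gh hL g0 lam y'‖ ≤ ‖y - y'‖ ∧
      ‖zz hL g0 lam y - zz hL g0 lam y'‖ ≤ ‖y - y'‖ ∧
      ‖qh hL g0 lam y - qh hL g0 lam y'‖ ≤ C * Real.sqrt (Real.sqrt lam) * ‖y - y'‖ ∧
      ‖ee lam y - ee lam y'‖ ≤ C * Real.sqrt lam * ‖y - y'‖ ∧
      ‖psi lam y - psi lam y'‖ ≤ C * Real.sqrt lam * ‖y - y'‖ ∧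
      ‖QQ hL g0 lam y - QQ hL g0 lam y'‖ ≤ C * ‖y - y'‖ := by
  obtain ⟨C1, hC1, l1, hl1, H1⟩ := ingr_bound m M K hm
  obtain ⟨C2, hC2, H2⟩ := trace_time m M hm
  obtain ⟨a, ha0, ha⟩ := ingr_lip_map (kapG chG1)
  obtain ⟨b1, hb1, hB1⟩ := ingr_lip_bil V2
  obtain ⟨b2, hb2, hB2⟩ := ingr_lip_bil mulG
  obtain ⟨b, hb⟩ : ∃ b : ℝ, b = b1 * b2 := ⟨_, rfl⟩
  have hb0 : 0 ≤ b := by rw [hb]; exact mul_nonneg hb1 hb2
  have hs2 : 0 ≤ Real.sqrt (2 * C2) := Real.sqrt_nonneg _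
  refine ⟨1 + Real.sqrt (2 * C2) + 4 * a + b * (4 * a * C1 * C1 + 4 * C1), ?_, l1, hl1, ?_⟩
  · positivity
  intro L hL hLm g0 hg0 lam hlam y y' hy hy'
  obtain ⟨hg, hz, hq, he, he2, hk2, hpos, hinv, hpsi, hpsi2, hQ⟩ := H1 L hL hLm g0 hg0 lam hlam y hy
  obtain ⟨hg', hz', hq', he', he2', hk2', hpos', hinv', hpsi', hpsi2', hQ'⟩ :=
    H1 L hL hLm g0 hg0 lam hlam y' hy'
  have hlam0 : 0 < lam := hlam.1
  have hlam1 : lam ≤ 1 := hlam.2.trans hl1.2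
  have hsl : 0 < Real.sqrt lam := Real.sqrt_pos.2 hlam0
  have hsl1 : Real.sqrt lam ≤ 1 := by
    rw [← Real.sqrt_one]; exact Real.sqrt_le_sqrt hlam1
  set d : ℝ := ‖y - y'‖ with hd
  have hd0 : 0 ≤ d := norm_nonneg _
  have hC0 : 0 ≤ b * (4 * a * C1 * C1 + 4 * C1) := by positivity
  obtain ⟨sp1, sp2, sp3, sp4, sp5⟩ := solGW_spec (DG_injective hL) hlam0
  have npsi : 0 ≤ ‖psi lam y‖ := norm_nonneg (psi lam y)
  have npsi' : 0 ≤ ‖psi lam y'‖ := norm_nonneg (psi lam y')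
  -- gh
  have e1 : ‖gh hL g0 lam y - gh hL g0 lam y'‖ ≤ d := by
    rw [ingr_lip_gh hL g0 hlam0]
    exact (sp3 _).trans (ingr_lip_fst y y')
  -- zz
  have e2 : ‖zz hL g0 lam y - zz hL g0 lam y'‖ ≤ d := by
    rw [ingr_lip_zz hL g0 hlam0, norm_smul, norm_inv, Real.norm_of_nonneg hsl.le]
    calc (Real.sqrt lam)⁻¹ * ‖solW (DG_injective hL) lam (y.1 - y'.1)‖
        ≤ (Real.sqrt lam)⁻¹ * (Real.sqrt lam * ‖y.1 - y'.1‖) :=
          mul_le_mul_of_nonneg_left (sp4 _) (inv_nonneg.2 hsl.le)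
      _ = ‖y.1 - y'.1‖ := by
          rw [← mul_assoc, inv_mul_cancel₀ hsl.ne', one_mul]
      _ ≤ d := ingr_lip_fst y y'
  -- qh
  have e3 : ‖qh hL g0 lam y - qh hL g0 lam y'‖ ≤
      Real.sqrt (2 * C2) * Real.sqrt (Real.sqrt lam) * d := by
    have h1 : qh hL g0 lam y - qh hL g0 lam y' =
        mapL (trG L) (gh hL g0 lam y - gh hL g0 lam y') := by
      unfold qh; rw [map_sub]
    rw [h1]
    have h2 := H2 L hLm (gh hL g0 lam y - gh hL g0 lam y') (zz hL g0 lam y - zz hL g0 lam y') lam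
      hlam0 hlam1 (by
        rw [ingr_lip_gh hL g0 hlam0, ingr_lip_zz hL g0 hlam0, map_smul, sp2])
    have h3 : ‖mapL (trG L) (gh hL g0 lam y - gh hL g0 lam y')‖ ^ 2 ≤
        (2 * C2) * Real.sqrt lam * d ^ 2 := by
      refine h2.trans ?_
      have h4 : ‖zz hL g0 lam y - zz hL g0 lam y'‖ ^ 2 +
          ‖zz hL g0 lam y - zz hL g0 lam y'‖ * ‖gh hL g0 lam y - gh hL g0 lam y'‖ ≤ 2 * d ^ 2 := by
        have h5 : ‖zz hL g0 lam y - zz hL g0 lam y'‖ ^ 2 ≤ d ^ 2 :=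
          pow_le_pow_left₀ (norm_nonneg _) e2 2
        have h6 : ‖zz hL g0 lam y - zz hL g0 lam y'‖ * ‖gh hL g0 lam y - gh hL g0 lam y'‖ ≤
            d * d := mul_le_mul e2 e1 (norm_nonneg _) hd0
        nlinarith
      calc C2 * Real.sqrt lam * _ ≤ C2 * Real.sqrt lam * (2 * d ^ 2) :=
            mul_le_mul_of_nonneg_left h4 (by positivity)
        _ = _ := by ring
    have h7 : (Real.sqrt (2 * C2) * Real.sqrt (Real.sqrt lam) * d) ^ 2 =
        (2 * C2) * Real.sqrt lam * d ^ 2 := by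
      rw [mul_pow, mul_pow, Real.sq_sqrt (by positivity), Real.sq_sqrt hsl.le]
    rw [← h7] at h3
    exact (pow_le_pow_iff_left₀ (norm_nonneg _) (by positivity) two_ne_zero).1 h3
  -- ee
  have e4 : ‖ee lam y - ee lam y'‖ ≤ Real.sqrt lam * d := by
    unfold ee
    rw [← smul_sub, ← map_sub, norm_smul, Real.norm_of_nonneg hsl.le]
    exact mul_le_mul_of_nonneg_left ((intC_norm_le _).trans (ingr_lip_snd y y')) hsl.le
  -- psi
  have e5 : ‖psi lam y - psi lam y'‖ ≤ 4 * a * Real.sqrt lam * d := by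
    have h1 : psi lam y - psi lam y' = psi lam y * psi lam y' *
        mapC (kapG chG1) (ee lam y' - ee lam y) := by
      rw [map_sub]
      calc psi lam y - psi lam y' =
          psi lam y * (psi lam y' * (1 + mapC (kapG chG1) (ee lam y'))) -
            psi lam y' * (psi lam y * (1 + mapC (kapG chG1) (ee lam y))) := by
              rw [hinv, hinv', mul_one, mul_one]
        _ = _ := by ring
    rw [h1]
    calc ‖psi lam y * psi lam y' * mapC (kapG chG1) (ee lam y' - ee lam y)‖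
        ≤ ‖psi lam y * psi lam y'‖ * ‖mapC (kapG chG1) (ee lam y' - ee lam y)‖ :=
          norm_mul_le (psi lam y * psi lam y') (mapC (kapG chG1) (ee lam y' - ee lam y))
      _ ≤ (‖psi lam y‖ * ‖psi lam y'‖) * (a * ‖ee lam y' - ee lam y‖) :=
          mul_le_mul (norm_mul_le (psi lam y) (psi lam y')) (ha _) (norm_nonneg _)
            (mul_nonneg npsi npsi')
      _ ≤ (2 * 2) * (a * (Real.sqrt lam * d)) := by
          refine mul_le_mul (mul_le_mul hpsi hpsi' npsi' (by norm_num)) ?_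
            (mul_nonneg ha0 (norm_nonneg _)) (by norm_num)
          rw [norm_sub_rev]
          exact mul_le_mul_of_nonneg_left e4 ha0
      _ = _ := by ring
  have e5' : ‖psi lam y - psi lam y'‖ ≤ 4 * a * d := by
    refine e5.trans ?_
    have : 4 * a * Real.sqrt lam ≤ 4 * a * 1 := mul_le_mul_of_nonneg_left hsl1 (by positivity)
    rw [mul_one] at this
    exact mul_le_mul_of_nonneg_right this hd0
  -- QQ
  have hbd : ∀ (p : CI CG) (u v : CI HG), ‖bilC V2 (bilC mulG p u) v‖ ≤ b * (‖p‖ * ‖u‖ * ‖v‖) := by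
    intro p u v
    calc ‖bilC V2 (bilC mulG p u) v‖ ≤ b1 * ‖bilC mulG p u‖ * ‖v‖ := hB1 _ _
      _ ≤ b1 * (b2 * ‖p‖ * ‖u‖) * ‖v‖ :=
          mul_le_mul_of_nonneg_right (mul_le_mul_of_nonneg_left (hB2 _ _)
            hb1) (norm_nonneg _)
      _ = _ := by rw [hb]; ring
  have e6 : ‖QQ hL g0 lam y - QQ hL g0 lam y'‖ ≤ b * (4 * a * C1 * C1 + 4 * C1) * d := by
    have h1 : QQ hL g0 lam y - QQ hL g0 lam y' =
        bilC V2 (bilC mulG (psi lam y - psi lam y') (zz hL g0 lam y)) (zz hL g0 lam y) +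
        bilC V2 (bilC mulG (psi lam y') (zz hL g0 lam y - zz hL g0 lam y')) (zz hL g0 lam y) +
        bilC V2 (bilC mulG (psi lam y') (zz hL g0 lam y'))
          (zz hL g0 lam y - zz hL g0 lam y') := by
      unfold QQ
      simp only [map_sub, sub_apply]
      abel
    rw [h1]
    have n1 := hbd (psi lam y - psi lam y') (zz hL g0 lam y) (zz hL g0 lam y)
    have n2 := hbd (psi lam y') (zz hL g0 lam y - zz hL g0 lam y') (zz hL g0 lam y)
    have n3 := hbd (psi lam y') (zz hL g0 lam y') (zz hL g0 lam y - zz hL g0 lam y')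
    have m1 : ‖psi lam y - psi lam y'‖ * ‖zz hL g0 lam y‖ * ‖zz hL g0 lam y‖ ≤
        4 * a * d * C1 * C1 :=
      mul_le_mul (mul_le_mul e5' hz (norm_nonneg _) (by positivity)) hz (norm_nonneg _)
        (by positivity)
    have m2 : ‖psi lam y'‖ * ‖zz hL g0 lam y - zz hL g0 lam y'‖ * ‖zz hL g0 lam y‖ ≤
        2 * d * C1 :=
      mul_le_mul (mul_le_mul hpsi' e2 (norm_nonneg _) (by positivity)) hz (norm_nonneg _)
        (by positivity)
    have m3 : ‖psi lam y'‖ * ‖zz hL g0 lam y'‖ * ‖zz hL g0 lam y - zz hL g0 lam y'‖ ≤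
        2 * C1 * d :=
      mul_le_mul (mul_le_mul hpsi' hz' (norm_nonneg _) (by positivity)) e2 (norm_nonneg _)
        (by positivity)
    calc _ ≤ _ := norm_add₃_le
      _ ≤ b * (4 * a * d * C1 * C1) + b * (2 * d * C1) + b * (2 * C1 * d) :=
          add_le_add (add_le_add (n1.trans (mul_le_mul_of_nonneg_left m1 hb0))
            (n2.trans (mul_le_mul_of_nonneg_left m2 hb0)))
            (n3.trans (mul_le_mul_of_nonneg_left m3 hb0))
      _ = _ := by ring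
  refine ⟨e1, e2, e3.trans ?_, e4.trans ?_, e5.trans ?_, e6.trans ?_⟩
  · refine mul_le_mul_of_nonneg_right (mul_le_mul_of_nonneg_right ?_ (Real.sqrt_nonneg _)) hd0
    linarith
  · rw [← one_mul (Real.sqrt lam * d), ← mul_assoc]
    refine mul_le_mul_of_nonneg_right (mul_le_mul_of_nonneg_right ?_ (Real.sqrt_nonneg _)) hd0
    linarith
  · refine mul_le_mul_of_nonneg_right (mul_le_mul_of_nonneg_right ?_ (Real.sqrt_nonneg _)) hd0
    linarith
  · refine mul_le_mul_of_nonneg_right ?_ hd0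
    linarith

end Pool.Agent.Helper15.NF
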