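import Pool.Agent.Helper15.NF.EC1
import Pool.Agent.Helper15.NF.EC1b

open MeasureTheory Set
open scoped unitInterval

namespace Pool.Agent.Helper15.NF

/-- bounded by `c` and Lipschitz with constant `c` on the ball of radius 2 -/
def BLc {X : Type*} [NormedAddCommGroup X] (c : ℝ) (Φ : YY → X) : Prop :=
  0 ≤ c ∧ (∀ y, ‖y‖ ≤ 2 → ‖Φ y‖ ≤ c) ∧
    ∀ y y', ‖y‖ ≤ 2 → ‖y'‖ ≤ 2 → ‖Φ y - Φ y'‖ ≤ c * ‖y - y'‖

section
variable {X Y Z : Type*} [NormedAddCommGroup X] [NormedAddCommGroup Y] [NormedAddCommGroup Z]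

theorem BLc.mono {c d : ℝ} {Φ : YY → X} (h : BLc c Φ) (hcd : c ≤ d) : BLc d Φ :=
  ⟨h.1.trans hcd, fun y hy => (h.2.1 y hy).trans hcd,
   fun y y' hy hy' => (h.2.2 y y' hy hy').trans (mul_le_mul_of_nonneg_right hcd (norm_nonneg _))⟩

theorem BLc.lin {c k : ℝ} {Φ : YY → X} (h : BLc c Φ) (A : X → Y) (hk : 0 ≤ k)
    (hA : ∀ x, ‖A x‖ ≤ k * ‖x‖) (hs : ∀ x x', A (x - x') = A x - A x') :
    BLc (k * c) (fun y => A (Φ y)) := by
  refine ⟨mul_nonneg hk h.1, fun y hy => (hA _).trans (mul_le_mul_of_nonneg_left (h.2.1 y hy) hk),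
    fun y y' hy hy' => ?_⟩
  rw [← hs]
  calc ‖A (Φ y - Φ y')‖ ≤ k * ‖Φ y - Φ y'‖ := hA _
    _ ≤ k * (c * ‖y - y'‖) := mul_le_mul_of_nonneg_left (h.2.2 y y' hy hy') hk
    _ = k * c * ‖y - y'‖ := by ring

theorem BLc.bil {c d k : ℝ} {Φ : YY → X} {Ψ : YY → Y} (h : BLc c Φ) (h' : BLc d Ψ)
    (B : X → Y → Z) (hk : 0 ≤ k) (hB : ∀ x y, ‖B x y‖ ≤ k * ‖x‖ * ‖y‖)
    (h1 : ∀ x x' y, B (x - x') y = B x y - B x' y)
    (h2 : ∀ x y y', B x (y - y') = B x y - B x y') :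
    BLc (2 * k * c * d) (fun y => B (Φ y) (Ψ y)) := by
  have hc := h.1
  have hd := h'.1
  have hkc : 0 ≤ k * c := mul_nonneg hk hc
  have hkcd : 0 ≤ k * c * d := mul_nonneg hkc hd
  have hb : ∀ y y', ‖y‖ ≤ 2 → ‖y'‖ ≤ 2 → ‖B (Φ y) (Ψ y')‖ ≤ k * c * d := by
    intro y y' hy hy'
    calc ‖B (Φ y) (Ψ y')‖ ≤ k * ‖Φ y‖ * ‖Ψ y'‖ := hB _ _
      _ ≤ k * c * d := by
        apply mul_le_mul _ (h'.2.1 y' hy') (norm_nonneg _) hkc
        exact mul_le_mul_of_nonneg_left (h.2.1 y hy) hk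
  refine ⟨by nlinarith, fun y hy => (hb y y hy hy).trans (by nlinarith), fun y y' hy hy' => ?_⟩
  have e : B (Φ y) (Ψ y) - B (Φ y') (Ψ y') = B (Φ y - Φ y') (Ψ y) + B (Φ y') (Ψ y - Ψ y') := by
    rw [h1, h2]; abel
  show ‖B (Φ y) (Ψ y) - B (Φ y') (Ψ y')‖ ≤ _
  rw [e]
  have e1 : ‖B (Φ y - Φ y') (Ψ y)‖ ≤ k * (c * ‖y - y'‖) * d := by
    refine (hB _ _).trans ?_
    apply mul_le_mul _ (h'.2.1 y hy) (norm_nonneg _)
      (mul_nonneg hk (mul_nonneg hc (norm_nonneg _)))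
    exact mul_le_mul_of_nonneg_left (h.2.2 y y' hy hy') hk
  have e2 : ‖B (Φ y') (Ψ y - Ψ y')‖ ≤ k * c * (d * ‖y - y'‖) := by
    refine (hB _ _).trans ?_
    apply mul_le_mul _ (h'.2.2 y y' hy hy') (norm_nonneg _) hkc
    exact mul_le_mul_of_nonneg_left (h.2.1 y' hy') hk
  calc ‖B (Φ y - Φ y') (Ψ y) + B (Φ y') (Ψ y - Ψ y')‖
      ≤ ‖B (Φ y - Φ y') (Ψ y)‖ + ‖B (Φ y') (Ψ y - Ψ y')‖ := norm_add_le _ _
    _ ≤ k * (c * ‖y - y'‖) * d + k * c * (d * ‖y - y'‖) := add_le_add e1 e2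
    _ = 2 * k * c * d * ‖y - y'‖ := by ring

theorem BLc.add {c d : ℝ} {Φ Ψ : YY → X} (h : BLc c Φ) (h' : BLc d Ψ) :
    BLc (c + d) (fun y => Φ y + Ψ y) := by
  refine ⟨add_nonneg h.1 h'.1, fun y hy => (norm_add_le _ _).trans
    (add_le_add (h.2.1 y hy) (h'.2.1 y hy)), fun y y' hy hy' => ?_⟩
  have e : Φ y + Ψ y - (Φ y' + Ψ y') = (Φ y - Φ y') + (Ψ y - Ψ y') := by abel
  show ‖Φ y + Ψ y - (Φ y' + Ψ y')‖ ≤ _
  rw [e, add_mul]
  exact (norm_add_le _ _).trans (add_le_add (h.2.2 y y' hy hy') (h'.2.2 y y' hy hy'))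

theorem BLc.neg {c : ℝ} {Φ : YY → X} (h : BLc c Φ) : BLc c (fun y => - Φ y) := by
  have := h.lin (k := 1) (fun x => - x) zero_le_one (fun x => by rw [norm_neg, one_mul])
    (fun x x' => by abel)
  rwa [one_mul] at this

theorem BLc.sub {c d : ℝ} {Φ Ψ : YY → X} (h : BLc c Φ) (h' : BLc d Ψ) :
    BLc (c + d) (fun y => Φ y - Ψ y) := by
  have := h.add h'.neg
  simpa only [sub_eq_add_neg] using this

theorem BLc.const {c : ℝ} {x : X} (h : ‖x‖ ≤ c) : BLc c (fun _ : YY => x) := by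
  have h0 : 0 ≤ c := (norm_nonneg x).trans h
  refine ⟨h0, fun _ _ => h, fun y y' _ _ => ?_⟩
  rw [sub_self, norm_zero]
  exact mul_nonneg h0 (norm_nonneg _)

theorem BLc.smul {c s : ℝ} [NormedSpace ℝ X] {Φ : YY → X} (h : BLc c Φ) (hs : 0 ≤ s) :
    BLc (s * c) (fun y => s • Φ y) :=
  h.lin (fun x => s • x) hs (fun x => by rw [norm_smul, Real.norm_of_nonneg hs])
    (fun x x' => smul_sub _ _ _)

theorem BLc.clm {c k : ℝ} [NormedSpace ℝ X] [NormedSpace ℝ Y] {Φ : YY → X} (h : BLc c Φ)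
    (A : X →L[ℝ] Y) (hk : 0 ≤ k) (hA : ∀ x, ‖A x‖ ≤ k * ‖x‖) : BLc (k * c) (fun y => A (Φ y)) :=
  h.lin A hk hA (fun x x' => map_sub A x x')

theorem BLc.clm2 {c d k : ℝ} [NormedSpace ℝ X] [NormedSpace ℝ Y] [NormedSpace ℝ Z] {Φ : YY → X}
    {Ψ : YY → Y} (h : BLc c Φ) (h' : BLc d Ψ) (B : X →L[ℝ] Y →L[ℝ] Z) (hk : 0 ≤ k)
    (hB : ∀ x y, ‖B x y‖ ≤ k * ‖x‖ * ‖y‖) : BLc (2 * k * c * d) (fun y => B (Φ y) (Ψ y)) :=
  h.bil h' (fun x y => B x y) hk hB (fun x x' y => by rw [map_sub]; rfl)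
    (fun x y y' => map_sub _ _ _)

theorem BLc.mul {R : Type*} [NormedRing R] {c d : ℝ} {Φ Ψ : YY → R} (h : BLc c Φ)
    (h' : BLc d Ψ) : BLc (2 * c * d) (fun y => Φ y * Ψ y) := by
  have := h.bil h' (k := 1) (fun x y => x * y) zero_le_one
    (fun x y => by rw [one_mul]; exact norm_mul_le x y) (fun x x' y => sub_mul _ _ _)
    (fun x y y' => mul_sub _ _ _)
  rwa [mul_one] at this

theorem BLc.prod {c : ℝ} {Φ : YY → X} {Ψ : YY → Y} (h : BLc c Φ) (h' : BLc c Ψ) :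
    BLc c (fun y => (Φ y, Ψ y)) := by
  refine ⟨h.1, fun y hy => ?_, fun y y' hy hy' => ?_⟩
  · rw [Prod.norm_def]
    exact max_le (h.2.1 y hy) (h'.2.1 y hy)
  · rw [Prod.mk_sub_mk, Prod.norm_def]
    exact max_le (h.2.2 y y' hy hy') (h'.2.2 y y' hy hy')

end

theorem toL_le' {E : Type*} [NormedAddCommGroup E] [NormedSpace ℝ E] (u : CI E) :
    ‖toL E u‖ ≤ 1 * ‖u‖ := by
  rw [one_mul]; exact toL_norm_le u

theorem divL_le {m M : ℝ} (hm : 0 < m) {L : R3} (hL : ∀ i, m ≤ L i ∧ L i ≤ M) :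
    ‖divL L‖ ≤ m⁻¹ := by
  refine ContinuousLinearMap.opNorm_le_bound _ (inv_nonneg.2 hm.le) (fun v => ?_)
  rw [pi_norm_le_iff_of_nonneg (mul_nonneg (inv_nonneg.2 hm.le) (norm_nonneg _))]
  intro i
  have e : divL L v i = (L i)⁻¹ * v i := by
    simp [divL]
  rw [e, norm_mul, norm_inv]
  have hi : 0 < L i := hm.trans_le (hL i).1
  rw [Real.norm_of_nonneg hi.le]
  exact mul_le_mul (inv_anti₀ hm (hL i).1) (norm_le_pi_norm v i) (norm_nonneg _)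
    (inv_nonneg.2 hm.le)

theorem z1ref_le {m M : ℝ} (hm : 0 < m) {L : R3} (hL : ∀ i, m ≤ L i ∧ L i ≤ M) :
    ‖z1ref L‖ ≤ ‖kapG chG2‖ * (2 * (m * Real.sqrt m)⁻¹) := by
  unfold z1ref
  refine (ContinuousLinearMap.le_opNorm _ _).trans ?_
  have hms : 0 < m * Real.sqrt m := mul_pos hm (Real.sqrt_pos.2 hm)
  refine mul_le_mul_of_nonneg_left ?_ (norm_nonneg _)
  rw [pi_norm_le_iff_of_nonneg (by positivity)]
  intro i
  have hi : 0 < L i := hm.trans_le (hL i).1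
  have hb : |bb i| ≤ 2 := by
    have hp : Real.pi ≤ 4 := Real.pi_le_four
    have hp0 : 0 < Real.pi := Real.pi_pos
    fin_cases i
    · show |Real.pi / 3| ≤ 2
      rw [abs_of_pos (by positivity)]; linarith
    · show |-(Real.pi / 3)| ≤ 2
      rw [abs_neg, abs_of_pos (by positivity)]; linarith
    · show |(0:ℝ)| ≤ 2
      rw [abs_zero]; norm_num
  have hLs : m * Real.sqrt m ≤ L i * Real.sqrt (L i) :=
    mul_le_mul (hL i).1 (Real.sqrt_le_sqrt (hL i).1) (Real.sqrt_nonneg _) hi.le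
  rw [div_eq_mul_inv, norm_mul, Real.norm_eq_abs, norm_inv,
    Real.norm_of_nonneg (hms.le.trans hLs)]
  exact mul_le_mul hb (inv_anti₀ hms hLs) (inv_nonneg.2 (hms.le.trans hLs)) (by norm_num)

theorem cst_norm_le {E : Type*} [NormedAddCommGroup E] [NormedSpace ℝ E] (e : E) :
    ‖cst E e‖ ≤ ‖e‖ :=
  (ContinuousMap.norm_le _ (norm_nonneg e)).2 (fun _ => le_rfl)


theorem BLc.mulC {c d : ℝ} {Φ Ψ : YY → CI CG} (h : BLc c Φ) (h' : BLc d Ψ) :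
    BLc (2 * c * d) (fun y => Φ y * Ψ y) := by
  have := h.bil h' (k := 1) (fun x y => x * y) zero_le_one
    (fun x y => by rw [one_mul]; exact norm_mul_le x y) (fun x x' y => sub_mul _ _ _)
    (fun x y y' => mul_sub _ _ _)
  rwa [mul_one] at this

theorem BLc.bilCG {c d : ℝ} {Φ : YY → CI CG} {Ψ : YY → CI HG} (h : BLc c Φ) (h' : BLc d Ψ) :
    BLc (2 * ‖mulG‖ * c * d) (fun y => bilC mulG (Φ y) (Ψ y)) :=
  h.bil h' (fun x y => bilC mulG x y) (by positivity) (bilC_norm_le mulG)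
    (fun _ _ _ => by rw [map_sub]; rfl) (fun _ _ _ => map_sub _ _ _)

theorem BLc.bilLG {c d : ℝ} {Φ : YY → CI CG} {Ψ : YY → LI HG} (h : BLc c Φ) (h' : BLc d Ψ) :
    BLc (2 * ‖mulG‖ * c * d) (fun y => bilL mulG (Φ y) (Ψ y)) :=
  h.bil h' (fun x y => bilL mulG x y) (by positivity) (bilL_norm_le mulG)
    (fun _ _ _ => by rw [map_sub]; rfl) (fun _ _ _ => map_sub _ _ _)

theorem BLc.bilRG {c d : ℝ} {Φ : YY → LI CG} {Ψ : YY → CI HG} (h : BLc c Φ) (h' : BLc d Ψ) :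
    BLc (2 * ‖mulG‖ * c * d) (fun y => bilR mulG (Φ y) (Ψ y)) :=
  h.bil h' (fun x y => bilR mulG x y) (by positivity) (bilR_norm_le mulG)
    (fun x x' y => by rw [map_sub]; rfl) (fun x y y' => map_sub _ _ _)

theorem BLc.toLs {E : Type*} [NormedAddCommGroup E] [NormedSpace ℝ E] {c s : ℝ} {Φ : YY → CI E}
    (h : BLc c Φ) (hs : 0 ≤ s) : BLc (s * c) (fun y => s • toL E (Φ y)) := by
  refine h.lin (fun x => s • toL E x) hs (fun x => ?_) (fun x x' => ?_)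
  · rw [norm_smul, Real.norm_of_nonneg hs]
    exact mul_le_mul_of_nonneg_left (toL_norm_le x) hs
  · rw [map_sub, smul_sub]

theorem BLc.mapC {E F : Type*} [NormedAddCommGroup E] [NormedSpace ℝ E] [NormedAddCommGroup F]
    [NormedSpace ℝ F] {c k : ℝ} {Φ : YY → CI E} (h : BLc c Φ) (A : E →L[ℝ] F) (hk : ‖A‖ ≤ k) :
    BLc (k * c) (fun y => NF.mapC A (Φ y)) :=
  h.lin (fun x => NF.mapC A x) ((norm_nonneg A).trans hk)
    (fun x => (mapC_norm_le A x).trans (mul_le_mul_of_nonneg_right hk (norm_nonneg x)))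
    (fun _ _ => map_sub _ _ _)

theorem BLc.mapL {E F : Type*} [NormedAddCommGroup E] [NormedSpace ℝ E] [NormedAddCommGroup F]
    [NormedSpace ℝ F] {c k : ℝ} {Φ : YY → LI E} (h : BLc c Φ) (A : E →L[ℝ] F) (hk : ‖A‖ ≤ k) :
    BLc (k * c) (fun y => NF.mapL A (Φ y)) :=
  h.lin (fun x => NF.mapL A x) ((norm_nonneg A).trans hk)
    (fun x => (mapL_norm_le A x).trans (mul_le_mul_of_nonneg_right hk (norm_nonneg x)))
    (fun _ _ => map_sub _ _ _)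

/-- the size of `Gam` in terms of the sizes of the ingredients -/
theorem Gam_BLc {L : R3} (hL : ∀ i, 0 < L i) (g0 : HG) {lam C Zc D3 s q m : ℝ}
    (hs : s = Real.sqrt lam) (hs0 : 0 ≤ s) (hs1 : s ≤ 1) (hsq : s ≤ q) (hC : 0 ≤ C)
    (hgh : BLc C (gh hL g0 lam)) (hzz : BLc C (zz hL g0 lam))
    (hqh : BLc (C * q) (qh hL g0 lam)) (hee : BLc (C * s) (ee lam)) (hpsi : BLc C (psi lam))
    (hQQ : BLc C (QQ hL g0 lam)) (hpp : BLc (4 * C * s) (fun y => psi lam y * psi lam y - 1))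
    (hz1 : ‖cst HG (ofC (z1ref L))‖ ≤ Zc) (hk2 : ‖(kapG chG2).comp (divL L)‖ ≤ D3)
    (hdv : ‖divL L‖ ≤ m) :
    BLc (((2 * ‖mulG‖ * (4 * C) * C) + (2 * ‖mulG‖ * (2 * C * C) * Zc)
      + (2 * ‖mulG‖ * (2 * (2 * (2 * C * C) * C) * (D3 * C)) * C)
      + (2 * ‖mulG‖ * (‖(kapG (1 - chG0)).comp LAM‖ * C) * (2 * ‖mulG‖ * C * C))
      + (2 * ‖mulG‖ * (2 * (C + ‖(kapG chG0).comp ev1‖ * C) * C) * C)
      + (m * (‖LAM‖ * C + ‖ev1‖ * C))) * q) (Gam hL g0 lam) := by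
  have hq0 : 0 ≤ q := hs0.trans hsq
  have hκ0 : 0 ≤ ‖mulG‖ := by positivity
  have hZ0 : 0 ≤ Zc := by
    refine le_trans ?_ hz1
    positivity
  have hD30 : 0 ≤ D3 := by
    refine le_trans ?_ hk2
    positivity
  have hm0 : 0 ≤ m := by
    refine le_trans ?_ hdv
    positivity
  have hD4 : 0 ≤ ‖(kapG (1 - chG0)).comp LAM‖ := by positivity
  have hD5 : 0 ≤ ‖(kapG chG0).comp ev1‖ := by positivity
  have hD6 : 0 ≤ ‖LAM‖ := by positivity
  have hD7 : 0 ≤ ‖ev1‖ := by positivity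
  have p2 : BLc (2 * C * C) (fun y => psi lam y * psi lam y) := hpsi.mulC hpsi
  have p3 : BLc (2 * (2 * C * C) * C) (fun y => psi lam y * psi lam y * psi lam y) :=
    p2.mulC hpsi
  -- first term
  have t1 : BLc (2 * ‖mulG‖ * (4 * C * s) * C)
      (fun y => - bilL mulG (psi lam y * psi lam y - 1) (gh hL g0 lam y)) :=
    (hpp.bilLG hgh).neg
  -- second term
  have t2a : BLc (2 * ‖mulG‖ * (2 * C * C) * Zc) (fun y => bilC mulG (psi lam y * psi lam y)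
      (cst HG (ofC (z1ref L)))) := p2.bilCG (BLc.const hz1)
  have t2 : BLc (s * (2 * ‖mulG‖ * (2 * C * C) * Zc)) (fun y => s • toL HG
      (bilC mulG (psi lam y * psi lam y) (cst HG (ofC (z1ref L))))) := t2a.toLs hs0
  -- third term
  have t3a : BLc (D3 * (C * s)) (fun y => mapC ((kapG chG2).comp (divL L)) (ee lam y)) :=
    hee.mapC _ hk2
  have t3b : BLc (2 * (2 * (2 * C * C) * C) * (D3 * (C * s))) (fun y =>
      psi lam y * psi lam y * psi lam y * mapC ((kapG chG2).comp (divL L)) (ee lam y)) :=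
    p3.mulC t3a
  have t3c : BLc (2 * ‖mulG‖ * (2 * (2 * (2 * C * C) * C) * (D3 * (C * s))) * C) (fun y =>
      bilC mulG (psi lam y * psi lam y * psi lam y * mapC ((kapG chG2).comp (divL L)) (ee lam y))
        (zz hL g0 lam y)) := t3b.bilCG hzz
  have t3 : BLc (s * (2 * ‖mulG‖ * (2 * (2 * (2 * C * C) * C) * (D3 * (C * s))) * C)) (fun y =>
      s • toL HG (bilC mulG (psi lam y * psi lam y * psi lam y *
        mapC ((kapG chG2).comp (divL L)) (ee lam y)) (zz hL g0 lam y))) := t3c.toLs hs0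
  -- fourth term
  have t4a : BLc (‖(kapG (1 - chG0)).comp LAM‖ * (C * q))
      (fun y => mapL ((kapG (1 - chG0)).comp LAM) (qh hL g0 lam y)) := hqh.mapL _ le_rfl
  have t4b : BLc (2 * ‖mulG‖ * C * C) (fun y => bilC mulG (psi lam y) (zz hL g0 lam y)) :=
    hpsi.bilCG hzz
  have t4 : BLc (2 * ‖mulG‖ * (‖(kapG (1 - chG0)).comp LAM‖ * (C * q)) * (2 * ‖mulG‖ * C * C))
      (fun y => bilR mulG (mapL ((kapG (1 - chG0)).comp LAM) (qh hL g0 lam y))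
        (bilC mulG (psi lam y) (zz hL g0 lam y))) := t4a.bilRG t4b
  -- fifth term
  have t5a : BLc (‖(kapG chG0).comp ev1‖ * C)
      (fun y => mapC ((kapG chG0).comp ev1) (QQ hL g0 lam y)) := hQQ.mapC _ le_rfl
  have t5b : BLc (C + ‖(kapG chG0).comp ev1‖ * C) (fun y => QQ hL g0 lam y -
      mapC ((kapG chG0).comp ev1) (QQ hL g0 lam y)) := hQQ.sub t5a
  have t5c : BLc (2 * (C + ‖(kapG chG0).comp ev1‖ * C) * C) (fun y => (QQ hL g0 lam y -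
      mapC ((kapG chG0).comp ev1) (QQ hL g0 lam y)) * psi lam y) := t5b.mulC hpsi
  have t5d : BLc (2 * ‖mulG‖ * (2 * (C + ‖(kapG chG0).comp ev1‖ * C) * C) * C) (fun y =>
      bilC mulG ((QQ hL g0 lam y - mapC ((kapG chG0).comp ev1) (QQ hL g0 lam y)) * psi lam y)
        (zz hL g0 lam y)) := t5c.bilCG hzz
  have t5 : BLc (s * (2 * ‖mulG‖ * (2 * (C + ‖(kapG chG0).comp ev1‖ * C) * C) * C)) (fun y =>
      s • toL HG (bilC mulG ((QQ hL g0 lam y - mapC ((kapG chG0).comp ev1) (QQ hL g0 lam y))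
        * psi lam y) (zz hL g0 lam y))) := t5d.toLs hs0
  have tN := ((((t1.add t2).sub t3).add t4).add t5)
  -- second component
  have r1 : BLc (‖LAM‖ * (C * q)) (fun y => mapL LAM (qh hL g0 lam y)) := hqh.mapL _ le_rfl
  have r2 : BLc (‖ev1‖ * C) (fun y => mapC ev1 (QQ hL g0 lam y)) := hQQ.mapC _ le_rfl
  have r3 : BLc (s * (‖ev1‖ * C)) (fun y => s • toL R3 (mapC ev1 (QQ hL g0 lam y))) :=
    r2.toLs hs0
  have r4 : BLc (‖LAM‖ * (C * q) + s * (‖ev1‖ * C)) (fun y => mapL LAM (qh hL g0 lam y) +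
      s • toL R3 (mapC ev1 (QQ hL g0 lam y))) := r1.add r3
  have r5 : BLc (m * (‖LAM‖ * (C * q) + s * (‖ev1‖ * C))) (fun y => - mapL (divL L)
      (mapL LAM (qh hL g0 lam y) + s • toL R3 (mapC ev1 (QQ hL g0 lam y)))) :=
    (r4.mapL _ hdv).neg
  subst hs
  refine BLc.prod (BLc.mono tN ?_) (BLc.mono r5 ?_)
  · have e1 : 2 * ‖mulG‖ * (4 * C * Real.sqrt lam) * C ≤ (2 * ‖mulG‖ * (4 * C) * C) * q := by
      have : 2 * ‖mulG‖ * (4 * C * Real.sqrt lam) * C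
        = (2 * ‖mulG‖ * (4 * C) * C) * Real.sqrt lam := by ring
      rw [this]
      exact mul_le_mul_of_nonneg_left hsq (by positivity)
    have e2 : Real.sqrt lam * (2 * ‖mulG‖ * (2 * C * C) * Zc)
        ≤ (2 * ‖mulG‖ * (2 * C * C) * Zc) * q := by
      rw [mul_comm]
      exact mul_le_mul_of_nonneg_left hsq (by positivity)
    have e3 : Real.sqrt lam * (2 * ‖mulG‖ * (2 * (2 * (2 * C * C) * C) *
        (D3 * (C * Real.sqrt lam))) * C)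
        ≤ (2 * ‖mulG‖ * (2 * (2 * (2 * C * C) * C) * (D3 * C)) * C) * q := by
      have : Real.sqrt lam * (2 * ‖mulG‖ * (2 * (2 * (2 * C * C) * C) *
        (D3 * (C * Real.sqrt lam))) * C)
        = (2 * ‖mulG‖ * (2 * (2 * (2 * C * C) * C) * (D3 * C)) * C) *
          (Real.sqrt lam * Real.sqrt lam) := by ring
      rw [this]
      refine mul_le_mul_of_nonneg_left ?_ (by positivity)
      calc Real.sqrt lam * Real.sqrt lam ≤ q * 1 := mul_le_mul hsq hs1 hs0 hq0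
        _ = q := mul_one q
    have e4 : 2 * ‖mulG‖ * (‖(kapG (1 - chG0)).comp LAM‖ * (C * q)) * (2 * ‖mulG‖ * C * C)
        = (2 * ‖mulG‖ * (‖(kapG (1 - chG0)).comp LAM‖ * C) * (2 * ‖mulG‖ * C * C)) * q := by
      ring
    have e5 : Real.sqrt lam * (2 * ‖mulG‖ * (2 * (C + ‖(kapG chG0).comp ev1‖ * C) * C) * C)
        ≤ (2 * ‖mulG‖ * (2 * (C + ‖(kapG chG0).comp ev1‖ * C) * C) * C) * q := by
      rw [mul_comm]
      exact mul_le_mul_of_nonneg_left hsq (by positivity)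
    have e6 : 0 ≤ (m * (‖LAM‖ * C + ‖ev1‖ * C)) * q := by positivity
    linarith
  · have e1 : m * (‖LAM‖ * (C * q) + Real.sqrt lam * (‖ev1‖ * C))
        ≤ (m * (‖LAM‖ * C + ‖ev1‖ * C)) * q := by
      have h : Real.sqrt lam * (‖ev1‖ * C) ≤ q * (‖ev1‖ * C) :=
        mul_le_mul_of_nonneg_right hsq (by positivity)
      calc m * (‖LAM‖ * (C * q) + Real.sqrt lam * (‖ev1‖ * C))
          ≤ m * (‖LAM‖ * (C * q) + q * (‖ev1‖ * C)) :=
            mul_le_mul_of_nonneg_left (by linarith) hm0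
        _ = (m * (‖LAM‖ * C + ‖ev1‖ * C)) * q := by ring
    have e2 : 0 ≤ ((2 * ‖mulG‖ * (4 * C) * C) + (2 * ‖mulG‖ * (2 * C * C) * Zc)
      + (2 * ‖mulG‖ * (2 * (2 * (2 * C * C) * C) * (D3 * C)) * C)
      + (2 * ‖mulG‖ * (‖(kapG (1 - chG0)).comp LAM‖ * C) * (2 * ‖mulG‖ * C * C))
      + (2 * ‖mulG‖ * (2 * (C + ‖(kapG chG0).comp ev1‖ * C) * C) * C)) * q := by positivity
    linarith

theorem sq_sub_le {R : Type*} [NormedRing R] {a b : R} {k : ℝ} (ha : ‖a‖ ≤ 2) (hb : ‖b‖ ≤ 2)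
    (h : ‖a - b‖ ≤ k) : ‖a * a - 1 - (b * b - 1)‖ ≤ 4 * k := by
  have hk : 0 ≤ k := (norm_nonneg _).trans h
  have e : a * a - 1 - (b * b - 1) = a * (a - b) + (a - b) * b := by noncomm_ring
  have c1 : ‖a * (a - b)‖ ≤ 2 * k :=
    (norm_mul_le _ _).trans (mul_le_mul ha h (norm_nonneg _) zero_le_two)
  have c2 : ‖(a - b) * b‖ ≤ k * 2 :=
    (norm_mul_le _ _).trans (mul_le_mul h hb (norm_nonneg _) hk)
  rw [e]
  calc ‖a * (a - b) + (a - b) * b‖ ≤ ‖a * (a - b)‖ + ‖(a - b) * b‖ := norm_add_le _ _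
    _ ≤ 2 * k + k * 2 := add_le_add c1 c2
    _ = 4 * k := by ring

/-- EC2a : `Gam` is a contraction of a ball, uniformly -/
theorem Gam_contr (m M K : ℝ) (hm : 0 < m) : ∃ l0 ∈ Ioc (0:ℝ) 1,
    ∀ (L : R3) (hL : ∀ i, 0 < L i), (∀ i, m ≤ L i ∧ L i ≤ M) → ∀ g0 : HG, ‖DG L g0‖ ≤ K →
    ∀ lam ∈ Ioc 0 l0,
      (∀ y : YY, ‖y‖ ≤ 2 → ‖Gam hL g0 lam y‖ ≤ 1 / 2) ∧
      (∀ y y' : YY, ‖y‖ ≤ 2 → ‖y'‖ ≤ 2 →
        ‖Gam hL g0 lam y - Gam hL g0 lam y'‖ ≤ 1 / 2 * ‖y - y'‖) ∧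
      (∀ y : YY, ‖y‖ ≤ 2 → ‖ee lam y‖ ≤ 1 / 2 ∧ ‖mapC (kapG chG1) (ee lam y)‖ ≤ 1 / 2 ∧
        (∀ t x, 1 / 2 ≤ (1 + mapC (kapG chG1) (ee lam y)) t x) ∧
        psi lam y * (1 + mapC (kapG chG1) (ee lam y)) = 1) := by
  obtain ⟨C1, hC1, l1, hl1, H1⟩ := ingr_bound m M K hm
  obtain ⟨C2, hC2, l2, hl2, H2⟩ := ingr_lip m M K hm
  obtain ⟨C, hC⟩ : ∃ x : ℝ, x = C1 + C2 + 2 := ⟨_, rfl⟩
  have hC0 : 0 < C := by rw [hC]; positivity
  have hC1' : C1 ≤ C := by linarith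
  have hC2' : C2 ≤ C := by linarith
  have hC3 : 2 ≤ C := by linarith
  have hC4 : 1 ≤ C := by linarith
  obtain ⟨Zc, hZc⟩ : ∃ x : ℝ, x = ‖ofC‖ * (‖kapG chG2‖ * (2 * (m * Real.sqrt m)⁻¹)) :=
    ⟨_, rfl⟩
  obtain ⟨D3, hD3⟩ : ∃ x : ℝ, x = ‖kapG chG2‖ * m⁻¹ := ⟨_, rfl⟩
  have hZc0 : 0 ≤ Zc := by rw [hZc]; positivity
  have hD30 : 0 ≤ D3 := by rw [hD3]; positivity
  obtain ⟨D, hD⟩ : ∃ x : ℝ, x = ((2 * ‖mulG‖ * (4 * C) * C) + (2 * ‖mulG‖ * (2 * C * C) * Zc)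
      + (2 * ‖mulG‖ * (2 * (2 * (2 * C * C) * C) * (D3 * C)) * C)
      + (2 * ‖mulG‖ * (‖(kapG (1 - chG0)).comp LAM‖ * C) * (2 * ‖mulG‖ * C * C))
      + (2 * ‖mulG‖ * (2 * (C + ‖(kapG chG0).comp ev1‖ * C) * C) * C)
      + (m⁻¹ * (‖LAM‖ * C + ‖ev1‖ * C))) := ⟨_, rfl⟩
  have hD0 : 0 ≤ D := by rw [hD]; positivity
  have hD1 : 0 < D + 1 := by linarith
  obtain ⟨l3, hl3⟩ : ∃ x : ℝ, x = ((2 * (D + 1))⁻¹) ^ 4 := ⟨_, rfl⟩
  have hl30 : 0 < l3 := by rw [hl3]; positivity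
  refine ⟨min l1 (min l2 l3), ⟨lt_min hl1.1 (lt_min hl2.1 hl30), (min_le_left _ _).trans hl1.2⟩,
    ?_⟩
  intro L hL hLm g0 hg0 lam hlam
  have hlam0 : 0 < lam := hlam.1
  have hlam1 : lam ∈ Ioc 0 l1 := ⟨hlam0, hlam.2.trans (min_le_left _ _)⟩
  have hlam2 : lam ∈ Ioc 0 l2 :=
    ⟨hlam0, hlam.2.trans ((min_le_right _ _).trans (min_le_left _ _))⟩
  have hlam3 : lam ≤ l3 := hlam.2.trans ((min_le_right _ _).trans (min_le_right _ _))
  have hlamle : lam ≤ 1 := hlam1.2.trans hl1.2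
  have b := H1 L hL hLm g0 hg0 lam hlam1
  have l := H2 L hL hLm g0 hg0 lam hlam2
  obtain ⟨s, hs⟩ : ∃ x : ℝ, x = Real.sqrt lam := ⟨_, rfl⟩
  obtain ⟨q, hq⟩ : ∃ x : ℝ, x = Real.sqrt s := ⟨_, rfl⟩
  simp only [← hs, ← hq] at b l
  have hs0 : 0 ≤ s := by rw [hs]; exact Real.sqrt_nonneg _
  have hq0 : 0 ≤ q := by rw [hq]; exact Real.sqrt_nonneg _
  have hs1 : s ≤ 1 := by rw [hs]; exact Real.sqrt_le_one.2 hlamle
  have hq1 : q ≤ 1 := by rw [hq]; exact Real.sqrt_le_one.2 hs1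
  have hsq : s ≤ q := by
    have : s = q * q := by rw [hq]; exact (Real.mul_self_sqrt hs0).symm
    rw [this]
    nlinarith
  have hqD : D * q ≤ 1 / 2 := by
    have h4 : q ≤ (2 * (D + 1))⁻¹ := by
      have e1 : s ≤ ((2 * (D + 1))⁻¹) ^ 2 := by
        rw [hs, Real.sqrt_le_left (by positivity)]
        calc lam ≤ l3 := hlam3
          _ = (((2 * (D + 1))⁻¹) ^ 2) ^ 2 := by rw [hl3]; ring
      rw [hq, Real.sqrt_le_left (by positivity)]
      exact e1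
    calc D * q ≤ (D + 1) * q := mul_le_mul_of_nonneg_right (by linarith) hq0
      _ ≤ (D + 1) * (2 * (D + 1))⁻¹ := mul_le_mul_of_nonneg_left h4 hD1.le
      _ = 1 / 2 := by field_simp
  -- ingredients
  have hgh : BLc C (gh hL g0 lam) := by
    refine ⟨hC0.le, fun y hy => ((b y hy).1).trans hC1', fun y y' hy hy' => ?_⟩
    refine ((l y y' hy hy').1).trans ?_
    exact le_mul_of_one_le_left (by positivity) hC4
  have hzz : BLc C (zz hL g0 lam) := by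
    refine ⟨hC0.le, fun y hy => ((b y hy).2.1).trans hC1', fun y y' hy hy' => ?_⟩
    refine ((l y y' hy hy').2.1).trans ?_
    exact le_mul_of_one_le_left (by positivity) hC4
  have hqh : BLc (C * q) (qh hL g0 lam) := by
    refine ⟨by positivity, fun y hy => ((b y hy).2.2.1).trans
      (mul_le_mul_of_nonneg_right hC1' hq0), fun y y' hy hy' => ?_⟩
    refine ((l y y' hy hy').2.2.1).trans ?_
    exact mul_le_mul_of_nonneg_right (mul_le_mul_of_nonneg_right hC2' hq0) (by positivity)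
  have hee : BLc (C * s) (ee lam) := by
    refine ⟨by positivity, fun y hy => ((b y hy).2.2.2.1).trans
      (mul_le_mul_of_nonneg_right hC1' hs0), fun y y' hy hy' => ?_⟩
    refine ((l y y' hy hy').2.2.2.1).trans ?_
    exact mul_le_mul_of_nonneg_right (mul_le_mul_of_nonneg_right hC2' hs0) (by positivity)
  have hpsi : BLc C (psi lam) := by
    refine ⟨hC0.le, fun y hy => ((b y hy).2.2.2.2.2.2.2.2.1).trans hC3, fun y y' hy hy' => ?_⟩
    refine ((l y y' hy hy').2.2.2.2.1).trans ?_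
    refine mul_le_mul_of_nonneg_right ?_ (by positivity)
    calc C2 * s ≤ C * 1 := mul_le_mul hC2' hs1 hs0 hC0.le
      _ = C := mul_one _
  have hQQ : BLc C (QQ hL g0 lam) := by
    refine ⟨hC0.le, fun y hy => ((b y hy).2.2.2.2.2.2.2.2.2.2).trans hC1', fun y y' hy hy' => ?_⟩
    refine ((l y y' hy hy').2.2.2.2.2).trans ?_
    exact mul_le_mul_of_nonneg_right hC2' (by positivity)
  have hpp : BLc (4 * C * s) (fun y => psi lam y * psi lam y - 1) := by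
    refine ⟨by positivity, fun y hy => ((b y hy).2.2.2.2.2.2.2.2.2.1).trans ?_,
      fun y y' hy hy' => ?_⟩
    · refine mul_le_mul_of_nonneg_right ?_ hs0
      linarith
    · have a1 := (b y hy).2.2.2.2.2.2.2.2.1
      have a2 := (b y' hy').2.2.2.2.2.2.2.2.1
      have a3 := (l y y' hy hy').2.2.2.2.1
      have a4 : ‖psi lam y - psi lam y'‖ ≤ C * s * ‖y - y'‖ := a3.trans
        (mul_le_mul_of_nonneg_right (mul_le_mul_of_nonneg_right hC2' hs0) (by positivity))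
      refine (sq_sub_le (R := CI CG) a1 a2 a4).trans (le_of_eq ?_)
      ring
  have hz1 : ‖cst HG (ofC (z1ref L))‖ ≤ Zc := by
    rw [hZc]
    refine (cst_norm_le _).trans ((ContinuousLinearMap.le_opNorm _ _).trans ?_)
    exact mul_le_mul_of_nonneg_left (z1ref_le hm hLm) (by positivity)
  have hk2 : ‖(kapG chG2).comp (divL L)‖ ≤ D3 := by
    rw [hD3]
    refine (ContinuousLinearMap.opNorm_comp_le _ _).trans ?_
    exact mul_le_mul_of_nonneg_left (divL_le hm hLm) (by positivity)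
  have tG := Gam_BLc hL g0 hs hs0 hs1 hsq hC0.le hgh hzz hqh hee hpsi hQQ hpp hz1 hk2
    (divL_le hm hLm)
  rw [← hD] at tG
  refine ⟨fun y hy => (tG.2.1 y hy).trans hqD, fun y y' hy hy' => (tG.2.2 y y' hy hy').trans
    (mul_le_mul_of_nonneg_right hqD (by positivity)), fun y hy => ?_⟩
  have := b y hy
  exact ⟨this.2.2.2.2.1, this.2.2.2.2.2.1, this.2.2.2.2.2.2.1, this.2.2.2.2.2.2.2.1⟩

/-- the time horizon is good for the data -/
structure Good {L : R3} (hL : ∀ i, 0 < L i) (g0 : HG) (l0 : ℝ) : Prop where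
  pos : 0 < l0
  le_one : l0 ≤ 1
  self : ∀ lam ∈ Ioc 0 l0, ∀ y : YY, ‖y‖ ≤ 2 → ‖Gam hL g0 lam y‖ ≤ 1 / 2
  lip : ∀ lam ∈ Ioc 0 l0, ∀ y y' : YY, ‖y‖ ≤ 2 → ‖y'‖ ≤ 2 →
        ‖Gam hL g0 lam y - Gam hL g0 lam y'‖ ≤ 1 / 2 * ‖y - y'‖
  adm : ∀ lam ∈ Ioc 0 l0, ∀ y : YY, ‖y‖ ≤ 2 → ‖ee lam y‖ ≤ 1 / 2 ∧
        ‖mapC (kapG chG1) (ee lam y)‖ ≤ 1 / 2 ∧
        (∀ t x, 1 / 2 ≤ (1 + mapC (kapG chG1) (ee lam y)) t x) ∧
        psi lam y * (1 + mapC (kapG chG1) (ee lam y)) = 1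

/-- EC2b : the fixed point -/
theorem fix_exists {L : R3} {hL : ∀ i, 0 < L i} {g0 : HG} {l0 : ℝ} (h : Good hL g0 l0) :
    ∃ y : ℝ → YY, ∀ lam ∈ Ioc 0 l0, ‖y lam‖ ≤ 1 / 2 ∧ Gam hL g0 lam (y lam) = y lam ∧
      ∀ y' : YY, ‖y'‖ ≤ 2 → Gam hL g0 lam y' = y' → y' = y lam := by
  have key : ∀ lam ∈ Ioc 0 l0, ∃ y : YY, ‖y‖ ≤ 1 / 2 ∧ Gam hL g0 lam y = y ∧
      ∀ y' : YY, ‖y'‖ ≤ 2 → Gam hL g0 lam y' = y' → y' = y := by
    intro lam hlam
    have hsc : IsComplete (Metric.closedBall (0 : YY) 2) := Metric.isClosed_closedBall.isComplete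
    have hmem : ∀ y : YY, y ∈ Metric.closedBall (0 : YY) 2 ↔ ‖y‖ ≤ 2 := fun y => by
      rw [Metric.mem_closedBall, dist_zero_right]
    have hmaps : MapsTo (Gam hL g0 lam) (Metric.closedBall (0 : YY) 2)
        (Metric.closedBall (0 : YY) 2) := by
      intro y hy
      rw [hmem] at hy ⊢
      exact (h.self lam hlam y hy).trans (by norm_num)
    have hcon : ContractingWith (1 / 2 : NNReal) (hmaps.restrict (Gam hL g0 lam) _ _) := by
      refine ⟨by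
        rw [← NNReal.coe_lt_coe]
        norm_num, ?_⟩
      refine LipschitzWith.of_dist_le_mul (fun y y' => ?_)
      have hy := (hmem y).1 y.2
      have hy' := (hmem y').1 y'.2
      have := h.lip lam hlam y y' hy hy'
      rw [Subtype.dist_eq, Subtype.dist_eq, dist_eq_norm, dist_eq_norm]
      simpa using this
    obtain ⟨y, hy, hfix, -⟩ := hcon.exists_fixedPoint' hsc hmaps
      (show (0 : YY) ∈ Metric.closedBall (0 : YY) 2 by
        rw [hmem, norm_zero]; norm_num) (edist_ne_top _ _)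
    have hy2 := (hmem y).1 hy
    have hfix' : Gam hL g0 lam y = y := hfix
    refine ⟨y, ?_, hfix', fun y' hy' hf => ?_⟩
    · rw [← hfix']
      exact h.self lam hlam y hy2
    · have := h.lip lam hlam y' y hy' hy2
      rw [hf, hfix'] at this
      have h0 : ‖y' - y‖ ≤ 0 := by linarith [norm_nonneg (y' - y)]
      exact sub_eq_zero.1 (norm_le_zero_iff.1 h0)
  classical
  refine ⟨fun lam => if hl : lam ∈ Ioc 0 l0 then (key lam hl).choose else 0, fun lam hlam => ?_⟩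
  simp only [dif_pos hlam]
  exact (key lam hlam).choose_spec

end Pool.Agent.Helper15.NF
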