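import Pool.Agent.Helper15.NF.EC2
import Pool.Agent.Helper15.NF.EA1c

open MeasureTheory Set
open scoped unitInterval

namespace Pool.Agent.Helper15.NF

section EC3aAux

variable {X E F G : Type*} [NormedAddCommGroup X] [NormedSpace ℝ X]
  [NormedAddCommGroup E] [NormedSpace ℝ E] [NormedAddCommGroup F] [NormedSpace ℝ F]
  [NormedAddCommGroup G] [NormedSpace ℝ G] {n : ℕ} {x : X}

theorem EC3a_lin (A : E →L[ℝ] F) {f : X → E} (hf : ContDiffAt ℝ n f x) :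
    ContDiffAt ℝ n (fun p => A (f p)) x :=
  A.contDiff.contDiffAt.comp x hf

theorem EC3a_bil (B : E →L[ℝ] F →L[ℝ] G) {f : X → E} {g : X → F} (hf : ContDiffAt ℝ n f x)
    (hg : ContDiffAt ℝ n g x) : ContDiffAt ℝ n (fun p => B (f p) (g p)) x :=
  (EC3a_lin B hf).clm_apply hg

theorem EC3a_mul {f g : X → CI CG} (hf : ContDiffAt ℝ n f x) (hg : ContDiffAt ℝ n g x) :
    ContDiffAt ℝ n (fun p => f p * g p) x := by
  have h := EC3a_bil (E := CI CG) (F := CI CG) (G := CI CG)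
    (ContinuousLinearMap.mul ℝ (CI CG)) hf hg
  exact h

end EC3aAux

theorem EC3a_sqrt {n : ℕ} {lam : ℝ} (hl : 0 < lam) (y : YY) :
    ContDiffAt ℝ n (fun p : ℝ × YY => Real.sqrt p.1) (lam, y) :=
  ContDiffAt.sqrt contDiffAt_fst hl.ne'

theorem EC3a_sqrt_inv {n : ℕ} {lam : ℝ} (hl : 0 < lam) (y : YY) :
    ContDiffAt ℝ n (fun p : ℝ × YY => (Real.sqrt p.1)⁻¹) (lam, y) :=
  (EC3a_sqrt hl y).inv (Real.sqrt_pos.2 hl).ne'

theorem EC3a_y1 {n : ℕ} {lam : ℝ} (y : YY) :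
    ContDiffAt ℝ n (fun p : ℝ × YY => p.2.1) (lam, y) :=
  contDiffAt_snd.fst

theorem EC3a_y2 {n : ℕ} {lam : ℝ} (y : YY) :
    ContDiffAt ℝ n (fun p : ℝ × YY => p.2.2) (lam, y) :=
  contDiffAt_snd.snd

theorem EC3a_solG {L : R3} (hL : ∀ i, 0 < L i) {n : ℕ} {lam : ℝ} (hl : 0 < lam) (y : YY) :
    ContDiffAt ℝ n (fun p : ℝ × YY => solG (DG_injective hL) p.1) (lam, y) :=
  ContDiffAt.comp (lam, y) (g := fun lam => solG (DG_injective hL) lam)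
    (f := fun p : ℝ × YY => p.1)
    ((solG_smooth (DG_injective hL) n).contDiffAt (Ioi_mem_nhds hl)) contDiffAt_fst

theorem EC3a_solW {L : R3} (hL : ∀ i, 0 < L i) {n : ℕ} {lam : ℝ} (hl : 0 < lam) (y : YY) :
    ContDiffAt ℝ n (fun p : ℝ × YY => solW (DG_injective hL) p.1) (lam, y) :=
  ContDiffAt.comp (lam, y) (g := fun lam => solW (DG_injective hL) lam)
    (f := fun p : ℝ × YY => p.1)
    ((solW_smooth (DG_injective hL) n).contDiffAt (Ioi_mem_nhds hl)) contDiffAt_fst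

theorem EC3a_gh {L : R3} (hL : ∀ i, 0 < L i) (g0 : HG) {n : ℕ} {lam : ℝ} (hl : 0 < lam) (y : YY) :
    ContDiffAt ℝ n (fun p : ℝ × YY => gh hL g0 p.1 p.2) (lam, y) := by
  unfold gh
  exact ((EC3a_sqrt hl y).smul (contDiffAt_const.sub
    ((EC3a_solG hL hl y).clm_apply contDiffAt_const))).add
    ((EC3a_solG hL hl y).clm_apply (EC3a_y1 y))

theorem EC3a_zz {L : R3} (hL : ∀ i, 0 < L i) (g0 : HG) {n : ℕ} {lam : ℝ} (hl : 0 < lam) (y : YY) :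
    ContDiffAt ℝ n (fun p : ℝ × YY => zz hL g0 p.1 p.2) (lam, y) := by
  unfold zz
  exact ((contDiffAt_const.sub ((EC3a_solW hL hl y).clm_apply contDiffAt_const)).add
    ((EC3a_sqrt_inv hl y).smul ((EC3a_solW hL hl y).clm_apply (EC3a_y1 y)))).add
    contDiffAt_const

theorem EC3a_ee {n : ℕ} {lam : ℝ} (hl : 0 < lam) (y : YY) :
    ContDiffAt ℝ n (fun p : ℝ × YY => ee p.1 p.2) (lam, y) := by
  unfold ee
  exact (EC3a_sqrt hl y).smul (EC3a_lin (intC R3) (EC3a_y2 y))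

theorem EC3a_psi {n : ℕ} {lam : ℝ} (hl : 0 < lam) {y : YY}
    (hy : psi lam y * (1 + mapC (kapG chG1) (ee lam y)) = 1) :
    ContDiffAt ℝ n (fun p : ℝ × YY => psi p.1 p.2) (lam, y) := by
  have hy' : (1 + mapC (kapG chG1) (ee lam y)) * psi lam y = 1 := by rw [mul_comm]; exact hy
  let u : (CI CG)ˣ := ⟨1 + mapC (kapG chG1) (ee lam y), psi lam y, hy', hy⟩
  have h1 : ContDiffAt ℝ n (Ring.inverse : CI CG → CI CG) (u : CI CG) :=
    contDiffAt_ringInverse ℝ (R := CI CG) u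
  have h2 : ContDiffAt ℝ n (fun p : ℝ × YY => 1 + mapC (kapG chG1) (ee p.1 p.2)) (lam, y) :=
    contDiffAt_const.add (EC3a_lin (mapC (kapG chG1)) (EC3a_ee hl y))
  exact ContDiffAt.comp (lam, y) (g := (Ring.inverse : CI CG → CI CG))
    (f := fun p : ℝ × YY => 1 + mapC (kapG chG1) (ee p.1 p.2)) h1 h2

theorem EC3a_qh {L : R3} (hL : ∀ i, 0 < L i) (g0 : HG) {n : ℕ} {lam : ℝ} (hl : 0 < lam) (y : YY) :
    ContDiffAt ℝ n (fun p : ℝ × YY => qh hL g0 p.1 p.2) (lam, y) := by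
  unfold qh
  exact EC3a_lin (mapL (trG L)) (EC3a_gh hL g0 hl y)

theorem EC3a_QQ {L : R3} (hL : ∀ i, 0 < L i) (g0 : HG) {n : ℕ} {lam : ℝ} (hl : 0 < lam) {y : YY}
    (hy : psi lam y * (1 + mapC (kapG chG1) (ee lam y)) = 1) :
    ContDiffAt ℝ n (fun p : ℝ × YY => QQ hL g0 p.1 p.2) (lam, y) := by
  unfold QQ
  exact EC3a_bil (bilC V2) (EC3a_bil (bilC mulG) (EC3a_psi hl hy) (EC3a_zz hL g0 hl y))
    (EC3a_zz hL g0 hl y)

theorem EC3a_NN {L : R3} (hL : ∀ i, 0 < L i) (g0 : HG) {n : ℕ} {lam : ℝ} (hl : 0 < lam) {y : YY}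
    (hy : psi lam y * (1 + mapC (kapG chG1) (ee lam y)) = 1) :
    ContDiffAt ℝ n (fun p : ℝ × YY => NN hL g0 p.1 p.2) (lam, y) := by
  have hp := EC3a_psi (n := n) hl hy
  have hz := EC3a_zz (n := n) hL g0 hl y
  have hg := EC3a_gh (n := n) hL g0 hl y
  have hs := EC3a_sqrt (n := n) hl y
  have hq := EC3a_qh (n := n) hL g0 hl y
  have hQ := EC3a_QQ (n := n) hL g0 hl hy
  have he := EC3a_ee (n := n) hl y
  unfold NN
  refine ((((?_ : ContDiffAt ℝ n _ _).add ?_).sub ?_).add ?_).add ?_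
  · exact (EC3a_bil (bilL mulG) ((EC3a_mul hp hp).sub contDiffAt_const) hg).neg
  · exact hs.smul (EC3a_lin (toL HG) (EC3a_bil (bilC mulG) (EC3a_mul hp hp) contDiffAt_const))
  · exact hs.smul (EC3a_lin (toL HG) (EC3a_bil (bilC mulG) (EC3a_mul (EC3a_mul (EC3a_mul hp hp) hp)
      (EC3a_lin (mapC ((kapG chG2).comp (divL L))) he)) hz))
  · exact EC3a_bil (bilR mulG) (EC3a_lin (mapL ((kapG (1 - chG0)).comp LAM)) hq)
      (EC3a_bil (bilC mulG) hp hz)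
  · exact hs.smul (EC3a_lin (toL HG) (EC3a_bil (bilC mulG)
      (EC3a_mul (hQ.sub (EC3a_lin (mapC ((kapG chG0).comp ev1)) hQ)) hp) hz))

theorem EC3a_RR {L : R3} (hL : ∀ i, 0 < L i) (g0 : HG) {n : ℕ} {lam : ℝ} (hl : 0 < lam) {y : YY}
    (hy : psi lam y * (1 + mapC (kapG chG1) (ee lam y)) = 1) :
    ContDiffAt ℝ n (fun p : ℝ × YY => RR hL g0 p.1 p.2) (lam, y) := by
  have hs := EC3a_sqrt (n := n) hl y
  have hq := EC3a_qh (n := n) hL g0 hl y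
  have hQ := EC3a_QQ (n := n) hL g0 hl hy
  unfold RR
  exact (EC3a_lin (mapL (divL L)) ((EC3a_lin (mapL LAM) hq).add
    (hs.smul (EC3a_lin (toL R3) (EC3a_lin (mapC ev1) hQ))))).neg

/-- EC3a : smoothness of the map -/
theorem Gam_smooth {L : R3} (hL : ∀ i, 0 < L i) (g0 : HG) (n : ℕ) {lam : ℝ} (hl : 0 < lam)
    {y : YY} (hy : psi lam y * (1 + mapC (kapG chG1) (ee lam y)) = 1) :
    ContDiffAt ℝ n (fun p : ℝ × YY => Gam hL g0 p.1 p.2) (lam, y) ∧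
    ContDiffAt ℝ n (fun p : ℝ × YY => zz hL g0 p.1 p.2) (lam, y) ∧
    ContDiffAt ℝ n (fun p : ℝ × YY => ee p.1 p.2) (lam, y) :=
  ⟨(EC3a_NN hL g0 hl hy).prodMk (EC3a_RR hL g0 hl hy), EC3a_zz hL g0 hl y, EC3a_ee hl y⟩

end Pool.Agent.Helper15.NF
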