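import Pool.Agent.Helper15.NF.EC3a

open MeasureTheory Set
open scoped unitInterval Topology

namespace Pool.Agent.Helper15.NF

/-- continuity of the fixed point of a family of contractions -/
theorem fix_cont_abs {E : Type*} [NormedAddCommGroup E] [NormedSpace ℝ E]
    {G : ℝ × E → E} {l0 : ℝ} {y : ℝ → E}
    (hG : ∀ lam ∈ Ioo 0 l0, ∀ v : E, ‖v‖ ≤ 2 → ContinuousAt G (lam, v))
    (hlip : ∀ lam ∈ Ioo 0 l0, ∀ v w : E, ‖v‖ ≤ 2 → ‖w‖ ≤ 2 →
      ‖G (lam, v) - G (lam, w)‖ ≤ 1 / 2 * ‖v - w‖)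
    (hy : ∀ lam ∈ Ioo 0 l0, ‖y lam‖ ≤ 1 / 2 ∧ G (lam, y lam) = y lam)
    {l : ℝ} (hl : l ∈ Ioo 0 l0) : ContinuousAt y l := by
  have hyl := hy l hl
  have h1 : Filter.Tendsto (fun s : ℝ => G (s, y l)) (𝓝 l) (𝓝 (G (l, y l))) := by
    have h := hG l hl (y l) (by linarith [hyl.1])
    have h2 : ContinuousAt (fun s : ℝ => ((s, y l) : ℝ × E)) l := by fun_prop
    exact ContinuousAt.comp (f := fun s : ℝ => ((s, y l) : ℝ × E)) (g := G) h h2
  have h3 : Filter.Tendsto (fun s : ℝ => 2 * ‖G (s, y l) - G (l, y l)‖) (𝓝 l) (𝓝 0) := by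
    have h4 := ((h1.sub_const (G (l, y l))).norm).const_mul 2
    simpa using h4
  rw [ContinuousAt, tendsto_iff_norm_sub_tendsto_zero]
  refine squeeze_zero' (Filter.Eventually.of_forall fun s => norm_nonneg _) ?_ h3
  filter_upwards [isOpen_Ioo.mem_nhds hl] with s hs
  have hys := hy s hs
  have h5 := hlip s hs (y s) (y l) (by linarith [hys.1]) (by linarith [hyl.1])
  have h6 : y s - y l = (G (s, y s) - G (s, y l)) + (G (s, y l) - G (l, y l)) := by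
    rw [hys.2, hyl.2]; abel
  have h7 : ‖y s - y l‖ ≤ 1 / 2 * ‖y s - y l‖ + ‖G (s, y l) - G (l, y l)‖ := by
    calc ‖y s - y l‖ = ‖(G (s, y s) - G (s, y l)) + (G (s, y l) - G (l, y l))‖ := by rw [← h6]
      _ ≤ ‖G (s, y s) - G (s, y l)‖ + ‖G (s, y l) - G (l, y l)‖ := norm_add_le _ _
      _ ≤ _ := by gcongr
  linarith

/-- smoothness of the fixed point of a family of contractions -/
theorem fix_smooth_abs {E : Type*} [NormedAddCommGroup E] [NormedSpace ℝ E] [CompleteSpace E]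
    {G : ℝ × E → E} {l0 : ℝ} {y : ℝ → E} {n : ℕ} (hn : n ≠ 0)
    (hG : ∀ lam ∈ Ioo 0 l0, ∀ v : E, ‖v‖ ≤ 2 → ContDiffAt ℝ n G (lam, v))
    (hlip : ∀ lam ∈ Ioo 0 l0, ∀ v w : E, ‖v‖ ≤ 2 → ‖w‖ ≤ 2 →
      ‖G (lam, v) - G (lam, w)‖ ≤ 1 / 2 * ‖v - w‖)
    (hy : ∀ lam ∈ Ioo 0 l0, ‖y lam‖ ≤ 1 / 2 ∧ G (lam, y lam) = y lam)
    {l : ℝ} (hl : l ∈ Ioo 0 l0) : ContDiffAt ℝ n y l := by
  have hyl := hy l hl
  have hn' : ((n : ℕ) : WithTop ℕ∞) ≠ 0 := by exact_mod_cast hn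
  have hcont : ContinuousAt y l :=
    fix_cont_abs (fun lam hlam v hv => (hG lam hlam v hv).continuousAt) hlip hy hl
  have hGd : ContDiffAt ℝ n G (l, y l) := hG l hl (y l) (by linarith [hyl.1])
  set f : ℝ × E → E := fun p => p.2 - G p with hf
  have hfd : ContDiffAt ℝ n f (l, y l) := contDiffAt_snd.sub hGd
  have hfu : f (l, y l) = 0 := by simp [hf, hyl.2]
  have hGf : HasFDerivAt G (fderiv ℝ G (l, y l)) (l, y l) :=
    (hGd.differentiableAt hn').hasFDerivAt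
  have hff : fderiv ℝ f (l, y l) = ContinuousLinearMap.snd ℝ ℝ E - fderiv ℝ G (l, y l) := by
    have h := (hasFDerivAt_snd (𝕜 := ℝ) (p := (l, y l))).sub hGf
    exact h.fderiv
  set A : E →L[ℝ] E := fderiv ℝ G (l, y l) ∘L ContinuousLinearMap.inr ℝ ℝ E with hA
  have hAf : HasFDerivAt (fun v => G (l, v)) A (y l) := by
    have h2 : HasFDerivAt (fun v : E => ((l, v) : ℝ × E)) (ContinuousLinearMap.inr ℝ ℝ E) (y l) :=
      hasFDerivAt_prodMk_right l (y l)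
    exact HasFDerivAt.comp (y l) (f := fun v : E => ((l, v) : ℝ × E)) (g := G) hGf h2
  have hAn : ‖A‖ ≤ 1 / 2 := by
    refine hAf.le_of_lip' (by norm_num) ?_
    have h3 : ∀ᶠ v in 𝓝 (y l), ‖v‖ < 2 :=
      (continuous_norm.continuousAt).eventually (isOpen_Iio.mem_nhds (by
        show ‖y l‖ < 2
        linarith [hyl.1]))
    filter_upwards [h3] with v hv
    exact hlip l hl v (y l) hv.le (by linarith [hyl.1])
  have hinv : (fderiv ℝ f (l, y l) ∘L ContinuousLinearMap.inr ℝ ℝ E).IsInvertible := by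
    have h4 : fderiv ℝ f (l, y l) ∘L ContinuousLinearMap.inr ℝ ℝ E = 1 - A := by
      rw [hff, hA]
      ext v
      simp
    rw [h4]
    have h5 : ‖A‖ < 1 := by linarith
    have h6 : IsUnit (1 - A) := (Units.oneSub A h5).isUnit
    obtain ⟨u, hu⟩ := h6
    refine ⟨ContinuousLinearEquiv.unitsEquiv ℝ E u, ?_⟩
    rw [← hu]
    rfl
  have h7 := hfd.eventually_apply_eq_iff_implicitFunction hn' hinv
  have h8 : Filter.Tendsto (fun s : ℝ => ((s, y s) : ℝ × E)) (𝓝 l) (𝓝 (l, y l)) :=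
    (continuousAt_id.prodMk hcont)
  have h9 := h8.eventually h7
  have h10 : y =ᶠ[𝓝 l] hfd.implicitFunction hn' hinv := by
    filter_upwards [h9, isOpen_Ioo.mem_nhds hl] with s hs hsl
    have h11 : f (s, y s) = f (l, y l) := by
      rw [hfu]
      simp [hf, (hy s hsl).2]
    exact (hs.1 h11).symm
  exact (hfd.contDiffAt_implicitFunction hn' hinv).congr_of_eventuallyEq h10

/-- EC3b : smooth dependence of the fixed point on the time horizon -/
theorem fix_smooth {L : R3} {hL : ∀ i, 0 < L i} {g0 : HG} {l0 : ℝ} (h : Good hL g0 l0)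
    {y : ℝ → YY} (hy : ∀ lam ∈ Ioc 0 l0, ‖y lam‖ ≤ 1 / 2 ∧ Gam hL g0 lam (y lam) = y lam ∧
      ∀ y' : YY, ‖y'‖ ≤ 2 → Gam hL g0 lam y' = y' → y' = y lam) (n : ℕ) :
    ContDiffOn ℝ n y (Ioo 0 l0) ∧
    ContDiffOn ℝ n (fun lam => zz hL g0 lam (y lam) 1) (Ioo 0 l0) ∧
    ContDiffOn ℝ n (fun lam => ee lam (y lam) 1) (Ioo 0 l0) := by
  have hsub : ∀ lam ∈ Ioo 0 l0, lam ∈ Ioc 0 l0 := fun lam hlam => ⟨hlam.1, hlam.2.le⟩
  have hmain : ∀ l ∈ Ioo 0 l0, ContDiffAt ℝ n y l := by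
    intro l hl
    have h1 : ContDiffAt ℝ ((n + 1 : ℕ) : WithTop ℕ∞) y l := by
      refine fix_smooth_abs (G := fun p : ℝ × YY => Gam hL g0 p.1 p.2) (n := n + 1)
        (Nat.succ_ne_zero n) ?_ ?_ ?_ hl
      · intro lam hlam v hv
        exact (Gam_smooth hL g0 (n + 1) hlam.1 (h.adm lam (hsub lam hlam) v hv).2.2.2).1
      · intro lam hlam v w hv hw
        exact h.lip lam (hsub lam hlam) v w hv hw
      · intro lam hlam
        exact ⟨(hy lam (hsub lam hlam)).1, (hy lam (hsub lam hlam)).2.1⟩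
    exact h1.of_le (by exact_mod_cast Nat.le_succ n)
  have hyb : ∀ l ∈ Ioo 0 l0, ‖y l‖ ≤ 2 := fun l hl => by
    linarith [(hy l (hsub l hl)).1]
  have hcomp : ∀ l ∈ Ioo 0 l0, ContDiffAt ℝ n (fun lam => ((lam, y lam) : ℝ × YY)) l :=
    fun l hl => contDiffAt_id.prodMk (hmain l hl)
  refine ⟨fun l hl => (hmain l hl).contDiffWithinAt, fun l hl => ?_, fun l hl => ?_⟩
  · have h2 := (Gam_smooth hL g0 n hl.1 (h.adm l (hsub l hl) (y l) (hyb l hl)).2.2.2).2.1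
    have h3 : ContDiffAt ℝ n (fun lam => zz hL g0 lam (y lam)) l :=
      ContDiffAt.comp (g := fun p : ℝ × YY => zz hL g0 p.1 p.2)
        (f := fun lam => ((lam, y lam) : ℝ × YY)) l h2 (hcomp l hl)
    have h4 : ContDiffAt ℝ n (fun lam => ContinuousMap.evalCLM ℝ (1 : unitInterval)
        (zz hL g0 lam (y lam))) l :=
      (ContinuousLinearMap.contDiff _).contDiffAt.comp l h3
    exact h4.contDiffWithinAt
  · have h2 := (Gam_smooth hL g0 n hl.1 (h.adm l (hsub l hl) (y l) (hyb l hl)).2.2.2).2.2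
    have h3 : ContDiffAt ℝ n (fun lam => ee lam (y lam)) l :=
      ContDiffAt.comp (g := fun p : ℝ × YY => ee p.1 p.2)
        (f := fun lam => ((lam, y lam) : ℝ × YY)) l h2 (hcomp l hl)
    have h4 : ContDiffAt ℝ n (fun lam => ContinuousMap.evalCLM ℝ (1 : unitInterval)
        (ee lam (y lam))) l :=
      (ContinuousLinearMap.contDiff _).contDiffAt.comp l h3
    exact h4.contDiffWithinAt

end Pool.Agent.Helper15.NF
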