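import Pool.Agent.Helper15.NF.EC2
import Pool.Agent.Helper15.NF.EA1d

open MeasureTheory Set
open scoped unitInterval

namespace Pool.Agent.Helper15.NF

section aux38

variable {E F G : Type*} [NormedAddCommGroup E] [NormedSpace ℝ E] [NormedAddCommGroup F]
  [NormedSpace ℝ F] [NormedAddCommGroup G] [NormedSpace ℝ G]

theorem map_mul_le (s : unitInterval) (hs : 0 < s) :
    Measure.map (fun t : unitInterval => s * t) volume ≤
      (ENNReal.ofReal (s : ℝ)⁻¹) • (volume : Measure unitInterval) := by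
  have hs' : (0:ℝ) < s := hs
  have hme : Measurable (fun t : unitInterval => s * t) := by fun_prop
  rw [Measure.le_iff]
  intro A hA
  rw [Measure.map_apply hme hA, Measure.smul_apply, smul_eq_mul]
  have key : ∀ B : Set unitInterval, (volume : Measure unitInterval) B =
      volume ((fun t : unitInterval => (t : ℝ)) '' B) := by
    intro B
    exact comap_subtype_coe_apply measurableSet_Icc volume B
  rw [key, key A]
  calc volume ((fun t : unitInterval => (t : ℝ)) '' ((fun t : unitInterval => s * t) ⁻¹' A))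
      ≤ volume ((fun x : ℝ => (s : ℝ) * x) ⁻¹' ((fun t : unitInterval => (t : ℝ)) '' A)) := by
        apply measure_mono
        rintro _ ⟨t, ht, rfl⟩
        exact ⟨s * t, ht, by simp⟩
    _ = ENNReal.ofReal |(s : ℝ)⁻¹| * volume ((fun t : unitInterval => (t : ℝ)) '' A) :=
        Real.volume_preimage_mul_left hs'.ne' _
    _ = _ := by rw [abs_of_pos (inv_pos.2 hs')]

theorem sclL_norm (s : unitInterval) (hs : 0 < s) (u : LI E) :
    ‖Real.sqrt s • sclL E s hs u‖ ≤ ‖u‖ := by
  have hs' : (0:ℝ) < s := hs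
  have hme : Measurable (fun t : unitInterval => s * t) := by fun_prop
  have hle := map_mul_le s hs
  have hac : Measure.map (fun t : unitInterval => s * t) volume ≪
      (volume : Measure unitInterval) :=
    (Measure.absolutelyContinuous_of_le hle).trans
      (Measure.smul_absolutelyContinuous)
  have h1 : eLpNorm (sclL E s hs u) 2 (volume : Measure unitInterval) ≤
      ENNReal.ofReal (s : ℝ)⁻¹ ^ (1 / (2:ℝ)) * eLpNorm u 2 volume := by
    rw [eLpNorm_congr_ae (sclL_coe s hs u)]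
    have h2 : eLpNorm (fun t : unitInterval => (u : unitInterval → E) (s * t)) 2 volume =
        eLpNorm (u : unitInterval → E) 2 (Measure.map (fun t : unitInterval => s * t) volume) := by
      rw [eLpNorm_map_measure ((Lp.aestronglyMeasurable u).mono_ac hac) hme.aemeasurable]
      rfl
    rw [h2]
    refine (eLpNorm_mono_measure _ hle).trans ?_
    rw [eLpNorm_smul_measure_of_ne_zero (by simpa using hs')]
    simp
  have h3 : ‖sclL E s hs u‖ ≤ (Real.sqrt s)⁻¹ * ‖u‖ := by
    rw [Lp.norm_def, Lp.norm_def]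
    have h4 : (ENNReal.ofReal (s : ℝ)⁻¹ ^ (1 / (2:ℝ)) * eLpNorm (u : unitInterval → E) 2 volume) ≠ ⊤ :=
      ENNReal.mul_ne_top (by simp) (Lp.eLpNorm_ne_top u)
    refine (ENNReal.toReal_mono h4 h1).trans (le_of_eq ?_)
    rw [ENNReal.toReal_mul, ← ENNReal.toReal_rpow, ENNReal.toReal_ofReal (inv_nonneg.2 hs'.le),
      ← Real.sqrt_eq_rpow, Real.sqrt_inv]
  have hsq : 0 < Real.sqrt s := Real.sqrt_pos.2 hs'
  rw [norm_smul, Real.norm_of_nonneg hsq.le]
  calc Real.sqrt s * ‖sclL E s hs u‖ ≤ Real.sqrt s * ((Real.sqrt s)⁻¹ * ‖u‖) := by gcongr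
    _ = ‖u‖ := by field_simp

theorem sclC_cst (s : unitInterval) (e : E) : sclC s (cst E e) = cst E e := by
  ext t; simp

omit [NormedSpace ℝ E] in
theorem sclC_add (s : unitInterval) (u v : CI E) : sclC s (u + v) = sclC s u + sclC s v := rfl
omit [NormedSpace ℝ E] in
theorem sclC_sub (s : unitInterval) (u v : CI E) : sclC s (u - v) = sclC s u - sclC s v := rfl
theorem sclC_smul (s : unitInterval) (c : ℝ) (u : CI E) : sclC s (c • u) = c • sclC s u := rfl
theorem sclC_mapC (s : unitInterval) (A : E →L[ℝ] F) (u : CI E) :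
    sclC s (mapC A u) = mapC A (sclC s u) := by
  ext t; simp
theorem sclC_bilC (s : unitInterval) (B : E →L[ℝ] F →L[ℝ] G) (u : CI E) (v : CI F) :
    sclC s (bilC B u v) = bilC B (sclC s u) (sclC s v) := by
  ext t; simp
theorem sclC_mul (s : unitInterval) (u v : CI CG) : sclC s (u * v) = sclC s u * sclC s v := rfl
theorem sclC_one (s : unitInterval) : sclC s (1 : CI CG) = 1 := rfl

theorem mapL_smul' (A : E →L[ℝ] F) (c : ℝ) (u : LI E) : mapL A (c • u) = c • mapL A u :=
  (mapL A).map_smul c u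
theorem bilR_smul' (B : E →L[ℝ] F →L[ℝ] G) (c : ℝ) (u : LI E) (v : CI F) :
    bilR B (c • u) v = c • bilR B u v := by
  rw [(bilR B).map_smul]; rfl
theorem bilL_smul' (B : E →L[ℝ] F →L[ℝ] G) (c : ℝ) (u : CI E) (v : LI F) :
    bilL B u (c • v) = c • bilL B u v := (bilL B u).map_smul c v
theorem sclL_smul' (s : unitInterval) (hs : 0 < s) (c : ℝ) (u : LI E) :
    sclL E s hs (c • u) = c • sclL E s hs u := (sclL E s hs).map_smul c u

theorem mapL_scl (s : unitInterval) (hs : 0 < s) (A : E →L[ℝ] F) (c : ℝ) (u : LI E) :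
    mapL A (c • sclL E s hs u) = c • sclL F s hs (mapL A u) := by
  rw [mapL_smul', sclL_mapL]
theorem bilR_scl (s : unitInterval) (hs : 0 < s) (B : E →L[ℝ] F →L[ℝ] G) (c : ℝ) (u : LI E)
    (v : CI F) : bilR B (c • sclL E s hs u) (sclC s v) = c • sclL G s hs (bilR B u v) := by
  rw [bilR_smul', sclL_bilR]
theorem bilL_scl (s : unitInterval) (hs : 0 < s) (B : E →L[ℝ] F →L[ℝ] G) (c : ℝ) (u : CI E)
    (v : LI F) : bilL B (sclC s u) (c • sclL F s hs v) = c • sclL G s hs (bilL B u v) := by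
  rw [bilL_smul', sclL_bilL]

theorem comb5 (S : E →L[ℝ] E) (c : ℝ) {a1 a2 a3 a4 a5 b1 b2 b3 b4 b5 : E}
    (h1 : a1 = c • S b1) (h2 : a2 = c • S b2) (h3 : a3 = c • S b3) (h4 : a4 = c • S b4)
    (h5 : a5 = c • S b5) :
    -a1 + a2 - a3 + a4 + a5 = c • S (-b1 + b2 - b3 + b4 + b5) := by
  rw [h1, h2, h3, h4, h5]
  simp only [map_add, map_sub, map_neg, smul_add, smul_sub, smul_neg]

/-- the nonlinear right hand side as a function of the ingredients -/
noncomputable def NNf (L : R3) (r : ℝ) (p : CI CG) (g : LI HG) (z : CI HG) (q : LI R3) (e : CI R3)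
    (Q : CI CG) : LI HG :=
  - bilL mulG (p * p - 1) g
  + r • toL HG (bilC mulG (p * p) (cst HG (ofC (z1ref L))))
  - r • toL HG (bilC mulG (p * p * p * mapC ((kapG chG2).comp (divL L)) e) z)
  + bilR mulG (mapL ((kapG (1 - chG0)).comp LAM) q) (bilC mulG p z)
  + r • toL HG (bilC mulG ((Q - mapC ((kapG chG0).comp ev1) Q) * p) z)

noncomputable def RRf (L : R3) (r : ℝ) (q : LI R3) (Q : CI CG) : LI R3 :=
  - mapL (divL L) (mapL LAM q + r • toL R3 (mapC ev1 Q))

theorem NNf_scale (L : R3) (s : unitInterval) (hs : 0 < s) (c r : ℝ) (p : CI CG) (g : LI HG)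
    (z : CI HG) (q : LI R3) (e : CI R3) (Q : CI CG) :
    NNf L (c * r) (sclC s p) (c • sclL HG s hs g) (sclC s z) (c • sclL R3 s hs q) (sclC s e)
      (sclC s Q) = c • sclL HG s hs (NNf L r p g z q e Q) := by
  have t1 : bilL mulG (sclC s p * sclC s p - 1) (c • sclL HG s hs g) =
      c • sclL HG s hs (bilL mulG (p * p - 1) g) := by
    exact bilL_scl s hs mulG c (p * p - 1) g
  have t2 : (c * r) • toL HG (bilC mulG (sclC s p * sclC s p) (cst HG (ofC (z1ref L)))) =
      c • sclL HG s hs (r • toL HG (bilC mulG (p * p) (cst HG (ofC (z1ref L))))) := by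
    rw [sclL_smul', sclL_toL, sclC_bilC, sclC_mul, sclC_cst, smul_smul]
  have t3 : (c * r) • toL HG (bilC mulG (sclC s p * sclC s p * sclC s p *
      mapC ((kapG chG2).comp (divL L)) (sclC s e)) (sclC s z)) =
      c • sclL HG s hs (r • toL HG (bilC mulG (p * p * p *
        mapC ((kapG chG2).comp (divL L)) e) z)) := by
    rw [sclL_smul', sclL_toL, sclC_bilC, sclC_mul, sclC_mul, sclC_mul, sclC_mapC, smul_smul]
  have t4 : bilR mulG (mapL ((kapG (1 - chG0)).comp LAM) (c • sclL R3 s hs q))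
      (bilC mulG (sclC s p) (sclC s z)) =
      c • sclL HG s hs (bilR mulG (mapL ((kapG (1 - chG0)).comp LAM) q) (bilC mulG p z)) := by
    rw [mapL_scl s hs ((kapG (1 - chG0)).comp LAM) c q, ← sclC_bilC s mulG p z]
    exact bilR_scl s hs mulG c _ _
  have t5 : (c * r) • toL HG (bilC mulG ((sclC s Q - mapC ((kapG chG0).comp ev1) (sclC s Q))
      * sclC s p) (sclC s z)) =
      c • sclL HG s hs (r • toL HG (bilC mulG ((Q - mapC ((kapG chG0).comp ev1) Q) * p) z)) := by
    rw [sclL_smul', sclL_toL, sclC_bilC, sclC_mul, sclC_sub, sclC_mapC, smul_smul]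
  exact comb5 (sclL HG s hs) c t1 t2 t3 t4 t5

theorem RRf_scale (L : R3) (s : unitInterval) (hs : 0 < s) (c r : ℝ) (q : LI R3) (Q : CI CG) :
    RRf L (c * r) (c • sclL R3 s hs q) (sclC s Q) = c • sclL R3 s hs (RRf L r q Q) := by
  have t1 : mapL LAM (c • sclL R3 s hs q) = c • sclL R3 s hs (mapL LAM q) := by
    rw [mapL_smul', sclL_mapL]
  have t2 : (c * r) • toL R3 (mapC ev1 (sclC s Q)) = c • sclL R3 s hs (r • toL R3 (mapC ev1 Q)) := by
    rw [sclL_smul', sclL_toL, sclC_mapC, smul_smul]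
  have t3 : c • sclL R3 s hs (mapL LAM q) + c • sclL R3 s hs (r • toL R3 (mapC ev1 Q)) =
      c • sclL R3 s hs (mapL LAM q + r • toL R3 (mapC ev1 Q)) := by
    rw [(sclL R3 s hs).map_add, smul_add]
  unfold RRf
  rw [t1, t2, t3, mapL_smul', (sclL R3 s hs).map_neg, sclL_mapL, smul_neg]

end aux38

/-- EC4a : scaling of the ingredients and of the map -/
theorem Gam_scale {L : R3} (hL : ∀ i, 0 < L i) (g0 : HG) {lam : ℝ} (hl : 0 < lam)
    (s : unitInterval) (hs : 0 < s) {y : YY}
    (hy : psi lam y * (1 + mapC (kapG chG1) (ee lam y)) = 1) :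
    let ys : YY := (Real.sqrt s • sclL HG s hs y.1, Real.sqrt s • sclL R3 s hs y.2)
    zz hL g0 (s * lam) ys = sclC s (zz hL g0 lam y) ∧
    ee (s * lam) ys = sclC s (ee lam y) ∧
    gh hL g0 (s * lam) ys = Real.sqrt s • sclL HG s hs (gh hL g0 lam y) ∧
    Gam hL g0 (s * lam) ys = (Real.sqrt s • sclL HG s hs (Gam hL g0 lam y).1,
      Real.sqrt s • sclL R3 s hs (Gam hL g0 lam y).2) ∧ ‖ys‖ ≤ ‖y‖ := by
  intro ys
  have hs' : (0:ℝ) < s := hs
  have hsq : 0 < Real.sqrt s := Real.sqrt_pos.2 hs'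
  have hlq : 0 < Real.sqrt lam := Real.sqrt_pos.2 hl
  have hsqrt : Real.sqrt (s * lam) = Real.sqrt s * Real.sqrt lam := Real.sqrt_mul hs'.le _
  have hcst : ∀ (K : Type) [NormedAddCommGroup K] [NormedSpace ℝ K] (g : K),
      toL K (cst K g) = sclL K s hs (toL K (cst K g)) := by
    intro K _ _ g
    rw [sclL_toL, sclC_cst]
  have hG := fun f => (solG_scale (DG_injective hL) hl s hs f).1
  have hW := fun f => (solG_scale (DG_injective hL) hl s hs f).2
  have h1 : zz hL g0 (s * lam) ys = sclC s (zz hL g0 lam y) := by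
    simp only [zz, ys, hsqrt]
    rw [hcst HG g0, map_smul, hW, hW, smul_smul, sclC_add, sclC_add, sclC_sub, sclC_smul,
      sclC_cst, sclC_cst, ← hcst]
    congr 3
    field_simp
  have h2 : ee (s * lam) ys = sclC s (ee lam y) := by
    simp only [ee, ys, hsqrt]
    ext t : 1
    rw [map_smul]
    simp only [ContinuousMap.smul_apply, sclC_apply]
    rw [intC_sclL, smul_smul, smul_smul]
    congr 1
    field_simp
    rw [Real.sq_sqrt hs'.le]
  have h3 : gh hL g0 (s * lam) ys = Real.sqrt s • sclL HG s hs (gh hL g0 lam y) := by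
    simp only [gh, ys, hsqrt]
    conv_lhs => rw [hcst HG g0]
    rw [map_smul, hG, hG, map_add, map_smul, map_sub]
    module
  have h4 : psi (s * lam) ys = sclC s (psi lam y) := by
    have h5 : sclC s (psi lam y) * (1 + mapC (kapG chG1) (ee (s * lam) ys)) = 1 := by
      rw [h2, ← sclC_mapC, ← sclC_one s, ← sclC_add, ← sclC_mul, hy]
    have hu : IsUnit (1 + mapC (kapG chG1) (ee (s * lam) ys)) := IsUnit.of_mul_eq_one _ (by
      rw [mul_comm]; exact h5)
    unfold psi at *
    calc Ring.inverse (1 + mapC (kapG chG1) (ee (s * lam) ys))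
        = (sclC s (Ring.inverse (1 + mapC (kapG chG1) (ee lam y))) *
            (1 + mapC (kapG chG1) (ee (s * lam) ys))) *
            Ring.inverse (1 + mapC (kapG chG1) (ee (s * lam) ys)) := by rw [h5, one_mul]
      _ = _ := by rw [mul_assoc, Ring.mul_inverse_cancel _ hu, mul_one]
  have h6 : qh hL g0 (s * lam) ys = Real.sqrt s • sclL R3 s hs (qh hL g0 lam y) := by
    simp only [qh]
    rw [h3, map_smul, sclL_mapL]
  have h7 : QQ hL g0 (s * lam) ys = sclC s (QQ hL g0 lam y) := by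
    simp only [QQ]
    rw [h1, h4, sclC_bilC, sclC_bilC]
  refine ⟨h1, h2, h3, ?_, ?_⟩
  · refine Prod.ext ?_ ?_
    · show NN hL g0 (s * lam) ys = Real.sqrt s • sclL HG s hs (NN hL g0 lam y)
      have e1 : ∀ (l : ℝ) (y : YY), NN hL g0 l y = NNf L (Real.sqrt l) (psi l y) (gh hL g0 l y)
        (zz hL g0 l y) (qh hL g0 l y) (ee l y) (QQ hL g0 l y) := fun _ _ => rfl
      rw [e1, e1, h1, h2, h3, h4, h6, h7, hsqrt, NNf_scale]
    · show RR hL g0 (s * lam) ys = Real.sqrt s • sclL R3 s hs (RR hL g0 lam y)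
      have e1 : ∀ (l : ℝ) (y : YY), RR hL g0 l y = RRf L (Real.sqrt l) (qh hL g0 l y)
        (QQ hL g0 l y) := fun _ _ => rfl
      rw [e1, e1, h6, h7, hsqrt, RRf_scale]
  · rw [Prod.norm_def, Prod.norm_def]
    exact max_le_max (sclL_norm s hs _) (sclL_norm s hs _)

end Pool.Agent.Helper15.NF
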