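import Pool.Agent.Helper15.NF.EC4a

open MeasureTheory Set
open scoped unitInterval

namespace Pool.Agent.Helper15.NF

/-- EC4b : the fixed points for different horizons are restrictions of each other -/
theorem fix_scale {L : R3} {hL : ∀ i, 0 < L i} {g0 : HG} {l0 : ℝ} (h : Good hL g0 l0)
    {y : ℝ → YY} (hy : ∀ lam ∈ Ioc 0 l0, ‖y lam‖ ≤ 1 / 2 ∧ Gam hL g0 lam (y lam) = y lam ∧
      ∀ y' : YY, ‖y'‖ ≤ 2 → Gam hL g0 lam y' = y' → y' = y lam)
    {lam : ℝ} (hl : lam ∈ Ioc 0 l0) (s : unitInterval) (hs : 0 < s) :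
    zz hL g0 (s * lam) (y (s * lam)) 1 = zz hL g0 lam (y lam) s ∧
    ee (s * lam) (y (s * lam)) 1 = ee lam (y lam) s := by
  have hs' : (0:ℝ) < s := hs
  have hs1 : (s : ℝ) ≤ 1 := s.2.2
  obtain ⟨hn, hf, -⟩ := hy lam hl
  have hn2 : ‖y lam‖ ≤ 2 := hn.trans (by norm_num)
  have hadm := (h.adm lam hl (y lam) hn2).2.2.2
  obtain ⟨hz, he, -, hG, hN⟩ := Gam_scale hL g0 hl.1 s hs hadm
  have hmem : (s : ℝ) * lam ∈ Ioc 0 l0 :=
    ⟨mul_pos hs' hl.1, (mul_le_of_le_one_left hl.1.le hs1).trans hl.2⟩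
  have hys : ((Real.sqrt s • sclL HG s hs (y lam).1, Real.sqrt s • sclL R3 s hs (y lam).2) : YY) =
      y (s * lam) := by
    refine (hy _ hmem).2.2 _ (hN.trans hn2) ?_
    rw [hG, hf]
  rw [← hys]
  constructor
  · rw [hz, sclC_apply, mul_one]
  · rw [he, sclC_apply, mul_one]

end Pool.Agent.Helper15.NF
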