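import Pool.Agent.Helper15.NF.EC0

open MeasureTheory Set Filter Topology
open scoped unitInterval

namespace Pool.Agent.Helper15.NF

noncomputable section

/-- static versions of the ingredients -/
def PsiS (e : R3) : CG := Ring.inverse (1 + kapG chG1 e)
def QS (e : R3) (z : HG) : CG := V2 (mulG (PsiS e) z) z
/-- `Λ` from the length equation -/
def LamS (L e de : R3) (z : HG) : R3 := fun i => -(L i * de i) - QS e z (i, 1)
/-- `g = -u_xx` from the equation, `dz` is the time derivative of `z` -/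
def GS (L e de : R3) (z dz : HG) : HG :=
  mulG ((1 + kapG chG1 e) * (1 + kapG chG1 e))
    (mulG (PsiS e * PsiS e) (ofC (z1ref L))
      - mulG (PsiS e * PsiS e * PsiS e * kapG chG2 (divL L e)) z
      + mulG ((kapG (1 - chG0) (LamS L e de z) + QS e z - kapG chG0 (ev1 (QS e z))) * PsiS e) z
      - ofC (EE L dz))

/-- solution in the Hilbert space, smooth in time -/
structure HSol (L : R3) (g0 : HG) (τ : ℝ) where
  z : ℝ → HG
  dz : ℝ → HG
  e : ℝ → R3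
  de : ℝ → R3
  z_smooth : ∀ n : ℕ, ContDiffOn ℝ n z (Ioo 0 τ)
  e_smooth : ∀ n : ℕ, ContDiffOn ℝ n e (Ioo 0 τ)
  z_t : ∀ t ∈ Ioo 0 τ, HasDerivAt z (dz t) t
  e_t : ∀ t ∈ Ioo 0 τ, HasDerivAt e (de t) t
  adm : ∀ t ∈ Ioo 0 τ, ∀ x, 1 / 2 ≤ (1 + kapG chG1 (e t)) x
  adm1 : ∀ t ∈ Ioo 0 τ, ‖e t‖ ≤ 1 / 2
  z_eq : ∀ t ∈ Ioo 0 τ, z t = ofC (zref L) + DG L (GS L (e t) (de t) (z t) (dz t))
  lam_eq : ∀ t ∈ Ioo 0 τ, LAM (trG L (GS L (e t) (de t) (z t) (dz t))) = LamS L (e t) (de t) (z t)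
  z_lim : Tendsto z (𝓝[>] 0) (𝓝 (ofC (zref L) + DG L g0))
  e_lim : Tendsto e (𝓝[>] 0) (𝓝 0)

end

end Pool.Agent.Helper15.NF
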