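import Pool.Agent.Helper15.NF.EC3b
import Pool.Agent.Helper15.NF.EC4b
import Pool.Agent.Helper15.NF.EC5

open MeasureTheory Set Filter Topology
open scoped unitInterval

namespace Pool.Agent.Helper15.NF

namespace EC5aAux


theorem intC_interval {E : Type*} [NormedAddCommGroup E] [NormedSpace ℝ E] [CompleteSpace E]
    (v : LI E) (t : unitInterval) :
    intC E v t = ∫ x in (0:ℝ)..t, v (projIcc 0 1 zero_le_one x) := by
  rw [intC_apply, intervalIntegral.integral_of_le t.2.1, ← integral_Icc_eq_integral_Ioc]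
  have h := unitInterval.measurePreserving_coe.setIntegral_preimage_emb
    unitInterval.measurableEmbedding_coe (fun x => v (projIcc 0 1 zero_le_one x)) (Iic (t:ℝ))
  have h1 : (Subtype.val ⁻¹' (Iic (t:ℝ)) : Set unitInterval) = Iic t := by
    ext x; simp
  rw [h1, Measure.restrict_restrict measurableSet_Iic] at h
  have h2 : Iic (t:ℝ) ∩ I = Icc 0 (t:ℝ) := by
    ext x
    simp only [mem_inter_iff, mem_Iic, mem_Icc]
    have := t.2.2
    constructor
    · rintro ⟨h1, h2, h3⟩; exact ⟨h2, h1⟩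
    · rintro ⟨h1, h2⟩; exact ⟨h2, h1, h2.trans this⟩
  rw [h2] at h
  rw [← h]
  congr 1
  ext x
  rw [projIcc_val]

theorem ae_eq_of_intC {E : Type*} [NormedAddCommGroup E] [NormedSpace ℝ E] [CompleteSpace E]
    {v : LI E} {u du : ℝ → E} {c : E}
    (h : ∀ s : unitInterval, 0 < s → intC E v s = c + u s)
    (hd : ∀ s ∈ Ioo (0:ℝ) 1, HasDerivAt u (du s) s) :
    ∀ᵐ s : unitInterval, v s = du s := by
  have hv : IntervalIntegrable (fun x => v (projIcc 0 1 zero_le_one x)) volume 0 1 := by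
    rw [intervalIntegrable_iff_integrableOn_Icc_of_le zero_le_one]
    have h1 : Integrable v (volume : Measure unitInterval) := (Lp.memLp v).integrable one_le_two
    have h2 := unitInterval.measurePreserving_coe.integrable_comp_emb
      unitInterval.measurableEmbedding_coe (g := fun x => v (projIcc 0 1 zero_le_one x))
    have h3 : ((fun x => v (projIcc 0 1 zero_le_one x)) ∘ ((↑) : unitInterval → ℝ)) = v := by
      ext x
      simp [Function.comp, projIcc_val]
    rw [h3] at h2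
    exact h2.1 h1
  have h1 := hv.ae_hasDerivAt_integral
  have h2 : ∀ᵐ x : ℝ, x ∈ I → x ≠ 0 → x ≠ 1 → v (projIcc 0 1 zero_le_one x) = du x := by
    filter_upwards [h1] with x hx hxI hx0 hx1
    have hx2 : x ∈ Ioo (0:ℝ) 1 := ⟨lt_of_le_of_ne hxI.1 (Ne.symm hx0), lt_of_le_of_ne hxI.2 hx1⟩
    rw [uIcc_of_le zero_le_one] at hx
    have h3 := hx hxI 0 ⟨le_rfl, zero_le_one⟩
    have h4 : HasDerivAt (fun x => c + u x) (du x) x := (hd x hx2).const_add c
    refine h3.unique (h4.congr_of_eventuallyEq ?_)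
    filter_upwards [Ioo_mem_nhds hx2.1 hx2.2] with y hy
    have := h ⟨y, hy.1.le, hy.2.le⟩ hy.1
    rw [intC_interval] at this
    exact this
  have h3 : ∀ᵐ x ∂((volume : Measure ℝ).restrict I), x ≠ 0 → x ≠ 1 →
      v (projIcc 0 1 zero_le_one x) = du x := by
    rw [ae_restrict_iff' measurableSet_Icc]
    exact h2
  rw [ae_restrict_iff_subtype measurableSet_Icc] at h3
  have h4 : ∀ᵐ s : unitInterval, s ≠ 0 := by simp [ae_iff]
  have h5 : ∀ᵐ s : unitInterval, s ≠ 1 := by simp [ae_iff]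
  filter_upwards [h3, h4, h5] with s hs h0 h1
  have := hs (fun h => h0 (Subtype.ext h)) (fun h => h1 (Subtype.ext h))
  rwa [projIcc_val] at this

/-- two functions of `t`, continuous on `(0,1)`, equal a.e. -/
theorem eq_of_ae {E : Type*} [NormedAddCommGroup E] {u w : ℝ → E}
    (hu : ContinuousOn u (Ioo 0 1)) (hw : ContinuousOn w (Ioo 0 1))
    (h : ∀ᵐ s : unitInterval, u s = w s) : ∀ s ∈ Ioo (0:ℝ) 1, u s = w s := by
  have h1 : ∀ᵐ x ∂((volume : Measure ℝ).restrict I), u x = w x := by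
    rw [ae_restrict_iff_subtype measurableSet_Icc]
    exact h
  have h2 : u =ᵐ[(volume : Measure ℝ).restrict (Ioo 0 1)] w :=
    ae_restrict_of_ae_restrict_of_subset Ioo_subset_Icc_self h1
  exact Measure.eqOn_open_of_ae_eq h2 isOpen_Ioo hu hw

theorem mapC_cst {E F : Type*} [NormedAddCommGroup E] [NormedSpace ℝ E] [NormedAddCommGroup F]
    [NormedSpace ℝ F] (A : E →L[ℝ] F) (e : E) : mapC A (cst E e) = cst F (A e) := by
  ext t; simp

theorem mapL_comp {E F G : Type*} [NormedAddCommGroup E] [NormedSpace ℝ E] [NormedAddCommGroup F]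
    [NormedSpace ℝ F] [NormedAddCommGroup G] [NormedSpace ℝ G] (A : F →L[ℝ] G) (B : E →L[ℝ] F)
    (u : LI E) : mapL (A.comp B) u = mapL A (mapL B u) := by
  apply Lp.ext
  filter_upwards [mapL_coe (A.comp B) u, mapL_coe A (mapL B u), mapL_coe B u] with t h1 h2 h3
  rw [h1, h2, h3]
  rfl

theorem zz_gh {L : R3} (hL : ∀ i, 0 < L i) (g0 : HG) {lam : ℝ} (hl : 0 < lam) (y : YY) :
    Real.sqrt lam • toL HG (zz hL g0 lam y - cst HG (ofC (zref L))) =
      mapL (DG L) (gh hL g0 lam y) := by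
  obtain ⟨h1, h2, -, -, -⟩ := solGW_spec (DG_injective hL) hl
  have hs : Real.sqrt lam ≠ 0 := (Real.sqrt_pos.2 hl).ne'
  unfold zz gh
  rw [add_sub_cancel_right, map_add, map_add, map_sub, map_smul, map_smul, map_sub, h2, h2,
    mapL_toL, mapC_cst, smul_add, smul_smul, mul_inv_cancel₀ hs, one_smul]

theorem gh_intL {L : R3} (hL : ∀ i, 0 < L i) (g0 : HG) {lam : ℝ} (hl : 0 < lam) (y : YY) :
    mapL (TT (DG L)) (gh hL g0 lam y) + lam • intL HG (gh hL g0 lam y) =
      Real.sqrt lam • toL HG (cst HG (TT (DG L) g0)) + lam • intL HG y.1 := by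
  obtain ⟨h1, -, -, -, -⟩ := solGW_spec (DG_injective hL) hl
  have h2 := h1 (toL HG (cst HG g0))
  have h3 := h1 y.1
  unfold gh
  rw [map_add, map_add, map_smul, map_smul, map_sub, map_sub, mapL_toL, mapC_cst]
  generalize mapL (TT (DG L)) (solG (DG_injective hL) lam y.1) = a1 at *
  generalize mapL (TT (DG L)) (solG (DG_injective hL) lam (toL HG (cst HG g0))) = a2 at *
  generalize intL HG (solG (DG_injective hL) lam y.1) = a3 at *
  generalize intL HG (solG (DG_injective hL) lam (toL HG (cst HG g0))) = a4 at *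
  generalize intL HG (toL HG (cst HG g0)) = a5 at *
  rw [← h3]
  have h4 : a2 = lam • a5 - lam • a4 := by rw [← h2]; abel
  rw [h4]
  module

theorem TT_eq {L : R3} (hL : ∀ i, 0 < L i) :
    TT (DG L) = (ofC.comp (EE L)).comp (DG L) := by
  ext1 g
  exact TT_DG hL g

theorem gh_int {L : R3} (hL : ∀ i, 0 < L i) (g0 : HG) {lam : ℝ} (hl : 0 < lam) (y : YY) :
    Real.sqrt lam • mapC (ofC.comp (EE L)) (zz hL g0 lam y - cst HG (ofC (zref L)))
      + lam • intC HG (gh hL g0 lam y) =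
      Real.sqrt lam • cst HG (TT (DG L) g0) + lam • intC HG y.1 := by
  apply toL_injective
  have h1 := gh_intL hL g0 hl y
  have h2 : mapL (TT (DG L)) (gh hL g0 lam y) = Real.sqrt lam • toL HG
      (mapC (ofC.comp (EE L)) (zz hL g0 lam y - cst HG (ofC (zref L)))) := by
    rw [TT_eq hL, mapL_comp, ← zz_gh hL g0 hl y, map_smul, mapL_toL]
  rw [h2] at h1
  rw [map_add, map_add, map_smul, map_smul, map_smul, map_smul]
  exact h1

theorem static_g {Ψ κ : CG} (hΨ : Ψ * κ = 1) {g w zr z : HG} {A B K : CG} {c : ℝ}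
    (h : g + c • w = -(mulG (Ψ * Ψ - 1) g) + c • mulG (Ψ * Ψ) zr - c • mulG (Ψ * Ψ * Ψ * K) z
      + mulG (c • B) (mulG Ψ z) + c • mulG (A * Ψ) z) :
    g = c • mulG (κ * κ) (mulG (Ψ * Ψ) zr - mulG (Ψ * Ψ * Ψ * K) z + mulG ((B + A) * Ψ) z - w) := by
  have h1 : mulG (Ψ * Ψ) g = c • (mulG (Ψ * Ψ) zr - mulG (Ψ * Ψ * Ψ * K) z
      + mulG ((B + A) * Ψ) z - w) := by
    have h2 : mulG (Ψ * Ψ - 1) g = mulG (Ψ * Ψ) g - g := by
      rw [map_sub, sub_apply, mulG_one]
    have h3 : mulG (c • B) (mulG Ψ z) = c • mulG (B * Ψ) z := by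
      rw [map_smul, smul_apply, mulG_mulG]
    have h4 : mulG ((B + A) * Ψ) z = mulG (B * Ψ) z + mulG (A * Ψ) z := by
      rw [add_mul, map_add, add_apply]
    rw [h2, h3] at h
    rw [h4]
    have h5 : mulG (Ψ * Ψ) g = c • mulG (Ψ * Ψ) zr - c • mulG (Ψ * Ψ * Ψ * K) z
        + c • mulG (B * Ψ) z + c • mulG (A * Ψ) z - c • w := by
      have h6 : mulG (Ψ * Ψ) g = (g + c • w) + (mulG (Ψ * Ψ) g - g) - c • w := by abel
      rw [h6, h]
      abel
    rw [h5]
    module
  rw [← map_smul, ← h1, mulG_mulG]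
  have h2 : κ * κ * (Ψ * Ψ) = 1 := by
    calc κ * κ * (Ψ * Ψ) = (Ψ * κ) * (Ψ * κ) := by ring
      _ = 1 := by rw [hΨ, one_mul]
  rw [h2, mulG_one]

theorem PsiS_eq {lam : ℝ} {y : YY} (h : psi lam y * (1 + mapC (kapG chG1) (ee lam y)) = 1)
    (s : unitInterval) : PsiS (ee lam y s) = psi lam y s ∧
      psi lam y s * (1 + kapG chG1 (ee lam y s)) = 1 := by
  have h1 : psi lam y s * (1 + kapG chG1 (ee lam y s)) = 1 := by
    have := congrArg (fun u : CI CG => u s) h
    simpa using this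
  refine ⟨?_, h1⟩
  unfold PsiS
  have h2 : (1 + kapG chG1 (ee lam y s)) * psi lam y s = 1 := by rw [mul_comm]; exact h1
  exact Ring.inverse_unit (⟨_, _, h2, h1⟩ : CGˣ)


theorem NN_coe {L : R3} (hL : ∀ i, 0 < L i) (g0 : HG) (lam : ℝ) (y : YY) :
    ∀ᵐ s : unitInterval, NN hL g0 lam y s =
      -(mulG (psi lam y s * psi lam y s - 1) (gh hL g0 lam y s))
      + Real.sqrt lam • mulG (psi lam y s * psi lam y s) (ofC (z1ref L))
      - Real.sqrt lam • mulG (psi lam y s * psi lam y s * psi lam y s *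
        kapG chG2 (divL L (ee lam y s))) (zz hL g0 lam y s)
      + mulG (kapG (1 - chG0) (LAM (trG L (gh hL g0 lam y s)))) (mulG (psi lam y s) (zz hL g0 lam y s))
      + Real.sqrt lam • mulG ((QQ hL g0 lam y s - kapG chG0 (ev1 (QQ hL g0 lam y s)))
          * psi lam y s) (zz hL g0 lam y s) := by
  unfold NN
  filter_upwards [
    Lp.coeFn_add (- bilL mulG (psi lam y * psi lam y - 1) (gh hL g0 lam y)
      + Real.sqrt lam • toL HG (bilC mulG (psi lam y * psi lam y) (cst HG (ofC (z1ref L))))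
      - Real.sqrt lam • toL HG (bilC mulG (psi lam y * psi lam y * psi lam y *
      mapC ((kapG chG2).comp (divL L)) (ee lam y)) (zz hL g0 lam y))
      + bilR mulG (mapL ((kapG (1 - chG0)).comp LAM) (qh hL g0 lam y))
      (bilC mulG (psi lam y) (zz hL g0 lam y))) (Real.sqrt lam • toL HG (bilC mulG ((QQ hL g0 lam y - mapC ((kapG chG0).comp ev1) (QQ hL g0 lam y))
      * psi lam y) (zz hL g0 lam y))),
    Lp.coeFn_add (- bilL mulG (psi lam y * psi lam y - 1) (gh hL g0 lam y)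
      + Real.sqrt lam • toL HG (bilC mulG (psi lam y * psi lam y) (cst HG (ofC (z1ref L))))
      - Real.sqrt lam • toL HG (bilC mulG (psi lam y * psi lam y * psi lam y *
      mapC ((kapG chG2).comp (divL L)) (ee lam y)) (zz hL g0 lam y)))
      (bilR mulG (mapL ((kapG (1 - chG0)).comp LAM) (qh hL g0 lam y))
      (bilC mulG (psi lam y) (zz hL g0 lam y))),
    Lp.coeFn_sub (- bilL mulG (psi lam y * psi lam y - 1) (gh hL g0 lam y)
      + Real.sqrt lam • toL HG (bilC mulG (psi lam y * psi lam y) (cst HG (ofC (z1ref L)))))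
      (Real.sqrt lam • toL HG (bilC mulG (psi lam y * psi lam y * psi lam y *
      mapC ((kapG chG2).comp (divL L)) (ee lam y)) (zz hL g0 lam y))),
    Lp.coeFn_add (- bilL mulG (psi lam y * psi lam y - 1) (gh hL g0 lam y))
      (Real.sqrt lam • toL HG (bilC mulG (psi lam y * psi lam y) (cst HG (ofC (z1ref L))))),
    Lp.coeFn_neg (bilL mulG (psi lam y * psi lam y - 1) (gh hL g0 lam y)),
    Lp.coeFn_smul (Real.sqrt lam) (toL HG (bilC mulG (psi lam y * psi lam y) (cst HG (ofC (z1ref L))))),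
    Lp.coeFn_smul (Real.sqrt lam) (toL HG (bilC mulG (psi lam y * psi lam y * psi lam y *
      mapC ((kapG chG2).comp (divL L)) (ee lam y)) (zz hL g0 lam y))),
    Lp.coeFn_smul (Real.sqrt lam) (toL HG (bilC mulG ((QQ hL g0 lam y - mapC ((kapG chG0).comp ev1) (QQ hL g0 lam y))
      * psi lam y) (zz hL g0 lam y))),
    toL_coe (bilC mulG (psi lam y * psi lam y) (cst HG (ofC (z1ref L)))),
    toL_coe (bilC mulG (psi lam y * psi lam y * psi lam y *
      mapC ((kapG chG2).comp (divL L)) (ee lam y)) (zz hL g0 lam y)),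
    toL_coe (bilC mulG ((QQ hL g0 lam y - mapC ((kapG chG0).comp ev1) (QQ hL g0 lam y))
      * psi lam y) (zz hL g0 lam y)),
    bilL_coe mulG (psi lam y * psi lam y - 1) (gh hL g0 lam y),
    bilR_coe mulG (mapL ((kapG (1 - chG0)).comp LAM) (qh hL g0 lam y))
      (bilC mulG (psi lam y) (zz hL g0 lam y)),
    mapL_coe ((kapG (1 - chG0)).comp LAM) (qh hL g0 lam y),
    mapL_coe (trG L) (gh hL g0 lam y)]
    with s h1 h2 h3 h4 h5 h6 h7 h8 h9 h10 h11 h12 h13 h14 h15
  simp only [Pi.add_apply, Pi.sub_apply, Pi.neg_apply, Pi.smul_apply] at h1 h2 h3 h4 h5 h6 h7 h8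
  rw [h1, h2, h3, h4, h5, h6, h7, h8, h9, h10, h11, h12, h13, h14]
  unfold qh
  rw [h15]
  simp only [bilC_apply, ContinuousMap.mul_apply, ContinuousMap.sub_apply, ContinuousMap.one_apply,
    mapC_apply, ContinuousLinearMap.comp_apply, cst_apply]


theorem RR_coe {L : R3} (hL : ∀ i, 0 < L i) (g0 : HG) (lam : ℝ) (y : YY) :
    ∀ᵐ s : unitInterval, RR hL g0 lam y s =
      -(divL L (LAM (trG L (gh hL g0 lam y s)) + Real.sqrt lam • ev1 (QQ hL g0 lam y s))) := by
  unfold RR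
  filter_upwards [
    Lp.coeFn_neg (mapL (divL L) (mapL LAM (qh hL g0 lam y)
      + Real.sqrt lam • toL R3 (mapC ev1 (QQ hL g0 lam y)))),
    mapL_coe (divL L) (mapL LAM (qh hL g0 lam y)
      + Real.sqrt lam • toL R3 (mapC ev1 (QQ hL g0 lam y))),
    Lp.coeFn_add (mapL LAM (qh hL g0 lam y)) (Real.sqrt lam • toL R3 (mapC ev1 (QQ hL g0 lam y))),
    Lp.coeFn_smul (Real.sqrt lam) (toL R3 (mapC ev1 (QQ hL g0 lam y))),
    toL_coe (mapC ev1 (QQ hL g0 lam y)),
    mapL_coe LAM (qh hL g0 lam y),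
    mapL_coe (trG L) (gh hL g0 lam y)]
    with s h1 h2 h3 h4 h5 h6 h7
  simp only [Pi.add_apply, Pi.neg_apply, Pi.smul_apply] at h1 h3 h4
  rw [h1, h2, h3, h4, h5, h6]
  unfold qh
  rw [h7, mapC_apply]

theorem QQ_eq {L : R3} (hL : ∀ i, 0 < L i) (g0 : HG) {lam : ℝ} {y : YY}
    (h : psi lam y * (1 + mapC (kapG chG1) (ee lam y)) = 1) (s : unitInterval) :
    QQ hL g0 lam y s = QS (ee lam y s) (zz hL g0 lam y s) := by
  unfold QQ QS
  rw [bilC_apply, bilC_apply, (PsiS_eq h s).1]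

theorem hasDeriv_scale {E : Type*} [NormedAddCommGroup E] [NormedSpace ℝ E] {lam : ℝ} {z : ℝ → E}
    {dz : E} {s : ℝ} (_ht : s * lam ∈ Ioo 0 lam) (h : HasDerivAt z dz (s * lam)) :
    HasDerivAt (fun s : ℝ => z (s * lam)) (lam • dz) s := by
  have h1 : HasDerivAt (fun s : ℝ => s * lam) lam s := by
    simpa using (hasDerivAt_id s).mul_const lam
  exact HasDerivAt.scomp s h h1

theorem hasDeriv_clm {E F : Type*} [NormedAddCommGroup E] [NormedSpace ℝ E] [NormedAddCommGroup F]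
    [NormedSpace ℝ F] (A : E →L[ℝ] F) {u : ℝ → E} {u' : E} {s : ℝ} (h : HasDerivAt u u' s) :
    HasDerivAt (fun x => A (u x)) (A u') s := A.hasFDerivAt.comp_hasDerivAt s h

theorem f_eq {L : R3} (hL : ∀ i, 0 < L i) (g0 : HG) {lam : ℝ} (hl : 0 < lam) (y : YY)
    {z dz : ℝ → HG} (hz : ∀ s : unitInterval, 0 < s → z (s * lam) = zz hL g0 lam y s)
    (hdz : ∀ t ∈ Ioo 0 lam, HasDerivAt z (dz t) t) :
    ∀ᵐ s : unitInterval, y.1 s = gh hL g0 lam y s + Real.sqrt lam • ofC (EE L (dz (s * lam))) := by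
  have hs : Real.sqrt lam ≠ 0 := (Real.sqrt_pos.2 hl).ne'
  have h1 := gh_int hL g0 hl y
  have h2 : ∀ᵐ s : unitInterval, (y.1 - gh hL g0 lam y : LI HG) s =
      Real.sqrt lam • ofC (EE L (dz (s * lam))) := by
    refine ae_eq_of_intC (v := y.1 - gh hL g0 lam y)
      (u := fun s => (lam⁻¹ * Real.sqrt lam) • ofC (EE L (z (s * lam))))
      (du := fun s => Real.sqrt lam • ofC (EE L (dz (s * lam))))
      (c := - ((lam⁻¹ * Real.sqrt lam) • (ofC (EE L (ofC (zref L))) + TT (DG L) g0))) ?_ ?_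
    · intro s h0
      have h3 := congrArg (fun u : CI HG => lam⁻¹ • u s) h1
      simp only [ContinuousMap.add_apply, ContinuousMap.smul_apply, mapC_apply,
        ContinuousLinearMap.comp_apply, ContinuousMap.sub_apply, cst_apply, smul_add, smul_smul,
        inv_mul_cancel₀ hl.ne', one_smul, map_sub, smul_sub] at h3
      rw [map_sub, ContinuousMap.sub_apply]
      simp only [hz s h0]
      rw [smul_add]
      generalize (lam⁻¹ * Real.sqrt lam) • ofC (EE L ((zz hL g0 lam y) s)) = a1 at *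
      generalize (lam⁻¹ * Real.sqrt lam) • ofC (EE L (ofC (zref L))) = a2 at *
      generalize (lam⁻¹ * Real.sqrt lam) • TT (DG L) g0 = a3 at *
      generalize intC HG y.1 s = a4 at *
      generalize intC HG (gh hL g0 lam y) s = a5 at *
      have h4 : a4 = a1 - a2 + a5 - a3 := by rw [h3]; abel
      rw [h4]
      abel
    · intro s h0
      have ht : s * lam ∈ Ioo 0 lam := ⟨mul_pos h0.1 hl, by nlinarith [h0.2]⟩
      have h3 := hasDeriv_scale ht (hdz _ ht)
      have h4 := hasDeriv_clm ((lam⁻¹ * Real.sqrt lam) • (ofC.comp (EE L))) h3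
      have h5 : ((lam⁻¹ * Real.sqrt lam) • (ofC.comp (EE L))) (lam • dz (s * lam)) =
          Real.sqrt lam • ofC (EE L (dz (s * lam))) := by
        rw [map_smul, smul_apply, smul_smul, ContinuousLinearMap.comp_apply]
        congr 1
        field_simp
      rw [h5] at h4
      exact h4
  filter_upwards [h2, Lp.coeFn_sub y.1 (gh hL g0 lam y)] with s h3 h4
  rw [h4, Pi.sub_apply] at h3
  rw [← h3]
  abel

theorem r_eq {lam : ℝ} (hl : 0 < lam) (y : YY)
    {e de : ℝ → R3} (he : ∀ s : unitInterval, 0 < s → e (s * lam) = ee lam y s)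
    (hde : ∀ t ∈ Ioo 0 lam, HasDerivAt e (de t) t) :
    ∀ᵐ s : unitInterval, y.2 s = Real.sqrt lam • de (s * lam) := by
  have hs : Real.sqrt lam ≠ 0 := (Real.sqrt_pos.2 hl).ne'
  have hs2 : Real.sqrt lam * Real.sqrt lam = lam := Real.mul_self_sqrt hl.le
  refine ae_eq_of_intC (v := y.2) (u := fun s => (Real.sqrt lam)⁻¹ • e (s * lam))
      (du := fun s => Real.sqrt lam • de (s * lam)) (c := 0) ?_ ?_
  · intro s h0
    simp only [he s h0]
    unfold ee
    rw [ContinuousMap.smul_apply, smul_smul, inv_mul_cancel₀ hs, one_smul, zero_add]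
  · intro s h0
    have ht : s * lam ∈ Ioo 0 lam := ⟨mul_pos h0.1 hl, by nlinarith [h0.2]⟩
    have h3 := hasDeriv_scale ht (hde _ ht)
    have h4 := hasDeriv_clm ((Real.sqrt lam)⁻¹ • (ContinuousLinearMap.id ℝ R3)) h3
    have h5 : ((Real.sqrt lam)⁻¹ • (ContinuousLinearMap.id ℝ R3)) (lam • de (s * lam)) =
        Real.sqrt lam • de (s * lam) := by
      rw [map_smul, smul_apply, smul_smul, ContinuousLinearMap.id_apply]
      congr 1
      field_simp
      rw [sq, hs2]
    rw [h5] at h4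
    exact h4

theorem divL_apply (L : R3) (c : R3) (i : Fin 3) : divL L c i = (L i)⁻¹ * c i := by
  simp [divL]

theorem ev1_apply (a : CG) (i : Fin 3) : ev1 a i = a (i, 1) := by
  simp [ev1]

theorem main_ae {L : R3} (hL : ∀ i, 0 < L i) (g0 : HG) {lam : ℝ} (hl : 0 < lam) {y : YY}
    (hpsi : psi lam y * (1 + mapC (kapG chG1) (ee lam y)) = 1)
    (hy : Gam hL g0 lam y = y)
    {z dz : ℝ → HG} (hz : ∀ s : unitInterval, 0 < s → z (s * lam) = zz hL g0 lam y s)
    (hdz : ∀ t ∈ Ioo 0 lam, HasDerivAt z (dz t) t)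
    {e de : ℝ → R3} (he : ∀ s : unitInterval, 0 < s → e (s * lam) = ee lam y s)
    (hde : ∀ t ∈ Ioo 0 lam, HasDerivAt e (de t) t) :
    ∀ᵐ s : unitInterval,
      gh hL g0 lam y s = Real.sqrt lam •
        GS L (e (s * lam)) (de (s * lam)) (z (s * lam)) (dz (s * lam)) ∧
      LAM (trG L (gh hL g0 lam y s)) = Real.sqrt lam •
        LamS L (e (s * lam)) (de (s * lam)) (z (s * lam)) := by
  have hN : NN hL g0 lam y = y.1 := congrArg Prod.fst hy
  have hR : RR hL g0 lam y = y.2 := congrArg Prod.snd hy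
  have h0 : ∀ᵐ s : unitInterval, s ≠ 0 := by simp [ae_iff]
  have hN1 := NN_coe hL g0 lam y
  have hR1 := RR_coe hL g0 lam y
  rw [hN] at hN1
  rw [hR] at hR1
  filter_upwards [hN1, hR1, f_eq hL g0 hl y hz hdz, r_eq hl y he hde, h0] with s h1 h2 h3 h4 h5
  have h6 : (0:unitInterval) < s := lt_of_le_of_ne s.2.1 (Ne.symm h5)
  rw [hz s h6, he s h6]
  obtain ⟨hP1, hP2⟩ := PsiS_eq hpsi s
  rw [QQ_eq hL g0 hpsi s] at h1 h2
  have hLAM : LAM (trG L (gh hL g0 lam y s)) = Real.sqrt lam •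
        LamS L (ee lam y s) (de (s * lam)) (zz hL g0 lam y s) := by
    rw [h4] at h2
    ext i
    have h7 := congrFun h2 i
    rw [Pi.neg_apply, divL_apply, Pi.smul_apply, Pi.add_apply, Pi.smul_apply, ev1_apply,
      smul_eq_mul, smul_eq_mul] at h7
    rw [Pi.smul_apply, smul_eq_mul]
    unfold LamS
    have hLi := hL i
    field_simp at h7
    linarith
  refine ⟨?_, hLAM⟩
  rw [h3] at h1
  rw [hLAM, map_smul] at h1
  have h8 := static_g hP2 h1
  rw [h8]
  unfold GS
  rw [hP1, add_sub_assoc (kapG (1 - chG0) (LamS L (ee lam y s) (de (s * lam)) (zz hL g0 lam y s)))]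


theorem GS_cont {L : R3} {S : Set ℝ} {e de : ℝ → R3} {z dz : ℝ → HG}
    (he : ContinuousOn e S) (hde : ContinuousOn de S) (hz : ContinuousOn z S)
    (hdz : ContinuousOn dz S) (hu : ∀ t ∈ S, IsUnit (1 + kapG chG1 (e t))) :
    ContinuousOn (fun t => GS L (e t) (de t) (z t) (dz t)) S ∧
    ContinuousOn (fun t => LamS L (e t) (de t) (z t)) S := by
  have hP : ContinuousOn (fun t => PsiS (e t)) S := by
    intro t ht
    obtain ⟨u, hu'⟩ := hu t ht
    have h1 : ContinuousAt Ring.inverse (1 + kapG chG1 (e t)) := by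
      rw [← hu']
      exact NormedRing.inverse_continuousAt u
    have h2 : ContinuousWithinAt (fun t => 1 + kapG chG1 (e t)) S t :=
      (continuousOn_const.add ((kapG chG1).continuous.comp_continuousOn he)) t ht
    exact ContinuousAt.comp_continuousWithinAt (f := fun t => 1 + kapG chG1 (e t)) h1 h2
  have hQ : ContinuousOn (fun t => QS (e t) (z t)) S := by
    unfold QS
    fun_prop
  have hL : ContinuousOn (fun t => LamS L (e t) (de t) (z t)) S := by
    unfold LamS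
    rw [continuousOn_pi]
    intro i
    have h1 : ContinuousOn (fun t => QS (e t) (z t) (i, 1)) S := by
      have := (evG (i, 1)).continuous.comp_continuousOn hQ
      simpa [Function.comp_def] using this
    have h2 : ContinuousOn (fun t => de t i) S := continuousOn_pi.1 hde i
    fun_prop
  refine ⟨?_, hL⟩
  unfold GS
  fun_prop


theorem lim_zero {E : Type*} [NormedAddCommGroup E] {u : ℝ → E} {U : CI E} {l0 : ℝ} (hl : 0 < l0)
    (h : ∀ s : unitInterval, 0 < s → u (s * l0) = U s) : Tendsto u (𝓝[>] 0) (𝓝 (U 0)) := by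
  have h1 : Continuous (fun t : ℝ => U (projIcc 0 1 zero_le_one (t / l0))) := by
    refine U.continuous.comp (continuous_projIcc.comp ?_)
    fun_prop
  have h2 : Tendsto (fun t : ℝ => U (projIcc 0 1 zero_le_one (t / l0))) (𝓝[>] 0) (𝓝 (U 0)) := by
    have h3 := (h1.tendsto 0).mono_left (nhdsWithin_le_nhds (s := Ioi (0:ℝ)))
    have h4 : projIcc (0:ℝ) 1 zero_le_one (0 / l0) = 0 := by
      rw [zero_div, projIcc_left]
      rfl
    simpa only [h4] using h3
  refine h2.congr' ?_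
  filter_upwards [Ioo_mem_nhdsGT hl] with t ht
  have h5 : t / l0 ∈ Icc (0:ℝ) 1 := ⟨(div_pos ht.1 hl).le, (div_le_one hl).2 ht.2.le⟩
  rw [projIcc_of_mem _ h5]
  have h6 := h ⟨t / l0, h5⟩ (div_pos ht.1 hl)
  rw [← h6]
  simp only
  rw [div_mul_cancel₀ _ hl.ne']

theorem cont_scale {E : Type*} [NormedAddCommGroup E] {u : ℝ → E} {l0 : ℝ} (hl : 0 < l0)
    (h : ContinuousOn u (Ioo 0 l0)) : ContinuousOn (fun s => u (s * l0)) (Ioo 0 1) := by
  refine h.comp (by fun_prop) ?_
  intro s hs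
  exact ⟨mul_pos hs.1 hl, by nlinarith [hs.2]⟩

theorem eq_all {E : Type*} [NormedAddCommGroup E] {u w : ℝ → E} {l0 : ℝ} (hl : 0 < l0)
    (hu : ContinuousOn u (Ioo 0 l0)) (hw : ContinuousOn w (Ioo 0 l0))
    (h : ∀ᵐ s : unitInterval, u (s * l0) = w (s * l0)) : ∀ t ∈ Ioo 0 l0, u t = w t := by
  intro t ht
  have h1 := eq_of_ae (cont_scale hl hu) (cont_scale hl hw) h (t / l0)
    ⟨div_pos ht.1 hl, (div_lt_one hl).2 ht.2⟩
  simpa only [div_mul_cancel₀ _ hl.ne'] using h1

end EC5aAux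

open EC5aAux in
/-- EC5a : the fixed points give a solution in the Hilbert space -/
theorem fix_HSol {L : R3} {hL : ∀ i, 0 < L i} {g0 : HG} {l0 : ℝ} (h : Good hL g0 l0)
    {y : ℝ → YY} (hy : ∀ lam ∈ Ioc 0 l0, ‖y lam‖ ≤ 1 / 2 ∧ Gam hL g0 lam (y lam) = y lam ∧
      ∀ y' : YY, ‖y'‖ ≤ 2 → Gam hL g0 lam y' = y' → y' = y lam) :
    ∃ S : HSol L g0 l0, (∀ t ∈ Ioo 0 l0, S.z t = zz hL g0 t (y t) 1) ∧
      (∀ t ∈ Ioo 0 l0, S.e t = ee t (y t) 1) := by
  have hpos := h.pos
  have hl : l0 ∈ Ioc 0 l0 := ⟨h.pos, le_rfl⟩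
  have hy2 : ∀ lam ∈ Ioc 0 l0, ‖y lam‖ ≤ 2 := fun lam hlam => by
    have := (hy lam hlam).1
    linarith
  obtain ⟨z, hzdef⟩ : ∃ z : ℝ → HG, z = fun t => zz hL g0 t (y t) 1 := ⟨_, rfl⟩
  obtain ⟨e, hedef⟩ : ∃ e : ℝ → R3, e = fun t => ee t (y t) 1 := ⟨_, rfl⟩
  have hz : ∀ s : unitInterval, 0 < s → z (s * l0) = zz hL g0 l0 (y l0) s := fun s hs => by
    rw [hzdef]
    exact (fix_scale h hy hl s hs).1
  have he : ∀ s : unitInterval, 0 < s → e (s * l0) = ee l0 (y l0) s := fun s hs => by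
    rw [hedef]
    exact (fix_scale h hy hl s hs).2
  have hzsm : ∀ n : ℕ, ContDiffOn ℝ n z (Ioo 0 l0) := fun n => by
    rw [hzdef]
    exact (fix_smooth h hy n).2.1
  have hesm : ∀ n : ℕ, ContDiffOn ℝ n e (Ioo 0 l0) := fun n => by
    rw [hedef]
    exact (fix_smooth h hy n).2.2
  have hdz : ∀ t ∈ Ioo 0 l0, HasDerivAt z (deriv z t) t := fun t ht =>
    (((hzsm 1).differentiableOn (by norm_num) t ht).differentiableAt
      (Ioo_mem_nhds ht.1 ht.2)).hasDerivAt
  have hde : ∀ t ∈ Ioo 0 l0, HasDerivAt e (deriv e t) t := fun t ht =>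
    (((hesm 1).differentiableOn (by norm_num) t ht).differentiableAt
      (Ioo_mem_nhds ht.1 ht.2)).hasDerivAt
  have hdzc : ContinuousOn (deriv z) (Ioo 0 l0) :=
    (hzsm 1).continuousOn_deriv_of_isOpen isOpen_Ioo (by norm_num)
  have hdec : ContinuousOn (deriv e) (Ioo 0 l0) :=
    (hesm 1).continuousOn_deriv_of_isOpen isOpen_Ioo (by norm_num)
  have hzc : ContinuousOn z (Ioo 0 l0) := (hzsm 0).continuousOn
  have hec : ContinuousOn e (Ioo 0 l0) := (hesm 0).continuousOn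
  obtain ⟨-, -, -, hpsi⟩ := h.adm l0 hl (y l0) (hy2 l0 hl)
  have hmem : ∀ t ∈ Ioo 0 l0, t ∈ Ioc 0 l0 := fun t ht => ⟨ht.1, ht.2.le⟩
  have hunit : ∀ t ∈ Ioo 0 l0, IsUnit (1 + kapG chG1 (e t)) := fun t ht => by
    obtain ⟨-, -, -, hp⟩ := h.adm t (hmem t ht) (y t) (hy2 t (hmem t ht))
    obtain ⟨-, h2⟩ := PsiS_eq hp 1
    rw [hedef]
    exact IsUnit.of_mul_eq_one_right _ h2
  obtain ⟨hGc, hLc⟩ := GS_cont (L := L) hec hdec hzc hdzc hunit
  have hmain := main_ae hL g0 hpos hpsi (hy l0 hl).2.1 hz hdz he hde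
  have hs : Real.sqrt l0 ≠ 0 := (Real.sqrt_pos.2 hpos).ne'
  have h0 : ∀ᵐ s : unitInterval, s ≠ 0 := by simp [ae_iff]
  have hzae : ∀ᵐ s : unitInterval, z (s * l0) = ofC (zref L) + DG L (GS L (e (s * l0))
      (deriv e (s * l0)) (z (s * l0)) (deriv z (s * l0))) := by
    have h1 := zz_gh hL g0 hpos (y l0)
    have h2 := mapL_coe (DG L) (gh hL g0 l0 (y l0))
    rw [← h1] at h2
    filter_upwards [hmain, h2, Lp.coeFn_smul (Real.sqrt l0)
      (toL HG (zz hL g0 l0 (y l0) - cst HG (ofC (zref L)))),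
      toL_coe (zz hL g0 l0 (y l0) - cst HG (ofC (zref L))), h0] with s h3 h4 h5 h6 h7
    rw [h5, Pi.smul_apply, h6, h3.1, map_smul] at h4
    have h8 := smul_right_injective _ hs h4
    rw [ContinuousMap.sub_apply, cst_apply] at h8
    have h9 : (0:unitInterval) < s := lt_of_le_of_ne s.2.1 (Ne.symm h7)
    rw [← h8, hz s h9]
    abel
  have hzeq : ∀ t ∈ Ioo 0 l0, z t = ofC (zref L) + DG L (GS L (e t) (deriv e t) (z t) (deriv z t)) :=
    eq_all hpos hzc (continuousOn_const.add ((DG L).continuous.comp_continuousOn hGc)) hzae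
  have hLae : ∀ᵐ s : unitInterval, LAM (trG L (GS L (e (s * l0))
      (deriv e (s * l0)) (z (s * l0)) (deriv z (s * l0)))) =
      LamS L (e (s * l0)) (deriv e (s * l0)) (z (s * l0)) := by
    filter_upwards [hmain] with s h3
    have h4 := h3.2
    rw [h3.1, map_smul, map_smul] at h4
    exact smul_right_injective _ hs h4
  have hLeq : ∀ t ∈ Ioo 0 l0, LAM (trG L (GS L (e t) (deriv e t) (z t) (deriv z t))) =
      LamS L (e t) (deriv e t) (z t) :=
    eq_all hpos (LAM.continuous.comp_continuousOn ((trG L).continuous.comp_continuousOn hGc)) hLc hLae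
  have hzlim : Tendsto z (𝓝[>] 0) (𝓝 (ofC (zref L) + DG L g0)) := by
    have h1 := lim_zero hpos hz
    have h2 : zz hL g0 l0 (y l0) 0 = ofC (zref L) + DG L g0 := by
      obtain ⟨-, -, -, -, h3⟩ := solGW_spec (DG_injective hL) hpos
      unfold zz
      rw [ContinuousMap.add_apply, ContinuousMap.add_apply, ContinuousMap.sub_apply,
        ContinuousMap.smul_apply, h3, h3, cst_apply, cst_apply, smul_zero, sub_zero, add_zero,
        add_comm]
    rw [h2] at h1
    exact h1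
  have helim : Tendsto e (𝓝[>] 0) (𝓝 0) := by
    have h1 := lim_zero hpos he
    have h2 : ee l0 (y l0) 0 = 0 := by
      unfold ee
      rw [ContinuousMap.smul_apply, intC_apply]
      have h3 : (Iic (0:unitInterval)) = {0} := by
        ext x
        simp only [mem_Iic, mem_singleton_iff]
        exact ⟨fun h => le_antisymm h x.2.1, fun h => h.le⟩
      rw [h3, setIntegral_measure_zero _ (by simp), smul_zero]
    rw [h2] at h1
    exact h1
  refine ⟨⟨z, deriv z, e, deriv e, hzsm, hesm, hdz, hde, ?_, ?_, hzeq, hLeq, hzlim, helim⟩, ?_, ?_⟩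
  · intro t ht x
    obtain ⟨-, -, h3, -⟩ := h.adm t (hmem t ht) (y t) (hy2 t (hmem t ht))
    have h4 := h3 1 x
    rw [hedef]
    simpa using h4
  · intro t ht
    obtain ⟨h3, -, -, -⟩ := h.adm t (hmem t ht) (y t) (hy2 t (hmem t ht))
    rw [hedef]
    exact ((ee t (y t)).norm_coe_le_norm 1).trans h3
  · intro t ht
    simp only [hzdef]
  · intro t ht
    simp only [hedef]

end Pool.Agent.Helper15.NF
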