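import Pool.Agent.Helper15.NF.EC5
import Pool.Agent.Helper15.NF.EFr

open MeasureTheory Set Filter Topology

namespace Pool.Agent.Helper15.NF

noncomputable section

theorem exists_mkG (f : Fin 3 → ℝ → ℝ) (hf : ∀ i, ContinuousOn (f i) (Icc 0 1)) :
    ∃ a : CG, ∀ (i : Fin 3) (x : unitInterval), a (i, x) = f i x := by
  refine ⟨⟨fun p => f p.1 p.2, ?_⟩, fun i x => rfl⟩
  rw [continuous_prod_of_discrete_left]
  intro i
  exact (continuousOn_iff_continuous_domRestrict.1 (hf i))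

/-- integral over `Iic x` in the unit interval -/
theorem ec6_int_Iic (f : ℝ → ℝ) (x : unitInterval) :
    ∫ y in Set.Iic x, f (y : ℝ) = ∫ y in (0:ℝ)..x, f y := by
  rw [intervalIntegral.integral_of_le x.2.1]
  have hm : MeasurableEmbedding (Subtype.val : unitInterval → ℝ) :=
    MeasurableEmbedding.subtype_coe measurableSet_Icc
  have h1 : (volume : Measure ℝ).restrict (Icc 0 1) = Measure.map (Subtype.val : unitInterval → ℝ) volume := by
    have := (measurePreserving_subtype_coe (μa := (volume : Measure ℝ)) (measurableSet_Icc (a := (0:ℝ)) (b := 1))).map_eq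
    exact this.symm
  have h2 : ∫ y in Set.Iic x, f (y : ℝ) = ∫ y in (Iic (x : ℝ)), f y ∂(Measure.map (Subtype.val : unitInterval → ℝ) volume) := by
    rw [hm.setIntegral_map]
    rfl
  rw [h2, ← h1, Measure.restrict_restrict measurableSet_Iic]
  have h3 : Iic (x : ℝ) ∩ Icc 0 1 = Icc 0 (x : ℝ) := by
    ext y; simp only [mem_inter_iff, mem_Iic, mem_Icc]
    constructor
    · rintro ⟨h, h', -⟩; exact ⟨h', h⟩
    · rintro ⟨h, h'⟩; exact ⟨h', h, h'.trans x.2.2⟩
  rw [h3, integral_Icc_eq_integral_Ioc]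

theorem ec6_int_univ (f : ℝ → ℝ) :
    ∫ y : unitInterval, f (y : ℝ) = ∫ y in (0:ℝ)..1, f y := by
  have := ec6_int_Iic f 1
  have h : Set.Iic (1 : unitInterval) = Set.univ := by
    ext y; simp only [mem_Iic, mem_univ, iff_true]; exact y.2.2
  rw [h, Measure.restrict_univ] at this
  simpa using this

theorem ec6_ofC_slice (a : CG) (i : Fin 3) :
    ∀ᵐ x : unitInterval, (ofC a : Fin 3 × unitInterval → ℝ) (i, x) = a (i, x) := by
  have h : ∀ᵐ p ∂mu3, (ofC a : Fin 3 × unitInterval → ℝ) p = a p :=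
    ContinuousMap.coeFn_toLp (p := 2) (𝕜 := ℝ) mu3 a
  unfold mu3 at h
  have h2 := Measure.ae_ae_of_ae_prod h
  rw [Measure.ae_count_iff] at h2
  exact h2 i

theorem ec6_Vg_ofC (a : CG) (i : Fin 3) (x : unitInterval) :
    Vg (ofC a) (i, x) = ∫ y in Set.Iic x, a (i, y) := by
  rw [Vg_apply]
  apply integral_congr_ae
  exact ae_restrict_of_ae (ec6_ofC_slice a i)

/-- a continuous function on the graph from functions on the edges -/
def mkG (f : Fin 3 → ℝ → ℝ) (hf : ∀ i, ContinuousOn (f i) (Icc 0 1)) : CG := (exists_mkG f hf).choose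
@[simp] theorem mkG_apply (f : Fin 3 → ℝ → ℝ) (hf : ∀ i, ContinuousOn (f i) (Icc 0 1)) (i : Fin 3)
    (x : unitInterval) : mkG f hf (i, x) = f i x := (exists_mkG f hf).choose_spec i x

/-- the initial `g` -/
theorem g0_cont {Lx : ℝ} (I : Init Lx) (i : Fin 3) : ContinuousOn (fun x =>
    -(Real.sqrt (I.ell i) * (I.ks i x - bb i * deriv (deriv chz) x / (I.ell i) ^ 2))) (Icc 0 1) := by
  have h1 := I.ks_cont i
  have h2 := chz2_cont
  fun_prop

def g0I {Lx : ℝ} (I : Init Lx) : HG := ofC (mkG (fun i x =>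
    -(Real.sqrt (I.ell i) * (I.ks i x - bb i * deriv (deriv chz) x / (I.ell i) ^ 2))) (g0_cont I))

theorem k_contOn {Lx : ℝ} (I : Init Lx) (i : Fin 3) :
    ContinuousOn (fun x => Real.sqrt (I.ell i) * I.k i x) (Icc 0 1) :=
  continuousOn_const.mul (fun x hx => (I.k_s i x hx).continuousWithinAt)

theorem ec6_ftc {f f' : ℝ → ℝ} (h : ∀ x ∈ Icc (0:ℝ) 1, HasDerivWithinAt f (f' x) (Icc 0 1) x)
    (hc : ContinuousOn f' (Icc 0 1)) {x : ℝ} (hx : x ∈ Icc (0:ℝ) 1) :
    ∫ y in (0:ℝ)..x, f' y = f x - f 0 := by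
  have hsub : Icc (0:ℝ) x ⊆ Icc 0 1 := Icc_subset_Icc_right hx.2
  apply intervalIntegral.integral_eq_sub_of_hasDerivAt_of_le hx.1
  · exact fun y hy => ((h y (hsub hy)).continuousWithinAt).mono hsub
  · intro y hy
    exact (h y ⟨hy.1.le, hy.2.le.trans hx.2⟩).hasDerivAt (Icc_mem_nhds hy.1 (hy.2.trans_le hx.2))
  · apply ContinuousOn.intervalIntegrable
    rw [uIcc_of_le hx.1]; exact hc.mono hsub

theorem chz_0 : chz 0 = 0 := by
  unfold chz; exact Real.smoothTransition.zero_of_nonpos (by norm_num)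
theorem chz_1 : chz 1 = 1 := by
  unfold chz; exact Real.smoothTransition.one_of_one_le (by norm_num)
theorem chz1_0 : deriv chz 0 = 0 := by
  have h : chz =ᶠ[𝓝 0] fun _ => (0:ℝ) := by
    filter_upwards [Iio_mem_nhds (show (0:ℝ) < 1/3 by norm_num)] with y hy
    unfold chz; apply Real.smoothTransition.zero_of_nonpos
    have : y < 1/3 := hy
    linarith
  rw [h.deriv_eq]; simp
theorem chz_hasDeriv (x : ℝ) : HasDerivAt chz (deriv chz x) x :=
  ((chz_contDiff 1).differentiable (by norm_num) x).hasDerivAt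
theorem chz1_hasDeriv (x : ℝ) : HasDerivAt (deriv chz) (deriv (deriv chz) x) x :=
  ((chz1_contDiff 1).differentiable (by norm_num) x).hasDerivAt

theorem ec6_Vg_g0 {Lx : ℝ} (I : Init Lx) (i : Fin 3) (x : unitInterval) :
    Real.sqrt (I.ell i) * Vg (g0I I) (i, x) = -(I.k i x - I.k i 0) + bb i * deriv chz x / I.ell i := by
  have hl := I.ell_pos i
  have hs : 0 < Real.sqrt (I.ell i) := Real.sqrt_pos.2 hl
  have hss : Real.sqrt (I.ell i) * Real.sqrt (I.ell i) = I.ell i := Real.mul_self_sqrt hl.le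
  unfold g0I
  rw [ec6_Vg_ofC]
  simp only [mkG_apply]
  rw [ec6_int_Iic (fun y => -(Real.sqrt (I.ell i) * (I.ks i y - bb i * deriv (deriv chz) y / (I.ell i) ^ 2))) x,
    ← intervalIntegral.integral_const_mul]
  have h := ec6_ftc (f := fun y => -(I.k i y) + bb i * deriv chz y / I.ell i)
    (f' := fun y => Real.sqrt (I.ell i) * -(Real.sqrt (I.ell i) * (I.ks i y - bb i * deriv (deriv chz) y / (I.ell i) ^ 2)))
    (fun y hy => by
      have h1 := (I.k_s i y hy).neg
      have h2 := (((chz1_hasDeriv y).const_mul (bb i)).div_const (I.ell i)).hasDerivWithinAt (s := Icc 0 1)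
      refine (h1.add h2).congr_deriv ?_
      rw [mul_neg, ← mul_assoc, hss]
      field_simp
      ring) (continuousOn_const.mul (g0_cont I i)) x.2
  rw [h, chz1_0]
  ring

theorem ec6_mm {Lx : ℝ} (I : Init Lx) (i : Fin 3) :
    Real.sqrt (I.ell i) * mm i (g0I I) = I.k i 0 - (I.th i 1 - I.th i 0 - bb i) / I.ell i := by
  have hl := I.ell_pos i
  have h0 : mm i (g0I I) = Vg (ofC (Vg (g0I I))) (i, 1) := by
    simp [mm]
  rw [h0, ec6_Vg_ofC, ← integral_const_mul]
  simp only [ec6_Vg_g0]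
  rw [ec6_int_Iic (fun y => -(I.k i y - I.k i 0) + bb i * deriv chz y / I.ell i) 1]
  have h := ec6_ftc (f := fun y => -(I.th i y) / I.ell i + I.k i 0 * y + bb i * chz y / I.ell i)
    (f' := fun y => -(I.k i y - I.k i 0) + bb i * deriv chz y / I.ell i)
    (fun y hy => by
      have h1 := ((I.th_s i y hy).neg).div_const (I.ell i)
      have h3 : HasDerivWithinAt (fun y : ℝ => I.k i 0 * y) (I.k i 0 * 1) (Icc 0 1) y :=
        ((hasDerivAt_id y).const_mul (I.k i 0)).hasDerivWithinAt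
      have h2 := (((chz_hasDeriv y).const_mul (bb i)).div_const (I.ell i)).hasDerivWithinAt (s := Icc 0 1)
      refine ((h1.add h3).add h2).congr_deriv ?_
      field_simp
      ring) (by
        have hk : ContinuousOn (I.k i) (Icc 0 1) := fun x hx => (I.k_s i x hx).continuousWithinAt
        have h2 := chz1_cont
        fun_prop) (x := 1) (by simp)
  have e1 : ((1 : unitInterval) : ℝ) = 1 := rfl
  rw [e1, h, chz_0, chz_1]
  field_simp
  ring

theorem ec6_vv {Lx : ℝ} (I : Init Lx) (i : Fin 3) :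
    Real.sqrt (I.ell i) * vv i (g0I I) = -(I.k i 1 - I.k i 0) + bb i * deriv chz 1 / I.ell i := by
  have h0 : vv i (g0I I) = Vg (g0I I) (i, 1) := by
    simp [vv]
  rw [h0, ec6_Vg_g0]
  rfl

theorem ec6_uJ {Lx : ℝ} (I : Init Lx) : uJ I.ell (g0I I) = I.th 2 0 := by
  have h0 := ec6_mm I 0
  have h1 := ec6_mm I 1
  have h2 := ec6_vv I 2
  have hk := I.k_J
  rw [Fin.sum_univ_three] at hk
  have hl0 := I.ell_pos 0
  have hl1 := I.ell_pos 1
  have e : uJ I.ell (g0I I) = ((I.ell 0)⁻¹ + (I.ell 1)⁻¹)⁻¹ * (Real.sqrt (I.ell 0) * mm 0 (g0I I)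
    + Real.sqrt (I.ell 1) * mm 1 (g0I I) + Real.sqrt (I.ell 2) * vv 2 (g0I I)) := by
    simp [uJ]
    ring
  rw [e, h0, h1, h2, I.th_J 0, I.th_J 1, I.th_axis0, I.th_axis1, I.k_far]
  have b0 : bb 0 = Real.pi / 3 := rfl
  have b1 : bb 1 = -(Real.pi / 3) := rfl
  have b2 : bb 2 = 0 := rfl
  rw [b0, b1, b2]
  have hp : (I.ell 0)⁻¹ + (I.ell 1)⁻¹ ≠ 0 := by positivity
  rw [inv_mul_eq_iff_eq_mul₀ hp]
  have : I.k 2 0 = -(I.k 0 0 + I.k 1 0) := by linarith
  rw [this]
  field_simp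
  ring

theorem ec6_trG {Lx : ℝ} (I : Init Lx) (i : Fin 3) : trG I.ell (g0I I) i = I.k i 0 := by
  have h0 := ec6_mm I 0
  have h1 := ec6_mm I 1
  have h2 := ec6_vv I 2
  have hu := ec6_uJ I
  have hl0 := I.ell_pos 0
  have hl1 := I.ell_pos 1
  have b0 : bb 0 = Real.pi / 3 := rfl
  have b1 : bb 1 = -(Real.pi / 3) := rfl
  have b2 : bb 2 = 0 := rfl
  fin_cases i
  · have e : trG I.ell (g0I I) 0 = Real.sqrt (I.ell 0) * mm 0 (g0I I) - (I.ell 0)⁻¹ * uJ I.ell (g0I I) := by
      simp [trG]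
    show trG I.ell (g0I I) 0 = I.k 0 0
    rw [e, h0, hu, I.th_axis0, I.th_J 0, b0]
    field_simp
    ring
  · have e : trG I.ell (g0I I) 1 = Real.sqrt (I.ell 1) * mm 1 (g0I I) - (I.ell 1)⁻¹ * uJ I.ell (g0I I) := by
      simp [trG]
    show trG I.ell (g0I I) 1 = I.k 1 0
    rw [e, h1, hu, I.th_axis1, I.th_J 1, b1]
    field_simp
    ring
  · have e : trG I.ell (g0I I) 2 = Real.sqrt (I.ell 2) * vv 2 (g0I I) := by
      simp [trG]
    show trG I.ell (g0I I) 2 = I.k 2 0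
    rw [e, h2, I.k_far, b2]
    ring

/-- EC6a : the initial `z` -/
theorem DC_g0I {Lx : ℝ} (I : Init Lx) :
    DC I.ell (g0I I) = mkG (fun i x => Real.sqrt (I.ell i) * I.k i x) (k_contOn I)
      - zref I.ell := by
  ext ⟨i, x⟩
  have hl := I.ell_pos i
  have hs : 0 < Real.sqrt (I.ell i) := Real.sqrt_pos.2 hl
  have hss : Real.sqrt (I.ell i) * Real.sqrt (I.ell i) = I.ell i := Real.mul_self_sqrt hl.le
  have hV := ec6_Vg_g0 I i x
  rw [DC_apply, ec6_trG]
  have e1 : I.ell i * Vg (g0I I) (i, x) = Real.sqrt (I.ell i) * (Real.sqrt (I.ell i) * Vg (g0I I) (i, x)) := by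
    rw [← mul_assoc, hss]
  rw [e1, hV]
  have e2 : (mkG (fun i x => Real.sqrt (I.ell i) * I.k i x) (k_contOn I) - zref I.ell) (i, x)
      = Real.sqrt (I.ell i) * I.k i x - bb i / Real.sqrt (I.ell i) * deriv chz x := by
    simp [zref, chG1, liftG]
  rw [e2]
  have e3 : bb i * deriv chz x / I.ell i = bb i * deriv chz x / (Real.sqrt (I.ell i) * Real.sqrt (I.ell i)) := by rw [hss]
  rw [e3]
  field_simp
  ring

theorem ec6_norm_sq (a : CG) : ‖ofC a‖ ^ 2 = ∑ i, ∫ x : unitInterval, a (i, x) ^ 2 := by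
  rw [← real_inner_self_eq_norm_sq, inner_HG]
  refine Finset.sum_congr rfl fun i _ => integral_congr_ae ?_
  filter_upwards [ec6_ofC_slice a i] with x hx
  rw [hx]; ring

/-- EC6b : bound of the initial data by the size -/
theorem size_bound {Lx M : ℝ} : ∃ m > 0, ∃ M' K : ℝ, ∀ I : Init Lx, I.size ≤ M →
    (∀ i, m ≤ I.ell i ∧ I.ell i ≤ M') ∧ ‖DG I.ell (g0I I)‖ ≤ K := by
  set P : ℝ := |M| + 1 with hP
  have hP1 : 1 ≤ P := by rw [hP]; linarith [abs_nonneg M]
  have hMP : M ≤ P := by rw [hP]; linarith [le_abs_self M]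
  refine ⟨P⁻¹, by positivity, P, Real.sqrt P + ‖ofC‖ * (‖kapG chG1‖ * (2 * (1 + P))), ?_⟩
  intro I hI
  have hterm : ∀ i, 0 ≤ I.ell i * (∫ σ in (0:ℝ)..1, I.k i σ ^ 2) := fun i =>
    mul_nonneg (I.ell_pos i).le (intervalIntegral.integral_nonneg zero_le_one (fun x _ => sq_nonneg _))
  have hinv : ∀ i, 0 < (I.ell i)⁻¹ := fun i => inv_pos.2 (I.ell_pos i)
  have hle : ∀ i, I.ell i * (∫ σ in (0:ℝ)..1, I.k i σ ^ 2) + I.ell i + (I.ell i)⁻¹ ≤ P := by
    intro i
    refine le_trans ?_ (hI.trans hMP)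
    unfold Init.size
    exact Finset.single_le_sum (f := fun i => I.ell i * (∫ σ in (0:ℝ)..1, I.k i σ ^ 2) + I.ell i + (I.ell i)⁻¹)
      (fun j _ => by have := hterm j; have := hinv j; have := I.ell_pos j; positivity) (Finset.mem_univ i)
  have hb : ∀ i, (P⁻¹ ≤ I.ell i ∧ I.ell i ≤ P) := by
    intro i
    have h := hle i
    have h1 := hterm i
    have h2 := hinv i
    have h3 := I.ell_pos i
    refine ⟨?_, by linarith⟩
    rw [inv_le_comm₀ (by positivity) h3]
    linarith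
  refine ⟨hb, ?_⟩
  have e : DG I.ell (g0I I) = ofC (mkG (fun i x => Real.sqrt (I.ell i) * I.k i x) (k_contOn I))
      - ofC (zref I.ell) := by
    rw [← map_sub, ← DC_g0I]; rfl
  rw [e]
  refine (norm_sub_le _ _).trans (add_le_add ?_ ?_)
  · apply Real.le_sqrt_of_sq_le
    rw [ec6_norm_sq]
    have : ∀ i, ∫ x : unitInterval, (mkG (fun i x => Real.sqrt (I.ell i) * I.k i x) (k_contOn I)) (i, x) ^ 2
        = I.ell i * (∫ σ in (0:ℝ)..1, I.k i σ ^ 2) := by
      intro i
      simp only [mkG_apply]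
      rw [ec6_int_univ (fun x => (Real.sqrt (I.ell i) * I.k i x) ^ 2)]
      rw [← intervalIntegral.integral_const_mul]
      refine intervalIntegral.integral_congr fun x _ => ?_
      simp only [mul_pow, Real.sq_sqrt (I.ell_pos i).le]
    simp only [this]
    refine le_trans ?_ (hI.trans hMP)
    unfold Init.size
    refine Finset.sum_le_sum fun i _ => ?_
    have := hinv i; have := I.ell_pos i
    linarith
  · refine (ofC.le_opNorm _).trans (mul_le_mul_of_nonneg_left ?_ (norm_nonneg _))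
    unfold zref
    refine ((kapG chG1).le_opNorm _).trans (mul_le_mul_of_nonneg_left ?_ (norm_nonneg _))
    rw [pi_norm_le_iff_of_nonneg (by positivity)]
    intro i
    have hl := I.ell_pos i
    have hs : 0 < Real.sqrt (I.ell i) := Real.sqrt_pos.2 hl
    have hss : Real.sqrt (I.ell i) * Real.sqrt (I.ell i) = I.ell i := Real.mul_self_sqrt hl.le
    have h1 : (Real.sqrt (I.ell i))⁻¹ ≤ 1 + P := by
      have h2 : (I.ell i)⁻¹ ≤ P := by
        rw [inv_le_comm₀ hl (by positivity)]; exact (hb i).1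
      have h3 : (I.ell i)⁻¹ = (Real.sqrt (I.ell i))⁻¹ * (Real.sqrt (I.ell i))⁻¹ := by
        rw [← mul_inv, hss]
      nlinarith [sq_nonneg ((Real.sqrt (I.ell i))⁻¹ - 1), inv_pos.2 hs]
    have hbb : |bb i| ≤ 2 := by
      have hpi := Real.pi_pos
      have hpi4 := Real.pi_le_four
      fin_cases i
      · show |Real.pi / 3| ≤ 2
        rw [abs_of_pos (by positivity)]; linarith
      · show |-(Real.pi / 3)| ≤ 2
        rw [abs_neg, abs_of_pos (by positivity)]; linarith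
      · show |(0:ℝ)| ≤ 2
        simp
    rw [Real.norm_eq_abs, abs_div, div_eq_mul_inv, abs_of_pos hs]
    exact mul_le_mul hbb h1 (inv_pos.2 hs).le (by norm_num)

end

end Pool.Agent.Helper15.NF
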