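import Pool.Agent.Helper15.NF.EC6

open MeasureTheory Set Filter Topology

namespace Pool.Agent.Helper15.NF

noncomputable section

/-! ### functions on the graph as functions of real variables -/

theorem EC7_ae_slice {P : Fin 3 × unitInterval → Prop} (h : ∀ᵐ p ∂mu3, P p) (i : Fin 3) :
    ∀ᵐ y : unitInterval, P (i, y) := by
  unfold mu3 at h
  have h1 := Measure.ae_ae_of_ae_prod h
  rw [Measure.ae_count_iff] at h1
  exact h1 i

theorem EC7_ofC_slice (a : CG) (i : Fin 3) :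
    ∀ᵐ y : unitInterval, (ofC a : Fin 3 × unitInterval → ℝ) (i, y) = a (i, y) :=
  EC7_ae_slice (ContinuousMap.coeFn_toLp (μ := mu3) (p := 2) (𝕜 := ℝ) a) i

/-- values along an edge -/
def EC7ED (a : CG) (i : Fin 3) (x : ℝ) : ℝ := a (i, projIcc 0 1 zero_le_one x)

theorem EC7ED_coe (a : CG) (i : Fin 3) (x : unitInterval) : EC7ED a i x = a (i, x) := by
  unfold EC7ED
  rw [projIcc_val]

theorem EC7ED_of_mem (a : CG) (i : Fin 3) {x : ℝ} (hx : x ∈ Icc (0:ℝ) 1) :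
    EC7ED a i x = a (i, ⟨x, hx⟩) := EC7ED_coe a i ⟨x, hx⟩

theorem EC7ED_cont (a : CG) (i : Fin 3) : Continuous (EC7ED a i) := by
  unfold EC7ED
  exact a.continuous.comp (by fun_prop)

theorem EC7ED_add (a b : CG) (i : Fin 3) (x : ℝ) : EC7ED (a + b) i x = EC7ED a i x + EC7ED b i x := rfl
theorem EC7ED_sub (a b : CG) (i : Fin 3) (x : ℝ) : EC7ED (a - b) i x = EC7ED a i x - EC7ED b i x := rfl
theorem EC7ED_mul (a b : CG) (i : Fin 3) (x : ℝ) : EC7ED (a * b) i x = EC7ED a i x * EC7ED b i x := rfl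
theorem EC7ED_neg (a : CG) (i : Fin 3) (x : ℝ) : EC7ED (-a) i x = -EC7ED a i x := rfl
theorem EC7ED_one (i : Fin 3) (x : ℝ) : EC7ED 1 i x = 1 := rfl
theorem EC7ED_kap (a : CG) (c : R3) (i : Fin 3) (x : ℝ) : EC7ED (kapG a c) i x = c i * EC7ED a i x := by
  unfold EC7ED
  rw [kapG_apply]

theorem EC7ED_joint {s : Set ℝ} {F : ℝ → CG} (hF : ContinuousOn F s) (i : Fin 3) :
    ContinuousOn (fun p : ℝ × ℝ => EC7ED (F p.1) i p.2) (s ×ˢ Icc 0 1) := by
  unfold EC7ED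
  have h1 : ContinuousOn (fun p : ℝ × ℝ => (F p.1, ((i, projIcc 0 1 zero_le_one p.2) :
      Fin 3 × unitInterval))) (s ×ˢ Icc 0 1) := by
    apply ContinuousOn.prodMk
    · exact hF.comp continuousOn_fst (fun p hp => hp.1)
    · exact (by fun_prop : Continuous (fun p : ℝ × ℝ => ((i, projIcc 0 1 zero_le_one p.2) :
        Fin 3 × unitInterval))).continuousOn
  exact (ContinuousEval.continuous_eval (F := CG)).comp_continuousOn h1

theorem EC7_V2 (a b : CG) (i : Fin 3) (x : unitInterval) :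
    V2 (ofC a) (ofC b) (i, x) = ∫ y in (0:ℝ)..x, EC7ED a i y * EC7ED b i y := by
  rw [V2_apply, ← EA1_integral_Iic]
  apply integral_congr_ae
  have h1 := ae_restrict_of_ae (s := Iic x) (EC7_ofC_slice a i)
  have h2 := ae_restrict_of_ae (s := Iic x) (EC7_ofC_slice b i)
  filter_upwards [h1, h2] with y h1 h2
  rw [h1, h2, EC7ED_coe, EC7ED_coe]

theorem EC7_Vg (a : CG) (i : Fin 3) (x : unitInterval) :
    Vg (ofC a) (i, x) = ∫ y in (0:ℝ)..x, EC7ED a i y := by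
  rw [Vg_apply, ← EA1_integral_Iic]
  apply integral_congr_ae
  have h1 := ae_restrict_of_ae (s := Iic x) (EC7_ofC_slice a i)
  filter_upwards [h1] with y h1
  rw [h1, EC7ED_coe]

theorem EC7_Vg0 (g : HG) (i : Fin 3) : Vg g (i, 0) = 0 := by
  rw [Vg_apply]
  have h : (Iic (0 : unitInterval)) = {0} := by
    ext x
    simp only [mem_Iic, mem_singleton_iff]
    exact ⟨fun h => le_antisymm h x.2.1, fun h => h.le⟩
  rw [h]
  simp

/-- `a'` is the derivative of `a` along the edges -/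
def EC7XD (a a' : CG) : Prop :=
  ∀ i, ∀ x ∈ Icc (0:ℝ) 1, HasDerivWithinAt (EC7ED a i) (EC7ED a' i x) (Icc 0 1) x

theorem EC7XD.add {a a' b b' : CG} (h : EC7XD a a') (h' : EC7XD b b') : EC7XD (a + b) (a' + b') :=
  fun i x hx => (h i x hx).add (h' i x hx)

theorem EC7XD.sub {a a' b b' : CG} (h : EC7XD a a') (h' : EC7XD b b') : EC7XD (a - b) (a' - b') :=
  fun i x hx => (h i x hx).sub (h' i x hx)

theorem EC7XD.neg {a a' : CG} (h : EC7XD a a') : EC7XD (-a) (-a') :=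
  fun i x hx => (h i x hx).neg

theorem EC7XD.mul {a a' b b' : CG} (h : EC7XD a a') (h' : EC7XD b b') : EC7XD (a * b) (a' * b + a * b') :=
  fun i x hx => (h i x hx).mul (h' i x hx)

theorem EC7XD.kap {a a' : CG} (h : EC7XD a a') (c : R3) : EC7XD (kapG a c) (kapG a' c) := by
  intro i x hx
  have h1 := (h i x hx).const_mul (c i)
  rw [EC7ED_kap]
  exact h1.congr (fun y _ => EC7ED_kap a c i y) (EC7ED_kap a c i x)

theorem EC7XD_lift {f f' : ℝ → ℝ} (hf : Continuous f) (hf' : Continuous f')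
    (h : ∀ x, HasDerivAt f (f' x) x) : EC7XD (liftG f hf) (liftG f' hf') := by
  intro i x hx
  have e : ∀ y ∈ Icc (0:ℝ) 1, EC7ED (liftG f hf) i y = f y := by
    intro y hy
    rw [EC7ED_of_mem _ _ hy]
    rfl
  have e' : EC7ED (liftG f' hf') i x = f' x := by
    rw [EC7ED_of_mem _ _ hx]
    rfl
  rw [e']
  exact (h x).hasDerivWithinAt.congr e (e x hx)

theorem EC7XD_one : EC7XD 1 0 := by
  intro i x hx
  exact (hasDerivWithinAt_const x (Icc 0 1) (1:ℝ))

theorem EC7XD_const (c : R3) : EC7XD (kapG 1 c) 0 := by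
  have := EC7XD_one.kap c
  have e : kapG 0 c = 0 := by
    ext p
    obtain ⟨i, x⟩ := p
    rw [kapG_apply]
    simp
  rwa [e] at this

theorem EC7XD_int {a b : CG} (h : ∀ i (x : unitInterval), a (i, x) = ∫ y in (0:ℝ)..x, EC7ED b i y) :
    EC7XD a b := by
  intro i x hx
  have e : ∀ y ∈ Icc (0:ℝ) 1, EC7ED a i y = ∫ u in (0:ℝ)..y, EC7ED b i u := by
    intro y hy
    rw [EC7ED_of_mem _ _ hy]
    exact h i ⟨y, hy⟩
  have h1 : HasDerivAt (fun y => ∫ u in (0:ℝ)..y, EC7ED b i u) (EC7ED b i x) x :=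
    intervalIntegral.integral_hasDerivAt_right ((EC7ED_cont b i).intervalIntegrable _ _)
      ((EC7ED_cont b i).stronglyMeasurableAtFilter _ _) (EC7ED_cont b i).continuousAt
  exact h1.hasDerivWithinAt.congr e (e x hx)

theorem EC7XD_Vg (a : CG) : EC7XD (Vg (ofC a)) a := EC7XD_int (EC7_Vg a)

theorem EC7XD_V2 (a b : CG) : EC7XD (V2 (ofC a) (ofC b)) (a * b) := EC7XD_int (EC7_V2 a b)

theorem EC7XD.inv {a a' b : CG} (h : EC7XD a a') (hb : b * a = 1) : EC7XD b (-(b * b * a')) := by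
  intro i x hx
  have hab : ∀ y, EC7ED b i y * EC7ED a i y = 1 := by
    intro y
    rw [← EC7ED_mul, hb, EC7ED_one]
  have hne : ∀ y, EC7ED a i y ≠ 0 := fun y h0 => by
    have := hab y
    rw [h0, mul_zero] at this
    exact zero_ne_one this
  have hinv : ∀ y, EC7ED b i y = (EC7ED a i y)⁻¹ := fun y => eq_inv_of_mul_eq_one_left (hab y)
  have h1 := (h i x hx).fun_inv (hne x)
  have e : EC7ED (-(b * b * a')) i x = -EC7ED a' i x / EC7ED a i x ^ 2 := by
    rw [EC7ED_neg, EC7ED_mul, EC7ED_mul, hinv]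
    field_simp
  rw [e]
  exact h1.congr (fun y _ => hinv y) (hinv x)

/-! ### the gauge function -/

theorem EC7_chz_deriv (x : ℝ) : HasDerivAt chz (deriv chz x) x :=
  ((chz_contDiff 1).differentiable (by norm_num)).differentiableAt.hasDerivAt

theorem EC7_chz1_deriv (x : ℝ) : HasDerivAt (deriv chz) (deriv (deriv chz) x) x :=
  ((chz1_contDiff 1).differentiable (by norm_num)).differentiableAt.hasDerivAt

theorem EC7_chz2_contDiff (n : ℕ) : ContDiff ℝ n (deriv (deriv chz)) := by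
  have h := chz1_contDiff (n + 1)
  exact ((contDiff_succ_iff_deriv (n := n)).1 (by exact_mod_cast h)).2.2

theorem EC7_chz3_cont : Continuous (deriv (deriv (deriv chz))) :=
  (EC7_chz2_contDiff 1).continuous_deriv le_rfl

theorem EC7_chz2_deriv (x : ℝ) :
    HasDerivAt (deriv (deriv chz)) (deriv (deriv (deriv chz)) x) x :=
  ((EC7_chz2_contDiff 1).differentiable (by norm_num)).differentiableAt.hasDerivAt

theorem EC7_chz_zero {x : ℝ} (hx : x ≤ 1 / 3) : chz x = 0 := by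
  unfold chz
  exact Real.smoothTransition.zero_of_nonpos (by linarith)

theorem EC7_chz_one {x : ℝ} (hx : 2 / 3 ≤ x) : chz x = 1 := by
  unfold chz
  exact Real.smoothTransition.one_of_one_le (by linarith)

theorem EC7_chz1_lt {x : ℝ} (hx : x < 1 / 3) : deriv chz x = 0 := by
  have h : chz =ᶠ[𝓝 x] fun _ => (0:ℝ) := by
    filter_upwards [Iio_mem_nhds hx] with y hy
    exact EC7_chz_zero (le_of_lt hy)
  rw [h.deriv_eq]
  simp

theorem EC7_chz1_gt {x : ℝ} (hx : 2 / 3 < x) : deriv chz x = 0 := by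
  have h : chz =ᶠ[𝓝 x] fun _ => (1:ℝ) := by
    filter_upwards [Ioi_mem_nhds hx] with y hy
    exact EC7_chz_one (le_of_lt hy)
  rw [h.deriv_eq]
  simp

def EC7chG3 : CG := liftG (deriv (deriv (deriv chz))) EC7_chz3_cont

theorem EC7XD_ch0 : EC7XD chG0 chG1 := EC7XD_lift _ _ EC7_chz_deriv
theorem EC7XD_ch1 : EC7XD chG1 chG2 := EC7XD_lift _ _ EC7_chz1_deriv
theorem EC7XD_ch2 : EC7XD chG2 EC7chG3 := EC7XD_lift _ _ EC7_chz2_deriv

theorem EC7ED_ch0 (i : Fin 3) {x : ℝ} (hx : x ∈ Icc (0:ℝ) 1) : EC7ED chG0 i x = chz x := by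
  rw [EC7ED_of_mem _ _ hx]
  rfl
theorem EC7ED_ch1 (i : Fin 3) {x : ℝ} (hx : x ∈ Icc (0:ℝ) 1) : EC7ED chG1 i x = deriv chz x := by
  rw [EC7ED_of_mem _ _ hx]
  rfl
theorem EC7ED_ch2 (i : Fin 3) {x : ℝ} (hx : x ∈ Icc (0:ℝ) 1) :
    EC7ED chG2 i x = deriv (deriv chz) x := by
  rw [EC7ED_of_mem _ _ hx]
  rfl

/-- derivative of the solution along the edges -/
theorem EC7XD_DC (L : R3) (a : CG) : EC7XD (DC L (ofC a)) (-(kapG 1 L * a)) := by
  intro i x hx
  have h1 := ((EC7XD_Vg a) i x hx).const_mul (L i)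
  have h2 := h1.const_sub (Real.sqrt (L i) * trG L (ofC a) i)
  have e : ∀ y, EC7ED (DC L (ofC a)) i y =
      Real.sqrt (L i) * trG L (ofC a) i - L i * EC7ED (Vg (ofC a)) i y := by
    intro y
    unfold EC7ED
    rw [DC_apply]
  have e' : EC7ED (-(kapG 1 L * a)) i x = -(L i * EC7ED a i x) := by
    rw [EC7ED_neg, EC7ED_mul, EC7ED_kap, EC7ED_one, mul_one]
  rw [e']
  exact h2.congr (fun y _ => e y) (e x)

theorem EC7XD_EE (L : R3) (a : CG) : EC7XD (EE L (ofC a)) (kapG 1 L * a) := by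
  intro i x hx
  have h1 := ((EC7XD_Vg a) i x hx).const_mul (L i)
  have h2 := h1.sub_const (Real.sqrt (L i) * Real.sqrt (L 0) * Vg (ofC a) (0, 1))
  have e : ∀ y, EC7ED (EE L (ofC a)) i y =
      L i * EC7ED (Vg (ofC a)) i y - Real.sqrt (L i) * Real.sqrt (L 0) * Vg (ofC a) (0, 1) := by
    intro y
    unfold EC7ED
    rw [EE_apply]
  have e' : EC7ED (kapG 1 L * a) i x = L i * EC7ED a i x := by
    rw [EC7ED_mul, EC7ED_kap, EC7ED_one, mul_one]
  rw [e']
  exact h2.congr (fun y _ => e y) (e x)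

theorem EC7XD_zref {L : R3} (hL : ∀ i, 0 < L i) : EC7XD (zref L) (kapG 1 L * z1ref L) := by
  have h := EC7XD_ch1.kap (fun i => bb i / Real.sqrt (L i))
  have e : kapG chG2 (fun i => bb i / Real.sqrt (L i)) = kapG 1 L * z1ref L := by
    ext p
    obtain ⟨i, x⟩ := p
    rw [ContinuousMap.mul_apply, kapG_apply, kapG_apply]
    unfold z1ref
    rw [kapG_apply]
    have h1 := hL i
    have h2 : 0 < Real.sqrt (L i) := Real.sqrt_pos.2 h1
    simp only [ContinuousMap.one_apply, mul_one]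
    field_simp
  rw [← e]
  exact h

theorem EC7XD_z1ref (L : R3) :
    EC7XD (z1ref L) (kapG EC7chG3 (fun i => bb i / (L i * Real.sqrt (L i)))) :=
  EC7XD_ch2.kap _

/-! ### the inverse gauge factor -/

theorem EC7_psi_mul {e : R3} (h : ∀ x, 1 / 2 ≤ (1 + kapG chG1 e) x) :
    PsiS e * (1 + kapG chG1 e) = 1 := by
  unfold PsiS
  apply Ring.inverse_mul_cancel
  rw [ContinuousMap.isUnit_iff_forall_ne_zero]
  intro x h0
  have := h x
  rw [h0] at this
  norm_num at this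

theorem EC7_unit {e : R3} (h : ∀ x, 1 / 2 ≤ (1 + kapG chG1 e) x) : IsUnit (1 + kapG chG1 e) := by
  rw [ContinuousMap.isUnit_iff_forall_ne_zero]
  intro x h0
  have := h x
  rw [h0] at this
  norm_num at this

theorem EC7_psi_contDiffAt {e : R3} (h : ∀ x, 1 / 2 ≤ (1 + kapG chG1 e) x) (n : ℕ) :
    ContDiffAt ℝ n PsiS e := by
  obtain ⟨u, hu⟩ := EC7_unit h
  have h1 : ContDiffAt ℝ n Ring.inverse (1 + kapG chG1 e) := by
    rw [← hu]
    exact contDiffAt_ringInverse ℝ u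
  have h2 : ContDiffAt ℝ n (fun e : R3 => 1 + kapG chG1 e) e :=
    contDiffAt_const.add (kapG chG1).contDiff.contDiffAt
  exact h1.comp e h2

/-! ### time dependent functions, differentiable along the edges -/

def EC7C1G (τ : ℝ) (F : ℝ → CG) : Prop := ContinuousOn F (Ioo 0 τ) ∧
  ∃ F' : ℝ → CG, ContinuousOn F' (Ioo 0 τ) ∧ ∀ t ∈ Ioo 0 τ, EC7XD (F t) (F' t)

theorem EC7C1G.add {τ : ℝ} {F H : ℝ → CG} (h : EC7C1G τ F) (h' : EC7C1G τ H) :
    EC7C1G τ (fun t => F t + H t) := by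
  obtain ⟨h1, F', h2, h3⟩ := h
  obtain ⟨k1, H', k2, k3⟩ := h'
  exact ⟨h1.add k1, fun t => F' t + H' t, h2.add k2, fun t ht => (h3 t ht).add (k3 t ht)⟩

theorem EC7C1G.sub {τ : ℝ} {F H : ℝ → CG} (h : EC7C1G τ F) (h' : EC7C1G τ H) :
    EC7C1G τ (fun t => F t - H t) := by
  obtain ⟨h1, F', h2, h3⟩ := h
  obtain ⟨k1, H', k2, k3⟩ := h'
  exact ⟨h1.sub k1, fun t => F' t - H' t, h2.sub k2, fun t ht => (h3 t ht).sub (k3 t ht)⟩

theorem EC7C1G.mul {τ : ℝ} {F H : ℝ → CG} (h : EC7C1G τ F) (h' : EC7C1G τ H) :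
    EC7C1G τ (fun t => F t * H t) := by
  obtain ⟨h1, F', h2, h3⟩ := h
  obtain ⟨k1, H', k2, k3⟩ := h'
  exact ⟨h1.mul k1, fun t => F' t * H t + F t * H' t, (h2.mul k1).add (h1.mul k2),
    fun t ht => (h3 t ht).mul (k3 t ht)⟩

theorem EC7C1G.const {τ : ℝ} {a a' : CG} (h : EC7XD a a') : EC7C1G τ (fun _ => a) :=
  ⟨continuousOn_const, fun _ => a', continuousOn_const, fun _ _ => h⟩

theorem EC7C1G.kap {τ : ℝ} {a a' : CG} (h : EC7XD a a') {c : ℝ → R3} (hc : ContinuousOn c (Ioo 0 τ)) :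
    EC7C1G τ (fun t => kapG a (c t)) :=
  ⟨(kapG a).continuous.comp_continuousOn hc, fun t => kapG a' (c t),
    (kapG a').continuous.comp_continuousOn hc, fun t _ => h.kap (c t)⟩

theorem EC7C1G.inv {τ : ℝ} {F H : ℝ → CG} (h : EC7C1G τ F) (hH : ContinuousOn H (Ioo 0 τ))
    (hi : ∀ s ∈ Ioo 0 τ, H s * F s = 1) : EC7C1G τ H := by
  obtain ⟨h1, F', h2, h3⟩ := h
  exact ⟨hH, fun t => -(H t * H t * F' t), ((hH.mul hH).mul h2).neg,
    fun t ht => (h3 t ht).inv (hi t ht)⟩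

theorem EC7C1G.V2 {τ : ℝ} {F H : ℝ → CG} (h : ContinuousOn F (Ioo 0 τ))
    (h' : ContinuousOn H (Ioo 0 τ)) : EC7C1G τ (fun t => NF.V2 (ofC (F t)) (ofC (H t))) := by
  refine ⟨?_, fun t => F t * H t, h.mul h', fun t _ => EC7XD_V2 _ _⟩
  exact (NF.V2.continuous.comp_continuousOn (ofC.continuous.comp_continuousOn h)).clm_apply
    (ofC.continuous.comp_continuousOn h')

theorem EC7C1G.EE {τ : ℝ} {F : ℝ → CG} (L : R3) (h : ContinuousOn F (Ioo 0 τ)) :
    EC7C1G τ (fun t => NF.EE L (ofC (F t))) :=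
  ⟨(NF.EE L).continuous.comp_continuousOn (ofC.continuous.comp_continuousOn h),
    fun t => kapG 1 L * F t, continuousOn_const.mul h, fun t _ => EC7XD_EE L _⟩

/-! ### the classical version of `GS` -/

/-- the same formula as `GS` for continuous functions -/
def EC7GC (L e de : R3) (zc dzc : CG) : CG :=
  ((1 + kapG chG1 e) * (1 + kapG chG1 e)) *
    (PsiS e * PsiS e * z1ref L
      - PsiS e * PsiS e * PsiS e * kapG chG2 (divL L e) * zc
      + (kapG (1 - chG0) (LamS L e de (ofC zc)) + QS e (ofC zc)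
          - kapG chG0 (ev1 (QS e (ofC zc)))) * PsiS e * zc
      - EE L (ofC dzc))

theorem EC7_ofC_GC (L e de : R3) (zc dzc : CG) :
    ofC (EC7GC L e de zc dzc) = GS L e de (ofC zc) (ofC dzc) := by
  unfold EC7GC GS
  rw [mulG_ofC, mulG_ofC, mulG_ofC, ← map_sub, ← map_add, ← map_sub, mulG_ofC]

theorem EC7_QS_ofC (e : R3) (zc : CG) : QS e (ofC zc) = V2 (ofC (PsiS e * zc)) (ofC zc) := by
  unfold QS
  rw [mulG_ofC]

section Main

variable {Lx : ℝ} (I : Init Lx) {τ : ℝ} (S : HSol I.ell (g0I I) τ)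

theorem EC7_dz_smooth (n : ℕ) : ContDiffOn ℝ n S.dz (Ioo 0 τ) := by
  have h := (contDiffOn_succ_iff_deriv_of_isOpen (n := n) isOpen_Ioo).1
    (by exact_mod_cast S.z_smooth (n + 1))
  exact h.2.2.congr (fun t ht => (S.z_t t ht).deriv.symm)

theorem EC7_de_smooth (n : ℕ) : ContDiffOn ℝ n S.de (Ioo 0 τ) := by
  have h := (contDiffOn_succ_iff_deriv_of_isOpen (n := n) isOpen_Ioo).1
    (by exact_mod_cast S.e_smooth (n + 1))
  exact h.2.2.congr (fun t ht => (S.e_t t ht).deriv.symm)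

theorem EC7_psi_smooth (n : ℕ) : ContDiffOn ℝ n (fun t => PsiS (S.e t)) (Ioo 0 τ) := by
  intro t ht
  exact ((EC7_psi_contDiffAt (S.adm t ht) n).comp t
    ((S.e_smooth n).contDiffAt (isOpen_Ioo.mem_nhds ht))).contDiffWithinAt

theorem EC7_QS_smooth (n : ℕ) : ContDiffOn ℝ n (fun t => QS (S.e t) (S.z t)) (Ioo 0 τ) := by
  unfold QS
  have h1 := EC7_psi_smooth I S n
  have h2 := S.z_smooth n
  have h3 : ContDiffOn ℝ n (fun t => mulG (PsiS (S.e t)) (S.z t)) (Ioo 0 τ) :=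
    (mulG.contDiff.comp_contDiffOn h1).clm_apply h2
  exact (V2.contDiff.comp_contDiffOn h3).clm_apply h2

theorem EC7_Lam_smooth (n : ℕ) :
    ContDiffOn ℝ n (fun t => LamS I.ell (S.e t) (S.de t) (S.z t)) (Ioo 0 τ) := by
  rw [contDiffOn_pi]
  intro i
  have h1 : ContDiffOn ℝ n (fun t => S.de t i) (Ioo 0 τ) :=
    (contDiffOn_pi.1 (EC7_de_smooth I S n)) i
  have h2 : ContDiffOn ℝ n (fun t => evG (i, 1) (QS (S.e t) (S.z t))) (Ioo 0 τ) :=
    (evG (i, 1)).contDiff.comp_contDiffOn (EC7_QS_smooth I S n)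
  have h3 : ContDiffOn ℝ n (fun t => -(I.ell i * S.de t i) - evG (i, 1) (QS (S.e t) (S.z t)))
      (Ioo 0 τ) := ((contDiffOn_const.mul h1).neg).sub h2
  exact h3.congr (fun t _ => by rw [evG_apply]; rfl)

/-- `g` as a function of time -/
def EC7Gt (t : ℝ) : HG := GS I.ell (S.e t) (S.de t) (S.z t) (S.dz t)

theorem EC7_G_smooth (n : ℕ) : ContDiffOn ℝ n (EC7Gt I S) (Ioo 0 τ) := by
  have hpsi := EC7_psi_smooth I S n
  have hz := S.z_smooth n
  have hdz := EC7_dz_smooth I S n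
  have he := S.e_smooth n
  have hQ := EC7_QS_smooth I S n
  have hLam := EC7_Lam_smooth I S n
  have hP : ContDiffOn ℝ n (fun t => 1 + kapG chG1 (S.e t)) (Ioo 0 τ) :=
    contDiffOn_const.add ((kapG chG1).contDiff.comp_contDiffOn he)
  have m1 : ContDiffOn ℝ n (fun t => mulG (PsiS (S.e t) * PsiS (S.e t)) (ofC (z1ref I.ell)))
      (Ioo 0 τ) := (mulG.contDiff.comp_contDiffOn (hpsi.mul hpsi)).clm_apply contDiffOn_const
  have hd : ContDiffOn ℝ n (fun t => kapG chG2 (divL I.ell (S.e t))) (Ioo 0 τ) :=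
    (kapG chG2).contDiff.comp_contDiffOn ((divL I.ell).contDiff.comp_contDiffOn he)
  have m2 : ContDiffOn ℝ n (fun t => mulG (PsiS (S.e t) * PsiS (S.e t) * PsiS (S.e t) *
      kapG chG2 (divL I.ell (S.e t))) (S.z t)) (Ioo 0 τ) :=
    (mulG.contDiff.comp_contDiffOn (((hpsi.mul hpsi).mul hpsi).mul hd)).clm_apply hz
  have m3 : ContDiffOn ℝ n (fun t => mulG ((kapG (1 - chG0) (LamS I.ell (S.e t) (S.de t) (S.z t))
      + QS (S.e t) (S.z t) - kapG chG0 (ev1 (QS (S.e t) (S.z t)))) * PsiS (S.e t)) (S.z t))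
      (Ioo 0 τ) := by
    refine (mulG.contDiff.comp_contDiffOn (ContDiffOn.mul (ContDiffOn.sub (ContDiffOn.add ?_ hQ) ?_)
      hpsi)).clm_apply hz
    · exact (kapG (1 - chG0)).contDiff.comp_contDiffOn hLam
    · exact (kapG chG0).contDiff.comp_contDiffOn (ev1.contDiff.comp_contDiffOn hQ)
  have m4 : ContDiffOn ℝ n (fun t => ofC (EE I.ell (S.dz t))) (Ioo 0 τ) :=
    ofC.contDiff.comp_contDiffOn ((EE I.ell).contDiff.comp_contDiffOn hdz)
  exact (mulG.contDiff.comp_contDiffOn (hP.mul hP)).clm_apply (((m1.sub m2).add m3).sub m4)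

/-- continuous version of `z` -/
def EC7zct (t : ℝ) : CG := zref I.ell + DC I.ell (EC7Gt I S t)

theorem EC7_ofC_zct {t : ℝ} (ht : t ∈ Ioo 0 τ) : ofC (EC7zct I S t) = S.z t := by
  unfold EC7zct
  rw [map_add]
  exact (S.z_eq t ht).symm

theorem EC7zct_smooth (n : ℕ) : ContDiffOn ℝ n (EC7zct I S) (Ioo 0 τ) :=
  contDiffOn_const.add ((DC I.ell).contDiff.comp_contDiffOn (EC7_G_smooth I S n))

/-- time derivative of the continuous version of `z` -/
def EC7dzct (t : ℝ) : CG := deriv (EC7zct I S) t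

theorem EC7dzct_smooth (n : ℕ) : ContDiffOn ℝ n (EC7dzct I S) (Ioo 0 τ) :=
  ((contDiffOn_succ_iff_deriv_of_isOpen (n := n) isOpen_Ioo).1
    (by exact_mod_cast EC7zct_smooth I S (n + 1))).2.2

theorem EC7zct_t {t : ℝ} (ht : t ∈ Ioo 0 τ) : HasDerivAt (EC7zct I S) (EC7dzct I S t) t :=
  (((EC7zct_smooth I S 1).differentiableOn (by norm_num)).differentiableAt
    (isOpen_Ioo.mem_nhds ht)).hasDerivAt

theorem EC7_ofC_dzct {t : ℝ} (ht : t ∈ Ioo 0 τ) : ofC (EC7dzct I S t) = S.dz t := by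
  have h1 : HasDerivAt (fun s => ofC (EC7zct I S s)) (ofC (EC7dzct I S t)) t :=
    ofC.hasFDerivAt.comp_hasDerivAt t (EC7zct_t I S ht)
  have h2 : (fun s => ofC (EC7zct I S s)) =ᶠ[𝓝 t] S.z := by
    filter_upwards [isOpen_Ioo.mem_nhds ht] with s hs
    exact EC7_ofC_zct I S hs
  exact (h1.congr_of_eventuallyEq h2.symm).unique (S.z_t t ht)

/-- continuous version of `g` -/
def EC7gct (t : ℝ) : CG := EC7GC I.ell (S.e t) (S.de t) (EC7zct I S t) (EC7dzct I S t)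

theorem EC7_ofC_gct {t : ℝ} (ht : t ∈ Ioo 0 τ) : ofC (EC7gct I S t) = EC7Gt I S t := by
  unfold EC7gct EC7Gt
  rw [EC7_ofC_GC, EC7_ofC_zct I S ht, EC7_ofC_dzct I S ht]

theorem EC7gct_C1G : EC7C1G τ (EC7gct I S) := by
  have he := (S.e_smooth 0).continuousOn
  have hzc : ContinuousOn (EC7zct I S) (Ioo 0 τ) := (EC7zct_smooth I S 0).continuousOn
  have hdzc : ContinuousOn (EC7dzct I S) (Ioo 0 τ) := (EC7dzct_smooth I S 0).continuousOn
  have hpsi : ContinuousOn (fun t => PsiS (S.e t)) (Ioo 0 τ) := (EC7_psi_smooth I S 0).continuousOn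
  have hLam : ContinuousOn (fun t => LamS I.ell (S.e t) (S.de t) (ofC (EC7zct I S t))) (Ioo 0 τ) :=
    ((EC7_Lam_smooth I S 0).continuousOn).congr (fun t ht => by rw [EC7_ofC_zct I S ht])
  have hQ : ContinuousOn (fun t => QS (S.e t) (ofC (EC7zct I S t))) (Ioo 0 τ) :=
    ((EC7_QS_smooth I S 0).continuousOn).congr (fun t ht => by rw [EC7_ofC_zct I S ht])
  have hev : ContinuousOn (fun t => ev1 (QS (S.e t) (ofC (EC7zct I S t)))) (Ioo 0 τ) :=
    ev1.continuous.comp_continuousOn hQ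
  have hdiv : ContinuousOn (fun t => divL I.ell (S.e t)) (Ioo 0 τ) :=
    (divL I.ell).continuous.comp_continuousOn he
  have c1 : EC7C1G τ (fun t => 1 + kapG chG1 (S.e t)) :=
    (EC7C1G.const EC7XD_one).add (EC7C1G.kap EC7XD_ch1 he)
  have cpsi : EC7C1G τ (fun t => PsiS (S.e t)) :=
    c1.inv hpsi (fun t ht => EC7_psi_mul (S.adm t ht))
  have cz1 : EC7C1G τ (fun _ => z1ref I.ell) := EC7C1G.const (EC7XD_z1ref _)
  have cd : EC7C1G τ (fun t => kapG chG2 (divL I.ell (S.e t))) := EC7C1G.kap EC7XD_ch2 hdiv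
  have cQ : EC7C1G τ (fun t => QS (S.e t) (ofC (EC7zct I S t))) := by
    simp_rw [EC7_QS_ofC]
    exact EC7C1G.V2 (hpsi.mul hzc) hzc
  have cL : EC7C1G τ (fun t => kapG (1 - chG0) (LamS I.ell (S.e t) (S.de t) (ofC (EC7zct I S t)))) :=
    EC7C1G.kap (EC7XD_one.sub EC7XD_ch0) hLam
  have cev : EC7C1G τ (fun t => kapG chG0 (ev1 (QS (S.e t) (ofC (EC7zct I S t))))) :=
    EC7C1G.kap EC7XD_ch0 hev
  have cEE : EC7C1G τ (fun t => EE I.ell (ofC (EC7dzct I S t))) := EC7C1G.EE _ hdzc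
  have hg : ContinuousOn (EC7gct I S) (Ioo 0 τ) := by
    unfold EC7gct EC7GC
    exact (c1.1.mul c1.1).mul (((((hpsi.mul hpsi).mul continuousOn_const).sub
      ((((hpsi.mul hpsi).mul hpsi).mul cd.1).mul hzc)).add
      ((((cL.1.add hQ).sub cev.1).mul hpsi).mul hzc)).sub cEE.1)
  have cz : EC7C1G τ (EC7zct I S) := by
    refine ⟨hzc, fun t => kapG 1 I.ell * z1ref I.ell + -(kapG 1 I.ell * EC7gct I S t),
      continuousOn_const.add ((continuousOn_const.mul hg).neg), fun t ht => ?_⟩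
    have := (EC7XD_zref I.ell_pos).add (EC7XD_DC I.ell (EC7gct I S t))
    rwa [EC7_ofC_gct I S ht] at this
  have := (c1.mul c1).mul (((((cpsi.mul cpsi).mul cz1).sub
      ((((cpsi.mul cpsi).mul cpsi).mul cd).mul cz)).add
      ((((cL.add cQ).sub cev).mul cpsi).mul cz)).sub cEE)
  exact this

theorem EC7zct_XD {t : ℝ} (ht : t ∈ Ioo 0 τ) :
    EC7XD (EC7zct I S t) (kapG 1 I.ell * (z1ref I.ell - EC7gct I S t)) := by
  have := (EC7XD_zref I.ell_pos).add (EC7XD_DC I.ell (EC7gct I S t))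
  rw [EC7_ofC_gct I S ht] at this
  rwa [mul_sub, sub_eq_add_neg]

theorem EC7_sq (i : Fin 3) : 0 < Real.sqrt (I.ell i) := Real.sqrt_pos.2 (I.ell_pos i)

theorem EC7ED_psi {t : ℝ} (ht : t ∈ Ioo 0 τ) (i : Fin 3) {x : ℝ} (hx : x ∈ Icc (0:ℝ) 1) :
    EC7ED (PsiS (S.e t)) i x = (1 + S.e t i * deriv chz x)⁻¹ := by
  have h := EC7_psi_mul (S.adm t ht)
  have h1 : EC7ED (PsiS (S.e t)) i x * (1 + S.e t i * deriv chz x) = 1 := by
    have := congrArg (fun a => EC7ED a i x) h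
    simp only [EC7ED_mul, EC7ED_add, EC7ED_one, EC7ED_kap, EC7ED_ch1 i hx] at this
    exact this
  exact eq_inv_of_mul_eq_one_left h1

theorem EC7_adm {t : ℝ} (ht : t ∈ Ioo 0 τ) (i : Fin 3) (x : ℝ) :
    1 / 2 ≤ 1 + S.e t i * deriv chz x := by
  by_cases hx : x ∈ Icc (0:ℝ) 1
  · have h := S.adm t ht (i, ⟨x, hx⟩)
    rw [ContinuousMap.add_apply, ContinuousMap.one_apply, kapG_apply] at h
    exact h
  · rw [mem_Icc, not_and_or, not_le, not_le] at hx
    rcases hx with hx | hx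
    · rw [EC7_chz1_lt (by linarith)]
      norm_num
    · rw [EC7_chz1_gt (by linarith)]
      norm_num

theorem EC7_z0 (i : Fin 3) (t : ℝ) :
    EC7ED (EC7zct I S t) i 0 = Real.sqrt (I.ell i) * trG I.ell (EC7Gt I S t) i := by
  have h0 : (0:ℝ) ∈ Icc (0:ℝ) 1 := ⟨le_rfl, zero_le_one⟩
  unfold EC7zct
  rw [EC7ED_add]
  have h1 : EC7ED (zref I.ell) i 0 = 0 := by
    unfold zref
    rw [EC7ED_kap, EC7ED_ch1 i h0, EC7_chz1_lt (by norm_num), mul_zero]
  have h2 : EC7ED (DC I.ell (EC7Gt I S t)) i 0 = Real.sqrt (I.ell i) * trG I.ell (EC7Gt I S t) i := by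
    rw [EC7ED_of_mem _ _ h0]
    exact DC_J _ i
  rw [h1, h2, zero_add]

theorem EC7_Lam {t : ℝ} (ht : t ∈ Ioo 0 τ) (i : Fin 3) :
    -(EC7ED (EC7zct I S t) (i + 1) 0 / Real.sqrt (I.ell (i + 1)) -
      EC7ED (EC7zct I S t) (i + 2) 0 / Real.sqrt (I.ell (i + 2))) / Real.sqrt 3 =
      LamS I.ell (S.e t) (S.de t) (S.z t) i := by
  have h := congrFun (S.lam_eq t ht) i
  rw [← h, EC7_z0, EC7_z0]
  have h1 := (EC7_sq I (i + 1)).ne'
  have h2 := (EC7_sq I (i + 2)).ne'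
  have h3 : LAM (trG I.ell (GS I.ell (S.e t) (S.de t) (S.z t) (S.dz t))) i =
    (-(Real.sqrt 3)⁻¹) * (trG I.ell (EC7Gt I S t) (i + 1) - trG I.ell (EC7Gt I S t) (i + 2)) := rfl
  rw [h3, mul_div_cancel_left₀ _ h1, mul_div_cancel_left₀ _ h2]
  field_simp

theorem EC7_Q {t : ℝ} (ht : t ∈ Ioo 0 τ) (i : Fin 3) {x : ℝ} (hx : x ∈ Icc (0:ℝ) 1) :
    EC7ED (QS (S.e t) (S.z t)) i x = I.ell i * ∫ y in (0:ℝ)..x, (1 + S.e t i * deriv chz y)⁻¹ *
      (EC7ED (EC7zct I S t) i y / Real.sqrt (I.ell i)) ^ 2 := by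
  rw [← EC7_ofC_zct I S ht, EC7_QS_ofC, EC7ED_of_mem _ _ hx, EC7_V2, ← intervalIntegral.integral_const_mul]
  apply intervalIntegral.integral_congr
  intro y hy
  have hy1 : y ∈ Icc (0:ℝ) 1 := by
    rw [uIcc_of_le hx.1] at hy
    exact ⟨hy.1, hy.2.trans hx.2⟩
  have h1 := (EC7_sq I i).ne'
  have h2 := Real.sq_sqrt (I.ell_pos i).le
  simp only
  rw [EC7ED_mul, EC7ED_psi I S ht i hy1, div_pow, h2]
  have h3 := (I.ell_pos i).ne'
  field_simp

theorem EC7_LamS (t : ℝ) (i : Fin 3) :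
    LamS I.ell (S.e t) (S.de t) (S.z t) i =
      -(I.ell i * S.de t i) - EC7ED (QS (S.e t) (S.z t)) i 1 := by
  have h1 : (1:ℝ) ∈ Icc (0:ℝ) 1 := ⟨zero_le_one, le_rfl⟩
  rw [EC7ED_of_mem _ _ h1]
  rfl

theorem EC7ED_gct {t : ℝ} (ht : t ∈ Ioo 0 τ) (i : Fin 3) {x : ℝ} (hx : x ∈ Icc (0:ℝ) 1) :
    EC7ED (EC7gct I S t) i x = (1 + S.e t i * deriv chz x) ^ 2 *
      ((1 + S.e t i * deriv chz x)⁻¹ ^ 2 * EC7ED (z1ref I.ell) i x
        - (1 + S.e t i * deriv chz x)⁻¹ ^ 3 * ((I.ell i)⁻¹ * S.e t i * deriv (deriv chz) x) *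
          EC7ED (EC7zct I S t) i x
        + (LamS I.ell (S.e t) (S.de t) (S.z t) i * (1 - chz x) + EC7ED (QS (S.e t) (S.z t)) i x -
          EC7ED (QS (S.e t) (S.z t)) i 1 * chz x) * (1 + S.e t i * deriv chz x)⁻¹ *
          EC7ED (EC7zct I S t) i x
        - EC7ED (EE I.ell (S.dz t)) i x) := by
  have h1 : (1:ℝ) ∈ Icc (0:ℝ) 1 := ⟨zero_le_one, le_rfl⟩
  unfold EC7gct EC7GC
  rw [EC7_ofC_zct I S ht, EC7_ofC_dzct I S ht]
  simp only [EC7ED_mul, EC7ED_sub, EC7ED_add, EC7ED_one, EC7ED_kap, EC7ED_ch1 i hx, EC7ED_ch0 i hx, EC7ED_ch2 i hx,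
    EC7ED_psi I S ht i hx]
  have e1 : divL I.ell (S.e t) i = (I.ell i)⁻¹ * S.e t i := rfl
  have e2 : ev1 (QS (S.e t) (S.z t)) i = EC7ED (QS (S.e t) (S.z t)) i 1 := by
    rw [EC7ED_of_mem _ _ h1]
    exact evG_apply _ _
  rw [e1, e2]
  ring

/-- the angle -/
def EC7Tht (i : Fin 3) (t x : ℝ) : ℝ :=
  bb i * chz x + EC7ED (EE I.ell (S.z t - ofC (zref I.ell))) i x / Real.sqrt (I.ell i)

theorem EC7Tht_cont (i : Fin 3) :
    ContinuousOn (fun p : ℝ × ℝ => EC7Tht I S i p.1 p.2) (Ioo 0 τ ×ˢ Icc 0 1) := by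
  unfold EC7Tht
  have hz : ContinuousOn S.z (Ioo 0 τ) := (S.z_smooth 0).continuousOn
  have h2 : ContinuousOn (fun t => EE I.ell (S.z t - ofC (zref I.ell))) (Ioo 0 τ) :=
    (EE I.ell).continuous.comp_continuousOn (hz.sub continuousOn_const)
  have h3 : Continuous (fun p : ℝ × ℝ => bb i * chz p.2) :=
    continuous_const.mul (chz_cont.comp continuous_snd)
  exact h3.continuousOn.add ((EC7ED_joint h2 i).div_const _)

theorem EC7Tht_x {t : ℝ} (ht : t ∈ Ioo 0 τ) (i : Fin 3) {x : ℝ} (hx : x ∈ Icc (0:ℝ) 1) :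
    HasDerivWithinAt (EC7Tht I S i t) (I.ell i * (EC7ED (EC7zct I S t) i x / Real.sqrt (I.ell i)))
      (Icc 0 1) x := by
  have h1 := ((EC7_chz_deriv x).const_mul (bb i)).hasDerivWithinAt (s := Icc 0 1)
  have h2 := (EC7XD_EE I.ell (EC7zct I S t - zref I.ell)) i x hx
  rw [map_sub, EC7_ofC_zct I S ht] at h2
  have h3 := h1.add (h2.div_const (Real.sqrt (I.ell i)))
  have e : I.ell i * (EC7ED (EC7zct I S t) i x / Real.sqrt (I.ell i)) = bb i * deriv chz x +
      EC7ED (kapG 1 I.ell * (EC7zct I S t - zref I.ell)) i x / Real.sqrt (I.ell i) := by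
    rw [EC7ED_mul, EC7ED_kap, EC7ED_one, EC7ED_sub]
    unfold zref
    rw [EC7ED_kap, EC7ED_ch1 i hx]
    have h4 := (EC7_sq I i).ne'
    have h5 := Real.sq_sqrt (I.ell_pos i).le
    field_simp
    linear_combination (-(bb i * deriv chz x)) * h5
  rw [e]
  exact h3

theorem EC7Tht_t {t : ℝ} (ht : t ∈ Ioo 0 τ) (i : Fin 3) (x : ℝ) :
    HasDerivAt (fun s => EC7Tht I S i s x) (EC7ED (EE I.ell (S.dz t)) i x / Real.sqrt (I.ell i)) t := by
  have h1 := (S.z_t t ht).sub_const (ofC (zref I.ell))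
  have h2 : HasDerivAt (fun s => evG (i, projIcc 0 1 zero_le_one x)
      (EE I.ell (S.z s - ofC (zref I.ell))))
      (evG (i, projIcc 0 1 zero_le_one x) (EE I.ell (S.dz t))) t :=
    ((evG (i, projIcc 0 1 zero_le_one x)).comp (EE I.ell)).hasFDerivAt.comp_hasDerivAt t h1
  simp only [evG_apply] at h2
  exact (h2.div_const (Real.sqrt (I.ell i))).const_add (bb i * chz x)

theorem EC7Tht_eq {t : ℝ} (ht : t ∈ Ioo 0 τ) (i : Fin 3) {x : ℝ} (hx : x ∈ Icc (0:ℝ) 1) :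
    EC7ED (EE I.ell (S.dz t)) i x / Real.sqrt (I.ell i) =
      (1 + S.e t i * deriv chz x)⁻¹ ^ 2 *
          (EC7ED (z1ref I.ell - EC7gct I S t) i x / Real.sqrt (I.ell i))
        - (1 + S.e t i * deriv chz x)⁻¹ ^ 3 * (S.e t i / I.ell i) * deriv (deriv chz) x *
          (EC7ED (EC7zct I S t) i x / Real.sqrt (I.ell i))
        + (-(EC7ED (EC7zct I S t) (i + 1) 0 / Real.sqrt (I.ell (i + 1)) -
          EC7ED (EC7zct I S t) (i + 2) 0 / Real.sqrt (I.ell (i + 2))) / Real.sqrt 3 +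
            I.ell i * S.de t i * chz x
            + I.ell i * ∫ y in (0:ℝ)..x, (1 + S.e t i * deriv chz y)⁻¹ *
              (EC7ED (EC7zct I S t) i y / Real.sqrt (I.ell i)) ^ 2)
          * ((1 + S.e t i * deriv chz x)⁻¹ * (EC7ED (EC7zct I S t) i x / Real.sqrt (I.ell i))) := by
  rw [EC7_Lam I S ht, ← EC7_Q I S ht i hx, EC7ED_sub, EC7ED_gct I S ht i hx]
  have h1 := (EC7_sq I i).ne'
  have h2 := (I.ell_pos i).ne'
  have h3 : (1 + S.e t i * deriv chz x) ≠ 0 := by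
    have := EC7_adm I S ht i x
    intro h0
    rw [h0] at this
    norm_num at this
  have h4 := EC7_LamS I S t i
  have h5 : I.ell i * S.de t i = -LamS I.ell (S.e t) (S.de t) (S.z t) i -
      EC7ED (QS (S.e t) (S.z t)) i 1 := by
    rw [h4]
    ring
  rw [h5]
  field_simp
  ring

end Main

/-! ### initial values -/

theorem EC7_norm_sq (a : CG) : ‖ofC a‖ ^ 2 = ∑ i, ∫ y in (0:ℝ)..1, (EC7ED a i y) ^ 2 := by
  rw [← real_inner_self_eq_norm_sq, inner_HG]
  apply Finset.sum_congr rfl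
  intro i _
  have h := EA1_integral_Iic (fun y => (EC7ED a i y) ^ 2) 1
  rw [EA1_Iic_one, Measure.restrict_univ] at h
  have h1 : (((1 : unitInterval) : ℝ)) = 1 := rfl
  rw [h1] at h
  rw [← h]
  apply integral_congr_ae
  filter_upwards [EC7_ofC_slice a i] with y hy
  rw [hy, EC7ED_coe]
  ring

theorem EC7_const {f : ℝ → ℝ} (h : ∀ x ∈ Icc (0:ℝ) 1, HasDerivWithinAt f 0 (Icc 0 1) x) :
    ∀ x ∈ Icc (0:ℝ) 1, f x = f 0 :=
  constant_of_has_deriv_right_zero (fun x hx => (h x hx).continuousWithinAt)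
    (fun x hx => (h x (Ico_subset_Icc_self hx)).mono_of_mem_nhdsWithin
      (Icc_mem_nhdsGE_of_mem hx))

theorem EC7_th0 {Lx : ℝ} (I : Init Lx) (i : Fin 3) {x : ℝ} (hx : x ∈ Icc (0:ℝ) 1) :
    bb i * chz x + EC7ED (EE I.ell (DG I.ell (g0I I))) i x / Real.sqrt (I.ell i) = I.th i x := by
  have h0 : (0:ℝ) ∈ Icc (0:ℝ) 1 := ⟨le_rfl, zero_le_one⟩
  have h1 : (1:ℝ) ∈ Icc (0:ℝ) 1 := ⟨zero_le_one, le_rfl⟩
  have hd : ∀ i, ∀ x ∈ Icc (0:ℝ) 1, HasDerivWithinAt (fun x => bb i * chz x +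
      EC7ED (EE I.ell (DG I.ell (g0I I))) i x / Real.sqrt (I.ell i) - I.th i x) 0 (Icc 0 1) x := by
    intro i x hx
    have k1 := ((EC7_chz_deriv x).const_mul (bb i)).hasDerivWithinAt (s := Icc 0 1)
    have k2 := (EC7XD_EE I.ell (DC I.ell (g0I I))) i x hx
    have k3 := (k1.fun_add (k2.div_const (Real.sqrt (I.ell i)))).fun_sub (I.th_s i x hx)
    have e : bb i * deriv chz x + EC7ED (kapG 1 I.ell * DC I.ell (g0I I)) i x /
        Real.sqrt (I.ell i) - I.ell i * I.k i x = 0 := by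
      rw [EC7ED_mul, EC7ED_kap, EC7ED_one, DC_g0I, EC7ED_sub]
      have e1 : EC7ED (mkG (fun i x => Real.sqrt (I.ell i) * I.k i x) (k_contOn I)) i x =
          Real.sqrt (I.ell i) * I.k i x := by
        rw [EC7ED_of_mem _ _ hx, mkG_apply]
      rw [e1]
      unfold zref
      rw [EC7ED_kap, EC7ED_ch1 i hx]
      have h4 := (EC7_sq I i).ne'
      have h5 := Real.sq_sqrt (I.ell_pos i).le
      field_simp
      linear_combination (bb i * deriv chz x) * h5
    rw [e] at k3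
    exact k3
  have hc := fun i => EC7_const (hd i)
  have hend : EC7ED (EE I.ell (DG I.ell (g0I I))) 0 1 = 0 := by
    rw [EC7ED_of_mem _ _ h1]
    exact EE_end0 I.ell_pos _
  have hJ : ∀ i, EC7ED (EE I.ell (DG I.ell (g0I I))) i 0 / Real.sqrt (I.ell i) =
      -(Real.sqrt (I.ell 0) * Vg (DG I.ell (g0I I)) (0, 1)) := by
    intro i
    have h4 := (EC7_sq I i).ne'
    have : EC7ED (EE I.ell (DG I.ell (g0I I))) i 0 =
        -(Real.sqrt (I.ell i) * Real.sqrt (I.ell 0) * Vg (DG I.ell (g0I I)) (0, 1)) := by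
      rw [EC7ED_of_mem _ _ h0]
      exact EE_J _ i
    rw [this]
    field_simp
  have hb0 : bb 0 = Real.pi / 3 := rfl
  have hz0 : chz 0 = 0 := EC7_chz_zero (by norm_num)
  have hz1 : chz 1 = 1 := EC7_chz_one (by norm_num)
  have e0 := hc 0 1 h1
  rw [hend, hz1, I.th_axis0, hb0, hJ 0, hz0, zero_div] at e0
  have e1 := hc i x hx
  rw [hJ i, hz0, I.th_J i] at e1
  have e2 := I.th_J 0
  rw [e2] at e0
  linarith

theorem EC7_zlim {Lx : ℝ} (I : Init Lx) {τ : ℝ} (S : HSol I.ell (g0I I) τ) :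
    Tendsto S.z (𝓝[>] 0)
      (𝓝 (ofC (mkG (fun i x => Real.sqrt (I.ell i) * I.k i x) (k_contOn I)))) := by
  have h := S.z_lim
  have e : ofC (zref I.ell) + DG I.ell (g0I I) =
      ofC (mkG (fun i x => Real.sqrt (I.ell i) * I.k i x) (k_contOn I)) := by
    have e1 : DG I.ell (g0I I) = ofC (DC I.ell (g0I I)) := rfl
    rw [e1, DC_g0I, map_sub]
    abel
  rwa [e] at h

end

/-- EC7 : classical regularity -/
theorem HSol_frozen {Lx : ℝ} (I : Init Lx) {τ : ℝ} (hτ : 0 < τ) (S : HSol I.ell (g0I I) τ) :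
    ∃ Z : Frozen I.ell τ, FStarts Z I ∧ (∀ t ∈ Ioo 0 τ, ∀ i, Z.e i t = S.e t i) ∧
      (∀ t ∈ Ioo 0 τ, ∀ hc : (∀ i, ContinuousOn (fun x => Real.sqrt (I.ell i) * Z.z i t x) (Icc 0 1)),
        S.z t = ofC (mkG (fun i x => Real.sqrt (I.ell i) * Z.z i t x) hc)) := by
  obtain ⟨hg, gp, hgp, hgx⟩ := EC7gct_C1G I S
  have h0 : (0:ℝ) ∈ Icc (0:ℝ) 1 := ⟨le_rfl, zero_le_one⟩
  have h1 : (1:ℝ) ∈ Icc (0:ℝ) 1 := ⟨zero_le_one, le_rfl⟩
  have hzc : ContinuousOn (EC7zct I S) (Ioo 0 τ) := (EC7zct_smooth I S 0).continuousOn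
  have hz : ContinuousOn S.z (Ioo 0 τ) := (S.z_smooth 0).continuousOn
  have hEz : ∀ t ∈ Ioo 0 τ, S.z t - ofC (zref I.ell) = DG I.ell (EC7Gt I S t) := by
    intro t ht
    rw [S.z_eq t ht, add_sub_cancel_left]
    rfl
  have hEJ : ∀ (z : HG) (i : Fin 3), EC7ED (EE I.ell z) i 0 / Real.sqrt (I.ell i) =
      -(Real.sqrt (I.ell 0) * Vg z (0, 1)) := by
    intro z i
    have h4 := (EC7_sq I i).ne'
    have : EC7ED (EE I.ell z) i 0 =
        -(Real.sqrt (I.ell i) * Real.sqrt (I.ell 0) * Vg z (0, 1)) := by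
      rw [EC7ED_of_mem _ _ h0]
      exact EE_J _ i
    rw [this]
    field_simp
  refine ⟨{
    e := fun i t => S.e t i
    de := fun i t => S.de t i
    Th := EC7Tht I S
    z := fun i t x => EC7ED (EC7zct I S t) i x / Real.sqrt (I.ell i)
    z1 := fun i t x => EC7ED (z1ref I.ell - EC7gct I S t) i x / Real.sqrt (I.ell i)
    z2 := fun i t x => EC7ED (kapG EC7chG3 (fun i => bb i / (I.ell i * Real.sqrt (I.ell i))) - gp t) i x
      / Real.sqrt (I.ell i) / I.ell i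
    L_pos := I.ell_pos
    adm := fun i t ht x => EC7_adm I S ht i x
    adm1 := fun i t ht => (norm_le_pi_norm (S.e t) i).trans (S.adm1 t ht)
    e_t := fun i t ht => (hasDerivAt_pi.1 (S.e_t t ht)) i
    de_cont := fun i => (continuousOn_pi.1 (EC7_de_smooth I S 0).continuousOn) i
    Th_cont := fun i => EC7Tht_cont I S i
    z_cont := fun i => (EC7ED_joint hzc i).div_const _
    z1_cont := fun i => (EC7ED_joint (continuousOn_const.sub hg) i).div_const _
    z2_cont := fun i => ((EC7ED_joint (continuousOn_const.sub hgp) i).div_const _).div_const _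
    Th_x := fun i t ht x hx => EC7Tht_x I S ht i hx
    z_x := ?_
    z1_x := ?_
    Th_t := fun i t ht x hx => by
      rw [← EC7Tht_eq I S ht i hx]
      exact EC7Tht_t I S ht i x
    e_eq := ?_
    Th_J := ?_
    z_J := ?_
    Th_axis0 := ?_
    Th_axis1 := ?_
    z_far := ?_ }, ?_, fun t _ i => rfl, ?_⟩
  · intro i t ht x hx
    have h2 := (EC7zct_XD I S ht i x hx).div_const (Real.sqrt (I.ell i))
    rw [EC7ED_mul, EC7ED_kap, EC7ED_one, mul_one, mul_div_assoc] at h2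
    exact h2
  · intro i t ht x hx
    have h2 := (((EC7XD_z1ref I.ell).sub (hgx t ht)) i x hx).div_const (Real.sqrt (I.ell i))
    have h3 := (I.ell_pos i).ne'
    rw [mul_div_cancel₀ _ h3]
    exact h2
  · intro i t ht
    have h2 := EC7_Lam I S ht i
    have h3 := EC7_LamS I S t i
    have h4 := EC7_Q I S ht i h1
    rw [h2, h3, h4]
    ring
  · intro i t ht
    unfold EC7Tht
    rw [hEJ, hEJ, EC7_chz_zero (by norm_num)]
    simp
  · intro t ht
    have h2 := trG_sum I.ell_pos (EC7Gt I S t)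
    refine Eq.trans (Finset.sum_congr rfl ?_) h2
    intro i _
    rw [EC7_z0, mul_div_cancel_left₀ _ (EC7_sq I i).ne']
  · intro t ht
    unfold EC7Tht
    have h2 : EC7ED (EE I.ell (S.z t - ofC (zref I.ell))) 0 1 = 0 := by
      rw [EC7ED_of_mem _ _ h1]
      exact EE_end0 I.ell_pos _
    rw [h2, EC7_chz_one (by norm_num)]
    have hb0 : bb 0 = Real.pi / 3 := rfl
    rw [hb0]
    simp
  · intro t ht
    unfold EC7Tht
    have h2 : EC7ED (EE I.ell (S.z t - ofC (zref I.ell))) 1 1 = 0 := by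
      rw [EC7ED_of_mem _ _ h1, hEz t ht]
      exact EE_end1 I.ell_pos _
    rw [h2, EC7_chz_one (by norm_num)]
    have hb1 : bb 1 = -(Real.pi / 3) := rfl
    rw [hb1]
    simp
  · intro t ht
    have h2 : EC7ED (EC7zct I S t) 2 1 = 0 := by
      unfold EC7zct
      rw [EC7ED_add]
      have h3 : EC7ED (DC I.ell (EC7Gt I S t)) 2 1 = 0 := by
        rw [EC7ED_of_mem _ _ h1]
        exact DC_far I.ell_pos _
      have h4 : EC7ED (zref I.ell) 2 1 = 0 := by
        unfold zref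
        rw [EC7ED_kap, EC7ED_ch1 2 h1, EC7_chz1_gt (by norm_num), mul_zero]
      rw [h3, h4, add_zero]
    rw [h2, zero_div]
  · refine ⟨fun i => rfl, fun i => ?_, fun i ε hε => ?_, fun i => ?_⟩
    · exact (tendsto_pi_nhds.1 S.e_lim) i
    · have h2 : Tendsto (fun t => EE I.ell (S.z t - ofC (zref I.ell))) (𝓝[>] 0)
          (𝓝 (EE I.ell (DG I.ell (g0I I)))) := by
        have h3 := ((EE I.ell).continuous.tendsto _).comp
          (S.z_lim.sub_const (ofC (zref I.ell)))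
        rwa [add_sub_cancel_left] at h3
      have h4 := EC7_sq I i
      have h5 := (Metric.tendsto_nhds.1 h2) (ε * Real.sqrt (I.ell i)) (by positivity)
      filter_upwards [h5] with t ht x hx
      rw [← EC7_th0 I i hx]
      have h6 : EC7Tht I S i t x - (bb i * chz x + EC7ED (EE I.ell (DG I.ell (g0I I))) i x /
          Real.sqrt (I.ell i)) = (EE I.ell (S.z t - ofC (zref I.ell)) -
            EE I.ell (DG I.ell (g0I I))) (i, projIcc 0 1 zero_le_one x) / Real.sqrt (I.ell i) := by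
        unfold EC7Tht EC7ED
        rw [ContinuousMap.sub_apply]
        ring
      have h6' : |EC7Tht I S i t x - (bb i * chz x + EC7ED (EE I.ell (DG I.ell (g0I I))) i x /
          Real.sqrt (I.ell i))| < ε := by
        rw [h6, abs_div, abs_of_pos h4, div_lt_iff₀ h4]
        refine lt_of_le_of_lt ?_ ht
        have h7 := (EE I.ell (S.z t - ofC (zref I.ell)) -
            EE I.ell (DG I.ell (g0I I))).norm_coe_le_norm (i, projIcc 0 1 zero_le_one x)
        rwa [Real.norm_eq_abs, ← dist_eq_norm] at h7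
      exact h6'
    · have h2 := (EC7_zlim I S).sub_const
        (ofC (mkG (fun i x => Real.sqrt (I.ell i) * I.k i x) (k_contOn I)))
      rw [sub_self] at h2
      have h3 := (h2.norm.pow 2).const_mul (I.ell i)⁻¹
      rw [norm_zero, zero_pow two_ne_zero, mul_zero] at h3
      refine squeeze_zero' ?_ ?_ h3
      · exact Eventually.of_forall (fun t => intervalIntegral.integral_nonneg zero_le_one
          (fun x _ => sq_nonneg _))
      · filter_upwards [Ioo_mem_nhdsGT hτ] with t ht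
        rw [← EC7_ofC_zct I S ht, ← map_sub, EC7_norm_sq]
        have h4 : ∫ x in (0:ℝ)..1, (EC7ED (EC7zct I S t) i x / Real.sqrt (I.ell i) - I.k i x) ^ 2 =
            (I.ell i)⁻¹ * ∫ x in (0:ℝ)..1, (EC7ED (EC7zct I S t -
              mkG (fun i x => Real.sqrt (I.ell i) * I.k i x) (k_contOn I)) i x) ^ 2 := by
          rw [← intervalIntegral.integral_const_mul]
          apply intervalIntegral.integral_congr
          intro x hx
          rw [uIcc_of_le zero_le_one] at hx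
          have h5 := EC7_sq I i
          have h6 := Real.sq_sqrt (I.ell_pos i).le
          have h7 : EC7ED (mkG (fun i x => Real.sqrt (I.ell i) * I.k i x) (k_contOn I)) i x =
              Real.sqrt (I.ell i) * I.k i x := by
            rw [EC7ED_of_mem _ _ hx, mkG_apply]
          have h8 : (I.ell i)⁻¹ = (Real.sqrt (I.ell i) ^ 2)⁻¹ := by rw [h6]
          simp only
          rw [EC7ED_sub, h7, h8]
          have h9 := h5.ne'
          field_simp
        have h5 : ∀ j ∈ Finset.univ, 0 ≤ ∫ x in (0:ℝ)..1, (EC7ED (EC7zct I S t -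
              mkG (fun i x => Real.sqrt (I.ell i) * I.k i x) (k_contOn I)) j x) ^ 2 :=
          fun j _ => intervalIntegral.integral_nonneg zero_le_one (fun x _ => sq_nonneg _)
        have h6 := Finset.single_le_sum h5 (Finset.mem_univ i)
        refine h4.le.trans ?_
        exact mul_le_mul_of_nonneg_left h6 (inv_nonneg.2 (I.ell_pos i).le)
  · intro t ht hc
    rw [← EC7_ofC_zct I S ht]
    congr 1
    ext p
    obtain ⟨i, x⟩ := p
    rw [mkG_apply]
    have h2 : EC7zct I S t (i, x) =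
        Real.sqrt (I.ell i) * (EC7ED (EC7zct I S t) i x / Real.sqrt (I.ell i)) := by
      rw [EC7ED_coe, mul_div_cancel₀ _ (EC7_sq I i).ne']
    exact h2

end Pool.Agent.Helper15.NF
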