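import Pool.Agent.Helper15.NF.EC0

/-!
E-part: the static boundary value problem on the star graph (helper78): for `th, k, k1` satisfying
the boundary conditions, `g = -(√L (k1 - b χ''/L²))` satisfies `trG g = k(0)`, `DC g = √L k - zref`,
`EE (DG g) = √L (th - b χ)`. Also conversions between integrals on the unit interval and interval integrals.
-/

open MeasureTheory Set Filter Topology
open scoped unitInterval

namespace Pool.Agent.Helper15.NF

namespace EStat

theorem openPos : (volume : Measure unitInterval).IsOpenPosMeasure := ⟨by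
  intro U hU hne
  obtain ⟨a, b, hab, hsub⟩ := hU.exists_Ioo_subset hne
  have h1 : 0 < volume (Ioo a b) := by
    rw [unitInterval.volume_Ioo]
    simpa using hab
  exact (h1.trans_le (measure_mono hsub)).ne'⟩

/-- conversion to interval integrals -/
theorem int_Iic (x : unitInterval) (f : ℝ → ℝ) :
    ∫ y in Iic x, f (y : unitInterval) = ∫ y in (0:ℝ)..x, f y := by
  rw [intervalIntegral.integral_of_le x.2.1, ← integral_Icc_eq_integral_Ioc]
  have h := unitInterval.measurePreserving_coe.setIntegral_preimage_emb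
    unitInterval.measurableEmbedding_coe f (Icc (0:ℝ) x)
  have h2 : ((↑) : unitInterval → ℝ) ⁻¹' (Icc (0:ℝ) x) = Iic x := by
    ext y
    simp only [mem_preimage, mem_Icc, mem_Iic]
    constructor
    · rintro ⟨-, h⟩; exact h
    · intro h; exact ⟨y.2.1, h⟩
  rw [h2] at h
  rw [h, Measure.restrict_restrict measurableSet_Icc]
  congr 2
  exact inter_eq_left.2 (Icc_subset_Icc le_rfl x.2.2)

theorem ftc {f f' : ℝ → ℝ} (h : ∀ y ∈ Icc (0:ℝ) 1, HasDerivWithinAt f (f' y) (Icc 0 1) y)
    (hc : ContinuousOn f' (Icc 0 1)) {x : ℝ} (hx : x ∈ Icc (0:ℝ) 1) :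
    ∫ y in (0:ℝ)..x, f' y = f x - f 0 := by
  apply intervalIntegral.integral_eq_sub_of_hasDerivAt_of_le hx.1
  · intro y hy
    exact ((h y ⟨hy.1, hy.2.trans hx.2⟩).continuousWithinAt).mono (Icc_subset_Icc le_rfl hx.2)
  · intro y hy
    exact (h y ⟨hy.1.le, hy.2.le.trans hx.2⟩).hasDerivAt (Icc_mem_nhds hy.1 (hy.2.trans_le hx.2))
  · apply ContinuousOn.intervalIntegrable_of_Icc hx.1
    exact hc.mono (Icc_subset_Icc le_rfl hx.2)

theorem chz_0 : chz 0 = 0 := by
  unfold chz; exact Real.smoothTransition.zero_of_nonpos (by norm_num)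
theorem chz_1 : chz 1 = 1 := by
  unfold chz; exact Real.smoothTransition.one_of_one_le (by norm_num)
theorem dchz_0 : deriv chz 0 = 0 := by
  have h : chz =ᶠ[𝓝 0] fun _ => 0 := by
    have : Iio (1/3 : ℝ) ∈ 𝓝 (0:ℝ) := Iio_mem_nhds (by norm_num)
    filter_upwards [this] with x hx
    unfold chz
    exact Real.smoothTransition.zero_of_nonpos (by have := mem_Iio.1 hx; linarith)
  rw [h.deriv_eq]; simp

theorem chz_hd (x : ℝ) : HasDerivAt chz (deriv chz x) x :=
  ((chz_contDiff 1).differentiable (by norm_num) x).hasDerivAt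
theorem dchz_hd (x : ℝ) : HasDerivAt (deriv chz) (deriv (deriv chz) x) x :=
  ((chz1_contDiff 1).differentiable (by norm_num) x).hasDerivAt

/-- slices of a.e. equalities on the graph -/
theorem slice {f g : Fin 3 × unitInterval → ℝ} (h : f =ᵐ[mu3] g) (i : Fin 3) :
    ∀ᵐ y : unitInterval, f (i, y) = g (i, y) := by
  have h1 : ∀ᵐ p ∂((Measure.count : Measure (Fin 3)).prod (volume : Measure unitInterval)),
      f p = g p := h
  have h2 := Measure.ae_ae_of_ae_prod h1
  rw [ae_iff, Measure.count_eq_zero_iff] at h2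
  have h3 : i ∉ {a : Fin 3 | ¬ ∀ᵐ y : unitInterval, f (a, y) = g (a, y)} := by
    rw [h2]; simp
  simpa using h3

theorem ofC_coe (a : CG) : (ofC a : Fin 3 × unitInterval → ℝ) =ᵐ[mu3] a :=
  ContinuousMap.coeFn_toLp _ _

theorem Vg_ofC (a : CG) (i : Fin 3) (x : unitInterval) :
    Vg (ofC a) (i, x) = ∫ y in Iic x, a (i, y) := by
  rw [Vg_apply]
  apply integral_congr_ae
  exact (ae_restrict_of_ae (slice (ofC_coe a) i))

theorem Vg_ofC' (a : CG) (i : Fin 3) (x : unitInterval) (f : ℝ → ℝ)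
    (h : ∀ y : unitInterval, a (i, y) = f y) :
    Vg (ofC a) (i, x) = ∫ y in (0:ℝ)..x, f y := by
  rw [Vg_ofC, ← int_Iic]
  exact integral_congr_ae (Eventually.of_forall (fun y => h y))

theorem V2_ofC' (a b : CG) (i : Fin 3) (x : unitInterval) (f : ℝ → ℝ)
    (h : ∀ y : unitInterval, a (i, y) * b (i, y) = f y) :
    V2 (ofC a) (ofC b) (i, x) = ∫ y in (0:ℝ)..x, f y := by
  rw [V2_apply, ← int_Iic]
  apply integral_congr_ae
  have h1 := ae_restrict_of_ae (s := Iic x) (slice (ofC_coe a) i)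
  have h2 := ae_restrict_of_ae (s := Iic x) (slice (ofC_coe b) i)
  filter_upwards [h1, h2] with y h1 h2
  rw [h1, h2, h y]

/-- static boundary value problem -/
structure Stat (L : R3) (th k k1 : Fin 3 → ℝ → ℝ) : Prop where
  pos : ∀ i, 0 < L i
  th_x : ∀ i, ∀ x ∈ Icc (0:ℝ) 1, HasDerivWithinAt (th i) (L i * k i x) (Icc 0 1) x
  k_x : ∀ i, ∀ x ∈ Icc (0:ℝ) 1, HasDerivWithinAt (k i) (L i * k1 i x) (Icc 0 1) x
  k1_c : ∀ i, ContinuousOn (k1 i) (Icc 0 1)
  th_J : ∀ i, th i 0 = th 2 0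
  k_J : ∑ i, k i 0 = 0
  th0 : th 0 1 = Real.pi / 3
  th1 : th 1 1 = -(Real.pi / 3)
  k2 : k 2 1 = 0

section stat

variable {L : R3} {th k k1 : Fin 3 → ℝ → ℝ} (S : Stat L th k k1) {g : CG}
  (hg : ∀ (i : Fin 3) (x : unitInterval), g (i, x) =
    -(Real.sqrt (L i) * (k1 i x - bb i * deriv (deriv chz) x / (L i) ^ 2)))

include S hg

theorem stat_Vg (i : Fin 3) (x : unitInterval) : Vg (ofC g) (i, x) =
    -(Real.sqrt (L i) * ((k i x - k i 0) / L i - bb i * deriv chz x / (L i) ^ 2)) := by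
  rw [Vg_ofC' g i x (fun y => -(Real.sqrt (L i) * (k1 i y - bb i * deriv (deriv chz) y / (L i) ^ 2)))
    (hg i)]
  have hLi := (S.pos i).ne'
  rw [ftc (f := fun y => -(Real.sqrt (L i) * (k i y / L i - bb i * deriv chz y / (L i) ^ 2)))
    _ _ x.2]
  · rw [dchz_0]; ring
  · intro y hy
    have h1 := S.k_x i y hy
    have h2 := (dchz_hd y).hasDerivWithinAt (s := Icc (0:ℝ) 1)
    have h3 := ((((h1.div_const (L i)).sub ((h2.const_mul (bb i)).div_const (L i ^ 2))).const_mul
      (Real.sqrt (L i))).neg)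
    refine h3.congr_deriv ?_
    field_simp
  · have h1 := S.k1_c i
    have h2 := chz2_cont
    fun_prop

theorem stat_mm (i : Fin 3) : Real.sqrt (L i) * mm i (ofC g) =
    -((th i 1 - th i 0) / L i - k i 0 - bb i / L i) := by
  have hLi := (S.pos i).ne'
  have e : mm i (ofC g) = Vg (ofC (Vg (ofC g))) (i, 1) := by
    simp [mm]
  rw [e, Vg_ofC' _ i 1 (fun y => -(Real.sqrt (L i) * ((k i y - k i 0) / L i
    - bb i * deriv chz y / (L i) ^ 2))) (stat_Vg S hg i)]
  rw [ftc (f := fun y => -(Real.sqrt (L i) * ((th i y / L i - k i 0 * y) / L i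
    - bb i * chz y / (L i) ^ 2))) _ _ (by simp)]
  · have h2 := Real.mul_self_sqrt (S.pos i).le
    simp only [Set.Icc.coe_one]
    rw [chz_0, chz_1]
    have : ∀ z : ℝ, Real.sqrt (L i) * (Real.sqrt (L i) * z) = L i * z := by
      intro z; rw [← mul_assoc, h2]
    have e2 : Real.sqrt (L i) * (-(Real.sqrt (L i) * ((th i 1 / L i - k i 0 * 1) / L i - bb i * 1 / L i ^ 2)) -
      -(Real.sqrt (L i) * ((th i 0 / L i - k i 0 * 0) / L i - bb i * 0 / L i ^ 2)))
      = Real.sqrt (L i) * (Real.sqrt (L i) * (((th i 0 / L i - k i 0 * 0) / L i - bb i * 0 / L i ^ 2)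
        - ((th i 1 / L i - k i 0 * 1) / L i - bb i * 1 / L i ^ 2))) := by ring
    rw [e2, this]
    field_simp
    ring
  · intro y hy
    have h1 := S.th_x i y hy
    have h2 := (chz_hd y).hasDerivWithinAt (s := Icc (0:ℝ) 1)
    have h0 := ((hasDerivAt_id y).const_mul (k i 0)).hasDerivWithinAt (s := Icc (0:ℝ) 1)
    have h3 := (((((h1.div_const (L i)).sub h0).div_const (L i)).sub
      ((h2.const_mul (bb i)).div_const (L i ^ 2))).const_mul (Real.sqrt (L i))).neg
    refine h3.congr_deriv ?_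
    field_simp
  · have h1 : ContinuousOn (k i) (Icc 0 1) := fun y hy => (S.k_x i y hy).continuousWithinAt
    have h2 := chz1_cont
    fun_prop

theorem stat_vv : Real.sqrt (L 2) * vv 2 (ofC g) = k 2 0 := by
  have e : vv 2 (ofC g) = Vg (ofC g) (2, 1) := by simp [vv]
  rw [e, stat_Vg S hg]
  have h2 := Real.mul_self_sqrt (S.pos 2).le
  have hLi := (S.pos 2).ne'
  simp only [Set.Icc.coe_one]
  rw [S.k2]
  have hb : bb 2 = 0 := by simp [bb]
  rw [hb]
  have : Real.sqrt (L 2) * -(Real.sqrt (L 2) * ((0 - k 2 0) / L 2 - 0 * deriv chz 1 / L 2 ^ 2))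
    = (Real.sqrt (L 2) * Real.sqrt (L 2)) * (k 2 0 / L 2) := by ring
  rw [this, h2]
  field_simp

theorem stat_uJ : uJ L (ofC g) = th 2 0 := by
  have e : uJ L (ofC g) = ((L 0)⁻¹ + (L 1)⁻¹)⁻¹ * (Real.sqrt (L 0) * mm 0 (ofC g)
    + Real.sqrt (L 1) * mm 1 (ofC g) + Real.sqrt (L 2) * vv 2 (ofC g)) := by
    simp [uJ]; ring
  rw [e, stat_mm S hg, stat_mm S hg, stat_vv S hg, S.th0, S.th1, S.th_J 0, S.th_J 1]
  have hb0 : bb 0 = Real.pi / 3 := by simp [bb]
  have hb1 : bb 1 = -(Real.pi / 3) := by simp [bb]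
  rw [hb0, hb1]
  have hs : k 2 0 = - k 0 0 - k 1 0 := by
    have := S.k_J
    rw [Fin.sum_univ_three] at this
    linarith
  rw [hs]
  have h0 := (S.pos 0)
  have h1 := (S.pos 1)
  field_simp
  ring

theorem stat_trG (i : Fin 3) : trG L (ofC g) i = k i 0 := by
  have h0 := (S.pos 0).ne'
  have h1 := (S.pos 1).ne'
  have hb0 : bb 0 = Real.pi / 3 := by simp [bb]
  have hb1 : bb 1 = -(Real.pi / 3) := by simp [bb]
  fin_cases i
  · have e : trG L (ofC g) 0 = Real.sqrt (L 0) * mm 0 (ofC g) - (L 0)⁻¹ * uJ L (ofC g) := by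
      simp [trG]
    show trG L (ofC g) 0 = k 0 0
    rw [e, stat_mm S hg, stat_uJ S hg, S.th0, S.th_J 0, hb0]
    field_simp
    ring
  · have e : trG L (ofC g) 1 = Real.sqrt (L 1) * mm 1 (ofC g) - (L 1)⁻¹ * uJ L (ofC g) := by
      simp [trG]
    show trG L (ofC g) 1 = k 1 0
    rw [e, stat_mm S hg, stat_uJ S hg, S.th1, S.th_J 1, hb1]
    field_simp
    ring
  · have e : trG L (ofC g) 2 = Real.sqrt (L 2) * vv 2 (ofC g) := by
      simp [trG]
    show trG L (ofC g) 2 = k 2 0
    rw [e, stat_vv S hg]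

theorem stat_DC (i : Fin 3) (x : unitInterval) :
    DC L (ofC g) (i, x) = Real.sqrt (L i) * k i x - zref L (i, x) := by
  rw [DC_apply, stat_trG S hg, stat_Vg S hg]
  have h1 : zref L (i, x) = bb i / Real.sqrt (L i) * deriv chz x := by
    unfold zref
    rw [kapG_apply]
    rfl
  rw [h1]
  have hL := S.pos i
  have hs := Real.sqrt_pos.2 hL
  have hs2 := Real.mul_self_sqrt hL.le
  have h3 : L i * -(Real.sqrt (L i) * ((k i x - k i 0) / L i - bb i * deriv chz x / L i ^ 2))
    = -(Real.sqrt (L i) * (k i x - k i 0)) + bb i * deriv chz x * (Real.sqrt (L i) / L i) := by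
    field_simp
    ring
  have h4 : Real.sqrt (L i) / L i = 1 / Real.sqrt (L i) := by
    rw [div_eq_div_iff hL.ne' hs.ne', hs2, one_mul]
  rw [h3, h4]
  field_simp
  ring

theorem stat_EE (i : Fin 3) (x : unitInterval) :
    EE L (DG L (ofC g)) (i, x) = Real.sqrt (L i) * (th i x - bb i * chz x) := by
  have hD : ∀ (j : Fin 3) (y : unitInterval), Vg (DG L (ofC g)) (j, y) =
      (th j y - th j 0 - bb j * chz y) / Real.sqrt (L j) := by
    intro j y
    have hL := S.pos j
    have hs := Real.sqrt_pos.2 hL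
    have hs2 := Real.mul_self_sqrt hL.le
    have e : DG L (ofC g) = ofC (DC L (ofC g)) := by simp [DG]
    rw [e, Vg_ofC' _ j y (fun s => Real.sqrt (L j) * k j s - bb j / Real.sqrt (L j) * deriv chz s)]
    · rw [ftc (f := fun s => (th j s - bb j * chz s) / Real.sqrt (L j)) _ _ y.2]
      · rw [chz_0]; ring
      · intro s hs'
        have h1 := S.th_x j s hs'
        have h2 := (chz_hd s).hasDerivWithinAt (s := Icc (0:ℝ) 1)
        have h3 := (h1.sub (h2.const_mul (bb j))).div_const (Real.sqrt (L j))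
        refine h3.congr_deriv ?_
        rw [sub_div]
        congr 1
        · rw [div_eq_iff hs.ne']
          symm
          calc Real.sqrt (L j) * k j s * Real.sqrt (L j)
              = (Real.sqrt (L j) * Real.sqrt (L j)) * k j s := by ring
            _ = L j * k j s := by rw [hs2]
        · ring
      · have h1 : ContinuousOn (k j) (Icc 0 1) := fun y hy => (S.k_x j y hy).continuousWithinAt
        have h2 := chz1_cont
        fun_prop
    · intro s
      rw [stat_DC S hg]
      unfold zref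
      rw [kapG_apply]
      rfl
  rw [EE_apply, hD, hD, S.th_J 0, S.th_J i]
  have hb0 : bb 0 = Real.pi / 3 := by simp [bb]
  simp only [Set.Icc.coe_one]
  rw [S.th0, chz_1, hb0]
  have hL := S.pos i
  have hs := Real.sqrt_pos.2 hL
  have hs2 := Real.mul_self_sqrt hL.le
  have hL0 := S.pos 0
  have hs0 := Real.sqrt_pos.2 hL0
  have e1 : L i * ((th i x - th 2 0 - bb i * chz x) / Real.sqrt (L i)) =
      Real.sqrt (L i) * (th i x - th 2 0 - bb i * chz x) := by
    rw [← mul_div_assoc, div_eq_iff hs.ne']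
    calc L i * (th i x - th 2 0 - bb i * chz x)
        = (Real.sqrt (L i) * Real.sqrt (L i)) * (th i x - th 2 0 - bb i * chz x) := by rw [hs2]
      _ = _ := by ring
  rw [e1]
  field_simp
  ring

end stat

end EStat

end Pool.Agent.Helper15.NF
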