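import Pool.Agent.Helper15.NF.EC6
import Pool.Agent.Helper15.NF.EC2
import Pool.Agent.Helper15.NF.EStat

set_option linter.unusedVariables false
set_option linter.unusedSectionVars false

open MeasureTheory Set Filter Topology

namespace Pool.Agent.Helper15.NF

namespace EC8

open EStat

variable {τ : ℝ}

/-- a jointly continuous family as a continuous curve in `CG` -/
theorem exists_cg (f : Fin 3 → ℝ → ℝ → ℝ)
    (hf : ∀ i, ContinuousOn (fun p : ℝ × ℝ => f i p.1 p.2) (Ioo 0 τ ×ˢ Icc 0 1)) :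
    ∃ F : ℝ → CG, ContinuousOn F (Ioo 0 τ) ∧
      ∀ t ∈ Ioo 0 τ, ∀ (i : Fin 3) (x : unitInterval), F t (i, x) = f i t x := by
  classical
  have hc : Continuous (fun q : Fin 3 × (Ioo (0:ℝ) τ × unitInterval) => f q.1 q.2.1 q.2.2) := by
    rw [continuous_prod_of_discrete_left]
    intro i
    have h2 : Continuous (fun p : Ioo (0:ℝ) τ × unitInterval => ((p.1 : ℝ), (p.2 : ℝ))) := by
      fun_prop
    exact (hf i).comp_continuous h2 (fun p => ⟨p.1.2, p.2.2⟩)
  let Φ : C(Ioo (0:ℝ) τ × (Fin 3 × unitInterval), ℝ) :=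
    ⟨fun p => f p.2.1 p.1 p.2.2, by
      have h3 : Continuous (fun p : Ioo (0:ℝ) τ × (Fin 3 × unitInterval) =>
        ((p.2.1, (p.1, p.2.2)) : Fin 3 × (Ioo (0:ℝ) τ × unitInterval))) := by fun_prop
      exact hc.comp h3⟩
  refine ⟨fun t => if h : t ∈ Ioo 0 τ then Φ.curry ⟨t, h⟩ else 0, ?_, ?_⟩
  · rw [continuousOn_iff_continuous_domRestrict]
    have : (Ioo 0 τ).domRestrict (fun t => if h : t ∈ Ioo 0 τ then Φ.curry ⟨t, h⟩ else 0)
        = Φ.curry := by
      ext t : 1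
      simp only [domRestrict_apply]
      rw [dif_pos t.2]
    rw [this]
    exact Φ.curry.continuous
  · intro t ht i x
    simp only [dif_pos ht]
    rfl

theorem mul_mem {lam : ℝ} (hl : lam ∈ Ioo 0 τ) {s : unitInterval} (hs : 0 < s) :
    lam * (s : ℝ) ∈ Ioo 0 τ := by
  have h0 : (0:ℝ) < s := hs
  have h1 : (s:ℝ) ≤ 1 := s.2.2
  constructor
  · exact mul_pos hl.1 h0
  · calc lam * (s:ℝ) ≤ lam * 1 := mul_le_mul_of_nonneg_left h1 hl.1.le
      _ < τ := by rw [mul_one]; exact hl.2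

theorem ae_pos : ∀ᵐ s : unitInterval, 0 < s := by
  have : ({0} : Set unitInterval)ᶜ ∈ ae (volume : Measure unitInterval) := by
    rw [mem_ae_iff, compl_compl]; exact measure_singleton 0
  filter_upwards [this] with s hs
  exact lt_of_le_of_ne s.2.1 (fun h => hs (by simpa using h.symm))

/-- `s ↦ F (lam * s)` in `L²` -/
theorem exists_LF {E : Type*} [NormedAddCommGroup E] [NormedSpace ℝ E] (F : ℝ → E)
    (hF : ContinuousOn F (Ioo 0 τ)) {B : ℝ} (hB0 : 0 ≤ B) (hB : ∀ t ∈ Ioo 0 τ, ‖F t‖ ≤ B) {lam : ℝ}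
    (hl : lam ∈ Ioo 0 τ) :
    ∃ u : LI E, (∀ᵐ s : unitInterval, u s = F (lam * s)) ∧ ‖u‖ ≤ B := by
  have hm : AEStronglyMeasurable (fun s : unitInterval => F (lam * s)) volume := by
    have h1 : ContinuousOn (fun s : unitInterval => F (lam * s)) (Ioi 0) := by
      refine hF.comp (by fun_prop) (fun s hs => mul_mem hl hs)
    have h2 := h1.aestronglyMeasurable (μ := volume) measurableSet_Ioi
    rwa [Measure.restrict_eq_self_of_ae_mem] at h2
    exact ae_pos
  have hb : ∀ᵐ s : unitInterval, ‖F (lam * s)‖ ≤ B := by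
    filter_upwards [ae_pos] with s hs
    exact hB _ (mul_mem hl hs)
  have hL : MemLp (fun s : unitInterval => F (lam * s)) 2 volume := MemLp.of_bound hm B hb
  refine ⟨hL.toLp _, hL.coeFn_toLp, ?_⟩
  have h3 : ∀ᵐ s : unitInterval, ‖(hL.toLp _ : unitInterval → E) s‖ ≤ B := by
    filter_upwards [hL.coeFn_toLp, hb] with s h1 h2
    rw [h1]; exact h2
  have h4 := Lp.norm_le_of_ae_bound hB0 h3
  simpa [measureUnivNNReal] using h4

theorem intC_real (u : LI ℝ) {F Φ : ℝ → ℝ} {Φ0 B lam : ℝ} (hl : lam ∈ Ioo 0 τ)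
    (hu : ∀ᵐ s : unitInterval, u s = F (lam * s)) (hF : ContinuousOn F (Ioo 0 τ))
    (hB : ∀ t ∈ Ioo 0 τ, |F t| ≤ B) (hΦ : ∀ t ∈ Ioo 0 τ, HasDerivAt Φ (F t) t)
    (h0 : Tendsto Φ (𝓝[>] 0) (𝓝 Φ0)) {s : unitInterval} (hs : 0 < s) :
    lam * intC ℝ u s = Φ (lam * s) - Φ0 := by
  have hs' := mul_mem hl hs
  have e1 : intC ℝ u s = ∫ r in Iic s, F (lam * (r : unitInterval)) := by
    rw [intC_apply]
    exact integral_congr_ae (ae_restrict_of_ae hu)
  have hne : lam ≠ 0 := hl.1.ne'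
  rw [e1, int_Iic s (fun y => F (lam * y)), intervalIntegral.integral_comp_mul_left _ hne]
  rw [smul_eq_mul, ← mul_assoc, mul_inv_cancel₀ hne, one_mul, mul_zero]
  apply intervalIntegral.integral_eq_sub_of_hasDerivAt_of_tendsto hs'.1
  · intro x hx
    exact hΦ x ⟨hx.1, hx.2.trans hs'.2⟩
  · rw [intervalIntegrable_iff_integrableOn_Ioo_of_le hs'.1.le]
    have hsub : Ioo 0 (lam * (s:ℝ)) ⊆ Ioo 0 τ := Ioo_subset_Ioo le_rfl hs'.2.le
    refine Integrable.of_bound
      ((hF.mono hsub).aestronglyMeasurable measurableSet_Ioo) B ?_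
    rw [ae_restrict_iff' measurableSet_Ioo]
    exact Eventually.of_forall (fun t ht => hB t (hsub ht))
  · exact h0
  · exact (hΦ _ hs').continuousAt.tendsto.mono_left nhdsWithin_le_nhds

section main

variable {Lx : ℝ} (I : Init Lx) (Z : Frozen I.ell τ)

theorem stat_Z {t : ℝ} (ht : t ∈ Ioo 0 τ) : Stat I.ell (fun i => Z.Th i t) (fun i => Z.z i t)
    (fun i => Z.z1 i t) where
  pos := Z.L_pos
  th_x := fun i x hx => Z.Th_x i t ht x hx
  k_x := fun i x hx => Z.z_x i t ht x hx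
  k1_c := fun i => (Z.z1_cont i).comp
    (by fun_prop : ContinuousOn (fun x : ℝ => ((t, x) : ℝ × ℝ)) (Icc 0 1)) (fun x hx => ⟨ht, hx⟩)
  th_J := fun i => Z.Th_J i t ht
  k_J := Z.z_J t ht
  th0 := Z.Th_axis0 t ht
  th1 := Z.Th_axis1 t ht
  k2 := Z.z_far t ht

theorem stat_I : Stat I.ell I.th I.k I.ks where
  pos := I.ell_pos
  th_x := fun i x hx => I.th_s i x hx
  k_x := fun i x hx => I.k_s i x hx
  k1_c := I.ks_cont
  th_J := I.th_J
  k_J := I.k_J
  th0 := I.th_axis0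
  th1 := I.th_axis1
  k2 := I.k_far

/-- the time derivative of the angle -/
noncomputable def dTh (i : Fin 3) (t x : ℝ) : ℝ :=
  (1 + Z.e i t * deriv chz x)⁻¹ ^ 2 * Z.z1 i t x
        - (1 + Z.e i t * deriv chz x)⁻¹ ^ 3 * (Z.e i t / I.ell i) * deriv (deriv chz) x * Z.z i t x
        + (-(Z.z (i + 1) t 0 - Z.z (i + 2) t 0) / Real.sqrt 3 + I.ell i * Z.de i t * chz x
            + I.ell i * ∫ y in (0:ℝ)..x, (1 + Z.e i t * deriv chz y)⁻¹ * Z.z i t y ^ 2)
          * ((1 + Z.e i t * deriv chz x)⁻¹ * Z.z i t x)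

theorem dTh_spec (i : Fin 3) {t : ℝ} (ht : t ∈ Ioo 0 τ) {x : ℝ} (hx : x ∈ Icc (0:ℝ) 1) :
    HasDerivAt (fun s => Z.Th i s x) (dTh I Z i t x) t := Z.Th_t i t ht x hx

/-! ### curves in `CG` -/

noncomputable def cg (f : Fin 3 → ℝ → ℝ → ℝ)
    (hf : ∀ i, ContinuousOn (fun p : ℝ × ℝ => f i p.1 p.2) (Ioo 0 τ ×ˢ Icc 0 1)) : ℝ → CG :=
  (exists_cg f hf).choose

theorem cg_cont (f : Fin 3 → ℝ → ℝ → ℝ)
    (hf : ∀ i, ContinuousOn (fun p : ℝ × ℝ => f i p.1 p.2) (Ioo 0 τ ×ˢ Icc 0 1)) :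
    ContinuousOn (cg f hf) (Ioo 0 τ) := (exists_cg f hf).choose_spec.1

theorem cg_apply (f : Fin 3 → ℝ → ℝ → ℝ)
    (hf : ∀ i, ContinuousOn (fun p : ℝ × ℝ => f i p.1 p.2) (Ioo 0 τ ×ˢ Icc 0 1))
    {t : ℝ} (ht : t ∈ Ioo 0 τ) (i : Fin 3) (x : unitInterval) : cg f hf t (i, x) = f i t x :=
  (exists_cg f hf).choose_spec.2 t ht i x

theorem cg_bound (f : Fin 3 → ℝ → ℝ → ℝ)
    (hf : ∀ i, ContinuousOn (fun p : ℝ × ℝ => f i p.1 p.2) (Ioo 0 τ ×ˢ Icc 0 1)) {C : ℝ}
    (hC : 0 ≤ C) (h : ∀ i, ∀ t ∈ Ioo 0 τ, ∀ x ∈ Icc (0:ℝ) 1, |f i t x| ≤ C) :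
    ∀ t ∈ Ioo 0 τ, ‖cg f hf t‖ ≤ C := by
  intro t ht
  rw [ContinuousMap.norm_le _ hC]
  rintro ⟨i, x⟩
  rw [cg_apply f hf ht, Real.norm_eq_abs]
  exact h i t ht x x.2

/-- bounded families -/
def Bd {E : Type*} [NormedAddCommGroup E] (τ : ℝ) (F : ℝ → E) : Prop :=
  ∃ C, 0 ≤ C ∧ ∀ t ∈ Ioo 0 τ, ‖F t‖ ≤ C

theorem Bd.add {E : Type*} [NormedAddCommGroup E] {F G : ℝ → E} (hF : Bd τ F) (hG : Bd τ G) :
    Bd τ (fun t => F t + G t) := by
  obtain ⟨C, h0, h⟩ := hF
  obtain ⟨C', h0', h'⟩ := hG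
  exact ⟨C + C', by positivity, fun t ht => (norm_add_le _ _).trans (add_le_add (h t ht) (h' t ht))⟩

theorem Bd.sub {E : Type*} [NormedAddCommGroup E] {F G : ℝ → E} (hF : Bd τ F) (hG : Bd τ G) :
    Bd τ (fun t => F t - G t) := by
  obtain ⟨C, h0, h⟩ := hF
  obtain ⟨C', h0', h'⟩ := hG
  exact ⟨C + C', by positivity, fun t ht => (norm_sub_le _ _).trans (add_le_add (h t ht) (h' t ht))⟩

theorem Bd.mul {F G : ℝ → CG} (hF : Bd τ F) (hG : Bd τ G) :
    Bd τ (fun t => F t * G t) := by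
  obtain ⟨C, h0, h⟩ := hF
  obtain ⟨C', h0', h'⟩ := hG
  exact ⟨C * C', by positivity, fun t ht => (norm_mul_le _ _).trans
    (mul_le_mul (h t ht) (h' t ht) (norm_nonneg _) h0)⟩

theorem Bd.const {E : Type*} [NormedAddCommGroup E] (c : E) : Bd τ (fun _ => c) :=
  ⟨‖c‖, norm_nonneg _, fun _ _ => le_rfl⟩

theorem Bd.V2 {F G : ℝ → CG} (hF : Bd τ F) (hG : Bd τ G) :
    Bd τ (fun t => V2 (ofC (F t)) (ofC (G t))) := by
  obtain ⟨C, h0, h⟩ := hF
  obtain ⟨C', h0', h'⟩ := hG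
  refine ⟨(‖ofC‖ * C) * (‖ofC‖ * C'), by positivity, fun t ht => (V2_norm_le _ _).trans ?_⟩
  apply mul_le_mul
  · exact (ofC.le_opNorm _).trans (mul_le_mul_of_nonneg_left (h t ht) (norm_nonneg _))
  · exact (ofC.le_opNorm _).trans (mul_le_mul_of_nonneg_left (h' t ht) (norm_nonneg _))
  · exact norm_nonneg _
  · positivity

theorem cont_e (i : Fin 3) : ContinuousOn (fun p : ℝ × ℝ => Z.e i p.1) (Ioo 0 τ ×ˢ Icc 0 1) := by
  have h : ContinuousOn (Z.e i) (Ioo 0 τ) := fun t ht => (Z.e_t i t ht).continuousAt.continuousWithinAt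
  exact h.comp continuousOn_fst (fun p hp => hp.1)

theorem cont_de (i : Fin 3) : ContinuousOn (fun p : ℝ × ℝ => Z.de i p.1) (Ioo 0 τ ×ˢ Icc 0 1) :=
  (Z.de_cont i).comp continuousOn_fst (fun p hp => hp.1)

theorem cont_z0 (i : Fin 3) : ContinuousOn (fun p : ℝ × ℝ => Z.z i p.1 0) (Ioo 0 τ ×ˢ Icc 0 1) := by
  have h2 : ContinuousOn (fun p : ℝ × ℝ => ((p.1, 0) : ℝ × ℝ)) (Ioo 0 τ ×ˢ Icc 0 1) := by fun_prop
  exact (Z.z_cont i).comp h2 (fun _ hp => ⟨hp.1, by simp⟩)

theorem contP (i : Fin 3) : ContinuousOn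
    (fun p : ℝ × ℝ => (1 + Z.e i p.1 * deriv chz p.2)⁻¹) (Ioo 0 τ ×ˢ Icc 0 1) := by
  have h1 := cont_e I Z i
  have h2 := chz1_cont
  refine ContinuousOn.inv₀ (by fun_prop) ?_
  intro p hp h0
  have h3 := Z.adm i p.1 hp.1 p.2
  rw [h0] at h3
  norm_num at h3

noncomputable def cP : ℝ → CG :=
  cg (τ := τ) (fun i t x => (1 + Z.e i t * deriv chz x)⁻¹) (contP I Z)

noncomputable def cZ : ℝ → CG := cg (τ := τ) (fun i t x => Real.sqrt (I.ell i) * Z.z i t x) (by
  intro i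
  have h1 := Z.z_cont i
  fun_prop)

noncomputable def cZ1 : ℝ → CG := cg (τ := τ) (fun i t x => Real.sqrt (I.ell i) * Z.z1 i t x) (by
  intro i
  have h1 := Z.z1_cont i
  fun_prop)

noncomputable def cE : ℝ → CG := cg (τ := τ) (fun i t _ => Z.e i t / I.ell i) (by
  intro i
  exact (cont_e I Z i).div_const _)

noncomputable def cL : ℝ → CG := cg (τ := τ)
    (fun i t _ => -(Z.z (i + 1) t 0 - Z.z (i + 2) t 0) / Real.sqrt 3) (by
  intro i
  exact (((cont_z0 I Z (i+1)).sub (cont_z0 I Z (i+2))).neg).div_const _)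

noncomputable def cDE : ℝ → CG := cg (τ := τ) (fun i t _ => I.ell i * Z.de i t) (by
  intro i
  exact (cont_de I Z i).const_smul (I.ell i))

noncomputable def cQ (t : ℝ) : CG := V2 (ofC (cP I Z t * cZ I Z t)) (ofC (cZ I Z t))

noncomputable def cD (t : ℝ) : CG :=
  cP I Z t * cP I Z t * cZ1 I Z t - cP I Z t * cP I Z t * cP I Z t * (chG2 * cE I Z t) * cZ I Z t
    + (cL I Z t + cDE I Z t * chG0 + cQ I Z t) * (cP I Z t * cZ I Z t)

noncomputable def cG (t : ℝ) : CG := z1ref I.ell - cZ1 I Z t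

section pt
variable {t : ℝ} (ht : t ∈ Ioo 0 τ) (i : Fin 3) (x : unitInterval)
include ht

theorem cP_apply : cP I Z t (i, x) = (1 + Z.e i t * deriv chz x)⁻¹ := cg_apply _ _ ht i x
theorem cZ_apply : cZ I Z t (i, x) = Real.sqrt (I.ell i) * Z.z i t x := cg_apply _ _ ht i x
theorem cZ1_apply : cZ1 I Z t (i, x) = Real.sqrt (I.ell i) * Z.z1 i t x := cg_apply _ _ ht i x
theorem cE_apply : cE I Z t (i, x) = Z.e i t / I.ell i := cg_apply _ _ ht i x
theorem cL_apply : cL I Z t (i, x) = -(Z.z (i + 1) t 0 - Z.z (i + 2) t 0) / Real.sqrt 3 :=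
  cg_apply _ _ ht i x
theorem cDE_apply : cDE I Z t (i, x) = I.ell i * Z.de i t := cg_apply _ _ ht i x

theorem cQ_apply : cQ I Z t (i, x) =
    I.ell i * ∫ y in (0:ℝ)..x, (1 + Z.e i t * deriv chz y)⁻¹ * Z.z i t y ^ 2 := by
  unfold cQ
  rw [V2_ofC' _ _ i x (fun y => I.ell i * ((1 + Z.e i t * deriv chz y)⁻¹ * Z.z i t y ^ 2))]
  · rw [intervalIntegral.integral_const_mul]
  · intro y
    rw [ContinuousMap.mul_apply, cP_apply I Z ht, cZ_apply I Z ht]
    have h2 := Real.mul_self_sqrt (I.ell_pos i).le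
    calc (1 + Z.e i t * deriv chz y)⁻¹ * (Real.sqrt (I.ell i) * Z.z i t y) *
          (Real.sqrt (I.ell i) * Z.z i t y)
        = (Real.sqrt (I.ell i) * Real.sqrt (I.ell i)) *
          ((1 + Z.e i t * deriv chz y)⁻¹ * Z.z i t y ^ 2) := by ring
      _ = _ := by rw [h2]

theorem cD_apply : cD I Z t (i, x) = Real.sqrt (I.ell i) * dTh I Z i t x := by
  unfold cD dTh
  simp only [ContinuousMap.add_apply, ContinuousMap.sub_apply, ContinuousMap.mul_apply]
  rw [cP_apply I Z ht, cZ_apply I Z ht, cZ1_apply I Z ht, cE_apply I Z ht, cL_apply I Z ht,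
    cDE_apply I Z ht, cQ_apply I Z ht]
  have h0 : chG0 (i, x) = chz x := rfl
  have h2 : chG2 (i, x) = deriv (deriv chz) x := rfl
  rw [h0, h2]
  ring

theorem z1ref_apply : z1ref I.ell (i, x) =
    Real.sqrt (I.ell i) * (bb i * deriv (deriv chz) x / (I.ell i) ^ 2) := by
  have h : z1ref I.ell (i, x) = bb i / (I.ell i * Real.sqrt (I.ell i)) * deriv (deriv chz) x := by
    unfold z1ref
    rw [kapG_apply]
    rfl
  rw [h]
  have hL := I.ell_pos i
  have hs := Real.sqrt_pos.2 hL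
  have h2 := Real.mul_self_sqrt hL.le
  rw [div_mul_eq_mul_div, div_eq_iff (by positivity)]
  calc bb i * deriv (deriv chz) x = (bb i * deriv (deriv chz) x / I.ell i ^ 2)
        * (I.ell i * I.ell i) := by field_simp
    _ = (bb i * deriv (deriv chz) x / I.ell i ^ 2)
        * (I.ell i * (Real.sqrt (I.ell i) * Real.sqrt (I.ell i))) := by rw [h2]
    _ = _ := by ring

theorem cG_apply : cG I Z t (i, x) =
    -(Real.sqrt (I.ell i) * (Z.z1 i t x - bb i * deriv (deriv chz) x / (I.ell i) ^ 2)) := by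
  unfold cG
  rw [ContinuousMap.sub_apply, z1ref_apply I ht, cZ1_apply I Z ht]
  ring

end pt

theorem cG_DC {t : ℝ} (ht : t ∈ Ioo 0 τ) :
    DC I.ell (ofC (cG I Z t)) = cZ I Z t - zref I.ell := by
  ext ⟨i, x⟩
  rw [stat_DC (stat_Z I Z ht) (cG_apply I Z ht), ContinuousMap.sub_apply, cZ_apply I Z ht]

theorem cG_tr {t : ℝ} (ht : t ∈ Ioo 0 τ) (i : Fin 3) :
    trG I.ell (ofC (cG I Z t)) i = Z.z i t 0 :=
  stat_trG (stat_Z I Z ht) (cG_apply I Z ht) i

theorem cG_EE {t : ℝ} (ht : t ∈ Ioo 0 τ) (i : Fin 3) (x : unitInterval) :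
    EE I.ell (DG I.ell (ofC (cG I Z t))) (i, x) =
      Real.sqrt (I.ell i) * (Z.Th i t x - bb i * chz x) :=
  stat_EE (stat_Z I Z ht) (cG_apply I Z ht) i x

theorem g0_EE (i : Fin 3) (x : unitInterval) :
    EE I.ell (DG I.ell (g0I I)) (i, x) =
      Real.sqrt (I.ell i) * (I.th i x - bb i * chz x) := by
  unfold g0I
  exact stat_EE (stat_I I) (fun i x => mkG_apply _ _ i x) i x

/-! continuity and bounds of the curves -/

theorem cP_cont : ContinuousOn (cP I Z) (Ioo 0 τ) := cg_cont _ _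
theorem cZ_cont : ContinuousOn (cZ I Z) (Ioo 0 τ) := cg_cont _ _
theorem cZ1_cont : ContinuousOn (cZ1 I Z) (Ioo 0 τ) := cg_cont _ _
theorem cE_cont : ContinuousOn (cE I Z) (Ioo 0 τ) := cg_cont _ _
theorem cL_cont : ContinuousOn (cL I Z) (Ioo 0 τ) := cg_cont _ _
theorem cDE_cont : ContinuousOn (cDE I Z) (Ioo 0 τ) := cg_cont _ _
theorem cQ_cont : ContinuousOn (cQ I Z) (Ioo 0 τ) := by
  have h1 := cP_cont I Z
  have h2 := cZ_cont I Z
  unfold cQ
  have h3 : ContinuousOn (fun t => V2 (ofC (cP I Z t * cZ I Z t))) (Ioo 0 τ) :=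
    V2.continuous.comp_continuousOn (ofC.continuous.comp_continuousOn (h1.mul h2))
  exact h3.clm_apply (ofC.continuous.comp_continuousOn h2)
theorem cD_cont : ContinuousOn (cD I Z) (Ioo 0 τ) := by
  have h1 := cP_cont I Z
  have h2 := cZ_cont I Z
  have h3 := cZ1_cont I Z
  have h4 := cE_cont I Z
  have h5 := cL_cont I Z
  have h6 := cDE_cont I Z
  have h7 := cQ_cont I Z
  unfold cD
  fun_prop
theorem cG_cont : ContinuousOn (cG I Z) (Ioo 0 τ) := by
  have h3 := cZ1_cont I Z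
  unfold cG
  fun_prop

section bounds
variable {B : ℝ} (hB : ∀ i, ∀ t ∈ Ioo 0 τ, |Z.de i t| ≤ B ∧
        ∀ x ∈ Icc (0:ℝ) 1, |Z.z i t x| ≤ B ∧ |Z.z1 i t x| ≤ B) (hB0 : 0 ≤ B)

theorem cP_bd : Bd τ (cP I Z) := by
  refine ⟨2, by norm_num, cg_bound _ _ (by norm_num) ?_⟩
  intro i t ht x hx
  have h := Z.adm i t ht x
  rw [abs_inv, abs_of_pos (by linarith)]
  rw [inv_le_comm₀ (by linarith) (by norm_num)]
  linarith

theorem sum_bd {c : Fin 3 → ℝ} (hc : ∀ i, 0 ≤ c i) (i : Fin 3) : c i ≤ ∑ j, c j :=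
  Finset.single_le_sum (fun j _ => hc j) (Finset.mem_univ i)

theorem cE_bd : Bd τ (cE I Z) := by
  refine ⟨∑ i, (1/2) / I.ell i, Finset.sum_nonneg (fun i _ => by have := I.ell_pos i; positivity),
    cg_bound _ _ (Finset.sum_nonneg (fun i _ => by have := I.ell_pos i; positivity)) ?_⟩
  intro i t ht x hx
  have h := Z.adm1 i t ht
  have hl := I.ell_pos i
  refine le_trans ?_ (sum_bd (fun j => by have := I.ell_pos j; positivity) i)
  rw [abs_div, abs_of_pos hl]
  gcongr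

include hB hB0

theorem cZ_bd : Bd τ (cZ I Z) := by
  refine ⟨∑ i, Real.sqrt (I.ell i) * B, Finset.sum_nonneg (fun i _ => by positivity),
    cg_bound _ _ (Finset.sum_nonneg (fun i _ => by positivity)) ?_⟩
  intro i t ht x hx
  refine le_trans ?_ (sum_bd (fun j => by positivity) i)
  rw [abs_mul, abs_of_nonneg (Real.sqrt_nonneg _)]
  exact mul_le_mul_of_nonneg_left ((hB i t ht).2 x hx).1 (Real.sqrt_nonneg _)

theorem cZ1_bd : Bd τ (cZ1 I Z) := by
  refine ⟨∑ i, Real.sqrt (I.ell i) * B, Finset.sum_nonneg (fun i _ => by positivity),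
    cg_bound _ _ (Finset.sum_nonneg (fun i _ => by positivity)) ?_⟩
  intro i t ht x hx
  refine le_trans ?_ (sum_bd (fun j => by positivity) i)
  rw [abs_mul, abs_of_nonneg (Real.sqrt_nonneg _)]
  exact mul_le_mul_of_nonneg_left ((hB i t ht).2 x hx).2 (Real.sqrt_nonneg _)

theorem cDE_bd : Bd τ (cDE I Z) := by
  have hp : ∀ i, 0 ≤ I.ell i * B := fun i => mul_nonneg (I.ell_pos i).le hB0
  refine ⟨∑ i, I.ell i * B, Finset.sum_nonneg (fun i _ => hp i),
    cg_bound _ _ (Finset.sum_nonneg (fun i _ => hp i)) ?_⟩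
  intro i t ht x hx
  refine le_trans ?_ (sum_bd hp i)
  rw [abs_mul, abs_of_pos (I.ell_pos i)]
  exact mul_le_mul_of_nonneg_left (hB i t ht).1 (I.ell_pos i).le

theorem cL_bd : Bd τ (cL I Z) := by
  refine ⟨2 * B, by positivity, cg_bound _ _ (by positivity) ?_⟩
  intro i t ht x hx
  have h1 := ((hB (i+1) t ht).2 0 (by simp)).1
  have h2 := ((hB (i+2) t ht).2 0 (by simp)).1
  have h3 : (1:ℝ) ≤ Real.sqrt 3 := by
    rw [Real.one_le_sqrt]; norm_num
  rw [abs_div, abs_neg, abs_of_pos (by linarith : (0:ℝ) < Real.sqrt 3), div_le_iff₀ (by linarith)]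
  have h4 : |Z.z (i+1) t 0 - Z.z (i+2) t 0| ≤ 2 * B := by
    refine (abs_sub _ _).trans ?_
    linarith
  nlinarith

theorem cD_bd : Bd τ (cD I Z) := by
  have h1 := cP_bd I Z
  have h2 := cZ_bd I Z hB hB0
  have h3 := cZ1_bd I Z hB hB0
  have h4 := cE_bd I Z
  have h5 := cL_bd I Z hB hB0
  have h6 := cDE_bd I Z hB hB0
  have h7 : Bd τ (cQ I Z) := Bd.V2 (h1.mul h2) h2
  exact (((h1.mul h1).mul h3).sub ((((h1.mul h1).mul h1).mul ((Bd.const chG2).mul h4)).mul h2)).add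
    (((h5.add (h6.mul (Bd.const chG0))).add h7).mul (h1.mul h2))

theorem cG_bd : Bd τ (cG I Z) := (Bd.const _).sub (cZ1_bd I Z hB hB0)

end bounds

/-! ### the fixed point -/

theorem LAM_apply (q : R3) (i : Fin 3) :
    LAM q i = -(Real.sqrt 3)⁻¹ * (q (i + 1) - q (i + 2)) := rfl

theorem divL_apply (L q : R3) (i : Fin 3) : divL L q i = (L i)⁻¹ * q i := rfl

theorem ev1_apply (a : CG) (i : Fin 3) : ev1 a i = a (i, 1) := evG_apply (i, 1) a

section fix

variable {Bd' BG Be lam : ℝ} (hl : lam ∈ Ioo 0 τ) {uD uG : LI CG} {rE : LI R3}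
  (hL : ∀ i, 0 < I.ell i)
  (huD : ∀ᵐ s : unitInterval, uD s = cD I Z (lam * s))
  (huG : ∀ᵐ s : unitInterval, uG s = cG I Z (lam * s))
  (hrE : ∀ᵐ s : unitInterval, rE s = fun i => Z.de i (lam * s))

/-- the fixed point -/
noncomputable def yf (lam : ℝ) (uD uG : LI CG) (rE : LI R3) : YY :=
  (Real.sqrt lam • mapL ofC (uD + uG), Real.sqrt lam • rE)

include hl huD in
theorem intC_uD {B : ℝ} (hB : ∀ t ∈ Ioo 0 τ, ‖cD I Z t‖ ≤ B) (hZ : FStarts Z I)
    {s : unitInterval} (hs : 0 < s) :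
    lam • intC CG uD s = EE I.ell (DG I.ell (ofC (cG I Z (lam * s))))
      - EE I.ell (DG I.ell (g0I I)) := by
  ext ⟨i, x⟩
  have hm := mul_mem hl hs
  rw [ContinuousMap.sub_apply, cG_EE I Z hm, g0_EE]
  have e1 : (lam • intC CG uD s) (i, x) = lam * intC ℝ (mapL (evG (i, x)) uD) s := by
    rw [← mapC_intC, mapC_apply, evG_apply]
    rfl
  rw [e1, intC_real (mapL (evG (i, x)) uD) (F := fun t => cD I Z t (i, x))
    (Φ := fun t => Real.sqrt (I.ell i) * Z.Th i t x) (Φ0 := Real.sqrt (I.ell i) * I.th i x)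
    (B := B) hl ?_ ?_ ?_ ?_ ?_ hs]
  · ring
  · filter_upwards [mapL_coe (evG (i, x)) uD, huD] with r h1 h2
    rw [h1, h2, evG_apply]
  · have h1 := (evG (i, x)).continuous.comp_continuousOn (cD_cont I Z)
    exact h1.congr (fun t ht => (evG_apply _ _).symm)
  · intro t ht
    exact ((cD I Z t).norm_coe_le_norm (i, x)).trans (hB t ht)
  · intro t ht
    rw [cD_apply I Z ht]
    exact (dTh_spec I Z i ht x.2).const_mul _
  · apply Tendsto.const_mul
    rw [Metric.tendsto_nhds]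
    intro ε hε
    filter_upwards [hZ.Th i ε hε] with t ht
    exact ht x x.2

include hl huD huG in
theorem gh_eq {B : ℝ} (hB : ∀ t ∈ Ioo 0 τ, ‖cD I Z t‖ ≤ B) (hZ : FStarts Z I) :
    gh hL (g0I I) lam (yf lam uD uG rE) = Real.sqrt lam • mapL ofC uG := by
  have key : mapL (TT (DG I.ell)) (mapL ofC uG) - mapL (TT (DG I.ell)) (toL HG (cst HG (g0I I)))
      = lam • intL HG (mapL ofC uD) := by
    have e1 : intL HG (mapL ofC uD) = toL HG (mapC ofC (intC CG uD)) := by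
      rw [mapC_intC]; rfl
    rw [e1, mapL_toL, ← map_smul]
    apply Lp.ext
    filter_upwards [ae_pos, Lp.coeFn_sub (mapL (TT (DG I.ell)) (mapL ofC uG))
      (toL HG (mapC (TT (DG I.ell)) (cst HG (g0I I)))), mapL_coe (TT (DG I.ell)) (mapL ofC uG),
      mapL_coe ofC uG, toL_coe (mapC (TT (DG I.ell)) (cst HG (g0I I))),
      toL_coe (lam • mapC ofC (intC CG uD)), huG] with s hs h1 h2 h3 h4 h5 h6
    rw [h1, Pi.sub_apply, h2, h3, h4, h5, h6, mapC_apply, cst_apply, TT_DG hL, TT_DG hL]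
    have h7 := intC_uD I Z hl huD hB hZ hs
    have h8 : (lam • mapC ofC (intC CG uD)) s = ofC (lam • intC CG uD s) := by
      rw [ContinuousMap.smul_apply, mapC_apply, map_smul]
    rw [h8, h7, map_sub]
  have h2 : Real.sqrt lam • mapL ofC uG - Real.sqrt lam • toL HG (cst HG (g0I I)) =
      solG (DG_injective hL) lam ((yf lam uD uG rE).1
        - Real.sqrt lam • toL HG (cst HG (g0I I))) := by
    apply solG_eq (DG_injective hL) hl.1
    unfold yf
    simp only [map_sub, map_smul, map_add]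
    rw [sub_eq_iff_eq_add] at key
    rw [key]
    module
  rw [map_sub, map_smul] at h2
  unfold gh
  rw [sub_eq_iff_eq_add] at h2
  rw [h2]
  module

include hl hrE in
theorem ee_eq {B : ℝ} (hB : ∀ i, ∀ t ∈ Ioo 0 τ, |Z.de i t| ≤ B) (hZ : FStarts Z I)
    {s : unitInterval} (hs : 0 < s) (i : Fin 3) :
    ee lam (yf lam uD uG rE) s i = Z.e i (lam * s) := by
  have h2 := Real.mul_self_sqrt hl.1.le
  have e1 : ee lam (yf lam uD uG rE) s i =
      lam * intC ℝ (mapL (ContinuousLinearMap.proj (R := ℝ) (φ := fun _ : Fin 3 => ℝ) i) rE) s := by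
    rw [← mapC_intC, mapC_apply]
    unfold ee yf
    simp only [map_smul]
    rw [smul_smul, h2]
    rfl
  rw [e1, intC_real _ (F := fun t => Z.de i t)
    (Φ := fun t => Z.e i t) (Φ0 := 0) (B := B) hl ?_ ?_ ?_ ?_ ?_ hs]
  · ring
  · filter_upwards [mapL_coe (ContinuousLinearMap.proj (R := ℝ) (φ := fun _ : Fin 3 => ℝ) i) rE, hrE]
      with r h1 h2
    rw [h1, h2]
    rfl
  · exact Z.de_cont i
  · exact hB i
  · exact Z.e_t i
  · exact hZ.e i

theorem intC_zero {E : Type*} [NormedAddCommGroup E] [NormedSpace ℝ E] [CompleteSpace E]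
    (u : LI E) : intC E u 0 = 0 := by
  rw [intC_apply]
  apply setIntegral_measure_zero
  rw [unitInterval.volume_Iic]
  simp

theorem s_cases (s : unitInterval) : s = 0 ∨ 0 < s := by
  rcases eq_or_lt_of_le s.2.1 with h | h
  · left; ext; exact h.symm
  · right; exact h

include hl hrE in
theorem psi_eq {B : ℝ} (hB : ∀ i, ∀ t ∈ Ioo 0 τ, |Z.de i t| ≤ B) (hZ : FStarts Z I)
    {s : unitInterval} (hs : 0 < s) :
    psi lam (yf lam uD uG rE) s = cP I Z (lam * s) := by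
  have h1 : ∀ r : unitInterval, 0 < r → ∀ i x,
      (1 + mapC (kapG chG1) (ee lam (yf lam uD uG rE))) r (i, x) =
        1 + Z.e i (lam * r) * deriv chz x := by
    intro r hr i x
    rw [ContinuousMap.add_apply, mapC_apply, ContinuousMap.add_apply, kapG_apply,
      ee_eq I Z hl hrE hB hZ hr]
    rfl
  have hu : IsUnit (1 + mapC (kapG chG1) (ee lam (yf lam uD uG rE))) := by
    rw [ContinuousMap.isUnit_iff_forall_isUnit]
    intro r
    rw [ContinuousMap.isUnit_iff_forall_ne_zero]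
    rintro ⟨i, x⟩
    rcases s_cases r with rfl | hr
    · have h2 : ee lam (yf lam uD uG rE) 0 = 0 := by
        unfold ee yf
        rw [ContinuousMap.smul_apply, intC_zero, smul_zero]
      rw [ContinuousMap.add_apply, mapC_apply, h2, (map_zero (kapG chG1))]
      simp
    · rw [h1 r hr i x]
      have := Z.adm i (lam * r) (mul_mem hl hr) x
      linarith
  have h3 : psi lam (yf lam uD uG rE) * (1 + mapC (kapG chG1) (ee lam (yf lam uD uG rE))) = 1 :=
    Ring.inverse_mul_cancel _ hu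
  ext ⟨i, x⟩
  have h4 := congrArg (fun w : CI CG => w s (i, x)) h3
  simp only [ContinuousMap.mul_apply] at h4
  rw [h1 s hs i x] at h4
  rw [cP_apply I Z (mul_mem hl hs)]
  have h5 := Z.adm i (lam * s) (mul_mem hl hs) x
  exact eq_inv_of_mul_eq_one_left h4

include hl huD huG in
theorem zz_eq {B : ℝ} (hB : ∀ t ∈ Ioo 0 τ, ‖cD I Z t‖ ≤ B) (hZ : FStarts Z I)
    {s : unitInterval} (hs : 0 < s) :
    zz hL (g0I I) lam (yf lam uD uG rE) s = ofC (cZ I Z (lam * s)) := by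
  have hgh := gh_eq I Z hl hL huD huG hB hZ (rE := rE)
  have hsl : Real.sqrt lam ≠ 0 := (Real.sqrt_pos.2 hl.1).ne'
  have h1 : toL HG (zz hL (g0I I) lam (yf lam uD uG rE)) =
      mapL (DG I.ell) (mapL ofC uG) + toL HG (cst HG (ofC (zref I.ell))) := by
    have e : mapL ofC uG = (Real.sqrt lam)⁻¹ • gh hL (g0I I) lam (yf lam uD uG rE) := by
      rw [hgh, smul_smul, inv_mul_cancel₀ hsl, one_smul]
    rw [e]
    unfold zz gh
    have hsp := (solGW_spec (DG_injective hL) hl.1).2.1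
    simp only [map_add, map_sub, map_smul]
    rw [hsp, hsp]
    have e3 : toL HG (cst HG (DG I.ell (g0I I))) = mapL (DG I.ell) (toL HG (cst HG (g0I I))) := by
      rw [mapL_toL]
      congr 1
      refine ContinuousMap.ext (fun t => ?_)
      rw [mapC_apply]
      rfl
    rw [e3]
    simp only [smul_add, smul_sub, smul_smul]
    rw [inv_mul_cancel₀ hsl, one_smul, one_smul]
  have h2 : ∀ᵐ r : unitInterval, zz hL (g0I I) lam (yf lam uD uG rE) r = ofC (cZ I Z (lam * r)) := by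
    have h3 := toL_coe (zz hL (g0I I) lam (yf lam uD uG rE))
    rw [h1] at h3
    filter_upwards [h3, ae_pos, Lp.coeFn_add (mapL (DG I.ell) (mapL ofC uG))
      (toL HG (cst HG (ofC (zref I.ell)))), mapL_coe (DG I.ell) (mapL ofC uG), mapL_coe ofC uG,
      toL_coe (cst HG (ofC (zref I.ell))), huG] with r h3 hr h4 h5 h6 h7 h8
    rw [← h3, h4, Pi.add_apply, h5, h6, h7, h8, cst_apply]
    have e4 : DG I.ell (ofC (cG I Z (lam * r))) = ofC (DC I.ell (ofC (cG I Z (lam * r)))) := rfl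
    rw [e4, cG_DC I Z (mul_mem hl hr), ← map_add, sub_add_cancel]
  have := openPos
  have h3 : EqOn (fun r : unitInterval => zz hL (g0I I) lam (yf lam uD uG rE) r)
      (fun r => ofC (cZ I Z (lam * r))) (Ioi 0) := by
    apply Measure.eqOn_open_of_ae_eq (μ := (volume : Measure unitInterval)) (ae_restrict_of_ae h2)
      isOpen_Ioi
    · exact (zz hL (g0I I) lam (yf lam uD uG rE)).continuous.continuousOn
    · exact ofC.continuous.comp_continuousOn
        ((cZ_cont I Z).comp (by fun_prop) (fun r hr => mul_mem hl hr))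
  exact h3 hs

include hl huD huG hrE in
theorem fix_eq {B B' : ℝ} (hB : ∀ t ∈ Ioo 0 τ, ‖cD I Z t‖ ≤ B)
    (hB' : ∀ i, ∀ t ∈ Ioo 0 τ, |Z.de i t| ≤ B') (hZ : FStarts Z I) :
    Gam hL (g0I I) lam (yf lam uD uG rE) = yf lam uD uG rE := by
  set y := yf lam uD uG rE with hy
  have hgh : gh hL (g0I I) lam y = Real.sqrt lam • mapL ofC uG :=
    gh_eq I Z hl hL huD huG hB hZ
  have hgh' : ∀ᵐ s : unitInterval, gh hL (g0I I) lam y s =
      ofC (Real.sqrt lam • cG I Z (lam * s)) := by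
    rw [hgh]
    filter_upwards [Lp.coeFn_smul (Real.sqrt lam) (mapL ofC uG), mapL_coe ofC uG, huG]
      with s h1 h2 h3
    rw [h1, Pi.smul_apply, h2, h3, map_smul]
  have hqh : ∀ᵐ s : unitInterval, qh hL (g0I I) lam y s =
      Real.sqrt lam • (fun i => Z.z i (lam * s) 0 : R3) := by
    filter_upwards [mapL_coe (trG I.ell) (gh hL (g0I I) lam y), hgh', ae_pos] with s h1 h2 h3
    unfold qh
    rw [h1, h2, map_smul, map_smul]
    congr 1
    ext i
    exact cG_tr I Z (mul_mem hl h3) i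
  have hpsi : ∀ s : unitInterval, 0 < s → psi lam y s = cP I Z (lam * s) :=
    fun s hs => psi_eq I Z hl hrE hB' hZ hs
  have hzz : ∀ s : unitInterval, 0 < s → zz hL (g0I I) lam y s = ofC (cZ I Z (lam * s)) :=
    fun s hs => zz_eq I Z hl hL huD huG hB hZ hs
  have hee : ∀ s : unitInterval, 0 < s → ∀ i, ee lam y s i = Z.e i (lam * s) :=
    fun s hs i => ee_eq I Z hl hrE hB' hZ hs i
  have hQQ : ∀ s : unitInterval, 0 < s → QQ hL (g0I I) lam y s = cQ I Z (lam * s) := by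
    intro s hs
    unfold QQ cQ
    rw [bilC_apply, bilC_apply, hpsi s hs, hzz s hs, mulG_ofC]
  have hlen : ∀ s : unitInterval, 0 < s → ∀ i (x : unitInterval),
      cL I Z (lam * s) (i, x) + cDE I Z (lam * s) (i, x) + cQ I Z (lam * s) (i, 1) = 0 := by
    intro s hs i x
    have hm := mul_mem hl hs
    rw [cL_apply I Z hm, cDE_apply I Z hm, cQ_apply I Z hm]
    simpa using Z.e_eq i (lam * s) hm
  have hLAM : ∀ s : unitInterval, 0 < s → ∀ i (x : unitInterval),
      LAM (Real.sqrt lam • (fun i => Z.z i (lam * s) 0 : R3)) i =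
        Real.sqrt lam * cL I Z (lam * s) (i, x) := by
    intro s hs i x
    rw [cL_apply I Z (mul_mem hl hs), LAM_apply]
    simp only [Pi.smul_apply, smul_eq_mul]
    ring
  refine Prod.ext ?_ ?_
  · show NN hL (g0I I) lam y = Real.sqrt lam • mapL ofC (uD + uG)
    have ha : ∀ᵐ s : unitInterval, bilL mulG (psi lam y * psi lam y - 1) (gh hL (g0I I) lam y) s =
        ofC ((cP I Z (lam * s) * cP I Z (lam * s) - 1) * (Real.sqrt lam • cG I Z (lam * s))) := by
      filter_upwards [ae_pos, bilL_coe mulG (psi lam y * psi lam y - 1) (gh hL (g0I I) lam y), hgh']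
        with s hs h1 h2
      rw [h1, h2, mulG_ofC, ContinuousMap.sub_apply, ContinuousMap.mul_apply, hpsi s hs]
      rfl
    have hb : ∀ᵐ s : unitInterval, (Real.sqrt lam • toL HG (bilC mulG (psi lam y * psi lam y)
        (cst HG (ofC (z1ref I.ell)))) : LI HG) s =
        ofC (Real.sqrt lam • (cP I Z (lam * s) * cP I Z (lam * s) * z1ref I.ell)) := by
      filter_upwards [ae_pos, Lp.coeFn_smul (Real.sqrt lam) (toL HG (bilC mulG
        (psi lam y * psi lam y) (cst HG (ofC (z1ref I.ell))))),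
        toL_coe (bilC mulG (psi lam y * psi lam y) (cst HG (ofC (z1ref I.ell))))] with s hs h1 h2
      rw [h1, Pi.smul_apply, h2, bilC_apply, cst_apply, mulG_ofC, ContinuousMap.mul_apply,
        hpsi s hs, map_smul]
    have hc : ∀ᵐ s : unitInterval, (Real.sqrt lam • toL HG (bilC mulG (psi lam y * psi lam y *
        psi lam y * mapC ((kapG chG2).comp (divL I.ell)) (ee lam y)) (zz hL (g0I I) lam y)) : LI HG) s
        = ofC (Real.sqrt lam • (cP I Z (lam * s) * cP I Z (lam * s) * cP I Z (lam * s)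
          * (chG2 * cE I Z (lam * s)) * cZ I Z (lam * s))) := by
      filter_upwards [ae_pos, Lp.coeFn_smul (Real.sqrt lam) (toL HG (bilC mulG
        (psi lam y * psi lam y * psi lam y * mapC ((kapG chG2).comp (divL I.ell)) (ee lam y))
        (zz hL (g0I I) lam y))),
        toL_coe (bilC mulG (psi lam y * psi lam y * psi lam y *
        mapC ((kapG chG2).comp (divL I.ell)) (ee lam y)) (zz hL (g0I I) lam y))] with s hs h1 h2
      have h3 : (kapG chG2) (divL I.ell (ee lam y s)) = chG2 * cE I Z (lam * s) := by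
        ext ⟨i, x⟩
        rw [kapG_apply, divL_apply, hee s hs, ContinuousMap.mul_apply,
          cE_apply I Z (mul_mem hl hs)]
        ring
      rw [h1, Pi.smul_apply, h2, bilC_apply, hzz s hs, mulG_ofC, ContinuousMap.mul_apply,
        ContinuousMap.mul_apply, ContinuousMap.mul_apply, hpsi s hs, mapC_apply,
        ContinuousLinearMap.comp_apply, h3, map_smul]
    have hd : ∀ᵐ s : unitInterval, bilR mulG (mapL ((kapG (1 - chG0)).comp LAM)
        (qh hL (g0I I) lam y)) (bilC mulG (psi lam y) (zz hL (g0I I) lam y)) s =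
        ofC (Real.sqrt lam • (cL I Z (lam * s) * (1 - chG0) *
          (cP I Z (lam * s) * cZ I Z (lam * s)))) := by
      filter_upwards [ae_pos, bilR_coe mulG (mapL ((kapG (1 - chG0)).comp LAM)
        (qh hL (g0I I) lam y)) (bilC mulG (psi lam y) (zz hL (g0I I) lam y)),
        mapL_coe ((kapG (1 - chG0)).comp LAM) (qh hL (g0I I) lam y), hqh] with s hs h1 h2 h3
      rw [h1, h2, h3, bilC_apply, hpsi s hs, hzz s hs, mulG_ofC, mulG_ofC,
        ContinuousLinearMap.comp_apply]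
      congr 1
      ext ⟨i, x⟩
      simp only [ContinuousMap.mul_apply, ContinuousMap.smul_apply, smul_eq_mul, kapG_apply]
      rw [hLAM s hs i x]
      ring
    have he : ∀ᵐ s : unitInterval, (Real.sqrt lam • toL HG (bilC mulG ((QQ hL (g0I I) lam y -
        mapC ((kapG chG0).comp ev1) (QQ hL (g0I I) lam y)) * psi lam y)
        (zz hL (g0I I) lam y)) : LI HG) s =
        ofC (Real.sqrt lam • ((cQ I Z (lam * s) - kapG chG0 (ev1 (cQ I Z (lam * s)))) *
          cP I Z (lam * s) * cZ I Z (lam * s))) := by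
      filter_upwards [ae_pos, Lp.coeFn_smul (Real.sqrt lam) (toL HG (bilC mulG
        ((QQ hL (g0I I) lam y - mapC ((kapG chG0).comp ev1) (QQ hL (g0I I) lam y)) * psi lam y)
        (zz hL (g0I I) lam y))),
        toL_coe (bilC mulG ((QQ hL (g0I I) lam y - mapC ((kapG chG0).comp ev1)
        (QQ hL (g0I I) lam y)) * psi lam y) (zz hL (g0I I) lam y))] with s hs h1 h2
      rw [h1, Pi.smul_apply, h2, bilC_apply, hzz s hs, mulG_ofC, ContinuousMap.mul_apply,
        ContinuousMap.sub_apply, hpsi s hs, mapC_apply, ContinuousLinearMap.comp_apply,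
        hQQ s hs, map_smul]
    unfold NN
    apply Lp.ext
    set A := bilL mulG (psi lam y * psi lam y - 1) (gh hL (g0I I) lam y) with hA
    set Bb := (Real.sqrt lam • toL HG (bilC mulG (psi lam y * psi lam y)
        (cst HG (ofC (z1ref I.ell)))) : LI HG) with hBb
    set C := (Real.sqrt lam • toL HG (bilC mulG (psi lam y * psi lam y *
        psi lam y * mapC ((kapG chG2).comp (divL I.ell)) (ee lam y)) (zz hL (g0I I) lam y)) : LI HG)
      with hC
    set D := bilR mulG (mapL ((kapG (1 - chG0)).comp LAM)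
        (qh hL (g0I I) lam y)) (bilC mulG (psi lam y) (zz hL (g0I I) lam y)) with hD
    set E := (Real.sqrt lam • toL HG (bilC mulG ((QQ hL (g0I I) lam y -
        mapC ((kapG chG0).comp ev1) (QQ hL (g0I I) lam y)) * psi lam y)
        (zz hL (g0I I) lam y)) : LI HG) with hE
    filter_upwards [ae_pos, ha, hb, hc, hd, he, huD, huG, Lp.coeFn_add (-A + Bb - C + D) E,
      Lp.coeFn_add (-A + Bb - C) D, Lp.coeFn_sub (-A + Bb) C, Lp.coeFn_add (-A) Bb,
      Lp.coeFn_neg A, Lp.coeFn_smul (Real.sqrt lam) (mapL ofC (uD + uG)), mapL_coe ofC (uD + uG),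
      Lp.coeFn_add uD uG] with s hs ha hb hc hd he h1 h2 h3 h4 h5 h6 h7 h8 h9 h10
    rw [h3, Pi.add_apply, h4, Pi.add_apply, h5, Pi.sub_apply, h6, Pi.add_apply, h7, Pi.neg_apply,
      ha, hb, hc, hd, he, h8, Pi.smul_apply, h9, h10, Pi.add_apply, h1, h2]
    rw [← map_neg, ← map_add, ← map_sub, ← map_add, ← map_add, ← map_smul]
    congr 1
    ext ⟨i, x⟩
    have hq := hlen s hs i x
    unfold cD cG
    simp only [ContinuousMap.add_apply, ContinuousMap.sub_apply, ContinuousMap.mul_apply,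
      ContinuousMap.neg_apply, ContinuousMap.smul_apply, ContinuousMap.one_apply, smul_eq_mul,
      kapG_apply, ev1_apply]
    have hDE : cDE I Z (lam * s) (i, x) = - cL I Z (lam * s) (i, x) - cQ I Z (lam * s) (i, 1) := by
      linarith
    rw [hDE]
    ring
  · show RR hL (g0I I) lam y = Real.sqrt lam • rE
    unfold RR
    apply Lp.ext
    set A := mapL LAM (qh hL (g0I I) lam y) with hA
    set C := (Real.sqrt lam • toL R3 (mapC ev1 (QQ hL (g0I I) lam y)) : LI R3) with hC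
    filter_upwards [ae_pos, hqh, Lp.coeFn_neg (mapL (divL I.ell) (A + C)), mapL_coe (divL I.ell) (A + C),
      Lp.coeFn_add A C, mapL_coe LAM (qh hL (g0I I) lam y),
      Lp.coeFn_smul (Real.sqrt lam) (toL R3 (mapC ev1 (QQ hL (g0I I) lam y))),
      toL_coe (mapC ev1 (QQ hL (g0I I) lam y)), Lp.coeFn_smul (Real.sqrt lam) rE, hrE]
      with s hs h0 h1 h2 h3 h4 h5 h6 h7 h8
    rw [h1, Pi.neg_apply, h2, h3, Pi.add_apply, hA, h4, h0, hC, h5, Pi.smul_apply, h6, mapC_apply,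
      hQQ s hs, h7, Pi.smul_apply, h8]
    ext i
    have hq := hlen s hs i 0
    rw [Pi.neg_apply, divL_apply, Pi.add_apply, hLAM s hs i 0, Pi.smul_apply, Pi.smul_apply,
      ev1_apply, smul_eq_mul, smul_eq_mul]
    rw [cDE_apply I Z (mul_mem hl hs)] at hq
    have hLi := (I.ell_pos i).ne'
    field_simp
    linear_combination (-Real.sqrt lam) * hq

end fix

end main

end EC8

open EC8 in
/-- EC8 : a classical solution with bounded `z, z_x, e'` gives fixed points for small horizons -/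
theorem frozen_fix {Lx : ℝ} (I : Init Lx) (hL : ∀ i, 0 < I.ell i) {τ : ℝ} (hτ : 0 < τ)
    (Z : Frozen I.ell τ) (hZ : FStarts Z I)
    (hB : ∃ B : ℝ, ∀ i, ∀ t ∈ Ioo 0 τ, |Z.de i t| ≤ B ∧
        ∀ x ∈ Icc (0:ℝ) 1, |Z.z i t x| ≤ B ∧ |Z.z1 i t x| ≤ B) :
    ∃ ε ∈ Ioo 0 τ, ∀ lam ∈ Ioo 0 ε, ∃ y : YY, ‖y‖ ≤ 1 ∧ Gam hL (g0I I) lam y = y ∧
      (∀ i, ee lam y 1 i = Z.e i lam) ∧
      (∀ hc : (∀ i, ContinuousOn (fun x => Real.sqrt (I.ell i) * Z.z i lam x) (Icc 0 1)),
        zz hL (g0I I) lam y 1 = ofC (mkG (fun i x => Real.sqrt (I.ell i) * Z.z i lam x) hc)) := by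
  obtain ⟨B, hB⟩ := hB
  have hB0 : 0 ≤ B := (abs_nonneg _).trans (hB 0 (τ / 2) ⟨by linarith, by linarith⟩).1
  obtain ⟨CD, hCD0, hCD⟩ := cD_bd I Z hB hB0
  obtain ⟨CG', hCG0, hCG⟩ := cG_bd I Z hB hB0
  have hde : ∀ t ∈ Ioo 0 τ, ‖(fun i => Z.de i t : R3)‖ ≤ B := by
    intro t ht
    rw [pi_norm_le_iff_of_nonneg hB0]
    intro i
    exact (hB i t ht).1
  have hdec : ContinuousOn (fun t => (fun i => Z.de i t : R3)) (Ioo 0 τ) :=
    continuousOn_pi.2 (fun i => Z.de_cont i)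
  set K : ℝ := ‖(ofC : CG →L[ℝ] HG)‖ * (CD + CG') + B + 1 with hK
  have hK1 : 1 ≤ K := by
    have : 0 ≤ ‖(ofC : CG →L[ℝ] HG)‖ * (CD + CG') := by positivity
    linarith
  refine ⟨min (τ / 2) (1 / K ^ 2), ⟨lt_min (by linarith) (by positivity),
    (min_le_left _ _).trans_lt (by linarith)⟩, ?_⟩
  intro lam hlam
  have hl : lam ∈ Ioo 0 τ := ⟨hlam.1, hlam.2.trans_le ((min_le_left _ _).trans (by linarith))⟩
  have hsq : Real.sqrt lam * K ≤ 1 := by
    have h1 : lam ≤ (1 / K) ^ 2 := by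
      rw [div_pow, one_pow]
      exact (hlam.2.trans_le (min_le_right _ _)).le
    have h2 : Real.sqrt lam ≤ 1 / K := by
      rw [Real.sqrt_le_left (by positivity)]; exact h1
    calc Real.sqrt lam * K ≤ 1 / K * K := by gcongr
      _ = 1 := by field_simp
  obtain ⟨uD, huD, huDn⟩ := exists_LF (cD I Z) (cD_cont I Z) hCD0 hCD hl
  obtain ⟨uG, huG, huGn⟩ := exists_LF (cG I Z) (cG_cont I Z) hCG0 hCG hl
  obtain ⟨rE, hrE, hrEn⟩ := exists_LF (fun t => (fun i => Z.de i t : R3)) hdec hB0 hde hl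
  have hB' : ∀ i, ∀ t ∈ Ioo 0 τ, |Z.de i t| ≤ B := fun i t ht => (hB i t ht).1
  refine ⟨yf lam uD uG rE, ?_, fix_eq I Z hl hL huD huG hrE hCD hB' hZ, ?_, ?_⟩
  · rw [Prod.norm_def]
    apply max_le
    · unfold yf
      rw [norm_smul, Real.norm_eq_abs, abs_of_nonneg (Real.sqrt_nonneg _)]
      refine le_trans ?_ hsq
      apply mul_le_mul_of_nonneg_left _ (Real.sqrt_nonneg _)
      refine (mapL_norm_le _ _).trans ?_
      have h1 : ‖uD + uG‖ ≤ CD + CG' := (norm_add_le _ _).trans (add_le_add huDn huGn)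
      have h2 := mul_le_mul_of_nonneg_left h1 (norm_nonneg (ofC : CG →L[ℝ] HG))
      linarith
    · unfold yf
      rw [norm_smul, Real.norm_eq_abs, abs_of_nonneg (Real.sqrt_nonneg _)]
      refine le_trans ?_ hsq
      apply mul_le_mul_of_nonneg_left _ (Real.sqrt_nonneg _)
      have : 0 ≤ ‖(ofC : CG →L[ℝ] HG)‖ * (CD + CG') := by positivity
      linarith
  · intro i
    have h := ee_eq I Z hl hrE hB' hZ (uD := uD) (uG := uG) (s := 1) (by simp) i
    simpa using h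
  · intro hc
    have h := zz_eq I Z hl hL huD huG hCD hZ (rE := rE) (s := 1) (by simp)
    rw [h]
    congr 1
    ext ⟨i, x⟩
    rw [mkG_apply]
    have h1 : lam * ((1 : unitInterval) : ℝ) = lam := by simp
    rw [h1, cZ_apply I Z hl]

end Pool.Agent.Helper15.NF
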