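import Pool.Agent.Helper15.NF.T1
import Pool.Agent.Helper15.NF.DDefs

/-!
E-part: interface for local existence and continuation.
-/

open Set MeasureTheory intervalIntegral Filter Topology

namespace Pool.Agent.Helper15.NF

variable {a b Lx : ℝ}

/-- size of initial data -/
noncomputable def Init.size (I : Init Lx) : ℝ :=
  ∑ i, (I.ell i * (∫ σ in (0:ℝ)..1, I.k i σ ^ 2) + I.ell i + (I.ell i)⁻¹)

/-- the state of a flow at an interior time as initial data -/
noncomputable def Flow.init (F : Flow a b Lx) {t : ℝ} (ht : t ∈ Ioo a b) : Init Lx where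
  ell := fun i => F.ell i t
  th := fun i => F.th i t
  k := fun i => F.k i t
  ks := fun i => F.ks i t
  X := fun i => F.X i t
  Y := fun i => F.Y i t
  ell_pos := fun i => F.ell_pos i t ht
  ks_cont := fun i => (F.ks_cont i).comp (by fun_prop : ContinuousOn (fun σ : ℝ => ((t, σ) : ℝ × ℝ)) (Icc 0 1))
    (fun σ hσ => ⟨ht, hσ⟩)
  th_s := fun i σ hσ => F.th_s i t ht σ hσ
  k_s := fun i σ hσ => F.k_s i t ht σ hσ
  X_s := fun i σ hσ => F.X_s i t ht σ hσ
  Y_s := fun i σ hσ => F.Y_s i t ht σ hσ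
  th_J := fun i => F.th_J i t ht
  X_J := fun i => F.X_J i t ht
  Y_J := fun i => F.Y_J i t ht
  k_J := (junction_rel F ht).1
  th_axis0 := F.th_axis0 t ht
  th_axis1 := F.th_axis1 t ht
  X_axis0 := F.X_axis0 t ht
  X_axis1 := F.X_axis1 t ht
  X_far := F.X_far t ht
  k_far := F.k_far t ht

/-- time shift of a flow -/
noncomputable def Flow.shift (F : Flow a b Lx) (c : ℝ) : Flow (a + c) (b + c) Lx :=
  have hs : ∀ t ∈ Ioo (a + c) (b + c), t - c ∈ Ioo a b := fun t ht =>
    ⟨by have := ht.1; linarith, by have := ht.2; linarith⟩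
  have hm : MapsTo (fun p : ℝ × ℝ => (p.1 - c, p.2)) (Ioo (a + c) (b + c) ×ˢ Icc (0:ℝ) 1)
      (Ioo a b ×ˢ Icc (0:ℝ) 1) := fun p hp => ⟨hs p.1 hp.1, hp.2⟩
  have hc : ContinuousOn (fun p : ℝ × ℝ => (p.1 - c, p.2)) (Ioo (a + c) (b + c) ×ˢ Icc (0:ℝ) 1) := by
    fun_prop
  have hd : ∀ {f : ℝ → ℝ} {f' t : ℝ}, HasDerivAt f f' (t - c) →
      HasDerivAt (fun τ => f (τ - c)) f' t := fun {f f' t} h => by
    simpa using h.comp_sub_const t c
  { ell := fun i t => F.ell i (t - c), dell := fun i t => F.dell i (t - c)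
    th := fun i t => F.th i (t - c), k := fun i t => F.k i (t - c)
    ks := fun i t => F.ks i (t - c), kss := fun i t => F.kss i (t - c)
    mu := fun i t => F.mu i (t - c), X := fun i t => F.X i (t - c)
    Y := fun i t => F.Y i (t - c), Ly := F.Ly
    ell_pos := fun i t ht => F.ell_pos i _ (hs t ht)
    ell_t := fun i t ht => hd (F.ell_t i _ (hs t ht))
    dell_cont := fun i => (F.dell_cont i).comp (by fun_prop) (fun t ht => hs t ht)
    th_cont := fun i => (F.th_cont i).comp hc hm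
    k_cont := fun i => (F.k_cont i).comp hc hm
    ks_cont := fun i => (F.ks_cont i).comp hc hm
    kss_cont := fun i => (F.kss_cont i).comp hc hm
    mu_cont := fun i => (F.mu_cont i).comp hc hm
    X_cont := fun i => (F.X_cont i).comp hc hm
    Y_cont := fun i => (F.Y_cont i).comp hc hm
    th_s := fun i t ht => F.th_s i _ (hs t ht)
    k_s := fun i t ht => F.k_s i _ (hs t ht)
    ks_s := fun i t ht => F.ks_s i _ (hs t ht)
    X_s := fun i t ht => F.X_s i _ (hs t ht)
    Y_s := fun i t ht => F.Y_s i _ (hs t ht)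
    mu_s := fun i t ht => F.mu_s i _ (hs t ht)
    th_t := fun i t ht σ hσ => hd (F.th_t i _ (hs t ht) σ hσ)
    k_t := fun i t ht σ hσ => hd (F.k_t i _ (hs t ht) σ hσ)
    X_t := fun i t ht σ hσ => hd (F.X_t i _ (hs t ht) σ hσ)
    Y_t := fun i t ht σ hσ => hd (F.Y_t i _ (hs t ht) σ hσ)
    th_J := fun i t ht => F.th_J i _ (hs t ht)
    X_J := fun i t ht => F.X_J i _ (hs t ht)
    Y_J := fun i t ht => F.Y_J i _ (hs t ht)
    th_axis0 := fun t ht => F.th_axis0 _ (hs t ht)
    th_axis1 := fun t ht => F.th_axis1 _ (hs t ht)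
    X_axis0 := fun t ht => F.X_axis0 _ (hs t ht)
    X_axis1 := fun t ht => F.X_axis1 _ (hs t ht)
    mu_end := fun i t ht => F.mu_end i _ (hs t ht)
    X_far := fun t ht => F.X_far _ (hs t ht)
    Y_far := fun t ht => F.Y_far _ (hs t ht)
    k_far := fun t ht => F.k_far _ (hs t ht) }

/-- two flows have the same lengths and angles at time `t` -/
def Flow.Agree {a b a' b' : ℝ} (F : Flow a b Lx) (G : Flow a' b' Lx) (t : ℝ) : Prop :=
  ∀ i, F.ell i t = G.ell i t ∧ ∀ σ ∈ Icc (0:ℝ) 1, F.th i t σ = G.th i t σ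

end Pool.Agent.Helper15.NF
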