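import Pool.Agent.Helper15.NF.EDefs

open Set MeasureTheory intervalIntegral Filter Topology

namespace Pool.Agent.Helper15.NF

variable {a b a' b' Lx : ℝ}

theorem eg1_uniq {f g : ℝ → ℝ} {f' g' σ : ℝ} (hσ : σ ∈ Icc (0:ℝ) 1)
    (hf : HasDerivWithinAt f f' (Icc 0 1) σ) (hg : HasDerivWithinAt g g' (Icc 0 1) σ)
    (h : ∀ x ∈ Icc (0:ℝ) 1, f x = g x) : f' = g' := by
  have hu : UniqueDiffWithinAt ℝ (Icc (0:ℝ) 1) σ := uniqueDiffOn_Icc (by norm_num) σ hσ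
  have h2 : HasDerivWithinAt f g' (Icc 0 1) σ := hg.congr h (h σ hσ)
  exact hu.eq_deriv _ hf h2

theorem eg1_const {f g : ℝ → ℝ} {f' g' : ℝ → ℝ}
    (hf : ∀ σ ∈ Icc (0:ℝ) 1, HasDerivWithinAt f (f' σ) (Icc 0 1) σ)
    (hg : ∀ σ ∈ Icc (0:ℝ) 1, HasDerivWithinAt g (g' σ) (Icc 0 1) σ)
    (h : ∀ σ ∈ Icc (0:ℝ) 1, f' σ = g' σ) {s0 : ℝ} (hs0 : s0 ∈ Icc (0:ℝ) 1) (h0 : f s0 = g s0) :
    ∀ σ ∈ Icc (0:ℝ) 1, f σ = g σ := by
  intro σ hσ
  have key := Convex.norm_image_sub_le_of_norm_hasDerivWithin_le (f := fun x => f x - g x)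
    (f' := fun x => f' x - g' x) (C := 0) (s := Icc (0:ℝ) 1) (x := s0) (y := σ)
    (fun x hx => (hf x hx).sub (hg x hx)) (fun x hx => by simp [h x hx]) (convex_Icc 0 1) hs0 hσ
  rw [zero_mul] at key
  have h2 := norm_le_zero_iff.mp key
  rw [h0] at h2
  linarith

/-- EG1 : if lengths and angles agree on an open interval, so do all derived quantities -/
theorem agree_derived (F : Flow a b Lx) (G : Flow a' b' Lx) (hLy : F.Ly = G.Ly) {c d : ℝ}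
    (h1 : a ≤ c) (h2 : a' ≤ c) (h3 : d ≤ b) (h4 : d ≤ b')
    (h : ∀ t ∈ Ioo c d, F.Agree G t) :
    ∀ t ∈ Ioo c d, ∀ i, F.dell i t = G.dell i t ∧ ∀ σ ∈ Icc (0:ℝ) 1,
      F.k i t σ = G.k i t σ ∧ F.ks i t σ = G.ks i t σ ∧ F.kss i t σ = G.kss i t σ ∧
      F.mu i t σ = G.mu i t σ ∧ F.X i t σ = G.X i t σ ∧ F.Y i t σ = G.Y i t σ := by
  intro t ht
  have tF : t ∈ Ioo a b := ⟨lt_of_le_of_lt h1 ht.1, lt_of_lt_of_le ht.2 h3⟩
  have tG : t ∈ Ioo a' b' := ⟨lt_of_le_of_lt h2 ht.1, lt_of_lt_of_le ht.2 h4⟩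
  have hell : ∀ i, F.ell i t = G.ell i t := fun i => (h t ht i).1
  have hth : ∀ i, ∀ σ ∈ Icc (0:ℝ) 1, F.th i t σ = G.th i t σ := fun i => (h t ht i).2
  have hdell : ∀ i, F.dell i t = G.dell i t := by
    intro i
    have hev : (F.ell i) =ᶠ[𝓝 t] (G.ell i) := by
      filter_upwards [Ioo_mem_nhds ht.1 ht.2] with τ hτ
      exact (h τ hτ i).1
    exact (F.ell_t i t tF).unique ((G.ell_t i t tG).congr_of_eventuallyEq hev)
  have hk : ∀ i, ∀ σ ∈ Icc (0:ℝ) 1, F.k i t σ = G.k i t σ := by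
    intro i σ hσ
    have e := eg1_uniq hσ (F.th_s i t tF σ hσ) (G.th_s i t tG σ hσ) (hth i)
    rw [hell i] at e
    exact mul_left_cancel₀ (G.ell_pos i t tG).ne' e
  have hks : ∀ i, ∀ σ ∈ Icc (0:ℝ) 1, F.ks i t σ = G.ks i t σ := by
    intro i σ hσ
    have e := eg1_uniq hσ (F.k_s i t tF σ hσ) (G.k_s i t tG σ hσ) (hk i)
    rw [hell i] at e
    exact mul_left_cancel₀ (G.ell_pos i t tG).ne' e
  have hkss : ∀ i, ∀ σ ∈ Icc (0:ℝ) 1, F.kss i t σ = G.kss i t σ := by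
    intro i σ hσ
    have e := eg1_uniq hσ (F.ks_s i t tF σ hσ) (G.ks_s i t tG σ hσ) (hks i)
    rw [hell i] at e
    exact mul_left_cancel₀ (G.ell_pos i t tG).ne' e
  have hmu : ∀ i, ∀ σ ∈ Icc (0:ℝ) 1, F.mu i t σ = G.mu i t σ := by
    intro i
    refine eg1_const (F.mu_s i t tF) (G.mu_s i t tG) ?_ (right_mem_Icc.mpr zero_le_one) ?_
    · intro σ hσ
      rw [hdell i, hell i, hk i σ hσ]
    · rw [F.mu_end i t tF, G.mu_end i t tG]
  have hXs : ∀ i, ∀ σ ∈ Icc (0:ℝ) 1, F.ell i t * Real.cos (F.th i t σ + off i)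
      = G.ell i t * Real.cos (G.th i t σ + off i) := by
    intro i σ hσ
    rw [hell i, hth i σ hσ]
  have hYs : ∀ i, ∀ σ ∈ Icc (0:ℝ) 1, F.ell i t * Real.sin (F.th i t σ + off i)
      = G.ell i t * Real.sin (G.th i t σ + off i) := by
    intro i σ hσ
    rw [hell i, hth i σ hσ]
  have hX2 : ∀ σ ∈ Icc (0:ℝ) 1, F.X 2 t σ = G.X 2 t σ :=
    eg1_const (F.X_s 2 t tF) (G.X_s 2 t tG) (hXs 2) (right_mem_Icc.mpr zero_le_one)
      (by rw [F.X_far t tF, G.X_far t tG])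
  have hY2 : ∀ σ ∈ Icc (0:ℝ) 1, F.Y 2 t σ = G.Y 2 t σ :=
    eg1_const (F.Y_s 2 t tF) (G.Y_s 2 t tG) (hYs 2) (right_mem_Icc.mpr zero_le_one)
      (by rw [F.Y_far t tF, G.Y_far t tG, hLy])
  have h00 : (0:ℝ) ∈ Icc (0:ℝ) 1 := left_mem_Icc.mpr zero_le_one
  have hX : ∀ i, ∀ σ ∈ Icc (0:ℝ) 1, F.X i t σ = G.X i t σ := fun i =>
    eg1_const (F.X_s i t tF) (G.X_s i t tG) (hXs i) h00
      (by rw [F.X_J i t tF, G.X_J i t tG, hX2 0 h00])
  have hY : ∀ i, ∀ σ ∈ Icc (0:ℝ) 1, F.Y i t σ = G.Y i t σ := fun i =>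
    eg1_const (F.Y_s i t tF) (G.Y_s i t tG) (hYs i) h00
      (by rw [F.Y_J i t tF, G.Y_J i t tG, hY2 0 h00])
  intro i
  exact ⟨hdell i, fun σ hσ => ⟨hk i σ hσ, hks i σ hσ, hkss i σ hσ, hmu i σ hσ, hX i σ hσ, hY i σ hσ⟩⟩

theorem eg1_dt {f g : ℝ → ℝ} {g' t : ℝ} (ht : t ∈ Ioo a b) (h : ∀ τ ∈ Ioo a b, f τ = g τ)
    (hg : HasDerivAt g g' t) : HasDerivAt f g' t := by
  refine hg.congr_of_eventuallyEq ?_
  filter_upwards [Ioo_mem_nhds ht.1 ht.2] with τ hτ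
  exact h τ hτ

/-- the same flow with other representatives of its data -/
noncomputable def Flow.recast (F : Flow a b Lx) (ell dell : Fin 3 → ℝ → ℝ)
    (th k ks kss mu X Y : Fin 3 → ℝ → ℝ → ℝ)
    (hell : ∀ i, ∀ t ∈ Ioo a b, ell i t = F.ell i t)
    (hdell : ∀ i, ∀ t ∈ Ioo a b, dell i t = F.dell i t)
    (hth : ∀ i, ∀ t ∈ Ioo a b, ∀ σ ∈ Icc (0:ℝ) 1, th i t σ = F.th i t σ)
    (hk : ∀ i, ∀ t ∈ Ioo a b, ∀ σ ∈ Icc (0:ℝ) 1, k i t σ = F.k i t σ)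
    (hks : ∀ i, ∀ t ∈ Ioo a b, ∀ σ ∈ Icc (0:ℝ) 1, ks i t σ = F.ks i t σ)
    (hkss : ∀ i, ∀ t ∈ Ioo a b, ∀ σ ∈ Icc (0:ℝ) 1, kss i t σ = F.kss i t σ)
    (hmu : ∀ i, ∀ t ∈ Ioo a b, ∀ σ ∈ Icc (0:ℝ) 1, mu i t σ = F.mu i t σ)
    (hX : ∀ i, ∀ t ∈ Ioo a b, ∀ σ ∈ Icc (0:ℝ) 1, X i t σ = F.X i t σ)
    (hY : ∀ i, ∀ t ∈ Ioo a b, ∀ σ ∈ Icc (0:ℝ) 1, Y i t σ = F.Y i t σ) : Flow a b Lx where
  ell := ell
  dell := dell
  th := th
  k := k
  ks := ks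
  kss := kss
  mu := mu
  X := X
  Y := Y
  Ly := F.Ly
  ell_pos := fun i t ht => by rw [hell i t ht]; exact F.ell_pos i t ht
  ell_t := fun i t ht => by
    rw [hdell i t ht]; exact eg1_dt ht (hell i) (F.ell_t i t ht)
  dell_cont := fun i => (F.dell_cont i).congr (fun t ht => hdell i t ht)
  th_cont := fun i => (F.th_cont i).congr (fun p hp => hth i p.1 hp.1 p.2 hp.2)
  k_cont := fun i => (F.k_cont i).congr (fun p hp => hk i p.1 hp.1 p.2 hp.2)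
  ks_cont := fun i => (F.ks_cont i).congr (fun p hp => hks i p.1 hp.1 p.2 hp.2)
  kss_cont := fun i => (F.kss_cont i).congr (fun p hp => hkss i p.1 hp.1 p.2 hp.2)
  mu_cont := fun i => (F.mu_cont i).congr (fun p hp => hmu i p.1 hp.1 p.2 hp.2)
  X_cont := fun i => (F.X_cont i).congr (fun p hp => hX i p.1 hp.1 p.2 hp.2)
  Y_cont := fun i => (F.Y_cont i).congr (fun p hp => hY i p.1 hp.1 p.2 hp.2)
  th_s := fun i t ht σ hσ => by
    rw [hell i t ht, hk i t ht σ hσ]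
    exact (F.th_s i t ht σ hσ).congr (fun x hx => hth i t ht x hx) (hth i t ht σ hσ)
  k_s := fun i t ht σ hσ => by
    rw [hell i t ht, hks i t ht σ hσ]
    exact (F.k_s i t ht σ hσ).congr (fun x hx => hk i t ht x hx) (hk i t ht σ hσ)
  ks_s := fun i t ht σ hσ => by
    rw [hell i t ht, hkss i t ht σ hσ]
    exact (F.ks_s i t ht σ hσ).congr (fun x hx => hks i t ht x hx) (hks i t ht σ hσ)
  X_s := fun i t ht σ hσ => by
    rw [hell i t ht, hth i t ht σ hσ]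
    exact (F.X_s i t ht σ hσ).congr (fun x hx => hX i t ht x hx) (hX i t ht σ hσ)
  Y_s := fun i t ht σ hσ => by
    rw [hell i t ht, hth i t ht σ hσ]
    exact (F.Y_s i t ht σ hσ).congr (fun x hx => hY i t ht x hx) (hY i t ht σ hσ)
  mu_s := fun i t ht σ hσ => by
    rw [hell i t ht, hdell i t ht, hk i t ht σ hσ]
    exact (F.mu_s i t ht σ hσ).congr (fun x hx => hmu i t ht x hx) (hmu i t ht σ hσ)
  th_t := fun i t ht σ hσ => by
    rw [hks i t ht σ hσ, hmu i t ht σ hσ, hk i t ht σ hσ]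
    exact eg1_dt ht (fun τ hτ => hth i τ hτ σ hσ) (F.th_t i t ht σ hσ)
  k_t := fun i t ht σ hσ => by
    rw [hkss i t ht σ hσ, hks i t ht σ hσ, hmu i t ht σ hσ, hk i t ht σ hσ]
    exact eg1_dt ht (fun τ hτ => hk i τ hτ σ hσ) (F.k_t i t ht σ hσ)
  X_t := fun i t ht σ hσ => by
    rw [hth i t ht σ hσ, hmu i t ht σ hσ, hk i t ht σ hσ]
    exact eg1_dt ht (fun τ hτ => hX i τ hτ σ hσ) (F.X_t i t ht σ hσ)
  Y_t := fun i t ht σ hσ => by
    rw [hth i t ht σ hσ, hmu i t ht σ hσ, hk i t ht σ hσ]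
    exact eg1_dt ht (fun τ hτ => hY i τ hτ σ hσ) (F.Y_t i t ht σ hσ)
  th_J := fun i t ht => by
    rw [hth i t ht 0 (left_mem_Icc.mpr zero_le_one), hth 2 t ht 0 (left_mem_Icc.mpr zero_le_one)]
    exact F.th_J i t ht
  X_J := fun i t ht => by
    rw [hX i t ht 0 (left_mem_Icc.mpr zero_le_one), hX 2 t ht 0 (left_mem_Icc.mpr zero_le_one)]
    exact F.X_J i t ht
  Y_J := fun i t ht => by
    rw [hY i t ht 0 (left_mem_Icc.mpr zero_le_one), hY 2 t ht 0 (left_mem_Icc.mpr zero_le_one)]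
    exact F.Y_J i t ht
  th_axis0 := fun t ht => by
    rw [hth 0 t ht 1 (right_mem_Icc.mpr zero_le_one)]; exact F.th_axis0 t ht
  th_axis1 := fun t ht => by
    rw [hth 1 t ht 1 (right_mem_Icc.mpr zero_le_one)]; exact F.th_axis1 t ht
  X_axis0 := fun t ht => by
    rw [hX 0 t ht 1 (right_mem_Icc.mpr zero_le_one)]; exact F.X_axis0 t ht
  X_axis1 := fun t ht => by
    rw [hX 1 t ht 1 (right_mem_Icc.mpr zero_le_one)]; exact F.X_axis1 t ht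
  mu_end := fun i t ht => by
    rw [hmu i t ht 1 (right_mem_Icc.mpr zero_le_one)]; exact F.mu_end i t ht
  X_far := fun t ht => by
    rw [hX 2 t ht 1 (right_mem_Icc.mpr zero_le_one)]; exact F.X_far t ht
  Y_far := fun t ht => by
    rw [hY 2 t ht 1 (right_mem_Icc.mpr zero_le_one)]; exact F.Y_far t ht
  k_far := fun t ht => by
    rw [hk 2 t ht 1 (right_mem_Icc.mpr zero_le_one)]; exact F.k_far t ht

theorem eg1_split (h2 : a' < b) {t : ℝ} (ht : t ∈ Ioo a b') : t ∈ Ioo a b ∨ t ∈ Ioo a' b' := by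
  rcases lt_or_ge t b with h | h
  · exact Or.inl ⟨ht.1, h⟩
  · exact Or.inr ⟨lt_of_lt_of_le h2 h, ht.2⟩

theorem eg1_cont1 (h2 : a' < b) {f : ℝ → ℝ}
    (hF : ContinuousOn f (Ioo a b)) (hG : ContinuousOn f (Ioo a' b')) :
    ContinuousOn f (Ioo a b') := by
  intro t ht
  rcases eg1_split (a := a) (b' := b') h2 ht with h | h
  · exact (hF.continuousAt (Ioo_mem_nhds h.1 h.2)).continuousWithinAt
  · exact (hG.continuousAt (Ioo_mem_nhds h.1 h.2)).continuousWithinAt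

theorem eg1_cont2 (h2 : a' < b) {f : ℝ × ℝ → ℝ}
    (hF : ContinuousOn f (Ioo a b ×ˢ Icc (0:ℝ) 1)) (hG : ContinuousOn f (Ioo a' b' ×ˢ Icc (0:ℝ) 1)) :
    ContinuousOn f (Ioo a b' ×ˢ Icc (0:ℝ) 1) := by
  have key : ∀ {u v : ℝ}, ContinuousOn f (Ioo u v ×ˢ Icc (0:ℝ) 1) → ∀ p : ℝ × ℝ,
      p.1 ∈ Ioo u v → p.2 ∈ Icc (0:ℝ) 1 → ContinuousWithinAt f (Ioo a b' ×ˢ Icc (0:ℝ) 1) p := by
    intro u v hc p h1 h2
    refine (hc p ⟨h1, h2⟩).mono_of_mem_nhdsWithin ?_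
    have hopen : IsOpen {q : ℝ × ℝ | q.1 ∈ Ioo u v} := isOpen_Ioo.preimage continuous_fst
    have hm : {q : ℝ × ℝ | q.1 ∈ Ioo u v} ∈ 𝓝[Ioo a b' ×ˢ Icc (0:ℝ) 1] p :=
      mem_nhdsWithin_of_mem_nhds (hopen.mem_nhds h1)
    filter_upwards [hm, self_mem_nhdsWithin] with q hq1 hq2
    exact ⟨hq1, hq2.2⟩
  intro p hp
  rcases eg1_split (a := a) (b' := b') h2 hp.1 with h | h
  · exact key hF p h hp.2
  · exact key hG p h hp.2

/-- EG1b : gluing -/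
theorem glue (F : Flow a b Lx) (G : Flow a' b' Lx) (hLy : F.Ly = G.Ly)
    (h1 : a ≤ a') (h2 : a' < b) (h3 : b ≤ b') (h : ∀ t ∈ Ioo a' b, F.Agree G t) :
    ∃ H : Flow a b' Lx, H.Ly = F.Ly ∧ (∀ t ∈ Ioo a b, H.Agree F t) ∧ (∀ t ∈ Ioo a' b', H.Agree G t) := by
  classical
  have D := agree_derived F G hLy h1 le_rfl le_rfl h3 h
  obtain ⟨t0, ht0⟩ : ∃ t0, t0 ∈ Ioo a' b := exists_between h2
  let P : (Fin 3 → ℝ → ℝ) → (Fin 3 → ℝ → ℝ) → Fin 3 → ℝ → ℝ := fun f g i t => if t < t0 then f i t else g i t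
  let Q : (Fin 3 → ℝ → ℝ → ℝ) → (Fin 3 → ℝ → ℝ → ℝ) → Fin 3 → ℝ → ℝ → ℝ :=
    fun f g i t σ => if t < t0 then f i t σ else g i t σ
  have PF : ∀ f g : Fin 3 → ℝ → ℝ, (∀ t ∈ Ioo a' b, ∀ i, f i t = g i t) →
      ∀ i, ∀ t ∈ Ioo a b, P f g i t = f i t := by
    intro f g hfg i t ht
    simp only [P]
    split_ifs with hlt
    · rfl
    · exact (hfg t ⟨lt_of_lt_of_le ht0.1 (not_lt.mp hlt), ht.2⟩ i).symm
  have PG : ∀ f g : Fin 3 → ℝ → ℝ, (∀ t ∈ Ioo a' b, ∀ i, f i t = g i t) →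
      ∀ i, ∀ t ∈ Ioo a' b', P f g i t = g i t := by
    intro f g hfg i t ht
    simp only [P]
    split_ifs with hlt
    · exact hfg t ⟨ht.1, lt_trans hlt ht0.2⟩ i
    · rfl
  have QF : ∀ f g : Fin 3 → ℝ → ℝ → ℝ, (∀ t ∈ Ioo a' b, ∀ i, ∀ σ ∈ Icc (0:ℝ) 1, f i t σ = g i t σ) →
      ∀ i, ∀ t ∈ Ioo a b, ∀ σ ∈ Icc (0:ℝ) 1, Q f g i t σ = f i t σ := by
    intro f g hfg i t ht σ hσ
    simp only [Q]
    split_ifs with hlt
    · rfl
    · exact (hfg t ⟨lt_of_lt_of_le ht0.1 (not_lt.mp hlt), ht.2⟩ i σ hσ).symm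
  have QG : ∀ f g : Fin 3 → ℝ → ℝ → ℝ, (∀ t ∈ Ioo a' b, ∀ i, ∀ σ ∈ Icc (0:ℝ) 1, f i t σ = g i t σ) →
      ∀ i, ∀ t ∈ Ioo a' b', ∀ σ ∈ Icc (0:ℝ) 1, Q f g i t σ = g i t σ := by
    intro f g hfg i t ht σ hσ
    simp only [Q]
    split_ifs with hlt
    · exact hfg t ⟨ht.1, lt_trans hlt ht0.2⟩ i σ hσ
    · rfl
  have e1 : ∀ t ∈ Ioo a' b, ∀ i, F.ell i t = G.ell i t := fun t ht i => (h t ht i).1
  have e2 : ∀ t ∈ Ioo a' b, ∀ i, F.dell i t = G.dell i t := fun t ht i => (D t ht i).1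
  have e3 : ∀ t ∈ Ioo a' b, ∀ i, ∀ σ ∈ Icc (0:ℝ) 1, F.th i t σ = G.th i t σ :=
    fun t ht i => (h t ht i).2
  have e4 : ∀ t ∈ Ioo a' b, ∀ i, ∀ σ ∈ Icc (0:ℝ) 1, F.k i t σ = G.k i t σ :=
    fun t ht i σ hσ => ((D t ht i).2 σ hσ).1
  have e5 : ∀ t ∈ Ioo a' b, ∀ i, ∀ σ ∈ Icc (0:ℝ) 1, F.ks i t σ = G.ks i t σ :=
    fun t ht i σ hσ => ((D t ht i).2 σ hσ).2.1
  have e6 : ∀ t ∈ Ioo a' b, ∀ i, ∀ σ ∈ Icc (0:ℝ) 1, F.kss i t σ = G.kss i t σ :=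
    fun t ht i σ hσ => ((D t ht i).2 σ hσ).2.2.1
  have e7 : ∀ t ∈ Ioo a' b, ∀ i, ∀ σ ∈ Icc (0:ℝ) 1, F.mu i t σ = G.mu i t σ :=
    fun t ht i σ hσ => ((D t ht i).2 σ hσ).2.2.2.1
  have e8 : ∀ t ∈ Ioo a' b, ∀ i, ∀ σ ∈ Icc (0:ℝ) 1, F.X i t σ = G.X i t σ :=
    fun t ht i σ hσ => ((D t ht i).2 σ hσ).2.2.2.2.1
  have e9 : ∀ t ∈ Ioo a' b, ∀ i, ∀ σ ∈ Icc (0:ℝ) 1, F.Y i t σ = G.Y i t σ :=
    fun t ht i σ hσ => ((D t ht i).2 σ hσ).2.2.2.2.2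
  let F' : Flow a b Lx := F.recast (P F.ell G.ell) (P F.dell G.dell) (Q F.th G.th) (Q F.k G.k)
    (Q F.ks G.ks) (Q F.kss G.kss) (Q F.mu G.mu) (Q F.X G.X) (Q F.Y G.Y)
    (PF _ _ e1) (PF _ _ e2) (QF _ _ e3) (QF _ _ e4) (QF _ _ e5) (QF _ _ e6) (QF _ _ e7) (QF _ _ e8)
    (QF _ _ e9)
  let G' : Flow a' b' Lx := G.recast (P F.ell G.ell) (P F.dell G.dell) (Q F.th G.th) (Q F.k G.k)
    (Q F.ks G.ks) (Q F.kss G.kss) (Q F.mu G.mu) (Q F.X G.X) (Q F.Y G.Y)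
    (PG _ _ e1) (PG _ _ e2) (QG _ _ e3) (QG _ _ e4) (QG _ _ e5) (QG _ _ e6) (QG _ _ e7) (QG _ _ e8)
    (QG _ _ e9)
  have sp : ∀ t, t ∈ Ioo a b' → t ∈ Ioo a b ∨ t ∈ Ioo a' b' := fun t ht => eg1_split h2 ht
  refine ⟨{ ell := P F.ell G.ell, dell := P F.dell G.dell, th := Q F.th G.th, k := Q F.k G.k,
            ks := Q F.ks G.ks, kss := Q F.kss G.kss, mu := Q F.mu G.mu, X := Q F.X G.X,
            Y := Q F.Y G.Y, Ly := F.Ly
            ell_pos := fun i t ht => (sp t ht).elim (fun u => F'.ell_pos i t u) (fun u => G'.ell_pos i t u)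
            ell_t := fun i t ht => (sp t ht).elim (fun u => F'.ell_t i t u) (fun u => G'.ell_t i t u)
            dell_cont := fun i => eg1_cont1 h2 (F'.dell_cont i) (G'.dell_cont i)
            th_cont := fun i => eg1_cont2 h2 (F'.th_cont i) (G'.th_cont i)
            k_cont := fun i => eg1_cont2 h2 (F'.k_cont i) (G'.k_cont i)
            ks_cont := fun i => eg1_cont2 h2 (F'.ks_cont i) (G'.ks_cont i)
            kss_cont := fun i => eg1_cont2 h2 (F'.kss_cont i) (G'.kss_cont i)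
            mu_cont := fun i => eg1_cont2 h2 (F'.mu_cont i) (G'.mu_cont i)
            X_cont := fun i => eg1_cont2 h2 (F'.X_cont i) (G'.X_cont i)
            Y_cont := fun i => eg1_cont2 h2 (F'.Y_cont i) (G'.Y_cont i)
            th_s := fun i t ht => (sp t ht).elim (fun u => F'.th_s i t u) (fun u => G'.th_s i t u)
            k_s := fun i t ht => (sp t ht).elim (fun u => F'.k_s i t u) (fun u => G'.k_s i t u)
            ks_s := fun i t ht => (sp t ht).elim (fun u => F'.ks_s i t u) (fun u => G'.ks_s i t u)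
            X_s := fun i t ht => (sp t ht).elim (fun u => F'.X_s i t u) (fun u => G'.X_s i t u)
            Y_s := fun i t ht => (sp t ht).elim (fun u => F'.Y_s i t u) (fun u => G'.Y_s i t u)
            mu_s := fun i t ht => (sp t ht).elim (fun u => F'.mu_s i t u) (fun u => G'.mu_s i t u)
            th_t := fun i t ht => (sp t ht).elim (fun u => F'.th_t i t u) (fun u => G'.th_t i t u)
            k_t := fun i t ht => (sp t ht).elim (fun u => F'.k_t i t u) (fun u => G'.k_t i t u)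
            X_t := fun i t ht => (sp t ht).elim (fun u => F'.X_t i t u) (fun u => G'.X_t i t u)
            Y_t := fun i t ht => (sp t ht).elim (fun u => F'.Y_t i t u) (fun u => G'.Y_t i t u)
            th_J := fun i t ht => (sp t ht).elim (fun u => F'.th_J i t u) (fun u => G'.th_J i t u)
            X_J := fun i t ht => (sp t ht).elim (fun u => F'.X_J i t u) (fun u => G'.X_J i t u)
            Y_J := fun i t ht => (sp t ht).elim (fun u => F'.Y_J i t u) (fun u => G'.Y_J i t u)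
            th_axis0 := fun t ht => (sp t ht).elim (fun u => F'.th_axis0 t u) (fun u => G'.th_axis0 t u)
            th_axis1 := fun t ht => (sp t ht).elim (fun u => F'.th_axis1 t u) (fun u => G'.th_axis1 t u)
            X_axis0 := fun t ht => (sp t ht).elim (fun u => F'.X_axis0 t u) (fun u => G'.X_axis0 t u)
            X_axis1 := fun t ht => (sp t ht).elim (fun u => F'.X_axis1 t u) (fun u => G'.X_axis1 t u)
            mu_end := fun i t ht => (sp t ht).elim (fun u => F'.mu_end i t u) (fun u => G'.mu_end i t u)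
            X_far := fun t ht => (sp t ht).elim (fun u => F'.X_far t u) (fun u => G'.X_far t u)
            Y_far := fun t ht => (sp t ht).elim (fun u => F'.Y_far t u)
              (fun u => by rw [hLy]; exact G'.Y_far t u)
            k_far := fun t ht => (sp t ht).elim (fun u => F'.k_far t u) (fun u => G'.k_far t u) },
          rfl, ?_, ?_⟩
  · intro t ht i
    exact ⟨PF _ _ e1 i t ht, fun σ hσ => QF _ _ e3 i t ht σ hσ⟩
  · intro t ht i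
    exact ⟨PG _ _ e1 i t ht, fun σ hσ => QG _ _ e3 i t ht σ hσ⟩

end Pool.Agent.Helper15.NF
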