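import Pool.Agent.Helper15.NF.EFr

open Set MeasureTheory intervalIntegral Filter Topology

namespace Pool.Agent.Helper15.NF

/-! ### the gauge function -/

theorem EP2_chz_contDiff (n : ℕ∞) : ContDiff ℝ n chz := by
  unfold chz
  exact Real.smoothTransition.contDiff.comp (by fun_prop)

theorem EP2_chz_diff : Differentiable ℝ chz := (EP2_chz_contDiff 1).differentiable (by simp)

theorem EP2_chz_cont : Continuous chz := EP2_chz_diff.continuous

theorem EP2_dchz_contDiff (n : ℕ∞) : ContDiff ℝ n (deriv chz) := by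
  have h : ContDiff ℝ ((n + 1 : ℕ∞)) chz := EP2_chz_contDiff (n + 1)
  have h2 : ContDiff ℝ ((n : WithTop ℕ∞) + 1) chz := by exact_mod_cast h
  exact (contDiff_succ_iff_deriv.1 h2).2.2

theorem EP2_dchz_diff : Differentiable ℝ (deriv chz) := (EP2_dchz_contDiff 1).differentiable (by simp)

theorem EP2_dchz_cont : Continuous (deriv chz) := EP2_dchz_diff.continuous

theorem EP2_ddchz_contDiff (n : ℕ∞) : ContDiff ℝ n (deriv (deriv chz)) := by
  have h : ContDiff ℝ ((n + 1 : ℕ∞)) (deriv chz) := EP2_dchz_contDiff (n + 1)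
  have h2 : ContDiff ℝ ((n : WithTop ℕ∞) + 1) (deriv chz) := by exact_mod_cast h
  exact (contDiff_succ_iff_deriv.1 h2).2.2

theorem EP2_ddchz_diff : Differentiable ℝ (deriv (deriv chz)) :=
  (EP2_ddchz_contDiff 1).differentiable (by simp)

theorem EP2_ddchz_cont : Continuous (deriv (deriv chz)) := EP2_ddchz_diff.continuous

theorem EP2_dddchz_cont : Continuous (deriv (deriv (deriv chz))) := by
  have h2 : ContDiff ℝ ((0 : WithTop ℕ∞) + 1) (deriv (deriv chz)) := by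
    have := EP2_ddchz_contDiff 1
    exact_mod_cast this
  exact (contDiff_succ_iff_deriv.1 h2).2.2.continuous

theorem EP2_chz_zero : chz 0 = 0 := by
  unfold chz
  exact Real.smoothTransition.zero_of_nonpos (by norm_num)

theorem EP2_chz_one : chz 1 = 1 := by
  unfold chz
  exact Real.smoothTransition.one_of_one_le (by norm_num)

theorem EP2_chz_nonneg (x : ℝ) : 0 ≤ chz x := Real.smoothTransition.nonneg _

theorem EP2_chz_le_one (x : ℝ) : chz x ≤ 1 := Real.smoothTransition.le_one _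

theorem EP2_dchz_zero : deriv chz 0 = 0 := by
  have h : chz =ᶠ[𝓝 0] fun _ => (0:ℝ) := by
    filter_upwards [Iio_mem_nhds (show (0:ℝ) < 1 / 3 by norm_num)] with x hx
    unfold chz
    exact Real.smoothTransition.zero_of_nonpos (by simp only [mem_Iio] at hx; linarith)
  rw [h.deriv_eq]
  simp

/-! ### the inverse of the change of gauge -/

/-- admissible gauge parameters -/
def EP2_Adm (e : ℝ) : Prop := (∀ x, 1 / 2 ≤ 1 + e * deriv chz x) ∧ |e| ≤ 1 / 2

theorem EP2_w_hasDeriv (e x : ℝ) : HasDerivAt (fun x => x + e * chz x) (1 + e * deriv chz x) x := by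
  have h := (EP2_chz_diff x).hasDerivAt
  exact (hasDerivAt_id x).add (h.const_mul e)

theorem EP2_w_lower {e : ℝ} (he : EP2_Adm e) {x y : ℝ} (hxy : x ≤ y) :
    (y - x) / 2 ≤ (y + e * chz y) - (x + e * chz x) := by
  have hm : Monotone (fun x => (x + e * chz x) - x / 2) := by
    apply monotone_of_deriv_nonneg
    · intro x
      exact ((EP2_w_hasDeriv e x).sub ((hasDerivAt_id x).div_const 2)).differentiableAt
    · intro x
      have h := ((EP2_w_hasDeriv e x).sub ((hasDerivAt_id x).div_const 2)).deriv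
      have h2 : deriv (fun x => (x + e * chz x) - x / 2) x = 1 + e * deriv chz x - 1 / 2 := h
      rw [h2]
      linarith [he.1 x]
  have := hm hxy
  simp only at this
  linarith

theorem EP2_w_abs {e : ℝ} (he : EP2_Adm e) (x y : ℝ) :
    |x - y| ≤ 2 * |(x + e * chz x) - (y + e * chz y)| := by
  rcases le_total x y with h | h
  · have h1 := EP2_w_lower he h
    rw [abs_sub_comm x y, abs_of_nonneg (by linarith)]
    rw [abs_sub_comm]
    linarith [le_abs_self ((y + e * chz y) - (x + e * chz x))]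
  · have h1 := EP2_w_lower he h
    rw [abs_of_nonneg (by linarith)]
    linarith [le_abs_self ((x + e * chz x) - (y + e * chz y))]

theorem EP2_w_surj (e : ℝ) (s : ℝ) : ∃ x, x + e * chz x = s := by
  have hc : Continuous (fun x => x + e * chz x) := continuous_id.add (continuous_const.mul EP2_chz_cont)
  have hb : ∀ x, |e * chz x| ≤ |e| := by
    intro x
    rw [abs_mul, abs_of_nonneg (EP2_chz_nonneg x)]
    exact mul_le_of_le_one_right (abs_nonneg e) (EP2_chz_le_one x)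
  have h1 : Tendsto (fun x => x + e * chz x) atTop atTop := by
    apply tendsto_atTop_mono (fun x => ?_) (tendsto_atTop_add_const_right atTop (-|e|) tendsto_id)
    have := neg_le_of_abs_le (hb x)
    simp only [id]
    linarith
  have h2 : Tendsto (fun x => x + e * chz x) atBot atBot := by
    apply tendsto_atBot_mono (fun x => ?_) (tendsto_atBot_add_const_right atBot (|e|) tendsto_id)
    have := le_of_abs_le (hb x)
    simp only [id]
    linarith
  exact hc.surjective h1 h2 s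

/-- the frozen variable as a function of the constant speed variable -/
noncomputable def EP2_xi (e σ : ℝ) : ℝ := Classical.choose (EP2_w_surj e ((1 + e) * σ))

theorem EP2_xi_spec (e σ : ℝ) : EP2_xi e σ + e * chz (EP2_xi e σ) = (1 + e) * σ :=
  Classical.choose_spec (EP2_w_surj e ((1 + e) * σ))

theorem EP2_xi_unique {e : ℝ} (he : EP2_Adm e) {x σ : ℝ} (h : x + e * chz x = (1 + e) * σ) :
    EP2_xi e σ = x := by
  have h1 := EP2_w_abs he (EP2_xi e σ) x
  rw [EP2_xi_spec, h, sub_self, abs_zero, mul_zero] at h1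
  have := abs_nonpos_iff.1 h1
  linarith

theorem EP2_xi_zero {e : ℝ} (he : EP2_Adm e) : EP2_xi e 0 = 0 :=
  EP2_xi_unique he (by rw [EP2_chz_zero]; ring)

theorem EP2_xi_one {e : ℝ} (he : EP2_Adm e) : EP2_xi e 1 = 1 :=
  EP2_xi_unique he (by rw [EP2_chz_one]; ring)

theorem EP2_c_pos {e : ℝ} (he : EP2_Adm e) : 1 / 2 ≤ 1 + e := by
  have := neg_le_of_abs_le he.2
  linarith

theorem EP2_w_mono {e : ℝ} (he : EP2_Adm e) : StrictMono (fun x => x + e * chz x) := by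
  intro x y hxy
  have := EP2_w_lower he hxy.le
  simp only
  linarith

theorem EP2_xi_mem {e : ℝ} (he : EP2_Adm e) {σ : ℝ} (hσ : σ ∈ Icc (0:ℝ) 1) :
    EP2_xi e σ ∈ Icc (0:ℝ) 1 := by
  have hc := EP2_c_pos he
  constructor
  · rw [← (EP2_w_mono he).le_iff_le]
    rw [EP2_xi_spec, EP2_chz_zero]
    nlinarith [hσ.1]
  · rw [← (EP2_w_mono he).le_iff_le]
    rw [EP2_xi_spec, EP2_chz_one]
    nlinarith [hσ.2]

theorem EP2_xi_near {e : ℝ} {σ : ℝ} (hσ : σ ∈ Icc (0:ℝ) 1) :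
    |EP2_xi e σ - σ| ≤ |e| := by
  have h := EP2_xi_spec e σ
  have h1 : EP2_xi e σ - σ = e * (σ - chz (EP2_xi e σ)) := by linarith
  rw [h1, abs_mul]
  apply mul_le_of_le_one_right (abs_nonneg e)
  rw [abs_le]
  constructor
  · linarith [EP2_chz_le_one (EP2_xi e σ), hσ.1]
  · linarith [EP2_chz_nonneg (EP2_xi e σ), hσ.2]

theorem EP2_xi_cont : ContinuousOn (fun p : ℝ × ℝ => EP2_xi p.1 p.2) {p | EP2_Adm p.1} := by
  intro p hp
  rw [ContinuousWithinAt, tendsto_iff_dist_tendsto_zero]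
  have hg : Tendsto (fun q : ℝ × ℝ => 2 * |(1 + q.1) * q.2 -
      (EP2_xi p.1 p.2 + q.1 * chz (EP2_xi p.1 p.2))|) (𝓝[{p | EP2_Adm p.1}] p) (𝓝 0) := by
    have hc : Continuous (fun q : ℝ × ℝ => 2 * |(1 + q.1) * q.2 -
      (EP2_xi p.1 p.2 + q.1 * chz (EP2_xi p.1 p.2))|) := by fun_prop
    have h0 := (hc.tendsto p)
    have h1 : 2 * |(1 + p.1) * p.2 - (EP2_xi p.1 p.2 + p.1 * chz (EP2_xi p.1 p.2))| = 0 := by
      rw [EP2_xi_spec, sub_self, abs_zero, mul_zero]
    simp only [h1] at h0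
    exact h0.mono_left nhdsWithin_le_nhds
  refine squeeze_zero' (Eventually.of_forall fun q => dist_nonneg) ?_ hg
  filter_upwards [self_mem_nhdsWithin] with q hq
  rw [Real.dist_eq]
  have := EP2_w_abs hq (EP2_xi q.1 q.2) (EP2_xi p.1 p.2)
  rw [EP2_xi_spec q.1 q.2] at this
  exact this

theorem EP2_xi_hasDeriv_s {e : ℝ} (he : EP2_Adm e) (σ : ℝ) :
    HasDerivAt (EP2_xi e) ((1 + e) * (1 + e * deriv chz (EP2_xi e σ))⁻¹) σ := by
  have hc := EP2_c_pos he
  have hw := he.1 (EP2_xi e σ)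
  have h1 : HasDerivAt (fun x => (x + e * chz x) / (1 + e))
      ((1 + e * deriv chz (EP2_xi e σ)) / (1 + e)) (EP2_xi e σ) :=
    (EP2_w_hasDeriv e (EP2_xi e σ)).div_const _
  have hcont : ContinuousAt (EP2_xi e) σ := by
    have h : Continuous (EP2_xi e) := by
      rw [← continuousOn_univ]
      exact EP2_xi_cont.comp (by fun_prop : ContinuousOn (fun σ : ℝ => ((e, σ) : ℝ × ℝ)) univ)
        (fun σ _ => he)
    exact h.continuousAt
  have h2 := HasDerivAt.of_local_left_inverse hcont h1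
    (by apply div_ne_zero <;> linarith) (Eventually.of_forall fun y => by
      rw [EP2_xi_spec]
      field_simp)
  have h3 : (1 + e) * (1 + e * deriv chz (EP2_xi e σ))⁻¹ =
      ((1 + e * deriv chz (EP2_xi e σ)) / (1 + e))⁻¹ := by
    rw [inv_div]; rfl
  rw [h3]
  exact h2

theorem EP2_xi_hasDeriv_t {e : ℝ → ℝ} {de t : ℝ} (he : HasDerivAt e de t)
    (hA : ∀ᶠ s in 𝓝 t, EP2_Adm (e s)) (σ : ℝ) :
    HasDerivAt (fun s => EP2_xi (e s) σ)
      (de * (σ - chz (EP2_xi (e t) σ)) * (1 + e t * deriv chz (EP2_xi (e t) σ))⁻¹) t := by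
  have hAt : EP2_Adm (e t) := hA.self_of_nhds
  have hcont : ContinuousAt (fun s => EP2_xi (e s) σ) t := by
    have h1 : ContinuousWithinAt (fun p : ℝ × ℝ => EP2_xi p.1 p.2) {p | EP2_Adm p.1} (e t, σ) :=
      EP2_xi_cont (e t, σ) hAt
    have h2 : Tendsto (fun s => ((e s, σ) : ℝ × ℝ)) (𝓝 t) (𝓝[{p | EP2_Adm p.1}] (e t, σ)) := by
      rw [tendsto_nhdsWithin_iff]
      refine ⟨?_, ?_⟩
      · exact (he.continuousAt.prodMk continuousAt_const)
      · filter_upwards [hA] with s hs using hs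
    exact h1.tendsto.comp h2
  set ξ := EP2_xi (e t) σ with hξ
  have hD : ContinuousAt (dslope chz ξ) ξ := continuousAt_dslope_same.2 (EP2_chz_diff ξ)
  have hB : Tendsto (fun s => 1 + e s * dslope chz ξ (EP2_xi (e s) σ)) (𝓝 t)
      (𝓝 (1 + e t * deriv chz ξ)) := by
    have h1 : Tendsto (fun s => dslope chz ξ (EP2_xi (e s) σ)) (𝓝 t) (𝓝 (deriv chz ξ)) := by
      have h2 : Tendsto (dslope chz ξ) (𝓝 ξ) (𝓝 (deriv chz ξ)) := by
        have := hD.tendsto
        rwa [dslope_same] at this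
      exact h2.comp hcont.tendsto
    exact tendsto_const_nhds.add (he.continuousAt.tendsto.mul h1)
  have hne : 1 + e t * deriv chz ξ ≠ 0 := by
    have := hAt.1 ξ
    intro h
    linarith
  rw [hasDerivAt_iff_tendsto_slope]
  have hs := (hasDerivAt_iff_tendsto_slope.1 he)
  have hB' : Tendsto (fun s => (1 + e s * dslope chz ξ (EP2_xi (e s) σ))⁻¹) (𝓝[≠] t)
      (𝓝 (1 + e t * deriv chz ξ)⁻¹) := (hB.inv₀ hne).mono_left nhdsWithin_le_nhds
  have hlim := (hs.mul_const (σ - chz ξ)).mul hB'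
  refine hlim.congr' ?_
  have hBne : ∀ᶠ s in 𝓝[≠] t, 1 + e s * dslope chz ξ (EP2_xi (e s) σ) ≠ 0 :=
    (hB.eventually_ne hne).filter_mono nhdsWithin_le_nhds
  filter_upwards [hBne, hA.filter_mono nhdsWithin_le_nhds, self_mem_nhdsWithin] with s hs1 hs2 hs3
  have hs3' : s - t ≠ 0 := sub_ne_zero.2 hs3
  rw [slope_def_field, slope_def_field]
  have hds : chz (EP2_xi (e s) σ) - chz ξ =
      (EP2_xi (e s) σ - ξ) * dslope chz ξ (EP2_xi (e s) σ) := by
    have := sub_smul_dslope chz ξ (EP2_xi (e s) σ)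
    rw [smul_eq_mul] at this
    exact this.symm
  have h1 := EP2_xi_spec (e s) σ
  have h2 := EP2_xi_spec (e t) σ
  rw [← hξ] at h2
  have key : (EP2_xi (e s) σ - ξ) * (1 + e s * dslope chz ξ (EP2_xi (e s) σ)) =
      (e s - e t) * (σ - chz ξ) := by
    have : (EP2_xi (e s) σ - ξ) * (1 + e s * dslope chz ξ (EP2_xi (e s) σ)) =
        (EP2_xi (e s) σ - ξ) + e s * (chz (EP2_xi (e s) σ) - chz ξ) := by
      rw [hds]; ring
    rw [this]
    linarith
  have key2 : EP2_xi (e s) σ - ξ = (e s - e t) * (σ - chz ξ) *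
      (1 + e s * dslope chz ξ (EP2_xi (e s) σ))⁻¹ := by
    rw [← key]
    field_simp
  rw [key2]
  ring

/-! ### analysis lemmas -/

theorem EP2_int_cont {τ : ℝ} {f : ℝ → ℝ → ℝ}
    (hf : ContinuousOn (fun p : ℝ × ℝ => f p.1 p.2) (Ioo 0 τ ×ˢ Icc 0 1)) :
    ContinuousOn (fun p : ℝ × ℝ => ∫ y in (0:ℝ)..p.2, f p.1 y) (Ioo 0 τ ×ˢ Icc 0 1) := by
  have h1 : Continuous (Function.uncurry
      (fun (q : Ioo (0:ℝ) τ × ℝ) (y : ℝ) => f q.1.1 (max 0 (min 1 y)))) := by
    have := hf.comp_continuous (f := fun q : (Ioo (0:ℝ) τ × ℝ) × ℝ => (q.1.1.1, max 0 (min 1 q.2)))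
      (by fun_prop) (fun q => ⟨q.1.1.2, le_max_left _ _, max_le zero_le_one (min_le_left _ _)⟩)
    exact this
  have h2 := continuous_parametric_intervalIntegral_of_continuous (μ := volume) (a₀ := 0) h1
    (s := fun q : Ioo (0:ℝ) τ × ℝ => q.2) continuous_snd
  rw [continuousOn_iff_continuous_domRestrict]
  have h3 : Continuous (fun p : (Ioo (0:ℝ) τ ×ˢ Icc (0:ℝ) 1 : Set (ℝ × ℝ)) =>
      ((⟨p.1.1, p.2.1⟩ : Ioo (0:ℝ) τ), p.1.2)) := by fun_prop
  refine (h2.comp h3).congr (fun p => ?_)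
  simp only [Function.comp, domRestrict_apply]
  apply intervalIntegral.integral_congr
  intro y hy
  rw [uIcc_of_le p.2.2.1] at hy
  simp only
  rw [min_eq_right (hy.2.trans p.2.2.2), max_eq_right hy.1]

theorem EP2_comp_t {τ t : ℝ} {f g : ℝ → ℝ → ℝ} {x : ℝ → ℝ} {dx ft : ℝ}
    (hg : ContinuousOn (fun p : ℝ × ℝ => g p.1 p.2) (Ioo 0 τ ×ˢ Icc 0 1))
    (hf : ∀ s ∈ Ioo 0 τ, ∀ y ∈ Icc (0:ℝ) 1, HasDerivWithinAt (f s) (g s y) (Icc 0 1) y)
    (ht : t ∈ Ioo 0 τ) (hx : ∀ s ∈ Ioo 0 τ, x s ∈ Icc (0:ℝ) 1) (hdx : HasDerivAt x dx t)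
    (hft : HasDerivAt (fun s => f s (x t)) ft t) :
    HasDerivAt (fun s => f s (x s)) (ft + g t (x t) * dx) t := by
  have hmain : HasDerivAt (fun s => f s (x s) - f s (x t) - g t (x t) * (x s - x t)) 0 t := by
    rw [hasDerivAt_iff_isLittleO]
    simp only [sub_self, mul_zero, sub_zero, smul_zero]
    have hO : (fun s => x s - x t) =O[𝓝 t] fun s => s - t := hdx.isBigO_sub
    refine Asymptotics.IsLittleO.trans_isBigO ?_ hO
    rw [Asymptotics.isLittleO_iff]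
    intro ε hε
    have hc := hg (t, x t) ⟨ht, hx t ht⟩
    rw [ContinuousWithinAt, Metric.tendsto_nhdsWithin_nhds] at hc
    obtain ⟨δ, hδ, hc⟩ := hc ε hε
    have hxc : ∀ᶠ s in 𝓝 t, |x s - x t| < δ := by
      have := hdx.continuousAt.tendsto
      rw [Metric.tendsto_nhds] at this
      exact this δ hδ
    filter_upwards [hxc, Ioo_mem_nhds ht.1 ht.2, Metric.ball_mem_nhds t hδ] with s hs1 hs2 hs3
    have hsub : uIcc (x t) (x s) ⊆ Icc (0:ℝ) 1 := by
      have h1 := hx t ht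
      have h2 := hx s hs2
      exact uIcc_subset_Icc h1 h2
    have hmv := Convex.norm_image_sub_le_of_norm_hasDerivWithin_le (𝕜 := ℝ) (s := uIcc (x t) (x s))
      (f := fun y => f s y - g t (x t) * y) (f' := fun y => g s y - g t (x t)) (C := ε)
      (x := x t) (y := x s)
      (fun y hy => by
        have h1 := (hf s hs2 y (hsub hy)).mono hsub
        have h2 : HasDerivWithinAt (fun y : ℝ => g t (x t) * y) (g t (x t)) (uIcc (x t) (x s)) y := by
          simpa using (hasDerivWithinAt_id y (uIcc (x t) (x s))).const_mul (g t (x t))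
        exact h1.sub h2)
      (fun y hy => by
        have h1 : dist ((s, y) : ℝ × ℝ) (t, x t) < δ := by
          rw [Prod.dist_eq, max_lt_iff]
          refine ⟨hs3, ?_⟩
          simp only
          rw [Real.dist_eq]
          have := abs_sub_left_of_mem_uIcc hy
          exact lt_of_le_of_lt this hs1
        have := hc ⟨hs2, hsub hy⟩ h1
        rw [Real.dist_eq] at this
        exact this.le)
      (convex_uIcc _ _) left_mem_uIcc right_mem_uIcc
    simp only [Real.norm_eq_abs] at hmv ⊢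
    calc |f s (x s) - f s (x t) - g t (x t) * (x s - x t)|
        = |f s (x s) - g t (x t) * x s - (f s (x t) - g t (x t) * x t)| := by congr 1; ring
      _ ≤ ε * |x s - x t| := hmv
  have h2 : HasDerivAt (fun s => g t (x t) * (x s - x t)) (g t (x t) * dx) t :=
    (hdx.sub_const _).const_mul _
  have h3 := (hft.add h2).add hmain
  rw [add_zero] at h3
  refine h3.congr_of_eventuallyEq (Eventually.of_forall fun s => ?_)
  simp only [Pi.add_apply]
  ring

/-! ### the fields of the flow -/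

section fields

variable {Lx τ : ℝ} {L : Fin 3 → ℝ} (Z : Frozen L τ)

theorem EP2_adm {i : Fin 3} {t : ℝ} (ht : t ∈ Ioo 0 τ) : EP2_Adm (Z.e i t) :=
  ⟨Z.adm i t ht, Z.adm1 i t ht⟩

theorem EP2_e_cont (i : Fin 3) : ContinuousOn (Z.e i) (Ioo 0 τ) := fun t ht =>
  (Z.e_t i t ht).continuousAt.continuousWithinAt

theorem EP2_e_cont2 (i : Fin 3) :
    ContinuousOn (fun p : ℝ × ℝ => Z.e i p.1) (Ioo 0 τ ×ˢ Icc 0 1) :=
  (EP2_e_cont Z i).comp continuousOn_fst (fun _ hp => hp.1)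

theorem EP2_X_cont (i : Fin 3) :
    ContinuousOn (fun p : ℝ × ℝ => EP2_xi (Z.e i p.1) p.2) (Ioo 0 τ ×ˢ Icc 0 1) := by
  have h : ContinuousOn (fun p : ℝ × ℝ => ((Z.e i p.1, p.2) : ℝ × ℝ)) (Ioo 0 τ ×ˢ Icc 0 1) :=
    (EP2_e_cont2 Z i).prodMk continuousOn_snd
  exact EP2_xi_cont.comp h (fun p hp => EP2_adm Z hp.1)

theorem EP2_lift (i : Fin 3) {f : ℝ → ℝ → ℝ}
    (hf : ContinuousOn (fun p : ℝ × ℝ => f p.1 p.2) (Ioo 0 τ ×ˢ Icc 0 1)) :
    ContinuousOn (fun p : ℝ × ℝ => f p.1 (EP2_xi (Z.e i p.1) p.2)) (Ioo 0 τ ×ˢ Icc 0 1) := by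
  have h : ContinuousOn (fun p : ℝ × ℝ => ((p.1, EP2_xi (Z.e i p.1) p.2) : ℝ × ℝ))
      (Ioo 0 τ ×ˢ Icc 0 1) := continuousOn_fst.prodMk (EP2_X_cont Z i)
  exact hf.comp h (fun p hp => ⟨hp.1, EP2_xi_mem (EP2_adm Z hp.1) hp.2⟩)

theorem EP2_den {i : Fin 3} {t : ℝ} (ht : t ∈ Ioo 0 τ) (x : ℝ) :
    1 + Z.e i t * deriv chz x ≠ 0 := by
  have := Z.adm i t ht x
  intro h
  linarith

theorem EP2_psi_cont (i : Fin 3) :
    ContinuousOn (fun p : ℝ × ℝ => (1 + Z.e i p.1 * deriv chz p.2)⁻¹) (Ioo 0 τ ×ˢ Icc 0 1) := by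
  apply ContinuousOn.inv₀
  · exact continuousOn_const.add ((EP2_e_cont2 Z i).mul
      (EP2_dchz_cont.comp_continuousOn continuousOn_snd))
  · intro p hp
    exact EP2_den Z hp.1 p.2

/-- curvature as a function of the frozen variable -/
noncomputable def EP2_K (i : Fin 3) (t x : ℝ) : ℝ := (1 + Z.e i t * deriv chz x)⁻¹ * Z.z i t x

noncomputable def EP2_KS (i : Fin 3) (t x : ℝ) : ℝ :=
  (1 + Z.e i t * deriv chz x)⁻¹ ^ 2 * Z.z1 i t x
    - (1 + Z.e i t * deriv chz x)⁻¹ ^ 3 * (Z.e i t / L i) * deriv (deriv chz) x * Z.z i t x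

noncomputable def EP2_KSS (i : Fin 3) (t x : ℝ) : ℝ :=
  (1 + Z.e i t * deriv chz x)⁻¹ / L i *
    ((1 + Z.e i t * deriv chz x)⁻¹ ^ 2 * (L i * Z.z2 i t x)
      - 3 * (1 + Z.e i t * deriv chz x)⁻¹ ^ 3 * Z.e i t * deriv (deriv chz) x * Z.z1 i t x
      + 3 * (1 + Z.e i t * deriv chz x)⁻¹ ^ 4 * Z.e i t * (Z.e i t / L i) *
        deriv (deriv chz) x ^ 2 * Z.z i t x
      - (1 + Z.e i t * deriv chz x)⁻¹ ^ 3 * (Z.e i t / L i) * deriv (deriv (deriv chz)) x *
        Z.z i t x)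

noncomputable def EP2_Q (i : Fin 3) (t x : ℝ) : ℝ :=
  ∫ y in (0:ℝ)..x, (1 + Z.e i t * deriv chz y)⁻¹ * Z.z i t y ^ 2

theorem EP2_Qi_cont (i : Fin 3) : ContinuousOn
    (fun p : ℝ × ℝ => (1 + Z.e i p.1 * deriv chz p.2)⁻¹ * Z.z i p.1 p.2 ^ 2)
    (Ioo 0 τ ×ˢ Icc 0 1) := (EP2_psi_cont Z i).mul ((Z.z_cont i).pow 2)

theorem EP2_Q_cont (i : Fin 3) : ContinuousOn
    (fun p : ℝ × ℝ => EP2_Q Z i p.1 p.2) (Ioo 0 τ ×ˢ Icc 0 1) :=
  EP2_int_cont (f := fun t y => (1 + Z.e i t * deriv chz y)⁻¹ * Z.z i t y ^ 2) (EP2_Qi_cont Z i)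

theorem EP2_K_cont (i : Fin 3) : ContinuousOn
    (fun p : ℝ × ℝ => EP2_K Z i p.1 p.2) (Ioo 0 τ ×ˢ Icc 0 1) :=
  (EP2_psi_cont Z i).mul (Z.z_cont i)

theorem EP2_KS_cont (i : Fin 3) : ContinuousOn
    (fun p : ℝ × ℝ => EP2_KS Z i p.1 p.2) (Ioo 0 τ ×ˢ Icc 0 1) := by
  have h2 : ContinuousOn (fun p : ℝ × ℝ => deriv (deriv chz) p.2) (Ioo 0 τ ×ˢ Icc 0 1) :=
    EP2_ddchz_cont.comp_continuousOn continuousOn_snd
  exact (((EP2_psi_cont Z i).pow 2).mul (Z.z1_cont i)).sub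
    (((((EP2_psi_cont Z i).pow 3).mul ((EP2_e_cont2 Z i).div_const _)).mul h2).mul (Z.z_cont i))

theorem EP2_KSS_cont (i : Fin 3) : ContinuousOn
    (fun p : ℝ × ℝ => EP2_KSS Z i p.1 p.2) (Ioo 0 τ ×ˢ Icc 0 1) := by
  have h2 : ContinuousOn (fun p : ℝ × ℝ => deriv (deriv chz) p.2) (Ioo 0 τ ×ˢ Icc 0 1) :=
    EP2_ddchz_cont.comp_continuousOn continuousOn_snd
  have h3 : ContinuousOn (fun p : ℝ × ℝ => deriv (deriv (deriv chz)) p.2) (Ioo 0 τ ×ˢ Icc 0 1) :=
    EP2_dddchz_cont.comp_continuousOn continuousOn_snd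
  have hp := EP2_psi_cont Z i
  have he := EP2_e_cont2 Z i
  have hz := Z.z_cont i
  have hz1 := Z.z1_cont i
  have hz2 := Z.z2_cont i
  unfold EP2_KSS
  exact (hp.div_const _).mul (((((hp.pow 2).mul (continuousOn_const.mul hz2)).sub
    ((((continuousOn_const.mul (hp.pow 3)).mul he).mul h2).mul hz1)).add
    (((((continuousOn_const.mul (hp.pow 4)).mul he).mul (he.div_const _)).mul (h2.pow 2)).mul hz)).sub
    ((((hp.pow 3).mul (he.div_const _)).mul h3).mul hz))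

theorem EP2_slice {f : ℝ → ℝ → ℝ}
    (hf : ContinuousOn (fun p : ℝ × ℝ => f p.1 p.2) (Ioo 0 τ ×ˢ Icc 0 1)) {t : ℝ}
    (ht : t ∈ Ioo 0 τ) : ContinuousOn (f t) (Icc 0 1) :=
  hf.comp (by fun_prop : ContinuousOn (fun σ : ℝ => ((t, σ) : ℝ × ℝ)) (Icc 0 1))
    (fun σ hσ => ⟨ht, hσ⟩)

theorem EP2_psi_x {i : Fin 3} {t : ℝ} (ht : t ∈ Ioo 0 τ) (x : ℝ) :
    HasDerivAt (fun x => (1 + Z.e i t * deriv chz x)⁻¹)
      (-(Z.e i t * deriv (deriv chz) x) * (1 + Z.e i t * deriv chz x)⁻¹ ^ 2) x := by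
  have h1 : HasDerivAt (fun x => 1 + Z.e i t * deriv chz x) (Z.e i t * deriv (deriv chz) x) x :=
    ((EP2_dchz_diff x).hasDerivAt.const_mul _).const_add _
  have h2 := h1.inv (EP2_den Z ht x)
  refine h2.congr_deriv ?_
  rw [inv_pow]
  rfl

theorem EP2_K_x {i : Fin 3} {t : ℝ} (ht : t ∈ Ioo 0 τ) {x : ℝ} (hx : x ∈ Icc (0:ℝ) 1) :
    HasDerivWithinAt (EP2_K Z i t) (L i * (1 + Z.e i t * deriv chz x) * EP2_KS Z i t x)
      (Icc 0 1) x := by
  have h := (EP2_psi_x Z ht x (i := i)).hasDerivWithinAt (s := Icc (0:ℝ) 1) |>.mul (Z.z_x i t ht x hx)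
  refine h.congr_deriv ?_
  have hd := EP2_den Z (i := i) ht x
  have hL := (Z.L_pos i).ne'
  unfold EP2_KS
  field_simp
  ring

theorem EP2_KS_x {i : Fin 3} {t : ℝ} (ht : t ∈ Ioo 0 τ) {x : ℝ} (hx : x ∈ Icc (0:ℝ) 1) :
    HasDerivWithinAt (EP2_KS Z i t) (L i * (1 + Z.e i t * deriv chz x) * EP2_KSS Z i t x)
      (Icc 0 1) x := by
  have hp := (EP2_psi_x Z ht x (i := i)).hasDerivWithinAt (s := Icc (0:ℝ) 1)
  have hc : HasDerivWithinAt (deriv (deriv chz)) (deriv (deriv (deriv chz)) x) (Icc 0 1) x :=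
    (EP2_ddchz_diff x).hasDerivAt.hasDerivWithinAt
  have h := ((hp.pow 2).mul (Z.z1_x i t ht x hx)).sub
    ((((hp.pow 3).mul_const (Z.e i t / L i)).mul hc).mul (Z.z_x i t ht x hx))
  refine h.congr_deriv ?_
  have hd := EP2_den Z (i := i) ht x
  have hL := (Z.L_pos i).ne'
  unfold EP2_KSS
  simp only [Pi.pow_apply, Pi.mul_apply, show (2:ℕ) - 1 = 1 from rfl, show (3:ℕ) - 1 = 2 from rfl,
    pow_one]
  push_cast
  field_simp
  ring

theorem EP2_Q_x {i : Fin 3} {t : ℝ} (ht : t ∈ Ioo 0 τ) {x : ℝ} (hx : x ∈ Icc (0:ℝ) 1) :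
    HasDerivWithinAt (fun x => L i * EP2_Q Z i t x)
      (L i * (1 + Z.e i t * deriv chz x) * EP2_K Z i t x ^ 2) (Icc 0 1) x := by
  have hc := EP2_slice (f := fun t y => (1 + Z.e i t * deriv chz y)⁻¹ * Z.z i t y ^ 2)
    (EP2_Qi_cont Z i) ht
  have h1 : HasDerivWithinAt (EP2_Q Z i t) ((1 + Z.e i t * deriv chz x)⁻¹ * Z.z i t x ^ 2)
      (Icc 0 1) x := by
    have hii : IntervalIntegrable (fun y => (1 + Z.e i t * deriv chz y)⁻¹ * Z.z i t y ^ 2)
        volume 0 x := by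
      apply ContinuousOn.intervalIntegrable
      rw [uIcc_of_le hx.1]
      exact hc.mono (Icc_subset_Icc le_rfl hx.2)
    have : Fact (x ∈ Icc (0:ℝ) 1) := ⟨hx⟩
    exact integral_hasDerivWithinAt_right hii
      (hc.stronglyMeasurableAtFilter_nhdsWithin measurableSet_Icc x) (hc x hx)
  refine (h1.const_mul (L i)).congr_deriv ?_
  have hd := EP2_den Z (i := i) ht x
  unfold EP2_K
  field_simp

theorem EP2_chain {e l g σ : ℝ} (he : EP2_Adm e) {f : ℝ → ℝ}
    (hf : HasDerivWithinAt f (l * (1 + e * deriv chz (EP2_xi e σ)) * g) (Icc 0 1) (EP2_xi e σ)) :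
    HasDerivWithinAt (fun σ => f (EP2_xi e σ)) (l * (1 + e) * g) (Icc 0 1) σ := by
  have h1 := (EP2_xi_hasDeriv_s he σ).hasDerivWithinAt (s := Icc (0:ℝ) 1)
  have h2 := HasDerivWithinAt.comp σ hf h1 (fun y hy => EP2_xi_mem he hy)
  refine h2.congr_deriv ?_
  have := he.1 (EP2_xi e σ)
  have hne : 1 + e * deriv chz (EP2_xi e σ) ≠ 0 := by
    intro h; linarith
  field_simp

noncomputable def EP2_Mu (i : Fin 3) (t σ : ℝ) : ℝ :=
  -(Z.z (i + 1) t 0 - Z.z (i + 2) t 0) / Real.sqrt 3 + L i * Z.de i t * σ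
    + L i * EP2_Q Z i t (EP2_xi (Z.e i t) σ)

theorem EP2_K_zero (i : Fin 3) (t : ℝ) : EP2_K Z i t 0 = Z.z i t 0 := by
  unfold EP2_K
  rw [EP2_dchz_zero]
  simp

theorem EP2_th_t {i : Fin 3} {t : ℝ} (ht : t ∈ Ioo 0 τ) {σ : ℝ} (hσ : σ ∈ Icc (0:ℝ) 1) :
    HasDerivAt (fun s => Z.Th i s (EP2_xi (Z.e i s) σ))
      (EP2_KS Z i t (EP2_xi (Z.e i t) σ) + EP2_Mu Z i t σ * EP2_K Z i t (EP2_xi (Z.e i t) σ)) t := by
  have hA : ∀ᶠ s in 𝓝 t, EP2_Adm (Z.e i s) := by
    filter_upwards [Ioo_mem_nhds ht.1 ht.2] with s hs using EP2_adm Z hs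
  have h := EP2_comp_t (τ := τ) (t := t) (f := Z.Th i) (g := fun s y => L i * Z.z i s y)
    (x := fun s => EP2_xi (Z.e i s) σ) (continuousOn_const.mul (Z.z_cont i))
    (fun s hs y hy => Z.Th_x i s hs y hy) ht (fun s hs => EP2_xi_mem (EP2_adm Z hs) hσ)
    (EP2_xi_hasDeriv_t (Z.e_t i t ht) hA σ)
    (Z.Th_t i t ht _ (EP2_xi_mem (EP2_adm Z ht) hσ))
  refine h.congr_deriv ?_
  unfold EP2_KS EP2_Mu EP2_K EP2_Q
  ring

theorem EP2_phi_mem {e : ℝ} (he : EP2_Adm e) {x : ℝ} (hx : x ∈ Icc (0:ℝ) 1) :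
    (x + e * chz x) / (1 + e) ∈ Icc (0:ℝ) 1 := by
  have hc := EP2_c_pos he
  have h0 := (EP2_w_mono he).monotone hx.1
  have h1 := (EP2_w_mono he).monotone hx.2
  simp only [EP2_chz_zero, EP2_chz_one] at h0 h1
  constructor
  · apply div_nonneg <;> linarith
  · rw [div_le_one (by linarith)]; linarith

theorem EP2_xi_phi {e : ℝ} (he : EP2_Adm e) (x : ℝ) : EP2_xi e ((x + e * chz x) / (1 + e)) = x := by
  have hc := EP2_c_pos he
  apply EP2_xi_unique he
  field_simp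

theorem EP2_phi_near {e : ℝ} (he : EP2_Adm e) {x : ℝ} (hx : x ∈ Icc (0:ℝ) 1) :
    |x - (x + e * chz x) / (1 + e)| ≤ |e| := by
  have h := EP2_xi_near (e := e) (EP2_phi_mem he hx)
  rwa [EP2_xi_phi he] at h

theorem EP2_k_bound {e A D M w zz kk k2 p : ℝ} (hp : 0 ≤ p) (hp2 : p ≤ 2)
    (hpe : |p - 1| ≤ 2 * |e| * D) (hkk : |kk| ≤ M) (hw : |kk - k2| ≤ w)
    (hA : A = p * zz - k2) :
    A ^ 2 ≤ 3 * (4 * (zz - kk) ^ 2 + (2 * |e| * D * M) ^ 2 + w ^ 2) := by
  have h1 : A = p * (zz - kk) + (p - 1) * kk + (kk - k2) := by rw [hA]; ring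
  have h2 : (p * (zz - kk)) ^ 2 ≤ 4 * (zz - kk) ^ 2 := by
    rw [mul_pow]
    apply mul_le_mul_of_nonneg_right _ (sq_nonneg _)
    nlinarith
  have h3 : ((p - 1) * kk) ^ 2 ≤ (2 * |e| * D * M) ^ 2 := by
    rw [← sq_abs ((p - 1) * kk), abs_mul]
    apply pow_le_pow_left₀ (by positivity)
    exact mul_le_mul hpe hkk (abs_nonneg _) (le_trans (abs_nonneg _) hpe)
  have h4 : (kk - k2) ^ 2 ≤ w ^ 2 := by
    rw [← sq_abs (kk - k2)]
    exact pow_le_pow_left₀ (abs_nonneg _) hw 2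
  rw [h1]
  nlinarith [sq_nonneg (p * (zz - kk) - (p - 1) * kk), sq_nonneg (p * (zz - kk) - (kk - k2)),
    sq_nonneg ((p - 1) * kk - (kk - k2))]

theorem EP2_k_start {I : Init Lx} (hτ : 0 < τ) (hZ : FStarts Z I) (i : Fin 3) :
    Tendsto (fun t => ∫ σ in (0:ℝ)..1, (EP2_K Z i t (EP2_xi (Z.e i t) σ) - I.k i σ) ^ 2)
      (𝓝[>] 0) (𝓝 0) := by
  have hIk : ContinuousOn (I.k i) (Icc 0 1) := fun σ hσ => (I.k_s i σ hσ).continuousWithinAt
  obtain ⟨M, hM⟩ := isCompact_Icc.exists_bound_of_continuousOn hIk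
  obtain ⟨D, hD⟩ := (isCompact_Icc (a := (0:ℝ)) (b := 1)).exists_bound_of_continuousOn
    EP2_dchz_cont.continuousOn
  simp only [Real.norm_eq_abs] at hM hD
  have hD0 : 0 ≤ D := le_trans (abs_nonneg _) (hD 0 ⟨le_rfl, zero_le_one⟩)
  set C : ℝ := 3 * (2 + D) with hC
  have hCpos : 0 < C := by positivity
  have hu : UniformContinuousOn (I.k i) (Icc 0 1) := isCompact_Icc.uniformContinuousOn_of_continuous hIk
  rw [Metric.uniformContinuousOn_iff] at hu
  rw [Metric.tendsto_nhds]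
  intro ε hε
  set w : ℝ := min 1 (ε / (4 * C)) with hw
  have hwpos : 0 < w := lt_min one_pos (by positivity)
  have hw2 : C * w ^ 2 ≤ ε / 4 := by
    have h1 : w ^ 2 ≤ w := by
      have : w ≤ 1 := min_le_left _ _
      nlinarith
    have h2 : w ≤ ε / (4 * C) := min_le_right _ _
    calc C * w ^ 2 ≤ C * (ε / (4 * C)) := mul_le_mul_of_nonneg_left (h1.trans h2) hCpos.le
      _ = ε / 4 := by field_simp
  obtain ⟨δ, hδ, hu⟩ := hu w hwpos
  have hlim : Tendsto (fun t => C * (4 * (∫ x in (0:ℝ)..1, (Z.z i t x - I.k i x) ^ 2) +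
      (2 * |Z.e i t| * D * M) ^ 2)) (𝓝[>] 0) (𝓝 (C * (4 * 0 + (2 * |(0:ℝ)| * D * M) ^ 2))) :=
    (((hZ.z i).const_mul 4).add (((((hZ.e i).abs.const_mul 2).mul_const D).mul_const M).pow 2)).const_mul C
  have hlim0 : C * (4 * 0 + (2 * |(0:ℝ)| * D * M) ^ 2) = 0 := by simp
  rw [hlim0] at hlim
  have hev1 := (tendsto_order.1 hlim).2 (ε / 2) (by positivity)
  have hev2 : ∀ᶠ t in 𝓝[>] (0:ℝ), |Z.e i t| < δ := by
    have := (hZ.e i).abs
    rw [abs_zero] at this
    exact (tendsto_order.1 this).2 δ hδ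
  filter_upwards [hev1, hev2, Ioo_mem_nhdsGT hτ] with t ht1 ht2 ht
  have he := EP2_adm Z (i := i) ht
  have hc := EP2_c_pos he
  have hcne : (1 + Z.e i t) ≠ 0 := by linarith
  rw [Real.dist_eq, sub_zero]
  set e := Z.e i t with hedef
  have hg : ContinuousOn (fun σ => (EP2_K Z i t (EP2_xi e σ) - I.k i σ) ^ 2) (Icc 0 1) :=
    ((EP2_slice (f := fun t σ => EP2_K Z i t (EP2_xi (Z.e i t) σ))
      (EP2_lift Z i (EP2_K_cont Z i)) ht).sub hIk).pow 2
  have hphi : ∀ x, HasDerivAt (fun x => (x + e * chz x) / (1 + e))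
      ((1 + e * deriv chz x) / (1 + e)) x := fun x => (EP2_w_hasDeriv e x).div_const _
  have hphic : Continuous (fun x => (x + e * chz x) / (1 + e)) := by
    have := EP2_chz_cont
    fun_prop
  have hdphic : Continuous (fun x => (1 + e * deriv chz x) / (1 + e)) := by
    have := EP2_dchz_cont
    fun_prop
  have hcv := intervalIntegral.integral_comp_mul_deriv'' (a := (0:ℝ)) (b := 1)
    (f := fun x => (x + e * chz x) / (1 + e)) (f' := fun x => (1 + e * deriv chz x) / (1 + e))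
    (g := fun σ => (EP2_K Z i t (EP2_xi e σ) - I.k i σ) ^ 2)
    hphic.continuousOn (fun x _ => (hphi x).hasDerivWithinAt) hdphic.continuousOn
    (by
      apply hg.mono
      rintro _ ⟨x, hx, rfl⟩
      rw [uIcc_of_le zero_le_one] at hx
      exact EP2_phi_mem he hx)
  have h0 : ((0:ℝ) + e * chz 0) / (1 + e) = 0 := by rw [EP2_chz_zero]; simp
  have h1 : ((1:ℝ) + e * chz 1) / (1 + e) = 1 := by
    rw [EP2_chz_one, mul_one]; exact div_self hcne
  simp only [h0, h1] at hcv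
  rw [← hcv]
  have hnn : 0 ≤ ∫ x in (0:ℝ)..1, ((fun σ => (EP2_K Z i t (EP2_xi e σ) - I.k i σ) ^ 2) ∘
      fun x => (x + e * chz x) / (1 + e)) x * ((1 + e * deriv chz x) / (1 + e)) := by
    apply intervalIntegral.integral_nonneg zero_le_one
    intro x hx
    apply mul_nonneg
    · exact sq_nonneg _
    · have := he.1 x
      apply div_nonneg <;> linarith
  rw [abs_of_nonneg hnn]
  have hzc : ContinuousOn (fun x => (Z.z i t x - I.k i x) ^ 2) (Icc 0 1) :=
    ((EP2_slice (Z.z_cont i) ht).sub hIk).pow 2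
  have hmono : (∫ x in (0:ℝ)..1, ((fun σ => (EP2_K Z i t (EP2_xi e σ) - I.k i σ) ^ 2) ∘
      fun x => (x + e * chz x) / (1 + e)) x * ((1 + e * deriv chz x) / (1 + e))) ≤
      ∫ x in (0:ℝ)..1, (C * 4 * (Z.z i t x - I.k i x) ^ 2 +
        C * ((2 * |e| * D * M) ^ 2 + w ^ 2)) := by
    apply intervalIntegral.integral_mono_on zero_le_one
    · apply ContinuousOn.intervalIntegrable
      rw [uIcc_of_le zero_le_one]
      apply ContinuousOn.mul _ hdphic.continuousOn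
      exact hg.comp hphic.continuousOn (fun x hx => EP2_phi_mem he hx)
    · apply ContinuousOn.intervalIntegrable
      rw [uIcc_of_le zero_le_one]
      exact (continuousOn_const.mul hzc).add continuousOn_const
    · intro x hx
      simp only [Function.comp]
      rw [EP2_xi_phi he]
      have hax := he.1 x
      have hpsi0 : 0 ≤ (1 + e * deriv chz x)⁻¹ := by
        apply inv_nonneg.2; linarith
      have hpsi2 : (1 + e * deriv chz x)⁻¹ ≤ 2 := by
        rw [inv_le_comm₀ (by linarith) (by norm_num)]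
        linarith
      have hpsi1 : |(1 + e * deriv chz x)⁻¹ - 1| ≤ 2 * |e| * D := by
        have h : (1 + e * deriv chz x)⁻¹ - 1 = -((1 + e * deriv chz x)⁻¹ * (e * deriv chz x)) := by
          have : 1 + e * deriv chz x ≠ 0 := by intro h; linarith
          field_simp
          ring
        rw [h, abs_neg, abs_mul, abs_mul, abs_of_nonneg hpsi0]
        have h5 := hD x hx
        calc (1 + e * deriv chz x)⁻¹ * (|e| * |deriv chz x|) ≤ 2 * (|e| * D) := by
              apply mul_le_mul hpsi2 _ (by positivity) (by norm_num)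
              exact mul_le_mul_of_nonneg_left h5 (abs_nonneg _)
          _ = 2 * |e| * D := by ring
      have hww : |I.k i x - I.k i ((x + e * chz x) / (1 + e))| ≤ w := by
        have := hu x hx _ (EP2_phi_mem he hx) (by
          rw [Real.dist_eq]
          exact lt_of_le_of_lt (EP2_phi_near he hx) ht2)
        rw [Real.dist_eq] at this
        exact this.le
      have hb := EP2_k_bound (e := e) (D := D) (M := M) (w := w) (zz := Z.z i t x) (kk := I.k i x)
        (k2 := I.k i ((x + e * chz x) / (1 + e))) (p := (1 + e * deriv chz x)⁻¹)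
        hpsi0 hpsi2 hpsi1 (hM x hx) hww rfl
      have hj0 : 0 ≤ (1 + e * deriv chz x) / (1 + e) := by
        apply div_nonneg <;> linarith
      have hj : (1 + e * deriv chz x) / (1 + e) ≤ 2 + D := by
        rw [div_le_iff₀ (by linarith)]
        have h5 := abs_le.1 (hD x hx)
        have h6 := abs_le.1 he.2
        have h7 : e * deriv chz x ≤ D / 2 := by
          calc e * deriv chz x ≤ |e * deriv chz x| := le_abs_self _
            _ = |e| * |deriv chz x| := abs_mul _ _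
            _ ≤ 1 / 2 * D := mul_le_mul he.2 (hD x hx) (abs_nonneg _) (by norm_num)
            _ = D / 2 := by ring
        nlinarith
      have hK : EP2_K Z i t x = (1 + e * deriv chz x)⁻¹ * Z.z i t x := rfl
      rw [hK]
      calc ((1 + e * deriv chz x)⁻¹ * Z.z i t x - I.k i ((x + e * chz x) / (1 + e))) ^ 2 *
            ((1 + e * deriv chz x) / (1 + e))
          ≤ (3 * (4 * (Z.z i t x - I.k i x) ^ 2 + (2 * |e| * D * M) ^ 2 + w ^ 2)) * (2 + D) :=
            mul_le_mul hb hj hj0 (by positivity)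
        _ = C * 4 * (Z.z i t x - I.k i x) ^ 2 + C * ((2 * |e| * D * M) ^ 2 + w ^ 2) := by
            rw [hC]; ring
  refine lt_of_le_of_lt hmono ?_
  rw [intervalIntegral.integral_add]
  · rw [intervalIntegral.integral_const_mul, intervalIntegral.integral_const]
    simp only [sub_zero, one_smul]
    have : C * 4 * (∫ x in (0:ℝ)..1, (Z.z i t x - I.k i x) ^ 2) + C * ((2 * |e| * D * M) ^ 2 + w ^ 2)
        = C * (4 * (∫ x in (0:ℝ)..1, (Z.z i t x - I.k i x) ^ 2) + (2 * |e| * D * M) ^ 2) +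
          C * w ^ 2 := by ring
    rw [this]
    linarith
  · apply ContinuousOn.intervalIntegrable
    rw [uIcc_of_le zero_le_one]
    exact continuousOn_const.mul hzc
  · exact intervalIntegrable_const

/-- the flow in constant speed parametrisation -/
noncomputable def EP2_flow : PreFlow 0 τ where
  ell := fun i t => L i * (1 + Z.e i t)
  dell := fun i t => L i * Z.de i t
  th := fun i t σ => Z.Th i t (EP2_xi (Z.e i t) σ)
  k := fun i t σ => EP2_K Z i t (EP2_xi (Z.e i t) σ)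
  ks := fun i t σ => EP2_KS Z i t (EP2_xi (Z.e i t) σ)
  kss := fun i t σ => EP2_KSS Z i t (EP2_xi (Z.e i t) σ)
  mu := fun i t σ => EP2_Mu Z i t σ
  ell_pos := fun i t ht => mul_pos (Z.L_pos i) (by linarith [EP2_c_pos (EP2_adm Z (i := i) ht)])
  ell_t := fun i t ht => ((Z.e_t i t ht).const_add 1).const_mul (L i)
  dell_cont := fun i => continuousOn_const.mul (Z.de_cont i)
  th_cont := fun i => EP2_lift Z i (Z.Th_cont i)
  k_cont := fun i => EP2_lift Z i (EP2_K_cont Z i)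
  ks_cont := fun i => EP2_lift Z i (EP2_KS_cont Z i)
  kss_cont := fun i => EP2_lift Z i (EP2_KSS_cont Z i)
  mu_cont := fun i => by
    have hz : ∀ j, ContinuousOn (fun p : ℝ × ℝ => Z.z j p.1 0) (Ioo 0 τ ×ˢ Icc 0 1) := fun j =>
      (Z.z_cont j).comp (by fun_prop : ContinuousOn (fun p : ℝ × ℝ => ((p.1, 0) : ℝ × ℝ)) _)
        (fun p hp => ⟨hp.1, le_rfl, zero_le_one⟩)
    have hde : ContinuousOn (fun p : ℝ × ℝ => Z.de i p.1) (Ioo 0 τ ×ˢ Icc 0 1) :=
      (Z.de_cont i).comp continuousOn_fst (fun _ hp => hp.1)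
    exact ((((hz (i + 1)).sub (hz (i + 2))).neg.div_const _).add
      ((continuousOn_const.mul hde).mul continuousOn_snd)).add
      (continuousOn_const.mul (EP2_lift Z i (EP2_Q_cont Z i)))
  th_s := fun i t ht σ hσ => by
    have he := EP2_adm Z (i := i) ht
    apply EP2_chain he
    refine (Z.Th_x i t ht _ (EP2_xi_mem he hσ)).congr_deriv ?_
    have := EP2_den Z (i := i) ht (EP2_xi (Z.e i t) σ)
    unfold EP2_K
    field_simp
  k_s := fun i t ht σ hσ => by
    have he := EP2_adm Z (i := i) ht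
    exact EP2_chain he (EP2_K_x Z ht (EP2_xi_mem he hσ))
  ks_s := fun i t ht σ hσ => by
    have he := EP2_adm Z (i := i) ht
    exact EP2_chain he (EP2_KS_x Z ht (EP2_xi_mem he hσ))
  mu_s := fun i t ht σ hσ => by
    have he := EP2_adm Z (i := i) ht
    have h1 := EP2_chain he (EP2_Q_x Z ht (EP2_xi_mem he hσ))
    have h2 : HasDerivWithinAt (fun σ : ℝ =>
        -(Z.z (i + 1) t 0 - Z.z (i + 2) t 0) / Real.sqrt 3 + L i * Z.de i t * σ)
        (L i * Z.de i t) (Icc 0 1) σ := by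
      simpa using ((hasDerivWithinAt_id σ (Icc (0:ℝ) 1)).const_mul (L i * Z.de i t)).const_add
        (-(Z.z (i + 1) t 0 - Z.z (i + 2) t 0) / Real.sqrt 3)
    exact h2.add h1
  th_t := fun i t ht σ hσ => EP2_th_t Z ht hσ
  th_J := fun i t ht => by
    rw [EP2_xi_zero (EP2_adm Z ht), EP2_xi_zero (EP2_adm Z ht)]
    exact Z.Th_J i t ht
  k_J := fun t ht => by
    have : ∀ i, EP2_K Z i t (EP2_xi (Z.e i t) 0) = Z.z i t 0 := fun i => by
      rw [EP2_xi_zero (EP2_adm Z ht), EP2_K_zero]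
    simp only [this]
    exact Z.z_J t ht
  mu_J := fun i t ht => by
    rw [EP2_xi_zero (EP2_adm Z ht), EP2_K_zero, EP2_xi_zero (EP2_adm Z ht), EP2_K_zero]
    unfold EP2_Mu EP2_Q
    rw [EP2_xi_zero (EP2_adm Z ht)]
    simp
  th_axis0 := fun t ht => by
    rw [EP2_xi_one (EP2_adm Z ht)]
    exact Z.Th_axis0 t ht
  th_axis1 := fun t ht => by
    rw [EP2_xi_one (EP2_adm Z ht)]
    exact Z.Th_axis1 t ht
  mu_end := fun i t ht => by
    unfold EP2_Mu EP2_Q
    rw [EP2_xi_one (EP2_adm Z ht), mul_one]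
    exact Z.e_eq i t ht
  k_far := fun t ht => by
    rw [EP2_xi_one (EP2_adm Z ht)]
    unfold EP2_K
    rw [Z.z_far t ht, mul_zero]

end fields

/-- EP2 : change of gauge -/
theorem frozen_preflow {Lx τ : ℝ} {L : Fin 3 → ℝ} (hτ : 0 < τ) (Z : Frozen L τ) (I : Init Lx)
    (hZ : FStarts Z I) :
    ∃ P : PreFlow 0 τ, PreStarts P I ∧ (∀ i, ∀ t ∈ Ioo 0 τ, P.ell i t = L i * (1 + Z.e i t)) ∧
      (∀ i, ∀ t ∈ Ioo 0 τ, ∀ x ∈ Icc (0:ℝ) 1,
        P.th i t ((x + Z.e i t * chz x) / (1 + Z.e i t)) = Z.Th i t x) := by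
  refine ⟨EP2_flow Z, ⟨?_, ?_, ?_⟩, fun i t _ => rfl, ?_⟩
  · intro i
    have h := ((hZ.e i).const_add 1).const_mul (L i)
    rw [add_zero, mul_one] at h
    rw [← hZ.L_eq i]
    exact h
  · intro i ε hε
    have hIt : ContinuousOn (I.th i) (Icc 0 1) := fun σ hσ => (I.th_s i σ hσ).continuousWithinAt
    have hu : UniformContinuousOn (I.th i) (Icc 0 1) :=
      isCompact_Icc.uniformContinuousOn_of_continuous hIt
    rw [Metric.uniformContinuousOn_iff] at hu
    obtain ⟨δ, hδ, hu⟩ := hu (ε / 2) (half_pos hε)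
    have hev2 : ∀ᶠ t in 𝓝[>] (0:ℝ), |Z.e i t| < δ := by
      have := (hZ.e i).abs
      rw [abs_zero] at this
      exact (tendsto_order.1 this).2 δ hδ
    filter_upwards [hev2, hZ.Th i (ε / 2) (half_pos hε), Ioo_mem_nhdsGT hτ] with t h1 h2 ht σ hσ
    have he := EP2_adm Z (i := i) ht
    have hm := EP2_xi_mem he hσ
    have h3 := h2 _ hm
    have h4 := hu _ hm σ hσ (by rw [Real.dist_eq]; exact lt_of_le_of_lt (EP2_xi_near hσ) h1)
    rw [Real.dist_eq] at h4
    change |Z.Th i t (EP2_xi (Z.e i t) σ) - I.th i σ| < ε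
    have h5 := abs_sub_le (Z.Th i t (EP2_xi (Z.e i t) σ)) (I.th i (EP2_xi (Z.e i t) σ)) (I.th i σ)
    linarith
  · intro i
    exact EP2_k_start Z hτ hZ i
  · intro i t ht x hx
    change Z.Th i t (EP2_xi (Z.e i t) ((x + Z.e i t * chz x) / (1 + Z.e i t))) = Z.Th i t x
    rw [EP2_xi_phi (EP2_adm Z ht)]

end Pool.Agent.Helper15.NF
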