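import Pool.Agent.Helper15.NF.EFr

open Set MeasureTheory intervalIntegral Filter Topology

namespace Pool.Agent.Helper15.NF

namespace EP3

theorem chz_smooth (n : ℕ) : ContDiff ℝ n chz := by
  unfold chz
  exact (Real.smoothTransition.contDiff (n := n)).comp (by fun_prop)

theorem chz1_smooth (n : ℕ) : ContDiff ℝ n (deriv chz) := by
  have h := chz_smooth (n + 1)
  exact (contDiff_succ_iff_deriv.mp (by exact_mod_cast h)).2.2

theorem chz2_smooth (n : ℕ) : ContDiff ℝ n (deriv (deriv chz)) := by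
  have h := chz1_smooth (n + 1)
  exact (contDiff_succ_iff_deriv.mp (by exact_mod_cast h)).2.2

theorem chz3_smooth (n : ℕ) : ContDiff ℝ n (deriv (deriv (deriv chz))) := by
  have h := chz2_smooth (n + 1)
  exact (contDiff_succ_iff_deriv.mp (by exact_mod_cast h)).2.2

theorem chz_c : Continuous chz := (chz_smooth 0).continuous
theorem chz1_c : Continuous (deriv chz) := (chz1_smooth 0).continuous
theorem chz2_c : Continuous (deriv (deriv chz)) := (chz2_smooth 0).continuous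
theorem chz3_c : Continuous (deriv (deriv (deriv chz))) := (chz3_smooth 0).continuous

theorem chz_d (x : ℝ) : HasDerivAt chz (deriv chz x) x :=
  ((chz_smooth 1).differentiable (by norm_num) x).hasDerivAt

theorem chz1_d (x : ℝ) : HasDerivAt (deriv chz) (deriv (deriv chz) x) x :=
  ((chz1_smooth 1).differentiable (by norm_num) x).hasDerivAt

theorem chz2_d (x : ℝ) : HasDerivAt (deriv (deriv chz)) (deriv (deriv (deriv chz)) x) x :=
  ((chz2_smooth 1).differentiable (by norm_num) x).hasDerivAt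

theorem chz_zero : chz 0 = 0 := by
  unfold chz
  exact Real.smoothTransition.zero_of_nonpos (by norm_num)

theorem chz_one : chz 1 = 1 := by
  unfold chz
  exact Real.smoothTransition.one_of_one_le (by norm_num)

theorem dchz_left {x : ℝ} (hx : x < 1 / 3) : deriv chz x = 0 := by
  have h : chz =ᶠ[𝓝 x] fun _ => 0 := by
    filter_upwards [Iio_mem_nhds hx] with y hy
    unfold chz
    exact Real.smoothTransition.zero_of_nonpos (by have : y < 1 / 3 := hy; linarith)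
  rw [h.deriv_eq, deriv_const]

theorem dchz_right {x : ℝ} (hx : 2 / 3 < x) : deriv chz x = 0 := by
  have h : chz =ᶠ[𝓝 x] fun _ => 1 := by
    filter_upwards [Ioi_mem_nhds hx] with y hy
    unfold chz
    exact Real.smoothTransition.one_of_one_le (by have : 2 / 3 < y := hy; linarith)
  rw [h.deriv_eq, deriv_const]

theorem dchz_bdd : ∃ C : ℝ, 0 < C ∧ ∀ x, |deriv chz x| ≤ C := by
  obtain ⟨C, hC⟩ := (isCompact_Icc (a := (0:ℝ)) (b := 1)).exists_bound_of_continuousOn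
    chz1_c.continuousOn
  refine ⟨max C 1, lt_max_of_lt_right one_pos, fun x => ?_⟩
  by_cases h1 : x < 1 / 3
  · rw [dchz_left h1, abs_zero]
    exact le_trans zero_le_one (le_max_right _ _)
  by_cases h2 : 2 / 3 < x
  · rw [dchz_right h2, abs_zero]
    exact le_trans zero_le_one (le_max_right _ _)
  · rw [not_lt] at h1 h2
    exact le_trans (hC x ⟨by linarith, by linarith⟩) (le_max_left _ _)

/-- derivative along a curve -/
theorem chain_curve {f fs : ℝ → ℝ → ℝ} {ft a b t σ' : ℝ} {s : ℝ → ℝ} (ht : t ∈ Ioo a b)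
    (hfs : ContinuousOn (fun p : ℝ × ℝ => fs p.1 p.2) (Ioo a b ×ˢ Icc 0 1))
    (hs : ∀ τ ∈ Ioo a b, ∀ σ ∈ Icc (0:ℝ) 1, HasDerivWithinAt (f τ) (fs τ σ) (Icc 0 1) σ)
    (hσ : ∀ᶠ τ in 𝓝 t, s τ ∈ Icc (0:ℝ) 1)
    (hft : HasDerivAt (fun τ => f τ (s t)) ft t)
    (hsd : HasDerivAt s σ' t) :
    HasDerivAt (fun τ => f τ (s τ)) (ft + fs t (s t) * σ') t := by
  have hst : s t ∈ Icc (0:ℝ) 1 := hσ.self_of_nhds
  have hg : HasDerivAt (fun τ => f τ (s τ) - f τ (s t) - fs t (s t) * (s τ - s t)) 0 t := by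
    rw [hasDerivAt_iff_isLittleO]
    have h1 : (fun τ => f τ (s τ) - f τ (s t) - fs t (s t) * (s τ - s t)) =o[𝓝 t]
        fun τ => s τ - s t := by
      rw [Asymptotics.isLittleO_iff]
      intro ε hε
      have h2 : ContinuousWithinAt (fun p : ℝ × ℝ => fs p.1 p.2) (Ioo a b ×ˢ Icc 0 1) (t, s t) :=
        hfs (t, s t) ⟨ht, hst⟩
      rw [Metric.continuousWithinAt_iff] at h2
      obtain ⟨δ, hδ, h3⟩ := h2 ε hε
      have h4 : ∀ᶠ τ in 𝓝 t, |s τ - s t| < δ := by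
        have := (Metric.continuousAt_iff'.mp hsd.continuousAt) δ hδ
        filter_upwards [this] with τ hτ
        rwa [Real.dist_eq] at hτ
      have h5 : ∀ᶠ τ in 𝓝 t, |τ - t| < δ := by
        filter_upwards [Metric.ball_mem_nhds t hδ] with τ hτ
        rwa [Metric.mem_ball, Real.dist_eq] at hτ
      filter_upwards [h4, h5, hσ, isOpen_Ioo.mem_nhds ht] with τ h6 h7 h8 h9
      have hsub : uIcc (s t) (s τ) ⊆ Icc (0:ℝ) 1 := by
        intro r hr
        exact ordConnected_Icc.uIcc_subset hst h8 hr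
      have h10 := Convex.norm_image_sub_le_of_norm_hasDerivWithin_le
        (f := fun r => f τ r - fs t (s t) * r) (f' := fun r => fs τ r - fs t (s t))
        (s := uIcc (s t) (s τ)) (C := ε) (x := s t) (y := s τ) (fun r hr => by
          have h11 := (hs τ h9 r (hsub hr)).mono hsub
          have h12 : HasDerivWithinAt (fun r => fs t (s t) * r) (fs t (s t)) (uIcc (s t) (s τ)) r := by
            simpa using (hasDerivWithinAt_id r (uIcc (s t) (s τ))).const_mul (fs t (s t))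
          exact h11.sub h12) (fun r hr => by
          have h13 : |r - s t| < δ := by
            have : |r - s t| ≤ |s τ - s t| := by
              have := abs_sub_left_of_mem_uIcc hr
              rw [abs_sub_comm] at this
              simpa [abs_sub_comm] using this
            linarith
          have h14 := @h3 (τ, r) ⟨h9, hsub hr⟩ (by
            rw [Prod.dist_eq, Real.dist_eq, Real.dist_eq]
            exact max_lt h7 h13)
          rw [Real.dist_eq] at h14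
          rw [Real.norm_eq_abs]
          exact h14.le) (convex_uIcc _ _) left_mem_uIcc right_mem_uIcc
      have e : f τ (s τ) - f τ (s t) - fs t (s t) * (s τ - s t) =
          (f τ (s τ) - fs t (s t) * s τ) - (f τ (s t) - fs t (s t) * s t) := by ring
      rw [e]
      exact h10
    have h15 : (fun τ => s τ - s t) =O[𝓝 t] fun τ => τ - t := hsd.isBigO_sub
    have h16 := h1.trans_isBigO h15
    simpa using h16
  have h17 : HasDerivAt (fun τ => fs t (s t) * (s τ - s t)) (fs t (s t) * σ') t :=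
    (hsd.sub_const (s t)).const_mul _
  have h18 := (hft.add hg).add h17
  have e : (fun τ => f τ (s τ)) = fun τ => f τ (s t) +
      (f τ (s τ) - f τ (s t) - fs t (s t) * (s τ - s t)) + fs t (s t) * (s τ - s t) := by
    funext τ
    ring
  rw [e]
  rw [add_zero] at h18
  exact h18

theorem unif_conv {f : ℝ → ℝ → ℝ} {ε : ℝ} (hε : 0 < ε)
    (hf : ContinuousOn (fun p : ℝ × ℝ => f p.1 p.2) (Icc 0 ε ×ˢ Icc 0 1)) :
    ∀ δ > 0, ∀ᶠ t in 𝓝[>] (0:ℝ), ∀ x ∈ Icc (0:ℝ) 1, |f t x - f 0 x| < δ := by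
  intro δ hδ
  have h := (isCompact_Icc.prod isCompact_Icc).uniformContinuousOn_of_continuous hf
  rw [Metric.uniformContinuousOn_iff] at h
  obtain ⟨η, hη, h1⟩ := h δ hδ
  have h2 : Ioo (0:ℝ) (min η ε) ∈ 𝓝[>] (0:ℝ) := Ioo_mem_nhdsGT (lt_min hη hε)
  filter_upwards [h2] with t ht x hx
  have h3 := h1 (t, x) ⟨⟨ht.1.le, (ht.2.trans_le (min_le_right _ _)).le⟩, hx⟩ (0, x)
    ⟨⟨le_rfl, hε.le⟩, hx⟩ (by
      rw [Prod.dist_eq, Real.dist_eq, dist_self]
      simp only [sub_zero]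
      rw [abs_of_pos ht.1]
      exact max_lt (ht.2.trans_le (min_le_left _ _)) hη)
  rwa [Real.dist_eq] at h3

theorem gauge_mem {e : ℝ} (h1 : |e| ≤ 1 / 2) (h2 : ∀ x, 1 / 2 ≤ 1 + e * deriv chz x) {x : ℝ}
    (hx : x ∈ Icc (0:ℝ) 1) : (x + e * chz x) / (1 + e) ∈ Icc (0:ℝ) 1 := by
  have he := abs_le.mp h1
  have hpos : 0 < 1 + e := by linarith
  have hd : ∀ y, HasDerivAt (fun x => x + e * chz x) (1 + e * deriv chz y) y := fun y =>
    (hasDerivAt_id y).add ((chz_d y).const_mul e)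
  have hm : Monotone (fun x => x + e * chz x) := by
    apply monotone_of_deriv_nonneg (fun y => (hd y).differentiableAt)
    intro y
    rw [(hd y).deriv]
    linarith [h2 y]
  have h3 := hm hx.1
  have h4 := hm hx.2
  simp only [chz_zero, chz_one] at h3 h4
  constructor
  · apply div_nonneg _ hpos.le
    linarith
  · rw [div_le_one hpos]
    linarith

section flow

variable {a b Lx : ℝ} (F : Flow a b Lx) (t1 : ℝ)

/-- the gauge parameter -/
noncomputable def ee (i : Fin 3) (t : ℝ) : ℝ := F.ell i (t1 + t) / F.ell i t1 - 1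

/-- the frozen change of variables -/
noncomputable def sg (i : Fin 3) (t x : ℝ) : ℝ := (x + ee F t1 i t * chz x) / (1 + ee F t1 i t)

noncomputable def zf (i : Fin 3) (t x : ℝ) : ℝ :=
  (1 + ee F t1 i t * deriv chz x) * F.k i (t1 + t) (sg F t1 i t x)

noncomputable def zf1 (i : Fin 3) (t x : ℝ) : ℝ :=
  ee F t1 i t / F.ell i t1 * deriv (deriv chz) x * F.k i (t1 + t) (sg F t1 i t x) +
    (1 + ee F t1 i t * deriv chz x) ^ 2 * F.ks i (t1 + t) (sg F t1 i t x)

noncomputable def zf2 (i : Fin 3) (t x : ℝ) : ℝ :=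
  ee F t1 i t / F.ell i t1 ^ 2 * deriv (deriv (deriv chz)) x * F.k i (t1 + t) (sg F t1 i t x) +
    3 * (ee F t1 i t / F.ell i t1) * deriv (deriv chz) x * (1 + ee F t1 i t * deriv chz x) *
      F.ks i (t1 + t) (sg F t1 i t x) +
    (1 + ee F t1 i t * deriv chz x) ^ 3 * F.kss i (t1 + t) (sg F t1 i t x)

theorem exists_eps (ht1 : t1 ∈ Ioo a b) : ∃ ε > 0, t1 + ε < b ∧ ∀ i, ∀ t ∈ Icc 0 ε,
    |ee F t1 i t| ≤ 1 / 2 ∧ ∀ x, 1 / 2 ≤ 1 + ee F t1 i t * deriv chz x := by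
  obtain ⟨C, hC, hC1⟩ := dchz_bdd
  have h1 : ∀ i, ∀ᶠ t in 𝓝 (0:ℝ), |ee F t1 i t| < min (1 / 2) (1 / (2 * C)) := by
    intro i
    have hc : ContinuousAt (ee F t1 i) 0 := by
      unfold ee
      have h2 : ContinuousAt (F.ell i) (t1 + 0) := by
        rw [add_zero]
        exact (F.ell_t i t1 ht1).continuousAt
      have h3 : ContinuousAt (fun t => F.ell i (t1 + t)) 0 :=
        ContinuousAt.comp (f := fun t => t1 + t) (x := 0) h2 (by fun_prop)
      exact (h3.div_const _).sub continuousAt_const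
    have h0 : ee F t1 i 0 = 0 := by
      unfold ee
      rw [add_zero, div_self (F.ell_pos i t1 ht1).ne', sub_self]
    have h4 := (Metric.continuousAt_iff'.mp hc) (min (1 / 2) (1 / (2 * C)))
      (lt_min (by norm_num) (by positivity))
    filter_upwards [h4] with t ht
    rwa [h0, Real.dist_eq, sub_zero] at ht
  have h2 : ∀ᶠ t in 𝓝 (0:ℝ), ∀ i, |ee F t1 i t| < min (1 / 2) (1 / (2 * C)) :=
    Filter.eventually_all.mpr h1
  obtain ⟨δ, hδ, h3⟩ := Metric.eventually_nhds_iff.mp h2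
  refine ⟨min (δ / 2) ((b - t1) / 2), lt_min (by linarith) (by linarith [ht1.2]), ?_, ?_⟩
  · have := min_le_right (δ / 2) ((b - t1) / 2)
    have := ht1.2
    linarith
  · intro i t ht
    have h4 : |ee F t1 i t| < min (1 / 2) (1 / (2 * C)) := by
      apply h3
      rw [Real.dist_eq, sub_zero, abs_of_nonneg ht.1]
      have := ht.2.trans (min_le_left _ _)
      linarith
    refine ⟨(h4.trans_le (min_le_left _ _)).le, fun x => ?_⟩
    have h5 : |ee F t1 i t * deriv chz x| ≤ 1 / 2 := by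
      rw [abs_mul]
      have h6 := (h4.trans_le (min_le_right _ _)).le
      calc |ee F t1 i t| * |deriv chz x| ≤ 1 / (2 * C) * C :=
            mul_le_mul h6 (hC1 x) (abs_nonneg _) (by positivity)
        _ = 1 / 2 := by field_simp
    have := (abs_le.mp h5).1
    linarith

/-- the time derivative of the gauge parameter -/
noncomputable def de (i : Fin 3) (t : ℝ) : ℝ := F.dell i (t1 + t) / F.ell i t1

variable {F t1}

theorem ell_eq (ht1 : t1 ∈ Ioo a b) (i : Fin 3) (t : ℝ) :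
    F.ell i (t1 + t) = F.ell i t1 * (1 + ee F t1 i t) := by
  have h := (F.ell_pos i t1 ht1).ne'
  unfold ee
  field_simp
  ring

theorem ee_t (i : Fin 3) {t : ℝ} (ht : t1 + t ∈ Ioo a b) :
    HasDerivAt (ee F t1 i) (de F t1 i t) t := by
  unfold ee de
  have h1 : HasDerivAt (fun t => F.ell i (t1 + t)) (F.dell i (t1 + t)) t := by
    exact (F.ell_t i _ ht).comp_const_add t1 t
  exact (h1.div_const _).sub_const 1

theorem comp_s (ht1 : t1 ∈ Ioo a b) (i : Fin 3) {t : ℝ}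
    (h1 : |ee F t1 i t| ≤ 1 / 2) (h2 : ∀ x, 1 / 2 ≤ 1 + ee F t1 i t * deriv chz x)
    {g : ℝ → ℝ} {g' x : ℝ}
    (hg : HasDerivWithinAt g (F.ell i (t1 + t) * g') (Icc 0 1) (sg F t1 i t x)) :
    HasDerivWithinAt (fun x => g (sg F t1 i t x))
      (F.ell i t1 * ((1 + ee F t1 i t * deriv chz x) * g')) (Icc 0 1) x := by
  have he := abs_le.mp h1
  have hpos : 0 < 1 + ee F t1 i t := by linarith
  have hd : HasDerivAt (sg F t1 i t) ((1 + ee F t1 i t * deriv chz x) / (1 + ee F t1 i t)) x := by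
    unfold sg
    exact ((hasDerivAt_id x).add ((chz_d x).const_mul _)).div_const _
  have h3 := hg.comp x hd.hasDerivWithinAt (fun y hy => gauge_mem h1 h2 hy)
  have e : F.ell i t1 * ((1 + ee F t1 i t * deriv chz x) * g') =
      F.ell i (t1 + t) * g' * ((1 + ee F t1 i t * deriv chz x) / (1 + ee F t1 i t)) := by
    rw [ell_eq ht1 i t]
    field_simp
  rw [e]
  exact h3

theorem sg_mem (i : Fin 3) {t : ℝ}
    (h1 : |ee F t1 i t| ≤ 1 / 2) (h2 : ∀ x, 1 / 2 ≤ 1 + ee F t1 i t * deriv chz x)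
    {x : ℝ} (hx : x ∈ Icc (0:ℝ) 1) : sg F t1 i t x ∈ Icc (0:ℝ) 1 := gauge_mem h1 h2 hx

theorem sg_zero (i : Fin 3) (t : ℝ) : sg F t1 i t 0 = 0 := by
  unfold sg
  rw [chz_zero]
  simp

theorem sg_one (i : Fin 3) {t : ℝ} (h1 : |ee F t1 i t| ≤ 1 / 2) : sg F t1 i t 1 = 1 := by
  have he := abs_le.mp h1
  have hpos : 1 + ee F t1 i t ≠ 0 := by linarith
  unfold sg
  rw [chz_one, mul_one, div_self hpos]

theorem zf_zero (i : Fin 3) (t : ℝ) : zf F t1 i t 0 = F.k i (t1 + t) 0 := by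
  unfold zf
  rw [sg_zero, dchz_left (by norm_num)]
  ring

theorem Th_x (ht1 : t1 ∈ Ioo a b) (i : Fin 3) {t : ℝ} (ht : t1 + t ∈ Ioo a b)
    (h1 : |ee F t1 i t| ≤ 1 / 2) (h2 : ∀ x, 1 / 2 ≤ 1 + ee F t1 i t * deriv chz x)
    {x : ℝ} (hx : x ∈ Icc (0:ℝ) 1) :
    HasDerivWithinAt (fun x => F.th i (t1 + t) (sg F t1 i t x))
      (F.ell i t1 * zf F t1 i t x) (Icc 0 1) x :=
  comp_s ht1 i h1 h2 (F.th_s i _ ht _ (sg_mem i h1 h2 hx))

theorem zf_x (ht1 : t1 ∈ Ioo a b) (i : Fin 3) {t : ℝ} (ht : t1 + t ∈ Ioo a b)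
    (h1 : |ee F t1 i t| ≤ 1 / 2) (h2 : ∀ x, 1 / 2 ≤ 1 + ee F t1 i t * deriv chz x)
    {x : ℝ} (hx : x ∈ Icc (0:ℝ) 1) :
    HasDerivWithinAt (zf F t1 i t) (F.ell i t1 * zf1 F t1 i t x) (Icc 0 1) x := by
  have h3 := comp_s ht1 i h1 h2 (F.k_s i _ ht _ (sg_mem i h1 h2 hx))
  have h4 : HasDerivWithinAt (fun x => 1 + ee F t1 i t * deriv chz x)
      (ee F t1 i t * deriv (deriv chz) x) (Icc 0 1) x :=
    (((chz1_d x).const_mul _).const_add 1).hasDerivWithinAt
  have h5 := h4.mul h3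
  have hL := (F.ell_pos i t1 ht1).ne'
  have e : F.ell i t1 * zf1 F t1 i t x =
      ee F t1 i t * deriv (deriv chz) x * F.k i (t1 + t) (sg F t1 i t x) +
        (1 + ee F t1 i t * deriv chz x) *
          (F.ell i t1 * ((1 + ee F t1 i t * deriv chz x) * F.ks i (t1 + t) (sg F t1 i t x))) := by
    unfold zf1
    field_simp
  rw [e]
  exact h5

theorem zf1_x (ht1 : t1 ∈ Ioo a b) (i : Fin 3) {t : ℝ} (ht : t1 + t ∈ Ioo a b)
    (h1 : |ee F t1 i t| ≤ 1 / 2) (h2 : ∀ x, 1 / 2 ≤ 1 + ee F t1 i t * deriv chz x)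
    {x : ℝ} (hx : x ∈ Icc (0:ℝ) 1) :
    HasDerivWithinAt (zf1 F t1 i t) (F.ell i t1 * zf2 F t1 i t x) (Icc 0 1) x := by
  have h3 := comp_s ht1 i h1 h2 (F.k_s i _ ht _ (sg_mem i h1 h2 hx))
  have h3' := comp_s ht1 i h1 h2 (F.ks_s i _ ht _ (sg_mem i h1 h2 hx))
  have h4 : HasDerivWithinAt (fun x => 1 + ee F t1 i t * deriv chz x)
      (ee F t1 i t * deriv (deriv chz) x) (Icc 0 1) x :=
    (((chz1_d x).const_mul _).const_add 1).hasDerivWithinAt
  have h4' : HasDerivWithinAt (fun x => ee F t1 i t / F.ell i t1 * deriv (deriv chz) x)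
      (ee F t1 i t / F.ell i t1 * deriv (deriv (deriv chz)) x) (Icc 0 1) x :=
    ((chz2_d x).const_mul _).hasDerivWithinAt
  have h5 := (h4'.mul h3).add ((h4.pow 2).mul h3')
  have hL := (F.ell_pos i t1 ht1).ne'
  refine h5.congr_deriv ?_
  unfold zf2
  simp only [Pi.pow_apply, Nat.cast_ofNat]
  field_simp
  ring

/-- the tangential speed in the frozen gauge -/
theorem mu_formula (ht1 : t1 ∈ Ioo a b) (i : Fin 3) {t : ℝ} (ht : t1 + t ∈ Ioo a b)
    (h1 : |ee F t1 i t| ≤ 1 / 2) (h2 : ∀ x, 1 / 2 ≤ 1 + ee F t1 i t * deriv chz x)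
    {x : ℝ} (hx : x ∈ Icc (0:ℝ) 1) :
    F.mu i (t1 + t) (sg F t1 i t x) +
        F.ell i t1 * de F t1 i t * (chz x - x) / (1 + ee F t1 i t) =
      -(zf F t1 (i + 1) t 0 - zf F t1 (i + 2) t 0) / Real.sqrt 3 +
        F.ell i t1 * de F t1 i t * chz x +
        F.ell i t1 * ∫ y in (0:ℝ)..x, (1 + ee F t1 i t * deriv chz y)⁻¹ * zf F t1 i t y ^ 2 := by
  have he := abs_le.mp h1
  have hpos : 0 < 1 + ee F t1 i t := by linarith
  have hL := F.ell_pos i t1 ht1
  set G : ℝ → ℝ := fun x => F.mu i (t1 + t) (sg F t1 i t x) +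
    F.ell i t1 * de F t1 i t * (chz x - x) / (1 + ee F t1 i t) -
    F.ell i t1 * de F t1 i t * chz x with hG
  have hdG : ∀ y ∈ Icc (0:ℝ) 1, HasDerivWithinAt G
      (F.ell i t1 * ((1 + ee F t1 i t * deriv chz y)⁻¹ * zf F t1 i t y ^ 2)) (Icc 0 1) y := by
    intro y hy
    have h3 : HasDerivWithinAt (F.mu i (t1 + t))
        (F.ell i (t1 + t) * (F.dell i (t1 + t) / F.ell i (t1 + t) +
          F.k i (t1 + t) (sg F t1 i t y) ^ 2)) (Icc 0 1) (sg F t1 i t y) := by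
      have h4 := F.mu_s i _ ht _ (sg_mem i h1 h2 hy)
      have hL2 := (F.ell_pos i _ ht).ne'
      have e : F.ell i (t1 + t) * (F.dell i (t1 + t) / F.ell i (t1 + t) +
          F.k i (t1 + t) (sg F t1 i t y) ^ 2) = F.dell i (t1 + t) + F.ell i (t1 + t) *
          F.k i (t1 + t) (sg F t1 i t y) ^ 2 := by
        field_simp
      rw [e]
      exact h4
    have h5 := comp_s ht1 i h1 h2 h3
    have h6 : HasDerivWithinAt (fun y => F.ell i t1 * de F t1 i t * (chz y - y) /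
        (1 + ee F t1 i t)) (F.ell i t1 * de F t1 i t * (deriv chz y - 1) / (1 + ee F t1 i t))
        (Icc 0 1) y :=
      ((((chz_d y).sub (hasDerivAt_id y)).const_mul _).div_const _).hasDerivWithinAt
    have h7 : HasDerivWithinAt (fun y => F.ell i t1 * de F t1 i t * chz y)
        (F.ell i t1 * de F t1 i t * deriv chz y) (Icc 0 1) y :=
      ((chz_d y).const_mul _).hasDerivWithinAt
    refine ((h5.add h6).sub h7).congr_deriv ?_
    have hy2 : (1 + ee F t1 i t * deriv chz y) ≠ 0 := by have := h2 y; linarith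
    rw [ell_eq ht1 i t]
    unfold de zf
    field_simp
    ring
  have hcont : ContinuousOn G (Icc 0 1) := fun y hy => (hdG y hy).continuousWithinAt
  have hzc : ContinuousOn (zf F t1 i t) (Icc 0 1) := fun y hy =>
    (zf_x ht1 i ht h1 h2 hy).continuousWithinAt
  have hint : ContinuousOn (fun y => F.ell i t1 * ((1 + ee F t1 i t * deriv chz y)⁻¹ *
      zf F t1 i t y ^ 2)) (Icc 0 1) := by
    apply ContinuousOn.mul continuousOn_const
    apply ContinuousOn.mul _ (hzc.pow 2)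
    apply ContinuousOn.inv₀
    · have := chz1_c
      fun_prop
    · intro y _
      have := h2 y
      linarith
  have hsub : Icc (0:ℝ) x ⊆ Icc 0 1 := Icc_subset_Icc le_rfl hx.2
  have h8 := integral_eq_sub_of_hasDerivAt_of_le hx.1 (hcont.mono hsub) (fun y hy =>
    (hdG y ⟨hy.1.le, hy.2.le.trans hx.2⟩).hasDerivAt (Icc_mem_nhds hy.1 (hy.2.trans_le hx.2)))
    ((hint.mono hsub).intervalIntegrable_of_Icc hx.1)
  rw [intervalIntegral.integral_const_mul] at h8
  rw [h8]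
  have hG0 : G 0 = -(zf F t1 (i + 1) t 0 - zf F t1 (i + 2) t 0) / Real.sqrt 3 := by
    simp only [hG]
    rw [sg_zero, chz_zero, (junction_rel F ht).2.1 i, zf_zero, zf_zero]
    simp
  rw [hG0]
  simp only [hG]
  ring

theorem Th_t (ht1 : t1 ∈ Ioo a b) (i : Fin 3) {ε t : ℝ} (ht : t ∈ Ioo 0 ε) (hb : t1 + ε < b)
    (h : ∀ t ∈ Icc 0 ε, |ee F t1 i t| ≤ 1 / 2 ∧ ∀ x, 1 / 2 ≤ 1 + ee F t1 i t * deriv chz x)
    {x : ℝ} (hx : x ∈ Icc (0:ℝ) 1) :
    HasDerivAt (fun s => F.th i (t1 + s) (sg F t1 i s x))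
      ((1 + ee F t1 i t * deriv chz x)⁻¹ ^ 2 * zf1 F t1 i t x
        - (1 + ee F t1 i t * deriv chz x)⁻¹ ^ 3 * (ee F t1 i t / F.ell i t1) *
          deriv (deriv chz) x * zf F t1 i t x
        + (-(zf F t1 (i + 1) t 0 - zf F t1 (i + 2) t 0) / Real.sqrt 3 +
            F.ell i t1 * de F t1 i t * chz x
            + F.ell i t1 * ∫ y in (0:ℝ)..x, (1 + ee F t1 i t * deriv chz y)⁻¹ *
              zf F t1 i t y ^ 2)
          * ((1 + ee F t1 i t * deriv chz x)⁻¹ * zf F t1 i t x)) t := by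
  have hmem : ∀ t ∈ Ioo 0 ε, t1 + t ∈ Ioo a b := fun t ht =>
    ⟨by linarith [ht.1, ht1.1], by linarith [ht.2]⟩
  obtain ⟨h1, h2⟩ := h t ⟨ht.1.le, ht.2.le⟩
  have he := abs_le.mp h1
  have hpos : 0 < 1 + ee F t1 i t := by linarith
  have hsd : HasDerivAt (fun s => sg F t1 i s x)
      (de F t1 i t * (chz x - x) / (1 + ee F t1 i t) ^ 2) t := by
    unfold sg
    have h3 : HasDerivAt (ee F t1 i) (de F t1 i t) t := ee_t i (hmem t ht)
    have h4 := ((h3.mul_const (chz x)).const_add x).div (h3.const_add 1) hpos.ne'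
    refine h4.congr_deriv ?_
    field_simp
    ring
  have hcc := chain_curve (f := fun τ σ => F.th i (t1 + τ) σ)
    (fs := fun τ σ => F.ell i (t1 + τ) * F.k i (t1 + τ) σ) (a := a - t1) (b := b - t1)
    (t := t) (s := fun s => sg F t1 i s x)
    (ft := F.ks i (t1 + t) (sg F t1 i t x) + F.mu i (t1 + t) (sg F t1 i t x) *
      F.k i (t1 + t) (sg F t1 i t x))
    (σ' := de F t1 i t * (chz x - x) / (1 + ee F t1 i t) ^ 2)
    ⟨by linarith [ht.1, ht1.1], by linarith [ht.2]⟩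
    (by
      have hm : MapsTo (fun p : ℝ × ℝ => (t1 + p.1, p.2)) (Ioo (a - t1) (b - t1) ×ˢ Icc (0:ℝ) 1)
          (Ioo a b ×ˢ Icc (0:ℝ) 1) := fun p hp =>
        ⟨⟨by linarith [hp.1.1], by linarith [hp.1.2]⟩, hp.2⟩
      have hc : ContinuousOn (fun p : ℝ × ℝ => (t1 + p.1, p.2))
          (Ioo (a - t1) (b - t1) ×ˢ Icc (0:ℝ) 1) := by fun_prop
      have hk := (F.k_cont i).comp hc hm
      have hl : ContinuousOn (F.ell i) (Ioo a b) := fun t ht =>
        (F.ell_t i t ht).continuousAt.continuousWithinAt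
      have hl2 : ContinuousOn (fun p : ℝ × ℝ => F.ell i (t1 + p.1))
          (Ioo (a - t1) (b - t1) ×ˢ Icc (0:ℝ) 1) :=
        hl.comp (by fun_prop) (fun p hp => (hm hp).1)
      exact hl2.mul hk)
    (fun τ hτ σ hσ => F.th_s i _ ⟨by linarith [hτ.1], by linarith [hτ.2]⟩ σ hσ)
    (by
      filter_upwards [isOpen_Ioo.mem_nhds ht] with τ hτ
      exact sg_mem i (h τ ⟨hτ.1.le, hτ.2.le⟩).1 (h τ ⟨hτ.1.le, hτ.2.le⟩).2 hx)
    (by
      have h5 := F.th_t i _ (hmem t ht) _ (sg_mem i h1 h2 hx)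
      exact h5.comp_const_add t1 t)
    hsd
  refine hcc.congr_deriv ?_
  rw [← mu_formula ht1 i (hmem t ht) h1 h2 hx, ell_eq ht1 i t]
  have hy2 : (1 + ee F t1 i t * deriv chz x) ≠ 0 := by have := h2 x; linarith
  have hL := (F.ell_pos i t1 ht1).ne'
  unfold zf1 zf
  field_simp
  ring

theorem ee_cont (ht1 : t1 ∈ Ioo a b) {ε : ℝ} (hb : t1 + ε < b) (i : Fin 3) :
    ContinuousOn (ee F t1 i) (Icc 0 ε) := fun t ht =>
  (ee_t i ⟨by linarith [ht.1, ht1.1], by linarith [ht.2]⟩).continuousAt.continuousWithinAt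

theorem de_cont (ht1 : t1 ∈ Ioo a b) {ε : ℝ} (hb : t1 + ε < b) (i : Fin 3) :
    ContinuousOn (de F t1 i) (Icc 0 ε) := by
  unfold de
  apply ContinuousOn.div_const
  exact (F.dell_cont i).comp (by fun_prop) (fun t ht =>
    ⟨by linarith [ht.1, ht1.1], by linarith [ht.2]⟩)

theorem sg_cont (ht1 : t1 ∈ Ioo a b) {ε : ℝ} (hb : t1 + ε < b) (i : Fin 3)
    (h : ∀ t ∈ Icc 0 ε, |ee F t1 i t| ≤ 1 / 2 ∧ ∀ x, 1 / 2 ≤ 1 + ee F t1 i t * deriv chz x) :
    ContinuousOn (fun p : ℝ × ℝ => sg F t1 i p.1 p.2) (Icc 0 ε ×ˢ Icc 0 1) := by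
  unfold sg
  have h1 : ContinuousOn (fun p : ℝ × ℝ => ee F t1 i p.1) (Icc 0 ε ×ˢ Icc 0 1) :=
    (ee_cont ht1 hb i).comp (by fun_prop) (fun p hp => hp.1)
  have h2 : ContinuousOn (fun p : ℝ × ℝ => chz p.2) (Icc 0 ε ×ˢ Icc 0 1) :=
    (chz_c.comp continuous_snd).continuousOn
  apply ContinuousOn.div
  · exact continuousOn_snd.add (h1.mul h2)
  · exact continuousOn_const.add h1
  · intro p hp
    have := abs_le.mp (h p.1 hp.1).1
    linarith

theorem cont_comp (ht1 : t1 ∈ Ioo a b) {ε : ℝ} (hb : t1 + ε < b) (i : Fin 3)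
    (h : ∀ t ∈ Icc 0 ε, |ee F t1 i t| ≤ 1 / 2 ∧ ∀ x, 1 / 2 ≤ 1 + ee F t1 i t * deriv chz x)
    {g : ℝ → ℝ → ℝ} (hg : ContinuousOn (fun p : ℝ × ℝ => g p.1 p.2) (Ioo a b ×ˢ Icc 0 1)) :
    ContinuousOn (fun p : ℝ × ℝ => g (t1 + p.1) (sg F t1 i p.1 p.2)) (Icc 0 ε ×ˢ Icc 0 1) := by
  have hc : ContinuousOn (fun p : ℝ × ℝ => (t1 + p.1, sg F t1 i p.1 p.2))
      (Icc 0 ε ×ˢ Icc 0 1) := ContinuousOn.prodMk (by fun_prop) (sg_cont ht1 hb i h)
  exact hg.comp hc (fun p hp => ⟨⟨by linarith [hp.1.1, ht1.1], by linarith [hp.1.2]⟩,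
    sg_mem i (h _ hp.1).1 (h _ hp.1).2 hp.2⟩)

theorem ee_cont2 (ht1 : t1 ∈ Ioo a b) {ε : ℝ} (hb : t1 + ε < b) (i : Fin 3) :
    ContinuousOn (fun p : ℝ × ℝ => ee F t1 i p.1) (Icc 0 ε ×ˢ Icc (0:ℝ) 1) :=
  (ee_cont ht1 hb i).comp (by fun_prop) (fun p hp => hp.1)

theorem zf_cont (ht1 : t1 ∈ Ioo a b) {ε : ℝ} (hb : t1 + ε < b) (i : Fin 3)
    (h : ∀ t ∈ Icc 0 ε, |ee F t1 i t| ≤ 1 / 2 ∧ ∀ x, 1 / 2 ≤ 1 + ee F t1 i t * deriv chz x) :
    ContinuousOn (fun p : ℝ × ℝ => zf F t1 i p.1 p.2) (Icc 0 ε ×ˢ Icc 0 1) := by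
  unfold zf
  have h1 := ee_cont2 (F := F) ht1 hb i
  have h2 : ContinuousOn (fun p : ℝ × ℝ => deriv chz p.2) (Icc 0 ε ×ˢ Icc (0:ℝ) 1) :=
    (chz1_c.comp continuous_snd).continuousOn
  exact (continuousOn_const.add (h1.mul h2)).mul (cont_comp ht1 hb i h (F.k_cont i))

theorem zf1_cont (ht1 : t1 ∈ Ioo a b) {ε : ℝ} (hb : t1 + ε < b) (i : Fin 3)
    (h : ∀ t ∈ Icc 0 ε, |ee F t1 i t| ≤ 1 / 2 ∧ ∀ x, 1 / 2 ≤ 1 + ee F t1 i t * deriv chz x) :
    ContinuousOn (fun p : ℝ × ℝ => zf1 F t1 i p.1 p.2) (Icc 0 ε ×ˢ Icc 0 1) := by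
  unfold zf1
  have h1 := ee_cont2 (F := F) ht1 hb i
  have h2 : ContinuousOn (fun p : ℝ × ℝ => deriv chz p.2) (Icc 0 ε ×ˢ Icc (0:ℝ) 1) :=
    (chz1_c.comp continuous_snd).continuousOn
  have h3 : ContinuousOn (fun p : ℝ × ℝ => deriv (deriv chz) p.2) (Icc 0 ε ×ˢ Icc (0:ℝ) 1) :=
    (chz2_c.comp continuous_snd).continuousOn
  exact (((h1.div_const _).mul h3).mul (cont_comp ht1 hb i h (F.k_cont i))).add
    (((continuousOn_const.add (h1.mul h2)).pow 2).mul (cont_comp ht1 hb i h (F.ks_cont i)))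

theorem zf2_cont (ht1 : t1 ∈ Ioo a b) {ε : ℝ} (hb : t1 + ε < b) (i : Fin 3)
    (h : ∀ t ∈ Icc 0 ε, |ee F t1 i t| ≤ 1 / 2 ∧ ∀ x, 1 / 2 ≤ 1 + ee F t1 i t * deriv chz x) :
    ContinuousOn (fun p : ℝ × ℝ => zf2 F t1 i p.1 p.2) (Icc 0 ε ×ˢ Icc 0 1) := by
  unfold zf2
  have h1 := ee_cont2 (F := F) ht1 hb i
  have h2 : ContinuousOn (fun p : ℝ × ℝ => deriv chz p.2) (Icc 0 ε ×ˢ Icc (0:ℝ) 1) :=
    (chz1_c.comp continuous_snd).continuousOn
  have h3 : ContinuousOn (fun p : ℝ × ℝ => deriv (deriv chz) p.2) (Icc 0 ε ×ˢ Icc (0:ℝ) 1) :=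
    (chz2_c.comp continuous_snd).continuousOn
  have h4 : ContinuousOn (fun p : ℝ × ℝ => deriv (deriv (deriv chz)) p.2)
      (Icc 0 ε ×ˢ Icc (0:ℝ) 1) := (chz3_c.comp continuous_snd).continuousOn
  exact ((((h1.div_const _).mul h4).mul (cont_comp ht1 hb i h (F.k_cont i))).add
    ((((continuousOn_const.mul (h1.div_const _)).mul h3).mul
      (continuousOn_const.add (h1.mul h2))).mul (cont_comp ht1 hb i h (F.ks_cont i)))).add
    (((continuousOn_const.add (h1.mul h2)).pow 3).mul (cont_comp ht1 hb i h (F.kss_cont i)))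

theorem ee_zero (ht1 : t1 ∈ Ioo a b) (i : Fin 3) : ee F t1 i 0 = 0 := by
  unfold ee
  rw [add_zero, div_self (F.ell_pos i t1 ht1).ne', sub_self]

theorem sg_start (ht1 : t1 ∈ Ioo a b) (i : Fin 3) (x : ℝ) : sg F t1 i 0 x = x := by
  unfold sg
  rw [ee_zero ht1 i]
  simp

theorem zf_start (ht1 : t1 ∈ Ioo a b) (i : Fin 3) (x : ℝ) : zf F t1 i 0 x = F.k i t1 x := by
  unfold zf
  rw [sg_start ht1 i, ee_zero ht1 i, add_zero]
  simp

end flow

end EP3

open EP3

/-- EP3 : a flow in the frozen gauge given by its state at an interior time `t1` -/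
theorem flow_frozen {a b Lx : ℝ} (F : Flow a b Lx) {t1 : ℝ} (ht1 : t1 ∈ Ioo a b) :
    ∃ ε > 0, t1 + ε < b ∧ ∃ Z : Frozen (fun i => F.ell i t1) ε,
      FStarts Z (F.init ht1) ∧
      (∀ i, ∀ t ∈ Ioo 0 ε, F.ell i (t1 + t) = F.ell i t1 * (1 + Z.e i t)) ∧
      (∀ i, ∀ t ∈ Ioo 0 ε, ∀ x ∈ Icc (0:ℝ) 1,
        F.th i (t1 + t) ((x + Z.e i t * chz x) / (1 + Z.e i t)) = Z.Th i t x) ∧
      (∃ B : ℝ, ∀ i, ∀ t ∈ Ioo 0 ε, |Z.de i t| ≤ B ∧
        ∀ x ∈ Icc (0:ℝ) 1, |Z.z i t x| ≤ B ∧ |Z.z1 i t x| ≤ B) := by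
  obtain ⟨ε, hε, hb, hadm⟩ := exists_eps F t1 ht1
  have hmem : ∀ t ∈ Ioo 0 ε, t1 + t ∈ Ioo a b := fun t ht =>
    ⟨by linarith [ht.1, ht1.1], by linarith [ht.2]⟩
  have hcc : ∀ t ∈ Ioo 0 ε, t ∈ Icc 0 ε := fun t ht => ⟨ht.1.le, ht.2.le⟩
  have h0 : (0 : ℝ) ∈ Icc (0 : ℝ) 1 := ⟨le_rfl, zero_le_one⟩
  have h1 : (1 : ℝ) ∈ Icc (0 : ℝ) 1 := ⟨zero_le_one, le_rfl⟩
  have hss : (Ioo 0 ε ×ˢ Icc 0 1 : Set (ℝ × ℝ)) ⊆ Icc 0 ε ×ˢ Icc 0 1 := fun p hp =>
    ⟨hcc _ hp.1, hp.2⟩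
  refine ⟨ε, hε, hb, ?_⟩
  let Z : Frozen (fun i => F.ell i t1) ε :=
    { e := ee F t1
      de := de F t1
      Th := fun i t x => F.th i (t1 + t) (sg F t1 i t x)
      z := zf F t1
      z1 := zf1 F t1
      z2 := zf2 F t1
      L_pos := fun i => F.ell_pos i t1 ht1
      adm := fun i t ht x => (hadm i t (hcc t ht)).2 x
      adm1 := fun i t ht => (hadm i t (hcc t ht)).1
      e_t := fun i t ht => ee_t i (hmem t ht)
      de_cont := fun i => (EP3.de_cont ht1 hb i).mono (fun t ht => hcc t ht)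
      Th_cont := fun i => (cont_comp ht1 hb i (hadm i) (F.th_cont i)).mono hss
      z_cont := fun i => (zf_cont ht1 hb i (hadm i)).mono hss
      z1_cont := fun i => (zf1_cont ht1 hb i (hadm i)).mono hss
      z2_cont := fun i => (zf2_cont ht1 hb i (hadm i)).mono hss
      Th_x := fun i t ht x hx => EP3.Th_x ht1 i (hmem t ht) (hadm i t (hcc t ht)).1
        (hadm i t (hcc t ht)).2 hx
      z_x := fun i t ht x hx => zf_x ht1 i (hmem t ht) (hadm i t (hcc t ht)).1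
        (hadm i t (hcc t ht)).2 hx
      z1_x := fun i t ht x hx => zf1_x ht1 i (hmem t ht) (hadm i t (hcc t ht)).1
        (hadm i t (hcc t ht)).2 hx
      Th_t := fun i t ht x hx => EP3.Th_t ht1 i ht hb (hadm i) hx
      e_eq := fun i t ht => by
        obtain ⟨ha1, ha2⟩ := hadm i t (hcc t ht)
        have h := mu_formula ht1 i (hmem t ht) ha1 ha2 h1
        rw [sg_one i ha1, chz_one, F.mu_end i _ (hmem t ht)] at h
        simp only [sub_self, mul_zero, zero_div, add_zero, mul_one] at h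
        exact h.symm
      Th_J := fun i t ht => by
        simp only [sg_zero]
        exact F.th_J i _ (hmem t ht)
      z_J := fun t ht => by
        simp only [zf_zero]
        exact (junction_rel F (hmem t ht)).1
      Th_axis0 := fun t ht => by
        rw [sg_one 0 (hadm 0 t (hcc t ht)).1]
        exact F.th_axis0 _ (hmem t ht)
      Th_axis1 := fun t ht => by
        rw [sg_one 1 (hadm 1 t (hcc t ht)).1]
        exact F.th_axis1 _ (hmem t ht)
      z_far := fun t ht => by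
        unfold zf
        rw [sg_one 2 (hadm 2 t (hcc t ht)).1, F.k_far _ (hmem t ht), mul_zero] }
  refine ⟨Z, ?_, ?_, ?_, ?_⟩
  · refine ⟨fun i => rfl, fun i => ?_, fun i => ?_, fun i => ?_⟩
    · have h2 : ContinuousAt (ee F t1 i) 0 := by
        have h3 : HasDerivAt (ee F t1 i) (de F t1 i 0) 0 :=
          ee_t i (by rw [add_zero]; exact ht1)
        exact h3.continuousAt
      have h4 := h2.tendsto
      rw [ee_zero ht1 i] at h4
      exact h4.mono_left nhdsWithin_le_nhds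
    · intro δ hδ
      have h2 := unif_conv (f := fun t x => F.th i (t1 + t) (sg F t1 i t x)) hε
        (cont_comp ht1 hb i (hadm i) (F.th_cont i)) δ hδ
      filter_upwards [h2] with t ht x hx
      have h3 := ht x hx
      simp only [add_zero, sg_start ht1 i] at h3
      exact h3
    · have h2 := unif_conv (f := zf F t1 i) hε (zf_cont ht1 hb i (hadm i))
      rw [Metric.tendsto_nhds]
      intro δ hδ
      have h3 := h2 (min (δ / 2) 1) (lt_min (by linarith) one_pos)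
      filter_upwards [h3] with t ht
      rw [Real.dist_eq, sub_zero]
      have h4 : ∀ x ∈ Icc (0:ℝ) 1, ‖(zf F t1 i t x - F.k i t1 x) ^ 2‖ ≤ δ / 2 := by
        intro x hx
        have h5 := ht x hx
        rw [zf_start ht1 i] at h5
        rw [Real.norm_eq_abs, abs_pow]
        have h6 := (h5.trans_le (min_le_left _ _)).le
        have h7 := (h5.trans_le (min_le_right _ _)).le
        have h8 := abs_nonneg (zf F t1 i t x - F.k i t1 x)
        nlinarith
      have h5 := intervalIntegral.norm_integral_le_of_norm_le_const (a := 0) (b := 1)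
        (f := fun x => (zf F t1 i t x - F.k i t1 x) ^ 2) (C := δ / 2) (fun x hx => by
          rw [uIoc_of_le zero_le_one] at hx
          exact h4 x ⟨hx.1.le, hx.2⟩)
      rw [sub_zero, abs_one, mul_one, Real.norm_eq_abs] at h5
      have h6 : (∫ x in (0:ℝ)..1, (Z.z i t x - (F.init ht1).k i x) ^ 2) =
          ∫ x in (0:ℝ)..1, (zf F t1 i t x - F.k i t1 x) ^ 2 := rfl
      rw [h6]
      linarith
  · intro i t ht
    exact ell_eq ht1 i t
  · intro i t ht x hx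
    rfl
  · have hA : ∀ i, ∃ B : ℝ, ∀ t ∈ Icc 0 ε, |de F t1 i t| ≤ B := fun i => by
      obtain ⟨B, hB⟩ := (isCompact_Icc (a := (0:ℝ)) (b := ε)).exists_bound_of_continuousOn
        (EP3.de_cont (F := F) ht1 hb i)
      exact ⟨B, fun t ht => hB t ht⟩
    have hB : ∀ i, ∃ B : ℝ, ∀ t ∈ Icc 0 ε, ∀ x ∈ Icc (0:ℝ) 1, |zf F t1 i t x| ≤ B := fun i => by
      obtain ⟨B, hB⟩ := ((isCompact_Icc (a := (0:ℝ)) (b := ε)).prod
        (isCompact_Icc (a := (0:ℝ)) (b := 1))).exists_bound_of_continuousOn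
        (zf_cont ht1 hb i (hadm i))
      exact ⟨B, fun t ht x hx => hB (t, x) ⟨ht, hx⟩⟩
    have hC : ∀ i, ∃ B : ℝ, ∀ t ∈ Icc 0 ε, ∀ x ∈ Icc (0:ℝ) 1, |zf1 F t1 i t x| ≤ B := fun i => by
      obtain ⟨B, hB⟩ := ((isCompact_Icc (a := (0:ℝ)) (b := ε)).prod
        (isCompact_Icc (a := (0:ℝ)) (b := 1))).exists_bound_of_continuousOn
        (zf1_cont ht1 hb i (hadm i))
      exact ⟨B, fun t ht x hx => hB (t, x) ⟨ht, hx⟩⟩
    choose A hA using hA
    choose B hB using hB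
    choose C hC using hC
    have hle : ∀ i, |A i| + |B i| + |C i| ≤ ∑ j, (|A j| + |B j| + |C j|) := fun i =>
      Finset.single_le_sum (f := fun j => |A j| + |B j| + |C j|)
        (fun j _ => by positivity) (Finset.mem_univ i)
    refine ⟨∑ j, (|A j| + |B j| + |C j|), fun i t ht => ⟨?_, fun x hx => ⟨?_, ?_⟩⟩⟩
    · have h2 := hA i t (hcc t ht)
      have h3 := hle i
      have := abs_nonneg (B i)
      have := abs_nonneg (C i)
      have := le_abs_self (A i)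
      change |de F t1 i t| ≤ _
      linarith
    · have h2 := hB i t (hcc t ht) x hx
      have h3 := hle i
      have := abs_nonneg (A i)
      have := abs_nonneg (C i)
      have := le_abs_self (B i)
      change |zf F t1 i t x| ≤ _
      linarith
    · have h2 := hC i t (hcc t ht) x hx
      have h3 := hle i
      have := abs_nonneg (A i)
      have := abs_nonneg (B i)
      have := le_abs_self (C i)
      change |zf1 F t1 i t x| ≤ _
      linarith

end Pool.Agent.Helper15.NF
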