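import Pool.Agent.Helper15.NF.EP1
import Pool.Agent.Helper15.NF.EP2
import Pool.Agent.Helper15.NF.EP3
import Pool.Agent.Helper15.NF.EC5a
import Pool.Agent.Helper15.NF.EC7
import Pool.Agent.Helper15.NF.EC8

open Set MeasureTheory intervalIntegral Filter Topology

namespace Pool.Agent.Helper15.NF

private theorem EL_Gam_congr {L L' : R3} (e : L = L') (h : ∀ i, 0 < L i) (h' : ∀ i, 0 < L' i)
    {g g' : HG} (eg : g = g') (lam : ℝ) (y : YY) : Gam h g lam y = Gam h' g' lam y := by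
  subst e; subst eg; rfl

private theorem EL_zz_congr {L L' : R3} (e : L = L') (h : ∀ i, 0 < L i) (h' : ∀ i, 0 < L' i)
    {g g' : HG} (eg : g = g') (lam : ℝ) (y : YY) : zz h g lam y = zz h' g' lam y := by
  subst e; subst eg; rfl

/-- equality of derivatives of functions which agree on the unit interval -/
private theorem EL_deriv_eq {f g : ℝ → ℝ} {f' g' c x : ℝ} (hc : 0 < c) (hx : x ∈ Icc (0:ℝ) 1)
    (hfg : ∀ σ ∈ Icc (0:ℝ) 1, f σ = g σ) (hf : HasDerivWithinAt f (c * f') (Icc 0 1) x)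
    (hg : HasDerivWithinAt g (c * g') (Icc 0 1) x) : f' = g' := by
  have h1 : HasDerivWithinAt f (c * g') (Icc 0 1) x := hg.congr hfg (hfg x hx)
  have h2 := (uniqueDiffOn_Icc (zero_lt_one' ℝ) x hx).eq_deriv _ hf h1
  exact mul_left_cancel₀ hc.ne' h2

/-- the starting data in the Hilbert space only depend on the lengths and angles -/
private theorem EL_g0_eq {Lx : ℝ} (I J : Init Lx) (hell : ∀ i, J.ell i = I.ell i)
    (hth : ∀ i, ∀ σ ∈ Icc (0:ℝ) 1, J.th i σ = I.th i σ) : g0I J = g0I I := by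
  have hk : ∀ i, ∀ σ ∈ Icc (0:ℝ) 1, J.k i σ = I.k i σ := by
    intro i σ hσ
    refine EL_deriv_eq (I.ell_pos i) hσ (hth i) ?_ (I.th_s i σ hσ)
    have := J.th_s i σ hσ
    rwa [hell i] at this
  have hks : ∀ i, ∀ σ ∈ Icc (0:ℝ) 1, J.ks i σ = I.ks i σ := by
    intro i σ hσ
    refine EL_deriv_eq (I.ell_pos i) hσ (hk i) ?_ (I.k_s i σ hσ)
    have := J.k_s i σ hσ
    rwa [hell i] at this
  unfold g0I
  congr 1
  ext ⟨i, x⟩
  rw [mkG_apply, mkG_apply]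
  simp only [hell i, hks i x x.2]

private theorem EL_chz_zero : chz 0 = 0 := by
  unfold chz
  exact Real.smoothTransition.zero_of_nonpos (by norm_num)

private theorem EL_chz_one : chz 1 = 1 := by
  unfold chz
  exact Real.smoothTransition.one_of_one_le (by norm_num)

/-- the change of variables is onto -/
private theorem EL_onto {e : ℝ} (he : |e| ≤ 1 / 2) {σ : ℝ} (hσ : σ ∈ Icc (0:ℝ) 1) :
    ∃ x ∈ Icc (0:ℝ) 1, (x + e * chz x) / (1 + e) = σ := by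
  have h1 : 0 < 1 + e := by have := (abs_le.1 he).1; linarith
  have hcont : ContinuousOn (fun x => (x + e * chz x) / (1 + e)) (Icc (0:ℝ) 1) := by
    have := chz_cont
    fun_prop
  have h2 := intermediate_value_Icc (zero_le_one' ℝ) hcont
  have h3 : σ ∈ Icc ((fun x => (x + e * chz x) / (1 + e)) 0) ((fun x => (x + e * chz x) / (1 + e)) 1) := by
    simp only [EL_chz_zero, EL_chz_one]
    rw [mul_zero, zero_add, zero_div, mul_one, div_self h1.ne']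
    exact hσ
  obtain ⟨x, hx, hx'⟩ := h2 h3
  exact ⟨x, hx, hx'⟩

/-- the angles in the frozen gauge are determined by `z` -/
private theorem EL_Th_eq {L : Fin 3 → ℝ} {τ τ' : ℝ} (Z : Frozen L τ) (Z' : Frozen L τ') {t : ℝ}
    (ht : t ∈ Ioo 0 τ) (ht' : t ∈ Ioo 0 τ')
    (hz : ∀ i, ∀ x ∈ Icc (0:ℝ) 1, Z.z i t x = Z'.z i t x) :
    ∀ i, ∀ x ∈ Icc (0:ℝ) 1, Z.Th i t x = Z'.Th i t x := by
  have hconst : ∀ i, ∀ x ∈ Icc (0:ℝ) 1, ∀ y ∈ Icc (0:ℝ) 1,
      Z.Th i t x - Z'.Th i t x = Z.Th i t y - Z'.Th i t y := by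
    intro i x hx y hy
    have hd : ∀ s ∈ Icc (0:ℝ) 1,
        HasDerivWithinAt (fun s => Z.Th i t s - Z'.Th i t s) 0 (Icc 0 1) s := by
      intro s hs
      have h := (Z.Th_x i t ht s hs).sub (Z'.Th_x i t ht' s hs)
      rw [hz i s hs, sub_self] at h
      exact h
    exact (convex_Icc (0:ℝ) 1).is_const_of_fderivWithin_eq_zero (𝕜 := ℝ)
      (fun s hs => (hd s hs).differentiableWithinAt)
      (fun s hs => by
        have h := (hd s hs).hasFDerivWithinAt.fderivWithin (uniqueDiffOn_Icc (zero_lt_one' ℝ) s hs)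
        rw [h]; ext; simp) hx hy
  have h0 : (0:ℝ) ∈ Icc (0:ℝ) 1 := ⟨le_rfl, zero_le_one⟩
  have h1 : (1:ℝ) ∈ Icc (0:ℝ) 1 := ⟨zero_le_one, le_rfl⟩
  have e0 : Z.Th 0 t 0 - Z'.Th 0 t 0 = 0 := by
    rw [hconst 0 0 h0 1 h1, Z.Th_axis0 t ht, Z'.Th_axis0 t ht', sub_self]
  have e2 : Z.Th 2 t 0 - Z'.Th 2 t 0 = 0 := by
    rw [← Z.Th_J 0 t ht, ← Z'.Th_J 0 t ht', e0]
  intro i x hx
  have := hconst i x hx 0 h0
  rw [Z.Th_J i t ht, Z'.Th_J i t ht', e2] at this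
  linarith

/-- EL : local existence, with an existence time depending only on the size, and local uniqueness:
any flow passing through the same data agrees with the constructed one for a short time -/
theorem exists_local (Lx M : ℝ) : ∃ τ > 0, ∀ I : Init Lx, I.size ≤ M →
    ∃ G : Flow 0 τ Lx, StartsAt G I ∧
      ∀ (a b : ℝ) (F : Flow a b Lx) (t1 : ℝ), t1 ∈ Ioo a b →
        (∀ i, F.ell i t1 = I.ell i ∧ ∀ σ ∈ Icc (0:ℝ) 1, F.th i t1 σ = I.th i σ) →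
        ∃ ε > 0, ∀ t ∈ Ioo 0 ε, t1 + t < b ∧ t < τ ∧
          ∀ i, F.ell i (t1 + t) = G.ell i t ∧ ∀ σ ∈ Icc (0:ℝ) 1, F.th i (t1 + t) σ = G.th i t σ := by
  obtain ⟨m, hm, M', K, hsize⟩ := size_bound (Lx := Lx) (M := M)
  obtain ⟨l0, hl0, hG⟩ := Gam_contr m M' K hm
  refine ⟨l0, hl0.1, fun I hI => ?_⟩
  obtain ⟨hb, hg⟩ := hsize I hI
  have hL : ∀ i, 0 < I.ell i := I.ell_pos
  have good : Good hL (g0I I) l0 :=
    ⟨hl0.1, hl0.2, fun lam hlam => (hG I.ell hL hb (g0I I) hg lam hlam).1,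
      fun lam hlam => (hG I.ell hL hb (g0I I) hg lam hlam).2.1,
      fun lam hlam => (hG I.ell hL hb (g0I I) hg lam hlam).2.2⟩
  obtain ⟨y, hy⟩ := fix_exists good
  obtain ⟨S, hSz, hSe⟩ := fix_HSol good hy
  obtain ⟨Z, hZs, hZe, hZz⟩ := HSol_frozen I hl0.1 S
  obtain ⟨P, hPs, hPell, hPth⟩ := frozen_preflow hl0.1 Z I hZs
  obtain ⟨G, hGs, hGell, hGth⟩ := preflow_flow hl0.1 P I hPs
  refine ⟨G, hGs, fun a b F t1 ht1 hF => ?_⟩
  obtain ⟨ε1, hε1, hb1, Z', hZ's, hZ'ell, hZ'th, hZ'B⟩ := flow_frozen F ht1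
  have hJe : (F.init ht1).ell = I.ell := funext fun i => (hF i).1
  have hgJ : g0I (F.init ht1) = g0I I := EL_g0_eq I (F.init ht1) (fun i => (hF i).1)
    (fun i σ hσ => (hF i).2 σ hσ)
  obtain ⟨ε2, hε2, hfix⟩ := frozen_fix (F.init ht1) (F.init ht1).ell_pos hε1 Z' hZ's hZ'B
  refine ⟨min ε2 l0, lt_min hε2.1 hl0.1, fun t ht => ?_⟩
  have ht2 : t ∈ Ioo 0 ε2 := ⟨ht.1, lt_of_lt_of_le ht.2 (min_le_left _ _)⟩
  have htl : t ∈ Ioo 0 l0 := ⟨ht.1, lt_of_lt_of_le ht.2 (min_le_right _ _)⟩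
  have ht1' : t ∈ Ioo 0 ε1 := ⟨ht.1, ht2.2.trans hε2.2⟩
  refine ⟨by linarith [ht1'.2], htl.2, ?_⟩
  obtain ⟨y', hy'n, hy'f, hy'e, hy'z⟩ := hfix t ht2
  have hyy : y' = y t := by
    refine (hy t ⟨htl.1, htl.2.le⟩).2.2 y' (by linarith) ?_
    rw [← EL_Gam_congr hJe (F.init ht1).ell_pos hL hgJ t y']
    exact hy'f
  have hee : ∀ i, Z.e i t = Z'.e i t := by
    intro i
    rw [hZe t htl i, hSe t htl, ← hyy, hy'e i]
  have hcZ : ∀ i, ContinuousOn (fun x => Real.sqrt (I.ell i) * Z.z i t x) (Icc 0 1) := fun i =>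
    continuousOn_const.mul (fun x hx => (Z.z_x i t htl x hx).continuousWithinAt)
  have hcZ' : ∀ i, ContinuousOn (fun x => Real.sqrt ((F.init ht1).ell i) * Z'.z i t x) (Icc 0 1) :=
    fun i => continuousOn_const.mul (fun x hx => (Z'.z_x i t ht1' x hx).continuousWithinAt)
  have hmk : mkG (fun i x => Real.sqrt (I.ell i) * Z.z i t x) hcZ
      = mkG (fun i x => Real.sqrt ((F.init ht1).ell i) * Z'.z i t x) hcZ' := by
    apply ofC_injective
    rw [← hZz t htl hcZ, ← hy'z hcZ', hSz t htl, ← hyy,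
      EL_zz_congr hJe (F.init ht1).ell_pos hL hgJ t y']
  have hz : ∀ i, ∀ x ∈ Icc (0:ℝ) 1, Z.z i t x = Z'.z i t x := by
    intro i x hx
    have h := congrArg (fun a : CG => a (i, ⟨x, hx⟩)) hmk
    simp only [mkG_apply] at h
    have he : (F.init ht1).ell i = I.ell i := (hF i).1
    rw [he] at h
    exact mul_left_cancel₀ (Real.sqrt_pos.2 (hL i)).ne' h
  -- transport the second frozen solution to the lengths of `I`
  have key : ∀ (L : Fin 3 → ℝ) (_ : L = I.ell) (W : Frozen L ε1),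
      (∀ i, ∀ x ∈ Icc (0:ℝ) 1, Z.z i t x = W.z i t x) →
      ∀ i, ∀ x ∈ Icc (0:ℝ) 1, Z.Th i t x = W.Th i t x := by
    rintro L rfl W hW
    exact EL_Th_eq Z W htl ht1' hW
  have hTh := key _ hJe Z' hz
  intro i
  refine ⟨?_, fun σ hσ => ?_⟩
  · rw [hZ'ell i t ht1', hGell, hPell i t htl, (hF i).1, hee i]
  · obtain ⟨x, hx, hxσ⟩ := EL_onto (Z.adm1 i t htl) hσ
    have h1 := hPth i t htl x hx
    have h2 := hZ'th i t ht1' x hx
    rw [← hee i] at h2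
    rw [hxσ] at h1 h2
    rw [hGth, h1, h2, hTh i x hx]

end Pool.Agent.Helper15.NF
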