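import Pool.Agent.Helper15.NF.EG1
import Pool.Agent.Helper15.NF.EL

open Set MeasureTheory intervalIntegral Filter Topology

namespace Pool.Agent.Helper15.NF

variable {a b Lx : ℝ}

private theorem EG2_ell_cont (F : Flow a b Lx) (i : Fin 3) : ContinuousOn (F.ell i) (Ioo a b) :=
  fun t ht => (F.ell_t i t ht).continuousAt.continuousWithinAt

private theorem EG2_th_cont (F : Flow a b Lx) (i : Fin 3) {σ : ℝ} (hσ : σ ∈ Icc (0:ℝ) 1) :
    ContinuousOn (fun t => F.th i t σ) (Ioo a b) :=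
  fun t ht => (F.th_t i t ht σ hσ).continuousAt.continuousWithinAt

private theorem EG2_eq_closed {f g : ℝ → ℝ} {c d : ℝ} (hf : ContinuousOn f (Icc c d))
    (hg : ContinuousOn g (Icc c d)) : IsClosed ({t | f t = g t} ∩ Icc c d) := by
  have h1 : ContinuousOn (fun t => f t - g t) (Icc c d) := hf.sub hg
  have h2 := h1.preimage_isClosed_of_isClosed isClosed_Icc (isClosed_singleton (x := (0:ℝ)))
  have h3 : {t | f t = g t} ∩ Icc c d = Icc c d ∩ (fun t => f t - g t) ⁻¹' {0} := by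
    ext t
    simp only [mem_inter_iff, mem_ofPred_eq, mem_preimage, mem_singleton_iff, sub_eq_zero]
    exact and_comm
  rw [h3]
  exact h2

/-- two flows that agree at a time agree for a short time afterwards -/
private theorem EG2_local (F G : Flow a b Lx) {x : ℝ} (hx : x ∈ Ioo a b) (h : F.Agree G x) :
    {t | F.Agree G t} ∈ 𝓝[>] x := by
  obtain ⟨τ, hτ, hloc⟩ := exists_local Lx (F.init hx).size
  obtain ⟨G0, _, hG0⟩ := hloc (F.init hx) le_rfl
  obtain ⟨e1, he1, H1⟩ := hG0 a b F x hx (fun i => ⟨rfl, fun σ _ => rfl⟩)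
  obtain ⟨e2, he2, H2⟩ := hG0 a b G x hx
    (fun i => ⟨(h i).1.symm, fun σ hσ => ((h i).2 σ hσ).symm⟩)
  have hpos : x < x + min e1 e2 := by
    have := lt_min he1 he2
    linarith
  filter_upwards [Ioo_mem_nhdsGT hpos] with t ht i
  have hm1 := min_le_left e1 e2
  have hm2 := min_le_right e1 e2
  have h1 := (H1 (t - x) ⟨by linarith [ht.1], by linarith [ht.2]⟩).2.2 i
  have h2 := (H2 (t - x) ⟨by linarith [ht.1], by linarith [ht.2]⟩).2.2 i
  have hxt : x + (t - x) = t := by ring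
  rw [hxt] at h1 h2
  exact ⟨h1.1.trans h2.1.symm, fun σ hσ => (h1.2 σ hσ).trans (h2.2 σ hσ).symm⟩

/-- EG2 : uniqueness (forward in time) -/
theorem agree_forward (F G : Flow a b Lx) {t1 : ℝ} (ht1 : t1 ∈ Ioo a b) (h : F.Agree G t1) :
    ∀ t ∈ Ico t1 b, F.Agree G t := by
  intro t ht
  have hsub : Icc t1 t ⊆ Ioo a b := fun s hs => ⟨ht1.1.trans_le hs.1, hs.2.trans_lt ht.2⟩
  have hcl : IsClosed ({s | F.Agree G s} ∩ Icc t1 t) := by
    have e : {s | F.Agree G s} ∩ Icc t1 t =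
        ⋂ i : Fin 3, (({s | F.ell i s = G.ell i s} ∩ Icc t1 t) ∩
          ⋂ σ : Icc (0:ℝ) 1, ({s | F.th i s σ = G.th i s σ} ∩ Icc t1 t)) := by
      ext s
      simp only [mem_inter_iff, mem_iInter, mem_ofPred_eq, Flow.Agree]
      constructor
      · rintro ⟨h1, h2⟩ i
        exact ⟨⟨(h1 i).1, h2⟩, fun σ => ⟨(h1 i).2 σ.1 σ.2, h2⟩⟩
      · intro h1
        exact ⟨fun i => ⟨(h1 i).1.1, fun σ hσ => ((h1 i).2 ⟨σ, hσ⟩).1⟩, (h1 0).1.2⟩
    rw [e]
    refine isClosed_iInter fun i => IsClosed.inter ?_ (isClosed_iInter fun σ => ?_)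
    · exact EG2_eq_closed ((EG2_ell_cont F i).mono hsub) ((EG2_ell_cont G i).mono hsub)
    · exact EG2_eq_closed ((EG2_th_cont F i σ.2).mono hsub) ((EG2_th_cont G i σ.2).mono hsub)
  have hall : Icc t1 t ⊆ {s | F.Agree G s} :=
    hcl.Icc_subset_of_forall_mem_nhdsWithin h
      (fun x hx => EG2_local F G ⟨ht1.1.trans_le hx.2.1, hx.2.2.trans ht.2⟩ hx.1)
  exact hall ⟨ht.1, le_rfl⟩

/-- EG2b : a flow of bounded size near its final time can be continued -/
theorem extend (F : Flow a b Lx) (hab : a < b) {M : ℝ} (hM : ∀ t ∈ Ioo ((a + b) / 2) b, F.size t ≤ M) :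
    ∃ b' > b, ∃ G : Flow a b' Lx, ∀ t ∈ Ioo a b, G.Agree F t := by
  obtain ⟨τ, hτ, hloc⟩ := exists_local Lx M
  have hlt : max ((a + b) / 2) (b - τ) < b := max_lt (by linarith) (by linarith)
  obtain ⟨t1, h1, h2⟩ := exists_between hlt
  obtain ⟨h3, h4⟩ := max_lt_iff.1 h1
  have ht1 : t1 ∈ Ioo a b := ⟨by linarith, h2⟩
  obtain ⟨G0, hS, hG0⟩ := hloc (F.init ht1) (hM t1 ⟨h3, h2⟩)
  obtain ⟨e, he, H⟩ := hG0 a b F t1 ht1 (fun i => ⟨rfl, fun σ _ => rfl⟩)
  -- the heights of the end points coincide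
  have hLy : F.Ly = G0.Ly := by
    by_contra hne
    have hpos : 0 < |G0.Ly - F.Ly| := abs_pos.2 (sub_ne_zero.2 (fun h => hne h.symm))
    have hev := hS.Y 2 _ hpos
    have hev2 : ∀ᶠ t in 𝓝[>] (0:ℝ), t ∈ Ioo 0 τ := Ioo_mem_nhdsGT hτ
    obtain ⟨t, q1, q2⟩ := (hev.and hev2).exists
    have q3 := q1 1 ⟨zero_le_one, le_rfl⟩
    have q4 : (F.init ht1).Y 2 1 = F.Ly := F.Y_far t1 ht1
    rw [G0.Y_far t q2, q4] at q3
    exact lt_irrefl _ q3
  have hb' : b < τ + t1 := by linarith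
  have hagree : ∀ t ∈ Ioo t1 b, F.Agree (G0.shift t1) t := by
    intro t ht
    have hlt2 : t1 < min t (t1 + e) := lt_min ht.1 (by linarith)
    obtain ⟨s, hs1, hs2⟩ := exists_between hlt2
    obtain ⟨hs3, hs4⟩ := lt_min_iff.1 hs2
    have hA : F.Agree (G0.shift t1) s := by
      intro i
      have q := (H (s - t1) ⟨by linarith, by linarith⟩).2.2 i
      have hxt : t1 + (s - t1) = s := by ring
      rw [hxt] at q
      exact q
    exact agree_forward (F.restrict (a' := t1) (b' := b) ht1.1.le le_rfl)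
      ((G0.shift t1).restrict (a' := t1) (b' := b) (by linarith) hb'.le)
      (t1 := s) ⟨hs1, hs3.trans ht.2⟩ hA t ⟨hs3.le, ht.2⟩
  obtain ⟨K, _, hK, _⟩ := glue F (G0.shift t1) hLy (by linarith [ht1.1]) (by linarith [ht1.2])
    hb'.le (fun t ht => hagree t ⟨by linarith [ht.1], ht.2⟩)
  exact ⟨τ + t1, hb', K, hK⟩

end Pool.Agent.Helper15.NF
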