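import Mathlib

open Set MeasureTheory intervalIntegral Filter Topology

namespace Pool.Agent.Helper15.NF

/-- projection to `[0,1]` -/
noncomputable def emq (σ : ℝ) : ℝ := max 0 (min σ 1)

theorem emq_cont : Continuous emq := continuous_const.max (continuous_id.min continuous_const)

theorem emq_mem (σ : ℝ) : emq σ ∈ Icc (0:ℝ) 1 :=
  ⟨le_max_left _ _, max_le zero_le_one (min_le_right _ _)⟩

theorem emq_eq {σ : ℝ} (h : σ ∈ Icc (0:ℝ) 1) : emq σ = σ := by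
  unfold emq
  rw [min_eq_left h.2, max_eq_right h.1]

/-- fundamental theorem with one sided derivatives, arbitrary end points in `[0,1]` -/
theorem em_ftc {f f' : ℝ → ℝ}
    (hf : ∀ σ ∈ Icc (0:ℝ) 1, HasDerivWithinAt f (f' σ) (Icc 0 1) σ)
    (hf' : ContinuousOn f' (Icc 0 1)) {s1 s2 : ℝ} (h1 : s1 ∈ Icc (0:ℝ) 1)
    (h2 : s2 ∈ Icc (0:ℝ) 1) : ∫ σ in s1..s2, f' σ = f s2 - f s1 := by
  have hsub : uIcc s1 s2 ⊆ Icc (0:ℝ) 1 := uIcc_subset_Icc h1 h2
  apply intervalIntegral.integral_eq_sub_of_hasDeriv_right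
  · exact fun σ hσ => ((hf σ (hsub hσ)).continuousWithinAt).mono hsub
  · intro σ hσ
    have hσ' : σ ∈ Ioo (0:ℝ) 1 :=
      ⟨lt_of_le_of_lt (le_min h1.1 h2.1) hσ.1, lt_of_lt_of_le hσ.2 (max_le h1.2 h2.2)⟩
    exact ((hf σ (Ioo_subset_Icc_self hσ')).hasDerivAt
      (Icc_mem_nhds hσ'.1 hσ'.2)).hasDerivWithinAt
  · exact (hf'.mono hsub).intervalIntegrable

/-- sections of a jointly continuous function -/
theorem em_sec_s {a b : ℝ} {g : ℝ → ℝ → ℝ}
    (hg : ContinuousOn (fun p : ℝ × ℝ => g p.1 p.2) (Ioo a b ×ˢ Icc 0 1)) {t : ℝ}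
    (ht : t ∈ Ioo a b) : ContinuousOn (g t) (Icc 0 1) := by
  have h := hg.comp (f := fun σ : ℝ => (t, σ)) (s := Icc (0:ℝ) 1)
    (by fun_prop) (fun σ hσ => ⟨ht, hσ⟩)
  exact h

theorem em_sec_t {a b : ℝ} {g : ℝ → ℝ → ℝ}
    (hg : ContinuousOn (fun p : ℝ × ℝ => g p.1 p.2) (Ioo a b ×ˢ Icc 0 1)) {σ : ℝ}
    (hσ : σ ∈ Icc (0:ℝ) 1) : ContinuousOn (fun t => g t σ) (Ioo a b) := by
  have h := hg.comp (f := fun t : ℝ => (t, σ)) (s := Ioo a b)
    (by fun_prop) (fun t ht => ⟨ht, hσ⟩)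
  exact h

/-- integral form of the exchange of derivatives -/
theorem mixed_int {a b : ℝ} {f g h hs : ℝ → ℝ → ℝ}
    (hg : ContinuousOn (fun p : ℝ × ℝ => g p.1 p.2) (Ioo a b ×ˢ Icc 0 1))
    (hh : ContinuousOn (fun p : ℝ × ℝ => h p.1 p.2) (Ioo a b ×ˢ Icc 0 1))
    (hhs : ContinuousOn (fun p : ℝ × ℝ => hs p.1 p.2) (Ioo a b ×ˢ Icc 0 1))
    (h1 : ∀ t ∈ Ioo a b, ∀ σ ∈ Icc (0:ℝ) 1, HasDerivWithinAt (f t) (g t σ) (Icc 0 1) σ)
    (h2 : ∀ t ∈ Ioo a b, ∀ σ ∈ Icc (0:ℝ) 1, HasDerivAt (fun τ => f τ σ) (h t σ) t)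
    (h3 : ∀ t ∈ Ioo a b, ∀ σ ∈ Icc (0:ℝ) 1, HasDerivWithinAt (h t) (hs t σ) (Icc 0 1) σ)
    {t0 t : ℝ} (ht0 : t0 ∈ Ioo a b) (ht : t ∈ Ioo a b) {σ : ℝ} (hσ : σ ∈ Icc (0:ℝ) 1) :
    g t σ - g t0 σ = ∫ τ in t0..t, hs τ σ := by
  have hK : uIcc t0 t ⊆ Ioo a b := by
    intro x hx
    rcases le_total t0 t with hle | hle
    · rw [uIcc_of_le hle] at hx
      exact ⟨lt_of_lt_of_le ht0.1 hx.1, lt_of_le_of_lt hx.2 ht.2⟩
    · rw [uIcc_of_ge hle] at hx
      exact ⟨lt_of_lt_of_le ht.1 hx.1, lt_of_le_of_lt hx.2 ht0.2⟩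
  set q1 : ℝ → ℝ := fun x => max (min t0 t) (min x (max t0 t)) with hq1
  have c1 : Continuous q1 := continuous_const.max (continuous_id.min continuous_const)
  have m1 : ∀ x, q1 x ∈ uIcc t0 t := fun x =>
    ⟨le_max_left _ _, max_le (min_le_max) (min_le_right _ _)⟩
  have e1 : ∀ x ∈ uIcc t0 t, q1 x = x := fun x hx => by
    simp only [hq1]
    rw [min_eq_left hx.2, max_eq_right hx.1]
  have cG : Continuous (Function.uncurry fun x s => hs (q1 x) (emq s)) := by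
    have h1 : Continuous (fun p : ℝ × ℝ => (q1 p.1, emq p.2)) :=
      (c1.comp continuous_fst).prodMk (emq_cont.comp continuous_snd)
    exact hhs.comp_continuous h1 (fun p => ⟨hK (m1 p.1), emq_mem p.2⟩)
  set B : ℝ → ℝ := fun s => ∫ x in t0..t, hs (q1 x) (emq s) with hB
  have cG' : Continuous (Function.uncurry fun s x => hs (q1 x) (emq s)) := by
    have := cG.comp (continuous_swap (X := ℝ) (Y := ℝ))
    exact this
  have cB : Continuous B :=
    intervalIntegral.continuous_parametric_intervalIntegral_of_continuous' cG' t0 t (μ := volume)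
  have h0 : (0:ℝ) ∈ Icc (0:ℝ) 1 := ⟨le_rfl, zero_le_one⟩
  have key : ∀ s ∈ Icc (0:ℝ) 1, f t s - f t0 s = (f t 0 - f t0 0) + ∫ y in (0:ℝ)..s, B y := by
    intro s hs'
    have F : ∀ s ∈ Icc (0:ℝ) 1, ∫ x in t0..t, h x s = f t s - f t0 s := by
      intro s hs'
      apply intervalIntegral.integral_eq_sub_of_hasDerivAt
      · intro x hx
        exact h2 x (hK hx) s hs'
      · exact ((em_sec_t hh hs').mono hK).intervalIntegrable
    have i1 : IntervalIntegrable (fun x => h x s) volume t0 t :=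
      ((em_sec_t hh hs').mono hK).intervalIntegrable
    have i0 : IntervalIntegrable (fun x => h x 0) volume t0 t :=
      ((em_sec_t hh h0).mono hK).intervalIntegrable
    have e : ∫ x in t0..t, (h x s - h x 0) = ∫ x in t0..t, ∫ y in (0:ℝ)..s, hs (q1 x) (emq y) := by
      apply intervalIntegral.integral_congr
      intro x hx
      show h x s - h x 0 = ∫ y in (0:ℝ)..s, hs (q1 x) (emq y)
      rw [← em_ftc (fun σ hσ => h3 x (hK hx) σ hσ) (em_sec_s hhs (hK hx)) h0 hs']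
      apply intervalIntegral.integral_congr
      intro y hy
      have hy' : y ∈ Icc (0:ℝ) 1 := uIcc_subset_Icc h0 hs' hy
      show hs x y = hs (q1 x) (emq y)
      rw [e1 x hx, emq_eq hy']
    have sw := intervalIntegral_intervalIntegral_swap (F := fun x y => hs (q1 x) (emq y))
      (a := t0) (b := t) (c := 0) (d := s)
      (((cG.continuousOn).integrableOn_compact (isCompact_uIcc.prod isCompact_uIcc)).mono_set
        (prod_mono uIoc_subset_uIcc uIoc_subset_uIcc))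
    have h5 : ∫ x in t0..t, (h x s - h x 0) = (f t s - f t0 s) - (f t 0 - f t0 0) := by
      rw [intervalIntegral.integral_sub i1 i0, F s hs', F 0 h0]
    have h6 : ∫ x in t0..t, ∫ y in (0:ℝ)..s, hs (q1 x) (emq y) = ∫ y in (0:ℝ)..s, B y := sw
    rw [e, h6] at h5
    linarith
  have d1 : HasDerivWithinAt (fun s => f t s - f t0 s) (B σ) (Icc 0 1) σ := by
    have hd : HasDerivAt (fun s => (f t 0 - f t0 0) + ∫ y in (0:ℝ)..s, B y) (B σ) σ := by
      have := intervalIntegral.integral_hasDerivAt_right (cB.intervalIntegrable 0 σ)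
        cB.stronglyMeasurable.stronglyMeasurableAtFilter cB.continuousAt
      exact this.const_add _
    exact (hd.hasDerivWithinAt).congr (fun s hs' => key s hs') (key σ hσ)
  have d2 : HasDerivWithinAt (fun s => f t s - f t0 s) (g t σ - g t0 σ) (Icc 0 1) σ :=
    (h1 t ht σ hσ).sub (h1 t0 ht0 σ hσ)
  have hu := (uniqueDiffOn_Icc (zero_lt_one' ℝ)) σ hσ
  have := hu.eq_deriv _ d2 d1
  rw [this, hB]
  apply intervalIntegral.integral_congr
  intro x hx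
  show hs (q1 x) (emq σ) = hs x σ
  rw [e1 x hx, emq_eq hσ]

/-- primitive of a continuous function on an open interval -/
theorem em_prim {a b t0 : ℝ} {φ G : ℝ → ℝ} (hφ : ContinuousOn φ (Ioo a b)) (ht0 : t0 ∈ Ioo a b)
    (hG : ∀ t ∈ Ioo a b, G t - G t0 = ∫ τ in t0..t, φ τ) : HasDerivAt G (φ t0) t0 := by
  have hm : Ioo a b ∈ 𝓝 t0 := Ioo_mem_nhds ht0.1 ht0.2
  have h1 : HasDerivAt (fun t => G t0 + ∫ τ in t0..t, φ τ) (φ t0) t0 := by
    have := intervalIntegral.integral_hasDerivAt_right (f := φ) (a := t0) (b := t0)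
      (by simp) (hφ.stronglyMeasurableAtFilter isOpen_Ioo t0 ht0) (hφ.continuousAt hm)
    exact this.const_add _
  refine h1.congr_of_eventuallyEq ?_
  filter_upwards [hm] with t ht
  have := hG t ht
  linarith

/-- EM : exchange of derivatives. `f_s = g`, `f_t = h`, `h_s = hs`, all continuous: then `g_t = hs`. -/
theorem mixed_deriv {a b : ℝ} {f g h hs : ℝ → ℝ → ℝ}
    (hg : ContinuousOn (fun p : ℝ × ℝ => g p.1 p.2) (Ioo a b ×ˢ Icc 0 1))
    (hh : ContinuousOn (fun p : ℝ × ℝ => h p.1 p.2) (Ioo a b ×ˢ Icc 0 1))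
    (hhs : ContinuousOn (fun p : ℝ × ℝ => hs p.1 p.2) (Ioo a b ×ˢ Icc 0 1))
    (h1 : ∀ t ∈ Ioo a b, ∀ σ ∈ Icc (0:ℝ) 1, HasDerivWithinAt (f t) (g t σ) (Icc 0 1) σ)
    (h2 : ∀ t ∈ Ioo a b, ∀ σ ∈ Icc (0:ℝ) 1, HasDerivAt (fun τ => f τ σ) (h t σ) t)
    (h3 : ∀ t ∈ Ioo a b, ∀ σ ∈ Icc (0:ℝ) 1, HasDerivWithinAt (h t) (hs t σ) (Icc 0 1) σ) :
    ∀ t ∈ Ioo a b, ∀ σ ∈ Icc (0:ℝ) 1, HasDerivAt (fun τ => g τ σ) (hs t σ) t := by
  intro t0 ht0 σ hσ
  exact em_prim (φ := fun τ => hs τ σ) (em_sec_t hhs hσ) ht0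
    (fun t ht => mixed_int hg hh hhs h1 h2 h3 ht0 ht hσ)

end Pool.Agent.Helper15.NF
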