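import Pool.Agent.Helper15.NF.EPre
import Pool.Agent.Helper15.NF.EM

open Set MeasureTheory intervalIntegral Filter Topology

namespace Pool.Agent.Helper15.NF

/-! ### integrals with respect to the space variable -/

theorem ep_uIcc {a b t0 t : ℝ} (ht0 : t0 ∈ Ioo a b) (ht : t ∈ Ioo a b) : uIcc t0 t ⊆ Ioo a b := by
  intro x hx
  rcases le_total t0 t with hle | hle
  · rw [uIcc_of_le hle] at hx
    exact ⟨lt_of_lt_of_le ht0.1 hx.1, lt_of_le_of_lt hx.2 ht.2⟩
  · rw [uIcc_of_ge hle] at hx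
    exact ⟨lt_of_lt_of_le ht.1 hx.1, lt_of_le_of_lt hx.2 ht0.2⟩

/-- space derivative of a primitive -/
theorem ep_prim_s {φ : ℝ → ℝ} (hφ : ContinuousOn φ (Icc 0 1)) {σ : ℝ} (hσ : σ ∈ Icc (0:ℝ) 1) :
    HasDerivWithinAt (fun y => ∫ s in (0:ℝ)..y, φ s) (φ σ) (Icc 0 1) σ := by
  have h0 : (0:ℝ) ∈ Icc (0:ℝ) 1 := ⟨le_rfl, zero_le_one⟩
  have hc : Continuous (fun s => φ (emq s)) := hφ.comp_continuous emq_cont emq_mem
  have hd : HasDerivAt (fun y => ∫ s in (0:ℝ)..y, φ (emq s)) (φ (emq σ)) σ :=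
    intervalIntegral.integral_hasDerivAt_right (hc.intervalIntegrable 0 σ)
      hc.stronglyMeasurable.stronglyMeasurableAtFilter hc.continuousAt
  have hcg : ∀ y ∈ Icc (0:ℝ) 1, ∫ s in (0:ℝ)..y, φ s = ∫ s in (0:ℝ)..y, φ (emq s) := by
    intro y hy
    apply intervalIntegral.integral_congr
    intro s hs
    show φ s = φ (emq s)
    rw [emq_eq (uIcc_subset_Icc h0 hy hs)]
  rw [emq_eq hσ] at hd
  exact (hd.hasDerivWithinAt).congr (fun y hy => hcg y hy) (hcg σ hσ)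

/-- joint continuity of a primitive -/
theorem ep_prim_cont {a b : ℝ} {c : ℝ → ℝ → ℝ}
    (hc : ContinuousOn (fun p : ℝ × ℝ => c p.1 p.2) (Ioo a b ×ˢ Icc 0 1)) :
    ContinuousOn (fun p : ℝ × ℝ => ∫ s in (0:ℝ)..p.2, c p.1 s) (Ioo a b ×ˢ Icc 0 1) := by
  intro p0 hp0
  obtain ⟨t0, σ0⟩ := p0
  have ht0 : t0 ∈ Ioo a b := hp0.1
  obtain ⟨t1, h1a, h1b⟩ := exists_between ht0.1
  obtain ⟨t2, h2a, h2b⟩ := exists_between ht0.2
  set q1 : ℝ → ℝ := fun x => max t1 (min x t2) with hq1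
  have c1 : Continuous q1 := continuous_const.max (continuous_id.min continuous_const)
  have m1 : ∀ x, q1 x ∈ Ioo a b := fun x =>
    ⟨lt_of_lt_of_le h1a (le_max_left _ _),
      max_lt (lt_trans h1b (lt_trans h2a h2b)) (lt_of_le_of_lt (min_le_right _ _) h2b)⟩
  have e1 : ∀ x ∈ Ioo t1 t2, q1 x = x := fun x hx => by
    simp only [hq1]
    rw [min_eq_left hx.2.le, max_eq_right hx.1.le]
  have cG : Continuous (Function.uncurry fun x s => c (q1 x) (emq s)) := by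
    have h1 : Continuous (fun p : ℝ × ℝ => (q1 p.1, emq p.2)) :=
      (c1.comp continuous_fst).prodMk (emq_cont.comp continuous_snd)
    exact hc.comp_continuous h1 (fun p => ⟨m1 p.1, emq_mem p.2⟩)
  have hP := intervalIntegral.continuous_parametric_primitive_of_continuous
    (μ := volume) (a₀ := 0) cG
  have hW : ContinuousWithinAt (fun p : ℝ × ℝ => ∫ s in (0:ℝ)..p.2, c (q1 p.1) (emq s))
      (Ioo a b ×ˢ Icc 0 1) (t0, σ0) := hP.continuousWithinAt
  have hcg : ∀ p : ℝ × ℝ, p.1 ∈ Ioo t1 t2 → p.2 ∈ Icc (0:ℝ) 1 →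
      ∫ s in (0:ℝ)..p.2, c p.1 s = ∫ s in (0:ℝ)..p.2, c (q1 p.1) (emq s) := by
    intro p hp hp2
    apply intervalIntegral.integral_congr
    intro s hs
    show c p.1 s = c (q1 p.1) (emq s)
    rw [e1 p.1 hp, emq_eq (uIcc_subset_Icc ⟨le_rfl, zero_le_one⟩ hp2 hs)]
  refine hW.congr_of_eventuallyEq ?_ (hcg (t0, σ0) ⟨h1b, h2a⟩ hp0.2)
  have hm : Ioo t1 t2 ×ˢ (univ : Set ℝ) ∈ 𝓝 ((t0, σ0) : ℝ × ℝ) :=
    prod_mem_nhds (Ioo_mem_nhds h1b h2a) univ_mem
  filter_upwards [self_mem_nhdsWithin, mem_nhdsWithin_of_mem_nhds hm] with p hp hp'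
  exact hcg p hp'.1 hp.2

/-- time derivative of an integral in space -/
theorem ep_param {a b : ℝ} {c V d : ℝ → ℝ → ℝ}
    (hc : ContinuousOn (fun p : ℝ × ℝ => c p.1 p.2) (Ioo a b ×ˢ Icc 0 1))
    (hV : ContinuousOn (fun p : ℝ × ℝ => V p.1 p.2) (Ioo a b ×ˢ Icc 0 1))
    (hd : ContinuousOn (fun p : ℝ × ℝ => d p.1 p.2) (Ioo a b ×ˢ Icc 0 1))
    (h1 : ∀ t ∈ Ioo a b, ∀ σ ∈ Icc (0:ℝ) 1, HasDerivAt (fun τ => c τ σ) (d t σ) t)
    (h2 : ∀ t ∈ Ioo a b, ∀ σ ∈ Icc (0:ℝ) 1, HasDerivWithinAt (V t) (d t σ) (Icc 0 1) σ)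
    {y : ℝ} (hy : y ∈ Icc (0:ℝ) 1) {t0 : ℝ} (ht0 : t0 ∈ Ioo a b) :
    HasDerivAt (fun τ => ∫ s in (0:ℝ)..y, c τ s) (V t0 y - V t0 0) t0 := by
  have h0 : (0:ℝ) ∈ Icc (0:ℝ) 1 := ⟨le_rfl, zero_le_one⟩
  have hsub : uIcc 0 y ⊆ Icc (0:ℝ) 1 := uIcc_subset_Icc h0 hy
  refine em_prim (φ := fun τ => V τ y - V τ 0) ((em_sec_t hV hy).sub (em_sec_t hV h0)) ht0 ?_
  intro t ht
  have hK := ep_uIcc ht0 ht
  set q1 : ℝ → ℝ := fun x => max (min t0 t) (min x (max t0 t)) with hq1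
  have c1 : Continuous q1 := continuous_const.max (continuous_id.min continuous_const)
  have m1 : ∀ x, q1 x ∈ uIcc t0 t := fun x =>
    ⟨le_max_left _ _, max_le (min_le_max) (min_le_right _ _)⟩
  have e1 : ∀ x ∈ uIcc t0 t, q1 x = x := fun x hx => by
    simp only [hq1]
    rw [min_eq_left hx.2, max_eq_right hx.1]
  have cG : Continuous (Function.uncurry fun x s => d (q1 x) (emq s)) := by
    have h1 : Continuous (fun p : ℝ × ℝ => (q1 p.1, emq p.2)) :=
      (c1.comp continuous_fst).prodMk (emq_cont.comp continuous_snd)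
    exact hd.comp_continuous h1 (fun p => ⟨hK (m1 p.1), emq_mem p.2⟩)
  have i1 : IntervalIntegrable (c t) volume 0 y :=
    ((em_sec_s hc ht).mono hsub).intervalIntegrable
  have i0 : IntervalIntegrable (c t0) volume 0 y :=
    ((em_sec_s hc ht0).mono hsub).intervalIntegrable
  have sw := intervalIntegral_intervalIntegral_swap (F := fun x s => d (q1 x) (emq s))
    (a := t0) (b := t) (c := 0) (d := y)
    (((cG.continuousOn).integrableOn_compact (isCompact_uIcc.prod isCompact_uIcc)).mono_set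
      (prod_mono uIoc_subset_uIcc uIoc_subset_uIcc))
  show (∫ s in (0:ℝ)..y, c t s) - (∫ s in (0:ℝ)..y, c t0 s) = ∫ x in t0..t, (V x y - V x 0)
  rw [← intervalIntegral.integral_sub i1 i0]
  have eL : ∫ s in (0:ℝ)..y, (c t s - c t0 s)
      = ∫ s in (0:ℝ)..y, ∫ x in t0..t, d (q1 x) (emq s) := by
    apply intervalIntegral.integral_congr
    intro s hs
    have hs' := hsub hs
    show c t s - c t0 s = ∫ x in t0..t, d (q1 x) (emq s)
    rw [← intervalIntegral.integral_eq_sub_of_hasDerivAt (f := fun τ => c τ s)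
      (fun x hx => h1 x (hK hx) s hs') (((em_sec_t hd hs').mono hK).intervalIntegrable)]
    apply intervalIntegral.integral_congr
    intro x hx
    show d x s = d (q1 x) (emq s)
    rw [e1 x hx, emq_eq hs']
  have eR : ∫ x in t0..t, (V x y - V x 0)
      = ∫ x in t0..t, ∫ s in (0:ℝ)..y, d (q1 x) (emq s) := by
    apply intervalIntegral.integral_congr
    intro x hx
    show V x y - V x 0 = ∫ s in (0:ℝ)..y, d (q1 x) (emq s)
    rw [← em_ftc (fun σ hσ => h2 x (hK hx) σ hσ) (em_sec_s hd (hK hx)) h0 hy]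
    apply intervalIntegral.integral_congr
    intro s hs
    show d x s = d (q1 x) (emq s)
    rw [e1 x hx, emq_eq (hsub hs)]
  rw [eL, eR, sw]

/-! ### one coordinate of the positions; `β = 0` is the first, `β = π / 2` the second one -/

variable {a b : ℝ}

noncomputable def ecd (P : PreFlow a b) (β : ℝ) (i : Fin 3) (t σ : ℝ) : ℝ :=
  P.ell i t * Real.cos (P.th i t σ + off i - β)

noncomputable def eve (P : PreFlow a b) (β : ℝ) (i : Fin 3) (t σ : ℝ) : ℝ :=
  -(P.k i t σ * Real.sin (P.th i t σ + off i - β)) + P.mu i t σ * Real.cos (P.th i t σ + off i - β)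

noncomputable def eds (P : PreFlow a b) (β : ℝ) (i : Fin 3) (t σ : ℝ) : ℝ :=
  P.dell i t * Real.cos (P.th i t σ + off i - β)
    - P.ell i t * ((P.ks i t σ + P.mu i t σ * P.k i t σ) * Real.sin (P.th i t σ + off i - β))

noncomputable def epos (P : PreFlow a b) (β Z : ℝ) (i : Fin 3) (t σ : ℝ) : ℝ :=
  (Z - ∫ s in (0:ℝ)..1, ecd P β 2 t s) + ∫ s in (0:ℝ)..σ, ecd P β i t s

theorem ep_ell_cont (P : PreFlow a b) (i : Fin 3) :
    ContinuousOn (fun p : ℝ × ℝ => P.ell i p.1) (Ioo a b ×ˢ Icc (0:ℝ) 1) := by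
  have h : ContinuousOn (P.ell i) (Ioo a b) := fun t ht =>
    (P.ell_t i t ht).continuousAt.continuousWithinAt
  exact h.comp continuous_fst.continuousOn (fun p hp => hp.1)

theorem ep_dell_cont (P : PreFlow a b) (i : Fin 3) :
    ContinuousOn (fun p : ℝ × ℝ => P.dell i p.1) (Ioo a b ×ˢ Icc (0:ℝ) 1) :=
  (P.dell_cont i).comp continuous_fst.continuousOn (fun p hp => hp.1)

theorem ecd_cont (P : PreFlow a b) (β : ℝ) (i : Fin 3) :
    ContinuousOn (fun p : ℝ × ℝ => ecd P β i p.1 p.2) (Ioo a b ×ˢ Icc (0:ℝ) 1) := by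
  have h1 := ep_ell_cont P i
  have h2 := P.th_cont i
  unfold ecd
  fun_prop

theorem eve_cont (P : PreFlow a b) (β : ℝ) (i : Fin 3) :
    ContinuousOn (fun p : ℝ × ℝ => eve P β i p.1 p.2) (Ioo a b ×ˢ Icc (0:ℝ) 1) := by
  have h1 := P.k_cont i
  have h2 := P.th_cont i
  have h3 := P.mu_cont i
  unfold eve
  fun_prop

theorem eds_cont (P : PreFlow a b) (β : ℝ) (i : Fin 3) :
    ContinuousOn (fun p : ℝ × ℝ => eds P β i p.1 p.2) (Ioo a b ×ˢ Icc (0:ℝ) 1) := by
  have h1 := P.k_cont i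
  have h2 := P.th_cont i
  have h3 := P.mu_cont i
  have h4 := P.ks_cont i
  have h5 := ep_ell_cont P i
  have h6 := ep_dell_cont P i
  unfold eds
  fun_prop

theorem ecd_t (P : PreFlow a b) (β : ℝ) (i : Fin 3) {t σ : ℝ} (ht : t ∈ Ioo a b)
    (hσ : σ ∈ Icc (0:ℝ) 1) : HasDerivAt (fun τ => ecd P β i τ σ) (eds P β i t σ) t := by
  have h := (P.ell_t i t ht).mul ((((P.th_t i t ht σ hσ).add_const (off i)).sub_const β).cos)
  refine h.congr_deriv ?_
  unfold eds
  ring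

theorem eve_s (P : PreFlow a b) (β : ℝ) (i : Fin 3) {t σ : ℝ} (ht : t ∈ Ioo a b)
    (hσ : σ ∈ Icc (0:ℝ) 1) : HasDerivWithinAt (eve P β i t) (eds P β i t σ) (Icc 0 1) σ := by
  have hth := (((P.th_s i t ht σ hσ).add_const (off i)).sub_const β)
  have h := (((P.k_s i t ht σ hσ).mul hth.sin).neg).add ((P.mu_s i t ht σ hσ).mul hth.cos)
  refine (h.congr_deriv ?_)
  unfold eds
  ring

theorem ep_cos : Real.cos (2 * Real.pi / 3) = -(1 / 2) ∧
    Real.sin (2 * Real.pi / 3) = Real.sqrt 3 / 2 := by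
  have h : 2 * Real.pi / 3 = Real.pi - Real.pi / 3 := by ring
  rw [h, Real.cos_pi_sub, Real.sin_pi_sub, Real.cos_pi_div_three, Real.sin_pi_div_three]
  exact ⟨rfl, rfl⟩

/-- the three velocities agree at the junction -/
theorem eve_J (P : PreFlow a b) (β : ℝ) (i : Fin 3) {t : ℝ} (ht : t ∈ Ioo a b) :
    eve P β i t 0 = eve P β 2 t 0 := by
  have hk := P.k_J t ht
  rw [Fin.sum_univ_three] at hk
  have h3 : Real.sqrt 3 ≠ 0 := by positivity
  have h33 : Real.sqrt 3 * Real.sqrt 3 = 3 := Real.mul_self_sqrt (by norm_num)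
  have m2 : P.mu 2 t 0 = -(P.k 0 t 0 - P.k 1 t 0) / Real.sqrt 3 := P.mu_J 2 t ht
  have m0 : P.mu 0 t 0 = -(P.k 1 t 0 - P.k 2 t 0) / Real.sqrt 3 := P.mu_J 0 t ht
  have m1 : P.mu 1 t 0 = -(P.k 2 t 0 - P.k 0 t 0) / Real.sqrt 3 := P.mu_J 1 t ht
  have hk2 : P.k 2 t 0 = -P.k 0 t 0 - P.k 1 t 0 := by linarith
  have t0 := P.th_J 0 t ht
  have t1 := P.th_J 1 t ht
  obtain ⟨hc, hs⟩ := ep_cos
  have o0 : off 0 = 2 * Real.pi / 3 := rfl
  have o1 : off 1 = -(2 * Real.pi / 3) := rfl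
  have o2 : off 2 = 0 := rfl
  have inv3 : (Real.sqrt 3)⁻¹ = Real.sqrt 3 / 3 := by
    field_simp
    rw [sq, h33]
  fin_cases i
  · show eve P β 0 t 0 = eve P β 2 t 0
    unfold eve
    rw [t0, o0, o2, m0, m2]
    have e1 : P.th 2 t 0 + 2 * Real.pi / 3 - β = (P.th 2 t 0 - β) + 2 * Real.pi / 3 := by ring
    have e2 : P.th 2 t 0 + 0 - β = P.th 2 t 0 - β := by ring
    rw [e1, e2, Real.sin_add, Real.cos_add, hc, hs, hk2]
    set S := Real.sin (P.th 2 t 0 - β)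
    set C := Real.cos (P.th 2 t 0 - β)
    simp only [div_eq_mul_inv, inv3]
    linear_combination ((P.k 0 t 0) * S / 6 + (P.k 1 t 0) * S / 3) * h33
  · show eve P β 1 t 0 = eve P β 2 t 0
    unfold eve
    rw [t1, o1, o2, m1, m2]
    have e1 : P.th 2 t 0 + -(2 * Real.pi / 3) - β = (P.th 2 t 0 - β) - 2 * Real.pi / 3 := by ring
    have e2 : P.th 2 t 0 + 0 - β = P.th 2 t 0 - β := by ring
    rw [e1, e2, Real.sin_sub (P.th 2 t 0 - β) (2 * Real.pi / 3),
      Real.cos_sub (P.th 2 t 0 - β) (2 * Real.pi / 3), hc, hs, hk2]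
    set S := Real.sin (P.th 2 t 0 - β)
    set C := Real.cos (P.th 2 t 0 - β)
    simp only [div_eq_mul_inv, inv3]
    linear_combination ((P.k 1 t 0) * S / 6 + (P.k 0 t 0) * S / 3) * h33
  · rfl

/-! ### the positions -/

theorem epos_cont (P : PreFlow a b) (β Z : ℝ) (i : Fin 3) :
    ContinuousOn (fun p : ℝ × ℝ => epos P β Z i p.1 p.2) (Ioo a b ×ˢ Icc (0:ℝ) 1) := by
  have h1 := ep_prim_cont (ecd_cont P β i)
  have h2 := ep_prim_cont (ecd_cont P β 2)
  have h3 : ContinuousOn (fun p : ℝ × ℝ => ∫ s in (0:ℝ)..1, ecd P β 2 p.1 s)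
      (Ioo a b ×ˢ Icc (0:ℝ) 1) := by
    have := h2.comp (f := fun p : ℝ × ℝ => ((p.1, 1) : ℝ × ℝ)) (s := Ioo a b ×ˢ Icc (0:ℝ) 1)
      (by fun_prop) (fun p hp => ⟨hp.1, ⟨zero_le_one, le_rfl⟩⟩)
    exact this
  exact (continuousOn_const.sub h3).add h1

theorem epos_s (P : PreFlow a b) (β Z : ℝ) (i : Fin 3) {t σ : ℝ} (ht : t ∈ Ioo a b)
    (hσ : σ ∈ Icc (0:ℝ) 1) :
    HasDerivWithinAt (epos P β Z i t) (ecd P β i t σ) (Icc 0 1) σ :=
  (ep_prim_s (em_sec_s (ecd_cont P β i) ht) hσ).const_add _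

theorem epos_t (P : PreFlow a b) (β Z : ℝ) (i : Fin 3) {t σ : ℝ} (ht : t ∈ Ioo a b)
    (hσ : σ ∈ Icc (0:ℝ) 1) :
    HasDerivAt (fun τ => epos P β Z i τ σ) (eve P β i t σ) t := by
  have h1 := ep_param (ecd_cont P β i) (eve_cont P β i) (eds_cont P β i)
    (fun t ht σ hσ => ecd_t P β i ht hσ) (fun t ht σ hσ => eve_s P β i ht hσ) hσ ht
  have h2 := ep_param (ecd_cont P β 2) (eve_cont P β 2) (eds_cont P β 2)
    (fun t ht σ hσ => ecd_t P β 2 ht hσ) (fun t ht σ hσ => eve_s P β 2 ht hσ)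
    (y := 1) ⟨zero_le_one, le_rfl⟩ ht
  have h := (h2.const_sub Z).add h1
  refine h.congr_deriv ?_
  have e1 : eve P β 2 t 1 = 0 := by
    unfold eve
    rw [P.k_far t ht, P.mu_end 2 t ht]
    ring
  rw [e1, eve_J P β i ht]
  ring

theorem epos_J (P : PreFlow a b) (β Z : ℝ) (i : Fin 3) (t : ℝ) :
    epos P β Z i t 0 = epos P β Z 2 t 0 := by
  unfold epos
  simp

theorem epos_far (P : PreFlow a b) (β Z : ℝ) (t : ℝ) : epos P β Z 2 t 1 = Z := by
  unfold epos
  ring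

/-- the initial positions in integral form -/
theorem ep_init {Lx : ℝ} (I : Init Lx) (β : ℝ) {Z0 : Fin 3 → ℝ → ℝ}
    (hZ : ∀ i, ∀ σ ∈ Icc (0:ℝ) 1,
      HasDerivWithinAt (Z0 i) (I.ell i * Real.cos (I.th i σ + off i - β)) (Icc 0 1) σ)
    (hJ : ∀ i, Z0 i 0 = Z0 2 0) (i : Fin 3) {σ : ℝ} (hσ : σ ∈ Icc (0:ℝ) 1) :
    Z0 i σ = (Z0 2 1 - ∫ s in (0:ℝ)..1, I.ell 2 * Real.cos (I.th 2 s + off 2 - β))
      + ∫ s in (0:ℝ)..σ, I.ell i * Real.cos (I.th i s + off i - β) := by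
  have hc : ∀ i, ContinuousOn (fun s => I.ell i * Real.cos (I.th i s + off i - β)) (Icc 0 1) := by
    intro i
    have : ContinuousOn (I.th i) (Icc 0 1) := fun s hs => (I.th_s i s hs).continuousWithinAt
    fun_prop
  have h0 : (0:ℝ) ∈ Icc (0:ℝ) 1 := ⟨le_rfl, zero_le_one⟩
  have h1 : (1:ℝ) ∈ Icc (0:ℝ) 1 := ⟨zero_le_one, le_rfl⟩
  rw [em_ftc (fun s hs => hZ i s hs) (hc i) h0 hσ, em_ftc (fun s hs => hZ 2 s hs) (hc 2) h0 h1,
    hJ i]
  ring

/-- uniform convergence of the positions at the initial time -/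
theorem epos_start {τ Lx : ℝ} (P : PreFlow 0 τ) (I : Init Lx) (hP : PreStarts P I)
    (hτ : 0 < τ) (β : ℝ) {Z0 : Fin 3 → ℝ → ℝ}
    (hZ : ∀ i, ∀ σ ∈ Icc (0:ℝ) 1,
      HasDerivWithinAt (Z0 i) (I.ell i * Real.cos (I.th i σ + off i - β)) (Icc 0 1) σ)
    (hJ : ∀ i, Z0 i 0 = Z0 2 0) (i : Fin 3) (ε : ℝ) (hε : 0 < ε) :
    ∀ᶠ t in 𝓝[>] (0:ℝ), ∀ σ ∈ Icc (0:ℝ) 1, |epos P β (Z0 2 1) i t σ - Z0 i σ| < ε := by
  have hcI : ∀ i, ContinuousOn (fun s => I.ell i * Real.cos (I.th i s + off i - β))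
      (Icc 0 1) := by
    intro i
    have : ContinuousOn (I.th i) (Icc 0 1) := fun s hs => (I.th_s i s hs).continuousWithinAt
    fun_prop
  have key : ∀ i, ∀ᶠ t in 𝓝[>] (0:ℝ), ∀ σ ∈ Icc (0:ℝ) 1,
      |ecd P β i t σ - I.ell i * Real.cos (I.th i σ + off i - β)| ≤ ε / 3 := by
    intro i
    have hpos := I.ell_pos i
    have hδ : 0 < ε / (6 * (I.ell i + 1)) := by positivity
    have h1 := (Metric.tendsto_nhds.1 (hP.ell i)) (ε / 6) (by positivity)
    have h2 := hP.th i _ hδ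
    filter_upwards [h1, h2] with t h1 h2 σ hσ
    have h3 := h2 σ hσ
    rw [Real.dist_eq] at h1
    have hA := Real.abs_cos_sub_cos_le (P.th i t σ + off i - β) (I.th i σ + off i - β)
    have hA' : P.th i t σ + off i - β - (I.th i σ + off i - β) = P.th i t σ - I.th i σ := by ring
    rw [hA'] at hA
    have hB := Real.abs_cos_le_one (P.th i t σ + off i - β)
    unfold ecd
    have e : P.ell i t * Real.cos (P.th i t σ + off i - β)
        - I.ell i * Real.cos (I.th i σ + off i - β)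
        = (P.ell i t - I.ell i) * Real.cos (P.th i t σ + off i - β)
          + I.ell i * (Real.cos (P.th i t σ + off i - β) - Real.cos (I.th i σ + off i - β)) := by
      ring
    rw [e]
    have t1 : |(P.ell i t - I.ell i) * Real.cos (P.th i t σ + off i - β)| ≤ ε / 6 := by
      rw [abs_mul]
      calc |P.ell i t - I.ell i| * |Real.cos (P.th i t σ + off i - β)|
          ≤ (ε / 6) * 1 := mul_le_mul h1.le hB (abs_nonneg _) (by positivity)
        _ = ε / 6 := mul_one _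
    have t2 : |I.ell i * (Real.cos (P.th i t σ + off i - β)
        - Real.cos (I.th i σ + off i - β))| ≤ ε / 6 := by
      rw [abs_mul, abs_of_pos hpos]
      calc I.ell i * |Real.cos (P.th i t σ + off i - β) - Real.cos (I.th i σ + off i - β)|
          ≤ (I.ell i + 1) * (ε / (6 * (I.ell i + 1))) :=
            mul_le_mul (by linarith) (hA.trans h3.le) (abs_nonneg _) (by positivity)
        _ = ε / 6 := by field_simp
    calc _ ≤ _ := abs_add_le _ _
      _ ≤ ε / 6 + ε / 6 := add_le_add t1 t2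
      _ = ε / 3 := by ring
  have hmem : Ioo (0:ℝ) τ ∈ 𝓝[>] (0:ℝ) := Ioo_mem_nhdsGT hτ
  filter_upwards [key i, key 2, hmem] with t hi h2 ht σ hσ
  rw [ep_init I β hZ hJ i hσ]
  unfold epos
  have h0 : (0:ℝ) ∈ Icc (0:ℝ) 1 := ⟨le_rfl, zero_le_one⟩
  have h1 : (1:ℝ) ∈ Icc (0:ℝ) 1 := ⟨zero_le_one, le_rfl⟩
  have int1 : ∀ (i : Fin 3) (y : ℝ), y ∈ Icc (0:ℝ) 1 →
      IntervalIntegrable (ecd P β i t) volume 0 y := fun i y hy =>
    ((em_sec_s (ecd_cont P β i) ht).mono (uIcc_subset_Icc h0 hy)).intervalIntegrable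
  have int2 : ∀ (i : Fin 3) (y : ℝ), y ∈ Icc (0:ℝ) 1 →
      IntervalIntegrable (fun s => I.ell i * Real.cos (I.th i s + off i - β)) volume 0 y :=
    fun i y hy => ((hcI i).mono (uIcc_subset_Icc h0 hy)).intervalIntegrable
  have b1 : |∫ s in (0:ℝ)..σ, (ecd P β i t s - I.ell i * Real.cos (I.th i s + off i - β))|
      ≤ ε / 3 := by
    have := intervalIntegral.norm_integral_le_of_norm_le_const (a := 0) (b := σ) (C := ε / 3)
      (f := fun s => ecd P β i t s - I.ell i * Real.cos (I.th i s + off i - β))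
      (fun s hs => hi s (uIcc_subset_Icc h0 hσ (uIoc_subset_uIcc hs)))
    rw [Real.norm_eq_abs] at this
    refine this.trans ?_
    rw [sub_zero, abs_of_nonneg hσ.1]
    nlinarith [hσ.2]
  have b2 : |∫ s in (0:ℝ)..1, (ecd P β 2 t s - I.ell 2 * Real.cos (I.th 2 s + off 2 - β))|
      ≤ ε / 3 := by
    have := intervalIntegral.norm_integral_le_of_norm_le_const (a := 0) (b := 1) (C := ε / 3)
      (f := fun s => ecd P β 2 t s - I.ell 2 * Real.cos (I.th 2 s + off 2 - β))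
      (fun s hs => h2 s (uIcc_subset_Icc h0 h1 (uIoc_subset_uIcc hs)))
    rw [Real.norm_eq_abs] at this
    refine this.trans ?_
    rw [sub_zero, abs_one]
    linarith
  rw [intervalIntegral.integral_sub (int1 i σ hσ) (int2 i σ hσ)] at b1
  rw [intervalIntegral.integral_sub (int1 2 1 h1) (int2 2 1 h1)] at b2
  have c1 := abs_le.1 b1
  have c2 := abs_le.1 b2
  rw [abs_lt]
  constructor <;> linarith [c1.1, c1.2, c2.1, c2.2]

/-- a coordinate with vanishing velocity keeps its initial value -/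
theorem ep_const {τ : ℝ} {G : ℝ → ℝ} {z : ℝ} (hτ : 0 < τ)
    (hd : ∀ t ∈ Ioo 0 τ, HasDerivAt G 0 t)
    (hl : ∀ ε > 0, ∀ᶠ t in 𝓝[>] (0:ℝ), |G t - z| < ε) : ∀ t ∈ Ioo 0 τ, G t = z := by
  intro t ht
  by_contra hne
  have hpos : 0 < |G t - z| := abs_pos.2 (sub_ne_zero.2 hne)
  have hmem : Ioo (0:ℝ) τ ∈ 𝓝[>] (0:ℝ) := Ioo_mem_nhdsGT hτ
  obtain ⟨t', h1, h2⟩ := ((hl _ hpos).and hmem).exists
  have hK := ep_uIcc h2 ht
  have h3 := intervalIntegral.integral_eq_sub_of_hasDerivAt (f := G) (f' := fun _ => 0)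
    (a := t') (b := t) (fun x hx => hd x (hK hx)) (by simp)
  have h4 : G t = G t' := by
    have : (∫ _y in t'..t, (0:ℝ)) = 0 := by simp
    linarith
  rw [h4] at h1
  exact lt_irrefl _ h1

/-- EP1 : positions. A flow given by lengths and angles, starting from closed initial data, is the
flow of a half network. -/
theorem preflow_flow {τ Lx : ℝ} (hτ : 0 < τ) (P : PreFlow 0 τ) (I : Init Lx) (hP : PreStarts P I) :
    ∃ F : Flow 0 τ Lx, StartsAt F I ∧ (∀ i t, F.ell i t = P.ell i t) ∧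
      (∀ i t σ, F.th i t σ = P.th i t σ) := by
  have h1 : (1:ℝ) ∈ Icc (0:ℝ) 1 := ⟨zero_le_one, le_rfl⟩
  -- initial data
  have iX : ∀ i, ∀ σ ∈ Icc (0:ℝ) 1,
      HasDerivWithinAt (I.X i) (I.ell i * Real.cos (I.th i σ + off i - 0)) (Icc 0 1) σ := by
    intro i σ hσ
    rw [sub_zero]
    exact I.X_s i σ hσ
  have iY : ∀ i, ∀ σ ∈ Icc (0:ℝ) 1,
      HasDerivWithinAt (I.Y i) (I.ell i * Real.cos (I.th i σ + off i - Real.pi / 2))
        (Icc 0 1) σ := by
    intro i σ hσ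
    rw [Real.cos_sub_pi_div_two]
    exact I.Y_s i σ hσ
  have sX := epos_start P I hP hτ 0 iX I.X_J
  have sY := epos_start P I hP hτ (Real.pi / 2) iY I.Y_J
  rw [I.X_far] at sX
  -- curvature
  have hkt : ∀ i, ∀ t ∈ Ioo 0 τ, ∀ σ ∈ Icc (0:ℝ) 1,
      HasDerivAt (fun τ => P.k i τ σ) (P.kss i t σ + P.k i t σ ^ 3 + P.mu i t σ * P.ks i t σ) t := by
    intro i t ht σ hσ
    have c1 := ep_ell_cont P i
    have c2 := ep_dell_cont P i
    have c3 := P.k_cont i
    have c4 := P.ks_cont i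
    have c5 := P.kss_cont i
    have c6 := P.mu_cont i
    have hm := mixed_deriv (a := 0) (b := τ) (f := P.th i) (g := fun t σ => P.ell i t * P.k i t σ)
      (h := fun t σ => P.ks i t σ + P.mu i t σ * P.k i t σ)
      (hs := fun t σ => P.ell i t * P.kss i t σ
        + ((P.dell i t + P.ell i t * P.k i t σ ^ 2) * P.k i t σ
          + P.mu i t σ * (P.ell i t * P.ks i t σ)))
      (by fun_prop) (by fun_prop) (by fun_prop) (P.th_s i) (P.th_t i)
      (fun t ht σ hσ => (P.ks_s i t ht σ hσ).add ((P.mu_s i t ht σ hσ).mul (P.k_s i t ht σ hσ)))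
      t ht σ hσ
    have hpos := P.ell_pos i t ht
    have hq := hm.div (P.ell_t i t ht) hpos.ne'
    have hev : (fun τ => P.k i τ σ) =ᶠ[𝓝 t]
        ((fun τ => P.ell i τ * P.k i τ σ) / (P.ell i)) := by
      filter_upwards [Ioo_mem_nhds ht.1 ht.2] with x hx
      have := (P.ell_pos i x hx).ne'
      show P.k i x σ = (P.ell i x * P.k i x σ) / P.ell i x
      field_simp
    refine (hq.congr_of_eventuallyEq hev).congr_deriv ?_
    field_simp
    ring
  -- axis conditions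
  have pi1 : ∀ x : ℝ, x = Real.pi → Real.sin x = 0 := fun x hx => by rw [hx, Real.sin_pi]
  have ax0 : ∀ t ∈ Ioo 0 τ, epos P 0 Lx 0 t 1 = 0 := by
    refine ep_const hτ ?_ ?_
    · intro t ht
      refine (epos_t P 0 Lx 0 ht h1).congr_deriv ?_
      unfold eve
      have e : P.th 0 t 1 + off 0 - 0 = Real.pi := by
        rw [P.th_axis0 t ht]
        show Real.pi / 3 + 2 * Real.pi / 3 - 0 = Real.pi
        ring
      rw [e, Real.sin_pi, P.mu_end 0 t ht]
      ring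
    · intro ε hε
      filter_upwards [sX 0 ε hε] with t ht
      have := ht 1 h1
      rwa [I.X_axis0] at this
  have ax1 : ∀ t ∈ Ioo 0 τ, epos P 0 Lx 1 t 1 = 0 := by
    refine ep_const hτ ?_ ?_
    · intro t ht
      refine (epos_t P 0 Lx 1 ht h1).congr_deriv ?_
      unfold eve
      have e : P.th 1 t 1 + off 1 - 0 = -Real.pi := by
        rw [P.th_axis1 t ht]
        show -(Real.pi / 3) + -(2 * Real.pi / 3) - 0 = -Real.pi
        ring
      rw [e, Real.sin_neg, Real.sin_pi, P.mu_end 1 t ht]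
      ring
    · intro ε hε
      filter_upwards [sX 1 ε hε] with t ht
      have := ht 1 h1
      rwa [I.X_axis1] at this
  refine ⟨{ ell := P.ell, dell := P.dell, th := P.th, k := P.k, ks := P.ks, kss := P.kss,
            mu := P.mu, X := epos P 0 Lx, Y := epos P (Real.pi / 2) (I.Y 2 1), Ly := I.Y 2 1,
            ell_pos := P.ell_pos, ell_t := P.ell_t, dell_cont := P.dell_cont,
            th_cont := P.th_cont, k_cont := P.k_cont, ks_cont := P.ks_cont,
            kss_cont := P.kss_cont, mu_cont := P.mu_cont,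
            X_cont := epos_cont P 0 Lx, Y_cont := epos_cont P (Real.pi / 2) (I.Y 2 1),
            th_s := P.th_s, k_s := P.k_s, ks_s := P.ks_s,
            X_s := ?_, Y_s := ?_, mu_s := P.mu_s, th_t := P.th_t, k_t := hkt,
            X_t := ?_, Y_t := ?_, th_J := P.th_J,
            X_J := fun i t _ => epos_J P 0 Lx i t,
            Y_J := fun i t _ => epos_J P (Real.pi / 2) (I.Y 2 1) i t,
            th_axis0 := P.th_axis0, th_axis1 := P.th_axis1, X_axis0 := ax0, X_axis1 := ax1,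
            mu_end := P.mu_end, X_far := fun t _ => epos_far P 0 Lx t,
            Y_far := fun t _ => epos_far P (Real.pi / 2) (I.Y 2 1) t,
            k_far := P.k_far }, ?_, fun _ _ => rfl, fun _ _ _ => rfl⟩
  · intro i t ht σ hσ
    have := epos_s P 0 Lx i ht hσ
    unfold ecd at this
    rwa [sub_zero] at this
  · intro i t ht σ hσ
    have := epos_s P (Real.pi / 2) (I.Y 2 1) i ht hσ
    unfold ecd at this
    rwa [Real.cos_sub_pi_div_two] at this
  · intro i t ht σ hσ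
    have := epos_t P 0 Lx i ht hσ
    unfold eve at this
    rwa [sub_zero] at this
  · intro i t ht σ hσ
    have := epos_t P (Real.pi / 2) (I.Y 2 1) i ht hσ
    unfold eve at this
    rw [Real.cos_sub_pi_div_two, Real.sin_sub_pi_div_two] at this
    refine this.congr_deriv ?_
    ring
  · exact
      { ell := hP.ell
        th := hP.th
        X := sX
        Y := sY
        k := hP.k }

end Pool.Agent.Helper15.NF
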