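import Pool.Agent.Helper15.NF.EDefs

/-!
E-part: flows described by lengths and angles only, and the frozen gauge.
-/

open Set MeasureTheory intervalIntegral Filter Topology

namespace Pool.Agent.Helper15.NF

/-- a flow of half networks described by lengths and angles (no positions) -/
structure PreFlow (a b : ℝ) where
  ell : Fin 3 → ℝ → ℝ
  dell : Fin 3 → ℝ → ℝ
  th : Fin 3 → ℝ → ℝ → ℝ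
  k : Fin 3 → ℝ → ℝ → ℝ
  ks : Fin 3 → ℝ → ℝ → ℝ
  kss : Fin 3 → ℝ → ℝ → ℝ
  mu : Fin 3 → ℝ → ℝ → ℝ
  ell_pos : ∀ i, ∀ t ∈ Ioo a b, 0 < ell i t
  ell_t : ∀ i, ∀ t ∈ Ioo a b, HasDerivAt (ell i) (dell i t) t
  dell_cont : ∀ i, ContinuousOn (dell i) (Ioo a b)
  th_cont : ∀ i, ContinuousOn (fun p : ℝ × ℝ => th i p.1 p.2) (Ioo a b ×ˢ Icc 0 1)
  k_cont : ∀ i, ContinuousOn (fun p : ℝ × ℝ => k i p.1 p.2) (Ioo a b ×ˢ Icc 0 1)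
  ks_cont : ∀ i, ContinuousOn (fun p : ℝ × ℝ => ks i p.1 p.2) (Ioo a b ×ˢ Icc 0 1)
  kss_cont : ∀ i, ContinuousOn (fun p : ℝ × ℝ => kss i p.1 p.2) (Ioo a b ×ˢ Icc 0 1)
  mu_cont : ∀ i, ContinuousOn (fun p : ℝ × ℝ => mu i p.1 p.2) (Ioo a b ×ˢ Icc 0 1)
  th_s : ∀ i, ∀ t ∈ Ioo a b, ∀ σ ∈ Icc (0:ℝ) 1,
    HasDerivWithinAt (th i t) (ell i t * k i t σ) (Icc 0 1) σ
  k_s : ∀ i, ∀ t ∈ Ioo a b, ∀ σ ∈ Icc (0:ℝ) 1,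
    HasDerivWithinAt (k i t) (ell i t * ks i t σ) (Icc 0 1) σ
  ks_s : ∀ i, ∀ t ∈ Ioo a b, ∀ σ ∈ Icc (0:ℝ) 1,
    HasDerivWithinAt (ks i t) (ell i t * kss i t σ) (Icc 0 1) σ
  mu_s : ∀ i, ∀ t ∈ Ioo a b, ∀ σ ∈ Icc (0:ℝ) 1,
    HasDerivWithinAt (mu i t) (dell i t + ell i t * k i t σ ^ 2) (Icc 0 1) σ
  th_t : ∀ i, ∀ t ∈ Ioo a b, ∀ σ ∈ Icc (0:ℝ) 1,
    HasDerivAt (fun τ => th i τ σ) (ks i t σ + mu i t σ * k i t σ) t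
  th_J : ∀ i, ∀ t ∈ Ioo a b, th i t 0 = th 2 t 0
  k_J : ∀ t ∈ Ioo a b, ∑ i, k i t 0 = 0
  mu_J : ∀ i : Fin 3, ∀ t ∈ Ioo a b, mu i t 0 = -(k (i + 1) t 0 - k (i + 2) t 0) / Real.sqrt 3
  th_axis0 : ∀ t ∈ Ioo a b, th 0 t 1 = Real.pi / 3
  th_axis1 : ∀ t ∈ Ioo a b, th 1 t 1 = -(Real.pi / 3)
  mu_end : ∀ i, ∀ t ∈ Ioo a b, mu i t 1 = 0
  k_far : ∀ t ∈ Ioo a b, k 2 t 1 = 0

/-- starting condition for lengths and angles -/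
structure PreStarts {a b Lx : ℝ} (P : PreFlow a b) (I : Init Lx) : Prop where
  ell : ∀ i, Tendsto (P.ell i) (𝓝[>] a) (𝓝 (I.ell i))
  th : ∀ i, ∀ ε > 0, ∀ᶠ t in 𝓝[>] a, ∀ σ ∈ Icc (0:ℝ) 1, |P.th i t σ - I.th i σ| < ε
  k : ∀ i, Tendsto (fun t => ∫ σ in (0:ℝ)..1, (P.k i t σ - I.k i σ) ^ 2) (𝓝[>] a) (𝓝 0)

end Pool.Agent.Helper15.NF
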