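import Pool.Agent.Helper15.NF.Defs

open Set MeasureTheory intervalIntegral Filter Topology

namespace Pool.Agent.Helper15.NF

variable {a b Lx : ℝ}

namespace T1

theorem sqrt3_sq : Real.sqrt 3 * Real.sqrt 3 = 3 := Real.mul_self_sqrt (by norm_num)

theorem cos_two_thirds : Real.cos (2 * Real.pi / 3) = -(1 / 2) := by
  have h : 2 * Real.pi / 3 = Real.pi - Real.pi / 3 := by ring
  rw [h, Real.cos_pi_sub, Real.cos_pi_div_three]

theorem sin_two_thirds : Real.sin (2 * Real.pi / 3) = Real.sqrt 3 / 2 := by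
  have h : 2 * Real.pi / 3 = Real.pi - Real.pi / 3 := by ring
  rw [h, Real.sin_pi_sub, Real.sin_pi_div_three]

theorem cos_off0 (x : ℝ) : Real.cos (x + off 0) =
    -(1 / 2) * Real.cos x - Real.sqrt 3 / 2 * Real.sin x := by
  have h : off 0 = 2 * Real.pi / 3 := rfl
  rw [h, Real.cos_add, cos_two_thirds, sin_two_thirds]
  ring

theorem sin_off0 (x : ℝ) : Real.sin (x + off 0) =
    -(1 / 2) * Real.sin x + Real.sqrt 3 / 2 * Real.cos x := by
  have h : off 0 = 2 * Real.pi / 3 := rfl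
  rw [h, Real.sin_add, cos_two_thirds, sin_two_thirds]
  ring

theorem cos_off1 (x : ℝ) : Real.cos (x + off 1) =
    -(1 / 2) * Real.cos x + Real.sqrt 3 / 2 * Real.sin x := by
  have h : off 1 = -(2 * Real.pi / 3) := rfl
  rw [h, Real.cos_add, Real.cos_neg, Real.sin_neg, cos_two_thirds, sin_two_thirds]
  ring

theorem sin_off1 (x : ℝ) : Real.sin (x + off 1) =
    -(1 / 2) * Real.sin x - Real.sqrt 3 / 2 * Real.cos x := by
  have h : off 1 = -(2 * Real.pi / 3) := rfl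
  rw [h, Real.sin_add, Real.cos_neg, Real.sin_neg, cos_two_thirds, sin_two_thirds]
  ring

theorem cos_off2 (x : ℝ) : Real.cos (x + off 2) = Real.cos x := by
  have h : off 2 = 0 := rfl
  rw [h, add_zero]

theorem sin_off2 (x : ℝ) : Real.sin (x + off 2) = Real.sin x := by
  have h : off 2 = 0 := rfl
  rw [h, add_zero]

/-- the velocity of the junction -/
theorem vel (F : Flow a b Lx) {t : ℝ} (ht : t ∈ Ioo a b) (i : Fin 3) :
    (-(F.k i t 0 * Real.sin (F.th 2 t 0 + off i)) + F.mu i t 0 * Real.cos (F.th 2 t 0 + off i) =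
      -(F.k 2 t 0 * Real.sin (F.th 2 t 0)) + F.mu 2 t 0 * Real.cos (F.th 2 t 0)) ∧
    (F.k i t 0 * Real.cos (F.th 2 t 0 + off i) + F.mu i t 0 * Real.sin (F.th 2 t 0 + off i) =
      F.k 2 t 0 * Real.cos (F.th 2 t 0) + F.mu 2 t 0 * Real.sin (F.th 2 t 0)) := by
  have h0 : (0 : ℝ) ∈ Icc (0 : ℝ) 1 := ⟨le_rfl, zero_le_one⟩
  have hev : ∀ᶠ τ in 𝓝 t, τ ∈ Ioo a b := isOpen_Ioo.mem_nhds ht
  constructor
  · have h1 := F.X_t i t ht 0 h0
    have h2 := F.X_t 2 t ht 0 h0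
    have h3 : (fun τ => F.X i τ 0) =ᶠ[𝓝 t] fun τ => F.X 2 τ 0 := by
      filter_upwards [hev] with τ hτ
      exact F.X_J i τ hτ
    have h4 := (h2.congr_of_eventuallyEq h3).unique h1
    rw [F.th_J i t ht, cos_off2, sin_off2] at h4
    exact h4.symm
  · have h1 := F.Y_t i t ht 0 h0
    have h2 := F.Y_t 2 t ht 0 h0
    have h3 : (fun τ => F.Y i τ 0) =ᶠ[𝓝 t] fun τ => F.Y 2 τ 0 := by
      filter_upwards [hev] with τ hτ
      exact F.Y_J i τ hτ
    have h4 := (h2.congr_of_eventuallyEq h3).unique h1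
    rw [F.th_J i t ht, cos_off2, sin_off2] at h4
    exact h4.symm

theorem sc (x : ℝ) : Real.sin x * Real.sin x + Real.cos x * Real.cos x = 1 := by
  have := Real.sin_sq_add_cos_sq x
  nlinarith

theorem comp0 (F : Flow a b Lx) {t : ℝ} (ht : t ∈ Ioo a b) :
    F.k 0 t 0 = -(1 / 2) * F.k 2 t 0 - Real.sqrt 3 / 2 * F.mu 2 t 0 ∧
    F.mu 0 t 0 = -(1 / 2) * F.mu 2 t 0 + Real.sqrt 3 / 2 * F.k 2 t 0 := by
  obtain ⟨h1, h2⟩ := vel F ht 0
  rw [cos_off0, sin_off0] at h1 h2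
  have h3 := sc (F.th 2 t 0)
  have h4 := sqrt3_sq
  set s := Real.sin (F.th 2 t 0)
  set c := Real.cos (F.th 2 t 0)
  set w := Real.sqrt 3
  set k0 := F.k 0 t 0
  set m0 := F.mu 0 t 0
  set k2 := F.k 2 t 0
  set m2 := F.mu 2 t 0
  constructor
  · have e : k0 * ((s * s + c * c) * ((1 / 4) + w * w / 4)) =
        (-(1 / 2) * k2 - w / 2 * m2) * (s * s + c * c) := by
      linear_combination (-(-(1 / 2) * s + w / 2 * c)) * h1 + (-(1 / 2) * c - w / 2 * s) * h2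
    rw [h3, h4] at e
    linarith
  · have e : m0 * ((s * s + c * c) * ((1 / 4) + w * w / 4)) =
        (-(1 / 2) * m2 + w / 2 * k2) * (s * s + c * c) := by
      linear_combination (-(1 / 2) * c - w / 2 * s) * h1 + (-(1 / 2) * s + w / 2 * c) * h2
    rw [h3, h4] at e
    linarith

theorem comp1 (F : Flow a b Lx) {t : ℝ} (ht : t ∈ Ioo a b) :
    F.k 1 t 0 = -(1 / 2) * F.k 2 t 0 + Real.sqrt 3 / 2 * F.mu 2 t 0 ∧
    F.mu 1 t 0 = -(1 / 2) * F.mu 2 t 0 - Real.sqrt 3 / 2 * F.k 2 t 0 := by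
  obtain ⟨h1, h2⟩ := vel F ht 1
  rw [cos_off1, sin_off1] at h1 h2
  have h3 := sc (F.th 2 t 0)
  have h4 := sqrt3_sq
  set s := Real.sin (F.th 2 t 0)
  set c := Real.cos (F.th 2 t 0)
  set w := Real.sqrt 3
  set k0 := F.k 1 t 0
  set m0 := F.mu 1 t 0
  set k2 := F.k 2 t 0
  set m2 := F.mu 2 t 0
  constructor
  · have e : k0 * ((s * s + c * c) * ((1 / 4) + w * w / 4)) =
        (-(1 / 2) * k2 + w / 2 * m2) * (s * s + c * c) := by
      linear_combination (-(-(1 / 2) * s - w / 2 * c)) * h1 + (-(1 / 2) * c + w / 2 * s) * h2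
    rw [h3, h4] at e
    linarith
  · have e : m0 * ((s * s + c * c) * ((1 / 4) + w * w / 4)) =
        (-(1 / 2) * m2 - w / 2 * k2) * (s * s + c * c) := by
      linear_combination (-(1 / 2) * c + w / 2 * s) * h1 + (-(1 / 2) * s - w / 2 * c) * h2
    rw [h3, h4] at e
    linarith

end T1

open T1

/-- T1 : relations at the junction and on the axis -/
theorem junction_rel (F : Flow a b Lx) {t : ℝ} (ht : t ∈ Ioo a b) :
    (∑ i, F.k i t 0 = 0) ∧
    (∀ i : Fin 3, F.mu i t 0 = -(F.k (i + 1) t 0 - F.k (i + 2) t 0) / Real.sqrt 3) ∧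
    (∀ i : Fin 3, F.ks i t 0 + F.mu i t 0 * F.k i t 0 = F.ks 2 t 0 + F.mu 2 t 0 * F.k 2 t 0) ∧
    F.ks 0 t 1 = 0 ∧ F.ks 1 t 1 = 0 := by
  obtain ⟨a0, a1⟩ := comp0 F ht
  obtain ⟨b0, b1⟩ := comp1 F ht
  have h4 := sqrt3_sq
  have hw : Real.sqrt 3 ≠ 0 := by positivity
  have hev : ∀ᶠ τ in 𝓝 t, τ ∈ Ioo a b := isOpen_Ioo.mem_nhds ht
  have h0 : (0 : ℝ) ∈ Icc (0 : ℝ) 1 := ⟨le_rfl, zero_le_one⟩
  have h1 : (1 : ℝ) ∈ Icc (0 : ℝ) 1 := ⟨zero_le_one, le_rfl⟩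
  refine ⟨?_, ?_, ?_, ?_, ?_⟩
  · rw [Fin.sum_univ_three, a0, b0]
    ring
  · intro i
    rw [eq_div_iff hw]
    have e0 : (0 : Fin 3) + 1 = 1 := rfl
    have e1 : (0 : Fin 3) + 2 = 2 := rfl
    have e2 : (1 : Fin 3) + 1 = 2 := rfl
    have e3 : (1 : Fin 3) + 2 = 0 := rfl
    have e4 : (2 : Fin 3) + 1 = 0 := rfl
    have e5 : (2 : Fin 3) + 2 = 1 := rfl
    fin_cases i
    · change F.mu 0 t 0 * Real.sqrt 3 = -(F.k (0 + 1) t 0 - F.k (0 + 2) t 0)
      rw [e0, e1, a1, b0]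
      linear_combination (F.k 2 t 0 / 2) * h4
    · change F.mu 1 t 0 * Real.sqrt 3 = -(F.k (1 + 1) t 0 - F.k (1 + 2) t 0)
      rw [e2, e3, b1, a0]
      linear_combination (-(F.k 2 t 0 / 2)) * h4
    · change F.mu 2 t 0 * Real.sqrt 3 = -(F.k (2 + 1) t 0 - F.k (2 + 2) t 0)
      rw [e4, e5, a0, b0]
      ring
  · intro i
    have h2 := F.th_t i t ht 0 h0
    have h3 := F.th_t 2 t ht 0 h0
    have h5 : (fun τ => F.th i τ 0) =ᶠ[𝓝 t] fun τ => F.th 2 τ 0 := by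
      filter_upwards [hev] with τ hτ
      exact F.th_J i τ hτ
    exact ((h3.congr_of_eventuallyEq h5).unique h2).symm
  · have h2 := F.th_t 0 t ht 1 h1
    have h3 : (fun τ => F.th 0 τ 1) =ᶠ[𝓝 t] fun _ => Real.pi / 3 := by
      filter_upwards [hev] with τ hτ
      exact F.th_axis0 τ hτ
    have h5 := ((hasDerivAt_const t (Real.pi / 3)).congr_of_eventuallyEq h3).unique h2
    rw [F.mu_end 0 t ht, zero_mul, add_zero] at h5
    exact h5.symm
  · have h2 := F.th_t 1 t ht 1 h1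
    have h3 : (fun τ => F.th 1 τ 1) =ᶠ[𝓝 t] fun _ => -(Real.pi / 3) := by
      filter_upwards [hev] with τ hτ
      exact F.th_axis1 τ hτ
    have h5 := ((hasDerivAt_const t (-(Real.pi / 3))).congr_of_eventuallyEq h3).unique h2
    rw [F.mu_end 1 t ht, zero_mul, add_zero] at h5
    exact h5.symm

end Pool.Agent.Helper15.NF
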