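import Pool.Agent.Helper15.NF.FDefs
import Pool.Agent.Helper15.NF.T1
import Pool.Agent.Helper15.NF.DDefs

open Set MeasureTheory intervalIntegral Filter Topology

namespace Pool.Agent.Helper15.NF

variable {a b Lx : ℝ}

/-- position on edge `i` of the half network as a complex number -/
noncomputable def Flow.pos (F : Flow a b Lx) (i : Fin 3) (t σ : ℝ) : ℂ := ⟨F.X i t σ, F.Y i t σ⟩

/-- the arcs do not touch except at the junction -/
def Flow.Sep (F : Flow a b Lx) (t : ℝ) : Prop :=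
  ∀ σ ∈ Icc (0:ℝ) 1, ∀ σ' ∈ Icc (0:ℝ) 1, F.X 0 t σ = F.X 1 t σ' →
    F.Y 1 t σ' < F.Y 0 t σ ∨ (σ = 0 ∧ σ' = 0)

/-- the vertex table: curves 0 (top), 1 (bottom), 2 (right ray), 3 (left ray);
junction 0 on the right, junction 1 on the left -/
def vtab : Fin 4 → Bool → Option (Fin 2)
  | 0, false => some 0
  | 0, true => some 1
  | 1, false => some 0
  | 1, true => some 1
  | 2, false => some 0
  | 2, true => none
  | 3, false => some 1
  | 3, true => none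

/-! ### gluing -/

private theorem FA_glue_deriv {f : ℝ → ℂ} {D : ℝ → ℂ}
    (h1 : ∀ x ∈ Icc (0:ℝ) (1 / 2), HasDerivWithinAt f (D x) (Icc 0 (1 / 2)) x)
    (h2 : ∀ x ∈ Icc (1 / 2 : ℝ) 1, HasDerivWithinAt f (D x) (Icc (1 / 2) 1) x) :
    ∀ x ∈ Icc (0:ℝ) 1, HasDerivWithinAt f (D x) (Icc 0 1) x := by
  intro x hx
  rcases lt_trichotomy x (1 / 2) with h | h | h
  · refine (h1 x ⟨hx.1, h.le⟩).mono_of_mem_nhdsWithin ?_
    refine mem_nhdsWithin.2 ⟨Iio (1 / 2), isOpen_Iio, h, ?_⟩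
    rintro y ⟨hy1, hy2⟩
    exact ⟨hy2.1, (mem_Iio.1 hy1).le⟩
  · have e : Icc (0:ℝ) 1 = Icc 0 (1 / 2) ∪ Icc (1 / 2) 1 :=
      (Icc_union_Icc_eq_Icc (by norm_num) (by norm_num)).symm
    rw [e]
    subst h
    exact (h1 _ ⟨by norm_num, le_rfl⟩).union (h2 _ ⟨le_rfl, by norm_num⟩)
  · refine (h2 x ⟨h.le, hx.2⟩).mono_of_mem_nhdsWithin ?_
    refine mem_nhdsWithin.2 ⟨Ioi (1 / 2), isOpen_Ioi, h, ?_⟩
    rintro y ⟨hy1, hy2⟩
    exact ⟨(mem_Ioi.1 hy1).le, hy2.2⟩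

private theorem FA_glue_cont {S : Set ℝ} {f : ℝ × ℝ → ℂ}
    (h1 : ContinuousOn f (S ×ˢ Icc (0:ℝ) (1 / 2)))
    (h2 : ContinuousOn f (S ×ˢ Icc (1 / 2 : ℝ) 1)) : ContinuousOn f (S ×ˢ Icc (0:ℝ) 1) := by
  rintro ⟨s, x⟩ ⟨hs, hx⟩
  simp only at hs hx
  rcases lt_trichotomy x (1 / 2) with h | h | h
  · refine (h1 (s, x) ⟨hs, hx.1, h.le⟩).mono_of_mem_nhdsWithin ?_
    refine mem_nhdsWithin.2 ⟨univ ×ˢ Iio (1 / 2), isOpen_univ.prod isOpen_Iio, ⟨trivial, h⟩, ?_⟩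
    rintro ⟨s', y⟩ ⟨⟨_, hy1⟩, hs', hy2⟩
    exact ⟨hs', hy2.1, (mem_Iio.1 hy1).le⟩
  · have e : S ×ˢ Icc (0:ℝ) 1 = S ×ˢ Icc (0:ℝ) (1 / 2) ∪ S ×ˢ Icc (1 / 2 : ℝ) 1 := by
      rw [← prod_union, Icc_union_Icc_eq_Icc (by norm_num) (by norm_num)]
    rw [e]
    subst h
    exact (h1 (s, 1 / 2) ⟨hs, by norm_num, le_rfl⟩).union (h2 (s, 1 / 2) ⟨hs, le_rfl, by norm_num⟩)
  · refine (h2 (s, x) ⟨hs, h.le, hx.2⟩).mono_of_mem_nhdsWithin ?_
    refine mem_nhdsWithin.2 ⟨univ ×ˢ Ioi (1 / 2), isOpen_univ.prod isOpen_Ioi, ⟨trivial, h⟩, ?_⟩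
    rintro ⟨s', y⟩ ⟨⟨_, hy1⟩, hs', hy2⟩
    exact ⟨hs', (mem_Ioi.1 hy1).le, hy2.2⟩

/-! ### doubling of a function on an edge -/

/-- doubling, `κ = ±1` -/
private noncomputable def dd (t0 c κ : ℝ) (G : ℝ → ℝ → ℂ) (t x : ℝ) : ℂ :=
  if x ≤ 1 / 2 then (c : ℂ) * G (t0 + t) (2 * x)
  else (κ : ℂ) * ((c : ℂ) * (starRingEnd ℂ) (G (t0 + t) (2 - 2 * x)))

private theorem dd_left {t0 c κ : ℝ} {G : ℝ → ℝ → ℂ} {t x : ℝ} (hx : x ≤ 1 / 2) :
    dd t0 c κ G t x = (c : ℂ) * G (t0 + t) (2 * x) := if_pos hx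

private theorem dd_right {t0 c κ : ℝ} {G : ℝ → ℝ → ℂ} {t x : ℝ} (hx : 1 / 2 ≤ x)
    (h1 : G (t0 + t) 1 = (κ : ℂ) * (starRingEnd ℂ) (G (t0 + t) 1)) :
    dd t0 c κ G t x = (κ : ℂ) * ((c : ℂ) * (starRingEnd ℂ) (G (t0 + t) (2 - 2 * x))) := by
  rcases hx.lt_or_eq with h | h
  · exact if_neg (not_le.2 h)
  · subst h
    have e1 : (2:ℝ) * (1 / 2) = 1 := by norm_num
    have e2 : (2:ℝ) - 1 = 1 := by norm_num
    rw [dd_left le_rfl, e1, e2]
    conv_lhs => rw [h1]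
    ring

private theorem dd_deriv {t0 c c' κ κ' : ℝ} {G G' : ℝ → ℝ → ℂ} {t : ℝ} (hc : c' = 2 * c)
    (hκ : κ' = -κ)
    (hG : ∀ σ ∈ Icc (0:ℝ) 1, HasDerivWithinAt (G (t0 + t)) (G' (t0 + t) σ) (Icc 0 1) σ)
    (h1 : G (t0 + t) 1 = (κ : ℂ) * (starRingEnd ℂ) (G (t0 + t) 1))
    (h1' : G' (t0 + t) 1 = (κ' : ℂ) * (starRingEnd ℂ) (G' (t0 + t) 1)) :
    ∀ x ∈ Icc (0:ℝ) 1, HasDerivWithinAt (dd t0 c κ G t) (dd t0 c' κ' G' t x) (Icc 0 1) x := by
  subst hc; subst hκ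
  refine FA_glue_deriv ?_ ?_
  · intro x hx
    have hx2 : 2 * x ∈ Icc (0:ℝ) 1 := ⟨by linarith [hx.1], by linarith [hx.2]⟩
    have hm : MapsTo (fun y : ℝ => 2 * y) (Icc 0 (1 / 2)) (Icc (0:ℝ) 1) := fun y hy =>
      ⟨by have := hy.1; simp only; linarith, by have := hy.2; simp only; linarith⟩
    have hin : HasDerivWithinAt (fun y : ℝ => 2 * y) 2 (Icc 0 (1 / 2)) x := by
      simpa using (hasDerivWithinAt_id x (Icc (0:ℝ) (1 / 2))).const_mul (2:ℝ)
    have h := ((hG _ hx2).scomp x hin hm).const_mul (c : ℂ)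
    rw [dd_left hx.2]
    refine (h.congr_deriv ?_).congr (fun y hy => ?_) ?_
    · rw [Complex.real_smul]; push_cast; ring
    · rw [dd_left hy.2]; rfl
    · rw [dd_left hx.2]; rfl
  · intro x hx
    have hx2 : 2 - 2 * x ∈ Icc (0:ℝ) 1 := ⟨by linarith [hx.2], by linarith [hx.1]⟩
    have hm : MapsTo (fun y : ℝ => 2 - 2 * y) (Icc (1 / 2) 1) (Icc (0:ℝ) 1) := fun y hy =>
      ⟨by have := hy.2; simp only; linarith, by have := hy.1; simp only; linarith⟩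
    have hin : HasDerivWithinAt (fun y : ℝ => 2 - 2 * y) (-2) (Icc (1 / 2) 1) x := by
      have := ((hasDerivWithinAt_id x (Icc (1 / 2 : ℝ) 1)).const_mul (2:ℝ)).const_sub (2:ℝ)
      simpa using this
    have h0 := (hG _ hx2).scomp x hin hm
    have h := ((h0.star).const_mul (c : ℂ)).const_mul (κ : ℂ)
    rw [dd_right hx.1 h1']
    refine (h.congr_deriv ?_).congr (fun y hy => ?_) ?_
    · simp only [Complex.real_smul, Complex.star_def, map_mul, Complex.conj_ofReal]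
      push_cast; ring
    · rw [dd_right hy.1 h1]; rfl
    · rw [dd_right hx.1 h1]; rfl

private theorem dd_cont {t0 c κ T : ℝ} {G : ℝ → ℝ → ℂ} (hT : T = b - t0) (ht0 : a < t0)
    (hG : ContinuousOn (fun p : ℝ × ℝ => G p.1 p.2) (Ioo a b ×ˢ Icc 0 1))
    (h1 : ∀ t ∈ Ioo a b, G t 1 = (κ : ℂ) * (starRingEnd ℂ) (G t 1)) :
    ContinuousOn (fun p : ℝ × ℝ => dd t0 c κ G p.1 p.2) (Ico 0 T ×ˢ Icc 0 1) := by
  subst hT
  have hs : ∀ t ∈ Ico 0 (b - t0), t0 + t ∈ Ioo a b := fun t ht =>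
    ⟨by linarith [ht.1], by linarith [ht.2]⟩
  refine FA_glue_cont ?_ ?_
  · have h := hG.comp (f := fun p : ℝ × ℝ => ((t0 + p.1, 2 * p.2) : ℝ × ℝ))
      (s := Ico 0 (b - t0) ×ˢ Icc (0:ℝ) (1 / 2)) (by fun_prop)
      (fun p hp => ⟨hs _ hp.1, by have := hp.2.1; simp only; linarith,
        by have := hp.2.2; simp only; linarith⟩)
    refine (h.const_smul (c : ℂ)).congr (fun p hp => ?_)
    rw [dd_left hp.2.2]; rfl
  · have h := hG.comp (f := fun p : ℝ × ℝ => ((t0 + p.1, 2 - 2 * p.2) : ℝ × ℝ))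
      (s := Ico 0 (b - t0) ×ˢ Icc (1 / 2 : ℝ) 1) (by fun_prop)
      (fun p hp => ⟨hs _ hp.1, by have := hp.2.2; simp only; linarith,
        by have := hp.2.1; simp only; linarith⟩)
    have h' := (Complex.continuous_conj.comp_continuousOn h)
    refine ((h'.const_smul (c : ℂ)).const_smul (κ : ℂ)).congr (fun p hp => ?_)
    rw [dd_right hp.2.1 (h1 _ (hs _ hp.1))]; rfl

private theorem dd_time {t0 c κ T : ℝ} {G G' : ℝ → ℝ → ℂ} (hT : T = b - t0) (ht0 : a < t0)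
    (hG : ∀ t ∈ Ioo a b, ∀ σ ∈ Icc (0:ℝ) 1, HasDerivAt (fun s => G s σ) (G' t σ) t) :
    ∀ t ∈ Ico 0 T, ∀ x ∈ Icc (0:ℝ) 1,
      HasDerivWithinAt (fun s => dd t0 c κ G s x) (dd t0 c κ G' t x) (Ico 0 T) t := by
  subst hT
  intro t ht x hx
  have hs : t0 + t ∈ Ioo a b := ⟨by linarith [ht.1], by linarith [ht.2]⟩
  refine HasDerivAt.hasDerivWithinAt ?_
  unfold dd
  split_ifs with h
  · have h2 := hG _ hs (2 * x) ⟨by linarith [hx.1], by linarith⟩
    have h3 := h2.scomp t ((hasDerivAt_id t).const_add t0)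
    simpa using h3.const_mul (c : ℂ)
  · have h2 := hG _ hs (2 - 2 * x) ⟨by linarith [hx.2], by linarith⟩
    have h3 := h2.scomp t ((hasDerivAt_id t).const_add t0)
    have h4 := ((h3.star).const_mul (c : ℂ)).const_mul (κ : ℂ)
    simpa using h4

/-! ### the functions on the edges -/

private theorem mk_deriv {f g : ℝ → ℝ} {f' g' x : ℝ} {s : Set ℝ} (hf : HasDerivWithinAt f f' s x)
    (hg : HasDerivWithinAt g g' s x) :
    HasDerivWithinAt (fun y => (⟨f y, g y⟩ : ℂ)) ⟨f', g'⟩ s x := by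
  have h := (Complex.equivRealProdCLM.symm : ℝ × ℝ →L[ℝ] ℂ).hasFDerivAt.comp_hasDerivWithinAt x
    (hf.prodMk hg)
  refine (h.congr_deriv ?_).congr (fun y _ => ?_) ?_ <;>
  · apply Complex.ext <;> simp

private theorem mk_deriv' {f g : ℝ → ℝ} {f' g' x : ℝ} (hf : HasDerivAt f f' x)
    (hg : HasDerivAt g g' x) :
    HasDerivAt (fun y => (⟨f y, g y⟩ : ℂ)) ⟨f', g'⟩ x := by
  rw [← hasDerivWithinAt_univ] at *
  exact mk_deriv hf hg

private theorem mk_cont {S : Set (ℝ × ℝ)} {f g : ℝ × ℝ → ℝ} (hf : ContinuousOn f S)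
    (hg : ContinuousOn g S) : ContinuousOn (fun p => (⟨f p, g p⟩ : ℂ)) S := by
  have h := Complex.equivRealProdCLM.symm.continuous.comp_continuousOn (hf.prodMk hg)
  refine h.congr (fun p _ => ?_)
  apply Complex.ext <;> simp

private noncomputable def eU (F : Flow a b Lx) (i : Fin 3) (t σ : ℝ) : ℂ :=
  ⟨F.ell i t * Real.cos (F.th i t σ + off i), F.ell i t * Real.sin (F.th i t σ + off i)⟩

private noncomputable def eV (F : Flow a b Lx) (i : Fin 3) (t σ : ℝ) : ℂ :=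
  ⟨F.ell i t * (-Real.sin (F.th i t σ + off i) * (F.ell i t * F.k i t σ)),
    F.ell i t * (Real.cos (F.th i t σ + off i) * (F.ell i t * F.k i t σ))⟩

private noncomputable def eW (F : Flow a b Lx) (i : Fin 3) (t σ : ℝ) : ℂ :=
  ⟨-(F.k i t σ * Real.sin (F.th i t σ + off i)) + F.mu i t σ * Real.cos (F.th i t σ + off i),
    F.k i t σ * Real.cos (F.th i t σ + off i) + F.mu i t σ * Real.sin (F.th i t σ + off i)⟩

private theorem pos_deriv (F : Flow a b Lx) (i : Fin 3) {t : ℝ} (ht : t ∈ Ioo a b) :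
    ∀ σ ∈ Icc (0:ℝ) 1, HasDerivWithinAt (F.pos i t) (eU F i t σ) (Icc 0 1) σ :=
  fun σ hσ => mk_deriv (F.X_s i t ht σ hσ) (F.Y_s i t ht σ hσ)

private theorem eU_deriv (F : Flow a b Lx) (i : Fin 3) {t : ℝ} (ht : t ∈ Ioo a b) :
    ∀ σ ∈ Icc (0:ℝ) 1, HasDerivWithinAt (eU F i t) (eV F i t σ) (Icc 0 1) σ :=
  fun σ hσ => mk_deriv
    (((F.th_s i t ht σ hσ).add_const (off i)).cos.const_mul _)
    (((F.th_s i t ht σ hσ).add_const (off i)).sin.const_mul _)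

private theorem pos_time (F : Flow a b Lx) (i : Fin 3) :
    ∀ t ∈ Ioo a b, ∀ σ ∈ Icc (0:ℝ) 1, HasDerivAt (fun s => F.pos i s σ) (eW F i t σ) t :=
  fun t ht σ hσ => mk_deriv' (F.X_t i t ht σ hσ) (F.Y_t i t ht σ hσ)

private theorem ell_cont' (F : Flow a b Lx) (i : Fin 3) :
    ContinuousOn (fun p : ℝ × ℝ => F.ell i p.1) (Ioo a b ×ˢ Icc (0:ℝ) 1) := by
  have h : ContinuousOn (F.ell i) (Ioo a b) := fun t ht =>
    (F.ell_t i t ht).continuousAt.continuousWithinAt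
  exact h.comp continuousOn_fst (fun p hp => hp.1)

private theorem pos_cont (F : Flow a b Lx) (i : Fin 3) :
    ContinuousOn (fun p : ℝ × ℝ => F.pos i p.1 p.2) (Ioo a b ×ˢ Icc 0 1) :=
  mk_cont (F.X_cont i) (F.Y_cont i)

private theorem eU_cont (F : Flow a b Lx) (i : Fin 3) :
    ContinuousOn (fun p : ℝ × ℝ => eU F i p.1 p.2) (Ioo a b ×ˢ Icc 0 1) := by
  have h1 := ell_cont' F i
  have h2 := F.th_cont i
  exact mk_cont (h1.mul (Real.continuous_cos.comp_continuousOn (h2.add continuousOn_const)))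
    (h1.mul (Real.continuous_sin.comp_continuousOn (h2.add continuousOn_const)))

private theorem eV_cont (F : Flow a b Lx) (i : Fin 3) :
    ContinuousOn (fun p : ℝ × ℝ => eV F i p.1 p.2) (Ioo a b ×ˢ Icc 0 1) := by
  have h1 := ell_cont' F i
  have h2 := F.th_cont i
  have h3 := F.k_cont i
  exact mk_cont
    (h1.mul ((Real.continuous_sin.comp_continuousOn (h2.add continuousOn_const)).neg.mul (h1.mul h3)))
    (h1.mul ((Real.continuous_cos.comp_continuousOn (h2.add continuousOn_const)).mul (h1.mul h3)))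

private theorem eW_cont (F : Flow a b Lx) (i : Fin 3) :
    ContinuousOn (fun p : ℝ × ℝ => eW F i p.1 p.2) (Ioo a b ×ˢ Icc 0 1) := by
  have h2 := F.th_cont i
  have h3 := F.k_cont i
  have h4 := F.mu_cont i
  have hs := Real.continuous_sin.comp_continuousOn (h2.add (continuousOn_const (c := off i)))
  have hc := Real.continuous_cos.comp_continuousOn (h2.add (continuousOn_const (c := off i)))
  exact mk_cont ((h3.mul hs).neg.add (h4.mul hc)) ((h3.mul hc).add (h4.mul hs))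

/-! values on the axis -/

private theorem axis_ang (F : Flow a b Lx) {i : Fin 3} (hi : i ≠ 2) {t : ℝ} (ht : t ∈ Ioo a b) :
    F.X i t 1 = 0 ∧ Real.sin (F.th i t 1 + off i) = 0 ∧ Real.cos (F.th i t 1 + off i) = -1 := by
  fin_cases i
  · refine ⟨F.X_axis0 t ht, ?_, ?_⟩
    · show Real.sin (F.th 0 t 1 + off 0) = 0
      rw [F.th_axis0 t ht]
      have : Real.pi / 3 + off 0 = Real.pi := by
        show Real.pi / 3 + 2 * Real.pi / 3 = Real.pi
        ring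
      rw [this, Real.sin_pi]
    · show Real.cos (F.th 0 t 1 + off 0) = -1
      rw [F.th_axis0 t ht]
      have : Real.pi / 3 + off 0 = Real.pi := by
        show Real.pi / 3 + 2 * Real.pi / 3 = Real.pi
        ring
      rw [this, Real.cos_pi]
  · refine ⟨F.X_axis1 t ht, ?_, ?_⟩
    · show Real.sin (F.th 1 t 1 + off 1) = 0
      rw [F.th_axis1 t ht]
      have : -(Real.pi / 3) + off 1 = -Real.pi := by
        show -(Real.pi / 3) + -(2 * Real.pi / 3) = -Real.pi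
        ring
      rw [this, Real.sin_neg, Real.sin_pi, neg_zero]
    · show Real.cos (F.th 1 t 1 + off 1) = -1
      rw [F.th_axis1 t ht]
      have : -(Real.pi / 3) + off 1 = -Real.pi := by
        show -(Real.pi / 3) + -(2 * Real.pi / 3) = -Real.pi
        ring
      rw [this, Real.cos_neg, Real.cos_pi]
  · exact absurd rfl hi

private theorem pos_ax (F : Flow a b Lx) {i : Fin 3} (hi : i ≠ 2) {t : ℝ} (ht : t ∈ Ioo a b) :
    F.pos i t 1 = ((-1 : ℝ) : ℂ) * (starRingEnd ℂ) (F.pos i t 1) := by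
  obtain ⟨h1, h2, h3⟩ := axis_ang F hi ht
  apply Complex.ext <;> simp [Flow.pos, h1]

private theorem eU_ax (F : Flow a b Lx) {i : Fin 3} (hi : i ≠ 2) {t : ℝ} (ht : t ∈ Ioo a b) :
    eU F i t 1 = ((1 : ℝ) : ℂ) * (starRingEnd ℂ) (eU F i t 1) := by
  obtain ⟨h1, h2, h3⟩ := axis_ang F hi ht
  apply Complex.ext <;> simp [eU, h2]

private theorem eV_ax (F : Flow a b Lx) {i : Fin 3} (hi : i ≠ 2) {t : ℝ} (ht : t ∈ Ioo a b) :
    eV F i t 1 = ((-1 : ℝ) : ℂ) * (starRingEnd ℂ) (eV F i t 1) := by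
  obtain ⟨h1, h2, h3⟩ := axis_ang F hi ht
  apply Complex.ext <;> simp [eV, h2]

private theorem eW_ax (F : Flow a b Lx) {i : Fin 3} (hi : i ≠ 2) {t : ℝ} (ht : t ∈ Ioo a b) :
    eW F i t 1 = ((-1 : ℝ) : ℂ) * (starRingEnd ℂ) (eW F i t 1) := by
  obtain ⟨h1, h2, h3⟩ := axis_ang F hi ht
  have h4 := F.mu_end i t ht
  apply Complex.ext <;> simp [eW, h2, h4]

/-! ### motion -/

private def Mot (k : ℝ) (w u v : ℂ) : Prop :=
  u ≠ 0 ∧ (w * (starRingEnd ℂ) u).im / ‖u‖ = k ∧ (v * (starRingEnd ℂ) u).im / ‖u‖ ^ 3 = k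

private theorem Mot.scale {k : ℝ} {w u v : ℂ} (h : Mot k w u v) {c : ℝ} (hc : 0 < c) :
    Mot k w ((c : ℂ) * u) (((c ^ 2 : ℝ) : ℂ) * v) := by
  obtain ⟨h0, h1, h2⟩ := h
  have hu : 0 < ‖u‖ := norm_pos_iff.2 h0
  have hn : ‖(c : ℂ) * u‖ = c * ‖u‖ := by rw [norm_mul, Complex.norm_real, Real.norm_of_nonneg hc.le]
  refine ⟨mul_ne_zero (by exact_mod_cast hc.ne') h0, ?_, ?_⟩
  · rw [hn, ← h1]
    have : (w * (starRingEnd ℂ) ((c : ℂ) * u)).im = c * (w * (starRingEnd ℂ) u).im := by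
      simp only [map_mul, Complex.conj_ofReal, Complex.mul_im, Complex.mul_re, Complex.ofReal_re,
        Complex.ofReal_im, Complex.conj_re, Complex.conj_im]
      ring
    rw [this]
    field_simp
  · rw [hn, ← h2]
    have : ((((c ^ 2 : ℝ) : ℂ) * v) * (starRingEnd ℂ) ((c : ℂ) * u)).im
        = c ^ 3 * (v * (starRingEnd ℂ) u).im := by
      simp only [map_mul, Complex.conj_ofReal, Complex.mul_im, Complex.mul_re, Complex.ofReal_re,
        Complex.ofReal_im, Complex.conj_re, Complex.conj_im]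
      ring
    rw [this]
    field_simp

private theorem Mot.refl {k : ℝ} {w u v : ℂ} (h : Mot k w u v) :
    Mot (-k) (-(starRingEnd ℂ) w) (-(starRingEnd ℂ) u) (-(starRingEnd ℂ) v) := by
  obtain ⟨h0, h1, h2⟩ := h
  have hn : ‖-(starRingEnd ℂ) u‖ = ‖u‖ := by rw [norm_neg, Complex.norm_conj]
  refine ⟨?_, ?_, ?_⟩
  · rw [Ne, neg_eq_zero, map_eq_zero]; exact h0
  · rw [hn, ← h1, ← neg_div]
    congr 1
    simp only [map_neg, Complex.conj_conj, Complex.mul_im, Complex.neg_re, Complex.neg_im,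
      Complex.conj_re, Complex.conj_im]
    ring
  · rw [hn, ← h2, ← neg_div]
    congr 1
    simp only [map_neg, Complex.conj_conj, Complex.mul_im, Complex.neg_re, Complex.neg_im,
      Complex.conj_re, Complex.conj_im]
    ring

private theorem Mot.rev {k : ℝ} {w u v : ℂ} (h : Mot k w u v) : Mot (-k) w (-u) v := by
  obtain ⟨h0, h1, h2⟩ := h
  refine ⟨neg_ne_zero.2 h0, ?_, ?_⟩
  · rw [norm_neg, ← h1, ← neg_div, map_neg, mul_neg, Complex.neg_im]
  · rw [norm_neg, ← h2, ← neg_div, map_neg, mul_neg, Complex.neg_im]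

private theorem eU_norm (F : Flow a b Lx) (i : Fin 3) {t : ℝ} (ht : t ∈ Ioo a b) (σ : ℝ) :
    ‖eU F i t σ‖ = F.ell i t := by
  have hl := F.ell_pos i t ht
  have h : ‖eU F i t σ‖ ^ 2 = F.ell i t ^ 2 := by
    rw [← Complex.normSq_eq_norm_sq, Complex.normSq_apply]
    simp only [eU]
    have := Real.sin_sq_add_cos_sq (F.th i t σ + off i)
    linear_combination (F.ell i t ^ 2) * this
  exact (pow_left_inj₀ (norm_nonneg _) hl.le two_ne_zero).1 h

private theorem mot_base (F : Flow a b Lx) (i : Fin 3) {t : ℝ} (ht : t ∈ Ioo a b) (σ : ℝ) :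
    Mot (F.k i t σ) (eW F i t σ) (eU F i t σ) (eV F i t σ) := by
  have hl := F.ell_pos i t ht
  have hn := eU_norm F i ht σ
  have hsc := Real.sin_sq_add_cos_sq (F.th i t σ + off i)
  refine ⟨?_, ?_, ?_⟩
  · intro h
    rw [h, norm_zero] at hn
    exact hl.ne hn
  · rw [hn, div_eq_iff hl.ne']
    simp only [eW, eU, Complex.mul_im, Complex.conj_re, Complex.conj_im]
    linear_combination (F.k i t σ * F.ell i t) * hsc
  · rw [hn, div_eq_iff (pow_ne_zero 3 hl.ne')]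
    simp only [eV, eU, Complex.mul_im, Complex.conj_re, Complex.conj_im]
    linear_combination (F.k i t σ * F.ell i t ^ 3) * hsc

private theorem mot_arc (F : Flow a b Lx) (i : Fin 3) {t0 t x : ℝ} (ht : t0 + t ∈ Ioo a b) :
    ∃ σ, Mot (F.k i (t0 + t) σ) (dd t0 1 (-1) (eW F i) t x) (dd t0 2 1 (eU F i) t x)
      (dd t0 4 (-1) (eV F i) t x) := by
  unfold dd
  split_ifs with h
  · refine ⟨2 * x, ?_⟩
    have := (mot_base F i ht (2 * x)).scale (c := 2) (by norm_num)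
    convert this using 1
    · push_cast; ring
    · push_cast; ring
  · refine ⟨2 - 2 * x, ?_⟩
    have := ((mot_base F i ht (2 - 2 * x)).refl.rev).scale (c := 2) (by norm_num)
    rw [neg_neg] at this
    convert this using 1 <;> (push_cast; ring)

/-! ### embeddedness -/

/-- first coordinate of a doubled arc -/
private noncomputable def aX (X : ℝ → ℝ) (x : ℝ) : ℝ := if x ≤ 1 / 2 then X (2 * x) else -X (2 - 2 * x)
/-- second coordinate of a doubled arc -/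
private noncomputable def aY (Y : ℝ → ℝ) (x : ℝ) : ℝ := if x ≤ 1 / 2 then Y (2 * x) else Y (2 - 2 * x)

private theorem aX_nonneg {X : ℝ → ℝ} (hX : StrictAntiOn X (Icc 0 1)) (h1 : X 1 = 0) {x : ℝ}
    (hx : x ∈ Icc (0:ℝ) 1) (hx2 : x ≤ 1 / 2) : 0 ≤ X (2 * x) := by
  rw [← h1]
  exact hX.antitoneOn ⟨by linarith [hx.1], by linarith⟩ ⟨zero_le_one, le_rfl⟩ (by linarith)

private theorem aX_pos {X : ℝ → ℝ} (hX : StrictAntiOn X (Icc 0 1)) (h1 : X 1 = 0) {x : ℝ}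
    (hx : x ∈ Icc (0:ℝ) 1) (hx2 : 1 / 2 < x) : 0 < X (2 - 2 * x) := by
  rw [← h1]
  exact hX ⟨by linarith [hx.2], by linarith⟩ ⟨zero_le_one, le_rfl⟩ (by linarith)

private theorem aX_anti {X : ℝ → ℝ} (hX : StrictAntiOn X (Icc 0 1)) (h1 : X 1 = 0) :
    StrictAntiOn (aX X) (Icc 0 1) := by
  intro x hx y hy hxy
  unfold aX
  by_cases h2 : y ≤ 1 / 2
  · rw [if_pos h2, if_pos (hxy.le.trans h2)]
    exact hX ⟨by linarith [hx.1], by linarith⟩ ⟨by linarith [hy.1], by linarith⟩ (by linarith)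
  · rw [if_neg h2]
    push Not at h2
    have h3 := aX_pos hX h1 hy h2
    by_cases h4 : x ≤ 1 / 2
    · rw [if_pos h4]
      have := aX_nonneg hX h1 hx h4
      linarith
    · rw [if_neg h4]
      push Not at h4
      have : X (2 - 2 * x) < X (2 - 2 * y) :=
        hX ⟨by linarith [hy.2], by linarith⟩ ⟨by linarith [hx.2], by linarith⟩ (by linarith)
      linarith

private theorem aX_zero (X : ℝ → ℝ) : aX X 0 = X 0 := by
  unfold aX
  rw [if_pos (by norm_num), mul_zero]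

private theorem aX_one (X : ℝ → ℝ) : aX X 1 = -X 0 := by
  unfold aX
  rw [if_neg (by norm_num)]
  norm_num

private theorem arc_arc {X0 X1 Y0 Y1 : ℝ → ℝ} (hX0 : StrictAntiOn X0 (Icc 0 1))
    (hX1 : StrictAntiOn X1 (Icc 0 1)) (h0 : X0 1 = 0) (h1 : X1 1 = 0)
    (hs : ∀ σ ∈ Icc (0:ℝ) 1, ∀ σ' ∈ Icc (0:ℝ) 1, X0 σ = X1 σ' → Y1 σ' < Y0 σ ∨ (σ = 0 ∧ σ' = 0))
    {x x' : ℝ} (hx : x ∈ Icc (0:ℝ) 1) (hx' : x' ∈ Icc (0:ℝ) 1) (hX : aX X0 x = aX X1 x')
    (hY : aY Y0 x = aY Y1 x') : (x = 0 ∧ x' = 0) ∨ (x = 1 ∧ x' = 1) := by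
  unfold aX at hX
  unfold aY at hY
  by_cases h2 : x ≤ 1 / 2 <;> by_cases h3 : x' ≤ 1 / 2
  · rw [if_pos h2, if_pos h3] at hX hY
    rcases hs (2 * x) ⟨by linarith [hx.1], by linarith⟩ (2 * x') ⟨by linarith [hx'.1], by linarith⟩ hX
      with h | ⟨h, h'⟩
    · rw [hY] at h; exact absurd h (lt_irrefl _)
    · left; constructor <;> linarith
  · rw [if_pos h2, if_neg h3] at hX
    push Not at h3
    have a1 := aX_nonneg hX0 h0 hx h2
    have a2 := aX_pos hX1 h1 hx' h3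
    linarith
  · rw [if_neg h2, if_pos h3] at hX
    push Not at h2
    have a1 := aX_pos hX0 h0 hx h2
    have a2 := aX_nonneg hX1 h1 hx' h3
    linarith
  · rw [if_neg h2, if_neg h3] at hX hY
    push Not at h2 h3
    rcases hs (2 - 2 * x) ⟨by linarith [hx.2], by linarith⟩ (2 - 2 * x')
      ⟨by linarith [hx'.2], by linarith⟩ (neg_injective hX) with h | ⟨h, h'⟩
    · rw [hY] at h; exact absurd h (lt_irrefl _)
    · right; constructor <;> linarith

/-- the network as a function of the curve: abstract embeddedness -/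
private theorem embed_abs {X Y : Fin 3 → ℝ → ℝ} (hX0 : StrictAntiOn (X 0) (Icc 0 1))
    (hX1 : StrictAntiOn (X 1) (Icc 0 1)) (hX2 : StrictMonoOn (X 2) (Icc 0 1))
    (h0 : X 0 1 = 0) (h1 : X 1 1 = 0) (hJ0 : X 0 0 = X 2 0) (hJ1 : X 1 0 = X 2 0)
    (hs : ∀ σ ∈ Icc (0:ℝ) 1, ∀ σ' ∈ Icc (0:ℝ) 1, X 0 σ = X 1 σ' → Y 1 σ' < Y 0 σ ∨ (σ = 0 ∧ σ' = 0))
    (g : Fin 4 → ℝ → ℂ)
    (g0 : ∀ x, (g 0 x).re = aX (X 0) x ∧ (g 0 x).im = aY (Y 0) x)
    (g1 : ∀ x, (g 1 x).re = aX (X 1) x ∧ (g 1 x).im = aY (Y 1) x)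
    (g2 : ∀ x, (g 2 x).re = X 2 x) (g3 : ∀ x, (g 3 x).re = -X 2 x) :
    ∀ i i' : Fin 4, ∀ x ∈ Icc (0:ℝ) 1, ∀ x' ∈ Icc (0:ℝ) 1,
    g i x = g i' x' → (i = i' ∧ x = x') ∨
      ∃ b b' j, vtab i b = some j ∧ vtab i' b' = some j ∧
        x = (if b then 1 else 0) ∧ x' = (if b' then 1 else 0) := by
  have z0 : (0:ℝ) ∈ Icc (0:ℝ) 1 := ⟨le_rfl, zero_le_one⟩
  have z1 : (1:ℝ) ∈ Icc (0:ℝ) 1 := ⟨zero_le_one, le_rfl⟩
  have A0 := aX_anti hX0 h0
  have A1 := aX_anti hX1 h1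
  have hpos : 0 < X 2 0 := by
    have := hX0 z0 z1 zero_lt_one
    rw [h0, hJ0] at this
    exact this
  -- bounds for the first coordinates
  have up0 : ∀ x ∈ Icc (0:ℝ) 1, aX (X 0) x ≤ X 2 0 ∧ (aX (X 0) x = X 2 0 → x = 0) := by
    intro x hx
    rw [← hJ0, ← aX_zero (X 0)]
    exact ⟨A0.antitoneOn z0 hx hx.1, fun h => A0.injOn hx z0 h⟩
  have up1 : ∀ x ∈ Icc (0:ℝ) 1, aX (X 1) x ≤ X 2 0 ∧ (aX (X 1) x = X 2 0 → x = 0) := by
    intro x hx
    rw [← hJ1, ← aX_zero (X 1)]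
    exact ⟨A1.antitoneOn z0 hx hx.1, fun h => A1.injOn hx z0 h⟩
  have dn0 : ∀ x ∈ Icc (0:ℝ) 1, -X 2 0 ≤ aX (X 0) x ∧ (aX (X 0) x = -X 2 0 → x = 1) := by
    intro x hx
    rw [← hJ0, ← aX_one (X 0)]
    exact ⟨A0.antitoneOn hx z1 hx.2, fun h => A0.injOn hx z1 h⟩
  have dn1 : ∀ x ∈ Icc (0:ℝ) 1, -X 2 0 ≤ aX (X 1) x ∧ (aX (X 1) x = -X 2 0 → x = 1) := by
    intro x hx
    rw [← hJ1, ← aX_one (X 1)]
    exact ⟨A1.antitoneOn hx z1 hx.2, fun h => A1.injOn hx z1 h⟩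
  have up2 : ∀ x ∈ Icc (0:ℝ) 1, X 2 0 ≤ X 2 x ∧ (X 2 x = X 2 0 → x = 0) := by
    intro x hx
    exact ⟨hX2.monotoneOn z0 hx hx.1, fun h => hX2.injOn hx z0 h⟩
  -- the pairs
  have p02 : ∀ x ∈ Icc (0:ℝ) 1, ∀ x' ∈ Icc (0:ℝ) 1, aX (X 0) x = X 2 x' → x = 0 ∧ x' = 0 := by
    intro x hx x' hx' h
    have a1 := (up0 x hx).1
    have a2 := (up2 x' hx').1
    exact ⟨(up0 x hx).2 (by linarith), (up2 x' hx').2 (by linarith)⟩
  have p12 : ∀ x ∈ Icc (0:ℝ) 1, ∀ x' ∈ Icc (0:ℝ) 1, aX (X 1) x = X 2 x' → x = 0 ∧ x' = 0 := by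
    intro x hx x' hx' h
    have a1 := (up1 x hx).1
    have a2 := (up2 x' hx').1
    exact ⟨(up1 x hx).2 (by linarith), (up2 x' hx').2 (by linarith)⟩
  have p03 : ∀ x ∈ Icc (0:ℝ) 1, ∀ x' ∈ Icc (0:ℝ) 1, aX (X 0) x = -X 2 x' → x = 1 ∧ x' = 0 := by
    intro x hx x' hx' h
    have a1 := (dn0 x hx).1
    have a2 := (up2 x' hx').1
    exact ⟨(dn0 x hx).2 (by linarith), (up2 x' hx').2 (by linarith)⟩
  have p13 : ∀ x ∈ Icc (0:ℝ) 1, ∀ x' ∈ Icc (0:ℝ) 1, aX (X 1) x = -X 2 x' → x = 1 ∧ x' = 0 := by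
    intro x hx x' hx' h
    have a1 := (dn1 x hx).1
    have a2 := (up2 x' hx').1
    exact ⟨(dn1 x hx).2 (by linarith), (up2 x' hx').2 (by linarith)⟩
  have p23 : ∀ x ∈ Icc (0:ℝ) 1, ∀ x' ∈ Icc (0:ℝ) 1, X 2 x = -X 2 x' → False := by
    intro x hx x' hx' h
    have a1 := (up2 x hx).1
    have a2 := (up2 x' hx').1
    linarith
  intro i i' x hx x' hx' h
  have hre : (g i x).re = (g i' x').re := by rw [h]
  have him : (g i x).im = (g i' x').im := by rw [h]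
  fin_cases i <;> fin_cases i'
  -- curve 0
  · left
    refine ⟨rfl, A0.injOn hx hx' ?_⟩
    rw [← (g0 x).1, ← (g0 x').1]; exact hre
  · right
    have h2 : aX (X 0) x = aX (X 1) x' := by rw [← (g0 x).1, ← (g1 x').1]; exact hre
    have h3 : aY (Y 0) x = aY (Y 1) x' := by rw [← (g0 x).2, ← (g1 x').2]; exact him
    rcases arc_arc hX0 hX1 h0 h1 hs hx hx' h2 h3 with ⟨e, e'⟩ | ⟨e, e'⟩
    · exact ⟨false, false, 0, rfl, rfl, by simpa using e, by simpa using e'⟩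
    · exact ⟨true, true, 1, rfl, rfl, by simpa using e, by simpa using e'⟩
  · right
    have h2 : aX (X 0) x = X 2 x' := by rw [← (g0 x).1, ← g2 x']; exact hre
    obtain ⟨e, e'⟩ := p02 x hx x' hx' h2
    exact ⟨false, false, 0, rfl, rfl, by simpa using e, by simpa using e'⟩
  · right
    have h2 : aX (X 0) x = -X 2 x' := by rw [← (g0 x).1, ← g3 x']; exact hre
    obtain ⟨e, e'⟩ := p03 x hx x' hx' h2
    exact ⟨true, false, 1, rfl, rfl, by simpa using e, by simpa using e'⟩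
  -- curve 1
  · right
    have h2 : aX (X 0) x' = aX (X 1) x := by rw [← (g0 x').1, ← (g1 x).1]; exact hre.symm
    have h3 : aY (Y 0) x' = aY (Y 1) x := by rw [← (g0 x').2, ← (g1 x).2]; exact him.symm
    rcases arc_arc hX0 hX1 h0 h1 hs hx' hx h2 h3 with ⟨e, e'⟩ | ⟨e, e'⟩
    · exact ⟨false, false, 0, rfl, rfl, by simpa using e', by simpa using e⟩
    · exact ⟨true, true, 1, rfl, rfl, by simpa using e', by simpa using e⟩
  · left
    refine ⟨rfl, A1.injOn hx hx' ?_⟩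
    rw [← (g1 x).1, ← (g1 x').1]; exact hre
  · right
    have h2 : aX (X 1) x = X 2 x' := by rw [← (g1 x).1, ← g2 x']; exact hre
    obtain ⟨e, e'⟩ := p12 x hx x' hx' h2
    exact ⟨false, false, 0, rfl, rfl, by simpa using e, by simpa using e'⟩
  · right
    have h2 : aX (X 1) x = -X 2 x' := by rw [← (g1 x).1, ← g3 x']; exact hre
    obtain ⟨e, e'⟩ := p13 x hx x' hx' h2
    exact ⟨true, false, 1, rfl, rfl, by simpa using e, by simpa using e'⟩
  -- curve 2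
  · right
    have h2 : aX (X 0) x' = X 2 x := by rw [← (g0 x').1, ← g2 x]; exact hre.symm
    obtain ⟨e, e'⟩ := p02 x' hx' x hx h2
    exact ⟨false, false, 0, rfl, rfl, by simpa using e', by simpa using e⟩
  · right
    have h2 : aX (X 1) x' = X 2 x := by rw [← (g1 x').1, ← g2 x]; exact hre.symm
    obtain ⟨e, e'⟩ := p12 x' hx' x hx h2
    exact ⟨false, false, 0, rfl, rfl, by simpa using e', by simpa using e⟩
  · left
    refine ⟨rfl, hX2.injOn hx hx' ?_⟩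
    rw [← g2 x, ← g2 x']; exact hre
  · exfalso
    exact p23 x hx x' hx' (by rw [← g2 x, ← g3 x']; exact hre)
  -- curve 3
  · right
    have h2 : aX (X 0) x' = -X 2 x := by rw [← (g0 x').1, ← g3 x]; exact hre.symm
    obtain ⟨e, e'⟩ := p03 x' hx' x hx h2
    exact ⟨false, true, 1, rfl, rfl, by simpa using e', by simpa using e⟩
  · right
    have h2 : aX (X 1) x' = -X 2 x := by rw [← (g1 x').1, ← g3 x]; exact hre.symm
    obtain ⟨e, e'⟩ := p13 x' hx' x hx h2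
    exact ⟨false, true, 1, rfl, rfl, by simpa using e', by simpa using e⟩
  · exfalso
    exact p23 x' hx' x hx (by rw [← g2 x', ← g3 x]; exact hre.symm)
  · left
    refine ⟨rfl, hX2.injOn hx hx' ?_⟩
    have : -X 2 x = -X 2 x' := by rw [← g3 x, ← g3 x']; exact hre
    linarith

/-! monotonicity of the first coordinate -/

private theorem X_anti (F : Flow a b Lx) {i : Fin 3} {t : ℝ} (ht : t ∈ Ioo a b)
    (hc : ∀ σ ∈ Icc (0:ℝ) 1, Real.cos (F.th i t σ + off i) < 0) :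
    StrictAntiOn (F.X i t) (Icc 0 1) := by
  refine strictAntiOn_of_deriv_neg (convex_Icc 0 1)
    (fun σ hσ => (F.X_s i t ht σ hσ).continuousWithinAt) (fun σ hσ => ?_)
  rw [interior_Icc] at hσ
  have hσ' : σ ∈ Icc (0:ℝ) 1 := ⟨hσ.1.le, hσ.2.le⟩
  rw [((F.X_s i t ht σ hσ').hasDerivAt (Icc_mem_nhds hσ.1 hσ.2)).deriv]
  exact mul_neg_of_pos_of_neg (F.ell_pos i t ht) (hc σ hσ')

private theorem X_mono (F : Flow a b Lx) {i : Fin 3} {t : ℝ} (ht : t ∈ Ioo a b)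
    (hc : ∀ σ ∈ Icc (0:ℝ) 1, 0 < Real.cos (F.th i t σ + off i)) :
    StrictMonoOn (F.X i t) (Icc 0 1) := by
  refine strictMonoOn_of_deriv_pos (convex_Icc 0 1)
    (fun σ hσ => (F.X_s i t ht σ hσ).continuousWithinAt) (fun σ hσ => ?_)
  rw [interior_Icc] at hσ
  have hσ' : σ ∈ Icc (0:ℝ) 1 := ⟨hσ.1.le, hσ.2.le⟩
  rw [((F.X_s i t ht σ hσ').hasDerivAt (Icc_mem_nhds hσ.1 hσ.2)).deriv]
  exact mul_pos (F.ell_pos i t ht) (hc σ hσ')

/-! ### the network -/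

/-- curve number `i` of the double -/
private noncomputable def gam (t0 : ℝ) (c κ : ℝ) (G : Fin 3 → ℝ → ℝ → ℂ) : Fin 4 → ℝ → ℝ → ℂ :=
  ![dd t0 c κ (G 0), dd t0 c κ (G 1), fun t x => G 2 (t0 + t) x,
    fun t x => -(starRingEnd ℂ) (G 2 (t0 + t) x)]

private theorem pos_J (F : Flow a b Lx) (i : Fin 3) {t : ℝ} (ht : t ∈ Ioo a b) :
    F.pos i t 0 = F.pos 2 t 0 := by
  unfold Flow.pos
  rw [F.X_J i t ht, F.Y_J i t ht]

private theorem dd_zero (t0 c κ : ℝ) (G : ℝ → ℝ → ℂ) (t : ℝ) :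
    dd t0 c κ G t 0 = (c : ℂ) * G (t0 + t) 0 := by
  rw [dd_left (by norm_num), mul_zero]

private theorem dd_one (t0 c κ : ℝ) (G : ℝ → ℝ → ℂ) (t : ℝ) :
    dd t0 c κ G t 1 = (κ : ℂ) * ((c : ℂ) * (starRingEnd ℂ) (G (t0 + t) 0)) := by
  unfold dd
  rw [if_neg (by norm_num), mul_one, sub_self]

private theorem gam_end (F : Flow a b Lx) {t0 t : ℝ} (ht : t0 + t ∈ Ioo a b) :
    ∀ (i : Fin 4) (e : Bool) (j : Fin 2), vtab i e = some j →
      gam t0 1 (-1) F.pos i t (if e then 1 else 0) =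
        if j = 0 then F.pos 2 (t0 + t) 0 else -(starRingEnd ℂ) (F.pos 2 (t0 + t) 0) := by
  intro i e j h
  have d0 : ∀ k : Fin 3, dd t0 1 (-1) (F.pos k) t 0 = F.pos 2 (t0 + t) 0 := by
    intro k
    rw [dd_zero, pos_J F k ht]; simp
  have d1 : ∀ k : Fin 3, dd t0 1 (-1) (F.pos k) t 1 = -(starRingEnd ℂ) (F.pos 2 (t0 + t) 0) := by
    intro k
    rw [dd_one, pos_J F k ht]; simp
  fin_cases i <;> cases e
  · have hj : j = 0 := (Option.some.inj h).symm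
    subst hj
    exact d0 0
  · have hj : j = 1 := (Option.some.inj h).symm
    subst hj
    exact d1 0
  · have hj : j = 0 := (Option.some.inj h).symm
    subst hj
    exact d0 1
  · have hj : j = 1 := (Option.some.inj h).symm
    subst hj
    exact d1 1
  · have hj : j = 0 := (Option.some.inj h).symm
    subst hj
    rfl
  · exact absurd h (by simp [vtab])
  · have hj : j = 1 := (Option.some.inj h).symm
    subst hj
    rfl
  · exact absurd h (by simp [vtab])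

private theorem unit_sum (F : Flow a b Lx) {t : ℝ} (ht : t ∈ Ioo a b) :
    eU F 0 t 0 / F.ell 0 t + eU F 1 t 0 / F.ell 1 t + eU F 2 t 0 / F.ell 2 t = 0 := by
  have h : ∀ i : Fin 3, eU F i t 0 / F.ell i t =
      ⟨Real.cos (F.th 2 t 0 + off i), Real.sin (F.th 2 t 0 + off i)⟩ := by
    intro i
    have hl : ((F.ell i t : ℝ) : ℂ) ≠ 0 := by exact_mod_cast (F.ell_pos i t ht).ne'
    rw [div_eq_iff hl]
    unfold eU
    rw [F.th_J i t ht]
    apply Complex.ext <;> simp [mul_comm]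
  rw [h 0, h 1, h 2, T1.cos_off0, T1.sin_off0, T1.cos_off1, T1.sin_off1, T1.cos_off2, T1.sin_off2]
  apply Complex.ext
  · simp only [Complex.add_re, Complex.zero_re]; ring
  · simp only [Complex.add_im, Complex.zero_im]; ring

private theorem filt0 : Finset.univ.filter (fun e : Fin 4 × Bool => vtab e.1 e.2 = some 0) =
    {(0, false), (1, false), (2, false)} := by decide

private theorem filt1 : Finset.univ.filter (fun e : Fin 4 × Bool => vtab e.1 e.2 = some 1) =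
    {(0, true), (1, true), (3, false)} := by decide

private theorem gam_angle (F : Flow a b Lx) {t0 t : ℝ} (ht : t0 + t ∈ Ioo a b) (j : Fin 2) :
    ∑ e ∈ Finset.univ.filter (fun e : Fin 4 × Bool => vtab e.1 e.2 = some j),
      (if e.2 then -gam t0 2 1 (eU F) e.1 t 1 / ‖gam t0 2 1 (eU F) e.1 t 1‖
        else gam t0 2 1 (eU F) e.1 t 0 / ‖gam t0 2 1 (eU F) e.1 t 0‖) = 0 := by
  have hl : ∀ i, ((F.ell i (t0 + t) : ℝ) : ℂ) ≠ 0 := fun i => by
    exact_mod_cast (F.ell_pos i _ ht).ne'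
  have hu := unit_sum F ht
  have a0 : ∀ i : Fin 3, dd t0 2 1 (eU F i) t 0 / ‖dd t0 2 1 (eU F i) t 0‖ =
      eU F i (t0 + t) 0 / F.ell i (t0 + t) := by
    intro i
    rw [dd_zero, norm_mul, eU_norm F i ht, Complex.norm_real]
    norm_num
    rw [mul_div_mul_left _ _ (by norm_num)]
  have a1 : ∀ i : Fin 3, -dd t0 2 1 (eU F i) t 1 / ‖dd t0 2 1 (eU F i) t 1‖ =
      -(starRingEnd ℂ) (eU F i (t0 + t) 0 / F.ell i (t0 + t)) := by
    intro i
    rw [dd_one]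
    simp only [Complex.ofReal_one, one_mul, norm_mul, Complex.norm_real, Complex.norm_conj,
      eU_norm F i ht, map_div₀, Complex.conj_ofReal]
    norm_num
    rw [neg_div, mul_div_mul_left _ _ (by norm_num)]
  fin_cases j
  · show ∑ e ∈ Finset.univ.filter (fun e : Fin 4 × Bool => vtab e.1 e.2 = some 0), _ = _
    rw [filt0, Finset.sum_insert (by decide), Finset.sum_insert (by decide), Finset.sum_singleton]
    have a2 : gam t0 2 1 (eU F) 2 t 0 / ‖gam t0 2 1 (eU F) 2 t 0‖ =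
        eU F 2 (t0 + t) 0 / F.ell 2 (t0 + t) := by
      show eU F 2 (t0 + t) 0 / ‖eU F 2 (t0 + t) 0‖ = _
      rw [eU_norm F 2 ht]
    have e0 := a0 0
    have e1 := a0 1
    simp only [Bool.false_eq_true, if_false]
    rw [a2]
    have g0 : gam t0 2 1 (eU F) 0 t 0 = dd t0 2 1 (eU F 0) t 0 := rfl
    have g1 : gam t0 2 1 (eU F) 1 t 0 = dd t0 2 1 (eU F 1) t 0 := rfl
    rw [g0, g1, e0, e1, ← add_assoc]
    exact hu
  · show ∑ e ∈ Finset.univ.filter (fun e : Fin 4 × Bool => vtab e.1 e.2 = some 1), _ = _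
    rw [filt1, Finset.sum_insert (by decide), Finset.sum_insert (by decide), Finset.sum_singleton]
    have a2 : gam t0 2 1 (eU F) 3 t 0 / ‖gam t0 2 1 (eU F) 3 t 0‖ =
        -(starRingEnd ℂ) (eU F 2 (t0 + t) 0 / F.ell 2 (t0 + t)) := by
      show -(starRingEnd ℂ) (eU F 2 (t0 + t) 0) / ‖-(starRingEnd ℂ) (eU F 2 (t0 + t) 0)‖ = _
      rw [norm_neg, Complex.norm_conj, eU_norm F 2 ht, map_div₀, Complex.conj_ofReal, neg_div]
    have e0 := a1 0
    have e1 := a1 1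
    simp only [Bool.false_eq_true, if_false, if_true]
    rw [a2]
    have g0 : gam t0 2 1 (eU F) 0 t 1 = dd t0 2 1 (eU F 0) t 1 := rfl
    have g1 : gam t0 2 1 (eU F) 1 t 1 = dd t0 2 1 (eU F 1) t 1 := rfl
    rw [g0, g1, e0, e1, ← neg_add, ← neg_add, ← map_add, ← map_add, ← add_assoc, hu]
    simp

/-- FA : doubling by reflection in the imaginary axis -/
theorem build_net (F : Flow a b Lx) {t0 : ℝ} (ht0 : t0 ∈ Ioo a b)
    (hg : ∀ t ∈ Ioo a b, F.IsGraph t) (hs : ∀ t ∈ Ioo a b, F.Sep t) :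
    ∃ N : NetworkFlow 4 2 (b - t0), N.vtx = vtab ∧
      (∀ t ∈ Ico 0 (b - t0), ∀ x ∈ Icc (0:ℝ) 1,
        N.γ 2 t x = F.pos 2 (t0 + t) x ∧ N.curv 2 t x = F.k 2 (t0 + t) x) ∧
      (∀ t ∈ Ico 0 (b - t0), N.len 0 t = 2 * F.ell 0 (t0 + t) ∧ N.len 1 t = 2 * F.ell 1 (t0 + t) ∧
        N.len 2 t = F.ell 2 (t0 + t)) ∧
      (∀ t ∈ Ico 0 (b - t0),
        N.curve 0 t = {z : ℂ | ∃ σ ∈ Icc (0:ℝ) 1, |z.re| = F.X 0 (t0 + t) σ ∧ z.im = F.Y 0 (t0 + t) σ} ∧
        N.curve 1 t = {z : ℂ | ∃ σ ∈ Icc (0:ℝ) 1, |z.re| = F.X 1 (t0 + t) σ ∧ z.im = F.Y 1 (t0 + t) σ} ∧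
        N.curve 2 t = {z : ℂ | ∃ σ ∈ Icc (0:ℝ) 1, z.re = F.X 2 (t0 + t) σ ∧ z.im = F.Y 2 (t0 + t) σ} ∧
        N.curve 3 t = {z : ℂ | ∃ σ ∈ Icc (0:ℝ) 1, -z.re = F.X 2 (t0 + t) σ ∧ z.im = F.Y 2 (t0 + t) σ}) := by
  have hin : ∀ t ∈ Ico 0 (b - t0), t0 + t ∈ Ioo a b := fun t ht =>
    ⟨by linarith [ht.1, ht0.1], by linarith [ht.2]⟩
  have n0 : (0 : Fin 3) ≠ 2 := by decide
  have n1 : (1 : Fin 3) ≠ 2 := by decide
  have hmaps : MapsTo (fun p : ℝ × ℝ => (t0 + p.1, p.2)) (Ico 0 (b - t0) ×ˢ Icc (0:ℝ) 1)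
      (Ioo a b ×ˢ Icc (0:ℝ) 1) := fun p hp => ⟨hin _ hp.1, hp.2⟩
  have hmc : ContinuousOn (fun p : ℝ × ℝ => (t0 + p.1, p.2)) (Ico 0 (b - t0) ×ˢ Icc (0:ℝ) 1) := by
    fun_prop
  -- continuity of all curves
  have hcont : ∀ (c κ : ℝ) (G : Fin 3 → ℝ → ℝ → ℂ),
      (∀ i, ContinuousOn (fun p : ℝ × ℝ => G i p.1 p.2) (Ioo a b ×ˢ Icc 0 1)) →
      (∀ i, i ≠ 2 → ∀ t ∈ Ioo a b, G i t 1 = (κ : ℂ) * (starRingEnd ℂ) (G i t 1)) →
      ∀ i : Fin 4, ContinuousOn (fun p : ℝ × ℝ => gam t0 c κ G i p.1 p.2)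
        (Ico 0 (b - t0) ×ˢ Icc 0 1) := by
    intro c κ G hG hax i
    fin_cases i
    · exact dd_cont rfl ht0.1 (hG 0) (hax 0 n0)
    · exact dd_cont rfl ht0.1 (hG 1) (hax 1 n1)
    · exact (hG 2).comp hmc hmaps
    · exact ((Complex.continuous_conj.comp_continuousOn ((hG 2).comp hmc hmaps))).neg
  -- derivatives in the parameter
  have hderiv : ∀ (c κ c' κ' : ℝ) (G G' : Fin 3 → ℝ → ℝ → ℂ), c' = 2 * c → κ' = -κ →
      (∀ i, ∀ t ∈ Ioo a b, ∀ σ ∈ Icc (0:ℝ) 1, HasDerivWithinAt (G i t) (G' i t σ) (Icc 0 1) σ) →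
      (∀ i, i ≠ 2 → ∀ t ∈ Ioo a b, G i t 1 = (κ : ℂ) * (starRingEnd ℂ) (G i t 1)) →
      (∀ i, i ≠ 2 → ∀ t ∈ Ioo a b, G' i t 1 = (κ' : ℂ) * (starRingEnd ℂ) (G' i t 1)) →
      ∀ i : Fin 4, ∀ t ∈ Ico 0 (b - t0), ∀ x ∈ Icc (0:ℝ) 1,
        HasDerivWithinAt (gam t0 c κ G i t) (gam t0 c' κ' G' i t x) (Icc 0 1) x := by
    intro c κ c' κ' G G' hc hκ hG h1 h1' i t ht x hx
    have hh := hin t ht
    fin_cases i
    · exact dd_deriv hc hκ (hG 0 _ hh) (h1 0 n0 _ hh) (h1' 0 n0 _ hh) x hx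
    · exact dd_deriv hc hκ (hG 1 _ hh) (h1 1 n1 _ hh) (h1' 1 n1 _ hh) x hx
    · exact hG 2 _ hh x hx
    · exact ((hG 2 _ hh x hx).star).neg
  have hmot : ∀ i : Fin 4, ∀ t ∈ Ico 0 (b - t0), ∀ x : ℝ, ∃ k, Mot k (gam t0 1 (-1) (eW F) i t x)
      (gam t0 2 1 (eU F) i t x) (gam t0 4 (-1) (eV F) i t x) ∧ (i = 2 → k = F.k 2 (t0 + t) x) := by
    intro i t ht x
    have hh := hin t ht
    fin_cases i
    · obtain ⟨σ, h⟩ := mot_arc F 0 (x := x) hh
      exact ⟨_, h, fun h => absurd h (by decide)⟩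
    · obtain ⟨σ, h⟩ := mot_arc F 1 (x := x) hh
      exact ⟨_, h, fun h => absurd h (by decide)⟩
    · exact ⟨_, mot_base F 2 hh x, fun _ => rfl⟩
    · exact ⟨_, (mot_base F 2 hh x).refl, fun h => absurd h (by decide)⟩
  have hre : ∀ (k : Fin 3) (t x : ℝ), (dd t0 1 (-1) (F.pos k) t x).re = aX (F.X k (t0 + t)) x ∧
      (dd t0 1 (-1) (F.pos k) t x).im = aY (F.Y k (t0 + t)) x := by
    intro k t x
    unfold dd aX aY
    split_ifs with h
    · simp [Flow.pos]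
    · simp [Flow.pos]
  have hXa : ∀ t ∈ Ico 0 (b - t0), StrictAntiOn (F.X 0 (t0 + t)) (Icc 0 1) ∧
      StrictAntiOn (F.X 1 (t0 + t)) (Icc 0 1) ∧ StrictMonoOn (F.X 2 (t0 + t)) (Icc 0 1) := by
    intro t ht
    have hh := hin t ht
    exact ⟨X_anti F hh (fun σ hσ => (hg _ hh σ hσ).1), X_anti F hh (fun σ hσ => (hg _ hh σ hσ).2.1),
      X_mono F hh (fun σ hσ => (hg _ hh σ hσ).2.2)⟩
  have hembed : ∀ t ∈ Ico 0 (b - t0), ∀ i i' : Fin 4, ∀ x ∈ Icc (0:ℝ) 1, ∀ x' ∈ Icc (0:ℝ) 1,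
      gam t0 1 (-1) F.pos i t x = gam t0 1 (-1) F.pos i' t x' → (i = i' ∧ x = x') ∨
      ∃ b b' j, vtab i b = some j ∧ vtab i' b' = some j ∧
        x = (if b then 1 else 0) ∧ x' = (if b' then 1 else 0) := by
    intro t ht
    have hh := hin t ht
    obtain ⟨m0, m1, m2⟩ := hXa t ht
    refine embed_abs (X := fun i => F.X i (t0 + t)) (Y := fun i => F.Y i (t0 + t)) m0 m1 m2
      (F.X_axis0 _ hh) (F.X_axis1 _ hh) (F.X_J 0 _ hh) (F.X_J 1 _ hh) (hs _ hh)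
      (fun i x => gam t0 1 (-1) F.pos i t x) (fun x => hre 0 t x) (fun x => hre 1 t x)
      (fun x => rfl) (fun x => ?_)
    show (-(starRingEnd ℂ) (F.pos 2 (t0 + t) x)).re = _
    simp [Flow.pos]
  -- the curves as sets
  have hcurve : ∀ k : Fin 3, ∀ t : ℝ, StrictAntiOn (F.X k (t0 + t)) (Icc 0 1) →
      F.X k (t0 + t) 1 = 0 → (dd t0 1 (-1) (F.pos k) t) '' Icc 0 1 =
        {z : ℂ | ∃ σ ∈ Icc (0:ℝ) 1, |z.re| = F.X k (t0 + t) σ ∧ z.im = F.Y k (t0 + t) σ} := by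
    intro k t hX h1
    ext z
    simp only [mem_image, mem_setOf_eq]
    constructor
    · rintro ⟨x, hx, rfl⟩
      rw [(hre k t x).1, (hre k t x).2]
      unfold aX aY
      by_cases h : x ≤ 1 / 2
      · rw [if_pos h, if_pos h]
        exact ⟨2 * x, ⟨by linarith [hx.1], by linarith⟩, abs_of_nonneg (aX_nonneg hX h1 hx h), rfl⟩
      · rw [if_neg h, if_neg h]
        push Not at h
        refine ⟨2 - 2 * x, ⟨by linarith [hx.2], by linarith⟩, ?_, rfl⟩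
        rw [abs_neg, abs_of_pos (aX_pos hX h1 hx h)]
    · rintro ⟨σ, hσ, h2, h3⟩
      by_cases h : 0 ≤ z.re
      · refine ⟨σ / 2, ⟨by linarith [hσ.1], by linarith [hσ.2]⟩, ?_⟩
        rw [abs_of_nonneg h] at h2
        have e : 2 * (σ / 2) = σ := by ring
        have e' : σ / 2 ≤ 1 / 2 := by linarith [hσ.2]
        apply Complex.ext
        · rw [(hre k t _).1, h2]; unfold aX; rw [if_pos e', e]
        · rw [(hre k t _).2, h3]; unfold aY; rw [if_pos e', e]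
      · push Not at h
        rw [abs_of_neg h] at h2
        have hσ1 : σ < 1 := by
          rcases hσ.2.lt_or_eq with h4 | h4
          · exact h4
          · rw [h4, h1] at h2; linarith
        refine ⟨1 - σ / 2, ⟨by linarith [hσ.2], by linarith [hσ.1]⟩, ?_⟩
        have e : 2 - 2 * (1 - σ / 2) = σ := by ring
        have e' : ¬ (1 - σ / 2 ≤ 1 / 2) := by push Not; linarith
        apply Complex.ext
        · rw [(hre k t _).1]; unfold aX; rw [if_neg e', e]; linarith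
        · rw [(hre k t _).2, h3]; unfold aY; rw [if_neg e', e]
  have hlen : ∀ (k : Fin 3) (t : ℝ), t ∈ Ico 0 (b - t0) →
      ∫ x in (0:ℝ)..1, ‖dd t0 2 1 (eU F k) t x‖ = 2 * F.ell k (t0 + t) := by
    intro k t ht
    have hh := hin t ht
    have : ∀ x : ℝ, ‖dd t0 2 1 (eU F k) t x‖ = 2 * F.ell k (t0 + t) := by
      intro x
      unfold dd
      split_ifs
      · rw [norm_mul, eU_norm F k hh, Complex.norm_real, Real.norm_of_nonneg (by norm_num)]
      · rw [norm_mul, norm_mul, Complex.norm_conj, eU_norm F k hh, Complex.norm_real,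
          Complex.norm_real, Real.norm_of_nonneg (by norm_num), Real.norm_of_nonneg (by norm_num),
          one_mul]
    simp only [this]
    simp
  refine ⟨{ γ := gam t0 1 (-1) F.pos
            γx := gam t0 2 1 (eU F)
            γxx := gam t0 4 (-1) (eV F)
            γt := gam t0 1 (-1) (eW F)
            cont := hcont 1 (-1) F.pos (pos_cont F) (fun i hi t ht => pos_ax F hi ht)
            cont_x := hcont 2 1 (eU F) (eU_cont F) (fun i hi t ht => eU_ax F hi ht)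
            cont_xx := hcont 4 (-1) (eV F) (eV_cont F) (fun i hi t ht => eV_ax F hi ht)
            cont_t := hcont 1 (-1) (eW F) (eW_cont F) (fun i hi t ht => eW_ax F hi ht)
            deriv_x := hderiv 1 (-1) 2 1 F.pos (eU F) (by norm_num) (by norm_num)
              (fun i t ht => pos_deriv F i ht) (fun i hi t ht => pos_ax F hi ht)
              (fun i hi t ht => eU_ax F hi ht)
            deriv_xx := hderiv 2 1 4 (-1) (eU F) (eV F) (by norm_num) (by norm_num)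
              (fun i t ht => eU_deriv F i ht) (fun i hi t ht => eU_ax F hi ht)
              (fun i hi t ht => eV_ax F hi ht)
            deriv_t := ?_
            regular := fun i t ht x hx => by
              obtain ⟨k, h, _⟩ := hmot i t ht x
              exact h.1
            motion := fun i t ht x hx => by
              obtain ⟨k, h, _⟩ := hmot i t ht x
              rw [h.2.1, h.2.2]
            vtx := vtab
            triple := by decide
            meet := fun i e i' e' j h h' t ht => by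
              rw [gam_end F (hin t ht) i e j h, gam_end F (hin t ht) i' e' j h']
            angle := fun j t ht => gam_angle F (hin t ht) j
            fixed := ?_
            embedded := hembed }, rfl, ?_, ?_, ?_⟩
  · intro i t ht x hx
    fin_cases i
    · exact dd_time rfl ht0.1 (pos_time F 0) t ht x hx
    · exact dd_time rfl ht0.1 (pos_time F 1) t ht x hx
    · have h := (pos_time F 2 _ (hin t ht) x hx).scomp t ((hasDerivAt_id t).const_add t0)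
      simp only [one_smul] at h
      exact h.hasDerivWithinAt
    · have h := (pos_time F 2 _ (hin t ht) x hx).scomp t ((hasDerivAt_id t).const_add t0)
      simp only [one_smul] at h
      exact (h.star.neg).hasDerivWithinAt
  · intro i e h t ht
    have h0 : (0:ℝ) ∈ Ico 0 (b - t0) := ⟨le_rfl, by linarith [ht.1, ht.2]⟩
    have hfar : ∀ s ∈ Ico 0 (b - t0), F.pos 2 (t0 + s) 1 = ⟨Lx, F.Ly⟩ := by
      intro s hs'
      unfold Flow.pos
      rw [F.X_far _ (hin s hs'), F.Y_far _ (hin s hs')]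
    fin_cases i <;> cases e
    · exact absurd h (by simp [vtab])
    · exact absurd h (by simp [vtab])
    · exact absurd h (by simp [vtab])
    · exact absurd h (by simp [vtab])
    · exact absurd h (by simp [vtab])
    · show F.pos 2 (t0 + t) 1 = F.pos 2 (t0 + 0) 1
      rw [hfar t ht, hfar 0 h0]
    · exact absurd h (by simp [vtab])
    · show -(starRingEnd ℂ) (F.pos 2 (t0 + t) 1) = -(starRingEnd ℂ) (F.pos 2 (t0 + 0) 1)
      rw [hfar t ht, hfar 0 h0]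
  · intro t ht x hx
    refine ⟨rfl, ?_⟩
    obtain ⟨k, h, hk⟩ := hmot 2 t ht x
    rw [← hk rfl]
    exact h.2.2
  · intro t ht
    refine ⟨hlen 0 t ht, hlen 1 t ht, ?_⟩
    show ∫ x in (0:ℝ)..1, ‖eU F 2 (t0 + t) x‖ = _
    simp only [eU_norm F 2 (hin t ht)]
    simp
  · intro t ht
    obtain ⟨m0, m1, m2⟩ := hXa t ht
    have hh := hin t ht
    refine ⟨hcurve 0 t m0 (F.X_axis0 _ hh), hcurve 1 t m1 (F.X_axis1 _ hh), ?_, ?_⟩
    · show (F.pos 2 (t0 + t)) '' Icc 0 1 = _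
      ext z
      simp only [mem_image, mem_setOf_eq]
      constructor
      · rintro ⟨x, hx, rfl⟩
        exact ⟨x, hx, rfl, rfl⟩
      · rintro ⟨x, hx, h1, h2⟩
        exact ⟨x, hx, Complex.ext h1.symm h2.symm⟩
    · show (fun x => -(starRingEnd ℂ) (F.pos 2 (t0 + t) x)) '' Icc 0 1 = _
      ext z
      simp only [mem_image, mem_setOf_eq]
      constructor
      · rintro ⟨x, hx, rfl⟩
        refine ⟨x, hx, ?_, ?_⟩ <;> simp [Flow.pos]
      · rintro ⟨x, hx, h1, h2⟩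
        refine ⟨x, hx, Complex.ext ?_ ?_⟩
        · simp only [Flow.pos, Complex.neg_re, Complex.conj_re]; linarith
        · simp only [Flow.pos, Complex.neg_im, Complex.conj_im]; linarith

end Pool.Agent.Helper15.NF
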