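import Mathlib

open Set MeasureTheory Filter Topology

namespace Pool.Agent.Helper15.NF

/-- FB : the domain between two graphs is a connected component of the complement -/
theorem region_lens {ξ Lx : ℝ} (hξ : 0 < ξ) (hL : ξ < Lx) {f g h : ℝ → ℝ}
    (hf : ContinuousOn f (Icc 0 ξ)) (hg : ContinuousOn g (Icc 0 ξ)) (hh : ContinuousOn h (Icc ξ Lx))
    (hfg : ∀ x ∈ Ico 0 ξ, g x < f x) (hJ : f ξ = g ξ) (hJ' : h ξ = f ξ) {S : Set ℂ}
    (hS : S = {z : ℂ | |z.re| ≤ ξ ∧ z.im = f |z.re|} ∪ {z : ℂ | |z.re| ≤ ξ ∧ z.im = g |z.re|} ∪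
      {z : ℂ | ξ ≤ |z.re| ∧ |z.re| ≤ Lx ∧ z.im = h |z.re|}) :
    Bornology.IsBounded {z : ℂ | |z.re| < ξ ∧ g |z.re| < z.im ∧ z.im < f |z.re|} ∧
    (∃ z ∈ Sᶜ, {z : ℂ | |z.re| < ξ ∧ g |z.re| < z.im ∧ z.im < f |z.re|} =
      connectedComponentIn Sᶜ z) ∧
    frontier {z : ℂ | |z.re| < ξ ∧ g |z.re| < z.im ∧ z.im < f |z.re|} =
      {z : ℂ | |z.re| ≤ ξ ∧ z.im = f |z.re|} ∪ {z : ℂ | |z.re| ≤ ξ ∧ z.im = g |z.re|} := by
  -- continuous extensions
  obtain ⟨F, hF, hFf⟩ : ∃ F : ℝ → ℝ, Continuous F ∧ ∀ x ∈ Icc 0 ξ, F x = f x :=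
    ⟨Set.IccExtend hξ.le ((Icc 0 ξ).restrict f),
      (continuousOn_iff_continuous_restrict.1 hf).Icc_extend',
      fun x hx => Set.IccExtend_of_mem _ _ hx⟩
  obtain ⟨G, hG, hGg⟩ : ∃ G : ℝ → ℝ, Continuous G ∧ ∀ x ∈ Icc 0 ξ, G x = g x :=
    ⟨Set.IccExtend hξ.le ((Icc 0 ξ).restrict g),
      (continuousOn_iff_continuous_restrict.1 hg).Icc_extend',
      fun x hx => Set.IccExtend_of_mem _ _ hx⟩
  set U : Set ℂ := {z : ℂ | |z.re| < ξ ∧ g |z.re| < z.im ∧ z.im < f |z.re|} with hU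
  set W : Set ℂ := {z : ℂ | |z.re| ≤ ξ ∧ g |z.re| ≤ z.im ∧ z.im ≤ f |z.re|} with hW
  have hgf : ∀ x ∈ Icc 0 ξ, g x ≤ f x := by
    intro x hx
    rcases lt_or_eq_of_le hx.2 with h1 | h1
    · exact (hfg x ⟨hx.1, h1⟩).le
    · rw [h1, hJ]
  have hmem : ∀ z : ℂ, |z.re| ≤ ξ → |z.re| ∈ Icc 0 ξ := fun z hz => ⟨abs_nonneg _, hz⟩
  have hUo : IsOpen U := by
    have h1 : U = {z : ℂ | |z.re| < ξ} ∩ ({z : ℂ | G |z.re| < z.im} ∩
        {z : ℂ | z.im < F |z.re|}) := by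
      ext z
      constructor
      · rintro ⟨h1, h2, h3⟩
        refine ⟨h1, ?_, ?_⟩
        · show G |z.re| < z.im
          rw [hGg _ (hmem z h1.le)]; exact h2
        · show z.im < F |z.re|
          rw [hFf _ (hmem z h1.le)]; exact h3
      · rintro ⟨h1, h2, h3⟩
        have h1' : |z.re| < ξ := h1
        have h2' : G |z.re| < z.im := h2
        have h3' : z.im < F |z.re| := h3
        rw [hGg _ (hmem z h1'.le)] at h2'
        rw [hFf _ (hmem z h1'.le)] at h3'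
        exact ⟨h1', h2', h3'⟩
    rw [h1]
    exact (isOpen_lt (by fun_prop) continuous_const).inter
      ((isOpen_lt (by fun_prop) (by fun_prop)).inter (isOpen_lt (by fun_prop) (by fun_prop)))
  have hWc : IsClosed W := by
    have h1 : W = {z : ℂ | |z.re| ≤ ξ} ∩ ({z : ℂ | G |z.re| ≤ z.im} ∩
        {z : ℂ | z.im ≤ F |z.re|}) := by
      ext z
      constructor
      · rintro ⟨h1, h2, h3⟩
        refine ⟨h1, ?_, ?_⟩
        · show G |z.re| ≤ z.im
          rw [hGg _ (hmem z h1)]; exact h2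
        · show z.im ≤ F |z.re|
          rw [hFf _ (hmem z h1)]; exact h3
      · rintro ⟨h1, h2, h3⟩
        have h1' : |z.re| ≤ ξ := h1
        have h2' : G |z.re| ≤ z.im := h2
        have h3' : z.im ≤ F |z.re| := h3
        rw [hGg _ (hmem z h1')] at h2'
        rw [hFf _ (hmem z h1')] at h3'
        exact ⟨h1', h2', h3'⟩
    rw [h1]
    exact (isClosed_le (by fun_prop) continuous_const).inter
      ((isClosed_le (by fun_prop) (by fun_prop)).inter (isClosed_le (by fun_prop) (by fun_prop)))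
  -- parametrisation
  let Φ : ℝ × ℝ → ℂ := fun p => (p.1 : ℂ) + ((G |p.1| + p.2 * (F |p.1| - G |p.1|) : ℝ) : ℂ) *
    Complex.I
  have hΦ : Continuous Φ := by
    fun_prop
  have hΦre : ∀ p, (Φ p).re = p.1 := fun p => by simp [Φ]
  have hΦim : ∀ p, (Φ p).im = G |p.1| + p.2 * (F |p.1| - G |p.1|) := fun p => by simp [Φ]
  have hUim : U = Φ '' (Ioo (-ξ) ξ ×ˢ Ioo (0 : ℝ) 1) := by
    ext z
    constructor
    · rintro ⟨h1, h2, h3⟩
      have hm := hmem z h1.le
      have hd : 0 < f |z.re| - g |z.re| := by linarith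
      refine ⟨(z.re, (z.im - g |z.re|) / (f |z.re| - g |z.re|)), ⟨abs_lt.1 h1, ?_, ?_⟩, ?_⟩
      · exact div_pos (by linarith) hd
      · show (z.im - g |z.re|) / (f |z.re| - g |z.re|) < 1
        rw [div_lt_one hd]
        linarith
      · apply Complex.ext
        · rw [hΦre]
        · rw [hΦim, hFf _ hm, hGg _ hm, div_mul_cancel₀ _ hd.ne']
          ring
    · rintro ⟨⟨x, s⟩, ⟨hx, hs⟩, rfl⟩
      have hx' : |x| < ξ := abs_lt.2 hx
      have hm : |x| ∈ Icc 0 ξ := ⟨abs_nonneg _, hx'.le⟩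
      have hd := hfg |x| ⟨abs_nonneg _, hx'⟩
      show |(Φ (x, s)).re| < ξ ∧ g |(Φ (x, s)).re| < (Φ (x, s)).im ∧
        (Φ (x, s)).im < f |(Φ (x, s)).re|
      rw [hΦre, hΦim, hFf _ hm, hGg _ hm]
      have hs1 : 0 < s := hs.1
      have hs2 : s < 1 := hs.2
      refine ⟨hx', ?_, ?_⟩
      · show g |x| < g |x| + s * (f |x| - g |x|)
        have : 0 < s * (f |x| - g |x|) := mul_pos hs1 (by linarith)
        linarith
      · show g |x| + s * (f |x| - g |x|) < f |x|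
        nlinarith
  have hWim : W ⊆ Φ '' (Icc (-ξ) ξ ×ˢ Icc (0 : ℝ) 1) := by
    rintro z ⟨h1, h2, h3⟩
    have hm := hmem z h1
    by_cases hd : f |z.re| = g |z.re|
    · refine ⟨(z.re, 0), ⟨abs_le.1 h1, ⟨le_rfl, zero_le_one⟩⟩, ?_⟩
      apply Complex.ext
      · rw [hΦre]
      · rw [hΦim, hFf _ hm, hGg _ hm]
        simp only [zero_mul, add_zero]
        exact le_antisymm h2 (by rw [← hd]; exact h3)
    · have hd' : 0 < f |z.re| - g |z.re| := by
        have := hgf _ hm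
        rcases lt_or_eq_of_le this with h4 | h4
        · linarith
        · exact absurd h4.symm hd
      refine ⟨(z.re, (z.im - g |z.re|) / (f |z.re| - g |z.re|)), ⟨abs_le.1 h1, ?_, ?_⟩, ?_⟩
      · exact div_nonneg (by linarith) hd'.le
      · show (z.im - g |z.re|) / (f |z.re| - g |z.re|) ≤ 1
        rw [div_le_one hd']
        linarith
      · apply Complex.ext
        · rw [hΦre]
        · rw [hΦim, hFf _ hm, hGg _ hm, div_mul_cancel₀ _ hd'.ne']
          ring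
  have hUW : U ⊆ W := fun z hz => ⟨hz.1.le, hz.2.1.le, hz.2.2.le⟩
  have hcl : closure U = W := by
    refine Subset.antisymm (closure_minimal hUW hWc) ?_
    refine hWim.trans ?_
    have h1 : Icc (-ξ) ξ ×ˢ Icc (0 : ℝ) 1 = closure (Ioo (-ξ) ξ ×ˢ Ioo (0 : ℝ) 1) := by
      rw [closure_prod_eq, closure_Ioo (by linarith), closure_Ioo (by norm_num)]
    rw [h1, hUim]
    exact image_closure_subset_closure_image hΦ
  have hdiff : W \ U = {z : ℂ | |z.re| ≤ ξ ∧ z.im = f |z.re|} ∪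
      {z : ℂ | |z.re| ≤ ξ ∧ z.im = g |z.re|} := by
    ext z
    constructor
    · rintro ⟨⟨h1, h2, h3⟩, h4⟩
      rcases lt_or_eq_of_le h1 with h5 | h5
      · by_cases h6 : z.im = f |z.re|
        · exact Or.inl ⟨h1, h6⟩
        · by_cases h7 : z.im = g |z.re|
          · exact Or.inr ⟨h1, h7⟩
          · exact absurd ⟨h5, lt_of_le_of_ne h2 (Ne.symm h7), lt_of_le_of_ne h3 h6⟩ h4
      · refine Or.inl ⟨h1, le_antisymm h3 ?_⟩
        rw [h5] at h2 ⊢
        rw [hJ]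
        exact h2
    · rintro (⟨h1, h2⟩ | ⟨h1, h2⟩)
      · refine ⟨⟨h1, ?_, h2.le⟩, fun h => absurd h.2.2 (by rw [h2]; exact lt_irrefl _)⟩
        rw [h2]
        exact hgf _ (hmem z h1)
      · refine ⟨⟨h1, h2.ge, ?_⟩, fun h => absurd h.2.1 (by rw [h2]; exact lt_irrefl _)⟩
        rw [h2]
        exact hgf _ (hmem z h1)
  have hfr : frontier U = {z : ℂ | |z.re| ≤ ξ ∧ z.im = f |z.re|} ∪
      {z : ℂ | |z.re| ≤ ξ ∧ z.im = g |z.re|} := by
    rw [hUo.frontier_eq, hcl, hdiff]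
  have hUS : U ⊆ Sᶜ := by
    intro z hz hzS
    rw [hS] at hzS
    rcases hzS with (h1 | h1) | h1
    · exact absurd h1.2 hz.2.2.ne
    · exact absurd h1.2 hz.2.1.ne'
    · exact absurd hz.1 (not_lt.2 h1.1)
  have hpre : IsPreconnected U := by
    rw [hUim]
    exact ((isPreconnected_Ioo.prod isPreconnected_Ioo).image Φ hΦ.continuousOn)
  have hz0 : Φ (0, 1 / 2) ∈ U := by
    rw [hUim]
    refine ⟨(0, 1 / 2), ⟨⟨by linarith, hξ⟩, ?_⟩, rfl⟩
    constructor <;> norm_num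
  refine ⟨?_, ⟨Φ (0, 1 / 2), hUS hz0, ?_⟩, hfr⟩
  · have h1 : IsCompact (Φ '' (Icc (-ξ) ξ ×ˢ Icc (0 : ℝ) 1)) :=
      (isCompact_Icc.prod isCompact_Icc).image hΦ
    exact h1.isBounded.subset (hUW.trans hWim)
  · refine Subset.antisymm (hpre.subset_connectedComponentIn hz0 hUS) ?_
    have hC : connectedComponentIn Sᶜ (Φ (0, 1 / 2)) ⊆ U ∪ (closure U)ᶜ := by
      intro z hz
      by_cases h1 : z ∈ U
      · exact Or.inl h1
      · refine Or.inr fun h2 => ?_
        have h3 : z ∈ frontier U := by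
          rw [hUo.frontier_eq]
          exact ⟨h2, h1⟩
        have h4 : z ∈ Sᶜ := connectedComponentIn_subset _ _ hz
        apply h4
        rw [hS]
        rw [hfr] at h3
        exact Or.inl h3
    refine IsPreconnected.subset_left_of_subset_union hUo isClosed_closure.isOpen_compl ?_ hC
      ⟨Φ (0, 1 / 2), mem_connectedComponentIn (hUS hz0), hz0⟩ isPreconnected_connectedComponentIn
    exact disjoint_compl_right.mono_left subset_closure

end Pool.Agent.Helper15.NF
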