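import Pool.Agent.Helper15.NF.DDefs

open Set MeasureTheory intervalIntegral Filter Topology

namespace Pool.Agent.Helper15.NF

variable {a b Lx : ℝ}

/-- inverse parametrisation of an increasing function on the unit interval -/
theorem J1_inv (f f' : ℝ → ℝ)
    (hf : ∀ σ ∈ Icc (0:ℝ) 1, HasDerivWithinAt f (f' σ) (Icc 0 1) σ)
    (hpos : ∀ σ ∈ Icc (0:ℝ) 1, 0 < f' σ) (hcont : ContinuousOn f' (Icc 0 1)) :
    f 0 < f 1 ∧ ∃ s : ℝ → ℝ, (∀ x ∈ Icc (f 0) (f 1), s x ∈ Icc (0:ℝ) 1 ∧ f (s x) = x) ∧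
      ContinuousOn s (Icc (f 0) (f 1)) ∧
      ∀ G : ℝ → ℝ, ContinuousOn G (Icc 0 1) →
        (∫ σ in (0:ℝ)..1, G σ * f' σ) = ∫ x in (f 0)..(f 1), G (s x) := by
  have hfc : ContinuousOn f (Icc 0 1) := fun σ hσ => (hf σ hσ).continuousWithinAt
  have hmono : StrictMonoOn f (Icc 0 1) := by
    apply strictMonoOn_of_deriv_pos (convex_Icc 0 1) hfc
    intro x hx
    rw [interior_Icc] at hx
    have h1 := (hf x (Ioo_subset_Icc_self hx)).hasDerivAt (Icc_mem_nhds hx.1 hx.2)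
    rw [h1.deriv]
    exact hpos x (Ioo_subset_Icc_self hx)
  have h01 : f 0 < f 1 := hmono (by simp) (by simp) (by norm_num)
  refine ⟨h01, ?_⟩
  have hivt : ∀ x ∈ Icc (f 0) (f 1), ∃ σ ∈ Icc (0:ℝ) 1, f σ = x := by
    intro x hx
    exact intermediate_value_Icc (by norm_num : (0:ℝ) ≤ 1) hfc hx
  choose! s hs using hivt
  have hsm : ∀ x ∈ Icc (f 0) (f 1), s x ∈ Icc (0:ℝ) 1 := fun x hx => (hs x hx).1
  have hsf : ∀ x ∈ Icc (f 0) (f 1), f (s x) = x := fun x hx => (hs x hx).2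
  have himg : ∀ σ ∈ Icc (0:ℝ) 1, f σ ∈ Icc (f 0) (f 1) := by
    intro σ hσ
    exact ⟨hmono.monotoneOn (by simp) hσ hσ.1, hmono.monotoneOn hσ (by simp) hσ.2⟩
  have hfs : ∀ σ ∈ Icc (0:ℝ) 1, s (f σ) = σ := by
    intro σ hσ
    exact hmono.injOn (hsm _ (himg σ hσ)) hσ (hsf _ (himg σ hσ))
  have hsmono : StrictMonoOn s (Icc (f 0) (f 1)) := by
    intro x hx y hy hxy
    by_contra hcon
    push Not at hcon
    have := hmono.monotoneOn (hsm y hy) (hsm x hx) hcon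
    rw [hsf x hx, hsf y hy] at this
    linarith
  have hscont : ContinuousOn s (Icc (f 0) (f 1)) := by
    have hsurj : SurjOn s (Icc (f 0) (f 1)) (Icc 0 1) := by
      intro σ hσ
      exact ⟨f σ, himg σ hσ, hfs σ hσ⟩
    have himage : s '' Icc (f 0) (f 1) = Icc 0 1 :=
      Subset.antisymm (by rintro _ ⟨x, hx, rfl⟩; exact hsm x hx) hsurj
    intro x hx
    -- use the compactness argument
    have hK : IsCompact (Icc (0:ℝ) 1) := isCompact_Icc
    rw [Metric.continuousWithinAt_iff]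
    intro ε hε
    by_contra hcon
    push Not at hcon
    -- sequence
    have hseq : ∀ n : ℕ, ∃ y ∈ Icc (f 0) (f 1), dist y x < 1 / ((n:ℝ) + 1) ∧
        ε ≤ dist (s y) (s x) := by
      intro n
      obtain ⟨y, hy, hd, he⟩ := hcon (1 / ((n:ℝ) + 1)) (by positivity)
      exact ⟨y, hy, hd, he⟩
    choose y hy hyd hye using hseq
    obtain ⟨σ, hσ, φ, hφ, hlim⟩ := hK.tendsto_subseq (fun n => hsm (y n) (hy n))
    have hy_lim : Tendsto y atTop (𝓝 x) := by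
      rw [tendsto_iff_dist_tendsto_zero]
      exact squeeze_zero (fun n => dist_nonneg) (fun n => (hyd n).le)
        tendsto_one_div_add_atTop_nhds_zero_nat
    have h1 : Tendsto (fun n => f (s (y (φ n)))) atTop (𝓝 (f σ)) := by
      have hwithin : Tendsto (fun n => s (y (φ n))) atTop (𝓝[Icc 0 1] σ) := by
        apply tendsto_nhdsWithin_of_tendsto_nhds_of_eventually_within _ hlim
        exact Eventually.of_forall (fun n => hsm _ (hy _))
      exact (hfc σ hσ).tendsto.comp hwithin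
    have h2 : Tendsto (fun n => f (s (y (φ n)))) atTop (𝓝 x) := by
      have : (fun n => f (s (y (φ n)))) = fun n => y (φ n) := by
        ext n; exact hsf _ (hy _)
      rw [this]
      exact hy_lim.comp hφ.tendsto_atTop
    have h3 : f σ = x := tendsto_nhds_unique h1 h2
    have h4 : s x = σ := by rw [← h3]; exact hfs σ hσ
    have h5 : Tendsto (fun n => dist (s (y (φ n))) (s x)) atTop (𝓝 0) := by
      rw [h4, ← tendsto_iff_dist_tendsto_zero]
      exact hlim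
    have h6 : ε ≤ 0 := ge_of_tendsto' h5 (fun n => hye (φ n))
    linarith
  refine ⟨s, fun x hx => hs x hx, hscont, ?_⟩
  intro G hG
  have huIcc : uIcc (0:ℝ) 1 = Icc 0 1 := uIcc_of_le (by norm_num)
  have key := intervalIntegral.integral_comp_mul_deriv'' (a := 0) (b := 1) (f := f) (f' := f')
    (g := fun x => G (s x)) (by rw [huIcc]; exact hfc) (by
      intro x hx
      rw [min_eq_left (by norm_num : (0:ℝ) ≤ 1), max_eq_right (by norm_num : (0:ℝ) ≤ 1)] at hx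
      exact ((hf x (Ioo_subset_Icc_self hx)).hasDerivAt
        (Icc_mem_nhds hx.1 hx.2)).hasDerivWithinAt) (by rw [huIcc]; exact hcont) (by
      rw [huIcc]
      have : f '' Icc 0 1 ⊆ Icc (f 0) (f 1) := by rintro _ ⟨σ, hσ, rfl⟩; exact himg σ hσ
      apply ContinuousOn.mono _ this
      exact hG.comp hscont hsm)
  rw [← key]
  apply intervalIntegral.integral_congr
  intro σ hσ
  rw [huIcc] at hσ
  simp only [Function.comp]
  rw [hfs σ hσ]

/-- inverse parametrisation of a decreasing function on the unit interval -/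
theorem J1_inv_anti (f f' : ℝ → ℝ)
    (hf : ∀ σ ∈ Icc (0:ℝ) 1, HasDerivWithinAt f (f' σ) (Icc 0 1) σ)
    (hneg : ∀ σ ∈ Icc (0:ℝ) 1, f' σ < 0) (hcont : ContinuousOn f' (Icc 0 1)) :
    f 1 < f 0 ∧ ∃ s : ℝ → ℝ, (∀ x ∈ Icc (f 1) (f 0), s x ∈ Icc (0:ℝ) 1 ∧ f (s x) = x) ∧
      ContinuousOn s (Icc (f 1) (f 0)) ∧
      ∀ G : ℝ → ℝ, ContinuousOn G (Icc 0 1) →
        (∫ σ in (0:ℝ)..1, G σ * (-f' σ)) = ∫ x in (f 1)..(f 0), G (s x) := by
  have hmaps : MapsTo (fun σ : ℝ => 1 - σ) (Icc 0 1) (Icc 0 1) := by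
    intro σ hσ
    exact ⟨by linarith [hσ.2], by linarith [hσ.1]⟩
  obtain ⟨h01, s, hs, hsc, hsG⟩ := J1_inv (fun σ => f (1 - σ)) (fun σ => -f' (1 - σ)) (by
      intro σ hσ
      have h1 := hf (1 - σ) (hmaps hσ)
      have h2 : HasDerivWithinAt (fun σ : ℝ => 1 - σ) (-1) (Icc 0 1) σ := by
        simpa using (hasDerivWithinAt_id σ (Icc 0 1)).const_sub 1
      have h3 := h1.comp σ h2 hmaps
      have h4 : f' (1 - σ) * (-1) = -f' (1 - σ) := by ring
      rw [h4] at h3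
      exact h3) (by
      intro σ hσ
      have := hneg (1 - σ) (hmaps hσ)
      linarith) (by
      apply ContinuousOn.neg
      exact hcont.comp (by fun_prop) hmaps)
  simp only [sub_zero, sub_self] at h01 hs hsc hsG
  refine ⟨h01, fun x => 1 - s x, ?_, ?_, ?_⟩
  · intro x hx
    exact ⟨hmaps (hs x hx).1, (hs x hx).2⟩
  · exact continuousOn_const.sub hsc
  · intro G hG
    have h1 := hsG (fun σ => G (1 - σ)) (hG.comp (by fun_prop) hmaps)
    rw [← h1]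
    have h2 := intervalIntegral.integral_comp_sub_left (a := 0) (b := 1)
      (fun σ => G σ * (-f' σ)) 1
    simp only [sub_zero, sub_self] at h2
    rw [← h2]

/-- J1 : parametrisation of the two arcs by the first coordinate at a fixed time -/
theorem graph_param (F : Flow a b Lx) {t : ℝ} (ht : t ∈ Ioo a b) (hg : F.IsGraph t) :
    0 < F.X 2 t 0 ∧ F.X 2 t 0 < Lx ∧
    ∃ sa sb sc : ℝ → ℝ,
      (∀ x ∈ Icc 0 (F.X 2 t 0), sa x ∈ Icc (0:ℝ) 1 ∧ F.X 0 t (sa x) = x) ∧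
      (∀ x ∈ Icc 0 (F.X 2 t 0), sb x ∈ Icc (0:ℝ) 1 ∧ F.X 1 t (sb x) = x) ∧
      (∀ x ∈ Icc (F.X 2 t 0) Lx, sc x ∈ Icc (0:ℝ) 1 ∧ F.X 2 t (sc x) = x) ∧
      ContinuousOn sa (Icc 0 (F.X 2 t 0)) ∧ ContinuousOn sb (Icc 0 (F.X 2 t 0)) ∧
      ContinuousOn sc (Icc (F.X 2 t 0) Lx) ∧
      (∀ G : ℝ → ℝ, ContinuousOn G (Icc 0 1) →
        F.ell 0 t * (∫ σ in (0:ℝ)..1, G σ * (-Real.cos (F.th 0 t σ + off 0))) =
          ∫ x in (0:ℝ)..(F.X 2 t 0), G (sa x)) ∧
      (∀ G : ℝ → ℝ, ContinuousOn G (Icc 0 1) →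
        F.ell 1 t * (∫ σ in (0:ℝ)..1, G σ * (-Real.cos (F.th 1 t σ + off 1))) =
          ∫ x in (0:ℝ)..(F.X 2 t 0), G (sb x)) ∧
      (∀ G : ℝ → ℝ, ContinuousOn G (Icc 0 1) →
        F.ell 2 t * (∫ σ in (0:ℝ)..1, G σ * Real.cos (F.th 2 t σ + off 2)) =
          ∫ x in (F.X 2 t 0)..Lx, G (sc x)) := by
  have hcth : ∀ i, ContinuousOn (F.th i t) (Icc 0 1) := fun i σ hσ =>
    (F.th_s i t ht σ hσ).continuousWithinAt
  have hcc : ∀ i, ContinuousOn (fun σ => F.ell i t * Real.cos (F.th i t σ + off i)) (Icc 0 1) := by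
    intro i
    have := hcth i
    fun_prop
  obtain ⟨h0, sa, hsa, hsac, hsaG⟩ := J1_inv_anti (F.X 0 t)
    (fun σ => F.ell 0 t * Real.cos (F.th 0 t σ + off 0)) (F.X_s 0 t ht)
    (fun σ hσ => mul_neg_of_pos_of_neg (F.ell_pos 0 t ht) (hg σ hσ).1) (hcc 0)
  obtain ⟨h1, sb, hsb, hsbc, hsbG⟩ := J1_inv_anti (F.X 1 t)
    (fun σ => F.ell 1 t * Real.cos (F.th 1 t σ + off 1)) (F.X_s 1 t ht)
    (fun σ hσ => mul_neg_of_pos_of_neg (F.ell_pos 1 t ht) (hg σ hσ).2.1) (hcc 1)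
  obtain ⟨h2, sc, hsc, hscc, hscG⟩ := J1_inv (F.X 2 t)
    (fun σ => F.ell 2 t * Real.cos (F.th 2 t σ + off 2)) (F.X_s 2 t ht)
    (fun σ hσ => mul_pos (F.ell_pos 2 t ht) (hg σ hσ).2.2) (hcc 2)
  rw [F.X_axis0 t ht, F.X_J 0 t ht] at *
  rw [F.X_axis1 t ht, F.X_J 1 t ht] at *
  rw [F.X_far t ht] at *
  refine ⟨h0, h2, sa, sb, sc, hsa, hsb, hsc, hsac, hsbc, hscc, ?_, ?_, ?_⟩
  · intro G hG
    rw [← hsaG G hG, ← intervalIntegral.integral_const_mul]
    congr 1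
    ext σ
    ring
  · intro G hG
    rw [← hsbG G hG, ← intervalIntegral.integral_const_mul]
    congr 1
    ext σ
    ring
  · intro G hG
    rw [← hscG G hG, ← intervalIntegral.integral_const_mul]
    congr 1
    ext σ
    ring

end Pool.Agent.Helper15.NF
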