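import Pool.Agent.Helper15.NF.FA
import Pool.Agent.Helper15.NF.J1

open Set MeasureTheory intervalIntegral Filter Topology

namespace Pool.Agent.Helper15.NF

variable {a b Lx : ℝ}

theorem FC_sub (st : Star) : Icc (0:ℝ) st.ls ⊆ Icc (0:ℝ) 1.5 :=
  Icc_subset_Icc_right (by linarith [st.ls_hi])

theorem FC_ls0 (st : Star) : 0 ≤ st.ls := by linarith [st.ls_lo]

/-- monotonicity on `[0, ls]` from a nonnegative one-sided derivative -/
theorem FC_mono (st : Star) {f f' : ℝ → ℝ}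
    (hf : ∀ s ∈ Icc (0:ℝ) st.ls, HasDerivWithinAt f (f' s) (Icc 0 1.5) s)
    (hp : ∀ s ∈ Icc (0:ℝ) st.ls, 0 ≤ f' s) : MonotoneOn f (Icc 0 st.ls) := by
  have hc : ContinuousOn f (Icc 0 st.ls) := fun s hs =>
    ((hf s hs).continuousWithinAt).mono (FC_sub st)
  refine monotoneOn_of_deriv_nonneg (convex_Icc _ _) hc ?_ ?_
  · intro s hs
    rw [interior_Icc] at hs
    have h1 := (hf s (Ioo_subset_Icc_self hs)).hasDerivAt
      (Icc_mem_nhds hs.1 (by linarith [hs.2, st.ls_hi]))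
    exact h1.differentiableAt.differentiableWithinAt
  · intro s hs
    rw [interior_Icc] at hs
    have h1 := (hf s (Ioo_subset_Icc_self hs)).hasDerivAt
      (Icc_mem_nhds hs.1 (by linarith [hs.2, st.ls_hi]))
    rw [h1.deriv]
    exact hp s (Ioo_subset_Icc_self hs)

theorem FC_a_lower (st : Star) {s : ℝ} (hs : s ∈ Icc (0:ℝ) st.ls) : 0.6 * s ≤ st.a s := by
  have h := FC_mono st (f := fun s => st.a s - 0.6 * s)
    (f' := fun s => (st.x s * Real.sin (st.a s) + st.y s * Real.cos (st.a s) + 0) - 0.6 * 1)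
    (fun u hu => (st.arc.a_s u (FC_sub st hu)).sub
      (((hasDerivWithinAt_id u _).const_mul (0.6:ℝ))))
    (fun u hu => by
      have := st.h_lo u hu
      linarith)
  have h1 := h (left_mem_Icc.2 (FC_ls0 st)) hs hs.1
  simp only [st.arc.a_0] at h1
  linarith

theorem FC_a_mono (st : Star) : MonotoneOn st.a (Icc 0 st.ls) :=
  FC_mono st (f' := fun s => (st.x s * Real.sin (st.a s) + st.y s * Real.cos (st.a s) + 0))
    (fun u hu => st.arc.a_s u (FC_sub st hu))
    (fun u hu => by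
      have := st.h_lo u hu
      linarith)

theorem FC_a_range (st : Star) {s : ℝ} (hs : s ∈ Icc (0:ℝ) st.ls) :
    0 ≤ st.a s ∧ st.a s ≤ Real.pi / 3 := by
  constructor
  · have := FC_a_lower st hs
    have := hs.1
    linarith
  · rw [← st.a_ls]
    exact FC_a_mono st hs (right_mem_Icc.2 (FC_ls0 st)) hs.2

theorem FC_sin_nonneg (st : Star) {s : ℝ} (hs : s ∈ Icc (0:ℝ) st.ls) : 0 ≤ Real.sin (st.a s) := by
  obtain ⟨h1, h2⟩ := FC_a_range st hs
  exact Real.sin_nonneg_of_nonneg_of_le_pi h1 (by linarith [Real.pi_pos])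

theorem FC_cos_nonneg (st : Star) {s : ℝ} (hs : s ∈ Icc (0:ℝ) st.ls) : 0 ≤ Real.cos (st.a s) := by
  obtain ⟨h1, h2⟩ := FC_a_range st hs
  exact Real.cos_nonneg_of_neg_pi_div_two_le_of_le (by linarith [Real.pi_pos])
    (by linarith [Real.pi_pos])

theorem FC_x_mono (st : Star) : MonotoneOn st.x (Icc 0 st.ls) :=
  FC_mono st (f' := fun s => Real.cos (st.a s)) (fun u hu => st.arc.x_s u (FC_sub st hu))
    (fun u hu => FC_cos_nonneg st hu)

theorem FC_x_range (st : Star) {s : ℝ} (hs : s ∈ Icc (0:ℝ) st.ls) :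
    0 ≤ st.x s ∧ st.x s ≤ 1.197 := by
  constructor
  · rw [← st.arc.x_0]
    exact FC_x_mono st (left_mem_Icc.2 (FC_ls0 st)) hs hs.1
  · exact (FC_x_mono st hs (right_mem_Icc.2 (FC_ls0 st)) hs.2).trans st.xi_hi

theorem FC_y_anti (st : Star) : MonotoneOn (fun s => -st.y s) (Icc 0 st.ls) :=
  FC_mono st (f' := fun s => -(-Real.sin (st.a s)))
    (fun u hu => (st.arc.y_s u (FC_sub st hu)).neg)
    (fun u hu => by
      have := FC_sin_nonneg st hu
      linarith)

theorem FC_y_range (st : Star) {s : ℝ} (hs : s ∈ Icc (0:ℝ) st.ls) :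
    0 ≤ st.y s ∧ st.y s ≤ 0.6135 := by
  constructor
  · have h := FC_y_anti st hs (right_mem_Icc.2 (FC_ls0 st)) hs.2
    simp only [st.y_ls] at h
    linarith
  · have h := FC_y_anti st (left_mem_Icc.2 (FC_ls0 st)) hs hs.1
    simp only at h
    linarith [st.ys_hi]

theorem FC_y_lower (st : Star) {s : ℝ} (hs : s ∈ Icc (0:ℝ) st.ls) : 0.610 - s ≤ st.y s := by
  have h := FC_mono st (f := fun s => st.y s + s) (f' := fun s => -Real.sin (st.a s) + 1)
    (fun u hu => (st.arc.y_s u (FC_sub st hu)).add (hasDerivWithinAt_id u _))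
    (fun u hu => by
      have := Real.sin_le_one (st.a u)
      linarith)
  have h1 := h (left_mem_Icc.2 (FC_ls0 st)) hs hs.1
  simp only at h1
  linarith [st.ys_lo]

theorem FC_sg_mem (st : Star) {σ : ℝ} (hσ : σ ∈ Icc (0:ℝ) 1) : st.sg σ ∈ Icc (0:ℝ) st.ls := by
  have h0 := FC_ls0 st
  unfold Star.sg
  constructor
  · exact mul_nonneg h0 (by linarith [hσ.2])
  · nlinarith [hσ.1]

theorem FC_sg_anti (st : Star) {σ τ : ℝ} (h : σ ≤ τ) : st.sg τ ≤ st.sg σ := by
  have h0 := FC_ls0 st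
  unfold Star.sg
  nlinarith

theorem FC_rr_pos {T t : ℝ} (hT : b ≤ T) (ht : t ∈ Ioo a b) : 0 < rr T t := by
  unfold rr
  exact Real.sqrt_pos.2 (by linarith [ht.2])

/-- strict monotonicity of the height along a piece of an edge -/
theorem FC_Y_mono (F : Flow a b Lx) {t : ℝ} (ht : t ∈ Ioo a b) (i : Fin 3) {τ : ℝ}
    (hτ : τ ∈ Icc (0:ℝ) 1) (h0 : 0 < τ)
    (hp : ∀ s ∈ Ioo 0 τ, 0 < Real.sin (F.th i t s + off i)) : F.Y i t 0 < F.Y i t τ := by
  have hsub : Icc 0 τ ⊆ Icc (0:ℝ) 1 := Icc_subset_Icc_right hτ.2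
  have hc : ContinuousOn (F.Y i t) (Icc 0 τ) := fun s hs =>
    ((F.Y_s i t ht s (hsub hs)).continuousWithinAt).mono hsub
  refine strictMonoOn_of_deriv_pos (convex_Icc 0 τ) hc (fun s hs => ?_) (left_mem_Icc.2 h0.le)
    (right_mem_Icc.2 h0.le) h0
  rw [interior_Icc] at hs
  rw [((F.Y_s i t ht s (hsub (Ioo_subset_Icc_self hs))).hasDerivAt
    (Icc_mem_nhds hs.1 (hs.2.trans_le hτ.2))).deriv]
  exact mul_pos (F.ell_pos i t ht) (hp s hs)

theorem FC_Y_anti (F : Flow a b Lx) {t : ℝ} (ht : t ∈ Ioo a b) (i : Fin 3) {τ : ℝ}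
    (hτ : τ ∈ Icc (0:ℝ) 1) (h0 : 0 < τ)
    (hp : ∀ s ∈ Ioo 0 τ, Real.sin (F.th i t s + off i) < 0) : F.Y i t τ < F.Y i t 0 := by
  have hsub : Icc 0 τ ⊆ Icc (0:ℝ) 1 := Icc_subset_Icc_right hτ.2
  have hc : ContinuousOn (F.Y i t) (Icc 0 τ) := fun s hs =>
    ((F.Y_s i t ht s (hsub hs)).continuousWithinAt).mono hsub
  refine strictAntiOn_of_deriv_neg (convex_Icc 0 τ) hc (fun s hs => ?_) (left_mem_Icc.2 h0.le)
    (right_mem_Icc.2 h0.le) h0
  rw [interior_Icc] at hs
  rw [((F.Y_s i t ht s (hsub (Ioo_subset_Icc_self hs))).hasDerivAt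
    (Icc_mem_nhds hs.1 (hs.2.trans_le hτ.2))).deriv]
  exact mul_neg_of_pos_of_neg (F.ell_pos i t ht) (hp s hs)

/-- FC : the arcs are separated -/
theorem near_sep (st : Star) (F : Flow a b Lx) {T t y0 : ℝ} (hT : b ≤ T) (ht : t ∈ Ioo a b)
    (hN : Near st 0.0005 (F.raw (rr T t) y0 t)) (hg : F.IsGraph t) : F.Sep t := by
  have hr := FC_rr_pos hT ht
  intro σ hσ σ' hσ' _
  have hs := FC_sg_mem st hσ
  have hs' := FC_sg_mem st hσ'
  -- heights from `Near`
  have hy0 := abs_le.1 (hN.y0 σ hσ)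
  have hy1 := abs_le.1 (hN.y1 σ' hσ')
  simp only [Flow.raw] at hy0 hy1
  have hya := FC_y_range st hs
  have hyb := FC_y_range st hs'
  by_cases hcase : st.sg σ ≤ 0.001 ∨ st.sg σ' ≤ 0.001
  · left
    have hsum : 0.609 ≤ st.y (st.sg σ) + st.y (st.sg σ') := by
      rcases hcase with h | h
      · have := FC_y_lower st hs
        linarith [hyb.1]
      · have := FC_y_lower st hs'
        linarith [hya.1]
    have h1 : (F.Y 1 t σ' - y0) / rr T t < (F.Y 0 t σ - y0) / rr T t := by linarith [hy0.1, hy1.2]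
    have h2 := (div_lt_div_iff_of_pos_right hr).1 h1
    linarith
  · push Not at hcase
    obtain ⟨hca, hcb⟩ := hcase
    have hJ : F.Y 0 t 0 = F.Y 1 t 0 := (F.Y_J 0 t ht).trans (F.Y_J 1 t ht).symm
    have hoff0 : off 0 = 2 * Real.pi / 3 := rfl
    have hoff1 : off 1 = -(2 * Real.pi / 3) := rfl
    have up : 0 < σ → F.Y 0 t 0 < F.Y 0 t σ := by
      intro h0
      refine FC_Y_mono F ht 0 hσ h0 fun s hs0 => ?_
      have hs1 : s ∈ Icc (0:ℝ) 1 := ⟨hs0.1.le, hs0.2.le.trans hσ.2⟩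
      have hth := abs_le.1 (hN.th0 s hs1)
      simp only [Flow.raw] at hth
      have hsgm := FC_sg_mem st hs1
      have ha := FC_a_lower st hsgm
      have ha2 := (FC_a_range st hsgm).2
      have hmon := FC_sg_anti st hs0.2.le
      rw [hoff0]
      have e : F.th 0 t s + 2 * Real.pi / 3 =
          Real.pi - (st.a (st.sg s) - (F.th 0 t s - (Real.pi / 3 - st.a (st.sg s)))) := by ring
      rw [e, Real.sin_pi_sub]
      apply Real.sin_pos_of_pos_of_lt_pi
      · linarith [hth.2]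
      · have := Real.pi_gt_three
        linarith [hth.1]
    have dn : 0 < σ' → F.Y 1 t σ' < F.Y 1 t 0 := by
      intro h0
      refine FC_Y_anti F ht 1 hσ' h0 fun s hs0 => ?_
      have hs1 : s ∈ Icc (0:ℝ) 1 := ⟨hs0.1.le, hs0.2.le.trans hσ'.2⟩
      have hth := abs_le.1 (hN.th1 s hs1)
      simp only [Flow.raw] at hth
      have hsgm := FC_sg_mem st hs1
      have ha := FC_a_lower st hsgm
      have ha2 := (FC_a_range st hsgm).2
      have hmon := FC_sg_anti st hs0.2.le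
      rw [hoff1]
      have e : F.th 1 t s + -(2 * Real.pi / 3) =
          (st.a (st.sg s) + (F.th 1 t s - (st.a (st.sg s) - Real.pi / 3))) - Real.pi := by ring
      rw [e, Real.sin_sub_pi]
      have : 0 < Real.sin (st.a (st.sg s) + (F.th 1 t s - (st.a (st.sg s) - Real.pi / 3))) := by
        apply Real.sin_pos_of_pos_of_lt_pi
        · linarith [hth.1]
        · have := Real.pi_gt_three
          linarith [hth.2]
      linarith
    rcases hσ.1.eq_or_lt with h0 | h0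
    · rcases hσ'.1.eq_or_lt with h0' | h0'
      · exact Or.inr ⟨h0.symm, h0'.symm⟩
      · left
        have := dn h0'
        rw [← h0]
        linarith
    · left
      have h1 := up h0
      rcases hσ'.1.eq_or_lt with h0' | h0'
      · rw [← h0']
        linarith
      · have := dn h0'
        linarith

/-- FC2 : the arcs are contained in a small ball -/
theorem near_ball (st : Star) (F : Flow a b Lx) {T t y0 : ℝ} (hT : b ≤ T) (ht : t ∈ Ioo a b)
    (hN : Near st 0.0005 (F.raw (rr T t) y0 t)) :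
    (∀ i : Fin 3, i ≠ 2 → F.ell i t ≤ 1.5 * rr T t ∧ ∀ σ ∈ Icc (0:ℝ) 1,
      |F.X i t σ| ≤ 1.3 * rr T t ∧ |F.Y i t σ - y0| ≤ 0.7 * rr T t) := by
  have hr := FC_rr_pos hT ht
  have key : ∀ {u c : ℝ}, |u / rr T t| ≤ c → |u| ≤ c * rr T t := by
    intro u c h
    rw [abs_div, abs_of_pos hr, div_le_iff₀ hr] at h
    exact h
  have key2 : ∀ {u c : ℝ}, u / rr T t ≤ c → u ≤ c * rr T t := by
    intro u c h
    rwa [div_le_iff₀ hr] at h
  intro i hi
  have hi' : i = 0 ∨ i = 1 := by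
    fin_cases i <;> simp_all
  rcases hi' with rfl | rfl
  · refine ⟨?_, fun σ hσ => ⟨key ?_, key ?_⟩⟩
    · have h := (abs_le.1 hN.L0).2
      simp only [Flow.raw] at h
      exact key2 (by linarith [st.ls_hi])
    · have h := abs_le.1 (hN.x0 σ hσ)
      simp only [Flow.raw] at h
      obtain ⟨h1, h2⟩ := FC_x_range st (FC_sg_mem st hσ)
      rw [abs_le]
      constructor <;> linarith [h.1, h.2]
    · have h := abs_le.1 (hN.y0 σ hσ)
      simp only [Flow.raw] at h
      obtain ⟨h1, h2⟩ := FC_y_range st (FC_sg_mem st hσ)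
      rw [abs_le]
      constructor <;> linarith [h.1, h.2]
  · refine ⟨?_, fun σ hσ => ⟨key ?_, key ?_⟩⟩
    · have h := (abs_le.1 hN.L1).2
      simp only [Flow.raw] at h
      exact key2 (by linarith [st.ls_hi])
    · have h := abs_le.1 (hN.x1 σ hσ)
      simp only [Flow.raw] at h
      obtain ⟨h1, h2⟩ := FC_x_range st (FC_sg_mem st hσ)
      rw [abs_le]
      constructor <;> linarith [h.1, h.2]
    · have h := abs_le.1 (hN.y1 σ hσ)
      simp only [Flow.raw] at h
      obtain ⟨h1, h2⟩ := FC_y_range st (FC_sg_mem st hσ)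
      rw [abs_le]
      constructor <;> linarith [h.1, h.2]

end Pool.Agent.Helper15.NF
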