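import Pool.Agent.Helper15.NF.FC
import Pool.Agent.Helper15.NF.FB

open Set MeasureTheory intervalIntegral Filter Topology

namespace Pool.Agent.Helper15.NF

variable {a b Lx : ℝ}

theorem fd_anti {f f' : ℝ → ℝ} (hf : ∀ σ ∈ Icc (0:ℝ) 1, HasDerivWithinAt f (f' σ) (Icc 0 1) σ)
    (hneg : ∀ σ ∈ Icc (0:ℝ) 1, f' σ < 0) : StrictAntiOn f (Icc 0 1) := by
  have hfc : ContinuousOn f (Icc 0 1) := fun σ hσ => (hf σ hσ).continuousWithinAt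
  apply strictAntiOn_of_deriv_neg (convex_Icc 0 1) hfc
  intro x hx
  rw [interior_Icc] at hx
  rw [((hf x (Ioo_subset_Icc_self hx)).hasDerivAt (Icc_mem_nhds hx.1 hx.2)).deriv]
  exact hneg x (Ioo_subset_Icc_self hx)

theorem fd_mono {f f' : ℝ → ℝ} (hf : ∀ σ ∈ Icc (0:ℝ) 1, HasDerivWithinAt f (f' σ) (Icc 0 1) σ)
    (hpos : ∀ σ ∈ Icc (0:ℝ) 1, 0 < f' σ) : StrictMonoOn f (Icc 0 1) := by
  have hfc : ContinuousOn f (Icc 0 1) := fun σ hσ => (hf σ hσ).continuousWithinAt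
  apply strictMonoOn_of_deriv_pos (convex_Icc 0 1) hfc
  intro x hx
  rw [interior_Icc] at hx
  rw [((hf x (Ioo_subset_Icc_self hx)).hasDerivAt (Icc_mem_nhds hx.1 hx.2)).deriv]
  exact hpos x (Ioo_subset_Icc_self hx)

theorem fd_slice (F : Flow a b Lx) {t : ℝ} (ht : t ∈ Ioo a b) (hg : F.IsGraph t) (hs : F.Sep t)
    {A0 A1 A2 A3 S : Set ℂ}
    (hA0 : A0 = {z : ℂ | ∃ σ ∈ Icc (0:ℝ) 1, |z.re| = F.X 0 t σ ∧ z.im = F.Y 0 t σ})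
    (hA1 : A1 = {z : ℂ | ∃ σ ∈ Icc (0:ℝ) 1, |z.re| = F.X 1 t σ ∧ z.im = F.Y 1 t σ})
    (hA2 : A2 = {z : ℂ | ∃ σ ∈ Icc (0:ℝ) 1, z.re = F.X 2 t σ ∧ z.im = F.Y 2 t σ})
    (hA3 : A3 = {z : ℂ | ∃ σ ∈ Icc (0:ℝ) 1, -z.re = F.X 2 t σ ∧ z.im = F.Y 2 t σ})
    (hS : S = A0 ∪ A1 ∪ (A2 ∪ A3)) :
    ∃ V : Set ℂ, Bornology.IsBounded V ∧ (∃ z ∈ Sᶜ, V = connectedComponentIn Sᶜ z) ∧
      frontier V = A0 ∪ A1 ∧ ∀ z ∈ V, ∃ σ ∈ Icc (0:ℝ) 1, ∃ σ' ∈ Icc (0:ℝ) 1,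
        |z.re| = F.X 0 t σ ∧ |z.re| = F.X 1 t σ' ∧ z.im < F.Y 0 t σ ∧ F.Y 1 t σ' < z.im := by
  obtain ⟨hξ, hξL, sa, sb, sc, hsa, hsb, hsc, hsac, hsbc, hscc, -, -, -⟩ := graph_param F ht hg
  set ξ := F.X 2 t 0 with hξd
  have h0 : (0:ℝ) ∈ Icc (0:ℝ) 1 := ⟨le_rfl, zero_le_one⟩
  have h1 : (1:ℝ) ∈ Icc (0:ℝ) 1 := ⟨zero_le_one, le_rfl⟩
  have hm0 : StrictAntiOn (F.X 0 t) (Icc 0 1) := fd_anti (F.X_s 0 t ht)
    (fun σ hσ => mul_neg_of_pos_of_neg (F.ell_pos 0 t ht) (hg σ hσ).1)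
  have hm1 : StrictAntiOn (F.X 1 t) (Icc 0 1) := fd_anti (F.X_s 1 t ht)
    (fun σ hσ => mul_neg_of_pos_of_neg (F.ell_pos 1 t ht) (hg σ hσ).2.1)
  have hm2 : StrictMonoOn (F.X 2 t) (Icc 0 1) := fd_mono (F.X_s 2 t ht)
    (fun σ hσ => mul_pos (F.ell_pos 2 t ht) (hg σ hσ).2.2)
  have hJ0 : F.X 0 t 0 = ξ := F.X_J 0 t ht
  have hJ1 : F.X 1 t 0 = ξ := F.X_J 1 t ht
  have hr0 : ∀ σ ∈ Icc (0:ℝ) 1, F.X 0 t σ ∈ Icc 0 ξ := by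
    intro σ hσ
    constructor
    · rw [← F.X_axis0 t ht]
      exact hm0.antitoneOn hσ h1 hσ.2
    · rw [← hJ0]
      exact hm0.antitoneOn h0 hσ hσ.1
  have hr1 : ∀ σ ∈ Icc (0:ℝ) 1, F.X 1 t σ ∈ Icc 0 ξ := by
    intro σ hσ
    constructor
    · rw [← F.X_axis1 t ht]
      exact hm1.antitoneOn hσ h1 hσ.2
    · rw [← hJ1]
      exact hm1.antitoneOn h0 hσ hσ.1
  have hr2 : ∀ σ ∈ Icc (0:ℝ) 1, F.X 2 t σ ∈ Icc ξ Lx := by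
    intro σ hσ
    constructor
    · rw [hξd]
      exact hm2.monotoneOn h0 hσ hσ.1
    · exact (hm2.monotoneOn hσ h1 hσ.2).trans (F.X_far t ht).le
  have hia : ∀ σ ∈ Icc (0:ℝ) 1, sa (F.X 0 t σ) = σ := fun σ hσ =>
    hm0.injOn (hsa _ (hr0 σ hσ)).1 hσ (hsa _ (hr0 σ hσ)).2
  have hib : ∀ σ ∈ Icc (0:ℝ) 1, sb (F.X 1 t σ) = σ := fun σ hσ =>
    hm1.injOn (hsb _ (hr1 σ hσ)).1 hσ (hsb _ (hr1 σ hσ)).2
  have hic : ∀ σ ∈ Icc (0:ℝ) 1, sc (F.X 2 t σ) = σ := fun σ hσ =>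
    hm2.injOn (hsc _ (hr2 σ hσ)).1 hσ (hsc _ (hr2 σ hσ)).2
  have hyc : ∀ i, ContinuousOn (F.Y i t) (Icc 0 1) := fun i σ hσ =>
    (F.Y_s i t ht σ hσ).continuousWithinAt
  have hA0' : A0 = {z : ℂ | |z.re| ≤ ξ ∧ z.im = F.Y 0 t (sa |z.re|)} := by
    rw [hA0]
    ext z
    constructor
    · rintro ⟨σ, hσ, hz1, hz2⟩
      refine ⟨?_, ?_⟩
      · rw [hz1]; exact (hr0 σ hσ).2
      · rw [hz1, hia σ hσ, hz2]
    · rintro ⟨hz1, hz2⟩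
      obtain ⟨h3, h4⟩ := hsa |z.re| ⟨abs_nonneg _, hz1⟩
      exact ⟨_, h3, h4.symm, hz2⟩
  have hA1' : A1 = {z : ℂ | |z.re| ≤ ξ ∧ z.im = F.Y 1 t (sb |z.re|)} := by
    rw [hA1]
    ext z
    constructor
    · rintro ⟨σ, hσ, hz1, hz2⟩
      refine ⟨?_, ?_⟩
      · rw [hz1]; exact (hr1 σ hσ).2
      · rw [hz1, hib σ hσ, hz2]
    · rintro ⟨hz1, hz2⟩
      obtain ⟨h3, h4⟩ := hsb |z.re| ⟨abs_nonneg _, hz1⟩
      exact ⟨_, h3, h4.symm, hz2⟩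
  have hA23 : A2 ∪ A3 = {z : ℂ | ξ ≤ |z.re| ∧ |z.re| ≤ Lx ∧ z.im = F.Y 2 t (sc |z.re|)} := by
    rw [hA2, hA3]
    ext z
    constructor
    · rintro (⟨σ, hσ, hz1, hz2⟩ | ⟨σ, hσ, hz1, hz2⟩)
      · have h3 := hr2 σ hσ
        have h4 : |z.re| = F.X 2 t σ := by
          rw [hz1]; exact abs_of_nonneg (hξ.le.trans h3.1)
        refine ⟨?_, ?_, ?_⟩
        · rw [h4]; exact h3.1
        · rw [h4]; exact h3.2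
        · rw [h4, hic σ hσ, hz2]
      · have h3 := hr2 σ hσ
        have h4 : |z.re| = F.X 2 t σ := by
          rw [← abs_neg, hz1]; exact abs_of_nonneg (hξ.le.trans h3.1)
        refine ⟨?_, ?_, ?_⟩
        · rw [h4]; exact h3.1
        · rw [h4]; exact h3.2
        · rw [h4, hic σ hσ, hz2]
    · rintro ⟨hz1, hz2, hz3⟩
      obtain ⟨h3, h4⟩ := hsc |z.re| ⟨hz1, hz2⟩
      rcases abs_choice z.re with h5 | h5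
      · left
        exact ⟨_, h3, by rw [h4, h5], hz3⟩
      · right
        exact ⟨_, h3, by rw [h4, h5], hz3⟩
  have key := region_lens hξ hξL (f := fun x => F.Y 0 t (sa x)) (g := fun x => F.Y 1 t (sb x))
    (h := fun x => F.Y 2 t (sc x))
    ((hyc 0).comp hsac (fun x hx => (hsa x hx).1)) ((hyc 1).comp hsbc (fun x hx => (hsb x hx).1))
    ((hyc 2).comp hscc (fun x hx => (hsc x hx).1))
    (by
      intro x hx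
      have hx' : x ∈ Icc 0 ξ := ⟨hx.1, hx.2.le⟩
      obtain ⟨h3, h4⟩ := hsa x hx'
      obtain ⟨h5, h6⟩ := hsb x hx'
      rcases hs (sa x) h3 (sb x) h5 (by rw [h4, h6]) with h7 | ⟨h7, -⟩
      · exact h7
      · exfalso
        rw [h7, hJ0] at h4
        exact absurd h4 hx.2.ne')
    (by
      have h3 := hia 0 h0
      have h4 := hib 0 h0
      rw [hJ0] at h3
      rw [hJ1] at h4
      show F.Y 0 t (sa ξ) = F.Y 1 t (sb ξ)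
      rw [h3, h4, F.Y_J 0 t ht, F.Y_J 1 t ht])
    (by
      have h3 := hia 0 h0
      have h4 := hic 0 h0
      rw [hJ0] at h3
      rw [← hξd] at h4
      show F.Y 2 t (sc ξ) = F.Y 0 t (sa ξ)
      rw [h3, h4, F.Y_J 0 t ht])
    (S := S) (by rw [hS, hA23, hA0', hA1'])
  refine ⟨_, key.1, key.2.1, ?_, ?_⟩
  · rw [key.2.2, hA0', hA1']
  · rintro z ⟨hz1, hz2, hz3⟩
    have hx' : |z.re| ∈ Icc 0 ξ := ⟨abs_nonneg _, hz1.le⟩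
    obtain ⟨h3, h4⟩ := hsa _ hx'
    obtain ⟨h5, h6⟩ := hsb _ hx'
    exact ⟨_, h3, _, h5, h4.symm, h6.symm, hz3, hz2⟩

/-- FD : the region of the doubled network -/
theorem lens_region (F : Flow a b Lx) {t0 : ℝ} (ht0 : t0 ∈ Ioo a b)
    (hg : ∀ t ∈ Ioo a b, F.IsGraph t) (hs : ∀ t ∈ Ioo a b, F.Sep t)
    (N : NetworkFlow 4 2 (b - t0))
    (hN : ∀ t ∈ Ico 0 (b - t0),
        N.curve 0 t = {z : ℂ | ∃ σ ∈ Icc (0:ℝ) 1, |z.re| = F.X 0 (t0 + t) σ ∧ z.im = F.Y 0 (t0 + t) σ} ∧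
        N.curve 1 t = {z : ℂ | ∃ σ ∈ Icc (0:ℝ) 1, |z.re| = F.X 1 (t0 + t) σ ∧ z.im = F.Y 1 (t0 + t) σ} ∧
        N.curve 2 t = {z : ℂ | ∃ σ ∈ Icc (0:ℝ) 1, z.re = F.X 2 (t0 + t) σ ∧ z.im = F.Y 2 (t0 + t) σ} ∧
        N.curve 3 t = {z : ℂ | ∃ σ ∈ Icc (0:ℝ) 1, -z.re = F.X 2 (t0 + t) σ ∧ z.im = F.Y 2 (t0 + t) σ}) :
    ∃ U : ℝ → Set ℂ, N.RegionFlow U {0, 1} ∧
      ∀ t ∈ Ico 0 (b - t0), ∀ z ∈ U t, ∃ σ ∈ Icc (0:ℝ) 1, ∃ σ' ∈ Icc (0:ℝ) 1,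
        |z.re| = F.X 0 (t0 + t) σ ∧ |z.re| = F.X 1 (t0 + t) σ' ∧
        z.im < F.Y 0 (t0 + t) σ ∧ F.Y 1 (t0 + t) σ' < z.im := by
  have hex : ∀ t ∈ Ico 0 (b - t0), ∃ V : Set ℂ, (N.IsRegion t V ∧
      frontier V = ⋃ i ∈ ({0, 1} : Set (Fin 4)), N.curve i t) ∧
      ∀ z ∈ V, ∃ σ ∈ Icc (0:ℝ) 1, ∃ σ' ∈ Icc (0:ℝ) 1,
        |z.re| = F.X 0 (t0 + t) σ ∧ |z.re| = F.X 1 (t0 + t) σ' ∧
        z.im < F.Y 0 (t0 + t) σ ∧ F.Y 1 (t0 + t) σ' < z.im := by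
    intro t ht
    have htt : t0 + t ∈ Ioo a b := ⟨by linarith [ht0.1, ht.1], by linarith [ht.2]⟩
    obtain ⟨h0, h1, h2, h3⟩ := hN t ht
    have hnet : N.net t = N.curve 0 t ∪ N.curve 1 t ∪ (N.curve 2 t ∪ N.curve 3 t) := by
      unfold NetworkFlow.net
      ext z
      simp only [mem_iUnion, mem_union]
      constructor
      · rintro ⟨i, hi⟩
        fin_cases i
        · exact Or.inl (Or.inl hi)
        · exact Or.inl (Or.inr hi)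
        · exact Or.inr (Or.inl hi)
        · exact Or.inr (Or.inr hi)
      · rintro ((hi | hi) | (hi | hi))
        exacts [⟨0, hi⟩, ⟨1, hi⟩, ⟨2, hi⟩, ⟨3, hi⟩]
    obtain ⟨V, hV1, hV2, hV3, hV4⟩ := fd_slice F htt (hg _ htt) (hs _ htt) h0 h1 h2 h3 hnet
    refine ⟨V, ⟨⟨hV1, hV2⟩, ?_⟩, hV4⟩
    rw [hV3]
    simp
  choose! U hU using hex
  exact ⟨U, fun t ht => (hU t ht).1, fun t ht => (hU t ht).2⟩

end Pool.Agent.Helper15.NF
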