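import Mathlib

/-!
Curvature flow of regular networks in the plane `ℂ`: definitions for the statement.
-/

open Set MeasureTheory Filter Topology

namespace Pool.Agent.Helper15.NF

/-- A curvature flow on `[0,T)` of an embedded regular network in the plane `ℂ` consisting of `n`
curves and `m` triple junctions, `γ i t x` = position at time `t` of the point with parameter
`x ∈ [0,1]` on curve `i`.  -/
structure NetworkFlow (n m : ℕ) (T : ℝ) where
  γ : Fin n → ℝ → ℝ → ℂ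
  γx : Fin n → ℝ → ℝ → ℂ
  γxx : Fin n → ℝ → ℝ → ℂ
  γt : Fin n → ℝ → ℝ → ℂ
  /-- `C²` in space, `C¹` in time -/
  cont : ∀ i, ContinuousOn (fun p : ℝ × ℝ => γ i p.1 p.2) (Ico 0 T ×ˢ Icc 0 1)
  cont_x : ∀ i, ContinuousOn (fun p : ℝ × ℝ => γx i p.1 p.2) (Ico 0 T ×ˢ Icc 0 1)
  cont_xx : ∀ i, ContinuousOn (fun p : ℝ × ℝ => γxx i p.1 p.2) (Ico 0 T ×ˢ Icc 0 1)
  cont_t : ∀ i, ContinuousOn (fun p : ℝ × ℝ => γt i p.1 p.2) (Ico 0 T ×ˢ Icc 0 1)
  deriv_x : ∀ i, ∀ t ∈ Ico 0 T, ∀ x ∈ Icc (0:ℝ) 1,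
    HasDerivWithinAt (γ i t) (γx i t x) (Icc 0 1) x
  deriv_xx : ∀ i, ∀ t ∈ Ico 0 T, ∀ x ∈ Icc (0:ℝ) 1,
    HasDerivWithinAt (γx i t) (γxx i t x) (Icc 0 1) x
  deriv_t : ∀ i, ∀ t ∈ Ico 0 T, ∀ x ∈ Icc (0:ℝ) 1,
    HasDerivWithinAt (fun s => γ i s x) (γt i t x) (Ico 0 T) t
  /-- the curves are regular -/
  regular : ∀ i, ∀ t ∈ Ico 0 T, ∀ x ∈ Icc (0:ℝ) 1, γx i t x ≠ 0
  /-- normal velocity = curvature: `⟨γt, ν⟩ = κ`, `ν = i γx/|γx|`, `κ = ⟨γxx, ν⟩/|γx|²` -/
  motion : ∀ i, ∀ t ∈ Ico 0 T, ∀ x ∈ Icc (0:ℝ) 1,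
    (γt i t x * (starRingEnd ℂ) (γx i t x)).im / ‖γx i t x‖ =
      (γxx i t x * (starRingEnd ℂ) (γx i t x)).im / ‖γx i t x‖ ^ 3
  /-- the two ends of curve `i` are `(i,false)` (parameter 0) and `(i,true)` (parameter 1);
  `vtx i b` is the triple junction at this end, or `none` if it is a fixed end point -/
  vtx : Fin n → Bool → Option (Fin m)
  /-- exactly three curves meet at every junction -/
  triple : ∀ j : Fin m, (Finset.univ.filter (fun e : Fin n × Bool => vtx e.1 e.2 = some j)).card = 3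
  meet : ∀ i b i' b' j, vtx i b = some j → vtx i' b' = some j → ∀ t ∈ Ico 0 T,
    γ i t (if b then 1 else 0) = γ i' t (if b' then 1 else 0)
  /-- the three curves meet at angles of 120 degrees: the unit tangent vectors pointing from the
  junction into the curves add up to zero -/
  angle : ∀ j : Fin m, ∀ t ∈ Ico 0 T,
    ∑ e ∈ Finset.univ.filter (fun e : Fin n × Bool => vtx e.1 e.2 = some j),
      (if e.2 then -γx e.1 t 1 / ‖γx e.1 t 1‖ else γx e.1 t 0 / ‖γx e.1 t 0‖) = 0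
  /-- the other end points are fixed -/
  fixed : ∀ i b, vtx i b = none → ∀ t ∈ Ico 0 T,
    γ i t (if b then 1 else 0) = γ i 0 (if b then 1 else 0)
  /-- the network is embedded: curves have no self-intersections and meet only in common
  triple junctions -/
  embedded : ∀ t ∈ Ico 0 T, ∀ i i', ∀ x ∈ Icc (0:ℝ) 1, ∀ x' ∈ Icc (0:ℝ) 1,
    γ i t x = γ i' t x' → (i = i' ∧ x = x') ∨
      ∃ b b' j, vtx i b = some j ∧ vtx i' b' = some j ∧
        x = (if b then 1 else 0) ∧ x' = (if b' then 1 else 0)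

namespace NetworkFlow
variable {n m : ℕ} {T : ℝ} (F : NetworkFlow n m T)

/-- curvature -/
noncomputable def curv (i : Fin n) (t x : ℝ) : ℝ :=
  (F.γxx i t x * (starRingEnd ℂ) (F.γx i t x)).im / ‖F.γx i t x‖ ^ 3

/-- curve `i` at time `t` -/
def curve (i : Fin n) (t : ℝ) : Set ℂ := F.γ i t '' Icc 0 1

/-- the network at time `t` -/
def net (t : ℝ) : Set ℂ := ⋃ i, F.curve i t

/-- length of curve `i` -/
noncomputable def len (i : Fin n) (t : ℝ) : ℝ := ∫ x in (0:ℝ)..1, ‖F.γx i t x‖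

/-- `U` is a region of the network at time `t`: a bounded connected component of the complement -/
def IsRegion (t : ℝ) (U : Set ℂ) : Prop :=
  Bornology.IsBounded U ∧ ∃ z ∈ (F.net t)ᶜ, U = connectedComponentIn (F.net t)ᶜ z

/-- `U t` is a region for every time, bounded by the curves in `B` -/
def RegionFlow (U : ℝ → Set ℂ) (B : Set (Fin n)) : Prop :=
  ∀ t ∈ Ico 0 T, F.IsRegion t (U t) ∧ frontier (U t) = ⋃ i ∈ B, F.curve i t

/-- the region collapses to the point `p` as `t → T`: its area tends to zero, it vanishes into `p`,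
and the bounding curves lose their length -/
def CollapsesTo (U : ℝ → Set ℂ) (B : Set (Fin n)) (p : ℂ) : Prop :=
  Tendsto (fun t => volume (U t)) (𝓝[<] T) (𝓝 0) ∧
  (∀ ε > 0, ∀ᶠ t in 𝓝[<] T, U t ⊆ Metric.ball p ε) ∧
  ∀ i ∈ B, Tendsto (F.len i) (𝓝[<] T) (𝓝 0)

/-- the curvature of the network is unbounded as `t → T` -/
def Singular : Prop := ∀ M : ℝ, ∀ s < T, ∃ t ∈ Ico 0 T, s < t ∧ ∃ i, ∃ x ∈ Icc (0:ℝ) 1, M < |F.curv i t x|

/-- curve `j` issues from the region bounded by the curves in `B` -/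
def Issues (j : Fin n) (B : Set (Fin n)) : Prop :=
  j ∉ B ∧ ∃ i ∈ B, ∃ b b' v, F.vtx j b = some v ∧ F.vtx i b' = some v

/-- curve `j` does not collapse -/
def NonCollapsing (j : Fin n) : Prop := ∃ c > 0, ∀ t ∈ Ico 0 T, c ≤ F.len j t

/-- the curvature of curve `j` is locally uniformly bounded for `t ∈ [0,T)` -/
def LocBounded (j : Fin n) : Prop :=
  ∀ q : ℂ, ∃ δ > 0, ∃ C : ℝ, ∀ t ∈ Ico 0 T, ∀ x ∈ Icc (0:ℝ) 1,
    dist (F.γ j t x) q < δ → |F.curv j t x| ≤ C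

/-- the singularity is of type I -/
def TypeI : Prop := ∃ C : ℝ, ∀ t ∈ Ico 0 T, ∀ i, ∀ x ∈ Icc (0:ℝ) 1, F.curv i t x ^ 2 * (T - t) ≤ C

end NetworkFlow

/-- part (a) of the conjecture -/
def ConjectureA : Prop :=
  ∀ (n m : ℕ) (T : ℝ) (F : NetworkFlow n m T) (U : ℝ → Set ℂ) (B : Set (Fin n)) (p : ℂ),
    0 < T → F.Singular → F.RegionFlow U B → F.CollapsesTo U B p →
    ∀ j, F.Issues j B → F.NonCollapsing j → F.LocBounded j

/-- the conjecture (Q1) -/
def Conjecture : Prop :=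
  ∀ (n m : ℕ) (T : ℝ) (F : NetworkFlow n m T) (U : ℝ → Set ℂ) (B : Set (Fin n)) (p : ℂ),
    0 < T → F.Singular → F.RegionFlow U B → F.CollapsesTo U B p →
    (∀ j, F.Issues j B → F.NonCollapsing j → F.LocBounded j) ∧ F.TypeI

end Pool.Agent.Helper15.NF
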