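import Pool.Agent.Helper15.NF.J1

open Set MeasureTheory intervalIntegral Filter Topology

namespace Pool.Agent.Helper15.NF

variable {a b Lx : ℝ}

/-- slices of a function continuous on `(a,b) × [0,1]` -/
theorem J2_slice {f : ℝ → ℝ → ℝ} (h : ContinuousOn (fun p : ℝ × ℝ => f p.1 p.2) (Ioo a b ×ˢ Icc 0 1))
    {t : ℝ} (ht : t ∈ Ioo a b) : ContinuousOn (f t) (Icc 0 1) := by
  have h1 : ContinuousOn (fun σ : ℝ => ((t, σ) : ℝ × ℝ)) (Icc 0 1) := by fun_prop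
  exact h.comp h1 (fun σ hσ => ⟨ht, hσ⟩)

theorem J2_anti {X c : ℝ → ℝ} {ell : ℝ} (hl : 0 < ell)
    (hX : ∀ σ ∈ Icc (0:ℝ) 1, HasDerivWithinAt X (ell * c σ) (Icc 0 1) σ)
    (hc : ∀ σ ∈ Icc (0:ℝ) 1, c σ < 0) : StrictAntiOn X (Icc 0 1) := by
  refine strictAntiOn_of_hasDerivWithinAt_neg (convex_Icc 0 1)
    (fun σ hσ => (hX σ hσ).continuousWithinAt)
    (fun σ hσ => (hX σ (interior_subset hσ)).mono interior_subset) ?_
  intro σ hσ
  exact mul_neg_of_pos_of_neg hl (hc σ (interior_subset hσ))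

theorem J2_mono {X c : ℝ → ℝ} {ell : ℝ} (hl : 0 < ell)
    (hX : ∀ σ ∈ Icc (0:ℝ) 1, HasDerivWithinAt X (ell * c σ) (Icc 0 1) σ)
    (hc : ∀ σ ∈ Icc (0:ℝ) 1, 0 < c σ) : StrictMonoOn X (Icc 0 1) := by
  refine strictMonoOn_of_hasDerivWithinAt_pos (convex_Icc 0 1)
    (fun σ hσ => (hX σ hσ).continuousWithinAt)
    (fun σ hσ => (hX σ (interior_subset hσ)).mono interior_subset) ?_
  intro σ hσ
  exact mul_pos hl (hc σ (interior_subset hσ))

/-- first coordinate on the upper arc -/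
theorem J2_anti0 (F : Flow a b Lx) {t : ℝ} (ht : t ∈ Ioo a b) (hg : F.IsGraph t) :
    StrictAntiOn (F.X 0 t) (Icc 0 1) :=
  J2_anti (F.ell_pos 0 t ht) (F.X_s 0 t ht) (fun σ hσ => (hg σ hσ).1)

theorem J2_anti1 (F : Flow a b Lx) {t : ℝ} (ht : t ∈ Ioo a b) (hg : F.IsGraph t) :
    StrictAntiOn (F.X 1 t) (Icc 0 1) :=
  J2_anti (F.ell_pos 1 t ht) (F.X_s 1 t ht) (fun σ hσ => (hg σ hσ).2.1)

theorem J2_mono2 (F : Flow a b Lx) {t : ℝ} (ht : t ∈ Ioo a b) (hg : F.IsGraph t) :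
    StrictMonoOn (F.X 2 t) (Icc 0 1) :=
  J2_mono (F.ell_pos 2 t ht) (F.X_s 2 t ht) (fun σ hσ => (hg σ hσ).2.2)

theorem J2_maps0 (F : Flow a b Lx) {t : ℝ} (ht : t ∈ Ioo a b) (hg : F.IsGraph t) :
    MapsTo (F.X 0 t) (Icc 0 1) (Icc 0 (F.X 2 t 0)) := by
  intro σ hσ
  have h0 := (J2_anti0 F ht hg).antitoneOn (left_mem_Icc.2 zero_le_one) hσ hσ.1
  have h1 := (J2_anti0 F ht hg).antitoneOn hσ (right_mem_Icc.2 zero_le_one) hσ.2
  rw [F.X_axis0 t ht] at h1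
  rw [F.X_J 0 t ht] at h0
  exact ⟨h1, h0⟩

theorem J2_maps1 (F : Flow a b Lx) {t : ℝ} (ht : t ∈ Ioo a b) (hg : F.IsGraph t) :
    MapsTo (F.X 1 t) (Icc 0 1) (Icc 0 (F.X 2 t 0)) := by
  intro σ hσ
  have h0 := (J2_anti1 F ht hg).antitoneOn (left_mem_Icc.2 zero_le_one) hσ hσ.1
  have h1 := (J2_anti1 F ht hg).antitoneOn hσ (right_mem_Icc.2 zero_le_one) hσ.2
  rw [F.X_axis1 t ht] at h1
  rw [F.X_J 1 t ht] at h0
  exact ⟨h1, h0⟩

theorem J2_maps2 (F : Flow a b Lx) {t : ℝ} (ht : t ∈ Ioo a b) (hg : F.IsGraph t) :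
    MapsTo (F.X 2 t) (Icc 0 1) (Icc (F.X 2 t 0) Lx) := by
  intro σ hσ
  have h0 := (J2_mono2 F ht hg).monotoneOn (left_mem_Icc.2 zero_le_one) hσ hσ.1
  have h1 := (J2_mono2 F ht hg).monotoneOn hσ (right_mem_Icc.2 zero_le_one) hσ.2
  rw [F.X_far t ht] at h1
  exact ⟨h0, h1⟩

/-- inverse parametrisations are unique -/
theorem J2_uniq {X s s' : ℝ → ℝ} {I : Set ℝ} (hinj : InjOn X (Icc 0 1))
    (h : ∀ x ∈ I, s x ∈ Icc (0:ℝ) 1 ∧ X (s x) = x)
    (h' : ∀ x ∈ I, s' x ∈ Icc (0:ℝ) 1 ∧ X (s' x) = x) : EqOn s s' I := by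
  intro x hx
  exact hinj (h x hx).1 (h' x hx).1 ((h x hx).2.trans (h' x hx).2.symm)

/-- integration by parts and substitution on one piece of an edge -/
theorem J2_piece {X th k c s : ℝ → ℝ} {ell : ℝ} {I : Set ℝ}
    (hX : ∀ σ ∈ Icc (0:ℝ) 1, HasDerivWithinAt X (ell * c σ) (Icc 0 1) σ)
    (hth : ∀ σ ∈ Icc (0:ℝ) 1, HasDerivWithinAt th (ell * k σ) (Icc 0 1) σ)
    (hc : ContinuousOn c (Icc 0 1)) (hk : ContinuousOn k (Icc 0 1))
    (hXI : MapsTo X (Icc 0 1) I) (hs : ContinuousOn s I) (hinj : InjOn X (Icc 0 1))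
    (hsX : ∀ x ∈ I, s x ∈ Icc (0:ℝ) 1 ∧ X (s x) = x)
    {B Bd : ℝ → ℝ} (hB : ∀ x, HasDerivAt B (Bd x) x) (hBd : Continuous Bd)
    {p q : ℝ} (hp : 0 ≤ p) (hpq : p ≤ q) (hq : q ≤ 1) :
    ell * (∫ σ in p..q, B (X σ) * k σ) =
      B (X q) * th q - B (X p) * th p - ∫ x in (X p)..(X q), Bd x * th (s x) := by
  have hsub : Icc p q ⊆ Icc (0:ℝ) 1 := Icc_subset_Icc hp hq
  have hXc : ContinuousOn X (Icc 0 1) := fun σ hσ => (hX σ hσ).continuousWithinAt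
  have hthc : ContinuousOn th (Icc 0 1) := fun σ hσ => (hth σ hσ).continuousWithinAt
  have hBc : Continuous B := continuous_iff_continuousAt.2 fun x => (hB x).continuousAt
  have hu : uIcc p q = Icc p q := uIcc_of_le hpq
  have e1 : ell * (∫ σ in p..q, B (X σ) * k σ) = ∫ σ in p..q, B (X σ) * (ell * k σ) := by
    rw [← intervalIntegral.integral_const_mul]
    congr 1; funext σ; ring
  have e2 := integral_mul_deriv_eq_deriv_mul_of_hasDerivWithinAt (a := p) (b := q)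
    (u := fun σ => B (X σ)) (v := th) (u' := fun σ => Bd (X σ) * (ell * c σ))
    (v' := fun σ => ell * k σ)
    (fun σ hσ => by
      rw [hu] at hσ ⊢
      exact (hB (X σ)).comp_hasDerivWithinAt σ ((hX σ (hsub hσ)).mono hsub))
    (fun σ hσ => by
      rw [hu] at hσ ⊢
      exact (hth σ (hsub hσ)).mono hsub)
    (by
      apply ContinuousOn.intervalIntegrable
      rw [hu]
      exact ((hBd.comp_continuousOn hXc).mul (continuousOn_const.mul hc)).mono hsub)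
    (by
      apply ContinuousOn.intervalIntegrable
      rw [hu]
      exact (continuousOn_const.mul hk).mono hsub)
  have e3 : (∫ σ in p..q, (fun σ => Bd (X σ) * (ell * c σ)) σ * th σ) =
      ∫ σ in p..q, ((fun x => Bd x * th (s x)) ∘ X) σ * (ell * c σ) := by
    apply intervalIntegral.integral_congr
    intro σ hσ
    rw [hu] at hσ
    have h1 : s (X σ) = σ :=
      hinj (hsX _ (hXI (hsub hσ))).1 (hsub hσ) (hsX _ (hXI (hsub hσ))).2
    simp only [Function.comp, h1]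
    ring
  have e4 : (∫ σ in p..q, ((fun x => Bd x * th (s x)) ∘ X) σ * (ell * c σ)) =
      ∫ x in (X p)..(X q), Bd x * th (s x) := by
    apply integral_comp_mul_deriv''
    · rw [hu]; exact hXc.mono hsub
    · intro σ hσ
      rw [min_eq_left hpq, max_eq_right hpq] at hσ
      have h1 : σ ∈ Icc p q := Ioo_subset_Icc_self hσ
      have h2 : HasDerivAt X (ell * c σ) σ :=
        (hX σ (hsub h1)).hasDerivAt (Icc_mem_nhds (lt_of_le_of_lt hp hσ.1) (lt_of_lt_of_le hσ.2 hq))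
      exact h2.hasDerivWithinAt
    · rw [hu]; exact (continuousOn_const.mul hc).mono hsub
    · rw [hu]
      have h1 : X '' Icc p q ⊆ I := by
        rintro x ⟨σ, hσ, rfl⟩
        exact hXI (hsub hσ)
      apply ContinuousOn.mul hBd.continuousOn
      exact hthc.comp (hs.mono h1) (fun x hx => (hsX x (h1 hx)).1)
  rw [e1, e2, e3, e4]

/-- primitive with a prescribed value -/
theorem J2_prim {Bd : ℝ → ℝ} (hBd : Continuous Bd) (x1 v : ℝ) :
    ∀ x, HasDerivAt (fun x => v + ∫ y in x1..x, Bd y) (Bd x) x := by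
  intro x
  exact (intervalIntegral.integral_hasDerivAt_right (hBd.intervalIntegrable _ _)
    hBd.aestronglyMeasurable.stronglyMeasurableAtFilter hBd.continuousAt).const_add v

theorem J2_left {B Bd1 : ℝ → ℝ} {x1 : ℝ} (h1 : ∀ x ≤ x1, HasDerivWithinAt B (Bd1 x) (Iic x1) x)
    (c1 : Continuous Bd1) {x : ℝ} (hx : x ≤ x1) : B x = B x1 + ∫ y in x1..x, Bd1 y := by
  have h : ∫ y in x..x1, Bd1 y = B x1 - B x := by
    apply intervalIntegral.integral_eq_sub_of_hasDerivAt_of_le hx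
    · intro y hy
      exact ((h1 y hy.2).mono Icc_subset_Iic_self).continuousWithinAt
    · intro y hy
      exact (h1 y hy.2.le).hasDerivAt (Iic_mem_nhds hy.2)
    · exact c1.intervalIntegrable _ _
  rw [intervalIntegral.integral_symm, h]; ring

theorem J2_right {B Bd2 : ℝ → ℝ} {x1 : ℝ} (h2 : ∀ x ≥ x1, HasDerivWithinAt B (Bd2 x) (Ici x1) x)
    (c2 : Continuous Bd2) {x : ℝ} (hx : x1 ≤ x) : B x = B x1 + ∫ y in x1..x, Bd2 y := by
  have h : ∫ y in x1..x, Bd2 y = B x - B x1 := by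
    apply intervalIntegral.integral_eq_sub_of_hasDerivAt_of_le hx
    · intro y hy
      exact ((h2 y hy.1).mono Icc_subset_Ici_self).continuousWithinAt
    · intro y hy
      exact (h2 y hy.1.le).hasDerivAt (Ici_mem_nhds hy.1)
    · exact c2.intervalIntegrable _ _
  rw [h]; ring

/-- the contribution of an arc: edge decreasing in `x` from `XJ` to `0` -/
theorem J2_arc {X th k c s : ℝ → ℝ} {ell XJ : ℝ}
    (hX : ∀ σ ∈ Icc (0:ℝ) 1, HasDerivWithinAt X (ell * c σ) (Icc 0 1) σ)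
    (hth : ∀ σ ∈ Icc (0:ℝ) 1, HasDerivWithinAt th (ell * k σ) (Icc 0 1) σ)
    (hc : ContinuousOn c (Icc 0 1)) (hk : ContinuousOn k (Icc 0 1))
    (hXI : MapsTo X (Icc 0 1) (Icc 0 XJ)) (hs : ContinuousOn s (Icc 0 XJ))
    (hanti : StrictAntiOn X (Icc 0 1))
    (hsX : ∀ x ∈ Icc 0 XJ, s x ∈ Icc (0:ℝ) 1 ∧ X (s x) = x) (hX0 : X 0 = XJ) (hX1 : X 1 = 0)
    {B Bd1 Bd2 : ℝ → ℝ} {x1 : ℝ} (hx1 : 0 ≤ x1 ∧ x1 ≤ XJ)
    (hB : Continuous B) (h1 : ∀ x ≤ x1, HasDerivWithinAt B (Bd1 x) (Iic x1) x)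
    (h2 : ∀ x ≥ x1, HasDerivWithinAt B (Bd2 x) (Ici x1) x)
    (c1 : Continuous Bd1) (c2 : Continuous Bd2) :
    ell * (∫ σ in (0:ℝ)..1, B (X σ) * k σ) = B 0 * th 1 - B XJ * th 0 +
      (∫ x in (0:ℝ)..x1, Bd1 x * th (s x)) + ∫ x in x1..XJ, Bd2 x * th (s x) := by
  have hmem : x1 ∈ Icc 0 XJ := hx1
  have hs1 := (hsX x1 hmem).1
  have hXs1 := (hsX x1 hmem).2
  have hXc : ContinuousOn X (Icc 0 1) := fun σ hσ => (hX σ hσ).continuousWithinAt
  have hint : ContinuousOn (fun σ => B (X σ) * k σ) (Icc 0 1) :=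
    (hB.comp_continuousOn hXc).mul hk
  have i1 : IntervalIntegrable (fun σ => B (X σ) * k σ) volume 0 (s x1) := by
    apply ContinuousOn.intervalIntegrable
    rw [uIcc_of_le hs1.1]
    exact hint.mono (Icc_subset_Icc_right hs1.2)
  have i2 : IntervalIntegrable (fun σ => B (X σ) * k σ) volume (s x1) 1 := by
    apply ContinuousOn.intervalIntegrable
    rw [uIcc_of_le hs1.2]
    exact hint.mono (Icc_subset_Icc_left hs1.1)
  have p1 := J2_piece hX hth hc hk hXI hs hanti.injOn hsX (J2_prim c2 x1 (B x1)) c2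
    le_rfl hs1.1 hs1.2
  have p2 := J2_piece hX hth hc hk hXI hs hanti.injOn hsX (J2_prim c1 x1 (B x1)) c1
    hs1.1 hs1.2 le_rfl
  have q1 : (∫ σ in (0:ℝ)..(s x1), B (X σ) * k σ) =
      ∫ σ in (0:ℝ)..(s x1), (B x1 + ∫ y in x1..(X σ), Bd2 y) * k σ := by
    apply intervalIntegral.integral_congr
    intro σ hσ
    rw [uIcc_of_le hs1.1] at hσ
    have h3 : x1 ≤ X σ := by
      have := hanti.antitoneOn ⟨hσ.1, hσ.2.trans hs1.2⟩ hs1 hσ.2
      rwa [hXs1] at this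
    simp only [J2_right h2 c2 h3]
  have q2 : (∫ σ in (s x1)..1, B (X σ) * k σ) =
      ∫ σ in (s x1)..1, (B x1 + ∫ y in x1..(X σ), Bd1 y) * k σ := by
    apply intervalIntegral.integral_congr
    intro σ hσ
    rw [uIcc_of_le hs1.2] at hσ
    have h3 : X σ ≤ x1 := by
      have := hanti.antitoneOn hs1 ⟨hs1.1.trans hσ.1, hσ.2⟩ hσ.1
      rwa [hXs1] at this
    simp only [J2_left h1 c1 h3]
  rw [← intervalIntegral.integral_add_adjacent_intervals i1 i2, mul_add, q1, q2, p1, p2]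
  simp only [hXs1, hX0, hX1]
  rw [← J2_right h2 c2 hx1.2, ← J2_left h1 c1 hx1.1]
  rw [intervalIntegral.integral_symm x1 XJ, intervalIntegral.integral_symm 0 x1]
  simp only [intervalIntegral.integral_same]
  ring

/-- J2 : second order form of the dual identity at a fixed time. `B` plays the role of `ψ_x`,
`Bd` of `ψ_xx`, with a possible kink at `x1`. -/
theorem dual_second (F : Flow a b Lx) {t : ℝ} (ht : t ∈ Ioo a b) (hg : F.IsGraph t)
    {B Bd1 Bd2 : ℝ → ℝ} {x1 : ℝ} (hx1 : 0 ≤ x1 ∧ x1 ≤ F.X 2 t 0)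
    (hB : Continuous B) (h1 : ∀ x ≤ x1, HasDerivWithinAt B (Bd1 x) (Iic x1) x)
    (h2 : ∀ x ≥ x1, HasDerivWithinAt B (Bd2 x) (Ici x1) x)
    (c1 : Continuous Bd1) (c2 : Continuous Bd2) (hend : B Lx = 0)
    {sa sb sc : ℝ → ℝ}
    (hsa : ∀ x ∈ Icc 0 (F.X 2 t 0), sa x ∈ Icc (0:ℝ) 1 ∧ F.X 0 t (sa x) = x)
    (hsb : ∀ x ∈ Icc 0 (F.X 2 t 0), sb x ∈ Icc (0:ℝ) 1 ∧ F.X 1 t (sb x) = x)
    (hsc : ∀ x ∈ Icc (F.X 2 t 0) Lx, sc x ∈ Icc (0:ℝ) 1 ∧ F.X 2 t (sc x) = x) :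
    F.ell 0 t * (∫ σ in (0:ℝ)..1, B (F.X 0 t σ) * F.k 0 t σ)
        + F.ell 1 t * (∫ σ in (0:ℝ)..1, B (F.X 1 t σ) * F.k 1 t σ)
        - 2 * (F.ell 2 t * ∫ σ in (0:ℝ)..1, B (F.X 2 t σ) * F.k 2 t σ) =
      (∫ x in (0:ℝ)..x1, Bd1 x * (F.th 0 t (sa x) + F.th 1 t (sb x)))
      + (∫ x in x1..(F.X 2 t 0), Bd2 x * (F.th 0 t (sa x) + F.th 1 t (sb x)))
      + ∫ x in (F.X 2 t 0)..Lx, Bd2 x * (2 * F.th 2 t (sc x)) := by
  obtain ⟨hJ0, hJL, sa', sb', sc', ha, hb, hc, ca, cb, cc, -, -, -⟩ := graph_param F ht hg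
  have ea := J2_uniq (J2_anti0 F ht hg).injOn hsa ha
  have eb := J2_uniq (J2_anti1 F ht hg).injOn hsb hb
  have ec := J2_uniq (J2_mono2 F ht hg).injOn hsc hc
  have ca' : ContinuousOn sa (Icc 0 (F.X 2 t 0)) := ca.congr ea
  have cb' : ContinuousOn sb (Icc 0 (F.X 2 t 0)) := cb.congr eb
  have cc' : ContinuousOn sc (Icc (F.X 2 t 0) Lx) := cc.congr ec
  have kc : ∀ i, ContinuousOn (F.k i t) (Icc 0 1) := fun i => J2_slice (F.k_cont i) ht
  have tc : ∀ i, ContinuousOn (F.th i t) (Icc 0 1) := fun i => J2_slice (F.th_cont i) ht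
  have cosc : ∀ i, ContinuousOn (fun σ => Real.cos (F.th i t σ + off i)) (Icc 0 1) := fun i =>
    Real.continuous_cos.comp_continuousOn ((tc i).add continuousOn_const)
  have A0 := J2_arc (F.X_s 0 t ht) (F.th_s 0 t ht) (cosc 0) (kc 0) (J2_maps0 F ht hg) ca'
    (J2_anti0 F ht hg) hsa (F.X_J 0 t ht) (F.X_axis0 t ht) hx1 hB h1 h2 c1 c2
  have A1 := J2_arc (F.X_s 1 t ht) (F.th_s 1 t ht) (cosc 1) (kc 1) (J2_maps1 F ht hg) cb'
    (J2_anti1 F ht hg) hsb (F.X_J 1 t ht) (F.X_axis1 t ht) hx1 hB h1 h2 c1 c2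
  have A2 := J2_piece (F.X_s 2 t ht) (F.th_s 2 t ht) (cosc 2) (kc 2) (J2_maps2 F ht hg) cc'
    (J2_mono2 F ht hg).injOn hsc (J2_prim c2 x1 (B x1)) c2 le_rfl zero_le_one le_rfl
  have q2 : (∫ σ in (0:ℝ)..1, B (F.X 2 t σ) * F.k 2 t σ) =
      ∫ σ in (0:ℝ)..1, (B x1 + ∫ y in x1..(F.X 2 t σ), Bd2 y) * F.k 2 t σ := by
    apply intervalIntegral.integral_congr
    intro σ hσ
    rw [uIcc_of_le zero_le_one] at hσ
    have h3 : x1 ≤ F.X 2 t σ := hx1.2.trans (J2_maps2 F ht hg hσ).1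
    simp only [J2_right h2 c2 h3]
  rw [A0, A1, q2, A2]
  rw [← J2_right h2 c2 hx1.2, F.X_far t ht, ← J2_right h2 c2 (hx1.2.trans hJL.le), hend,
    F.th_axis0 t ht, F.th_axis1 t ht, F.th_J 0 t ht, F.th_J 1 t ht]
  have ta : ContinuousOn (fun x => F.th 0 t (sa x)) (Icc 0 (F.X 2 t 0)) :=
    (tc 0).comp ca' (fun x hx => (hsa x hx).1)
  have tb : ContinuousOn (fun x => F.th 1 t (sb x)) (Icc 0 (F.X 2 t 0)) :=
    (tc 1).comp cb' (fun x hx => (hsb x hx).1)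
  have s1 : Icc 0 x1 ⊆ Icc 0 (F.X 2 t 0) := Icc_subset_Icc_right hx1.2
  have s2 : Icc x1 (F.X 2 t 0) ⊆ Icc 0 (F.X 2 t 0) := Icc_subset_Icc_left hx1.1
  have I1 : (∫ x in (0:ℝ)..x1, Bd1 x * (F.th 0 t (sa x) + F.th 1 t (sb x))) =
      (∫ x in (0:ℝ)..x1, Bd1 x * F.th 0 t (sa x)) + ∫ x in (0:ℝ)..x1, Bd1 x * F.th 1 t (sb x) := by
    rw [← intervalIntegral.integral_add]
    · congr 1; funext x; ring
    · apply ContinuousOn.intervalIntegrable
      rw [uIcc_of_le hx1.1]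
      exact c1.continuousOn.mul (ta.mono s1)
    · apply ContinuousOn.intervalIntegrable
      rw [uIcc_of_le hx1.1]
      exact c1.continuousOn.mul (tb.mono s1)
  have I2 : (∫ x in x1..(F.X 2 t 0), Bd2 x * (F.th 0 t (sa x) + F.th 1 t (sb x))) =
      (∫ x in x1..(F.X 2 t 0), Bd2 x * F.th 0 t (sa x)) +
        ∫ x in x1..(F.X 2 t 0), Bd2 x * F.th 1 t (sb x) := by
    rw [← intervalIntegral.integral_add]
    · congr 1; funext x; ring
    · apply ContinuousOn.intervalIntegrable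
      rw [uIcc_of_le hx1.2]
      exact c2.continuousOn.mul (ta.mono s2)
    · apply ContinuousOn.intervalIntegrable
      rw [uIcc_of_le hx1.2]
      exact c2.continuousOn.mul (tb.mono s2)
  have I3 : (∫ x in (F.X 2 t 0)..Lx, Bd2 x * (2 * F.th 2 t (sc x))) =
      2 * ∫ x in (F.X 2 t 0)..Lx, Bd2 x * F.th 2 t (sc x) := by
    rw [← intervalIntegral.integral_const_mul]
    congr 1; funext x; ring
  rw [I1, I2, I3]
  ring

end Pool.Agent.Helper15.NF
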