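import Pool.Agent.Helper15.NF.J2

open Set MeasureTheory intervalIntegral Filter Topology

namespace Pool.Agent.Helper15.NF

variable {a b Lx : ℝ}

/-- the tangent of a continuous angle with nonvanishing cosine -/
theorem J3_tan {th : ℝ → ℝ} {o : ℝ} (hth : ContinuousOn th (Icc 0 1))
    (hc : ∀ σ ∈ Icc (0:ℝ) 1, Real.cos (th σ + o) ≠ 0) :
    ContinuousOn (fun σ => Real.tan (th σ + o)) (Icc 0 1) := by
  have h : ContinuousOn (fun σ => Real.sin (th σ + o) / Real.cos (th σ + o)) (Icc 0 1) :=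
    (Real.continuous_sin.comp_continuousOn (hth.add continuousOn_const)).div
      (Real.continuous_cos.comp_continuousOn (hth.add continuousOn_const)) hc
  refine h.congr ?_
  intro σ _
  exact Real.tan_eq_sin_div_cos _

/-- J3 : `F.J` in graph coordinates -/
theorem J_graph (F : Flow a b Lx) {t : ℝ} (ht : t ∈ Ioo a b) (hg : F.IsGraph t)
    {A : ℝ → ℝ} (hA : Continuous A) {sa sb sc : ℝ → ℝ}
    (hsa : ∀ x ∈ Icc 0 (F.X 2 t 0), sa x ∈ Icc (0:ℝ) 1 ∧ F.X 0 t (sa x) = x)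
    (hsb : ∀ x ∈ Icc 0 (F.X 2 t 0), sb x ∈ Icc (0:ℝ) 1 ∧ F.X 1 t (sb x) = x)
    (hsc : ∀ x ∈ Icc (F.X 2 t 0) Lx, sc x ∈ Icc (0:ℝ) 1 ∧ F.X 2 t (sc x) = x) :
    F.J A t =
      (∫ x in (0:ℝ)..(F.X 2 t 0),
        A x * (Real.tan (F.th 0 t (sa x) + off 0) + Real.tan (F.th 1 t (sb x) + off 1)))
      + ∫ x in (F.X 2 t 0)..Lx, A x * (2 * Real.tan (F.th 2 t (sc x))) := by
  obtain ⟨hJ0, hJL, sa', sb', sc', ha, hb, hc, ca, cb, cc, sub0, sub1, sub2⟩ := graph_param F ht hg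
  have ea := J2_uniq (J2_anti0 F ht hg).injOn hsa ha
  have eb := J2_uniq (J2_anti1 F ht hg).injOn hsb hb
  have ec := J2_uniq (J2_mono2 F ht hg).injOn hsc hc
  have ca' : ContinuousOn sa (Icc 0 (F.X 2 t 0)) := ca.congr ea
  have cb' : ContinuousOn sb (Icc 0 (F.X 2 t 0)) := cb.congr eb
  have tc : ∀ i, ContinuousOn (F.th i t) (Icc 0 1) := fun i => J2_slice (F.th_cont i) ht
  have xc : ∀ i, ContinuousOn (F.X i t) (Icc 0 1) := fun i => J2_slice (F.X_cont i) ht
  have t0 := J3_tan (tc 0) (o := off 0) (fun σ hσ => (hg σ hσ).1.ne)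
  have t1 := J3_tan (tc 1) (o := off 1) (fun σ hσ => (hg σ hσ).2.1.ne)
  have t2 := J3_tan (tc 2) (o := off 2) (fun σ hσ => (hg σ hσ).2.2.ne')
  have E0 := sub0 (fun σ => A (F.X 0 t σ) * Real.tan (F.th 0 t σ + off 0))
    ((hA.comp_continuousOn (xc 0)).mul t0)
  have E1 := sub1 (fun σ => A (F.X 1 t σ) * Real.tan (F.th 1 t σ + off 1))
    ((hA.comp_continuousOn (xc 1)).mul t1)
  have E2 := sub2 (fun σ => A (F.X 2 t σ) * Real.tan (F.th 2 t σ + off 2))
    ((hA.comp_continuousOn (xc 2)).mul t2)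
  have off2 : off 2 = 0 := by simp [off]
  have L0 : (∫ σ in (0:ℝ)..1, (A (F.X 0 t σ) * Real.tan (F.th 0 t σ + off 0)) *
      (-Real.cos (F.th 0 t σ + off 0))) =
      -∫ σ in (0:ℝ)..1, A (F.X 0 t σ) * Real.sin (F.th 0 t σ + off 0) := by
    rw [← intervalIntegral.integral_neg]
    apply intervalIntegral.integral_congr
    intro σ hσ
    rw [uIcc_of_le zero_le_one] at hσ
    have h := (hg σ hσ).1.ne
    simp only [Real.tan_eq_sin_div_cos]
    field_simp
  have L1 : (∫ σ in (0:ℝ)..1, (A (F.X 1 t σ) * Real.tan (F.th 1 t σ + off 1)) *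
      (-Real.cos (F.th 1 t σ + off 1))) =
      -∫ σ in (0:ℝ)..1, A (F.X 1 t σ) * Real.sin (F.th 1 t σ + off 1) := by
    rw [← intervalIntegral.integral_neg]
    apply intervalIntegral.integral_congr
    intro σ hσ
    rw [uIcc_of_le zero_le_one] at hσ
    have h := (hg σ hσ).2.1.ne
    simp only [Real.tan_eq_sin_div_cos]
    field_simp
  have L2 : (∫ σ in (0:ℝ)..1, (A (F.X 2 t σ) * Real.tan (F.th 2 t σ + off 2)) *
      (Real.cos (F.th 2 t σ + off 2))) =
      ∫ σ in (0:ℝ)..1, A (F.X 2 t σ) * Real.sin (F.th 2 t σ + off 2) := by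
    apply intervalIntegral.integral_congr
    intro σ hσ
    rw [uIcc_of_le zero_le_one] at hσ
    have h := (hg σ hσ).2.2.ne'
    simp only [Real.tan_eq_sin_div_cos]
    field_simp
  have R0 : (∫ x in (0:ℝ)..(F.X 2 t 0),
      A (F.X 0 t (sa' x)) * Real.tan (F.th 0 t (sa' x) + off 0)) =
      ∫ x in (0:ℝ)..(F.X 2 t 0), A x * Real.tan (F.th 0 t (sa x) + off 0) := by
    apply intervalIntegral.integral_congr
    intro x hx
    rw [uIcc_of_le hJ0.le] at hx
    simp only [← ea hx, (hsa x hx).2]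
  have R1 : (∫ x in (0:ℝ)..(F.X 2 t 0),
      A (F.X 1 t (sb' x)) * Real.tan (F.th 1 t (sb' x) + off 1)) =
      ∫ x in (0:ℝ)..(F.X 2 t 0), A x * Real.tan (F.th 1 t (sb x) + off 1) := by
    apply intervalIntegral.integral_congr
    intro x hx
    rw [uIcc_of_le hJ0.le] at hx
    simp only [← eb hx, (hsb x hx).2]
  have R2 : (∫ x in (F.X 2 t 0)..Lx,
      A (F.X 2 t (sc' x)) * Real.tan (F.th 2 t (sc' x) + off 2)) =
      ∫ x in (F.X 2 t 0)..Lx, A x * Real.tan (F.th 2 t (sc x)) := by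
    apply intervalIntegral.integral_congr
    intro x hx
    rw [uIcc_of_le hJL.le] at hx
    simp only [← ec hx, (hsc x hx).2, off2, add_zero]
  rw [L0, R0] at E0
  rw [L1, R1] at E1
  rw [L2, R2] at E2
  have I1 : (∫ x in (0:ℝ)..(F.X 2 t 0),
      A x * (Real.tan (F.th 0 t (sa x) + off 0) + Real.tan (F.th 1 t (sb x) + off 1))) =
      (∫ x in (0:ℝ)..(F.X 2 t 0), A x * Real.tan (F.th 0 t (sa x) + off 0)) +
        ∫ x in (0:ℝ)..(F.X 2 t 0), A x * Real.tan (F.th 1 t (sb x) + off 1) := by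
    rw [← intervalIntegral.integral_add]
    · congr 1; funext x; ring
    · apply ContinuousOn.intervalIntegrable
      rw [uIcc_of_le hJ0.le]
      exact hA.continuousOn.mul (t0.comp ca' (fun x hx => (hsa x hx).1))
    · apply ContinuousOn.intervalIntegrable
      rw [uIcc_of_le hJ0.le]
      exact hA.continuousOn.mul (t1.comp cb' (fun x hx => (hsb x hx).1))
  have I3 : (∫ x in (F.X 2 t 0)..Lx, A x * (2 * Real.tan (F.th 2 t (sc x)))) =
      2 * ∫ x in (F.X 2 t 0)..Lx, A x * Real.tan (F.th 2 t (sc x)) := by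
    rw [← intervalIntegral.integral_const_mul]
    congr 1; funext x; ring
  rw [I1, I3, ← E0, ← E1, ← E2]
  simp only [Flow.J]
  ring

end Pool.Agent.Helper15.NF
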