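import Pool.Agent.Helper15.NF.DDefs

open Set MeasureTheory intervalIntegral Filter Topology

namespace Pool.Agent.Helper15.NF

variable {a b Lx : ℝ}

private lemma J4_range {f : ℝ → ℝ} (hf : ContinuousOn f (Icc 0 1))
    (hc : ∀ s ∈ Icc (0:ℝ) 1, 0 < Real.cos (f s)) (h1 : f 1 = 0) {s : ℝ}
    (hs : s ∈ Icc (0:ℝ) 1) : -(Real.pi / 2) < f s ∧ f s < Real.pi / 2 := by
  have hpi := Real.pi_pos
  constructor
  · by_contra hcon
    push Not at hcon
    have h2 : -(Real.pi / 2) ∈ f '' Icc s 1 := by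
      apply intermediate_value_Icc hs.2 (hf.mono (Icc_subset_Icc_left hs.1))
      refine ⟨hcon, ?_⟩
      rw [h1]; linarith
    obtain ⟨u, hu, hfu⟩ := h2
    have h3 := hc u ⟨hs.1.trans hu.1, hu.2⟩
    rw [hfu, Real.cos_neg, Real.cos_pi_div_two] at h3
    exact lt_irrefl _ h3
  · by_contra hcon
    push Not at hcon
    have h2 : (Real.pi / 2) ∈ f '' Icc s 1 := by
      apply intermediate_value_Icc' hs.2 (hf.mono (Icc_subset_Icc_left hs.1))
      refine ⟨?_, hcon⟩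
      rw [h1]; linarith
    obtain ⟨u, hu, hfu⟩ := h2
    have h3 := hc u ⟨hs.1.trans hu.1, hu.2⟩
    rw [hfu, Real.cos_pi_div_two] at h3
    exact lt_irrefl _ h3

private lemma J4_tan {A B : ℝ} (hA : -(Real.pi / 2) < A) (hAB : A ≤ B) (hB : B < Real.pi / 2) :
    0 ≤ Real.tan B - Real.tan A ∧
    ∃ C ∈ Icc A B, B - A = Real.cos C ^ 2 * (Real.tan B - Real.tan A) := by
  rcases hAB.eq_or_lt with h | h
  · subst h
    refine ⟨by simp, A, ⟨le_rfl, le_rfl⟩, by ring⟩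
  · have hc : ∀ x ∈ Icc A B, 0 < Real.cos x := fun x hx =>
      Real.cos_pos_of_mem_Ioo ⟨hA.trans_le hx.1, hx.2.trans_lt hB⟩
    obtain ⟨C, hC, hC2⟩ := exists_hasDerivAt_eq_slope Real.tan (fun x => 1 / Real.cos x ^ 2) h
      (fun x hx => (Real.hasDerivAt_tan (hc x hx).ne').continuousAt.continuousWithinAt)
      (fun x hx => Real.hasDerivAt_tan (hc x (Ioo_subset_Icc_self hx)).ne')
    have hCc := hc C (Ioo_subset_Icc_self hC)
    have hBA : 0 < B - A := by linarith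
    have h1 : Real.tan B - Real.tan A = (B - A) / Real.cos C ^ 2 := by
      have h2 : (B - A) * (1 / Real.cos C ^ 2) = Real.tan B - Real.tan A := by
        rw [hC2]; field_simp
      rw [← h2]; ring
    refine ⟨?_, C, Ioo_subset_Icc_self hC, ?_⟩
    · rw [h1]; positivity
    · rw [h1]; field_simp

private lemma J4_cos {A B C : ℝ} (hA : -0.001 ≤ A) (hA2 : -(Real.pi / 2) < A)
    (hB : B < Real.pi / 2) (hC : C ∈ Icc A B) {c : ℝ}
    (h1 : |Real.cos A ^ 2 - c| ≤ 0.017) (h2 : |Real.cos B ^ 2 - c| ≤ 0.017) :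
    c - 0.018 ≤ Real.cos C ^ 2 ∧ Real.cos C ^ 2 ≤ min 1 (c + 0.018) := by
  have hpi := Real.pi_pos
  obtain ⟨h1a, h1b⟩ := abs_le.mp h1
  obtain ⟨h2a, h2b⟩ := abs_le.mp h2
  have hcA : 0 < Real.cos A := Real.cos_pos_of_mem_Ioo ⟨hA2, (hC.1.trans hC.2).trans_lt hB⟩
  have hcB : 0 < Real.cos B := Real.cos_pos_of_mem_Ioo ⟨hA2.trans_le (hC.1.trans hC.2), hB⟩
  have hcC : 0 < Real.cos C := Real.cos_pos_of_mem_Ioo ⟨hA2.trans_le hC.1, hC.2.trans_lt hB⟩
  constructor
  · rcases le_total 0 C with h | h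
    · have h3 : Real.cos B ≤ Real.cos C :=
        Real.cos_le_cos_of_nonneg_of_le_pi h (by linarith) hC.2
      nlinarith
    · have h3 : Real.cos A ≤ Real.cos C := by
        rw [← Real.cos_neg A, ← Real.cos_neg C]
        exact Real.cos_le_cos_of_nonneg_of_le_pi (by linarith) (by linarith) (by linarith [hC.1])
      nlinarith
  · apply le_min
    · nlinarith [Real.cos_le_one C]
    · rcases le_total 0 A with h | h
      · have h3 : Real.cos C ≤ Real.cos A :=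
          Real.cos_le_cos_of_nonneg_of_le_pi h (by linarith [hC.2]) hC.1
        nlinarith
      · have h3 : 1 - A ^ 2 / 2 ≤ Real.cos A := Real.one_sub_sq_div_two_le_cos
        have h4 : Real.cos C ^ 2 ≤ 1 := by nlinarith [Real.cos_le_one C]
        have h5 : A ^ 2 ≤ 0.000001 := by nlinarith
        nlinarith

/-- J4 : the ratio F/v on the lens -/
theorem ratio_lens (F : Flow a b Lx) {T t xi : ℝ} (ht : t ∈ Ioo a b) (hT : b ≤ T)
    (hCB : CB F T t xi) (hP : F.Pos t) {σ σ' : ℝ} (hσ : σ ∈ Icc (0:ℝ) 1) (hσ' : σ' ∈ Icc (0:ℝ) 1)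
    (hX : F.X 0 t σ = F.X 1 t σ') :
    0 ≤ Real.tan (F.th 0 t σ + off 0) + Real.tan (F.th 1 t σ' + off 1) ∧
    (cpol (F.X 0 t σ / rr T t) - 0.018) *
        (Real.tan (F.th 0 t σ + off 0) + Real.tan (F.th 1 t σ' + off 1))
      ≤ F.th 0 t σ + F.th 1 t σ' ∧
    F.th 0 t σ + F.th 1 t σ' ≤ min 1 (cpol (F.X 0 t σ / rr T t) + 0.018) *
        (Real.tan (F.th 0 t σ + off 0) + Real.tan (F.th 1 t σ' + off 1)) := by
  have hpi := Real.pi_pos
  have ho0 : off 0 = 2 * Real.pi / 3 := rfl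
  have ho1 : off 1 = -(2 * Real.pi / 3) := rfl
  have hcos0 : ∀ s, Real.cos (F.th 0 t s + off 0) = -Real.cos (Real.pi / 3 - F.th 0 t s) := by
    intro s
    rw [ho0, ← Real.cos_pi_sub]
    congr 1; ring
  have hcos1 : ∀ s, Real.cos (F.th 1 t s + off 1) = -Real.cos (Real.pi / 3 + F.th 1 t s) := by
    intro s
    rw [ho1, ← Real.cos_sub_pi]
    congr 1; ring
  have htan0 : Real.tan (F.th 0 t σ + off 0) = -Real.tan (Real.pi / 3 - F.th 0 t σ) := by
    rw [ho0, ← Real.tan_pi_sub]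
    congr 1; ring
  have htan1 : Real.tan (F.th 1 t σ' + off 1) = Real.tan (Real.pi / 3 + F.th 1 t σ') := by
    have h : F.th 1 t σ' + -(2 * Real.pi / 3) = (Real.pi / 3 + F.th 1 t σ') - Real.pi := by ring
    rw [ho1, h, Real.tan_sub_pi]
  have hr0 := J4_range (f := fun s => Real.pi / 3 - F.th 0 t s)
    (continuousOn_const.sub (fun s hs => (F.th_s 0 t ht s hs).continuousWithinAt))
    (fun s hs => by
      have h := (hCB.graph s hs).1
      rw [hcos0] at h
      show 0 < Real.cos (Real.pi / 3 - F.th 0 t s)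
      linarith)
    (by show Real.pi / 3 - F.th 0 t 1 = 0
        rw [F.th_axis0 t ht]; ring) hσ
  have hr1 := J4_range (f := fun s => Real.pi / 3 + F.th 1 t s)
    (continuousOn_const.add (fun s hs => (F.th_s 1 t ht s hs).continuousWithinAt))
    (fun s hs => by
      have h := (hCB.graph s hs).2.1
      rw [hcos1] at h
      show 0 < Real.cos (Real.pi / 3 + F.th 1 t s)
      linarith)
    (by show Real.pi / 3 + F.th 1 t 1 = 0
        rw [F.th_axis1 t ht]; ring) hσ'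
  have hF := hP.1 σ hσ σ' hσ' hX
  obtain ⟨hv, C, hC, hCe⟩ := J4_tan (A := Real.pi / 3 - F.th 0 t σ) (B := Real.pi / 3 + F.th 1 t σ')
    hr0.1 (by linarith) hr1.2
  have hp0 := hCB.prof0 σ hσ
  have hp1 := hCB.prof1 σ' hσ'
  rw [← hX, hcos1, neg_sq] at hp1
  rw [hcos0, neg_sq] at hp0
  obtain ⟨hc1, hc2⟩ := J4_cos (by linarith [hCB.sgn0 σ hσ]) hr0.1 hr1.2 hC hp0 hp1
  have hv' : Real.tan (F.th 0 t σ + off 0) + Real.tan (F.th 1 t σ' + off 1) =
      Real.tan (Real.pi / 3 + F.th 1 t σ') - Real.tan (Real.pi / 3 - F.th 0 t σ) := by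
    rw [htan0, htan1]; ring
  have hF' : F.th 0 t σ + F.th 1 t σ' =
      Real.cos C ^ 2 * (Real.tan (Real.pi / 3 + F.th 1 t σ') - Real.tan (Real.pi / 3 - F.th 0 t σ)) := by
    rw [← hCe]; ring
  rw [hv', hF']
  exact ⟨hv, mul_le_mul_of_nonneg_right hc1 hv, mul_le_mul_of_nonneg_right hc2 hv⟩

end Pool.Agent.Helper15.NF
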