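import Pool.Agent.Helper15.NF.DDefs

open Set MeasureTheory intervalIntegral Filter Topology

namespace Pool.Agent.Helper15.NF

private lemma N1_a1_lo : (0.452:ℝ) ≤ a1 := by
  unfold a1 slope1 w1; norm_num

private lemma N1_a1_hi : a1 ≤ (0.4521:ℝ) := by
  unfold a1 slope1 w1; norm_num

/-- N1 : lower test function, inner inequality -/
theorem p1_ineq {y c : ℝ} (hy : y ∈ Icc (0:ℝ) 1.18) (hc : c ≤ cpol y + 0.018) (hc1 : c ≤ 1)
    (hc0 : 0 ≤ c) :
    0 ≤ c * (-6 * a1 * y + 20 * 0.049 * y ^ 3) + y * (1 - 3 * a1 * y ^ 2 + 5 * 0.049 * y ^ 4)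
      + 1.95 * p1 y := by
  obtain ⟨h0, h1⟩ := hy
  have ha := N1_a1_lo
  have ha' := N1_a1_hi
  set a := a1 with haa
  have ht0 : 0 ≤ y ^ 2 := by positivity
  have ht1 : y ^ 2 ≤ 1.3924 := by nlinarith
  have key : 0 ≤ c * (-6 * a + 0.98 * y ^ 2) + (1 - 3 * a * y ^ 2 + 0.245 * y ^ 4)
      + 1.95 * (1 - a * y ^ 2 + 0.049 * y ^ 4) := by
    have e4 : y ^ 4 = (y ^ 2) ^ 2 := by ring
    have e6 : y ^ 6 = (y ^ 2) ^ 3 := by ring
    unfold cpol at hc
    rw [e4, e6] at hc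
    rw [e4]
    set t := y ^ 2 with htt
    have h3 : 0 ≤ t ^ 2 * (1.3924 - t) := by
      apply mul_nonneg (by positivity); linarith
    have h4 : 0 ≤ t ^ 3 * (1.3924 - t) := by
      apply mul_nonneg (by positivity); linarith
    set C := 1.018 - 0.378 * t - 0.0627 * t ^ 2 - 0.0297 * t ^ 3 with hC
    have hcC : c ≤ C := by rw [hC]; linarith
    have hneg : -6 * a + 0.98 * t ≤ 0 := by nlinarith
    have s1 : C * (-6 * a + 0.98 * t) ≤ c * (-6 * a + 0.98 * t) :=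
      mul_le_mul_of_nonpos_right hcC hneg
    have hCpos : 0 ≤ C := by linarith
    have s2 : 0 ≤ (0.4521 - a) * (6 * C + 4.95 * t) := by
      apply mul_nonneg (by linarith); nlinarith
    have s3 : 0 ≤ C * (-6 * 0.4521 + 0.98 * t) + 2.95 - 4.95 * 0.4521 * t + 0.34055 * t ^ 2 := by
      rw [hC]
      nlinarith [sq_nonneg (t - 1), sq_nonneg t]
    nlinarith
  have e : c * (-6 * a * y + 20 * 0.049 * y ^ 3) + y * (1 - 3 * a * y ^ 2 + 5 * 0.049 * y ^ 4)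
      + 1.95 * p1 y = y * (c * (-6 * a + 0.98 * y ^ 2) + (1 - 3 * a * y ^ 2 + 0.245 * y ^ 4)
      + 1.95 * (1 - a * y ^ 2 + 0.049 * y ^ 4)) := by
    unfold p1; rw [← haa]; ring
  rw [e]
  exact mul_nonneg h0 key

end Pool.Agent.Helper15.NF
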