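import Pool.Agent.Helper15.NF.DDefs

open Set MeasureTheory intervalIntegral Filter Topology

namespace Pool.Agent.Helper15.NF

/-- N2 : lower test function, outer inequality (the factor exp(-y²/2) divided out) -/
theorem w1_ineq {y c : ℝ} (hy : 1.18 ≤ y) (hw : 0 ≤ w1 y) (hc : c ∈ Icc (0:ℝ) 1)
    (hc' : y ≤ 1.2 ∨ 0.999 ≤ c) :
    0 ≤ c * (-1.2 - 2 * y * (3 - 1.2 * y) + (y ^ 2 - 1) * w1 y)
      + y * ((3 - 1.2 * y) - y * w1 y) + 1.95 * w1 y := by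
  obtain ⟨h0, h1⟩ := hc
  have hy6 : y ≤ 6 := by
    unfold w1 at hw
    by_contra h
    push Not at h
    nlinarith
  unfold w1 at *
  -- value at c = 1
  have v1 : 0.2 ≤ -0.25 - 0.15 * y + 0.63 * y ^ 2 := by nlinarith
  have split : c * (-1.2 - 2 * y * (3 - 1.2 * y) + (y ^ 2 - 1) * (1 + 3 * y - 0.6 * y ^ 2))
      + y * ((3 - 1.2 * y) - y * (1 + 3 * y - 0.6 * y ^ 2)) + 1.95 * (1 + 3 * y - 0.6 * y ^ 2)
      = (-0.25 - 0.15 * y + 0.63 * y ^ 2) - (1 - c) * (-1.2 - 2 * y * (3 - 1.2 * y)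
        + (y ^ 2 - 1) * (1 + 3 * y - 0.6 * y ^ 2)) := by ring
  rw [split]
  rcases hc' with h | h
  · -- the bracket is nonpositive for y in [1.18, 1.2]
    have hb : -1.2 - 2 * y * (3 - 1.2 * y) + (y ^ 2 - 1) * (1 + 3 * y - 0.6 * y ^ 2) ≤ 0 := by
      have hy2 : y ^ 2 ≤ 1.44 := by nlinarith
      have hw2 : 1 + 3 * y - 0.6 * y ^ 2 ≤ 4 := by nlinarith
      have : (y ^ 2 - 1) * (1 + 3 * y - 0.6 * y ^ 2) ≤ 0.44 * 4 := by
        apply mul_le_mul (by linarith) hw2 hw (by norm_num)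
      nlinarith
    have := mul_nonneg (by linarith : 0 ≤ 1 - c)
      (by linarith : 0 ≤ -(-1.2 - 2 * y * (3 - 1.2 * y) + (y ^ 2 - 1) * (1 + 3 * y - 0.6 * y ^ 2)))
    linarith
  · -- the bracket is at most 200 for y <= 6
    have hb : -1.2 - 2 * y * (3 - 1.2 * y) + (y ^ 2 - 1) * (1 + 3 * y - 0.6 * y ^ 2) ≤ 200 := by
      have hw2 : 1 + 3 * y - 0.6 * y ^ 2 ≤ 4.75 := by nlinarith [sq_nonneg (y - 2.5)]
      have hy2 : y ^ 2 ≤ 36 := by nlinarith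
      have : (y ^ 2 - 1) * (1 + 3 * y - 0.6 * y ^ 2) ≤ 35 * 4.75 := by
        apply mul_le_mul (by linarith) hw2 hw (by norm_num)
      nlinarith
    have h2 : (1 - c) * (-1.2 - 2 * y * (3 - 1.2 * y)
        + (y ^ 2 - 1) * (1 + 3 * y - 0.6 * y ^ 2)) ≤ 0.2 := by
      rcases le_or_gt 0 (-1.2 - 2 * y * (3 - 1.2 * y)
        + (y ^ 2 - 1) * (1 + 3 * y - 0.6 * y ^ 2)) with h3 | h3
      · have h4 : (1 - c) * (-1.2 - 2 * y * (3 - 1.2 * y)
            + (y ^ 2 - 1) * (1 + 3 * y - 0.6 * y ^ 2)) ≤ (0.001:ℝ) * 200 :=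
          mul_le_mul (by linarith) hb h3 (by norm_num)
        linarith
      · have := mul_nonneg (by linarith : 0 ≤ 1 - c) (by linarith : 0 ≤ -(-1.2 - 2 * y * (3 - 1.2 * y)
          + (y ^ 2 - 1) * (1 + 3 * y - 0.6 * y ^ 2)))
        linarith
    linarith

end Pool.Agent.Helper15.NF
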