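import Pool.Agent.Helper15.NF.JR
import Pool.Agent.Helper15.NF.J4
import Pool.Agent.Helper15.NF.N1
import Pool.Agent.Helper15.NF.N2

open Set MeasureTheory intervalIntegral Filter Topology

namespace Pool.Agent.Helper15.NF

namespace J5

/-- smooth step -/
noncomputable def S (ε z : ℝ) : ℝ := Real.smoothTransition (z / ε)
noncomputable def Sd (ε z : ℝ) : ℝ := deriv Real.smoothTransition (z / ε) / ε
noncomputable def G (ε z : ℝ) : ℝ := ∫ w in (0:ℝ)..z, S ε w

theorem st_deriv (z : ℝ) :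
    HasDerivAt Real.smoothTransition (deriv Real.smoothTransition z) z :=
  ((Real.smoothTransition.contDiff (n := 1)).differentiable (by norm_num) z).hasDerivAt

theorem S_cont (ε : ℝ) : Continuous (S ε) :=
  Real.smoothTransition.continuous.comp (continuous_id.div_const ε)

theorem S_nonneg (ε z : ℝ) : 0 ≤ S ε z := Real.smoothTransition.nonneg _

theorem S_le_one (ε z : ℝ) : S ε z ≤ 1 := Real.smoothTransition.le_one _

theorem S_zero {ε z : ℝ} (hε : 0 < ε) (hz : z ≤ 0) : S ε z = 0 :=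
  Real.smoothTransition.zero_of_nonpos (div_nonpos_of_nonpos_of_nonneg hz hε.le)

theorem S_one {ε z : ℝ} (hε : 0 < ε) (hz : ε ≤ z) : S ε z = 1 :=
  Real.smoothTransition.one_of_one_le ((one_le_div hε).2 hz)

theorem S_deriv (ε z : ℝ) : HasDerivAt (S ε) (Sd ε z) z := by
  have h := (st_deriv (z / ε)).comp z ((hasDerivAt_id z).div_const ε)
  refine HasDerivAt.congr_deriv (f := S ε) h ?_
  unfold Sd
  ring

theorem Sd_cont (ε : ℝ) : Continuous (Sd ε) := by
  have h : Continuous (deriv Real.smoothTransition) :=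
    (Real.smoothTransition.contDiff (n := 1)).continuous_deriv (by norm_num)
  unfold Sd
  exact (h.comp (continuous_id.div_const ε)).div_const ε

theorem Sd_nonneg {ε : ℝ} (hε : 0 < ε) (z : ℝ) : 0 ≤ Sd ε z := by
  unfold Sd
  exact div_nonneg (Real.smoothTransition.monotone.deriv_nonneg) hε.le

theorem G_deriv (ε z : ℝ) : HasDerivAt (G ε) (S ε z) z :=
  ((S_cont ε).integral_hasStrictDerivAt 0 z).hasDerivAt

theorem G_zero {ε z : ℝ} (hε : 0 < ε) (hz : z ≤ 0) : G ε z = 0 := by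
  unfold G
  rw [intervalIntegral.integral_symm]
  have : ∫ w in z..(0:ℝ), S ε w = ∫ w in z..(0:ℝ), (0:ℝ) := by
    refine intervalIntegral.integral_congr fun w hw => ?_
    rw [uIcc_of_le hz] at hw
    exact S_zero hε hw.2
  rw [this]
  simp

theorem G_nonneg {ε z : ℝ} (hε : 0 < ε) : 0 ≤ G ε z := by
  rcases le_total z 0 with hz | hz
  · rw [G_zero hε hz]
  · exact intervalIntegral.integral_nonneg hz fun w _ => S_nonneg ε w

theorem G_le {ε z : ℝ} (hz : 0 ≤ z) : G ε z ≤ z := by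
  unfold G
  calc ∫ w in (0:ℝ)..z, S ε w ≤ ∫ w in (0:ℝ)..z, (1:ℝ) :=
        intervalIntegral.integral_mono_on hz ((S_cont ε).intervalIntegrable _ _)
          (by simp) fun w _ => S_le_one ε w
    _ = z := by simp

theorem G_ge {ε z : ℝ} (hε : 0 < ε) : z - ε ≤ G ε z := by
  rcases le_total z ε with hz | hz
  · exact le_trans (by linarith) (G_nonneg hε)
  · unfold G
    rw [← intervalIntegral.integral_add_adjacent_intervals
      ((S_cont ε).intervalIntegrable 0 ε) ((S_cont ε).intervalIntegrable ε z)]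
    have h1 : 0 ≤ ∫ w in (0:ℝ)..ε, S ε w :=
      intervalIntegral.integral_nonneg hε.le fun w _ => S_nonneg ε w
    have h2 : ∫ w in ε..z, S ε w = ∫ w in ε..z, (1:ℝ) := by
      refine intervalIntegral.integral_congr fun w hw => ?_
      rw [uIcc_of_le hz] at hw
      exact S_one hε hw.1
    rw [h2]
    simp
    linarith

theorem G_conv {ε z : ℝ} (hε : 0 < ε) : z * S ε z - ε ≤ G ε z := by
  rcases le_total z 0 with hz | hz
  · rw [S_zero hε hz, G_zero hε hz]
    linarith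
  · have h1 := G_ge (z := z) hε
    have h2 := S_le_one ε z
    nlinarith

/-! the pieces of the test function -/

noncomputable def p1d (y : ℝ) : ℝ := 1 - 3 * a1 * y ^ 2 + 5 * 0.049 * y ^ 4
noncomputable def p1dd (y : ℝ) : ℝ := -6 * a1 * y + 20 * 0.049 * y ^ 3
noncomputable def E (y : ℝ) : ℝ := p1 1.18 * Real.exp ((1.18 ^ 2 - y ^ 2) / 2) / w1 1.18
noncomputable def oz (y : ℝ) : ℝ := E y * w1 y
noncomputable def ozd (y : ℝ) : ℝ := E y * ((3 - 1.2 * y) - y * w1 y)
noncomputable def ozdd (y : ℝ) : ℝ :=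
  E y * (-1.2 - 2 * y * (3 - 1.2 * y) + (y ^ 2 - 1) * w1 y)

theorem p1_deriv (y : ℝ) : HasDerivAt p1 (p1d y) y := by
  have h := ((hasDerivAt_id y).sub ((hasDerivAt_pow 3 y).const_mul a1)).add
    ((hasDerivAt_pow 5 y).const_mul (0.049:ℝ))
  refine HasDerivAt.congr_deriv (f := p1) h ?_
  unfold p1d
  norm_num
  ring

theorem p1d_deriv (y : ℝ) : HasDerivAt p1d (p1dd y) y := by
  have h := ((hasDerivAt_const y (1:ℝ)).sub ((hasDerivAt_pow 2 y).const_mul (3 * a1))).add
    ((hasDerivAt_pow 4 y).const_mul (5 * 0.049:ℝ))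
  refine HasDerivAt.congr_deriv (f := p1d) h ?_
  unfold p1dd
  norm_num
  ring

theorem w1_deriv (y : ℝ) : HasDerivAt w1 (3 - 1.2 * y) y := by
  have h := ((hasDerivAt_const y (1:ℝ)).add ((hasDerivAt_id y).const_mul (3:ℝ))).sub
    ((hasDerivAt_pow 2 y).const_mul (0.6:ℝ))
  refine HasDerivAt.congr_deriv (f := w1) h ?_
  norm_num
  ring

theorem E_deriv (y : ℝ) : HasDerivAt E (-y * E y) y := by
  have h1 : HasDerivAt (fun y : ℝ => (1.18 ^ 2 - y ^ 2) / 2) (-y) y := by
    have h := ((hasDerivAt_const y ((1.18:ℝ) ^ 2)).sub (hasDerivAt_pow 2 y)).div_const 2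
    refine HasDerivAt.congr_deriv (f := fun y : ℝ => (1.18 ^ 2 - y ^ 2) / 2) h ?_
    norm_num
    ring
  have h2 := (h1.exp.const_mul (p1 1.18)).div_const (w1 1.18)
  refine HasDerivAt.congr_deriv (f := E) h2 ?_
  unfold E
  ring

theorem oz_deriv (y : ℝ) : HasDerivAt oz (ozd y) y := by
  have h := (E_deriv y).mul (w1_deriv y)
  refine HasDerivAt.congr_deriv (f := oz) h ?_
  unfold ozd
  ring

theorem ozd_deriv (y : ℝ) : HasDerivAt ozd (ozdd y) y := by
  have h0 : HasDerivAt (fun y : ℝ => (3 - 1.2 * y) - y * w1 y)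
      (-1.2 - (w1 y + y * (3 - 1.2 * y))) y := by
    have h1 : HasDerivAt (fun y : ℝ => (3:ℝ) - 1.2 * y) (-1.2) y := by
      have := (hasDerivAt_const y (3:ℝ)).sub ((hasDerivAt_id y).const_mul (1.2:ℝ))
      refine HasDerivAt.congr_deriv (f := fun y : ℝ => (3:ℝ) - 1.2 * y) this ?_
      norm_num
    have h2 := (hasDerivAt_id y).mul (w1_deriv y)
    have h3 := h1.sub h2
    refine HasDerivAt.congr_deriv (f := fun y : ℝ => (3 - 1.2 * y) - y * w1 y) h3 ?_
    simp
  have h := (E_deriv y).mul h0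
  refine HasDerivAt.congr_deriv (f := ozd) h ?_
  unfold ozdd
  ring

theorem w1_pos : 0 < w1 1.18 := by
  unfold w1; norm_num

theorem slope_val : slope1 = -1.18 + 1.584 / 3.70456 := by
  unfold slope1 w1; norm_num

theorem den_neg : 1.18 ^ 2 * (slope1 * 1.18 - 3) < 0 := by
  rw [slope_val]; norm_num

theorem a1_eq : a1 * (1.18 ^ 2 * (slope1 * 1.18 - 3)) =
    slope1 * 1.18 * (1 + 0.049 * 1.18 ^ 4) - 1 - 5 * 0.049 * 1.18 ^ 4 := by
  unfold a1
  rw [div_mul_cancel₀]
  exact den_neg.ne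

theorem p1_pos : 0 < p1 1.18 := by
  have h : a1 < 0.46 := by
    unfold a1
    rw [slope_val]
    norm_num
  unfold p1
  nlinarith

theorem E_pos (y : ℝ) : 0 < E y := by
  unfold E
  have := p1_pos
  have := w1_pos
  positivity

theorem match0 : oz 1.18 = p1 1.18 := by
  unfold oz E
  have := w1_pos.ne'
  field_simp
  norm_num

theorem match1 : ozd 1.18 = p1d 1.18 := by
  have h1 : E 1.18 * w1 1.18 = p1 1.18 := match0
  have h2 : ozd 1.18 = p1 1.18 * slope1 := by
    have hw := w1_pos.ne'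
    unfold ozd slope1
    rw [← h1]
    field_simp
    ring
  rw [h2]
  have h3 := a1_eq
  unfold p1 p1d
  linear_combination (-1) * h3

noncomputable def Z1d (y : ℝ) : ℝ := if y ≤ 1.18 then p1d y else ozd y

theorem Z1_eq (y : ℝ) : Z1 y = if y ≤ 1.18 then p1 y else oz y := by
  unfold Z1 oz E
  split_ifs
  · rfl
  · ring

theorem Z1_left {y : ℝ} (h : y ≤ 1.18) : Z1 y = p1 y := by rw [Z1_eq, if_pos h]
theorem Z1_right {y : ℝ} (h : 1.18 ≤ y) : Z1 y = oz y := by
  rw [Z1_eq]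
  split_ifs with h'
  · have : y = 1.18 := le_antisymm h' h
    rw [this, match0]
  · rfl
theorem Z1d_left {y : ℝ} (h : y ≤ 1.18) : Z1d y = p1d y := by unfold Z1d; rw [if_pos h]
theorem Z1d_right {y : ℝ} (h : 1.18 ≤ y) : Z1d y = ozd y := by
  unfold Z1d
  split_ifs with h'
  · have : y = 1.18 := le_antisymm h' h
    rw [this, match1]
  · rfl

theorem Z1_deriv (y : ℝ) : HasDerivAt Z1 (Z1d y) y := by
  rcases lt_trichotomy y 1.18 with h | h | h
  · rw [Z1d_left h.le]
    refine (p1_deriv y).congr_of_eventuallyEq ?_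
    filter_upwards [Iio_mem_nhds h] with x hx
    exact Z1_left (le_of_lt hx)
  · subst h
    have hl : HasDerivWithinAt Z1 (Z1d 1.18) (Iic 1.18) 1.18 := by
      rw [Z1d_left le_rfl]
      exact (p1_deriv 1.18).hasDerivWithinAt.congr (fun x hx => Z1_left hx) (Z1_left le_rfl)
    have hr : HasDerivWithinAt Z1 (Z1d 1.18) (Ici 1.18) 1.18 := by
      rw [Z1d_right le_rfl]
      exact (oz_deriv 1.18).hasDerivWithinAt.congr (fun x hx => Z1_right hx) (Z1_right le_rfl)
    have := hl.union hr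
    rwa [Iic_union_Ici, hasDerivWithinAt_univ] at this
  · rw [Z1d_right h.le]
    refine (oz_deriv y).congr_of_eventuallyEq ?_
    filter_upwards [Ioi_mem_nhds h] with x hx
    exact Z1_right (le_of_lt hx)

theorem p1d_cont : Continuous p1d := continuous_iff_continuousAt.2 fun y =>
  (p1d_deriv y).continuousAt
theorem ozd_cont : Continuous ozd := continuous_iff_continuousAt.2 fun y =>
  (ozd_deriv y).continuousAt
theorem p1_cont : Continuous p1 := continuous_iff_continuousAt.2 fun y =>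
  (p1_deriv y).continuousAt
theorem oz_cont : Continuous oz := continuous_iff_continuousAt.2 fun y =>
  (oz_deriv y).continuousAt
theorem Z1_cont : Continuous Z1 := continuous_iff_continuousAt.2 fun y =>
  (Z1_deriv y).continuousAt
theorem E_cont : Continuous E := continuous_iff_continuousAt.2 fun y =>
  (E_deriv y).continuousAt
theorem w1_cont : Continuous w1 := continuous_iff_continuousAt.2 fun y =>
  (w1_deriv y).continuousAt
theorem p1dd_cont : Continuous p1dd := by unfold p1dd; fun_prop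
theorem ozdd_cont : Continuous ozdd := by
  have := E_cont
  have := w1_cont
  unfold ozdd; fun_prop

theorem Z1d_cont : Continuous Z1d := by
  unfold Z1d
  refine Continuous.if_le p1d_cont ozd_cont continuous_id continuous_const ?_
  intro x hx
  have : x = 1.18 := hx
  rw [this, match1]

/-! the regularised test function -/

noncomputable def A (ε y : ℝ) : ℝ := G ε (Z1 y)
noncomputable def A1 (ε y : ℝ) : ℝ := S ε (Z1 y) * Z1d y
noncomputable def A2l (ε y : ℝ) : ℝ := Sd ε (p1 y) * p1d y ^ 2 + S ε (p1 y) * p1dd y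
noncomputable def A2r (ε y : ℝ) : ℝ := Sd ε (oz y) * ozd y ^ 2 + S ε (oz y) * ozdd y

theorem A_deriv (ε y : ℝ) : HasDerivAt (A ε) (A1 ε y) y := (G_deriv ε (Z1 y)).comp y (Z1_deriv y)

theorem A1_cont (ε : ℝ) : Continuous (A1 ε) :=
  ((S_cont ε).comp Z1_cont).mul Z1d_cont

theorem A_cont (ε : ℝ) : Continuous (A ε) := continuous_iff_continuousAt.2 fun y =>
  (A_deriv ε y).continuousAt

theorem A2l_cont (ε : ℝ) : Continuous (A2l ε) :=
  (((Sd_cont ε).comp p1_cont).mul (p1d_cont.pow 2)).add (((S_cont ε).comp p1_cont).mul p1dd_cont)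

theorem A2r_cont (ε : ℝ) : Continuous (A2r ε) :=
  (((Sd_cont ε).comp oz_cont).mul (ozd_cont.pow 2)).add (((S_cont ε).comp oz_cont).mul ozdd_cont)

theorem A1_left (ε : ℝ) : ∀ y ≤ (1.18:ℝ), HasDerivWithinAt (A1 ε) (A2l ε y) (Iic 1.18) y := by
  intro y hy
  have h : HasDerivAt (fun y => S ε (p1 y) * p1d y) (A2l ε y) y := by
    have h1 : HasDerivAt (fun y => S ε (p1 y)) (Sd ε (p1 y) * p1d y) y :=
      (S_deriv ε (p1 y)).comp y (p1_deriv y)
    have h2 := h1.mul (p1d_deriv y)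
    refine HasDerivAt.congr_deriv (f := fun y => S ε (p1 y) * p1d y) h2 ?_
    unfold A2l
    ring
  refine h.hasDerivWithinAt.congr (fun x hx => ?_) ?_
  · unfold A1
    rw [Z1_left hx, Z1d_left hx]
  · unfold A1
    rw [Z1_left hy, Z1d_left hy]

theorem A1_right (ε : ℝ) : ∀ y ≥ (1.18:ℝ), HasDerivWithinAt (A1 ε) (A2r ε y) (Ici 1.18) y := by
  intro y hy
  have h : HasDerivAt (fun y => S ε (oz y) * ozd y) (A2r ε y) y := by
    have h1 : HasDerivAt (fun y => S ε (oz y)) (Sd ε (oz y) * ozd y) y :=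
      (S_deriv ε (oz y)).comp y (oz_deriv y)
    have h2 := h1.mul (ozd_deriv y)
    refine HasDerivAt.congr_deriv (f := fun y => S ε (oz y) * ozd y) h2 ?_
    unfold A2r
    ring
  refine h.hasDerivWithinAt.congr (fun x hx => ?_) ?_
  · unfold A1
    rw [Z1_right hx, Z1d_right hx]
  · unfold A1
    rw [Z1_right hy, Z1d_right hy]

theorem A_zero {ε : ℝ} (hε : 0 < ε) : A ε 0 = 0 := by
  unfold A
  rw [Z1_left (by norm_num)]
  have : p1 0 = 0 := by unfold p1; norm_num
  rw [this, G_zero hε le_rfl]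

theorem oz_nonpos {y : ℝ} (h : w1 y ≤ 0) : oz y ≤ 0 := by
  unfold oz
  exact mul_nonpos_of_nonneg_of_nonpos (E_pos y).le h

theorem w1_far {y : ℝ} (h : 10 ≤ y) : w1 y ≤ 0 := by
  unfold w1
  nlinarith

theorem A1_far {ε y : ℝ} (hε : 0 < ε) (h : 10 ≤ y) : A1 ε y = 0 := by
  unfold A1
  rw [Z1_right (by linarith), S_zero hε (oz_nonpos (w1_far h)), zero_mul]

/-- pointwise inequality, inner part -/
theorem inner {ε y c v : ℝ} (hε : 0 < ε) (hy : y ∈ Icc (0:ℝ) 1.18) (hv : 0 ≤ v) (hc0 : 0 ≤ c)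
    (hc : c ≤ min 1 (cpol y + 0.018) * v) :
    -(1.95 * ε) * v ≤ A2l ε y * c + (y * A1 ε y + 1.95 * A ε y) * v := by
  rcases hv.eq_or_lt with h0 | h0
  · rw [← h0] at hc ⊢
    have : c = 0 := le_antisymm (by simpa using hc) hc0
    rw [this]
    simp
  · obtain ⟨d, rfl⟩ : ∃ d, c = d * v := ⟨c / v, by field_simp⟩
    have hd0 : 0 ≤ d := by
      by_contra hneg
      push Not at hneg
      nlinarith
    have hd1 : d ≤ min 1 (cpol y + 0.018) := le_of_mul_le_mul_right hc h0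
    have hd2 : d ≤ 1 := hd1.trans (min_le_left _ _)
    have hd3 : d ≤ cpol y + 0.018 := hd1.trans (min_le_right _ _)
    have hp := p1_ineq hy hd3 hd2 hd0
    have hG := G_conv (z := p1 y) hε
    have hS := S_nonneg ε (p1 y)
    have hSd := Sd_nonneg hε (p1 y)
    have key : -(1.95 * ε) ≤ A2l ε y * d + (y * A1 ε y + 1.95 * A ε y) := by
      unfold A2l A1 A
      rw [Z1_left hy.2, Z1d_left hy.2]
      have e1 : 0 ≤ Sd ε (p1 y) * p1d y ^ 2 * d := by positivity
      have e2 : 0 ≤ S ε (p1 y) * (d * p1dd y + y * p1d y + 1.95 * p1 y) :=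
        mul_nonneg hS hp
      nlinarith
    have := mul_le_mul_of_nonneg_right key h0.le
    linarith

/-- pointwise inequality, outer part -/
theorem outer {ε y c v : ℝ} (hε : 0 < ε) (hy : 1.18 ≤ y) (hv : 0 ≤ v) (hc0 : 0 ≤ c)
    (hc : c ≤ v) (hc' : y ≤ 1.2 ∨ 0.999 * v ≤ c) :
    -(1.95 * ε) * v ≤ A2r ε y * c + (y * A1 ε y + 1.95 * A ε y) * v := by
  rcases hv.eq_or_lt with h0 | h0
  · rw [← h0] at hc ⊢
    have : c = 0 := le_antisymm hc hc0
    rw [this]
    simp
  · obtain ⟨d, rfl⟩ : ∃ d, c = d * v := ⟨c / v, by field_simp⟩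
    have hd0 : 0 ≤ d := by
      by_contra hneg
      push Not at hneg
      nlinarith
    have hd1 : d ≤ 1 := by
      have : d * v ≤ 1 * v := by linarith
      exact le_of_mul_le_mul_right this h0
    have hd2 : y ≤ 1.2 ∨ 0.999 ≤ d := by
      rcases hc' with h | h
      · exact Or.inl h
      · exact Or.inr (le_of_mul_le_mul_right h h0)
    have hG := G_conv (z := oz y) hε
    have hS := S_nonneg ε (oz y)
    have hSd := Sd_nonneg hε (oz y)
    have key : -(1.95 * ε) ≤ A2r ε y * d + (y * A1 ε y + 1.95 * A ε y) := by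
      unfold A2r A1 A
      rw [Z1_right hy, Z1d_right hy]
      have e1 : 0 ≤ Sd ε (oz y) * ozd y ^ 2 * d := by positivity
      rcases le_total 0 (w1 y) with hw | hw
      · have hp := w1_ineq hy hw ⟨hd0, hd1⟩ hd2
        have e2 : 0 ≤ S ε (oz y) * (d * ozdd y + y * ozd y + 1.95 * oz y) := by
          apply mul_nonneg hS
          have : d * ozdd y + y * ozd y + 1.95 * oz y = E y *
              (d * (-1.2 - 2 * y * (3 - 1.2 * y) + (y ^ 2 - 1) * w1 y)
                + y * ((3 - 1.2 * y) - y * w1 y) + 1.95 * w1 y) := by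
            unfold ozdd ozd oz
            ring
          rw [this]
          exact mul_nonneg (E_pos y).le hp
        nlinarith
      · have hz := oz_nonpos hw
        rw [S_zero hε hz, G_zero hε hz] at *
        nlinarith
    have := mul_le_mul_of_nonneg_right key h0.le
    linarith

theorem A_close {ε : ℝ} (hε : 0 < ε) (y : ℝ) : |A ε y - zeta1 y| ≤ ε := by
  unfold A zeta1
  rcases le_total (Z1 y) 0 with h | h
  · rw [G_zero hε h, max_eq_right h]
    simpa using hε.le
  · rw [max_eq_left h, abs_le]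
    have h1 := G_ge (z := Z1 y) hε
    have h2 := G_le (ε := ε) h
    constructor <;> linarith

theorem zeta1_cont : Continuous zeta1 := Z1_cont.max continuous_const

variable {a b Lx : ℝ}

theorem th_contOn (F : Flow a b Lx) {t : ℝ} (ht : t ∈ Ioo a b) (i : Fin 3) :
    ContinuousOn (F.th i t) (Icc 0 1) := fun σ hσ => (F.th_s i t ht σ hσ).continuousWithinAt

theorem X_contOn (F : Flow a b Lx) {t : ℝ} (ht : t ∈ Ioo a b) (i : Fin 3) :
    ContinuousOn (F.X i t) (Icc 0 1) := fun σ hσ => (F.X_s i t ht σ hσ).continuousWithinAt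

theorem J_close (F : Flow a b Lx) {t : ℝ} (ht : t ∈ Ioo a b) {ψ φ : ℝ → ℝ} (hψ : Continuous ψ)
    (hφ : Continuous φ) {ε : ℝ} (h : ∀ y, |ψ y - φ y| ≤ ε) :
    |F.J ψ t - F.J φ t| ≤ ε * (F.ell 0 t + F.ell 1 t + 2 * F.ell 2 t) := by
  have hcont : ∀ (χ : ℝ → ℝ), Continuous χ → ∀ i, IntervalIntegrable
      (fun σ => χ (F.X i t σ) * Real.sin (F.th i t σ + off i)) volume 0 1 := by
    intro χ hχ i
    refine ContinuousOn.intervalIntegrable_of_Icc zero_le_one ?_
    refine (hχ.comp_continuousOn (X_contOn F ht i)).mul ?_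
    exact Real.continuous_sin.comp_continuousOn ((th_contOn F ht i).add continuousOn_const)
  have key : ∀ i, |(∫ σ in (0:ℝ)..1, ψ (F.X i t σ) * Real.sin (F.th i t σ + off i)) -
      ∫ σ in (0:ℝ)..1, φ (F.X i t σ) * Real.sin (F.th i t σ + off i)| ≤ ε := by
    intro i
    rw [← intervalIntegral.integral_sub (hcont ψ hψ i) (hcont φ hφ i)]
    have h1 := intervalIntegral.norm_integral_le_of_norm_le_const (a := (0:ℝ)) (b := 1) (C := ε)
      (f := fun σ => ψ (F.X i t σ) * Real.sin (F.th i t σ + off i) -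
        φ (F.X i t σ) * Real.sin (F.th i t σ + off i)) (fun σ _ => by
          rw [← sub_mul, norm_mul, Real.norm_eq_abs, Real.norm_eq_abs]
          calc |ψ (F.X i t σ) - φ (F.X i t σ)| * |Real.sin (F.th i t σ + off i)|
              ≤ ε * 1 := mul_le_mul (h _) (Real.abs_sin_le_one _) (abs_nonneg _)
                ((abs_nonneg _).trans (h 0))
            _ = ε := mul_one _)
    simpa using h1
  have k0 := abs_le.1 (key 0)
  have k1 := abs_le.1 (key 1)
  have k2 := abs_le.1 (key 2)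
  have e0 := F.ell_pos 0 t ht
  have e1 := F.ell_pos 1 t ht
  have e2 := F.ell_pos 2 t ht
  have m0 := mul_le_mul_of_nonneg_left k0.1 e0.le
  have m0' := mul_le_mul_of_nonneg_left k0.2 e0.le
  have m1 := mul_le_mul_of_nonneg_left k1.1 e1.le
  have m1' := mul_le_mul_of_nonneg_left k1.2 e1.le
  have m2 := mul_le_mul_of_nonneg_left k2.1 e2.le
  have m2' := mul_le_mul_of_nonneg_left k2.2 e2.le
  unfold Flow.J
  rw [abs_le]
  constructor <;> nlinarith

theorem J_one (F : Flow a b Lx) {t : ℝ} (ht : t ∈ Ioo a b) :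
    F.J (fun _ => 1) t ≤ F.ell 0 t + F.ell 1 t + 2 * F.ell 2 t := by
  have h := J_close F ht (ψ := fun _ => 1) (φ := fun _ => 0) continuous_const continuous_const
    (ε := 1) (fun y => by simp)
  have h0 : F.J (fun _ => (0:ℝ)) t = 0 := by simp [Flow.J]
  rw [h0, sub_zero, one_mul] at h
  exact (le_abs_self _).trans h

theorem rr_pos {T t : ℝ} (h : t < T) : 0 < rr T t := by
  unfold rr
  exact Real.sqrt_pos.2 (by linarith)

theorem tan_small {x : ℝ} (h0 : 0 ≤ x) (h1 : x ≤ 0.01) :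
    0 ≤ Real.tan x ∧ x ≤ Real.tan x ∧ 0.999 * Real.tan x ≤ x := by
  have hpi := Real.pi_gt_three
  have hx : x ≤ Real.tan x := Real.le_tan h0 (by linarith)
  refine ⟨h0.trans hx, hx, ?_⟩
  have hc : 1 - x ^ 2 / 2 ≤ Real.cos x := Real.one_sub_sq_div_two_le_cos
  have hc0 : 0.999 ≤ Real.cos x := by nlinarith
  have hcpos : 0 < Real.cos x := by linarith
  have hs : Real.sin x ≤ x := Real.sin_le h0
  rw [Real.tan_eq_sin_div_cos, mul_div_assoc', div_le_iff₀ hcpos]
  have hs0 : 0 ≤ Real.sin x := Real.sin_nonneg_of_nonneg_of_le_pi h0 (by linarith)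
  nlinarith

theorem rate (F : Flow a b 1) {T xi t ε : ℝ} (hε : 0 < ε) (hT : b ≤ T) (hr : rr T a ≤ 1 / 10)
    (hxi : xi ∈ Icc (1.187:ℝ) 1.197) (ht : t ∈ Ioo a b) (hCB : CB F T t xi) (hpos : F.Pos t) :
    ∃ D, HasDerivAt (fun τ => rr T τ ^ (-1.95 : ℝ) * F.J (fun x => A ε (x / rr T τ)) τ) D t ∧
      -(1.95 * ε) * (rr T t ^ (-1.95 - 2 : ℝ) * (F.ell 0 t + F.ell 1 t + 2 * F.ell 2 t)) ≤ D := by
  obtain ⟨hX0, hX1, sa, sb, sc, hsa, hsb, hsc, ca, cb, cc, -, -, -⟩ := graph_param F ht hCB.graph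
  have hr0 : 0 < rr T t := rr_pos (ht.2.trans_le hT)
  have hr1 : rr T t ≤ 1 / 10 := by
    refine le_trans ?_ hr
    unfold rr
    exact Real.sqrt_le_sqrt (by linarith [ht.1])
  have hj := abs_le.1 hCB.jx
  have hj1 : 1.18 * rr T t ≤ F.X 2 t 0 := by
    have h1 : 1.18 ≤ F.X 2 t 0 / rr T t := by linarith [hj.1, hxi.1]
    exact (le_div_iff₀ hr0).1 h1
  have hj2 : F.X 2 t 0 / rr T t ≤ 1.2 := by linarith [hj.2, hxi.2]
  have hj3 : 1.18 ≤ F.X 2 t 0 / rr T t := by linarith [hj.1, hxi.1]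
  have h18 : 0 ≤ 1.18 * rr T t := by positivity
  have hend : A1 ε (1 / rr T t) = 0 := by
    apply A1_far hε
    rw [le_div_iff₀ hr0]
    linarith
  refine ⟨_, J_rate F (q := 1.95) (y1 := 1.18) hT ht hCB.graph (A_deriv ε) (A1_cont ε) (A1_left ε)
    (A1_right ε) (A2l_cont ε) (A2r_cont ε) (A_zero hε) hend ⟨by norm_num, hj1⟩ hsa hsb hsc, ?_⟩
  -- continuity
  have cta : ContinuousOn (fun x => F.th 0 t (sa x)) (Icc 0 (F.X 2 t 0)) :=
    (th_contOn F ht 0).comp ca fun x hx => (hsa x hx).1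
  have ctb : ContinuousOn (fun x => F.th 1 t (sb x)) (Icc 0 (F.X 2 t 0)) :=
    (th_contOn F ht 1).comp cb fun x hx => (hsb x hx).1
  have ctc : ContinuousOn (fun x => F.th 2 t (sc x)) (Icc (F.X 2 t 0) 1) :=
    (th_contOn F ht 2).comp cc fun x hx => (hsc x hx).1
  have off2 : off 2 = 0 := by simp [off]
  have cv : ContinuousOn (fun x => Real.tan (F.th 0 t (sa x) + off 0) +
      Real.tan (F.th 1 t (sb x) + off 1)) (Icc 0 (F.X 2 t 0)) := by
    refine ContinuousOn.add ?_ ?_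
    · refine Real.continuousOn_tan.comp (cta.add continuousOn_const) fun x hx => ?_
      exact (hCB.graph _ (hsa x hx).1).1.ne
    · refine Real.continuousOn_tan.comp (ctb.add continuousOn_const) fun x hx => ?_
      exact (hCB.graph _ (hsb x hx).1).2.1.ne
  have cu : ContinuousOn (fun x => 2 * Real.tan (F.th 2 t (sc x))) (Icc (F.X 2 t 0) 1) := by
    refine continuousOn_const.mul ?_
    refine Real.continuousOn_tan.comp ctc fun x hx => ?_
    have := (hCB.graph _ (hsc x hx).1).2.2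
    rw [off2, add_zero] at this
    exact this.ne'
  have cx : ∀ {f : ℝ → ℝ}, Continuous f → Continuous fun x => f (x / rr T t) :=
    fun hf => hf.comp (continuous_id.div_const _)
  have cA := cx (A_cont ε)
  have cA1 := cx (A1_cont ε)
  have cAl := cx (A2l_cont ε)
  have cAr := cx (A2r_cont ε)
  have cid : Continuous fun x : ℝ => x / rr T t := continuous_id.div_const _
  have cw : Continuous fun x : ℝ => x / rr T t * A1 ε (x / rr T t) + 1.95 * A ε (x / rr T t) :=
    (cid.mul cA1).add (continuous_const.mul cA)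
  have f1c : ContinuousOn (fun x => A2l ε (x / rr T t) * (F.th 0 t (sa x) + F.th 1 t (sb x)) +
      (x / rr T t * A1 ε (x / rr T t) + 1.95 * A ε (x / rr T t)) *
        (Real.tan (F.th 0 t (sa x) + off 0) + Real.tan (F.th 1 t (sb x) + off 1)))
      (Icc 0 (F.X 2 t 0)) :=
    (cAl.continuousOn.mul (cta.add ctb)).add (cw.continuousOn.mul cv)
  have f2c : ContinuousOn (fun x => A2r ε (x / rr T t) * (F.th 0 t (sa x) + F.th 1 t (sb x)) +
      (x / rr T t * A1 ε (x / rr T t) + 1.95 * A ε (x / rr T t)) *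
        (Real.tan (F.th 0 t (sa x) + off 0) + Real.tan (F.th 1 t (sb x) + off 1)))
      (Icc 0 (F.X 2 t 0)) :=
    (cAr.continuousOn.mul (cta.add ctb)).add (cw.continuousOn.mul cv)
  have f3c : ContinuousOn (fun x => A2r ε (x / rr T t) * (2 * F.th 2 t (sc x)) +
      (x / rr T t * A1 ε (x / rr T t) + 1.95 * A ε (x / rr T t)) *
        (2 * Real.tan (F.th 2 t (sc x)))) (Icc (F.X 2 t 0) 1) :=
    (cAr.continuousOn.mul (continuousOn_const.mul ctc)).add (cw.continuousOn.mul cu)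
  have s1 : Icc 0 (1.18 * rr T t) ⊆ Icc 0 (F.X 2 t 0) := Icc_subset_Icc_right hj1
  have s2 : Icc (1.18 * rr T t) (F.X 2 t 0) ⊆ Icc 0 (F.X 2 t 0) := Icc_subset_Icc_left h18
  have L1 : -(1.95 * ε) * (∫ x in (0:ℝ)..(1.18 * rr T t),
      (Real.tan (F.th 0 t (sa x) + off 0) + Real.tan (F.th 1 t (sb x) + off 1))) ≤
      ∫ x in (0:ℝ)..(1.18 * rr T t),
        (A2l ε (x / rr T t) * (F.th 0 t (sa x) + F.th 1 t (sb x)) +
          (x / rr T t * A1 ε (x / rr T t) + 1.95 * A ε (x / rr T t)) *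
            (Real.tan (F.th 0 t (sa x) + off 0) + Real.tan (F.th 1 t (sb x) + off 1))) := by
    rw [← intervalIntegral.integral_const_mul]
    refine intervalIntegral.integral_mono_on h18 ?_ ?_ ?_
    · exact (continuousOn_const.mul (cv.mono s1)).intervalIntegrable_of_Icc h18
    · exact (f1c.mono s1).intervalIntegrable_of_Icc h18
    · intro x hx
      have hx' := s1 hx
      have hXX : F.X 0 t (sa x) = F.X 1 t (sb x) := by rw [(hsa x hx').2, (hsb x hx').2]
      obtain ⟨hv, -, hc⟩ := ratio_lens F ht hT hCB hpos (hsa x hx').1 (hsb x hx').1 hXX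
      rw [(hsa x hx').2] at hc
      have hc0 := hpos.1 _ (hsa x hx').1 _ (hsb x hx').1 hXX
      have hy : x / rr T t ∈ Icc (0:ℝ) 1.18 :=
        ⟨div_nonneg hx.1 hr0.le, (div_le_iff₀ hr0).2 hx.2⟩
      exact inner hε hy hv hc0 hc
  have L2 : -(1.95 * ε) * (∫ x in (1.18 * rr T t)..(F.X 2 t 0),
      (Real.tan (F.th 0 t (sa x) + off 0) + Real.tan (F.th 1 t (sb x) + off 1))) ≤
      ∫ x in (1.18 * rr T t)..(F.X 2 t 0),
        (A2r ε (x / rr T t) * (F.th 0 t (sa x) + F.th 1 t (sb x)) +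
          (x / rr T t * A1 ε (x / rr T t) + 1.95 * A ε (x / rr T t)) *
            (Real.tan (F.th 0 t (sa x) + off 0) + Real.tan (F.th 1 t (sb x) + off 1))) := by
    rw [← intervalIntegral.integral_const_mul]
    refine intervalIntegral.integral_mono_on hj1 ?_ ?_ ?_
    · exact (continuousOn_const.mul (cv.mono s2)).intervalIntegrable_of_Icc hj1
    · exact (f2c.mono s2).intervalIntegrable_of_Icc hj1
    · intro x hx
      have hx' := s2 hx
      have hXX : F.X 0 t (sa x) = F.X 1 t (sb x) := by rw [(hsa x hx').2, (hsb x hx').2]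
      obtain ⟨hv, -, hc⟩ := ratio_lens F ht hT hCB hpos (hsa x hx').1 (hsb x hx').1 hXX
      rw [(hsa x hx').2] at hc
      have hc0 := hpos.1 _ (hsa x hx').1 _ (hsb x hx').1 hXX
      have hy : 1.18 ≤ x / rr T t := (le_div_iff₀ hr0).2 hx.1
      have hy2 : x / rr T t ≤ 1.2 :=
        le_trans (div_le_div_of_nonneg_right hx.2 hr0.le) hj2
      refine outer hε hy hv hc0 ?_ (Or.inl hy2)
      refine hc.trans ?_
      have := mul_le_mul_of_nonneg_right (min_le_left (1:ℝ) (cpol (x / rr T t) + 0.018)) hv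
      rwa [one_mul] at this
  have L3 : -(1.95 * ε) * (∫ x in (F.X 2 t 0)..1, 2 * Real.tan (F.th 2 t (sc x))) ≤
      ∫ x in (F.X 2 t 0)..1, (A2r ε (x / rr T t) * (2 * F.th 2 t (sc x)) +
        (x / rr T t * A1 ε (x / rr T t) + 1.95 * A ε (x / rr T t)) *
          (2 * Real.tan (F.th 2 t (sc x)))) := by
    rw [← intervalIntegral.integral_const_mul]
    refine intervalIntegral.integral_mono_on hX1.le ?_ ?_ ?_
    · exact (continuousOn_const.mul cu).intervalIntegrable_of_Icc hX1.le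
    · exact f3c.intervalIntegrable_of_Icc hX1.le
    · intro x hx
      have h0 := hpos.2 _ (hsc x hx).1
      have h1 := (abs_le.1 (hCB.small _ (hsc x hx).1)).2
      obtain ⟨t1, t2, t3⟩ := tan_small h0 h1
      have hy : 1.18 ≤ x / rr T t :=
        le_trans hj3 (div_le_div_of_nonneg_right hx.1 hr0.le)
      refine outer hε hy (by linarith) (by linarith) (by linarith) (Or.inr (by linarith))
  have hJ1 := J_graph F ht hCB.graph (A := fun _ => 1) continuous_const hsa hsb hsc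
  simp only [one_mul] at hJ1
  have hsplit := intervalIntegral.integral_add_adjacent_intervals
    ((cv.mono s1).intervalIntegrable_of_Icc (μ := volume) h18)
    ((cv.mono s2).intervalIntegrable_of_Icc (μ := volume) hj1)
  have hJ2 := J_one F ht
  rw [hJ1, ← hsplit] at hJ2
  have hP : 0 < rr T t ^ (-1.95 - 2 : ℝ) := Real.rpow_pos_of_pos hr0 _
  have hmul := mul_le_mul_of_nonneg_left hJ2 (show 0 ≤ 1.95 * ε by positivity)
  have htot : -(1.95 * ε) * (F.ell 0 t + F.ell 1 t + 2 * F.ell 2 t) ≤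
      (∫ x in (0:ℝ)..(1.18 * rr T t),
        (A2l ε (x / rr T t) * (F.th 0 t (sa x) + F.th 1 t (sb x)) +
          (x / rr T t * A1 ε (x / rr T t) + 1.95 * A ε (x / rr T t)) *
            (Real.tan (F.th 0 t (sa x) + off 0) + Real.tan (F.th 1 t (sb x) + off 1)))) +
      (∫ x in (1.18 * rr T t)..(F.X 2 t 0),
        (A2r ε (x / rr T t) * (F.th 0 t (sa x) + F.th 1 t (sb x)) +
          (x / rr T t * A1 ε (x / rr T t) + 1.95 * A ε (x / rr T t)) *
            (Real.tan (F.th 0 t (sa x) + off 0) + Real.tan (F.th 1 t (sb x) + off 1)))) +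
      ∫ x in (F.X 2 t 0)..1, (A2r ε (x / rr T t) * (2 * F.th 2 t (sc x)) +
        (x / rr T t * A1 ε (x / rr T t) + 1.95 * A ε (x / rr T t)) *
          (2 * Real.tan (F.th 2 t (sc x)))) := by
    linarith
  have := mul_le_mul_of_nonneg_left htot hP.le
  refine le_trans (le_of_eq ?_) this
  ring

end J5

variable {a b Lx : ℝ}

/-- J5 : the lower functional is nondecreasing -/
theorem lower_mono (F : Flow a b 1) {T xi : ℝ} (hT : b ≤ T) (hr : rr T a ≤ 1 / 10)
    (hxi : xi ∈ Icc (1.187:ℝ) 1.197)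
    (hCB : ∀ t ∈ Ioo a b, CB F T t xi) (hpos : ∀ t ∈ Ioo a b, F.Pos t) :
    MonotoneOn (fun t => rr T t ^ (-1.95 : ℝ) * F.J (fun x => zeta1 (x / rr T t)) t) (Ioo a b) := by
  intro t1 ht1 t2 ht2 h12
  have hsub : Icc t1 t2 ⊆ Ioo a b := fun t ht => ⟨ht1.1.trans_le ht.1, ht.2.trans_lt ht2.2⟩
  have hrp : ∀ t ∈ Ioo a b, 0 < rr T t := fun t ht => J5.rr_pos (ht.2.trans_le hT)
  -- bound of the factor
  have hrc : Continuous (rr T) := by
    unfold rr
    fun_prop
  have hmc : ContinuousOn (fun t => rr T t ^ (-1.95 - 2 : ℝ) *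
      (F.ell 0 t + F.ell 1 t + 2 * F.ell 2 t)) (Icc t1 t2) := by
    refine ContinuousOn.mul ?_ ?_
    · exact ContinuousOn.rpow_const hrc.continuousOn fun t ht => Or.inl (hrp t (hsub ht)).ne'
    · have he : ∀ i, ContinuousOn (F.ell i) (Icc t1 t2) := fun i t ht =>
        (F.ell_t i t (hsub ht)).continuousAt.continuousWithinAt
      exact ((he 0).add (he 1)).add (continuousOn_const.mul (he 2))
  obtain ⟨M, hM⟩ := (isCompact_Icc (a := t1) (b := t2)).exists_bound_of_continuousOn hmc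
  have hM0 : 0 ≤ M := (norm_nonneg _).trans (hM t1 ⟨le_rfl, h12⟩)
  -- regularised functional
  have hreg : ∀ ε > 0, -(1.95 * ε * M) * (t2 - t1) ≤
      rr T t2 ^ (-1.95 : ℝ) * F.J (fun x => J5.A ε (x / rr T t2)) t2 -
      rr T t1 ^ (-1.95 : ℝ) * F.J (fun x => J5.A ε (x / rr T t1)) t1 := by
    intro ε hε
    have hD : ∀ t ∈ Icc t1 t2, ∃ D, HasDerivAt
        (fun τ => rr T τ ^ (-1.95 : ℝ) * F.J (fun x => J5.A ε (x / rr T τ)) τ) D t ∧
        -(1.95 * ε * M) ≤ D := by
      intro t ht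
      obtain ⟨D, h1, h2⟩ := J5.rate F hε hT hr hxi (hsub ht) (hCB t (hsub ht)) (hpos t (hsub ht))
      refine ⟨D, h1, le_trans ?_ h2⟩
      have h3 := (le_abs_self _).trans (hM t ht)
      have h4 := mul_le_mul_of_nonneg_left h3 (show 0 ≤ 1.95 * ε by positivity)
      linarith
    have h := Convex.mul_sub_le_image_sub_of_le_deriv (convex_Icc t1 t2)
      (f := fun τ => rr T τ ^ (-1.95 : ℝ) * F.J (fun x => J5.A ε (x / rr T τ)) τ)
      (fun t ht => by
        obtain ⟨D, h1, -⟩ := hD t ht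
        exact h1.continuousAt.continuousWithinAt)
      (fun t ht => by
        obtain ⟨D, h1, -⟩ := hD t (interior_subset ht)
        exact h1.differentiableAt.differentiableWithinAt)
      (C := -(1.95 * ε * M))
      (fun t ht => by
        obtain ⟨D, h1, h2⟩ := hD t (interior_subset ht)
        rw [h1.deriv]
        exact h2)
      t1 ⟨le_rfl, h12⟩ t2 ⟨h12, le_rfl⟩ h12
    exact h
  have hcl : ∀ t ∈ Ioo a b, ∀ ε > 0,
      |rr T t ^ (-1.95 : ℝ) * F.J (fun x => J5.A ε (x / rr T t)) t -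
        rr T t ^ (-1.95 : ℝ) * F.J (fun x => zeta1 (x / rr T t)) t| ≤
      ε * (rr T t ^ (-1.95 : ℝ) * (F.ell 0 t + F.ell 1 t + 2 * F.ell 2 t)) := by
    intro t ht ε hε
    have hp : 0 < rr T t ^ (-1.95 : ℝ) := Real.rpow_pos_of_pos (hrp t ht) _
    have h := J5.J_close F ht (ψ := fun x => J5.A ε (x / rr T t))
      (φ := fun x => zeta1 (x / rr T t))
      ((J5.A_cont ε).comp (continuous_id.div_const _))
      (J5.zeta1_cont.comp (continuous_id.div_const _)) (ε := ε) (fun y => J5.A_close hε _)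
    rw [← mul_sub, abs_mul, abs_of_pos hp]
    calc _ ≤ rr T t ^ (-1.95 : ℝ) * (ε * (F.ell 0 t + F.ell 1 t + 2 * F.ell 2 t)) := by gcongr
      _ = _ := by ring
  have hK : ∀ t ∈ Ioo a b,
      0 ≤ rr T t ^ (-1.95 : ℝ) * (F.ell 0 t + F.ell 1 t + 2 * F.ell 2 t) := by
    intro t ht
    have h0 := F.ell_pos 0 t ht
    have h1 := F.ell_pos 1 t ht
    have h2 := F.ell_pos 2 t ht
    have hp : 0 < rr T t ^ (-1.95 : ℝ) := Real.rpow_pos_of_pos (hrp t ht) _
    positivity
  set K1 := rr T t1 ^ (-1.95 : ℝ) * (F.ell 0 t1 + F.ell 1 t1 + 2 * F.ell 2 t1) with hK1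
  set K2 := rr T t2 ^ (-1.95 : ℝ) * (F.ell 0 t2 + F.ell 1 t2 + 2 * F.ell 2 t2) with hK2
  have k1 : 0 ≤ K1 := hK t1 ht1
  have k2 : 0 ≤ K2 := hK t2 ht2
  have hall : ∀ ε > 0, rr T t1 ^ (-1.95 : ℝ) * F.J (fun x => zeta1 (x / rr T t1)) t1 ≤
      rr T t2 ^ (-1.95 : ℝ) * F.J (fun x => zeta1 (x / rr T t2)) t2 +
      ε * (K1 + K2 + 1.95 * M * (t2 - t1)) := by
    intro ε hε
    have h1 := abs_le.1 (hcl t1 ht1 ε hε)
    have h2 := abs_le.1 (hcl t2 ht2 ε hε)
    have h3 := hreg ε hε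
    have e1 : ε * (K1 + K2 + 1.95 * M * (t2 - t1)) =
        ε * K1 + ε * K2 + 1.95 * ε * M * (t2 - t1) := by ring
    rw [e1]
    rw [← hK1] at h1
    rw [← hK2] at h2
    linarith [h1.1, h2.2]
  change rr T t1 ^ (-1.95 : ℝ) * F.J (fun x => zeta1 (x / rr T t1)) t1 ≤
      rr T t2 ^ (-1.95 : ℝ) * F.J (fun x => zeta1 (x / rr T t2)) t2
  have hQ : 0 ≤ K1 + K2 + 1.95 * M * (t2 - t1) := by
    have : 0 ≤ t2 - t1 := by linarith
    positivity
  refine le_of_forall_pos_le_add fun δ hδ => ?_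
  have hd : 0 < δ / (K1 + K2 + 1.95 * M * (t2 - t1) + 1) := by positivity
  refine (hall _ hd).trans ?_
  have : δ / (K1 + K2 + 1.95 * M * (t2 - t1) + 1) * (K1 + K2 + 1.95 * M * (t2 - t1)) ≤ δ := by
    rw [div_mul_eq_mul_div, div_le_iff₀ (by positivity)]
    nlinarith
  linarith

end Pool.Agent.Helper15.NF
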