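import Pool.Agent.Helper15.NF.DDefs

open Set MeasureTheory intervalIntegral Filter Topology

namespace Pool.Agent.Helper15.NF

private lemma N3_poly {t : ℝ} (h0 : 0 ≤ t) (h1 : t ≤ 1.44) :
    (0.982 - 0.378 * t - 0.0627 * t ^ 2 - 0.0297 * t ^ 3) * (-3.09 + 1.42 * t - 0.126 * t ^ 2)
      + 3 - 2.575 * t + 0.497 * t ^ 2 - 0.027 * t ^ 3 ≤ 0 := by
  have h5 : 0 ≤ t ^ 4 * (1.44 - t) := by
    apply mul_nonneg (by positivity); linarith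
  nlinarith [sq_nonneg (t - 1), sq_nonneg t, sq_nonneg (t ^ 2 - 1), mul_nonneg h0 (sq_nonneg (t - 1)),
    sq_nonneg (t ^ 2 - t), mul_nonneg h0 (sub_nonneg.mpr h1)]

/-- N3 : upper test function, inner inequality -/
theorem p2_ineq {y c : ℝ} (hy : y ∈ Icc (0:ℝ) 1.2) (hc : cpol y - 0.018 ≤ c) :
    c * (-6 * 0.515 * y + 20 * 0.071 * y ^ 3 - 42 * 0.003 * y ^ 5)
      + y * (1 - 3 * 0.515 * y ^ 2 + 5 * 0.071 * y ^ 4 - 7 * 0.003 * y ^ 6)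
      + 2 * p2 y ≤ 0 := by
  obtain ⟨h0, h1⟩ := hy
  have ht0 : 0 ≤ y ^ 2 := by positivity
  have ht1 : y ^ 2 ≤ 1.44 := by nlinarith
  have key : c * (-3.09 + 1.42 * y ^ 2 - 0.126 * (y ^ 2) ^ 2)
      + 3 - 2.575 * y ^ 2 + 0.497 * (y ^ 2) ^ 2 - 0.027 * (y ^ 2) ^ 3 ≤ 0 := by
    have e4 : y ^ 4 = (y ^ 2) ^ 2 := by ring
    have e6 : y ^ 6 = (y ^ 2) ^ 3 := by ring
    unfold cpol at hc
    rw [e4, e6] at hc
    set t := y ^ 2 with htt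
    have hneg : -3.09 + 1.42 * t - 0.126 * t ^ 2 ≤ 0 := by nlinarith
    have s1 := mul_le_mul_of_nonpos_right (by linarith :
      0.982 - 0.378 * t - 0.0627 * t ^ 2 - 0.0297 * t ^ 3 ≤ c) hneg
    have s2 := N3_poly ht0 ht1
    linarith
  have e : c * (-6 * 0.515 * y + 20 * 0.071 * y ^ 3 - 42 * 0.003 * y ^ 5)
      + y * (1 - 3 * 0.515 * y ^ 2 + 5 * 0.071 * y ^ 4 - 7 * 0.003 * y ^ 6)
      + 2 * p2 y = y * (c * (-3.09 + 1.42 * y ^ 2 - 0.126 * (y ^ 2) ^ 2)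
      + 3 - 2.575 * y ^ 2 + 0.497 * (y ^ 2) ^ 2 - 0.027 * (y ^ 2) ^ 3) := by
    unfold p2; ring
  rw [e]
  exact mul_nonpos_of_nonneg_of_nonpos h0 key

end Pool.Agent.Helper15.NF
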