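import Pool.Agent.Helper15.NF.DDefs

open Set MeasureTheory intervalIntegral Filter Topology

namespace Pool.Agent.Helper15.NF

/-- N4 : the slope condition at the junction -/
theorem p2_slope {y : ℝ} (hy : y ∈ Icc (1.186:ℝ) 1.198) :
    0.02 ≤ (1 - 3 * 0.515 * y ^ 2 + 5 * 0.071 * y ^ 4 - 7 * 0.003 * y ^ 6) + y * p2 y ∧
    p2 y ≤ 0.5 := by
  obtain ⟨h0, h1⟩ := hy
  have ht0 : 1.4065 ≤ y ^ 2 := by nlinarith
  have ht1 : y ^ 2 ≤ 1.43521 := by nlinarith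
  constructor
  · have e : (1 - 3 * 0.515 * y ^ 2 + 5 * 0.071 * y ^ 4 - 7 * 0.003 * y ^ 6) + y * p2 y
        = 1 - 0.545 * y ^ 2 - 0.16 * (y ^ 2) ^ 2 + 0.05 * (y ^ 2) ^ 3 - 0.003 * (y ^ 2) ^ 4 := by
      unfold p2; ring
    rw [e]
    set t := y ^ 2
    nlinarith [mul_nonneg (sub_nonneg.mpr ht0) (sub_nonneg.mpr ht1), sq_nonneg (t ^ 2 - 2),
      mul_nonneg (mul_nonneg (sub_nonneg.mpr ht0) (sub_nonneg.mpr ht1)) (by linarith : 0 ≤ t),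
      sq_nonneg (t * (t - 1.42)), sq_nonneg (t - 1.42)]
  · have e : p2 y = y * (1 - 0.515 * y ^ 2 + 0.071 * (y ^ 2) ^ 2 - 0.003 * (y ^ 2) ^ 3) := by
      unfold p2; ring
    rw [e]
    set t := y ^ 2
    have h2 : 1 - 0.515 * t + 0.071 * t ^ 2 - 0.003 * t ^ 3 ≤ 0.415 := by
      nlinarith [mul_nonneg (sub_nonneg.mpr ht0) (sub_nonneg.mpr ht1),
        mul_nonneg (mul_nonneg (sub_nonneg.mpr ht0) (sub_nonneg.mpr ht1)) (by linarith : 0 ≤ t)]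
    nlinarith

end Pool.Agent.Helper15.NF
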