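import Pool.Agent.Helper15.NF.JR
import Pool.Agent.Helper15.NF.J4
import Pool.Agent.Helper15.NF.N3
import Pool.Agent.Helper15.NF.N4

open Set MeasureTheory intervalIntegral Filter Topology

namespace Pool.Agent.Helper15.NF

variable {a b Lx : ℝ}

theorem J6_contDiff (xi : ℝ) : ContDiff ℝ 3 (zeta2 xi) := by
  have h1 : ContDiff ℝ 3 (fun y : ℝ => p2 y) := by unfold p2; fun_prop
  have h2 : ContDiff ℝ 3 (fun y : ℝ => Real.smoothTransition ((y - xi - 0.003) / 0.01)) :=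
    Real.smoothTransition.contDiff.comp (by fun_prop)
  exact h1.mul (contDiff_const.sub h2)

theorem J6_contDiff1 (xi : ℝ) : ContDiff ℝ 2 (deriv (zeta2 xi)) := by
  have h3 : ContDiff ℝ (2 + 1) (zeta2 xi) := by
    have := J6_contDiff xi
    exact_mod_cast this
  exact (contDiff_succ_iff_deriv.1 h3).2.2

theorem J6_contDiff2 (xi : ℝ) : ContDiff ℝ 1 (deriv (deriv (zeta2 xi))) := by
  have h3 : ContDiff ℝ (1 + 1) (deriv (zeta2 xi)) := by
    have := J6_contDiff1 xi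
    exact_mod_cast this
  exact (contDiff_succ_iff_deriv.1 h3).2.2

theorem J6_hasDeriv (xi y : ℝ) : HasDerivAt (zeta2 xi) (deriv (zeta2 xi) y) y :=
  ((J6_contDiff xi).differentiable (by norm_num) y).hasDerivAt

theorem J6_hasDeriv1 (xi y : ℝ) :
    HasDerivAt (deriv (zeta2 xi)) (deriv (deriv (zeta2 xi)) y) y :=
  ((J6_contDiff1 xi).differentiable (by norm_num) y).hasDerivAt

theorem J6_lo {xi y : ℝ} (hy : y ≤ xi + 0.003) : zeta2 xi y = p2 y := by
  unfold zeta2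
  rw [Real.smoothTransition.zero_of_nonpos]
  · ring
  · exact div_nonpos_of_nonpos_of_nonneg (by linarith) (by norm_num)

theorem J6_hi {xi y : ℝ} (hy : xi + 0.013 ≤ y) : zeta2 xi y = 0 := by
  unfold zeta2
  rw [Real.smoothTransition.one_of_one_le]
  · ring
  · rw [le_div_iff₀ (by norm_num)]; linarith

theorem J6_p2_deriv : deriv p2 = fun y => 1 - 3 * 0.515 * y ^ 2 + 5 * 0.071 * y ^ 4
    - 7 * 0.003 * y ^ 6 := by
  funext y
  have h : HasDerivAt p2 (1 - 0.515 * (3 * y ^ 2) + 0.071 * (5 * y ^ 4) - 0.003 * (7 * y ^ 6)) y := by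
    unfold p2
    have := (((hasDerivAt_id y).sub ((hasDerivAt_pow 3 y).const_mul 0.515)).add
      ((hasDerivAt_pow 5 y).const_mul 0.071)).sub ((hasDerivAt_pow 7 y).const_mul 0.003)
    exact this.congr_deriv (by norm_num)
  rw [h.deriv]; ring

theorem J6_p2_deriv2 : deriv (deriv p2) = fun y => -6 * 0.515 * y + 20 * 0.071 * y ^ 3
    - 42 * 0.003 * y ^ 5 := by
  funext y
  rw [J6_p2_deriv]
  have h : HasDerivAt (fun y : ℝ => 1 - 3 * 0.515 * y ^ 2 + 5 * 0.071 * y ^ 4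
    - 7 * 0.003 * y ^ 6) (0 - 3 * 0.515 * (2 * y ^ 1) + 5 * 0.071 * (4 * y ^ 3)
      - 7 * 0.003 * (6 * y ^ 5)) y := by
    have := (((hasDerivAt_const y (1:ℝ)).sub ((hasDerivAt_pow 2 y).const_mul (3 * 0.515))).add
      ((hasDerivAt_pow 4 y).const_mul (5 * 0.071))).sub ((hasDerivAt_pow 6 y).const_mul (7 * 0.003))
    exact this.congr_deriv (by norm_num)
  rw [h.deriv]; ring

theorem J6_eq_nhds {xi y : ℝ} (hy : y < xi + 0.003) : zeta2 xi =ᶠ[𝓝 y] p2 := by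
  filter_upwards [Iio_mem_nhds hy] with z hz
  exact J6_lo (le_of_lt hz)

theorem J6_d1 {xi y : ℝ} (hy : y < xi + 0.003) : deriv (zeta2 xi) y =
    1 - 3 * 0.515 * y ^ 2 + 5 * 0.071 * y ^ 4 - 7 * 0.003 * y ^ 6 := by
  rw [(J6_eq_nhds hy).deriv_eq, J6_p2_deriv]

theorem J6_d2 {xi y : ℝ} (hy : y < xi + 0.003) : deriv (deriv (zeta2 xi)) y =
    -6 * 0.515 * y + 20 * 0.071 * y ^ 3 - 42 * 0.003 * y ^ 5 := by
  rw [(J6_eq_nhds hy).deriv.deriv_eq, J6_p2_deriv2]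

theorem J6_hi1 {xi y : ℝ} (hy : xi + 0.013 ≤ y) : deriv (zeta2 xi) y = 0 := by
  have h : EqOn (deriv (zeta2 xi)) (fun _ => 0) (Ioi (xi + 0.013)) := by
    intro z hz
    have : zeta2 xi =ᶠ[𝓝 z] fun _ => 0 := by
      filter_upwards [Ioi_mem_nhds hz] with w hw
      exact J6_hi (le_of_lt hw)
    rw [this.deriv_eq]; simp
  have h2 := h.closure (J6_contDiff1 xi).continuous continuous_const
  rw [closure_Ioi] at h2
  exact h2 hy

theorem J6_hi2 {xi y : ℝ} (hy : xi + 0.013 ≤ y) : deriv (deriv (zeta2 xi)) y = 0 := by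
  have h : EqOn (deriv (deriv (zeta2 xi))) (fun _ => 0) (Ioi (xi + 0.013)) := by
    intro z hz
    have : deriv (zeta2 xi) =ᶠ[𝓝 z] fun _ => 0 := by
      filter_upwards [Ioi_mem_nhds hz] with w hw
      exact J6_hi1 (le_of_lt hw)
    rw [this.deriv_eq]; simp
  have h2 := h.closure (J6_contDiff2 xi).continuous continuous_const
  rw [closure_Ioi] at h2
  exact h2 hy

/-- cosine of the ray -/
theorem J6_cos {F : Flow a b Lx} {T t xi : ℝ} (hCB : CB F T t xi) {σ : ℝ} (hσ : σ ∈ Icc (0:ℝ) 1) :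
    0.99 ≤ Real.cos (F.th 2 t σ) := by
  have h1 := hCB.small σ hσ
  have h2 := Real.one_sub_sq_div_two_le_cos (x := F.th 2 t σ)
  have h3 := abs_le.1 h1
  nlinarith [h3.1, h3.2]

theorem J6_off2 : off 2 = 0 := by
  simp [off]

theorem J6_angle (F : Flow a b 1) {T xi t : ℝ} (ht : t ∈ Ioo a b) (hCB : CB F T t xi)
    {Ck : ℝ} (hk : ∀ σ ∈ Icc (0:ℝ) 1, F.X 2 t σ ≤ 6 * rr T t → |F.k 2 t σ| ≤ Ck)
    {s : ℝ} (hs : s ∈ Icc (0:ℝ) 1) (hX : F.X 2 t s ≤ 6 * rr T t) :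
    |F.th 2 t s - F.th 2 t 0| ≤ 2 * Ck * (F.X 2 t s - F.X 2 t 0) ∧ 0 ≤ Ck ∧
      F.X 2 t 0 ≤ F.X 2 t s := by
  have hell := F.ell_pos 2 t ht
  have hmono : MonotoneOn (fun σ => F.X 2 t σ - F.ell 2 t / 2 * σ) (Icc (0:ℝ) 1) := by
    apply monotoneOn_of_hasDerivWithinAt_nonneg (convex_Icc 0 1)
      (f' := fun σ => F.ell 2 t * Real.cos (F.th 2 t σ + off 2) - F.ell 2 t / 2)
    · intro σ hσ
      exact ((F.X_s 2 t ht σ hσ).continuousWithinAt).sub
        (continuousWithinAt_const.mul continuousWithinAt_id)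
    · intro σ hσ
      have hσ' := interior_subset hσ
      have h1 := (F.X_s 2 t ht σ hσ').mono interior_subset
      have h2 : HasDerivWithinAt (fun σ : ℝ => F.ell 2 t / 2 * σ) (F.ell 2 t / 2 * 1)
          (interior (Icc 0 1)) σ := (hasDerivWithinAt_id σ _).const_mul _
      have h3 := h1.sub h2
      rw [mul_one] at h3
      exact h3
    · intro σ hσ
      have hσ' := interior_subset hσ
      have h1 := J6_cos hCB hσ'
      rw [J6_off2, add_zero]
      nlinarith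
  have hX0 : ∀ σ ∈ Icc (0:ℝ) s, F.X 2 t σ ≤ F.X 2 t s := by
    intro σ hσ
    have h1 := hmono (⟨hσ.1, hσ.2.trans hs.2⟩ : σ ∈ Icc (0:ℝ) 1) hs hσ.2
    simp only at h1
    nlinarith [hσ.2]
  have h0s : F.ell 2 t * s ≤ 2 * (F.X 2 t s - F.X 2 t 0) := by
    have h1 := hmono (⟨le_rfl, by norm_num⟩ : (0:ℝ) ∈ Icc (0:ℝ) 1) hs hs.1
    simp only at h1
    linarith
  have hCk : 0 ≤ Ck := le_trans (abs_nonneg _) (hk s hs hX)
  refine ⟨?_, hCk, hX0 0 ⟨le_rfl, hs.1⟩⟩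
  have h2 := Convex.norm_image_sub_le_of_norm_hasDerivWithin_le (s := Icc (0:ℝ) s)
    (f := F.th 2 t) (f' := fun σ => F.ell 2 t * F.k 2 t σ) (C := F.ell 2 t * Ck)
    (x := 0) (y := s)
    (fun σ hσ => (F.th_s 2 t ht σ ⟨hσ.1, hσ.2.trans hs.2⟩).mono (Icc_subset_Icc_right hs.2))
    (fun σ hσ => by
      rw [norm_mul, Real.norm_of_nonneg hell.le, Real.norm_eq_abs]
      exact mul_le_mul_of_nonneg_left
        (hk σ ⟨hσ.1, hσ.2.trans hs.2⟩ ((hX0 σ hσ).trans hX)) hell.le)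
    (convex_Icc 0 s) ⟨le_rfl, hs.1⟩ ⟨hs.1, le_rfl⟩
  rw [Real.norm_eq_abs, Real.norm_eq_abs, sub_zero, abs_of_nonneg hs.1] at h2
  nlinarith

theorem J6_tan_sub {u v : ℝ} (hu : 0.99 ≤ Real.cos u) (hv : 0.99 ≤ Real.cos v) :
    |Real.tan u - Real.tan v| ≤ 2 * |u - v| := by
  have hu0 : Real.cos u ≠ 0 := by positivity
  have hv0 : Real.cos v ≠ 0 := by positivity
  have h : Real.tan u - Real.tan v = Real.sin (u - v) / (Real.cos u * Real.cos v) := by
    rw [Real.tan_eq_sin_div_cos, Real.tan_eq_sin_div_cos, Real.sin_sub]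
    field_simp
  rw [h, abs_div]
  have h1 : |Real.sin (u - v)| ≤ |u - v| := Real.abs_sin_le_abs
  have h2 : (1:ℝ) / 2 ≤ |Real.cos u * Real.cos v| := by
    rw [abs_of_nonneg (by positivity)]
    nlinarith
  rw [div_le_iff₀ (by linarith)]
  nlinarith [abs_nonneg (u - v)]

theorem J6_rpos {T t : ℝ} (ht : t ∈ Ioo a b) (hT : b ≤ T) : 0 < rr T t := by
  unfold rr
  exact Real.sqrt_pos.2 (by linarith [ht.2])

theorem J6_rle {T t : ℝ} (ht : t ∈ Ioo a b) (hr : rr T a ≤ 1 / 10) : rr T t ≤ 1 / 10 := by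
  refine le_trans ?_ hr
  unfold rr
  exact Real.sqrt_le_sqrt (by linarith [ht.1])

theorem J6_arcs (F : Flow a b 1) {T xi t : ℝ} (ht : t ∈ Ioo a b) (hT : b ≤ T)
    (hxi : xi ∈ Icc (1.187:ℝ) 1.197) (hCB : CB F T t xi) (hP : F.Pos t)
    {sa sb : ℝ → ℝ}
    (hsa : ∀ x ∈ Icc 0 (F.X 2 t 0), sa x ∈ Icc (0:ℝ) 1 ∧ F.X 0 t (sa x) = x)
    (hsb : ∀ x ∈ Icc 0 (F.X 2 t 0), sb x ∈ Icc (0:ℝ) 1 ∧ F.X 1 t (sb x) = x)
    {x : ℝ} (hx : x ∈ Icc 0 (F.X 2 t 0)) :
    deriv (deriv (zeta2 xi)) (x / rr T t) * (F.th 0 t (sa x) + F.th 1 t (sb x)) +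
      (x / rr T t * deriv (zeta2 xi) (x / rr T t) + 2 * zeta2 xi (x / rr T t)) *
        (Real.tan (F.th 0 t (sa x) + off 0) + Real.tan (F.th 1 t (sb x) + off 1)) ≤ 0 := by
  have hr := J6_rpos ht hT
  have hj := abs_le.1 hCB.jx
  have hy1 : x / rr T t ≤ xi + 0.001 := by
    have : x / rr T t ≤ F.X 2 t 0 / rr T t := by gcongr; exact hx.2
    linarith [hj.2]
  have hy0 : 0 ≤ x / rr T t := div_nonneg hx.1 hr.le
  obtain ⟨h1, h2, h3⟩ := ratio_lens F ht hT hCB hP (hsa x hx).1 (hsb x hx).1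
    ((hsa x hx).2.trans (hsb x hx).2.symm)
  rw [(hsa x hx).2] at h2 h3
  set y := x / rr T t with hy
  set v := Real.tan (F.th 0 t (sa x) + off 0) + Real.tan (F.th 1 t (sb x) + off 1) with hv
  set f := F.th 0 t (sa x) + F.th 1 t (sb x) with hf
  rw [J6_d2 (by linarith), J6_d1 (by linarith), J6_lo (by linarith)]
  rcases h1.eq_or_lt with h0 | h0
  · rw [← h0] at h2 h3 ⊢
    have : f = 0 := by linarith
    rw [this]; simp
  · have hc : cpol y - 0.018 ≤ f / v := by rw [le_div_iff₀ h0]; exact h2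
    have h4 := p2_ineq (y := y) (c := f / v) ⟨hy0, by linarith [hxi.2]⟩ hc
    have h5 := mul_le_mul_of_nonneg_right h4 h0.le
    have h6 : f / v * v = f := div_mul_cancel₀ f h0.ne'
    have h7 : (f / v * (-6 * 0.515 * y + 20 * 0.071 * y ^ 3 - 42 * 0.003 * y ^ 5)
      + y * (1 - 3 * 0.515 * y ^ 2 + 5 * 0.071 * y ^ 4 - 7 * 0.003 * y ^ 6)
      + 2 * p2 y) * v = (f / v * v) * (-6 * 0.515 * y + 20 * 0.071 * y ^ 3 - 42 * 0.003 * y ^ 5)
      + (y * (1 - 3 * 0.515 * y ^ 2 + 5 * 0.071 * y ^ 4 - 7 * 0.003 * y ^ 6) + 2 * p2 y) * v := by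
      ring
    rw [h7, h6, zero_mul] at h5
    linarith

theorem J6_ray_pt (F : Flow a b 1) {T xi t : ℝ} (ht : t ∈ Ioo a b) (hT : b ≤ T)
    (hxi : xi ∈ Icc (1.187:ℝ) 1.197) (hCB : CB F T t xi)
    {Ck : ℝ} (hk : ∀ σ ∈ Icc (0:ℝ) 1, F.X 2 t σ ≤ 6 * rr T t → |F.k 2 t σ| ≤ Ck)
    {M1 M2 : ℝ}
    (hM1 : ∀ y ∈ Icc (0:ℝ) 1.3, |y * deriv (zeta2 xi) y + 2 * zeta2 xi y| ≤ M1)
    (hM2 : ∀ y ∈ Icc (0:ℝ) 1.3, |deriv (deriv (zeta2 xi)) y| ≤ M2)
    {x s : ℝ} (hs : s ∈ Icc (0:ℝ) 1) (hx : F.X 2 t s = x) (hx2 : x ≤ (xi + 0.013) * rr T t) :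
    |(deriv (deriv (zeta2 xi)) (x / rr T t) * (2 * F.th 2 t s) +
      (x / rr T t * deriv (zeta2 xi) (x / rr T t) + 2 * zeta2 xi (x / rr T t)) *
        (2 * Real.tan (F.th 2 t s))) -
    (deriv (deriv (zeta2 xi)) (x / rr T t) * (2 * F.th 2 t 0) +
      (x / rr T t * deriv (zeta2 xi) (x / rr T t) + 2 * zeta2 xi (x / rr T t)) *
        (2 * Real.tan (F.th 2 t 0)))| ≤ (M2 * 2 + M1 * 4) * (Ck * rr T t) := by
  have hr := J6_rpos ht hT
  have hj := abs_le.1 hCB.jx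
  have hX6 : F.X 2 t s ≤ 6 * rr T t := by
    rw [hx]; nlinarith [hxi.2]
  obtain ⟨h1, hCk, h2⟩ := J6_angle F ht hCB hk hs hX6
  have hXJ : (xi - 0.001) * rr T t ≤ F.X 2 t 0 := by
    have : xi - 0.001 ≤ F.X 2 t 0 / rr T t := by linarith [hj.1]
    rwa [le_div_iff₀ hr] at this
  have h3 : |F.th 2 t s - F.th 2 t 0| ≤ Ck * rr T t := by
    refine h1.trans ?_
    rw [hx]
    have : x - F.X 2 t 0 ≤ 0.014 * rr T t := by nlinarith
    nlinarith [mul_nonneg hCk hr.le, mul_le_mul_of_nonneg_left this hCk]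
  have hz : (0:ℝ) ∈ Icc (0:ℝ) 1 := ⟨le_rfl, by norm_num⟩
  have h4 := J6_tan_sub (J6_cos hCB hs) (J6_cos hCB hz)
  have hy0 : 0 ≤ x / rr T t := by
    refine div_nonneg ?_ hr.le
    rw [← hx]
    exact le_trans (by nlinarith [hxi.1]) h2
  have hy1 : x / rr T t ≤ 1.3 := by
    rw [div_le_iff₀ hr]; nlinarith [hxi.2]
  have h5 := hM1 _ ⟨hy0, hy1⟩
  have h6 := hM2 _ ⟨hy0, hy1⟩
  set y := x / rr T t
  set A2 := deriv (deriv (zeta2 xi)) y
  set A1 := y * deriv (zeta2 xi) y + 2 * zeta2 xi y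
  have e : A2 * (2 * F.th 2 t s) + A1 * (2 * Real.tan (F.th 2 t s)) -
      (A2 * (2 * F.th 2 t 0) + A1 * (2 * Real.tan (F.th 2 t 0))) =
      A2 * (2 * (F.th 2 t s - F.th 2 t 0)) +
        A1 * (2 * (Real.tan (F.th 2 t s) - Real.tan (F.th 2 t 0))) := by ring
  rw [e]
  refine (abs_add_le _ _).trans ?_
  rw [abs_mul, abs_mul, abs_mul, abs_mul, abs_two]
  have h7 : |Real.tan (F.th 2 t s) - Real.tan (F.th 2 t 0)| ≤ 2 * (Ck * rr T t) := by linarith
  have hM2p : 0 ≤ M2 := (abs_nonneg _).trans h6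
  have hM1p : 0 ≤ M1 := (abs_nonneg _).trans h5
  have h8 : |A2| * (2 * |F.th 2 t s - F.th 2 t 0|) ≤ M2 * (2 * (Ck * rr T t)) := by gcongr
  have h9 : |A1| * (2 * |Real.tan (F.th 2 t s) - Real.tan (F.th 2 t 0)|) ≤
      M1 * (2 * (2 * (Ck * rr T t))) := by gcongr
  linarith

theorem J6_p2_bd {y : ℝ} (hy : y ∈ Icc (1.186:ℝ) 1.21) : p2 y ≤ 0.53 ∧ 0 ≤ p2 y := by
  have h1 := hy.1
  have h2 := hy.2
  have h3 : (1.186:ℝ) ^ 3 ≤ y ^ 3 := by gcongr
  have h5 : y ^ 5 ≤ (1.21:ℝ) ^ 5 := by gcongr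
  have h5' : (1.186:ℝ) ^ 5 ≤ y ^ 5 := by gcongr
  have h7 : (1.186:ℝ) ^ 7 ≤ y ^ 7 := by gcongr
  have h7' : y ^ 7 ≤ (1.21:ℝ) ^ 7 := by gcongr
  have h3' : y ^ 3 ≤ (1.21:ℝ) ^ 3 := by gcongr
  unfold p2
  norm_num at *
  constructor <;> linarith

theorem J6_zeta_bd {xi y : ℝ} (hy : y ∈ Icc (1.186:ℝ) 1.21) : zeta2 xi y ≤ 0.53 ∧
    0 ≤ zeta2 xi y := by
  have h := J6_p2_bd hy
  unfold zeta2
  have h1 := Real.smoothTransition.nonneg ((y - xi - 0.003) / 0.01)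
  have h2 := Real.smoothTransition.le_one ((y - xi - 0.003) / 0.01)
  constructor
  · nlinarith [h.1, h.2]
  · exact mul_nonneg h.2 (by linarith)

theorem J6_p2_nonneg {y : ℝ} (hy : y ∈ Icc (0:ℝ) 1.21) : 0 ≤ p2 y := by
  have h1 : y ^ 2 ≤ 1.4641 := by nlinarith [hy.1, hy.2]
  have e : p2 y = y * ((1 - 0.515 * y ^ 2) + (y ^ 2) ^ 2 * (0.071 - 0.003 * y ^ 2)) := by
    unfold p2; ring
  rw [e]
  refine mul_nonneg hy.1 (add_nonneg (by nlinarith) (mul_nonneg (sq_nonneg _) (by nlinarith)))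

theorem J6_zeta_nonneg {xi y : ℝ} (hxi : xi ∈ Icc (1.187:ℝ) 1.197) (hy : 0 ≤ y) :
    0 ≤ zeta2 xi y := by
  rcases le_total y (xi + 0.013) with h | h
  · unfold zeta2
    have h2 := Real.smoothTransition.le_one ((y - xi - 0.003) / 0.01)
    exact mul_nonneg (J6_p2_nonneg ⟨hy, by linarith [hxi.2]⟩) (by linarith)
  · rw [J6_hi h]

theorem J6_ray_main {xi r XJ θ τ : ℝ} (hxi : xi ∈ Icc (1.187:ℝ) 1.197) (hr : 0 < r)
    (hj : |XJ / r - xi| ≤ 0.001) (hθ : 0 ≤ θ) (hτ : θ ≤ τ) (hτ' : τ ≤ 1.1 * θ) :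
    ∫ x in XJ..((xi + 0.013) * r), (deriv (deriv (zeta2 xi)) (x / r) * (2 * θ) +
      (x / r * deriv (zeta2 xi) (x / r) + 2 * zeta2 xi (x / r)) * (2 * τ)) ≤ 0 := by
  have hj' := abs_le.1 hj
  have hc0 : Continuous (zeta2 xi) := (J6_contDiff xi).continuous
  have hc1 : Continuous (deriv (zeta2 xi)) := (J6_contDiff1 xi).continuous
  have hc2 : Continuous (deriv (deriv (zeta2 xi))) := (J6_contDiff2 xi).continuous
  have hq : Continuous (fun x : ℝ => x / r) := by fun_prop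
  have hXJ1 : XJ ≤ (xi + 0.001) * r := by
    have : XJ / r ≤ xi + 0.001 := by linarith [hj'.2]
    rwa [div_le_iff₀ hr] at this
  have hXJ0 : (xi - 0.001) * r ≤ XJ := by
    have : xi - 0.001 ≤ XJ / r := by linarith [hj'.1]
    rwa [le_div_iff₀ hr] at this
  -- FTC
  have hG : ∀ x : ℝ, HasDerivAt (fun x => 2 * θ * (r * deriv (zeta2 xi) (x / r)) +
      2 * τ * (x * zeta2 xi (x / r)))
      (2 * θ * (r * (deriv (deriv (zeta2 xi)) (x / r) * (1 / r))) +
      2 * τ * (1 * zeta2 xi (x / r) + x * (deriv (zeta2 xi) (x / r) * (1 / r)))) x := by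
    intro x
    have hd : HasDerivAt (fun x : ℝ => x / r) (1 / r) x := (hasDerivAt_id x).div_const r
    have h1 := (J6_hasDeriv1 xi (x / r)).comp x hd
    have h2 := (J6_hasDeriv xi (x / r)).comp x hd
    exact ((h1.const_mul r).const_mul (2 * θ)).add
      (((hasDerivAt_id x).mul h2).const_mul (2 * τ))
  have hcG : Continuous (fun x => 2 * θ * (r * (deriv (deriv (zeta2 xi)) (x / r) * (1 / r))) +
      2 * τ * (1 * zeta2 xi (x / r) + x * (deriv (zeta2 xi) (x / r) * (1 / r)))) := by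
    have := hc2.comp hq
    have := hc1.comp hq
    have := hc0.comp hq
    fun_prop
  have hF := integral_eq_sub_of_hasDerivAt (a := XJ) (b := (xi + 0.013) * r)
    (fun x _ => hG x) (hcG.intervalIntegrable _ _)
  have e : ∀ x : ℝ, (deriv (deriv (zeta2 xi)) (x / r) * (2 * θ) +
      (x / r * deriv (zeta2 xi) (x / r) + 2 * zeta2 xi (x / r)) * (2 * τ)) =
      (2 * θ * (r * (deriv (deriv (zeta2 xi)) (x / r) * (1 / r))) +
      2 * τ * (1 * zeta2 xi (x / r) + x * (deriv (zeta2 xi) (x / r) * (1 / r)))) +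
      2 * τ * zeta2 xi (x / r) := by
    intro x; field_simp; ring
  simp_rw [e]
  have hcA : Continuous (fun x => 2 * τ * zeta2 xi (x / r)) := by
    have := hc0.comp hq
    fun_prop
  rw [intervalIntegral.integral_add (hcG.intervalIntegrable _ _) (hcA.intervalIntegrable _ _), hF]
  have hstar : (xi + 0.013) * r / r = xi + 0.013 := by field_simp
  rw [hstar, J6_hi le_rfl, J6_hi1 le_rfl]
  -- the integral of A
  have hA : ∫ x in XJ..((xi + 0.013) * r), 2 * τ * zeta2 xi (x / r) ≤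
      2 * τ * (0.53 * (0.014 * r)) := by
    have hle : XJ ≤ (xi + 0.013) * r := by nlinarith
    have h1 : ∫ x in XJ..((xi + 0.013) * r), 2 * τ * zeta2 xi (x / r) ≤
        ∫ x in XJ..((xi + 0.013) * r), 2 * τ * 0.53 := by
      apply intervalIntegral.integral_mono_on hle (hcA.intervalIntegrable _ _)
        (by simp)
      intro x hx
      have hy : x / r ∈ Icc (1.186:ℝ) 1.21 := by
        constructor
        · rw [le_div_iff₀ hr]
          nlinarith [hx.1, hxi.1]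
        · rw [div_le_iff₀ hr]
          nlinarith [hx.2, hxi.2]
      have := (J6_zeta_bd (xi := xi) hy).1
      have : 0 ≤ 2 * τ := by linarith
      gcongr
    refine h1.trans ?_
    rw [intervalIntegral.integral_const, smul_eq_mul]
    have h2 : (xi + 0.013) * r - XJ ≤ 0.014 * r := by nlinarith
    have h3 : 0 ≤ 2 * τ * 0.53 := by nlinarith
    nlinarith [mul_le_mul_of_nonneg_right h2 h3]
  -- the slope condition
  have hyJ : XJ / r ∈ Icc (1.186:ℝ) 1.198 := ⟨by linarith [hj'.1, hxi.1], by linarith [hj'.2, hxi.2]⟩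
  have hN := (p2_slope hyJ).1
  have hp := (J6_p2_bd (y := XJ / r) ⟨hyJ.1, by linarith [hyJ.2]⟩)
  rw [J6_lo (y := XJ / r) (by linarith [hj'.2]), J6_d1 (y := XJ / r) (by linarith [hj'.2])]
  set y := XJ / r with hy
  have hXy : XJ = y * r := by rw [hy]; field_simp
  set d := 1 - 3 * 0.515 * y ^ 2 + 5 * 0.071 * y ^ 4 - 7 * 0.003 * y ^ 6 with hd
  have h1 : θ * (y * r * p2 y) ≤ τ * (y * r * p2 y) := by
    apply mul_le_mul_of_nonneg_right hτ
    have : 0 ≤ y := by linarith [hyJ.1]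
    exact mul_nonneg (mul_nonneg this hr.le) hp.2
  rw [← hXy] at h1
  have h2 : 0.02 * (θ * r) ≤ (d + y * p2 y) * (θ * r) :=
    mul_le_mul_of_nonneg_right hN (mul_nonneg hθ hr.le)
  have h3 : τ * r ≤ 1.1 * θ * r := mul_le_mul_of_nonneg_right hτ' hr.le
  have h4 : θ * (XJ * p2 y) = y * p2 y * (θ * r) := by rw [hXy]; ring
  have h5 : 0 ≤ θ * r := mul_nonneg hθ hr.le
  nlinarith

theorem J6_tan_le {θ : ℝ} (h0 : 0 ≤ θ) (h1 : θ ≤ 0.01) :
    θ ≤ Real.tan θ ∧ Real.tan θ ≤ 1.1 * θ := by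
  have hc : 0.99 ≤ Real.cos θ := by
    have := Real.one_sub_sq_div_two_le_cos (x := θ)
    nlinarith
  have hs : Real.sin θ ≤ θ := Real.sin_le h0
  constructor
  · exact Real.le_tan h0 (by linarith [Real.pi_gt_three])
  · rw [Real.tan_eq_sin_div_cos, div_le_iff₀ (by linarith)]
    nlinarith

theorem J6_ray (F : Flow a b 1) {T xi t : ℝ} (ht : t ∈ Ioo a b) (hT : b ≤ T)
    (hr1 : rr T a ≤ 1 / 10)
    (hxi : xi ∈ Icc (1.187:ℝ) 1.197) (hCB : CB F T t xi) (hP : F.Pos t)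
    {Ck : ℝ} (hk : ∀ σ ∈ Icc (0:ℝ) 1, F.X 2 t σ ≤ 6 * rr T t → |F.k 2 t σ| ≤ Ck)
    {M1 M2 : ℝ}
    (hM1 : ∀ y ∈ Icc (0:ℝ) 1.3, |y * deriv (zeta2 xi) y + 2 * zeta2 xi y| ≤ M1)
    (hM2 : ∀ y ∈ Icc (0:ℝ) 1.3, |deriv (deriv (zeta2 xi)) y| ≤ M2)
    {sc : ℝ → ℝ} (hcs : ContinuousOn sc (Icc (F.X 2 t 0) 1))
    (hsc : ∀ x ∈ Icc (F.X 2 t 0) 1, sc x ∈ Icc (0:ℝ) 1 ∧ F.X 2 t (sc x) = x) :
    ∫ x in (F.X 2 t 0)..1, (deriv (deriv (zeta2 xi)) (x / rr T t) * (2 * F.th 2 t (sc x)) +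
      (x / rr T t * deriv (zeta2 xi) (x / rr T t) + 2 * zeta2 xi (x / rr T t)) *
        (2 * Real.tan (F.th 2 t (sc x)))) ≤
      (M2 * 2 + M1 * 4) * (Ck * rr T t) * (0.014 * rr T t) := by
  have hr := J6_rpos ht hT
  have hrle := J6_rle (T := T) ht hr1
  have hj := abs_le.1 hCB.jx
  set r := rr T t with hrdef
  set XJ := F.X 2 t 0 with hXJ
  have hz : (0:ℝ) ∈ Icc (0:ℝ) 1 := ⟨le_rfl, by norm_num⟩
  have hXJ1 : XJ ≤ (xi + 0.001) * r := by
    have : XJ / r ≤ xi + 0.001 := by linarith [hj.2]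
    rwa [div_le_iff₀ hr] at this
  have hXJ0 : (xi - 0.001) * r ≤ XJ := by
    have : xi - 0.001 ≤ XJ / r := by linarith [hj.1]
    rwa [le_div_iff₀ hr] at this
  have hle1 : XJ ≤ (xi + 0.013) * r := by nlinarith
  have hle2 : (xi + 0.013) * r ≤ 1 := by nlinarith [hxi.2]
  have hc0 : Continuous (zeta2 xi) := (J6_contDiff xi).continuous
  have hc1 : Continuous (deriv (zeta2 xi)) := (J6_contDiff1 xi).continuous
  have hc2 : Continuous (deriv (deriv (zeta2 xi))) := (J6_contDiff2 xi).continuous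
  have hq : Continuous (fun x : ℝ => x / r) := by fun_prop
  have hd2 := hc2.comp hq
  have hd1 := hc1.comp hq
  have hd0 := hc0.comp hq
  -- continuity of the integrand
  have hth : ContinuousOn (fun x => F.th 2 t (sc x)) (Icc XJ 1) := by
    have h1 : ContinuousOn (F.th 2 t) (Icc 0 1) := fun σ hσ => (F.th_s 2 t ht σ hσ).continuousWithinAt
    exact h1.comp hcs (fun x hx => (hsc x hx).1)
  have htan : ContinuousOn (fun x => Real.tan (F.th 2 t (sc x))) (Icc XJ 1) := by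
    intro x hx
    have h1 : Real.cos (F.th 2 t (sc x)) ≠ 0 := by
      have := J6_cos hCB (hsc x hx).1
      positivity
    exact ContinuousAt.comp_continuousWithinAt (g := Real.tan) (f := fun x => F.th 2 t (sc x))
      (Real.continuousAt_tan.2 h1) (hth x hx)
  set g : ℝ → ℝ := fun x => (deriv (deriv (zeta2 xi)) (x / r) * (2 * F.th 2 t (sc x)) +
      (x / r * deriv (zeta2 xi) (x / r) + 2 * zeta2 xi (x / r)) *
        (2 * Real.tan (F.th 2 t (sc x)))) with hg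
  have hgc : ContinuousOn g (Icc XJ 1) := by
    refine ContinuousOn.add (ContinuousOn.mul hd2.continuousOn (continuousOn_const.mul hth))
      (ContinuousOn.mul ?_ (continuousOn_const.mul htan))
    exact ContinuousOn.add (hq.continuousOn.mul hd1.continuousOn)
      (continuousOn_const.mul hd0.continuousOn)
  have hi1 : IntervalIntegrable g volume XJ ((xi + 0.013) * r) := by
    apply ContinuousOn.intervalIntegrable
    rw [uIcc_of_le hle1]
    exact hgc.mono (Icc_subset_Icc_right hle2)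
  have hi2 : IntervalIntegrable g volume ((xi + 0.013) * r) 1 := by
    apply ContinuousOn.intervalIntegrable
    rw [uIcc_of_le hle2]
    exact hgc.mono (Icc_subset_Icc_left hle1)
  have hsplit : ∫ x in XJ..1, g x = (∫ x in XJ..((xi + 0.013) * r), g x) +
      ∫ x in ((xi + 0.013) * r)..1, g x :=
    (intervalIntegral.integral_add_adjacent_intervals hi1 hi2).symm
  rw [hsplit]
  have hzero : ∫ x in ((xi + 0.013) * r)..1, g x = 0 := by
    have : ∫ x in ((xi + 0.013) * r)..1, g x = ∫ x in ((xi + 0.013) * r)..1, (0:ℝ) := by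
      apply intervalIntegral.integral_congr
      intro x hx
      rw [uIcc_of_le hle2] at hx
      have hy : xi + 0.013 ≤ x / r := by rw [le_div_iff₀ hr]; exact hx.1
      simp only [hg]
      rw [J6_hi hy, J6_hi1 hy, J6_hi2 hy]; ring
    rw [this]; simp
  rw [hzero, add_zero]
  -- main part
  set m : ℝ → ℝ := fun x => (deriv (deriv (zeta2 xi)) (x / r) * (2 * F.th 2 t 0) +
      (x / r * deriv (zeta2 xi) (x / r) + 2 * zeta2 xi (x / r)) *
        (2 * Real.tan (F.th 2 t 0))) with hm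
  have hmc : Continuous m := by
    refine Continuous.add (Continuous.mul hd2 continuous_const)
      (Continuous.mul ?_ continuous_const)
    exact Continuous.add (hq.mul hd1) (continuous_const.mul hd0)
  have hθ0 : 0 ≤ F.th 2 t 0 := hP.2 0 hz
  have hθ1 : F.th 2 t 0 ≤ 0.01 := (abs_le.1 (hCB.small 0 hz)).2
  have htt := J6_tan_le hθ0 hθ1
  have hmain : ∫ x in XJ..((xi + 0.013) * r), m x ≤ 0 :=
    J6_ray_main hxi hr hCB.jx hθ0 htt.1 htt.2
  set E := (M2 * 2 + M1 * 4) * (Ck * r) with hE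
  have hpt : ∀ x ∈ Icc XJ ((xi + 0.013) * r), g x ≤ m x + E := by
    intro x hx
    have hx' : x ∈ Icc XJ 1 := ⟨hx.1, hx.2.trans hle2⟩
    have h1 := J6_ray_pt F ht hT hxi hCB hk hM1 hM2 (hsc x hx').1 (hsc x hx').2 hx.2
    have h2 := (abs_le.1 h1).2
    simp only [hg, hm, hE]
    linarith
  have hmono := intervalIntegral.integral_mono_on hle1 hi1
    ((hmc.intervalIntegrable _ _).add (intervalIntegrable_const (c := E))) hpt
  refine hmono.trans ?_
  rw [intervalIntegral.integral_add (hmc.intervalIntegrable _ _) (intervalIntegrable_const),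
    intervalIntegral.integral_const, smul_eq_mul]
  have hEn : 0 ≤ E := by
    have hX6 : F.X 2 t 0 ≤ 6 * rr T t := by
      rw [← hrdef, ← hXJ]; nlinarith [hxi.2]
    obtain ⟨-, hCk, -⟩ := J6_angle F ht hCB hk hz hX6
    have h1 := (abs_nonneg _).trans (hM1 0 ⟨le_rfl, by norm_num⟩)
    have h2 := (abs_nonneg _).trans (hM2 0 ⟨le_rfl, by norm_num⟩)
    positivity
  have h3 : (xi + 0.013) * r - XJ ≤ 0.014 * r := by nlinarith
  nlinarith [mul_le_mul_of_nonneg_right h3 hEn]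

theorem J6_rate (F : Flow a b 1) {T xi : ℝ} (hT : b ≤ T) (hr : rr T a ≤ 1 / 10)
    (hxi : xi ∈ Icc (1.187:ℝ) 1.197)
    (hCB : ∀ t ∈ Ioo a b, CB F T t xi) (hpos : ∀ t ∈ Ioo a b, F.Pos t)
    {Ck : ℝ} (hk : ∀ t ∈ Ioo a b, ∀ σ ∈ Icc (0:ℝ) 1, F.X 2 t σ ≤ 6 * rr T t → |F.k 2 t σ| ≤ Ck) :
    ∃ C : ℝ, ∀ t ∈ Ioo a b, ∃ D, HasDerivAt
      (fun τ => rr T τ ^ (-2 : ℝ) * F.J (fun x => zeta2 xi (x / rr T τ)) τ) D t ∧
      D ≤ C * (rr T t ^ 2)⁻¹ := by
  have hc0 : Continuous (zeta2 xi) := (J6_contDiff xi).continuous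
  have hc1 : Continuous (deriv (zeta2 xi)) := (J6_contDiff1 xi).continuous
  have hc2 : Continuous (deriv (deriv (zeta2 xi))) := (J6_contDiff2 xi).continuous
  obtain ⟨M1, hM1⟩ := isCompact_Icc.exists_bound_of_continuousOn (s := Icc (0:ℝ) 1.3)
    (f := fun y => y * deriv (zeta2 xi) y + 2 * zeta2 xi y)
    (Continuous.continuousOn (by fun_prop))
  obtain ⟨M2, hM2⟩ := isCompact_Icc.exists_bound_of_continuousOn (s := Icc (0:ℝ) 1.3)
    (f := fun y => deriv (deriv (zeta2 xi)) y)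
    (Continuous.continuousOn (by fun_prop))
  refine ⟨(M2 * 2 + M1 * 4) * Ck * 0.014, ?_⟩
  intro t ht
  have hrp := J6_rpos ht hT
  have hrle := J6_rle (T := T) ht hr
  obtain ⟨hX0, hX1, sa, sb, sc, hsa, hsb, hsc, csa, csb, csc, -, -, -⟩ :=
    graph_param F ht (hCB t ht).graph
  have hR := J_rate F (q := 2) (y1 := 0) hT ht (hCB t ht).graph
    (A := zeta2 xi) (A1 := deriv (zeta2 xi)) (A2l := deriv (deriv (zeta2 xi)))
    (A2r := deriv (deriv (zeta2 xi)))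
    (fun y => J6_hasDeriv xi y) hc1 (fun y _ => (J6_hasDeriv1 xi y).hasDerivWithinAt)
    (fun y _ => (J6_hasDeriv1 xi y).hasDerivWithinAt) hc2 hc2
    (by rw [J6_lo (by linarith [hxi.1])]; simp [p2])
    (J6_hi1 (by rw [le_div_iff₀ hrp]; nlinarith [hxi.2]))
    ⟨le_rfl, by rw [zero_mul]; exact hX0.le⟩ hsa hsb hsc
  refine ⟨_, hR, ?_⟩
  rw [zero_mul, intervalIntegral.integral_same, zero_add]
  have h1 : (∫ x in (0:ℝ)..(F.X 2 t 0),
            (deriv (deriv (zeta2 xi)) (x / rr T t) * (F.th 0 t (sa x) + F.th 1 t (sb x)) +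
              (x / rr T t * deriv (zeta2 xi) (x / rr T t) + 2 * zeta2 xi (x / rr T t)) *
                (Real.tan (F.th 0 t (sa x) + off 0) + Real.tan (F.th 1 t (sb x) + off 1)))) ≤ 0 := by
    rw [← neg_nonneg, ← intervalIntegral.integral_neg]
    apply intervalIntegral.integral_nonneg hX0.le
    intro x hx
    rw [neg_nonneg]
    exact J6_arcs F ht hT hxi (hCB t ht) (hpos t ht) hsa hsb hx
  have h2 := J6_ray F ht hT hr hxi (hCB t ht) (hpos t ht) (hk t ht)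
    (fun y hy => by simpa using hM1 y hy) (fun y hy => by simpa using hM2 y hy) csc hsc
  have h3 : rr T t ^ (-2 - 2 : ℝ) = (rr T t ^ 4)⁻¹ := by
    rw [show (-2 - 2 : ℝ) = -((4:ℕ):ℝ) by norm_num, Real.rpow_neg hrp.le, Real.rpow_natCast]
  rw [h3]
  have h4 : 0 < (rr T t ^ 4)⁻¹ := by positivity
  have h5 := mul_le_mul_of_nonneg_left (add_le_add h1 h2) h4.le
  refine h5.trans (le_of_eq ?_)
  field_simp
  ring

theorem J6_p2_ge {y : ℝ} (hy : y ∈ Icc (1.186:ℝ) 1.2) : 0.4 ≤ p2 y := by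
  have h1 := hy.1
  have h2 := hy.2
  have h5' : (1.186:ℝ) ^ 5 ≤ y ^ 5 := by gcongr
  have h7' : y ^ 7 ≤ (1.2:ℝ) ^ 7 := by gcongr
  have h3' : y ^ 3 ≤ (1.2:ℝ) ^ 3 := by gcongr
  unfold p2
  norm_num at *
  linarith

theorem J6_lower (F : Flow a b 1) {T xi t : ℝ} (ht : t ∈ Ioo a b) (hT : b ≤ T)
    (hr1 : rr T a ≤ 1 / 10)
    (hxi : xi ∈ Icc (1.187:ℝ) 1.197) (hCB : CB F T t xi) (hP : F.Pos t)
    {Ck : ℝ} (hk : ∀ σ ∈ Icc (0:ℝ) 1, F.X 2 t σ ≤ 6 * rr T t → |F.k 2 t σ| ≤ Ck) :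
    0.0008 * rr T t * (F.th 2 t 0 - Ck * rr T t) ≤ F.J (fun x => zeta2 xi (x / rr T t)) t := by
  have hr := J6_rpos ht hT
  have hrle := J6_rle (T := T) ht hr1
  have hj := abs_le.1 hCB.jx
  obtain ⟨hX0, hX1, sa, sb, sc, hsa, hsb, hsc, csa, csb, csc, -, -, -⟩ :=
    graph_param F ht hCB.graph
  have hc0 : Continuous (zeta2 xi) := (J6_contDiff xi).continuous
  have hq : Continuous (fun x : ℝ => x / rr T t) := by fun_prop
  rw [J_graph F ht hCB.graph (A := fun x => zeta2 xi (x / rr T t)) (hc0.comp hq) hsa hsb hsc]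
  set r := rr T t with hrdef
  set XJ := F.X 2 t 0 with hXJ
  have hXJ1 : XJ ≤ (xi + 0.001) * r := by
    have : XJ / r ≤ xi + 0.001 := by linarith [hj.2]
    rwa [div_le_iff₀ hr] at this
  have hXJ0 : (xi - 0.001) * r ≤ XJ := by
    have : xi - 0.001 ≤ XJ / r := by linarith [hj.1]
    rwa [le_div_iff₀ hr] at this
  have hle1 : XJ ≤ XJ + 0.001 * r := by nlinarith
  have hle2 : XJ + 0.001 * r ≤ 1 := by nlinarith [hxi.2]
  have h1 : 0 ≤ ∫ x in (0:ℝ)..XJ, zeta2 xi (x / r) *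
      (Real.tan (F.th 0 t (sa x) + off 0) + Real.tan (F.th 1 t (sb x) + off 1)) := by
    apply intervalIntegral.integral_nonneg hX0.le
    intro x hx
    have h2 := (ratio_lens F ht hT hCB hP (hsa x hx).1 (hsb x hx).1
      ((hsa x hx).2.trans (hsb x hx).2.symm)).1
    exact mul_nonneg (J6_zeta_nonneg hxi (div_nonneg hx.1 hr.le)) h2
  have htan0 : ∀ x ∈ Icc XJ 1, F.th 2 t (sc x) ≤ Real.tan (F.th 2 t (sc x)) ∧
      0 ≤ Real.tan (F.th 2 t (sc x)) := by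
    intro x hx
    have h2 := hP.2 (sc x) (hsc x hx).1
    have h3 := J6_tan_le h2 (abs_le.1 (hCB.small _ (hsc x hx).1)).2
    exact ⟨h3.1, h2.trans h3.1⟩
  have hth : ContinuousOn (fun x => F.th 2 t (sc x)) (Icc XJ 1) := by
    have h1 : ContinuousOn (F.th 2 t) (Icc 0 1) := fun σ hσ => (F.th_s 2 t ht σ hσ).continuousWithinAt
    exact h1.comp csc (fun x hx => (hsc x hx).1)
  have htan : ContinuousOn (fun x => Real.tan (F.th 2 t (sc x))) (Icc XJ 1) := by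
    intro x hx
    have h1 : Real.cos (F.th 2 t (sc x)) ≠ 0 := by
      have := J6_cos hCB (hsc x hx).1
      positivity
    exact ContinuousAt.comp_continuousWithinAt (g := Real.tan) (f := fun x => F.th 2 t (sc x))
      (Real.continuousAt_tan.2 h1) (hth x hx)
  set g : ℝ → ℝ := fun x => zeta2 xi (x / r) * (2 * Real.tan (F.th 2 t (sc x))) with hg
  have hgc : ContinuousOn g (Icc XJ 1) :=
    ContinuousOn.mul (hc0.comp hq).continuousOn (continuousOn_const.mul htan)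
  have hi1 : IntervalIntegrable g volume XJ (XJ + 0.001 * r) := by
    apply ContinuousOn.intervalIntegrable
    rw [uIcc_of_le hle1]
    exact hgc.mono (Icc_subset_Icc_right hle2)
  have hi2 : IntervalIntegrable g volume (XJ + 0.001 * r) 1 := by
    apply ContinuousOn.intervalIntegrable
    rw [uIcc_of_le hle2]
    exact hgc.mono (Icc_subset_Icc_left hle1)
  have hsplit : ∫ x in XJ..1, g x = (∫ x in XJ..(XJ + 0.001 * r), g x) +
      ∫ x in (XJ + 0.001 * r)..1, g x :=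
    (intervalIntegral.integral_add_adjacent_intervals hi1 hi2).symm
  have h2 : 0 ≤ ∫ x in (XJ + 0.001 * r)..1, g x := by
    apply intervalIntegral.integral_nonneg hle2
    intro x hx
    have hx' : x ∈ Icc XJ 1 := ⟨hle1.trans hx.1, hx.2⟩
    exact mul_nonneg (J6_zeta_nonneg hxi (div_nonneg (hX0.le.trans hx'.1) hr.le))
      (mul_nonneg (by norm_num) (htan0 x hx').2)
  have h3 : ∫ x in XJ..(XJ + 0.001 * r), (0.8 * (F.th 2 t 0 - Ck * r)) ≤
      ∫ x in XJ..(XJ + 0.001 * r), g x := by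
    apply intervalIntegral.integral_mono_on hle1 (intervalIntegrable_const) hi1
    intro x hx
    have hx' : x ∈ Icc XJ 1 := ⟨hx.1, hx.2.trans hle2⟩
    have hXx : F.X 2 t (sc x) ≤ 6 * rr T t := by
      rw [(hsc x hx').2, ← hrdef]; nlinarith [hx.2, hxi.2]
    obtain ⟨h4, hCk, -⟩ := J6_angle F ht hCB hk (hsc x hx').1 hXx
    rw [(hsc x hx').2] at h4
    have h5 : F.th 2 t 0 - Ck * r ≤ F.th 2 t (sc x) := by
      have h6 := (abs_le.1 h4).1
      have h7 : 2 * Ck * (x - F.X 2 t 0) ≤ Ck * r := by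
        have : x - F.X 2 t 0 ≤ 0.001 * r := by linarith [hx.2]
        nlinarith [mul_le_mul_of_nonneg_left this hCk, mul_nonneg hCk hr.le]
      linarith
    have hy : x / r ∈ Icc (1.186:ℝ) 1.2 := by
      constructor
      · rw [le_div_iff₀ hr]; nlinarith [hx.1, hxi.1]
      · rw [div_le_iff₀ hr]; nlinarith [hx.2, hxi.2]
    have hy2 : x / r ≤ xi + 0.003 := by
      rw [div_le_iff₀ hr]; nlinarith [hx.2, hxi.2]
    have h6 := J6_p2_ge hy
    have h7 := htan0 x hx'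
    simp only [hg]
    rw [J6_lo hy2]
    nlinarith [h7.1, h7.2, h5, mul_le_mul_of_nonneg_right h6 h7.2]
  rw [intervalIntegral.integral_const, smul_eq_mul] at h3
  rw [hsplit]
  have e : (XJ + 0.001 * r - XJ) * (0.8 * (F.th 2 t 0 - Ck * r)) =
      0.0008 * r * (F.th 2 t 0 - Ck * r) := by ring
  linarith

/-- J6 : growth of the upper functional when the curvature of the ray is bounded near the lens -/
theorem upper_bound (F : Flow a b 1) {T xi : ℝ} (hT : b ≤ T) (hr : rr T a ≤ 1 / 10)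
    (hxi : xi ∈ Icc (1.187:ℝ) 1.197)
    (hCB : ∀ t ∈ Ioo a b, CB F T t xi) (hpos : ∀ t ∈ Ioo a b, F.Pos t)
    {Ck : ℝ} (hk : ∀ t ∈ Ioo a b, ∀ σ ∈ Icc (0:ℝ) 1, F.X 2 t σ ≤ 6 * rr T t → |F.k 2 t σ| ≤ Ck)
    {t1 : ℝ} (ht1 : t1 ∈ Ioo a b) :
    ∃ C > 0, ∀ t ∈ Ico t1 b,
      F.J (fun x => zeta2 xi (x / rr T t)) t ≤ C * (1 + |Real.log (rr T t)|) * rr T t ^ 2 ∧
      F.th 2 t 0 ≤ C * (1 + |Real.log (rr T t)|) * rr T t := by
  obtain ⟨C, hC⟩ := J6_rate F hT hr hxi hCB hpos hk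
  set Φ : ℝ → ℝ := fun τ => rr T τ ^ (-2 : ℝ) * F.J (fun x => zeta2 xi (x / rr T τ)) τ with hΦ
  set C' := max C 0 with hC'
  set G : ℝ → ℝ := fun τ => Φ τ + C' * Real.log (rr T τ) with hG
  have hlog : ∀ t ∈ Ioo a b, HasDerivAt (fun τ => Real.log (rr T τ)) (-(rr T t ^ 2)⁻¹) t := by
    intro t ht
    have h0 : 0 < 2 * (T - t) := by linarith [ht.2]
    have hd : HasDerivAt (fun τ => Real.log (2 * (T - τ)) / 2) ((-2) / (2 * (T - t)) / 2) t := by
      have h1 : HasDerivAt (fun τ => 2 * (T - τ)) (2 * (0 - 1)) t :=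
        ((hasDerivAt_const t T).sub (hasDerivAt_id t)).const_mul 2
      have h2 := (h1.log h0.ne').div_const 2
      exact h2.congr_deriv (by norm_num)
    have e : (fun τ => Real.log (rr T τ)) =ᶠ[𝓝 t] fun τ => Real.log (2 * (T - τ)) / 2 := by
      filter_upwards [Iio_mem_nhds (show t < T by linarith [ht.2])] with τ hτ
      unfold rr
      rw [Real.log_sqrt (by linarith [show τ < T from hτ])]
    refine (hd.congr_of_eventuallyEq e).congr_deriv ?_
    have h3 : T - t ≠ 0 := by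
      have : 0 < T - t := by linarith [ht.2]
      exact this.ne'
    unfold rr
    rw [Real.sq_sqrt h0.le]
    field_simp
  have hGd : ∀ t ∈ Ioo a b, ∃ D ≤ 0, HasDerivAt G D t := by
    intro t ht
    obtain ⟨D, hD, hD'⟩ := hC t ht
    refine ⟨_, ?_, hD.add ((hlog t ht).const_mul C')⟩
    have h1 : C * (rr T t ^ 2)⁻¹ ≤ C' * (rr T t ^ 2)⁻¹ :=
      mul_le_mul_of_nonneg_right (le_max_left _ _) (by positivity)
    linarith
  have hanti : AntitoneOn G (Ioo a b) := by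
    apply antitoneOn_of_deriv_nonpos (convex_Ioo a b)
    · intro t ht
      obtain ⟨D, -, hD⟩ := hGd t ht
      exact hD.continuousAt.continuousWithinAt
    · intro t ht
      rw [interior_Ioo] at ht
      obtain ⟨D, -, hD⟩ := hGd t ht
      exact hD.differentiableAt.differentiableWithinAt
    · intro t ht
      rw [interior_Ioo] at ht
      obtain ⟨D, hD0, hD⟩ := hGd t ht
      rw [hD.deriv]; exact hD0
  have hCk : 0 ≤ Ck := by
    have hz : (0:ℝ) ∈ Icc (0:ℝ) 1 := ⟨le_rfl, by norm_num⟩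
    have hrp := J6_rpos ht1 hT
    have hX6 : F.X 2 t1 0 ≤ 6 * rr T t1 := by
      have hj := (abs_le.1 (hCB t1 ht1).jx).2
      have : F.X 2 t1 0 / rr T t1 ≤ 6 := by linarith [hxi.2]
      rwa [div_le_iff₀ hrp] at this
    exact (abs_nonneg _).trans (hk t1 ht1 0 hz hX6)
  set C1 := |G t1| + C' + 1 with hC1
  have hC'0 : 0 ≤ C' := le_max_right _ _
  have hC1p : 0 < C1 := by positivity
  refine ⟨1250 * C1 + Ck, by positivity, ?_⟩
  intro t ht
  have ht' : t ∈ Ioo a b := ⟨ht1.1.trans_le ht.1, ht.2⟩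
  have hrp := J6_rpos ht' hT
  have h1 : G t ≤ G t1 := hanti ht1 ht' ht.1
  have h2 : Φ t ≤ C1 * (1 + |Real.log (rr T t)|) := by
    have h3 : Φ t + C' * Real.log (rr T t) ≤ |G t1| := h1.trans (le_abs_self _)
    have h4 : -(C' * Real.log (rr T t)) ≤ C' * |Real.log (rr T t)| := by
      have := neg_abs_le (Real.log (rr T t))
      nlinarith
    have h5 := abs_nonneg (G t1)
    have h6 := abs_nonneg (Real.log (rr T t))
    nlinarith
  have hJ : F.J (fun x => zeta2 xi (x / rr T t)) t = Φ t * rr T t ^ 2 := by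
    simp only [hΦ]
    rw [show (-2:ℝ) = -((2:ℕ):ℝ) by norm_num, Real.rpow_neg hrp.le, Real.rpow_natCast]
    field_simp
  have h3 : F.J (fun x => zeta2 xi (x / rr T t)) t ≤
      C1 * (1 + |Real.log (rr T t)|) * rr T t ^ 2 := by
    rw [hJ]; exact mul_le_mul_of_nonneg_right h2 (by positivity)
  have h6 := abs_nonneg (Real.log (rr T t))
  constructor
  · refine h3.trans ?_
    gcongr
    nlinarith
  · have h4 := J6_lower F ht' hT hr hxi (hCB t ht') (hpos t ht') (hk t ht')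
    have h5 : 0.0008 * rr T t * (F.th 2 t 0 - Ck * rr T t) ≤
        0.0008 * rr T t * (1250 * (C1 * (1 + |Real.log (rr T t)|)) * rr T t) := by
      refine h4.trans (h3.trans (le_of_eq ?_))
      ring
    have h7 := le_of_mul_le_mul_left h5 (by positivity)
    have h8 : Ck * rr T t ≤ Ck * (1 + |Real.log (rr T t)|) * rr T t := by
      have : Ck ≤ Ck * (1 + |Real.log (rr T t)|) := by nlinarith
      exact mul_le_mul_of_nonneg_right this hrp.le
    nlinarith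

end Pool.Agent.Helper15.NF
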