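import Pool.Agent.Helper15.NF.J1
import Pool.Agent.Helper15.NF.J3
import Pool.Agent.Helper15.NF.J4

open Set MeasureTheory intervalIntegral Filter Topology

namespace Pool.Agent.Helper15.NF

variable {a b Lx : ℝ}

private theorem J7_w1 : w1 1.18 = 3.70456 := by unfold w1; norm_num

private theorem J7_slope : slope1 = -1.18 + 1.584 / 3.70456 := by
  unfold slope1; rw [J7_w1]; norm_num

private theorem J7_a1 : 0.45 ≤ a1 ∧ a1 ≤ 0.46 := by
  unfold a1
  rw [J7_slope]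
  constructor
  · norm_num
  · norm_num

private theorem J7_p1 : 0 ≤ p1 1.18 ∧ p1 1.18 ≤ 0.6 := by
  obtain ⟨h1, h2⟩ := J7_a1
  unfold p1
  constructor <;> norm_num <;> linarith

private theorem J7_zeta1_small {y : ℝ} (h0 : 0 ≤ y) (h1 : y ≤ 1.2) : zeta1 y ≤ 2 * y := by
  obtain ⟨ha1, ha2⟩ := J7_a1
  obtain ⟨hp0, hp1⟩ := J7_p1
  unfold zeta1
  refine max_le ?_ (by linarith)
  unfold Z1
  split_ifs with hy
  · unfold p1
    have e1 : y ^ 5 ≤ 3 * y := by
      have : y ^ 4 ≤ 3 := by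
        have := pow_le_pow_left₀ h0 h1 4
        norm_num at this ⊢; linarith
      calc y ^ 5 = y ^ 4 * y := by ring
        _ ≤ 3 * y := mul_le_mul_of_nonneg_right this h0
    have e2 : 0 ≤ a1 * y ^ 3 := by positivity
    linarith
  · rw [not_le] at hy
    have e1 : Real.exp ((1.18 ^ 2 - y ^ 2) / 2) ≤ 1 := by
      rw [Real.exp_le_one_iff]
      nlinarith
    have e2 : w1 y / w1 1.18 ≤ 1.1 := by
      rw [J7_w1, div_le_iff₀ (by norm_num)]
      unfold w1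
      nlinarith
    have e3 : 0 ≤ w1 y / w1 1.18 := by
      rw [J7_w1]
      apply div_nonneg _ (by norm_num)
      unfold w1
      nlinarith
    have e4 : p1 1.18 * Real.exp ((1.18 ^ 2 - y ^ 2) / 2) ≤ 0.6 := by
      have := mul_le_of_le_one_right hp0 e1
      linarith
    have e5 : 0 ≤ p1 1.18 * Real.exp ((1.18 ^ 2 - y ^ 2) / 2) :=
      mul_nonneg hp0 (Real.exp_pos _).le
    have e6 : p1 1.18 * Real.exp ((1.18 ^ 2 - y ^ 2) / 2) * (w1 y / w1 1.18) ≤ 0.6 * 1.1 :=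
      mul_le_mul e4 e2 e3 (by norm_num)
    linarith

private theorem J7_zeta1_le {y : ℝ} (h0 : 0 ≤ y) : zeta1 y ≤ 3 := by
  by_cases h1 : y ≤ 1.2
  · have := J7_zeta1_small h0 h1
    linarith
  · rw [not_le] at h1
    obtain ⟨hp0, hp1⟩ := J7_p1
    unfold zeta1
    refine max_le ?_ (by norm_num)
    unfold Z1
    rw [if_neg (by linarith)]
    have e1 : Real.exp ((1.18 ^ 2 - y ^ 2) / 2) ≤ 1 := by
      rw [Real.exp_le_one_iff]
      nlinarith
    have e2 : w1 y / w1 1.18 ≤ 2 := by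
      rw [J7_w1, div_le_iff₀ (by norm_num)]
      unfold w1
      nlinarith [sq_nonneg (y - 2.5)]
    have e4 : p1 1.18 * Real.exp ((1.18 ^ 2 - y ^ 2) / 2) ≤ 0.6 := by
      have := mul_le_of_le_one_right hp0 e1
      linarith
    have e5 : 0 ≤ p1 1.18 * Real.exp ((1.18 ^ 2 - y ^ 2) / 2) :=
      mul_nonneg hp0 (Real.exp_pos _).le
    have e6 : p1 1.18 * Real.exp ((1.18 ^ 2 - y ^ 2) / 2) * (w1 y / w1 1.18) ≤
        p1 1.18 * Real.exp ((1.18 ^ 2 - y ^ 2) / 2) * 2 := mul_le_mul_of_nonneg_left e2 e5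
    linarith

private theorem J7_zeta1_zero {y : ℝ} (h : 5.4 ≤ y) : zeta1 y = 0 := by
  obtain ⟨hp0, hp1⟩ := J7_p1
  unfold zeta1
  apply max_eq_right
  unfold Z1
  rw [if_neg (by linarith)]
  apply mul_nonpos_of_nonneg_of_nonpos (mul_nonneg hp0 (Real.exp_pos _).le)
  rw [J7_w1]
  apply div_nonpos_of_nonpos_of_nonneg _ (by norm_num)
  unfold w1
  nlinarith

private theorem J7_zeta1_nonneg (y : ℝ) : 0 ≤ zeta1 y := le_max_right _ _

private theorem J7_zeta1_cont : Continuous zeta1 := by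
  unfold zeta1
  refine Continuous.max ?_ continuous_const
  unfold Z1
  refine Continuous.if_le ?_ ?_ continuous_id continuous_const ?_
  · unfold p1; fun_prop
  · unfold w1; fun_prop
  · intro y hy
    subst hy
    have h : w1 1.18 ≠ 0 := by rw [J7_w1]; norm_num
    simp [div_self h]

private theorem J7_p2 {y : ℝ} (h0 : 0 ≤ y) (h1 : y ≤ 1.22) : 0.3 * y ≤ p2 y := by
  unfold p2
  have hu0 : 0 ≤ y ^ 2 := sq_nonneg y
  have hu1 : y ^ 2 ≤ 1.4884 := by nlinarith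
  have h2 : (0.3:ℝ) ≤ 1 - 0.515 * y ^ 2 + 0.071 * (y ^ 2) ^ 2 - 0.003 * (y ^ 2) ^ 3 := by
    set u := y ^ 2
    have h3 : u ^ 3 ≤ 1.4884 * u ^ 2 := by
      have := mul_le_mul_of_nonneg_right hu1 (sq_nonneg u)
      nlinarith
    nlinarith [sq_nonneg (u - 1.4884)]
  calc 0.3 * y ≤ (1 - 0.515 * y ^ 2 + 0.071 * (y ^ 2) ^ 2 - 0.003 * (y ^ 2) ^ 3) * y :=
        mul_le_mul_of_nonneg_right h2 h0
    _ = _ := by ring

private theorem J7_zeta2_eq {xi y : ℝ} (h : y ≤ xi + 0.003) : zeta2 xi y = p2 y := by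
  unfold zeta2
  rw [Real.smoothTransition.zero_of_nonpos, sub_zero, mul_one]
  apply div_nonpos_of_nonpos_of_nonneg _ (by norm_num)
  linarith

private theorem J7_zeta2_nonneg {xi y : ℝ} (hxi : xi ≤ 1.197) (h0 : 0 ≤ y) : 0 ≤ zeta2 xi y := by
  unfold zeta2
  by_cases h : y ≤ xi + 0.013
  · refine mul_nonneg ?_ ?_
    · have := J7_p2 h0 (by linarith)
      linarith
    · have := Real.smoothTransition.le_one ((y - xi - 0.003) / 0.01)
      linarith
  · rw [Real.smoothTransition.one_of_one_le, sub_self, mul_zero]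
    rw [le_div_iff₀ (by norm_num)]
    linarith

private theorem J7_zeta2_cont (xi : ℝ) : Continuous (zeta2 xi) := by
  unfold zeta2
  refine Continuous.mul ?_ ?_
  · unfold p2; fun_prop
  · refine continuous_const.sub (Real.smoothTransition.continuous.comp ?_)
    fun_prop

private theorem J7_tan_le {θ : ℝ} (h0 : 0 ≤ θ) (h1 : θ ≤ 0.01) : Real.tan θ ≤ 2 * θ := by
  have h2 := Real.one_sub_sq_div_two_le_cos (x := θ)
  have h3 : (0.5:ℝ) ≤ Real.cos θ := by nlinarith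
  rw [Real.tan_eq_sin_div_cos, div_le_iff₀ (by linarith)]
  have h4 := Real.sin_le h0
  nlinarith

private theorem J7_tan_nonneg {θ : ℝ} (h0 : 0 ≤ θ) (h1 : θ ≤ 0.01) : 0 ≤ Real.tan θ := by
  apply Real.tan_nonneg_of_nonneg_of_le_pi_div_two h0
  have := Real.pi_gt_three
  linarith

/-- the angle of the ray near the lens -/
private theorem J7_th (F : Flow a b 1) {t : ℝ} (ht : t ∈ Ioo a b)
    (hsm : ∀ σ ∈ Icc (0:ℝ) 1, |F.th 2 t σ| ≤ 0.01) {Ck r : ℝ} (hCk : 0 ≤ Ck) (hr : 0 < r)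
    (hk : ∀ σ ∈ Icc (0:ℝ) 1, F.X 2 t σ ≤ 6 * r → |F.k 2 t σ| ≤ Ck)
    (hX0 : 0 < F.X 2 t 0) {σ : ℝ} (hσ : σ ∈ Icc (0:ℝ) 1) (hx : F.X 2 t σ ≤ 5.4 * r) :
    F.th 2 t σ ≤ F.th 2 t 0 + 6 * Ck * r := by
  have hell := F.ell_pos 2 t ht
  have hsub : Icc (0:ℝ) σ ⊆ Icc 0 1 := Icc_subset_Icc le_rfl hσ.2
  have hcos : ∀ s ∈ Icc (0:ℝ) 1, 0.99 ≤ Real.cos (F.th 2 t s + off 2) ∧
      Real.cos (F.th 2 t s + off 2) ≤ 1 := by
    intro s hs
    have e : off 2 = 0 := rfl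
    rw [e, add_zero]
    refine ⟨?_, Real.cos_le_one _⟩
    have h1 := Real.one_sub_sq_div_two_le_cos (x := F.th 2 t s)
    have h2 := hsm s hs
    have h3 : F.th 2 t s ^ 2 ≤ 0.01 ^ 2 := by
      rw [← sq_abs]; exact pow_le_pow_left₀ (abs_nonneg _) h2 2
    nlinarith
  -- growth of X
  have hgrow : ∀ u ∈ Icc (0:ℝ) 1, ∀ v ∈ Icc (0:ℝ) 1, u ≤ v →
      |F.X 2 t v - F.X 2 t u - F.ell 2 t * (v - u)| ≤ 0.01 * F.ell 2 t * (v - u) := by
    intro u hu v hv huv
    have h1 : ∀ s ∈ Icc (0:ℝ) 1, HasDerivWithinAt (fun s => F.X 2 t s - F.ell 2 t * s)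
        (F.ell 2 t * Real.cos (F.th 2 t s + off 2) - F.ell 2 t * 1) (Icc 0 1) s := by
      intro s hs
      exact (F.X_s 2 t ht s hs).sub ((hasDerivWithinAt_id s _).const_mul _)
    have h2 : ∀ s ∈ Icc (0:ℝ) 1,
        ‖F.ell 2 t * Real.cos (F.th 2 t s + off 2) - F.ell 2 t * 1‖ ≤ 0.01 * F.ell 2 t := by
      intro s hs
      obtain ⟨c1, c2⟩ := hcos s hs
      rw [Real.norm_eq_abs, abs_le]
      constructor <;> nlinarith
    have h3 := (convex_Icc (0:ℝ) 1).norm_image_sub_le_of_norm_hasDerivWithin_le h1 h2 hu hv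
    rw [Real.norm_eq_abs, Real.norm_eq_abs, abs_of_nonneg (by linarith : 0 ≤ v - u)] at h3
    have e : F.X 2 t v - F.X 2 t u - F.ell 2 t * (v - u) =
      F.X 2 t v - F.ell 2 t * v - (F.X 2 t u - F.ell 2 t * u) := by ring
    rw [e]; exact h3
  have h0mem : (0:ℝ) ∈ Icc (0:ℝ) 1 := ⟨le_rfl, zero_le_one⟩
  have hkb : ∀ s ∈ Icc (0:ℝ) σ, |F.k 2 t s| ≤ Ck := by
    intro s hs
    apply hk s (hsub hs)
    have h1 := (abs_le.1 (hgrow s (hsub hs) σ hσ hs.2)).1
    have h2 : 0 ≤ F.ell 2 t * (σ - s) := mul_nonneg hell.le (by linarith [hs.2])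
    nlinarith
  have hlen : F.ell 2 t * σ ≤ 5.9 * r := by
    have h1 := (abs_le.1 (hgrow 0 h0mem σ hσ hσ.1)).1
    nlinarith
  have h1 : ∀ s ∈ Icc (0:ℝ) σ, HasDerivWithinAt (F.th 2 t) (F.ell 2 t * F.k 2 t s) (Icc 0 σ) s :=
    fun s hs => (F.th_s 2 t ht s (hsub hs)).mono hsub
  have h2 : ∀ s ∈ Icc (0:ℝ) σ, ‖F.ell 2 t * F.k 2 t s‖ ≤ F.ell 2 t * Ck := by
    intro s hs
    rw [Real.norm_eq_abs, abs_mul, abs_of_pos hell]
    exact mul_le_mul_of_nonneg_left (hkb s hs) hell.le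
  have h3 := (convex_Icc (0:ℝ) σ).norm_image_sub_le_of_norm_hasDerivWithin_le h1 h2
    (left_mem_Icc.2 hσ.1) (right_mem_Icc.2 hσ.1)
  rw [Real.norm_eq_abs, Real.norm_eq_abs, sub_zero, abs_of_nonneg hσ.1] at h3
  have h4 := (abs_le.1 h3).2
  have h5 : F.ell 2 t * Ck * σ ≤ Ck * (5.9 * r) := by
    have := mul_le_mul_of_nonneg_left hlen hCk
    nlinarith
  have h6 : 0 ≤ Ck * r := mul_nonneg hCk hr.le
  nlinarith

/-- J7 : comparison of the two functionals -/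
theorem compare_J (F : Flow a b 1) {T xi : ℝ} (hT : b ≤ T) (hr : rr T a ≤ 1 / 10)
    (hxi : xi ∈ Icc (1.187:ℝ) 1.197)
    (hCB : ∀ t ∈ Ioo a b, CB F T t xi) (hpos : ∀ t ∈ Ioo a b, F.Pos t)
    {Ck : ℝ} (hk : ∀ t ∈ Ioo a b, ∀ σ ∈ Icc (0:ℝ) 1, F.X 2 t σ ≤ 6 * rr T t → |F.k 2 t σ| ≤ Ck) :
    ∃ C > 0, ∀ t ∈ Ioo a b,
      F.J (fun x => zeta1 (x / rr T t)) t ≤
        C * (F.J (fun x => zeta2 xi (x / rr T t)) t + rr T t * F.th 2 t 0 + rr T t ^ 2) := by
  refine ⟨100 * (1 + 6 * |Ck|), by positivity, ?_⟩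
  intro t ht
  have hcb := hCB t ht
  have hP := hpos t ht
  obtain ⟨hX0, hX1, sa, sb, sc, hsa, hsb, hsc, hsac, hsbc, hscc, _, _, _⟩ :=
    graph_param F ht hcb.graph
  set r := rr T t with hrdef
  have hr0 : 0 < r := by
    rw [hrdef]; unfold rr
    apply Real.sqrt_pos.2
    linarith [ht.2]
  have hr1 : r ≤ 1 / 10 := by
    refine le_trans ?_ hr
    rw [hrdef]; unfold rr
    apply Real.sqrt_le_sqrt
    linarith [ht.1]
  set XJ := F.X 2 t 0 with hXJ
  have hjx : |XJ / r - xi| ≤ 0.001 := hcb.jx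
  have hJ1 : XJ / r ≤ 1.198 := by have := (abs_le.1 hjx).2; linarith [hxi.2]
  have hJ2 : XJ ≤ 1.198 * r := by rwa [div_le_iff₀ hr0] at hJ1
  have hJxi : XJ / r ≤ xi + 0.001 := by have := (abs_le.1 hjx).2; linarith
  have hA1 : Continuous (fun x => zeta1 (x / r)) :=
    J7_zeta1_cont.comp (continuous_id.div_const r)
  have hA2 : Continuous (fun x => zeta2 xi (x / r)) :=
    (J7_zeta2_cont xi).comp (continuous_id.div_const r)
  rw [J_graph F ht hcb.graph hA1 hsa hsb hsc, J_graph F ht hcb.graph hA2 hsa hsb hsc]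
  have hthc : ∀ i, ContinuousOn (F.th i t) (Icc 0 1) := fun i σ hσ =>
    (F.th_s i t ht σ hσ).continuousWithinAt
  -- the lens part
  set v : ℝ → ℝ := fun x => Real.tan (F.th 0 t (sa x) + off 0) + Real.tan (F.th 1 t (sb x) + off 1)
    with hv
  have hvc : ContinuousOn v (Icc 0 XJ) := by
    have c0 : ContinuousOn (fun x => F.th 0 t (sa x) + off 0) (Icc 0 XJ) :=
      ((hthc 0).comp hsac (fun x hx => (hsa x hx).1)).add continuousOn_const
    have c1 : ContinuousOn (fun x => F.th 1 t (sb x) + off 1) (Icc 0 XJ) :=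
      ((hthc 1).comp hsbc (fun x hx => (hsb x hx).1)).add continuousOn_const
    refine ContinuousOn.add ?_ ?_
    · refine Real.continuousOn_tan.comp c0 ?_
      intro x hx
      exact (hcb.graph _ (hsa x hx).1).1.ne
    · refine Real.continuousOn_tan.comp c1 ?_
      intro x hx
      exact (hcb.graph _ (hsb x hx).1).2.1.ne
  have hv0 : ∀ x ∈ Icc 0 XJ, 0 ≤ v x := by
    intro x hx
    exact (ratio_lens F ht hT hcb hP (hsa x hx).1 (hsb x hx).1
      (by rw [(hsa x hx).2, (hsb x hx).2])).1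
  have hlens : (∫ x in (0:ℝ)..XJ, zeta1 (x / r) * v x) ≤
      10 * ∫ x in (0:ℝ)..XJ, zeta2 xi (x / r) * v x := by
    rw [← intervalIntegral.integral_const_mul]
    apply intervalIntegral.integral_mono_on hX0.le
    · apply ContinuousOn.intervalIntegrable
      rw [uIcc_of_le hX0.le]
      exact hA1.continuousOn.mul hvc
    · apply ContinuousOn.intervalIntegrable
      rw [uIcc_of_le hX0.le]
      exact continuousOn_const.mul (hA2.continuousOn.mul hvc)
    · intro x hx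
      have hy0 : 0 ≤ x / r := div_nonneg hx.1 hr0.le
      have hy1 : x / r ≤ XJ / r := div_le_div_of_nonneg_right hx.2 hr0.le
      have e1 := J7_zeta1_small hy0 (by linarith)
      have e2 := J7_p2 hy0 (by linarith)
      rw [J7_zeta2_eq (by linarith : x / r ≤ xi + 0.003)]
      have e3 : zeta1 (x / r) ≤ 10 * p2 (x / r) := by linarith
      have := mul_le_mul_of_nonneg_right e3 (hv0 x hx)
      linarith
  -- the ray part
  set W : ℝ → ℝ := fun x => 2 * Real.tan (F.th 2 t (sc x)) with hW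
  have hth0 : ∀ σ ∈ Icc (0:ℝ) 1, 0 ≤ F.th 2 t σ := hP.2
  have hth1 : ∀ σ ∈ Icc (0:ℝ) 1, F.th 2 t σ ≤ 0.01 := fun σ hσ =>
    (le_abs_self _).trans (hcb.small σ hσ)
  have hW0 : ∀ x ∈ Icc XJ 1, 0 ≤ W x := by
    intro x hx
    have := J7_tan_nonneg (hth0 _ (hsc x hx).1) (hth1 _ (hsc x hx).1)
    simp only [hW]; linarith
  have hWc : ContinuousOn W (Icc XJ 1) := by
    refine continuousOn_const.mul ?_
    refine Real.continuousOn_tan.comp ((hthc 2).comp hscc (fun x hx => (hsc x hx).1)) ?_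
    intro x hx
    have h1 := (hcb.graph _ (hsc x hx).1).2.2
    have e : off 2 = 0 := rfl
    rw [e, add_zero] at h1
    exact h1.ne'
  set θJ := F.th 2 t 0 with hθJ
  have h0mem : (0:ℝ) ∈ Icc (0:ℝ) 1 := ⟨le_rfl, zero_le_one⟩
  have hθJ0 : 0 ≤ θJ := hth0 0 h0mem
  have hWb : ∀ x ∈ Icc XJ 1, x ≤ 5.4 * r → W x ≤ 4 * (θJ + 6 * |Ck| * r) := by
    intro x hx hxr
    obtain ⟨hs1, hs2⟩ := hsc x hx
    have h1 := J7_th F ht hcb.small (abs_nonneg Ck) hr0
      (fun σ hσ h => (hk t ht σ hσ h).trans (le_abs_self _)) hX0 hs1 (by rw [hs2]; exact hxr)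
    have h2 := J7_tan_le (hth0 _ hs1) (hth1 _ hs1)
    simp only [hW]; linarith
  have hXr : XJ ≤ 5.4 * r := by linarith
  have hr54 : 5.4 * r ≤ 1 := by linarith
  have hray1 : (∫ x in XJ..1, zeta1 (x / r) * W x) ≤ 100 * (r * θJ + 6 * |Ck| * r ^ 2) := by
    have hi1 : IntervalIntegrable (fun x => zeta1 (x / r) * W x) volume XJ (5.4 * r) := by
      apply ContinuousOn.intervalIntegrable
      rw [uIcc_of_le hXr]
      exact (hA1.continuousOn.mul hWc).mono (Icc_subset_Icc le_rfl hr54)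
    have hi2 : IntervalIntegrable (fun x => zeta1 (x / r) * W x) volume (5.4 * r) 1 := by
      apply ContinuousOn.intervalIntegrable
      rw [uIcc_of_le hr54]
      exact (hA1.continuousOn.mul hWc).mono (Icc_subset_Icc hXr le_rfl)
    rw [← intervalIntegral.integral_add_adjacent_intervals hi1 hi2]
    have hz : (∫ x in (5.4 * r)..1, zeta1 (x / r) * W x) = 0 := by
      rw [← intervalIntegral.integral_zero (a := 5.4 * r) (b := 1) (μ := volume) (E := ℝ)]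
      apply intervalIntegral.integral_congr
      intro x hx
      rw [uIcc_of_le hr54] at hx
      have : 5.4 ≤ x / r := by rw [le_div_iff₀ hr0]; exact hx.1
      simp only [J7_zeta1_zero this, zero_mul]
    rw [hz, add_zero]
    have hb : ‖∫ x in XJ..(5.4 * r), zeta1 (x / r) * W x‖ ≤
        (3 * (4 * (θJ + 6 * |Ck| * r))) * |5.4 * r - XJ| := by
      apply intervalIntegral.norm_integral_le_of_norm_le_const
      intro x hx
      rw [uIoc_of_le hXr] at hx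
      have hx1 : x ∈ Icc XJ 1 := ⟨hx.1.le, hx.2.trans hr54⟩
      have hy0 : 0 ≤ x / r := div_nonneg (hX0.le.trans hx.1.le) hr0.le
      rw [Real.norm_eq_abs, abs_mul, abs_of_nonneg (J7_zeta1_nonneg _), abs_of_nonneg (hW0 x hx1)]
      exact mul_le_mul (J7_zeta1_le hy0) (hWb x hx1 hx.2) (hW0 x hx1) (by norm_num)
    have hb2 := (Real.le_norm_self _).trans hb
    rw [abs_of_nonneg (by linarith : 0 ≤ 5.4 * r - XJ)] at hb2
    refine hb2.trans ?_
    have hq : 0 ≤ θJ + 6 * |Ck| * r := by positivity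
    have : (3 * (4 * (θJ + 6 * |Ck| * r))) * (5.4 * r - XJ) ≤
        (3 * (4 * (θJ + 6 * |Ck| * r))) * (5.4 * r) :=
      mul_le_mul_of_nonneg_left (by linarith) (by positivity)
    have h7 : 0 ≤ (θJ + 6 * |Ck| * r) * r := mul_nonneg hq hr0.le
    nlinarith
  have hray2 : 0 ≤ ∫ x in XJ..1, zeta2 xi (x / r) * W x := by
    apply intervalIntegral.integral_nonneg hX1.le
    intro x hx
    exact mul_nonneg (J7_zeta2_nonneg hxi.2 (div_nonneg (hX0.le.trans hx.1) hr0.le)) (hW0 x hx)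
  have hlens2 : 0 ≤ ∫ x in (0:ℝ)..XJ, zeta2 xi (x / r) * v x := by
    apply intervalIntegral.integral_nonneg hX0.le
    intro x hx
    exact mul_nonneg (J7_zeta2_nonneg hxi.2 (div_nonneg hx.1 hr0.le)) (hv0 x hx)
  have hsum : (∫ x in (0:ℝ)..XJ, zeta1 (x / r) * v x) + ∫ x in XJ..1, zeta1 (x / r) * W x ≤
      100 * (1 + 6 * |Ck|) * ((∫ x in (0:ℝ)..XJ, zeta2 xi (x / r) * v x) +
        (∫ x in XJ..1, zeta2 xi (x / r) * W x) + r * θJ + r ^ 2) := by
    generalize (∫ x in (0:ℝ)..XJ, zeta1 (x / r) * v x) = L1 at *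
    generalize (∫ x in XJ..1, zeta1 (x / r) * W x) = R1 at *
    generalize (∫ x in (0:ℝ)..XJ, zeta2 xi (x / r) * v x) = L2 at *
    generalize (∫ x in XJ..1, zeta2 xi (x / r) * W x) = R2 at *
    have hC := abs_nonneg Ck
    have h1 : 0 ≤ |Ck| * L2 := mul_nonneg hC hlens2
    have h2 : 0 ≤ |Ck| * R2 := mul_nonneg hC hray2
    have h3 : 0 ≤ r * θJ := mul_nonneg hr0.le hθJ0
    have h4 : 0 ≤ |Ck| * (r * θJ) := mul_nonneg hC h3
    have h5 : 0 ≤ r ^ 2 := sq_nonneg r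
    have h6 : 0 ≤ |Ck| * r ^ 2 := mul_nonneg hC h5
    nlinarith
  exact hsum

end Pool.Agent.Helper15.NF
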