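import Pool.Agent.Helper15.NF.J5
import Pool.Agent.Helper15.NF.J6
import Pool.Agent.Helper15.NF.J7

open Set MeasureTheory intervalIntegral Filter Topology

namespace Pool.Agent.Helper15.NF

variable {a b Lx : ℝ}

private lemma J8_CB_restrict (F : Flow a b 1) {a' b' : ℝ} (h : a ≤ a') (h' : b' ≤ b) {T t xi : ℝ}
    (hC : CB F T t xi) : CB (F.restrict h h') T t xi where
  graph := hC.graph
  prof0 := hC.prof0
  prof1 := hC.prof1
  sgn0 := hC.sgn0
  sgn1 := hC.sgn1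
  jx := hC.jx
  small := hC.small

/-- J8 : the curvature of the ray is unbounded near the collapsing lens -/
theorem unbounded (F : Flow a b 1) {xi : ℝ} (hab : a < b) (hr : rr b a ≤ 1 / 10)
    (hxi : xi ∈ Icc (1.187:ℝ) 1.197)
    (hCB : ∀ t ∈ Ioo a b, CB F b t xi) (hpos : ∀ t ∈ Ioo a b, F.Pos t)
    {t1 : ℝ} (ht1 : t1 ∈ Ioo a b) (hJ : 0 < F.J (fun x => zeta1 (x / rr b t1)) t1) :
    ∀ Ck : ℝ, ∃ t ∈ Ioo t1 b, ∃ σ ∈ Icc (0:ℝ) 1, F.X 2 t σ ≤ 6 * rr b t ∧ Ck < |F.k 2 t σ| := by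
  intro Ck
  by_contra hcon
  push Not at hcon
  -- facts on `rr`
  have hrpos : ∀ t, t < b → 0 < rr b t := fun t ht => by
    unfold rr
    apply Real.sqrt_pos.2
    linarith
  have hranti : ∀ t t', t ≤ t' → rr b t' ≤ rr b t := fun t t' h => by
    unfold rr
    apply Real.sqrt_le_sqrt
    linarith
  have hrt : Tendsto (fun t => rr b t) (𝓝[<] b) (𝓝[>] 0) := by
    refine tendsto_nhdsWithin_iff.2 ⟨?_, ?_⟩
    · have hc : Continuous fun t => rr b t := by
        unfold rr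
        fun_prop
      have h0 : rr b b = 0 := by
        unfold rr
        simp
      have := (hc.tendsto b).mono_left (nhdsWithin_le_nhds (s := Iio b))
      rwa [h0] at this
    · exact eventually_nhdsWithin_of_forall fun t ht => hrpos t ht
  obtain ⟨ha1, h1b⟩ := ht1
  -- the restricted flow
  set F' : Flow t1 b 1 := F.restrict ha1.le le_rfl with hF'
  have hsub : ∀ t ∈ Ioo t1 b, t ∈ Ioo a b := fun t ht => ⟨ha1.trans ht.1, ht.2⟩
  have hr' : rr b t1 ≤ 1 / 10 := (hranti a t1 ha1.le).trans hr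
  have hCB' : ∀ t ∈ Ioo t1 b, CB F' b t xi := fun t ht =>
    J8_CB_restrict F ha1.le le_rfl (hCB t (hsub t ht))
  have hpos' : ∀ t ∈ Ioo t1 b, F'.Pos t := fun t ht => hpos t (hsub t ht)
  have hk' : ∀ t ∈ Ioo t1 b, ∀ σ ∈ Icc (0:ℝ) 1, F'.X 2 t σ ≤ 6 * rr b t → |F'.k 2 t σ| ≤ Ck :=
    fun t ht σ hσ h => hcon t ht σ hσ h
  have hJF : ∀ (ψ : ℝ → ℝ) t, F'.J ψ t = F.J ψ t := fun ψ t => rfl
  have hthF : ∀ t, F'.th 2 t 0 = F.th 2 t 0 := fun t => rfl
  obtain ⟨t2, ht2, ht2b⟩ : ∃ t2, t1 < t2 ∧ t2 < b := exists_between h1b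
  obtain ⟨C1, hC1, hup⟩ := upper_bound F' (T := b) le_rfl hr' hxi hCB' hpos' hk' ⟨ht2, ht2b⟩
  obtain ⟨C2, hC2, hcmp⟩ := compare_J F' (T := b) le_rfl hr' hxi hCB' hpos' hk'
  have hmono := lower_mono F (T := b) le_rfl hr hxi hCB hpos
  -- the lower bound
  set c : ℝ := rr b t1 ^ (-1.95 : ℝ) * F.J (fun x => zeta1 (x / rr b t1)) t1 with hc
  have hc0 : 0 < c := mul_pos (Real.rpow_pos_of_pos (hrpos t1 h1b) _) hJ
  have hlow : ∀ t ∈ Ioo t1 b, c * rr b t ^ (1.95 : ℝ) ≤ F.J (fun x => zeta1 (x / rr b t)) t := by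
    intro t ht
    have h := hmono ⟨ha1, h1b⟩ (hsub t ht) ht.1.le
    simp only at h
    rw [← hc] at h
    have hrp := hrpos t ht.2
    have h2 : (0:ℝ) ≤ rr b t ^ (1.95 : ℝ) := (Real.rpow_pos_of_pos hrp _).le
    calc c * rr b t ^ (1.95 : ℝ) ≤ (rr b t ^ (-1.95 : ℝ) * F.J (fun x => zeta1 (x / rr b t)) t) *
          rr b t ^ (1.95 : ℝ) := mul_le_mul_of_nonneg_right h h2
      _ = (rr b t ^ (-1.95 : ℝ) * rr b t ^ (1.95 : ℝ)) * F.J (fun x => zeta1 (x / rr b t)) t := by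
          ring
      _ = F.J (fun x => zeta1 (x / rr b t)) t := by
          rw [← Real.rpow_add hrp]
          norm_num
  -- the upper bound
  set K : ℝ := C2 * (2 * C1 + 1) with hK
  have hK0 : 0 < K := by positivity
  have hhigh : ∀ t ∈ Ico t2 b, F.J (fun x => zeta1 (x / rr b t)) t ≤
      K * (1 + |Real.log (rr b t)|) * rr b t ^ 2 := by
    intro t ht
    have ht' : t ∈ Ioo t1 b := ⟨ht2.trans_le ht.1, ht.2⟩
    obtain ⟨h1, h2⟩ := hup t ht
    have h3 := hcmp t ht'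
    rw [hJF] at h1 h3
    rw [hJF] at h3
    rw [hthF] at h2 h3
    have hrp := hrpos t ht.2
    have hl : 0 ≤ |Real.log (rr b t)| := abs_nonneg _
    have h4 : rr b t * F.th 2 t 0 ≤ C1 * (1 + |Real.log (rr b t)|) * rr b t ^ 2 := by
      calc rr b t * F.th 2 t 0 ≤ rr b t * (C1 * (1 + |Real.log (rr b t)|) * rr b t) :=
            mul_le_mul_of_nonneg_left h2 hrp.le
        _ = _ := by ring
    have h5 : rr b t ^ 2 ≤ (1 + |Real.log (rr b t)|) * rr b t ^ 2 := by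
      have : 0 ≤ rr b t ^ 2 := by positivity
      nlinarith
    calc F.J (fun x => zeta1 (x / rr b t)) t ≤
          C2 * (F.J (fun x => zeta2 xi (x / rr b t)) t + rr b t * F.th 2 t 0 + rr b t ^ 2) := h3
      _ ≤ C2 * (C1 * (1 + |Real.log (rr b t)|) * rr b t ^ 2 +
            C1 * (1 + |Real.log (rr b t)|) * rr b t ^ 2 +
            (1 + |Real.log (rr b t)|) * rr b t ^ 2) := by
          apply mul_le_mul_of_nonneg_left _ hC2.le
          linarith
      _ = K * (1 + |Real.log (rr b t)|) * rr b t ^ 2 := by rw [hK]; ring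
  -- limit
  have hlim : Tendsto (fun r : ℝ => K * ((1 + |Real.log r|) * r ^ (0.05 : ℝ))) (𝓝[>] 0) (𝓝 0) := by
    have h1 : Tendsto (fun r : ℝ => r ^ (0.05 : ℝ)) (𝓝[>] 0) (𝓝 0) := by
      have hcont : ContinuousAt (fun r : ℝ => r ^ (0.05 : ℝ)) 0 :=
        Real.continuousAt_rpow_const 0 0.05 (Or.inr (by norm_num))
      have := hcont.tendsto.mono_left (nhdsWithin_le_nhds (s := Ioi (0:ℝ)))
      rwa [Real.zero_rpow (by norm_num)] at this
    have h2 : Tendsto (fun r : ℝ => |Real.log r * r ^ (0.05 : ℝ)|) (𝓝[>] 0) (𝓝 0) := by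
      have := (tendsto_log_mul_rpow_nhdsGT_zero (r := 0.05) (by norm_num)).abs
      rwa [abs_zero] at this
    have h3 := (h1.add h2).const_mul K
    rw [add_zero, mul_zero] at h3
    refine h3.congr' ?_
    filter_upwards [self_mem_nhdsWithin] with r hr0
    have hr0' : (0:ℝ) < r := hr0
    rw [abs_mul, abs_of_pos (Real.rpow_pos_of_pos hr0' _)]
    ring
  have hlim2 := hlim.comp hrt
  have hev : ∀ᶠ t in 𝓝[<] b, c ≤ K * ((1 + |Real.log (rr b t)|) * rr b t ^ (0.05 : ℝ)) := by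
    filter_upwards [Ico_mem_nhdsLT ht2b] with t ht
    have ht' : t ∈ Ioo t1 b := ⟨ht2.trans_le ht.1, ht.2⟩
    have hrp := hrpos t ht.2
    have h := (hlow t ht').trans (hhigh t ht)
    have h195 : (0:ℝ) < rr b t ^ (1.95 : ℝ) := Real.rpow_pos_of_pos hrp _
    have heq : rr b t ^ 2 = rr b t ^ (0.05 : ℝ) * rr b t ^ (1.95 : ℝ) := by
      rw [← Real.rpow_add hrp, ← Real.rpow_natCast]
      norm_num
    rw [heq] at h
    have h6 : c * rr b t ^ (1.95 : ℝ) ≤
        (K * ((1 + |Real.log (rr b t)|) * rr b t ^ (0.05 : ℝ))) * rr b t ^ (1.95 : ℝ) := by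
      calc _ ≤ _ := h
        _ = _ := by ring
    exact le_of_mul_le_mul_right h6 h195
  have := ge_of_tendsto hlim2 hev
  linarith

end Pool.Agent.Helper15.NF
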