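import Pool.Agent.Helper15.NF.T1
import Pool.Agent.Helper15.NF.T2a
import Pool.Agent.Helper15.NF.DDefs

open Set MeasureTheory intervalIntegral Filter Topology

namespace Pool.Agent.Helper15.NF

variable {a b Lx : ℝ}

namespace T4

/-- total derivative along a curve -/
theorem total {ψ ψt ψx : ℝ → ℝ → ℝ}
    (hψt : ContinuousOn (fun p : ℝ × ℝ => ψt p.1 p.2) (Ioo a b ×ˢ univ))
    (hψx : ContinuousOn (fun p : ℝ × ℝ => ψx p.1 p.2) (Ioo a b ×ˢ univ))
    (ht : ∀ t ∈ Ioo a b, ∀ x, HasDerivAt (fun τ => ψ τ x) (ψt t x) t)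
    (hx : ∀ t ∈ Ioo a b, ∀ x, HasDerivAt (ψ t) (ψx t x) x)
    {t : ℝ} (htt : t ∈ Ioo a b) {x : ℝ → ℝ} {x' : ℝ} (hxx : HasDerivAt x x' t) :
    HasDerivAt (fun τ => ψ τ (x τ)) (ψt t (x t) + ψx t (x t) * x') t := by
  have hopen : IsOpen (Ioo a b ×ˢ (univ : Set ℝ)) := isOpen_Ioo.prod isOpen_univ
  have hmem : Ioo a b ×ˢ (univ : Set ℝ) ∈ 𝓝 ((t, x t) : ℝ × ℝ) :=
    hopen.mem_nhds ⟨htt, mem_univ _⟩
  have key := hasStrictFDerivAt_uncurry_coprod (𝕜 := ℝ) (u := (t, x t)) (f := ψ)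
    (f₁ := fun τ y => ContinuousLinearMap.toSpanSingleton ℝ (ψt τ y))
    (f₂ := fun τ y => ContinuousLinearMap.toSpanSingleton ℝ (ψx τ y)) ?_ ?_ ?_ ?_
  · have hc : HasDerivAt (fun τ : ℝ => (τ, x τ)) (1, x') t := (hasDerivAt_id t).prodMk hxx
    have h := key.hasFDerivAt.comp_hasDerivAt t hc
    refine h.congr_deriv ?_
    simp [Function.HasUncurry.uncurry, mul_comm]
  · filter_upwards [hmem] with v hv
    exact (ht v.1 hv.1 v.2).hasFDerivAt
  · filter_upwards [hmem] with v hv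
    exact (hx v.1 hv.1 v.2).hasFDerivAt
  · have h1 : ContinuousAt (fun p : ℝ × ℝ => ψt p.1 p.2) (t, x t) := hψt.continuousAt hmem
    exact (ContinuousLinearMap.toSpanSingletonCLE (𝕜 := ℝ) (E := ℝ)).continuous.continuousAt.comp h1
  · have h1 : ContinuousAt (fun p : ℝ × ℝ => ψx p.1 p.2) (t, x t) := hψx.continuousAt hmem
    exact (ContinuousLinearMap.toSpanSingletonCLE (𝕜 := ℝ) (E := ℝ)).continuous.continuousAt.comp h1

/-- one edge -/
theorem edge (F : Flow a b Lx) (i : Fin 3) {ψ ψt ψx : ℝ → ℝ → ℝ}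
    (hψ : ContinuousOn (fun p : ℝ × ℝ => ψ p.1 p.2) (Ioo a b ×ˢ univ))
    (hψt : ContinuousOn (fun p : ℝ × ℝ => ψt p.1 p.2) (Ioo a b ×ˢ univ))
    (hψx : ContinuousOn (fun p : ℝ × ℝ => ψx p.1 p.2) (Ioo a b ×ˢ univ))
    (ht : ∀ t ∈ Ioo a b, ∀ x, HasDerivAt (fun τ => ψ τ x) (ψt t x) t)
    (hx : ∀ t ∈ Ioo a b, ∀ x, HasDerivAt (ψ t) (ψx t x) x) {t : ℝ} (htt : t ∈ Ioo a b) :
    HasDerivAt (fun τ => F.ell i τ * ∫ σ in (0:ℝ)..1, ψ τ (F.X i τ σ) *
        Real.sin (F.th i τ σ + off i))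
      (F.ell i t * (∫ σ in (0:ℝ)..1, ψt t (F.X i t σ) * Real.sin (F.th i t σ + off i))
        - F.ell i t * (∫ σ in (0:ℝ)..1, ψx t (F.X i t σ) * F.k i t σ)
        + ψ t (F.X i t 1) * F.k i t 1 * Real.cos (F.th i t 1 + off i)
        - ψ t (F.X i t 0) * (F.k i t 0 * Real.cos (F.th i t 0 + off i) +
            F.mu i t 0 * Real.sin (F.th i t 0 + off i))) t := by
  have hpair : ContinuousOn (fun p : ℝ × ℝ => (p.1, F.X i p.1 p.2)) (Ioo a b ×ˢ Icc 0 1) :=
    continuousOn_fst.prodMk (F.X_cont i)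
  have hmaps : MapsTo (fun p : ℝ × ℝ => (p.1, F.X i p.1 p.2)) (Ioo a b ×ˢ Icc 0 1)
      (Ioo a b ×ˢ (univ : Set ℝ)) := fun p hp => ⟨hp.1, mem_univ _⟩
  have c0 : ContinuousOn (fun p : ℝ × ℝ => ψ p.1 (F.X i p.1 p.2)) (Ioo a b ×ˢ Icc 0 1) :=
    hψ.comp hpair hmaps
  have c1 : ContinuousOn (fun p : ℝ × ℝ => ψt p.1 (F.X i p.1 p.2)) (Ioo a b ×ˢ Icc 0 1) :=
    hψt.comp hpair hmaps
  have c2 : ContinuousOn (fun p : ℝ × ℝ => ψx p.1 (F.X i p.1 p.2)) (Ioo a b ×ˢ Icc 0 1) :=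
    hψx.comp hpair hmaps
  have cth := F.th_cont i
  have ck := F.k_cont i
  have cks := F.ks_cont i
  have cmu := F.mu_cont i
  have csin : ContinuousOn (fun p : ℝ × ℝ => Real.sin (F.th i p.1 p.2 + off i))
      (Ioo a b ×ˢ Icc 0 1) := Real.continuous_sin.comp_continuousOn (cth.add continuousOn_const)
  have ccos : ContinuousOn (fun p : ℝ × ℝ => Real.cos (F.th i p.1 p.2 + off i))
      (Ioo a b ×ˢ Icc 0 1) := Real.continuous_cos.comp_continuousOn (cth.add continuousOn_const)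
  have cell : ContinuousOn (fun p : ℝ × ℝ => F.ell i p.1) (Ioo a b ×ˢ Icc 0 1) := by
    have h1 : ContinuousOn (F.ell i) (Ioo a b) := fun τ hτ =>
      (F.ell_t i τ hτ).continuousAt.continuousWithinAt
    exact h1.comp continuousOn_fst (fun p hp => hp.1)
  have hmain := transport F i
    (f := fun τ σ => ψ τ (F.X i τ σ) * Real.sin (F.th i τ σ + off i))
    (ft := fun τ σ => (ψt τ (F.X i τ σ) + ψx τ (F.X i τ σ) *
      (-(F.k i τ σ * Real.sin (F.th i τ σ + off i)) + F.mu i τ σ * Real.cos (F.th i τ σ + off i))) *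
      Real.sin (F.th i τ σ + off i) + ψ τ (F.X i τ σ) * (Real.cos (F.th i τ σ + off i) *
        (F.ks i τ σ + F.mu i τ σ * F.k i τ σ)))
    (fs := fun τ σ => (ψx τ (F.X i τ σ) * (F.ell i τ * Real.cos (F.th i τ σ + off i))) *
      Real.sin (F.th i τ σ + off i) + ψ τ (F.X i τ σ) * (Real.cos (F.th i τ σ + off i) *
        (F.ell i τ * F.k i τ σ)))
    (c0.mul csin)
    (((c1.add (c2.mul ((ck.mul csin).neg.add (cmu.mul ccos)))).mul csin).add
      (c0.mul (ccos.mul (cks.add (cmu.mul ck)))))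
    (((c2.mul (cell.mul ccos)).mul csin).add (c0.mul (ccos.mul (cell.mul ck))))
    (fun τ hτ σ hσ => by
      have h1 := total hψt hψx ht hx hτ (F.X_t i τ hτ σ hσ)
      have h2 := ((F.th_t i τ hτ σ hσ).add_const (off i)).sin
      exact h1.mul h2)
    (fun τ hτ σ hσ => by
      have h1 := (hx τ hτ (F.X i τ σ)).comp_hasDerivWithinAt σ (F.X_s i τ hτ σ hσ)
      have h2 := ((F.th_s i τ hτ σ hσ).add_const (off i)).sin
      exact h1.mul h2)
    htt
  refine hmain.congr_deriv ?_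
  have hl := F.ell_pos i t htt
  have s0 : ContinuousOn (fun σ => ψ t (F.X i t σ)) (Icc 0 1) :=
    T2a.slice (f := fun τ σ => ψ τ (F.X i τ σ)) c0 htt
  have s1 : ContinuousOn (fun σ => ψt t (F.X i t σ)) (Icc 0 1) :=
    T2a.slice (f := fun τ σ => ψt τ (F.X i τ σ)) c1 htt
  have s2 : ContinuousOn (fun σ => ψx t (F.X i t σ)) (Icc 0 1) :=
    T2a.slice (f := fun τ σ => ψx τ (F.X i τ σ)) c2 htt
  have sk := T2a.slice ck htt
  have sks := T2a.slice cks htt
  have smu := T2a.slice cmu htt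
  have ssin : ContinuousOn (fun σ => Real.sin (F.th i t σ + off i)) (Icc 0 1) :=
    T2a.slice (f := fun τ σ => Real.sin (F.th i τ σ + off i)) csin htt
  have scos : ContinuousOn (fun σ => Real.cos (F.th i t σ + off i)) (Icc 0 1) :=
    T2a.slice (f := fun τ σ => Real.cos (F.th i τ σ + off i)) ccos htt
  -- the boundary terms
  have hb := T2a.ftc01 (G := fun σ => ψ t (F.X i t σ) * F.k i t σ *
      Real.cos (F.th i t σ + off i))
    (G' := fun σ => (ψx t (F.X i t σ) * (F.ell i t * Real.cos (F.th i t σ + off i)) * F.k i t σ +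
      ψ t (F.X i t σ) * (F.ell i t * F.ks i t σ)) * Real.cos (F.th i t σ + off i) +
      ψ t (F.X i t σ) * F.k i t σ *
        (-Real.sin (F.th i t σ + off i) * (F.ell i t * F.k i t σ)))
    (fun σ hσ => by
      have h1 := (hx t htt (F.X i t σ)).comp_hasDerivWithinAt σ (F.X_s i t htt σ hσ)
      have h2 := ((F.th_s i t htt σ hσ).add_const (off i)).cos
      exact (h1.mul (F.k_s i t htt σ hσ)).mul h2)
    (by
      refine ContinuousOn.add (ContinuousOn.mul (ContinuousOn.add ?_ ?_) scos) ?_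
      · exact (s2.mul (continuousOn_const.mul scos)).mul sk
      · exact s0.mul (continuousOn_const.mul sks)
      · exact (s0.mul sk).mul (ssin.neg.mul (continuousOn_const.mul sk)))
  have i1 : IntervalIntegrable (fun σ => ψt t (F.X i t σ) * Real.sin (F.th i t σ + off i))
      volume 0 1 := (s1.mul ssin).intervalIntegrable_of_Icc zero_le_one
  have i2 : IntervalIntegrable (fun σ => ψx t (F.X i t σ) * F.k i t σ)
      volume 0 1 := (s2.mul sk).intervalIntegrable_of_Icc zero_le_one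
  have i3 : IntervalIntegrable (fun σ => (ψx t (F.X i t σ) * (F.ell i t *
      Real.cos (F.th i t σ + off i)) * F.k i t σ +
      ψ t (F.X i t σ) * (F.ell i t * F.ks i t σ)) * Real.cos (F.th i t σ + off i) +
      ψ t (F.X i t σ) * F.k i t σ *
        (-Real.sin (F.th i t σ + off i) * (F.ell i t * F.k i t σ))) volume 0 1 := by
    refine ContinuousOn.intervalIntegrable_of_Icc zero_le_one
      (ContinuousOn.add (ContinuousOn.mul (ContinuousOn.add ?_ ?_) scos) ?_)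
    · exact (s2.mul (continuousOn_const.mul scos)).mul sk
    · exact s0.mul (continuousOn_const.mul sks)
    · exact (s0.mul sk).mul (ssin.neg.mul (continuousOn_const.mul sk))
  have h3 : F.ell i t * (∫ σ in (0:ℝ)..1, ((ψt t (F.X i t σ) + ψx t (F.X i t σ) *
      (-(F.k i t σ * Real.sin (F.th i t σ + off i)) + F.mu i t σ * Real.cos (F.th i t σ + off i))) *
      Real.sin (F.th i t σ + off i) + ψ t (F.X i t σ) * (Real.cos (F.th i t σ + off i) *
        (F.ks i t σ + F.mu i t σ * F.k i t σ)) -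
      F.mu i t σ / F.ell i t * ((ψx t (F.X i t σ) * (F.ell i t *
        Real.cos (F.th i t σ + off i))) *
        Real.sin (F.th i t σ + off i) + ψ t (F.X i t σ) * (Real.cos (F.th i t σ + off i) *
        (F.ell i t * F.k i t σ))) -
      F.k i t σ ^ 2 * (ψ t (F.X i t σ) * Real.sin (F.th i t σ + off i)))) =
      F.ell i t * (∫ σ in (0:ℝ)..1, ψt t (F.X i t σ) * Real.sin (F.th i t σ + off i)) -
      F.ell i t * (∫ σ in (0:ℝ)..1, ψx t (F.X i t σ) * F.k i t σ) +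
      ∫ σ in (0:ℝ)..1, ((ψx t (F.X i t σ) * (F.ell i t *
        Real.cos (F.th i t σ + off i)) * F.k i t σ +
        ψ t (F.X i t σ) * (F.ell i t * F.ks i t σ)) * Real.cos (F.th i t σ + off i) +
        ψ t (F.X i t σ) * F.k i t σ *
          (-Real.sin (F.th i t σ + off i) * (F.ell i t * F.k i t σ))) := by
    rw [← intervalIntegral.integral_const_mul, ← intervalIntegral.integral_const_mul,
      ← intervalIntegral.integral_const_mul, ← intervalIntegral.integral_sub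
        (i1.const_mul _) (i2.const_mul _), ← intervalIntegral.integral_add
        ((i1.const_mul _).sub (i2.const_mul _)) i3]
    apply intervalIntegral.integral_congr
    intro σ _
    simp only
    have hsc := T1.sc (F.th i t σ + off i)
    have e1 : F.mu i t σ / F.ell i t * ((ψx t (F.X i t σ) * (F.ell i t *
        Real.cos (F.th i t σ + off i))) *
        Real.sin (F.th i t σ + off i) + ψ t (F.X i t σ) * (Real.cos (F.th i t σ + off i) *
        (F.ell i t * F.k i t σ))) = F.mu i t σ * ((ψx t (F.X i t σ) *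
        Real.cos (F.th i t σ + off i)) *
        Real.sin (F.th i t σ + off i) + ψ t (F.X i t σ) * (Real.cos (F.th i t σ + off i) *
        (F.k i t σ))) := by
      field_simp
    rw [e1]
    linear_combination (-(F.ell i t * ψx t (F.X i t σ) * F.k i t σ)) * hsc
  rw [h3, hb]
  ring

end T4

open T4

/-- T4 : first order form of the dual identity -/
theorem dual_deriv (F : Flow a b Lx) {ψ ψt ψx : ℝ → ℝ → ℝ}
    (hψ : ContinuousOn (fun p : ℝ × ℝ => ψ p.1 p.2) (Ioo a b ×ˢ univ))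
    (hψt : ContinuousOn (fun p : ℝ × ℝ => ψt p.1 p.2) (Ioo a b ×ˢ univ))
    (hψx : ContinuousOn (fun p : ℝ × ℝ => ψx p.1 p.2) (Ioo a b ×ˢ univ))
    (ht : ∀ t ∈ Ioo a b, ∀ x, HasDerivAt (fun τ => ψ τ x) (ψt t x) t)
    (hx : ∀ t ∈ Ioo a b, ∀ x, HasDerivAt (ψ t) (ψx t x) x)
    (h0 : ∀ t ∈ Ioo a b, ψ t 0 = 0) {t : ℝ} (htt : t ∈ Ioo a b) :
    HasDerivAt (fun τ => F.J (ψ τ) τ)
      (F.J (ψt t) t
        + F.ell 0 t * (∫ σ in (0:ℝ)..1, ψx t (F.X 0 t σ) * F.k 0 t σ)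
        + F.ell 1 t * (∫ σ in (0:ℝ)..1, ψx t (F.X 1 t σ) * F.k 1 t σ)
        - 2 * (F.ell 2 t * ∫ σ in (0:ℝ)..1, ψx t (F.X 2 t σ) * F.k 2 t σ)) t := by
  have e0 := edge F 0 hψ hψt hψx ht hx htt
  have e1 := edge F 1 hψ hψt hψx ht hx htt
  have e2 := edge F 2 hψ hψt hψx ht hx htt
  have v0 := (T1.vel F htt 0).2
  have v1 := (T1.vel F htt 1).2
  rw [F.X_axis0 t htt, h0 t htt, F.th_J 0 t htt, v0, F.X_J 0 t htt] at e0
  rw [F.X_axis1 t htt, h0 t htt, F.th_J 1 t htt, v1, F.X_J 1 t htt] at e1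
  rw [F.k_far t htt, T1.cos_off2, T1.cos_off2, T1.sin_off2] at e2
  have h := (e0.neg.sub e1).add (e2.const_mul 2)
  refine h.congr_deriv ?_
  unfold Flow.J
  ring

end Pool.Agent.Helper15.NF
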