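import Pool.Agent.Helper15.NF.J1
import Pool.Agent.Helper15.NF.J2
import Pool.Agent.Helper15.NF.J3
import Pool.Agent.Helper15.NF.T4

open Set MeasureTheory intervalIntegral Filter Topology

namespace Pool.Agent.Helper15.NF

variable {a b Lx : ℝ}

theorem JR_pos {T τ : ℝ} (h : τ < T) : 0 < rr T τ := Real.sqrt_pos.2 (by linarith)

theorem JR_rr_deriv {T τ : ℝ} (h : τ < T) : HasDerivAt (rr T) (-1 / rr T τ) τ := by
  have h1 : HasDerivAt (fun s : ℝ => 2 * (T - s)) (2 * (-1)) τ :=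
    ((hasDerivAt_id τ).const_sub T).const_mul 2
  have h2 := h1.sqrt (by have : 0 < T - τ := by linarith
                         positivity)
  have h3 : (2 * (-1 : ℝ)) / (2 * Real.sqrt (2 * (T - τ))) = -1 / rr T τ := by
    unfold rr
    have : Real.sqrt (2 * (T - τ)) ≠ 0 := (JR_pos h).ne'
    field_simp
  rw [h3] at h2
  exact h2

theorem JR_rr_cont (T : ℝ) : Continuous (rr T) := by
  unfold rr
  fun_prop

theorem JR_pow1 {r q : ℝ} (hr : 0 < r) : r ^ (-q - 1) = r ^ (-q) / r := by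
  rw [Real.rpow_sub hr, Real.rpow_one]

theorem JR_pow2 {r q : ℝ} (hr : 0 < r) : r ^ (-q - 2) = r ^ (-q) / r ^ 2 := by
  rw [Real.rpow_sub hr, Real.rpow_two]

/-- linearity of the functional -/
theorem JR_J_smul (F : Flow a b Lx) (c : ℝ) (ψ : ℝ → ℝ) (t : ℝ) :
    c * F.J ψ t = F.J (fun x => c * ψ x) t := by
  unfold Flow.J
  have e : ∀ (u v : ℝ → ℝ), (∫ σ in (0:ℝ)..1, c * u σ * v σ) = c * ∫ σ in (0:ℝ)..1, u σ * v σ := by
    intro u v
    rw [← intervalIntegral.integral_const_mul]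
    refine integral_congr fun σ _ => ?_
    ring
  rw [e, e, e]
  ring

/-- injectivity of the first coordinate along a graph edge -/
theorem JR_inj (F : Flow a b Lx) {t : ℝ} (ht : t ∈ Ioo a b) (i : Fin 3)
    (h : (∀ σ ∈ Icc (0:ℝ) 1, Real.cos (F.th i t σ + off i) < 0) ∨
      ∀ σ ∈ Icc (0:ℝ) 1, 0 < Real.cos (F.th i t σ + off i)) :
    InjOn (F.X i t) (Icc 0 1) := by
  have hc : ContinuousOn (F.X i t) (Icc 0 1) := fun σ hσ => (F.X_s i t ht σ hσ).continuousWithinAt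
  have hd : ∀ σ ∈ interior (Icc (0:ℝ) 1), deriv (F.X i t) σ =
      F.ell i t * Real.cos (F.th i t σ + off i) := by
    intro σ hσ
    rw [interior_Icc] at hσ
    exact ((F.X_s i t ht σ (Ioo_subset_Icc_self hσ)).hasDerivAt
      (Icc_mem_nhds hσ.1 hσ.2)).deriv
  rcases h with h | h
  · refine (strictAntiOn_of_deriv_neg (convex_Icc 0 1) hc fun σ hσ => ?_).injOn
    rw [hd σ hσ]
    exact mul_neg_of_pos_of_neg (F.ell_pos i t ht) (h σ (interior_subset hσ))
  · refine (strictMonoOn_of_deriv_pos (convex_Icc 0 1) hc fun σ hσ => ?_).injOn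
    rw [hd σ hσ]
    exact mul_pos (F.ell_pos i t ht) (h σ (interior_subset hσ))

theorem JR_th_cont (F : Flow a b Lx) {t : ℝ} (ht : t ∈ Ioo a b) (i : Fin 3) :
    ContinuousOn (F.th i t) (Icc 0 1) := fun σ hσ => (F.th_s i t ht σ hσ).continuousWithinAt

theorem JR_tan {f : ℝ → ℝ} {s : Set ℝ} (hf : ContinuousOn f s)
    (h : ∀ x ∈ s, Real.cos (f x) ≠ 0) : ContinuousOn (fun x => Real.tan (f x)) s := by
  intro x hx
  have h1 : ContinuousAt Real.tan (f x) := Real.continuousAt_tan.2 (h x hx)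
  have h2 : ContinuousWithinAt (Real.tan ∘ f) s x := h1.comp_continuousWithinAt (hf x hx)
  exact h2

/-- JR : rate of change of the rescaled functional `r^(-q) J(A(x/r))` -/
theorem J_rate (F : Flow a b Lx) {T t q y1 : ℝ} (hT : b ≤ T) (ht : t ∈ Ioo a b)
    (hg : F.IsGraph t) {A A1 A2l A2r : ℝ → ℝ}
    (hA : ∀ y, HasDerivAt A (A1 y) y) (hA1 : Continuous A1)
    (h1 : ∀ y ≤ y1, HasDerivWithinAt A1 (A2l y) (Iic y1) y)
    (h2 : ∀ y ≥ y1, HasDerivWithinAt A1 (A2r y) (Ici y1) y)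
    (c1 : Continuous A2l) (c2 : Continuous A2r) (hA0 : A 0 = 0) (hend : A1 (Lx / rr T t) = 0)
    (hy1 : 0 ≤ y1 ∧ y1 * rr T t ≤ F.X 2 t 0)
    {sa sb sc : ℝ → ℝ}
    (hsa : ∀ x ∈ Icc 0 (F.X 2 t 0), sa x ∈ Icc (0:ℝ) 1 ∧ F.X 0 t (sa x) = x)
    (hsb : ∀ x ∈ Icc 0 (F.X 2 t 0), sb x ∈ Icc (0:ℝ) 1 ∧ F.X 1 t (sb x) = x)
    (hsc : ∀ x ∈ Icc (F.X 2 t 0) Lx, sc x ∈ Icc (0:ℝ) 1 ∧ F.X 2 t (sc x) = x) :
    HasDerivAt (fun τ => rr T τ ^ (-q) * F.J (fun x => A (x / rr T τ)) τ)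
      (rr T t ^ (-q - 2) *
        ((∫ x in (0:ℝ)..(y1 * rr T t),
            (A2l (x / rr T t) * (F.th 0 t (sa x) + F.th 1 t (sb x)) +
              (x / rr T t * A1 (x / rr T t) + q * A (x / rr T t)) *
                (Real.tan (F.th 0 t (sa x) + off 0) + Real.tan (F.th 1 t (sb x) + off 1))))
        + (∫ x in (y1 * rr T t)..(F.X 2 t 0),
            (A2r (x / rr T t) * (F.th 0 t (sa x) + F.th 1 t (sb x)) +
              (x / rr T t * A1 (x / rr T t) + q * A (x / rr T t)) *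
                (Real.tan (F.th 0 t (sa x) + off 0) + Real.tan (F.th 1 t (sb x) + off 1))))
        + ∫ x in (F.X 2 t 0)..Lx,
            (A2r (x / rr T t) * (2 * F.th 2 t (sc x)) +
              (x / rr T t * A1 (x / rr T t) + q * A (x / rr T t)) *
                (2 * Real.tan (F.th 2 t (sc x)))))) t := by
  have hlt : ∀ τ ∈ Ioo a b, τ < T := fun τ hτ => hτ.2.trans_le hT
  have hcA : Continuous A := continuous_iff_continuousAt.2 fun y => (hA y).continuousAt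
  -- the test function
  set ψ : ℝ → ℝ → ℝ := fun τ x => rr T τ ^ (-q) * A (x / rr T τ) with hψ
  set ψt : ℝ → ℝ → ℝ := fun τ x =>
    rr T τ ^ (-q - 2) * (x / rr T τ * A1 (x / rr T τ) + q * A (x / rr T τ)) with hψt
  set ψx : ℝ → ℝ → ℝ := fun τ x => rr T τ ^ (-q - 1) * A1 (x / rr T τ) with hψx
  have hfst : ContinuousOn (fun p : ℝ × ℝ => rr T p.1) (Ioo a b ×ˢ univ) :=
    ((JR_rr_cont T).comp continuous_fst).continuousOn
  have hne : ∀ p ∈ Ioo a b ×ˢ (univ : Set ℝ), rr T p.1 ≠ 0 := fun p hp => (JR_pos (hlt _ hp.1)).ne'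
  have hpw : ∀ e : ℝ, ContinuousOn (fun p : ℝ × ℝ => rr T p.1 ^ e) (Ioo a b ×ˢ univ) := fun e =>
    hfst.rpow_const fun p hp => Or.inl (hne p hp)
  have hdiv : ContinuousOn (fun p : ℝ × ℝ => p.2 / rr T p.1) (Ioo a b ×ˢ univ) :=
    continuous_snd.continuousOn.div hfst hne
  have hψc : ContinuousOn (fun p : ℝ × ℝ => ψ p.1 p.2) (Ioo a b ×ˢ univ) :=
    (hpw _).mul (hcA.comp_continuousOn hdiv)
  have hψtc : ContinuousOn (fun p : ℝ × ℝ => ψt p.1 p.2) (Ioo a b ×ˢ univ) :=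
    (hpw _).mul ((hdiv.mul (hA1.comp_continuousOn hdiv)).add
      (continuousOn_const.mul (hcA.comp_continuousOn hdiv)))
  have hψxc : ContinuousOn (fun p : ℝ × ℝ => ψx p.1 p.2) (Ioo a b ×ˢ univ) :=
    (hpw _).mul (hA1.comp_continuousOn hdiv)
  have hdt : ∀ τ ∈ Ioo a b, ∀ x, HasDerivAt (fun s => ψ s x) (ψt τ x) τ := by
    intro τ hτ x
    have hr := JR_pos (hlt τ hτ)
    have hr0 := hr.ne'
    have d0 := JR_rr_deriv (hlt τ hτ)
    have d1 : HasDerivAt (fun s => rr T s ^ (-q)) (-1 / rr T τ * -q * rr T τ ^ (-q - 1)) τ :=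
      d0.rpow_const (Or.inl hr0)
    have d2 : HasDerivAt (fun s => x / rr T s) ((0 * rr T τ - x * (-1 / rr T τ)) / rr T τ ^ 2) τ :=
      (hasDerivAt_const τ x).div d0 hr0
    have d3 : HasDerivAt (fun s => A (x / rr T s))
        (A1 (x / rr T τ) * ((0 * rr T τ - x * (-1 / rr T τ)) / rr T τ ^ 2)) τ :=
      (hA (x / rr T τ)).comp τ d2
    have d4 := d1.mul d3
    have e : -1 / rr T τ * -q * rr T τ ^ (-q - 1) * A (x / rr T τ) +
        rr T τ ^ (-q) * (A1 (x / rr T τ) * ((0 * rr T τ - x * (-1 / rr T τ)) / rr T τ ^ 2)) =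
        ψt τ x := by
      simp only [hψt]
      rw [JR_pow1 hr, JR_pow2 hr]
      field_simp
      ring
    rw [e] at d4
    exact d4
  have hdx : ∀ τ ∈ Ioo a b, ∀ x, HasDerivAt (ψ τ) (ψx τ x) x := by
    intro τ hτ x
    have hr := JR_pos (hlt τ hτ)
    have hr0 := hr.ne'
    have d2 : HasDerivAt (fun y : ℝ => y / rr T τ) (1 / rr T τ) x :=
      (hasDerivAt_id x).div_const _
    have d3 : HasDerivAt (fun y => A (y / rr T τ)) (A1 (x / rr T τ) * (1 / rr T τ)) x :=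
      (hA (x / rr T τ)).comp x d2
    have d4 := d3.const_mul (rr T τ ^ (-q))
    have e : rr T τ ^ (-q) * (A1 (x / rr T τ) * (1 / rr T τ)) = ψx τ x := by
      simp only [hψx]
      rw [JR_pow1 hr]
      field_simp
    rw [e] at d4
    exact d4
  have h00 : ∀ τ ∈ Ioo a b, ψ τ 0 = 0 := by
    intro τ _
    simp only [hψ, zero_div, hA0, mul_zero]
  have key := dual_deriv F hψc hψtc hψxc hdt hdx h00 ht
  have efun : (fun τ => rr T τ ^ (-q) * F.J (fun x => A (x / rr T τ)) τ) =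
      fun τ => F.J (ψ τ) τ := by
    funext τ
    exact JR_J_smul F _ _ τ
  rw [efun]
  -- fixed time
  set r : ℝ := rr T t with hrdef
  have hr : 0 < r := JR_pos (hlt t ht)
  have hr0 := hr.ne'
  have hx1 : 0 ≤ y1 * r ∧ y1 * r ≤ F.X 2 t 0 := ⟨mul_nonneg hy1.1 hr.le, hy1.2⟩
  have hdivc : Continuous fun x : ℝ => x / r := continuous_id.div_const r
  have hBc : Continuous (ψx t) := continuous_const.mul (hA1.comp hdivc)
  have hmul : ∀ x : ℝ, x ≤ y1 * r ↔ x / r ≤ y1 := fun x => (div_le_iff₀ hr).symm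
  have hmul' : ∀ x : ℝ, y1 * r ≤ x ↔ y1 ≤ x / r := fun x => (le_div_iff₀ hr).symm
  have k1 : ∀ x ≤ y1 * r, HasDerivWithinAt (ψx t) (r ^ (-q - 2) * A2l (x / r)) (Iic (y1 * r)) x := by
    intro x hx
    have d2 : HasDerivWithinAt (fun y : ℝ => y / r) (1 / r) (Iic (y1 * r)) x :=
      ((hasDerivAt_id x).div_const _).hasDerivWithinAt
    have d3 : HasDerivWithinAt (fun y => A1 (y / r)) (A2l (x / r) * (1 / r)) (Iic (y1 * r)) x :=
      (h1 (x / r) ((hmul x).1 hx)).comp x d2 fun y hy => (hmul y).1 hy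
    have d4 := d3.const_mul (r ^ (-q - 1))
    have e : r ^ (-q - 1) * (A2l (x / r) * (1 / r)) = r ^ (-q - 2) * A2l (x / r) := by
      rw [JR_pow1 hr, JR_pow2 hr]
      field_simp
    rw [e] at d4
    exact d4
  have k2 : ∀ x ≥ y1 * r, HasDerivWithinAt (ψx t) (r ^ (-q - 2) * A2r (x / r)) (Ici (y1 * r)) x := by
    intro x hx
    have d2 : HasDerivWithinAt (fun y : ℝ => y / r) (1 / r) (Ici (y1 * r)) x :=
      ((hasDerivAt_id x).div_const _).hasDerivWithinAt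
    have d3 : HasDerivWithinAt (fun y => A1 (y / r)) (A2r (x / r) * (1 / r)) (Ici (y1 * r)) x :=
      (h2 (x / r) ((hmul' x).1 hx)).comp x d2 fun y hy => (hmul' y).1 hy
    have d4 := d3.const_mul (r ^ (-q - 1))
    have e : r ^ (-q - 1) * (A2r (x / r) * (1 / r)) = r ^ (-q - 2) * A2r (x / r) := by
      rw [JR_pow1 hr, JR_pow2 hr]
      field_simp
    rw [e] at d4
    exact d4
  have s2 := dual_second F ht hg hx1 hBc k1 k2 (continuous_const.mul (c1.comp hdivc))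
    (continuous_const.mul (c2.comp hdivc))
    (show ψx t Lx = 0 by simp only [hψx]; rw [← hrdef, hend, mul_zero]) hsa hsb hsc
  have hψtc' : Continuous (ψt t) :=
    continuous_const.mul ((hdivc.mul (hA1.comp hdivc)).add (continuous_const.mul (hcA.comp hdivc)))
  have s3 := J_graph F ht hg hψtc' hsa hsb hsc
  -- continuity of the parametrisations
  obtain ⟨hX0, hXL, sa', sb', sc', ga, gb, gc, ca, cb, cc, -, -, -⟩ := graph_param F ht hg
  have ea : ∀ x ∈ Icc 0 (F.X 2 t 0), sa x = sa' x := fun x hx =>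
    JR_inj F ht 0 (Or.inl fun σ hσ => (hg σ hσ).1) (hsa x hx).1 (ga x hx).1
      ((hsa x hx).2.trans (ga x hx).2.symm)
  have eb : ∀ x ∈ Icc 0 (F.X 2 t 0), sb x = sb' x := fun x hx =>
    JR_inj F ht 1 (Or.inl fun σ hσ => (hg σ hσ).2.1) (hsb x hx).1 (gb x hx).1
      ((hsb x hx).2.trans (gb x hx).2.symm)
  have ec : ∀ x ∈ Icc (F.X 2 t 0) Lx, sc x = sc' x := fun x hx =>
    JR_inj F ht 2 (Or.inr fun σ hσ => (hg σ hσ).2.2) (hsc x hx).1 (gc x hx).1
      ((hsc x hx).2.trans (gc x hx).2.symm)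
  have csa : ContinuousOn sa (Icc 0 (F.X 2 t 0)) := ca.congr ea
  have csb : ContinuousOn sb (Icc 0 (F.X 2 t 0)) := cb.congr eb
  have csc : ContinuousOn sc (Icc (F.X 2 t 0) Lx) := cc.congr ec
  have t0 : ContinuousOn (fun x => F.th 0 t (sa x)) (Icc 0 (F.X 2 t 0)) :=
    (JR_th_cont F ht 0).comp csa fun x hx => (hsa x hx).1
  have t1 : ContinuousOn (fun x => F.th 1 t (sb x)) (Icc 0 (F.X 2 t 0)) :=
    (JR_th_cont F ht 1).comp csb fun x hx => (hsb x hx).1
  have t2 : ContinuousOn (fun x => F.th 2 t (sc x)) (Icc (F.X 2 t 0) Lx) :=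
    (JR_th_cont F ht 2).comp csc fun x hx => (hsc x hx).1
  have n0 : ContinuousOn (fun x => Real.tan (F.th 0 t (sa x) + off 0)) (Icc 0 (F.X 2 t 0)) :=
    JR_tan (t0.add continuousOn_const) fun x hx => (hg _ (hsa x hx).1).1.ne
  have n1 : ContinuousOn (fun x => Real.tan (F.th 1 t (sb x) + off 1)) (Icc 0 (F.X 2 t 0)) :=
    JR_tan (t1.add continuousOn_const) fun x hx => (hg _ (hsb x hx).1).2.1.ne
  have off2 : off 2 = 0 := by simp [off]
  have n2 : ContinuousOn (fun x => Real.tan (F.th 2 t (sc x))) (Icc (F.X 2 t 0) Lx) :=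
    JR_tan t2 fun x hx => by
      have := (hg _ (hsc x hx).1).2.2.ne'
      rwa [off2, add_zero] at this
  set TH : ℝ → ℝ := fun x => F.th 0 t (sa x) + F.th 1 t (sb x) with hTH
  set TN : ℝ → ℝ := fun x =>
    Real.tan (F.th 0 t (sa x) + off 0) + Real.tan (F.th 1 t (sb x) + off 1) with hTN
  set Gx : ℝ → ℝ := fun x => x / r * A1 (x / r) + q * A (x / r) with hGx
  have cTH : ContinuousOn TH (Icc 0 (F.X 2 t 0)) := t0.add t1
  have cTN : ContinuousOn TN (Icc 0 (F.X 2 t 0)) := n0.add n1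
  have cG : Continuous Gx :=
    (hdivc.mul (hA1.comp hdivc)).add (continuous_const.mul (hcA.comp hdivc))
  have sub1 : Icc 0 (y1 * r) ⊆ Icc 0 (F.X 2 t 0) := Icc_subset_Icc le_rfl hx1.2
  have sub2 : Icc (y1 * r) (F.X 2 t 0) ⊆ Icc 0 (F.X 2 t 0) := Icc_subset_Icc hx1.1 le_rfl
  have cl : Continuous fun x => A2l (x / r) := c1.comp hdivc
  have cr : Continuous fun x => A2r (x / r) := c2.comp hdivc
  have i1 : IntervalIntegrable (fun x => A2l (x / r) * TH x) volume 0 (y1 * r) :=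
    ContinuousOn.intervalIntegrable_of_Icc hx1.1 (cl.continuousOn.mul (cTH.mono sub1))
  have i2 : IntervalIntegrable (fun x => A2r (x / r) * TH x) volume (y1 * r) (F.X 2 t 0) :=
    ContinuousOn.intervalIntegrable_of_Icc hx1.2 (cr.continuousOn.mul (cTH.mono sub2))
  have i3 : IntervalIntegrable (fun x => A2r (x / r) * (2 * F.th 2 t (sc x))) volume
      (F.X 2 t 0) Lx :=
    ContinuousOn.intervalIntegrable_of_Icc hXL.le (cr.continuousOn.mul (continuousOn_const.mul t2))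
  have j1 : IntervalIntegrable (fun x => Gx x * TN x) volume 0 (y1 * r) :=
    ContinuousOn.intervalIntegrable_of_Icc hx1.1 (cG.continuousOn.mul (cTN.mono sub1))
  have j2 : IntervalIntegrable (fun x => Gx x * TN x) volume (y1 * r) (F.X 2 t 0) :=
    ContinuousOn.intervalIntegrable_of_Icc hx1.2 (cG.continuousOn.mul (cTN.mono sub2))
  have j3 : IntervalIntegrable (fun x => Gx x * (2 * Real.tan (F.th 2 t (sc x)))) volume
      (F.X 2 t 0) Lx :=
    ContinuousOn.intervalIntegrable_of_Icc hXL.le (cG.continuousOn.mul (continuousOn_const.mul n2))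
  have efinal : F.J (ψt t) t
        + F.ell 0 t * (∫ σ in (0:ℝ)..1, ψx t (F.X 0 t σ) * F.k 0 t σ)
        + F.ell 1 t * (∫ σ in (0:ℝ)..1, ψx t (F.X 1 t σ) * F.k 1 t σ)
        - 2 * (F.ell 2 t * ∫ σ in (0:ℝ)..1, ψx t (F.X 2 t σ) * F.k 2 t σ) =
      r ^ (-q - 2) * ((∫ x in (0:ℝ)..(y1 * r), (A2l (x / r) * TH x + Gx x * TN x))
        + (∫ x in (y1 * r)..(F.X 2 t 0), (A2r (x / r) * TH x + Gx x * TN x))
        + ∫ x in (F.X 2 t 0)..Lx, (A2r (x / r) * (2 * F.th 2 t (sc x)) +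
            Gx x * (2 * Real.tan (F.th 2 t (sc x))))) := by
    have e1 : F.J (ψt t) t
        + F.ell 0 t * (∫ σ in (0:ℝ)..1, ψx t (F.X 0 t σ) * F.k 0 t σ)
        + F.ell 1 t * (∫ σ in (0:ℝ)..1, ψx t (F.X 1 t σ) * F.k 1 t σ)
        - 2 * (F.ell 2 t * ∫ σ in (0:ℝ)..1, ψx t (F.X 2 t σ) * F.k 2 t σ) =
        F.J (ψt t) t + (F.ell 0 t * (∫ σ in (0:ℝ)..1, ψx t (F.X 0 t σ) * F.k 0 t σ)
        + F.ell 1 t * (∫ σ in (0:ℝ)..1, ψx t (F.X 1 t σ) * F.k 1 t σ)
        - 2 * (F.ell 2 t * ∫ σ in (0:ℝ)..1, ψx t (F.X 2 t σ) * F.k 2 t σ)) := by ring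
    rw [e1, s2, s3]
    have f1 : (∫ x in (0:ℝ)..(F.X 2 t 0), ψt t x *
        (Real.tan (F.th 0 t (sa x) + off 0) + Real.tan (F.th 1 t (sb x) + off 1))) =
        r ^ (-q - 2) * ((∫ x in (0:ℝ)..(y1 * r), Gx x * TN x) +
          ∫ x in (y1 * r)..(F.X 2 t 0), Gx x * TN x) := by
      rw [integral_add_adjacent_intervals j1 j2, ← intervalIntegral.integral_const_mul]
      refine integral_congr fun x _ => ?_
      simp only [hψt, hGx, hTN, ← hrdef]
      ring
    have f2 : (∫ x in (F.X 2 t 0)..Lx, ψt t x * (2 * Real.tan (F.th 2 t (sc x)))) =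
        r ^ (-q - 2) * ∫ x in (F.X 2 t 0)..Lx, Gx x * (2 * Real.tan (F.th 2 t (sc x))) := by
      rw [← intervalIntegral.integral_const_mul]
      refine integral_congr fun x _ => ?_
      simp only [hψt, hGx, ← hrdef]
      ring
    have f3 : (∫ x in (0:ℝ)..(y1 * r), r ^ (-q - 2) * A2l (x / r) *
        (F.th 0 t (sa x) + F.th 1 t (sb x))) =
        r ^ (-q - 2) * ∫ x in (0:ℝ)..(y1 * r), A2l (x / r) * TH x := by
      rw [← intervalIntegral.integral_const_mul]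
      refine integral_congr fun x _ => ?_
      simp only [hTH]
      ring
    have f4 : (∫ x in (y1 * r)..(F.X 2 t 0), r ^ (-q - 2) * A2r (x / r) *
        (F.th 0 t (sa x) + F.th 1 t (sb x))) =
        r ^ (-q - 2) * ∫ x in (y1 * r)..(F.X 2 t 0), A2r (x / r) * TH x := by
      rw [← intervalIntegral.integral_const_mul]
      refine integral_congr fun x _ => ?_
      simp only [hTH]
      ring
    have f5 : (∫ x in (F.X 2 t 0)..Lx, r ^ (-q - 2) * A2r (x / r) * (2 * F.th 2 t (sc x))) =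
        r ^ (-q - 2) * ∫ x in (F.X 2 t 0)..Lx, A2r (x / r) * (2 * F.th 2 t (sc x)) := by
      rw [← intervalIntegral.integral_const_mul]
      refine integral_congr fun x _ => ?_
      ring
    rw [f1, f2, f3, f4, f5, integral_add i1 j1, integral_add i2 j2, integral_add i3 j3]
    ring
  rw [efinal] at key
  exact key

end Pool.Agent.Helper15.NF
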