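import Pool.Agent.Helper15.NF.T1
import Pool.Agent.Helper15.NF.T2a
import Pool.Agent.Helper15.NF.DDefs

open Set MeasureTheory intervalIntegral Filter Topology

namespace Pool.Agent.Helper15.NF

variable {a b Lx : ℝ}

private theorem T3a_slice {f : ℝ → ℝ → ℝ}
    (hf : ContinuousOn (fun p : ℝ × ℝ => f p.1 p.2) (Ioo a b ×ˢ Icc 0 1)) {t : ℝ}
    (ht : t ∈ Ioo a b) : ContinuousOn (f t) (Icc 0 1) := by
  have h1 : ContinuousOn (fun σ : ℝ => ((t, σ) : ℝ × ℝ)) (Icc 0 1) := by fun_prop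
  exact hf.comp h1 (fun σ hσ => ⟨ht, hσ⟩)

/-- fundamental theorem of calculus on [0,1] -/
theorem T3a_ftc {f f' : ℝ → ℝ}
    (hf : ∀ σ ∈ Icc (0:ℝ) 1, HasDerivWithinAt f (f' σ) (Icc 0 1) σ)
    (hf' : ContinuousOn f' (Icc 0 1)) : ∫ σ in (0:ℝ)..1, f' σ = f 1 - f 0 := by
  apply intervalIntegral.integral_eq_sub_of_hasDerivAt_of_le zero_le_one
  · exact fun σ hσ => (hf σ hσ).continuousWithinAt
  · intro σ hσ
    exact (hf σ (Ioo_subset_Icc_self hσ)).hasDerivAt (Icc_mem_nhds hσ.1 hσ.2)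
  · apply ContinuousOn.intervalIntegrable
    rwa [uIcc_of_le zero_le_one]

/-- horizontal velocity at the junction -/
theorem T3a_VX (F : Flow a b Lx) {t : ℝ} (ht : t ∈ Ioo a b) (i : Fin 3) :
    -(F.k i t 0 * Real.sin (F.th i t 0 + off i)) + F.mu i t 0 * Real.cos (F.th i t 0 + off i) =
    -(F.k 2 t 0 * Real.sin (F.th 2 t 0 + off 2)) + F.mu 2 t 0 * Real.cos (F.th 2 t 0 + off 2) := by
  have h0 : (0:ℝ) ∈ Icc (0:ℝ) 1 := ⟨le_rfl, zero_le_one⟩
  have h1 := F.X_t i t ht 0 h0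
  have h2 := F.X_t 2 t ht 0 h0
  have h3 : (fun τ => F.X i τ 0) =ᶠ[𝓝 t] fun τ => F.X 2 τ 0 := by
    filter_upwards [Ioo_mem_nhds ht.1 ht.2] with τ hτ
    exact F.X_J i τ hτ
  exact h1.unique (h2.congr_of_eventuallyEq h3)

/-- derivative of the area below one edge -/
theorem T3a_edge (F : Flow a b Lx) (i : Fin 3) {t : ℝ} (ht : t ∈ Ioo a b) :
    HasDerivAt (fun τ => F.ell i τ * ∫ σ in (0:ℝ)..1, F.Y i τ σ * Real.cos (F.th i τ σ + off i))
      (F.th i t 1 - F.th i t 0 - F.Y i t 1 * Real.sin (F.th i t 1 + off i) * F.k i t 1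
        - F.Y i t 0 * (-(F.k i t 0 * Real.sin (F.th i t 0 + off i))
          + F.mu i t 0 * Real.cos (F.th i t 0 + off i))) t := by
  have hcos : ContinuousOn (fun p : ℝ × ℝ => Real.cos (F.th i p.1 p.2 + off i))
      (Ioo a b ×ˢ Icc 0 1) :=
    Real.continuous_cos.comp_continuousOn ((F.th_cont i).add continuousOn_const)
  have hsin : ContinuousOn (fun p : ℝ × ℝ => Real.sin (F.th i p.1 p.2 + off i))
      (Ioo a b ×ˢ Icc 0 1) :=
    Real.continuous_sin.comp_continuousOn ((F.th_cont i).add continuousOn_const)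
  have hell : ContinuousOn (fun p : ℝ × ℝ => F.ell i p.1) (Ioo a b ×ˢ Icc (0:ℝ) 1) := by
    have h1 : ContinuousOn (F.ell i) (Ioo a b) :=
      fun τ hτ => (F.ell_t i τ hτ).continuousAt.continuousWithinAt
    exact h1.comp continuousOn_fst (fun p hp => hp.1)
  have key := transport F i (f := fun τ σ => F.Y i τ σ * Real.cos (F.th i τ σ + off i))
    (ft := fun τ σ => (F.k i τ σ * Real.cos (F.th i τ σ + off i)
        + F.mu i τ σ * Real.sin (F.th i τ σ + off i)) * Real.cos (F.th i τ σ + off i)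
      + F.Y i τ σ * (-Real.sin (F.th i τ σ + off i) * (F.ks i τ σ + F.mu i τ σ * F.k i τ σ)))
    (fs := fun τ σ => (F.ell i τ * Real.sin (F.th i τ σ + off i)) * Real.cos (F.th i τ σ + off i)
      + F.Y i τ σ * (-Real.sin (F.th i τ σ + off i) * (F.ell i τ * F.k i τ σ)))
    ((F.Y_cont i).mul hcos)
    (((((F.k_cont i).mul hcos).add ((F.mu_cont i).mul hsin)).mul hcos).add
      ((F.Y_cont i).mul (hsin.neg.mul ((F.ks_cont i).add ((F.mu_cont i).mul (F.k_cont i))))))
    (((hell.mul hsin).mul hcos).add ((F.Y_cont i).mul (hsin.neg.mul (hell.mul (F.k_cont i)))))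
    (by
      intro τ hτ σ hσ
      exact (F.Y_t i τ hτ σ hσ).mul (((F.th_t i τ hτ σ hσ).add_const (off i)).cos))
    (by
      intro τ hτ σ hσ
      exact (F.Y_s i τ hτ σ hσ).mul (((F.th_s i τ hτ σ hσ).add_const (off i)).cos)) ht
  refine key.congr_deriv ?_
  have hl := (F.ell_pos i t ht).ne'
  have hk := T3a_slice (F.k_cont i) ht
  have hks := T3a_slice (F.ks_cont i) ht
  have hY := T3a_slice (F.Y_cont i) ht
  have hc : ContinuousOn (fun σ => Real.cos (F.th i t σ + off i)) (Icc 0 1) :=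
    T3a_slice (f := fun τ σ => Real.cos (F.th i τ σ + off i)) hcos ht
  have hs : ContinuousOn (fun σ => Real.sin (F.th i t σ + off i)) (Icc 0 1) :=
    T3a_slice (f := fun τ σ => Real.sin (F.th i τ σ + off i)) hsin ht
  have hint : F.ell i t * (∫ σ in (0:ℝ)..1,
      ((F.k i t σ * Real.cos (F.th i t σ + off i)
        + F.mu i t σ * Real.sin (F.th i t σ + off i)) * Real.cos (F.th i t σ + off i)
      + F.Y i t σ * (-Real.sin (F.th i t σ + off i) * (F.ks i t σ + F.mu i t σ * F.k i t σ))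
      - F.mu i t σ / F.ell i t *
        ((F.ell i t * Real.sin (F.th i t σ + off i)) * Real.cos (F.th i t σ + off i)
        + F.Y i t σ * (-Real.sin (F.th i t σ + off i) * (F.ell i t * F.k i t σ)))
      - F.k i t σ ^ 2 * (F.Y i t σ * Real.cos (F.th i t σ + off i)))) =
      (F.th i t 1 - F.Y i t 1 * Real.sin (F.th i t 1 + off i) * F.k i t 1) -
      (F.th i t 0 - F.Y i t 0 * Real.sin (F.th i t 0 + off i) * F.k i t 0) := by
    rw [← T3a_ftc (f := fun σ => F.th i t σ - F.Y i t σ * Real.sin (F.th i t σ + off i) * F.k i t σ)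
      (f' := fun σ => F.ell i t * F.k i t σ -
        ((F.ell i t * Real.sin (F.th i t σ + off i) * Real.sin (F.th i t σ + off i)
          + F.Y i t σ * (Real.cos (F.th i t σ + off i) * (F.ell i t * F.k i t σ))) * F.k i t σ
          + F.Y i t σ * Real.sin (F.th i t σ + off i) * (F.ell i t * F.ks i t σ)))
      (by
        intro σ hσ
        exact (F.th_s i t ht σ hσ).sub (((F.Y_s i t ht σ hσ).mul
          (((F.th_s i t ht σ hσ).add_const (off i)).sin)).mul (F.k_s i t ht σ hσ)))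
      (by fun_prop (disch := assumption)),
      ← intervalIntegral.integral_const_mul]
    congr 1
    ext σ
    have h1 := Real.sin_sq_add_cos_sq (F.th i t σ + off i)
    field_simp
    linear_combination (F.k i t σ) * h1
  rw [hint]
  ring

/-- T3a : area law -/
theorem area_deriv (F : Flow a b Lx) {t : ℝ} (ht : t ∈ Ioo a b) :
    HasDerivAt F.area (-(2 * Real.pi / 3)) t := by
  have h0 := (T3a_edge F 0 ht).neg
  have h1 := T3a_edge F 1 ht
  have h2 := h0.add h1
  refine (h2.congr_deriv ?_)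
  have e0 : F.th 0 t 1 + off 0 = Real.pi := by
    rw [F.th_axis0 t ht]
    simp [off]
    ring
  have e1 : F.th 1 t 1 + off 1 = -Real.pi := by
    rw [F.th_axis1 t ht]
    simp [off]
    ring
  rw [T3a_VX F ht 0, T3a_VX F ht 1, F.Y_J 0 t ht, F.Y_J 1 t ht, F.th_J 0 t ht, F.th_J 1 t ht,
    e0, e1, F.th_axis0 t ht, F.th_axis1 t ht, Real.sin_neg, Real.sin_pi]
  ring

end Pool.Agent.Helper15.NF
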