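import Pool.Agent.Helper15.NF.DDefs

open Set MeasureTheory intervalIntegral Filter Topology

namespace Pool.Agent.Helper15.NF

variable {a b Lx : ℝ}

/-- T7a : vertical velocity at a fixed first coordinate -/
theorem graph_t (F : Flow a b Lx) (i : Fin 3) {t σ : ℝ} (ht : t ∈ Ioo a b) (hσ : σ ∈ Ioo (0:ℝ) 1)
    (hc : Real.cos (F.th i t σ + off i) ≠ 0) :
    ∃ s : ℝ → ℝ, s t = σ ∧ ContinuousAt s t ∧
      (∀ᶠ τ in 𝓝 t, s τ ∈ Ioo (0:ℝ) 1 ∧ F.X i τ (s τ) = F.X i t σ) ∧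
      HasDerivAt (fun τ => F.Y i τ (s τ)) (F.k i t σ / Real.cos (F.th i t σ + off i)) t := by
  classical
  have hmem : Ioo a b ×ˢ Icc (0:ℝ) 1 ∈ 𝓝 ((t, σ) : ℝ × ℝ) :=
    prod_mem_nhds (Ioo_mem_nhds ht.1 ht.2) (Icc_mem_nhds hσ.1 hσ.2)
  have hmem' : Ioo a b ×ˢ Ioo (0:ℝ) 1 ∈ 𝓝 ((t, σ) : ℝ × ℝ) :=
    prod_mem_nhds (Ioo_mem_nhds ht.1 ht.2) (Ioo_mem_nhds hσ.1 hσ.2)
  have ck : ContinuousAt (fun p : ℝ × ℝ => F.k i p.1 p.2) (t, σ) := (F.k_cont i).continuousAt hmem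
  have cth : ContinuousAt (fun p : ℝ × ℝ => F.th i p.1 p.2) (t, σ) :=
    (F.th_cont i).continuousAt hmem
  have cmu : ContinuousAt (fun p : ℝ × ℝ => F.mu i p.1 p.2) (t, σ) :=
    (F.mu_cont i).continuousAt hmem
  have cell : ContinuousAt (fun p : ℝ × ℝ => F.ell i p.1) (t, σ) := by
    have h1 : ContinuousAt (F.ell i) t := (F.ell_t i t ht).continuousAt
    exact ContinuousAt.comp (f := fun p : ℝ × ℝ => p.1) (g := F.ell i) h1 continuousAt_fst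
  -- the partial derivatives
  let x1 : ℝ → ℝ → ℝ := fun τ s =>
    -(F.k i τ s * Real.sin (F.th i τ s + off i)) + F.mu i τ s * Real.cos (F.th i τ s + off i)
  let x2 : ℝ → ℝ → ℝ := fun τ s => F.ell i τ * Real.cos (F.th i τ s + off i)
  let y1 : ℝ → ℝ → ℝ := fun τ s =>
    F.k i τ s * Real.cos (F.th i τ s + off i) + F.mu i τ s * Real.sin (F.th i τ s + off i)
  let y2 : ℝ → ℝ → ℝ := fun τ s => F.ell i τ * Real.sin (F.th i τ s + off i)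
  have cx1 : ContinuousAt (fun p : ℝ × ℝ => x1 p.1 p.2) (t, σ) := by
    simp only [x1]; fun_prop
  have cx2 : ContinuousAt (fun p : ℝ × ℝ => x2 p.1 p.2) (t, σ) := by
    simp only [x2]; fun_prop
  have cy1 : ContinuousAt (fun p : ℝ × ℝ => y1 p.1 p.2) (t, σ) := by
    simp only [y1]; fun_prop
  have cy2 : ContinuousAt (fun p : ℝ × ℝ => y2 p.1 p.2) (t, σ) := by
    simp only [y2]; fun_prop
  let f1 : ℝ → ℝ → ℝ →L[ℝ] ℝ := fun τ s => ContinuousLinearMap.toSpanSingleton ℝ (x1 τ s)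
  let f2 : ℝ → ℝ → ℝ →L[ℝ] ℝ := fun τ s => ContinuousLinearMap.toSpanSingleton ℝ (x2 τ s)
  let g1 : ℝ → ℝ → ℝ →L[ℝ] ℝ := fun τ s => ContinuousLinearMap.toSpanSingleton ℝ (y1 τ s)
  let g2 : ℝ → ℝ → ℝ →L[ℝ] ℝ := fun τ s => ContinuousLinearMap.toSpanSingleton ℝ (y2 τ s)
  have hspan : Continuous (fun x : ℝ => ContinuousLinearMap.toSpanSingleton ℝ x) :=
    (ContinuousLinearMap.toSpanSingletonCLE (𝕜 := ℝ) (E := ℝ)).continuous
  have cf1 : ContinuousAt (↿f1) ((t, σ) : ℝ × ℝ) :=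
    ContinuousAt.comp (f := fun p : ℝ × ℝ => x1 p.1 p.2)
      (g := fun x : ℝ => ContinuousLinearMap.toSpanSingleton ℝ x) hspan.continuousAt cx1
  have cf2 : ContinuousAt (↿f2) ((t, σ) : ℝ × ℝ) :=
    ContinuousAt.comp (f := fun p : ℝ × ℝ => x2 p.1 p.2)
      (g := fun x : ℝ => ContinuousLinearMap.toSpanSingleton ℝ x) hspan.continuousAt cx2
  have cg1 : ContinuousAt (↿g1) ((t, σ) : ℝ × ℝ) :=
    ContinuousAt.comp (f := fun p : ℝ × ℝ => y1 p.1 p.2)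
      (g := fun x : ℝ => ContinuousLinearMap.toSpanSingleton ℝ x) hspan.continuousAt cy1
  have cg2 : ContinuousAt (↿g2) ((t, σ) : ℝ × ℝ) :=
    ContinuousAt.comp (f := fun p : ℝ × ℝ => y2 p.1 p.2)
      (g := fun x : ℝ => ContinuousLinearMap.toSpanSingleton ℝ x) hspan.continuousAt cy2
  have df1 : ∀ᶠ v in 𝓝 ((t, σ) : ℝ × ℝ),
      HasFDerivAt (fun τ => F.X i τ v.2) (f1 v.1 v.2) v.1 := by
    filter_upwards [hmem] with v hv
    exact (F.X_t i v.1 hv.1 v.2 hv.2).hasFDerivAt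
  have df2 : ∀ᶠ v in 𝓝 ((t, σ) : ℝ × ℝ),
      HasFDerivAt (fun s => F.X i v.1 s) (f2 v.1 v.2) v.2 := by
    filter_upwards [hmem'] with v hv
    exact ((F.X_s i v.1 hv.1 v.2 (Ioo_subset_Icc_self hv.2)).hasDerivAt
      (Icc_mem_nhds hv.2.1 hv.2.2)).hasFDerivAt
  have dg1 : ∀ᶠ v in 𝓝 ((t, σ) : ℝ × ℝ),
      HasFDerivAt (fun τ => F.Y i τ v.2) (g1 v.1 v.2) v.1 := by
    filter_upwards [hmem] with v hv
    exact (F.Y_t i v.1 hv.1 v.2 hv.2).hasFDerivAt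
  have dg2 : ∀ᶠ v in 𝓝 ((t, σ) : ℝ × ℝ),
      HasFDerivAt (fun s => F.Y i v.1 s) (g2 v.1 v.2) v.2 := by
    filter_upwards [hmem'] with v hv
    exact ((F.Y_s i v.1 hv.1 v.2 (Ioo_subset_Icc_self hv.2)).hasDerivAt
      (Icc_mem_nhds hv.2.1 hv.2.2)).hasFDerivAt
  have hx2 : x2 t σ ≠ 0 := mul_ne_zero (F.ell_pos i t ht).ne' hc
  have hinv : (f2 t σ).IsInvertible := by
    refine ⟨ContinuousLinearEquiv.unitsEquivAut ℝ (Units.mk0 (x2 t σ) hx2), ?_⟩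
    ext
    simp [f2]
  have hinv' : (f2 ((t, σ) : ℝ × ℝ).1 ((t, σ) : ℝ × ℝ).2).IsInvertible := hinv
  let s : ℝ → ℝ := implicitFunctionOfBivariate (u := ((t, σ) : ℝ × ℝ)) (f := F.X i)
    (f₁ := f1) (f₂ := f2) df1 df2 cf1 cf2 hinv'
  have hs0 : s t = σ := by
    have h1 := eventually_apply_eq_iff_implicitFunctionOfBivariate (u := ((t, σ) : ℝ × ℝ))
      (f := F.X i) (f₁ := f1) (f₂ := f2) df1 df2 cf1 cf2 hinv'
    exact (h1.self_of_nhds).1 rfl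
  have hsd := hasStrictFDerivAt_implicitFunctionOfBivariate (u := ((t, σ) : ℝ × ℝ))
      (f := F.X i) (f₁ := f1) (f₂ := f2) df1 df2 cf1 cf2 hinv'
  have hsd' : HasDerivAt s ((-(f2 t σ).inverse ∘L f1 t σ) 1) t := hsd.hasFDerivAt.hasDerivAt
  have hsc : ContinuousAt s t := hsd'.continuousAt
  have hev := eventually_apply_implicitFunctionOfBivariate (u := ((t, σ) : ℝ × ℝ))
      (f := F.X i) (f₁ := f1) (f₂ := f2) df1 df2 cf1 cf2 hinv'
  have hev' : ∀ᶠ τ in 𝓝 t, F.X i τ (s τ) = F.X i t σ := hev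
  have hin : ∀ᶠ τ in 𝓝 t, s τ ∈ Ioo (0:ℝ) 1 := by
    apply hsc.eventually_mem
    rw [hs0]
    exact Ioo_mem_nhds hσ.1 hσ.2
  refine ⟨s, hs0, hsc, hin.and hev', ?_⟩
  -- derivatives along the path
  set s' : ℝ := (-(f2 t σ).inverse ∘L f1 t σ) 1 with hs'
  have hpath : HasDerivAt (fun τ => ((τ, s τ) : ℝ × ℝ)) ((1, s') : ℝ × ℝ) t :=
    (hasDerivAt_id t).prodMk hsd'
  have hX := (hasStrictFDerivAt_uncurry_coprod (u := ((t, σ) : ℝ × ℝ)) (f := F.X i)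
    (f₁ := f1) (f₂ := f2) df1 df2 cf1 cf2).hasFDerivAt
  have hY := (hasStrictFDerivAt_uncurry_coprod (u := ((t, σ) : ℝ × ℝ)) (f := F.Y i)
    (f₁ := g1) (f₂ := g2) dg1 dg2 cg1 cg2).hasFDerivAt
  rw [← hs0] at hX hY
  have hX2 := HasFDerivAt.comp_hasDerivAt t hX hpath
  have hY2 := HasFDerivAt.comp_hasDerivAt t hY hpath
  have hX3 : HasDerivAt (fun τ => F.X i τ (s τ)) (x1 t σ + x2 t σ * s') t := by
    have h1 : ((↿f1 (t, s t)).coprod (↿f2 (t, s t))) (1, s') = x1 t σ + x2 t σ * s' := by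
      rw [hs0]
      change f1 t σ 1 + f2 t σ s' = _
      simp [f1, f2, mul_comm]
    rw [h1] at hX2
    exact hX2
  have hY3 : HasDerivAt (fun τ => F.Y i τ (s τ)) (y1 t σ + y2 t σ * s') t := by
    have h1 : ((↿g1 (t, s t)).coprod (↿g2 (t, s t))) (1, s') = y1 t σ + y2 t σ * s' := by
      rw [hs0]
      change g1 t σ 1 + g2 t σ s' = _
      simp [g1, g2, mul_comm]
    rw [h1] at hY2
    exact hY2
  have hX4 : HasDerivAt (fun τ => F.X i τ (s τ)) 0 t :=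
    (hasDerivAt_const t (F.X i t σ)).congr_of_eventuallyEq hev'
  have hrel : x1 t σ + x2 t σ * s' = 0 := hX3.unique hX4
  convert hY3 using 1
  have hs2 : s' = -(x1 t σ) / x2 t σ := by
    rw [eq_div_iff hx2]; linarith
  rw [hs2]
  have hell := (F.ell_pos i t ht).ne'
  simp only [x1, x2, y1, y2]
  field_simp
  linear_combination (-F.k i t σ) * Real.sin_sq_add_cos_sq (F.th i t σ + off i)

end Pool.Agent.Helper15.NF
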