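import Pool.Agent.Helper15.NF.J1

open Set MeasureTheory intervalIntegral Filter Topology

namespace Pool.Agent.Helper15.NF

variable {a b Lx : ℝ}

/-- the sum of the heights of the two arcs (twice the height of the ray) over the point `x`,
in terms of parametrisations `sa sb sc` of the edges by the first coordinate -/
noncomputable def Flow.PP (F : Flow a b Lx) (t : ℝ) (sa sb sc : ℝ → ℝ) (x : ℝ) : ℝ :=
  if x ≤ F.X 2 t 0 then F.Y 0 t (sa x) + F.Y 1 t (sb x) else 2 * F.Y 2 t (sc x)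

theorem T7b_injOn_neg (f f' : ℝ → ℝ)
    (hf : ∀ σ ∈ Icc (0:ℝ) 1, HasDerivWithinAt f (f' σ) (Icc 0 1) σ)
    (hneg : ∀ σ ∈ Icc (0:ℝ) 1, f' σ < 0) : InjOn f (Icc 0 1) := by
  have hfc : ContinuousOn f (Icc 0 1) := fun σ hσ => (hf σ hσ).continuousWithinAt
  apply StrictAntiOn.injOn
  apply strictAntiOn_of_deriv_neg (convex_Icc 0 1) hfc
  intro x hx
  rw [interior_Icc] at hx
  rw [((hf x (Ioo_subset_Icc_self hx)).hasDerivAt (Icc_mem_nhds hx.1 hx.2)).deriv]
  exact hneg x (Ioo_subset_Icc_self hx)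

theorem T7b_injOn_pos (f f' : ℝ → ℝ)
    (hf : ∀ σ ∈ Icc (0:ℝ) 1, HasDerivWithinAt f (f' σ) (Icc 0 1) σ)
    (hpos : ∀ σ ∈ Icc (0:ℝ) 1, 0 < f' σ) : InjOn f (Icc 0 1) := by
  have hfc : ContinuousOn f (Icc 0 1) := fun σ hσ => (hf σ hσ).continuousWithinAt
  apply StrictMonoOn.injOn
  apply strictMonoOn_of_deriv_pos (convex_Icc 0 1) hfc
  intro x hx
  rw [interior_Icc] at hx
  rw [((hf x (Ioo_subset_Icc_self hx)).hasDerivAt (Icc_mem_nhds hx.1 hx.2)).deriv]
  exact hpos x (Ioo_subset_Icc_self hx)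

/-- derivative of an inverse parametrisation -/
theorem T7b_inv_deriv {f f' s : ℝ → ℝ} {A B : ℝ}
    (hf : ∀ σ ∈ Icc (0:ℝ) 1, HasDerivWithinAt f (f' σ) (Icc 0 1) σ)
    (hs : ∀ x ∈ Icc A B, s x ∈ Icc (0:ℝ) 1 ∧ f (s x) = x)
    (hsc : ContinuousOn s (Icc A B)) {x : ℝ} (hx : x ∈ Icc A B) (hne : f' (s x) ≠ 0) :
    HasDerivWithinAt s (f' (s x))⁻¹ (Icc A B) x := by
  have h1 : Tendsto s (𝓝[Icc A B] x) (𝓝[Icc 0 1] (s x)) := by
    apply tendsto_nhdsWithin_of_tendsto_nhds_of_eventually_within _ (hsc x hx)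
    filter_upwards [self_mem_nhdsWithin] with y hy
    exact (hs y hy).1
  have h2 : HasFDerivWithinAt f
      (ContinuousLinearEquiv.unitsEquivAut ℝ (Units.mk0 (f' (s x)) hne) : ℝ →L[ℝ] ℝ)
      (Icc 0 1) (s x) := hf (s x) (hs x hx).1
  have h3 : ∀ᶠ y in 𝓝[Icc A B] x, f (s y) = y := by
    filter_upwards [self_mem_nhdsWithin] with y hy
    exact (hs y hy).2
  exact HasFDerivWithinAt.of_local_left_inverse h1 h2 hx h3

/-- first and second derivative of the height over the first coordinate -/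
theorem T7b_edge (F : Flow a b Lx) (i : Fin 3) {t : ℝ} (ht : t ∈ Ioo a b)
    (hcos : ∀ σ ∈ Icc (0:ℝ) 1, Real.cos (F.th i t σ + off i) ≠ 0) {s : ℝ → ℝ} {A B : ℝ}
    (hs : ∀ x ∈ Icc A B, s x ∈ Icc (0:ℝ) 1 ∧ F.X i t (s x) = x)
    (hsc : ContinuousOn s (Icc A B)) {x : ℝ} (hx : x ∈ Icc A B) :
    HasDerivWithinAt (fun x => F.Y i t (s x)) (Real.tan (F.th i t (s x) + off i)) (Icc A B) x ∧
    HasDerivWithinAt (fun x => Real.tan (F.th i t (s x) + off i))
      (F.k i t (s x) / Real.cos (F.th i t (s x) + off i) ^ 3) (Icc A B) x := by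
  have hell := (F.ell_pos i t ht).ne'
  have hc := hcos (s x) (hs x hx).1
  have hd := T7b_inv_deriv (F.X_s i t ht) hs hsc hx (mul_ne_zero hell hc)
  have hmaps : MapsTo s (Icc A B) (Icc 0 1) := fun y hy => (hs y hy).1
  constructor
  · have h1 := (F.Y_s i t ht (s x) (hs x hx).1).comp x hd hmaps
    have h2 : F.ell i t * Real.sin (F.th i t (s x) + off i) *
        (F.ell i t * Real.cos (F.th i t (s x) + off i))⁻¹ =
        Real.tan (F.th i t (s x) + off i) := by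
      rw [Real.tan_eq_sin_div_cos]
      field_simp
    rw [h2] at h1
    exact h1
  · have h1 := (F.th_s i t ht (s x) (hs x hx).1).comp x hd hmaps
    have h3 := (h1.add_const (off i))
    have h4 := (Real.hasDerivAt_tan hc).comp_hasDerivWithinAt x h3
    have h2 : 1 / Real.cos (F.th i t (s x) + off i) ^ 2 * (F.ell i t * F.k i t (s x) *
        (F.ell i t * Real.cos (F.th i t (s x) + off i))⁻¹) =
        F.k i t (s x) / Real.cos (F.th i t (s x) + off i) ^ 3 := by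
      field_simp
    rw [h2] at h4
    exact h4

/-- first order condition from the right -/
theorem T7b_first_right {u : ℝ → ℝ} {x0 B d g : ℝ} (hB : x0 < B)
    (hu : HasDerivWithinAt u d (Icc x0 B) x0)
    (hmin : ∀ᶠ x in 𝓝[>] x0, 0 ≤ g * (u x - u x0)) : 0 ≤ g * d := by
  have h1 : HasDerivWithinAt u d (Ioi x0) x0 :=
    hu.mono_of_mem_nhdsWithin (Icc_mem_nhdsGT hB)
  rw [hasDerivWithinAt_iff_tendsto_slope' (by simp)] at h1
  have h2 : Tendsto (fun x => g * slope u x0 x) (𝓝[>] x0) (𝓝 (g * d)) := h1.const_mul g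
  apply ge_of_tendsto h2
  filter_upwards [hmin, self_mem_nhdsWithin] with x hx hx'
  rw [slope_def_field, ← mul_div_assoc]
  exact div_nonneg hx (by simpa using le_of_lt hx')

/-- first order condition from the left -/
theorem T7b_first_left {u : ℝ → ℝ} {x0 A d g : ℝ} (hA : A < x0)
    (hu : HasDerivWithinAt u d (Icc A x0) x0)
    (hmin : ∀ᶠ x in 𝓝[<] x0, 0 ≤ g * (u x - u x0)) : g * d ≤ 0 := by
  have h1 : HasDerivWithinAt u d (Iio x0) x0 :=
    hu.mono_of_mem_nhdsWithin (Icc_mem_nhdsLT hA)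
  rw [hasDerivWithinAt_iff_tendsto_slope' (by simp)] at h1
  have h2 : Tendsto (fun x => g * slope u x0 x) (𝓝[<] x0) (𝓝 (g * d)) := h1.const_mul g
  apply le_of_tendsto h2
  filter_upwards [hmin, self_mem_nhdsWithin] with x hx hx'
  rw [slope_def_field, ← mul_div_assoc]
  have hx'' : x < x0 := hx'
  exact div_nonpos_of_nonneg_of_nonpos hx (by linarith)

/-- second order condition from the right -/
theorem T7b_second_right {u u' : ℝ → ℝ} {x0 B c g : ℝ} (hB : x0 < B)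
    (hu : ∀ x ∈ Icc x0 B, HasDerivWithinAt u (u' x) (Icc x0 B) x) (h0 : u' x0 = 0)
    (hu' : HasDerivWithinAt u' c (Icc x0 B) x0)
    (hmin : ∀ᶠ x in 𝓝[>] x0, 0 ≤ g * (u x - u x0)) : 0 ≤ g * c := by
  by_contra hcon
  push Not at hcon
  have h1 : HasDerivWithinAt u' c (Ioi x0) x0 :=
    hu'.mono_of_mem_nhdsWithin (Icc_mem_nhdsGT hB)
  rw [hasDerivWithinAt_iff_tendsto_slope' (by simp)] at h1
  have h2 : Tendsto (fun x => g * slope u' x0 x) (𝓝[>] x0) (𝓝 (g * c)) := h1.const_mul g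
  have h3 : ∀ᶠ x in 𝓝[>] x0, g * slope u' x0 x < 0 := h2.eventually_lt_const hcon
  have h4 : ∀ᶠ x in 𝓝[>] x0, g * u' x < 0 := by
    filter_upwards [h3, self_mem_nhdsWithin] with x hx hx'
    have hx'' : 0 < x - x0 := by simpa using hx'
    rw [slope_def_field, h0, sub_zero, ← mul_div_assoc, div_lt_iff₀ hx'', zero_mul] at hx
    exact hx
  obtain ⟨η, hη, hη'⟩ := (mem_nhdsGT_iff_exists_Ioo_subset).1 h4
  have hη1 : x0 < η := hη
  have h5 : ∀ᶠ x in 𝓝[>] x0, x < min η B := by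
    apply Filter.Eventually.filter_mono nhdsWithin_le_nhds
    exact eventually_lt_nhds (lt_min hη1 hB)
  obtain ⟨x, hx1, hx2, hx3⟩ := (hmin.and (h5.and self_mem_nhdsWithin)).exists
  have hx3' : x0 < x := hx3
  have hxη : x < η := lt_of_lt_of_le hx2 (min_le_left _ _)
  have hxB : x < B := lt_of_lt_of_le hx2 (min_le_right _ _)
  obtain ⟨y, hy, hyd⟩ := exists_hasDerivAt_eq_slope u u' hx3' (by
      intro z hz
      exact ((hu z ⟨hz.1, hz.2.trans hxB.le⟩).mono (Icc_subset_Icc_right hxB.le)).continuousWithinAt)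
    (by
      intro z hz
      exact (hu z ⟨hz.1.le, (hz.2.trans hxB).le⟩).hasDerivAt
        (Icc_mem_nhds hz.1 (hz.2.trans hxB)))
  have hy4 : g * u' y < 0 := hη' ⟨hy.1, hy.2.trans hxη⟩
  rw [hyd] at hy4
  have hpos : 0 < x - x0 := by linarith
  rw [← mul_div_assoc, div_lt_iff₀ hpos, zero_mul] at hy4
  linarith

theorem T7b_mem_right {x0 L : ℝ} (h0 : 0 ≤ x0) (hL : x0 < L) :
    𝓝[>] x0 ≤ 𝓝[Icc 0 L] x0 := by
  rw [nhdsWithin_le_iff]
  filter_upwards [Ioo_mem_nhdsGT hL] with x hx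
  exact ⟨h0.trans hx.1.le, hx.2.le⟩

theorem T7b_mem_left {x0 L : ℝ} (h0 : 0 < x0) (hL : x0 ≤ L) :
    𝓝[<] x0 ≤ 𝓝[Icc 0 L] x0 := by
  rw [nhdsWithin_le_iff]
  filter_upwards [Ioo_mem_nhdsLT h0] with x hx
  exact ⟨hx.1.le, hx.2.le.trans hL⟩

/-- T7b : second order condition at a critical point of the sum of the heights. `sgn = 1` for a
minimum, `sgn = -1` for a maximum (over a one-sided or two-sided neighbourhood in `[0,Lx]`). -/
theorem second_order (F : Flow a b Lx) {t : ℝ} (ht : t ∈ Ioo a b) (hg : F.IsGraph t)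
    (hφ : |F.th 2 t 0| ≤ 0.1) {sa sb sc : ℝ → ℝ}
    (hsa : ∀ x ∈ Icc 0 (F.X 2 t 0), sa x ∈ Icc (0:ℝ) 1 ∧ F.X 0 t (sa x) = x)
    (hsb : ∀ x ∈ Icc 0 (F.X 2 t 0), sb x ∈ Icc (0:ℝ) 1 ∧ F.X 1 t (sb x) = x)
    (hsc : ∀ x ∈ Icc (F.X 2 t 0) Lx, sc x ∈ Icc (0:ℝ) 1 ∧ F.X 2 t (sc x) = x)
    {g x0 : ℝ} (hg1 : g = 1 ∨ g = -1) (hx0 : x0 ∈ Ico 0 Lx)
    (hmin : ∀ᶠ x in 𝓝[Icc 0 Lx] x0, 0 ≤ g * (F.PP t sa sb sc x - F.PP t sa sb sc x0)) :
    (x0 < F.X 2 t 0 → 0 ≤ g * (F.k 0 t (sa x0) / Real.cos (F.th 0 t (sa x0) + off 0)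
        + F.k 1 t (sb x0) / Real.cos (F.th 1 t (sb x0) + off 1))) ∧
    (F.X 2 t 0 < x0 → 0 ≤ g * (F.k 2 t (sc x0) / Real.cos (F.th 2 t (sc x0) + off 2))) ∧
    (x0 = F.X 2 t 0 → F.th 2 t 0 = 0 ∧ 0 ≤ g * F.k 2 t 0) := by
  obtain ⟨hξ0, hξL, ta, tb, tc, hta, htb, htc, htac, htbc, htcc, -, -, -⟩ := graph_param F ht hg
  -- injectivity
  have inj0 : InjOn (F.X 0 t) (Icc 0 1) := T7b_injOn_neg _ _ (F.X_s 0 t ht)
    (fun σ hσ => mul_neg_of_pos_of_neg (F.ell_pos 0 t ht) (hg σ hσ).1)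
  have inj1 : InjOn (F.X 1 t) (Icc 0 1) := T7b_injOn_neg _ _ (F.X_s 1 t ht)
    (fun σ hσ => mul_neg_of_pos_of_neg (F.ell_pos 1 t ht) (hg σ hσ).2.1)
  have inj2 : InjOn (F.X 2 t) (Icc 0 1) := T7b_injOn_pos _ _ (F.X_s 2 t ht)
    (fun σ hσ => mul_pos (F.ell_pos 2 t ht) (hg σ hσ).2.2)
  have csa : ContinuousOn sa (Icc 0 (F.X 2 t 0)) := htac.congr (fun x hx =>
    inj0 (hsa x hx).1 (hta x hx).1 ((hsa x hx).2.trans (hta x hx).2.symm))
  have csb : ContinuousOn sb (Icc 0 (F.X 2 t 0)) := htbc.congr (fun x hx =>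
    inj1 (hsb x hx).1 (htb x hx).1 ((hsb x hx).2.trans (htb x hx).2.symm))
  have csc : ContinuousOn sc (Icc (F.X 2 t 0) Lx) := htcc.congr (fun x hx =>
    inj2 (hsc x hx).1 (htc x hx).1 ((hsc x hx).2.trans (htc x hx).2.symm))
  have hc0 : ∀ σ ∈ Icc (0:ℝ) 1, Real.cos (F.th 0 t σ + off 0) ≠ 0 := fun σ hσ => (hg σ hσ).1.ne
  have hc1 : ∀ σ ∈ Icc (0:ℝ) 1, Real.cos (F.th 1 t σ + off 1) ≠ 0 := fun σ hσ => (hg σ hσ).2.1.ne
  have hc2 : ∀ σ ∈ Icc (0:ℝ) 1, Real.cos (F.th 2 t σ + off 2) ≠ 0 :=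
    fun σ hσ => (hg σ hσ).2.2.ne'
  -- derivatives
  set u : ℝ → ℝ := fun x => F.Y 0 t (sa x) + F.Y 1 t (sb x) with hu
  set u' : ℝ → ℝ := fun x => Real.tan (F.th 0 t (sa x) + off 0) + Real.tan (F.th 1 t (sb x) + off 1)
    with hu'
  set v : ℝ → ℝ := fun x => 2 * F.Y 2 t (sc x) with hv
  set v' : ℝ → ℝ := fun x => 2 * Real.tan (F.th 2 t (sc x) + off 2) with hv'
  have du : ∀ x ∈ Icc 0 (F.X 2 t 0), HasDerivWithinAt u (u' x) (Icc 0 (F.X 2 t 0)) x := by
    intro x hx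
    exact (T7b_edge F 0 ht hc0 hsa csa hx).1.add (T7b_edge F 1 ht hc1 hsb csb hx).1
  have du' : ∀ x ∈ Icc 0 (F.X 2 t 0), HasDerivWithinAt u'
      (F.k 0 t (sa x) / Real.cos (F.th 0 t (sa x) + off 0) ^ 3 +
        F.k 1 t (sb x) / Real.cos (F.th 1 t (sb x) + off 1) ^ 3) (Icc 0 (F.X 2 t 0)) x := by
    intro x hx
    exact (T7b_edge F 0 ht hc0 hsa csa hx).2.add (T7b_edge F 1 ht hc1 hsb csb hx).2
  have dv : ∀ x ∈ Icc (F.X 2 t 0) Lx, HasDerivWithinAt v (v' x) (Icc (F.X 2 t 0) Lx) x := by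
    intro x hx
    exact (T7b_edge F 2 ht hc2 hsc csc hx).1.const_mul 2
  have dv' : ∀ x ∈ Icc (F.X 2 t 0) Lx, HasDerivWithinAt v'
      (2 * (F.k 2 t (sc x) / Real.cos (F.th 2 t (sc x) + off 2) ^ 3)) (Icc (F.X 2 t 0) Lx) x := by
    intro x hx
    exact (T7b_edge F 2 ht hc2 hsc csc hx).2.const_mul 2
  have PPu : ∀ x, x ≤ F.X 2 t 0 → F.PP t sa sb sc x = u x := by
    intro x hx
    simp only [Flow.PP, if_pos hx, hu]
  have PPv : ∀ x, F.X 2 t 0 < x → F.PP t sa sb sc x = v x := by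
    intro x hx
    simp only [Flow.PP, if_neg (not_le.2 hx), hv]
  have hright := hmin.filter_mono (T7b_mem_right hx0.1 hx0.2)
  refine ⟨?_, ?_, ?_⟩
  · intro hlt
    have hx0m : x0 ∈ Icc 0 (F.X 2 t 0) := ⟨hx0.1, hlt.le⟩
    have hr : ∀ᶠ x in 𝓝[>] x0, 0 ≤ g * (u x - u x0) := by
      filter_upwards [hright, Ioo_mem_nhdsGT hlt] with x hx hx'
      rw [PPu x hx'.2.le, PPu x0 hlt.le] at hx
      exact hx
    have hsub : Icc x0 (F.X 2 t 0) ⊆ Icc 0 (F.X 2 t 0) := Icc_subset_Icc_left hx0.1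
    have hzero : u' x0 = 0 := by
      rcases eq_or_lt_of_le hx0.1 with h0 | h0
      · rw [← h0]
        have h0m : (0:ℝ) ∈ Icc 0 (F.X 2 t 0) := ⟨le_rfl, hξ0.le⟩
        have e0 : sa 0 = 1 := inj0 (hsa 0 h0m).1 (by simp)
          ((hsa 0 h0m).2.trans (F.X_axis0 t ht).symm)
        have e1 : sb 0 = 1 := inj1 (hsb 0 h0m).1 (by simp)
          ((hsb 0 h0m).2.trans (F.X_axis1 t ht).symm)
        simp only [hu', e0, e1, F.th_axis0 t ht, F.th_axis1 t ht]
        have r0 : Real.pi / 3 + off 0 = Real.pi := by simp [off]; ring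
        have r1 : -(Real.pi / 3) + off 1 = -Real.pi := by simp [off]; ring
        rw [r0, r1, Real.tan_neg, Real.tan_pi]
        norm_num
      · have hl : ∀ᶠ x in 𝓝[<] x0, 0 ≤ g * (u x - u x0) := by
          filter_upwards [hmin.filter_mono (T7b_mem_left h0 hx0.2.le), self_mem_nhdsWithin]
            with x hx hx'
          have hx'' : x < x0 := hx'
          rw [PPu x (hx''.le.trans hlt.le), PPu x0 hlt.le] at hx
          exact hx
        have k1 := T7b_first_right (g := g) hlt ((du x0 hx0m).mono hsub) hr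
        have k2 := T7b_first_left (g := g) h0 ((du x0 hx0m).mono (Icc_subset_Icc_right hlt.le)) hl
        rcases hg1 with rfl | rfl <;> linarith
    have key := T7b_second_right (g := g) hlt (fun x hx => (du x (hsub hx)).mono hsub) hzero
      ((du' x0 hx0m).mono hsub) hr
    -- equality of the cosines
    have n0 := (hg (sa x0) (hsa x0 hx0m).1).1
    have n1 := (hg (sb x0) (hsb x0 hx0m).1).2.1
    set c0 := Real.cos (F.th 0 t (sa x0) + off 0) with hc0d
    set c1 := Real.cos (F.th 1 t (sb x0) + off 1) with hc1d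
    have t0 : c0 ^ 2 * (1 + Real.tan (F.th 0 t (sa x0) + off 0) ^ 2) = 1 := by
      rw [Real.tan_eq_sin_div_cos, ← hc0d]
      have := Real.sin_sq_add_cos_sq (F.th 0 t (sa x0) + off 0)
      rw [← hc0d] at this
      have hc0ne : c0 ≠ 0 := n0.ne
      rw [div_pow, mul_add, mul_one, mul_div_cancel₀ _ (pow_ne_zero 2 hc0ne)]
      linarith
    have t1 : c1 ^ 2 * (1 + Real.tan (F.th 1 t (sb x0) + off 1) ^ 2) = 1 := by
      rw [Real.tan_eq_sin_div_cos, ← hc1d]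
      have := Real.sin_sq_add_cos_sq (F.th 1 t (sb x0) + off 1)
      rw [← hc1d] at this
      have hc1ne : c1 ≠ 0 := n1.ne
      rw [div_pow, mul_add, mul_one, mul_div_cancel₀ _ (pow_ne_zero 2 hc1ne)]
      linarith
    have t2 : Real.tan (F.th 0 t (sa x0) + off 0) = -Real.tan (F.th 1 t (sb x0) + off 1) := by
      have : Real.tan (F.th 0 t (sa x0) + off 0) + Real.tan (F.th 1 t (sb x0) + off 1) = 0 := hzero
      linarith
    rw [t2, neg_sq] at t0
    have hcc : c0 ^ 2 = c1 ^ 2 := by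
      have hpos : 0 < 1 + Real.tan (F.th 1 t (sb x0) + off 1) ^ 2 := by positivity
      have : c0 ^ 2 * (1 + Real.tan (F.th 1 t (sb x0) + off 1) ^ 2) =
        c1 ^ 2 * (1 + Real.tan (F.th 1 t (sb x0) + off 1) ^ 2) := by rw [t0, t1]
      exact mul_right_cancel₀ hpos.ne' this
    have hcc' : c0 = c1 := by
      rcases sq_eq_sq_iff_eq_or_eq_neg.1 hcc with h | h
      · exact h
      · linarith
    rw [hcc'] at key ⊢
    have hc1ne : c1 ≠ 0 := n1.ne
    have e : g * (F.k 0 t (sa x0) / c1 ^ 3 + F.k 1 t (sb x0) / c1 ^ 3) =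
        (g * (F.k 0 t (sa x0) / c1 + F.k 1 t (sb x0) / c1)) / c1 ^ 2 := by
      field_simp
    rw [e] at key
    have hsq : 0 < c1 ^ 2 := by positivity
    by_contra hcon
    push Not at hcon
    have := div_neg_of_neg_of_pos hcon hsq
    linarith
  · intro hlt
    have hx0m : x0 ∈ Icc (F.X 2 t 0) Lx := ⟨hlt.le, hx0.2.le⟩
    have hr : ∀ᶠ x in 𝓝[>] x0, 0 ≤ g * (v x - v x0) := by
      filter_upwards [hright, self_mem_nhdsWithin] with x hx hx'
      have hx'' : x0 < x := hx'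
      rw [PPv x (hlt.trans hx''), PPv x0 hlt] at hx
      exact hx
    have hl : ∀ᶠ x in 𝓝[<] x0, 0 ≤ g * (v x - v x0) := by
      filter_upwards [hmin.filter_mono (T7b_mem_left (hξ0.trans hlt) hx0.2.le),
        Ioo_mem_nhdsLT hlt] with x hx hx'
      rw [PPv x hx'.1, PPv x0 hlt] at hx
      exact hx
    have hsub : Icc x0 Lx ⊆ Icc (F.X 2 t 0) Lx := Icc_subset_Icc_left hlt.le
    have hzero : v' x0 = 0 := by
      have k1 := T7b_first_right (g := g) hx0.2 ((dv x0 hx0m).mono hsub) hr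
      have k2 := T7b_first_left (g := g) hlt
        ((dv x0 hx0m).mono (Icc_subset_Icc_right hx0.2.le)) hl
      rcases hg1 with rfl | rfl <;> linarith
    have key := T7b_second_right (g := g) hx0.2 (fun x hx => (dv x (hsub hx)).mono hsub) hzero
      ((dv' x0 hx0m).mono hsub) hr
    have n2 := (hg (sc x0) (hsc x0 hx0m).1).2.2
    set c2 := Real.cos (F.th 2 t (sc x0) + off 2) with hc2d
    have hc2ne : c2 ≠ 0 := n2.ne'
    have e : g * (2 * (F.k 2 t (sc x0) / c2 ^ 3)) =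
        (g * (F.k 2 t (sc x0) / c2)) * (2 / c2 ^ 2) := by
      field_simp
    rw [e] at key
    have hsq : 0 < 2 / c2 ^ 2 := by positivity
    by_contra hcon
    push Not at hcon
    have := mul_neg_of_neg_of_pos hcon hsq
    linarith
  · intro heq
    have hxi0 : F.X 2 t 0 ∈ Icc 0 (F.X 2 t 0) := ⟨hξ0.le, le_rfl⟩
    have hxi1 : F.X 2 t 0 ∈ Icc (F.X 2 t 0) Lx := ⟨le_rfl, hξL.le⟩
    have e0 : sa (F.X 2 t 0) = 0 := inj0 (hsa _ hxi0).1 (by simp)
      ((hsa _ hxi0).2.trans (F.X_J 0 t ht).symm)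
    have e1 : sb (F.X 2 t 0) = 0 := inj1 (hsb _ hxi0).1 (by simp)
      ((hsb _ hxi0).2.trans (F.X_J 1 t ht).symm)
    have e2 : sc (F.X 2 t 0) = 0 := inj2 (hsc _ hxi1).1 (by simp) (hsc _ hxi1).2
    have huv : u (F.X 2 t 0) = v (F.X 2 t 0) := by
      simp only [hu, hv, e0, e1, e2, F.Y_J 0 t ht, F.Y_J 1 t ht]
      ring
    rw [heq] at hright hmin hx0
    have hr : ∀ᶠ x in 𝓝[>] (F.X 2 t 0), 0 ≤ g * (v x - v (F.X 2 t 0)) := by
      filter_upwards [hright, self_mem_nhdsWithin] with x hx hx'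
      have hx'' : F.X 2 t 0 < x := hx'
      rw [PPv x hx'', PPu _ le_rfl, huv] at hx
      exact hx
    have hl : ∀ᶠ x in 𝓝[<] (F.X 2 t 0), 0 ≤ g * (u x - u (F.X 2 t 0)) := by
      filter_upwards [hmin.filter_mono (T7b_mem_left hξ0 hξL.le), self_mem_nhdsWithin]
        with x hx hx'
      have hx'' : x < F.X 2 t 0 := hx'
      rw [PPu x hx''.le, PPu _ le_rfl] at hx
      exact hx
    have k1 := T7b_first_right (g := g) hξL (dv _ hxi1) hr
    have k2 := T7b_first_left (g := g) hξ0 (du _ hxi0) hl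
    simp only [hv', hu', e0, e1, e2, F.th_J 0 t ht, F.th_J 1 t ht] at k1 k2
    set φ := F.th 2 t 0 with hφd
    have o0 : off 0 = 2 * Real.pi / 3 := by simp [off]
    have o1 : off 1 = -(2 * Real.pi / 3) := by simp [off]
    have o2 : off 2 = 0 := by simp [off]
    rw [o2, add_zero] at k1
    rw [o0, o1] at k2
    have m0 := (hg 0 (by simp)).1
    have m1 := (hg 0 (by simp)).2.1
    have m2 := (hg 0 (by simp)).2.2
    rw [F.th_J 0 t ht, ← hφd, o0] at m0
    rw [F.th_J 1 t ht, ← hφd, o1] at m1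
    rw [← hφd, o2, add_zero] at m2
    rw [abs_le] at hφ
    have tsum : Real.tan (φ + 2 * Real.pi / 3) + Real.tan (φ + -(2 * Real.pi / 3)) =
        Real.sin (2 * φ) / (Real.cos (φ + 2 * Real.pi / 3) * Real.cos (φ + -(2 * Real.pi / 3))) := by
      rw [Real.tan_eq_sin_div_cos, Real.tan_eq_sin_div_cos, div_add_div _ _ m0.ne m1.ne]
      congr 1
      have : 2 * φ = (φ + 2 * Real.pi / 3) + (φ + -(2 * Real.pi / 3)) := by ring
      rw [this, Real.sin_add (φ + 2 * Real.pi / 3) (φ + -(2 * Real.pi / 3))]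
    rw [tsum] at k2
    have hprod : 0 < Real.cos (φ + 2 * Real.pi / 3) * Real.cos (φ + -(2 * Real.pi / 3)) :=
      mul_pos_of_neg_of_neg m0 m1
    have k2' : g * Real.sin (2 * φ) ≤ 0 := by
      rw [← mul_div_assoc, div_le_iff₀ hprod, zero_mul] at k2
      exact k2
    have k1' : 0 ≤ g * Real.sin φ := by
      rw [Real.tan_eq_sin_div_cos] at k1
      have : g * (2 * (Real.sin φ / Real.cos φ)) = (g * Real.sin φ) * (2 / Real.cos φ) := by ring
      rw [this] at k1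
      have h2 : 0 < 2 / Real.cos φ := by positivity
      exact nonneg_of_mul_nonneg_left k1 h2
    have hφ0 : φ = 0 := by
      have hpi := Real.pi_gt_three
      rcases lt_trichotomy φ 0 with h | h | h
      · exfalso
        have s1 : Real.sin φ < 0 := Real.sin_neg_of_neg_of_neg_pi_lt h (by norm_num at hφ; linarith)
        have s2 : Real.sin (2 * φ) < 0 :=
          Real.sin_neg_of_neg_of_neg_pi_lt (by linarith) (by norm_num at hφ; linarith)
        rcases hg1 with rfl | rfl <;> linarith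
      · exact h
      · exfalso
        have s1 : 0 < Real.sin φ := Real.sin_pos_of_pos_of_lt_pi h (by norm_num at hφ; linarith)
        have s2 : 0 < Real.sin (2 * φ) :=
          Real.sin_pos_of_pos_of_lt_pi (by linarith) (by norm_num at hφ; linarith)
        rcases hg1 with rfl | rfl <;> linarith
    refine ⟨hφ0, ?_⟩
    have hzero : v' (F.X 2 t 0) = 0 := by
      simp only [hv', e2, ← hφd, hφ0, o2]
      simp
    have key := T7b_second_right (g := g) hξL dv hzero (dv' _ hxi1) hr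
    simp only [e2, ← hφd, hφ0, o2] at key
    simp only [add_zero, Real.cos_zero, one_pow, div_one] at key
    linarith

end Pool.Agent.Helper15.NF
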