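import Pool.Agent.Helper15.NF.T1
import Pool.Agent.Helper15.NF.T7a
import Pool.Agent.Helper15.NF.T7b

open Set MeasureTheory intervalIntegral Filter Topology

namespace Pool.Agent.Helper15.NF

variable {a b Lx : ℝ}

/-- the value of the sum of the heights over `x` is `v` -/
def T7Val (X Y : Fin 3 → ℝ → ℝ) (x v : ℝ) : Prop :=
  (∃ σ ∈ Icc (0:ℝ) 1, ∃ σ' ∈ Icc (0:ℝ) 1, X 0 σ = x ∧ X 1 σ' = x ∧ v = Y 0 σ + Y 1 σ') ∨
  (∃ σ ∈ Icc (0:ℝ) 1, X 2 σ = x ∧ v = 2 * Y 2 σ)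

/-- static half network -/
structure T7Net (Lx : ℝ) (ell : Fin 3 → ℝ) (th X Y : Fin 3 → ℝ → ℝ) : Prop where
  ell_pos : ∀ i, 0 < ell i
  th_cont : ∀ i, ContinuousOn (th i) (Icc 0 1)
  X_s : ∀ i, ∀ σ ∈ Icc (0:ℝ) 1,
    HasDerivWithinAt (X i) (ell i * Real.cos (th i σ + off i)) (Icc 0 1) σ
  Y_s : ∀ i, ∀ σ ∈ Icc (0:ℝ) 1,
    HasDerivWithinAt (Y i) (ell i * Real.sin (th i σ + off i)) (Icc 0 1) σ
  th_J : ∀ i, th i 0 = th 2 0
  X_J : ∀ i, X i 0 = X 2 0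
  Y_J : ∀ i, Y i 0 = Y 2 0
  th_axis0 : th 0 1 = Real.pi / 3
  th_axis1 : th 1 1 = -(Real.pi / 3)
  X_axis0 : X 0 1 = 0
  X_axis1 : X 1 1 = 0
  X_far : X 2 1 = Lx
  graph : ∀ σ ∈ Icc (0:ℝ) 1, Real.cos (th 0 σ + off 0) < 0 ∧ Real.cos (th 1 σ + off 1) < 0 ∧
    0 < Real.cos (th 2 σ + off 2)

theorem T7_flow_net (F : Flow a b Lx) {t : ℝ} (ht : t ∈ Ioo a b) (hg : F.IsGraph t) :
    T7Net Lx (fun i => F.ell i t) (fun i => F.th i t) (fun i => F.X i t) (fun i => F.Y i t) where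
  ell_pos i := F.ell_pos i t ht
  th_cont i := fun σ hσ => (F.th_s i t ht σ hσ).continuousWithinAt
  X_s i := F.X_s i t ht
  Y_s i := F.Y_s i t ht
  th_J i := F.th_J i t ht
  X_J i := F.X_J i t ht
  Y_J i := F.Y_J i t ht
  th_axis0 := F.th_axis0 t ht
  th_axis1 := F.th_axis1 t ht
  X_axis0 := F.X_axis0 t ht
  X_axis1 := F.X_axis1 t ht
  X_far := F.X_far t ht
  graph := hg

theorem T7_init_net (I : Init Lx) (hg : I.IsGraph) :
    T7Net Lx I.ell I.th I.X I.Y where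
  ell_pos := I.ell_pos
  th_cont i := fun σ hσ => (I.th_s i σ hσ).continuousWithinAt
  X_s := I.X_s
  Y_s := I.Y_s
  th_J := I.th_J
  X_J := I.X_J
  Y_J := I.Y_J
  th_axis0 := I.th_axis0
  th_axis1 := I.th_axis1
  X_axis0 := I.X_axis0
  X_axis1 := I.X_axis1
  X_far := I.X_far
  graph := hg

/-- range of an angle with negative cosine -/
theorem T7_range_neg {θ : ℝ → ℝ} (hc : ContinuousOn θ (Icc 0 1))
    (hcos : ∀ σ ∈ Icc (0:ℝ) 1, Real.cos (θ σ) < 0) (h1 : θ 1 = Real.pi) :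
    ∀ σ ∈ Icc (0:ℝ) 1, Real.pi / 2 < θ σ ∧ θ σ < 3 * Real.pi / 2 := by
  intro σ hσ
  have hpi := Real.pi_pos
  have hcs : ContinuousOn θ (Icc σ 1) := hc.mono (Icc_subset_Icc_left hσ.1)
  constructor
  · by_contra hcon
    push Not at hcon
    obtain ⟨y, hy, hy'⟩ := intermediate_value_Icc hσ.2 hcs
      (show Real.pi / 2 ∈ Icc (θ σ) (θ 1) from ⟨hcon, by rw [h1]; linarith⟩)
    have := hcos y ⟨hσ.1.trans hy.1, hy.2⟩
    rw [hy', Real.cos_pi_div_two] at this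
    exact lt_irrefl _ this
  · by_contra hcon
    push Not at hcon
    obtain ⟨y, hy, hy'⟩ := intermediate_value_Icc' hσ.2 hcs
      (show 3 * Real.pi / 2 ∈ Icc (θ 1) (θ σ) from ⟨by rw [h1]; linarith, hcon⟩)
    have := hcos y ⟨hσ.1.trans hy.1, hy.2⟩
    have e : 3 * Real.pi / 2 = Real.pi / 2 + Real.pi := by ring
    rw [hy', e, Real.cos_add_pi, Real.cos_pi_div_two] at this
    simp at this

/-- range of an angle with positive cosine -/
theorem T7_range_pos {θ : ℝ → ℝ} (hc : ContinuousOn θ (Icc 0 1))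
    (hcos : ∀ σ ∈ Icc (0:ℝ) 1, 0 < Real.cos (θ σ))
    (h0 : -(Real.pi / 2) < θ 0 ∧ θ 0 < Real.pi / 2) :
    ∀ σ ∈ Icc (0:ℝ) 1, -(Real.pi / 2) < θ σ ∧ θ σ < Real.pi / 2 := by
  intro σ hσ
  have hpi := Real.pi_pos
  have hcs : ContinuousOn θ (Icc 0 σ) := hc.mono (Icc_subset_Icc_right hσ.2)
  constructor
  · by_contra hcon
    push Not at hcon
    obtain ⟨y, hy, hy'⟩ := intermediate_value_Icc' hσ.1 hcs
      (show -(Real.pi / 2) ∈ Icc (θ σ) (θ 0) from ⟨hcon, h0.1.le⟩)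
    have := hcos y ⟨hy.1, hy.2.trans hσ.2⟩
    rw [hy', Real.cos_neg, Real.cos_pi_div_two] at this
    exact lt_irrefl _ this
  · by_contra hcon
    push Not at hcon
    obtain ⟨y, hy, hy'⟩ := intermediate_value_Icc hσ.1 hcs
      (show Real.pi / 2 ∈ Icc (θ 0) (θ σ) from ⟨h0.2.le, hcon⟩)
    have := hcos y ⟨hy.1, hy.2.trans hσ.2⟩
    rw [hy', Real.cos_pi_div_two] at this
    exact lt_irrefl _ this

theorem T7_tan_add {A B : ℝ} (hA : Real.cos A ≠ 0) (hB : Real.cos B ≠ 0) :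
    Real.tan A + Real.tan B = Real.sin (A + B) / (Real.cos A * Real.cos B) := by
  rw [Real.tan_eq_sin_div_cos, Real.tan_eq_sin_div_cos, div_add_div _ _ hA hB, Real.sin_add]

namespace T7Net

variable {ell : Fin 3 → ℝ} {th X Y : Fin 3 → ℝ → ℝ}

theorem inj0 (N : T7Net Lx ell th X Y) : InjOn (X 0) (Icc 0 1) :=
  T7b_injOn_neg _ _ (N.X_s 0) (fun σ hσ => mul_neg_of_pos_of_neg (N.ell_pos 0) (N.graph σ hσ).1)

theorem inj1 (N : T7Net Lx ell th X Y) : InjOn (X 1) (Icc 0 1) :=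
  T7b_injOn_neg _ _ (N.X_s 1) (fun σ hσ => mul_neg_of_pos_of_neg (N.ell_pos 1) (N.graph σ hσ).2.1)

theorem inj2 (N : T7Net Lx ell th X Y) : InjOn (X 2) (Icc 0 1) :=
  T7b_injOn_pos _ _ (N.X_s 2) (fun σ hσ => mul_pos (N.ell_pos 2) (N.graph σ hσ).2.2)

theorem ranges (N : T7Net Lx ell th X Y) :
    (∀ σ ∈ Icc (0:ℝ) 1, Real.pi / 2 < th 0 σ + off 0 ∧ th 0 σ + off 0 < 3 * Real.pi / 2) ∧
    (∀ σ ∈ Icc (0:ℝ) 1, -(3 * Real.pi / 2) < th 1 σ + off 1 ∧ th 1 σ + off 1 < -(Real.pi / 2)) ∧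
    (∀ σ ∈ Icc (0:ℝ) 1, -(Real.pi / 2) < th 2 σ ∧ th 2 σ < Real.pi / 2) := by
  have hpi := Real.pi_pos
  have o0 : off 0 = 2 * Real.pi / 3 := by simp [off]
  have o1 : off 1 = -(2 * Real.pi / 3) := by simp [off]
  have o2 : off 2 = 0 := by simp [off]
  have r0 : ∀ σ ∈ Icc (0:ℝ) 1, Real.pi / 2 < th 0 σ + off 0 ∧ th 0 σ + off 0 < 3 * Real.pi / 2 := by
    exact T7_range_neg (θ := fun σ => th 0 σ + off 0) ((N.th_cont 0).add continuousOn_const)
      (fun σ hσ => (N.graph σ hσ).1) (by rw [N.th_axis0, o0]; ring)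
  have r1 : ∀ σ ∈ Icc (0:ℝ) 1,
      -(3 * Real.pi / 2) < th 1 σ + off 1 ∧ th 1 σ + off 1 < -(Real.pi / 2) := by
    have h := T7_range_neg (θ := fun σ => -(th 1 σ + off 1))
      ((N.th_cont 1).add continuousOn_const).neg
      (fun σ hσ => by rw [Real.cos_neg]; exact (N.graph σ hσ).2.1)
      (by rw [N.th_axis1, o1]; ring)
    intro σ hσ
    have := h σ hσ
    constructor <;> linarith [this.1, this.2]
  refine ⟨r0, r1, ?_⟩
  apply T7_range_pos (N.th_cont 2)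
  · intro σ hσ
    have := (N.graph σ hσ).2.2
    rwa [o2, add_zero] at this
  · have h0 := r0 0 (by simp)
    have h1 := r1 0 (by simp)
    rw [N.th_J 0, o0] at h0
    rw [N.th_J 1, o1] at h1
    constructor <;> linarith [h0.1, h0.2, h1.1, h1.2]

theorem params (N : T7Net Lx ell th X Y) :
    0 < X 2 0 ∧ X 2 0 < Lx ∧
    ∃ sa sb sc : ℝ → ℝ,
      (∀ x ∈ Icc 0 (X 2 0), sa x ∈ Icc (0:ℝ) 1 ∧ X 0 (sa x) = x) ∧
      (∀ x ∈ Icc 0 (X 2 0), sb x ∈ Icc (0:ℝ) 1 ∧ X 1 (sb x) = x) ∧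
      (∀ x ∈ Icc (X 2 0) Lx, sc x ∈ Icc (0:ℝ) 1 ∧ X 2 (sc x) = x) ∧
      ContinuousOn sa (Icc 0 (X 2 0)) ∧ ContinuousOn sb (Icc 0 (X 2 0)) ∧
      ContinuousOn sc (Icc (X 2 0) Lx) := by
  have hcc : ∀ i, ContinuousOn (fun σ => ell i * Real.cos (th i σ + off i)) (Icc 0 1) := by
    intro i
    have := N.th_cont i
    fun_prop
  obtain ⟨h0, sa, hsa, hsac, -⟩ := J1_inv_anti (X 0) _ (N.X_s 0)
    (fun σ hσ => mul_neg_of_pos_of_neg (N.ell_pos 0) (N.graph σ hσ).1) (hcc 0)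
  obtain ⟨h1, sb, hsb, hsbc, -⟩ := J1_inv_anti (X 1) _ (N.X_s 1)
    (fun σ hσ => mul_neg_of_pos_of_neg (N.ell_pos 1) (N.graph σ hσ).2.1) (hcc 1)
  obtain ⟨h2, sc, hsc, hscc, -⟩ := J1_inv (X 2) _ (N.X_s 2)
    (fun σ hσ => mul_pos (N.ell_pos 2) (N.graph σ hσ).2.2) (hcc 2)
  rw [N.X_axis0, N.X_J 0] at *
  rw [N.X_axis1, N.X_J 1] at *
  rw [N.X_far] at *
  exact ⟨h0, h2, sa, sb, sc, hsa, hsb, hsc, hsac, hsbc, hscc⟩

/-- range of the abscissae -/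
theorem X_range (N : T7Net Lx ell th X Y) :
    (∀ σ ∈ Icc (0:ℝ) 1, X 0 σ ∈ Icc 0 (X 2 0)) ∧ (∀ σ ∈ Icc (0:ℝ) 1, X 1 σ ∈ Icc 0 (X 2 0)) ∧
    (∀ σ ∈ Icc (0:ℝ) 1, X 2 σ ∈ Icc (X 2 0) Lx) := by
  have hanti : ∀ i, (∀ σ ∈ Icc (0:ℝ) 1, Real.cos (th i σ + off i) < 0) →
      StrictAntiOn (X i) (Icc 0 1) := by
    intro i hi
    apply strictAntiOn_of_deriv_neg (convex_Icc 0 1) (fun σ hσ => (N.X_s i σ hσ).continuousWithinAt)
    intro x hx
    rw [interior_Icc] at hx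
    rw [((N.X_s i x (Ioo_subset_Icc_self hx)).hasDerivAt (Icc_mem_nhds hx.1 hx.2)).deriv]
    exact mul_neg_of_pos_of_neg (N.ell_pos i) (hi x (Ioo_subset_Icc_self hx))
  have a0 := (hanti 0 (fun σ hσ => (N.graph σ hσ).1)).antitoneOn
  have a1 := (hanti 1 (fun σ hσ => (N.graph σ hσ).2.1)).antitoneOn
  have a2 : StrictMonoOn (X 2) (Icc 0 1) := by
    apply strictMonoOn_of_deriv_pos (convex_Icc 0 1) (fun σ hσ => (N.X_s 2 σ hσ).continuousWithinAt)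
    intro x hx
    rw [interior_Icc] at hx
    rw [((N.X_s 2 x (Ioo_subset_Icc_self hx)).hasDerivAt (Icc_mem_nhds hx.1 hx.2)).deriv]
    exact mul_pos (N.ell_pos 2) (N.graph x (Ioo_subset_Icc_self hx)).2.2
  refine ⟨?_, ?_, ?_⟩
  · intro σ hσ
    have h1 := a0 hσ (by simp : (1:ℝ) ∈ Icc 0 1) hσ.2
    have h2 := a0 (by simp : (0:ℝ) ∈ Icc 0 1) hσ hσ.1
    rw [N.X_axis0] at h1
    rw [N.X_J 0] at h2
    exact ⟨h1, h2⟩
  · intro σ hσ
    have h1 := a1 hσ (by simp : (1:ℝ) ∈ Icc 0 1) hσ.2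
    have h2 := a1 (by simp : (0:ℝ) ∈ Icc 0 1) hσ hσ.1
    rw [N.X_axis1] at h1
    rw [N.X_J 1] at h2
    exact ⟨h1, h2⟩
  · intro σ hσ
    have h1 := a2.monotoneOn hσ (by simp : (1:ℝ) ∈ Icc 0 1) hσ.2
    have h2 := a2.monotoneOn (by simp : (0:ℝ) ∈ Icc 0 1) hσ hσ.1
    rw [N.X_far] at h1
    exact ⟨h2, h1⟩

theorem val_range (N : T7Net Lx ell th X Y) {x v : ℝ} (h : T7Val X Y x v) : x ∈ Icc 0 Lx := by
  obtain ⟨r0, r1, r2⟩ := N.X_range
  obtain ⟨p0, p1, -⟩ := N.params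
  rcases h with ⟨σ, hσ, σ', hσ', h1, h2, h3⟩ | ⟨σ, hσ, h1, h2⟩
  · have := r0 σ hσ
    rw [h1] at this
    exact ⟨this.1, this.2.trans p1.le⟩
  · have := r2 σ hσ
    rw [h1] at this
    exact ⟨p0.le.trans this.1, this.2⟩

/-- existence of the value -/
theorem val_exists (N : T7Net Lx ell th X Y) {x : ℝ} (hx : x ∈ Icc 0 Lx) :
    ∃ v, T7Val X Y x v := by
  obtain ⟨p0, p1, sa, sb, sc, hsa, hsb, hsc, -⟩ := N.params
  rcases le_total x (X 2 0) with h | h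
  · exact ⟨_, Or.inl ⟨sa x, (hsa x ⟨hx.1, h⟩).1, sb x, (hsb x ⟨hx.1, h⟩).1,
      (hsa x ⟨hx.1, h⟩).2, (hsb x ⟨hx.1, h⟩).2, rfl⟩⟩
  · exact ⟨_, Or.inr ⟨sc x, (hsc x ⟨h, hx.2⟩).1, (hsc x ⟨h, hx.2⟩).2, rfl⟩⟩

/-- uniqueness of the value -/
theorem val_unique (N : T7Net Lx ell th X Y) {x v w : ℝ} (h : T7Val X Y x v)
    (h' : T7Val X Y x w) : v = w := by
  obtain ⟨r0, r1, r2⟩ := N.X_range
  have mixed : ∀ {x v w : ℝ},
      (∃ σ ∈ Icc (0:ℝ) 1, ∃ σ' ∈ Icc (0:ℝ) 1, X 0 σ = x ∧ X 1 σ' = x ∧ v = Y 0 σ + Y 1 σ') →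
      (∃ σ ∈ Icc (0:ℝ) 1, X 2 σ = x ∧ w = 2 * Y 2 σ) → v = w := by
    rintro x v w ⟨σ, hσ, σ', hσ', h1, h2, h3⟩ ⟨ρ, hρ, h4, h5⟩
    have e1 := (r0 σ hσ).2
    have e2 := (r2 ρ hρ).1
    have e3 : x = X 2 0 := le_antisymm (h1 ▸ e1) (h4 ▸ e2)
    have i0 : σ = 0 := N.inj0 hσ (by simp) (by rw [h1, e3, N.X_J 0])
    have i1 : σ' = 0 := N.inj1 hσ' (by simp) (by rw [h2, e3, N.X_J 1])
    have i2 : ρ = 0 := N.inj2 hρ (by simp) (by rw [h4, e3])
    rw [h3, h5, i0, i1, i2, N.Y_J 0, N.Y_J 1]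
    ring
  rcases h with h | h
  · rcases h' with h' | h'
    · obtain ⟨σ, hσ, σ', hσ', h1, h2, h3⟩ := h
      obtain ⟨ρ, hρ, ρ', hρ', h4, h5, h6⟩ := h'
      have i0 : σ = ρ := N.inj0 hσ hρ (by rw [h1, h4])
      have i1 : σ' = ρ' := N.inj1 hσ' hρ' (by rw [h2, h5])
      rw [h3, h6, i0, i1]
    · exact mixed h h'
  · rcases h' with h' | h'
    · exact (mixed h' h).symm
    · obtain ⟨σ, hσ, h1, h3⟩ := h
      obtain ⟨ρ, hρ, h4, h6⟩ := h'
      have i0 : σ = ρ := N.inj2 hσ hρ (by rw [h1, h4])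
      rw [h3, h6, i0]

theorem edge (N : T7Net Lx ell th X Y) (i : Fin 3)
    (hcos : ∀ σ ∈ Icc (0:ℝ) 1, Real.cos (th i σ + off i) ≠ 0) {s : ℝ → ℝ} {A B : ℝ}
    (hs : ∀ x ∈ Icc A B, s x ∈ Icc (0:ℝ) 1 ∧ X i (s x) = x)
    (hsc : ContinuousOn s (Icc A B)) {x : ℝ} (hx : x ∈ Icc A B) :
    HasDerivWithinAt (fun x => Y i (s x)) (Real.tan (th i (s x) + off i)) (Icc A B) x := by
  have hell := (N.ell_pos i).ne'
  have hc := hcos (s x) (hs x hx).1
  have hd := T7b_inv_deriv (N.X_s i) hs hsc hx (mul_ne_zero hell hc)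
  have hmaps : MapsTo s (Icc A B) (Icc 0 1) := fun y hy => (hs y hy).1
  have h1 := (N.Y_s i (s x) (hs x hx).1).comp x hd hmaps
  have h2 : ell i * Real.sin (th i (s x) + off i) *
      (ell i * Real.cos (th i (s x) + off i))⁻¹ =
      Real.tan (th i (s x) + off i) := by
    rw [Real.tan_eq_sin_div_cos]
    field_simp
  rw [h2] at h1
  exact h1

/-- positivity and monotonicity of the sum of the heights -/
theorem mono_iff (N : T7Net Lx ell th X Y) :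
    (∀ x1 x2 v1 v2, T7Val X Y x1 v1 → T7Val X Y x2 v2 → x1 ≤ x2 → v1 ≤ v2) ↔
    ((∀ σ ∈ Icc (0:ℝ) 1, ∀ σ' ∈ Icc (0:ℝ) 1, X 0 σ = X 1 σ' → 0 ≤ th 0 σ + th 1 σ') ∧
      (∀ σ ∈ Icc (0:ℝ) 1, 0 ≤ th 2 σ)) := by
  obtain ⟨p0, p1, sa, sb, sc, hsa, hsb, hsc, csa, csb, csc⟩ := N.params
  obtain ⟨g0, g1, g2⟩ := N.ranges
  obtain ⟨r0, r1, r2⟩ := N.X_range
  have hpi := Real.pi_pos
  have o2 : off 2 = 0 := by simp [off]
  have osum : off 0 + off 1 = 0 := by simp [off]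
  have hc0 : ∀ σ ∈ Icc (0:ℝ) 1, Real.cos (th 0 σ + off 0) ≠ 0 := fun σ hσ => (N.graph σ hσ).1.ne
  have hc1 : ∀ σ ∈ Icc (0:ℝ) 1, Real.cos (th 1 σ + off 1) ≠ 0 := fun σ hσ => (N.graph σ hσ).2.1.ne
  have hc2 : ∀ σ ∈ Icc (0:ℝ) 1, Real.cos (th 2 σ + off 2) ≠ 0 :=
    fun σ hσ => (N.graph σ hσ).2.2.ne'
  set u : ℝ → ℝ := fun x => Y 0 (sa x) + Y 1 (sb x) with hu
  set v : ℝ → ℝ := fun x => 2 * Y 2 (sc x) with hv
  have du : ∀ x ∈ Icc 0 (X 2 0), HasDerivWithinAt u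
      (Real.tan (th 0 (sa x) + off 0) + Real.tan (th 1 (sb x) + off 1)) (Icc 0 (X 2 0)) x :=
    fun x hx => (N.edge 0 hc0 hsa csa hx).add (N.edge 1 hc1 hsb csb hx)
  have dv : ∀ x ∈ Icc (X 2 0) Lx, HasDerivWithinAt v
      (2 * Real.tan (th 2 (sc x) + off 2)) (Icc (X 2 0) Lx) x :=
    fun x hx => (N.edge 2 hc2 hsc csc hx).const_mul 2
  have valu : ∀ x ∈ Icc 0 (X 2 0), T7Val X Y x (u x) := fun x hx =>
    Or.inl ⟨sa x, (hsa x hx).1, sb x, (hsb x hx).1, (hsa x hx).2, (hsb x hx).2, rfl⟩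
  have valv : ∀ x ∈ Icc (X 2 0) Lx, T7Val X Y x (v x) := fun x hx =>
    Or.inr ⟨sc x, (hsc x hx).1, (hsc x hx).2, rfl⟩
  have sumsin : ∀ x ∈ Icc 0 (X 2 0),
      Real.tan (th 0 (sa x) + off 0) + Real.tan (th 1 (sb x) + off 1) =
      Real.sin (th 0 (sa x) + th 1 (sb x)) /
        (Real.cos (th 0 (sa x) + off 0) * Real.cos (th 1 (sb x) + off 1)) := by
    intro x hx
    rw [T7_tan_add (hc0 _ (hsa x hx).1) (hc1 _ (hsb x hx).1)]
    congr 2
    linarith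
  have prodpos : ∀ x ∈ Icc 0 (X 2 0),
      0 < Real.cos (th 0 (sa x) + off 0) * Real.cos (th 1 (sb x) + off 1) := fun x hx =>
    mul_pos_of_neg_of_neg (N.graph _ (hsa x hx).1).1 (N.graph _ (hsb x hx).1).2.1
  constructor
  · intro hmono
    constructor
    · intro σ hσ σ' hσ' hX
      set x := X 0 σ with hxd
      have hx : x ∈ Icc 0 (X 2 0) := r0 σ hσ
      have e0 : sa x = σ := N.inj0 (hsa x hx).1 hσ (hsa x hx).2
      have e1 : sb x = σ' := N.inj1 (hsb x hx).1 hσ' ((hsb x hx).2.trans hX)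
      have hd : 0 ≤ Real.tan (th 0 (sa x) + off 0) + Real.tan (th 1 (sb x) + off 1) := by
        rcases eq_or_lt_of_le hx.2 with h | h
        · have h0x : 0 < x := by rw [h]; exact p0
          have := T7b_first_left (g := -1) h0x ((du x hx).mono (Icc_subset_Icc_right hx.2)) (by
            filter_upwards [Ioo_mem_nhdsLT h0x] with y hy
            have := hmono y x _ _ (valu y ⟨hy.1.le, hy.2.le.trans hx.2⟩) (valu x hx) hy.2.le
            linarith)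
          linarith
        · have := T7b_first_right (g := 1) h ((du x hx).mono (Icc_subset_Icc_left hx.1)) (by
            filter_upwards [Ioo_mem_nhdsGT h] with y hy
            have := hmono x y _ _ (valu x hx) (valu y ⟨hx.1.trans hy.1.le, hy.2.le⟩) hy.1.le
            linarith)
          linarith
      rw [sumsin x hx, e0, e1] at hd
      have hpp := prodpos x hx
      rw [e0, e1] at hpp
      have hs : 0 ≤ Real.sin (th 0 σ + th 1 σ') := by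
        rcases lt_or_ge (Real.sin (th 0 σ + th 1 σ')) 0 with h | h
        · exfalso
          have := div_neg_of_neg_of_pos h hpp
          linarith
        · exact h
      by_contra hneg
      push Not at hneg
      have g0' := g0 σ hσ
      have g1' := g1 σ' hσ'
      have := Real.sin_neg_of_neg_of_neg_pi_lt hneg (by linarith [g0'.1, g1'.1])
      linarith
    · intro σ hσ
      set x := X 2 σ with hxd
      have hx : x ∈ Icc (X 2 0) Lx := r2 σ hσ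
      have e0 : sc x = σ := N.inj2 (hsc x hx).1 hσ (hsc x hx).2
      have hd : 0 ≤ 2 * Real.tan (th 2 (sc x) + off 2) := by
        rcases eq_or_lt_of_le hx.2 with h | h
        · have h0x : X 2 0 < x := by rw [h]; exact p1
          have := T7b_first_left (g := -1) h0x ((dv x hx).mono (Icc_subset_Icc_right hx.2)) (by
            filter_upwards [Ioo_mem_nhdsLT h0x] with y hy
            have := hmono y x _ _ (valv y ⟨hy.1.le, hy.2.le.trans hx.2⟩) (valv x hx) hy.2.le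
            linarith)
          linarith
        · have := T7b_first_right (g := 1) h ((dv x hx).mono (Icc_subset_Icc_left hx.1)) (by
            filter_upwards [Ioo_mem_nhdsGT h] with y hy
            have := hmono x y _ _ (valv x hx) (valv y ⟨hx.1.trans hy.1.le, hy.2.le⟩) hy.1.le
            linarith)
          linarith
      rw [e0, o2, add_zero] at hd
      by_contra hneg
      push Not at hneg
      have g2' := g2 σ hσ
      have := Real.tan_neg_of_neg_of_pi_div_two_lt hneg g2'.1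
      linarith
  · rintro ⟨hP, hR⟩
    have mu : MonotoneOn u (Icc 0 (X 2 0)) := by
      apply monotoneOn_of_deriv_nonneg (convex_Icc _ _) (fun x hx => (du x hx).continuousWithinAt)
      · intro x hx
        rw [interior_Icc] at hx
        exact ((du x (Ioo_subset_Icc_self hx)).hasDerivAt
          (Icc_mem_nhds hx.1 hx.2)).differentiableAt.differentiableWithinAt
      · intro x hx
        rw [interior_Icc] at hx
        have hx' := Ioo_subset_Icc_self hx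
        rw [((du x hx').hasDerivAt (Icc_mem_nhds hx.1 hx.2)).deriv, sumsin x hx']
        apply div_nonneg _ (prodpos x hx').le
        have h1 := hP (sa x) (hsa x hx').1 (sb x) (hsb x hx').1
          ((hsa x hx').2.trans (hsb x hx').2.symm)
        apply Real.sin_nonneg_of_nonneg_of_le_pi h1
        have g0' := g0 _ (hsa x hx').1
        have g1' := g1 _ (hsb x hx').1
        linarith [g0'.2, g1'.2]
    have mv : MonotoneOn v (Icc (X 2 0) Lx) := by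
      apply monotoneOn_of_deriv_nonneg (convex_Icc _ _) (fun x hx => (dv x hx).continuousWithinAt)
      · intro x hx
        rw [interior_Icc] at hx
        exact ((dv x (Ioo_subset_Icc_self hx)).hasDerivAt
          (Icc_mem_nhds hx.1 hx.2)).differentiableAt.differentiableWithinAt
      · intro x hx
        rw [interior_Icc] at hx
        have hx' := Ioo_subset_Icc_self hx
        rw [((dv x hx').hasDerivAt (Icc_mem_nhds hx.1 hx.2)).deriv, o2, add_zero]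
        have h1 := hR (sc x) (hsc x hx').1
        have g2' := g2 _ (hsc x hx').1
        have := Real.tan_nonneg_of_nonneg_of_le_pi_div_two h1 g2'.2.le
        linarith
    have xi0 : X 2 0 ∈ Icc 0 (X 2 0) := ⟨p0.le, le_rfl⟩
    have xi1 : X 2 0 ∈ Icc (X 2 0) Lx := ⟨le_rfl, p1.le⟩
    have huv : u (X 2 0) = v (X 2 0) := N.val_unique (valu _ xi0) (valv _ xi1)
    -- classification of values
    have cls : ∀ {x w}, T7Val X Y x w →
        (x ∈ Icc 0 (X 2 0) ∧ w = u x) ∨ (x ∈ Icc (X 2 0) Lx ∧ w = v x) := by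
      intro x w h
      have hx := N.val_range h
      rcases le_total x (X 2 0) with h' | h'
      · exact Or.inl ⟨⟨hx.1, h'⟩, N.val_unique h (valu x ⟨hx.1, h'⟩)⟩
      · exact Or.inr ⟨⟨h', hx.2⟩, N.val_unique h (valv x ⟨h', hx.2⟩)⟩
    intro x1 x2 v1 v2 h1 h2 h12
    rcases cls h1 with ⟨hx1, rfl⟩ | ⟨hx1, rfl⟩ <;> rcases cls h2 with ⟨hx2, rfl⟩ | ⟨hx2, rfl⟩
    · exact mu hx1 hx2 h12
    · calc u x1 ≤ u (X 2 0) := mu hx1 xi0 hx1.2
        _ = v (X 2 0) := huv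
        _ ≤ v x2 := mv xi1 hx2 hx2.1
    · have e1 : x1 = X 2 0 := le_antisymm (h12.trans hx2.2) hx1.1
      have e2 : x2 = X 2 0 := le_antisymm hx2.2 (e1 ▸ h12)
      rw [e1, e2, huv]
    · exact mv hx1 hx2 h12

end T7Net

/-- limits of values along an ultrafilter -/
theorem T7_limit {ι : Type*} (U : Ultrafilter ι) {Xj Yj : ι → Fin 3 → ℝ → ℝ}
    {X Y : Fin 3 → ℝ → ℝ}
    (hX : ∀ i, ∀ s : ι → ℝ, ∀ σ ∈ Icc (0:ℝ) 1, (∀ᶠ j in (U : Filter ι), s j ∈ Icc (0:ℝ) 1) →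
      Tendsto s U (𝓝 σ) → Tendsto (fun j => Xj j i (s j)) U (𝓝 (X i σ)))
    (hY : ∀ i, ∀ s : ι → ℝ, ∀ σ ∈ Icc (0:ℝ) 1, (∀ᶠ j in (U : Filter ι), s j ∈ Icc (0:ℝ) 1) →
      Tendsto s U (𝓝 σ) → Tendsto (fun j => Yj j i (s j)) U (𝓝 (Y i σ)))
    {x v : ι → ℝ} (hval : ∀ᶠ j in (U : Filter ι), T7Val (Xj j) (Yj j) (x j) (v j)) :
    ∃ x0 v0, Tendsto x U (𝓝 x0) ∧ Tendsto v U (𝓝 v0) ∧ T7Val X Y x0 v0 := by
  -- limits of parameters
  have lim : ∀ s : ι → ℝ, (∀ᶠ j in (U : Filter ι), s j ∈ Icc (0:ℝ) 1) →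
      ∃ σ ∈ Icc (0:ℝ) 1, Tendsto s U (𝓝 σ) := by
    intro s hs
    obtain ⟨σ, hσ, hle⟩ := (isCompact_Icc (a := (0:ℝ)) (b := 1)).ultrafilter_le_nhds
      (U.map s) (by
        rw [le_principal_iff]
        exact hs)
    exact ⟨σ, hσ, hle⟩
  unfold T7Val at hval
  rw [Ultrafilter.eventually_or] at hval
  rcases hval with h | h
  · have h' : ∀ᶠ j in (U : Filter ι), ∃ p : ℝ × ℝ, p.1 ∈ Icc (0:ℝ) 1 ∧ p.2 ∈ Icc (0:ℝ) 1 ∧
        Xj j 0 p.1 = x j ∧ Xj j 1 p.2 = x j ∧ v j = Yj j 0 p.1 + Yj j 1 p.2 := by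
      filter_upwards [h] with j hj
      obtain ⟨σ, hσ, σ', hσ', h1, h2, h3⟩ := hj
      exact ⟨(σ, σ'), hσ, hσ', h1, h2, h3⟩
    obtain ⟨p, hp⟩ := h'.choice
    obtain ⟨σ, hσ, hσl⟩ := lim (fun j => (p j).1) (hp.mono fun j hj => hj.1)
    obtain ⟨σ', hσ', hσl'⟩ := lim (fun j => (p j).2) (hp.mono fun j hj => hj.2.1)
    have t1 := hX 0 _ σ hσ (hp.mono fun j hj => hj.1) hσl
    have t2 := hX 1 _ σ' hσ' (hp.mono fun j hj => hj.2.1) hσl'
    have t3 := hY 0 _ σ hσ (hp.mono fun j hj => hj.1) hσl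
    have t4 := hY 1 _ σ' hσ' (hp.mono fun j hj => hj.2.1) hσl'
    have tx : Tendsto x U (𝓝 (X 0 σ)) := t1.congr' (hp.mono fun j hj => hj.2.2.1)
    have tx' : Tendsto x U (𝓝 (X 1 σ')) := t2.congr' (hp.mono fun j hj => hj.2.2.2.1)
    have tv : Tendsto v U (𝓝 (Y 0 σ + Y 1 σ')) :=
      (t3.add t4).congr' (hp.mono fun j hj => hj.2.2.2.2.symm)
    exact ⟨_, _, tx, tv, Or.inl ⟨σ, hσ, σ', hσ', rfl, tendsto_nhds_unique tx' tx, rfl⟩⟩
  · have h' : ∀ᶠ j in (U : Filter ι), ∃ p : ℝ, p ∈ Icc (0:ℝ) 1 ∧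
        Xj j 2 p = x j ∧ v j = 2 * Yj j 2 p := by
      filter_upwards [h] with j hj
      exact hj
    obtain ⟨p, hp⟩ := h'.choice
    obtain ⟨σ, hσ, hσl⟩ := lim p (hp.mono fun j hj => hj.1)
    have t1 := hX 2 _ σ hσ (hp.mono fun j hj => hj.1) hσl
    have t3 := hY 2 _ σ hσ (hp.mono fun j hj => hj.1) hσl
    have tx : Tendsto x U (𝓝 (X 2 σ)) := t1.congr' (hp.mono fun j hj => hj.2.1)
    have tv : Tendsto v U (𝓝 (2 * Y 2 σ)) :=
      (t3.const_mul 2).congr' (hp.mono fun j hj => hj.2.2.symm)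
    exact ⟨_, _, tx, tv, Or.inr ⟨σ, hσ, rfl, rfl⟩⟩

/-- paths through a local extremum -/
theorem T7_path (F : Flow a b Lx) (hgr : ∀ t ∈ Ioo a b, F.IsGraph t) {t : ℝ} (ht : t ∈ Ioo a b)
    (hφ : |F.th 2 t 0| ≤ 0.1) {sa sb sc : ℝ → ℝ}
    (hsa : ∀ x ∈ Icc 0 (F.X 2 t 0), sa x ∈ Icc (0:ℝ) 1 ∧ F.X 0 t (sa x) = x)
    (hsb : ∀ x ∈ Icc 0 (F.X 2 t 0), sb x ∈ Icc (0:ℝ) 1 ∧ F.X 1 t (sb x) = x)
    (hsc : ∀ x ∈ Icc (F.X 2 t 0) Lx, sc x ∈ Icc (0:ℝ) 1 ∧ F.X 2 t (sc x) = x)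
    {g x0 : ℝ} (hg1 : g = 1 ∨ g = -1) (hx0 : x0 ∈ Icc 0 Lx)
    (hmin : ∀ᶠ x in 𝓝[Icc 0 Lx] x0, 0 ≤ g * (F.PP t sa sb sc x - F.PP t sa sb sc x0)) :
    ∃ y w : ℝ → ℝ, ∃ D : ℝ, y t = x0 ∧ ContinuousAt y t ∧
      (∀ᶠ τ in 𝓝 t, T7Val (fun i => F.X i τ) (fun i => F.Y i τ) (y τ) (w τ)) ∧
      HasDerivAt w D t ∧ 0 ≤ g * D := by
  have hnear : ∀ᶠ τ in 𝓝 t, τ ∈ Ioo a b := Ioo_mem_nhds ht.1 ht.2
  have N := T7_flow_net F ht (hgr t ht)
  have o2 : off 2 = 0 := by simp [off]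
  have hxc : ContinuousAt (fun τ => F.X 2 τ 0) t := (F.X_t 2 t ht 0 (by simp)).continuousAt
  rcases eq_or_lt_of_le hx0.2 with hL | hL
  · -- far end
    refine ⟨fun _ => Lx, fun τ => 2 * F.Ly, 0, hL.symm, continuousAt_const, ?_,
      hasDerivAt_const _ _, by simp⟩
    filter_upwards [hnear] with τ hτ
    exact Or.inr ⟨1, by simp, F.X_far τ hτ, by
      change 2 * F.Ly = 2 * F.Y 2 τ 1
      rw [F.Y_far τ hτ]⟩
  · obtain ⟨k1, k2, k3⟩ := second_order F ht (hgr t ht) hφ hsa hsb hsc hg1 ⟨hx0.1, hL⟩ hmin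
    rcases lt_trichotomy x0 (F.X 2 t 0) with h | h | h
    · -- on the arcs
      have hx0m : x0 ∈ Icc 0 (F.X 2 t 0) := ⟨hx0.1, h.le⟩
      have k1 := k1 h
      rcases eq_or_lt_of_le hx0.1 with h0 | h0
      · -- axis
        have e0 : sa x0 = 1 := N.inj0 (hsa x0 hx0m).1 (by simp)
          ((hsa x0 hx0m).2.trans (h0.symm.trans (F.X_axis0 t ht).symm))
        have e1 : sb x0 = 1 := N.inj1 (hsb x0 hx0m).1 (by simp)
          ((hsb x0 hx0m).2.trans (h0.symm.trans (F.X_axis1 t ht).symm))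
        rw [e0, e1] at k1
        have d0 := F.Y_t 0 t ht 1 (by simp)
        have d1 := F.Y_t 1 t ht 1 (by simp)
        refine ⟨fun _ => x0, fun τ => F.Y 0 τ 1 + F.Y 1 τ 1, _, rfl, continuousAt_const, ?_,
          d0.add d1, ?_⟩
        · filter_upwards [hnear] with τ hτ
          exact Or.inl ⟨1, by simp, 1, by simp, (F.X_axis0 τ hτ).trans h0,
            (F.X_axis1 τ hτ).trans h0, rfl⟩
        · rw [F.mu_end 0 t ht, F.mu_end 1 t ht]
          have r0 : F.th 0 t 1 + off 0 = Real.pi := by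
            rw [F.th_axis0 t ht]; simp [off]; ring
          have r1 : F.th 1 t 1 + off 1 = -Real.pi := by
            rw [F.th_axis1 t ht]; simp [off]; ring
          rw [r0, r1, Real.cos_neg, Real.cos_pi] at k1 ⊢
          have e : F.k 0 t 1 * -1 + 0 * Real.sin Real.pi + (F.k 1 t 1 * -1 + 0 * Real.sin (-Real.pi))
              = F.k 0 t 1 / -1 + F.k 1 t 1 / -1 := by ring
          rw [e]
          exact k1
      · -- interior of the arcs
        have i0 : sa x0 ∈ Ioo (0:ℝ) 1 := by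
          have m := (hsa x0 hx0m)
          refine ⟨lt_of_le_of_ne m.1.1 ?_, lt_of_le_of_ne m.1.2 ?_⟩
          · intro h'
            have := m.2
            rw [← h', F.X_J 0 t ht] at this
            exact h.ne this.symm
          · intro h'
            have := m.2
            rw [h', F.X_axis0 t ht] at this
            exact h0.ne this
        have i1 : sb x0 ∈ Ioo (0:ℝ) 1 := by
          have m := (hsb x0 hx0m)
          refine ⟨lt_of_le_of_ne m.1.1 ?_, lt_of_le_of_ne m.1.2 ?_⟩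
          · intro h'
            have := m.2
            rw [← h', F.X_J 1 t ht] at this
            exact h.ne this.symm
          · intro h'
            have := m.2
            rw [h', F.X_axis1 t ht] at this
            exact h0.ne this
        obtain ⟨s0, s0t, -, s0e, s0d⟩ := graph_t F 0 ht i0 (N.graph _ (hsa x0 hx0m).1).1.ne
        obtain ⟨s1, s1t, -, s1e, s1d⟩ := graph_t F 1 ht i1 (N.graph _ (hsb x0 hx0m).1).2.1.ne
        refine ⟨fun _ => x0, fun τ => F.Y 0 τ (s0 τ) + F.Y 1 τ (s1 τ), _, rfl,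
          continuousAt_const, ?_, s0d.add s1d, k1⟩
        filter_upwards [s0e, s1e] with τ h0' h1'
        exact Or.inl ⟨s0 τ, Ioo_subset_Icc_self h0'.1, s1 τ, Ioo_subset_Icc_self h1'.1,
          h0'.2.trans (hsa x0 hx0m).2, h1'.2.trans (hsb x0 hx0m).2, rfl⟩
    · -- the junction
      obtain ⟨hφ0, k3⟩ := k3 h
      have d2 := (F.Y_t 2 t ht 0 (by simp)).const_mul 2
      refine ⟨fun τ => F.X 2 τ 0, fun τ => 2 * F.Y 2 τ 0, _, h.symm, hxc, ?_, d2, ?_⟩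
      · exact Eventually.of_forall fun τ => Or.inr ⟨0, by simp, rfl, rfl⟩
      · rw [hφ0, o2]
        simp only [add_zero, Real.cos_zero, Real.sin_zero, mul_zero, mul_one]
        linarith
    · -- on the ray
      have hx0m : x0 ∈ Icc (F.X 2 t 0) Lx := ⟨h.le, hL.le⟩
      have k2 := k2 h
      have i2 : sc x0 ∈ Ioo (0:ℝ) 1 := by
        have m := (hsc x0 hx0m)
        refine ⟨lt_of_le_of_ne m.1.1 ?_, lt_of_le_of_ne m.1.2 ?_⟩
        · intro h'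
          have := m.2
          rw [← h'] at this
          exact h.ne this
        · intro h'
          have := m.2
          rw [h', F.X_far t ht] at this
          exact hL.ne this.symm
      obtain ⟨s2, s2t, -, s2e, s2d⟩ := graph_t F 2 ht i2 (N.graph _ (hsc x0 hx0m).1).2.2.ne'
      refine ⟨fun _ => x0, fun τ => 2 * F.Y 2 τ (s2 τ), _, rfl,
          continuousAt_const, ?_, s2d.const_mul 2, ?_⟩
      · filter_upwards [s2e] with τ h2'
        exact Or.inr ⟨s2 τ, Ioo_subset_Icc_self h2'.1, h2'.2.trans (hsc x0 hx0m).2, rfl⟩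
      · linarith

/-- limits of values of a flow at an interior time -/
theorem T7_limit_flow (F : Flow a b Lx) {ι : Type*} (U : Ultrafilter ι) {τ : ι → ℝ} {t : ℝ}
    (ht : t ∈ Ioo a b) (hτ : Tendsto τ U (𝓝 t)) {x v : ι → ℝ}
    (hval : ∀ᶠ j in (U : Filter ι),
      T7Val (fun i => F.X i (τ j)) (fun i => F.Y i (τ j)) (x j) (v j)) :
    ∃ x0 v0, Tendsto x U (𝓝 x0) ∧ Tendsto v U (𝓝 v0) ∧
      T7Val (fun i => F.X i t) (fun i => F.Y i t) x0 v0 := by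
  have hin : ∀ᶠ j in (U : Filter ι), τ j ∈ Ioo a b := hτ.eventually (Ioo_mem_nhds ht.1 ht.2)
  have gen : ∀ G : Fin 3 → ℝ → ℝ → ℝ,
      (∀ i, ContinuousOn (fun p : ℝ × ℝ => G i p.1 p.2) (Ioo a b ×ˢ Icc 0 1)) →
      ∀ i, ∀ s : ι → ℝ, ∀ σ ∈ Icc (0:ℝ) 1, (∀ᶠ j in (U : Filter ι), s j ∈ Icc (0:ℝ) 1) →
      Tendsto s U (𝓝 σ) → Tendsto (fun j => G i (τ j) (s j)) U (𝓝 (G i t σ)) := by
    intro G hG i s σ hσ hs hsl
    have h1 : Tendsto (fun j => ((τ j, s j) : ℝ × ℝ)) U (𝓝[Ioo a b ×ˢ Icc (0:ℝ) 1] (t, σ)) := by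
      apply tendsto_nhdsWithin_of_tendsto_nhds_of_eventually_within _ (hτ.prodMk_nhds hsl)
      filter_upwards [hin, hs] with j h1 h2
      exact ⟨h1, h2⟩
    exact (hG i (t, σ) ⟨ht, hσ⟩).tendsto.comp h1
  exact T7_limit (Xj := fun j i => F.X i (τ j)) (Yj := fun j i => F.Y i (τ j)) U
    (gen F.X F.X_cont) (gen F.Y F.Y_cont) hval

/-- limits of values of a flow at the initial time -/
theorem T7_limit_init (F : Flow a b Lx) (I : Init Lx) (hS : StartsAt F I) {ι : Type*}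
    (U : Ultrafilter ι) {τ : ι → ℝ} (hτ : Tendsto τ U (𝓝[>] a)) {x v : ι → ℝ}
    (hval : ∀ᶠ j in (U : Filter ι),
      T7Val (fun i => F.X i (τ j)) (fun i => F.Y i (τ j)) (x j) (v j)) :
    ∃ x0 v0, Tendsto x U (𝓝 x0) ∧ Tendsto v U (𝓝 v0) ∧ T7Val I.X I.Y x0 v0 := by
  have gen : ∀ (G : Fin 3 → ℝ → ℝ → ℝ) (H : Fin 3 → ℝ → ℝ),
      (∀ i, ContinuousOn (H i) (Icc 0 1)) →
      (∀ i, ∀ ε > 0, ∀ᶠ t in 𝓝[>] a, ∀ σ ∈ Icc (0:ℝ) 1, |G i t σ - H i σ| < ε) →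
      ∀ i, ∀ s : ι → ℝ, ∀ σ ∈ Icc (0:ℝ) 1, (∀ᶠ j in (U : Filter ι), s j ∈ Icc (0:ℝ) 1) →
      Tendsto s U (𝓝 σ) → Tendsto (fun j => G i (τ j) (s j)) U (𝓝 (H i σ)) := by
    intro G H hH hGH i s σ hσ hs hsl
    have h1 : Tendsto s U (𝓝[Icc (0:ℝ) 1] σ) :=
      tendsto_nhdsWithin_of_tendsto_nhds_of_eventually_within _ hsl hs
    have h2 : Tendsto (fun j => H i (s j)) U (𝓝 (H i σ)) := (hH i σ hσ).tendsto.comp h1
    rw [Metric.tendsto_nhds] at h2 ⊢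
    intro ε hε
    filter_upwards [h2 (ε / 2) (half_pos hε), hτ.eventually (hGH i (ε / 2) (half_pos hε)), hs]
      with j h3 h4 h5
    have h6 := h4 (s j) h5
    rw [Real.dist_eq] at h3 ⊢
    calc |G i (τ j) (s j) - H i σ| ≤ |G i (τ j) (s j) - H i (s j)| + |H i (s j) - H i σ| :=
          abs_sub_le _ _ _
      _ < ε := by linarith
  exact T7_limit (Xj := fun j i => F.X i (τ j)) (Yj := fun j i => F.Y i (τ j)) U
    (gen F.X I.X (fun i σ hσ => (I.X_s i σ hσ).continuousWithinAt) hS.X)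
    (gen F.Y I.Y (fun i σ hσ => (I.Y_s i σ hσ).continuousWithinAt) hS.Y) hval

/-- strict version of monotonicity with a margin -/
def T7Good (F : Flow a b Lx) (c t : ℝ) : Prop :=
  ∀ x1 x2 v1 v2, T7Val (fun i => F.X i t) (fun i => F.Y i t) x1 v1 →
    T7Val (fun i => F.X i t) (fun i => F.Y i t) x2 v2 → x1 ≤ x2 → 0 < v2 - v1 + c

/-- near the initial time -/
theorem T7_initial (F : Flow a b Lx) (I : Init Lx) (hS : StartsAt F I)
    (hgI : I.IsGraph) (hI : I.Pos) {c : ℝ} (hc : 0 < c) : ∀ᶠ t in 𝓝[>] a, T7Good F c t := by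
  by_contra hcon
  have hfr : ∃ᶠ t in 𝓝[>] a, ¬ T7Good F c t := not_eventually.1 hcon
  have hmono := ((T7_init_net I hgI).mono_iff).2 hI
  have hne : (𝓝[>] a ⊓ 𝓟 {t | ¬ T7Good F c t}).NeBot := frequently_iff_neBot.1 hfr
  let U : Ultrafilter ℝ := Ultrafilter.of (𝓝[>] a ⊓ 𝓟 {t | ¬ T7Good F c t})
  have hU : (U : Filter ℝ) ≤ 𝓝[>] a ⊓ 𝓟 {t | ¬ T7Good F c t} := Ultrafilter.of_le _
  have hU1 : Tendsto (fun t : ℝ => t) U (𝓝[>] a) := hU.trans inf_le_left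
  have hU2 : ∀ᶠ t in (U : Filter ℝ), ¬ T7Good F c t := (hU.trans inf_le_right) (mem_principal_self _)
  have hU3 : ∀ᶠ t in (U : Filter ℝ), ∃ p : ℝ × ℝ × ℝ × ℝ,
      T7Val (fun i => F.X i t) (fun i => F.Y i t) p.1 p.2.2.1 ∧
      T7Val (fun i => F.X i t) (fun i => F.Y i t) p.2.1 p.2.2.2 ∧ p.1 ≤ p.2.1 ∧
      p.2.2.2 - p.2.2.1 + c ≤ 0 := by
    filter_upwards [hU2] with t ht
    unfold T7Good at ht
    push Not at ht
    obtain ⟨x1, x2, v1, v2, h1, h2, h3, h4⟩ := ht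
    exact ⟨(x1, x2, v1, v2), h1, h2, h3, h4⟩
  obtain ⟨p, hp⟩ := hU3.choice
  obtain ⟨x1, v1, tx1, tv1, val1⟩ := T7_limit_init F I hS U hU1 (x := fun j => (p j).1)
    (v := fun j => (p j).2.2.1) (hp.mono fun j hj => hj.1)
  obtain ⟨x2, v2, tx2, tv2, val2⟩ := T7_limit_init F I hS U hU1 (x := fun j => (p j).2.1)
    (v := fun j => (p j).2.2.2) (hp.mono fun j hj => hj.2.1)
  have h12 : x1 ≤ x2 := le_of_tendsto_of_tendsto tx1 tx2 (hp.mono fun j hj => hj.2.2.1)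
  have hv : v2 - v1 + c ≤ 0 := by
    have : Tendsto (fun j => (p j).2.2.2 - (p j).2.2.1 + c) U (𝓝 (v2 - v1 + c)) :=
      (tv2.sub tv1).add_const c
    exact le_of_tendsto this (hp.mono fun j hj => hj.2.2.2)
  have := hmono x1 x2 v1 v2 val1 val2 h12
  linarith

/-- propagation -/
theorem T7_propagate (F : Flow a b Lx) (hgr : ∀ t ∈ Ioo a b, F.IsGraph t)
    (hth : ∀ t ∈ Ioo a b, |F.th 2 t 0| ≤ 0.1) {t1 T ε c : ℝ} (ht1 : a < t1) (hT : T < b)
    (h1T : t1 ≤ T) (hε : 0 < ε) (hc : 0 < c) (hgood : T7Good F c t1) :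
    T7Good F (ε * (T - t1) + c) T := by
  have hsub : ∀ t ∈ Icc t1 T, t ∈ Ioo a b := fun t ht => ⟨ht1.trans_le ht.1, ht.2.trans_lt hT⟩
  by_contra hcon
  let B : Set ℝ := {t | t ∈ Icc t1 T ∧ ¬ T7Good F (ε * (t - t1) + c) t}
  have hBne : B.Nonempty := ⟨T, ⟨h1T, le_rfl⟩, hcon⟩
  have hBclosed : IsClosed B := by
    rw [isClosed_iff_ultrafilter]
    intro t0 U hU hBU
    have hI : t0 ∈ Icc t1 T := by
      have : IsClosed (Icc t1 T) := isClosed_Icc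
      rw [isClosed_iff_ultrafilter] at this
      exact this t0 U hU (mem_of_superset hBU fun t ht => ht.1)
    refine ⟨hI, ?_⟩
    have hU3 : ∀ᶠ t in (U : Filter ℝ), ∃ p : ℝ × ℝ × ℝ × ℝ,
        T7Val (fun i => F.X i t) (fun i => F.Y i t) p.1 p.2.2.1 ∧
        T7Val (fun i => F.X i t) (fun i => F.Y i t) p.2.1 p.2.2.2 ∧ p.1 ≤ p.2.1 ∧
        p.2.2.2 - p.2.2.1 + (ε * (t - t1) + c) ≤ 0 := by
      filter_upwards [hBU] with t ht
      have ht := ht.2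
      unfold T7Good at ht
      push Not at ht
      obtain ⟨x1, x2, v1, v2, h1, h2, h3, h4⟩ := ht
      exact ⟨(x1, x2, v1, v2), h1, h2, h3, h4⟩
    obtain ⟨p, hp⟩ := hU3.choice
    have hU1 : Tendsto (fun t : ℝ => t) U (𝓝 t0) := hU
    obtain ⟨x1, v1, tx1, tv1, val1⟩ := T7_limit_flow F U (hsub t0 hI) hU1 (x := fun j => (p j).1)
      (v := fun j => (p j).2.2.1) (hp.mono fun j hj => hj.1)
    obtain ⟨x2, v2, tx2, tv2, val2⟩ := T7_limit_flow F U (hsub t0 hI) hU1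
      (x := fun j => (p j).2.1) (v := fun j => (p j).2.2.2) (hp.mono fun j hj => hj.2.1)
    have h12 : x1 ≤ x2 := le_of_tendsto_of_tendsto tx1 tx2 (hp.mono fun j hj => hj.2.2.1)
    have hv : v2 - v1 + (ε * (t0 - t1) + c) ≤ 0 := by
      have : Tendsto (fun j => (p j).2.2.2 - (p j).2.2.1 + (ε * (j - t1) + c)) U
          (𝓝 (v2 - v1 + (ε * (t0 - t1) + c))) :=
        (tv2.sub tv1).add (((hU1.sub_const t1).const_mul ε).add_const c)
      exact le_of_tendsto this (hp.mono fun j hj => hj.2.2.2)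
    intro hgood'
    have := hgood' x1 x2 v1 v2 val1 val2 h12
    linarith
  have hBcomp : IsCompact B :=
    (isCompact_Icc (a := t1) (b := T)).of_isClosed_subset hBclosed (fun t ht => ht.1)
  obtain ⟨ts, hts, hleast⟩ := hBcomp.exists_isLeast hBne
  have hts1 : t1 < ts := by
    rcases eq_or_lt_of_le hts.1.1 with h | h
    · exfalso
      apply hts.2
      rw [← h]
      simpa using hgood
    · exact h
  have htsm : ts ∈ Ioo a b := hsub ts hts.1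
  have hbefore : ∀ t, t1 ≤ t → t < ts → T7Good F (ε * (t - t1) + c) t := by
    intro t h1 h2
    by_contra h3
    have := hleast (show t ∈ B from ⟨⟨h1, h2.le.trans hts.1.2⟩, h3⟩)
    linarith
  have hN := T7_flow_net F htsm (hgr ts htsm)
  set C : ℝ := ε * (ts - t1) + c with hC
  have hCpos : 0 < C := by
    have : 0 < ts - t1 := by linarith
    positivity
  -- nonnegativity at the first bad time
  have hnonneg : ∀ y1 y2 w1 w2, T7Val (fun i => F.X i ts) (fun i => F.Y i ts) y1 w1 →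
      T7Val (fun i => F.X i ts) (fun i => F.Y i ts) y2 w2 → y1 ≤ y2 → 0 ≤ w2 - w1 + C := by
    intro y1 y2 w1 w2 hv1 hv2 h12
    have hy1 := hN.val_range hv1
    have hy2 := hN.val_range hv2
    have hev : ∀ᶠ t in 𝓝[<] ts, ∃ p : ℝ × ℝ,
        T7Val (fun i => F.X i t) (fun i => F.Y i t) y1 p.1 ∧
        T7Val (fun i => F.X i t) (fun i => F.Y i t) y2 p.2 ∧
        0 < p.2 - p.1 + (ε * (t - t1) + c) := by
      filter_upwards [Ioo_mem_nhdsLT hts1] with t ht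
      have htm : t ∈ Ioo a b := hsub t ⟨ht.1.le, ht.2.le.trans hts.1.2⟩
      have hNt := T7_flow_net F htm (hgr t htm)
      obtain ⟨v1, h1⟩ := hNt.val_exists hy1
      obtain ⟨v2, h2⟩ := hNt.val_exists hy2
      exact ⟨(v1, v2), h1, h2, hbefore t ht.1.le ht.2 y1 y2 v1 v2 h1 h2 h12⟩
    let U : Ultrafilter ℝ := Ultrafilter.of (𝓝[<] ts)
    have hU : (U : Filter ℝ) ≤ 𝓝[<] ts := Ultrafilter.of_le _
    have hU1 : Tendsto (fun t : ℝ => t) U (𝓝 ts) := hU.trans nhdsWithin_le_nhds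
    have hev' := hev.filter_mono hU
    obtain ⟨p, hp⟩ := hev'.choice
    obtain ⟨x1, v1, tx1, tv1, val1⟩ := T7_limit_flow F U htsm hU1 (x := fun _ => y1)
      (v := fun j => (p j).1) (hp.mono fun j hj => hj.1)
    obtain ⟨x2, v2, tx2, tv2, val2⟩ := T7_limit_flow F U htsm hU1 (x := fun _ => y2)
      (v := fun j => (p j).2) (hp.mono fun j hj => hj.2.1)
    have e1 : x1 = y1 := tendsto_nhds_unique tx1 tendsto_const_nhds
    have e2 : x2 = y2 := tendsto_nhds_unique tx2 tendsto_const_nhds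
    rw [e1] at val1
    rw [e2] at val2
    rw [hN.val_unique val1 hv1] at tv1
    rw [hN.val_unique val2 hv2] at tv2
    have : Tendsto (fun j => (p j).2 - (p j).1 + (ε * (j - t1) + c)) U
          (𝓝 (w2 - w1 + (ε * (ts - t1) + c))) :=
        (tv2.sub tv1).add (((hU1.sub_const t1).const_mul ε).add_const c)
    exact ge_of_tendsto this (hp.mono fun j hj => hj.2.2.le)
  have hbad := hts.2
  unfold T7Good at hbad
  push Not at hbad
  obtain ⟨x1, x2, v1, v2, hv1, hv2, h12, hle⟩ := hbad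
  have hlt : x1 < x2 := by
    rcases eq_or_lt_of_le h12 with h | h
    · exfalso
      rw [← h] at hv2
      have := hN.val_unique hv1 hv2
      rw [this] at hle
      linarith
    · exact h
  have hx1 := hN.val_range hv1
  have hx2 := hN.val_range hv2
  obtain ⟨p0, p1, sa, sb, sc, hsa, hsb, hsc, -⟩ := hN.params
  have hPP : ∀ x ∈ Icc 0 Lx, T7Val (fun i => F.X i ts) (fun i => F.Y i ts) x
      (F.PP ts sa sb sc x) := by
    intro x hx
    unfold Flow.PP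
    by_cases h : x ≤ F.X 2 ts 0
    · rw [if_pos h]
      exact Or.inl ⟨sa x, (hsa x ⟨hx.1, h⟩).1, sb x, (hsb x ⟨hx.1, h⟩).1,
        (hsa x ⟨hx.1, h⟩).2, (hsb x ⟨hx.1, h⟩).2, rfl⟩
    · rw [if_neg h]
      push Not at h
      exact Or.inr ⟨sc x, (hsc x ⟨h.le, hx.2⟩).1, (hsc x ⟨h.le, hx.2⟩).2, rfl⟩
  have ev1 : v1 = F.PP ts sa sb sc x1 := hN.val_unique hv1 (hPP x1 hx1)
  have ev2 : v2 = F.PP ts sa sb sc x2 := hN.val_unique hv2 (hPP x2 hx2)
  have hmin2 : ∀ᶠ x in 𝓝[Icc 0 Lx] x2, 0 ≤ (1:ℝ) * (F.PP ts sa sb sc x - F.PP ts sa sb sc x2) := by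
    filter_upwards [self_mem_nhdsWithin,
      (eventually_gt_nhds hlt).filter_mono nhdsWithin_le_nhds] with x hx hx'
    have := hnonneg x1 x _ _ hv1 (hPP x hx) hx'.le
    rw [← ev2]
    linarith
  have hmin1 : ∀ᶠ x in 𝓝[Icc 0 Lx] x1, 0 ≤ (-1:ℝ) * (F.PP ts sa sb sc x - F.PP ts sa sb sc x1) := by
    filter_upwards [self_mem_nhdsWithin,
      (eventually_lt_nhds hlt).filter_mono nhdsWithin_le_nhds] with x hx hx'
    have := hnonneg x x2 _ _ (hPP x hx) hv2 hx'.le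
    rw [← ev1]
    linarith
  obtain ⟨y2, w2, D2, y2t, y2c, y2e, y2d, D2n⟩ := T7_path F hgr htsm (hth ts htsm) hsa hsb hsc
    (Or.inl rfl) hx2 hmin2
  obtain ⟨y1, w1, D1, y1t, y1c, y1e, y1d, D1n⟩ := T7_path F hgr htsm (hth ts htsm) hsa hsb hsc
    (Or.inr rfl) hx1 hmin1
  have ew2 : w2 ts = v2 := by
    have := y2e.self_of_nhds
    rw [y2t] at this
    exact hN.val_unique this hv2
  have ew1 : w1 ts = v1 := by
    have := y1e.self_of_nhds
    rw [y1t] at this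
    exact hN.val_unique this hv1
  have hord : ∀ᶠ t in 𝓝 ts, y1 t < y2 t := by
    apply y1c.eventually_lt y2c
    rw [y1t, y2t]
    exact hlt
  have hder : HasDerivAt (fun t => w2 t - w1 t + (ε * (t - t1) + c)) (D2 - D1 + ε * 1) ts :=
    (y2d.sub y1d).add ((((hasDerivAt_id ts).sub_const t1).const_mul ε).add_const c)
  have hfirst := T7b_first_left (g := 1) (u := fun t => w2 t - w1 t + (ε * (t - t1) + c)) hts1
    hder.hasDerivWithinAt (by
      filter_upwards [Ioo_mem_nhdsLT hts1, y1e.filter_mono nhdsWithin_le_nhds,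
        y2e.filter_mono nhdsWithin_le_nhds, hord.filter_mono nhdsWithin_le_nhds] with t h1 h2 h3 h4
      have h5 := hbefore t h1.1.le h1.2 _ _ _ _ h2 h3 h4.le
      rw [ew1, ew2]
      linarith)
  linarith

/-- T7 : positivity is preserved -/
theorem positivity (F : Flow a b Lx) (I : Init Lx) (hS : StartsAt F I)
    (hg : ∀ t ∈ Ioo a b, F.IsGraph t) (hgI : I.IsGraph) (hI : I.Pos)
    (hξ : 0 < I.X 2 0 ∧ I.X 2 0 < Lx) (hth : ∀ t ∈ Ioo a b, |F.th 2 t 0| ≤ 0.1) :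
    ∀ t ∈ Ioo a b, F.Pos t := by
  intro T hT
  have hN := T7_flow_net F hT (hg T hT)
  apply hN.mono_iff.1
  intro x1 x2 v1 v2 h1 h2 h12
  by_contra hcon
  push Not at hcon
  set δ := v1 - v2 with hδ
  have hδpos : 0 < δ := by linarith
  have haT : 0 < T - a := by linarith [hT.1]
  obtain ⟨t1, hgood, ht1⟩ := ((T7_initial F I hS hgI hI (c := δ / 4) (by positivity)).and
    (Ioo_mem_nhdsGT hT.1)).exists
  have key := T7_propagate F hg hth (ε := δ / (4 * (T - a))) ht1.1 hT.2 ht1.2.le (by positivity)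
    (by positivity) hgood x1 x2 v1 v2 h1 h2 h12
  have h3 : δ / (4 * (T - a)) * (T - t1) ≤ δ / 4 := by
    have h4 : T - t1 ≤ T - a := by linarith [ht1.1]
    calc δ / (4 * (T - a)) * (T - t1) ≤ δ / (4 * (T - a)) * (T - a) := by
          apply mul_le_mul_of_nonneg_left h4 (by positivity)
      _ = δ / 4 := by field_simp
  linarith

end Pool.Agent.Helper15.NF
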