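import Pool.Agent.Helper15.NF.P0
import Pool.Agent.Helper15.NF.E0
import Pool.Agent.Helper15.NF.B0
import Pool.Agent.Helper15.NF.B2
import Pool.Agent.Helper15.NF.B3
import Pool.Agent.Helper15.NF.B4
import Pool.Agent.Helper15.NF.B5
import Pool.Agent.Helper15.NF.B6
import Pool.Agent.Helper15.NF.B7
import Pool.Agent.Helper15.NF.T3a
import Pool.Agent.Helper15.NF.T7
import Pool.Agent.Helper15.NF.J8

/-!
Assembly of the main analytic theorem.
-/

open Set MeasureTheory intervalIntegral Filter Topology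

namespace Pool.Agent.Helper15.NF

theorem Near.mono {st : Star} {η η' : ℝ} {c : Raw} (h : Near st η c) (hη : η ≤ η') :
    Near st η' c where
  L0 := h.L0.trans hη
  L1 := h.L1.trans hη
  x0 := fun σ hσ => (h.x0 σ hσ).trans hη
  x1 := fun σ hσ => (h.x1 σ hσ).trans hη
  y0 := fun σ hσ => (h.y0 σ hσ).trans hη
  y1 := fun σ hσ => (h.y1 σ hσ).trans hη
  th0 := fun σ hσ => (h.th0 σ hσ).trans hη
  th1 := fun σ hσ => (h.th1 σ hσ).trans hη

theorem main_rr_pos {T t : ℝ} (h : t < T) : 0 < rr T t := by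
  unfold rr
  exact Real.sqrt_pos.2 (by linarith)

theorem main_rr_anti {T s t : ℝ} (h : s ≤ t) : rr T t ≤ rr T s := by
  unfold rr
  exact Real.sqrt_le_sqrt (by linarith)

/-- `rr T t` is small for `t` close to `T` -/
theorem main_rr_small {T δ : ℝ} (hδ : 0 < δ) : ∃ s < T, ∀ t, s < t → rr T t < δ := by
  refine ⟨T - δ ^ 2 / 4, by nlinarith [sq_nonneg δ, pow_pos hδ 2], fun t ht => ?_⟩
  unfold rr
  rw [Real.sqrt_lt' hδ]
  nlinarith [pow_pos hδ 2]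

/-- a function that is Cauchy at `T` with modulus `K rr` -/
theorem main_limit {f : ℝ → ℝ} {T K : ℝ} (hT : 0 < T) (hK : 0 ≤ K)
    (h : ∀ s ∈ Ioo 0 T, ∀ t ∈ Ico s T, |f t - f s| ≤ K * rr T s) :
    ∃ y, ∀ s ∈ Ioo 0 T, |f s - y| ≤ K * rr T s := by
  set u : ℕ → ℝ := fun n => T - T / (n + 2) with hu
  have hmem : ∀ n, u n ∈ Ioo 0 T := by
    intro n
    have h2 : (0:ℝ) < n + 2 := by positivity
    have h3 : T / (n + 2) < T := by
      rw [div_lt_iff₀ h2]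
      nlinarith [Nat.cast_nonneg (α := ℝ) n]
    have h4 : 0 < T / (n + 2) := div_pos hT h2
    constructor <;> simp only [hu] <;> linarith
  have hmono : Monotone u := by
    intro n m hnm
    simp only [hu]
    have h2 : (0:ℝ) < n + 2 := by positivity
    have h3 : (n:ℝ) + 2 ≤ m + 2 := by exact_mod_cast Nat.add_le_add_right hnm 2
    have := div_le_div_of_nonneg_left hT.le h2 h3
    linarith
  have hlim : Tendsto u atTop (𝓝 T) := by
    have h1 : Tendsto (fun n : ℕ => T / ((n:ℝ) + 2)) atTop (𝓝 0) := by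
      apply Tendsto.div_atTop tendsto_const_nhds
      exact tendsto_atTop_add_const_right _ _ tendsto_natCast_atTop_atTop
    have := tendsto_const_nhds (x := T).sub h1
    simpa [hu] using this
  have hrr : Tendsto (fun n => K * rr T (u n)) atTop (𝓝 0) := by
    have h1 : Tendsto (fun n => rr T (u n)) atTop (𝓝 (rr T T)) := by
      have hc : Continuous (rr T) := by
        unfold rr
        fun_prop
      exact (hc.tendsto T).comp hlim
    have h2 : rr T T = 0 := by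
      unfold rr
      simp
    rw [h2] at h1
    simpa using h1.const_mul K
  have hc : CauchySeq (fun n => f (u n)) := by
    refine cauchySeq_of_le_tendsto_0 (fun n => 2 * (K * rr T (u n))) ?_ (by simpa using hrr.const_mul 2)
    intro n m N hn hm
    have h1 := h (u N) (hmem N) (u n) ⟨hmono hn, (hmem n).2⟩
    have h2 := h (u N) (hmem N) (u m) ⟨hmono hm, (hmem m).2⟩
    rw [Real.dist_eq]
    have : f (u n) - f (u m) = (f (u n) - f (u N)) - (f (u m) - f (u N)) := by ring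
    rw [this]
    exact (abs_sub _ _).trans (by linarith)
  obtain ⟨y, hy⟩ := cauchySeq_tendsto_of_complete hc
  refine ⟨y, fun s hs => ?_⟩
  have h1 : Tendsto (fun n => |f s - f (u n)|) atTop (𝓝 |f s - y|) :=
    (tendsto_const_nhds.sub hy).abs
  refine le_of_tendsto h1 ?_
  have h2 : ∀ᶠ n in atTop, s < u n := hlim.eventually (lt_mem_nhds hs.2)
  filter_upwards [h2] with n hn
  rw [abs_sub_comm]
  exact h s hs (u n) ⟨hn.le, (hmem n).2⟩

/-- everything known about the flow at two times `s ≤ t` -/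
structure MPair (st : Star) {T0 : ℝ} (F : Flow 0 T0 1) (T C η r0 s t ys yt : ℝ) : Prop where
  ys_le : |ys| ≤ C * η * r0
  yt_le : |yt| ≤ C * η * r0
  diff : |yt - ys| ≤ C * η * rr T s
  near_s : Near st η (F.raw (rr T s) ys s)
  near_t : Near st η (F.raw (rr T t) yt t)
  D_t : (F.raw (rr T t) yt t).D (1 / rr T t) ≤ η ^ 2
  th_t : ∀ σ ∈ Icc (0:ℝ) 1, |F.th 2 t σ| ≤ η

/-- the area law along the flow -/
theorem main_area {T0 T : ℝ} (hT0 : 0 < T0) (F : Flow 0 T0 1) (I : Init 1)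
    (hS : StartsAt F I) (hA : I.area = 2 * Real.pi / 3 * T) :
    ∀ t ∈ Ioo 0 T0, F.area t = 2 * Real.pi / 3 * (T - t) := by
  have hconst : ∀ s ∈ Ioo 0 T0, ∀ t ∈ Ioo 0 T0,
      F.area s + 2 * Real.pi / 3 * s = F.area t + 2 * Real.pi / 3 * t := by
    intro s hs t ht
    have hd : ∀ x ∈ Ioo 0 T0, HasDerivAt (fun τ => F.area τ + 2 * Real.pi / 3 * τ) 0 x := by
      intro x hx
      have h1 := (area_deriv F hx).add ((hasDerivAt_id x).const_mul (2 * Real.pi / 3))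
      have h2 : (-(2 * Real.pi / 3) + 2 * Real.pi / 3 * 1 : ℝ) = 0 := by ring
      rw [h2] at h1
      exact h1
    exact (convex_Ioo (0:ℝ) T0).is_const_of_fderivWithin_eq_zero (𝕜 := ℝ)
      (fun x hx => (hd x hx).differentiableAt.differentiableWithinAt)
      (fun x hx => by
        have := (hd x hx).hasFDerivAt.hasFDerivWithinAt (s := Ioo 0 T0)
        rw [this.fderivWithin ((isOpen_Ioo.uniqueDiffWithinAt hx))]
        ext
        simp) hs ht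
  intro t ht
  have h1 : Tendsto (fun s => F.area s + 2 * Real.pi / 3 * s) (𝓝[>] 0)
      (𝓝 (I.area + 2 * Real.pi / 3 * 0)) := by
    refine (area_limit hT0 F I hS).add ?_
    have : Continuous (fun s : ℝ => 2 * Real.pi / 3 * s) := by fun_prop
    exact (this.tendsto 0).mono_left nhdsWithin_le_nhds
  have h2 : Tendsto (fun s => F.area s + 2 * Real.pi / 3 * s) (𝓝[>] 0)
      (𝓝 (F.area t + 2 * Real.pi / 3 * t)) := by
    refine tendsto_const_nhds.congr' ?_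
    filter_upwards [Ioo_mem_nhdsGT hT0] with s hs
    exact hconst t ht s hs
  have h3 := tendsto_nhds_unique h1 h2
  rw [hA] at h3
  linarith

/-- closeness at all pairs of times -/
theorem main_pair (st : Star) {T0 T : ℝ} (hT0 : 0 < T0) (hT : T0 ≤ T) (F : Flow 0 T0 1)
    (I : Init 1) (hS : StartsAt F I) {δ r1 C η : ℝ} (hδ : 0 < δ)
    (hC : 0 < C) (hη : 0 < η)
    (hp : ∀ (a b : ℝ) (F : Flow a b 1) (T : ℝ), b ≤ T → a < b → rr T a ≤ r1 →
      (∀ t ∈ Ioo a b, F.area t = 2 * Real.pi / 3 * (T - t)) →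
      ∀ t1 ∈ Ioo a b, Near st δ (F.raw (rr T t1) 0 t1) →
        (F.raw (rr T t1) 0 t1).D (1 / rr T t1) ≤ δ →
        (∀ σ ∈ Icc (0:ℝ) 1, |F.th 2 t1 σ| ≤ δ) →
        F.ell 2 t1 * (∫ σ in (0:ℝ)..1, F.k 2 t1 σ ^ 2 * chf (F.X 2 t1 σ) ^ 2) ≤ 1 →
        ∀ t2 ∈ Ioo t1 b, ∃ y0 : ℝ → ℝ, y0 t1 = 0 ∧
          (∀ s ∈ Icc t1 t2, ∀ t ∈ Icc s t2, |y0 t - y0 s| ≤ C * η * rr T s) ∧
          ∀ t ∈ Icc t1 t2, Near st η (F.raw (rr T t) (y0 t) t) ∧
            (F.raw (rr T t) (y0 t) t).D (1 / rr T t) ≤ η ^ 2 ∧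
            (∀ σ ∈ Icc (0:ℝ) 1, |F.th 2 t σ| ≤ η))
    (hr : rr T 0 ≤ r1) (hA : ∀ t ∈ Ioo 0 T0, F.area t = 2 * Real.pi / 3 * (T - t))
    (hN : Near st 0 (I.raw (rr T 0) 0)) (hD : (I.raw (rr T 0) 0).D (1 / rr T 0) ≤ δ / 2)
    (hth : ∀ σ ∈ Icc (0:ℝ) 1, |I.th 2 σ| ≤ δ / 2)
    (hk : ∀ σ ∈ Icc (0:ℝ) 1, 1 / 16 ≤ I.X 2 σ → I.k 2 σ = 0) :
    ∀ s ∈ Ioo 0 T0, ∀ t ∈ Ico s T0, ∃ ys yt, MPair st F T C η (rr T 0) s t ys yt := by
  intro s hs t ht
  have hev := start_close st hT0 hT F I hS hδ hN hD hth hk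
  have hev2 : ∀ᶠ t1 in 𝓝[>] (0:ℝ), t1 ∈ Ioo 0 s := Ioo_mem_nhdsGT hs.1
  obtain ⟨t1, ⟨h1, h2, h3, h4⟩, ht1⟩ := (hev.and hev2).exists
  have ht1' : t1 ∈ Ioo 0 T0 := ⟨ht1.1, ht1.2.trans hs.2⟩
  have ht2 : (t + T0) / 2 ∈ Ioo t1 T0 := ⟨by linarith [ht1.2, ht.1, ht.2], by linarith [ht.2]⟩
  obtain ⟨y0, hy0, hdiff, hall⟩ := hp 0 T0 F T hT hT0 hr hA t1 ht1' h1 h2 h3 h4 _ ht2
  have hsI : s ∈ Icc t1 ((t + T0) / 2) := ⟨ht1.2.le, by linarith [ht.1, ht.2]⟩
  have htI : t ∈ Icc t1 ((t + T0) / 2) := ⟨ht1.2.le.trans ht.1, by linarith [ht.2]⟩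
  have ht1I : t1 ∈ Icc t1 ((t + T0) / 2) := ⟨le_rfl, ht2.1.le⟩
  have hrt : rr T t1 ≤ rr T 0 := main_rr_anti ht1.1.le
  have hle : ∀ τ ∈ Icc t1 ((t + T0) / 2), |y0 τ| ≤ C * η * rr T 0 := by
    intro τ hτ
    have := hdiff t1 ht1I τ hτ
    rw [hy0, sub_zero] at this
    exact this.trans (mul_le_mul_of_nonneg_left hrt (by positivity))
  exact ⟨y0 s, y0 t, hle s hsI, hle t htI, hdiff s hsI t ⟨ht.1, htI.2⟩, (hall s hsI).1,
    (hall t htI).1, (hall t htI).2.1, (hall t htI).2.2⟩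

/-- position of the junction -/
theorem main_XJ {st : Star} {a b : ℝ} {F : Flow a b 1} {T t y0 η : ℝ} (hT : b ≤ T)
    (ht : t ∈ Ioo a b) (hη : η ≤ 0.01) (h : Near st η (F.raw (rr T t) y0 t)) :
    1.1 * rr T t ≤ F.X 2 t 0 ∧ F.X 2 t 0 ≤ 1.3 * rr T t ∧ |F.Y 2 t 0 - y0| ≤ 0.01 * rr T t := by
  have hr : 0 < rr T t := main_rr_pos (lt_of_lt_of_le ht.2 hT)
  have h0 : (0:ℝ) ∈ Icc (0:ℝ) 1 := ⟨le_rfl, zero_le_one⟩
  have hx := h.x0 0 h0
  have hy := h.y0 0 h0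
  have hsg : st.sg 0 = st.ls := by unfold Star.sg; ring
  rw [hsg] at hx hy
  have hxJ : (F.raw (rr T t) y0 t).x 0 0 = F.X 2 t 0 / rr T t := by
    show F.X 0 t 0 / rr T t = _
    rw [F.X_J 0 t ht]
  have hyJ : (F.raw (rr T t) y0 t).y 0 0 = (F.Y 2 t 0 - y0) / rr T t := by
    show (F.Y 0 t 0 - y0) / rr T t = _
    rw [F.Y_J 0 t ht]
  rw [hxJ] at hx
  rw [hyJ, st.y_ls, sub_zero] at hy
  have h1 := st.xi_lo
  have h2 := st.xi_hi
  have hx' := abs_le.1 hx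
  refine ⟨?_, ?_, ?_⟩
  · have : 1.1 ≤ F.X 2 t 0 / rr T t := by linarith [hx'.1]
    rwa [le_div_iff₀ hr] at this
  · have : F.X 2 t 0 / rr T t ≤ 1.3 := by linarith [hx'.2]
    rwa [div_le_iff₀ hr] at this
  · rw [abs_div, abs_of_pos hr, div_le_iff₀ hr] at hy
    exact hy.trans (mul_le_mul_of_nonneg_right hη hr.le)

/-- the flow, with everything that is known about it -/
structure MainData (st : Star) (C η r0 T : ℝ) (I : Init 1) (F : Flow 0 T 1) : Prop where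
  C_pos : 0 < C
  η_pos : 0 < η
  η_le : η ≤ 0.0005
  Cη : (C + 3) * η ≤ 1 / 2
  r0_pos : 0 < r0
  r0_le : r0 ≤ 1 / 100
  T_pos : 0 < T
  r0_eq : rr T 0 = r0
  starts : StartsAt F I
  graphI : I.IsGraph
  posI : I.Pos
  XI : I.X 2 0 = r0 * st.xi
  JI : 0 < I.J (fun x => zeta1 (x / r0))
  area : ∀ t ∈ Ioo 0 T, F.area t = 2 * Real.pi / 3 * (T - t)
  pair : ∀ s ∈ Ioo 0 T, ∀ t ∈ Ico s T, ∃ ys yt, MPair st F T C η r0 s t ys yt

theorem main_flow : ∃ (st : Star) (C η r0 T : ℝ) (I : Init 1) (F : Flow 0 T 1),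
    MainData st C η r0 T I F := by
  obtain ⟨st⟩ := exists_star
  obtain ⟨_, _, C, hC, hpers⟩ := persistence st
  obtain ⟨η1, hη1, r1', hr1', hsize⟩ := size_bdd st
  obtain ⟨CE, hCE, hfar⟩ := far_energy
  set η : ℝ := min (min 0.0005 η1) (1 / (2 * (C + 3))) with hηdef
  have hη : 0 < η := lt_min (lt_min (by norm_num) hη1) (by positivity)
  have hη5 : η ≤ 0.0005 := (min_le_left _ _).trans (min_le_left _ _)
  have hηη1 : η ≤ η1 := (min_le_left _ _).trans (min_le_right _ _)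
  have hηC : (C + 3) * η ≤ 1 / 2 := by
    have h1 : η ≤ 1 / (2 * (C + 3)) := min_le_right _ _
    have h2 : 0 < C + 3 := by linarith
    calc (C + 3) * η ≤ (C + 3) * (1 / (2 * (C + 3))) := mul_le_mul_of_nonneg_left h1 h2.le
      _ = 1 / 2 := by field_simp
  obtain ⟨δ, hδ, r1, hr1, hp⟩ := hpers η hη
  obtain ⟨C0, hC0, hinit⟩ := exists_init st
  set ε : ℝ := min (min 1 (δ / 2)) (δ / (2 * C0)) with hεdef
  have hε : 0 < ε := lt_min (lt_min one_pos (by positivity)) (by positivity)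
  have hε1 : ε ≤ 1 := (min_le_left _ _).trans (min_le_left _ _)
  have hεδ : ε ≤ δ / 2 := (min_le_left _ _).trans (min_le_right _ _)
  have hεC : C0 * ε ^ 2 ≤ δ / 2 := by
    have h1 : ε ≤ δ / (2 * C0) := min_le_right _ _
    have h2 : ε ^ 2 ≤ ε := by nlinarith
    calc C0 * ε ^ 2 ≤ C0 * (δ / (2 * C0)) := mul_le_mul_of_nonneg_left (h2.trans h1) hC0.le
      _ = δ / 2 := by field_simp
  obtain ⟨R0, hR0, hI⟩ := hinit ε ⟨hε, hε1⟩
  set r0 : ℝ := min (min r1 r1') (min (1 / 100) (1 / R0)) with hr0def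
  have hr0 : 0 < r0 := lt_min (lt_min hr1 hr1') (lt_min (by norm_num) (by positivity))
  have hr0r1 : r0 ≤ r1 := (min_le_left _ _).trans (min_le_left _ _)
  have hr0r1' : r0 ≤ r1' := (min_le_left _ _).trans (min_le_right _ _)
  have hr0100 : r0 ≤ 1 / 100 := (min_le_right _ _).trans (min_le_left _ _)
  have hr0R : R0 ≤ 1 / r0 := by
    have h1 : r0 ≤ 1 / R0 := (min_le_right _ _).trans (min_le_right _ _)
    rw [le_div_iff₀ hr0]
    rw [le_div_iff₀ hR0] at h1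
    linarith
  obtain ⟨I, hIA, hIN, hID, hIth, hIg, hIp, hIX, hIJ, hIk⟩ := hI r0 hr0 hr0R
  set T : ℝ := r0 ^ 2 / 2 with hTdef
  have hT : 0 < T := by positivity
  have hrr0 : rr T 0 = r0 := by
    unfold rr
    rw [show 2 * (T - 0) = r0 ^ 2 by rw [hTdef]; ring, Real.sqrt_sq hr0.le]
  have hT1 : T ≤ 1 := by rw [hTdef]; nlinarith
  obtain ⟨T0, ⟨hT0, hT0T⟩, F, hS, halt⟩ := exists_flow I hT
  have hIA' : I.area = 2 * Real.pi / 3 * T := by rw [hIA, hTdef]; ring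
  have hA := main_area hT0 F I hS hIA'
  have hIN' : Near st 0 (I.raw (rr T 0) 0) := by rw [hrr0]; exact hIN
  have hID' : (I.raw (rr T 0) 0).D (1 / rr T 0) ≤ δ / 2 := by rw [hrr0]; exact hID.trans hεC
  have hIth' : ∀ σ ∈ Icc (0:ℝ) 1, |I.th 2 σ| ≤ δ / 2 := fun σ hσ => by
    rw [abs_of_nonneg (hIth σ hσ).1]
    exact (hIth σ hσ).2.trans hεδ
  have hpair := main_pair st hT0 hT0T F I hS hδ hC hη hp (by rw [hrr0]; exact hr0r1) hA hIN' hID'
    hIth' hIk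
  rw [hrr0] at hpair
  have hT0eq : T0 = T := by
    rcases halt with h | h
    · exact h
    · by_contra hne
      have hlt : T0 < T := lt_of_le_of_ne hT0T hne
      have ht1 : T0 / 4 ∈ Ioo 0 T0 := ⟨by linarith, by linarith⟩
      obtain ⟨M, hM⟩ := hsize 0 T0 F T hlt hT0 (by rw [hrr0]; exact hr0r1') hA (T0 / 4) ht1
        (fun t ht => by
          obtain ⟨ys, yt, hh⟩ := hpair (T0 / 4) ht1 t ht
          refine ⟨yt, ?_, hh.near_t.mono hηη1, hh.D_t.trans (by nlinarith), fun σ hσ =>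
            (hh.th_t σ hσ).trans (by linarith)⟩
          refine hh.yt_le.trans ?_
          have h3 : C * η ≤ 1 / 2 := by nlinarith
          nlinarith)
        ⟨F.ell 2 (T0 / 4) * (∫ σ in (0:ℝ)..1, F.k 2 (T0 / 4) σ ^ 2 *
            chf (F.X 2 (T0 / 4) σ) ^ 2) + CE, fun t ht => by
          refine hfar 0 T0 F (T0 / 4) ht1 t ht (by linarith [ht.2]) ?_ ?_
          · intro τ hτ σ hσ
            obtain ⟨ys, yt, hh⟩ := hpair (T0 / 4) ht1 τ ⟨hτ.1, lt_of_le_of_lt hτ.2 ht.2⟩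
            exact (hh.th_t σ hσ).trans (by linarith)
          · intro τ hτ
            have hτ0 : τ ∈ Ioo 0 T0 := ⟨lt_of_lt_of_le ht1.1 hτ.1, lt_of_le_of_lt hτ.2 ht.2⟩
            obtain ⟨ys, yt, hh⟩ := hpair (T0 / 4) ht1 τ ⟨hτ.1, hτ0.2⟩
            obtain ⟨h1, h2, _⟩ := main_XJ hT0T hτ0 (by linarith) hh.near_t
            have h3 : 0 < rr T τ := main_rr_pos (lt_of_lt_of_le hτ0.2 hT0T)
            have h4 : rr T τ ≤ r0 := by rw [← hrr0]; exact main_rr_anti hτ0.1.le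
            constructor
            · nlinarith
            · nlinarith⟩
      obtain ⟨t, ht, hMt⟩ := h M
      exact absurd (hM t ⟨by linarith [ht.1], ht.2⟩) (not_le.2 hMt)
  subst hT0eq
  exact ⟨st, C, η, r0, T, I, F, hC, hη, hη5, hηC, hr0, hr0100, hT, hrr0, hS, hIg, hIp, hIX, hIJ,
    hA, hpair⟩

/-- main analytic theorem: a lens collapses at time `T`, stays close to the shrinking lens, and the
curvature of the ray is unbounded near the limit point -/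
theorem main_analysis : ∃ (st : Star) (T : ℝ) (F : Flow 0 T 1) (yc : ℝ), 0 < T ∧ rr T 0 ≤ 1 / 100 ∧
    (∀ t ∈ Ioo 0 T, CB F T t st.xi) ∧ (∀ t ∈ Ioo 0 T, F.Pos t) ∧
    (∀ t ∈ Ioo 0 T, F.area t = 2 * Real.pi / 3 * (T - t)) ∧
    (∀ t ∈ Ioo 0 T, ∃ y0, |y0 - yc| ≤ rr T t ∧ Near st 0.0005 (F.raw (rr T t) y0 t)) ∧
    (∀ δ > 0, ∀ M : ℝ, ∀ s < T, ∃ t ∈ Ioo 0 T, s < t ∧ ∃ σ ∈ Icc (0:ℝ) 1,
      F.X 2 t σ ^ 2 + (F.Y 2 t σ - yc) ^ 2 < δ ^ 2 ∧ M < |F.k 2 t σ|) := by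
  obtain ⟨st, C, η, r0, T, I, F, m⟩ := main_flow
  have hC := m.C_pos
  have hη := m.η_pos
  have hη5 := m.η_le
  have hCη := m.Cη
  have hr0 := m.r0_pos
  have hT := m.T_pos
  -- centre
  have hmid : ∀ s ∈ Ioo 0 T, ∀ y0, Near st η (F.raw (rr T s) y0 s) →
      |(F.Y 0 s 1 + F.Y 1 s 1) / 2 - y0| ≤ η * rr T s := by
    intro s hs y0 hN
    have hr := main_rr_pos hs.2
    have h1 : (1:ℝ) ∈ Icc (0:ℝ) 1 := ⟨zero_le_one, le_rfl⟩
    have ha := abs_le.1 (hN.y0 1 h1)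
    have hb := abs_le.1 (hN.y1 1 h1)
    have hsg : st.sg 1 = 0 := by unfold Star.sg; ring
    rw [hsg] at ha hb
    have e0 : (F.raw (rr T s) y0 s).y 0 1 = (F.Y 0 s 1 - y0) / rr T s := rfl
    have e1 : (F.raw (rr T s) y0 s).y 1 1 = (F.Y 1 s 1 - y0) / rr T s := rfl
    rw [e0] at ha
    rw [e1] at hb
    have hsum : (F.Y 0 s 1 - y0) / rr T s + (F.Y 1 s 1 - y0) / rr T s =
        2 * (((F.Y 0 s 1 + F.Y 1 s 1) / 2 - y0) / rr T s) := by ring
    have h3 : |((F.Y 0 s 1 + F.Y 1 s 1) / 2 - y0) / rr T s| ≤ η := by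
      rw [abs_le]
      constructor <;> linarith [ha.1, ha.2, hb.1, hb.2]
    rwa [abs_div, abs_of_pos hr, div_le_iff₀ hr] at h3
  obtain ⟨yc, hyc⟩ := main_limit (f := fun s => (F.Y 0 s 1 + F.Y 1 s 1) / 2) (K := (C + 2) * η) hT
    (by positivity) (by
      intro s hs t ht
      obtain ⟨ys, yt, hh⟩ := m.pair s hs t ht
      have h1 := hmid s hs ys hh.near_s
      have h2 := hmid t ⟨hs.1.trans_le ht.1, ht.2⟩ yt hh.near_t
      have h3 := hh.diff
      have h4 : rr T t ≤ rr T s := main_rr_anti ht.1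
      have h5 : η * rr T t ≤ η * rr T s := mul_le_mul_of_nonneg_left h4 hη.le
      have e : (F.Y 0 t 1 + F.Y 1 t 1) / 2 - (F.Y 0 s 1 + F.Y 1 s 1) / 2 =
        ((F.Y 0 t 1 + F.Y 1 t 1) / 2 - yt) + (yt - ys) - ((F.Y 0 s 1 + F.Y 1 s 1) / 2 - ys) := by
        ring
      show |(F.Y 0 t 1 + F.Y 1 t 1) / 2 - (F.Y 0 s 1 + F.Y 1 s 1) / 2| ≤ _
      rw [e]
      refine (abs_sub _ _).trans ?_
      have h6 := abs_add_le ((F.Y 0 t 1 + F.Y 1 t 1) / 2 - yt) (yt - ys)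
      nlinarith)
  have hclose : ∀ t ∈ Ioo 0 T, ∃ y0, |y0 - yc| ≤ rr T t ∧ Near st η (F.raw (rr T t) y0 t) ∧
      (∀ σ ∈ Icc (0:ℝ) 1, |F.th 2 t σ| ≤ η) := by
    intro t ht
    obtain ⟨ys, yt, hh⟩ := m.pair t ht t ⟨le_rfl, ht.2⟩
    refine ⟨yt, ?_, hh.near_t, hh.th_t⟩
    have h1 := hmid t ht yt hh.near_t
    have h2 := hyc t ht
    have hr := main_rr_pos ht.2
    have e : yt - yc = ((F.Y 0 t 1 + F.Y 1 t 1) / 2 - yc) - ((F.Y 0 t 1 + F.Y 1 t 1) / 2 - yt) := by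
      ring
    rw [e]
    refine (abs_sub _ _).trans ?_
    have h3 : (C + 2) * η + η ≤ 1 := by nlinarith
    nlinarith
  have hCB : ∀ t ∈ Ioo 0 T, CB F T t st.xi := by
    intro t ht
    obtain ⟨y0, _, hN, hth⟩ := hclose t ht
    exact near_CB st F le_rfl ht (hN.mono hη5) (fun σ hσ => (hth σ hσ).trans (by linarith))
  have h01 : (0:ℝ) ∈ Icc (0:ℝ) 1 := ⟨le_rfl, zero_le_one⟩
  have hxi1 := st.xi_lo
  have hxi2 := st.xi_hi
  have hpos : ∀ t ∈ Ioo 0 T, F.Pos t := by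
    refine positivity F I m.starts (fun t ht => (hCB t ht).graph) m.graphI m.posI ?_ ?_
    · rw [m.XI]
      have h1 : (1.187:ℝ) ≤ st.xi := hxi1
      have h2 : st.xi ≤ 1.197 := hxi2
      have h3 := m.r0_le
      constructor
      · positivity
      · nlinarith
    · intro t ht
      exact ((hCB t ht).small 0 h01).trans (by norm_num)
  have hxiI : st.xi ∈ Icc (1.187:ℝ) 1.197 := ⟨hxi1, hxi2⟩
  have hrr10 : rr T 0 ≤ 1 / 10 := by rw [m.r0_eq]; exact m.r0_le.trans (by norm_num)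
  refine ⟨st, T, F, yc, hT, by rw [m.r0_eq]; exact m.r0_le, hCB, hpos, m.area, ?_, ?_⟩
  · intro t ht
    obtain ⟨y0, h1, hN, _⟩ := hclose t ht
    exact ⟨y0, h1, hN.mono hη5⟩
  · intro δ hδ M s hs
    -- a time with positive functional
    have hJl := J_limit hT le_rfl F I m.starts
    rw [m.r0_eq] at hJl
    have hev := (hJl.eventually (lt_mem_nhds m.JI)).and (Ioo_mem_nhdsGT hT)
    obtain ⟨t1, ht1J, ht1⟩ := hev.exists
    have hmono := lower_mono F le_rfl hrr10 hxiI hCB hpos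
    obtain ⟨s2, hs2, hsmall⟩ := main_rr_small (T := T) (δ := δ / 7) (by positivity)
    set t2 : ℝ := (max (max s s2) t1 + T) / 2 with ht2def
    have hmaxlt : max (max s s2) t1 < T := max_lt (max_lt hs hs2) ht1.2
    have ht2lt : t2 < T := by rw [ht2def]; linarith
    have ht2gt : max (max s s2) t1 < t2 := by rw [ht2def]; linarith
    have ht2s : s < t2 := lt_of_le_of_lt ((le_max_left _ _).trans (le_max_left _ _)) ht2gt
    have ht2s2 : s2 < t2 := lt_of_le_of_lt ((le_max_right _ _).trans (le_max_left _ _)) ht2gt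
    have ht2t1 : t1 < t2 := lt_of_le_of_lt (le_max_right _ _) ht2gt
    have ht2 : t2 ∈ Ioo 0 T := ⟨ht1.1.trans ht2t1, ht2lt⟩
    have hJ2 : 0 < F.J (fun x => zeta1 (x / rr T t2)) t2 := by
      have h1 := hmono ht1 ht2 ht2t1.le
      simp only at h1
      have hr1 : 0 < rr T t1 ^ (-1.95 : ℝ) := Real.rpow_pos_of_pos (main_rr_pos ht1.2) _
      have hr2 : 0 < rr T t2 ^ (-1.95 : ℝ) := Real.rpow_pos_of_pos (main_rr_pos ht2.2) _
      have h2 : 0 < rr T t1 ^ (-1.95 : ℝ) * F.J (fun x => zeta1 (x / rr T t1)) t1 :=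
        mul_pos hr1 ht1J
      exact (mul_pos_iff_of_pos_left hr2).1 (lt_of_lt_of_le h2 h1)
    obtain ⟨t, ht, σ, hσ, hX, hk⟩ := unbounded F hT hrr10 hxiI hCB hpos ht2 hJ2 M
    have ht0 : t ∈ Ioo 0 T := ⟨ht2.1.trans ht.1, ht.2⟩
    refine ⟨t, ht0, ht2s.trans ht.1, σ, hσ, ?_, hk⟩
    obtain ⟨y0, hy0, hN, hth⟩ := hclose t ht0
    obtain ⟨hX1, hX2, hY⟩ := main_XJ le_rfl ht0 (by linarith) hN
    have hr := main_rr_pos ht0.2
    have hrδ : rr T t < δ / 7 := hsmall t (ht2s2.trans ht.1)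
    have hcfg := raw_isCfg F le_rfl ht0 (m.area t ht0) y0
    have hray := hcfg.ray_x (ε := 0.01) (by norm_num) (fun σ hσ => (hth σ hσ).trans (by linarith))
      (σ := 0) (τ := σ) le_rfl hσ.1 hσ.2
    obtain ⟨hr1, _, hr3⟩ := hray
    have ex : ∀ σ, (F.raw (rr T t) y0 t).x 2 σ = F.X 2 t σ / rr T t := fun _ => rfl
    have ey : ∀ σ, (F.raw (rr T t) y0 t).y 2 σ = (F.Y 2 t σ - y0) / rr T t := fun _ => rfl
    have hLp : 0 ≤ (F.raw (rr T t) y0 t).L 2 * (σ - 0) := by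
      have := hcfg.L_pos 2
      have := hσ.1
      positivity
    rw [ex, ex] at hr1 hr3
    rw [ey, ey] at hr3
    have hXge : F.X 2 t 0 ≤ F.X 2 t σ := by
      have : 0 ≤ F.X 2 t σ / rr T t - F.X 2 t 0 / rr T t := le_trans (by positivity) hr1
      rw [← sub_div] at this
      have := (div_nonneg_iff.1 this)
      rcases this with h | h
      · linarith [h.1]
      · linarith [h.2]
    have hY2 : |F.Y 2 t σ - F.Y 2 t 0| ≤ 0.1 * rr T t := by
      rw [← sub_div, ← sub_div, abs_div, abs_of_pos hr] at hr3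
      have e : F.Y 2 t σ - y0 - (F.Y 2 t 0 - y0) = F.Y 2 t σ - F.Y 2 t 0 := by ring
      rw [e, div_le_iff₀ hr] at hr3
      have e2 : 1.02 * 0.01 * ((F.X 2 t σ - F.X 2 t 0) / rr T t) * rr T t =
        1.02 * 0.01 * (F.X 2 t σ - F.X 2 t 0) := by field_simp
      rw [e2] at hr3
      refine hr3.trans ?_
      nlinarith
    have hYc : |F.Y 2 t σ - yc| ≤ 1.2 * rr T t := by
      have e : F.Y 2 t σ - yc = (F.Y 2 t σ - F.Y 2 t 0) + (F.Y 2 t 0 - y0) + (y0 - yc) := by ring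
      rw [e]
      refine (abs_add_le _ _).trans ?_
      have := abs_add_le (F.Y 2 t σ - F.Y 2 t 0) (F.Y 2 t 0 - y0)
      nlinarith
    have h0X : 0 ≤ F.X 2 t σ := by nlinarith
    have hq1 : F.X 2 t σ ^ 2 ≤ (6 * rr T t) ^ 2 := by gcongr
    have hq2 : (F.Y 2 t σ - yc) ^ 2 ≤ (1.2 * rr T t) ^ 2 := by
      rw [← sq_abs]
      gcongr
    have hq3 : (7 * rr T t) ^ 2 < δ ^ 2 := by
      have : 7 * rr T t < δ := by linarith
      gcongr
    nlinarith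

end Pool.Agent.Helper15.NF
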