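import Pool.Agent.Helper15.NF.P0c

open Set MeasureTheory intervalIntegral Filter Topology

namespace Pool.Agent.Helper15.NF

namespace P0aux

section arcs
variable {x y a : ℝ → ℝ}

lemma close2 (H : IsArc 1.5 x y a (fun _ => 0)) (hy : y 0 ∈ Icc (0.61:ℝ) 0.6135)
    (ht : |y 0 - 0.611638| ≤ 0.001) {s1 : ℝ} (hs1 : s1 ∈ Icc (0:ℝ) 1.46) (ha1 : a s1 ≤ 1.0472)
    {s : ℝ} (hs : s ∈ Icc (0:ℝ) s1) :
    |hh x y a s - fq (a s)| ≤ 0.00132 ∧ |pp x y a s - fq1 (a s)| ≤ 0.00206 := by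
  have hyy : y 0 ∈ Icc (0.55:ℝ) 0.67 := ⟨by linarith [hy.1], by linarith [hy.2]⟩
  have r0 : 0 ≤ a s := p0_anonneg H hyy hs.1 (by linarith [hs.2, hs1.2])
  have r1 : a s ≤ 1.0472 := by
    have := p0_amono H hyy hs.1 hs.2 (by linarith [hs1.2])
    nlinarith [hs.2]
  obtain ⟨c1, c2⟩ := close H hy ht hs1 ha1 hs
  have a5 := F5 r0 r1
  have a6 := F6 r0 r1
  have b5 : |(y 0 - 0.611638) * fv (a s)| ≤ 0.001 * 1.001 := by
    rw [abs_mul]; exact mul_le_mul ht a5 (abs_nonneg _) (by norm_num)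
  have b6 : |(y 0 - 0.611638) * fv1 (a s)| ≤ 0.001 * 1.75 := by
    rw [abs_mul]; exact mul_le_mul ht a6 (abs_nonneg _) (by norm_num)
  rw [abs_le] at c1 c2 b5 b6 ⊢
  rw [abs_le]
  refine ⟨⟨?_, ?_⟩, ⟨?_, ?_⟩⟩ <;> linarith [c1.1, c1.2, c2.1, c2.2, b5.1, b5.2, b6.1, b6.2]

lemma length_est (H : IsArc 1.5 x y a (fun _ => 0)) (hy : y 0 ∈ Icc (0.61:ℝ) 0.6135)
    (ht : |y 0 - 0.611638| ≤ 0.001) {s1 : ℝ} (hs1 : s1 ∈ Icc (0:ℝ) 1.46) (ha1 : a s1 ≤ 1.0472) :
    |fS (a s1) - s1| ≤ 0.0035 := by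
  have hyy : y 0 ∈ Icc (0.55:ℝ) 0.67 := ⟨by linarith [hy.1], by linarith [hy.2]⟩
  have hsub : Icc 0 s1 ⊆ Icc (0:ℝ) 1.5 := Icc_subset_Icc_right (by linarith [hs1.2])
  have hfc : Continuous fS := continuous_iff_continuousAt.2 fun z => (fS_d z).continuousAt
  have hcont : ContinuousOn (fun u => fS (a u)) (Icc 0 s1) :=
    hfc.comp_continuousOn ((p0_ac H).mono hsub)
  have hb : ∀ u ∈ Ioo (0:ℝ) s1, |fS1 (a u) * hh x y a u - 1| ≤ 0.00229 := by
    intro u hu
    have hu1 : u ≤ 1.46 := by linarith [hu.2, hs1.2]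
    have r0 : 0 ≤ a u := p0_anonneg H hyy hu.1.le (by linarith)
    have r1 : a u ≤ 1.0472 := by
      have := p0_amono H hyy hu.1.le hu.2.le (by linarith [hs1.2])
      nlinarith [hu.2]
    obtain ⟨c1, -⟩ := close2 H hy ht hs1 ha1 ⟨hu.1.le, hu.2.le⟩
    have a9 := F9 r0 r1
    have a9b := F9b r0 r1
    have g1 : |fS1 (a u)| ≤ 1.64 := by
      rw [abs_le] at a9b ⊢
      constructor <;> linarith [a9b.1, a9b.2]
    have g2 : |fS1 (a u) * (hh x y a u - fq (a u))| ≤ 1.64 * 0.00132 := by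
      rw [abs_mul]; exact mul_le_mul g1 c1 (abs_nonneg _) (by norm_num)
    have e : fS1 (a u) * hh x y a u - 1 =
        (fS1 (a u) * fq (a u) - 1) + fS1 (a u) * (hh x y a u - fq (a u)) := by ring
    rw [e]
    have := abs_add_le (fS1 (a u) * fq (a u) - 1) (fS1 (a u) * (hh x y a u - fq (a u)))
    linarith
  have hd : ∀ u ∈ Ioo (0:ℝ) s1, HasDerivAt (fun u => fS (a u)) (fS1 (a u) * hh x y a u) u := by
    intro u hu
    exact (fS_d (a u)).comp u (p0_ad H ⟨hu.1, by linarith [hu.2, hs1.2]⟩)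
  have k1 := p0_mono (f := fun u => fS (a u) - (1 - 0.00229) * u)
    (f' := fun u => fS1 (a u) * hh x y a u - (1 - 0.00229) * 1) hs1.1
    (hcont.sub (by fun_prop))
    (fun u hu => (hd u hu).sub ((hasDerivAt_id u).const_mul _))
    (fun u hu => by
      have := hb u hu
      rw [abs_le] at this
      linarith [this.1])
  have k2 := p0_anti (f := fun u => fS (a u) - (1 + 0.00229) * u)
    (f' := fun u => fS1 (a u) * hh x y a u - (1 + 0.00229) * 1) hs1.1
    (hcont.sub (by fun_prop))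
    (fun u hu => (hd u hu).sub ((hasDerivAt_id u).const_mul _))
    (fun u hu => by
      have := hb u hu
      rw [abs_le] at this
      linarith [this.2])
  simp only [H.a_0, fS_0] at k1 k2
  rw [abs_le]
  constructor <;> nlinarith [hs1.1, hs1.2]

lemma fS_mono {α β : ℝ} (h0 : 0 ≤ α) (h1 : α ≤ β) (h2 : β ≤ 1.0472) : fS α ≤ fS β := by
  have hfc : Continuous fS := continuous_iff_continuousAt.2 fun z => (fS_d z).continuousAt
  refine p0_mono (f := fS) (f' := fS1) h1 hfc.continuousOn (fun z _ => fS_d z) (fun z hz => ?_)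
  have := F9b (α := z) (by linarith [hz.1]) (by linarith [hz.2])
  rw [abs_le] at this
  linarith [this.1]

lemma pi3 : 1.0471 ≤ Real.pi / 3 ∧ Real.pi / 3 ≤ 1.0472 := by
  have h1 := Real.pi_gt_d4
  have h2 := Real.pi_lt_d4
  constructor <;> linarith

lemma hit (H : IsArc 1.5 x y a (fun _ => 0)) (hy : y 0 ∈ Icc (0.61:ℝ) 0.6135)
    (ht : |y 0 - 0.611638| ≤ 0.001) :
    ∃ ls ∈ Icc (1.39:ℝ) 1.41, a ls = Real.pi / 3 := by
  obtain ⟨p1, p2⟩ := pi3
  have g5 := G5 (α := 1.0472) (by norm_num) (by norm_num)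
  have g5' := G5 p1 (by linarith)
  have hyy : y 0 ∈ Icc (0.55:ℝ) 0.67 := ⟨by linarith [hy.1], by linarith [hy.2]⟩
  rw [abs_le] at g5 g5'
  have hend : Real.pi / 3 ≤ a 1.41 := by
    by_contra hc
    push Not at hc
    have h1 := length_est H hy ht (s1 := 1.41) ⟨by norm_num, by norm_num⟩ (by linarith)
    have h2 := fS_mono (α := a 1.41) (β := 1.0472)
      (p0_anonneg H hyy (by norm_num) (by norm_num)) (by linarith) le_rfl
    rw [abs_le] at h1
    linarith [h1.1, g5.2]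
  have hiv := intermediate_value_Icc (show (0:ℝ) ≤ 1.41 by norm_num)
    ((p0_ac H).mono (Icc_subset_Icc_right (by norm_num)))
  obtain ⟨ls, hls, hals⟩ := hiv (show Real.pi / 3 ∈ Icc (a 0) (a 1.41) from
    ⟨by rw [H.a_0]; linarith, hend⟩)
  refine ⟨ls, ⟨?_, hls.2⟩, hals⟩
  have h1 := length_est H hy ht (s1 := ls) ⟨hls.1, by linarith [hls.2]⟩ (by rw [hals]; exact p2)
  rw [hals, abs_le] at h1
  linarith [h1.2, g5'.1]

/-- the value of `h` at the junction -/
lemma hJ_est (H : IsArc 1.5 x y a (fun _ => 0)) (hy : y 0 ∈ Icc (0.61:ℝ) 0.6135)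
    (ht : |y 0 - 0.611638| ≤ 0.001) {ls : ℝ} (hls : ls ∈ Icc (1.39:ℝ) 1.41)
    (hals : a ls = Real.pi / 3) :
    |hh x y a ls - (1.032365 - 0.3267 * (y 0 - 0.611638))| ≤ 0.0004 ∧
    |pp x y a ls - (0.596035 - 1.68223 * (y 0 - 0.611638))| ≤ 0.00035 := by
  obtain ⟨p1, p2⟩ := pi3
  obtain ⟨c1, c2⟩ := close H hy ht (s1 := ls) ⟨by linarith [hls.1], by linarith [hls.2]⟩
    (by rw [hals]; exact p2) (s := ls) ⟨by linarith [hls.1], le_rfl⟩
  rw [hals] at c1 c2
  have g1 := G1 p1 (by linarith)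
  have g2 := G2 p1 (by linarith)
  have g3 := G3 p1 (by linarith)
  have g4 := G4 p1 (by linarith)
  set t := y 0 - 0.611638 with hts
  have m3 : |t * (fv (Real.pi / 3) + 0.3267)| ≤ 0.001 * 0.0002 := by
    rw [abs_mul]; exact mul_le_mul ht g3 (abs_nonneg _) (by norm_num)
  have m4 : |t * (fv1 (Real.pi / 3) + 1.68223)| ≤ 0.001 * 0.0001 := by
    rw [abs_mul]; exact mul_le_mul ht g4 (abs_nonneg _) (by norm_num)
  rw [abs_le] at c1 c2 g1 g2 m3 m4 ⊢
  rw [abs_le]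
  refine ⟨⟨?_, ?_⟩, ⟨?_, ?_⟩⟩ <;>
    linarith [c1.1, c1.2, c2.1, c2.2, g1.1, g1.2, g2.1, g2.2, m3.1, m3.2, m4.1, m4.2]

lemma sqrt3 : (1.73205:ℝ) ≤ Real.sqrt 3 ∧ Real.sqrt 3 ≤ 1.73206 := by
  constructor
  · apply Real.le_sqrt_of_sq_le; norm_num
  · rw [Real.sqrt_le_left (by norm_num)]; norm_num

lemma y_eq {s : ℝ} (hals : a s = Real.pi / 3) :
    y s = hh x y a s / 2 - Real.sqrt 3 / 2 * pp x y a s := by
  unfold hh pp
  rw [hals, Real.cos_pi_div_three, Real.sin_pi_div_three]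
  have : Real.sqrt 3 ^ 2 = 3 := Real.sq_sqrt (by norm_num)
  linear_combination (-(1:ℝ) / 4 * y s) * this

lemma x_eq {s : ℝ} (hals : a s = Real.pi / 3) :
    x s = Real.sqrt 3 / 2 * hh x y a s + pp x y a s / 2 := by
  unfold hh pp
  rw [hals, Real.cos_pi_div_three, Real.sin_pi_div_three]
  have : Real.sqrt 3 ^ 2 = 3 := Real.sq_sqrt (by norm_num)
  linear_combination (-(1:ℝ) / 4 * x s) * this

end arcs

/-- the shooting problem -/
lemma shoot : ∃ (x y a : ℝ → ℝ) (ls : ℝ), IsArc 1.5 x y a (fun _ => 0) ∧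
    y 0 ∈ Icc (0.61:ℝ) 0.6135 ∧ |y 0 - 0.611638| ≤ 0.001 ∧ ls ∈ Icc (1.39:ℝ) 1.41 ∧
    a ls = Real.pi / 3 ∧ y ls = 0 := by
  have hex : ∀ t : ℝ, ∃ (x y a : ℝ → ℝ) (ls : ℝ), t ∈ Icc (0.610638:ℝ) 0.612638 →
      IsArc 1.5 x y a (fun _ => 0) ∧ y 0 = t ∧ ls ∈ Icc (1.39:ℝ) 1.41 ∧ a ls = Real.pi / 3 := by
    intro t
    by_cases ht : t ∈ Icc (0.610638:ℝ) 0.612638
    · obtain ⟨x, y, a, H, h0⟩ := exists_arc t (by
        rw [abs_le]; constructor <;> linarith [ht.1, ht.2])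
      obtain ⟨ls, h1, h2⟩ := hit H (by rw [h0]; constructor <;> linarith [ht.1, ht.2])
        (by rw [h0, abs_le]; constructor <;> linarith [ht.1, ht.2])
      exact ⟨x, y, a, ls, fun _ => ⟨H, h0, h1, h2⟩⟩
    · exact ⟨0, 0, 0, 0, fun h => absurd h ht⟩
  choose X Y B L hX using hex
  obtain ⟨C, hC, hgr⟩ := arc_gronwall
  -- Lipschitz dependence of the height at the junction
  have hlip : ∀ t ∈ Icc (0.610638:ℝ) 0.612638, ∀ t' ∈ Icc (0.610638:ℝ) 0.612638,
      |Y t (L t) - Y t' (L t')| ≤ (C + C / 0.466) * |t - t'| := by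
    intro t ht t' ht'
    obtain ⟨H, h0, h1, h2⟩ := hX t ht
    obtain ⟨H', h0', h1', h2'⟩ := hX t' ht'
    have hg := hgr 1.5 (X t) (Y t) (B t) (fun _ => 0) (X t') (Y t') (B t') (fun _ => 0)
      ⟨by norm_num, le_rfl⟩ H H' continuousOn_const continuousOn_const
      (by rw [h0, abs_le]; constructor <;> linarith [ht.1, ht.2])
      (by rw [h0', abs_le]; constructor <;> linarith [ht'.1, ht'.2])
    simp only [sub_self, abs_zero, intervalIntegral.integral_zero, add_zero, h0, h0'] at hg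
    have m1 : L t' ∈ Icc (0:ℝ) 1.5 := ⟨by linarith [h1'.1], by linarith [h1'.2]⟩
    have m2 : L t ∈ Icc (0:ℝ) 1.5 := ⟨by linarith [h1.1], by linarith [h1.2]⟩
    obtain ⟨-, g2, g3⟩ := hg (L t') m1
    rw [h2'] at g3
    -- the lengths
    have hyy : Y t 0 ∈ Icc (0.55:ℝ) 0.67 := by rw [h0]; constructor <;> linarith [ht.1, ht.2]
    have hLL : 0.466 * |L t - L t'| ≤ C * |t - t'| := by
      rcases le_total (L t) (L t') with h | h
      · have := p0_amono H hyy m2.1 h m1.2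
        rw [h2] at this
        rw [abs_sub_comm, abs_of_nonneg (by linarith)]
        have h3 := le_abs_self (B t (L t') - Real.pi / 3)
        linarith
      · have := p0_amono H hyy m1.1 h m2.2
        rw [h2] at this
        rw [abs_of_nonneg (by linarith)]
        have h3 := neg_abs_le (B t (L t') - Real.pi / 3)
        linarith
    have hYY : |Y t (L t) - Y t (L t')| ≤ |L t - L t'| := by
      have := Convex.norm_image_sub_le_of_norm_hasDerivWithin_le (C := 1)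
        (f := Y t) (f' := fun s => -Real.sin (B t s)) (s := Icc 0 1.5)
        (fun u hu => H.y_s u hu) (fun u _ => by
          rw [norm_neg, Real.norm_eq_abs]; exact Real.abs_sin_le_one _) (convex_Icc 0 1.5) m1 m2
      rwa [one_mul, Real.norm_eq_abs, Real.norm_eq_abs] at this
    have htri : |Y t (L t) - Y t' (L t')| ≤ |Y t (L t) - Y t (L t')| + |Y t (L t') - Y t' (L t')| :=
      abs_sub_le _ _ _
    have h5 : |L t - L t'| ≤ C / 0.466 * |t - t'| := by
      rw [div_mul_eq_mul_div, le_div_iff₀ (by norm_num)]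
      linarith
    linarith
  have hcont : ContinuousOn (fun t => Y t (L t)) (Icc (0.610638:ℝ) 0.612638) := by
    have hK : (0:ℝ) ≤ C + C / 0.466 := by positivity
    have : LipschitzOnWith (Real.toNNReal (C + C / 0.466)) (fun t => Y t (L t))
        (Icc (0.610638:ℝ) 0.612638) := by
      apply LipschitzOnWith.of_dist_le_mul
      intro t ht t' ht'
      rw [Real.dist_eq, Real.dist_eq, Real.coe_toNNReal _ hK]
      exact hlip t ht t' ht'
    exact this.continuousOn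
  obtain ⟨q1, q2⟩ := sqrt3
  have hval : ∀ t ∈ Icc (0.610638:ℝ) 0.612638,
      |Y t (L t) - 1.293 * (t - 0.611638)| ≤ 0.0006 := by
    intro t ht
    obtain ⟨H, h0, h1, h2⟩ := hX t ht
    have hm : Y t 0 ∈ Icc (0.61:ℝ) 0.6135 := by rw [h0]; constructor <;> linarith [ht.1, ht.2]
    have ha : |Y t 0 - 0.611638| ≤ 0.001 := by
      rw [h0, abs_le]; constructor <;> linarith [ht.1, ht.2]
    obtain ⟨e1, e2⟩ := hJ_est H hm ha h1 h2
    rw [y_eq (x := X t) (y := Y t) (a := B t) h2]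
    rw [h0] at e1 e2 ha
    set h := hh (X t) (Y t) (B t) (L t)
    set p := pp (X t) (Y t) (B t) (L t)
    have e3 : |Real.sqrt 3 / 2 * (p - (0.596035 - 1.68223 * (t - 0.611638)))| ≤
        1.73206 / 2 * 0.00035 := by
      rw [abs_mul, abs_of_pos (by positivity)]
      exact mul_le_mul (by linarith) e2 (abs_nonneg _) (by norm_num)
    have e4 : |(Real.sqrt 3 / 2 - 0.866027) * (0.596035 - 1.68223 * (t - 0.611638))| ≤
        0.00001 * 0.6 := by
      rw [abs_mul]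
      refine mul_le_mul ?_ ?_ (abs_nonneg _) (by norm_num)
      · rw [abs_le]; constructor <;> linarith
      · rw [abs_le] at ha ⊢; constructor <;> linarith [ha.1, ha.2]
    rw [abs_le] at e1 e3 e4 ha ⊢
    constructor <;> nlinarith [e1.1, e1.2, e3.1, e3.2, e4.1, e4.2, ha.1, ha.2]
  have hlo : Y 0.610638 (L 0.610638) ≤ 0 := by
    have := hval 0.610638 ⟨le_rfl, by norm_num⟩
    rw [abs_le] at this
    linarith [this.2]
  have hhi : 0 ≤ Y 0.612638 (L 0.612638) := by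
    have := hval 0.612638 ⟨by norm_num, le_rfl⟩
    rw [abs_le] at this
    linarith [this.1]
  obtain ⟨t, ht, hYt⟩ := intermediate_value_Icc (show (0.610638:ℝ) ≤ 0.612638 by norm_num) hcont
    (show (0:ℝ) ∈ Icc (Y 0.610638 (L 0.610638)) (Y 0.612638 (L 0.612638)) from ⟨hlo, hhi⟩)
  obtain ⟨H, h0, h1, h2⟩ := hX t ht
  refine ⟨X t, Y t, B t, L t, H, ?_, ?_, h1, h2, hYt⟩
  · rw [h0]; constructor <;> linarith [ht.1, ht.2]
  · rw [h0, abs_le]; constructor <;> linarith [ht.1, ht.2]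

lemma cpol_lip {u w : ℝ} (hu0 : 0 ≤ u) (hu : u ≤ 1.2) (hw0 : 0 ≤ w) (hw : w ≤ 1.2) :
    |cpol u - cpol w| ≤ 1.8 * |u - w| := by
  have e : cpol u - cpol w = (u - w) * (-(0.378 * (u + w) + 0.0627 * ((u + w) * (u ^ 2 + w ^ 2)) +
      0.0297 * ((u + w) * (u ^ 4 + u ^ 2 * w ^ 2 + w ^ 4)))) := by
    unfold cpol; ring
  rw [e, abs_mul, mul_comm]
  apply mul_le_mul_of_nonneg_right _ (abs_nonneg _)
  rw [abs_neg, abs_of_nonneg (by positivity)]
  have u2 : u ^ 2 ≤ 1.2 ^ 2 := pow_le_pow_left₀ hu0 hu 2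
  have w2 : w ^ 2 ≤ 1.2 ^ 2 := pow_le_pow_left₀ hw0 hw 2
  have u4 : u ^ 4 ≤ 1.2 ^ 4 := pow_le_pow_left₀ hu0 hu 4
  have w4 : w ^ 4 ≤ 1.2 ^ 4 := pow_le_pow_left₀ hw0 hw 4
  have uw : u ^ 2 * w ^ 2 ≤ 1.2 ^ 2 * 1.2 ^ 2 := mul_le_mul u2 w2 (sq_nonneg _) (by norm_num)
  have a1 : (u + w) * (u ^ 2 + w ^ 2) ≤ 2.4 * 2.88 :=
    mul_le_mul (by linarith) (by norm_num at u2 w2 ⊢; linarith) (by positivity) (by norm_num)
  have a2 : (u + w) * (u ^ 4 + u ^ 2 * w ^ 2 + w ^ 4) ≤ 2.4 * 6.2208 :=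
    mul_le_mul (by linarith) (by norm_num at u4 w4 uw ⊢; linarith) (by positivity) (by norm_num)
  norm_num at *
  linarith

end P0aux

open P0aux in
/-- P : existence of the lens profile with certified bounds -/
theorem exists_star : Nonempty Star := by
  obtain ⟨x, y, a, ls, H, hy, ht, hls, hals, hyls⟩ := shoot
  obtain ⟨p1, p2⟩ := pi3
  obtain ⟨q1, q2⟩ := sqrt3
  have hyy : y 0 ∈ Icc (0.55:ℝ) 0.67 := ⟨by linarith [hy.1], by linarith [hy.2]⟩
  have hls0 : ls ∈ Icc (0:ℝ) 1.46 := ⟨by linarith [hls.1], by linarith [hls.2]⟩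
  have hal : a ls ≤ 1.0472 := by rw [hals]; exact p2
  obtain ⟨e1, e2⟩ := hJ_est H hy ht hls hals
  have hrange : ∀ u ∈ Icc (0:ℝ) ls, 0 ≤ a u ∧ a u ≤ 1.0472 := by
    intro u hu
    refine ⟨p0_anonneg H hyy hu.1 (by linarith [hu.2, hls.2]), ?_⟩
    have := p0_amono H hyy hu.1 hu.2 (by linarith [hls.2])
    nlinarith [hu.2]
  have hxl : |x ls - 1.19207| ≤ 0.004 := by
    rw [x_eq (x := x) (y := y) (a := a) hals]
    set h := hh x y a ls
    set p := pp x y a ls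
    have f1 : |h - 1.032365| ≤ 0.001 := by
      rw [abs_le] at e1 ht ⊢
      constructor <;> linarith [e1.1, e1.2, ht.1, ht.2]
    have f2 : |p - 0.596035| ≤ 0.0022 := by
      rw [abs_le] at e2 ht ⊢
      constructor <;> linarith [e2.1, e2.2, ht.1, ht.2]
    have f3 : |Real.sqrt 3 / 2 * (h - 1.032365)| ≤ 1.73206 / 2 * 0.001 := by
      rw [abs_mul, abs_of_pos (by positivity)]
      exact mul_le_mul (by linarith) f1 (abs_nonneg _) (by norm_num)
    rw [abs_le] at f2 f3 ⊢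
    constructor <;> linarith [f2.1, f2.2, f3.1, f3.2]
  -- `x` is increasing
  have hxmono : ∀ s ∈ Icc (0:ℝ) ls, 0 ≤ x s ∧ x s ≤ x ls := by
    intro s hs
    have hcos : ∀ u ∈ Icc (0:ℝ) ls, 0 ≤ Real.cos (a u) := by
      intro u hu
      obtain ⟨r0, r1⟩ := hrange u hu
      apply Real.cos_nonneg_of_mem_Icc
      have := Real.pi_gt_d4
      constructor <;> linarith
    have m1 := p0_mono (f := x) (f' := fun u => Real.cos (a u)) hs.1
      ((p0_xc H).mono (Icc_subset_Icc_right (by linarith [hs.2, hls.2])))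
      (fun u hu => p0_xd H ⟨hu.1, by linarith [hu.2, hs.2, hls.2]⟩)
      (fun u hu => hcos u ⟨hu.1.le, by linarith [hu.2, hs.2]⟩)
    have m2 := p0_mono (f := x) (f' := fun u => Real.cos (a u)) hs.2
      ((p0_xc H).mono (Icc_subset_Icc hs.1 (by linarith [hls.2])))
      (fun u hu => p0_xd H ⟨by linarith [hu.1, hs.1], by linarith [hu.2, hls.2]⟩)
      (fun u hu => hcos u ⟨by linarith [hu.1, hs.1], hu.2.le⟩)
    rw [H.x_0] at m1
    exact ⟨m1, m2⟩
  have hhb : ∀ s ∈ Icc (0:ℝ) ls, |hh x y a s - 0.822| ≤ 0.2135 := by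
    intro s hs
    obtain ⟨r0, r1⟩ := hrange s hs
    obtain ⟨c1, -⟩ := close2 H hy ht hls0 hal hs
    have f4 := F4 r0 r1
    rw [abs_le] at c1 f4 ⊢
    constructor <;> linarith [c1.1, c1.2, f4.1, f4.2]
  refine ⟨⟨x, y, a, ls, H, ?_, ?_, hls.1, hls.2, hals, hyls, ?_, ?_, ?_, ?_, ?_⟩⟩
  · linarith [hy.1]
  · exact hy.2
  · rw [abs_le] at hxl; linarith [hxl.1]
  · rw [abs_le] at hxl; linarith [hxl.2]
  · intro s hs
    have := hhb s hs
    unfold hh at this
    rw [abs_le] at this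
    linarith [this.1]
  · intro s hs
    have := hhb s hs
    unfold hh at this
    rw [abs_le] at this
    linarith [this.2]
  · intro s hs
    obtain ⟨r0, r1⟩ := hrange s hs
    obtain ⟨c1, c2⟩ := close2 H hy ht hls0 hal hs
    have f4 := F4 r0 r1
    have f6 := F6b r0 r1
    have f7 := F7 r0 r1
    have f8 := F8 r0 r1
    have tc := cos_fC r0 r1
    have tn := sin_fN r0 r1
    obtain ⟨x0, x1⟩ := hxmono s hs
    have ex : x s = pp x y a s * Real.cos (a s) + hh x y a s * Real.sin (a s) := by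
      unfold hh pp
      have := Real.sin_sq_add_cos_sq (a s)
      linear_combination (-x s) * this
    set α := a s with hα
    set h := hh x y a s
    set p := pp x y a s
    have g1 : |(p - fq1 α) * Real.cos α| ≤ 0.00206 * 1 := by
      rw [abs_mul]; exact mul_le_mul c2 (Real.abs_cos_le_one _) (abs_nonneg _) (by norm_num)
    have g2 : |(h - fq α) * Real.sin α| ≤ 0.00132 * 1 := by
      rw [abs_mul]; exact mul_le_mul c1 (Real.abs_sin_le_one _) (abs_nonneg _) (by norm_num)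
    have g3 : |fq1 α * (Real.cos α - fC α)| ≤ 0.598 * 0.00004 := by
      rw [abs_mul]; exact mul_le_mul f6 tc (abs_nonneg _) (by norm_num)
    have g4 : |fq α * (Real.sin α - fN α)| ≤ 1.04 * 0.00001 := by
      rw [abs_mul]
      refine mul_le_mul ?_ tn (abs_nonneg _) (by norm_num)
      rw [abs_le] at f4 ⊢
      constructor <;> linarith [f4.1, f4.2]
    have hxx : |x s - fx α| ≤ 0.0036 := by
      have e : x s - fx α = (p - fq1 α) * Real.cos α + (h - fq α) * Real.sin α +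
          fq1 α * (Real.cos α - fC α) + fq α * (Real.sin α - fN α) +
          (fq1 α * fC α + fq α * fN α - fx α) := by rw [ex]; ring
      rw [e]
      rw [abs_le] at g1 g2 g3 g4 f7 ⊢
      constructor <;> linarith [g1.1, g1.2, g2.1, g2.2, g3.1, g3.2, g4.1, g4.2, f7.1, f7.2]
    have hxl2 : x ls ≤ 1.1961 := by rw [abs_le] at hxl; linarith [hxl.2]
    have hcc : |Real.cos α ^ 2 - fC α ^ 2| ≤ 0.0001 := by
      have e : Real.cos α ^ 2 - fC α ^ 2 = (Real.cos α - fC α) * (2 * Real.cos α -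
        (Real.cos α - fC α)) := by ring
      rw [e, abs_mul]
      have h1 : |2 * Real.cos α - (Real.cos α - fC α)| ≤ 2.5 := by
        have h2 := Real.abs_cos_le_one α
        rw [abs_le] at h2 tc ⊢
        constructor <;> linarith [h2.1, h2.2, tc.1, tc.2]
      calc _ ≤ 0.00004 * 2.5 := mul_le_mul tc h1 (abs_nonneg _) (by norm_num)
        _ = 0.0001 := by norm_num
    by_cases hf : 0 ≤ fx α
    · have hf2 : fx α ≤ 1.2 := by rw [abs_le] at hxx; linarith [hxx.1]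
      have k := cpol_lip x0 (by linarith) hf hf2
      have e : Real.cos α ^ 2 - cpol (x s) = (Real.cos α ^ 2 - fC α ^ 2) +
        (fC α ^ 2 - cpol (fx α)) - (cpol (x s) - cpol (fx α)) := by ring
      rw [e]
      have k2 : |cpol (x s) - cpol (fx α)| ≤ 0.0065 := by
        refine k.trans ?_
        calc 1.8 * |x s - fx α| ≤ 1.8 * 0.0036 := by linarith
          _ ≤ 0.0065 := by norm_num
      rw [abs_le] at hcc f8 k2 ⊢
      constructor <;> linarith [hcc.1, hcc.2, f8.1, f8.2, k2.1, k2.2]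
    · -- `fx α` tiny
      push Not at hf
      have hx3 : x s ≤ 0.0036 := by rw [abs_le] at hxx; linarith [hxx.2]
      have hf3 : -0.0036 ≤ fx α := by rw [abs_le] at hxx; linarith [hxx.2]
      have c1' : |cpol (x s) - 1| ≤ 0.0001 := by
        have e : cpol (x s) - 1 = -(x s ^ 2 * (0.378 + 0.0627 * x s ^ 2 + 0.0297 * x s ^ 4)) := by
          unfold cpol; ring
        have b2 : x s ^ 2 ≤ 0.0036 ^ 2 := pow_le_pow_left₀ x0 hx3 2
        have b4 : x s ^ 4 ≤ 0.0036 ^ 4 := pow_le_pow_left₀ x0 hx3 4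
        rw [e, abs_neg, abs_of_nonneg (by positivity)]
        have b5 : x s ^ 2 * (0.378 + 0.0627 * x s ^ 2 + 0.0297 * x s ^ 4) ≤
          0.0036 ^ 2 * (0.378 + 0.0627 * 0.0036 ^ 2 + 0.0297 * 0.0036 ^ 4) := by gcongr
        have b6 : (0.0036:ℝ) ^ 2 * (0.378 + 0.0627 * 0.0036 ^ 2 + 0.0297 * 0.0036 ^ 4) ≤
          0.0001 := by norm_num
        exact b5.trans b6
      have c2' : |cpol (fx α) - 1| ≤ 0.0001 := by
        have e : cpol (fx α) - 1 =
          -(fx α ^ 2 * (0.378 + 0.0627 * fx α ^ 2 + 0.0297 * fx α ^ 4)) := by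
          unfold cpol; ring
        have hab : |fx α| ≤ 0.0036 := by rw [abs_le]; constructor <;> linarith
        have b2 : fx α ^ 2 ≤ 0.0036 ^ 2 := by
          rw [← sq_abs]; exact pow_le_pow_left₀ (abs_nonneg _) hab 2
        have b4 : fx α ^ 4 ≤ 0.0036 ^ 4 := by
          have : fx α ^ 4 = |fx α| ^ 4 := by rw [← abs_pow, abs_of_nonneg (by positivity)]
          rw [this]; exact pow_le_pow_left₀ (abs_nonneg _) hab 4
        rw [e, abs_neg, abs_of_nonneg (by positivity)]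
        have b5 : fx α ^ 2 * (0.378 + 0.0627 * fx α ^ 2 + 0.0297 * fx α ^ 4) ≤
          0.0036 ^ 2 * (0.378 + 0.0627 * 0.0036 ^ 2 + 0.0297 * 0.0036 ^ 4) := by gcongr
        have b6 : (0.0036:ℝ) ^ 2 * (0.378 + 0.0627 * 0.0036 ^ 2 + 0.0297 * 0.0036 ^ 4) ≤
          0.0001 := by norm_num
        exact b5.trans b6
      have e : Real.cos α ^ 2 - cpol (x s) = (Real.cos α ^ 2 - fC α ^ 2) +
        (fC α ^ 2 - cpol (fx α)) + (cpol (fx α) - 1) - (cpol (x s) - 1) := by ring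
      rw [e]
      rw [abs_le] at hcc f8 c1' c2' ⊢
      constructor <;>
        linarith [hcc.1, hcc.2, f8.1, f8.2, c1'.1, c1'.2, c2'.1, c2'.2]

end Pool.Agent.Helper15.NF
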