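import Mathlib

namespace Pool.Agent.Helper15.NF.P0aux

/-- evaluation of an integer polynomial -/
noncomputable def ev : List ℤ → ℝ → ℝ
  | [], _ => 0
  | a :: l, x => (a : ℝ) + x * ev l x

def addL : List ℤ → List ℤ → List ℤ
  | [], m => m
  | a :: l, [] => a :: l
  | a :: l, b :: m => (a + b) :: addL l m

def smL (c : ℤ) : List ℤ → List ℤ
  | [] => []
  | a :: l => (c * a) :: smL c l

def mulL : List ℤ → List ℤ → List ℤ
  | [], _ => []
  | a :: l, m => addL (smL a m) (0 :: mulL l m)

def dL : List ℤ → List ℤ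
  | [] => []
  | _ :: l => addL l (0 :: dL l)

/-- `shift c l` evaluates at `t` to `l (c + t)` -/
def shift (c : ℤ) : List ℤ → List ℤ
  | [] => []
  | a :: l => addL [a] (addL (smL c (shift c l)) (0 :: shift c l))

def resc (D : ℤ) : List ℤ → List ℤ
  | [] => []
  | a :: l => (a * D ^ (l.length + 1)) :: resc D l

def bd (R : ℤ) : List ℤ → ℤ
  | [] => 0
  | a :: l => |a| + R * bd R l

lemma ev_add (l m : List ℤ) (x : ℝ) : ev (addL l m) x = ev l x + ev m x := by
  induction l generalizing m with
  | nil => simp [addL, ev]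
  | cons a l ih =>
    cases m with
    | nil => simp [addL, ev]
    | cons b m => simp only [addL, ev, ih]; push_cast; ring

lemma ev_sm (c : ℤ) (l : List ℤ) (x : ℝ) : ev (smL c l) x = c * ev l x := by
  induction l with
  | nil => simp [smL, ev]
  | cons a l ih => simp only [smL, ev, ih]; push_cast; ring

lemma ev_mul (l m : List ℤ) (x : ℝ) : ev (mulL l m) x = ev l x * ev m x := by
  induction l with
  | nil => simp [mulL, ev]
  | cons a l ih => simp only [mulL, ev_add, ev_sm, ev, ih]; push_cast; ring

lemma ev_deriv (l : List ℤ) (x : ℝ) : HasDerivAt (ev l) (ev (dL l) x) x := by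
  induction l with
  | nil =>
    have : ev [] = fun _ => (0:ℝ) := by funext y; rfl
    rw [this]
    exact hasDerivAt_const x (0:ℝ)
  | cons a l ih =>
    have h : ev (a :: l) = fun y => (a : ℝ) + y * ev l y := by funext y; rfl
    rw [h]
    have h1 := (hasDerivAt_const x (a:ℝ)).add ((hasDerivAt_id x).mul ih)
    refine h1.congr_deriv ?_
    simp only [dL, ev_add, ev, id]
    push_cast
    ring

lemma ev_shift (c : ℤ) (l : List ℤ) (t : ℝ) : ev (shift c l) t = ev l (c + t) := by
  induction l with
  | nil => simp [shift, ev]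
  | cons a l ih => simp only [shift, ev_add, ev_sm, ev, ih]; push_cast; ring

lemma ev_resc (D : ℤ) (l : List ℤ) (x : ℝ) :
    ev (resc D l) (D * x) = (D:ℝ) ^ l.length * ev l x := by
  induction l with
  | nil => simp [resc, ev]
  | cons a l ih => simp only [resc, ev, ih, List.length_cons]; push_cast; ring

lemma ev_bd (R : ℤ) (l : List ℤ) (t : ℝ) (ht : |t| ≤ R) : |ev l t| ≤ bd R l := by
  have hR : (0:ℝ) ≤ R := (abs_nonneg t).trans ht
  induction l with
  | nil => simp [bd, ev]
  | cons a l ih =>
    simp only [bd, ev]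
    push_cast
    calc |(a:ℝ) + t * ev l t| ≤ |(a:ℝ)| + |t * ev l t| := abs_add_le _ _
      _ = |(a:ℝ)| + |t| * |ev l t| := by rw [abs_mul]
      _ ≤ |(a:ℝ)| + R * bd R l := by
          have := mul_le_mul ht ih (abs_nonneg _) hR
          linarith

/-- one cell -/
def cell (l : List ℤ) (D C R M : ℤ) : Bool :=
  decide (bd R (shift C (resc D l)) ≤ M * D ^ l.length)

lemma cell_sound {l : List ℤ} {D C R M : ℤ} (hD : 0 < D) (h : cell l D C R M = true) {x : ℝ}
    (hx : |D * x - C| ≤ R) : |ev l x| ≤ M := by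
  have h1 := of_decide_eq_true h
  have h2 := ev_bd R (shift C (resc D l)) (D * x - C) hx
  rw [ev_shift, add_sub_cancel, ev_resc] at h2
  have hDR : (0:ℝ) < (D:ℝ) ^ l.length := by positivity
  rw [abs_mul, abs_of_pos hDR] at h2
  have h3 : ((bd R (shift C (resc D l)) : ℤ) : ℝ) ≤ (M:ℝ) * (D:ℝ) ^ l.length := by
    exact_mod_cast h1
  have h4 : (D:ℝ) ^ l.length * |ev l x| ≤ (D:ℝ) ^ l.length * M := by
    rw [mul_comm _ (M:ℝ)]
    exact h2.trans h3
  exact le_of_mul_le_mul_left h4 hDR

/-- all cells with centres `(2 i + 1) R / D` -/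
def cells (l : List ℤ) (D R M : ℤ) : ℕ → Bool
  | 0 => true
  | n + 1 => cell l D ((2 * n + 1) * R) R M && cells l D R M n

lemma cells_sound {l : List ℤ} {D R M : ℤ} (hD : 0 < D) :
    ∀ {n : ℕ}, cells l D R M n = true → ∀ {x : ℝ}, 0 ≤ x → D * x ≤ 2 * n * R → |ev l x| ≤ M ∨ n = 0
  | 0, _, _, _, _ => Or.inr rfl
  | n + 1, h, x, hx0, hx => by
    rw [cells, Bool.and_eq_true] at h
    by_cases hc : D * x ≤ 2 * n * R
    · rcases cells_sound hD h.2 hx0 hc with h1 | h1
      · exact Or.inl h1
      · subst h1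
        left
        apply cell_sound hD h.1
        have hDx : (0:ℝ) ≤ D * x := mul_nonneg (by exact_mod_cast hD.le) hx0
        push_cast at hx hc ⊢
        rw [abs_le]
        constructor <;> linarith
    · left
      apply cell_sound hD h.1
      push_cast at hx hc ⊢
      push Not at hc
      rw [abs_le]
      constructor <;> linarith

lemma chk {l : List ℤ} {M : ℤ} (h : cells l 400 5 M 42 = true) {x : ℝ} (hx0 : 0 ≤ x)
    (hx : x ≤ 1.0472) : |ev l x| ≤ M := by
  rcases cells_sound (by norm_num) h hx0 (by push_cast; norm_num; linarith) with h1 | h1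
  · exact h1
  · exact absurd h1 (by norm_num)

lemma chk1 {l : List ℤ} {M : ℤ} (h : cell l 10000 10472 1 M = true) {x : ℝ} (hx0 : 1.0471 ≤ x)
    (hx : x ≤ 1.0473) : |ev l x| ≤ M := by
  apply cell_sound (by norm_num) h
  push_cast
  rw [abs_le]
  constructor <;> linarith

def pq : List ℤ := [611638000, 0, 511657306, 0, -156595613, 0, 57135022, 0, -32394510, 0, 20866238,
  0, -12307968, 0, 5592170, 0, -1630241, 0, 221250]
def pv : List ℤ := [100000, 0, -182986, 0, 88040, 0, -43495, 0, 16939, 0, -3162]
def px : List ℤ := [0, 163481, 0, -72175, 0, 40913, 0, -20599, 0, 5166]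
def pS : List ℤ := [0, 16347932, 0, -4523160, 0, 2875259, 0, -1749562, 0, 739559, 0, -145894]
def pC : List ℤ := [5040, 0, -2520, 0, 210, 0, -7]
def pN : List ℤ := [0, 5040, 0, -840, 0, 42, 0, -1]

/-- `q q'' + q² - 1` -/
def k1 : List ℤ := addL (addL (mulL pq (dL (dL pq))) (mulL pq pq)) [-1000000000000000000]
def k2 : List ℤ := addL (addL (mulL pv (dL (dL pq))) (mulL pq (dL (dL pv)))) (smL 2 (mulL pq pv))
def k3 : List ℤ := addL (mulL pv (dL (dL pv))) (mulL pv pv)
def k4 : List ℤ := addL pq [-822000000]
def k7 : List ℤ := addL (addL (mulL (dL pq) pC) (mulL pq pN)) (smL (-50400000) px)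
def px2 : List ℤ := mulL px px
def px4 : List ℤ := mulL px2 px2
def px6 : List ℤ := mulL px4 px2
def k8 : List ℤ := addL (smL (10 ^ 34) (mulL pC pC))
  (smL (-25401600) (addL (addL (addL [10 ^ 34] (smL (-378 * 10 ^ 21) px2))
    (smL (-627 * 10 ^ 10) px4)) (smL (-297) px6)))
def k9 : List ℤ := addL (mulL (dL pS) pq) [-10000000000000000]
def k9b : List ℤ := addL (dL pS) [-13000000]

lemma c1 : cells k1 400 5 2200000000000 42 = true := by decide +kernel
lemma c2 : cells k2 400 5 830000000000 42 = true := by decide +kernel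
lemma c3 : cells k3 400 5 26700000000 42 = true := by decide +kernel
lemma c4 : cells k4 400 5 212100000 42 = true := by decide +kernel
lemma cv : cells pv 400 5 100100 42 = true := by decide +kernel
lemma cv1 : cells (dL pv) 400 5 175000 42 = true := by decide +kernel
lemma cq1 : cells (dL pq) 400 5 598000000 42 = true := by decide +kernel
lemma c7 : cells k7 400 5 504000000 42 = true := by decide +kernel
lemma c8 : cells k8 400 5 (10 ^ 34 * 27941) 42 = true := by decide +kernel
lemma c9 : cells k9 400 5 1200000000000 42 = true := by decide +kernel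
lemma c9b : cells k9b 400 5 3400000 42 = true := by decide +kernel
lemma e1 : cell (addL pq [-1032365000]) 10000 10472 1 70000 = true := by decide +kernel
lemma e2 : cell (addL (dL pq) [-596035000]) 10000 10472 1 10000 = true := by decide +kernel
lemma e3 : cell (addL pv [32670]) 10000 10472 1 20 = true := by decide +kernel
lemma e4 : cell (addL (dL pv) [168223]) 10000 10472 1 10 = true := by decide +kernel
lemma e5 : cell (addL pS [-14007709]) 10000 10472 1 1000 = true := by decide +kernel

end Pool.Agent.Helper15.NF.P0aux
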