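import Pool.Agent.Helper15.NF.P0a
import Pool.Agent.Helper15.NF.CL1
import Pool.Agent.Helper15.NF.CL2

open Set MeasureTheory intervalIntegral Filter Topology

namespace Pool.Agent.Helper15.NF.P0aux

/-! ### the real polynomials -/

noncomputable def fq (α : ℝ) : ℝ := ev pq α / 10 ^ 9
noncomputable def fq1 (α : ℝ) : ℝ := ev (dL pq) α / 10 ^ 9
noncomputable def fq2 (α : ℝ) : ℝ := ev (dL (dL pq)) α / 10 ^ 9
noncomputable def fv (α : ℝ) : ℝ := ev pv α / 10 ^ 5
noncomputable def fv1 (α : ℝ) : ℝ := ev (dL pv) α / 10 ^ 5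
noncomputable def fv2 (α : ℝ) : ℝ := ev (dL (dL pv)) α / 10 ^ 5
noncomputable def fx (α : ℝ) : ℝ := ev px α / 10 ^ 5
noncomputable def fS (α : ℝ) : ℝ := ev pS α / 10 ^ 7
noncomputable def fS1 (α : ℝ) : ℝ := ev (dL pS) α / 10 ^ 7
noncomputable def fC (α : ℝ) : ℝ := 1 - α ^ 2 / 2 + α ^ 4 / 24 - α ^ 6 / 720
noncomputable def fN (α : ℝ) : ℝ := α - α ^ 3 / 6 + α ^ 5 / 120 - α ^ 7 / 5040

lemma fq_d (α : ℝ) : HasDerivAt fq (fq1 α) α := (ev_deriv pq α).div_const _
lemma fq1_d (α : ℝ) : HasDerivAt fq1 (fq2 α) α := (ev_deriv (dL pq) α).div_const _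
lemma fv_d (α : ℝ) : HasDerivAt fv (fv1 α) α := (ev_deriv pv α).div_const _
lemma fv1_d (α : ℝ) : HasDerivAt fv1 (fv2 α) α := (ev_deriv (dL pv) α).div_const _
lemma fS_d (α : ℝ) : HasDerivAt fS (fS1 α) α := (ev_deriv pS α).div_const _

lemma ev_pC (α : ℝ) : ev pC α = 5040 * fC α := by
  simp only [pC, ev, fC]; push_cast; ring
lemma ev_pN (α : ℝ) : ev pN α = 5040 * fN α := by
  simp only [pN, ev, fN]; push_cast; ring
lemma ev_sing (a : ℤ) (x : ℝ) : ev [a] x = a := by simp [ev]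

lemma fq_0 : fq 0 = 0.611638 := by simp only [fq, pq, ev]; norm_num
lemma fq1_0 : fq1 0 = 0 := by simp only [fq1, pq, ev, dL, addL]; norm_num
lemma fv_0 : fv 0 = 1 := by simp only [fv, pv, ev]; norm_num
lemma fv1_0 : fv1 0 = 0 := by simp only [fv1, pv, ev, dL, addL]; norm_num
lemma fS_0 : fS 0 = 0 := by simp only [fS, pS, ev]; norm_num

section
variable {α : ℝ} (h0 : 0 ≤ α) (h1 : α ≤ 1.0472)
include h0 h1

lemma F1 : |fq α * fq2 α + fq α ^ 2 - 1| ≤ 2.2e-6 := by
  have h := chk c1 h0 h1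
  have e : ev k1 α = 10 ^ 18 * (fq α * fq2 α + fq α ^ 2 - 1) := by
    simp only [k1, ev_add, ev_mul, ev_sing, fq, fq2]
    push_cast; ring
  rw [e, abs_mul, abs_of_pos (by norm_num)] at h
  push_cast at h
  linarith

lemma F2 : |fv α * fq2 α + fq α * fv2 α + 2 * fq α * fv α| ≤ 0.0083 := by
  have h := chk c2 h0 h1
  have e : ev k2 α = 10 ^ 14 * (fv α * fq2 α + fq α * fv2 α + 2 * fq α * fv α) := by
    simp only [k2, ev_add, ev_mul, ev_sm, fq, fq2, fv, fv2]
    push_cast; ring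
  rw [e, abs_mul, abs_of_pos (by norm_num)] at h
  push_cast at h
  linarith

lemma F3 : |fv α * fv2 α + fv α ^ 2| ≤ 2.67 := by
  have h := chk c3 h0 h1
  have e : ev k3 α = 10 ^ 10 * (fv α * fv2 α + fv α ^ 2) := by
    simp only [k3, ev_add, ev_mul, fv, fv2]
    push_cast; ring
  rw [e, abs_mul, abs_of_pos (by norm_num)] at h
  push_cast at h
  linarith

lemma F4 : |fq α - 0.822| ≤ 0.2121 := by
  have h := chk c4 h0 h1
  have e : ev k4 α = 10 ^ 9 * (fq α - 0.822) := by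
    simp only [k4, ev_add, ev_sing, fq]
    push_cast; ring
  rw [e, abs_mul, abs_of_pos (by norm_num)] at h
  push_cast at h
  linarith

lemma F5 : |fv α| ≤ 1.001 := by
  have h := chk cv h0 h1
  have e : ev pv α = 10 ^ 5 * fv α := by
    simp only [fv]; ring
  rw [e, abs_mul, abs_of_pos (by norm_num)] at h
  push_cast at h
  linarith

lemma F6 : |fv1 α| ≤ 1.75 := by
  have h := chk cv1 h0 h1
  have e : ev (dL pv) α = 10 ^ 5 * fv1 α := by
    simp only [fv1]; ring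
  rw [e, abs_mul, abs_of_pos (by norm_num)] at h
  push_cast at h
  linarith

lemma F6b : |fq1 α| ≤ 0.598 := by
  have h := chk cq1 h0 h1
  have e : ev (dL pq) α = 10 ^ 9 * fq1 α := by
    simp only [fq1]; ring
  rw [e, abs_mul, abs_of_pos (by norm_num)] at h
  push_cast at h
  linarith

lemma F7 : |fq1 α * fC α + fq α * fN α - fx α| ≤ 0.0001 := by
  have h := chk c7 h0 h1
  have e : ev k7 α = 5040 * 10 ^ 9 * (fq1 α * fC α + fq α * fN α - fx α) := by
    simp only [k7, ev_add, ev_mul, ev_sm, ev_pC, ev_pN, fq, fq1, fx]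
    push_cast; ring
  rw [e, abs_mul, abs_of_pos (by norm_num)] at h
  push_cast at h
  linarith

lemma F8 : |fC α ^ 2 - cpol (fx α)| ≤ 0.0011 := by
  have h := chk c8 h0 h1
  have e : ev k8 α = 10 ^ 34 * 25401600 * (fC α ^ 2 - cpol (fx α)) := by
    simp only [k8, px6, px4, px2, ev_add, ev_mul, ev_sm, ev_pC, ev_sing, fx, cpol]
    push_cast; ring
  rw [e, abs_mul, abs_of_pos (by norm_num)] at h
  push_cast at h
  linarith

lemma F9 : |fS1 α * fq α - 1| ≤ 0.00012 := by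
  have h := chk c9 h0 h1
  have e : ev k9 α = 10 ^ 16 * (fS1 α * fq α - 1) := by
    simp only [k9, ev_add, ev_mul, ev_sing, fq, fS1]
    push_cast; ring
  rw [e, abs_mul, abs_of_pos (by norm_num)] at h
  push_cast at h
  linarith

lemma F9b : |fS1 α - 1.3| ≤ 0.34 := by
  have h := chk c9b h0 h1
  have e : ev k9b α = 10 ^ 7 * (fS1 α - 1.3) := by
    simp only [k9b, ev_add, ev_sing, fS1]
    push_cast; ring
  rw [e, abs_mul, abs_of_pos (by norm_num)] at h
  push_cast at h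
  linarith

end

section
variable {α : ℝ} (h0 : 1.0471 ≤ α) (h1 : α ≤ 1.0473)
include h0 h1

lemma G1 : |fq α - 1.032365| ≤ 0.00007 := by
  have h := chk1 e1 h0 h1
  have e : ev (addL pq [-1032365000]) α = 10 ^ 9 * (fq α - 1.032365) := by
    simp only [ev_add, ev_sing, fq]
    push_cast; ring
  rw [e, abs_mul, abs_of_pos (by norm_num)] at h
  push_cast at h
  linarith

lemma G2 : |fq1 α - 0.596035| ≤ 0.00001 := by
  have h := chk1 e2 h0 h1
  have e : ev (addL (dL pq) [-596035000]) α = 10 ^ 9 * (fq1 α - 0.596035) := by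
    simp only [ev_add, ev_sing, fq1]
    push_cast; ring
  rw [e, abs_mul, abs_of_pos (by norm_num)] at h
  push_cast at h
  linarith

lemma G3 : |fv α + 0.3267| ≤ 0.0002 := by
  have h := chk1 e3 h0 h1
  have e : ev (addL pv [32670]) α = 10 ^ 5 * (fv α + 0.3267) := by
    simp only [ev_add, ev_sing, fv]
    push_cast; ring
  rw [e, abs_mul, abs_of_pos (by norm_num)] at h
  push_cast at h
  linarith

lemma G4 : |fv1 α + 1.68223| ≤ 0.0001 := by
  have h := chk1 e4 h0 h1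
  have e : ev (addL (dL pv) [168223]) α = 10 ^ 5 * (fv1 α + 1.68223) := by
    simp only [ev_add, ev_sing, fv1]
    push_cast; ring
  rw [e, abs_mul, abs_of_pos (by norm_num)] at h
  push_cast at h
  linarith

lemma G5 : |fS α - 1.40077| ≤ 0.0002 := by
  have h := chk1 e5 h0 h1
  have e : ev (addL pS [-14007709]) α = 10 ^ 7 * (fS α - 1.4007709) := by
    simp only [ev_add, ev_sing, fS]
    push_cast; ring
  rw [e, abs_mul, abs_of_pos (by norm_num)] at h
  push_cast at h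
  have h2 : |fS α - 1.4007709| ≤ 0.0001 := by linarith
  rw [abs_le] at h2 ⊢
  constructor <;> linarith [h2.1, h2.2]

end

/-! ### Taylor bounds -/

lemma nonneg_of_d {f f' : ℝ → ℝ} (h0 : f 0 = 0) (hd : ∀ t, HasDerivAt f (f' t) t)
    (hp : ∀ t, 0 ≤ t → 0 ≤ f' t) {x : ℝ} (hx : 0 ≤ x) : 0 ≤ f x := by
  have hm : MonotoneOn f (Icc 0 x) := by
    apply monotoneOn_of_deriv_nonneg (convex_Icc 0 x)
    · exact fun t _ => (hd t).continuousAt.continuousWithinAt
    · exact fun t _ => (hd t).differentiableAt.differentiableWithinAt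
    · intro t ht
      rw [interior_Icc] at ht
      rw [(hd t).deriv]
      exact hp t ht.1.le
  have := hm (left_mem_Icc.2 hx) (right_mem_Icc.2 hx) hx
  rwa [h0] at this

lemma s3 {x : ℝ} (hx : 0 ≤ x) : 0 ≤ Real.sin x - (x - x ^ 3 / 6) := by
  refine nonneg_of_d (f := fun x => Real.sin x - (x - x ^ 3 / 6))
    (f' := fun x => Real.cos x - (1 - x ^ 2 / 2)) (by simp) (fun t => ?_) (fun t _ => ?_) hx
  · refine ((Real.hasDerivAt_sin t).sub ((hasDerivAt_id t).sub
      ((hasDerivAt_pow 3 t).div_const 6))).congr_deriv ?_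
    push_cast; ring
  · have := Real.one_sub_sq_div_two_le_cos (x := t)
    linarith

lemma c4' {x : ℝ} (hx : 0 ≤ x) : 0 ≤ (1 - x ^ 2 / 2 + x ^ 4 / 24) - Real.cos x := by
  refine nonneg_of_d (f := fun x => (1 - x ^ 2 / 2 + x ^ 4 / 24) - Real.cos x)
    (f' := fun x => Real.sin x - (x - x ^ 3 / 6)) (by simp) (fun t => ?_) (fun t ht => s3 ht) hx
  refine ((((hasDerivAt_const t (1:ℝ)).sub ((hasDerivAt_pow 2 t).div_const 2)).add
    ((hasDerivAt_pow 4 t).div_const 24)).sub (Real.hasDerivAt_cos t)).congr_deriv ?_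
  push_cast; ring

lemma s5 {x : ℝ} (hx : 0 ≤ x) : 0 ≤ (x - x ^ 3 / 6 + x ^ 5 / 120) - Real.sin x := by
  refine nonneg_of_d (f := fun x => (x - x ^ 3 / 6 + x ^ 5 / 120) - Real.sin x)
    (f' := fun x => (1 - x ^ 2 / 2 + x ^ 4 / 24) - Real.cos x) (by simp) (fun t => ?_)
    (fun t ht => c4' ht) hx
  refine ((((hasDerivAt_id t).sub ((hasDerivAt_pow 3 t).div_const 6)).add
    ((hasDerivAt_pow 5 t).div_const 120)).sub (Real.hasDerivAt_sin t)).congr_deriv ?_
  push_cast; ring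

lemma c6 {x : ℝ} (hx : 0 ≤ x) : 0 ≤ Real.cos x - fC x := by
  refine nonneg_of_d (f := fun x => Real.cos x - fC x)
    (f' := fun x => (x - x ^ 3 / 6 + x ^ 5 / 120) - Real.sin x) (by simp [fC]) (fun t => ?_)
    (fun t ht => s5 ht) hx
  unfold fC
  refine ((Real.hasDerivAt_cos t).sub ((((hasDerivAt_const t (1:ℝ)).sub
    ((hasDerivAt_pow 2 t).div_const 2)).add ((hasDerivAt_pow 4 t).div_const 24)).sub
    ((hasDerivAt_pow 6 t).div_const 720))).congr_deriv ?_
  push_cast; ring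

lemma s7 {x : ℝ} (hx : 0 ≤ x) : 0 ≤ Real.sin x - fN x := by
  refine nonneg_of_d (f := fun x => Real.sin x - fN x)
    (f' := fun x => Real.cos x - fC x) (by simp [fN]) (fun t => ?_)
    (fun t ht => c6 ht) hx
  unfold fN fC
  refine ((Real.hasDerivAt_sin t).sub ((((hasDerivAt_id t).sub
    ((hasDerivAt_pow 3 t).div_const 6)).add ((hasDerivAt_pow 5 t).div_const 120)).sub
    ((hasDerivAt_pow 7 t).div_const 5040))).congr_deriv ?_
  push_cast; ring

lemma c8' {x : ℝ} (hx : 0 ≤ x) : 0 ≤ fC x + x ^ 8 / 40320 - Real.cos x := by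
  refine nonneg_of_d (f := fun x => fC x + x ^ 8 / 40320 - Real.cos x)
    (f' := fun x => Real.sin x - fN x) (by simp [fC]) (fun t => ?_)
    (fun t ht => s7 ht) hx
  unfold fN fC
  refine ((((((hasDerivAt_const t (1:ℝ)).sub
    ((hasDerivAt_pow 2 t).div_const 2)).add ((hasDerivAt_pow 4 t).div_const 24)).sub
    ((hasDerivAt_pow 6 t).div_const 720)).add ((hasDerivAt_pow 8 t).div_const 40320)).sub
    (Real.hasDerivAt_cos t)).congr_deriv ?_
  push_cast; ring

lemma s9' {x : ℝ} (hx : 0 ≤ x) : 0 ≤ fN x + x ^ 9 / 362880 - Real.sin x := by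
  refine nonneg_of_d (f := fun x => fN x + x ^ 9 / 362880 - Real.sin x)
    (f' := fun x => fC x + x ^ 8 / 40320 - Real.cos x) (by simp [fN]) (fun t => ?_)
    (fun t ht => c8' ht) hx
  unfold fN fC
  refine ((((((hasDerivAt_id t).sub
    ((hasDerivAt_pow 3 t).div_const 6)).add ((hasDerivAt_pow 5 t).div_const 120)).sub
    ((hasDerivAt_pow 7 t).div_const 5040)).add ((hasDerivAt_pow 9 t).div_const 362880)).sub
    (Real.hasDerivAt_sin t)).congr_deriv ?_
  push_cast; ring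

lemma cos_fC {x : ℝ} (h0 : 0 ≤ x) (h1 : x ≤ 1.0472) : |Real.cos x - fC x| ≤ 0.00004 := by
  have a1 := c6 h0
  have a2 := c8' h0
  have a3 : x ^ 8 ≤ 1.0472 ^ 8 := pow_le_pow_left₀ h0 h1 8
  have a4 : (1.0472:ℝ) ^ 8 / 40320 ≤ 0.00004 := by norm_num
  rw [abs_le]
  constructor <;> linarith

lemma sin_fN {x : ℝ} (h0 : 0 ≤ x) (h1 : x ≤ 1.0472) : |Real.sin x - fN x| ≤ 0.00001 := by
  have a1 := s7 h0
  have a2 := s9' h0
  have a3 : x ^ 9 ≤ 1.0472 ^ 9 := pow_le_pow_left₀ h0 h1 9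
  have a4 : (1.0472:ℝ) ^ 9 / 362880 ≤ 0.00001 := by norm_num
  rw [abs_le]
  constructor <;> linarith

end Pool.Agent.Helper15.NF.P0aux
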