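import Pool.Agent.Helper15.NF.P0b

open Set MeasureTheory intervalIntegral Filter Topology

namespace Pool.Agent.Helper15.NF.P0aux

lemma p0_mono {f f' : ℝ → ℝ} {a b : ℝ} (hab : a ≤ b) (hc : ContinuousOn f (Icc a b))
    (hd : ∀ x ∈ Ioo a b, HasDerivAt f (f' x) x) (hn : ∀ x ∈ Ioo a b, 0 ≤ f' x) : f a ≤ f b := by
  have hm : MonotoneOn f (Icc a b) := by
    apply monotoneOn_of_deriv_nonneg (convex_Icc a b) hc
    · intro x hx
      rw [interior_Icc] at hx
      exact (hd x hx).differentiableAt.differentiableWithinAt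
    · intro x hx
      rw [interior_Icc] at hx
      rw [(hd x hx).deriv]
      exact hn x hx
  exact hm (left_mem_Icc.2 hab) (right_mem_Icc.2 hab) hab

lemma p0_anti {f f' : ℝ → ℝ} {a b : ℝ} (hab : a ≤ b) (hc : ContinuousOn f (Icc a b))
    (hd : ∀ x ∈ Ioo a b, HasDerivAt f (f' x) x) (hn : ∀ x ∈ Ioo a b, f' x ≤ 0) : f b ≤ f a := by
  have := p0_mono (f := fun x => - f x) (f' := fun x => - f' x) hab hc.neg
    (fun x hx => (hd x hx).neg) (fun x hx => by have := hn x hx; linarith)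
  linarith

section arcs
variable {x y a : ℝ → ℝ}

noncomputable def hh (x y a : ℝ → ℝ) (s : ℝ) : ℝ := x s * Real.sin (a s) + y s * Real.cos (a s)
noncomputable def pp (x y a : ℝ → ℝ) (s : ℝ) : ℝ := x s * Real.cos (a s) - y s * Real.sin (a s)

lemma p0_xc (H : IsArc 1.5 x y a (fun _ => 0)) : ContinuousOn x (Icc 0 1.5) :=
  fun s hs => (H.x_s s hs).continuousWithinAt
lemma p0_yc (H : IsArc 1.5 x y a (fun _ => 0)) : ContinuousOn y (Icc 0 1.5) :=
  fun s hs => (H.y_s s hs).continuousWithinAt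
lemma p0_ac (H : IsArc 1.5 x y a (fun _ => 0)) : ContinuousOn a (Icc 0 1.5) :=
  fun s hs => (H.a_s s hs).continuousWithinAt
lemma p0_hc (H : IsArc 1.5 x y a (fun _ => 0)) : ContinuousOn (hh x y a) (Icc 0 1.5) := by
  unfold hh
  exact ((p0_xc H).mul (Real.continuous_sin.comp_continuousOn (p0_ac H))).add
    ((p0_yc H).mul (Real.continuous_cos.comp_continuousOn (p0_ac H)))
lemma p0_pc (H : IsArc 1.5 x y a (fun _ => 0)) : ContinuousOn (pp x y a) (Icc 0 1.5) := by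
  unfold pp
  exact ((p0_xc H).mul (Real.continuous_cos.comp_continuousOn (p0_ac H))).sub
    ((p0_yc H).mul (Real.continuous_sin.comp_continuousOn (p0_ac H)))

lemma p0_xd (H : IsArc 1.5 x y a (fun _ => 0)) {s : ℝ} (hs : s ∈ Ioo (0:ℝ) 1.5) :
    HasDerivAt x (Real.cos (a s)) s :=
  (H.x_s s (Ioo_subset_Icc_self hs)).hasDerivAt (Icc_mem_nhds hs.1 hs.2)
lemma p0_yd (H : IsArc 1.5 x y a (fun _ => 0)) {s : ℝ} (hs : s ∈ Ioo (0:ℝ) 1.5) :
    HasDerivAt y (-Real.sin (a s)) s :=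
  (H.y_s s (Ioo_subset_Icc_self hs)).hasDerivAt (Icc_mem_nhds hs.1 hs.2)
lemma p0_ad (H : IsArc 1.5 x y a (fun _ => 0)) {s : ℝ} (hs : s ∈ Ioo (0:ℝ) 1.5) :
    HasDerivAt a (hh x y a s) s := by
  have := (H.a_s s (Ioo_subset_Icc_self hs)).hasDerivAt (Icc_mem_nhds hs.1 hs.2)
  simpa [hh] using this

lemma p0_hd (H : IsArc 1.5 x y a (fun _ => 0)) {s : ℝ} (hs : s ∈ Ioo (0:ℝ) 1.5) :
    HasDerivAt (hh x y a) (hh x y a s * pp x y a s) s := by
  have h1 := ((p0_xd H hs).mul (p0_ad H hs).sin).add ((p0_yd H hs).mul (p0_ad H hs).cos)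
  refine h1.congr_deriv ?_
  unfold hh pp
  ring

lemma p0_pd (H : IsArc 1.5 x y a (fun _ => 0)) {s : ℝ} (hs : s ∈ Ioo (0:ℝ) 1.5) :
    HasDerivAt (pp x y a) (1 - hh x y a s ^ 2) s := by
  have h1 := ((p0_xd H hs).mul (p0_ad H hs).cos).sub ((p0_yd H hs).mul (p0_ad H hs).sin)
  refine h1.congr_deriv ?_
  have := Real.sin_sq_add_cos_sq (a s)
  unfold hh
  linear_combination this

/-- first integral -/
lemma p0_first (H : IsArc 1.5 x y a (fun _ => 0)) {s : ℝ} (hs : s ∈ Icc (0:ℝ) 1.5) :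
    hh x y a s * Real.exp (-((x s ^ 2 + y s ^ 2) / 2)) = y 0 * Real.exp (-(y 0 ^ 2 / 2)) := by
  have hc : ContinuousOn (fun s => hh x y a s * Real.exp (-((x s ^ 2 + y s ^ 2) / 2)))
      (Icc 0 s) := by
    have hsub : Icc 0 s ⊆ Icc (0:ℝ) 1.5 := Icc_subset_Icc_right hs.2
    exact ((p0_hc H).mono hsub).mul (Real.continuous_exp.comp_continuousOn
      (((((p0_xc H).mono hsub).pow 2).add (((p0_yc H).mono hsub).pow 2)).div_const 2).neg)
  have hd : ∀ u ∈ Ioo 0 s, HasDerivAt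
      (fun s => hh x y a s * Real.exp (-((x s ^ 2 + y s ^ 2) / 2))) 0 u := by
    intro u hu
    have hu' : u ∈ Ioo (0:ℝ) 1.5 := ⟨hu.1, lt_of_lt_of_le hu.2 hs.2⟩
    have h1 := (p0_hd H hu').mul
      ((((((p0_xd H hu').pow 2).add ((p0_yd H hu').pow 2)).div_const 2).neg).exp)
    refine h1.congr_deriv ?_
    simp only [Pi.add_apply, Pi.pow_apply]
    unfold hh pp
    push_cast
    ring
  have e1 := p0_mono (f' := fun _ => 0) hs.1 hc hd (fun _ _ => le_rfl)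
  have e2 := p0_anti (f' := fun _ => 0) hs.1 hc hd (fun _ _ => le_rfl)
  have e3 := le_antisymm e2 e1
  rw [e3]
  simp [hh, H.x_0, H.a_0]

lemma p0_hpos (H : IsArc 1.5 x y a (fun _ => 0)) (hy : y 0 ∈ Icc (0.55:ℝ) 0.67)
    {s : ℝ} (hs : s ∈ Icc (0:ℝ) 1.5) : (0.466:ℝ) ≤ hh x y a s := by
  have h1 := p0_first H hs
  have h2 : Real.exp (-((x s ^ 2 + y s ^ 2) / 2)) ≤ 1 := by
    apply Real.exp_le_one_iff.2
    have := sq_nonneg (x s); have := sq_nonneg (y s); linarith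
  have h3 : (0.466:ℝ) ≤ y 0 * Real.exp (-(y 0 ^ 2 / 2)) := by
    have h4 : 1 - y 0 ^ 2 / 2 ≤ Real.exp (-(y 0 ^ 2 / 2)) := by
      have := Real.add_one_le_exp (-(y 0 ^ 2 / 2)); linarith
    obtain ⟨h5, h6⟩ := hy
    have h7 : y 0 * (1 - y 0 ^ 2 / 2) ≤ y 0 * Real.exp (-(y 0 ^ 2 / 2)) :=
      mul_le_mul_of_nonneg_left h4 (by linarith)
    have h8 : (0.466:ℝ) ≤ y 0 * (1 - y 0 ^ 2 / 2) := by
      nlinarith [mul_nonneg (sub_nonneg.2 h5) (sub_nonneg.2 h6), mul_nonneg (mul_nonneg (sub_nonneg.2 h5) (sub_nonneg.2 h6)) (by linarith : (0:ℝ) ≤ y 0)]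
    linarith
  have h9 : 0 < hh x y a s := by
    by_contra hc
    push Not at hc
    have : hh x y a s * Real.exp (-((x s ^ 2 + y s ^ 2) / 2)) ≤ 0 :=
      mul_nonpos_of_nonpos_of_nonneg hc (Real.exp_pos _).le
    linarith
  have : hh x y a s * Real.exp (-((x s ^ 2 + y s ^ 2) / 2)) ≤ hh x y a s * 1 :=
    mul_le_mul_of_nonneg_left h2 h9.le
  linarith

/-- the angle is strictly increasing -/
lemma p0_amono (H : IsArc 1.5 x y a (fun _ => 0)) (hy : y 0 ∈ Icc (0.55:ℝ) 0.67)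
    {s t : ℝ} (hs : 0 ≤ s) (hst : s ≤ t) (ht : t ≤ 1.5) : 0.466 * (t - s) ≤ a t - a s := by
  have := p0_mono (f := fun u => a u - 0.466 * u) (f' := fun u => hh x y a u - 0.466 * 1) hst
    (((p0_ac H).mono (Icc_subset_Icc hs ht)).sub (by fun_prop))
    (fun u hu => (p0_ad H ⟨lt_of_le_of_lt hs hu.1, lt_of_lt_of_le hu.2 ht⟩).sub
      ((hasDerivAt_id u).const_mul _))
    (fun u hu => by
      have := p0_hpos H hy (s := u) ⟨hs.trans hu.1.le, hu.2.le.trans ht⟩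
      linarith)
  linarith

lemma p0_anonneg (H : IsArc 1.5 x y a (fun _ => 0)) (hy : y 0 ∈ Icc (0.55:ℝ) 0.67)
    {s : ℝ} (hs : 0 ≤ s) (hs2 : s ≤ 1.5) : 0 ≤ a s := by
  have := p0_amono H hy le_rfl hs hs2
  rw [H.a_0] at this
  linarith

lemma p0_ple (H : IsArc 1.5 x y a (fun _ => 0)) {s : ℝ} (hs : 0 ≤ s) (hs2 : s ≤ 1.5) :
    pp x y a s ≤ s := by
  have := p0_anti (f := fun u => pp x y a u - u) (f' := fun u => (1 - hh x y a u ^ 2) - 1) hs
    (((p0_pc H).mono (Icc_subset_Icc_right hs2)).sub continuousOn_id)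
    (fun u hu => (p0_pd H ⟨hu.1, lt_of_lt_of_le hu.2 hs2⟩).sub (hasDerivAt_id u))
    (fun u hu => by
      have := sq_nonneg (hh x y a u)
      linarith)
  simp only [pp, H.x_0, H.a_0] at this
  simp at this
  unfold pp
  linarith

/-- comparison polynomial -/
noncomputable def pP (s : ℝ) : ℝ :=
  1 + s ^ 2 / 2 + s ^ 4 / 8 + s ^ 6 / 48 + 0.057 * s ^ 8 / 16

lemma p0_hle (H : IsArc 1.5 x y a (fun _ => 0)) (hy : y 0 ∈ Icc (0.55:ℝ) 0.67)
    {s : ℝ} (hs : 0 ≤ s) (hs2 : s ≤ 1.46) : hh x y a s ≤ 0.67 * pP s := by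
  have hPpos : ∀ u : ℝ, 0 < pP u := by
    intro u; unfold pP; positivity
  have hPd : ∀ u : ℝ, HasDerivAt pP (u + u ^ 3 / 2 + u ^ 5 / 8 + 0.057 * u ^ 7 / 2) u := by
    intro u
    have := ((((hasDerivAt_const u (1:ℝ)).add ((hasDerivAt_pow 2 u).div_const 2)).add
      ((hasDerivAt_pow 4 u).div_const 8)).add ((hasDerivAt_pow 6 u).div_const 48)).add
      (((hasDerivAt_pow 8 u).const_mul (0.057:ℝ)).div_const 16)
    refine this.congr_deriv ?_
    push_cast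
    ring
  have := p0_anti (f := fun u => hh x y a u / pP u)
    (f' := fun u => (hh x y a u * pp x y a u * pP u -
      hh x y a u * (u + u ^ 3 / 2 + u ^ 5 / 8 + 0.057 * u ^ 7 / 2)) / pP u ^ 2) hs
    (((p0_hc H).mono (Icc_subset_Icc_right (by linarith))).div
      (fun u _ => (hPd u).continuousAt.continuousWithinAt) (fun u _ => (hPpos u).ne'))
    (fun u hu => (p0_hd H ⟨hu.1, by linarith [hu.2]⟩).div (hPd u) (hPpos u).ne')
    (fun u hu => by
      have h1 := p0_ple H hu.1.le (by linarith [hu.2])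
      have h2 := p0_hpos H hy (s := u) ⟨hu.1.le, by linarith [hu.2]⟩
      have h3 : pp x y a u * pP u ≤ u * pP u := mul_le_mul_of_nonneg_right h1 (hPpos u).le
      have h4 : u * pP u ≤ u + u ^ 3 / 2 + u ^ 5 / 8 + 0.057 * u ^ 7 / 2 := by
        have hu7 : 0 ≤ u ^ 7 := by have := hu.1.le; positivity
        have hu2 : u ^ 2 ≤ 1.46 ^ 2 := pow_le_pow_left₀ hu.1.le (by linarith [hu.2]) 2
        have h5 : u ^ 7 * u ^ 2 ≤ u ^ 7 * 1.46 ^ 2 := mul_le_mul_of_nonneg_left hu2 hu7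
        unfold pP
        nlinarith [h5, hu7]
      have h6 : hh x y a u * (pp x y a u * pP u) ≤
          hh x y a u * (u + u ^ 3 / 2 + u ^ 5 / 8 + 0.057 * u ^ 7 / 2) :=
        mul_le_mul_of_nonneg_left (h3.trans h4) (by linarith)
      apply div_nonpos_of_nonpos_of_nonneg
      · nlinarith [h6]
      · positivity)
  have e0 : hh x y a 0 = y 0 := by simp [hh, H.x_0, H.a_0]
  have e1 : pP 0 = 1 := by simp [pP]
  simp only [e0, e1, div_one] at this
  rw [div_le_iff₀ (hPpos s)] at this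
  have h7 : y 0 * pP s ≤ 0.67 * pP s := mul_le_mul_of_nonneg_right hy.2 (hPpos s).le
  linarith


/-- the coefficients of the residual -/
lemma resid {α t : ℝ} (h0 : 0 ≤ α) (h1 : α ≤ 1.0472) (ht : |t| ≤ 0.001) :
    |(fq α + t * fv α) * (fq2 α + t * fv2 α) + (fq α + t * fv α) ^ 2 - 1| ≤ 1.32e-5 ∧
      0.6088 ≤ fq α + t * fv α := by
  have a1 := F1 h0 h1
  have a2 := F2 h0 h1
  have a3 := F3 h0 h1
  have a4 := F4 h0 h1
  have a5 := F5 h0 h1
  have b2 : |t * (fv α * fq2 α + fq α * fv2 α + 2 * fq α * fv α)| ≤ 0.001 * 0.0083 := by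
    rw [abs_mul]; exact mul_le_mul ht a2 (abs_nonneg _) (by norm_num)
  have b3 : |t ^ 2 * (fv α * fv2 α + fv α ^ 2)| ≤ 0.001 ^ 2 * 2.67 := by
    rw [abs_mul, abs_pow]
    exact mul_le_mul (pow_le_pow_left₀ (abs_nonneg _) ht 2) a3 (abs_nonneg _) (by norm_num)
  have b5 : |t * fv α| ≤ 0.001 * 1.001 := by
    rw [abs_mul]; exact mul_le_mul ht a5 (abs_nonneg _) (by norm_num)
  rw [abs_le] at *
  norm_num at *
  constructor
  · constructor <;> nlinarith [a1.1, a1.2, b2.1, b2.2, b3.1, b3.2]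
  · linarith [a4.1, b5.1]

/-- closeness to the trial functions -/
lemma close (H : IsArc 1.5 x y a (fun _ => 0)) (hy : y 0 ∈ Icc (0.61:ℝ) 0.6135)
    (ht : |y 0 - 0.611638| ≤ 0.001) {s1 : ℝ} (hs1 : s1 ∈ Icc (0:ℝ) 1.46) (ha1 : a s1 ≤ 1.0472)
    {s : ℝ} (hs : s ∈ Icc (0:ℝ) s1) :
    |hh x y a s - (fq (a s) + (y 0 - 0.611638) * fv (a s))| ≤ 0.00031 ∧
    |pp x y a s - (fq1 (a s) + (y 0 - 0.611638) * fv1 (a s))| ≤ 0.00031 := by
  have hyy : y 0 ∈ Icc (0.55:ℝ) 0.67 := ⟨by linarith [hy.1], by linarith [hy.2]⟩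
  set t := y 0 - 0.611638 with hts
  have hb : (19.1:ℝ) * 4.95e-9 ≤ 0.00031 ^ 2 := by norm_num
  -- the range of the angle
  have hrange : ∀ u ∈ Icc (0:ℝ) s1, 0 ≤ a u ∧ a u ≤ 1.0472 := by
    intro u hu
    refine ⟨p0_anonneg H hyy hu.1 (by linarith [hu.2, hs1.2]), ?_⟩
    have := p0_amono H hyy hu.1 hu.2 (by linarith [hs1.2])
    nlinarith [hu.2]
  let dl : ℝ → ℝ := fun u => hh x y a u - (fq (a u) + t * fv (a u))
  let ep : ℝ → ℝ := fun u => pp x y a u - (fq1 (a u) + t * fv1 (a u))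
  have hdl : ∀ u ∈ Ioo (0:ℝ) 1.5, HasDerivAt dl (hh x y a u * ep u) u := by
    intro u hu
    have h1 := (p0_hd H hu).sub (((fq_d (a u)).comp u (p0_ad H hu)).add
      (((fv_d (a u)).comp u (p0_ad H hu)).const_mul t))
    refine h1.congr_deriv ?_
    simp only [ep]
    ring
  have hep : ∀ u ∈ Ioo (0:ℝ) 1.5, HasDerivAt ep
      (1 - hh x y a u ^ 2 - (fq2 (a u) + t * fv2 (a u)) * hh x y a u) u := by
    intro u hu
    have h1 := (p0_pd H hu).sub (((fq1_d (a u)).comp u (p0_ad H hu)).add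
      (((fv1_d (a u)).comp u (p0_ad H hu)).const_mul t))
    refine h1.congr_deriv ?_
    ring
  have hac := p0_ac H
  have hcomp : ∀ (f f' : ℝ → ℝ), (∀ z, HasDerivAt f (f' z) z) →
      ContinuousOn (fun u => f (a u)) (Icc 0 1.5) := by
    intro f f' hf
    have hfc : Continuous f := continuous_iff_continuousAt.2 fun z => (hf z).continuousAt
    exact hfc.comp_continuousOn hac
  have hdlc : ContinuousOn dl (Icc 0 1.5) :=
    (p0_hc H).sub ((hcomp fq fq1 fq_d).add (continuousOn_const.mul (hcomp fv fv1 fv_d)))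
  have hepc : ContinuousOn ep (Icc 0 1.5) :=
    (p0_pc H).sub ((hcomp fq1 fq2 fq1_d).add (continuousOn_const.mul (hcomp fv1 fv2 fv1_d)))
  have hsub : Icc 0 s ⊆ Icc (0:ℝ) 1.5 := Icc_subset_Icc_right (by linarith [hs.2, hs1.2])
  have hexpd : ∀ u : ℝ, HasDerivAt (fun u => Real.exp (-(1.85 * u)))
      (Real.exp (-(1.85 * u)) * (-(1.85 * 1))) u :=
    fun u => (((hasDerivAt_id u).const_mul (1.85:ℝ)).neg).exp
  have key := p0_anti (f := fun u => (dl u ^ 2 + ep u ^ 2 + 4.95e-9) * Real.exp (-(1.85 * u)))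
    (f' := fun u => (2 * dl u * (hh x y a u * ep u) + 2 * ep u *
      (1 - hh x y a u ^ 2 - (fq2 (a u) + t * fv2 (a u)) * hh x y a u)) * Real.exp (-(1.85 * u)) +
      (dl u ^ 2 + ep u ^ 2 + 4.95e-9) * (Real.exp (-(1.85 * u)) * (-(1.85 * 1)))) hs.1
    ((((hdlc.mono hsub).pow 2).add ((hepc.mono hsub).pow 2)).add continuousOn_const |>.mul
      (by fun_prop))
    (fun u hu => by
      have hu' : u ∈ Ioo (0:ℝ) 1.5 := ⟨hu.1, by linarith [hu.2, hs.2, hs1.2]⟩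
      have h1 := ((((hdl u hu').pow 2).add ((hep u hu').pow 2)).add_const (4.95e-9:ℝ)).mul
        (hexpd u)
      refine h1.congr_deriv ?_
      simp only [Pi.add_apply, Pi.pow_apply]
      push_cast
      ring)
    (fun u hu => by
      have hu' : u ∈ Ioo (0:ℝ) 1.5 := ⟨hu.1, by linarith [hu.2, hs.2, hs1.2]⟩
      obtain ⟨r0, r1⟩ := hrange u ⟨hu.1.le, by linarith [hu.2, hs.2]⟩
      obtain ⟨g1, g2⟩ := resid r0 r1 ht
      have hpos := p0_hpos H hyy (s := u) ⟨hu'.1.le, hu'.2.le⟩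
      have hle : hh x y a u ≤ 1.95 := by
        have h1 := p0_hle H hyy hu.1.le (by linarith [hu.2, hs.2, hs1.2])
        have h2 : pP u ≤ pP 1.46 := by
          have hu0 := hu.1.le
          have hu1 : u ≤ 1.46 := by linarith [hu.2, hs.2, hs1.2]
          unfold pP
          gcongr
        have h3 : 0.67 * pP 1.46 ≤ 1.95 := by unfold pP; norm_num
        linarith
      have hE := Real.exp_pos (-(1.85 * u))
      set h := hh x y a u with hh'
      set Q := fq (a u) + t * fv (a u) with hQ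
      set Q2 := fq2 (a u) + t * fv2 (a u) with hQ2
      have hdl' : dl u = h - Q := rfl
      set e := ep u with he
      rw [hdl']
      have hQp : (0:ℝ) < Q := by linarith
      set ρ := Q * Q2 + Q ^ 2 - 1 with hρ
      have e1 : Q2 = (1 - Q ^ 2 + ρ) / Q := by
        rw [hρ]; field_simp; ring
      have e2 : 2 * (h - Q) * (h * e) + 2 * e * (1 - h ^ 2 - Q2 * h) =
          (-(2 * e * (h - Q)) - 2 * e * h * ρ) / Q := by
        rw [e1]; field_simp; ring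
      have e3 : -(2 * e * (h - Q)) ≤ (h - Q) ^ 2 + e ^ 2 := by nlinarith [sq_nonneg (h - Q + e)]
      have e4 : -(2 * e * h * ρ) ≤ 0.12 * e ^ 2 + (1.95 * 1.32e-5) ^ 2 / 0.12 := by
        have f1 : |h * ρ| ≤ 1.95 * 1.32e-5 := by
          rw [abs_mul, abs_of_pos (by linarith : (0:ℝ) < h)]
          exact mul_le_mul hle g1 (abs_nonneg _) (by norm_num)
        have f2 : (h * ρ) ^ 2 ≤ (1.95 * 1.32e-5) ^ 2 := by
          rw [← sq_abs]
          exact pow_le_pow_left₀ (abs_nonneg _) f1 2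
        have f3 : 0 ≤ (0.12 * e + h * ρ) ^ 2 := sq_nonneg _
        rw [← sub_nonneg]
        have f4 : 0.12 * e ^ 2 + (1.95 * 1.32e-5) ^ 2 / 0.12 - -(2 * e * h * ρ) =
          ((0.12 * e + h * ρ) ^ 2 + ((1.95 * 1.32e-5) ^ 2 - (h * ρ) ^ 2)) / 0.12 := by
          field_simp; ring
        rw [f4]
        apply div_nonneg
        · linarith
        · norm_num
      have e5 : (-(2 * e * (h - Q)) - 2 * e * h * ρ) / Q ≤
          1.85 * ((h - Q) ^ 2 + e ^ 2 + 4.95e-9) := by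
        rw [div_le_iff₀ hQp]
        have f1 : (0:ℝ) ≤ (h - Q) ^ 2 := sq_nonneg _
        have f2 : (0:ℝ) ≤ e ^ 2 := sq_nonneg _
        have f3 : 1.85 * ((h - Q) ^ 2 + e ^ 2 + 4.95e-9) * 0.6088 ≤
            1.85 * ((h - Q) ^ 2 + e ^ 2 + 4.95e-9) * Q :=
          mul_le_mul_of_nonneg_left g2 (by positivity)
        norm_num at *
        nlinarith
      rw [e2]
      have : ((-(2 * e * (h - Q)) - 2 * e * h * ρ) / Q -
          1.85 * ((h - Q) ^ 2 + e ^ 2 + 4.95e-9)) * Real.exp (-(1.85 * u)) ≤ 0 :=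
        mul_nonpos_of_nonpos_of_nonneg (by linarith) hE.le
      linarith)
  have hd0 : dl 0 = 0 := by
    simp only [dl, hh, H.x_0, H.a_0, fq_0, fv_0, hts]
    simp
  have he0 : ep 0 = 0 := by
    simp only [ep, pp, H.x_0, H.a_0, fq1_0, fv1_0, hts]
    simp
  simp only [hd0, he0] at key
  have hexp : Real.exp (1.85 * s) ≤ 20.1 := by
    have h1 : Real.exp (1.85 * s) ≤ Real.exp 3 := Real.exp_le_exp.2 (by linarith [hs.2, hs1.2])
    have h2 : Real.exp 3 = Real.exp 1 ^ 3 := by rw [← Real.exp_nat_mul]; norm_num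
    have h3 : Real.exp 1 ^ 3 ≤ 2.7182818286 ^ 3 :=
      pow_le_pow_left₀ (Real.exp_pos _).le Real.exp_one_lt_d9.le 3
    have h4 : (2.7182818286:ℝ) ^ 3 ≤ 20.1 := by norm_num
    linarith
  have hEE : dl s ^ 2 + ep s ^ 2 ≤ 0.00031 ^ 2 := by
    have h1 : Real.exp (-(1.85 * s)) * Real.exp (1.85 * s) = 1 := by
      rw [← Real.exp_add]; simp
    have hp := Real.exp_pos (1.85 * s)
    have h2 := mul_le_mul_of_nonneg_right key hp.le
    rw [mul_assoc, h1] at h2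
    have h3 : ((0:ℝ) ^ 2 + 0 ^ 2 + 4.95e-9) * Real.exp (-(1.85 * 0)) * Real.exp (1.85 * s) ≤
      4.95e-9 * 20.1 := by
      simp only [mul_zero, neg_zero, Real.exp_zero, mul_one]
      nlinarith
    nlinarith
  constructor
  · apply abs_le_of_sq_le_sq _ (by norm_num)
    have := sq_nonneg (ep s)
    change dl s ^ 2 ≤ _
    linarith
  · apply abs_le_of_sq_le_sq _ (by norm_num)
    have := sq_nonneg (dl s)
    change ep s ^ 2 ≤ _
    linarith

end arcs

end Pool.Agent.Helper15.NF.P0aux
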