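import Pool.Agent.Helper15.NF.Star

open Set MeasureTheory intervalIntegral Filter Topology

namespace Pool.Agent.Helper15.NF

/-- `N` is C^1 on [0,1] with derivative `N'` -/
def C1 (N N' : ℝ → ℝ) : Prop :=
  (∀ σ ∈ Icc (0:ℝ) 1, HasDerivWithinAt N (N' σ) (Icc 0 1) σ) ∧ ContinuousOn N' (Icc 0 1)

namespace Raw
variable (c : Raw)
/-- σ-derivative of `S` -/
noncomputable def dS (i : Fin 3) (σ : ℝ) : ℝ := c.L i * c.Ss i σ
/-- H^1 size of `S` on the two arcs -/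
noncomputable def N1 : ℝ :=
  (∫ σ in (0:ℝ)..1, (c.dS 0 σ ^ 2 + c.S 0 σ ^ 2)) + ∫ σ in (0:ℝ)..1, (c.dS 1 σ ^ 2 + c.S 1 σ ^ 2)
/-- ray quantities -/
noncomputable def Dg (R : ℝ) : ℝ := c.I 2 (fun σ => c.S 2 σ ^ 2 * c.w R 2 σ)
noncomputable def Eg (R : ℝ) : ℝ := c.I 2 (fun σ => c.Ss 2 σ ^ 2 * c.w R 2 σ)
noncomputable def Qg (R : ℝ) : ℝ := c.I 2 (fun σ => c.S 2 σ ^ 4 * c.w R 2 σ)
noncomputable def Kg (R : ℝ) : ℝ := c.I 2 (fun σ => c.kap 2 σ ^ 2 * c.S 2 σ ^ 2 * c.w R 2 σ)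
noncomputable def mg (R : ℝ) : ℝ := c.I 2 (fun σ => c.S 2 σ * Real.cos (c.ang 2 σ) * c.w R 2 σ)
/-- sum and difference of `S` on the two arcs -/
noncomputable def P (σ : ℝ) : ℝ := c.S 0 σ + c.S 1 σ
noncomputable def P' (σ : ℝ) : ℝ := c.dS 0 σ + c.dS 1 σ
noncomputable def M (σ : ℝ) : ℝ := c.S 0 σ - c.S 1 σ
noncomputable def M' (σ : ℝ) : ℝ := c.dS 0 σ - c.dS 1 σ
end Raw

/-- pairing with the translation mode on the exact arc -/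
noncomputable def Star.pr (st : Star) (N : ℝ → ℝ) : ℝ :=
  -(st.ls * ∫ σ in (0:ℝ)..1, N σ * Real.cos (st.a (st.sg σ)) * st.rho (st.sg σ))

end Pool.Agent.Helper15.NF
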