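import Pool.Agent.Helper15.NF.SDefs

open Set MeasureTheory intervalIntegral Filter Topology

namespace Pool.Agent.Helper15.NF

/-- ST0 -/
theorem exists_pin (st : Star) : ∃ σ0 ∈ Ioo (0:ℝ) 1, st.a (st.sg σ0) = 1 / 2 := by
  have hl := st.ls_lo
  have hl2 := st.ls_hi
  have hac : ContinuousOn st.a (Icc 0 1.5) := fun s hs => (st.arc.a_s s hs).continuousWithinAt
  have hsg : ContinuousOn st.sg (Icc 0 1) := by
    unfold Star.sg
    fun_prop
  have hmaps : MapsTo st.sg (Icc 0 1) (Icc 0 1.5) := by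
    intro σ hσ
    unfold Star.sg
    constructor
    · exact mul_nonneg (by linarith) (by linarith [hσ.2])
    · nlinarith [hσ.1, hσ.2]
  have hf : ContinuousOn (fun σ => st.a (st.sg σ)) (Icc 0 1) := hac.comp hsg hmaps
  have h0 : st.a (st.sg 0) = Real.pi / 3 := by
    simp [Star.sg, st.a_ls]
  have h1 : st.a (st.sg 1) = 0 := by
    simp [Star.sg, st.arc.a_0]
  have hpi := Real.pi_gt_three
  have := intermediate_value_Ioo' (zero_le_one) hf
  have hmem : (1 / 2 : ℝ) ∈ Ioo (st.a (st.sg 1)) (st.a (st.sg 0)) := by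
    rw [h0, h1]
    constructor <;> linarith
  obtain ⟨σ0, hσ0, h⟩ := this hmem
  exact ⟨σ0, hσ0, h⟩

end Pool.Agent.Helper15.NF
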