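import Pool.Agent.Helper15.NF.SDefs

open Set MeasureTheory intervalIntegral Filter Topology

namespace Pool.Agent.Helper15.NF

namespace ST1

/-- weighted Cauchy-Schwarz for the increment of a function -/
theorem cs_pin {u v : ℝ} (huv : u ≤ v) {N N' ρ : ℝ → ℝ}
    (hN : ∀ σ ∈ Icc u v, HasDerivWithinAt N (N' σ) (Icc u v) σ)
    (hN' : ContinuousOn N' (Icc u v)) (hρ : ContinuousOn ρ (Icc u v))
    (hpos : ∀ σ ∈ Icc u v, 0 < ρ σ) :
    (N v - N u) ^ 2 ≤ (∫ σ in u..v, N' σ ^ 2 * ρ σ) * ∫ σ in u..v, (ρ σ)⁻¹ := by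
  have hρi : ContinuousOn (fun σ => (ρ σ)⁻¹) (Icc u v) :=
    hρ.inv₀ (fun σ hσ => (hpos σ hσ).ne')
  have hI : ∀ {f : ℝ → ℝ}, ContinuousOn f (Icc u v) → IntervalIntegrable f volume u v :=
    fun h => h.intervalIntegrable_of_Icc huv
  have hFTC : ∫ σ in u..v, N' σ = N v - N u := by
    apply integral_eq_sub_of_hasDeriv_right_of_le huv
      (fun σ hσ => (hN σ hσ).continuousWithinAt) _ (hI hN')
    intro σ hσ
    have h1 := hN σ ⟨hσ.1.le, hσ.2.le⟩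
    exact (h1.hasDerivAt (Icc_mem_nhds hσ.1 hσ.2)).hasDerivWithinAt
  set G := ∫ σ in u..v, N' σ ^ 2 * ρ σ with hG
  set B := ∫ σ in u..v, (ρ σ)⁻¹ with hB
  have key : ∀ t : ℝ, 0 ≤ B * (t * t) + (-2 * (N v - N u)) * t + G := by
    intro t
    have h1 : ∫ σ in u..v, (N' σ - t * (ρ σ)⁻¹) ^ 2 * ρ σ =
        B * (t * t) + (-2 * (N v - N u)) * t + G := by
      have h2 : ∀ σ ∈ uIcc u v, (N' σ - t * (ρ σ)⁻¹) ^ 2 * ρ σ =
          (t * t) * (ρ σ)⁻¹ + (-2 * t) * N' σ + N' σ ^ 2 * ρ σ := by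
        intro σ hσ
        rw [uIcc_of_le huv] at hσ
        have := (hpos σ hσ).ne'
        field_simp
        ring
      rw [integral_congr h2, intervalIntegral.integral_add, intervalIntegral.integral_add,
        intervalIntegral.integral_const_mul,
        intervalIntegral.integral_const_mul, hFTC]
      · ring
      · exact (hI hρi).const_mul _
      · exact (hI hN').const_mul _
      · exact ((hI hρi).const_mul _).add ((hI hN').const_mul _)
      · exact hI ((hN'.pow 2).mul hρ)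
    rw [← h1]
    apply intervalIntegral.integral_nonneg huv
    intro σ hσ
    exact mul_nonneg (sq_nonneg _) (hpos σ hσ).le
  have := discrim_le_zero key
  unfold discrim at this
  nlinarith [this]

variable (st : Star)

theorem a_s {s : ℝ} (hs : s ∈ Icc (0:ℝ) 1.5) :
    HasDerivWithinAt st.a (st.h s) (Icc 0 1.5) s := by
  have := st.arc.a_s s hs
  simpa [Star.h] using this

theorem h_s {s : ℝ} (hs : s ∈ Icc (0:ℝ) 1.5) :
    HasDerivWithinAt st.h (st.h s * st.p s) (Icc 0 1.5) s := by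
  have hx := st.arc.x_s s hs
  have hy := st.arc.y_s s hs
  have ha := a_s st hs
  have h1 := (hx.mul ha.sin).add (hy.mul ha.cos)
  unfold Star.h Star.p
  refine h1.congr_deriv ?_
  simp only [Star.h]
  ring

theorem rho_s {s : ℝ} (hs : s ∈ Icc (0:ℝ) 1.5) :
    HasDerivWithinAt st.rho (-(st.p s * st.rho s)) (Icc 0 1.5) s := by
  have hx := st.arc.x_s s hs
  have hy := st.arc.y_s s hs
  have h1 := (((hx.pow 2).add (hy.pow 2)).div_const 2).neg.exp
  unfold Star.rho Star.p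
  refine h1.congr_deriv ?_
  simp
  ring

theorem rho_pos (s : ℝ) : 0 < st.rho s := Real.exp_pos _

theorem h_rho {s : ℝ} (hs : s ∈ Icc (0:ℝ) 1.5) : st.h s * st.rho s = st.h 0 * st.rho 0 := by
  have hd : ∀ s ∈ Icc (0:ℝ) 1.5,
      HasDerivWithinAt (fun s => st.h s * st.rho s) 0 (Icc 0 1.5) s := by
    intro s hs
    refine ((h_s st hs).mul (rho_s st hs)).congr_deriv ?_
    ring
  exact constant_of_has_deriv_right_zero (fun s hs => (hd s hs).continuousWithinAt)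
    (fun s hs => (hd s ⟨hs.1, hs.2.le⟩).mono_of_mem_nhdsWithin (Icc_mem_nhdsGE_of_mem hs)) s hs

theorem sg_mem {σ : ℝ} (hσ : σ ∈ Icc (0:ℝ) 1) : st.sg σ ∈ Icc (0:ℝ) st.ls := by
  have := st.ls_lo
  unfold Star.sg
  constructor
  · exact mul_nonneg (by linarith) (by linarith [hσ.2])
  · nlinarith [hσ.1, hσ.2]

theorem sg_mem' {σ : ℝ} (hσ : σ ∈ Icc (0:ℝ) 1) : st.sg σ ∈ Icc (0:ℝ) 1.5 := by
  have h := sg_mem st hσ
  have := st.ls_hi
  exact ⟨h.1, by linarith [h.2]⟩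

/-- derivative of the angle along the reversed parametrisation -/
theorem A_s {σ : ℝ} (hσ : σ ∈ Icc (0:ℝ) 1) :
    HasDerivWithinAt (fun σ => st.a (st.sg σ)) (-(st.ls * st.h (st.sg σ))) (Icc 0 1) σ := by
  have h1 : HasDerivWithinAt st.sg (-st.ls) (Icc 0 1) σ := by
    unfold Star.sg
    have := ((hasDerivAt_id σ).const_sub 1).const_mul st.ls
    simpa using this.hasDerivWithinAt
  have h2 := (a_s st (sg_mem' st hσ)).scomp σ h1 (fun τ hτ => sg_mem' st hτ)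
  refine h2.congr_deriv ?_
  simp

theorem H_cont : ContinuousOn (fun σ => st.h (st.sg σ)) (Icc 0 1) := by
  have h1 : ContinuousOn st.sg (Icc 0 1) := by
    unfold Star.sg
    fun_prop
  have h2 : ContinuousOn st.h (Icc 0 1.5) := fun s hs => (h_s st hs).continuousWithinAt
  exact h2.comp h1 (fun τ hτ => sg_mem' st hτ)

theorem A_cont : ContinuousOn (fun σ => st.a (st.sg σ)) (Icc 0 1) :=
  fun _ hσ => (A_s st hσ).continuousWithinAt

theorem r_cont : ContinuousOn (fun σ => st.rho (st.sg σ)) (Icc 0 1) := by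
  have h1 : ContinuousOn st.sg (Icc 0 1) := by
    unfold Star.sg
    fun_prop
  have h2 : ContinuousOn st.rho (Icc 0 1.5) := fun s hs => (rho_s st hs).continuousWithinAt
  exact h2.comp h1 (fun τ hτ => sg_mem' st hτ)

theorem H_lo {σ : ℝ} (hσ : σ ∈ Icc (0:ℝ) 1) : 0.6 ≤ st.h (st.sg σ) :=
  st.h_lo _ (sg_mem st hσ)

/-- the constant value of curvature times Gaussian -/
noncomputable def C0 : ℝ := st.h 0 * st.rho 0

theorem C0_pos : 0 < C0 st := by
  have h0 : (0:ℝ) ∈ Icc (0:ℝ) st.ls := ⟨le_rfl, by linarith [st.ls_lo]⟩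
  have := st.h_lo 0 h0
  exact mul_pos (by unfold Star.h; linarith) (rho_pos st 0)

theorem H_r {σ : ℝ} (hσ : σ ∈ Icc (0:ℝ) 1) : st.h (st.sg σ) * st.rho (st.sg σ) = C0 st :=
  h_rho st (sg_mem' st hσ)

theorem inv_r {σ : ℝ} (hσ : σ ∈ Icc (0:ℝ) 1) :
    (st.rho (st.sg σ))⁻¹ = (C0 st)⁻¹ * st.h (st.sg σ) := by
  have h1 := H_r st hσ
  have h2 := (rho_pos st (st.sg σ)).ne'
  have h3 := (C0_pos st).ne'
  field_simp
  linarith

/-- integral of the reciprocal weight -/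
theorem int_inv {u v : ℝ} (hu : 0 ≤ u) (huv : u ≤ v) (hv : v ≤ 1) :
    ∫ σ in u..v, (st.rho (st.sg σ))⁻¹ =
      (C0 st)⁻¹ * (st.ls⁻¹ * (st.a (st.sg u) - st.a (st.sg v))) := by
  have hsub : Icc u v ⊆ Icc (0:ℝ) 1 := Icc_subset_Icc hu hv
  have hls : (0:ℝ) < st.ls := by linarith [st.ls_lo]
  have h1 : ∫ σ in u..v, (-(st.ls * st.h (st.sg σ))) = st.a (st.sg v) - st.a (st.sg u) := by
    apply integral_eq_sub_of_hasDeriv_right_of_le huv ((A_cont st).mono hsub)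
    · intro σ hσ
      have h1 := (A_s st (hsub ⟨hσ.1.le, hσ.2.le⟩)).mono hsub
      exact (h1.hasDerivAt (Icc_mem_nhds hσ.1 hσ.2)).hasDerivWithinAt
    · exact (((H_cont st).mono hsub).const_mul st.ls).neg.intervalIntegrable_of_Icc huv
  rw [intervalIntegral.integral_neg, intervalIntegral.integral_const_mul] at h1
  have h2 : ∀ σ ∈ uIcc u v, (st.rho (st.sg σ))⁻¹ = (C0 st)⁻¹ * st.h (st.sg σ) := by
    intro σ hσ
    rw [uIcc_of_le huv] at hσ
    exact inv_r st (hsub hσ)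
  rw [integral_congr h2, intervalIntegral.integral_const_mul]
  congr 1
  field_simp
  linarith

/-- integral of `h * (a - 1/2)` -/
theorem int_hA {u v : ℝ} (hu : 0 ≤ u) (huv : u ≤ v) (hv : v ≤ 1) :
    ∫ σ in u..v, st.h (st.sg σ) * (st.a (st.sg σ) - 1 / 2) =
      st.ls⁻¹ * ((st.a (st.sg u) - 1 / 2) ^ 2 / 2 - (st.a (st.sg v) - 1 / 2) ^ 2 / 2) := by
  have hsub : Icc u v ⊆ Icc (0:ℝ) 1 := Icc_subset_Icc hu hv
  have hls : (0:ℝ) < st.ls := by linarith [st.ls_lo]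
  have h1 : ∫ σ in u..v, (-st.ls) * (st.h (st.sg σ) * (st.a (st.sg σ) - 1 / 2)) =
      (st.a (st.sg v) - 1 / 2) ^ 2 / 2 - (st.a (st.sg u) - 1 / 2) ^ 2 / 2 := by
    apply integral_eq_sub_of_hasDeriv_right_of_le (f := fun σ => (st.a (st.sg σ) - 1 / 2) ^ 2 / 2)
      huv
    · exact ((((A_cont st).mono hsub).sub continuousOn_const).pow 2).div_const 2
    · intro σ hσ
      have h1 := (A_s st (hsub ⟨hσ.1.le, hσ.2.le⟩)).mono hsub
      have h2 := ((h1.hasDerivAt (Icc_mem_nhds hσ.1 hσ.2)).hasDerivWithinAt (s := Ioi σ))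
      have h3 := ((h2.sub_const (1 / 2 : ℝ)).pow 2).div_const 2
      refine h3.congr_deriv ?_
      simp
      ring
    · exact (((H_cont st).mono hsub).mul
        (((A_cont st).mono hsub).sub continuousOn_const)).const_mul (-st.ls)
        |>.intervalIntegrable_of_Icc huv
  rw [intervalIntegral.integral_const_mul] at h1
  rw [eq_inv_mul_iff_mul_eq₀ hls.ne']
  linarith

/-- the quadratic term on one side of the pinning point -/
theorem side {u v : ℝ} (hu : 0 ≤ u) (huv : u ≤ v) (hv : v ≤ 1) {N G : ℝ → ℝ} {E : ℝ}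
    (hNc : ContinuousOn N (Icc u v)) (hGc : ContinuousOn G (Icc u v))
    (hb : ∀ σ ∈ Icc u v, N σ ^ 2 ≤ E * ((C0 st)⁻¹ * (st.ls⁻¹ * G σ)))
    (hG : ∀ σ ∈ Icc u v, 0 ≤ G σ) (hE : 0 ≤ E) :
    ∫ σ in u..v, st.ls * (st.h (st.sg σ) ^ 2 + 1) * N σ ^ 2 * st.rho (st.sg σ) ≤
      E * (34 / 9) * ∫ σ in u..v, st.h (st.sg σ) * G σ := by
  have hsub : Icc u v ⊆ Icc (0:ℝ) 1 := Icc_subset_Icc hu hv
  have hls : (0:ℝ) < st.ls := by linarith [st.ls_lo]
  have hHc := (H_cont st).mono hsub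
  have hrc := (r_cont st).mono hsub
  rw [← intervalIntegral.integral_const_mul]
  apply intervalIntegral.integral_mono_on huv
  · exact ((((hHc.pow 2).add continuousOn_const).const_mul st.ls).mul (hNc.pow 2)).mul hrc
      |>.intervalIntegrable_of_Icc huv
  · exact ((hHc.mul hGc).const_mul _).intervalIntegrable_of_Icc huv
  · intro σ hσ
    have h1 := hb σ hσ
    have h2 := H_r st (hsub hσ)
    have h3 := H_lo st (hsub hσ)
    have h4 := rho_pos st (st.sg σ)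
    have h5 := hG σ hσ
    set H := st.h (st.sg σ)
    set r := st.rho (st.sg σ)
    have hH : 0 < H := by linarith
    rw [← h2] at h1
    have h6 : st.ls * (H ^ 2 + 1) * N σ ^ 2 * r ≤
        st.ls * (H ^ 2 + 1) * (E * ((H * r)⁻¹ * (st.ls⁻¹ * G σ))) * r := by
      gcongr
    refine h6.trans ?_
    have h7 : st.ls * (H ^ 2 + 1) * (E * ((H * r)⁻¹ * (st.ls⁻¹ * G σ))) * r =
        E * G σ * ((H ^ 2 + 1) / H) := by
      field_simp
    rw [h7]
    have h8 : (H ^ 2 + 1) / H ≤ 34 / 9 * H := by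
      rw [div_le_iff₀ hH]
      nlinarith
    calc E * G σ * ((H ^ 2 + 1) / H) ≤ E * G σ * (34 / 9 * H) := by gcongr
      _ = E * (34 / 9) * (H * G σ) := by ring

end ST1

/-- ST1 -/
theorem pinned (st : Star) {σ0 : ℝ} (h0 : σ0 ∈ Ioo (0:ℝ) 1) (ha : st.a (st.sg σ0) = 1 / 2)
    {N N' : ℝ → ℝ} (hN : C1 N N') (hp : N σ0 = 0) :
    0.1 * (∫ σ in (0:ℝ)..1, N' σ ^ 2 / st.ls * st.rho (st.sg σ)) ≤
      st.Qs N N' - st.hJ * st.rJ / Real.sqrt 3 * N 0 ^ 2 := by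
  obtain ⟨hN1, hN2⟩ := hN
  have hls : (0:ℝ) < st.ls := by linarith [st.ls_lo]
  have hC0 := ST1.C0_pos st
  have hNc : ContinuousOn N (Icc 0 1) := fun σ hσ => (hN1 σ hσ).continuousWithinAt
  have hrc := ST1.r_cont st
  have hHc := ST1.H_cont st
  have hAc := ST1.A_cont st
  have hgc : ContinuousOn (fun σ => N' σ ^ 2 * st.rho (st.sg σ)) (Icc 0 1) := (hN2.pow 2).mul hrc
  have hI : ∀ {f : ℝ → ℝ} {u v : ℝ}, ContinuousOn f (Icc 0 1) → 0 ≤ u → u ≤ v → v ≤ 1 →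
      IntervalIntegrable f volume u v := by
    intro f u v hf hu huv hv
    exact (hf.mono (Icc_subset_Icc hu hv)).intervalIntegrable_of_Icc huv
  have hgn : ∀ σ, 0 ≤ N' σ ^ 2 * st.rho (st.sg σ) := fun σ =>
    mul_nonneg (sq_nonneg _) (ST1.rho_pos st _).le
  -- Cauchy-Schwarz on a subinterval
  have hcs : ∀ {u v : ℝ}, 0 ≤ u → u ≤ v → v ≤ 1 → (N v - N u) ^ 2 ≤
      (∫ σ in u..v, N' σ ^ 2 * st.rho (st.sg σ)) *
        ((ST1.C0 st)⁻¹ * (st.ls⁻¹ * (st.a (st.sg u) - st.a (st.sg v)))) := by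
    intro u v hu huv hv
    have hsub : Icc u v ⊆ Icc (0:ℝ) 1 := Icc_subset_Icc hu hv
    have := ST1.cs_pin huv (fun σ hσ => (hN1 σ (hsub hσ)).mono hsub) (hN2.mono hsub)
      (hrc.mono hsub) (fun σ _ => ST1.rho_pos st _)
    rwa [ST1.int_inv st hu huv hv] at this
  set E1 := ∫ σ in (0:ℝ)..σ0, N' σ ^ 2 * st.rho (st.sg σ) with hE1
  set E2 := ∫ σ in σ0..1, N' σ ^ 2 * st.rho (st.sg σ) with hE2
  have hE1n : 0 ≤ E1 := intervalIntegral.integral_nonneg h0.1.le (fun σ _ => hgn σ)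
  have hE2n : 0 ≤ E2 := intervalIntegral.integral_nonneg h0.2.le (fun σ _ => hgn σ)
  have hA0 : st.a (st.sg 0) = Real.pi / 3 := by simp [Star.sg, st.a_ls]
  have hA1 : st.a (st.sg 1) = 0 := by simp [Star.sg, st.arc.a_0]
  -- monotonicity of the angle
  have hmono : ∀ {u v : ℝ}, 0 ≤ u → u ≤ v → v ≤ 1 → st.a (st.sg v) ≤ st.a (st.sg u) := by
    intro u v hu huv hv
    have h1 := ST1.int_inv st hu huv hv
    have h2 : 0 ≤ ∫ σ in u..v, (st.rho (st.sg σ))⁻¹ :=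
      intervalIntegral.integral_nonneg huv (fun σ _ => (inv_pos.mpr (ST1.rho_pos st _)).le)
    rw [h1] at h2
    have h3 : 0 ≤ st.ls⁻¹ * (st.a (st.sg u) - st.a (st.sg v)) := by
      by_contra hcon
      push Not at hcon
      have := mul_neg_of_pos_of_neg (inv_pos.mpr hC0) hcon
      linarith
    by_contra hcon
    push Not at hcon
    have := mul_neg_of_pos_of_neg (inv_pos.mpr hls)
      (show st.a (st.sg u) - st.a (st.sg v) < 0 by linarith)
    linarith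
  -- junction side
  have hb1 : ∀ σ ∈ Icc (0:ℝ) σ0, N σ ^ 2 ≤
      E1 * ((ST1.C0 st)⁻¹ * (st.ls⁻¹ * (st.a (st.sg σ) - 1 / 2))) := by
    intro σ hσ
    have h1 := hcs hσ.1 hσ.2 h0.2.le
    rw [hp, ha] at h1
    have h2 : ∫ τ in σ..σ0, N' τ ^ 2 * st.rho (st.sg τ) ≤ E1 := by
      rw [hE1]
      apply intervalIntegral.integral_mono_interval hσ.1 hσ.2 le_rfl
      · exact Filter.Eventually.of_forall hgn
      · exact hI hgc le_rfl h0.1.le h0.2.le
    have h3 : 0 ≤ (ST1.C0 st)⁻¹ * (st.ls⁻¹ * (st.a (st.sg σ) - 1 / 2)) := by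
      have := hmono hσ.1 hσ.2 h0.2.le
      rw [ha] at this
      have h4 : 0 ≤ st.a (st.sg σ) - 1 / 2 := by linarith
      positivity
    calc N σ ^ 2 = (0 - N σ) ^ 2 := by ring
      _ ≤ _ := h1
      _ ≤ _ := mul_le_mul_of_nonneg_right h2 h3
  have hG1 : ∀ σ ∈ Icc (0:ℝ) σ0, 0 ≤ st.a (st.sg σ) - 1 / 2 := by
    intro σ hσ
    have := hmono hσ.1 hσ.2 h0.2.le
    linarith
  have hs1 := ST1.side st (G := fun σ => st.a (st.sg σ) - 1 / 2) le_rfl h0.1.le h0.2.le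
    (hNc.mono (Icc_subset_Icc le_rfl h0.2.le))
    ((hAc.sub continuousOn_const).mono (Icc_subset_Icc le_rfl h0.2.le)) hb1 hG1 hE1n
  rw [ST1.int_hA st le_rfl h0.1.le h0.2.le, ha, hA0] at hs1
  -- axis side
  have hb2 : ∀ σ ∈ Icc σ0 (1:ℝ), N σ ^ 2 ≤
      E2 * ((ST1.C0 st)⁻¹ * (st.ls⁻¹ * (1 / 2 - st.a (st.sg σ)))) := by
    intro σ hσ
    have h1 := hcs h0.1.le hσ.1 hσ.2
    rw [hp, ha] at h1
    have h2 : ∫ τ in σ0..σ, N' τ ^ 2 * st.rho (st.sg τ) ≤ E2 := by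
      rw [hE2]
      apply intervalIntegral.integral_mono_interval le_rfl hσ.1 hσ.2
      · exact Filter.Eventually.of_forall hgn
      · exact hI hgc h0.1.le h0.2.le le_rfl
    have h3 : 0 ≤ (ST1.C0 st)⁻¹ * (st.ls⁻¹ * (1 / 2 - st.a (st.sg σ))) := by
      have := hmono h0.1.le hσ.1 hσ.2
      rw [ha] at this
      have h4 : 0 ≤ 1 / 2 - st.a (st.sg σ) := by linarith
      positivity
    calc N σ ^ 2 = (N σ - 0) ^ 2 := by ring
      _ ≤ _ := h1
      _ ≤ _ := mul_le_mul_of_nonneg_right h2 h3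
  have hG2 : ∀ σ ∈ Icc σ0 (1:ℝ), 0 ≤ 1 / 2 - st.a (st.sg σ) := by
    intro σ hσ
    have := hmono h0.1.le hσ.1 hσ.2
    linarith
  have hs2 := ST1.side st (G := fun σ => 1 / 2 - st.a (st.sg σ)) h0.1.le h0.2.le le_rfl
    (hNc.mono (Icc_subset_Icc h0.1.le le_rfl))
    ((continuousOn_const.sub hAc).mono (Icc_subset_Icc h0.1.le le_rfl)) hb2 hG2 hE2n
  have hneg : ∫ σ in σ0..1, st.h (st.sg σ) * (1 / 2 - st.a (st.sg σ)) =
      -∫ σ in σ0..1, st.h (st.sg σ) * (st.a (st.sg σ) - 1 / 2) := by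
    rw [← intervalIntegral.integral_neg]
    congr 1
    ext σ
    ring
  rw [hneg, ST1.int_hA st h0.1.le h0.2.le le_rfl, ha, hA1] at hs2
  -- the boundary term
  have hJ : st.hJ * st.rJ = ST1.C0 st := by
    have := ST1.H_r st (σ := 0) ⟨le_rfl, zero_le_one⟩
    simpa [Star.sg, Star.hJ, Star.rJ] using this
  have hbd := hb1 0 ⟨le_rfl, h0.1.le⟩
  rw [hA0] at hbd
  have hq1 : ContinuousOn (fun σ => N' σ ^ 2 / st.ls * st.rho (st.sg σ)) (Icc 0 1) :=
    ((hN2.pow 2).div_const _).mul hrc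
  have hq2 : ContinuousOn (fun σ => st.ls * (st.h (st.sg σ) ^ 2 + 1) * N σ ^ 2 *
      st.rho (st.sg σ)) (Icc 0 1) :=
    ((((hHc.pow 2).add continuousOn_const).const_mul st.ls).mul (hNc.pow 2)).mul hrc
  have hlhs : ∫ σ in (0:ℝ)..1, N' σ ^ 2 / st.ls * st.rho (st.sg σ) = (E1 + E2) / st.ls := by
    rw [hE1, hE2, intervalIntegral.integral_add_adjacent_intervals
      (hI hgc le_rfl h0.1.le h0.2.le) (hI hgc h0.1.le h0.2.le le_rfl),
      ← intervalIntegral.integral_div]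
    congr 1
    ext σ
    ring
  have hQ : st.Qs N N' = (E1 + E2) / st.ls -
      ((∫ σ in (0:ℝ)..σ0, st.ls * (st.h (st.sg σ) ^ 2 + 1) * N σ ^ 2 * st.rho (st.sg σ)) +
        ∫ σ in σ0..1, st.ls * (st.h (st.sg σ) ^ 2 + 1) * N σ ^ 2 * st.rho (st.sg σ)) := by
    rw [← hlhs, intervalIntegral.integral_add_adjacent_intervals
      (hI hq2 le_rfl h0.1.le h0.2.le) (hI hq2 h0.1.le h0.2.le le_rfl),
      ← intervalIntegral.integral_sub (hI hq1 le_rfl zero_le_one le_rfl)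
        (hI hq2 le_rfl zero_le_one le_rfl)]
    unfold Star.Qs
    congr 1
    ext σ
    ring
  rw [hQ, hlhs, hJ]
  have hpi := Real.pi_lt_d4
  have hpi2 := Real.pi_gt_d4
  have h3 : (1.732:ℝ) ≤ Real.sqrt 3 := by
    apply Real.le_sqrt_of_sq_le
    norm_num
  have h3' : 0 < Real.sqrt 3 := by linarith
  have hb : ST1.C0 st / Real.sqrt 3 * N 0 ^ 2 ≤ 0.32 * (E1 / st.ls) := by
    calc ST1.C0 st / Real.sqrt 3 * N 0 ^ 2 ≤ ST1.C0 st / Real.sqrt 3 *
          (E1 * ((ST1.C0 st)⁻¹ * (st.ls⁻¹ * (Real.pi / 3 - 1 / 2)))) := by gcongr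
      _ = (Real.pi / 3 - 1 / 2) / Real.sqrt 3 * (E1 / st.ls) := by
          field_simp
      _ ≤ 0.32 * (E1 / st.ls) := by
          have : (Real.pi / 3 - 1 / 2) / Real.sqrt 3 ≤ 0.32 := by
            rw [div_le_iff₀ h3']
            nlinarith
          have h5 : 0 ≤ E1 / st.ls := by positivity
          nlinarith
  have hs1' : E1 * (34 / 9) * (st.ls⁻¹ * ((Real.pi / 3 - 1 / 2) ^ 2 / 2 -
      ((1:ℝ) / 2 - 1 / 2) ^ 2 / 2)) ≤ 0.57 * (E1 / st.ls) := by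
    have h5 : 0 ≤ E1 / st.ls := by positivity
    have h6 : E1 * (34 / 9) * (st.ls⁻¹ * ((Real.pi / 3 - 1 / 2) ^ 2 / 2 -
      ((1:ℝ) / 2 - 1 / 2) ^ 2 / 2)) = (34 / 9 * ((Real.pi / 3 - 1 / 2) ^ 2 / 2)) * (E1 / st.ls) := by
      field_simp
      ring
    rw [h6]
    have h7 : 34 / 9 * ((Real.pi / 3 - 1 / 2) ^ 2 / 2) ≤ (0.57:ℝ) := by
      nlinarith
    nlinarith
  have hs2' : E2 * (34 / 9) * -(st.ls⁻¹ * (((1:ℝ) / 2 - 1 / 2) ^ 2 / 2 -
      ((0:ℝ) - 1 / 2) ^ 2 / 2)) ≤ 0.5 * (E2 / st.ls) := by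
    have h5 : 0 ≤ E2 / st.ls := by positivity
    have h6 : E2 * (34 / 9) * -(st.ls⁻¹ * (((1:ℝ) / 2 - 1 / 2) ^ 2 / 2 -
      ((0:ℝ) - 1 / 2) ^ 2 / 2)) = (34 / 72) * (E2 / st.ls) := by
      field_simp
      ring
    rw [h6]
    nlinarith
  have h5 : 0 ≤ E1 / st.ls := by positivity
  have h6 : 0 ≤ E2 / st.ls := by positivity
  have h7 : (E1 + E2) / st.ls = E1 / st.ls + E2 / st.ls := by ring
  rw [h7]
  linarith

end Pool.Agent.Helper15.NF
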