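import Pool.Agent.Helper15.NF.ST0
import Pool.Agent.Helper15.NF.ST1

open Set MeasureTheory intervalIntegral Filter Topology

namespace Pool.Agent.Helper15.NF

namespace ST2
variable (st : Star)

/-- the functions on `[0,1]` -/
noncomputable def X (σ : ℝ) : ℝ := st.x (st.sg σ)
noncomputable def Y (σ : ℝ) : ℝ := st.y (st.sg σ)
noncomputable def A (σ : ℝ) : ℝ := st.a (st.sg σ)
noncomputable def H (σ : ℝ) : ℝ := st.h (st.sg σ)
noncomputable def Pp (σ : ℝ) : ℝ := st.p (st.sg σ)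
noncomputable def Rh (σ : ℝ) : ℝ := st.rho (st.sg σ)

theorem ls_pos : 0 < st.ls := by have := st.ls_lo; linarith

theorem sg_maps : MapsTo st.sg (Icc 0 1) (Icc 0 1.5) := by
  intro σ hσ
  have h1 := st.ls_lo
  have h2 := st.ls_hi
  have h0 := ls_pos st
  simp only [Star.sg, mem_Icc] at *
  constructor
  · exact mul_nonneg h0.le (by linarith [hσ.2])
  · nlinarith [hσ.1, hσ.2]

theorem sg_maps' : MapsTo st.sg (Icc 0 1) (Icc 0 st.ls) := by
  intro σ hσ
  have h0 := ls_pos st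
  simp only [Star.sg, mem_Icc] at *
  constructor
  · exact mul_nonneg h0.le (by linarith [hσ.2])
  · nlinarith [hσ.1, hσ.2]

theorem sg_d (σ : ℝ) : HasDerivWithinAt st.sg (-st.ls) (Icc 0 1) σ := by
  have h : HasDerivAt (fun σ : ℝ => st.ls * (1 - σ)) (-st.ls) σ := by
    have := ((hasDerivAt_const σ (1:ℝ)).sub (hasDerivAt_id σ)).const_mul st.ls
    exact this.congr_deriv (by ring)
  exact h.hasDerivWithinAt

theorem X_d {σ : ℝ} (hσ : σ ∈ Icc (0:ℝ) 1) :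
    HasDerivWithinAt (X st) (-(st.ls * Real.cos (A st σ))) (Icc 0 1) σ := by
  have := (st.arc.x_s (st.sg σ) (sg_maps st hσ)).comp σ (sg_d st σ) (sg_maps st)
  exact this.congr_deriv (by simp only [A]; ring)

theorem Y_d {σ : ℝ} (hσ : σ ∈ Icc (0:ℝ) 1) :
    HasDerivWithinAt (Y st) (st.ls * Real.sin (A st σ)) (Icc 0 1) σ := by
  have := (st.arc.y_s (st.sg σ) (sg_maps st hσ)).comp σ (sg_d st σ) (sg_maps st)
  exact this.congr_deriv (by simp only [A]; ring)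

theorem A_d {σ : ℝ} (hσ : σ ∈ Icc (0:ℝ) 1) :
    HasDerivWithinAt (A st) (-(st.ls * H st σ)) (Icc 0 1) σ := by
  have := (st.arc.a_s (st.sg σ) (sg_maps st hσ)).comp σ (sg_d st σ) (sg_maps st)
  exact this.congr_deriv (by simp only [H, Star.h]; ring)

theorem H_eq (σ : ℝ) : H st σ = X st σ * Real.sin (A st σ) + Y st σ * Real.cos (A st σ) := rfl
theorem P_eq (σ : ℝ) : Pp st σ = X st σ * Real.cos (A st σ) - Y st σ * Real.sin (A st σ) := rfl
theorem R_eq (σ : ℝ) : Rh st σ = Real.exp (-((X st σ ^ 2 + Y st σ ^ 2) / 2)) := rfl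

theorem sinA_d {σ : ℝ} (hσ : σ ∈ Icc (0:ℝ) 1) :
    HasDerivWithinAt (fun σ => Real.sin (A st σ)) (-(st.ls * H st σ * Real.cos (A st σ)))
      (Icc 0 1) σ := by
  exact (A_d st hσ).sin.congr_deriv (by ring)

theorem cosA_d {σ : ℝ} (hσ : σ ∈ Icc (0:ℝ) 1) :
    HasDerivWithinAt (fun σ => Real.cos (A st σ)) (st.ls * H st σ * Real.sin (A st σ))
      (Icc 0 1) σ := by
  exact (A_d st hσ).cos.congr_deriv (by ring)

theorem H_d {σ : ℝ} (hσ : σ ∈ Icc (0:ℝ) 1) :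
    HasDerivWithinAt (H st) (-(st.ls * (H st σ * Pp st σ))) (Icc 0 1) σ := by
  have h := ((X_d st hσ).mul (sinA_d st hσ)).add ((Y_d st hσ).mul (cosA_d st hσ))
  have he : H st = (fun σ => X st σ * Real.sin (A st σ) + Y st σ * Real.cos (A st σ)) := by
    funext s; exact H_eq st s
  rw [he]
  refine h.congr_deriv ?_
  rw [P_eq]
  simp only [H_eq]
  ring

theorem P_d {σ : ℝ} (hσ : σ ∈ Icc (0:ℝ) 1) :
    HasDerivWithinAt (Pp st) (-(st.ls * (1 - H st σ ^ 2))) (Icc 0 1) σ := by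
  have h := ((X_d st hσ).mul (cosA_d st hσ)).sub ((Y_d st hσ).mul (sinA_d st hσ))
  have he : Pp st = (fun σ => X st σ * Real.cos (A st σ) - Y st σ * Real.sin (A st σ)) := by
    funext s; exact P_eq st s
  rw [he]
  refine h.congr_deriv ?_
  have hs := Real.sin_sq_add_cos_sq (A st σ)
  have : -(st.ls * (1 - H st σ ^ 2)) = -(st.ls * ((Real.sin (A st σ) ^ 2 + Real.cos (A st σ) ^ 2)
    - H st σ * H st σ)) := by rw [hs]; ring
  rw [this]
  simp only [H_eq]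
  ring

theorem R_d {σ : ℝ} (hσ : σ ∈ Icc (0:ℝ) 1) :
    HasDerivWithinAt (Rh st) (st.ls * (Pp st σ * Rh st σ)) (Icc 0 1) σ := by
  have h := ((((X_d st hσ).pow 2).add ((Y_d st hσ).pow 2)).div_const 2).neg.exp
  have he : Rh st = (fun σ => Real.exp (-((X st σ ^ 2 + Y st σ ^ 2) / 2))) := by
    funext s; exact R_eq st s
  rw [he]
  refine h.congr_deriv ?_
  simp only [P_eq, Pi.pow_apply, Pi.add_apply]
  simp
  ring

theorem X_c : ContinuousOn (X st) (Icc 0 1) := fun _ h => (X_d st h).continuousWithinAt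
theorem Y_c : ContinuousOn (Y st) (Icc 0 1) := fun _ h => (Y_d st h).continuousWithinAt
theorem A_c : ContinuousOn (A st) (Icc 0 1) := fun _ h => (A_d st h).continuousWithinAt
theorem H_c : ContinuousOn (H st) (Icc 0 1) := fun _ h => (H_d st h).continuousWithinAt
theorem P_c : ContinuousOn (Pp st) (Icc 0 1) := fun _ h => (P_d st h).continuousWithinAt
theorem R_c : ContinuousOn (Rh st) (Icc 0 1) := fun _ h => (R_d st h).continuousWithinAt

theorem R_pos (σ : ℝ) : 0 < Rh st σ := Real.exp_pos _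

theorem sg_zero : st.sg 0 = st.ls := by simp [Star.sg]
theorem sg_one : st.sg 1 = 0 := by simp [Star.sg]

theorem HR {σ : ℝ} (hσ : σ ∈ Icc (0:ℝ) 1) : H st σ * Rh st σ = st.hJ * st.rJ := by
  have hd : ∀ s ∈ Icc (0:ℝ) 1, HasDerivWithinAt (fun s => H st s * Rh st s) 0 (Icc 0 1) s := by
    intro s hs
    exact ((H_d st hs).mul (R_d st hs)).congr_deriv (by ring)
  have := constant_of_derivWithin_zero (f := fun s => H st s * Rh st s) (a := 0) (b := 1)
    (fun s hs => (hd s hs).differentiableWithinAt)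
    (fun s hs => (hd s ⟨hs.1, hs.2.le⟩).derivWithin
      (uniqueDiffOn_Icc (by norm_num) s ⟨hs.1, hs.2.le⟩)) σ hσ
  rw [this]
  simp only [H, Rh, sg_zero]
  rfl

theorem A_zero : A st 0 = Real.pi / 3 := by simp only [A, sg_zero]; exact st.a_ls
theorem A_one : A st 1 = 0 := by simp only [A, sg_one]; exact st.arc.a_0

theorem hJ_eq : st.hJ = Real.sqrt 3 / 2 * st.xi := by
  simp only [Star.hJ, Star.h, Star.xi, st.a_ls, st.y_ls, Real.sin_pi_div_three]
  ring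

theorem P_zero : Pp st 0 = st.hJ / Real.sqrt 3 := by
  have h3 : Real.sqrt 3 ≠ 0 := by positivity
  rw [hJ_eq]
  simp only [Pp, sg_zero, Star.p, Star.xi, st.a_ls, st.y_ls, Real.cos_pi_div_three]
  field_simp
  ring

theorem P_one : Pp st 1 = 0 := by
  simp only [Pp, sg_one, Star.p, st.arc.a_0, st.arc.x_0]
  simp

theorem H_zero : H st 0 = st.hJ := by simp only [H, sg_zero]; rfl

theorem H_lo {σ : ℝ} (hσ : σ ∈ Icc (0:ℝ) 1) : 0.6 ≤ H st σ := st.h_lo _ (sg_maps' st hσ)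
theorem H_hi {σ : ℝ} (hσ : σ ∈ Icc (0:ℝ) 1) : H st σ ≤ 1.05 := st.h_hi _ (sg_maps' st hσ)

theorem hJ_pos : 0 < st.hJ := by
  have := H_lo st (σ := 0) (by norm_num)
  rw [H_zero] at this
  linarith

theorem rJ_pos : 0 < st.rJ := Real.exp_pos _

/-- integrability on `[0,1]` -/
theorem ii {f : ℝ → ℝ} (hf : ContinuousOn f (Icc 0 1)) :
    IntervalIntegrable f volume 0 1 := by
  apply ContinuousOn.intervalIntegrable
  rwa [uIcc_of_le (by norm_num)]

theorem C1.cont {N N' : ℝ → ℝ} (h : C1 N N') : ContinuousOn N (Icc 0 1) :=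
  fun s hs => (h.1 s hs).continuousWithinAt

/-- fundamental theorem of calculus on `[0,1]` -/
theorem ftc {N N' : ℝ → ℝ} (h : C1 N N') : ∫ σ in (0:ℝ)..1, N' σ = N 1 - N 0 := by
  apply integral_eq_sub_of_hasDerivAt_of_le (by norm_num) (C1.cont h)
    _ (ii h.2)
  intro s hs
  exact (h.1 s ⟨hs.1.le, hs.2.le⟩).hasDerivAt (Icc_mem_nhds hs.1 hs.2)

theorem ftc_sub {N N' : ℝ → ℝ} (h : C1 N N') {a b : ℝ} (ha : 0 ≤ a) (hab : a ≤ b) (hb : b ≤ 1) :
    ∫ σ in a..b, N' σ = N b - N a := by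
  have hsub : Icc a b ⊆ Icc 0 1 := Icc_subset_Icc ha hb
  apply integral_eq_sub_of_hasDerivAt_of_le hab ((C1.cont h).mono hsub)
  · intro s hs
    exact (h.1 s ⟨ha.trans hs.1.le, hs.2.le.trans hb⟩).hasDerivAt
      (Icc_mem_nhds (lt_of_le_of_lt ha hs.1) (lt_of_lt_of_le hs.2 hb))
  · apply ContinuousOn.intervalIntegrable
    rw [uIcc_of_le hab]
    exact h.2.mono hsub

theorem sq_sub_le {N N' : ℝ → ℝ} (h : C1 N N') {a b : ℝ} (ha : 0 ≤ a) (hab : a ≤ b) (hb : b ≤ 1) :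
    (N b - N a) ^ 2 ≤ ∫ s in (0:ℝ)..1, N' s ^ 2 := by
  have hsub : Icc a b ⊆ Icc 0 1 := Icc_subset_Icc ha hb
  rw [← ftc_sub h ha hab hb]
  set I := ∫ σ in a..b, N' σ with hI
  have hc : ContinuousOn N' (uIcc a b) := by rw [uIcc_of_le hab]; exact h.2.mono hsub
  have hi1 : IntervalIntegrable N' volume a b := hc.intervalIntegrable
  have hi2 : IntervalIntegrable (fun s => N' s ^ 2) volume a b := (hc.pow 2).intervalIntegrable
  have h1 : (0:ℝ) ≤ ∫ s in a..b, (N' s - I) ^ 2 :=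
    integral_nonneg hab (fun s _ => sq_nonneg _)
  have h2 : ∫ s in a..b, (N' s - I) ^ 2 = (∫ s in a..b, N' s ^ 2) - 2 * I * I + I ^ 2 * (b - a) := by
    have : (fun s => (N' s - I) ^ 2) = fun s => (N' s ^ 2 - 2 * I * N' s) + I ^ 2 := by
      funext s; ring
    rw [this, integral_add (hi2.sub (hi1.const_mul _)) intervalIntegrable_const,
      integral_sub hi2 (hi1.const_mul _), intervalIntegral.integral_const_mul,
      intervalIntegral.integral_const, smul_eq_mul]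
    ring
  have h3 : (∫ s in a..b, N' s ^ 2) ≤ ∫ s in (0:ℝ)..1, N' s ^ 2 := by
    apply integral_mono_interval ha hab hb
    · exact Eventually.of_forall (fun s => sq_nonneg _)
    · exact ii (h.2.pow 2)
  have h4 : I ^ 2 * (b - a) ≤ I ^ 2 := by
    have : b - a ≤ 1 := by linarith
    nlinarith [sq_nonneg I]
  nlinarith [h1, h2, h3, h4]

/-- `N(σ)^2 ≤ ∫ N'^2` if `N` vanishes somewhere -/
theorem pin_sq {N N' : ℝ → ℝ} (h : C1 N N') {σ0 : ℝ} (h0 : σ0 ∈ Icc (0:ℝ) 1) (hz : N σ0 = 0)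
    {σ : ℝ} (hσ : σ ∈ Icc (0:ℝ) 1) : N σ ^ 2 ≤ ∫ s in (0:ℝ)..1, N' s ^ 2 := by
  rcases le_total σ0 σ with h1 | h1
  · have := sq_sub_le h h0.1 h1 hσ.2
    rwa [hz, sub_zero] at this
  · have := sq_sub_le h hσ.1 h1 h0.2
    rwa [hz, zero_sub, neg_sq] at this

theorem int_pin {N N' : ℝ → ℝ} (h : C1 N N') {σ0 : ℝ} (h0 : σ0 ∈ Icc (0:ℝ) 1) (hz : N σ0 = 0) :
    ∫ s in (0:ℝ)..1, N s ^ 2 ≤ ∫ s in (0:ℝ)..1, N' s ^ 2 := by
  have : ∫ s in (0:ℝ)..1, N s ^ 2 ≤ ∫ s in (0:ℝ)..1, (∫ s in (0:ℝ)..1, N' s ^ 2) := by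
    apply integral_mono_on (by norm_num) (ii ((C1.cont h).pow 2)) intervalIntegrable_const
    intro s hs
    exact pin_sq h h0 hz hs
  rwa [intervalIntegral.integral_const, smul_eq_mul, sub_zero, one_mul] at this

/-- the polarised form -/
noncomputable def BQ (f f' g g' : ℝ → ℝ) : ℝ :=
  ∫ σ in (0:ℝ)..1, (f' σ * g' σ / st.ls - st.ls * (H st σ ^ 2 + 1) * (f σ * g σ)) * Rh st σ

theorem Qs_eq (N N' : ℝ → ℝ) : st.Qs N N' = BQ st N N' N N' := by
  simp only [Star.Qs, BQ]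
  apply integral_congr
  intro s _
  simp only [H, Rh]
  ring

theorem BQ_cont {f f' g g' : ℝ → ℝ} (hf : C1 f f') (hg : C1 g g') :
    ContinuousOn (fun σ => (f' σ * g' σ / st.ls - st.ls * (H st σ ^ 2 + 1) * (f σ * g σ)) * Rh st σ)
      (Icc 0 1) := by
  have h1 := C1.cont hf
  have h2 := C1.cont hg
  have h3 := hf.2
  have h4 := hg.2
  have h5 := H_c st
  have h6 := R_c st
  exact (((h3.mul h4).div_const _).sub ((continuousOn_const.mul ((h5.pow 2).add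
    continuousOn_const)).mul (h1.mul h2))).mul h6

/-- quadratic expansion -/
theorem BQ_expand {f f' g g' : ℝ → ℝ} (hf : C1 f f') (hg : C1 g g') (c : ℝ) :
    BQ st (fun s => f s + c * g s) (fun s => f' s + c * g' s) (fun s => f s + c * g s)
      (fun s => f' s + c * g' s) = BQ st f f' f f' + 2 * c * BQ st f f' g g'
        + c ^ 2 * BQ st g g' g g' := by
  have i1 := ii (BQ_cont st hf hf)
  have i2 := ii (BQ_cont st hf hg)
  have i3 := ii (BQ_cont st hg hg)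
  simp only [BQ]
  rw [← intervalIntegral.integral_const_mul, ← intervalIntegral.integral_const_mul,
    ← integral_add i1 (i2.const_mul _), ← integral_add (i1.add (i2.const_mul _)) (i3.const_mul _)]
  apply integral_congr
  intro s _
  simp only
  ring

theorem C1.comb {f f' g g' : ℝ → ℝ} (hf : C1 f f') (hg : C1 g g') (c : ℝ) :
    C1 (fun s => f s + c * g s) (fun s => f' s + c * g' s) :=
  ⟨fun s hs => (hf.1 s hs).add ((hg.1 s hs).const_mul c),
    hf.2.add (continuousOn_const.mul hg.2)⟩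

theorem C1_H : C1 (H st) (fun σ => -(st.ls * (H st σ * Pp st σ))) :=
  ⟨fun _ hs => H_d st hs, ((continuousOn_const.mul ((H_c st).mul (P_c st)))).neg⟩

/-- positive lower bound for the weight -/
theorem R_lo : ∃ r > 0, ∀ σ ∈ Icc (0:ℝ) 1, r ≤ Rh st σ := by
  obtain ⟨s, _, hs⟩ := isCompact_Icc.exists_isMinOn (nonempty_Icc.2 (zero_le_one (α := ℝ))) (R_c st)
  exact ⟨Rh st s, R_pos st s, fun _ hσ => hs hσ⟩

theorem bdd {f : ℝ → ℝ} (hf : ContinuousOn f (Icc 0 1)) :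
    ∃ K > 0, ∀ σ ∈ Icc (0:ℝ) 1, f σ ^ 2 ≤ K := by
  obtain ⟨s, _, hs⟩ := isCompact_Icc.exists_isMaxOn (nonempty_Icc.2 (zero_le_one (α := ℝ)))
    (hf.pow 2)
  exact ⟨f s ^ 2 + 1, by positivity, fun σ hσ => by
    have h : f σ ^ 2 ≤ f s ^ 2 := hs hσ
    linarith⟩

/-- H^1 norm of a combination -/
theorem comb_le {f f' g g' : ℝ → ℝ} (hf : C1 f f') (hg : C1 g g') {σ0 : ℝ}
    (h0 : σ0 ∈ Icc (0:ℝ) 1) (hz : f σ0 = 0) {r K : ℝ} (hr : 0 < r)
    (hR : ∀ σ ∈ Icc (0:ℝ) 1, r ≤ Rh st σ) (hK : ∀ σ ∈ Icc (0:ℝ) 1, g σ ^ 2 + g' σ ^ 2 ≤ K) (c : ℝ) :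
    ∫ σ in (0:ℝ)..1, ((f' σ + c * g' σ) ^ 2 + (f σ + c * g σ) ^ 2) ≤
      4 * (st.ls / r * ∫ σ in (0:ℝ)..1, f' σ ^ 2 / st.ls * Rh st σ) + 2 * K * c ^ 2 := by
  have hls := ls_pos st
  have hfc := C1.cont hf
  have hgc := C1.cont hg
  have i1 : IntervalIntegrable (fun σ => f' σ ^ 2) volume 0 1 := ii (hf.2.pow 2)
  have i2 : IntervalIntegrable (fun σ => f σ ^ 2) volume 0 1 := ii (hfc.pow 2)
  have i3 : IntervalIntegrable (fun σ => f' σ ^ 2 / st.ls * Rh st σ) volume 0 1 :=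
    ii (((hf.2.pow 2).div_const _).mul (R_c st))
  have e1 : ∫ σ in (0:ℝ)..1, ((f' σ + c * g' σ) ^ 2 + (f σ + c * g σ) ^ 2) ≤
      ∫ σ in (0:ℝ)..1, ((2 * f' σ ^ 2 + 2 * f σ ^ 2) + 2 * K * c ^ 2) := by
    apply integral_mono_on (by norm_num)
    · exact ii (((hf.2.add (continuousOn_const.mul hg.2)).pow 2).add
        ((hfc.add (continuousOn_const.mul hgc)).pow 2))
    · exact ((i1.const_mul 2).add (i2.const_mul 2)).add intervalIntegrable_const
    · intro s hs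
      have := hK s hs
      nlinarith [sq_nonneg (f' s - c * g' s), sq_nonneg (f s - c * g s), sq_nonneg c,
        mul_le_mul_of_nonneg_left this (sq_nonneg c)]
  have e2 : ∫ σ in (0:ℝ)..1, ((2 * f' σ ^ 2 + 2 * f σ ^ 2) + 2 * K * c ^ 2) =
      2 * (∫ σ in (0:ℝ)..1, f' σ ^ 2) + 2 * (∫ σ in (0:ℝ)..1, f σ ^ 2) + 2 * K * c ^ 2 := by
    rw [integral_add ((i1.const_mul 2).add (i2.const_mul 2)) intervalIntegrable_const,
      integral_add (i1.const_mul 2) (i2.const_mul 2), intervalIntegral.integral_const_mul,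
      intervalIntegral.integral_const_mul, intervalIntegral.integral_const, smul_eq_mul]
    ring
  have e3 := int_pin hf h0 hz
  have e4 : ∫ σ in (0:ℝ)..1, f' σ ^ 2 ≤ st.ls / r * ∫ σ in (0:ℝ)..1, f' σ ^ 2 / st.ls * Rh st σ := by
    rw [← intervalIntegral.integral_const_mul]
    apply integral_mono_on (by norm_num) i1 (i3.const_mul _)
    intro s hs
    have := hR s hs
    have h5 : st.ls / r * (f' s ^ 2 / st.ls * Rh st s) = f' s ^ 2 * (Rh st s / r) := by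
      field_simp
    rw [h5]
    have h6 : 1 ≤ Rh st s / r := (one_le_div hr).2 this
    nlinarith [sq_nonneg (f' s)]
  linarith

/-- pairing with the mode `h` -/
theorem BQ_H {N N' : ℝ → ℝ} (hN : C1 N N') :
    BQ st N N' (H st) (fun σ => -(st.ls * (H st σ * Pp st σ))) =
      st.hJ * st.rJ / Real.sqrt 3 * (N 0 * st.hJ)
        - 2 * (st.hJ * st.rJ) * st.ls * ∫ σ in (0:ℝ)..1, N σ := by
  have hls := ls_pos st
  have hNc := C1.cont hN
  set C0 := st.hJ * st.rJ with hC0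
  -- N * Pp is C1
  have hNP : C1 (fun σ => N σ * Pp st σ)
      (fun σ => N' σ * Pp st σ + N σ * (-(st.ls * (1 - H st σ ^ 2)))) :=
    ⟨fun s hs => (hN.1 s hs).mul (P_d st hs),
      (hN.2.mul (P_c st)).add (hNc.mul (continuousOn_const.mul
        (continuousOn_const.sub ((H_c st).pow 2))).neg)⟩
  have hf := ftc hNP
  rw [P_one, P_zero] at hf
  have i0 : IntervalIntegrable N volume 0 1 := ii hNc
  have iA : IntervalIntegrable
      (fun σ => N' σ * Pp st σ + N σ * (-(st.ls * (1 - H st σ ^ 2)))) volume 0 1 := ii hNP.2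
  have e : BQ st N N' (H st) (fun σ => -(st.ls * (H st σ * Pp st σ))) =
      ∫ σ in (0:ℝ)..1, ((-C0) * (N' σ * Pp st σ + N σ * (-(st.ls * (1 - H st σ ^ 2))))
        + (-(2 * C0 * st.ls)) * N σ) := by
    simp only [BQ]
    apply integral_congr
    intro s hs
    rw [uIcc_of_le (by norm_num)] at hs
    have hHR : H st s * Rh st s = C0 := HR st hs
    simp only
    rw [← hHR]
    field_simp
    ring
  rw [e, integral_add (iA.const_mul _) (i0.const_mul _), intervalIntegral.integral_const_mul,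
    intervalIntegral.integral_const_mul, hf]
  ring

end ST2

/-- ST2 : symmetric part -/
theorem coerc1 (st : Star) : ∃ c > 0, ∃ C > 0, ∀ N N' : ℝ → ℝ, C1 N N' →
    c * (∫ σ in (0:ℝ)..1, (N' σ ^ 2 + N σ ^ 2)) - C * (∫ σ in (0:ℝ)..1, N σ) ^ 2 ≤
      st.Qs N N' - st.hJ * st.rJ / Real.sqrt 3 * N 0 ^ 2 := by
  obtain ⟨σ0, h0, ha⟩ := exists_pin st
  have h0' : σ0 ∈ Icc (0:ℝ) 1 := ⟨h0.1.le, h0.2.le⟩
  obtain ⟨r, hr, hR⟩ := ST2.R_lo st
  obtain ⟨K1, hK1, hK1'⟩ := ST2.bdd (ST2.H_c st)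
  obtain ⟨K2, hK2, hK2'⟩ := ST2.bdd (ST2.C1_H st).2
  have hls := ST2.ls_pos st
  have hC0 : 0 < st.hJ * st.rJ := mul_pos (ST2.hJ_pos st) (ST2.rJ_pos st)
  have hK : 0 < K1 + K2 := by linarith
  refine ⟨min (0.1 * r / (4 * st.ls)) (0.6 * (st.hJ * st.rJ) * st.ls / (2 * (K1 + K2))),
    lt_min (by positivity) (by positivity), 7 * (st.hJ * st.rJ) * st.ls, by positivity, ?_⟩
  intro N N' hN
  set C0 := st.hJ * st.rJ with hC0d
  set c := min (0.1 * r / (4 * st.ls)) (0.6 * C0 * st.ls / (2 * (K1 + K2))) with hc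
  have hH0 : 0 < ST2.H st σ0 := by have := ST2.H_lo st h0'; linarith
  set c1 := N σ0 / ST2.H st σ0 with hc1
  set H' : ℝ → ℝ := fun σ => -(st.ls * (ST2.H st σ * ST2.Pp st σ)) with hH'
  set f : ℝ → ℝ := fun s => N s + (-c1) * ST2.H st s with hf
  set f' : ℝ → ℝ := fun s => N' s + (-c1) * H' s with hf'
  have hCf : C1 f f' := ST2.C1.comb hN (ST2.C1_H st) (-c1)
  have hfz : f σ0 = 0 := by
    simp only [hf, hc1]
    field_simp
    ring
  have hNf : N = fun s => f s + c1 * ST2.H st s := by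
    funext s; simp only [hf]; ring
  have hNf' : N' = fun s => f' s + c1 * H' s := by
    funext s; simp only [hf']; ring
  have hpin := pinned st h0 ha hCf hfz
  have hexp := ST2.BQ_expand st hCf (ST2.C1_H st) c1
  have hb1 := ST2.BQ_H st hCf
  have hb2 := ST2.BQ_H st (ST2.C1_H st)
  have hcomb := ST2.comb_le st hCf (ST2.C1_H st) h0' hfz hr hR
    (fun σ hσ => add_le_add (hK1' σ hσ) (hK2' σ hσ)) c1
  have hcomb' : ∫ σ in (0:ℝ)..1, (N' σ ^ 2 + N σ ^ 2) ≤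
      4 * (st.ls / r * ∫ σ in (0:ℝ)..1, f' σ ^ 2 / st.ls * ST2.Rh st σ) + 2 * (K1 + K2) * c1 ^ 2 := by
    refine le_trans (le_of_eq ?_) hcomb
    apply intervalIntegral.integral_congr
    intro s _
    simp only [hf, hf', hH']
    ring
  have hJ : 0.6 ≤ ∫ σ in (0:ℝ)..1, ST2.H st σ := by
    have : ∫ σ in (0:ℝ)..1, (0.6:ℝ) ≤ ∫ σ in (0:ℝ)..1, ST2.H st σ :=
      integral_mono_on (by norm_num) intervalIntegrable_const (ST2.ii (ST2.H_c st))
        (fun s hs => ST2.H_lo st hs)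
    rwa [intervalIntegral.integral_const, smul_eq_mul, sub_zero, one_mul] at this
  have hIN : ∫ σ in (0:ℝ)..1, N σ = (∫ σ in (0:ℝ)..1, f σ) + c1 * ∫ σ in (0:ℝ)..1, ST2.H st σ := by
    rw [← intervalIntegral.integral_const_mul, ← integral_add (ST2.ii (ST2.C1.cont hCf))
      ((ST2.ii (ST2.H_c st)).const_mul _)]
    apply intervalIntegral.integral_congr
    intro s _
    simp only [hf]
    ring
  have hX : 0 ≤ ∫ σ in (0:ℝ)..1, f' σ ^ 2 / st.ls * ST2.Rh st σ := by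
    apply intervalIntegral.integral_nonneg (by norm_num)
    intro s _
    have := ST2.R_pos st s
    positivity
  have hpin' : 0.1 * (∫ σ in (0:ℝ)..1, f' σ ^ 2 / st.ls * ST2.Rh st σ) ≤
      ST2.BQ st f f' f f' - C0 / Real.sqrt 3 * f 0 ^ 2 := by
    rw [← ST2.Qs_eq]
    exact hpin
  rw [ST2.Qs_eq]
  have hexp' : ST2.BQ st N N' N N' = ST2.BQ st f f' f f' + 2 * c1 * ST2.BQ st f f' (ST2.H st) H'
      + c1 ^ 2 * ST2.BQ st (ST2.H st) H' (ST2.H st) H' := by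
    rw [← hexp, ← hNf, ← hNf']
  have hN0 : N 0 = f 0 + c1 * st.hJ := by
    simp only [hf]
    rw [ST2.H_zero]
    ring
  rw [ST2.H_zero] at hb2
  rw [hexp', hb1, hb2, hN0, hIN]
  set X := ∫ σ in (0:ℝ)..1, f' σ ^ 2 / st.ls * ST2.Rh st σ with hXd
  set J := ∫ σ in (0:ℝ)..1, ST2.H st σ with hJd
  set F := ∫ σ in (0:ℝ)..1, f σ with hFd
  set Q := ST2.BQ st f f' f f' with hQd
  set W := ∫ σ in (0:ℝ)..1, (N' σ ^ 2 + N σ ^ 2) with hWd
  have hcpos : 0 < c := lt_min (by positivity) (by positivity)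
  have k1 : c * (4 * (st.ls / r * X)) ≤ 0.1 * X := by
    have h1 : c ≤ 0.1 * r / (4 * st.ls) := min_le_left _ _
    have h2 : c * (4 * (st.ls / r)) ≤ 0.1 := by
      calc c * (4 * (st.ls / r)) ≤ 0.1 * r / (4 * st.ls) * (4 * (st.ls / r)) := by
            apply mul_le_mul_of_nonneg_right h1; positivity
        _ = 0.1 := by field_simp
    calc c * (4 * (st.ls / r * X)) = c * (4 * (st.ls / r)) * X := by ring
      _ ≤ 0.1 * X := mul_le_mul_of_nonneg_right h2 hX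
  have k2 : c * (2 * (K1 + K2) * c1 ^ 2) ≤ 0.6 * C0 * st.ls * c1 ^ 2 := by
    have h1 : c ≤ 0.6 * C0 * st.ls / (2 * (K1 + K2)) := min_le_right _ _
    have h2 : c * (2 * (K1 + K2)) ≤ 0.6 * C0 * st.ls := by
      calc c * (2 * (K1 + K2)) ≤ 0.6 * C0 * st.ls / (2 * (K1 + K2)) * (2 * (K1 + K2)) := by
            apply mul_le_mul_of_nonneg_right h1; positivity
        _ = 0.6 * C0 * st.ls := by field_simp
    calc c * (2 * (K1 + K2) * c1 ^ 2) = c * (2 * (K1 + K2)) * c1 ^ 2 := by ring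
      _ ≤ 0.6 * C0 * st.ls * c1 ^ 2 := mul_le_mul_of_nonneg_right h2 (sq_nonneg _)
  have k3 : c * W ≤ 0.1 * X + 0.6 * C0 * st.ls * c1 ^ 2 := by
    calc c * W ≤ c * (4 * (st.ls / r * X) + 2 * (K1 + K2) * c1 ^ 2) :=
          mul_le_mul_of_nonneg_left hcomb' hcpos.le
      _ = c * (4 * (st.ls / r * X)) + c * (2 * (K1 + K2) * c1 ^ 2) := by ring
      _ ≤ _ := add_le_add k1 k2
  have hCl : 0 < C0 * st.ls := by positivity
  have k4 : 0 ≤ C0 * st.ls * (7 * (F + c1 * J) ^ 2 - 4 * c1 * (F + c1 * J) + 0.6 * c1 ^ 2) := by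
    apply mul_nonneg hCl.le
    nlinarith [sq_nonneg (7 * (F + c1 * J) - 2 * c1), sq_nonneg c1]
  have k5 : 0 ≤ C0 * st.ls * (2 * c1 ^ 2 * (J - 0.6)) := by
    apply mul_nonneg hCl.le
    have : 0 ≤ J - 0.6 := by linarith
    positivity
  have k6 : Q + 2 * c1 * (C0 / Real.sqrt 3 * (f 0 * st.hJ) - 2 * C0 * st.ls * F) +
      c1 ^ 2 * (C0 / Real.sqrt 3 * (st.hJ * st.hJ) - 2 * C0 * st.ls * J) -
      C0 / Real.sqrt 3 * (f 0 + c1 * st.hJ) ^ 2 =
      (Q - C0 / Real.sqrt 3 * f 0 ^ 2) + C0 * st.ls * (-4 * c1 * (F + c1 * J) + 2 * c1 ^ 2 * J) := by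
    ring
  rw [k6]
  linarith

end Pool.Agent.Helper15.NF
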