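import Pool.Agent.Helper15.NF.ST0
import Pool.Agent.Helper15.NF.ST1
import Pool.Agent.Helper15.NF.ST2

open Set MeasureTheory intervalIntegral Filter Topology

namespace Pool.Agent.Helper15.NF

namespace ST3
variable (st : Star)

/-- the translation mode -/
noncomputable def E (σ : ℝ) : ℝ := Real.cos (ST2.A st σ)
noncomputable def E' (σ : ℝ) : ℝ := st.ls * ST2.H st σ * Real.sin (ST2.A st σ)

theorem C1_E : C1 (E st) (E' st) :=
  ⟨fun _ hs => ST2.cosA_d st hs,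
    (continuousOn_const.mul (ST2.H_c st)).mul (Real.continuous_sin.comp_continuousOn (ST2.A_c st))⟩

theorem E_zero : E st 0 = 1 / 2 := by
  simp only [E, ST2.A_zero, Real.cos_pi_div_three]

theorem pr_eq (N : ℝ → ℝ) :
    st.pr N = -(st.ls * ∫ σ in (0:ℝ)..1, N σ * E st σ * ST2.Rh st σ) := rfl

/-- pairing with the translation mode -/
theorem BQ_E {N N' : ℝ → ℝ} (hN : C1 N N') :
    ST2.BQ st N N' (E st) (E' st) + Real.sqrt 3 * (st.hJ * st.rJ) * (N 0 * (1 / 2)) = st.pr N := by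
  have hls := ST2.ls_pos st
  have hNc := ST2.C1.cont hN
  set C0 := st.hJ * st.rJ with hC0
  have hsc : ContinuousOn (fun σ => Real.sin (ST2.A st σ)) (Icc 0 1) :=
    Real.continuous_sin.comp_continuousOn (ST2.A_c st)
  have hcc : ContinuousOn (fun σ => Real.cos (ST2.A st σ)) (Icc 0 1) :=
    Real.continuous_cos.comp_continuousOn (ST2.A_c st)
  have hNS : C1 (fun σ => N σ * Real.sin (ST2.A st σ))
      (fun σ => N' σ * Real.sin (ST2.A st σ) +
        N σ * (-(st.ls * ST2.H st σ * Real.cos (ST2.A st σ)))) :=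
    ⟨fun s hs => (hN.1 s hs).mul (ST2.sinA_d st hs),
      (hN.2.mul hsc).add (hNc.mul ((continuousOn_const.mul (ST2.H_c st)).mul hcc).neg)⟩
  have hf := ST2.ftc hNS
  rw [ST2.A_one, ST2.A_zero, Real.sin_zero, Real.sin_pi_div_three] at hf
  have iA : IntervalIntegrable (fun σ => N' σ * Real.sin (ST2.A st σ) +
        N σ * (-(st.ls * ST2.H st σ * Real.cos (ST2.A st σ)))) volume 0 1 := ST2.ii hNS.2
  have i0 : IntervalIntegrable (fun σ => N σ * E st σ * ST2.Rh st σ) volume 0 1 :=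
    ST2.ii ((hNc.mul hcc).mul (ST2.R_c st))
  have e : ST2.BQ st N N' (E st) (E' st) =
      ∫ σ in (0:ℝ)..1, (C0 * (N' σ * Real.sin (ST2.A st σ) +
        N σ * (-(st.ls * ST2.H st σ * Real.cos (ST2.A st σ))))
        + (-st.ls) * (N σ * E st σ * ST2.Rh st σ)) := by
    simp only [ST2.BQ]
    apply integral_congr
    intro s hs
    rw [uIcc_of_le (by norm_num)] at hs
    have hHR : ST2.H st s * ST2.Rh st s = C0 := ST2.HR st hs
    simp only [E, E']
    rw [← hHR]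
    field_simp
    ring
  rw [e, integral_add (iA.const_mul _) (i0.const_mul _), intervalIntegral.integral_const_mul,
    intervalIntegral.integral_const_mul, hf, pr_eq]
  ring

end ST3

/-- ST3 : antisymmetric part, arcs -/
theorem coerc2 (st : Star) : ∃ c > 0, ∀ N N' : ℝ → ℝ, C1 N N' → ∃ cc : ℝ,
    c * (∫ σ in (0:ℝ)..1, (N' σ ^ 2 + N σ ^ 2)) + 2.3 * st.rJ * (N 0 + cc) ^ 2 + c * cc ^ 2
      - 4 * cc * st.pr N ≤
      st.Qs N N' + Real.sqrt 3 * st.hJ * st.rJ * N 0 ^ 2 := by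
  obtain ⟨σ0, h0, ha⟩ := exists_pin st
  have h0' : σ0 ∈ Icc (0:ℝ) 1 := ⟨h0.1.le, h0.2.le⟩
  obtain ⟨r, hr, hR⟩ := ST2.R_lo st
  have hEc : ContinuousOn (ST3.E st) (Icc 0 1) := ST2.C1.cont (ST3.C1_E st)
  obtain ⟨K1, hK1, hK1'⟩ := ST2.bdd hEc
  obtain ⟨K2, hK2, hK2'⟩ := ST2.bdd (ST3.C1_E st).2
  have hls := ST2.ls_pos st
  have hC0 : 0 < st.hJ * st.rJ := mul_pos (ST2.hJ_pos st) (ST2.rJ_pos st)
  have hK : 0 < K1 + K2 := by linarith
  have ha0 : 0 < -st.pr (ST3.E st) := by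
    rw [ST3.pr_eq, neg_neg]
    apply mul_pos hls
    apply intervalIntegral.integral_pos (by norm_num) ((hEc.mul hEc).mul (ST2.R_c st))
    · intro s _
      exact mul_nonneg (mul_self_nonneg _) (ST2.R_pos st s).le
    · refine ⟨0, by norm_num, ?_⟩
      have h1 := ST2.R_pos st 0
      change 0 < ST3.E st 0 * ST3.E st 0 * ST2.Rh st 0
      rw [ST3.E_zero]
      positivity
  refine ⟨min (0.1 * r / (4 * st.ls)) (4 * (-st.pr (ST3.E st)) / (8 * (K1 + K2) + 1)),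
    lt_min (by positivity) (by positivity), ?_⟩
  intro N N' hN
  set C0 := st.hJ * st.rJ with hC0d
  set a0 := -st.pr (ST3.E st) with ha0d
  set c := min (0.1 * r / (4 * st.ls)) (4 * a0 / (8 * (K1 + K2) + 1)) with hc
  have hE0 : 0 < ST3.E st σ0 := by
    simp only [ST3.E, ST2.A]
    rw [ha]
    apply Real.cos_pos_of_mem_Ioo
    constructor <;> linarith [Real.pi_gt_three]
  set cc := -(N σ0) / (2 * ST3.E st σ0) with hcc
  refine ⟨cc, ?_⟩
  set f : ℝ → ℝ := fun s => N s + (2 * cc) * ST3.E st s with hf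
  set f' : ℝ → ℝ := fun s => N' s + (2 * cc) * ST3.E' st s with hf'
  have hCf : C1 f f' := ST2.C1.comb hN (ST3.C1_E st) (2 * cc)
  have hfz : f σ0 = 0 := by
    simp only [hf, hcc]
    field_simp
    ring
  have hNf : N = fun s => f s + (-(2 * cc)) * ST3.E st s := by
    funext s; simp only [hf]; ring
  have hNf' : N' = fun s => f' s + (-(2 * cc)) * ST3.E' st s := by
    funext s; simp only [hf']; ring
  have hpin := pinned st h0 ha hCf hfz
  have hexp := ST2.BQ_expand st hCf (ST3.C1_E st) (-(2 * cc))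
  have hb1 := ST3.BQ_E st hCf
  have hb2 := ST3.BQ_E st (ST3.C1_E st)
  have hcomb := ST2.comb_le st hCf (ST3.C1_E st) h0' hfz hr hR
    (fun σ hσ => add_le_add (hK1' σ hσ) (hK2' σ hσ)) (-(2 * cc))
  have hcomb' : ∫ σ in (0:ℝ)..1, (N' σ ^ 2 + N σ ^ 2) ≤
      4 * (st.ls / r * ∫ σ in (0:ℝ)..1, f' σ ^ 2 / st.ls * ST2.Rh st σ)
        + 8 * (K1 + K2) * cc ^ 2 := by
    refine le_trans (le_of_eq ?_) (hcomb.trans (le_of_eq (by ring)))
    apply intervalIntegral.integral_congr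
    intro s _
    simp only [hf, hf']
    ring
  have hX : 0 ≤ ∫ σ in (0:ℝ)..1, f' σ ^ 2 / st.ls * ST2.Rh st σ := by
    apply intervalIntegral.integral_nonneg (by norm_num)
    intro s _
    have := ST2.R_pos st s
    positivity
  have hpin' : 0.1 * (∫ σ in (0:ℝ)..1, f' σ ^ 2 / st.ls * ST2.Rh st σ) ≤
      ST2.BQ st f f' f f' - C0 / Real.sqrt 3 * f 0 ^ 2 := by
    rw [← ST2.Qs_eq]
    exact hpin
  have hpr : st.pr f = st.pr N - 2 * cc * a0 := by
    have iN : IntervalIntegrable (fun σ => N σ * ST3.E st σ * ST2.Rh st σ) volume 0 1 :=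
      ST2.ii (((ST2.C1.cont hN).mul hEc).mul (ST2.R_c st))
    have iE : IntervalIntegrable (fun σ => ST3.E st σ * ST3.E st σ * ST2.Rh st σ) volume 0 1 :=
      ST2.ii ((hEc.mul hEc).mul (ST2.R_c st))
    have : ∫ σ in (0:ℝ)..1, f σ * ST3.E st σ * ST2.Rh st σ =
        (∫ σ in (0:ℝ)..1, N σ * ST3.E st σ * ST2.Rh st σ) +
          2 * cc * ∫ σ in (0:ℝ)..1, ST3.E st σ * ST3.E st σ * ST2.Rh st σ := by
      rw [← intervalIntegral.integral_const_mul, ← integral_add iN (iE.const_mul _)]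
      apply intervalIntegral.integral_congr
      intro s _
      simp only [hf]
      ring
    simp only [ha0d, ST3.pr_eq]
    rw [this]
    ring
  rw [ST2.Qs_eq]
  have hexp' : ST2.BQ st N N' N N' = ST2.BQ st f f' f f'
      + 2 * (-(2 * cc)) * ST2.BQ st f f' (ST3.E st) (ST3.E' st)
      + (-(2 * cc)) ^ 2 * ST2.BQ st (ST3.E st) (ST3.E' st) (ST3.E st) (ST3.E' st) := by
    rw [← hexp, ← hNf, ← hNf']
  have hN0 : N 0 = f 0 - cc := by
    simp only [hf]
    rw [ST3.E_zero]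
    ring
  rw [ST3.E_zero] at hb2
  have hb1' : ST2.BQ st f f' (ST3.E st) (ST3.E' st) =
      st.pr N - 2 * cc * a0 - Real.sqrt 3 * C0 * (f 0 * (1 / 2)) := by
    rw [← hpr]; linarith
  have hb2' : ST2.BQ st (ST3.E st) (ST3.E' st) (ST3.E st) (ST3.E' st) =
      -a0 - Real.sqrt 3 * C0 * (1 / 2 * (1 / 2)) := by
    rw [ha0d]; linarith
  set X := ∫ σ in (0:ℝ)..1, f' σ ^ 2 / st.ls * ST2.Rh st σ with hXd
  set Q := ST2.BQ st f f' f f' with hQd
  set W := ∫ σ in (0:ℝ)..1, (N' σ ^ 2 + N σ ^ 2) with hWd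
  have hcpos : 0 < c := lt_min (by positivity) (by positivity)
  have k1 : c * (4 * (st.ls / r * X)) ≤ 0.1 * X := by
    have h1 : c ≤ 0.1 * r / (4 * st.ls) := min_le_left _ _
    have h2 : c * (4 * (st.ls / r)) ≤ 0.1 := by
      calc c * (4 * (st.ls / r)) ≤ 0.1 * r / (4 * st.ls) * (4 * (st.ls / r)) := by
            apply mul_le_mul_of_nonneg_right h1; positivity
        _ = 0.1 := by field_simp
    calc c * (4 * (st.ls / r * X)) = c * (4 * (st.ls / r)) * X := by ring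
      _ ≤ 0.1 * X := mul_le_mul_of_nonneg_right h2 hX
  have k2 : c * ((8 * (K1 + K2) + 1) * cc ^ 2) ≤ 4 * a0 * cc ^ 2 := by
    have h1 : c ≤ 4 * a0 / (8 * (K1 + K2) + 1) := min_le_right _ _
    have h2 : c * (8 * (K1 + K2) + 1) ≤ 4 * a0 := by
      calc c * (8 * (K1 + K2) + 1) ≤ 4 * a0 / (8 * (K1 + K2) + 1) * (8 * (K1 + K2) + 1) := by
            apply mul_le_mul_of_nonneg_right h1; positivity
        _ = 4 * a0 := by field_simp
    calc c * ((8 * (K1 + K2) + 1) * cc ^ 2) = c * (8 * (K1 + K2) + 1) * cc ^ 2 := by ring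
      _ ≤ 4 * a0 * cc ^ 2 := mul_le_mul_of_nonneg_right h2 (sq_nonneg _)
  have k3 : c * W + c * cc ^ 2 ≤ 0.1 * X + 4 * a0 * cc ^ 2 := by
    calc c * W + c * cc ^ 2 ≤ c * (4 * (st.ls / r * X) + 8 * (K1 + K2) * cc ^ 2) + c * cc ^ 2 := by
          have := mul_le_mul_of_nonneg_left hcomb' hcpos.le
          linarith
      _ = c * (4 * (st.ls / r * X)) + c * ((8 * (K1 + K2) + 1) * cc ^ 2) := by ring
      _ ≤ _ := add_le_add k1 k2
  have hs3 : Real.sqrt 3 * Real.sqrt 3 = 3 := Real.mul_self_sqrt (by norm_num)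
  have hs3p : 0 < Real.sqrt 3 := by positivity
  have k4 : 2.3 * st.rJ * f 0 ^ 2 ≤ (C0 / Real.sqrt 3 + Real.sqrt 3 * C0) * f 0 ^ 2 := by
    apply mul_le_mul_of_nonneg_right _ (sq_nonneg _)
    have h1 : C0 / Real.sqrt 3 + Real.sqrt 3 * C0 = 2 * st.xi * st.rJ := by
      rw [hC0d, ST2.hJ_eq]
      field_simp
      rw [show Real.sqrt 3 ^ 2 = 3 from Real.sq_sqrt (by norm_num)]
      ring
    rw [h1]
    have h2 := st.xi_lo
    have h3 : 0 < st.rJ := ST2.rJ_pos st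
    have h4 : 1.187 ≤ st.xi := h2
    nlinarith
  have k6 : ST2.BQ st N N' N N' + Real.sqrt 3 * st.hJ * st.rJ * N 0 ^ 2 =
      (Q - C0 / Real.sqrt 3 * f 0 ^ 2) + (C0 / Real.sqrt 3 + Real.sqrt 3 * C0) * f 0 ^ 2
        + 4 * a0 * cc ^ 2 - 4 * cc * st.pr N := by
    rw [hexp', hb1', hb2', hN0, hC0d]
    ring
  have hN0' : N 0 + cc = f 0 := by rw [hN0]; ring
  rw [k6, hN0']
  linarith

end Pool.Agent.Helper15.NF
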