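import Pool.Agent.Helper15.NF.ST6

open Set MeasureTheory intervalIntegral Filter Topology

namespace Pool.Agent.Helper15.NF

namespace ST4

/-- fundamental theorem of calculus on `[0,1]` with one-sided derivatives at the ends -/
lemma ftc {f f' : ℝ → ℝ} (h : ∀ σ ∈ Icc (0:ℝ) 1, HasDerivWithinAt f (f' σ) (Icc 0 1) σ)
    (hc : ContinuousOn f' (Icc 0 1)) : ∫ σ in (0:ℝ)..1, f' σ = f 1 - f 0 := by
  refine intervalIntegral.integral_eq_sub_of_hasDeriv_right_of_le (by norm_num)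
    (fun σ hσ => (h σ hσ).continuousWithinAt) (fun σ hσ => ?_)
    (hc.intervalIntegrable_of_Icc (by norm_num))
  have h1 : HasDerivAt f (f' σ) σ :=
    (h σ (Ioo_subset_Icc_self hσ)).hasDerivAt (Icc_mem_nhds hσ.1 hσ.2)
  exact h1.hasDerivWithinAt

lemma ptA {N Ns u E y sn : ℝ} (hu : u ^ 2 ≤ 0.72) (hE : 0.999999 ≤ E)
    (hy : |y * u| ≤ 0.01) (hsn : |sn| ≤ 0.001) :
    2.1 * (-(E * u ^ 2) * N ^ 2 + 2 * N * Ns * u - (E + y * u * sn) * N ^ 2) ≤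
      1.99 * Ns ^ 2 - 2.01 * N ^ 2 := by
  have h1 : |y * u * sn| ≤ 0.01 * 0.001 := by
    rw [abs_mul]; exact mul_le_mul hy hsn (abs_nonneg _) (by norm_num)
  have h2 := (abs_le.mp h1).1
  have hu2 := sq_nonneg u
  have h3 : 0.999999 * u ^ 2 ≤ E * u ^ 2 := mul_le_mul_of_nonneg_right hE hu2
  obtain ⟨κ, hκ⟩ : ∃ κ, κ = 2.1 * (E * u ^ 2) + 2.1 * (E + y * u * sn) - 2.01 := ⟨_, rfl⟩
  have h4 : 4.41 / 1.99 * u ^ 2 ≤ κ := by
    rw [hκ]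
    norm_num at h2 hu ⊢
    linarith
  have h5 : 0 ≤ (κ - 4.41 / 1.99 * u ^ 2) * N ^ 2 :=
    mul_nonneg (by linarith) (sq_nonneg N)
  have h6 : 0 ≤ 1.99 * (Ns - 2.1 * u / 1.99 * N) ^ 2 := by positivity
  have h7 : 1.99 * Ns ^ 2 - 2.01 * N ^ 2 -
      2.1 * (-(E * u ^ 2) * N ^ 2 + 2 * N * Ns * u - (E + y * u * sn) * N ^ 2) =
      1.99 * (Ns - 2.1 * u / 1.99 * N) ^ 2 + (κ - 4.41 / 1.99 * u ^ 2) * N ^ 2 := by
    rw [hκ]; ring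
  linarith

lemma ptB {N Ns E cc k sn S Ss h : ℝ} (hS : N = S - cc * E) (hSs : Ns = Ss + cc * (k * sn))
    (hk : k = S - h) (hsn : sn ^ 2 ≤ 0.000001) :
    1.99 * Ns ^ 2 - 2.01 * N ^ 2 ≤ 2 * Ss ^ 2 - 2 * S ^ 2 + 4 * cc * (S * E) -
      0.001 * (S ^ 2 + Ss ^ 2) - 1.99 * cc ^ 2 * E ^ 2 + 0.0018 * cc ^ 2 * (S ^ 2 + h ^ 2) := by
  obtain ⟨q, hq⟩ : ∃ q, q = cc * (k * sn) := ⟨_, rfl⟩
  have e1 : Ss = Ns - q := by rw [hq]; linarith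
  have e2 : S = N + cc * E := by linarith
  have h1 : k ^ 2 ≤ 2 * (S ^ 2 + h ^ 2) := by
    rw [hk]; nlinarith [sq_nonneg (S + h)]
  have h2 : q ^ 2 ≤ 0.000001 * (cc ^ 2 * k ^ 2) := by
    have : q ^ 2 = sn ^ 2 * (cc ^ 2 * k ^ 2) := by rw [hq]; ring
    rw [this]
    exact mul_le_mul_of_nonneg_right hsn (by positivity)
  have h3 : cc ^ 2 * k ^ 2 ≤ cc ^ 2 * (2 * (S ^ 2 + h ^ 2)) :=
    mul_le_mul_of_nonneg_left h1 (sq_nonneg _)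
  have h4 : 0 ≤ 0.008 * (Ns - 250 * q) ^ 2 := by positivity
  have h5 : 0 ≤ (N - cc * E) ^ 2 := sq_nonneg _
  have h6 : 0 ≤ (Ns + q) ^ 2 := sq_nonneg _
  have h7 : 0 ≤ cc ^ 2 * E ^ 2 := by positivity
  have h8 : 0 ≤ N ^ 2 := sq_nonneg _
  have h9 : 0 ≤ q ^ 2 := sq_nonneg _
  have h10 : 0 ≤ cc ^ 2 * k ^ 2 := by positivity
  have key : 2 * Ss ^ 2 - 2 * S ^ 2 + 4 * cc * (S * E) -
      0.001 * (S ^ 2 + Ss ^ 2) - 1.99 * cc ^ 2 * E ^ 2 + 0.0018 * cc ^ 2 * (S ^ 2 + h ^ 2) -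
      (1.99 * Ns ^ 2 - 2.01 * N ^ 2) =
      0.008 * (Ns - 250 * q) ^ 2 + 0.001 * (N - cc * E) ^ 2 + 0.001 * (Ns + q) ^ 2 +
      0.008 * (cc ^ 2 * E ^ 2) + 0.008 * N ^ 2 - 498.002 * q ^ 2 +
      0.0009 * (cc ^ 2 * (2 * (S ^ 2 + h ^ 2))) := by
    rw [e1, e2]; ring
  linarith

lemma junc_est {x N0 w0 rJ S0 cc E0 : ℝ} (hx : 1.186 ≤ x) (hN0 : N0 = S0 - cc * E0)
    (hE1 : E0 ≤ 1) (hE0 : 0.999 ≤ E0) (hw00 : 0 ≤ w0) (hw0 : w0 ≤ rJ + 0.004)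
    (hrJ : 0.36 ≤ rJ) (hrJ1 : rJ ≤ 1) :
    2.1 * (x⁻¹ * N0 ^ 2 * w0) ≤ 1.9 * rJ * (S0 - cc) ^ 2 + 0.001 * cc ^ 2 := by
  obtain ⟨u, hu⟩ : ∃ u, u = x⁻¹ := ⟨_, rfl⟩
  have hxpos : 0 < x := by linarith
  have hu0 : 0 ≤ u := by rw [hu]; exact (inv_pos.mpr hxpos).le
  have hux : u * x = 1 := by rw [hu]; exact inv_mul_cancel₀ hxpos.ne'
  have hu1 : u ≤ 0.8432 := by
    have h1 : u * 1.186 ≤ u * x := mul_le_mul_of_nonneg_left hx hu0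
    rw [hux] at h1
    norm_num at h1 ⊢
    linarith
  rw [← hu]
  obtain ⟨d, hd⟩ : ∃ d, d = 1 - E0 := ⟨_, rfl⟩
  have hN0' : N0 = (S0 - cc) + cc * d := by
    rw [hN0, hd]; ring
  have hd0 : 0 ≤ d := by rw [hd]; linarith
  have hd1 : d ≤ 0.001 := by rw [hd]; linarith
  have hd2 : d ^ 2 ≤ 0.001 ^ 2 := pow_le_pow_left₀ hd0 hd1 2
  rw [hN0']
  obtain ⟨z, hz⟩ : ∃ z, z = S0 - cc := ⟨_, rfl⟩
  rw [← hz]
  have h1 : (z + cc * d) ^ 2 ≤ 1.01 * z ^ 2 + 101 * (cc ^ 2 * d ^ 2) := by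
    have h2 : 0 ≤ 0.01 * (z - 100 * (cc * d)) ^ 2 := by positivity
    have h3 : 1.01 * z ^ 2 + 101 * (cc ^ 2 * d ^ 2) - (z + cc * d) ^ 2 =
      0.01 * (z - 100 * (cc * d)) ^ 2 := by ring
    linarith
  have h4 : cc ^ 2 * d ^ 2 ≤ cc ^ 2 * 0.001 ^ 2 :=
    mul_le_mul_of_nonneg_left hd2 (sq_nonneg _)
  have h5 : (z + cc * d) ^ 2 ≤ 1.01 * z ^ 2 + 0.000101 * cc ^ 2 := by
    norm_num at h4 ⊢
    linarith
  have h6 : u * (z + cc * d) ^ 2 * w0 ≤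
      0.8432 * (1.01 * z ^ 2 + 0.000101 * cc ^ 2) * (rJ + 0.004) :=
    mul_le_mul (mul_le_mul hu1 h5 (sq_nonneg _) (by norm_num)) hw0 hw00 (by positivity)
  have h7 : 0.8432 * (1.01 * z ^ 2 + 0.000101 * cc ^ 2) * (rJ + 0.004) ≤
      0.8432 * (1.01 * z ^ 2 + 0.000101 * cc ^ 2) * (1.0112 * rJ) := by
    apply mul_le_mul_of_nonneg_left _ (by positivity)
    linarith
  have h8 : 0 ≤ rJ * z ^ 2 := mul_nonneg (by linarith) (sq_nonneg _)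
  have h9 : rJ * cc ^ 2 ≤ 1 * cc ^ 2 := mul_le_mul_of_nonneg_right hrJ1 (sq_nonneg _)
  have h10 : 0 ≤ cc ^ 2 := sq_nonneg _
  norm_num at h6 h7 ⊢
  linarith

/-- geometry of the ray -/
structure Ray (ε R : ℝ) (cfg : Raw) : Prop where
  eps : 0 < ε
  eps1 : ε ≤ 0.001
  R10 : 10 ≤ R
  L1 : 1 ≤ cfg.L 2
  xJ : cfg.x 2 0 ≤ 1.198
  x1 : ∀ σ ∈ Icc (0:ℝ) 1, 1.186 ≤ cfg.x 2 σ
  x2 : ∀ σ ∈ Icc (0:ℝ) 1, cfg.x 2 σ ≤ cfg.x 2 0 + cfg.L 2 * σ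
  y1 : ∀ σ ∈ Icc (0:ℝ) 1, |cfg.y 2 σ| ≤ ε + 1.02 * ε * cfg.x 2 σ
  sn : ∀ σ ∈ Icc (0:ℝ) 1, |Real.sin (cfg.ang 2 σ)| ≤ ε
  cs : ∀ σ ∈ Icc (0:ℝ) 1, 0.999999 ≤ Real.cos (cfg.ang 2 σ)

lemma w_nonneg (R : ℝ) (cfg : Raw) (i : Fin 3) (σ : ℝ) : 0 ≤ cfg.w R i σ :=
  mul_nonneg (Real.exp_pos _).le (cut_nonneg _)

lemma H2_le {ε R : ℝ} {cfg : Raw} (hr : Ray ε R cfg) (hc : IsCfg R cfg)
    (hth : ∀ σ ∈ Icc (0:ℝ) 1, |cfg.th 2 σ| ≤ ε) :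
    cfg.I 2 (fun σ => cfg.h 2 σ ^ 2 * cfg.w R 2 σ) ≤ 0.001 := by
  have h01 : (0:ℝ) ≤ 1 := by norm_num
  have hL := hc.L_pos 2
  have hε := hr.eps
  have hε1 := hr.eps1
  have hε2 : ε ^ 2 ≤ 0.000001 := by
    have : ε ^ 2 ≤ 0.001 ^ 2 := pow_le_pow_left₀ hε.le hε1 2
    norm_num at this ⊢
    exact this
  have h1 : cfg.I 2 (fun σ => cfg.h 2 σ ^ 2 * cfg.w R 2 σ) ≤
      9 * ε ^ 2 * cfg.I 2 (fun σ => (1 + cfg.x 2 σ ^ 2) ^ 2 * cfg.rho 2 σ) := by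
    have h2 : (∫ σ in (0:ℝ)..1, cfg.h 2 σ ^ 2 * cfg.w R 2 σ) ≤
        ∫ σ in (0:ℝ)..1, 9 * ε ^ 2 * ((1 + cfg.x 2 σ ^ 2) ^ 2 * cfg.rho 2 σ) := by
      refine intervalIntegral.integral_mono_on h01
        ((((hc.h_cont 2).pow 2).mul (hc.w_cont 2)).intervalIntegrable_of_Icc h01)
        ((continuousOn_const.mul (((continuousOn_const.add ((hc.x_cont 2).pow 2)).pow 2).mul
          (hc.rho_cont 2))).intervalIntegrable_of_Icc h01)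
        fun σ hσ => ?_
      have hx := hr.x1 σ hσ
      have a1 : |cfg.h 2 σ| ≤ ε * (1 + 2.02 * cfg.x 2 σ) := by
        have b1 : |-(cfg.x 2 σ * Real.sin (cfg.ang 2 σ))| ≤ cfg.x 2 σ * ε := by
          rw [abs_neg, abs_mul, abs_of_nonneg (by linarith : (0:ℝ) ≤ cfg.x 2 σ)]
          exact mul_le_mul_of_nonneg_left (hr.sn σ hσ) (by linarith)
        have b2 : |cfg.y 2 σ * Real.cos (cfg.ang 2 σ)| ≤ ε + 1.02 * ε * cfg.x 2 σ := by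
          rw [abs_mul]
          calc |cfg.y 2 σ| * |Real.cos (cfg.ang 2 σ)| ≤ |cfg.y 2 σ| * 1 :=
                mul_le_mul_of_nonneg_left (Real.abs_cos_le_one _) (abs_nonneg _)
            _ = |cfg.y 2 σ| := mul_one _
            _ ≤ _ := hr.y1 σ hσ
        have b3 : cfg.h 2 σ = -(cfg.x 2 σ * Real.sin (cfg.ang 2 σ)) +
          cfg.y 2 σ * Real.cos (cfg.ang 2 σ) := rfl
        rw [b3]
        refine (abs_add_le _ _).trans ((add_le_add b1 b2).trans (le_of_eq ?_))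
        ring
      have a2 : cfg.h 2 σ ^ 2 ≤ (ε * (1 + 2.02 * cfg.x 2 σ)) ^ 2 :=
        sq_le_sq' (abs_le.mp a1).1 (abs_le.mp a1).2
      have a3 : (1 + 2.02 * cfg.x 2 σ) ^ 2 ≤ 9 * (1 + cfg.x 2 σ ^ 2) ^ 2 := by
        have b0 : 0 ≤ cfg.x 2 σ ^ 2 := sq_nonneg _
        have b1 : (1 + 2.02 * cfg.x 2 σ) ^ 2 ≤ 9 * (1 + cfg.x 2 σ ^ 2) := by
          linarith [sq_nonneg (2.02 * cfg.x 2 σ - 1), sq_nonneg (cfg.x 2 σ)]
        have b2 : 1 + cfg.x 2 σ ^ 2 ≤ (1 + cfg.x 2 σ ^ 2) ^ 2 := by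
          have : (1 + cfg.x 2 σ ^ 2) * 1 ≤ (1 + cfg.x 2 σ ^ 2) * (1 + cfg.x 2 σ ^ 2) :=
            mul_le_mul_of_nonneg_left (by linarith) (by linarith)
          linarith
        linarith
      have a4 : cfg.w R 2 σ ≤ cfg.rho 2 σ := by
        unfold Raw.w
        exact mul_le_of_le_one_right (Real.exp_pos _).le (cut_le_one _)
      have a5 : 0 < cfg.rho 2 σ := Real.exp_pos _
      calc cfg.h 2 σ ^ 2 * cfg.w R 2 σ ≤ cfg.h 2 σ ^ 2 * cfg.rho 2 σ :=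
            mul_le_mul_of_nonneg_left a4 (sq_nonneg _)
        _ ≤ (ε * (1 + 2.02 * cfg.x 2 σ)) ^ 2 * cfg.rho 2 σ :=
            mul_le_mul_of_nonneg_right a2 a5.le
        _ = ε ^ 2 * (1 + 2.02 * cfg.x 2 σ) ^ 2 * cfg.rho 2 σ := by ring
        _ ≤ ε ^ 2 * (9 * (1 + cfg.x 2 σ ^ 2) ^ 2) * cfg.rho 2 σ :=
            mul_le_mul_of_nonneg_right (mul_le_mul_of_nonneg_left a3 (sq_nonneg _)) a5.le
        _ = 9 * ε ^ 2 * ((1 + cfg.x 2 σ ^ 2) ^ 2 * cfg.rho 2 σ) := by ring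
    rw [intervalIntegral.integral_const_mul] at h2
    have h3 := mul_le_mul_of_nonneg_left h2 hL.le
    unfold Raw.I
    linarith
  have h2 := hc.ray_gauss (fun σ hσ => (hth σ hσ).trans (by linarith))
    (by linarith [hr.x1 0 ⟨le_refl _, h01⟩])
  have h3 : 9 * ε ^ 2 * cfg.I 2 (fun σ => (1 + cfg.x 2 σ ^ 2) ^ 2 * cfg.rho 2 σ) ≤
      9 * ε ^ 2 * 10 := mul_le_mul_of_nonneg_left h2 (by positivity)
  linarith

lemma E2_ge {ε R : ℝ} {cfg : Raw} (hr : Ray ε R cfg) (hc : IsCfg R cfg) :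
    0.039 ≤ cfg.I 2 (fun σ => Real.cos (cfg.ang 2 σ) ^ 2 * cfg.w R 2 σ) := by
  have h01 : (0:ℝ) ≤ 1 := by norm_num
  have hL := hc.L_pos 2
  have hε := hr.eps
  have hε1 := hr.eps1
  have hR10 := hr.R10
  have hRpos : 0 < R := by linarith
  have hgc : ContinuousOn (fun σ => Real.cos (cfg.ang 2 σ) ^ 2 * cfg.w R 2 σ) (Icc 0 1) :=
    ((Real.continuous_cos.comp_continuousOn (hc.ang_cont 2)).pow 2).mul (hc.w_cont 2)
  obtain ⟨b, hb⟩ : ∃ b, b = (cfg.L 2)⁻¹ := ⟨_, rfl⟩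
  have hb0 : 0 < b := by rw [hb]; exact inv_pos.mpr hL
  have hb1 : b ≤ 1 := by rw [hb]; exact inv_le_one_of_one_le₀ hr.L1
  have hLb : cfg.L 2 * b = 1 := by rw [hb]; exact mul_inv_cancel₀ hL.ne'
  have i1 : IntervalIntegrable (fun σ => Real.cos (cfg.ang 2 σ) ^ 2 * cfg.w R 2 σ) volume 0 b :=
    (hgc.mono (Icc_subset_Icc_right hb1)).intervalIntegrable_of_Icc hb0.le
  have i2 : IntervalIntegrable (fun σ => Real.cos (cfg.ang 2 σ) ^ 2 * cfg.w R 2 σ) volume b 1 :=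
    (hgc.mono (Icc_subset_Icc_left hb0.le)).intervalIntegrable_of_Icc hb1
  have h1 := intervalIntegral.integral_add_adjacent_intervals i1 i2
  have h2 : 0 ≤ ∫ σ in b..1, Real.cos (cfg.ang 2 σ) ^ 2 * cfg.w R 2 σ :=
    intervalIntegral.integral_nonneg hb1 fun σ _ => mul_nonneg (sq_nonneg _) (w_nonneg R cfg 2 σ)
  have h3 : (∫ _σ in (0:ℝ)..b, (0.039:ℝ)) ≤
      ∫ σ in (0:ℝ)..b, Real.cos (cfg.ang 2 σ) ^ 2 * cfg.w R 2 σ := by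
    refine intervalIntegral.integral_mono_on hb0.le intervalIntegrable_const i1
      fun σ hσ => ?_
    have hσ' : σ ∈ Icc (0:ℝ) 1 := ⟨hσ.1, hσ.2.trans hb1⟩
    have a0 := hr.x1 σ hσ'
    have a1 : cfg.x 2 σ ≤ 2.2 := by
      have b1 := hr.x2 σ hσ'
      have b2 : cfg.L 2 * σ ≤ cfg.L 2 * b := mul_le_mul_of_nonneg_left hσ.2 hL.le
      linarith [hr.xJ]
    have a2 : |cfg.y 2 σ| ≤ 0.01 := by
      have b1 := hr.y1 σ hσ'
      have b2 : ε * cfg.x 2 σ ≤ 0.001 * 2.2 := mul_le_mul hε1 a1 (by linarith) (by norm_num)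
      norm_num at b2 ⊢
      linarith
    have a3 : cfg.x 2 σ ^ 2 ≤ 2.2 ^ 2 := pow_le_pow_left₀ (by linarith) a1 2
    have a4 : cfg.y 2 σ ^ 2 ≤ 0.01 ^ 2 := sq_le_sq' (abs_le.mp a2).1 (abs_le.mp a2).2
    have a5 : Real.exp (-3) ≤ cfg.rho 2 σ := by
      unfold Raw.rho
      apply Real.exp_le_exp.mpr
      norm_num at a3 a4 ⊢
      linarith
    have a6 : 0.04 ≤ Real.exp (-3) := by
      have b1 : Real.exp (-3) = Real.exp (-1) ^ 3 := by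
        rw [← Real.exp_nat_mul]; norm_num
      have b2 := Real.exp_neg_one_gt_d9
      have b3 : (0.36787944116:ℝ) ^ 3 ≤ Real.exp (-1) ^ 3 :=
        pow_le_pow_left₀ (by norm_num) b2.le 3
      rw [b1]
      norm_num at b3 ⊢
      linarith
    have a7 : cfg.w R 2 σ = cfg.rho 2 σ := by
      unfold Raw.w
      rw [cut_one, mul_one]
      rw [div_le_iff₀ hRpos]
      linarith
    have a8 : 0.9999 ≤ Real.cos (cfg.ang 2 σ) ^ 2 := by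
      have b2 : (0.999999:ℝ) ^ 2 ≤ Real.cos (cfg.ang 2 σ) ^ 2 :=
        pow_le_pow_left₀ (by norm_num) (hr.cs σ hσ') 2
      norm_num at b2 ⊢
      linarith
    rw [a7]
    calc (0.039:ℝ) ≤ 0.9999 * 0.04 := by norm_num
      _ ≤ Real.cos (cfg.ang 2 σ) ^ 2 * cfg.rho 2 σ :=
        mul_le_mul a8 (a6.trans a5) (by norm_num) (by linarith)
  rw [intervalIntegral.integral_const, sub_zero, smul_eq_mul] at h3
  have h4 : b * 0.039 ≤ ∫ σ in (0:ℝ)..1, Real.cos (cfg.ang 2 σ) ^ 2 * cfg.w R 2 σ := by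
    linarith
  have h5 := mul_le_mul_of_nonneg_left h4 hL.le
  rw [← mul_assoc, hLb, one_mul] at h5
  exact h5

end ST4

open ST4 ST6 in
/-- ST4 : antisymmetric part, ray -/
theorem ray_coerc (st : Star) : ∃ c > 0, ∃ C > 0, ∃ ε1 > 0, ∃ R1 > 0,
    ∀ ε ∈ Ioc 0 ε1, ∀ (R : ℝ) (cfg : Raw), R1 ≤ R → IsCfg R cfg → Near st ε cfg →
      (∀ σ ∈ Icc (0:ℝ) 1, |cfg.th 2 σ| ≤ ε) → cfg.D R ≤ 1 → ∀ cc : ℝ,
      c * (cfg.Dg R + cfg.Eg R) + c * cc ^ 2 - 1.9 * st.rJ * (cfg.S 2 0 - cc) ^ 2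
        - 4 * cc * cfg.mg R - C * ε * cfg.Kg R ≤ 2 * (cfg.Eg R - cfg.Dg R) := by
  refine ⟨0.001, by norm_num, 1, by norm_num, 0.001, by norm_num, 10, by norm_num, ?_⟩
  intro ε hε' R cfg hR hc hN hth hD cc
  have hε := hε'.1
  have hε1 := hε'.2
  have z0 : (0:ℝ) ∈ Icc (0:ℝ) 1 := ⟨le_refl _, by norm_num⟩
  have h01 : (0:ℝ) ≤ 1 := by norm_num
  have hRpos : 0 < R := by linarith
  have hL := hc.L_pos 2
  have hsg : st.sg 0 = st.ls := by unfold Star.sg; ring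
  -- the junction
  have p0 := pc0 hε (by linarith) hN z0
  have hx0 := hN.x0 0 z0
  have hy0 := hN.y0 0 z0
  rw [hsg] at p0 hx0 hy0
  rw [hc.x_J 0] at hx0
  rw [hc.y_J 0, st.y_ls, sub_zero] at hy0
  have hxi1 := st.xi_lo
  have hxi2 := st.xi_hi
  have hxJ1 : 1.186 ≤ cfg.x 2 0 := by linarith [(abs_le.mp hx0).1]
  have hxJ2 : cfg.x 2 0 ≤ 1.198 := by linarith [(abs_le.mp hx0).2]
  have hyJ : |cfg.y 2 0| ≤ ε := hy0
  -- along the ray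
  have hray : ∀ σ ∈ Icc (0:ℝ) 1, cfg.x 2 0 ≤ cfg.x 2 σ ∧ cfg.x 2 σ ≤ cfg.x 2 0 + cfg.L 2 * σ ∧
      |cfg.y 2 σ| ≤ ε + 1.02 * ε * cfg.x 2 σ := by
    intro σ hσ
    have h1 := hc.ray_x (by linarith : ε ≤ 0.1) hth (le_refl (0:ℝ)) hσ.1 hσ.2
    rw [sub_zero] at h1
    have h2 : 0 ≤ 0.99 * (cfg.L 2 * σ) := by
      have := mul_nonneg hL.le hσ.1
      linarith
    refine ⟨by linarith [h1.1], by linarith [h1.2.1], ?_⟩
    have h3 : |cfg.y 2 σ| ≤ |cfg.y 2 σ - cfg.y 2 0| + |cfg.y 2 0| := by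
      have := abs_add_le (cfg.y 2 σ - cfg.y 2 0) (cfg.y 2 0)
      rwa [sub_add_cancel] at this
    have h4 : 1.02 * ε * (cfg.x 2 σ - cfg.x 2 0) ≤ 1.02 * ε * cfg.x 2 σ := by
      apply mul_le_mul_of_nonneg_left _ (by positivity)
      linarith
    linarith [h1.2.2]
  have hx1 : ∀ σ ∈ Icc (0:ℝ) 1, 1.186 ≤ cfg.x 2 σ := fun σ hσ => hxJ1.trans (hray σ hσ).1
  have hsin : ∀ σ ∈ Icc (0:ℝ) 1, |Real.sin (cfg.ang 2 σ)| ≤ ε := by
    intro σ hσ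
    rw [IsCfg.ang_ray]
    exact (Real.abs_sin_le_abs).trans (hth σ hσ)
  have hcos : ∀ σ ∈ Icc (0:ℝ) 1, 1 - ε ^ 2 / 2 ≤ Real.cos (cfg.ang 2 σ) := by
    intro σ hσ
    rw [IsCfg.ang_ray]
    have h1 := Real.one_sub_sq_div_two_le_cos (x := cfg.th 2 σ)
    have h2 : cfg.th 2 σ ^ 2 ≤ ε ^ 2 := by
      have := abs_le.mp (hth σ hσ)
      exact sq_le_sq' this.1 this.2
    linarith
  have hε2 : ε ^ 2 ≤ 0.000001 := by
    have : ε ^ 2 ≤ 0.001 ^ 2 := pow_le_pow_left₀ hε.le hε1 2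
    norm_num at this ⊢
    exact this
  have hwn : ∀ σ, 0 ≤ cfg.w R 2 σ := fun σ => mul_nonneg (Real.exp_pos _).le (cut_nonneg _)
  -- continuity
  have hSc := hc.S_cont 2
  have hSsc := hc.Ss_cont 2
  have hkc := hc.kap_cont 2
  have hxc := hc.x_cont 2
  have hhc := hc.h_cont 2
  have hpc := hc.p_cont 2
  have hrc := hc.rho_cont 2
  have hwc := hc.w_cont 2 (R := R)
  have hdc := hc.dcut_cont 2
  have hsc : ContinuousOn (fun σ => Real.sin (cfg.ang 2 σ)) (Icc 0 1) :=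
    Real.continuous_sin.comp_continuousOn (hc.ang_cont 2)
  have hcc : ContinuousOn (fun σ => Real.cos (cfg.ang 2 σ)) (Icc 0 1) :=
    Real.continuous_cos.comp_continuousOn (hc.ang_cont 2)
  have hInt : ∀ {f : ℝ → ℝ}, ContinuousOn f (Icc (0:ℝ) 1) → IntervalIntegrable f volume 0 1 :=
    fun hf => hf.intervalIntegrable_of_Icc h01
  -- the function `λ N² w`
  obtain ⟨N, hNdef⟩ : ∃ N : ℝ → ℝ, N = fun σ => cfg.S 2 σ - cc * Real.cos (cfg.ang 2 σ) :=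
    ⟨_, rfl⟩
  obtain ⟨Ns, hNsdef⟩ : ∃ Ns : ℝ → ℝ, Ns = fun σ => cfg.Ss 2 σ +
    cc * (cfg.kap 2 σ * Real.sin (cfg.ang 2 σ)) := ⟨_, rfl⟩
  have hNc : ContinuousOn N (Icc 0 1) := by
    rw [hNdef]; exact hSc.sub (continuousOn_const.mul hcc)
  have hNsc : ContinuousOn Ns (Icc 0 1) := by
    rw [hNsdef]; exact hSsc.add (continuousOn_const.mul (hkc.mul hsc))
  have hND : ∀ σ ∈ Icc (0:ℝ) 1, HasDerivWithinAt N (cfg.L 2 * Ns σ) (Icc 0 1) σ := by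
    intro σ hσ
    have h1 := (hc.S_s 2 σ hσ).sub (((hc.ang_s 2 hσ).cos).const_mul cc)
    rw [hNdef, hNsdef]
    refine h1.congr_deriv ?_
    ring
  have hxne : ∀ σ ∈ Icc (0:ℝ) 1, cfg.x 2 σ ≠ 0 := fun σ hσ => by
    have := hx1 σ hσ; intro h0; rw [h0] at this; norm_num at this
  obtain ⟨F', hF'⟩ : ∃ F' : ℝ → ℝ, F' = fun σ => 2.1 *
      ((-(cfg.L 2 * Real.cos (cfg.ang 2 σ)) / cfg.x 2 σ ^ 2 * N σ ^ 2 +
        (cfg.x 2 σ)⁻¹ * (2 * N σ * (cfg.L 2 * Ns σ))) * cfg.w R 2 σ +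
        (cfg.x 2 σ)⁻¹ * N σ ^ 2 * (cfg.L 2 * (-(cfg.p 2 σ * cfg.w R 2 σ) +
        cfg.rho 2 σ * (deriv cut (cfg.x 2 σ / R) / R * Real.cos (cfg.ang 2 σ))))) := ⟨_, rfl⟩
  have hFD : ∀ σ ∈ Icc (0:ℝ) 1, HasDerivWithinAt
      (fun σ => 2.1 * ((cfg.x 2 σ)⁻¹ * N σ ^ 2 * cfg.w R 2 σ)) (F' σ) (Icc 0 1) σ := by
    intro σ hσ
    have h1 := ((((hc.x_s 2 σ hσ).inv (hxne σ hσ)).mul ((hND σ hσ).pow 2)).mul
      (hc.w_s hRpos 2 hσ)).const_mul 2.1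
    rw [hF']
    refine h1.congr_deriv ?_
    simp only [Nat.cast_ofNat, pow_one, Nat.add_one_sub_one, Pi.pow_apply, Pi.mul_apply,
      Pi.inv_apply]
  have hinvc : ContinuousOn (fun σ => (cfg.x 2 σ)⁻¹) (Icc 0 1) := hxc.inv₀ hxne
  have hF'c : ContinuousOn F' (Icc 0 1) := by
    rw [hF']
    exact continuousOn_const.mul ((((((continuousOn_const.mul hcc).neg.div (hxc.pow 2)
      (fun σ hσ => pow_ne_zero 2 (hxne σ hσ))).mul (hNc.pow 2)).add (hinvc.mul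
      ((continuousOn_const.mul hNc).mul (continuousOn_const.mul hNsc)))).mul hwc).add
      ((hinvc.mul (hNc.pow 2)).mul (continuousOn_const.mul ((hpc.mul hwc).neg.add
        (hrc.mul ((hdc.div_const R).mul hcc))))))
  have hFI := ftc hFD hF'c
  have hw1 : cfg.w R 2 1 = 0 := by
    unfold Raw.w
    rw [hc.x_far, div_self hRpos.ne', cut_zero (by norm_num), mul_zero]
  rw [hw1, mul_zero, mul_zero, zero_sub] at hFI
  -- the comparison function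
  obtain ⟨G, hG⟩ : ∃ G : ℝ → ℝ, G = fun σ => cfg.L 2 * ((2 * cfg.Ss 2 σ ^ 2 - 2 * cfg.S 2 σ ^ 2 +
      4 * cc * (cfg.S 2 σ * Real.cos (cfg.ang 2 σ)) - 0.001 * (cfg.S 2 σ ^ 2 + cfg.Ss 2 σ ^ 2) -
      1.99 * cc ^ 2 * Real.cos (cfg.ang 2 σ) ^ 2 +
      0.0018 * cc ^ 2 * (cfg.S 2 σ ^ 2 + cfg.h 2 σ ^ 2)) * cfg.w R 2 σ) := ⟨_, rfl⟩
  have hptw : ∀ σ ∈ Icc (0:ℝ) 1, F' σ ≤ G σ := by
    intro σ hσ
    have hx := hx1 σ hσ
    have hxpos : 0 < cfg.x 2 σ := by linarith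
    obtain ⟨u, hu⟩ : ∃ u, u = (cfg.x 2 σ)⁻¹ := ⟨_, rfl⟩
    have hu0 : 0 ≤ u := by rw [hu]; exact (inv_pos.mpr hxpos).le
    have hux : u * cfg.x 2 σ = 1 := by rw [hu]; exact inv_mul_cancel₀ hxpos.ne'
    have hu1 : u ≤ 0.8432 := by
      have h1 : u * 1.186 ≤ u * cfg.x 2 σ := mul_le_mul_of_nonneg_left hx hu0
      rw [hux] at h1
      norm_num at h1 ⊢
      linarith
    have hu2 : u ^ 2 ≤ 0.72 := by
      have h1 : u ^ 2 ≤ 0.8432 ^ 2 := pow_le_pow_left₀ hu0 hu1 2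
      norm_num at h1 ⊢
      linarith
    have hyu : |cfg.y 2 σ * u| ≤ 0.01 := by
      rw [abs_mul, abs_of_nonneg hu0]
      have h1 := mul_le_mul_of_nonneg_right (hray σ hσ).2.2 hu0
      have h2 : (ε + 1.02 * ε * cfg.x 2 σ) * u = ε * u + 1.02 * ε * (u * cfg.x 2 σ) := by ring
      rw [h2, hux, mul_one] at h1
      have h3 : ε * u ≤ 0.001 * 0.8432 := mul_le_mul hε1 hu1 hu0 (by norm_num)
      norm_num at h3 ⊢
      linarith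
    have hE1 : 0.999999 ≤ Real.cos (cfg.ang 2 σ) := by
      have := hcos σ hσ
      linarith
    have hsn : |Real.sin (cfg.ang 2 σ)| ≤ 0.001 := (hsin σ hσ).trans hε1
    have hsn2 : Real.sin (cfg.ang 2 σ) ^ 2 ≤ 0.000001 := by
      have h1 : Real.sin (cfg.ang 2 σ) ^ 2 ≤ ε ^ 2 :=
        sq_le_sq' (abs_le.mp (hsin σ hσ)).1 (abs_le.mp (hsin σ hσ)).2
      linarith
    have hA := ptA (N := N σ) (Ns := Ns σ) hu2 hE1 hyu hsn
    have hB := ptB (N := N σ) (Ns := Ns σ) (E := Real.cos (cfg.ang 2 σ)) (cc := cc)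
      (k := cfg.kap 2 σ) (sn := Real.sin (cfg.ang 2 σ)) (S := cfg.S 2 σ) (Ss := cfg.Ss 2 σ)
      (h := cfg.h 2 σ) (by rw [hNdef]) (by rw [hNsdef]) (by unfold Raw.S; ring) hsn2
    have hAB := hA.trans hB
    have hLw : 0 ≤ cfg.L 2 * cfg.w R 2 σ := mul_nonneg hL.le (hwn σ)
    have h1 := mul_le_mul_of_nonneg_left hAB hLw
    -- the cut-off term
    have h2 : 2.1 * (u * N σ ^ 2 * (cfg.L 2 * (cfg.rho 2 σ *
        (deriv cut (cfg.x 2 σ / R) / R * Real.cos (cfg.ang 2 σ))))) ≤ 0 := by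
      have a1 : deriv cut (cfg.x 2 σ / R) / R * Real.cos (cfg.ang 2 σ) ≤ 0 :=
        mul_nonpos_of_nonpos_of_nonneg
          (div_nonpos_of_nonpos_of_nonneg (cut_deriv_nonpos _) hRpos.le) (by linarith)
      have a2 : cfg.rho 2 σ * (deriv cut (cfg.x 2 σ / R) / R * Real.cos (cfg.ang 2 σ)) ≤ 0 :=
        mul_nonpos_of_nonneg_of_nonpos (Real.exp_pos _).le a1
      have a3 : 0 ≤ u * N σ ^ 2 := mul_nonneg hu0 (sq_nonneg _)
      have a4 := mul_nonpos_of_nonneg_of_nonpos a3 (mul_nonpos_of_nonneg_of_nonpos hL.le a2)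
      linarith
    have h3 : F' σ = cfg.L 2 * cfg.w R 2 σ * (2.1 * (-(Real.cos (cfg.ang 2 σ) * u ^ 2) * N σ ^ 2 +
        2 * N σ * Ns σ * u - (Real.cos (cfg.ang 2 σ) + cfg.y 2 σ * u *
          Real.sin (cfg.ang 2 σ)) * N σ ^ 2)) +
        2.1 * (u * N σ ^ 2 * (cfg.L 2 * (cfg.rho 2 σ *
        (deriv cut (cfg.x 2 σ / R) / R * Real.cos (cfg.ang 2 σ))))) := by
      rw [hF']
      have e1 : -(cfg.L 2 * Real.cos (cfg.ang 2 σ)) / cfg.x 2 σ ^ 2 =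
          -(cfg.L 2 * Real.cos (cfg.ang 2 σ)) * u ^ 2 := by
        rw [hu, inv_pow]; rfl
      have e2 : cfg.p 2 σ = cfg.x 2 σ * Real.cos (cfg.ang 2 σ) +
        cfg.y 2 σ * Real.sin (cfg.ang 2 σ) := rfl
      simp only [e1, e2, ← hu]
      have e3 : u * N σ ^ 2 * (cfg.L 2 * (-((cfg.x 2 σ * Real.cos (cfg.ang 2 σ) +
          cfg.y 2 σ * Real.sin (cfg.ang 2 σ)) * cfg.w R 2 σ) +
          cfg.rho 2 σ * (deriv cut (cfg.x 2 σ / R) / R * Real.cos (cfg.ang 2 σ)))) =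
          -(N σ ^ 2 * cfg.L 2 * cfg.w R 2 σ * ((u * cfg.x 2 σ) * Real.cos (cfg.ang 2 σ) +
            u * cfg.y 2 σ * Real.sin (cfg.ang 2 σ))) +
          u * N σ ^ 2 * (cfg.L 2 * (cfg.rho 2 σ *
            (deriv cut (cfg.x 2 σ / R) / R * Real.cos (cfg.ang 2 σ)))) := by ring
      rw [e3, hux]
      ring
    rw [h3, hG]
    linarith
  have hGc : ContinuousOn G (Icc 0 1) := by
    rw [hG]
    exact continuousOn_const.mul ((((((((hSsc.pow 2).const_smul (2:ℝ)).sub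
      ((hSc.pow 2).const_smul (2:ℝ))).add (continuousOn_const.mul (hSc.mul hcc))).sub
      (continuousOn_const.mul ((hSc.pow 2).add (hSsc.pow 2)))).sub
      (continuousOn_const.mul (hcc.pow 2))).add
      (continuousOn_const.mul ((hSc.pow 2).add (hhc.pow 2)))).mul hwc)
  have hmono := intervalIntegral.integral_mono_on h01 (hInt hF'c) (hInt hGc) hptw
  rw [hFI] at hmono
  have hRay : Ray ε R cfg := by
    refine ⟨hε, hε1, hR, ?_, hxJ2, hx1, fun σ hσ => (hray σ hσ).2.1, fun σ hσ => (hray σ hσ).2.2,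
      hsin, fun σ hσ => ?_⟩
    · have h1 := (hc.ray_x (by linarith only [hε1] : ε ≤ 0.1) hth (le_refl (0:ℝ)) h01
        (le_refl _)).2.1
      rw [hc.x_far] at h1
      linarith only [h1, hxJ2, hR]
    · have := hcos σ hσ
      linarith only [this, hε2]
  -- nonnegativity and comparison with `D`
  have hI : ∀ i, 0 ≤ cfg.I i (fun σ => cfg.S i σ ^ 2 * cfg.w R i σ) := fun i =>
    mul_nonneg (hc.L_pos i).le (intervalIntegral.integral_nonneg h01 fun σ _ =>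
      mul_nonneg (sq_nonneg _) (mul_nonneg (Real.exp_pos _).le (cut_nonneg _)))
  have hDg : cfg.Dg R ≤ 1 := by
    have h1 : cfg.D R = cfg.I 0 (fun σ => cfg.S 0 σ ^ 2 * cfg.w R 0 σ) +
        cfg.I 1 (fun σ => cfg.S 1 σ ^ 2 * cfg.w R 1 σ) +
        cfg.I 2 (fun σ => cfg.S 2 σ ^ 2 * cfg.w R 2 σ) := by
      unfold Raw.D; rw [Fin.sum_univ_three]
    have h2 : cfg.Dg R = cfg.I 2 (fun σ => cfg.S 2 σ ^ 2 * cfg.w R 2 σ) := rfl
    linarith [hI 0, hI 1]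
  have hKg : 0 ≤ cfg.Kg R := mul_nonneg hL.le (intervalIntegral.integral_nonneg h01 fun σ _ =>
      mul_nonneg (by positivity) (hwn σ))
  -- `∫ h² w`
  obtain ⟨H2, hH2⟩ : ∃ H2, H2 = cfg.I 2 (fun σ => cfg.h 2 σ ^ 2 * cfg.w R 2 σ) := ⟨_, rfl⟩
  have hH2b : H2 ≤ 0.001 := by rw [hH2]; exact H2_le hRay hc hth
  -- `∫ cos² w`
  obtain ⟨E2, hE2⟩ : ∃ E2, E2 = cfg.I 2 (fun σ => Real.cos (cfg.ang 2 σ) ^ 2 * cfg.w R 2 σ) :=
    ⟨_, rfl⟩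
  have hE2b : 0.039 ≤ E2 := by rw [hE2]; exact E2_ge hRay hc
  -- the integral of `G`
  have hGI : ∫ σ in (0:ℝ)..1, G σ = 2 * cfg.Eg R - 2 * cfg.Dg R + 4 * cc * cfg.mg R -
      0.001 * (cfg.Dg R + cfg.Eg R) - 1.99 * cc ^ 2 * E2 +
      0.0018 * cc ^ 2 * (cfg.Dg R + H2) := by
    have j1 : IntervalIntegrable (fun σ => cfg.S 2 σ ^ 2 * cfg.w R 2 σ) volume 0 1 :=
      hInt ((hSc.pow 2).mul hwc)
    have j2 : IntervalIntegrable (fun σ => cfg.Ss 2 σ ^ 2 * cfg.w R 2 σ) volume 0 1 :=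
      hInt ((hSsc.pow 2).mul hwc)
    have j3 : IntervalIntegrable (fun σ => cfg.S 2 σ * Real.cos (cfg.ang 2 σ) * cfg.w R 2 σ)
      volume 0 1 := hInt ((hSc.mul hcc).mul hwc)
    have j4 : IntervalIntegrable (fun σ => cfg.h 2 σ ^ 2 * cfg.w R 2 σ) volume 0 1 :=
      hInt ((hhc.pow 2).mul hwc)
    have j5 : IntervalIntegrable (fun σ => Real.cos (cfg.ang 2 σ) ^ 2 * cfg.w R 2 σ)
      volume 0 1 := hInt ((hcc.pow 2).mul hwc)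
    have e1 : (fun σ => G σ) = fun σ =>
        (2 - 0.001) * cfg.L 2 * (cfg.Ss 2 σ ^ 2 * cfg.w R 2 σ) +
        ((-2 - 0.001 + 0.0018 * cc ^ 2) * cfg.L 2 * (cfg.S 2 σ ^ 2 * cfg.w R 2 σ) +
        (4 * cc * cfg.L 2 * (cfg.S 2 σ * Real.cos (cfg.ang 2 σ) * cfg.w R 2 σ) +
        ((-1.99 * cc ^ 2) * cfg.L 2 * (Real.cos (cfg.ang 2 σ) ^ 2 * cfg.w R 2 σ) +
        0.0018 * cc ^ 2 * cfg.L 2 * (cfg.h 2 σ ^ 2 * cfg.w R 2 σ)))) := by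
      rw [hG]; funext σ; ring
    rw [e1, intervalIntegral.integral_add (j2.const_mul _) ((j1.const_mul _).add
        ((j3.const_mul _).add ((j5.const_mul _).add (j4.const_mul _)))),
      intervalIntegral.integral_add (j1.const_mul _)
        ((j3.const_mul _).add ((j5.const_mul _).add (j4.const_mul _))),
      intervalIntegral.integral_add (j3.const_mul _) ((j5.const_mul _).add (j4.const_mul _)),
      intervalIntegral.integral_add (j5.const_mul _) (j4.const_mul _),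
      intervalIntegral.integral_const_mul, intervalIntegral.integral_const_mul,
      intervalIntegral.integral_const_mul, intervalIntegral.integral_const_mul,
      intervalIntegral.integral_const_mul, hE2, hH2]
    unfold Raw.Eg Raw.Dg Raw.mg Raw.I
    ring
  rw [hGI] at hmono
  -- the junction term
  have hrJ : 0.36 ≤ st.rJ := by
    have h1 : st.rJ = Real.exp (-((st.x st.ls ^ 2 + st.y st.ls ^ 2) / 2)) := rfl
    rw [h1, st.y_ls]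
    have h2 : st.x st.ls ^ 2 ≤ 1.197 ^ 2 := pow_le_pow_left₀ (by linarith) hxi2 2
    have h3 : Real.exp (-1) ≤ Real.exp (-((st.x st.ls ^ 2 + 0 ^ 2) / 2)) := by
      apply Real.exp_le_exp.mpr
      norm_num at h2 ⊢
      linarith
    have h4 := Real.exp_neg_one_gt_d9
    refine le_trans ?_ h3
    norm_num at h4 ⊢
    linarith
  have hw0 : cfg.w R 2 0 ≤ st.rJ + 0.004 := by
    have h1 : cfg.w R 2 0 ≤ cfg.rho 2 0 := by
      unfold Raw.w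
      exact mul_le_of_le_one_right (Real.exp_pos _).le (cut_le_one _)
    have h2 := (abs_le.mp p0.brho).2
    rw [hc.rho_J 0] at h2
    have h3 : st.rho st.ls = st.rJ := rfl
    rw [h3] at h2
    linarith
  have hjun : 2.1 * ((cfg.x 2 0)⁻¹ * N 0 ^ 2 * cfg.w R 2 0) ≤
      1.9 * st.rJ * (cfg.S 2 0 - cc) ^ 2 + 0.001 * cc ^ 2 :=
    junc_est hxJ1 (by rw [hNdef]) (Real.cos_le_one (cfg.ang 2 0)) (by
      have := hcos 0 z0
      linarith only [this, hε2]) (hwn 0) hw0 hrJ (star_rho st st.ls).2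
  have hcc2 : 0 ≤ cc ^ 2 := sq_nonneg _
  have k1 : cc ^ 2 * 0.039 ≤ cc ^ 2 * E2 := mul_le_mul_of_nonneg_left hE2b hcc2
  have k2 : cc ^ 2 * (cfg.Dg R + H2) ≤ cc ^ 2 * 1.001 :=
    mul_le_mul_of_nonneg_left (by linarith) hcc2
  have k3 : 0 ≤ ε * cfg.Kg R := mul_nonneg hε.le hKg
  linarith

end Pool.Agent.Helper15.NF
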