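import Pool.Agent.Helper15.NF.ST5
import Pool.Agent.Helper15.NF.U1

open Set MeasureTheory intervalIntegral Filter Topology

namespace Pool.Agent.Helper15.NF

namespace ST6

lemma sg_mem (st : Star) {σ : ℝ} (hσ : σ ∈ Icc (0:ℝ) 1) : st.sg σ ∈ Icc (0:ℝ) st.ls := by
  have h1 := st.ls_lo
  refine ⟨mul_nonneg (by linarith) (by linarith [hσ.2]), ?_⟩
  have h2 : st.sg σ = st.ls - st.ls * σ := by unfold Star.sg; ring
  rw [h2]
  have h3 : 0 ≤ st.ls * σ := mul_nonneg (by linarith) hσ.1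
  linarith

lemma sg_mem' (st : Star) {σ : ℝ} (hσ : σ ∈ Icc (0:ℝ) 1) : st.sg σ ∈ Icc (0:ℝ) 1.5 := by
  have h1 := sg_mem st hσ
  exact ⟨h1.1, h1.2.trans (by linarith [st.ls_hi])⟩

lemma star_x (st : Star) {s : ℝ} (hs : s ∈ Icc (0:ℝ) 1.5) : |st.x s| ≤ 1.5 := by
  have h1 : ‖st.x s - st.x 0‖ ≤ 1 * ‖s - 0‖ :=
    Convex.norm_image_sub_le_of_norm_hasDerivWithin_le (f' := fun s => Real.cos (st.a s))
      (fun x hx => st.arc.x_s x hx) (fun x _ => by
        rw [Real.norm_eq_abs]; exact Real.abs_cos_le_one _) (convex_Icc 0 1.5)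
      ⟨le_refl _, by norm_num⟩ hs
  rw [st.arc.x_0, sub_zero, sub_zero, one_mul, Real.norm_eq_abs, Real.norm_eq_abs,
    abs_of_nonneg hs.1] at h1
  exact h1.trans hs.2

lemma star_y (st : Star) {s : ℝ} (hs : s ∈ Icc (0:ℝ) 1.5) : |st.y s| ≤ 2.2 := by
  have h1 : ‖st.y s - st.y 0‖ ≤ 1 * ‖s - 0‖ :=
    Convex.norm_image_sub_le_of_norm_hasDerivWithin_le (f' := fun s => -Real.sin (st.a s))
      (fun x hx => st.arc.y_s x hx) (fun x _ => by
        rw [norm_neg, Real.norm_eq_abs]; exact Real.abs_sin_le_one _) (convex_Icc 0 1.5)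
      ⟨le_refl _, by norm_num⟩ hs
  rw [sub_zero, one_mul, Real.norm_eq_abs, Real.norm_eq_abs, abs_of_nonneg hs.1] at h1
  have h2 := st.ys_lo
  have h3 := st.ys_hi
  have h4 := hs.2
  rw [abs_le] at h1 ⊢
  constructor <;> linarith [h1.1, h1.2]

lemma x_cont (st : Star) : ContinuousOn st.x (Icc (0:ℝ) 1.5) :=
  fun s hs => (st.arc.x_s s hs).continuousWithinAt

lemma y_cont (st : Star) : ContinuousOn st.y (Icc (0:ℝ) 1.5) :=
  fun s hs => (st.arc.y_s s hs).continuousWithinAt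

lemma a_cont (st : Star) : ContinuousOn st.a (Icc (0:ℝ) 1.5) :=
  fun s hs => (st.arc.a_s s hs).continuousWithinAt

lemma comp_cont (st : Star) {f : ℝ → ℝ} (hf : ContinuousOn f (Icc (0:ℝ) 1.5)) :
    ContinuousOn (fun σ => f (st.sg σ)) (Icc (0:ℝ) 1) := by
  refine hf.comp ?_ (fun σ hσ => sg_mem' st hσ)
  unfold Star.sg
  fun_prop

lemma h_cont (st : Star) : ContinuousOn (fun σ => st.h (st.sg σ)) (Icc (0:ℝ) 1) := by
  apply comp_cont st
  unfold Star.h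
  exact ((x_cont st).mul (Real.continuous_sin.comp_continuousOn (a_cont st))).add
    ((y_cont st).mul (Real.continuous_cos.comp_continuousOn (a_cont st)))

lemma rho_cont (st : Star) : ContinuousOn (fun σ => st.rho (st.sg σ)) (Icc (0:ℝ) 1) := by
  apply comp_cont st
  unfold Star.rho
  exact Real.continuous_exp.comp_continuousOn
    ((((x_cont st).pow 2).add ((y_cont st).pow 2)).div_const 2).neg

lemma abs_exp_neg_sub {a b : ℝ} (ha : 0 ≤ a) (hb : 0 ≤ b) :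
    |Real.exp (-a) - Real.exp (-b)| ≤ |a - b| := by
  have key : ∀ {a b : ℝ}, 0 ≤ a → a ≤ b → |Real.exp (-a) - Real.exp (-b)| ≤ |a - b| := by
    intro a b ha hab
    have h1 : Real.exp (-b) ≤ Real.exp (-a) := Real.exp_le_exp.mpr (by linarith)
    have h2 : Real.exp (-b) = Real.exp (-a) * Real.exp (-(b - a)) := by
      rw [← Real.exp_add]; congr 1; ring
    have h3 : 1 - (b - a) ≤ Real.exp (-(b - a)) := by
      have := Real.add_one_le_exp (-(b - a)); linarith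
    have h4 : Real.exp (-a) ≤ 1 := Real.exp_le_one_iff.mpr (by linarith)
    have h5 : 0 < Real.exp (-a) := Real.exp_pos _
    rw [abs_of_nonneg (by linarith), abs_of_nonpos (by linarith), h2]
    nlinarith
  rcases le_total a b with h | h
  · exact key ha h
  · rw [abs_sub_comm, abs_sub_comm a b]; exact key hb h


/-- everything that is needed about one point of an arc -/
structure PC (st : Star) (η : ℝ) (L X Y h rho s : ℝ) : Prop where
  bX : |X| ≤ 1.6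
  bY : |Y| ≤ 2.3
  bL : |L - st.ls| ≤ η
  brho : |rho - st.rho s| ≤ 4 * η
  bh : |h| ≤ 1.65
  bh2 : |h ^ 2 - st.h s ^ 2| ≤ 17 * η
  rlo : Real.exp (-4) ≤ rho
  rhi : rho ≤ 1

lemma star_h (st : Star) {s : ℝ} (hs : s ∈ Icc (0:ℝ) st.ls) : 0.6 ≤ st.h s ∧ st.h s ≤ 1.05 :=
  ⟨st.h_lo s hs, st.h_hi s hs⟩

lemma star_rho (st : Star) (s : ℝ) : 0 < st.rho s ∧ st.rho s ≤ 1 := by
  refine ⟨Real.exp_pos _, Real.exp_le_one_iff.mpr ?_⟩
  have h1 := sq_nonneg (st.x s)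
  have h2 := sq_nonneg (st.y s)
  linarith

/-- the closeness of the support function, `e = 1` for arc 0, `e = -1` for arc 1 -/
lemma h_close {η x y X Y A A' : ℝ} (hη : 0 < η) (hx : |x| ≤ 1.5) (hy : |y| ≤ 2.2)
    (hX : |X - x| ≤ η) (hY : |Y - y| ≤ η) (hA : |A - A'| ≤ η) :
    |(-(X * Real.sin A) + Y * Real.cos A) - (-(x * Real.sin A') + y * Real.cos A')| ≤
      6 * η := by
  have e : (-(X * Real.sin A) + Y * Real.cos A) - (-(x * Real.sin A') + y * Real.cos A') =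
      -((X - x) * Real.sin A) - x * (Real.sin A - Real.sin A') + (Y - y) * Real.cos A +
        y * (Real.cos A - Real.cos A') := by ring
  have h1 : |(X - x) * Real.sin A| ≤ η := by
    rw [abs_mul]
    calc |X - x| * |Real.sin A| ≤ η * 1 :=
      mul_le_mul hX (Real.abs_sin_le_one A) (abs_nonneg _) hη.le
      _ = η := mul_one η
  have h2 : |x * (Real.sin A - Real.sin A')| ≤ 1.5 * η := by
    rw [abs_mul]
    exact mul_le_mul hx ((Real.abs_sin_sub_sin_le A A').trans hA) (abs_nonneg _) (by norm_num)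
  have h3 : |(Y - y) * Real.cos A| ≤ η := by
    rw [abs_mul]
    calc |Y - y| * |Real.cos A| ≤ η * 1 :=
      mul_le_mul hY (Real.abs_cos_le_one A) (abs_nonneg _) hη.le
      _ = η := mul_one η
  have h4 : |y * (Real.cos A - Real.cos A')| ≤ 2.2 * η := by
    rw [abs_mul]
    exact mul_le_mul hy ((Real.abs_cos_sub_cos_le A A').trans hA) (abs_nonneg _) (by norm_num)
  rw [e]
  rw [abs_le] at *
  constructor <;> linarith [h1.1, h1.2, h2.1, h2.2, h3.1, h3.2, h4.1, h4.2]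

lemma pc_of {st : Star} {η L X Y h s e : ℝ} (hη : 0 < η) (hη1 : η ≤ 0.1) (he : e = 1 ∨ e = -1)
    (hs : s ∈ Icc (0:ℝ) st.ls) (hL : |L - st.ls| ≤ η) (hX : |X - st.x s| ≤ η)
    (hY : |Y - e * st.y s| ≤ η) (hh : |h - (-e * st.h s)| ≤ 6 * η) :
    PC st η L X Y h (Real.exp (-((X ^ 2 + Y ^ 2) / 2))) s := by
  have hs' : s ∈ Icc (0:ℝ) 1.5 := ⟨hs.1, hs.2.trans (by linarith [st.ls_hi])⟩
  have hx := star_x st hs'
  have hy := star_y st hs'
  have hh' := star_h st hs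
  have hX' : |X| ≤ 1.6 := by
    rw [abs_le] at *
    constructor <;> linarith [hx.1, hx.2, hX.1, hX.2]
  have hY' : |Y| ≤ 2.3 := by
    rcases he with rfl | rfl
    · rw [abs_le] at *
      constructor <;> linarith [hy.1, hy.2, hY.1, hY.2]
    · rw [abs_le] at *
      constructor <;> linarith [hy.1, hy.2, hY.1, hY.2]
  have hX2 : X ^ 2 ≤ 1.6 ^ 2 := sq_le_sq' (abs_le.mp hX').1 (abs_le.mp hX').2
  have hY2 : Y ^ 2 ≤ 2.3 ^ 2 := sq_le_sq' (abs_le.mp hY').1 (abs_le.mp hY').2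
  have e2 : e ^ 2 = 1 := by rcases he with rfl | rfl <;> norm_num
  have d1 : |X ^ 2 - st.x s ^ 2| ≤ 3.1 * η := by
    have h1 : X ^ 2 - st.x s ^ 2 = (X - st.x s) * (X + st.x s) := by ring
    rw [h1, abs_mul, mul_comm 3.1 η]
    refine mul_le_mul hX ?_ (abs_nonneg _) hη.le
    refine (abs_add_le _ _).trans ?_
    linarith
  have d2 : |Y ^ 2 - st.y s ^ 2| ≤ 4.5 * η := by
    have h1 : Y ^ 2 - st.y s ^ 2 = (Y - e * st.y s) * (Y + e * st.y s) := by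
      have : (Y - e * st.y s) * (Y + e * st.y s) = Y ^ 2 - e ^ 2 * st.y s ^ 2 := by ring
      rw [this, e2, one_mul]
    rw [h1, abs_mul, mul_comm 4.5 η]
    refine mul_le_mul hY ?_ (abs_nonneg _) hη.le
    refine (abs_add_le _ _).trans ?_
    have h2 : |e * st.y s| = |st.y s| := by
      rcases he with rfl | rfl
      · rw [one_mul]
      · rw [neg_one_mul, abs_neg]
    rw [h2]
    linarith
  have hd : |h| ≤ 1.65 := by
    rcases he with rfl | rfl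
    · rw [abs_le] at *
      constructor <;> linarith [hh.1, hh.2, hh'.1, hh'.2]
    · rw [abs_le] at *
      constructor <;> linarith [hh.1, hh.2, hh'.1, hh'.2]
  refine ⟨hX', hY', hL, ?_, hd, ?_, ?_, ?_⟩
  · refine (abs_exp_neg_sub (by positivity) (by positivity)).trans ?_
    rw [abs_le] at *
    constructor <;> linarith [d1.1, d1.2, d2.1, d2.2]
  · have h1 : h ^ 2 - st.h s ^ 2 = (h - (-e * st.h s)) * (h + (-e * st.h s)) := by
      have : (h - (-e * st.h s)) * (h + (-e * st.h s)) = h ^ 2 - e ^ 2 * st.h s ^ 2 := by ring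
      rw [this, e2, one_mul]
    rw [h1, abs_mul]
    have h2 : |h + (-e * st.h s)| ≤ 2.7 := by
      refine (abs_add_le _ _).trans ?_
      have h3 : |-e * st.h s| ≤ 1.05 := by
        rcases he with rfl | rfl
        · rw [abs_le]; constructor <;> linarith [hh'.1, hh'.2]
        · rw [abs_le]; constructor <;> linarith [hh'.1, hh'.2]
      linarith
    calc |h - (-e * st.h s)| * |h + (-e * st.h s)| ≤ (6 * η) * 2.7 :=
      mul_le_mul hh h2 (abs_nonneg _) (by linarith)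
      _ ≤ 17 * η := by linarith
  · exact Real.exp_le_exp.mpr (by linarith)
  · exact Real.exp_le_one_iff.mpr (by nlinarith [sq_nonneg X, sq_nonneg Y])

lemma off0 : off 0 = 2 * Real.pi / 3 := rfl
lemma off1 : off 1 = -(2 * Real.pi / 3) := rfl

lemma h0_close {st : Star} {η : ℝ} {cfg : Raw} (hη : 0 < η) (hN : Near st η cfg)
    {σ : ℝ} (hσ : σ ∈ Icc (0:ℝ) 1) :
    |cfg.h 0 σ - (-(1:ℝ) * st.h (st.sg σ))| ≤ 6 * η := by
  have hs := sg_mem' st hσ
  have h1 := h_close (X := cfg.x 0 σ) (Y := cfg.y 0 σ) (A := cfg.ang 0 σ)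
    (A' := Real.pi - st.a (st.sg σ)) hη (star_x st hs) (star_y st hs)
    (hN.x0 σ hσ) (hN.y0 σ hσ) (by
      have h2 := hN.th0 σ hσ
      have h3 : cfg.ang 0 σ - (Real.pi - st.a (st.sg σ)) =
          cfg.th 0 σ - (Real.pi / 3 - st.a (st.sg σ)) := by
        unfold Raw.ang; rw [off0]; ring
      rw [h3]; exact h2)
  rw [Real.sin_pi_sub, Real.cos_pi_sub] at h1
  have h4 : cfg.h 0 σ - (-(1:ℝ) * st.h (st.sg σ)) =
      (-(cfg.x 0 σ * Real.sin (cfg.ang 0 σ)) + cfg.y 0 σ * Real.cos (cfg.ang 0 σ)) -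
      (-(st.x (st.sg σ) * Real.sin (st.a (st.sg σ))) +
        st.y (st.sg σ) * -Real.cos (st.a (st.sg σ))) := by
    unfold Raw.h Star.h; ring
  rw [h4]; exact h1

lemma h1_close {st : Star} {η : ℝ} {cfg : Raw} (hη : 0 < η) (hN : Near st η cfg)
    {σ : ℝ} (hσ : σ ∈ Icc (0:ℝ) 1) :
    |cfg.h 1 σ - (-(-1:ℝ) * st.h (st.sg σ))| ≤ 6 * η := by
  have hs := sg_mem' st hσ
  have h1 := h_close (X := cfg.x 1 σ) (Y := cfg.y 1 σ) (A := cfg.ang 1 σ)
    (y := -st.y (st.sg σ))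
    (A' := st.a (st.sg σ) - Real.pi) hη (star_x st hs) (by
      rw [abs_neg]; exact star_y st hs)
    (hN.x1 σ hσ) (by
      have := hN.y1 σ hσ
      rw [sub_neg_eq_add]; exact this) (by
      have h2 := hN.th1 σ hσ
      have h3 : cfg.ang 1 σ - (st.a (st.sg σ) - Real.pi) =
          cfg.th 1 σ - (st.a (st.sg σ) - Real.pi / 3) := by
        unfold Raw.ang; rw [off1]; ring
      rw [h3]; exact h2)
  rw [Real.sin_sub_pi, Real.cos_sub_pi] at h1
  have h4 : cfg.h 1 σ - (-(-1:ℝ) * st.h (st.sg σ)) =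
      (-(cfg.x 1 σ * Real.sin (cfg.ang 1 σ)) + cfg.y 1 σ * Real.cos (cfg.ang 1 σ)) -
      (-(st.x (st.sg σ) * -Real.sin (st.a (st.sg σ))) +
        -st.y (st.sg σ) * -Real.cos (st.a (st.sg σ))) := by
    unfold Raw.h Star.h; ring
  rw [h4]; exact h1

lemma pc0 {st : Star} {η : ℝ} {cfg : Raw} (hη : 0 < η) (hη1 : η ≤ 0.1) (hN : Near st η cfg)
    {σ : ℝ} (hσ : σ ∈ Icc (0:ℝ) 1) :
    PC st η (cfg.L 0) (cfg.x 0 σ) (cfg.y 0 σ) (cfg.h 0 σ) (cfg.rho 0 σ) (st.sg σ) :=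
  pc_of hη hη1 (Or.inl rfl) (sg_mem st hσ) hN.L0 (hN.x0 σ hσ)
    (by rw [one_mul]; exact hN.y0 σ hσ) (h0_close hη hN hσ)

lemma pc1 {st : Star} {η : ℝ} {cfg : Raw} (hη : 0 < η) (hη1 : η ≤ 0.1) (hN : Near st η cfg)
    {σ : ℝ} (hσ : σ ∈ Icc (0:ℝ) 1) :
    PC st η (cfg.L 1) (cfg.x 1 σ) (cfg.y 1 σ) (cfg.h 1 σ) (cfg.rho 1 σ) (st.sg σ) :=
  pc_of hη hη1 (Or.inr rfl) (sg_mem st hσ) hN.L1 (hN.x1 σ hσ)
    (by rw [neg_one_mul, sub_neg_eq_add]; exact hN.y1 σ hσ) (h1_close hη hN hσ)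

/-- the pointwise inequality -/
lemma pointwise {st : Star} {η L X Y h rho s Ss S m : ℝ} (hη : 0 < η) (hη1 : η ≤ 0.1)
    (hs : s ∈ Icc (0:ℝ) st.ls) (hp : PC st η L X Y h rho s) (hm : 0 ≤ m) (hS : |S| ≤ m) :
    -2 * (L * ((Ss ^ 2 - ((S - h) ^ 2 + 1) * S ^ 2) * rho)) - L * (S ^ 4 * rho) ≤
      -2 * (((L * Ss) ^ 2 / st.ls - st.ls * (st.h s ^ 2 + 1) * S ^ 2) * st.rho s) +
      80 * η * ((L * Ss) ^ 2 + S ^ 2) + 11 * (m ^ 2 + m) * S ^ 2 := by
  have hl1 := st.ls_lo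
  have hl2 := st.ls_hi
  have hL := abs_le.mp hp.bL
  have hL1 : 1.29 ≤ L := by linarith [hL.1]
  have hL2 : L ≤ 1.51 := by linarith [hL.2]
  have hr := abs_le.mp hp.brho
  have hr1 := star_rho st s
  have hr0 : 0 < rho := lt_of_lt_of_le (Real.exp_pos _) hp.rlo
  have hr2 := hp.rhi
  have hh := abs_le.mp hp.bh
  have hh2 := abs_le.mp hp.bh2
  have hst := star_h st hs
  have hls : 0 < st.ls := by linarith
  -- split
  have e1 : -2 * (L * ((Ss ^ 2 - ((S - h) ^ 2 + 1) * S ^ 2) * rho)) - L * (S ^ 4 * rho) =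
      -2 * ((L * Ss) ^ 2 * (rho / L)) + 2 * (L * (h ^ 2 + 1) * rho) * S ^ 2 +
        L * rho * (S ^ 4 - 4 * h * S ^ 3) := by
    field_simp
    ring
  -- first coefficient
  have c1 : st.rho s / st.ls - rho / L ≤ 4 * η := by
    rw [div_sub_div _ _ hls.ne' (by linarith), div_le_iff₀ (by positivity)]
    have t1 : st.rho s * L - st.ls * rho = (st.rho s - rho) * L + rho * (L - st.ls) := by ring
    rw [t1]
    have t2 : (st.rho s - rho) * L ≤ 4 * η * L := by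
      apply mul_le_mul_of_nonneg_right _ (by linarith)
      linarith [hr.1]
    have t3 : rho * (L - st.ls) ≤ η := by
      calc rho * (L - st.ls) ≤ rho * η := mul_le_mul_of_nonneg_left hL.2 hr0.le
        _ ≤ 1 * η := mul_le_mul_of_nonneg_right hr2 hη.le
        _ = η := one_mul η
    have t4 : 4 * η * (st.ls * L) ≥ 4 * η * (1.39 * L) := by
      apply mul_le_mul_of_nonneg_left _ (by positivity)
      apply mul_le_mul_of_nonneg_right hl1 (by linarith)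
    have t5 : η * 1.29 ≤ η * L := mul_le_mul_of_nonneg_left hL1 hη.le
    linarith
  -- second coefficient
  have c2 : L * (h ^ 2 + 1) * rho - st.ls * (st.h s ^ 2 + 1) * st.rho s ≤ 40 * η := by
    have t1 : L * (h ^ 2 + 1) * rho - st.ls * (st.h s ^ 2 + 1) * st.rho s =
        (L - st.ls) * ((h ^ 2 + 1) * rho) + st.ls * ((h ^ 2 - st.h s ^ 2) * rho) +
          st.ls * ((st.h s ^ 2 + 1) * (rho - st.rho s)) := by ring
    have hh3 : h ^ 2 ≤ 1.65 ^ 2 := sq_le_sq' hh.1 hh.2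
    have hh4 : st.h s ^ 2 ≤ 1.05 ^ 2 := by
      apply sq_le_sq' <;> linarith [hst.1, hst.2]
    have hh5 := sq_nonneg h
    have hh6 := sq_nonneg (st.h s)
    have t2 : (L - st.ls) * ((h ^ 2 + 1) * rho) ≤ η * 3.73 := by
      calc (L - st.ls) * ((h ^ 2 + 1) * rho) ≤ η * ((h ^ 2 + 1) * rho) :=
            mul_le_mul_of_nonneg_right hL.2 (by positivity)
        _ ≤ η * 3.73 := by
            apply mul_le_mul_of_nonneg_left _ hη.le
            norm_num at hh3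
            exact (mul_le_of_le_one_right (by positivity) hr2).trans (by linarith)
    have t3 : st.ls * ((h ^ 2 - st.h s ^ 2) * rho) ≤ 1.41 * (17 * η) := by
      have u1 : (h ^ 2 - st.h s ^ 2) * rho ≤ 17 * η := by
        calc (h ^ 2 - st.h s ^ 2) * rho ≤ (17 * η) * rho :=
              mul_le_mul_of_nonneg_right hh2.2 hr0.le
          _ ≤ (17 * η) * 1 := mul_le_mul_of_nonneg_left hr2 (by positivity)
          _ = 17 * η := mul_one _
      calc st.ls * ((h ^ 2 - st.h s ^ 2) * rho) ≤ st.ls * (17 * η) :=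
            mul_le_mul_of_nonneg_left u1 hls.le
        _ ≤ 1.41 * (17 * η) := mul_le_mul_of_nonneg_right hl2 (by positivity)
    have t4 : st.ls * ((st.h s ^ 2 + 1) * (rho - st.rho s)) ≤ 1.41 * (2.11 * (4 * η)) := by
      have u1 : (st.h s ^ 2 + 1) * (rho - st.rho s) ≤ 2.11 * (4 * η) := by
        calc (st.h s ^ 2 + 1) * (rho - st.rho s) ≤ (st.h s ^ 2 + 1) * (4 * η) :=
              mul_le_mul_of_nonneg_left hr.2 (by positivity)
          _ ≤ 2.11 * (4 * η) := by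
              apply mul_le_mul_of_nonneg_right _ (by positivity)
              linarith
      calc st.ls * ((st.h s ^ 2 + 1) * (rho - st.rho s)) ≤ st.ls * (2.11 * (4 * η)) :=
            mul_le_mul_of_nonneg_left u1 hls.le
        _ ≤ 1.41 * (2.11 * (4 * η)) := mul_le_mul_of_nonneg_right hl2 (by positivity)
    rw [t1]
    linarith
  -- higher order part
  have c3 : L * rho * (S ^ 4 - 4 * h * S ^ 3) ≤ 11 * (m ^ 2 + m) * S ^ 2 := by
    have hS2 : 0 ≤ S ^ 2 := sq_nonneg S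
    have u1 : S ^ 4 - 4 * h * S ^ 3 = (S ^ 2 - 4 * h * S) * S ^ 2 := by ring
    have u2 : S ^ 2 ≤ m ^ 2 := sq_le_sq' (by linarith [(abs_le.mp hS).1]) (abs_le.mp hS).2
    have u3 : -(h * S) ≤ 1.65 * m := by
      have v1 : |h * S| ≤ 1.65 * m := by
        rw [abs_mul]
        exact mul_le_mul hp.bh hS (abs_nonneg _) (by norm_num)
      linarith [(abs_le.mp v1).1]
    have u4 : S ^ 2 - 4 * h * S ≤ m ^ 2 + 6.6 * m := by linarith
    have u5 : L * rho ≤ 1.51 := by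
      calc L * rho ≤ 1.51 * 1 := mul_le_mul hL2 hr2 hr0.le (by norm_num)
        _ = 1.51 := mul_one _
    have u6 : 0 ≤ L * rho := mul_nonneg (by linarith) hr0.le
    rw [u1, ← mul_assoc]
    apply mul_le_mul_of_nonneg_right _ hS2
    have u7 : 0 ≤ m ^ 2 + 6.6 * m := by positivity
    calc L * rho * (S ^ 2 - 4 * h * S) ≤ L * rho * (m ^ 2 + 6.6 * m) :=
          mul_le_mul_of_nonneg_left u4 u6
      _ ≤ 1.51 * (m ^ 2 + 6.6 * m) := mul_le_mul_of_nonneg_right u5 u7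
      _ ≤ 11 * (m ^ 2 + m) := by linarith [sq_nonneg m]
  rw [e1]
  have hq1 : 0 ≤ (L * Ss) ^ 2 := sq_nonneg _
  have hq2 : 0 ≤ S ^ 2 := sq_nonneg _
  have f1 : (L * Ss) ^ 2 * (st.rho s / st.ls - rho / L) ≤ (L * Ss) ^ 2 * (4 * η) :=
    mul_le_mul_of_nonneg_left c1 hq1
  have f2 : (L * (h ^ 2 + 1) * rho - st.ls * (st.h s ^ 2 + 1) * st.rho s) * S ^ 2 ≤
      40 * η * S ^ 2 := mul_le_mul_of_nonneg_right c2 hq2
  have f3 : -2 * (((L * Ss) ^ 2 / st.ls - st.ls * (st.h s ^ 2 + 1) * S ^ 2) * st.rho s) =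
      -2 * ((L * Ss) ^ 2 * (st.rho s / st.ls)) +
        2 * (st.ls * (st.h s ^ 2 + 1) * st.rho s) * S ^ 2 := by ring
  rw [f3]
  have f4 : 0 ≤ η * (L * Ss) ^ 2 := by positivity
  have f5 : 0 ≤ η * S ^ 2 := by positivity
  generalize (L * Ss) ^ 2 = z1 at *
  generalize st.rho s / st.ls = z2 at *
  generalize rho / L = z3 at *
  generalize L * (h ^ 2 + 1) * rho = z4 at *
  generalize st.ls * (st.h s ^ 2 + 1) * st.rho s = z5 at *
  generalize L * rho * (S ^ 4 - 4 * h * S ^ 3) = z6 at *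
  linarith


lemma junction {st : Star} {η R m : ℝ} {cfg : Raw} (hη : 0 < η) (hη1 : η ≤ 0.1)
    (hc : IsCfg R cfg) (hN : Near st η cfg) (hm : 0 ≤ m) (h0 : |cfg.S 0 0| ≤ m)
    (h1 : |cfg.S 1 0| ≤ m) :
    cfg.jun ≤ st.hJ * st.rJ / Real.sqrt 3 * cfg.M 0 ^ 2
      - Real.sqrt 3 * st.hJ * st.rJ * cfg.P 0 ^ 2 + 171 * η * m ^ 2 + 14 * m ^ 3 := by
  have z0 : (0:ℝ) ∈ Icc (0:ℝ) 1 := ⟨le_refl _, by norm_num⟩
  have hsg : st.sg 0 = st.ls := by unfold Star.sg; ring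
  have p0 := pc0 hη hη1 hN z0
  have k0 := h0_close hη hN z0
  have k1 := h1_close hη hN z0
  rw [hsg] at p0 k0 k1
  have hls : st.ls ∈ Icc (0:ℝ) st.ls := ⟨by linarith [st.ls_lo], le_refl _⟩
  have hst := star_h st hls
  have hJe : st.hJ = st.h st.ls := rfl
  have rJe : st.rJ = st.rho st.ls := rfl
  rw [← hJe] at k0 k1 hst
  have pr := p0.brho
  rw [← rJe] at pr
  have prlo := p0.rlo
  have prhi := p0.rhi
  rw [hc.rho_J 0] at pr prlo prhi
  have hr0 : 0 < cfg.rho 2 0 := lt_of_lt_of_le (Real.exp_pos _) prlo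
  -- names
  have hS := hc.S_J
  have hh := hc.h_J
  rw [Fin.sum_univ_three] at hS hh
  have hk : ∀ i, cfg.kap i 0 = cfg.S i 0 - cfg.h i 0 := fun i => by unfold Raw.S; ring
  have hjun : cfg.jun = cfg.rho 2 0 * ((-(cfg.S 1 0 - cfg.S 2 0) / Real.sqrt 3) *
      (2 * (cfg.S 0 0 - cfg.h 0 0) * cfg.S 0 0 - cfg.S 0 0 ^ 2) +
      (-(cfg.S 2 0 - cfg.S 0 0) / Real.sqrt 3) *
      (2 * (cfg.S 1 0 - cfg.h 1 0) * cfg.S 1 0 - cfg.S 1 0 ^ 2) +
      (-(cfg.S 0 0 - cfg.S 1 0) / Real.sqrt 3) *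
      (2 * (cfg.S 2 0 - cfg.h 2 0) * cfg.S 2 0 - cfg.S 2 0 ^ 2)) := by
    unfold Raw.jun
    rw [Fin.sum_univ_three, hk 0, hk 1, hk 2]
    rfl
  rw [hjun]
  have hM : cfg.M 0 = cfg.S 0 0 - cfg.S 1 0 := rfl
  have hP : cfg.P 0 = cfg.S 0 0 + cfg.S 1 0 := rfl
  rw [hM, hP]
  have s2 : cfg.S 2 0 = -(cfg.S 0 0 + cfg.S 1 0) := by linarith
  have hh2 : cfg.h 2 0 = -(cfg.h 0 0 + cfg.h 1 0) := by linarith
  rw [s2, hh2]
  generalize cfg.S 0 0 = a at *
  generalize cfg.S 1 0 = b at *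
  obtain ⟨u, hu⟩ : ∃ u, u = cfg.h 0 0 + st.hJ := ⟨_, rfl⟩
  obtain ⟨v, hv⟩ : ∃ v, v = cfg.h 1 0 - st.hJ := ⟨_, rfl⟩
  have e0 : cfg.h 0 0 = u - st.hJ := by linarith
  have e1 : cfg.h 1 0 = v + st.hJ := by linarith
  have hu6 : |u| ≤ 6 * η := by
    have : u = cfg.h 0 0 - -(1:ℝ) * st.hJ := by rw [hu]; ring
    rw [this]; exact k0
  have hv6 : |v| ≤ 6 * η := by
    have : v = cfg.h 1 0 - -(-1:ℝ) * st.hJ := by rw [hv]; ring
    rw [this]; exact k1
  rw [e0, e1]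
  generalize st.hJ = H at *
  generalize st.rJ = rJ at *
  generalize cfg.rho 2 0 = r at *
  obtain ⟨t, ht⟩ : ∃ t, t = 1 / Real.sqrt 3 := ⟨_, rfl⟩
  have h3 : (0:ℝ) < Real.sqrt 3 := Real.sqrt_pos.mpr (by norm_num)
  have h33 : Real.sqrt 3 * Real.sqrt 3 = 3 := Real.mul_self_sqrt (by norm_num)
  have ht0 : 0 < t := by rw [ht]; positivity
  have ht1 : t ≤ 1 := by
    rw [ht, div_le_one h3]
    have h4 := Real.sqrt_le_sqrt (show (1:ℝ) ≤ 3 by norm_num)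
    rwa [Real.sqrt_one] at h4
  have ht3 : Real.sqrt 3 = 3 * t := by
    rw [ht]; field_simp; linarith [h33, sq (Real.sqrt 3)]
  have hdiv : ∀ z : ℝ, z / Real.sqrt 3 = z * t := fun z => by rw [ht]; ring
  rw [hdiv, hdiv, hdiv, hdiv, ht3]
  -- the identity
  have key : r * (-(b - -(a + b)) * t * (2 * (a - (u - H)) * a - a ^ 2) +
      -(-(a + b) - a) * t * (2 * (b - (v + H)) * b - b ^ 2) +
      -(a - b) * t * (2 * (-(a + b) - -(u - H + (v + H))) * -(a + b) - (-(a + b)) ^ 2)) =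
      H * rJ * t * (a - b) ^ 2 - 3 * t * H * rJ * (a + b) ^ 2 +
      (r - rJ) * (H * t) * ((a - b) ^ 2 - 3 * (a + b) ^ 2) +
      r * t * (-(a + 2 * b) * a ^ 2 + (2 * a + b) * b ^ 2 - (a - b) * (a + b) ^ 2) +
      r * t * (u * (4 * a ^ 2 + 4 * a * b - 2 * b ^ 2) +
        v * (2 * a ^ 2 - 4 * a * b - 4 * b ^ 2)) := by ring
  rw [key]
  -- bounds of monomials
  have ha2 : a ^ 2 ≤ m ^ 2 := sq_le_sq' (by linarith [(abs_le.mp h0).1]) (abs_le.mp h0).2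
  have hb2 : b ^ 2 ≤ m ^ 2 := sq_le_sq' (by linarith [(abs_le.mp h1).1]) (abs_le.mp h1).2
  have hab : |a * b| ≤ m ^ 2 := by
    rw [abs_mul, sq]; exact mul_le_mul h0 h1 (abs_nonneg _) hm
  have hab' := abs_le.mp hab
  have ha20 := sq_nonneg a
  have hb20 := sq_nonneg b
  have m2 : 0 ≤ m ^ 2 := sq_nonneg m
  have b1 : |(a - b) ^ 2 - 3 * (a + b) ^ 2| ≤ 12 * m ^ 2 := by
    have : (a - b) ^ 2 - 3 * (a + b) ^ 2 = -2 * a ^ 2 - 8 * (a * b) - 2 * b ^ 2 := by ring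
    rw [this, abs_le]
    constructor <;> linarith
  have b2 : |u * (4 * a ^ 2 + 4 * a * b - 2 * b ^ 2)| ≤ 6 * η * (10 * m ^ 2) := by
    rw [abs_mul]
    refine mul_le_mul hu6 ?_ (abs_nonneg _) (by linarith)
    have : 4 * a ^ 2 + 4 * a * b - 2 * b ^ 2 = 4 * a ^ 2 + 4 * (a * b) - 2 * b ^ 2 := by ring
    rw [this, abs_le]
    constructor <;> linarith
  have b3 : |v * (2 * a ^ 2 - 4 * a * b - 4 * b ^ 2)| ≤ 6 * η * (10 * m ^ 2) := by
    rw [abs_mul]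
    refine mul_le_mul hv6 ?_ (abs_nonneg _) (by linarith)
    have : 2 * a ^ 2 - 4 * a * b - 4 * b ^ 2 = 2 * a ^ 2 - 4 * (a * b) - 4 * b ^ 2 := by ring
    rw [this, abs_le]
    constructor <;> linarith
  have b4 : |-(a + 2 * b) * a ^ 2 + (2 * a + b) * b ^ 2 - (a - b) * (a + b) ^ 2| ≤
      14 * m ^ 3 := by
    have c1 : -(a + 2 * b) * a ^ 2 + (2 * a + b) * b ^ 2 - (a - b) * (a + b) ^ 2 =
        a * (-2 * a ^ 2 - 3 * (a * b) + 3 * b ^ 2) + b * (2 * b ^ 2) := by ring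
    have c2 : |a * (-2 * a ^ 2 - 3 * (a * b) + 3 * b ^ 2)| ≤ m * (8 * m ^ 2) := by
      rw [abs_mul]
      refine mul_le_mul h0 ?_ (abs_nonneg _) hm
      rw [abs_le]; constructor <;> linarith
    have c3 : |b * (2 * b ^ 2)| ≤ m * (2 * m ^ 2) := by
      rw [abs_mul]
      refine mul_le_mul h1 ?_ (abs_nonneg _) hm
      rw [abs_le]; constructor <;> linarith
    rw [c1]
    refine (abs_add_le _ _).trans ?_
    have c4 : 0 ≤ m ^ 3 := pow_nonneg hm 3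
    calc _ ≤ m * (8 * m ^ 2) + m * (2 * m ^ 2) := add_le_add c2 c3
      _ = 10 * m ^ 3 := by ring
      _ ≤ 14 * m ^ 3 := by linarith
  -- final
  have hHt : 0 ≤ H * t ∧ H * t ≤ 1.05 := by
    constructor
    · exact mul_nonneg (by linarith [hst.1]) ht0.le
    · calc H * t ≤ 1.05 * 1 := mul_le_mul hst.2 ht1 ht0.le (by norm_num)
        _ = 1.05 := mul_one _
  have d1 : (r - rJ) * (H * t) * ((a - b) ^ 2 - 3 * (a + b) ^ 2) ≤
      4 * η * 1.05 * (12 * m ^ 2) := by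
    refine (le_abs_self _).trans ?_
    rw [abs_mul, abs_mul]
    refine mul_le_mul ?_ b1 (abs_nonneg _) (by positivity)
    refine mul_le_mul pr ?_ (abs_nonneg _) (by positivity)
    rw [abs_of_nonneg hHt.1]; exact hHt.2
  have hrt : 0 ≤ r * t ∧ r * t ≤ 1 := by
    constructor
    · positivity
    · calc r * t ≤ 1 * 1 := mul_le_mul prhi ht1 ht0.le (by norm_num)
        _ = 1 := mul_one _
  have d2 : r * t * (-(a + 2 * b) * a ^ 2 + (2 * a + b) * b ^ 2 - (a - b) * (a + b) ^ 2) ≤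
      14 * m ^ 3 := by
    refine (le_abs_self _).trans ?_
    rw [abs_mul, abs_of_nonneg hrt.1]
    calc _ ≤ 1 * (14 * m ^ 3) := mul_le_mul hrt.2 b4 (abs_nonneg _) (by norm_num)
      _ = _ := one_mul _
  have d3 : r * t * (u * (4 * a ^ 2 + 4 * a * b - 2 * b ^ 2) +
        v * (2 * a ^ 2 - 4 * a * b - 4 * b ^ 2)) ≤ 120 * η * m ^ 2 := by
    refine (le_abs_self _).trans ?_
    rw [abs_mul, abs_of_nonneg hrt.1]
    have c1 := (abs_add_le (u * (4 * a ^ 2 + 4 * a * b - 2 * b ^ 2))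
      (v * (2 * a ^ 2 - 4 * a * b - 4 * b ^ 2))).trans (add_le_add b2 b3)
    calc _ ≤ 1 * (6 * η * (10 * m ^ 2) + 6 * η * (10 * m ^ 2)) :=
          mul_le_mul hrt.2 c1 (abs_nonneg _) (by norm_num)
      _ = _ := by ring
  have d4 : 0 ≤ η * m ^ 2 := by positivity
  linarith

end ST6

open ST6 in
/-- ST6 : the arcs and the junction -/
theorem arcs_bound (st : Star) : ∃ C > 0, ∃ η1 > 0, ∃ R1 > 0, ∀ η ∈ Ioc 0 η1,
    ∀ (R : ℝ) (cfg : Raw), R1 ≤ R → IsCfg R cfg → Near st η cfg → cfg.D R ≤ 1 →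
      -2 * (cfg.I 0 (fun σ => (cfg.Ss 0 σ ^ 2 - (cfg.kap 0 σ ^ 2 + 1) * cfg.S 0 σ ^ 2) * cfg.w R 0 σ)
          + cfg.I 1 (fun σ => (cfg.Ss 1 σ ^ 2 - (cfg.kap 1 σ ^ 2 + 1) * cfg.S 1 σ ^ 2) * cfg.w R 1 σ))
        - (cfg.I 0 (fun σ => cfg.S 0 σ ^ 4 * cfg.w R 0 σ)
          + cfg.I 1 (fun σ => cfg.S 1 σ ^ 4 * cfg.w R 1 σ))
        + cfg.jun ≤
      -(st.Qs cfg.M cfg.M' - st.hJ * st.rJ / Real.sqrt 3 * cfg.M 0 ^ 2)
      - (st.Qs cfg.P cfg.P' + Real.sqrt 3 * st.hJ * st.rJ * cfg.P 0 ^ 2)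
      + C * (η + Real.sqrt (cfg.D R)) * cfg.N1 := by
  refine ⟨593 + (33 * Real.exp 2 + 106) * Real.exp 2, by positivity, 0.1, by norm_num, 4,
    by norm_num, ?_⟩
  intro η hη' R cfg hR hc hN hD
  have hη := hη'.1
  have hη1 := hη'.2
  have z0 : (0:ℝ) ∈ Icc (0:ℝ) 1 := ⟨le_refl _, by norm_num⟩
  have h01 : (0:ℝ) ≤ 1 := by norm_num
  have hRpos : 0 < R := by linarith
  -- uniform access to the two arcs
  have pc : ∀ i : Fin 3, i = 0 ∨ i = 1 → ∀ σ ∈ Icc (0:ℝ) 1,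
      PC st η (cfg.L i) (cfg.x i σ) (cfg.y i σ) (cfg.h i σ) (cfg.rho i σ) (st.sg σ) := by
    rintro i (rfl | rfl) σ hσ
    · exact pc0 hη hη1 hN hσ
    · exact pc1 hη hη1 hN hσ
  have hw : ∀ i : Fin 3, i = 0 ∨ i = 1 → ∀ σ ∈ Icc (0:ℝ) 1, cfg.w R i σ = cfg.rho i σ := by
    intro i hi σ hσ
    have h1 := (abs_le.mp (pc i hi σ hσ).bX).2
    unfold Raw.w
    rw [cut_one, mul_one]
    rw [div_le_iff₀ hRpos]
    linarith
  have hL : ∀ i : Fin 3, i = 0 ∨ i = 1 → 1.29 ≤ cfg.L i := by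
    intro i hi
    have h1 := (abs_le.mp (pc i hi 0 z0).bL).1
    linarith [st.ls_lo]
  -- integrability
  have hS := fun i => hc.S_cont i
  have hSs := fun i => hc.Ss_cont i
  have hrho := fun i => hc.rho_cont i
  have hhc := fun i => hc.h_cont i
  have hdS : ∀ i, ContinuousOn (cfg.dS i) (Icc 0 1) := fun i => (hc.C1_S i).2
  have hInt : ∀ {f : ℝ → ℝ}, ContinuousOn f (Icc (0:ℝ) 1) → IntervalIntegrable f volume 0 1 :=
    fun hf => hf.intervalIntegrable_of_Icc h01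
  -- the two L2 norms
  obtain ⟨A, hA⟩ : ∃ A, A = (∫ σ in (0:ℝ)..1, cfg.S 0 σ ^ 2) + ∫ σ in (0:ℝ)..1, cfg.S 1 σ ^ 2 :=
    ⟨_, rfl⟩
  have ia : ∀ i, 0 ≤ ∫ σ in (0:ℝ)..1, cfg.S i σ ^ 2 := fun i =>
    intervalIntegral.integral_nonneg h01 fun σ _ => sq_nonneg _
  have ib : ∀ i, 0 ≤ ∫ σ in (0:ℝ)..1, cfg.dS i σ ^ 2 := fun i =>
    intervalIntegral.integral_nonneg h01 fun σ _ => sq_nonneg _
  have jd : ∀ i, IntervalIntegrable (fun σ => cfg.dS i σ ^ 2) volume 0 1 := fun i =>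
    hInt ((hdS i).pow 2)
  have js : ∀ i, IntervalIntegrable (fun σ => cfg.S i σ ^ 2) volume 0 1 := fun i =>
    hInt ((hS i).pow 2)
  have hN1 : cfg.N1 = A + ((∫ σ in (0:ℝ)..1, cfg.dS 0 σ ^ 2) + ∫ σ in (0:ℝ)..1, cfg.dS 1 σ ^ 2) := by
    unfold Raw.N1
    rw [intervalIntegral.integral_add (jd 0) (js 0),
      intervalIntegral.integral_add (jd 1) (js 1), hA]
    ring
  have hA0 : 0 ≤ A := by rw [hA]; exact add_nonneg (ia 0) (ia 1)
  have hAN : A ≤ cfg.N1 := by rw [hN1]; linarith [ib 0, ib 1]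
  have hN0 : 0 ≤ cfg.N1 := hA0.trans hAN
  obtain ⟨α, hα⟩ : ∃ α, α = Real.sqrt A := ⟨_, rfl⟩
  obtain ⟨ν, hν⟩ : ∃ ν, ν = Real.sqrt cfg.N1 := ⟨_, rfl⟩
  have hα0 : 0 ≤ α := by rw [hα]; exact Real.sqrt_nonneg _
  have hν0 : 0 ≤ ν := by rw [hν]; exact Real.sqrt_nonneg _
  have hα2 : α * α = A := by rw [hα]; exact Real.mul_self_sqrt hA0
  have hν2 : ν * ν = cfg.N1 := by rw [hν]; exact Real.mul_self_sqrt hN0
  have hαν : α ≤ ν := by rw [hα, hν]; exact Real.sqrt_le_sqrt hAN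
  -- the sup bound
  obtain ⟨m, hm⟩ : ∃ m, m = Real.sqrt (3 * (α * ν)) := ⟨_, rfl⟩
  have hm0 : 0 ≤ m := by rw [hm]; exact Real.sqrt_nonneg _
  have hm2 : m ^ 2 = 3 * (α * ν) := by rw [hm]; exact Real.sq_sqrt (by positivity)
  have hmν : m ≤ 2 * ν := by
    apply le_of_sq_le_sq _ (by positivity)
    rw [hm2]
    linarith [mul_le_mul_of_nonneg_right hαν hν0, mul_nonneg hν0 hν0]
  have hsup : ∀ i : Fin 3, i = 0 ∨ i = 1 → ∀ σ ∈ Icc (0:ℝ) 1, |cfg.S i σ| ≤ m := by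
    intro i hi σ hσ
    have h1 := interp (hc.C1_S i) σ hσ
    have h2 : ∫ s in (0:ℝ)..1, cfg.S i s ^ 2 ≤ A := by
      rcases hi with rfl | rfl
      · rw [hA]; linarith [ia 1]
      · rw [hA]; linarith [ia 0]
    have h3 : ∫ s in (0:ℝ)..1, cfg.dS i s ^ 2 ≤ cfg.N1 := by
      rcases hi with rfl | rfl
      · rw [hN1]; linarith [ib 1]
      · rw [hN1]; linarith [ib 0]
    have h4 : Real.sqrt (∫ s in (0:ℝ)..1, cfg.S i s ^ 2) ≤ α := by
      rw [hα]; exact Real.sqrt_le_sqrt h2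
    have h5 : Real.sqrt (∫ s in (0:ℝ)..1, cfg.dS i s ^ 2) ≤ ν := by
      rw [hν]; exact Real.sqrt_le_sqrt h3
    have h6 : Real.sqrt (∫ s in (0:ℝ)..1, cfg.S i s ^ 2) *
        Real.sqrt (∫ s in (0:ℝ)..1, cfg.dS i s ^ 2) ≤ α * ν :=
      mul_le_mul h4 h5 (Real.sqrt_nonneg _) hα0
    have h7 : A ≤ α * ν := by
      rw [← hα2]; exact mul_le_mul_of_nonneg_left hαν hα0
    apply abs_le_of_sq_le_sq _ hm0
    rw [hm2]
    linarith
  -- comparison with D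
  have hexp : Real.exp 2 * Real.exp 2 = Real.exp 4 := by
    rw [← Real.exp_add]; norm_num
  have hI : ∀ i : Fin 3, i = 0 ∨ i = 1 → ∫ σ in (0:ℝ)..1, cfg.S i σ ^ 2 ≤
      Real.exp 4 * cfg.I i (fun σ => cfg.S i σ ^ 2 * cfg.w R i σ) := by
    intro i hi
    have h1 : ∫ σ in (0:ℝ)..1, cfg.S i σ ^ 2 ≤
        ∫ σ in (0:ℝ)..1, Real.exp 4 * (cfg.L i * (cfg.S i σ ^ 2 * cfg.w R i σ)) := by
      refine intervalIntegral.integral_mono_on h01 (hInt ((hS i).pow 2))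
        (hInt (continuousOn_const.mul (continuousOn_const.mul
          (((hS i).pow 2).mul (hc.w_cont i))))) fun σ hσ => ?_
      rw [hw i hi σ hσ]
      have h2 := (pc i hi σ hσ).rlo
      have h3 : 1 ≤ Real.exp 4 * (cfg.L i * cfg.rho i σ) := by
        have h4 : Real.exp 4 * Real.exp (-4) = 1 := by
          rw [← Real.exp_add]; norm_num
        calc 1 = Real.exp 4 * (1 * Real.exp (-4)) := by rw [one_mul, h4]
          _ ≤ Real.exp 4 * (cfg.L i * cfg.rho i σ) := by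
            apply mul_le_mul_of_nonneg_left _ (Real.exp_pos _).le
            exact mul_le_mul (by linarith [hL i hi]) h2 (Real.exp_pos _).le
              (by linarith [hL i hi])
      have h5 := mul_le_mul_of_nonneg_right h3 (sq_nonneg (cfg.S i σ))
      calc cfg.S i σ ^ 2 = 1 * cfg.S i σ ^ 2 := (one_mul _).symm
        _ ≤ Real.exp 4 * (cfg.L i * cfg.rho i σ) * cfg.S i σ ^ 2 := h5
        _ = Real.exp 4 * (cfg.L i * (cfg.S i σ ^ 2 * cfg.rho i σ)) := by ring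
    rw [intervalIntegral.integral_const_mul, intervalIntegral.integral_const_mul] at h1
    exact h1
  have hwn : ∀ i σ, 0 ≤ cfg.w R i σ := fun i σ =>
    mul_nonneg (Real.exp_pos _).le (cut_nonneg _)
  have hI2 : 0 ≤ cfg.I 2 (fun σ => cfg.S 2 σ ^ 2 * cfg.w R 2 σ) :=
    mul_nonneg (hc.L_pos 2).le (intervalIntegral.integral_nonneg h01 fun σ _ =>
      mul_nonneg (sq_nonneg _) (hwn 2 σ))
  have hAD : A ≤ Real.exp 4 * cfg.D R := by
    have h1 : cfg.D R = cfg.I 0 (fun σ => cfg.S 0 σ ^ 2 * cfg.w R 0 σ) +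
        cfg.I 1 (fun σ => cfg.S 1 σ ^ 2 * cfg.w R 1 σ) +
        cfg.I 2 (fun σ => cfg.S 2 σ ^ 2 * cfg.w R 2 σ) := by
      unfold Raw.D; rw [Fin.sum_univ_three]
    rw [h1, hA]
    have h2 := hI 0 (Or.inl rfl)
    have h3 := hI 1 (Or.inr rfl)
    have h4 := mul_nonneg (Real.exp_pos 4).le hI2
    linarith
  have hD0 : 0 ≤ cfg.D R := by
    have h1 := hA0.trans hAD
    exact nonneg_of_mul_nonneg_right h1 (Real.exp_pos 4)
  have hαD : α ≤ Real.exp 2 * Real.sqrt (cfg.D R) := by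
    rw [hα]
    apply Real.sqrt_le_iff.mpr
    refine ⟨by positivity, ?_⟩
    rw [mul_pow, Real.sq_sqrt hD0, sq, hexp]
    exact hAD
  have hsD : Real.sqrt (cfg.D R) ≤ 1 := by
    rw [← Real.sqrt_one]; exact Real.sqrt_le_sqrt hD
  have hακ : α ≤ Real.exp 2 := by
    calc α ≤ Real.exp 2 * Real.sqrt (cfg.D R) := hαD
      _ ≤ Real.exp 2 * 1 := mul_le_mul_of_nonneg_left hsD (Real.exp_pos _).le
      _ = Real.exp 2 := mul_one _
  -- the integrals
  have hf : ∀ i : Fin 3, i = 0 ∨ i = 1 →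
      -2 * cfg.I i (fun σ => (cfg.Ss i σ ^ 2 - (cfg.kap i σ ^ 2 + 1) * cfg.S i σ ^ 2) * cfg.w R i σ)
        - cfg.I i (fun σ => cfg.S i σ ^ 4 * cfg.w R i σ) =
      ∫ σ in (0:ℝ)..1, (-2 * (cfg.L i * ((cfg.Ss i σ ^ 2 -
        ((cfg.S i σ - cfg.h i σ) ^ 2 + 1) * cfg.S i σ ^ 2) * cfg.rho i σ)) -
        cfg.L i * (cfg.S i σ ^ 4 * cfg.rho i σ)) := by
    intro i hi
    rw [intervalIntegral.integral_sub, intervalIntegral.integral_const_mul,
      intervalIntegral.integral_const_mul, intervalIntegral.integral_const_mul]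
    · unfold Raw.I
      congr 1
      · congr 2
        refine intervalIntegral.integral_congr fun σ hσ => ?_
        rw [uIcc_of_le h01] at hσ
        have h1 : cfg.kap i σ = cfg.S i σ - cfg.h i σ := by unfold Raw.S; ring
        simp only [hw i hi σ hσ, h1]
      · congr 1
        refine intervalIntegral.integral_congr fun σ hσ => ?_
        rw [uIcc_of_le h01] at hσ
        simp only [hw i hi σ hσ]
    · exact hInt (continuousOn_const.mul (continuousOn_const.mul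
        ((((hSs i).pow 2).sub (((((hS i).sub (hhc i)).pow 2).add continuousOn_const).mul
          ((hS i).pow 2))).mul (hrho i))))
    · exact hInt (continuousOn_const.mul (((hS i).pow 4).mul (hrho i)))
  have hcont1 : ∀ i : Fin 3, IntervalIntegrable (fun σ => (-2 * (cfg.L i * ((cfg.Ss i σ ^ 2 -
        ((cfg.S i σ - cfg.h i σ) ^ 2 + 1) * cfg.S i σ ^ 2) * cfg.rho i σ)) -
        cfg.L i * (cfg.S i σ ^ 4 * cfg.rho i σ))) volume 0 1 := fun i =>
    hInt ((continuousOn_const.mul (continuousOn_const.mul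
        ((((hSs i).pow 2).sub (((((hS i).sub (hhc i)).pow 2).add continuousOn_const).mul
          ((hS i).pow 2))).mul (hrho i)))).sub
      (continuousOn_const.mul (((hS i).pow 4).mul (hrho i))))
  -- upper bound of the sum of the integrals
  have hM : ContinuousOn cfg.M (Icc 0 1) := (hS 0).sub (hS 1)
  have hP : ContinuousOn cfg.P (Icc 0 1) := (hS 0).add (hS 1)
  have hM' : ContinuousOn cfg.M' (Icc 0 1) := (hdS 0).sub (hdS 1)
  have hP' : ContinuousOn cfg.P' (Icc 0 1) := (hdS 0).add (hdS 1)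
  have hQc : ∀ {f g : ℝ → ℝ}, ContinuousOn f (Icc (0:ℝ) 1) → ContinuousOn g (Icc (0:ℝ) 1) →
      ContinuousOn (fun σ => (g σ ^ 2 / st.ls - st.ls * (st.h (st.sg σ) ^ 2 + 1) * f σ ^ 2) *
        st.rho (st.sg σ)) (Icc (0:ℝ) 1) := by
    intro f g hf hg
    exact (((hg.pow 2).div_const _).sub ((continuousOn_const.mul
      (((h_cont st).pow 2).add continuousOn_const)).mul (hf.pow 2))).mul (rho_cont st)
  have hbound : (∫ σ in (0:ℝ)..1, (-2 * (cfg.L 0 * ((cfg.Ss 0 σ ^ 2 -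
        ((cfg.S 0 σ - cfg.h 0 σ) ^ 2 + 1) * cfg.S 0 σ ^ 2) * cfg.rho 0 σ)) -
        cfg.L 0 * (cfg.S 0 σ ^ 4 * cfg.rho 0 σ))) +
      (∫ σ in (0:ℝ)..1, (-2 * (cfg.L 1 * ((cfg.Ss 1 σ ^ 2 -
        ((cfg.S 1 σ - cfg.h 1 σ) ^ 2 + 1) * cfg.S 1 σ ^ 2) * cfg.rho 1 σ)) -
        cfg.L 1 * (cfg.S 1 σ ^ 4 * cfg.rho 1 σ))) ≤
      -st.Qs cfg.M cfg.M' - st.Qs cfg.P cfg.P' + 80 * η * cfg.N1 + 11 * (m ^ 2 + m) * A := by
    rw [← intervalIntegral.integral_add (hcont1 0) (hcont1 1)]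
    have h1 : -st.Qs cfg.M cfg.M' - st.Qs cfg.P cfg.P' + 80 * η * cfg.N1 +
        11 * (m ^ 2 + m) * A = ∫ σ in (0:ℝ)..1, (
          ((-1) * ((cfg.M' σ ^ 2 / st.ls - st.ls * (st.h (st.sg σ) ^ 2 + 1) * cfg.M σ ^ 2) *
            st.rho (st.sg σ)) +
          (-1) * ((cfg.P' σ ^ 2 / st.ls - st.ls * (st.h (st.sg σ) ^ 2 + 1) * cfg.P σ ^ 2) *
            st.rho (st.sg σ))) +
          (80 * η * ((cfg.dS 0 σ ^ 2 + cfg.S 0 σ ^ 2) + (cfg.dS 1 σ ^ 2 + cfg.S 1 σ ^ 2)) +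
          11 * (m ^ 2 + m) * (cfg.S 0 σ ^ 2 + cfg.S 1 σ ^ 2))) := by
      have i1 := (hInt (hQc hM hM')).const_mul (-1)
      have i2 := (hInt (hQc hP hP')).const_mul (-1)
      have i3 : IntervalIntegrable (fun σ => cfg.dS 0 σ ^ 2 + cfg.S 0 σ ^ 2) volume 0 1 :=
        (jd 0).add (js 0)
      have i4 : IntervalIntegrable (fun σ => cfg.dS 1 σ ^ 2 + cfg.S 1 σ ^ 2) volume 0 1 :=
        (jd 1).add (js 1)
      have i5 := js 0
      have i6 := js 1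
      have i34 : IntervalIntegrable (fun σ => 80 * η * ((cfg.dS 0 σ ^ 2 + cfg.S 0 σ ^ 2) +
        (cfg.dS 1 σ ^ 2 + cfg.S 1 σ ^ 2))) volume 0 1 := (i3.add i4).const_mul _
      have i56 : IntervalIntegrable (fun σ => 11 * (m ^ 2 + m) * (cfg.S 0 σ ^ 2 +
        cfg.S 1 σ ^ 2)) volume 0 1 := (i5.add i6).const_mul _
      rw [intervalIntegral.integral_add (i1.add i2) (i34.add i56),
        intervalIntegral.integral_add i1 i2,
        intervalIntegral.integral_add i34 i56,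
        intervalIntegral.integral_const_mul, intervalIntegral.integral_const_mul,
        intervalIntegral.integral_const_mul, intervalIntegral.integral_const_mul,
        intervalIntegral.integral_add i3 i4, intervalIntegral.integral_add i5 i6, ← hA]
      have e1 : st.Qs cfg.M cfg.M' = ∫ σ in (0:ℝ)..1, (cfg.M' σ ^ 2 / st.ls -
        st.ls * (st.h (st.sg σ) ^ 2 + 1) * cfg.M σ ^ 2) * st.rho (st.sg σ) := rfl
      have e2 : st.Qs cfg.P cfg.P' = ∫ σ in (0:ℝ)..1, (cfg.P' σ ^ 2 / st.ls -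
        st.ls * (st.h (st.sg σ) ^ 2 + 1) * cfg.P σ ^ 2) * st.rho (st.sg σ) := rfl
      have e3 : cfg.N1 = (∫ σ in (0:ℝ)..1, (cfg.dS 0 σ ^ 2 + cfg.S 0 σ ^ 2)) +
        ∫ σ in (0:ℝ)..1, (cfg.dS 1 σ ^ 2 + cfg.S 1 σ ^ 2) := rfl
      rw [← e1, ← e2, ← e3]
      ring
    rw [h1]
    refine intervalIntegral.integral_mono_on h01 ((hcont1 0).add (hcont1 1)) ?_ fun σ hσ => ?_
    · have i1 := (hInt (hQc hM hM')).const_mul (-1)
      have i2 := (hInt (hQc hP hP')).const_mul (-1)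
      exact (i1.add i2).add (((((jd 0).add (js 0)).add ((jd 1).add (js 1))).const_mul _).add
        (((js 0).add (js 1)).const_mul _))
    · have q0 := pointwise (Ss := cfg.Ss 0 σ) hη hη1 (sg_mem st hσ) (pc 0 (Or.inl rfl) σ hσ) hm0
        (hsup 0 (Or.inl rfl) σ hσ)
      have q1 := pointwise (Ss := cfg.Ss 1 σ) hη hη1 (sg_mem st hσ) (pc 1 (Or.inr rfl) σ hσ) hm0
        (hsup 1 (Or.inr rfl) σ hσ)
      refine (add_le_add q0 q1).trans (le_of_eq ?_)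
      have e1 : cfg.M' σ = cfg.L 0 * cfg.Ss 0 σ - cfg.L 1 * cfg.Ss 1 σ := rfl
      have e2 : cfg.P' σ = cfg.L 0 * cfg.Ss 0 σ + cfg.L 1 * cfg.Ss 1 σ := rfl
      have e3 : cfg.M σ = cfg.S 0 σ - cfg.S 1 σ := rfl
      have e4 : cfg.P σ = cfg.S 0 σ + cfg.S 1 σ := rfl
      have e5 : cfg.dS 0 σ = cfg.L 0 * cfg.Ss 0 σ := rfl
      have e6 : cfg.dS 1 σ = cfg.L 1 * cfg.Ss 1 σ := rfl
      rw [e1, e2, e3, e4, e5, e6]
      ring
  have hj := junction hη hη1 hc hN hm0 (hsup 0 (Or.inl rfl) 0 z0) (hsup 1 (Or.inr rfl) 0 z0)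
  have hf0 := hf 0 (Or.inl rfl)
  have hf1 := hf 1 (Or.inr rfl)
  -- the error terms
  have hκ : 0 < Real.exp 2 := Real.exp_pos 2
  have t1 : m ^ 2 ≤ 3 * cfg.N1 := by
    rw [hm2, ← hν2]
    have := mul_le_mul_of_nonneg_right hαν hν0
    linarith
  have t2 : m ^ 2 * A ≤ 3 * Real.exp 2 * (α * cfg.N1) := by
    rw [hm2, ← hα2, ← hν2]
    have u1 : α * α * (α * ν) ≤ Real.exp 2 * α * (ν * ν) := by
      have v1 : α * α ≤ Real.exp 2 * α := mul_le_mul_of_nonneg_right hακ hα0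
      have v2 : α * ν ≤ ν * ν := mul_le_mul_of_nonneg_right hαν hν0
      exact mul_le_mul v1 v2 (by positivity) (by positivity)
    linarith
  have t3 : m * A ≤ 2 * (α * cfg.N1) := by
    rw [← hα2, ← hν2]
    have v1 : α * α ≤ α * ν := mul_le_mul_of_nonneg_left hαν hα0
    calc m * (α * α) ≤ (2 * ν) * (α * ν) := mul_le_mul hmν v1 (by positivity) (by positivity)
      _ = 2 * (α * (ν * ν)) := by ring
  have t4 : m ^ 3 ≤ 6 * (α * cfg.N1) := by
    have v1 : m ^ 3 = m * m ^ 2 := by ring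
    rw [v1, hm2, ← hν2]
    calc m * (3 * (α * ν)) ≤ (2 * ν) * (3 * (α * ν)) :=
          mul_le_mul_of_nonneg_right hmν (by positivity)
      _ = 6 * (α * (ν * ν)) := by ring
  have t5 : α * cfg.N1 ≤ Real.exp 2 * Real.sqrt (cfg.D R) * cfg.N1 :=
    mul_le_mul_of_nonneg_right hαD hN0
  have t6 : (33 * Real.exp 2 + 106) * (α * cfg.N1) ≤
      (33 * Real.exp 2 + 106) * (Real.exp 2 * Real.sqrt (cfg.D R) * cfg.N1) :=
    mul_le_mul_of_nonneg_left t5 (by positivity)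
  have t7 : η * m ^ 2 ≤ η * (3 * cfg.N1) := mul_le_mul_of_nonneg_left t1 hη.le
  have t8 : 0 ≤ 593 * (Real.sqrt (cfg.D R) * cfg.N1) := by positivity
  have t9 : 0 ≤ (33 * Real.exp 2 + 106) * Real.exp 2 * (η * cfg.N1) := by positivity
  have t10 : (593 + (33 * Real.exp 2 + 106) * Real.exp 2) * (η + Real.sqrt (cfg.D R)) * cfg.N1 =
      593 * (η * cfg.N1) + 593 * (Real.sqrt (cfg.D R) * cfg.N1) +
      (33 * Real.exp 2 + 106) * Real.exp 2 * (η * cfg.N1) +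
      (33 * Real.exp 2 + 106) * (Real.exp 2 * Real.sqrt (cfg.D R) * cfg.N1) := by ring
  rw [t10]
  have t11 : (33 * Real.exp 2 + 106) * (α * cfg.N1) =
      11 * (3 * Real.exp 2 * (α * cfg.N1)) + 11 * (2 * (α * cfg.N1)) +
        14 * (6 * (α * cfg.N1)) := by ring
  have t12 : 11 * (m ^ 2 + m) * A = 11 * (m ^ 2 * A) + 11 * (m * A) := by ring
  rw [t12] at hbound
  linarith

end Pool.Agent.Helper15.NF
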