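import Pool.Agent.Helper15.NF.ST5
import Pool.Agent.Helper15.NF.U1

open Set MeasureTheory intervalIntegral Filter Topology

namespace Pool.Agent.Helper15.NF

namespace ST7

/-- crude bounds for the exact arc -/
theorem star_bd (st : Star) {σ : ℝ} (hσ : σ ∈ Icc (0:ℝ) 1) :
    |st.x (st.sg σ)| ≤ 1.5 ∧ |st.y (st.sg σ)| ≤ 2.2 := by
  have h0 : (0:ℝ) ∈ Icc (0:ℝ) 1.5 := by constructor <;> norm_num
  have hls := st.ls_lo
  have hls' := st.ls_hi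
  have h1 : st.sg σ ∈ Icc (0:ℝ) 1.5 := by
    unfold Star.sg
    obtain ⟨ha, hb⟩ := hσ
    constructor
    · exact mul_nonneg (by linarith) (by linarith)
    · nlinarith
  have hx := Convex.norm_image_sub_le_of_norm_hasDerivWithin_le (C := 1) st.arc.x_s
    (fun s _ => by rw [Real.norm_eq_abs]; exact Real.abs_cos_le_one _) (convex_Icc _ _) h0 h1
  have hy := Convex.norm_image_sub_le_of_norm_hasDerivWithin_le (C := 1) st.arc.y_s
    (fun s _ => by rw [Real.norm_eq_abs, abs_neg]; exact Real.abs_sin_le_one _)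
    (convex_Icc _ _) h0 h1
  have hy1 := st.ys_lo
  have hy2 := st.ys_hi
  simp only [Real.norm_eq_abs, sub_zero, one_mul, st.arc.x_0] at hx hy
  rw [abs_of_nonneg h1.1] at hx hy
  refine ⟨hx.trans h1.2, ?_⟩
  have h3 := abs_le.1 hy
  have h4 := h1.2
  rw [abs_le]
  constructor
  · norm_num at *; linarith
  · norm_num at *; linarith

variable {R ε : ℝ} {c : Raw} {st : Star}

theorem w_nonneg (R : ℝ) (c : Raw) (i : Fin 3) (σ : ℝ) : 0 ≤ c.w R i σ :=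
  mul_nonneg (Real.exp_pos _).le (cut_nonneg _)

theorem rho_le_one (c : Raw) (i : Fin 3) (σ : ℝ) : c.rho i σ ≤ 1 := by
  unfold Raw.rho
  rw [Real.exp_le_one_iff]
  nlinarith [sq_nonneg (c.x i σ), sq_nonneg (c.y i σ)]

theorem w_le_one (R : ℝ) (c : Raw) (i : Fin 3) (σ : ℝ) : c.w R i σ ≤ 1 :=
  mul_le_one₀ (rho_le_one c i σ) (cut_nonneg _) (cut_le_one _)

theorem arc_bd (hε : ε ≤ 0.1) (hn : Near st ε c) {i : Fin 3} (hi : i ≠ 2) {σ : ℝ}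
    (hσ : σ ∈ Icc (0:ℝ) 1) : |c.x i σ| ≤ 1.6 ∧ |c.y i σ| ≤ 2.3 ∧ 1 ≤ c.L i := by
  obtain ⟨h1, h2⟩ := star_bd st hσ
  have hls := st.ls_lo
  rw [abs_le] at h1 h2
  have h3 := abs_le.1 (hn.x0 σ hσ)
  have h4 := abs_le.1 (hn.x1 σ hσ)
  have h5 := abs_le.1 (hn.y0 σ hσ)
  have h6 := abs_le.1 (hn.y1 σ hσ)
  have h7 := abs_le.1 hn.L0
  have h8 := abs_le.1 hn.L1
  norm_num at *
  fin_cases i
  · refine ⟨abs_le.2 ⟨?_, ?_⟩, abs_le.2 ⟨?_, ?_⟩, ?_⟩ <;> simp <;> linarith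
  · refine ⟨abs_le.2 ⟨?_, ?_⟩, abs_le.2 ⟨?_, ?_⟩, ?_⟩ <;> simp <;> linarith
  · exact absurd rfl hi

/-- lower bound of the weight on the arcs -/
theorem w_arc (hε : ε ≤ 0.1) (hR : 4 ≤ R) (hn : Near st ε c) {i : Fin 3} (hi : i ≠ 2) {σ : ℝ}
    (hσ : σ ∈ Icc (0:ℝ) 1) : Real.exp (-4) ≤ c.w R i σ := by
  obtain ⟨h1, h2, -⟩ := arc_bd hε hn hi hσ
  unfold Raw.w
  rw [cut_one, mul_one]
  · unfold Raw.rho
    rw [Real.exp_le_exp, neg_le_neg_iff]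
    have h3 : c.x i σ ^ 2 ≤ 1.6 ^ 2 := by
      rw [← sq_abs]
      exact pow_le_pow_left₀ (abs_nonneg _) h1 2
    have h4 : c.y i σ ^ 2 ≤ 2.3 ^ 2 := by
      rw [← sq_abs]
      exact pow_le_pow_left₀ (abs_nonneg _) h2 2
    norm_num at *
    linarith
  · rw [div_le_iff₀ (by linarith)]
    have := (abs_le.1 h1).2
    norm_num at *
    linarith

theorem I_nonneg (hc : IsCfg R c) (i : Fin 3) {f : ℝ → ℝ} (hf : ∀ σ ∈ Icc (0:ℝ) 1, 0 ≤ f σ) :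
    0 ≤ c.I i f :=
  mul_nonneg (hc.L_pos i).le (intervalIntegral.integral_nonneg zero_le_one hf)

/-- the `L²` norm of `S` on the arcs is controlled by `D` -/
theorem A_le (hε : ε ≤ 0.1) (hR : 4 ≤ R) (hc : IsCfg R c) (hn : Near st ε c) :
    (∫ σ in (0:ℝ)..1, c.S 0 σ ^ 2) + (∫ σ in (0:ℝ)..1, c.S 1 σ ^ 2) ≤ Real.exp 4 * c.D R := by
  have key : ∀ i : Fin 3, i ≠ 2 → (∫ σ in (0:ℝ)..1, c.S i σ ^ 2) ≤
      Real.exp 4 * c.I i (fun σ => c.S i σ ^ 2 * c.w R i σ) := by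
    intro i hi
    have hS := hc.S_cont i
    have hw := hc.w_cont i
    have h0 : 0 ≤ ∫ σ in (0:ℝ)..1, c.S i σ ^ 2 * c.w R i σ :=
      intervalIntegral.integral_nonneg zero_le_one
        fun σ _ => mul_nonneg (sq_nonneg _) (w_nonneg R c i σ)
    have hL : 1 ≤ c.L i := (arc_bd hε hn hi (σ := 0) ⟨le_rfl, zero_le_one⟩).2.2
    have h1 : (∫ σ in (0:ℝ)..1, c.S i σ ^ 2) ≤
        ∫ σ in (0:ℝ)..1, Real.exp 4 * (c.S i σ ^ 2 * c.w R i σ) := by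
      refine intervalIntegral.integral_mono_on zero_le_one ?_ ?_ ?_
      · exact (ContinuousOn.pow hS 2).intervalIntegrable_of_Icc zero_le_one
      · exact (continuousOn_const.mul ((hS.pow 2).mul hw)).intervalIntegrable_of_Icc zero_le_one
      · intro σ hσ
        have h2 := w_arc hε hR hn hi hσ
        have h3 : (1:ℝ) ≤ Real.exp 4 * c.w R i σ := by
          calc (1:ℝ) = Real.exp 4 * Real.exp (-4) := by rw [← Real.exp_add]; simp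
            _ ≤ _ := mul_le_mul_of_nonneg_left h2 (Real.exp_pos _).le
        nlinarith [sq_nonneg (c.S i σ)]
    rw [intervalIntegral.integral_const_mul] at h1
    refine h1.trans (mul_le_mul_of_nonneg_left ?_ (Real.exp_pos _).le)
    unfold Raw.I
    nlinarith
  have h0 := key 0 (by decide)
  have h1 := key 1 (by decide)
  have h2 : 0 ≤ c.I 2 (fun σ => c.S 2 σ ^ 2 * c.w R 2 σ) :=
    I_nonneg hc 2 fun σ _ => mul_nonneg (sq_nonneg _) (w_nonneg R c 2 σ)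
  unfold Raw.D
  rw [Fin.sum_univ_three, mul_add, mul_add]
  have := mul_nonneg (Real.exp_pos 4).le h2
  linarith

/-- the value of `S` at the junction -/
theorem SJ_bd (hc : IsCfg R c) {A : ℝ}
    (hA : A = (∫ σ in (0:ℝ)..1, c.S 0 σ ^ 2) + (∫ σ in (0:ℝ)..1, c.S 1 σ ^ 2)) :
    c.S 2 0 ^ 2 ≤ 12 * c.N1 ∧ |c.S 2 0| ^ 3 ≤ 48 * Real.sqrt A * c.N1 := by
  have hint : ∀ i, IntervalIntegrable (fun σ => c.S i σ ^ 2) volume 0 1 := fun i =>
    (ContinuousOn.pow (hc.S_cont i) 2).intervalIntegrable_of_Icc zero_le_one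
  have hint' : ∀ i, IntervalIntegrable (fun σ => c.dS i σ ^ 2) volume 0 1 := fun i =>
    (ContinuousOn.pow (hc.C1_S i).2 2).intervalIntegrable_of_Icc zero_le_one
  have hN : c.N1 = (∫ σ in (0:ℝ)..1, c.dS 0 σ ^ 2) + (∫ σ in (0:ℝ)..1, c.S 0 σ ^ 2) +
      ((∫ σ in (0:ℝ)..1, c.dS 1 σ ^ 2) + (∫ σ in (0:ℝ)..1, c.S 1 σ ^ 2)) := by
    unfold Raw.N1
    rw [intervalIntegral.integral_add (hint' 0) (hint 0),
      intervalIntegral.integral_add (hint' 1) (hint 1)]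
  have hpos : ∀ i, 0 ≤ ∫ σ in (0:ℝ)..1, c.S i σ ^ 2 := fun i =>
    intervalIntegral.integral_nonneg zero_le_one fun σ _ => sq_nonneg _
  have hpos' : ∀ i, 0 ≤ ∫ σ in (0:ℝ)..1, c.dS i σ ^ 2 := fun i =>
    intervalIntegral.integral_nonneg zero_le_one fun σ _ => sq_nonneg _
  have hp0 := hpos 0
  have hp1 := hpos 1
  have hp0' := hpos' 0
  have hp1' := hpos' 1
  have hA0 : 0 ≤ A := by rw [hA]; exact add_nonneg hp0 hp1
  have hAN : A ≤ c.N1 := by rw [hA, hN]; linarith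
  have hN0 : 0 ≤ c.N1 := hA0.trans hAN
  set q := Real.sqrt A with hq
  set n := Real.sqrt c.N1 with hn
  have hq0 : 0 ≤ q := Real.sqrt_nonneg _
  have hn0 : 0 ≤ n := Real.sqrt_nonneg _
  have hqn : q ≤ n := Real.sqrt_le_sqrt hAN
  have hqq : q ^ 2 = A := Real.sq_sqrt hA0
  have hnn : n ^ 2 = c.N1 := Real.sq_sqrt hN0
  have hS : ∀ i : Fin 3, i ≠ 2 → c.S i 0 ^ 2 ≤ 3 * (q * n) := by
    intro i hi
    have h1 := interp (hc.C1_S i) 0 ⟨le_rfl, zero_le_one⟩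
    have h2 : (∫ s in (0:ℝ)..1, c.S i s ^ 2) ≤ A := by
      fin_cases i
      · rw [hA]; simp only [Fin.zero_eta, Fin.isValue] at *; linarith
      · rw [hA]; simp only [Fin.mk_one, Fin.isValue] at *; linarith
      · exact absurd rfl hi
    have h3 : (∫ s in (0:ℝ)..1, c.dS i s ^ 2) ≤ c.N1 := by
      fin_cases i
      · rw [hN]; simp only [Fin.zero_eta, Fin.isValue] at *; linarith
      · rw [hN]; simp only [Fin.mk_one, Fin.isValue] at *; linarith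
      · exact absurd rfl hi
    have h4 : Real.sqrt (∫ s in (0:ℝ)..1, c.S i s ^ 2) ≤ q := Real.sqrt_le_sqrt h2
    have h5 : Real.sqrt (∫ s in (0:ℝ)..1, c.dS i s ^ 2) ≤ n := Real.sqrt_le_sqrt h3
    have h6 : Real.sqrt (∫ s in (0:ℝ)..1, c.S i s ^ 2) *
        Real.sqrt (∫ s in (0:ℝ)..1, c.dS i s ^ 2) ≤ q * n :=
      mul_le_mul h4 h5 (Real.sqrt_nonneg _) hq0
    have h7 : A ≤ q * n := by rw [← hqq, sq]; exact mul_le_mul_of_nonneg_left hqn hq0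
    nlinarith
  have hJ := hc.S_J
  rw [Fin.sum_univ_three] at hJ
  have h0 := hS 0 (by decide)
  have h1 := hS 1 (by decide)
  have hsq : c.S 2 0 ^ 2 ≤ 12 * (q * n) := by
    have : c.S 2 0 = -(c.S 0 0 + c.S 1 0) := by linarith
    rw [this]
    nlinarith [sq_nonneg (c.S 0 0 - c.S 1 0)]
  have hqn2 : q * n ≤ c.N1 := by rw [← hnn, sq]; exact mul_le_mul_of_nonneg_right hqn hn0
  refine ⟨by linarith, ?_⟩
  have ht : |c.S 2 0| ≤ 4 * n := by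
    apply abs_le_of_sq_le_sq _ (by positivity)
    nlinarith
  have h8 : |c.S 2 0| ^ 3 = |c.S 2 0| * c.S 2 0 ^ 2 := by
    rw [← sq_abs (c.S 2 0)]; ring
  rw [h8]
  calc |c.S 2 0| * c.S 2 0 ^ 2 ≤ 4 * n * (12 * (q * n)) :=
        mul_le_mul ht hsq (sq_nonneg _) (by positivity)
    _ = 48 * q * c.N1 := by rw [← hnn]; ring

end ST7

open ST7

/-- ST7 : the curvature term on the ray -/
theorem ray_k (st : Star) : ∃ C > 0, ∃ ε1 > 0, ∃ R1 > 0,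
    ∀ ε ∈ Ioc 0 ε1, ∀ (R : ℝ) (cfg : Raw), R1 ≤ R → IsCfg R cfg → Near st ε cfg →
      (∀ σ ∈ Icc (0:ℝ) 1, |cfg.th 2 σ| ≤ ε) → cfg.D R ≤ 1 →
      cfg.Kg R ≤ C * ε * (cfg.Qg R + cfg.Eg R + cfg.Fr R)
        + C * (ε + Real.sqrt (cfg.D R)) * cfg.N1 := by
  obtain ⟨C0, hC0, hcut⟩ := cut_deriv_bound
  refine ⟨2 * (48 * Real.sqrt (Real.exp 4) + 48 + 3 / 2 + C0), by positivity, 0.1, by norm_num,
    4, by norm_num, ?_⟩
  rintro ε ⟨hε0, hε⟩ R c hR hc hn hth hD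
  have hR0 : 0 < R := by linarith
  have hL := hc.L_pos 2
  have hε' : ε ≤ 0.1 := hε
  -- abbreviations
  have cth := hc.th_cont 2
  have ckap := hc.kap_cont 2
  have cSs := hc.Ss_cont 2
  have cS := hc.S_cont 2
  have cw := hc.w_cont 2
  have crho := hc.rho_cont 2
  have cdc := hc.dcut_cont 2
  have cchf := hc.chf_cont 2
  have ccos : ContinuousOn (fun σ => Real.cos (c.ang 2 σ)) (Icc 0 1) :=
    Real.continuous_cos.comp_continuousOn (hc.ang_cont 2)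
  -- the error terms
  set T1 : ℝ → ℝ := fun σ => c.th 2 σ * c.S 2 σ ^ 2 * c.Ss 2 σ * c.w R 2 σ with hT1
  set T2 : ℝ → ℝ := fun σ => 2 * c.th 2 σ * c.kap 2 σ * c.S 2 σ * c.Ss 2 σ * c.w R 2 σ with hT2
  set T3 : ℝ → ℝ := fun σ => c.th 2 σ * c.kap 2 σ * c.S 2 σ ^ 2 *
    (c.rho 2 σ * (deriv cut (c.x 2 σ / R) / R * Real.cos (c.ang 2 σ))) with hT3
  have cT1 : ContinuousOn T1 (Icc 0 1) := ((cth.mul (cS.pow 2)).mul cSs).mul cw
  have cT2 : ContinuousOn T2 (Icc 0 1) :=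
    ((((continuousOn_const.mul cth).mul ckap).mul cS).mul cSs).mul cw
  have cT3 : ContinuousOn T3 (Icc 0 1) :=
    ((cth.mul ckap).mul (cS.pow 2)).mul (crho.mul ((cdc.div_const R).mul ccos))
  have cT : ContinuousOn (fun σ => T1 σ + T2 σ + T3 σ) (Icc 0 1) := (cT1.add cT2).add cT3
  have cK : ContinuousOn (fun σ => c.kap 2 σ ^ 2 * c.S 2 σ ^ 2 * c.w R 2 σ) (Icc 0 1) :=
    ((ckap.pow 2).mul (cS.pow 2)).mul cw
  have cQ : ContinuousOn (fun σ => c.S 2 σ ^ 4 * c.w R 2 σ) (Icc 0 1) := (cS.pow 4).mul cw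
  have cE : ContinuousOn (fun σ => c.Ss 2 σ ^ 2 * c.w R 2 σ) (Icc 0 1) := (cSs.pow 2).mul cw
  have cF : ContinuousOn (fun σ => (c.S 2 σ ^ 2 + c.kap 2 σ ^ 2) * c.rho 2 σ *
      chf (c.x 2 σ / R) ^ 2) (Icc 0 1) :=
    (((cS.pow 2).add (ckap.pow 2)).mul crho).mul (cchf.pow 2)
  have ii : ∀ {f : ℝ → ℝ}, ContinuousOn f (Icc 0 1) → IntervalIntegrable f volume 0 1 :=
    fun hf => hf.intervalIntegrable_of_Icc zero_le_one
  -- the identity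
  have hident : c.Kg R + c.I 2 (fun σ => T1 σ + T2 σ + T3 σ) =
      -(c.th 2 0 * c.kap 2 0 * c.S 2 0 ^ 2 * c.w R 2 0) := by
    have hder : ∀ σ ∈ Icc (0:ℝ) 1, HasDerivWithinAt
        (fun σ => c.th 2 σ * c.kap 2 σ * c.S 2 σ ^ 2 * c.w R 2 σ)
        (c.L 2 * (c.kap 2 σ ^ 2 * c.S 2 σ ^ 2 * c.w R 2 σ + (T1 σ + T2 σ + T3 σ)))
        (Icc 0 1) σ := by
      intro σ hσ
      have h := (((hc.th_s 2 σ hσ).mul (hc.kap_s 2 hσ)).mul ((hc.S_s 2 σ hσ).pow 2)).mul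
        (hc.w_s hR0 2 hσ)
      refine h.congr_deriv ?_
      simp only [hT1, hT2, hT3, Pi.mul_apply, Pi.pow_apply]
      push_cast
      ring
    have hcont : ContinuousOn (fun σ => c.L 2 * (c.kap 2 σ ^ 2 * c.S 2 σ ^ 2 * c.w R 2 σ +
        (T1 σ + T2 σ + T3 σ))) (Icc 0 1) :=
      continuousOn_const.mul (cK.add ((cT1.add cT2).add cT3))
    have h1 := intervalIntegral.integral_eq_sub_of_hasDerivAt_of_le zero_le_one
      (fun σ hσ => (hder σ hσ).continuousWithinAt)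
      (fun σ hσ => (hder σ (Ioo_subset_Icc_self hσ)).hasDerivAt (Icc_mem_nhds hσ.1 hσ.2))
      (ii hcont)
    have hw1 : c.w R 2 1 = 0 := by
      unfold Raw.w
      rw [hc.x_far, div_self hR0.ne', cut_zero (by norm_num), mul_zero]
    rw [intervalIntegral.integral_const_mul, intervalIntegral.integral_add (ii cK)
      (ii cT), hw1, mul_zero, zero_sub, mul_add] at h1
    exact h1
  -- pointwise bounds
  have hpt : ∀ σ ∈ Icc (0:ℝ) 1, -(T1 σ + T2 σ + T3 σ) ≤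
      ε * (c.kap 2 σ ^ 2 * c.S 2 σ ^ 2 * c.w R 2 σ) +
      (3 / 2 * ε * (c.S 2 σ ^ 4 * c.w R 2 σ) + 3 / 2 * ε * (c.Ss 2 σ ^ 2 * c.w R 2 σ)) +
      C0 / 2 * ε * (c.S 2 σ ^ 4 * c.w R 2 σ + (c.S 2 σ ^ 2 + c.kap 2 σ ^ 2) * c.rho 2 σ *
      chf (c.x 2 σ / R) ^ 2) := by
    intro σ hσ
    have hw := w_nonneg R c 2 σ
    have hrho : 0 < c.rho 2 σ := Real.exp_pos _
    have ht := hth σ hσ
    have h1 : |T1 σ| ≤ ε * ((c.S 2 σ ^ 4 + c.Ss 2 σ ^ 2) / 2 * c.w R 2 σ) := by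
      simp only [hT1, abs_mul, abs_of_nonneg hw]
      have e1 : |c.S 2 σ ^ 2| * |c.Ss 2 σ| ≤ (c.S 2 σ ^ 4 + c.Ss 2 σ ^ 2) / 2 := by
        have := sq_nonneg (|c.S 2 σ ^ 2| - |c.Ss 2 σ|)
        have e2 : |c.S 2 σ ^ 2| ^ 2 = c.S 2 σ ^ 4 := by rw [sq_abs]; ring
        have e3 : |c.Ss 2 σ| ^ 2 = c.Ss 2 σ ^ 2 := sq_abs _
        nlinarith
      calc |c.th 2 σ| * |c.S 2 σ ^ 2| * |c.Ss 2 σ| * c.w R 2 σ
          = |c.th 2 σ| * (|c.S 2 σ ^ 2| * |c.Ss 2 σ| * c.w R 2 σ) := by ring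
        _ ≤ _ := mul_le_mul ht (mul_le_mul_of_nonneg_right e1 hw) (by positivity) hε0.le
    have h2 : |T2 σ| ≤ ε * ((c.kap 2 σ ^ 2 * c.S 2 σ ^ 2 + c.Ss 2 σ ^ 2) * c.w R 2 σ) := by
      simp only [hT2, abs_mul, abs_of_nonneg hw, abs_two]
      have e1 : 2 * (|c.kap 2 σ| * |c.S 2 σ| * |c.Ss 2 σ|) ≤
          c.kap 2 σ ^ 2 * c.S 2 σ ^ 2 + c.Ss 2 σ ^ 2 := by
        have := sq_nonneg (|c.kap 2 σ| * |c.S 2 σ| - |c.Ss 2 σ|)
        have e2 : (|c.kap 2 σ| * |c.S 2 σ|) ^ 2 = c.kap 2 σ ^ 2 * c.S 2 σ ^ 2 := by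
          rw [mul_pow, sq_abs, sq_abs]
        have e3 : |c.Ss 2 σ| ^ 2 = c.Ss 2 σ ^ 2 := sq_abs _
        nlinarith
      calc 2 * |c.th 2 σ| * |c.kap 2 σ| * |c.S 2 σ| * |c.Ss 2 σ| * c.w R 2 σ
          = |c.th 2 σ| * (2 * (|c.kap 2 σ| * |c.S 2 σ| * |c.Ss 2 σ|) * c.w R 2 σ) := by ring
        _ ≤ _ := mul_le_mul ht (mul_le_mul_of_nonneg_right e1 hw) (by positivity) hε0.le
    have h3 : |T3 σ| ≤ ε * (C0 / 2 * (c.S 2 σ ^ 4 * c.w R 2 σ +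
        (c.S 2 σ ^ 2 + c.kap 2 σ ^ 2) * c.rho 2 σ * chf (c.x 2 σ / R) ^ 2)) := by
      by_cases hx : c.x 2 σ / R ≤ 1 / 2
      · have e1 : T3 σ = 0 := by
          simp only [hT3]
          rw [cut_deriv_zero (Or.inl hx)]
          simp
        rw [e1, abs_zero]
        positivity
      · have e1 : chf (c.x 2 σ / R) = 1 := chf_one (le_of_not_ge hx)
        rw [e1, one_pow, mul_one]
        have e2 : c.w R 2 σ = c.rho 2 σ * chi (c.x 2 σ / R) ^ 2 := rfl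
        have e3 := hcut (c.x 2 σ / R)
        have e4 := chi_nonneg (c.x 2 σ / R)
        rw [e2]
        simp only [hT3, abs_mul, abs_of_nonneg hrho.le, abs_div, abs_of_pos hR0]
        have e5 : |Real.cos (c.ang 2 σ)| ≤ 1 := Real.abs_cos_le_one _
        have e6 : |deriv cut (c.x 2 σ / R)| / R * |Real.cos (c.ang 2 σ)| ≤
            C0 * chi (c.x 2 σ / R) := by
          calc |deriv cut (c.x 2 σ / R)| / R * |Real.cos (c.ang 2 σ)|
              ≤ |deriv cut (c.x 2 σ / R)| / R * 1 :=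
                mul_le_mul_of_nonneg_left e5 (by positivity)
            _ ≤ |deriv cut (c.x 2 σ / R)| := by
                rw [mul_one]
                exact div_le_self (abs_nonneg _) (by linarith)
            _ ≤ _ := e3
        set X := chi (c.x 2 σ / R)
        have e7 : |c.kap 2 σ| * |c.S 2 σ ^ 2| * X ≤
            (c.S 2 σ ^ 4 * X ^ 2 + (c.S 2 σ ^ 2 + c.kap 2 σ ^ 2)) / 2 := by
          have := sq_nonneg (|c.kap 2 σ| - |c.S 2 σ ^ 2| * X)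
          have e8 : (|c.S 2 σ ^ 2| * X) ^ 2 = c.S 2 σ ^ 4 * X ^ 2 := by
            rw [mul_pow, sq_abs]; ring
          have e9 : |c.kap 2 σ| ^ 2 = c.kap 2 σ ^ 2 := sq_abs _
          nlinarith [sq_nonneg (c.S 2 σ)]
        calc |c.th 2 σ| * |c.kap 2 σ| * |c.S 2 σ ^ 2| *
              (c.rho 2 σ * (|deriv cut (c.x 2 σ / R)| / R * |Real.cos (c.ang 2 σ)|))
            ≤ |c.th 2 σ| * |c.kap 2 σ| * |c.S 2 σ ^ 2| * (c.rho 2 σ * (C0 * X)) := by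
              gcongr
          _ = |c.th 2 σ| * (C0 * (|c.kap 2 σ| * |c.S 2 σ ^ 2| * X) * c.rho 2 σ) := by ring
          _ ≤ ε * (C0 * ((c.S 2 σ ^ 4 * X ^ 2 + (c.S 2 σ ^ 2 + c.kap 2 σ ^ 2)) / 2) *
              c.rho 2 σ) := by
              apply mul_le_mul ht _ (by positivity) hε0.le
              gcongr
          _ = _ := by ring
    have h1' := (abs_le.1 h1).1
    have h2' := (abs_le.1 h2).1
    have h3' := (abs_le.1 h3).1
    have hQ : 0 ≤ c.S 2 σ ^ 4 * c.w R 2 σ := by positivity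
    have hQ' : 0 ≤ ε * (c.S 2 σ ^ 4 * c.w R 2 σ) := mul_nonneg hε0.le hQ
    nlinarith
  have hint : -c.I 2 (fun σ => T1 σ + T2 σ + T3 σ) ≤
      ε * c.Kg R + (3 / 2 * ε * c.Qg R + 3 / 2 * ε * c.Eg R) +
        C0 / 2 * ε * (c.Qg R + c.Fr R) := by
    have cR1 : ContinuousOn (fun σ => ε * (c.kap 2 σ ^ 2 * c.S 2 σ ^ 2 * c.w R 2 σ))
      (Icc 0 1) := continuousOn_const.mul cK
    have cR2 : ContinuousOn (fun σ => 3 / 2 * ε * (c.S 2 σ ^ 4 * c.w R 2 σ)) (Icc 0 1) :=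
      continuousOn_const.mul cQ
    have cR3 : ContinuousOn (fun σ => 3 / 2 * ε * (c.Ss 2 σ ^ 2 * c.w R 2 σ)) (Icc 0 1) :=
      continuousOn_const.mul cE
    have cR23 : ContinuousOn (fun σ => 3 / 2 * ε * (c.S 2 σ ^ 4 * c.w R 2 σ) +
      3 / 2 * ε * (c.Ss 2 σ ^ 2 * c.w R 2 σ)) (Icc 0 1) := cR2.add cR3
    have cR123 : ContinuousOn (fun σ => ε * (c.kap 2 σ ^ 2 * c.S 2 σ ^ 2 * c.w R 2 σ) +
      (3 / 2 * ε * (c.S 2 σ ^ 4 * c.w R 2 σ) +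
      3 / 2 * ε * (c.Ss 2 σ ^ 2 * c.w R 2 σ))) (Icc 0 1) := cR1.add cR23
    have cR4 : ContinuousOn (fun σ => C0 / 2 * ε * (c.S 2 σ ^ 4 * c.w R 2 σ +
      (c.S 2 σ ^ 2 + c.kap 2 σ ^ 2) * c.rho 2 σ * chf (c.x 2 σ / R) ^ 2)) (Icc 0 1) :=
      continuousOn_const.mul (cQ.add cF)
    have h1 : (∫ σ in (0:ℝ)..1, -(T1 σ + T2 σ + T3 σ)) ≤ ∫ σ in (0:ℝ)..1,
        (ε * (c.kap 2 σ ^ 2 * c.S 2 σ ^ 2 * c.w R 2 σ) +
        (3 / 2 * ε * (c.S 2 σ ^ 4 * c.w R 2 σ) + 3 / 2 * ε * (c.Ss 2 σ ^ 2 * c.w R 2 σ)) +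
        C0 / 2 * ε * (c.S 2 σ ^ 4 * c.w R 2 σ + (c.S 2 σ ^ 2 + c.kap 2 σ ^ 2) * c.rho 2 σ *
        chf (c.x 2 σ / R) ^ 2)) :=
      intervalIntegral.integral_mono_on zero_le_one (ii cT).neg (ii (cR123.add cR4)) hpt
    rw [intervalIntegral.integral_add (ii cR123) (ii cR4),
      intervalIntegral.integral_add (ii cR1) (ii cR23),
      intervalIntegral.integral_add (ii cR2) (ii cR3), intervalIntegral.integral_const_mul,
      intervalIntegral.integral_const_mul, intervalIntegral.integral_const_mul,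
      intervalIntegral.integral_const_mul, intervalIntegral.integral_add (ii cQ) (ii cF),
      intervalIntegral.integral_neg] at h1
    have h2 := mul_le_mul_of_nonneg_left h1 hL.le
    unfold Raw.Kg Raw.Qg Raw.Eg Raw.Fr Raw.I
    linarith
  -- the junction
  set A := (∫ σ in (0:ℝ)..1, c.S 0 σ ^ 2) + (∫ σ in (0:ℝ)..1, c.S 1 σ ^ 2) with hA
  obtain ⟨hJ2, hJ3⟩ := SJ_bd hc hA
  have hAD := A_le hε' hR hc hn
  rw [← hA] at hAD
  have hsA : Real.sqrt A ≤ Real.sqrt (Real.exp 4) * Real.sqrt (c.D R) := by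
    rw [← Real.sqrt_mul (Real.exp_pos 4).le]
    exact Real.sqrt_le_sqrt hAD
  have hN0 : 0 ≤ c.N1 := by nlinarith [sq_nonneg (c.S 2 0)]
  have hkap : |c.kap 2 0| ≤ |c.S 2 0| + 4 := by
    obtain ⟨hx, hy, -⟩ := arc_bd hε' hn (i := 0) (by decide) (σ := 0) ⟨le_rfl, zero_le_one⟩
    have e1 : c.kap 2 0 = c.S 2 0 - c.h 2 0 := by unfold Raw.S; ring
    have e2 : |c.h 2 0| ≤ 4 := by
      unfold Raw.h
      rw [hc.x_J 0] at hx
      rw [hc.y_J 0] at hy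
      calc |-(c.x 2 0 * Real.sin (c.ang 2 0)) + c.y 2 0 * Real.cos (c.ang 2 0)|
          ≤ |-(c.x 2 0 * Real.sin (c.ang 2 0))| + |c.y 2 0 * Real.cos (c.ang 2 0)| :=
            abs_add_le _ _
        _ = |c.x 2 0| * |Real.sin (c.ang 2 0)| + |c.y 2 0| * |Real.cos (c.ang 2 0)| := by
            rw [abs_neg, abs_mul, abs_mul]
        _ ≤ 1.6 * 1 + 2.3 * 1 := add_le_add
            (mul_le_mul hx (Real.abs_sin_le_one _) (abs_nonneg _) (by norm_num))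
            (mul_le_mul hy (Real.abs_cos_le_one _) (abs_nonneg _) (by norm_num))
        _ ≤ 4 := by norm_num
    rw [e1]
    calc |c.S 2 0 - c.h 2 0| ≤ |c.S 2 0| + |c.h 2 0| := abs_sub _ _
      _ ≤ _ := by linarith
  have hJ : -(c.th 2 0 * c.kap 2 0 * c.S 2 0 ^ 2 * c.w R 2 0) ≤
      ε * (48 * Real.sqrt A * c.N1 + 48 * c.N1) := by
    have e1 : |c.th 2 0 * c.kap 2 0 * c.S 2 0 ^ 2 * c.w R 2 0| ≤
        ε * (|c.S 2 0| ^ 3 + 4 * c.S 2 0 ^ 2) := by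
      rw [abs_mul, abs_mul, abs_mul, abs_of_nonneg (w_nonneg R c 2 0),
        abs_of_nonneg (sq_nonneg (c.S 2 0))]
      calc |c.th 2 0| * |c.kap 2 0| * c.S 2 0 ^ 2 * c.w R 2 0
          ≤ ε * (|c.S 2 0| + 4) * c.S 2 0 ^ 2 * 1 := by
            have := hth 0 ⟨le_rfl, zero_le_one⟩
            have h2 := w_le_one R c 2 0
            have h3 := w_nonneg R c 2 0
            gcongr
        _ = ε * (|c.S 2 0| * c.S 2 0 ^ 2 + 4 * c.S 2 0 ^ 2) := by ring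
        _ = _ := by
            have : |c.S 2 0| * c.S 2 0 ^ 2 = |c.S 2 0| ^ 3 := by
              rw [← sq_abs (c.S 2 0)]; ring
            rw [this]
    have e2 := (abs_le.1 e1).1
    have e3 : ε * (|c.S 2 0| ^ 3 + 4 * c.S 2 0 ^ 2) ≤
        ε * (48 * Real.sqrt A * c.N1 + 48 * c.N1) :=
      mul_le_mul_of_nonneg_left (by linarith) hε0.le
    linarith
  -- conclusion
  have hQ0 : 0 ≤ c.Qg R := I_nonneg hc 2 fun σ _ => mul_nonneg (by positivity) (w_nonneg R c 2 σ)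
  have hE0 : 0 ≤ c.Eg R := I_nonneg hc 2 fun σ _ => mul_nonneg (sq_nonneg _) (w_nonneg R c 2 σ)
  have hF0 : 0 ≤ c.Fr R := I_nonneg hc 2 fun σ _ =>
    mul_nonneg (mul_nonneg (by positivity) (Real.exp_pos _).le) (sq_nonneg _)
  have hK0 : 0 ≤ c.Kg R := I_nonneg hc 2 fun σ _ =>
    mul_nonneg (by positivity) (w_nonneg R c 2 σ)
  set s4 := Real.sqrt (Real.exp 4) with hs4
  have hs40 : 0 ≤ s4 := Real.sqrt_nonneg _
  have hsD0 : 0 ≤ Real.sqrt (c.D R) := Real.sqrt_nonneg _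
  set sD := Real.sqrt (c.D R) with hsD
  have hmain : c.Kg R ≤ ε * c.Kg R + ε * (48 * Real.sqrt A * c.N1 + 48 * c.N1) +
      (3 / 2 * ε * c.Qg R + 3 / 2 * ε * c.Eg R) + C0 / 2 * ε * (c.Qg R + c.Fr R) := by
    linarith
  have h5 : ε * (48 * Real.sqrt A * c.N1) ≤ 48 * (s4 * sD) * c.N1 := by
    have : ε * (48 * Real.sqrt A * c.N1) ≤ 1 * (48 * (s4 * sD) * c.N1) := by
      apply mul_le_mul _ _ (by positivity) zero_le_one
      · norm_num at hε'; linarith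
      · gcongr
    linarith
  have h6 : ε * c.Kg R ≤ 1 / 2 * c.Kg R := by
    apply mul_le_mul_of_nonneg_right _ hK0
    norm_num at hε'; linarith
  have h7 : c.Kg R ≤ 2 * (48 * (s4 * sD) * c.N1 + ε * (48 * c.N1) +
      (3 / 2 * ε * c.Qg R + 3 / 2 * ε * c.Eg R) + C0 / 2 * ε * (c.Qg R + c.Fr R)) := by
    linarith
  refine h7.trans ?_
  have a1 : 0 ≤ ε * c.N1 := mul_nonneg hε0.le hN0
  have a2 : 0 ≤ sD * c.N1 := mul_nonneg hsD0 hN0
  have a3 : 0 ≤ ε * c.Qg R := mul_nonneg hε0.le hQ0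
  have a4 : 0 ≤ ε * c.Eg R := mul_nonneg hε0.le hE0
  have a5 : 0 ≤ ε * c.Fr R := mul_nonneg hε0.le hF0
  have b1 : 0 ≤ s4 * (ε * c.N1) := mul_nonneg hs40 a1
  have b3 : 0 ≤ s4 * (ε * c.Qg R) := mul_nonneg hs40 a3
  have b4 : 0 ≤ s4 * (ε * c.Eg R) := mul_nonneg hs40 a4
  have b5 : 0 ≤ s4 * (ε * c.Fr R) := mul_nonneg hs40 a5
  have c1 : 0 ≤ C0 * (ε * c.N1) := mul_nonneg hC0.le a1
  have c2 : 0 ≤ C0 * (sD * c.N1) := mul_nonneg hC0.le a2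
  have c3 : 0 ≤ C0 * (ε * c.Qg R) := mul_nonneg hC0.le a3
  have c4 : 0 ≤ C0 * (ε * c.Eg R) := mul_nonneg hC0.le a4
  have c5 : 0 ≤ C0 * (ε * c.Fr R) := mul_nonneg hC0.le a5
  nlinarith

end Pool.Agent.Helper15.NF
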