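import Pool.Agent.Helper15.NF.U1

open Set MeasureTheory intervalIntegral Filter Topology

namespace Pool.Agent.Helper15.NF

theorem ST8_star_x (st : Star) {s : ℝ} (hs : s ∈ Icc (0:ℝ) 1.5) : |st.x s| ≤ s := by
  have h := (convex_Icc (0:ℝ) 1.5).norm_image_sub_le_of_norm_hasDerivWithin_le (C := 1)
    (fun t ht => st.arc.x_s t ht) (fun t _ => by
      rw [Real.norm_eq_abs]; exact Real.abs_cos_le_one _)
    (show (0:ℝ) ∈ Icc (0:ℝ) 1.5 by constructor <;> norm_num) hs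
  rw [st.arc.x_0, sub_zero, sub_zero, Real.norm_eq_abs, Real.norm_eq_abs, one_mul,
    abs_of_nonneg hs.1] at h
  exact h

theorem ST8_sg (st : Star) {σ : ℝ} (hσ : σ ∈ Icc (0:ℝ) 1) : st.sg σ ∈ Icc (0:ℝ) 1.41 := by
  have h1 := st.ls_lo
  have h2 := st.ls_hi
  obtain ⟨h3, h4⟩ := hσ
  unfold Star.sg
  constructor
  · apply mul_nonneg <;> linarith
  · nlinarith

/-- ST8 : cut-off terms -/
theorem far_bound (st : Star) : ∃ ε1 > 0, ∃ R1 > 0, ∀ δ > 0, ∃ C > 0,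
    ∀ (R : ℝ) (cfg : Raw), R1 ≤ R → IsCfg R cfg → Near st ε1 cfg →
      (∀ σ ∈ Icc (0:ℝ) 1, |cfg.th 2 σ| ≤ ε1) →
      |cfg.far R| ≤ δ * (cfg.Eg R + cfg.Qg R) + C * cfg.Fr R := by
  obtain ⟨C1, hC1, hcut⟩ := cut_deriv_bound
  refine ⟨0.1, by norm_num, 4, by norm_num, fun δ hδ => ⟨C1 ^ 2 / δ + 3 * C1, by positivity, ?_⟩⟩
  intro R c hR hc hN hth
  have hR0 : 0 < R := by linarith
  have hsx : ∀ σ ∈ Icc (0:ℝ) 1, |st.x (st.sg σ)| ≤ 1.41 := by
    intro σ hσ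
    have h1 := ST8_sg st hσ
    have h2 := ST8_star_x st (s := st.sg σ) ⟨h1.1, by linarith [h1.2]⟩
    linarith [h1.2]
  have harc0 : ∀ σ ∈ Icc (0:ℝ) 1, deriv cut (c.x 0 σ / R) = 0 := by
    intro σ hσ
    apply cut_deriv_zero
    left
    rw [div_le_iff₀ hR0]
    have h1 := hsx σ hσ
    have h2 := hN.x0 σ hσ
    rw [abs_le] at h1 h2
    linarith [h1.2, h2.2]
  have harc1 : ∀ σ ∈ Icc (0:ℝ) 1, deriv cut (c.x 1 σ / R) = 0 := by
    intro σ hσ
    apply cut_deriv_zero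
    left
    rw [div_le_iff₀ hR0]
    have h1 := hsx σ hσ
    have h2 := hN.x1 σ hσ
    rw [abs_le] at h1 h2
    linarith [h1.2, h2.2]
  set f : ℝ → ℝ := fun σ =>
    (-(2 * c.S 2 σ * c.Ss 2 σ * Real.cos (c.ang 2 σ))
      - c.S 2 σ ^ 2 * c.p 2 σ * Real.cos (c.ang 2 σ)
      - c.S 2 σ ^ 2 * c.kap 2 σ * Real.sin (c.ang 2 σ)) * c.rho 2 σ *
        (deriv cut (c.x 2 σ / R) / R) with hf
  have hfar : c.far R = c.I 2 f := by
    have e0 : c.I 0 (fun σ =>
        (-(2 * c.S 0 σ * c.Ss 0 σ * Real.cos (c.ang 0 σ))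
          - c.S 0 σ ^ 2 * c.p 0 σ * Real.cos (c.ang 0 σ)
          - c.S 0 σ ^ 2 * c.kap 0 σ * Real.sin (c.ang 0 σ)) * c.rho 0 σ *
            (deriv cut (c.x 0 σ / R) / R)) = 0 := by
      unfold Raw.I
      rw [intervalIntegral.integral_congr (g := fun _ => (0:ℝ))]
      · simp
      · intro σ hσ
        rw [uIcc_of_le zero_le_one] at hσ
        simp only [harc0 σ hσ, zero_div, mul_zero]
    have e1 : c.I 1 (fun σ =>
        (-(2 * c.S 1 σ * c.Ss 1 σ * Real.cos (c.ang 1 σ))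
          - c.S 1 σ ^ 2 * c.p 1 σ * Real.cos (c.ang 1 σ)
          - c.S 1 σ ^ 2 * c.kap 1 σ * Real.sin (c.ang 1 σ)) * c.rho 1 σ *
            (deriv cut (c.x 1 σ / R) / R)) = 0 := by
      unfold Raw.I
      rw [intervalIntegral.integral_congr (g := fun _ => (0:ℝ))]
      · simp
      · intro σ hσ
        rw [uIcc_of_le zero_le_one] at hσ
        simp only [harc1 σ hσ, zero_div, mul_zero]
    unfold Raw.far
    rw [Fin.sum_univ_three, e0, e1, zero_add, zero_add]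
  -- position of the ray
  have hzero : (0:ℝ) ∈ Icc (0:ℝ) 1 := ⟨le_rfl, zero_le_one⟩
  have hx0 : 1 ≤ c.x 2 0 := by
    have h1 := hN.x0 0 hzero
    rw [hc.x_J 0] at h1
    have h2 : st.sg 0 = st.ls := by unfold Star.sg; ring
    rw [h2, abs_le] at h1
    linarith [h1.1, st.xi_lo]
  have hy0 : |c.y 2 0| ≤ 0.1 := by
    have h1 := hN.y0 0 hzero
    rw [hc.y_J 0] at h1
    have h2 : st.sg 0 = st.ls := by unfold Star.sg; ring
    rw [h2, st.y_ls, sub_zero] at h1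
    exact h1
  have hpos : ∀ σ ∈ Icc (0:ℝ) 1, 1 ≤ c.x 2 σ ∧ |c.y 2 σ| ≤ 0.1 + c.x 2 σ := by
    intro σ hσ
    obtain ⟨h1, h2, h3⟩ := hc.ray_x (ε := 0.1) le_rfl hth (σ := 0) (τ := σ) le_rfl hσ.1 hσ.2
    have hL := hc.L_pos 2
    have h4 : 0 ≤ c.L 2 * (σ - 0) := mul_nonneg hL.le (by linarith [hσ.1])
    refine ⟨by linarith, ?_⟩
    have h5 : |c.y 2 σ| ≤ |c.y 2 0| + |c.y 2 σ - c.y 2 0| := by
      have := abs_add_le (c.y 2 0) (c.y 2 σ - c.y 2 0)
      rwa [add_sub_cancel] at this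
    nlinarith
  -- pointwise bound
  have hpt : ∀ σ ∈ Icc (0:ℝ) 1, |f σ| ≤ δ * (c.Ss 2 σ ^ 2 * c.w R 2 σ + c.S 2 σ ^ 4 * c.w R 2 σ) +
      (C1 ^ 2 / δ + 3 * C1) *
        ((c.S 2 σ ^ 2 + c.kap 2 σ ^ 2) * c.rho 2 σ * chf (c.x 2 σ / R) ^ 2) := by
    intro σ hσ
    have hrho : 0 < c.rho 2 σ := Real.exp_pos _
    have hw : 0 ≤ c.w R 2 σ := mul_nonneg hrho.le (cut_nonneg _)
    by_cases hz : c.x 2 σ / R ≤ 1 / 2 ∨ 3 / 4 ≤ c.x 2 σ / R
    · have h0 : f σ = 0 := by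
        simp only [hf, cut_deriv_zero hz, zero_div, mul_zero]
      rw [h0, abs_zero]
      positivity
    · push Not at hz
      obtain ⟨hz1, hz2⟩ := hz
      rw [lt_div_iff₀ hR0] at hz1
      rw [div_lt_iff₀ hR0] at hz2
      obtain ⟨hp1, hp2⟩ := hpos σ hσ
      have hch : chf (c.x 2 σ / R) = 1 := chf_one (by rw [le_div_iff₀ hR0]; linarith)
      have hpb : |c.p 2 σ| ≤ 3 * R := by
        unfold Raw.p
        have h1 : |c.x 2 σ * Real.cos (c.ang 2 σ)| ≤ |c.x 2 σ| := by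
          rw [abs_mul]
          exact mul_le_of_le_one_right (abs_nonneg _) (Real.abs_cos_le_one _)
        have h2 : |c.y 2 σ * Real.sin (c.ang 2 σ)| ≤ |c.y 2 σ| := by
          rw [abs_mul]
          exact mul_le_of_le_one_right (abs_nonneg _) (Real.abs_sin_le_one _)
        have h3 := abs_add_le (c.x 2 σ * Real.cos (c.ang 2 σ)) (c.y 2 σ * Real.sin (c.ang 2 σ))
        have h4 : |c.x 2 σ| = c.x 2 σ := abs_of_nonneg (by linarith)
        rw [h4] at h1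
        linarith
      set q : ℝ := chi (c.x 2 σ / R) with hq
      have hq0 : 0 ≤ q := chi_nonneg _
      have hq1 : q ≤ 1 := chi_le_one _
      have hcd : |deriv cut (c.x 2 σ / R)| ≤ C1 * q := hcut _
      have hwq : c.w R 2 σ = c.rho 2 σ * q ^ 2 := rfl
      set S := c.S 2 σ with hS
      set Ss := c.Ss 2 σ with hSs
      set kp := c.kap 2 σ with hkp
      set rh := c.rho 2 σ with hrh
      have t1 : |-(2 * S * Ss * Real.cos (c.ang 2 σ)) - S ^ 2 * c.p 2 σ * Real.cos (c.ang 2 σ)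
          - S ^ 2 * kp * Real.sin (c.ang 2 σ)| ≤ 2 * |S| * |Ss| + S ^ 2 * (3 * R) + S ^ 2 * |kp| := by
        have a1 : |2 * S * Ss * Real.cos (c.ang 2 σ)| ≤ 2 * |S| * |Ss| := by
          rw [abs_mul, abs_mul, abs_mul, abs_two]
          exact mul_le_of_le_one_right (by positivity) (Real.abs_cos_le_one _)
        have a2 : |S ^ 2 * c.p 2 σ * Real.cos (c.ang 2 σ)| ≤ S ^ 2 * (3 * R) := by
          rw [abs_mul, abs_mul, abs_of_nonneg (sq_nonneg S)]
          refine (mul_le_of_le_one_right (by positivity) (Real.abs_cos_le_one _)).trans ?_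
          exact mul_le_mul_of_nonneg_left hpb (sq_nonneg S)
        have a3 : |S ^ 2 * kp * Real.sin (c.ang 2 σ)| ≤ S ^ 2 * |kp| := by
          rw [abs_mul, abs_mul, abs_of_nonneg (sq_nonneg S)]
          exact mul_le_of_le_one_right (by positivity) (Real.abs_sin_le_one _)
        rw [abs_le] at a1 a2 a3 ⊢
        constructor <;> linarith [a1.1, a1.2, a2.1, a2.2, a3.1, a3.2]
      have t2 : |f σ| ≤ (2 * |S| * |Ss| + S ^ 2 * (3 * R) + S ^ 2 * |kp|) * rh * (C1 * q / R) := by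
        simp only [hf]
        rw [abs_mul, abs_mul, abs_of_pos hrho, abs_div, abs_of_pos hR0]
        apply mul_le_mul
        · exact mul_le_mul_of_nonneg_right t1 hrho.le
        · exact div_le_div_of_nonneg_right hcd hR0.le
        · positivity
        · positivity
      refine t2.trans ?_
      rw [hch, hwq]
      have hRi : 1 / R ≤ 1 := by rw [div_le_one hR0]; linarith
      have e1 : (2 * |S| * |Ss| + S ^ 2 * (3 * R) + S ^ 2 * |kp|) * rh * (C1 * q / R) =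
          rh * (C1 * (2 * |S| * |Ss| + S ^ 2 * |kp|) * q * (1 / R) + 3 * C1 * S ^ 2 * q) := by
        field_simp
        ring
      rw [e1]
      have e2 : δ * (Ss ^ 2 * (rh * q ^ 2) + S ^ 4 * (rh * q ^ 2)) +
          (C1 ^ 2 / δ + 3 * C1) * ((S ^ 2 + kp ^ 2) * rh * 1 ^ 2) =
          rh * (δ * (Ss ^ 2 * q ^ 2 + S ^ 4 * q ^ 2) + (C1 ^ 2 / δ + 3 * C1) * (S ^ 2 + kp ^ 2)) := by
        ring
      rw [e2]
      apply mul_le_mul_of_nonneg_left _ hrho.le
      have g1 : C1 * (2 * |S| * |Ss| + S ^ 2 * |kp|) * q * (1 / R) ≤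
          C1 * (2 * |S| * |Ss| + S ^ 2 * |kp|) * q := mul_le_of_le_one_right (by positivity) hRi
      have g2 : 3 * C1 * S ^ 2 * q ≤ 3 * C1 * (S ^ 2 + kp ^ 2) := by
        calc 3 * C1 * S ^ 2 * q ≤ 3 * C1 * S ^ 2 := mul_le_of_le_one_right (by positivity) hq1
          _ ≤ 3 * C1 * (S ^ 2 + kp ^ 2) := by
            apply mul_le_mul_of_nonneg_left _ (by positivity)
            nlinarith [sq_nonneg kp]
      have g3 : C1 * (2 * |S| * |Ss|) * q ≤ δ * (Ss ^ 2 * q ^ 2) + C1 ^ 2 / δ * S ^ 2 := by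
        have h1 := sq_nonneg (δ * (|Ss| * q) - C1 * |S|)
        have h2 : δ * (Ss ^ 2 * q ^ 2) + C1 ^ 2 / δ * S ^ 2 - C1 * (2 * |S| * |Ss|) * q =
            (δ * (|Ss| * q) - C1 * |S|) ^ 2 / δ := by
          field_simp
          rw [← sq_abs Ss, ← sq_abs S]
          ring
        have h3 : 0 ≤ (δ * (|Ss| * q) - C1 * |S|) ^ 2 / δ := div_nonneg h1 hδ.le
        linarith
      have g4 : C1 * (S ^ 2 * |kp|) * q ≤ δ * (S ^ 4 * q ^ 2) + C1 ^ 2 / δ * kp ^ 2 := by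
        have h1 := sq_nonneg (δ * (S ^ 2 * q) - C1 * |kp|)
        have h2 : δ * (S ^ 4 * q ^ 2) + C1 ^ 2 / δ * kp ^ 2 - 2 * (C1 * (S ^ 2 * |kp|) * q) =
            (δ * (S ^ 2 * q) - C1 * |kp|) ^ 2 / δ := by
          field_simp
          rw [← sq_abs kp]
          ring
        have h3 : 0 ≤ (δ * (S ^ 2 * q) - C1 * |kp|) ^ 2 / δ := div_nonneg h1 hδ.le
        have h4 : 0 ≤ C1 * (S ^ 2 * |kp|) * q := by positivity
        linarith
      have g5 : C1 * (2 * |S| * |Ss| + S ^ 2 * |kp|) * q =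
          C1 * (2 * |S| * |Ss|) * q + C1 * (S ^ 2 * |kp|) * q := by ring
      have g6 : (C1 ^ 2 / δ + 3 * C1) * (S ^ 2 + kp ^ 2) =
          C1 ^ 2 / δ * S ^ 2 + C1 ^ 2 / δ * kp ^ 2 + 3 * C1 * (S ^ 2 + kp ^ 2) := by ring
      rw [g6]
      linarith
  -- integrate
  have cS := hc.S_cont 2
  have cSs := hc.Ss_cont 2
  have cw := hc.w_cont 2
  have cr := hc.rho_cont 2
  have ck := hc.kap_cont 2
  have cch := hc.chf_cont 2
  have cp := hc.p_cont 2
  have ca := hc.ang_cont 2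
  have cdc := hc.dcut_cont 2
  have ccos : ContinuousOn (fun σ => Real.cos (c.ang 2 σ)) (Icc 0 1) := Real.continuous_cos.comp_continuousOn ca
  have csin : ContinuousOn (fun σ => Real.sin (c.ang 2 σ)) (Icc 0 1) := Real.continuous_sin.comp_continuousOn ca
  have cf : ContinuousOn f (Icc 0 1) := by
    apply ContinuousOn.mul
    · apply ContinuousOn.mul _ cr
      apply ContinuousOn.sub
      · apply ContinuousOn.sub
        · exact (((continuousOn_const.mul cS).mul cSs).mul ccos).neg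
        · exact ((cS.pow 2).mul cp).mul ccos
      · exact ((cS.pow 2).mul ck).mul csin
    · exact cdc.div_const R
  have iE : IntervalIntegrable (fun σ => c.Ss 2 σ ^ 2 * c.w R 2 σ) volume 0 1 :=
    ContinuousOn.intervalIntegrable_of_Icc zero_le_one ((cSs.pow 2).mul cw)
  have iQ : IntervalIntegrable (fun σ => c.S 2 σ ^ 4 * c.w R 2 σ) volume 0 1 :=
    ContinuousOn.intervalIntegrable_of_Icc zero_le_one ((cS.pow 4).mul cw)
  have iF : IntervalIntegrable (fun σ => (c.S 2 σ ^ 2 + c.kap 2 σ ^ 2) * c.rho 2 σ *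
      chf (c.x 2 σ / R) ^ 2) volume 0 1 :=
    ContinuousOn.intervalIntegrable_of_Icc zero_le_one
      ((((cS.pow 2).add (ck.pow 2)).mul cr).mul (cch.pow 2))
  have if' : IntervalIntegrable f volume 0 1 := ContinuousOn.intervalIntegrable_of_Icc zero_le_one cf
  have hint : |∫ σ in (0:ℝ)..1, f σ| ≤
      δ * ((∫ σ in (0:ℝ)..1, c.Ss 2 σ ^ 2 * c.w R 2 σ) + ∫ σ in (0:ℝ)..1, c.S 2 σ ^ 4 * c.w R 2 σ) +
      (C1 ^ 2 / δ + 3 * C1) * ∫ σ in (0:ℝ)..1, (c.S 2 σ ^ 2 + c.kap 2 σ ^ 2) * c.rho 2 σ *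
        chf (c.x 2 σ / R) ^ 2 := by
    calc |∫ σ in (0:ℝ)..1, f σ| ≤ ∫ σ in (0:ℝ)..1, |f σ| :=
          intervalIntegral.abs_integral_le_integral_abs zero_le_one
      _ ≤ ∫ σ in (0:ℝ)..1, (δ * (c.Ss 2 σ ^ 2 * c.w R 2 σ + c.S 2 σ ^ 4 * c.w R 2 σ) +
          (C1 ^ 2 / δ + 3 * C1) *
            ((c.S 2 σ ^ 2 + c.kap 2 σ ^ 2) * c.rho 2 σ * chf (c.x 2 σ / R) ^ 2)) := by
          apply intervalIntegral.integral_mono_on zero_le_one if'.abs
          · exact ((iE.add iQ).const_mul δ).add (iF.const_mul _)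
          · exact hpt
      _ = _ := by
          rw [intervalIntegral.integral_add ((iE.add iQ).const_mul δ) (iF.const_mul _),
            intervalIntegral.integral_const_mul, intervalIntegral.integral_const_mul,
            intervalIntegral.integral_add iE iQ]
  rw [hfar]
  have hL := hc.L_pos 2
  unfold Raw.Eg Raw.Qg Raw.Fr Raw.I
  rw [abs_mul, abs_of_pos hL]
  calc c.L 2 * |∫ σ in (0:ℝ)..1, f σ| ≤ c.L 2 * _ := mul_le_mul_of_nonneg_left hint hL.le
    _ = _ := by ring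

end Pool.Agent.Helper15.NF
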