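import Pool.Agent.Helper15.NF.ST5
import Pool.Agent.Helper15.NF.U1

open Set MeasureTheory intervalIntegral Filter Topology

namespace Pool.Agent.Helper15.NF

/-- bound of the height of the exact arc -/
private theorem ST9a_y_bound (st : Star) : ∀ s ∈ Icc (0:ℝ) st.ls, |st.y s| ≤ 2.1 := by
  intro s hs
  have hls := st.ls_hi
  have h1 : ∀ u ∈ Icc (0:ℝ) 1.5, HasDerivWithinAt st.y (-Real.sin (st.a u)) (Icc 0 1.5) u :=
    st.arc.y_s
  have h2 : ∀ u ∈ Icc (0:ℝ) 1.5, ‖-Real.sin (st.a u)‖ ≤ 1 := by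
    intro u _
    rw [norm_neg, Real.norm_eq_abs]
    exact Real.abs_sin_le_one _
  have h3 := (convex_Icc (0:ℝ) 1.5).norm_image_sub_le_of_norm_hasDerivWithin_le h1 h2
    (show (0:ℝ) ∈ Icc (0:ℝ) 1.5 from ⟨le_rfl, by norm_num⟩)
    (show s ∈ Icc (0:ℝ) 1.5 from ⟨hs.1, by linarith [hs.2]⟩)
  rw [Real.norm_eq_abs, Real.norm_eq_abs, one_mul, sub_zero, abs_of_nonneg hs.1] at h3
  have h4 := st.ys_lo
  have h5 := st.ys_hi
  have h6 := abs_le.1 h3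
  rw [abs_le]
  constructor
  · linarith [hs.2]
  · linarith [hs.2]

private theorem ST9a_cint {f : ℝ → ℝ} (hf : ContinuousOn f (Icc 0 1)) :
    IntervalIntegrable f volume 0 1 := by
  apply ContinuousOn.intervalIntegrable
  rwa [uIcc_of_le zero_le_one]

/-- an arc -/
private theorem ST9a_arc {R : ℝ} {c : Raw} (hc : IsCfg R c) (i : Fin 3) {L Y : ℝ}
    (hL : c.L i ≤ L) (hY : ∀ σ ∈ Icc (0:ℝ) 1, |c.y i σ| ≤ Y) :
    |c.I i (fun σ => c.S i σ ^ 2 * c.y i σ * c.w R i σ)| ≤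
      L * Y * ∫ σ in (0:ℝ)..1, (c.dS i σ ^ 2 + c.S i σ ^ 2) := by
  have hLp := hc.L_pos i
  have hY0 : 0 ≤ Y := (abs_nonneg _).trans (hY 0 ⟨le_rfl, zero_le_one⟩)
  have hS := hc.S_cont i
  have hdS : ContinuousOn (c.dS i) (Icc 0 1) := (hc.C1_S i).2
  have hw0 : ∀ σ, 0 ≤ c.w R i σ := fun σ => mul_nonneg (Real.exp_pos _).le (cut_nonneg _)
  have hw1 : ∀ σ, c.w R i σ ≤ 1 := by
    intro σ
    unfold Raw.w
    refine mul_le_one₀ ?_ (cut_nonneg _) (cut_le_one _)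
    unfold Raw.rho
    rw [Real.exp_le_one_iff]
    have := sq_nonneg (c.x i σ)
    have := sq_nonneg (c.y i σ)
    linarith
  unfold Raw.I
  rw [abs_mul, abs_of_pos hLp]
  have h1 : |∫ σ in (0:ℝ)..1, c.S i σ ^ 2 * c.y i σ * c.w R i σ| ≤
      ∫ σ in (0:ℝ)..1, |c.S i σ ^ 2 * c.y i σ * c.w R i σ| :=
    intervalIntegral.abs_integral_le_integral_abs zero_le_one
  have h2 : (∫ σ in (0:ℝ)..1, |c.S i σ ^ 2 * c.y i σ * c.w R i σ|) ≤
      ∫ σ in (0:ℝ)..1, Y * (c.dS i σ ^ 2 + c.S i σ ^ 2) := by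
    apply intervalIntegral.integral_mono_on zero_le_one
    · exact (ST9a_cint (((hS.pow 2).mul (hc.y_cont i)).mul (hc.w_cont i))).abs
    · exact ST9a_cint (continuousOn_const.mul ((hdS.pow 2).add (hS.pow 2)))
    · intro σ hσ
      rw [abs_mul, abs_mul, abs_of_nonneg (hw0 σ), abs_of_nonneg (sq_nonneg (c.S i σ))]
      have a1 : c.S i σ ^ 2 * |c.y i σ| ≤ c.S i σ ^ 2 * Y :=
        mul_le_mul_of_nonneg_left (hY σ hσ) (sq_nonneg _)
      have a2 : c.S i σ ^ 2 * |c.y i σ| * c.w R i σ ≤ c.S i σ ^ 2 * |c.y i σ| :=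
        mul_le_of_le_one_right (by positivity) (hw1 σ)
      have a3 : 0 ≤ Y * c.dS i σ ^ 2 := by positivity
      calc c.S i σ ^ 2 * |c.y i σ| * c.w R i σ ≤ c.S i σ ^ 2 * Y := a2.trans a1
        _ ≤ Y * (c.dS i σ ^ 2 + c.S i σ ^ 2) := by linarith
  rw [intervalIntegral.integral_const_mul] at h2
  have h3 : 0 ≤ ∫ σ in (0:ℝ)..1, (c.dS i σ ^ 2 + c.S i σ ^ 2) :=
    intervalIntegral.integral_nonneg zero_le_one (fun σ _ => by positivity)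
  have h4 := h1.trans h2
  have h5 : 0 ≤ Y * ∫ σ in (0:ℝ)..1, (c.dS i σ ^ 2 + c.S i σ ^ 2) := mul_nonneg hY0 h3
  calc c.L i * |∫ σ in (0:ℝ)..1, c.S i σ ^ 2 * c.y i σ * c.w R i σ|
      ≤ c.L i * (Y * ∫ σ in (0:ℝ)..1, (c.dS i σ ^ 2 + c.S i σ ^ 2)) :=
        mul_le_mul_of_nonneg_left h4 hLp.le
    _ ≤ L * (Y * ∫ σ in (0:ℝ)..1, (c.dS i σ ^ 2 + c.S i σ ^ 2)) :=
        mul_le_mul_of_nonneg_right hL h5
    _ = L * Y * ∫ σ in (0:ℝ)..1, (c.dS i σ ^ 2 + c.S i σ ^ 2) := by ring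

/-- value at the junction of an arc quantity -/
private theorem ST9a_end {f f' : ℝ → ℝ} (hf : C1 f f') :
    f 0 ^ 2 ≤ 2 * ∫ σ in (0:ℝ)..1, (f' σ ^ 2 + f σ ^ 2) := by
  have h := interp hf 0 ⟨le_rfl, zero_le_one⟩
  have hfc : ContinuousOn f (Icc 0 1) := fun σ hσ => (hf.1 σ hσ).continuousWithinAt
  have i1 : IntervalIntegrable (fun σ => f' σ ^ 2) volume 0 1 := ST9a_cint (hf.2.pow 2)
  have i2 : IntervalIntegrable (fun σ => f σ ^ 2) volume 0 1 := ST9a_cint (hfc.pow 2)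
  rw [intervalIntegral.integral_add i1 i2]
  set A := ∫ s in (0:ℝ)..1, f s ^ 2
  set B := ∫ s in (0:ℝ)..1, f' s ^ 2
  have hA : 0 ≤ A := intervalIntegral.integral_nonneg zero_le_one (fun σ _ => by positivity)
  have hB : 0 ≤ B := intervalIntegral.integral_nonneg zero_le_one (fun σ _ => by positivity)
  have h1 := Real.sq_sqrt hA
  have h2 := Real.sq_sqrt hB
  nlinarith [sq_nonneg (Real.sqrt A - Real.sqrt B)]

/-- the ray -/
private theorem ST9a_ray {R : ℝ} {c : Raw} (hR : 0 < R) (hc : IsCfg R c)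
    (hth : ∀ σ ∈ Icc (0:ℝ) 1, |c.th 2 σ| ≤ 0.1) (hx0 : 0 ≤ c.x 2 0) (hy0 : |c.y 2 0| ≤ 3) :
    |c.I 2 (fun σ => c.S 2 σ ^ 2 * c.y 2 σ * c.w R 2 σ)| ≤
      10 * (c.S 2 0 ^ 2 + c.Dg R + c.Eg R) := by
  have hLp := hc.L_pos 2
  have hS := hc.S_cont 2
  have hSs := hc.Ss_cont 2
  have hw := hc.w_cont 2
  have hp := hc.p_cont 2
  have hrho := hc.rho_cont 2
  have hw0 : ∀ σ, 0 ≤ c.w R 2 σ := fun σ => mul_nonneg (Real.exp_pos _).le (cut_nonneg _)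
  -- geometry of the ray
  have hgeo : ∀ σ ∈ Icc (0:ℝ) 1, 0 ≤ c.x 2 σ ∧ |c.y 2 σ| ≤ 3 + 0.102 * c.x 2 σ ∧
      0.9 * c.x 2 σ - 0.5 ≤ c.p 2 σ ∧ 0 ≤ Real.cos (c.ang 2 σ) := by
    intro σ hσ
    obtain ⟨hr1, hr2, hr3⟩ := hc.ray_x (ε := 0.1) le_rfl hth (σ := 0) (τ := σ) le_rfl hσ.1 hσ.2
    have hxge : 0 ≤ c.x 2 σ := by
      have : 0 ≤ 0.99 * (c.L 2 * (σ - 0)) := by
        have := hσ.1
        positivity
      linarith
    have hyb : |c.y 2 σ| ≤ 3 + 0.102 * c.x 2 σ := by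
      have h1 : |c.y 2 σ| ≤ |c.y 2 0| + |c.y 2 σ - c.y 2 0| := by
        have := abs_add_le (c.y 2 0) (c.y 2 σ - c.y 2 0)
        simpa using this
      have h2 : (1.02 : ℝ) * 0.1 * (c.x 2 σ - c.x 2 0) ≤ 0.102 * c.x 2 σ := by
        nlinarith
      linarith
    have hcos : 0.995 ≤ Real.cos (c.ang 2 σ) := by
      rw [IsCfg.ang_ray]
      have h1 := Real.one_sub_sq_div_two_le_cos (x := c.th 2 σ)
      have h2 := hth σ hσ
      have h3 : c.th 2 σ ^ 2 ≤ 0.1 ^ 2 := by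
        rw [← sq_abs]; exact pow_le_pow_left₀ (abs_nonneg _) h2 2
      nlinarith
    have hsin : |Real.sin (c.ang 2 σ)| ≤ 0.1 := by
      rw [IsCfg.ang_ray]
      exact (Real.abs_sin_le_abs).trans (hth σ hσ)
    refine ⟨hxge, hyb, ?_, by linarith⟩
    unfold Raw.p
    have h1 : -(0.1 * (3 + 0.102 * c.x 2 σ)) ≤ c.y 2 σ * Real.sin (c.ang 2 σ) := by
      have : |c.y 2 σ * Real.sin (c.ang 2 σ)| ≤ (3 + 0.102 * c.x 2 σ) * 0.1 := by
        rw [abs_mul]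
        exact mul_le_mul hyb hsin (abs_nonneg _) (by positivity)
      have := (abs_le.1 this).1
      linarith
    have h2 : 0.995 * c.x 2 σ ≤ c.x 2 σ * Real.cos (c.ang 2 σ) := by
      have := mul_le_mul_of_nonneg_left hcos hxge
      linarith
    linarith
  -- integration by parts
  have hderiv : ∀ σ ∈ Icc (0:ℝ) 1, HasDerivWithinAt (fun σ => c.S 2 σ ^ 2 * c.w R 2 σ)
      (c.L 2 * (2 * c.S 2 σ * c.Ss 2 σ * c.w R 2 σ - c.p 2 σ * (c.S 2 σ ^ 2 * c.w R 2 σ) +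
        c.S 2 σ ^ 2 * (c.rho 2 σ * (deriv cut (c.x 2 σ / R) / R * Real.cos (c.ang 2 σ)))))
      (Icc 0 1) σ := by
    intro σ hσ
    have h1 := ((hc.S_s 2 σ hσ).pow 2).mul (hc.w_s hR 2 hσ)
    refine h1.congr_deriv ?_
    simp only [Pi.pow_apply]
    push_cast
    ring
  have hcont : ContinuousOn (fun σ => c.L 2 * (2 * c.S 2 σ * c.Ss 2 σ * c.w R 2 σ -
      c.p 2 σ * (c.S 2 σ ^ 2 * c.w R 2 σ) +
      c.S 2 σ ^ 2 * (c.rho 2 σ * (deriv cut (c.x 2 σ / R) / R * Real.cos (c.ang 2 σ)))))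
      (Icc 0 1) := by
    refine continuousOn_const.mul ?_
    refine ((((continuousOn_const.mul hS).mul hSs).mul hw).sub
      (hp.mul ((hS.pow 2).mul hw))).add ?_
    refine (hS.pow 2).mul (hrho.mul (((hc.dcut_cont 2).div_const R).mul ?_))
    exact Real.continuous_cos.comp_continuousOn (hc.ang_cont 2)
  have hftc : (∫ σ in (0:ℝ)..1, c.L 2 * (2 * c.S 2 σ * c.Ss 2 σ * c.w R 2 σ -
      c.p 2 σ * (c.S 2 σ ^ 2 * c.w R 2 σ) +
      c.S 2 σ ^ 2 * (c.rho 2 σ * (deriv cut (c.x 2 σ / R) / R * Real.cos (c.ang 2 σ))))) =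
      c.S 2 1 ^ 2 * c.w R 2 1 - c.S 2 0 ^ 2 * c.w R 2 0 := by
    refine intervalIntegral.integral_eq_sub_of_hasDerivAt_of_le
      (f := fun σ => c.S 2 σ ^ 2 * c.w R 2 σ) zero_le_one ?_ ?_ ?_
    · exact (hS.pow 2).mul hw
    · intro σ hσ
      exact (hderiv σ ⟨hσ.1.le, hσ.2.le⟩).hasDerivAt (Icc_mem_nhds hσ.1 hσ.2)
    · exact ST9a_cint hcont
  have hw1 : c.w R 2 1 = 0 := by
    unfold Raw.w
    rw [hc.x_far, div_self hR.ne', cut_zero (by norm_num), mul_zero]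
  have hw00 : c.w R 2 0 ≤ 1 := by
    unfold Raw.w
    refine mul_le_one₀ ?_ (cut_nonneg _) (cut_le_one _)
    unfold Raw.rho
    rw [Real.exp_le_one_iff]
    have := sq_nonneg (c.x 2 0)
    have := sq_nonneg (c.y 2 0)
    linarith
  rw [hw1, mul_zero, zero_sub, intervalIntegral.integral_const_mul] at hftc
  -- integrals
  have iw : IntervalIntegrable (fun σ => c.S 2 σ ^ 2 * c.w R 2 σ) volume 0 1 :=
    ST9a_cint ((hS.pow 2).mul hw)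
  have ipw : IntervalIntegrable (fun σ => c.p 2 σ * (c.S 2 σ ^ 2 * c.w R 2 σ)) volume 0 1 :=
    ST9a_cint (hp.mul ((hS.pow 2).mul hw))
  have iSs : IntervalIntegrable (fun σ => 2 * c.S 2 σ * c.Ss 2 σ * c.w R 2 σ) volume 0 1 :=
    ST9a_cint (((continuousOn_const.mul hS).mul hSs).mul hw)
  have icut : IntervalIntegrable (fun σ => c.S 2 σ ^ 2 * (c.rho 2 σ *
      (deriv cut (c.x 2 σ / R) / R * Real.cos (c.ang 2 σ)))) volume 0 1 :=
    ST9a_cint ((hS.pow 2).mul (hrho.mul (((hc.dcut_cont 2).div_const R).mul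
      (Real.continuous_cos.comp_continuousOn (hc.ang_cont 2)))))
  have iE : IntervalIntegrable (fun σ => c.Ss 2 σ ^ 2 * c.w R 2 σ) volume 0 1 :=
    ST9a_cint ((hSs.pow 2).mul hw)
  rw [intervalIntegral.integral_add (iSs.sub ipw) icut,
    intervalIntegral.integral_sub iSs ipw] at hftc
  have hcutneg : (∫ σ in (0:ℝ)..1, c.S 2 σ ^ 2 * (c.rho 2 σ *
      (deriv cut (c.x 2 σ / R) / R * Real.cos (c.ang 2 σ)))) ≤ 0 := by
    have : 0 ≤ ∫ σ in (0:ℝ)..1, -(c.S 2 σ ^ 2 * (c.rho 2 σ *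
        (deriv cut (c.x 2 σ / R) / R * Real.cos (c.ang 2 σ)))) := by
      apply intervalIntegral.integral_nonneg zero_le_one
      intro σ hσ
      have h1 := cut_deriv_nonpos (c.x 2 σ / R)
      have h2 := (hgeo σ hσ).2.2.2
      have h3 : 0 ≤ -deriv cut (c.x 2 σ / R) / R := div_nonneg (by linarith) hR.le
      have h4 : 0 < c.rho 2 σ := Real.exp_pos _
      have : -(c.S 2 σ ^ 2 * (c.rho 2 σ *
        (deriv cut (c.x 2 σ / R) / R * Real.cos (c.ang 2 σ)))) = c.S 2 σ ^ 2 * (c.rho 2 σ *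
        ((-deriv cut (c.x 2 σ / R) / R) * Real.cos (c.ang 2 σ))) := by ring
      rw [this]
      positivity
    rw [intervalIntegral.integral_neg] at this
    linarith
  have hSsb : (∫ σ in (0:ℝ)..1, 2 * c.S 2 σ * c.Ss 2 σ * c.w R 2 σ) ≤
      (∫ σ in (0:ℝ)..1, c.S 2 σ ^ 2 * c.w R 2 σ) + ∫ σ in (0:ℝ)..1, c.Ss 2 σ ^ 2 * c.w R 2 σ := by
    rw [← intervalIntegral.integral_add iw iE]
    apply intervalIntegral.integral_mono_on zero_le_one iSs (iw.add iE)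
    intro σ _
    have := mul_nonneg (sq_nonneg (c.S 2 σ - c.Ss 2 σ)) (hw0 σ)
    nlinarith
  have hDg : c.Dg R = c.L 2 * ∫ σ in (0:ℝ)..1, c.S 2 σ ^ 2 * c.w R 2 σ := rfl
  have hEg : c.Eg R = c.L 2 * ∫ σ in (0:ℝ)..1, c.Ss 2 σ ^ 2 * c.w R 2 σ := rfl
  set ID := ∫ σ in (0:ℝ)..1, c.S 2 σ ^ 2 * c.w R 2 σ with hID
  set IE := ∫ σ in (0:ℝ)..1, c.Ss 2 σ ^ 2 * c.w R 2 σ with hIE
  set IP := ∫ σ in (0:ℝ)..1, c.p 2 σ * (c.S 2 σ ^ 2 * c.w R 2 σ) with hIP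
  set IS := ∫ σ in (0:ℝ)..1, 2 * c.S 2 σ * c.Ss 2 σ * c.w R 2 σ with hIS
  set IC := ∫ σ in (0:ℝ)..1, c.S 2 σ ^ 2 * (c.rho 2 σ *
      (deriv cut (c.x 2 σ / R) / R * Real.cos (c.ang 2 σ))) with hIC
  have hID0 : 0 ≤ ID := intervalIntegral.integral_nonneg zero_le_one
    (fun σ _ => mul_nonneg (sq_nonneg _) (hw0 σ))
  have hIE0 : 0 ≤ IE := intervalIntegral.integral_nonneg zero_le_one
    (fun σ _ => mul_nonneg (sq_nonneg _) (hw0 σ))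
  have hPb : c.L 2 * IP ≤ c.S 2 0 ^ 2 + c.Dg R + c.Eg R := by
    have e1 : c.L 2 * IP = c.S 2 0 ^ 2 * c.w R 2 0 + c.L 2 * IS + c.L 2 * IC := by
      linarith
    have e2 : c.S 2 0 ^ 2 * c.w R 2 0 ≤ c.S 2 0 ^ 2 :=
      mul_le_of_le_one_right (sq_nonneg _) hw00
    have e3 : c.L 2 * IS ≤ c.L 2 * (ID + IE) := mul_le_mul_of_nonneg_left hSsb hLp.le
    have e4 : c.L 2 * IC ≤ 0 := mul_nonpos_of_nonneg_of_nonpos hLp.le hcutneg
    rw [hDg, hEg]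
    linarith
  -- the feedback integral
  have hfb : |∫ σ in (0:ℝ)..1, c.S 2 σ ^ 2 * c.y 2 σ * c.w R 2 σ| ≤ 4 * ID + 0.2 * IP := by
    have h1 : |∫ σ in (0:ℝ)..1, c.S 2 σ ^ 2 * c.y 2 σ * c.w R 2 σ| ≤
        ∫ σ in (0:ℝ)..1, |c.S 2 σ ^ 2 * c.y 2 σ * c.w R 2 σ| :=
      intervalIntegral.abs_integral_le_integral_abs zero_le_one
    have h2 : (∫ σ in (0:ℝ)..1, |c.S 2 σ ^ 2 * c.y 2 σ * c.w R 2 σ|) ≤
        ∫ σ in (0:ℝ)..1, (4 * (c.S 2 σ ^ 2 * c.w R 2 σ) +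
          0.2 * (c.p 2 σ * (c.S 2 σ ^ 2 * c.w R 2 σ))) := by
      apply intervalIntegral.integral_mono_on zero_le_one
      · exact (ST9a_cint (((hS.pow 2).mul (hc.y_cont 2)).mul hw)).abs
      · exact (iw.const_mul 4).add (ipw.const_mul 0.2)
      · intro σ hσ
        obtain ⟨g1, g2, g3, g4⟩ := hgeo σ hσ
        rw [abs_mul, abs_mul, abs_of_nonneg (hw0 σ), abs_of_nonneg (sq_nonneg (c.S 2 σ))]
        have a0 : 0 ≤ c.S 2 σ ^ 2 * c.w R 2 σ := mul_nonneg (sq_nonneg _) (hw0 σ)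
        have a1 : |c.y 2 σ| ≤ 4 + 0.2 * c.p 2 σ := by linarith
        have a2 := mul_le_mul_of_nonneg_right a1 a0
        calc c.S 2 σ ^ 2 * |c.y 2 σ| * c.w R 2 σ = |c.y 2 σ| * (c.S 2 σ ^ 2 * c.w R 2 σ) := by ring
          _ ≤ (4 + 0.2 * c.p 2 σ) * (c.S 2 σ ^ 2 * c.w R 2 σ) := a2
          _ = _ := by ring
    rw [intervalIntegral.integral_add (iw.const_mul 4) (ipw.const_mul 0.2),
      intervalIntegral.integral_const_mul, intervalIntegral.integral_const_mul] at h2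
    exact h1.trans h2
  unfold Raw.I
  rw [abs_mul, abs_of_pos hLp]
  have h6 := mul_le_mul_of_nonneg_left hfb hLp.le
  have h7 : c.L 2 * (4 * ID + 0.2 * IP) = 4 * c.Dg R + 0.2 * (c.L 2 * IP) := by rw [hDg]; ring
  rw [h7] at h6
  have hD0 : 0 ≤ c.Dg R := by rw [hDg]; positivity
  have hE0 : 0 ≤ c.Eg R := by rw [hEg]; positivity
  have hS0 := sq_nonneg (c.S 2 0)
  linarith

/-- ST9a : the cubic feedback term -/
theorem feed_bound (st : Star) : ∃ C > 0, ∃ ε1 > 0, ∃ R1 > 0,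
    ∀ (R : ℝ) (cfg : Raw), R1 ≤ R → IsCfg R cfg → Near st ε1 cfg →
      (∀ σ ∈ Icc (0:ℝ) 1, |cfg.th 2 σ| ≤ ε1) →
      |∑ i, cfg.I i (fun σ => cfg.S i σ ^ 2 * cfg.y i σ * cfg.w R i σ)| ≤
        C * (cfg.N1 + cfg.Dg R + cfg.Eg R) := by
  refine ⟨100, by norm_num, 0.1, by norm_num, 1, by norm_num, ?_⟩
  intro R c hR hc hN hth
  have hR0 : 0 < R := by linarith
  have hls := st.ls_hi
  have hls0 := st.ls_lo
  have hsg : ∀ σ ∈ Icc (0:ℝ) 1, st.sg σ ∈ Icc (0:ℝ) st.ls := by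
    intro σ hσ
    unfold Star.sg
    have h1 := hσ.1
    have h2 := hσ.2
    constructor
    · apply mul_nonneg (by linarith) (by linarith)
    · nlinarith
  have hy0 : ∀ σ ∈ Icc (0:ℝ) 1, |c.y 0 σ| ≤ 2.2 := by
    intro σ hσ
    have h1 := hN.y0 σ hσ
    have h2 := ST9a_y_bound st _ (hsg σ hσ)
    have h3 := abs_le.1 h1
    have h4 := abs_le.1 h2
    rw [abs_le]; constructor <;> linarith
  have hy1 : ∀ σ ∈ Icc (0:ℝ) 1, |c.y 1 σ| ≤ 2.2 := by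
    intro σ hσ
    have h1 := hN.y1 σ hσ
    have h2 := ST9a_y_bound st _ (hsg σ hσ)
    have h3 := abs_le.1 h1
    have h4 := abs_le.1 h2
    rw [abs_le]; constructor <;> linarith
  have hL0 : c.L 0 ≤ 1.6 := by have := (abs_le.1 hN.L0).2; linarith
  have hL1 : c.L 1 ≤ 1.6 := by have := (abs_le.1 hN.L1).2; linarith
  have hA0 := ST9a_arc hc 0 hL0 hy0
  have hA1 := ST9a_arc hc 1 hL1 hy1
  have h0mem : (0:ℝ) ∈ Icc (0:ℝ) 1 := ⟨le_rfl, zero_le_one⟩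
  have hx20 : 0 ≤ c.x 2 0 := by
    have h1 := (abs_le.1 (hN.x0 0 h0mem)).1
    have h2 : st.sg 0 = st.ls := by unfold Star.sg; ring
    rw [h2] at h1
    have h3 := st.xi_lo
    rw [← hc.x_J 0]
    linarith
  have hy20 : |c.y 2 0| ≤ 3 := by
    rw [← hc.y_J 0]
    exact (hy0 0 h0mem).trans (by norm_num)
  have hB := ST9a_ray hR0 hc hth hx20 hy20
  have hE0 := ST9a_end (hc.C1_S 0)
  have hE1 := ST9a_end (hc.C1_S 1)
  have hJ := hc.S_J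
  rw [Fin.sum_univ_three] at hJ
  have hN1 : c.N1 = (∫ σ in (0:ℝ)..1, (c.dS 0 σ ^ 2 + c.S 0 σ ^ 2)) +
    ∫ σ in (0:ℝ)..1, (c.dS 1 σ ^ 2 + c.S 1 σ ^ 2) := rfl
  set A := ∫ σ in (0:ℝ)..1, (c.dS 0 σ ^ 2 + c.S 0 σ ^ 2) with hA
  set B := ∫ σ in (0:ℝ)..1, (c.dS 1 σ ^ 2 + c.S 1 σ ^ 2) with hBd
  have hA' : 0 ≤ A := intervalIntegral.integral_nonneg zero_le_one (fun σ _ => by positivity)
  have hB' : 0 ≤ B := intervalIntegral.integral_nonneg zero_le_one (fun σ _ => by positivity)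
  have hSJ : c.S 2 0 ^ 2 ≤ 4 * (A + B) := by
    have : c.S 2 0 = -(c.S 0 0 + c.S 1 0) := by linarith
    rw [this]
    nlinarith [sq_nonneg (c.S 0 0 - c.S 1 0)]
  have hw0 : ∀ σ, 0 ≤ c.w R 2 σ := fun σ => mul_nonneg (Real.exp_pos _).le (cut_nonneg _)
  have hD0 : 0 ≤ c.Dg R := mul_nonneg (hc.L_pos 2).le
    (intervalIntegral.integral_nonneg zero_le_one (fun σ _ => mul_nonneg (sq_nonneg _) (hw0 σ)))
  have hE0' : 0 ≤ c.Eg R := mul_nonneg (hc.L_pos 2).le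
    (intervalIntegral.integral_nonneg zero_le_one (fun σ _ => mul_nonneg (sq_nonneg _) (hw0 σ)))
  rw [Fin.sum_univ_three]
  refine (abs_add_three _ _ _).trans ?_
  rw [hN1]
  linarith

end Pool.Agent.Helper15.NF
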