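import Pool.Agent.Helper15.NF.SDefs

open Set MeasureTheory intervalIntegral Filter Topology

namespace Pool.Agent.Helper15.NF

theorem ST5_ii {f : ℝ → ℝ} (hf : ContinuousOn f (Icc 0 1)) :
    IntervalIntegrable f volume 0 1 := by
  apply ContinuousOn.intervalIntegrable
  rwa [uIcc_of_le zero_le_one]

/-- Cauchy-Schwarz with a weight -/
theorem ST5_csw {f g w : ℝ → ℝ} (hf : ContinuousOn f (Icc 0 1)) (hg : ContinuousOn g (Icc 0 1))
    (hw : ContinuousOn w (Icc 0 1)) (hw0 : ∀ σ ∈ Icc (0:ℝ) 1, 0 ≤ w σ) :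
    (∫ σ in (0:ℝ)..1, f σ * g σ * w σ) ^ 2 ≤
      (∫ σ in (0:ℝ)..1, f σ ^ 2 * w σ) * ∫ σ in (0:ℝ)..1, g σ ^ 2 * w σ := by
  have i1 : IntervalIntegrable (fun σ => f σ ^ 2 * w σ) volume 0 1 := ST5_ii ((hf.pow 2).mul hw)
  have i2 : IntervalIntegrable (fun σ => f σ * g σ * w σ) volume 0 1 :=
    ST5_ii ((hf.mul hg).mul hw)
  have i3 : IntervalIntegrable (fun σ => g σ ^ 2 * w σ) volume 0 1 := ST5_ii ((hg.pow 2).mul hw)
  have key : ∀ t : ℝ, 0 ≤ (∫ σ in (0:ℝ)..1, f σ ^ 2 * w σ) * (t * t) +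
      (2 * ∫ σ in (0:ℝ)..1, f σ * g σ * w σ) * t + ∫ σ in (0:ℝ)..1, g σ ^ 2 * w σ := by
    intro t
    have h1 : 0 ≤ ∫ σ in (0:ℝ)..1, (t * f σ + g σ) ^ 2 * w σ := by
      apply intervalIntegral.integral_nonneg zero_le_one
      intro σ hσ
      exact mul_nonneg (sq_nonneg _) (hw0 σ hσ)
    have h2 : ∫ σ in (0:ℝ)..1, (t * f σ + g σ) ^ 2 * w σ =
        (t * t) * (∫ σ in (0:ℝ)..1, f σ ^ 2 * w σ) +
        (2 * t) * (∫ σ in (0:ℝ)..1, f σ * g σ * w σ) + ∫ σ in (0:ℝ)..1, g σ ^ 2 * w σ := by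
      rw [← intervalIntegral.integral_const_mul, ← intervalIntegral.integral_const_mul,
        ← intervalIntegral.integral_add (i1.const_mul _) (i2.const_mul _),
        ← intervalIntegral.integral_add ((i1.const_mul _).add (i2.const_mul _)) i3]
      congr 1
      ext σ
      ring
    rw [h2] at h1
    linarith
  have h := discrim_le_zero key
  unfold discrim at h
  nlinarith [h]

/-- Cauchy-Schwarz -/
theorem ST5_cs {f g : ℝ → ℝ} (hf : ContinuousOn f (Icc 0 1)) (hg : ContinuousOn g (Icc 0 1)) :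
    (∫ σ in (0:ℝ)..1, f σ * g σ) ^ 2 ≤ (∫ σ in (0:ℝ)..1, f σ ^ 2) * ∫ σ in (0:ℝ)..1, g σ ^ 2 := by
  have h := ST5_csw hf hg (w := fun _ => 1) continuousOn_const (fun _ _ => zero_le_one)
  simpa using h

theorem ST5_cs1 {f : ℝ → ℝ} (hf : ContinuousOn f (Icc 0 1)) :
    (∫ σ in (0:ℝ)..1, f σ) ^ 2 ≤ ∫ σ in (0:ℝ)..1, f σ ^ 2 := by
  have h := ST5_cs hf (g := fun _ => 1) continuousOn_const
  simpa using h

/-- ST5 -/
theorem interp {f f' : ℝ → ℝ} (hf : C1 f f') : ∀ σ ∈ Icc (0:ℝ) 1,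
    f σ ^ 2 ≤ (∫ s in (0:ℝ)..1, f s ^ 2) +
      2 * Real.sqrt (∫ s in (0:ℝ)..1, f s ^ 2) * Real.sqrt (∫ s in (0:ℝ)..1, f' s ^ 2) := by
  obtain ⟨hd, hc'⟩ := hf
  have hc : ContinuousOn f (Icc 0 1) := fun σ hσ => (hd σ hσ).continuousWithinAt
  have hA : 0 ≤ ∫ s in (0:ℝ)..1, f s ^ 2 :=
    intervalIntegral.integral_nonneg zero_le_one (fun _ _ => sq_nonneg _)
  have hff : ContinuousOn (fun s => 2 * (|f s| * |f' s|)) (Icc 0 1) :=
    continuousOn_const.mul (hc.abs.mul hc'.abs)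
  have hCS : ∫ s in (0:ℝ)..1, 2 * (|f s| * |f' s|) ≤
      2 * Real.sqrt (∫ s in (0:ℝ)..1, f s ^ 2) * Real.sqrt (∫ s in (0:ℝ)..1, f' s ^ 2) := by
    have h1 := ST5_cs hc.abs hc'.abs
    simp only [sq_abs] at h1
    rw [intervalIntegral.integral_const_mul, mul_assoc, ← Real.sqrt_mul hA]
    have h2 := Real.le_sqrt_of_sq_le h1
    linarith
  intro σ hσ
  have hpt : ∀ s ∈ Icc (0:ℝ) 1, f σ ^ 2 - 2 * Real.sqrt (∫ s in (0:ℝ)..1, f s ^ 2) *
      Real.sqrt (∫ s in (0:ℝ)..1, f' s ^ 2) ≤ f s ^ 2 := by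
    intro s hs
    have hgen : ∀ u ∈ Icc (0:ℝ) 1, ∀ v ∈ Icc (0:ℝ) 1, u ≤ v →
        |f v ^ 2 - f u ^ 2| ≤ ∫ s in (0:ℝ)..1, 2 * (|f s| * |f' s|) := by
      intro u hu v hv huv
      have hsub : Icc u v ⊆ Icc (0:ℝ) 1 := Icc_subset_Icc hu.1 hv.2
      have h1 : ∫ s in u..v, 2 * (f s * f' s) = f v ^ 2 - f u ^ 2 := by
        apply intervalIntegral.integral_eq_sub_of_hasDerivAt_of_le huv
          (f := fun s => f s ^ 2) ((hc.pow 2).mono hsub)
        · intro x hx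
          have hx' : x ∈ Ioo (0:ℝ) 1 := ⟨lt_of_le_of_lt hu.1 hx.1, lt_of_lt_of_le hx.2 hv.2⟩
          have h2 := (hd x (Ioo_subset_Icc_self hx')).hasDerivAt (Icc_mem_nhds hx'.1 hx'.2)
          refine (h2.pow 2).congr_deriv ?_
          push_cast
          ring
        · apply ContinuousOn.intervalIntegrable
          rw [uIcc_of_le huv]
          exact (continuousOn_const.mul (hc.mul hc')).mono hsub
      rw [← h1]
      refine (intervalIntegral.abs_integral_le_integral_abs huv).trans ?_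
      have h3 : ∫ s in u..v, |2 * (f s * f' s)| = ∫ s in u..v, 2 * (|f s| * |f' s|) := by
        congr 1
        ext s
        rw [abs_mul, abs_mul, abs_of_pos (by norm_num : (0:ℝ) < 2)]
      rw [h3]
      apply intervalIntegral.integral_mono_interval hu.1 huv hv.2
      · filter_upwards with s
        positivity
      · exact ST5_ii hff
    rcases le_total s σ with h | h
    · have h4 := (abs_le.1 (hgen s hs σ hσ h)).2
      linarith
    · have h4 := (abs_le.1 (hgen σ hσ s hs h)).1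
      linarith
  have h5 : ∫ s in (0:ℝ)..1, (f σ ^ 2 - 2 * Real.sqrt (∫ s in (0:ℝ)..1, f s ^ 2) *
      Real.sqrt (∫ s in (0:ℝ)..1, f' s ^ 2)) ≤ ∫ s in (0:ℝ)..1, f s ^ 2 := by
    apply intervalIntegral.integral_mono_on zero_le_one
    · exact intervalIntegrable_const
    · exact ST5_ii (hc.pow 2)
    · exact hpt
  rw [intervalIntegral.integral_const, sub_zero, one_smul] at h5
  linarith

end Pool.Agent.Helper15.NF
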