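import Pool.Agent.Helper15.NF.U1
import Pool.Agent.Helper15.NF.ST5

open Set MeasureTheory intervalIntegral Filter Topology

namespace Pool.Agent.Helper15.NF

private theorem ST9b_exp {u v : ℝ} (hu : 0 ≤ u) (hv : 0 ≤ v) :
    |Real.exp (-u) - Real.exp (-v)| ≤ |u - v| := by
  have key : ∀ a b : ℝ, 0 ≤ a → a ≤ b → |Real.exp (-a) - Real.exp (-b)| ≤ b - a := by
    intro a b ha hab
    have h1 : Real.exp (-b) ≤ Real.exp (-a) := Real.exp_le_exp.2 (by linarith)
    rw [abs_of_nonneg (by linarith)]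
    have h2 : Real.exp (-b) = Real.exp (-a) * Real.exp (-(b - a)) := by
      rw [← Real.exp_add]
      ring_nf
    have h3 : 1 - (b - a) ≤ Real.exp (-(b - a)) := by
      have := Real.add_one_le_exp (-(b - a))
      linarith
    have h4 : Real.exp (-a) ≤ 1 := Real.exp_le_one_iff.2 (by linarith)
    have h5 : 0 < Real.exp (-a) := Real.exp_pos _
    rw [h2]
    nlinarith
  rcases le_total u v with h | h
  · rw [abs_sub_comm u v, abs_of_nonneg (by linarith : 0 ≤ v - u)]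
    exact key u v hu h
  · rw [abs_sub_comm, abs_of_nonneg (by linarith : 0 ≤ u - v)]
    exact key v u hv h

private theorem ST9b_star_bd (st : Star) {s : ℝ} (hs : s ∈ Icc 0 st.ls) :
    |st.x s| ≤ 1.41 ∧ |st.y s| ≤ 2.03 := by
  have hls := st.ls_hi
  have hsub : Icc 0 s ⊆ Icc (0:ℝ) 1.5 := Icc_subset_Icc le_rfl (by linarith [hs.2])
  have h0 : (0:ℝ) ∈ Icc 0 s := ⟨le_rfl, hs.1⟩
  have h1 : s ∈ Icc 0 s := ⟨hs.1, le_rfl⟩
  have hx := (convex_Icc (0:ℝ) s).norm_image_sub_le_of_norm_hasDerivWithin_le (f := st.x)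
    (f' := fun s => Real.cos (st.a s)) (C := 1)
    (fun u hu => (st.arc.x_s u (hsub hu)).mono hsub)
    (fun u _ => by rw [Real.norm_eq_abs]; exact Real.abs_cos_le_one _) h0 h1
  have hy := (convex_Icc (0:ℝ) s).norm_image_sub_le_of_norm_hasDerivWithin_le (f := st.y)
    (f' := fun s => -Real.sin (st.a s)) (C := 1)
    (fun u hu => (st.arc.y_s u (hsub hu)).mono hsub)
    (fun u _ => by rw [Real.norm_eq_abs, abs_neg]; exact Real.abs_sin_le_one _) h0 h1
  rw [Real.norm_eq_abs, Real.norm_eq_abs, sub_zero, abs_of_nonneg hs.1, one_mul] at hx hy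
  rw [st.arc.x_0, sub_zero] at hx
  have hs2 := hs.2
  refine ⟨by linarith, ?_⟩
  have h2 := abs_le.1 hy
  have h3 := st.ys_lo
  have h4 := st.ys_hi
  rw [abs_le]
  constructor <;> linarith [h2.1, h2.2]

private theorem ST9b_sg (st : Star) {σ : ℝ} (hσ : σ ∈ Icc (0:ℝ) 1) : st.sg σ ∈ Icc 0 st.ls := by
  have h1 := st.ls_lo
  unfold Star.sg
  constructor
  · exact mul_nonneg (by linarith) (by linarith [hσ.2])
  · nlinarith [hσ.1]

/-- comparison of the integrands -/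
private theorem ST9b_pt (st : Star) {η R L x y ang s : ℝ} (hη : 0 < η) (hη1 : η ≤ 0.01)
    (hR : 4 ≤ R) (hs : s ∈ Icc 0 st.ls) (hL : |L - st.ls| ≤ η) (hx : |x - st.x s| ≤ η)
    (hy : |y - st.y s| ≤ η ∨ |y + st.y s| ≤ η) (hang : |Real.cos ang + Real.cos (st.a s)| ≤ η) :
    |L * Real.cos ang * (Real.exp (-((x ^ 2 + y ^ 2) / 2)) * cut (x / R))
      + st.ls * Real.cos (st.a s) * st.rho s| ≤ 10 * η := by
  obtain ⟨bx, by'⟩ := ST9b_star_bd st hs
  have hxs := abs_le.1 bx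
  have hys := abs_le.1 by'
  have hx' := abs_le.1 hx
  have hcut : cut (x / R) = 1 := by
    apply cut_one
    rw [div_le_div_iff₀ (by linarith) (by norm_num)]
    linarith [hx'.2, hxs.2]
  rw [hcut, mul_one]
  have hy2 : |y ^ 2 - st.y s ^ 2| ≤ η * 4.07 := by
    rcases hy with hy | hy
    · have hy' := abs_le.1 hy
      have : y ^ 2 - st.y s ^ 2 = (y - st.y s) * (y + st.y s) := by ring
      rw [this, abs_mul]
      apply mul_le_mul hy _ (abs_nonneg _) hη.le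
      rw [abs_le]
      constructor <;> linarith [hy'.1, hy'.2, hys.1, hys.2]
    · have hy' := abs_le.1 hy
      have : y ^ 2 - st.y s ^ 2 = (y + st.y s) * (y - st.y s) := by ring
      rw [this, abs_mul]
      apply mul_le_mul hy _ (abs_nonneg _) hη.le
      rw [abs_le]
      constructor <;> linarith [hy'.1, hy'.2, hys.1, hys.2]
  have hx2 : |x ^ 2 - st.x s ^ 2| ≤ η * 2.83 := by
    have : x ^ 2 - st.x s ^ 2 = (x - st.x s) * (x + st.x s) := by ring
    rw [this, abs_mul]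
    apply mul_le_mul hx _ (abs_nonneg _) hη.le
    rw [abs_le]
    constructor <;> linarith [hx'.1, hx'.2, hxs.1, hxs.2]
  set ρ1 := Real.exp (-((x ^ 2 + y ^ 2) / 2)) with hρ1
  have hρ : |ρ1 - st.rho s| ≤ 3.5 * η := by
    have h1 : |ρ1 - st.rho s| ≤ |(x ^ 2 + y ^ 2) / 2 - (st.x s ^ 2 + st.y s ^ 2) / 2| :=
      ST9b_exp (by positivity) (by positivity)
    have h2 := abs_le.1 hx2
    have h3 := abs_le.1 hy2
    have h4 : |(x ^ 2 + y ^ 2) / 2 - (st.x s ^ 2 + st.y s ^ 2) / 2| ≤ 3.5 * η := by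
      rw [abs_le]
      constructor <;> linarith [h2.1, h2.2, h3.1, h3.2]
    linarith
  have hρ1 : |ρ1| ≤ 1 := by
    rw [hρ1, abs_of_pos (Real.exp_pos _)]
    exact Real.exp_le_one_iff.2 (by
      have : 0 ≤ (x ^ 2 + y ^ 2) / 2 := by positivity
      linarith)
  have hls1 := st.ls_lo
  have hls2 := st.ls_hi
  have e : L * Real.cos ang * ρ1 + st.ls * Real.cos (st.a s) * st.rho s =
      (L - st.ls) * Real.cos ang * ρ1 + st.ls * (Real.cos ang + Real.cos (st.a s)) * ρ1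
      - st.ls * Real.cos (st.a s) * (ρ1 - st.rho s) := by ring
  have b1 : |(L - st.ls) * Real.cos ang * ρ1| ≤ η := by
    rw [abs_mul, abs_mul]
    have h1 := Real.abs_cos_le_one ang
    calc |L - st.ls| * |Real.cos ang| * |ρ1| ≤ η * 1 * 1 := by gcongr
      _ = η := by ring
  have b2 : |st.ls * (Real.cos ang + Real.cos (st.a s)) * ρ1| ≤ 1.41 * η := by
    rw [abs_mul, abs_mul, abs_of_nonneg (by linarith : (0:ℝ) ≤ st.ls)]
    calc st.ls * |Real.cos ang + Real.cos (st.a s)| * |ρ1| ≤ 1.41 * η * 1 := by gcongr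
      _ = 1.41 * η := by ring
  have b3 : |st.ls * Real.cos (st.a s) * (ρ1 - st.rho s)| ≤ 1.41 * (3.5 * η) := by
    rw [abs_mul, abs_mul, abs_of_nonneg (by linarith : (0:ℝ) ≤ st.ls)]
    have h1 := Real.abs_cos_le_one (st.a s)
    calc st.ls * |Real.cos (st.a s)| * |ρ1 - st.rho s| ≤ 1.41 * 1 * (3.5 * η) := by gcongr
      _ = 1.41 * (3.5 * η) := by ring
  rw [e]
  have t1 := abs_sub ((L - st.ls) * Real.cos ang * ρ1 +
    st.ls * (Real.cos ang + Real.cos (st.a s)) * ρ1) (st.ls * Real.cos (st.a s) * (ρ1 - st.rho s))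
  have t2 := abs_add_le ((L - st.ls) * Real.cos ang * ρ1)
    (st.ls * (Real.cos ang + Real.cos (st.a s)) * ρ1)
  linarith

/-- ST9b : comparison of `D`, `m`, and the area condition -/
theorem compare (st : Star) : ∃ C > 0, ∃ η1 > 0, ∃ R1 > 0, ∀ η ∈ Ioc 0 η1,
    ∀ (R : ℝ) (cfg : Raw), R1 ≤ R → IsCfg R cfg → Near st η cfg →
      (∀ σ ∈ Icc (0:ℝ) 1, |cfg.th 2 σ| ≤ 0.1) →
      cfg.D R ≤ C * cfg.N1 + cfg.Dg R ∧
      (cfg.m R - (st.pr cfg.P + cfg.mg R)) ^ 2 ≤ C * η ^ 2 * cfg.N1 ∧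
      (∫ σ in (0:ℝ)..1, cfg.M σ) ^ 2 ≤ C * η ^ 2 * cfg.N1 ∧
      cfg.m R ^ 2 ≤ C * cfg.D R ∧
      cfg.S 2 0 = -cfg.P 0 ∧
      (∀ i, C1 (cfg.S i) (cfg.dS i)) := by
  refine ⟨1000, by norm_num, 0.01, by norm_num, 4, by norm_num, ?_⟩
  rintro η ⟨hη, hη1⟩ R cfg hR hc hn hth
  have hls1 := st.ls_lo
  have hls2 := st.ls_hi
  have h0m : (0:ℝ) ∈ Icc (0:ℝ) 1 := ⟨le_rfl, zero_le_one⟩
  have hS := hc.S_cont
  have hw := hc.w_cont
  have hang := hc.ang_cont
  have hC1 : ∀ i, C1 (cfg.S i) (cfg.dS i) := fun i => hc.C1_S i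
  have hdS : ∀ i, ContinuousOn (cfg.dS i) (Icc 0 1) := fun i => (hC1 i).2
  have hcos : ∀ i, ContinuousOn (fun σ => Real.cos (cfg.ang i σ)) (Icc 0 1) := fun i =>
    Real.continuous_cos.comp_continuousOn (hang i)
  -- bounds of the weight
  have hρ0 : ∀ i σ, 0 ≤ cfg.rho i σ := fun i σ => (Real.exp_pos _).le
  have hρ1 : ∀ i σ, cfg.rho i σ ≤ 1 := by
    intro i σ
    apply Real.exp_le_one_iff.2
    have : 0 ≤ (cfg.x i σ ^ 2 + cfg.y i σ ^ 2) / 2 := by positivity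
    linarith
  have hw0 : ∀ i σ, 0 ≤ cfg.w R i σ := fun i σ => mul_nonneg (hρ0 i σ) (cut_nonneg _)
  have hwρ : ∀ i σ, cfg.w R i σ ≤ cfg.rho i σ := fun i σ =>
    mul_le_of_le_one_right (hρ0 i σ) (cut_le_one _)
  have hw1 : ∀ i σ, cfg.w R i σ ≤ 1 := fun i σ => (hwρ i σ).trans (hρ1 i σ)
  -- squares
  set A0 := ∫ σ in (0:ℝ)..1, cfg.S 0 σ ^ 2 with hA0
  set A1 := ∫ σ in (0:ℝ)..1, cfg.S 1 σ ^ 2 with hA1
  have hN : A0 + A1 ≤ cfg.N1 := by
    unfold Raw.N1
    apply add_le_add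
    · apply intervalIntegral.integral_mono_on zero_le_one (ST5_ii ((hS 0).pow 2))
        (ST5_ii (((hdS 0).pow 2).add ((hS 0).pow 2)))
      intro σ _
      change cfg.S 0 σ ^ 2 ≤ cfg.dS 0 σ ^ 2 + cfg.S 0 σ ^ 2
      nlinarith [sq_nonneg (cfg.dS 0 σ)]
    · apply intervalIntegral.integral_mono_on zero_le_one (ST5_ii ((hS 1).pow 2))
        (ST5_ii (((hdS 1).pow 2).add ((hS 1).pow 2)))
      intro σ _
      change cfg.S 1 σ ^ 2 ≤ cfg.dS 1 σ ^ 2 + cfg.S 1 σ ^ 2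
      nlinarith [sq_nonneg (cfg.dS 1 σ)]
  have hA0' : 0 ≤ A0 := intervalIntegral.integral_nonneg zero_le_one (fun _ _ => sq_nonneg _)
  have hA1' : 0 ≤ A1 := intervalIntegral.integral_nonneg zero_le_one (fun _ _ => sq_nonneg _)
  have hL0 := abs_le.1 hn.L0
  have hL1 := abs_le.1 hn.L1
  have hLp := hc.L_pos
  -- weighted squares
  have hW : ∀ i, ∫ σ in (0:ℝ)..1, cfg.S i σ ^ 2 * cfg.w R i σ ≤ ∫ σ in (0:ℝ)..1, cfg.S i σ ^ 2 := by
    intro i
    apply intervalIntegral.integral_mono_on zero_le_one (ST5_ii (((hS i).pow 2).mul (hw i)))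
      (ST5_ii ((hS i).pow 2))
    intro σ _
    exact mul_le_of_le_one_right (sq_nonneg _) (hw1 i σ)
  have hW0 : ∀ i, 0 ≤ ∫ σ in (0:ℝ)..1, cfg.S i σ ^ 2 * cfg.w R i σ := by
    intro i
    apply intervalIntegral.integral_nonneg zero_le_one
    intro σ _
    exact mul_nonneg (sq_nonneg _) (hw0 i σ)
  have hD : cfg.D R = cfg.I 0 (fun σ => cfg.S 0 σ ^ 2 * cfg.w R 0 σ) +
      cfg.I 1 (fun σ => cfg.S 1 σ ^ 2 * cfg.w R 1 σ) + cfg.Dg R := by
    unfold Raw.D Raw.Dg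
    rw [Fin.sum_univ_three]
  have hm : cfg.m R = cfg.I 0 (fun σ => cfg.S 0 σ * Real.cos (cfg.ang 0 σ) * cfg.w R 0 σ) +
      cfg.I 1 (fun σ => cfg.S 1 σ * Real.cos (cfg.ang 1 σ) * cfg.w R 1 σ) + cfg.mg R := by
    unfold Raw.m Raw.mg
    rw [Fin.sum_univ_three]
  -- absolute values
  have hcs : ∀ i, (∫ σ in (0:ℝ)..1, |cfg.S i σ|) ^ 2 ≤ ∫ σ in (0:ℝ)..1, cfg.S i σ ^ 2 := by
    intro i
    have := ST5_cs1 (hS i).abs
    simpa only [sq_abs] using this
  have hab : ∀ i, 0 ≤ ∫ σ in (0:ℝ)..1, |cfg.S i σ| := fun i =>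
    intervalIntegral.integral_nonneg zero_le_one (fun _ _ => abs_nonneg _)
  refine ⟨?_, ?_, ?_, ?_, ?_, hC1⟩
  · -- D
    rw [hD]
    unfold Raw.I
    have h1 : cfg.L 0 * ∫ σ in (0:ℝ)..1, cfg.S 0 σ ^ 2 * cfg.w R 0 σ ≤ 1.5 * A0 := by
      apply mul_le_mul (by linarith [hL0.2]) (hW 0) (hW0 0) (by norm_num)
    have h2 : cfg.L 1 * ∫ σ in (0:ℝ)..1, cfg.S 1 σ ^ 2 * cfg.w R 1 σ ≤ 1.5 * A1 := by
      apply mul_le_mul (by linarith [hL1.2]) (hW 1) (hW0 1) (by norm_num)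
    linarith
  · -- m
    have key : ∀ i : Fin 3, |cfg.L i - st.ls| ≤ η →
        (∀ σ ∈ Icc (0:ℝ) 1, |cfg.x i σ - st.x (st.sg σ)| ≤ η) →
        (∀ σ ∈ Icc (0:ℝ) 1, |cfg.y i σ - st.y (st.sg σ)| ≤ η ∨ |cfg.y i σ + st.y (st.sg σ)| ≤ η) →
        (∀ σ ∈ Icc (0:ℝ) 1, |Real.cos (cfg.ang i σ) + Real.cos (st.a (st.sg σ))| ≤ η) →
        |cfg.I i (fun σ => cfg.S i σ * Real.cos (cfg.ang i σ) * cfg.w R i σ) +
          st.ls * ∫ σ in (0:ℝ)..1, cfg.S i σ * Real.cos (st.a (st.sg σ)) * st.rho (st.sg σ)| ≤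
        10 * η * ∫ σ in (0:ℝ)..1, |cfg.S i σ| := by
      intro i hLi hxi hyi hai
      have hsg : ContinuousOn st.sg (Icc 0 1) := by
        unfold Star.sg
        fun_prop
      have hsgm : MapsTo st.sg (Icc 0 1) (Icc 0 1.5) := by
        intro σ hσ
        have := ST9b_sg st hσ
        exact ⟨this.1, by linarith [this.2]⟩
      have hax : ContinuousOn (fun σ => st.x (st.sg σ)) (Icc 0 1) :=
        ContinuousOn.comp (fun s hs => (st.arc.x_s s hs).continuousWithinAt) hsg hsgm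
      have hay : ContinuousOn (fun σ => st.y (st.sg σ)) (Icc 0 1) :=
        ContinuousOn.comp (fun s hs => (st.arc.y_s s hs).continuousWithinAt) hsg hsgm
      have haa : ContinuousOn (fun σ => st.a (st.sg σ)) (Icc 0 1) :=
        ContinuousOn.comp (fun s hs => (st.arc.a_s s hs).continuousWithinAt) hsg hsgm
      have hca : ContinuousOn (fun σ => Real.cos (st.a (st.sg σ))) (Icc 0 1) :=
        Real.continuous_cos.comp_continuousOn haa
      have hrh : ContinuousOn (fun σ => st.rho (st.sg σ)) (Icc 0 1) := by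
        unfold Star.rho
        apply Real.continuous_exp.comp_continuousOn
        exact (((hax.pow 2).add (hay.pow 2)).div_const 2).neg
      have c1 : ContinuousOn (fun σ => cfg.L i * (cfg.S i σ * Real.cos (cfg.ang i σ) * cfg.w R i σ))
          (Icc 0 1) := continuousOn_const.mul (((hS i).mul (hcos i)).mul (hw i))
      have c2 : ContinuousOn (fun σ => st.ls * (cfg.S i σ * Real.cos (st.a (st.sg σ)) *
          st.rho (st.sg σ))) (Icc 0 1) := continuousOn_const.mul (((hS i).mul hca).mul hrh)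
      unfold Raw.I
      rw [← intervalIntegral.integral_const_mul, ← intervalIntegral.integral_const_mul,
        ← intervalIntegral.integral_add (ST5_ii c1) (ST5_ii c2),
        ← intervalIntegral.integral_const_mul]
      refine (intervalIntegral.abs_integral_le_integral_abs zero_le_one).trans ?_
      apply intervalIntegral.integral_mono_on zero_le_one (ST5_ii (c1.add c2).abs)
        (ST5_ii (continuousOn_const.mul (hS i).abs))
      intro σ hσ
      have h1 := ST9b_pt st (ang := cfg.ang i σ) hη hη1 hR (ST9b_sg st hσ) hLi (hxi σ hσ) (hyi σ hσ)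
        (hai σ hσ)
      have h2 : cfg.L i * (cfg.S i σ * Real.cos (cfg.ang i σ) * cfg.w R i σ) +
          st.ls * (cfg.S i σ * Real.cos (st.a (st.sg σ)) * st.rho (st.sg σ)) =
          cfg.S i σ * (cfg.L i * Real.cos (cfg.ang i σ) *
            (Real.exp (-((cfg.x i σ ^ 2 + cfg.y i σ ^ 2) / 2)) * cut (cfg.x i σ / R))
          + st.ls * Real.cos (st.a (st.sg σ)) * st.rho (st.sg σ)) := by
        unfold Raw.w Raw.rho
        ring
      change |cfg.L i * (cfg.S i σ * Real.cos (cfg.ang i σ) * cfg.w R i σ) +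
          st.ls * (cfg.S i σ * Real.cos (st.a (st.sg σ)) * st.rho (st.sg σ))| ≤
          (10 * η) * |cfg.S i σ|
      rw [h2, abs_mul, mul_comm (10 * η)]
      exact mul_le_mul_of_nonneg_left h1 (abs_nonneg _)
    have hlip : ∀ u v : ℝ, |Real.cos u - Real.cos v| ≤ |u - v| := by
      intro u v
      have := Real.abs_cos_sub_cos_le u v
      exact this
    have k0 := key 0 hn.L0 hn.x0 (fun σ hσ => Or.inl (hn.y0 σ hσ)) (by
      intro σ hσ
      have h1 := hn.th0 σ hσ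
      have h2 : cfg.ang 0 σ = Real.pi - (st.a (st.sg σ) -
          (cfg.th 0 σ - (Real.pi / 3 - st.a (st.sg σ)))) := by
        simp [Raw.ang, off]
        ring
      rw [h2, Real.cos_pi_sub]
      have h3 := hlip (st.a (st.sg σ)) (st.a (st.sg σ) -
          (cfg.th 0 σ - (Real.pi / 3 - st.a (st.sg σ))))
      have h4 : st.a (st.sg σ) - (st.a (st.sg σ) -
          (cfg.th 0 σ - (Real.pi / 3 - st.a (st.sg σ)))) =
          cfg.th 0 σ - (Real.pi / 3 - st.a (st.sg σ)) := by ring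
      rw [h4] at h3
      rw [neg_add_eq_sub]
      exact h3.trans h1)
    have k1 := key 1 hn.L1 hn.x1 (fun σ hσ => Or.inr (hn.y1 σ hσ)) (by
      intro σ hσ
      have h1 := hn.th1 σ hσ
      have h2 : cfg.ang 1 σ = st.a (st.sg σ) +
          (cfg.th 1 σ - (st.a (st.sg σ) - Real.pi / 3)) - Real.pi := by
        simp [Raw.ang, off]
        ring
      rw [h2, Real.cos_sub_pi]
      have h3 := hlip (st.a (st.sg σ)) (st.a (st.sg σ) +
          (cfg.th 1 σ - (st.a (st.sg σ) - Real.pi / 3)))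
      have h4 : st.a (st.sg σ) - (st.a (st.sg σ) +
          (cfg.th 1 σ - (st.a (st.sg σ) - Real.pi / 3))) =
          -(cfg.th 1 σ - (st.a (st.sg σ) - Real.pi / 3)) := by ring
      rw [h4, abs_neg] at h3
      rw [neg_add_eq_sub]
      exact h3.trans h1)
    have hpr : st.pr cfg.P = -(st.ls * ∫ σ in (0:ℝ)..1, cfg.S 0 σ * Real.cos (st.a (st.sg σ)) *
        st.rho (st.sg σ)) - st.ls * ∫ σ in (0:ℝ)..1, cfg.S 1 σ * Real.cos (st.a (st.sg σ)) *
        st.rho (st.sg σ) := by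
      have hsg : ContinuousOn st.sg (Icc 0 1) := by
        unfold Star.sg
        fun_prop
      have hsgm : MapsTo st.sg (Icc 0 1) (Icc 0 1.5) := by
        intro σ hσ
        have := ST9b_sg st hσ
        exact ⟨this.1, by linarith [this.2]⟩
      have hax : ContinuousOn (fun σ => st.x (st.sg σ)) (Icc 0 1) :=
        ContinuousOn.comp (fun s hs => (st.arc.x_s s hs).continuousWithinAt) hsg hsgm
      have hay : ContinuousOn (fun σ => st.y (st.sg σ)) (Icc 0 1) :=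
        ContinuousOn.comp (fun s hs => (st.arc.y_s s hs).continuousWithinAt) hsg hsgm
      have haa : ContinuousOn (fun σ => st.a (st.sg σ)) (Icc 0 1) :=
        ContinuousOn.comp (fun s hs => (st.arc.a_s s hs).continuousWithinAt) hsg hsgm
      have hca : ContinuousOn (fun σ => Real.cos (st.a (st.sg σ))) (Icc 0 1) :=
        Real.continuous_cos.comp_continuousOn haa
      have hrh : ContinuousOn (fun σ => st.rho (st.sg σ)) (Icc 0 1) := by
        unfold Star.rho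
        apply Real.continuous_exp.comp_continuousOn
        exact (((hax.pow 2).add (hay.pow 2)).div_const 2).neg
      unfold Star.pr Raw.P
      have hadd : ∫ σ in (0:ℝ)..1, (cfg.S 0 σ + cfg.S 1 σ) * Real.cos (st.a (st.sg σ)) *
          st.rho (st.sg σ) = (∫ σ in (0:ℝ)..1, cfg.S 0 σ * Real.cos (st.a (st.sg σ)) *
          st.rho (st.sg σ)) + ∫ σ in (0:ℝ)..1, cfg.S 1 σ * Real.cos (st.a (st.sg σ)) *
          st.rho (st.sg σ) := by
        have e1 : ContinuousOn (fun σ => cfg.S 0 σ * Real.cos (st.a (st.sg σ)) *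
            st.rho (st.sg σ)) (Icc 0 1) := ((hS 0).mul hca).mul hrh
        have e2 : ContinuousOn (fun σ => cfg.S 1 σ * Real.cos (st.a (st.sg σ)) *
            st.rho (st.sg σ)) (Icc 0 1) := ((hS 1).mul hca).mul hrh
        rw [← intervalIntegral.integral_add (ST5_ii e1) (ST5_ii e2)]
        congr 1
        ext σ
        ring
      rw [hadd]
      ring
    rw [hm, hpr]
    set I0 := cfg.I 0 (fun σ => cfg.S 0 σ * Real.cos (cfg.ang 0 σ) * cfg.w R 0 σ)
    set I1 := cfg.I 1 (fun σ => cfg.S 1 σ * Real.cos (cfg.ang 1 σ) * cfg.w R 1 σ)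
    set J0 := st.ls * ∫ σ in (0:ℝ)..1, cfg.S 0 σ * Real.cos (st.a (st.sg σ)) * st.rho (st.sg σ)
    set J1 := st.ls * ∫ σ in (0:ℝ)..1, cfg.S 1 σ * Real.cos (st.a (st.sg σ)) * st.rho (st.sg σ)
    have e : I0 + I1 + cfg.mg R - (-J0 - J1 + cfg.mg R) = (I0 + J0) + (I1 + J1) := by ring
    rw [e]
    have q0 : (I0 + J0) ^ 2 ≤ 100 * η ^ 2 * A0 := by
      have h1 : (I0 + J0) ^ 2 ≤ (10 * η * ∫ σ in (0:ℝ)..1, |cfg.S 0 σ|) ^ 2 :=
        sq_le_sq' (by linarith [(abs_le.1 k0).1]) (abs_le.1 k0).2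
      have h2 := hcs 0
      have h3 : 0 ≤ 100 * η ^ 2 := by positivity
      have h4 := mul_le_mul_of_nonneg_left h2 h3
      nlinarith
    have q1 : (I1 + J1) ^ 2 ≤ 100 * η ^ 2 * A1 := by
      have h1 : (I1 + J1) ^ 2 ≤ (10 * η * ∫ σ in (0:ℝ)..1, |cfg.S 1 σ|) ^ 2 :=
        sq_le_sq' (by linarith [(abs_le.1 k1).1]) (abs_le.1 k1).2
      have h2 := hcs 1
      have h3 : 0 ≤ 100 * η ^ 2 := by positivity
      have h4 := mul_le_mul_of_nonneg_left h2 h3
      nlinarith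
    have q2 : (I0 + J0 + (I1 + J1)) ^ 2 ≤ 2 * ((I0 + J0) ^ 2 + (I1 + J1) ^ 2) := by
      nlinarith [sq_nonneg ((I0 + J0) - (I1 + J1))]
    have q3 : 0 ≤ η ^ 2 := sq_nonneg _
    have q4 := mul_le_mul_of_nonneg_left hN q3
    have q5 : 0 ≤ η ^ 2 * (A0 + A1) := mul_nonneg q3 (by linarith)
    nlinarith
  · -- M
    have hMi : ∫ σ in (0:ℝ)..1, cfg.M σ = (∫ σ in (0:ℝ)..1, cfg.S 0 σ) -
        ∫ σ in (0:ℝ)..1, cfg.S 1 σ := by
      unfold Raw.M
      rw [← intervalIntegral.integral_sub (ST5_ii (hS 0)) (ST5_ii (hS 1))]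
    have har := hc.area
    unfold Raw.I at har
    rw [hMi]
    set s0 := ∫ σ in (0:ℝ)..1, cfg.S 0 σ
    set s1 := ∫ σ in (0:ℝ)..1, cfg.S 1 σ
    have har' : cfg.L 0 * s0 - cfg.L 1 * s1 = 0 := har
    have c0 : s0 ^ 2 ≤ A0 := ST5_cs1 (hS 0)
    have c1 : s1 ^ 2 ≤ A1 := ST5_cs1 (hS 1)
    have e : st.ls * (s0 - s1) = (st.ls - cfg.L 0) * s0 - (st.ls - cfg.L 1) * s1 := by
      linear_combination har'
    have g0 : ((st.ls - cfg.L 0) * s0) ^ 2 ≤ η ^ 2 * A0 := by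
      rw [mul_pow]
      have h1 : (st.ls - cfg.L 0) ^ 2 ≤ η ^ 2 := by
        apply sq_le_sq'
        · linarith [hL0.2]
        · linarith [hL0.1]
      exact mul_le_mul h1 c0 (sq_nonneg _) (sq_nonneg _)
    have g1 : ((st.ls - cfg.L 1) * s1) ^ 2 ≤ η ^ 2 * A1 := by
      rw [mul_pow]
      have h1 : (st.ls - cfg.L 1) ^ 2 ≤ η ^ 2 := by
        apply sq_le_sq'
        · linarith [hL1.2]
        · linarith [hL1.1]
      exact mul_le_mul h1 c1 (sq_nonneg _) (sq_nonneg _)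
    have g2 : (st.ls * (s0 - s1)) ^ 2 ≤ 2 * (η ^ 2 * A0 + η ^ 2 * A1) := by
      rw [e]
      nlinarith [sq_nonneg ((st.ls - cfg.L 0) * s0 + (st.ls - cfg.L 1) * s1)]
    have g3 : (s0 - s1) ^ 2 ≤ (st.ls * (s0 - s1)) ^ 2 := by
      rw [mul_pow]
      apply le_mul_of_one_le_left (sq_nonneg _)
      nlinarith
    have q3 : 0 ≤ η ^ 2 := sq_nonneg _
    have q4 := mul_le_mul_of_nonneg_left hN q3
    have q5 : 0 ≤ η ^ 2 * (A0 + A1) := mul_nonneg q3 (by linarith)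
    nlinarith
  · -- m ^ 2
    have hx20 : 0 ≤ cfg.x 2 0 := by
      have h1 := abs_le.1 (hn.x0 0 h0m)
      have h2 := st.xi_lo
      have h3 : st.sg 0 = st.ls := by unfold Star.sg; ring
      rw [h3] at h1
      rw [← hc.x_J 0]
      linarith [h1.1]
    have hray := hc.ray_gauss hth hx20
    have hxc := hc.x_cont 2
    have hrc := hc.rho_cont 2
    have hWt : ∀ i, cfg.L i * ∫ σ in (0:ℝ)..1, cfg.w R i σ ≤ 10 := by
      intro i
      have harc : ∀ j, |cfg.L j - st.ls| ≤ η → cfg.L j * ∫ σ in (0:ℝ)..1, cfg.w R j σ ≤ 10 := by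
        intro j hj
        have h1 : ∫ σ in (0:ℝ)..1, cfg.w R j σ ≤ ∫ σ in (0:ℝ)..1, (1:ℝ) := by
          apply intervalIntegral.integral_mono_on zero_le_one (ST5_ii (hw j))
            intervalIntegrable_const
          intro σ _
          exact hw1 j σ
        rw [intervalIntegral.integral_const, sub_zero, one_smul] at h1
        have h2 := (abs_le.1 hj).2
        have h3 := hLp j
        nlinarith
      fin_cases i
      · exact harc 0 hn.L0
      · exact harc 1 hn.L1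
      · refine le_trans ?_ hray
        unfold Raw.I
        apply mul_le_mul_of_nonneg_left _ (hLp 2).le
        apply intervalIntegral.integral_mono_on zero_le_one (ST5_ii (hw 2))
          (ST5_ii (((continuousOn_const.add (hxc.pow 2)).pow 2).mul hrc))
        intro σ _
        refine (hwρ 2 σ).trans ?_
        apply le_mul_of_one_le_left (hρ0 2 σ)
        change 1 ≤ (1 + cfg.x 2 σ ^ 2) ^ 2
        nlinarith [sq_nonneg (cfg.x 2 σ)]
    have hsq : ∀ i, (cfg.I i (fun σ => cfg.S i σ * Real.cos (cfg.ang i σ) * cfg.w R i σ)) ^ 2 ≤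
        10 * cfg.I i (fun σ => cfg.S i σ ^ 2 * cfg.w R i σ) := by
      intro i
      have h1 := ST5_csw (hS i) (hcos i) (hw i) (fun σ _ => hw0 i σ)
      have h2 : ∫ σ in (0:ℝ)..1, Real.cos (cfg.ang i σ) ^ 2 * cfg.w R i σ ≤
          ∫ σ in (0:ℝ)..1, cfg.w R i σ := by
        apply intervalIntegral.integral_mono_on zero_le_one
          (ST5_ii (((hcos i).pow 2).mul (hw i))) (ST5_ii (hw i))
        intro σ _
        exact mul_le_of_le_one_left (hw0 i σ) (Real.cos_sq_le_one _)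
      have h3 := hWt i
      have h4 := hLp i
      have h5 := hW0 i
      unfold Raw.I
      rw [mul_pow]
      have h6 : (∫ σ in (0:ℝ)..1, cfg.S i σ * Real.cos (cfg.ang i σ) * cfg.w R i σ) ^ 2 ≤
          (∫ σ in (0:ℝ)..1, cfg.S i σ ^ 2 * cfg.w R i σ) * ∫ σ in (0:ℝ)..1, cfg.w R i σ :=
        h1.trans (mul_le_mul_of_nonneg_left h2 h5)
      have h7 := mul_le_mul_of_nonneg_left h6 (sq_nonneg (cfg.L i))
      have h8 : cfg.L i ^ 2 * ((∫ σ in (0:ℝ)..1, cfg.S i σ ^ 2 * cfg.w R i σ) *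
          ∫ σ in (0:ℝ)..1, cfg.w R i σ) =
          (cfg.L i * ∫ σ in (0:ℝ)..1, cfg.S i σ ^ 2 * cfg.w R i σ) *
          (cfg.L i * ∫ σ in (0:ℝ)..1, cfg.w R i σ) := by ring
      rw [h8] at h7
      have h9 := mul_le_mul_of_nonneg_left h3 (mul_nonneg h4.le h5)
      linarith
    have hI0 : ∀ i, 0 ≤ cfg.I i (fun σ => cfg.S i σ ^ 2 * cfg.w R i σ) := fun i =>
      mul_nonneg (hLp i).le (hW0 i)
    have hs0 := hsq 0
    have hs1 := hsq 1
    have hs2 := hsq 2
    unfold Raw.m Raw.D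
    rw [Fin.sum_univ_three, Fin.sum_univ_three]
    have p0 := hI0 0
    have p1 := hI0 1
    have p2 := hI0 2
    set u0 := cfg.I 0 (fun σ => cfg.S 0 σ * Real.cos (cfg.ang 0 σ) * cfg.w R 0 σ)
    set u1 := cfg.I 1 (fun σ => cfg.S 1 σ * Real.cos (cfg.ang 1 σ) * cfg.w R 1 σ)
    set u2 := cfg.I 2 (fun σ => cfg.S 2 σ * Real.cos (cfg.ang 2 σ) * cfg.w R 2 σ)
    have q : (u0 + u1 + u2) ^ 2 ≤ 3 * (u0 ^ 2 + u1 ^ 2 + u2 ^ 2) := by
      nlinarith [sq_nonneg (u0 - u1), sq_nonneg (u1 - u2), sq_nonneg (u0 - u2)]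
    linarith
  · have h := hc.S_J
    rw [Fin.sum_univ_three] at h
    unfold Raw.P
    linarith

end Pool.Agent.Helper15.NF
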