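import Pool.Agent.Helper15.NF.ST2
import Pool.Agent.Helper15.NF.ST3
import Pool.Agent.Helper15.NF.ST4
import Pool.Agent.Helper15.NF.ST6
import Pool.Agent.Helper15.NF.ST7
import Pool.Agent.Helper15.NF.ST8
import Pool.Agent.Helper15.NF.ST9a
import Pool.Agent.Helper15.NF.ST9b

open Set MeasureTheory intervalIntegral Filter Topology

namespace Pool.Agent.Helper15.NF

theorem ST10_near_mono {st : Star} {η η' : ℝ} {c : Raw} (h : Near st η c) (hη : η ≤ η') :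
    Near st η' c where
  L0 := h.L0.trans hη
  L1 := h.L1.trans hη
  x0 := fun σ hσ => (h.x0 σ hσ).trans hη
  x1 := fun σ hσ => (h.x1 σ hσ).trans hη
  y0 := fun σ hσ => (h.y0 σ hσ).trans hη
  y1 := fun σ hσ => (h.y1 σ hσ).trans hη
  th0 := fun σ hσ => (h.th0 σ hσ).trans hη
  th1 := fun σ hσ => (h.th1 σ hσ).trans hη

theorem ST10_I_nonneg {R : ℝ} {c : Raw} (hc : IsCfg R c) (i : Fin 3) {f : ℝ → ℝ}
    (hf : ∀ σ, 0 ≤ f σ) : 0 ≤ c.I i f :=
  mul_nonneg (hc.L_pos i).le (integral_nonneg zero_le_one fun σ _ => hf σ)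

theorem ST10_w_nonneg (c : Raw) (R : ℝ) (i : Fin 3) (σ : ℝ) : 0 ≤ c.w R i σ :=
  mul_nonneg (Real.exp_pos _).le (cut_nonneg _)

/-- the ray part of the integrals -/
theorem ST10_split {R : ℝ} {c : Raw} (hc : IsCfg R c) :
    c.I 2 (fun σ => (c.Ss 2 σ ^ 2 - (c.kap 2 σ ^ 2 + 1) * c.S 2 σ ^ 2) * c.w R 2 σ) =
      c.Eg R - c.Kg R - c.Dg R := by
  have hw := hc.w_cont 2
  have hS := hc.S_cont 2
  have hk := hc.kap_cont 2
  have hs := hc.Ss_cont 2
  have i1 : IntervalIntegrable (fun σ => c.Ss 2 σ ^ 2 * c.w R 2 σ) volume 0 1 :=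
    ContinuousOn.intervalIntegrable_of_Icc zero_le_one ((hs.pow 2).mul hw)
  have i2 : IntervalIntegrable (fun σ => c.kap 2 σ ^ 2 * c.S 2 σ ^ 2 * c.w R 2 σ) volume 0 1 :=
    ContinuousOn.intervalIntegrable_of_Icc zero_le_one (((hk.pow 2).mul (hS.pow 2)).mul hw)
  have i3 : IntervalIntegrable (fun σ => c.S 2 σ ^ 2 * c.w R 2 σ) volume 0 1 :=
    ContinuousOn.intervalIntegrable_of_Icc zero_le_one ((hS.pow 2).mul hw)
  unfold Raw.Eg Raw.Kg Raw.Dg Raw.I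
  rw [← mul_sub, ← mul_sub, ← integral_sub i1 i2, ← integral_sub (i1.sub i2) i3]
  congr 1
  refine integral_congr fun σ _ => ?_
  ring

/-- the parallelogram law -/
theorem ST10_N1 {c : Raw} (h0 : C1 (c.S 0) (c.dS 0)) (h1 : C1 (c.S 1) (c.dS 1)) :
    (∫ σ in (0:ℝ)..1, (c.M' σ ^ 2 + c.M σ ^ 2)) + (∫ σ in (0:ℝ)..1, (c.P' σ ^ 2 + c.P σ ^ 2)) =
      2 * c.N1 := by
  have s0 : ContinuousOn (c.S 0) (Icc 0 1) := fun σ hσ => (h0.1 σ hσ).continuousWithinAt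
  have s1 : ContinuousOn (c.S 1) (Icc 0 1) := fun σ hσ => (h1.1 σ hσ).continuousWithinAt
  have cM : IntervalIntegrable (fun σ => c.M' σ ^ 2 + c.M σ ^ 2) volume 0 1 :=
    ContinuousOn.intervalIntegrable_of_Icc zero_le_one
      (((h0.2.sub h1.2).pow 2).add ((s0.sub s1).pow 2))
  have cP : IntervalIntegrable (fun σ => c.P' σ ^ 2 + c.P σ ^ 2) volume 0 1 :=
    ContinuousOn.intervalIntegrable_of_Icc zero_le_one
      (((h0.2.add h1.2).pow 2).add ((s0.add s1).pow 2))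
  have c0 : IntervalIntegrable (fun σ => c.dS 0 σ ^ 2 + c.S 0 σ ^ 2) volume 0 1 :=
    ContinuousOn.intervalIntegrable_of_Icc zero_le_one ((h0.2.pow 2).add (s0.pow 2))
  have c1 : IntervalIntegrable (fun σ => c.dS 1 σ ^ 2 + c.S 1 σ ^ 2) volume 0 1 :=
    ContinuousOn.intervalIntegrable_of_Icc zero_le_one ((h1.2.pow 2).add (s1.pow 2))
  unfold Raw.N1
  rw [← integral_add cM cP, ← integral_add c0 c1, ← intervalIntegral.integral_const_mul]
  refine integral_congr fun σ _ => ?_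
  simp only [Raw.M', Raw.M, Raw.P', Raw.P]
  ring

/-- the arithmetic of the static inequality -/
theorem ST10_arith {c2 c3 c4 C2 C4 C6 C7 C8 C9 Ca K a B δ ε : ℝ}
    {N Dg Eg Qg Kg Fr QM QP IM IP jM m mg pr cc P0 rJ feed far D sD A : ℝ}
    (hc2 : 0 < c2) (hc3 : 0 < c3) (hc4 : 0 < c4) (hC2 : 0 < C2) (hC4 : 0 < C4) (hC6 : 0 < C6)
    (hC7 : 0 < C7) (hC8 : 0 < C8) (hC9 : 0 < C9) (hCa : 0 < Ca) (hK : K = 8 / (c3 + c4))
    (ha0 : 0 < a) (ha2 : a ≤ 2 * c2) (ha3 : a ≤ 2 * c3) (ha4 : a ≤ c4) (ha1 : a ≤ 1)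
    (hB : B = C2 * C9 + K * C9 + C6 + (2 + C4) * C7 + K * Real.sqrt C9 * Ca) (hδ : δ = a / 8)
    (hε : 0 < ε) (hε1 : ε ≤ 1) (hεB : B * ε ≤ a / 8) (hsD : 0 ≤ sD) (hsB : B * sD ≤ a / 8)
    (hN : 0 ≤ N) (hDg : 0 ≤ Dg) (hEg : 0 ≤ Eg) (hQg : 0 ≤ Qg) (hKg : 0 ≤ Kg) (hFr : 0 ≤ Fr)
    (hIM : 0 ≤ IM) (hIP : 0 ≤ IP) (hrJ : 0 ≤ rJ)
    (h1 : A ≤ -QM - QP + C6 * (ε + sD) * N)
    (h2 : c2 * IM - C2 * jM ^ 2 ≤ QM) (h2' : jM ^ 2 ≤ C9 * ε ^ 2 * N)
    (h3 : c3 * IP + 2.3 * rJ * (P0 + cc) ^ 2 + c3 * cc ^ 2 - 4 * cc * pr ≤ QP)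
    (h4 : c4 * (Dg + Eg) + c4 * cc ^ 2 - 1.9 * rJ * (-P0 - cc) ^ 2 - 4 * cc * mg - C4 * ε * Kg ≤
      2 * (Eg - Dg))
    (h5 : IM + IP = 2 * N) (h6 : (m - (pr + mg)) ^ 2 ≤ C9 * ε ^ 2 * N)
    (h7 : Kg ≤ C7 * ε * (Qg + Eg + Fr) + C7 * (ε + sD) * N)
    (h8 : |far| ≤ δ * (Eg + Qg) + C8 * Fr) (h9 : |feed| ≤ Ca * (N + Dg + Eg))
    (h10 : |m| ≤ Real.sqrt C9 * sD) (h11 : D ≤ C9 * N + Dg) :
    A + (-2 * (Eg - Kg - Dg) - Qg) + far - 2 * K * m ^ 2 + K * m * feed ≤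
      -(a / (2 * (C9 + 1))) * D + (B + C8) * Fr := by
  have hs : 0 < c3 + c4 := by positivity
  have hK0 : 0 < K := by rw [hK]; positivity
  have hKs : K * (c3 + c4) = 8 := by rw [hK]; field_simp
  -- Young
  have y1 : 4 * cc * (pr + mg) ≤ (c3 + c4) * cc ^ 2 + K * m ^ 2 + K * (m - (pr + mg)) ^ 2 := by
    have e1 : 0 ≤ ((c3 + c4) * cc - 4 * m) ^ 2 := sq_nonneg _
    have e2 : 0 ≤ ((c3 + c4) * cc + 4 * (m - (pr + mg))) ^ 2 := sq_nonneg _
    have e3 : 0 ≤ K * ((((c3 + c4) * cc - 4 * m) ^ 2 +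
        ((c3 + c4) * cc + 4 * (m - (pr + mg))) ^ 2)) := by positivity
    have e4 : K * ((((c3 + c4) * cc - 4 * m) ^ 2 +
        ((c3 + c4) * cc + 4 * (m - (pr + mg))) ^ 2)) =
        2 * (K * (c3 + c4)) * (c3 + c4) * cc ^ 2 - 8 * (K * (c3 + c4)) * cc * (pr + mg)
          + 16 * K * m ^ 2 + 16 * K * (m - (pr + mg)) ^ 2 := by ring
    rw [e4, hKs] at e3
    linarith only [e3]
  -- the feedback term
  have y2 : K * m * feed ≤ K * Real.sqrt C9 * Ca * sD * (N + Dg + Eg) := by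
    have e1 : m * feed ≤ |m| * |feed| := by
      rw [← abs_mul]; exact le_abs_self _
    have e2 : |m| * |feed| ≤ (Real.sqrt C9 * sD) * (Ca * (N + Dg + Eg)) :=
      mul_le_mul h10 h9 (abs_nonneg _) (by positivity)
    calc K * m * feed = K * (m * feed) := by ring
      _ ≤ K * ((Real.sqrt C9 * sD) * (Ca * (N + Dg + Eg))) :=
          mul_le_mul_of_nonneg_left (e1.trans e2) hK0.le
      _ = _ := by ring
  have y3 : far ≤ δ * (Eg + Qg) + C8 * Fr := (le_abs_self _).trans h8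
  -- squares of ε
  have y4 : ε ^ 2 ≤ ε := by rw [sq]; exact mul_le_of_le_one_left hε.le hε1
  have y5 : C9 * ε ^ 2 * N ≤ C9 * ε * N := by
    have : C9 * N * ε ^ 2 ≤ C9 * N * ε := mul_le_mul_of_nonneg_left y4 (by positivity)
    linarith only [this]
  have y6 : C2 * jM ^ 2 ≤ C2 * C9 * ε * N := by
    have := mul_le_mul_of_nonneg_left (h2'.trans y5) hC2.le
    linarith only [this]
  have y7 : K * (m - (pr + mg)) ^ 2 ≤ K * C9 * ε * N := by
    have := mul_le_mul_of_nonneg_left (h6.trans y5) hK0.le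
    linarith only [this]
  -- the curvature term
  have y8 : (2 + C4 * ε) * Kg ≤ (2 + C4) * (C7 * ε * (Qg + Eg + Fr) + C7 * (ε + sD) * N) := by
    have e1 : C4 * ε ≤ C4 := mul_le_of_le_one_right hC4.le hε1
    calc (2 + C4 * ε) * Kg ≤ (2 + C4) * Kg := mul_le_mul_of_nonneg_right (by linarith) hKg
      _ ≤ _ := mul_le_mul_of_nonneg_left h7 (by positivity)
  -- the gradient terms
  have y9 : a * N ≤ c2 * IM + c3 * IP := by
    have e1 : a * IM ≤ 2 * c2 * IM := mul_le_mul_of_nonneg_right ha2 hIM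
    have e2 : a * IP ≤ 2 * c3 * IP := mul_le_mul_of_nonneg_right ha3 hIP
    have e3 : a * IM + a * IP = 2 * (a * N) := by rw [← mul_add, h5]; ring
    linarith only [e1, e2, e3]
  have y10 : a * (Dg + Eg) ≤ c4 * (Dg + Eg) := mul_le_mul_of_nonneg_right ha4 (by positivity)
  have y11 : a * Qg ≤ Qg := mul_le_of_le_one_left hQg ha1
  have y12 : 0 ≤ rJ * (P0 + cc) ^ 2 := by positivity
  have e0 : (-P0 - cc) ^ 2 = (P0 + cc) ^ 2 := by ring
  rw [e0] at h4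
  -- collect
  have z1 : A + (-2 * (Eg - Kg - Dg) - Qg) + far - 2 * K * m ^ 2 + K * m * feed ≤
      -(a * (N + Dg + Eg + Qg)) + (C2 * C9 + K * C9 + C6) * ε * N + C6 * sD * N
        + (2 + C4) * (C7 * ε * (Qg + Eg + Fr) + C7 * (ε + sD) * N)
        + K * Real.sqrt C9 * Ca * sD * (N + Dg + Eg) + δ * (Eg + Qg) + C8 * Fr
        - K * m ^ 2 := by
    have w1 : 4 * cc * (pr + mg) = 4 * cc * pr + 4 * cc * mg := by ring
    have w2 : (2 + C4 * ε) * Kg = 2 * Kg + C4 * ε * Kg := by ring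
    have w3 : (c3 + c4) * cc ^ 2 = c3 * cc ^ 2 + c4 * cc ^ 2 := by ring
    have w4 : a * (N + Dg + Eg + Qg) = a * N + a * (Dg + Eg) + a * Qg := by ring
    have w5 : (C2 * C9 + K * C9 + C6) * ε * N = C2 * C9 * ε * N + K * C9 * ε * N + C6 * ε * N := by
      ring
    have w6 : C6 * (ε + sD) * N = C6 * ε * N + C6 * sD * N := by ring
    have w7 : 2 * K * m ^ 2 = 2 * (K * m ^ 2) := by ring
    have w8 : 2.3 * rJ * (P0 + cc) ^ 2 = 2.3 * (rJ * (P0 + cc) ^ 2) := by ring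
    have w9 : 1.9 * rJ * (P0 + cc) ^ 2 = 1.9 * (rJ * (P0 + cc) ^ 2) := by ring
    rw [w1] at y1
    rw [w2] at y8
    rw [w3] at y1
    rw [w4, w5, w7]
    rw [w6] at h1
    rw [w8] at h3
    rw [w9] at h4
    generalize rJ * (P0 + cc) ^ 2 = u1 at *
    generalize K * m ^ 2 = u2 at *
    generalize K * (m - (pr + mg)) ^ 2 = u3 at *
    generalize (2 + C4) * (C7 * ε * (Qg + Eg + Fr) + C7 * (ε + sD) * N) = u4 at *
    generalize K * Real.sqrt C9 * Ca * sD * (N + Dg + Eg) = u5 at *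
    generalize K * m * feed = u7 at *
    generalize c3 * cc ^ 2 = u8 at *
    generalize c4 * cc ^ 2 = u9 at *
    generalize C4 * ε * Kg = u10 at *
    generalize c4 * (Dg + Eg) = u11 at *
    generalize c2 * IM = u12 at *
    generalize c3 * IP = u13 at *
    generalize C2 * jM ^ 2 = u14 at *
    generalize 4 * cc * pr = u15 at *
    generalize 4 * cc * mg = u16 at *
    linarith only [y1, y2, y3, y6, y7, y8, y9, y10, y11, y12, h1, h2, h3, h4]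
  have hZ : 0 ≤ N + Dg + Eg + Qg := by positivity
  have hm2 : 0 ≤ K * m ^ 2 := by positivity
  have b0 : 0 ≤ C2 * C9 + K * C9 := by positivity
  have b1 : 0 ≤ (2 + C4) * C7 := by positivity
  have b2 : 0 ≤ K * Real.sqrt C9 * Ca := by positivity
  have z2 : (C2 * C9 + K * C9 + C6) * ε * N + C6 * sD * N
        + (2 + C4) * (C7 * ε * (Qg + Eg + Fr) + C7 * (ε + sD) * N)
        + K * Real.sqrt C9 * Ca * sD * (N + Dg + Eg) ≤
      B * ε * (N + Dg + Eg + Qg) + B * sD * (N + Dg + Eg + Qg) + B * Fr := by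
    have f1 : (2 + C4) * C7 * ε * Fr ≤ B * Fr := by
      apply mul_le_mul_of_nonneg_right _ hFr
      have : (2 + C4) * C7 * ε ≤ (2 + C4) * C7 := mul_le_of_le_one_right b1 hε1
      rw [hB]
      have b3 : 0 ≤ K * Real.sqrt C9 * Ca := b2
      linarith only [this, b0, hC6, b3]
    have f2 : (2 + C4) * C7 * ε * (N + Eg + Qg) + (C2 * C9 + K * C9 + C6) * ε * N ≤
        B * ε * (N + Dg + Eg + Qg) := by
      have g1 : (2 + C4) * C7 * ε * (N + Eg + Qg) ≤ (2 + C4) * C7 * ε * (N + Dg + Eg + Qg) :=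
        mul_le_mul_of_nonneg_left (by linarith) (by positivity)
      have g2 : (C2 * C9 + K * C9 + C6) * ε * N ≤
          (C2 * C9 + K * C9 + C6) * ε * (N + Dg + Eg + Qg) :=
        mul_le_mul_of_nonneg_left (by linarith) (by positivity)
      have g3 : 0 ≤ K * Real.sqrt C9 * Ca * ε * (N + Dg + Eg + Qg) := by positivity
      have g4 : B * ε * (N + Dg + Eg + Qg) = (2 + C4) * C7 * ε * (N + Dg + Eg + Qg)
          + (C2 * C9 + K * C9 + C6) * ε * (N + Dg + Eg + Qg)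
          + K * Real.sqrt C9 * Ca * ε * (N + Dg + Eg + Qg) := by rw [hB]; ring
      linarith only [g1, g2, g3, g4]
    have f3 : C6 * sD * N + (2 + C4) * C7 * sD * N
        + K * Real.sqrt C9 * Ca * sD * (N + Dg + Eg) ≤ B * sD * (N + Dg + Eg + Qg) := by
      have g1 : (C6 + (2 + C4) * C7) * sD * N ≤
          (C6 + (2 + C4) * C7) * sD * (N + Dg + Eg + Qg) :=
        mul_le_mul_of_nonneg_left (by linarith) (by positivity)
      have g2 : K * Real.sqrt C9 * Ca * sD * (N + Dg + Eg) ≤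
          K * Real.sqrt C9 * Ca * sD * (N + Dg + Eg + Qg) :=
        mul_le_mul_of_nonneg_left (by linarith) (by positivity)
      have g3 : 0 ≤ (C2 * C9 + K * C9) * sD * (N + Dg + Eg + Qg) := by positivity
      have g4 : B * sD * (N + Dg + Eg + Qg) = (C6 + (2 + C4) * C7) * sD * (N + Dg + Eg + Qg)
          + K * Real.sqrt C9 * Ca * sD * (N + Dg + Eg + Qg)
          + (C2 * C9 + K * C9) * sD * (N + Dg + Eg + Qg) := by rw [hB]; ring
      have g5 : (C6 + (2 + C4) * C7) * sD * N = C6 * sD * N + (2 + C4) * C7 * sD * N := by ring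
      linarith only [g1, g2, g3, g4, g5]
    have f4 : (2 + C4) * (C7 * ε * (Qg + Eg + Fr) + C7 * (ε + sD) * N) =
        (2 + C4) * C7 * ε * Fr + (2 + C4) * C7 * ε * (N + Eg + Qg) + (2 + C4) * C7 * sD * N := by
      ring
    rw [f4]
    linarith only [f1, f2, f3]
  have z3 : B * ε * (N + Dg + Eg + Qg) ≤ a / 8 * (N + Dg + Eg + Qg) :=
    mul_le_mul_of_nonneg_right hεB hZ
  have z4 : B * sD * (N + Dg + Eg + Qg) ≤ a / 8 * (N + Dg + Eg + Qg) :=
    mul_le_mul_of_nonneg_right hsB hZ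
  have z5 : δ * (Eg + Qg) ≤ a / 8 * (N + Dg + Eg + Qg) := by
    rw [hδ]
    exact mul_le_mul_of_nonneg_left (by linarith) (by positivity)
  have z6 : a / (2 * (C9 + 1)) * D ≤ a / 2 * (N + Dg + Eg + Qg) := by
    have g1 : D ≤ (C9 + 1) * (N + Dg + Eg + Qg) := by
      have g2 : 0 ≤ C9 * (Dg + Eg + Qg) := by positivity
      have g3 : (C9 + 1) * (N + Dg + Eg + Qg) =
        C9 * N + N + C9 * (Dg + Eg + Qg) + (Dg + Eg + Qg) := by ring
      rw [g3]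
      linarith only [h11, g2, hN, hDg, hEg, hQg]
    calc a / (2 * (C9 + 1)) * D ≤ a / (2 * (C9 + 1)) * ((C9 + 1) * (N + Dg + Eg + Qg)) :=
          mul_le_mul_of_nonneg_left g1 (by positivity)
      _ = a / 2 * (N + Dg + Eg + Qg) := by field_simp
  have haZ : 0 ≤ a * (N + Dg + Eg + Qg) := by positivity
  have z7 : a / 8 * (N + Dg + Eg + Qg) = a * (N + Dg + Eg + Qg) / 8 := by ring
  have z8 : a / 2 * (N + Dg + Eg + Qg) = a * (N + Dg + Eg + Qg) / 2 := by ring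
  rw [z7] at z3 z4 z5
  rw [z8] at z6
  have z9 : (B + C8) * Fr = B * Fr + C8 * Fr := by ring
  rw [z9]
  linarith only [z1, z2, z3, z4, z5, z6, haZ, hm2]

/-- ST10 : the static inequality -/
theorem static_ineq (st : Star) : ∃ c > 0, ∃ K > 0, ∃ C > 0, ∃ ε0 > 0, ∃ δ0 > 0, ∃ R0 > 0,
    ∀ (R : ℝ) (cfg : Raw), R0 ≤ R → IsCfg R cfg → Near st ε0 cfg →
      (∀ σ ∈ Icc (0:ℝ) 1, |cfg.th 2 σ| ≤ ε0) → cfg.D R ≤ δ0 →
      cfg.rhs R K ≤ -c * cfg.D R + C * cfg.Fr R := by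
  obtain ⟨c2, hc2, C2, hC2, H2⟩ := coerc1 st
  obtain ⟨c3, hc3, H3⟩ := coerc2 st
  obtain ⟨c4, hc4, C4, hC4, ε4, hε4, R4, hR4, H4⟩ := ray_coerc st
  obtain ⟨C6, hC6, ε6, hε6, R6, hR6, H6⟩ := arcs_bound st
  obtain ⟨C7, hC7, ε7, hε7, R7, hR7, H7⟩ := ray_k st
  obtain ⟨ε8, hε8, R8, hR8, H8⟩ := far_bound st
  obtain ⟨Ca, hCa, εa, hεa, Ra, hRa, Ha⟩ := feed_bound st
  obtain ⟨C9, hC9, ε9, hε9, R9, hR9, H9⟩ := compare st
  set K : ℝ := 8 / (c3 + c4) with hK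
  have hK0 : 0 < K := by positivity
  set a : ℝ := min (min (2 * c2) (2 * c3)) (min c4 1) with ha
  have ha0 : 0 < a := by
    rw [ha]
    exact lt_min (lt_min (by positivity) (by positivity)) (lt_min hc4 one_pos)
  have ha2 : a ≤ 2 * c2 := (min_le_left _ _).trans (min_le_left _ _)
  have ha3 : a ≤ 2 * c3 := (min_le_left _ _).trans (min_le_right _ _)
  have ha4 : a ≤ c4 := (min_le_right _ _).trans (min_le_left _ _)
  have ha1 : a ≤ 1 := (min_le_right _ _).trans (min_le_right _ _)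
  set B : ℝ := C2 * C9 + K * C9 + C6 + (2 + C4) * C7 + K * Real.sqrt C9 * Ca with hB
  have hB0 : 0 < B := by positivity
  obtain ⟨C8, hC8, H8'⟩ := H8 (a / 8) (by positivity)
  set ε0 : ℝ := min (min (min ε4 ε6) (min ε7 ε8)) (min (min εa ε9) (min 0.1 (a / (8 * B)))) with hε0
  have hε0p : 0 < ε0 := by
    rw [hε0]
    exact lt_min (lt_min (lt_min hε4 hε6) (lt_min hε7 hε8))
      (lt_min (lt_min hεa hε9) (lt_min (by norm_num) (by positivity)))
  have k4 : ε0 ≤ ε4 := (min_le_left _ _).trans ((min_le_left _ _).trans (min_le_left _ _))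
  have k6 : ε0 ≤ ε6 := (min_le_left _ _).trans ((min_le_left _ _).trans (min_le_right _ _))
  have k7 : ε0 ≤ ε7 := (min_le_left _ _).trans ((min_le_right _ _).trans (min_le_left _ _))
  have k8 : ε0 ≤ ε8 := (min_le_left _ _).trans ((min_le_right _ _).trans (min_le_right _ _))
  have ka : ε0 ≤ εa := (min_le_right _ _).trans ((min_le_left _ _).trans (min_le_left _ _))
  have k9 : ε0 ≤ ε9 := (min_le_right _ _).trans ((min_le_left _ _).trans (min_le_right _ _))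
  have kt : ε0 ≤ 0.1 := (min_le_right _ _).trans ((min_le_right _ _).trans (min_le_left _ _))
  have kB : ε0 ≤ a / (8 * B) :=
    (min_le_right _ _).trans ((min_le_right _ _).trans (min_le_right _ _))
  refine ⟨a / (2 * (C9 + 1)), by positivity, K, hK0, B + C8, by positivity, ε0, hε0p,
    min 1 ((a / (8 * B)) ^ 2), lt_min one_pos (by positivity),
    max (max (max R4 R6) (max R7 R8)) (max Ra R9), ?_, ?_⟩
  · exact lt_of_lt_of_le hRa ((le_max_left _ _).trans (le_max_right _ _))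
  intro R cfg hR hc hn hth hD
  have r4 : R4 ≤ R := ((le_max_left _ _).trans ((le_max_left _ _).trans (le_max_left _ _))).trans hR
  have r6 : R6 ≤ R := ((le_max_right _ _).trans ((le_max_left _ _).trans (le_max_left _ _))).trans hR
  have r7 : R7 ≤ R := ((le_max_left _ _).trans ((le_max_right _ _).trans (le_max_left _ _))).trans hR
  have r8 : R8 ≤ R :=
    ((le_max_right _ _).trans ((le_max_right _ _).trans (le_max_left _ _))).trans hR
  have ra : Ra ≤ R := ((le_max_left _ _).trans (le_max_right _ _)).trans hR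
  have r9 : R9 ≤ R := ((le_max_right _ _).trans (le_max_right _ _)).trans hR
  have hD1 : cfg.D R ≤ 1 := hD.trans (min_le_left _ _)
  have hD2 : cfg.D R ≤ (a / (8 * B)) ^ 2 := hD.trans (min_le_right _ _)
  have hDnn : 0 ≤ cfg.D R := by
    unfold Raw.D
    refine Finset.sum_nonneg fun i _ => ST10_I_nonneg hc i fun σ => ?_
    exact mul_nonneg (sq_nonneg _) (ST10_w_nonneg _ _ _ _)
  obtain ⟨g1, g2, g3, g4, g5, g6⟩ := H9 ε0 ⟨hε0p, k9⟩ R cfg r9 hc hn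
    (fun σ hσ => (hth σ hσ).trans kt)
  have hPc : C1 cfg.P cfg.P' := by
    refine ⟨fun σ hσ => ?_, (g6 0).2.add (g6 1).2⟩
    exact ((g6 0).1 σ hσ).add ((g6 1).1 σ hσ)
  have hMc : C1 cfg.M cfg.M' := by
    refine ⟨fun σ hσ => ?_, (g6 0).2.sub (g6 1).2⟩
    exact ((g6 0).1 σ hσ).sub ((g6 1).1 σ hσ)
  obtain ⟨cc, hcc⟩ := H3 cfg.P cfg.P' hPc
  have h2 := H2 cfg.M cfg.M' hMc
  have h4 := H4 ε0 ⟨hε0p, k4⟩ R cfg r4 hc hn hth hD1 cc
  have h6 := H6 ε0 ⟨hε0p, k6⟩ R cfg r6 hc hn hD1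
  have h7 := H7 ε0 ⟨hε0p, k7⟩ R cfg r7 hc hn hth hD1
  have h8 := H8' R cfg r8 hc (ST10_near_mono hn k8) (fun σ hσ => (hth σ hσ).trans k8)
  have ha' := Ha R cfg ra hc (ST10_near_mono hn ka) (fun σ hσ => (hth σ hσ).trans ka)
  rw [g5] at h4
  have hsD : Real.sqrt (cfg.D R) ≤ a / (8 * B) := by
    rw [show a / (8 * B) = Real.sqrt ((a / (8 * B)) ^ 2) from
      (Real.sqrt_sq (by positivity)).symm]
    exact Real.sqrt_le_sqrt hD2
  have hBx : ∀ x : ℝ, x ≤ a / (8 * B) → B * x ≤ a / 8 := by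
    intro x hx
    have := mul_le_mul_of_nonneg_left hx hB0.le
    have e : B * (a / (8 * B)) = a / 8 := by field_simp
    rwa [e] at this
  have hm : |cfg.m R| ≤ Real.sqrt C9 * Real.sqrt (cfg.D R) := by
    rw [← Real.sqrt_mul hC9.le, ← Real.sqrt_sq_eq_abs]
    exact Real.sqrt_le_sqrt g4
  have hrJ : 0 ≤ st.rJ := (Real.exp_pos _).le
  have key := ST10_arith (N := cfg.N1) (Dg := cfg.Dg R) (Eg := cfg.Eg R) (Qg := cfg.Qg R)
    (Kg := cfg.Kg R) (Fr := cfg.Fr R) (IM := ∫ σ in (0:ℝ)..1, (cfg.M' σ ^ 2 + cfg.M σ ^ 2))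
    (IP := ∫ σ in (0:ℝ)..1, (cfg.P' σ ^ 2 + cfg.P σ ^ 2)) (m := cfg.m R) (mg := cfg.mg R)
    (D := cfg.D R)
    (QM := st.Qs cfg.M cfg.M' - st.hJ * st.rJ / Real.sqrt 3 * cfg.M 0 ^ 2)
    (QP := st.Qs cfg.P cfg.P' + Real.sqrt 3 * st.hJ * st.rJ * cfg.P 0 ^ 2)
    (far := cfg.far R)
    (feed := ∑ i, cfg.I i (fun σ => cfg.S i σ ^ 2 * cfg.y i σ * cfg.w R i σ))
    (A := -2 * (cfg.I 0 (fun σ =>
          (cfg.Ss 0 σ ^ 2 - (cfg.kap 0 σ ^ 2 + 1) * cfg.S 0 σ ^ 2) * cfg.w R 0 σ)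
          + cfg.I 1 (fun σ =>
          (cfg.Ss 1 σ ^ 2 - (cfg.kap 1 σ ^ 2 + 1) * cfg.S 1 σ ^ 2) * cfg.w R 1 σ))
        - (cfg.I 0 (fun σ => cfg.S 0 σ ^ 4 * cfg.w R 0 σ)
          + cfg.I 1 (fun σ => cfg.S 1 σ ^ 4 * cfg.w R 1 σ))
        + cfg.jun) hc2 hc3 hc4 hC2 hC4 hC6 hC7 hC8 hC9 hCa hK ha0 ha2 ha3 ha4 ha1 hB
    (rfl : a / 8 = a / 8) hε0p (kt.trans (by norm_num)) (hBx _ kB) (Real.sqrt_nonneg _)
    (hBx _ hsD)
    (by
      unfold Raw.N1
      refine add_nonneg ?_ ?_ <;>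
      exact integral_nonneg zero_le_one fun σ _ => by positivity)
    (ST10_I_nonneg hc 2 fun σ => mul_nonneg (sq_nonneg _) (ST10_w_nonneg _ _ _ _))
    (ST10_I_nonneg hc 2 fun σ => mul_nonneg (sq_nonneg _) (ST10_w_nonneg _ _ _ _))
    (ST10_I_nonneg hc 2 fun σ => mul_nonneg (by positivity) (ST10_w_nonneg _ _ _ _))
    (ST10_I_nonneg hc 2 fun σ => mul_nonneg (by positivity) (ST10_w_nonneg _ _ _ _))
    (ST10_I_nonneg hc 2 fun σ => mul_nonneg (mul_nonneg (by positivity) (Real.exp_pos _).le)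
      (sq_nonneg _))
    (integral_nonneg zero_le_one fun σ _ => by positivity)
    (integral_nonneg zero_le_one fun σ _ => by positivity)
    hrJ h6 h2 g3 hcc h4 (ST10_N1 (g6 0) (g6 1)) g2 h7 h8 ha' hm g1
  refine le_trans (le_of_eq ?_) key
  unfold Raw.rhs
  rw [← ST10_split hc]
  unfold Raw.Qg
  simp only [Fin.sum_univ_three]
  ring

end Pool.Agent.Helper15.NF
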