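import Pool.Agent.Helper15.NF.Static

/-!
The shrinking lens: upper right quarter, parametrised by arclength from the axis.
`x' = cos a, y' = - sin a, a' = x sin a + y cos a + S` (S = 0 for the exact shrinker).
-/

open Set MeasureTheory intervalIntegral Filter Topology

namespace Pool.Agent.Helper15.NF

/-- arc with source `S`, starting on the axis at height `y 0` with horizontal tangent -/
structure IsArc (l : ℝ) (x y a S : ℝ → ℝ) : Prop where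
  x_s : ∀ s ∈ Icc (0:ℝ) l, HasDerivWithinAt x (Real.cos (a s)) (Icc 0 l) s
  y_s : ∀ s ∈ Icc (0:ℝ) l, HasDerivWithinAt y (-Real.sin (a s)) (Icc 0 l) s
  a_s : ∀ s ∈ Icc (0:ℝ) l,
    HasDerivWithinAt a (x s * Real.sin (a s) + y s * Real.cos (a s) + S s) (Icc 0 l) s
  x_0 : x 0 = 0
  a_0 : a 0 = 0

/-- approximation of cos² of the angle as a function of the first coordinate -/
noncomputable def cpol (u : ℝ) : ℝ := 1 - 0.378 * u ^ 2 - 0.0627 * u ^ 4 - 0.0297 * u ^ 6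

/-- the exact lens arc; `h = x sin a + y cos a` is its curvature -/
structure Star where
  x : ℝ → ℝ
  y : ℝ → ℝ
  a : ℝ → ℝ
  /-- length from the axis to the junction -/
  ls : ℝ
  arc : IsArc 1.5 x y a (fun _ => 0)
  ys_lo : 0.610 ≤ y 0
  ys_hi : y 0 ≤ 0.6135
  ls_lo : 1.39 ≤ ls
  ls_hi : ls ≤ 1.41
  a_ls : a ls = Real.pi / 3
  y_ls : y ls = 0
  xi_lo : 1.187 ≤ x ls
  xi_hi : x ls ≤ 1.197
  /-- curvature bounds -/
  h_lo : ∀ s ∈ Icc (0:ℝ) ls, 0.6 ≤ x s * Real.sin (a s) + y s * Real.cos (a s)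
  h_hi : ∀ s ∈ Icc (0:ℝ) ls, x s * Real.sin (a s) + y s * Real.cos (a s) ≤ 1.05
  /-- profile -/
  prof : ∀ s ∈ Icc (0:ℝ) ls, |Real.cos (a s) ^ 2 - cpol (x s)| ≤ 0.012

namespace Star
variable (st : Star)
/-- curvature of the exact arc -/
noncomputable def h (s : ℝ) : ℝ := st.x s * Real.sin (st.a s) + st.y s * Real.cos (st.a s)
/-- ⟨x,τ⟩ -/
noncomputable def p (s : ℝ) : ℝ := st.x s * Real.cos (st.a s) - st.y s * Real.sin (st.a s)
noncomputable def rho (s : ℝ) : ℝ := Real.exp (-((st.x s ^ 2 + st.y s ^ 2) / 2))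
/-- curvature and weight at the junction -/
noncomputable def hJ : ℝ := st.h st.ls
noncomputable def rJ : ℝ := st.rho st.ls
/-- abscissa of the junction -/
noncomputable def xi : ℝ := st.x st.ls
/-- arclength from the axis of the point with parameter σ (junction at σ = 0) -/
noncomputable def sg (σ : ℝ) : ℝ := st.ls * (1 - σ)
/-- quadratic form of the exact arc; `N'` is the σ-derivative of `N` -/
noncomputable def Qs (N N' : ℝ → ℝ) : ℝ :=
  ∫ σ in (0:ℝ)..1, (N' σ ^ 2 / st.ls - st.ls * (st.h (st.sg σ) ^ 2 + 1) * N σ ^ 2) * st.rho (st.sg σ)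
end Star

/-- arcs 0 and 1 are `η`-close to the exact lens -/
structure Near (st : Star) (η : ℝ) (c : Raw) : Prop where
  L0 : |c.L 0 - st.ls| ≤ η
  L1 : |c.L 1 - st.ls| ≤ η
  x0 : ∀ σ ∈ Icc (0:ℝ) 1, |c.x 0 σ - st.x (st.sg σ)| ≤ η
  x1 : ∀ σ ∈ Icc (0:ℝ) 1, |c.x 1 σ - st.x (st.sg σ)| ≤ η
  y0 : ∀ σ ∈ Icc (0:ℝ) 1, |c.y 0 σ - st.y (st.sg σ)| ≤ η
  y1 : ∀ σ ∈ Icc (0:ℝ) 1, |c.y 1 σ + st.y (st.sg σ)| ≤ η
  th0 : ∀ σ ∈ Icc (0:ℝ) 1, |c.th 0 σ - (Real.pi / 3 - st.a (st.sg σ))| ≤ η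
  th1 : ∀ σ ∈ Icc (0:ℝ) 1, |c.th 1 σ - (st.a (st.sg σ) - Real.pi / 3)| ≤ η

/-- rough window -/
structure Win (st : Star) (c : Raw) : Prop where
  y0 : |c.y 0 1 - st.y 0| ≤ 0.04
  y1 : |c.y 1 1 + st.y 0| ≤ 0.04
  L0 : |c.L 0 - st.ls| ≤ 0.04
  L1 : |c.L 1 - st.ls| ≤ 0.04

end Pool.Agent.Helper15.NF
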