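import Pool.Agent.Helper15.NF.Defs

/-!
Static (fixed time, dimensionless) quantities.
-/

open Set MeasureTheory intervalIntegral Filter Topology

namespace Pool.Agent.Helper15.NF

/-- cut-off: 1 on (-∞,1/2], 0 on [3/4,∞) -/
noncomputable def chi (z : ℝ) : ℝ := Real.smoothTransition (3 - 4 * z)

/-- its square is the weight cut-off -/
noncomputable def cut (z : ℝ) : ℝ := chi z ^ 2

/-- 0 on (-∞,1/4], 1 on [1/2,∞) -/
noncomputable def chf (z : ℝ) : ℝ := Real.smoothTransition (4 * z - 1)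

/-- raw static data: lengths, coordinates, angles, curvature, derivative of `S` -/
structure Raw where
  L : Fin 3 → ℝ
  x : Fin 3 → ℝ → ℝ
  y : Fin 3 → ℝ → ℝ
  th : Fin 3 → ℝ → ℝ
  kap : Fin 3 → ℝ → ℝ
  Ss : Fin 3 → ℝ → ℝ

namespace Raw
variable (c : Raw)

/-- full tangent angle -/
noncomputable def ang (i : Fin 3) (σ : ℝ) : ℝ := c.th i σ + off i
/-- ⟨x,ν⟩ -/
noncomputable def h (i : Fin 3) (σ : ℝ) : ℝ :=
  -(c.x i σ * Real.sin (c.ang i σ)) + c.y i σ * Real.cos (c.ang i σ)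
/-- ⟨x,τ⟩ -/
noncomputable def p (i : Fin 3) (σ : ℝ) : ℝ :=
  c.x i σ * Real.cos (c.ang i σ) + c.y i σ * Real.sin (c.ang i σ)
/-- S = curvature + ⟨x,ν⟩ -/
noncomputable def S (i : Fin 3) (σ : ℝ) : ℝ := c.kap i σ + c.h i σ
/-- Gaussian -/
noncomputable def rho (i : Fin 3) (σ : ℝ) : ℝ := Real.exp (-((c.x i σ ^ 2 + c.y i σ ^ 2) / 2))
/-- Gaussian with cut-off at distance `R` -/
noncomputable def w (R : ℝ) (i : Fin 3) (σ : ℝ) : ℝ := c.rho i σ * cut (c.x i σ / R)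

/-- weighted integral over edge `i` -/
noncomputable def I (i : Fin 3) (f : ℝ → ℝ) : ℝ := c.L i * ∫ σ in (0:ℝ)..1, f σ

noncomputable def D (R : ℝ) : ℝ := ∑ i, c.I i (fun σ => c.S i σ ^ 2 * c.w R i σ)
noncomputable def E (R : ℝ) : ℝ := ∑ i, c.I i (fun σ => c.Ss i σ ^ 2 * c.w R i σ)
noncomputable def m (R : ℝ) : ℝ :=
  ∑ i, c.I i (fun σ => c.S i σ * Real.cos (c.ang i σ) * c.w R i σ)
/-- far part -/
noncomputable def Fr (R : ℝ) : ℝ :=
  c.I 2 (fun σ => (c.S 2 σ ^ 2 + c.kap 2 σ ^ 2) * c.rho 2 σ * chf (c.x 2 σ / R) ^ 2)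

/-- tangential components of the junction velocity, in terms of the normal ones -/
noncomputable def T (i : Fin 3) : ℝ := -(c.S (i + 1) 0 - c.S (i + 2) 0) / Real.sqrt 3

/-- junction term -/
noncomputable def jun : ℝ :=
  c.rho 2 0 * ∑ i, c.T i * (2 * c.kap i 0 * c.S i 0 - c.S i 0 ^ 2)

/-- cut-off terms -/
noncomputable def far (R : ℝ) : ℝ :=
  ∑ i, c.I i (fun σ =>
    (-(2 * c.S i σ * c.Ss i σ * Real.cos (c.ang i σ))
      - c.S i σ ^ 2 * c.p i σ * Real.cos (c.ang i σ)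
      - c.S i σ ^ 2 * c.kap i σ * Real.sin (c.ang i σ)) * c.rho i σ * (deriv cut (c.x i σ / R) / R))

/-- right hand side of the evolution equation of `D` (rescaled time), with feedback constant `K` -/
noncomputable def rhs (R K : ℝ) : ℝ :=
  -2 * (∑ i, c.I i (fun σ => (c.Ss i σ ^ 2 - (c.kap i σ ^ 2 + 1) * c.S i σ ^ 2) * c.w R i σ))
  - (∑ i, c.I i (fun σ => c.S i σ ^ 4 * c.w R i σ))
  + c.jun + c.far R
  - 2 * K * c.m R ^ 2
  + K * c.m R * (∑ i, c.I i (fun σ => c.S i σ ^ 2 * c.y i σ * c.w R i σ))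

end Raw

/-- admissible static configurations; `R` is the first coordinate of the far end -/
structure IsCfg (R : ℝ) (c : Raw) : Prop where
  L_pos : ∀ i, 0 < c.L i
  x_s : ∀ i, ∀ σ ∈ Icc (0:ℝ) 1,
    HasDerivWithinAt (c.x i) (c.L i * Real.cos (c.ang i σ)) (Icc 0 1) σ
  y_s : ∀ i, ∀ σ ∈ Icc (0:ℝ) 1,
    HasDerivWithinAt (c.y i) (c.L i * Real.sin (c.ang i σ)) (Icc 0 1) σ
  th_s : ∀ i, ∀ σ ∈ Icc (0:ℝ) 1, HasDerivWithinAt (c.th i) (c.L i * c.kap i σ) (Icc 0 1) σ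
  S_s : ∀ i, ∀ σ ∈ Icc (0:ℝ) 1, HasDerivWithinAt (c.S i) (c.L i * c.Ss i σ) (Icc 0 1) σ
  kap_cont : ∀ i, ContinuousOn (c.kap i) (Icc 0 1)
  Ss_cont : ∀ i, ContinuousOn (c.Ss i) (Icc 0 1)
  th_J : ∀ i, c.th i 0 = c.th 2 0
  x_J : ∀ i, c.x i 0 = c.x 2 0
  y_J : ∀ i, c.y i 0 = c.y 2 0
  kap_J : ∑ i, c.kap i 0 = 0
  th_axis0 : c.th 0 1 = Real.pi / 3
  th_axis1 : c.th 1 1 = -(Real.pi / 3)
  x_axis0 : c.x 0 1 = 0
  x_axis1 : c.x 1 1 = 0
  x_far : c.x 2 1 = R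
  k_far : c.kap 2 1 = 0
  /-- the area law -/
  area : c.I 0 (c.S 0) - c.I 1 (c.S 1) = 0

/-- the static data of a flow at time `t`, scale `r`, centre `(0,y0)` -/
noncomputable def Flow.raw {a b Lx : ℝ} (F : Flow a b Lx) (r y0 t : ℝ) : Raw where
  L i := F.ell i t / r
  x i σ := F.X i t σ / r
  y i σ := (F.Y i t σ - y0) / r
  th i σ := F.th i t σ
  kap i σ := r * F.k i t σ
  Ss i σ := r ^ 2 * F.ks i t σ - r * F.k i t σ *
    (F.X i t σ / r * Real.cos (F.th i t σ + off i) +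
      (F.Y i t σ - y0) / r * Real.sin (F.th i t σ + off i))

/-- scale -/
noncomputable def rr (T t : ℝ) : ℝ := Real.sqrt (2 * (T - t))

end Pool.Agent.Helper15.NF
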